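import Mathlib

/-! The parts of this file: H18.Ta.Defs, H21.HD.Defs, H21.HD.Defs3, H51.TB.Sys. -/

section

/-!
# Project TA (MP_1dafdd_ag): definitions

There are `ℓ` layers `s = 0, …, ℓ - 1`.  A *cell* is a pair `(u, j)` with `u + j < ℓ`.  A point in the
cell `(u, j)` orders the layers as follows (the rank `rk ℓ u j s` is the position of the layer `s`):
`u+1, …, u+j, u, u+j+1, …, ℓ-1, u-1, u-2, …, 0`.  A point of multiplicity `μ` loads the layer of rank `k`
by `μ - k` (truncated subtraction).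
-/

namespace Pool.Agent.H18.Ta

open Finset

/-- The rank of the layer `s` for a point in the cell `(u, j)`. -/
def rk (ℓ u j s : ℕ) : ℕ :=
  if s < u then ℓ - 1 - s else if s = u then j else if s ≤ u + j then s - u - 1 else s - u

/-- The base of the exponents. -/
def bG (ℓ : ℕ) : ℕ := 4 * (ℓ + 1) ^ 2

/-- The common part of the keys. -/
def kap (ℓ s : ℕ) : ℕ := ∑ i ∈ range (ℓ - s), bG ℓ ^ (i + 1)

/-- The exponent of a point in the cell `(u, j)`. -/
def ex (ℓ u j : ℕ) : ℕ := if j = 0 then 2 * bG ℓ ^ (ℓ - u) else (bG ℓ ^ (ℓ - u) - 1) / j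

end Pool.Agent.H18.Ta

end

section

/-!
Project HD (general fat points in high dimension): definitions, part 1.
-/

namespace Pool.Agent.H21.HD

open MvPolynomial
open scoped Classical

/-- The linear form with coefficient vector `v`. -/
noncomputable def lin {σ : Type*} [Fintype σ] (v : σ → ℂ) : MvPolynomial σ ℂ :=
  ∑ s, C (v s) * X s

/-- The degree `d` part of the ideal generated by the powers `lin (v p) ^ e p`. -/
noncomputable def powSpan {σ P : Type*} [Fintype σ] (d : ℕ) (v : P → σ → ℂ) (e : P → ℕ) :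
    Submodule ℂ (MvPolynomial σ ℂ) :=
  Submodule.span ℂ {F | ∃ p, ∃ g : MvPolynomial σ ℂ, e p ≤ d ∧ g.IsHomogeneous (d - e p) ∧
    F = g * lin (v p) ^ e p}

/-- The powers `lin (v p) ^ e p` are independent in degree `d`. -/
def Indep {σ P : Type*} [Fintype σ] [Fintype P] (d : ℕ) (v : P → σ → ℂ) (e : P → ℕ) : Prop :=
  ∀ g : P → MvPolynomial σ ℂ, (∀ p, (g p).IsHomogeneous (d - e p)) →
    ∑ p, g p * lin (v p) ^ e p = 0 → ∀ p, g p = 0

/-- `φ_0 = 1` and `φ_{j+1} = φ_j - ∑_{e ≤ j} κ_{e+1} binom(j, e) φ_{j-e}`; thus `φ_j / j!` is the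
coefficient of `t^j` in `exp (t - ∑_e κ_e t^e / e!)`. -/
noncomputable def phi (κ : ℕ → ℝ) : ℕ → ℝ
  | 0 => 1
  | (j + 1) => phi κ j - ∑ e : Fin (j + 1), κ (e + 1) * (j.choose e : ℝ) * phi κ (j - e)

/-- `fro r e I j = ∑_{T ⊆ I} (-1)^{|T|} binom(r + j - ∑_T e, r)`, the coefficient of `t^j` in
`∏_{i ∈ I} (1 - t^{e i}) / (1 - t)^{r+1}`. -/
def fro {P : Type*} (r : ℕ) (e : P → ℕ) (I : Finset P) (j : ℕ) : ℤ :=
  ∑ T ∈ I.powerset, (-1) ^ T.card *
    (if ∑ i ∈ T, e i ≤ j then ((r + j - ∑ i ∈ T, e i).choose r : ℤ) else 0)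

/-- The load of the exponent `i`. -/
noncomputable def load {P : Type} (r : ℕ) (e : P → ℕ) (I : Finset P) (i : ℕ) : ℝ :=
  (i.factorial : ℝ) * ((I.filter (fun p => e p = i)).card : ℝ) / ((r : ℝ) + 1) ^ i

/-- The function `f` depends only on the coordinates in `T`. -/
def DepOn {ι : Type*} {B : ι → Type*} (T : Finset ι) (f : (∀ i, B i) → ℂ) : Prop :=
  ∀ x y, (∀ i ∈ T, x i = y i) → f x = f y

/-- The function `F` is polynomial in the parameters. -/
def PolyFun {σ : Type*} (F : (σ → ℂ) → ℂ) : Prop := ∃ N : MvPolynomial σ ℂ, ∀ x, F x = eval x N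

theorem PolyFun.const {σ : Type*} (c : ℂ) : PolyFun (fun _ : σ → ℂ => c) := ⟨C c, by simp⟩

theorem PolyFun.coord {σ : Type*} (s : σ) : PolyFun (fun x : σ → ℂ => x s) := ⟨X s, by simp⟩

theorem PolyFun.add {σ : Type*} {F G : (σ → ℂ) → ℂ} (hF : PolyFun F) (hG : PolyFun G) :
    PolyFun (fun x => F x + G x) := by
  obtain ⟨M, hM⟩ := hF
  obtain ⟨N, hN⟩ := hG
  exact ⟨M + N, fun x => by simp only [map_add, hM, hN]⟩

theorem PolyFun.mul {σ : Type*} {F G : (σ → ℂ) → ℂ} (hF : PolyFun F) (hG : PolyFun G) :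
    PolyFun (fun x => F x * G x) := by
  obtain ⟨M, hM⟩ := hF
  obtain ⟨N, hN⟩ := hG
  exact ⟨M * N, fun x => by simp only [map_mul, hM, hN]⟩

theorem PolyFun.sum {σ κ : Type*} (S : Finset κ) (F : κ → (σ → ℂ) → ℂ)
    (hF : ∀ k ∈ S, PolyFun (F k)) : PolyFun (fun x => ∑ k ∈ S, F k x) := by
  classical
  induction S using Finset.induction_on with
  | empty => simpa using PolyFun.const (σ := σ) 0
  | insert a s ha ih =>
    have h1 := hF a (Finset.mem_insert_self a s)
    have h2 := ih fun k hk => hF k (Finset.mem_insert_of_mem hk)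
    have h3 := h1.add h2
    have h4 : (fun x => ∑ k ∈ insert a s, F k x) = fun x => F a x + ∑ k ∈ s, F k x := by
      funext x
      rw [Finset.sum_insert ha]
    rw [h4]
    exact h3

theorem PolyFun.prod {σ κ : Type*} (S : Finset κ) (F : κ → (σ → ℂ) → ℂ)
    (hF : ∀ k ∈ S, PolyFun (F k)) : PolyFun (fun x => ∏ k ∈ S, F k x) := by
  classical
  induction S using Finset.induction_on with
  | empty => simpa using PolyFun.const (σ := σ) 1
  | insert a s ha ih =>
    have h1 := hF a (Finset.mem_insert_self a s)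
    have h2 := ih fun k hk => hF k (Finset.mem_insert_of_mem hk)
    have h3 := h1.mul h2
    have h4 : (fun x => ∏ k ∈ insert a s, F k x) = fun x => F a x * ∏ k ∈ s, F k x := by
      funext x
      rw [Finset.prod_insert ha]
    rw [h4]
    exact h3

/-- Finitely many nonzero polynomials have a common point of nonvanishing. -/
theorem exists_common {σ κ : Type*} (S : Finset κ) (G : κ → MvPolynomial σ ℂ)
    (hG : ∀ i ∈ S, G i ≠ 0) : ∃ x : σ → ℂ, ∀ i ∈ S, eval x (G i) ≠ 0 := by
  classical
  have h1 : ∏ i ∈ S, G i ≠ 0 := Finset.prod_ne_zero_iff.2 hG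
  obtain ⟨x, hx⟩ : ∃ x : σ → ℂ, eval x (∏ i ∈ S, G i) ≠ 0 := by
    by_contra hcon
    push Not at hcon
    apply h1
    apply MvPolynomial.funext
    intro x
    rw [hcon x, map_zero]
  refine ⟨x, fun i hi => ?_⟩
  rw [map_prod] at hx
  exact Finset.prod_ne_zero_iff.1 hx i hi

end Pool.Agent.H21.HD

end

section

/-!
Project HD: definitions, part 3 (blocks and labels).
-/

namespace Pool.Agent.H21.HD

/-- The rank of a degree in the order `1, 2, 3, …, 0`. -/
noncomputable def rk0 (a : ℕ) : ℕ∞ := if a = 0 then ⊤ else (a : ℕ∞)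

/-- The lexicographic key of a tuple of degrees. -/
noncomputable def key {N : ℕ} (a : Fin N → ℕ) : Lex (Fin N → ℕ∞) := toLex (fun i => rk0 (a i))

open MvPolynomial
open scoped Classical

section

/-- The variables: `N` blocks of variables indexed by `A`, and the labels `Λ`. -/
abbrev Sg (N : ℕ) (A Λ : Type) : Type := (Fin N × A) ⊕ Λ

variable {N : ℕ} {A Λ : Type} [Fintype A] [Fintype Λ]

/-- The block degrees of an exponent vector. -/
def bdeg (γ : Sg N A Λ →₀ ℕ) : Fin N → ℕ := fun i => ∑ a, γ (Sum.inl (i, a))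

/-- The blocks that occur in an exponent vector. -/
noncomputable def bsupp (γ : Sg N A Λ →₀ ℕ) : Finset (Fin N) :=
  Finset.univ.filter (fun i => bdeg γ i ≠ 0)

/-- The coefficient vector of the linear form of a point. -/
noncomputable def vec (c : Finset (Fin N)) (v : Fin N → A → ℂ) (y : Λ → ℂ) : Sg N A Λ → ℂ :=
  Sum.elim (fun x => if x.1 ∈ c then v x.1 x.2 else 0) y

/-- The number of blocks `i ∈ c` in which `γ` involves no variable except the reference one. -/
noncomputable def pureCount (c : Finset (Fin N)) (ref : Fin N → A) (γ : Sg N A Λ →₀ ℕ) : ℕ :=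
  (c.filter (fun i => ∀ a, a ≠ ref i → γ (Sum.inl (i, a)) = 0)).card

/-- The substitution replacing, for `i ∈ c`, the reference variable of the block `i` by the linear
form `∑ a, v i a * X (i, a)`. -/
noncomputable def sbt (c : Finset (Fin N)) (ref : Fin N → A) (v : Fin N → A → ℂ) :
    MvPolynomial (Sg N A Λ) ℂ →ₐ[ℂ] MvPolynomial (Sg N A Λ) ℂ :=
  aeval (Sum.elim
    (fun x => if x.1 ∈ c ∧ x.2 = ref x.1 then ∑ a, C (v x.1 a) * X (Sum.inl (x.1, a))
      else X (Sum.inl x))
    (fun l => X (Sum.inr l)))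

/-- The component of block degrees `a` and label exponents `μ`. -/
noncomputable def comp (a : Fin N → ℕ) (μ : Λ → ℕ) :
    MvPolynomial (Sg N A Λ) ℂ →ₗ[ℂ] MvPolynomial (Sg N A Λ) ℂ :=
  (basisMonomials (Sg N A Λ) ℂ).constr ℂ
    (fun γ => if bdeg γ = a ∧ (fun l => γ (Sum.inr l)) = μ then monomial γ (1 : ℂ) else 0)

end

section

variable {N : ℕ} {A Λ P : Type} [Fintype A] [Fintype Λ] [Fintype P]

/-- The families `ft` admissible in the column of block degrees `a` and label exponents `μ`. -/
def Adm (c : P → Finset (Fin N)) (lab : P → Λ) (ref : P → Fin N → A) (a : Fin N → ℕ) (μ : Λ → ℕ)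
    (ft : P → MvPolynomial (Sg N A Λ) ℂ) : Prop :=
  ∀ p γ, coeff γ (ft p) ≠ 0 → bdeg γ = a ∧ (fun l => γ (Sum.inr l)) = μ ∧
    (c p).card ≤ μ (lab p) + pureCount (c p) (ref p) γ

/-- Injectivity in a column. -/
def ColInj (c : P → Finset (Fin N)) (lab : P → Λ) (ref : P → Fin N → A) (a : Fin N → ℕ)
    (μ : Λ → ℕ) (v : P → Fin N → A → ℂ) : Prop :=
  ∀ ft : P → MvPolynomial (Sg N A Λ) ℂ, Adm c lab ref a μ ft →
    ∑ p, sbt (c p) (ref p) (v p) (ft p) = 0 → ∀ p, ft p = 0

/-- Injectivity for the set of blocks `J`: the multipliers `g p` involve only exponent vectors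
`γ` with `bsupp γ ∪ c p = J`, and only the coefficients of the exponent vectors whose set of
blocks is exactly `J` are required to vanish. -/
def PhiInj (d : ℕ) (J : Finset (Fin N)) (c : P → Finset (Fin N)) (v : P → Fin N → A → ℂ)
    (y : P → Λ → ℂ) : Prop :=
  ∀ g : P → MvPolynomial (Sg N A Λ) ℂ, (∀ p, (g p).IsHomogeneous (d - (c p).card)) →
    (∀ p γ, coeff γ (g p) ≠ 0 → bsupp γ ∪ c p = J) →
    (∀ γ, bsupp γ = J → coeff γ (∑ p, g p * lin (vec (c p) (v p) (y p)) ^ (c p).card) = 0) →
    ∀ p, g p = 0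

end

/-- The coefficient vector of the linear form of a point: block variables only. -/
noncomputable def vecB {N : ℕ} {A : Type} (c : Finset (Fin N)) (v : Fin N → A → ℂ) :
    Fin N × A → ℂ := fun x => if x.1 ∈ c then v x.1 x.2 else 0

/-- The degree in a block. -/
def bdegB {N : ℕ} {A : Type} [Fintype A] (γ : Fin N × A →₀ ℕ) (i : Fin N) : ℕ :=
  ∑ a, γ (i, a)

end Pool.Agent.H21.HD

end

section

/-!
# Project TB: linear systems with polynomially varying conditions

A system `S : Sys E ν T` describes subspaces of `E → ℂ`: for every type `t : T` and every position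
`q : ν → ℂ` there are finitely many linear conditions, indexed by `S.R t`, whose coefficients are
polynomials in the position.
-/

namespace Pool.Agent.H51.TB

open Finset MvPolynomial

/-- Linear conditions on `E → ℂ` whose coefficients are polynomials in the position. -/
structure Sys (E ν T : Type) where
  /-- the indices of the conditions of a type -/
  R : T → Type
  /-- there are finitely many conditions -/
  fin : ∀ t, Finite (R t)
  /-- the coefficients -/
  co : ∀ t, R t → E → MvPolynomial ν ℂ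

/-- A statement about points which holds off the zero set of a nonzero polynomial. -/
def Gn (κ ν : Type) (P : (κ → ν → ℂ) → Prop) : Prop :=
  ∃ G : MvPolynomial (κ × ν) ℂ, G ≠ 0 ∧ ∀ p : κ → ν → ℂ, eval (fun x => p x.1 x.2) G ≠ 0 → P p

section

variable {E ν T : Type} [Fintype E] (S : Sys E ν T)

/-- The solutions for the types `m i` at the positions `p i`. -/
def Sys.V {κ : Type} (m : κ → T) (p : κ → ν → ℂ) : Submodule ℂ (E → ℂ) where
  carrier := {f | ∀ i (r : S.R (m i)), ∑ e, eval (p i) (S.co (m i) r e) * f e = 0}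
  zero_mem' := fun i r => by simp
  add_mem' := by
    intro f g hf hg i r
    have h1 := hf i r
    have h2 := hg i r
    simp only [Pi.add_apply, mul_add, sum_add_distrib]
    rw [h1, h2, add_zero]
  smul_mem' := by
    intro c f hf i r
    have h1 := hf i r
    have h2 : ∑ e, eval (p i) (S.co (m i) r e) * (c • f) e =
        c * ∑ e, eval (p i) (S.co (m i) r e) * f e := by
      rw [mul_sum]
      refine sum_congr rfl fun e _ => ?_
      rw [Pi.smul_apply, smul_eq_mul]
      ring
    rw [h2, h1, mul_zero]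

theorem Sys.mem_V {κ : Type} (m : κ → T) (p : κ → ν → ℂ) (f : E → ℂ) :
    f ∈ S.V m p ↔ ∀ i (r : S.R (m i)), ∑ e, eval (p i) (S.co (m i) r e) * f e = 0 := Iff.rfl

/-- The dimension of the space of solutions at general positions (the smallest one). -/
noncomputable def Sys.gd {κ : Type} (m : κ → T) : ℕ :=
  sInf (Set.range fun p : κ → ν → ℂ => Module.finrank ℂ (S.V m p))

/-- The number of independent conditions of one general point of type `t`. -/
noncomputable def Sys.size (t : T) : ℕ := Fintype.card E - S.gd fun _ : Unit => t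

/-- The spaces of solutions at general positions are not contained in a fixed proper subspace,
unless they vanish. -/
def Sys.Span : Prop :=
  ∀ (κ : Type) [Fintype κ] (m : κ → T) (φ : (E → ℂ) →ₗ[ℂ] ℂ), φ ≠ 0 →
    Gn κ ν (fun p => S.V m p ≤ LinearMap.ker φ) → S.gd m = 0

/-- The type `b` dominates the type `t`. -/
def Sys.Dom (b t : T) : Prop :=
  ∀ q : ν → ℂ, S.V (fun _ : Unit => b) (fun _ => q) ≤ S.V (fun _ : Unit => t) fun _ => q

/-- One more point of type `t`. -/
def ad {κ : Type} (m : κ → T) (t : T) : κ ⊕ Unit → T := Sum.elim m fun _ => t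

end

end Pool.Agent.H51.TB

end
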