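import Pool.Agent.H94.LP5.H18.Ex.Defs
import Pool.Agent.H94.LP5.H18.FatBasic
import Pool.Agent.H94.LP5.H18.FatDefs
import Pool.Agent.H94.LP5.M02

/-! The parts of this file: H18.FatBasic_3, H18.FatBasic_2, H18.FatPerfect, H21.NX.Defs, H21.NX.GenB, H51.TB.Defs. -/

section

namespace Pool.Agent.H18.Fat

open MvPolynomial Finset

theorem coeff_toPoly {n d : ℕ} (f : mons n d → ℂ) (α : mons n d) :
    coeff α.1 (toPoly n d f) = f α := by
  classical
  rw [toPoly_apply, coeff_sum]
  simp only [coeff_monomial, Subtype.coe_inj]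
  simp

theorem toPoly_injective (n d : ℕ) : Function.Injective (toPoly n d) := by
  intro f g h
  funext α
  rw [← coeff_toPoly f α, ← coeff_toPoly g α, h]

theorem toPoly_isHomogeneous {n d : ℕ} (f : mons n d → ℂ) : (toPoly n d f).IsHomogeneous d := by
  rw [toPoly_apply]
  apply IsHomogeneous.sum
  intro α _
  exact isHomogeneous_monomial _ (mem_mons.1 α.2)

theorem exists_toPoly {n d : ℕ} {F : MvPolynomial (Fin n) ℂ} (hF : F.IsHomogeneous d) :
    toPoly n d (fun α => coeff α.1 F) = F := by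
  classical
  ext β
  by_cases hβ : β ∈ mons n d
  · exact coeff_toPoly (fun α => coeff α.1 F) ⟨β, hβ⟩
  · rw [mem_mons] at hβ
    rw [hF.coeff_eq_zero hβ, (toPoly_isHomogeneous _).coeff_eq_zero hβ]

end Pool.Agent.H18.Fat

end

section

namespace Pool.Agent.H18.Fat

open MvPolynomial Finset

theorem coeff_shift_monomial {n : ℕ} (q : Fin n → ℂ) (α β : Fin n →₀ ℕ) (c : ℂ) :
    coeff β (shift q (monomial α c)) = c * tc q α β := by
  classical
  unfold shift
  rw [aeval_monomial, algebraMap_eq, coeff_C_mul, Finsupp.prod_fintype _ _ (by intro i; simp)]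
  congr 1
  have h1 : ∀ j : Fin n, (X j + C (q j) : MvPolynomial (Fin n) ℂ) ^ (α j) =
      ∑ b ∈ range (α j + 1), monomial (Finsupp.single j b)
        (((α j).choose b : ℂ) * q j ^ (α j - b)) := by
    intro j
    rw [add_pow]
    refine sum_congr rfl fun b _ => ?_
    rw [X_pow_eq_monomial, ← C_pow, mul_assoc, mul_comm (C (q j ^ (α j - b)))]
    rw [← C_eq_coe_nat, ← C_mul, mul_comm, C_mul_monomial, mul_one]
  simp_rw [h1]
  rw [prod_univ_sum, coeff_sum]
  have h2 : ∀ x ∈ Fintype.piFinset fun j => range (α j + 1),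
      coeff β (∏ j, monomial (Finsupp.single j (x j))
        (((α j).choose (x j) : ℂ) * q j ^ (α j - x j)) : MvPolynomial (Fin n) ℂ) =
      if x = ⇑β then tc q α β else 0 := by
    intro x _
    rw [← monomial_sum_prod, coeff_monomial]
    have h4 : (∑ j, Finsupp.single j (x j)) = Finsupp.equivFunOnFinite.symm x := by
      rw [Finsupp.equivFunOnFinite_symm_eq_sum]
    rw [h4]
    by_cases hx : x = ⇑β
    · subst hx
      simp [tc]
    · rw [if_neg, if_neg hx]
      intro h5
      apply hx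
      rw [← h5]
      simp
  rw [sum_congr rfl h2, sum_ite_eq']
  split_ifs with h
  · rfl
  · rw [Fintype.mem_piFinset] at h
    push Not at h
    obtain ⟨j, hj⟩ := h
    rw [mem_range] at hj
    symm
    unfold tc
    apply prod_eq_zero (mem_univ j)
    rw [Nat.choose_eq_zero_of_lt (by omega)]
    simp

theorem coeff_shift_toPoly {n d : ℕ} (q : Fin n → ℂ) (β : Fin n →₀ ℕ) (f : mons n d → ℂ) :
    coeff β (shift q (toPoly n d f)) = ∑ α : mons n d, f α * tc q α.1 β := by
  rw [toPoly_apply]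
  unfold shift
  rw [map_sum, coeff_sum]
  exact sum_congr rfl fun α _ => coeff_shift_monomial q α.1 β _

theorem coeff_shift_euler {n d : ℕ} (q : Fin n → ℂ) (β : Fin n →₀ ℕ) (f : mons n d → ℂ) :
    ∑ j, q j * ((β j : ℂ) + 1) * coeff (β + Finsupp.single j 1) (shift q (toPoly n d f)) =
      ((d : ℂ) - (β.degree : ℂ)) * coeff β (shift q (toPoly n d f)) := by
  simp_rw [coeff_shift_toPoly, mul_sum]
  rw [sum_comm]
  refine sum_congr rfl fun α _ => ?_
  have h := tc_euler q α.1 β
  rw [mem_mons.1 α.2] at h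
  have h2 : ∀ j, q j * ((β j : ℂ) + 1) * (f α * tc q α.1 (β + Finsupp.single j 1)) =
      f α * (q j * ((β j : ℂ) + 1) * tc q α.1 (β + Finsupp.single j 1)) := by
    intro j; ring
  rw [sum_congr rfl fun j _ => h2 j, ← mul_sum, h]
  ring

end Pool.Agent.H18.Fat

end

section

namespace Pool.Agent.H18.Fat

open MvPolynomial Finset

/-! ### Counting -/

/-! ### Adding simple points -/

instance finiteDimensional_fatForms {r d : ℕ} {ι : Type*} (p : ι → Fin (r + 1) → ℂ)
    (m : ι → ℕ) : FiniteDimensional ℂ (fatForms r d p m) := by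
  have h1 : fatForms r d p m ≤ LinearMap.range (toPoly (r + 1) d) := by
    intro F hF
    exact ⟨_, exists_toPoly hF.1⟩
  exact Submodule.finiteDimensional_of_le h1

theorem vanishesToOrder_one {n : ℕ} (F : MvPolynomial (Fin n) ℂ) (q : Fin n → ℂ) :
    VanishesToOrder F q 1 ↔ eval q F = 0 := by
  have h1 : coeff 0 (shift q F) = eval q F := by
    unfold shift
    rw [← constantCoeff_eq]
    have h2 : (constantCoeff.comp (aeval (fun j => X j + C (q j) :
        Fin n → MvPolynomial (Fin n) ℂ)).toRingHom) = eval q := by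
      apply ringHom_ext
      · intro c
        simp [algebraMap_eq]
      · intro i
        simp
    exact DFunLike.congr_fun h2 F
  constructor
  · intro h
    rw [← h1]
    exact h 0 (by simp)
  · intro h β hβ
    have : β = 0 := by
      rw [← Finsupp.degree_eq_zero_iff]
      omega
    rw [this, h1, h]

end Pool.Agent.H18.Fat

end

section

/-!
# Project NX: exactness in high dimension, definitions

`ell n m = binom(m + n - 1, n)` is the length of a point of multiplicity `m` in dimension `n`.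
Forms of degree `σ` in `s + 2` variables (dimension `s + 1`): `ell (s + 1) (σ + 1)` exponents;
the exponents with `a l = 0` (dimension `s`): `ell s (σ + 1)`.
-/

namespace Pool.Agent.H21.NX

open Finset MvPolynomial Pool.Agent.H18.Fat

/-- All exponent vectors of degree `σ`. -/
def Sx (ι : Type) [Fintype ι] [DecidableEq ι] (σ : ℕ) : Finset (ι → ℕ) :=
  (Fintype.piFinset fun _ => range (σ + 1)).filter fun a => ∑ i, a i = σ

theorem mem_Sx {ι : Type} [Fintype ι] [DecidableEq ι] {σ : ℕ} {a : ι → ℕ} :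
    a ∈ Sx ι σ ↔ ∑ i, a i = σ := by
  unfold Sx
  rw [mem_filter, Fintype.mem_piFinset]
  constructor
  · exact fun h => h.2
  · intro h
    refine ⟨fun i => ?_, h⟩
    rw [mem_range, Nat.lt_succ_iff, ← h]
    exact single_le_sum (fun j _ => Nat.zero_le (a j)) (mem_univ i)

/-- General points, for a finite index type. -/
def Gen (r : ℕ) (κ : Type) (P : (κ → Fin (r + 1) → ℂ) → Prop) : Prop :=
  ∃ G : MvPolynomial (κ × Fin (r + 1)) ℂ, G ≠ 0 ∧
    ∀ p : κ → Fin (r + 1) → ℂ, eval (fun x => p x.1 x.2) G ≠ 0 → P p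

/-- The dimension of `V_d(Γ)` for general points. -/
noncomputable def gdim (r d : ℕ) {κ : Type} (m : κ → ℕ) : ℕ :=
  sInf (Set.range fun p : κ → Fin (r + 1) → ℂ => Module.finrank ℂ (fatForms r d p m))

end Pool.Agent.H21.NX

end

section

/-!
# Module GenB: the general dimension

Useful: `general_finrank_le`, `finrank_add_length_ge` (H18/FatToric), `finite_fat` (H21/HD/BridgeC),
`Nat.sInf_mem`, `Nat.sInf_le`, `Submodule.finrank_mono`, `Submodule.finrank_sup_add_finrank_inf_eq`,
`finrank_homog'` (H21/HD/BridgeD).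
-/

namespace Pool.Agent.H21.NX

open Finset MvPolynomial Pool.Agent.H18.Fat

namespace GenBX

theorem vanishes_anti {n : ℕ} {F : MvPolynomial (Fin n) ℂ} {q : Fin n → ℂ} {m m' : ℕ}
    (h : m ≤ m') (hF : VanishesToOrder F q m') : VanishesToOrder F q m :=
  fun β hβ => hF β (lt_of_lt_of_le hβ h)

/-- Fewer points. -/
theorem fat_comp_le {r d : ℕ} {ι ι' : Type*} (φ : ι' → ι) (p : ι → Fin (r + 1) → ℂ)
    (m : ι → ℕ) : fatForms r d p m ≤ fatForms r d (fun i => p (φ i)) (fun i => m (φ i)) :=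
  fun _ hF => ⟨hF.1, fun i => hF.2 (φ i)⟩

theorem fat_comp_equiv {r d : ℕ} {ι ι' : Type*} (e : ι' ≃ ι) (p : ι → Fin (r + 1) → ℂ)
    (m : ι → ℕ) : fatForms r d (fun i => p (e i)) (fun i => m (e i)) = fatForms r d p m := by
  apply le_antisymm
  · intro F hF
    refine ⟨hF.1, fun i => ?_⟩
    have := hF.2 (e.symm i)
    simpa using this
  · exact fat_comp_le e p m

theorem gdim_attained (r d : ℕ) {κ : Type} (m : κ → ℕ) :
    ∃ p : κ → Fin (r + 1) → ℂ, Module.finrank ℂ (fatForms r d p m) = gdim r d m := by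
  have h := Nat.sInf_mem (Set.range_nonempty
    fun p : κ → Fin (r + 1) → ℂ => Module.finrank ℂ (fatForms r d p m))
  obtain ⟨p, hp⟩ := h
  exact ⟨p, hp⟩

theorem eval_aeval' {σ τ : Type*} (a : τ → ℂ) (g : σ → MvPolynomial τ ℂ)
    (G : MvPolynomial σ ℂ) : eval a (aeval g G) = eval (fun x => eval a (g x)) G := by
  induction G using MvPolynomial.induction_on with
  | C c => simp
  | add p q hp hq => rw [map_add, map_add, map_add, hp, hq]
  | mul_X p i hp => rw [map_mul, map_mul, map_mul, hp, aeval_X, eval_X]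

end GenBX

open GenBX

theorem gdim_le (r d : ℕ) {κ : Type} (m : κ → ℕ) (p : κ → Fin (r + 1) → ℂ) :
    gdim r d m ≤ Module.finrank ℂ (fatForms r d p m) :=
  Nat.sInf_le ⟨p, rfl⟩

theorem gdim_comp_equiv (r d : ℕ) {κ κ' : Type} (e : κ' ≃ κ) (m : κ → ℕ) :
    gdim r d (fun i => m (e i)) = gdim r d m := by
  apply le_antisymm
  · obtain ⟨p₀, hp₀⟩ := gdim_attained r d m
    rw [← hp₀, ← fat_comp_equiv e p₀ m]
    exact gdim_le _ _ _ _
  · obtain ⟨p₀, hp₀⟩ := gdim_attained r d (fun i => m (e i))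
    rw [← hp₀, ← fat_comp_equiv e.symm p₀ (fun i => m (e i))]
    have : (fun i => m (e (e.symm i))) = m := by
      funext i
      rw [e.apply_symm_apply]
    rw [this]
    exact gdim_le _ _ _ _

end Pool.Agent.H21.NX

end

section

/-!
# Project TB: definitions

The variables are `Z a b = Fin a ⊕ Fin b` (`X`-variables and `Y`-variables).  The level `j` consists
of the exponents of degree `d` and of degree `j` in the `Y`-variables.  A *type* on a level is a
finite set `Λ` of bidegrees `g = (gx, gy)`: all (Hasse) derivatives of these bidegrees vanish at the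
point.  A *cell* is a pair `c = (u, ρ)` with `u + ρ ≤ d`; it orders the levels `0, …, d` by the ranks
`rk (d + 1) u ρ` (`Pool/Agent/H18/Ta/Defs.lean`): `u+1, …, u+ρ, u, u+ρ+1, …, d, u-1, …, 0`.
-/

namespace Pool.Agent.H51.TB

open Finset MvPolynomial Pool.Agent.H18.Ex Pool.Agent.H21.NX Pool.Agent.H18.Ta

/-- The variables. -/
abbrev Z (a b : ℕ) : Type := Fin a ⊕ Fin b

/-- The degree in the `X`-variables. -/
def xd {a b : ℕ} (α : Z a b → ℕ) : ℕ := ∑ i, α (Sum.inl i)

/-- The degree in the `Y`-variables. -/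
def yd {a b : ℕ} (α : Z a b → ℕ) : ℕ := ∑ i, α (Sum.inr i)

/-- The exponents of the level `j`. -/
def Bx (a b d j : ℕ) : Finset (Z a b → ℕ) := (Sx (Z a b) d).filter fun α => yd α = j

theorem mem_Bx {a b d j : ℕ} {α : Z a b → ℕ} : α ∈ Bx a b d j ↔ xd α + yd α = d ∧ yd α = j := by
  unfold Bx xd yd
  rw [mem_filter, mem_Sx, Fintype.sum_sum_type]

theorem finite_idx (a b : ℕ) (Λ : Finset (ℕ × ℕ)) :
    Finite {β : Z a b → ℕ // (xd β, yd β) ∈ Λ} := by
  obtain ⟨N, hN⟩ : ∃ N : ℕ, ∀ g ∈ Λ, g.1 + g.2 ≤ N :=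
    ⟨Λ.sup fun g => g.1 + g.2, fun g hg => Finset.le_sup (f := fun g : ℕ × ℕ => g.1 + g.2) hg⟩
  have h : {f : Z a b → ℕ | ∀ i, f i ∈ Set.Iic N}.Finite :=
    Set.Finite.pi' fun _ => Set.finite_Iic N
  refine Set.Finite.to_subtype (Set.Finite.subset h ?_)
  intro β hβ i
  have h1 : xd β + yd β ≤ N := hN (xd β, yd β) hβ
  have h2 : ∑ i, β i = xd β + yd β := by
    unfold xd yd
    exact Fintype.sum_sum_type β
  have h3 : β i ≤ ∑ i, β i := single_le_sum (fun j _ => Nat.zero_le (β j)) (mem_univ i)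
  show β i ≤ N
  omega

/-- The system of the level `j`. -/
noncomputable def LSys (a b d j : ℕ) : Sys {α // α ∈ Bx a b d j} (Z a b) (Finset (ℕ × ℕ)) where
  R := fun Λ => {β : Z a b → ℕ // (xd β, yd β) ∈ Λ}
  fin := finite_idx a b
  co := fun _ β α => tcr (fun i => (X i : MvPolynomial (Z a b) ℂ)) α.1 β.1

/-- The number of levels of the window `[gy, d - gx]` of smaller rank. -/
def wr (d : ℕ) (c g : ℕ × ℕ) (j : ℕ) : ℕ :=
  ((range (d + 1)).filter fun i => g.2 ≤ i ∧ i + g.1 ≤ d ∧
    rk (d + 1) c.1 c.2 i < rk (d + 1) c.1 c.2 j).card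

/-- The type of a point of multiplicity `m` in the cell `c` on the level `j`. -/
def Lam (d m : ℕ) (c : ℕ × ℕ) (j : ℕ) : Finset (ℕ × ℕ) :=
  (range m ×ˢ range m).filter fun g => g.2 ≤ j ∧ j + g.1 ≤ d ∧ g.1 + g.2 + wr d c g j < m

/-- The number of new derivatives of bidegree `g`. -/
def Eg (a b : ℕ) (g : ℕ × ℕ) : ℕ := Nat.multichoose (a - 1) g.1 * Nat.multichoose (b - 1) g.2

/-- The number of conditions on the level `j`. -/
def wt (a b d m : ℕ) (c : ℕ × ℕ) (j : ℕ) : ℕ := ∑ g ∈ Lam d m c j, Eg a b g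

/-- The size class on the level `j`. -/
def cls (d m : ℕ) (c : ℕ × ℕ) (j : ℕ) : ℕ := (Lam d m c j).sup fun g => g.1 + g.2 + 1

/-- The dimension of the level `j`. -/
def bet (a b d j : ℕ) : ℕ := Nat.multichoose a (d - j) * Nat.multichoose b j

/-- The number of conditions moved from the level `s` to the level `s + ρ + 1` when a point of
multiplicity `m` is moved from the cell `(s, ρ)` to the cell `(s, ρ + 1)`. -/
def Mv (a b d m s ρ : ℕ) : ℕ :=
  ∑ g ∈ (range m ×ˢ range m).filter fun g : ℕ × ℕ =>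
    g.1 + g.2 + ρ + 1 = m ∧ g.2 ≤ s ∧ g.1 + s + ρ + 1 ≤ d, Eg a b g

/-- The number of conditions on the levels `0, …, j`. -/
def Pre (a b d m : ℕ) (c : ℕ × ℕ) (j : ℕ) : ℕ := ∑ i ∈ range (j + 1), wt a b d m c i

/-- The cells. -/
def KK (d : ℕ) : Finset (ℕ × ℕ) := (range (d + 1) ×ˢ range (d + 1)).filter fun c => c.1 + c.2 ≤ d

theorem mem_KK {d : ℕ} {c : ℕ × ℕ} : c ∈ KK d ↔ c.1 + c.2 ≤ d := by
  unfold KK
  rw [mem_filter, mem_product, mem_range, mem_range]
  omega

/-- The level at which the largest part of the conditions of a point in the cell `c` is placed. -/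
def st (c : ℕ × ℕ) : ℕ := if c.2 = 0 then c.1 else c.1 + 1

/-- The distribution function of the binomial distribution. -/
noncomputable def Phi (d j : ℕ) : ℝ := (∑ i ∈ range (j + 1), (d.choose i : ℝ)) / 2 ^ d

/-- The distribution function of the leading part of the conditions of a point of multiplicity `m`
in a cell with `st c = s`. -/
noncomputable def Gl (d m s j : ℕ) : ℝ :=
  (∑ i ∈ range m, if i ≤ j ∧ (s ≤ j ∨ i + (d + 1) ≤ j + m) then ((m - 1).choose i : ℝ) else 0) /
    2 ^ (m - 1)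

end Pool.Agent.H51.TB

end
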