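import Pool.Agent.H94.LP5.M01
import Pool.Agent.H94.LP5.M03

/-! The parts of this file: H21.HD.BridgeA, H21.HD.BridgeB, V7.Top.Chain. -/

section

/-!
Apolarity.
-/

namespace Pool.Agent.H21.HD

open MvPolynomial Pool.Agent.H18.Fat
open scoped Classical

namespace BridgeAX

/-- The factorial of an exponent vector. -/
noncomputable def fact {n : ℕ} (α : Fin n →₀ ℕ) : ℂ := ∏ j, ((α j).factorial : ℂ)

theorem fact_ne_zero {n : ℕ} (α : Fin n →₀ ℕ) : fact α ≠ 0 :=
  Finset.prod_ne_zero_iff.2 fun j _ => Nat.cast_ne_zero.2 (Nat.factorial_ne_zero _)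

theorem fact_add_single {n : ℕ} (β : Fin n →₀ ℕ) (j : Fin n) :
    fact (β + Finsupp.single j 1) = ((β j : ℂ) + 1) * fact β := by
  unfold fact
  rw [← Finset.mul_prod_erase Finset.univ _ (Finset.mem_univ j),
    ← Finset.mul_prod_erase Finset.univ (fun i => ((β i).factorial : ℂ)) (Finset.mem_univ j)]
  have h2 : ∏ x ∈ Finset.univ.erase j,
      (((β + Finsupp.single j 1 : Fin n →₀ ℕ) x).factorial : ℂ) =
      ∏ x ∈ Finset.univ.erase j, ((β x).factorial : ℂ) := by
    refine Finset.prod_congr rfl fun x hx => ?_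
    have hx' : x ≠ j := Finset.ne_of_mem_erase hx
    simp [Finsupp.single_eq_of_ne hx']
  rw [h2]
  simp only [Finsupp.add_apply, Finsupp.single_eq_same]
  rw [Nat.factorial_succ]
  push_cast
  ring

/-- The apolar pairing. -/
noncomputable def pair {n d : ℕ} (f : mons n d → ℂ) : MvPolynomial (Fin n) ℂ →ₗ[ℂ] ℂ where
  toFun G := ∑ α : mons n d, fact α.1 * f α * coeff α.1 G
  map_add' G H := by
    rw [← Finset.sum_add_distrib]
    exact Finset.sum_congr rfl fun α _ => by rw [coeff_add]; ring
  map_smul' c G := by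
    rw [RingHom.id_apply, smul_eq_mul, Finset.mul_sum]
    exact Finset.sum_congr rfl fun α _ => by rw [coeff_smul, smul_eq_mul]; ring

theorem pair_apply {n d : ℕ} (f : mons n d → ℂ) (G : MvPolynomial (Fin n) ℂ) :
    pair f G = ∑ α : mons n d, fact α.1 * f α * coeff α.1 G := by
  simp only [pair, LinearMap.coe_mk, AddHom.coe_mk]

theorem pair_monomial {n d : ℕ} (f : mons n d → ℂ) (β : mons n d) :
    pair f (monomial β.1 1) = fact β.1 * f β := by
  rw [pair_apply, Finset.sum_eq_single β]
  · rw [coeff_monomial, if_pos rfl, mul_one]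
  · intro α _ hα
    rw [coeff_monomial, if_neg (fun h => hα (Subtype.ext h.symm)), mul_zero]
  · intro h
    exact absurd (Finset.mem_univ _) h

theorem coeff_shift_top {n d : ℕ} (q : Fin n → ℂ) (f : mons n d → ℂ) (β : mons n d) :
    coeff β.1 (shift q (toPoly n d f)) = f β := by
  rw [coeff_shift_toPoly, Finset.sum_eq_single β]
  · have : tc q β.1 β.1 = 1 := by
      unfold tc
      refine Finset.prod_eq_one fun j _ => ?_
      simp
    rw [this, mul_one]
  · intro α _ hα
    have : tc q α.1 β.1 = 0 := by
      obtain ⟨j, hj⟩ : ∃ j, α.1 j < β.1 j := by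
        by_contra hcon
        push Not at hcon
        apply hα
        have h1 := mem_mons.1 α.2
        have h2 := mem_mons.1 β.2
        rw [Finsupp.degree_eq_sum] at h1 h2
        have h3 := (Finset.sum_eq_sum_iff_of_le (fun j _ => hcon j)).1 (h2.trans h1.symm)
        apply Subtype.ext
        ext j
        exact (h3 j (Finset.mem_univ j)).symm
      unfold tc
      apply Finset.prod_eq_zero (Finset.mem_univ j)
      rw [Nat.choose_eq_zero_of_lt hj]
      simp
    rw [this, mul_zero]
  · intro h
    exact absurd (Finset.mem_univ _) h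

/-- Apolarity for monomials times powers of a linear form. -/
theorem pair_monomial_mul_lin_pow {n d : ℕ} (q : Fin n → ℂ) (f : mons n d → ℂ) (e : ℕ) :
    ∀ β : Fin n →₀ ℕ, β.degree + e = d →
      pair f (monomial β 1 * lin q ^ e) =
        (e.factorial : ℂ) * fact β * coeff β (shift q (toPoly n d f)) := by
  induction e with
  | zero =>
    intro β hβ
    have hβ' : β ∈ mons n d := mem_mons.2 (by omega)
    rw [pow_zero, mul_one, pair_monomial f ⟨β, hβ'⟩, coeff_shift_top q f ⟨β, hβ'⟩]
    simp
  | succ e ih =>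
    intro β hβ
    have h1 : (monomial β 1 * lin q ^ (e + 1) : MvPolynomial (Fin n) ℂ) =
        ∑ j, q j • (monomial (β + Finsupp.single j 1) 1 * lin q ^ e) := by
      have h2 : (monomial β 1 * lin q ^ (e + 1) : MvPolynomial (Fin n) ℂ) =
          (monomial β 1 * lin q) * lin q ^ e := by
        rw [pow_succ]
        ring
      rw [h2]
      have h3 : (monomial β 1 * lin q : MvPolynomial (Fin n) ℂ) =
          ∑ j, q j • monomial (β + Finsupp.single j 1) 1 := by
        unfold lin
        rw [Finset.mul_sum]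
        refine Finset.sum_congr rfl fun j _ => ?_
        rw [X, C_mul_monomial, monomial_mul, smul_monomial, smul_eq_mul]
        simp
      rw [h3, Finset.sum_mul]
      exact Finset.sum_congr rfl fun j _ => by rw [smul_mul_assoc]
    rw [h1, map_sum]
    have h4 : ∀ j : Fin n, pair f (q j • (monomial (β + Finsupp.single j 1) 1 * lin q ^ e)) =
        ((e.factorial : ℂ) * fact β) * (q j * ((β j : ℂ) + 1) *
          coeff (β + Finsupp.single j 1) (shift q (toPoly n d f))) := by
      intro j
      rw [map_smul, ih (β + Finsupp.single j 1) (by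
        simp only [map_add, Finsupp.degree_single]
        omega), fact_add_single, smul_eq_mul]
      ring
    rw [Finset.sum_congr rfl fun j _ => h4 j, ← Finset.mul_sum, coeff_shift_euler q β f]
    have h5 : (d : ℂ) - (β.degree : ℂ) = (e : ℂ) + 1 := by
      rw [← hβ]
      push_cast
      ring
    rw [h5, Nat.factorial_succ]
    push_cast
    ring

theorem pair_mul_lin_pow_eq_zero {n d m : ℕ} (q : Fin n → ℂ) (f : mons n d → ℂ)
    (hf : VanishesToOrder (toPoly n d f) q m) {e : ℕ} (he : e ≤ d) (hme : d < m + e)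
    {g : MvPolynomial (Fin n) ℂ} (hg : g.IsHomogeneous (d - e)) :
    pair f (g * lin q ^ e) = 0 := by
  rw [g.as_sum, Finset.sum_mul, map_sum]
  refine Finset.sum_eq_zero fun β hβ => ?_
  have h1 : β.degree = d - e := by
    by_contra hne
    exact (mem_support_iff.1 hβ) (hg.coeff_eq_zero hne)
  have h2 : (monomial β (coeff β g) : MvPolynomial (Fin n) ℂ) =
      coeff β g • monomial β 1 := by
    rw [smul_monomial, smul_eq_mul, mul_one]
  rw [h2, smul_mul_assoc, map_smul, pair_monomial_mul_lin_pow q f e β (by omega),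
    hf β (by omega), mul_zero, smul_zero]

theorem lin_isHomogeneous {σ : Type*} [Fintype σ] (v : σ → ℂ) : (lin v).IsHomogeneous 1 :=
  IsHomogeneous.sum _ _ _ fun s _ => isHomogeneous_C_mul_X _ _

theorem powSpan_le {σ P : Type*} [Fintype σ] (d : ℕ) (v : P → σ → ℂ) (e : P → ℕ) :
    powSpan d v e ≤ homogeneousSubmodule σ ℂ d := by
  unfold powSpan
  rw [Submodule.span_le]
  rintro F ⟨p, g, he, hg, rfl⟩
  rw [SetLike.mem_coe, mem_homogeneousSubmodule]
  have h1 := hg.mul ((lin_isHomogeneous (v p)).pow (e p))
  have h2 : d - e p + 1 * e p = d := by omega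
  rwa [h2] at h1

theorem range_toPoly (n d : ℕ) :
    LinearMap.range (toPoly n d) = homogeneousSubmodule (Fin n) ℂ d := by
  ext F
  constructor
  · rintro ⟨f, rfl⟩
    exact toPoly_isHomogeneous f
  · intro hF
    exact ⟨_, exists_toPoly hF⟩

theorem finrank_comap {n d : ℕ} {W : Submodule ℂ (MvPolynomial (Fin n) ℂ)}
    (hW : W ≤ homogeneousSubmodule (Fin n) ℂ d) :
    Module.finrank ℂ (W.comap (toPoly n d)) = Module.finrank ℂ W := by
  have h1 : (W.comap (toPoly n d)).map (toPoly n d) = W := by
    apply Submodule.map_comap_eq_of_le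
    rw [range_toPoly]
    exact hW
  conv_rhs => rw [← h1]
  exact (Submodule.equivMapOfInjective _ (toPoly_injective _ _) _).finrank_eq

end BridgeAX

open BridgeAX in
/-- Apolarity: the forms vanishing at the fat points annihilate the powers. -/
theorem finrank_fat_add_powSpan {r : ℕ} {ι : Type} [Fintype ι] (d : ℕ)
    (p : ι → Fin (r + 1) → ℂ) (m : ι → ℕ) :
    Module.finrank ℂ (fatForms r d p m) +
      Module.finrank ℂ (powSpan d p (fun i => d + 1 - m i)) ≤ (d + r).choose r := by
  have h1 : fatForms r d p m ≤ homogeneousSubmodule (Fin (r + 1)) ℂ d := fun F hF => hF.1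
  rw [← finrank_comap h1, ← finrank_comap (powSpan_le d p (fun i => d + 1 - m i))]
  set W₁ := (fatForms r d p m).comap (toPoly (r + 1) d) with hW₁
  set W₂ := (powSpan d p (fun i => d + 1 - m i)).comap (toPoly (r + 1) d) with hW₂
  -- the pairing as a map to the dual
  let u : (mons (r + 1) d → ℂ) →ₗ[ℂ] Module.Dual ℂ (mons (r + 1) d → ℂ) :=
    { toFun := fun f => (pair f).comp (toPoly (r + 1) d)
      map_add' := fun f g => by
        ext x
        simp only [LinearMap.comp_apply, LinearMap.add_apply, pair_apply, Pi.add_apply]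
        rw [← Finset.sum_add_distrib]
        exact Finset.sum_congr rfl fun α _ => by ring
      map_smul' := fun c f => by
        ext x
        simp only [LinearMap.comp_apply, LinearMap.smul_apply, pair_apply, Pi.smul_apply,
          RingHom.id_apply, smul_eq_mul]
        rw [Finset.mul_sum]
        exact Finset.sum_congr rfl fun α _ => by ring }
  have hu : ∀ f x, u f x = pair f (toPoly (r + 1) d x) := fun _ _ => by
    simp only [u, LinearMap.coe_mk, AddHom.coe_mk, LinearMap.comp_apply]
  have huinj : Function.Injective u := by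
    rw [← LinearMap.ker_eq_bot, LinearMap.ker_eq_bot']
    intro f hf
    funext β
    have h2 : u f (Pi.single β 1) = 0 := by rw [hf]; rfl
    rw [hu, pair_apply, Finset.sum_eq_single β] at h2
    · rw [coeff_toPoly, Pi.single_eq_same, mul_one] at h2
      exact (mul_eq_zero.1 h2).resolve_left (fact_ne_zero _)
    · intro α _ hα
      rw [coeff_toPoly, Pi.single_eq_of_ne hα, mul_zero]
    · intro h
      exact absurd (Finset.mem_univ _) h
  have hmap : W₁.map u ≤ W₂.dualAnnihilator := by
    rintro _ ⟨f, hf, rfl⟩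
    rw [Submodule.mem_dualAnnihilator]
    intro x hx
    rw [hu]
    have h3 : toPoly (r + 1) d x ∈ powSpan d p (fun i => d + 1 - m i) := hx
    have h4 : powSpan d p (fun i => d + 1 - m i) ≤ LinearMap.ker (pair f) := by
      unfold powSpan
      rw [Submodule.span_le]
      rintro F ⟨i, g, he, hg, rfl⟩
      rw [SetLike.mem_coe, LinearMap.mem_ker]
      simp only at he hg ⊢
      exact pair_mul_lin_pow_eq_zero (p i) f (hf.2 i) he (by omega) hg
    exact LinearMap.mem_ker.1 (h4 h3)
  have h5 : Module.finrank ℂ W₁ ≤ Module.finrank ℂ W₂.dualAnnihilator := by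
    rw [(Submodule.equivMapOfInjective u huinj W₁).finrank_eq]
    exact Submodule.finrank_mono hmap
  have h6 := Subspace.finrank_add_finrank_dualAnnihilator_eq W₂
  rw [Module.finrank_fintype_fun_eq_card, Fintype.card_coe, card_mons] at h6
  omega

end Pool.Agent.H21.HD

end

section

/-!
Consequences of apolarity.
-/

namespace Pool.Agent.H21.HD

open MvPolynomial Pool.Agent.H18.Fat
open scoped Classical

namespace BridgeBX

open BridgeAX

theorem finrank_homog (n d : ℕ) :
    Module.finrank ℂ (homogeneousSubmodule (Fin n) ℂ d) = (mons n d).card := by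
  rw [← range_toPoly, LinearMap.finrank_range_of_inj (toPoly_injective n d),
    Module.finrank_fintype_fun_eq_card, Fintype.card_coe]

theorem finite_homog (n d : ℕ) :
    Module.Finite ℂ (homogeneousSubmodule (Fin n) ℂ d) := by
  rw [← range_toPoly]
  infer_instance

theorem finite_of_le {n d : ℕ} {W : Submodule ℂ (MvPolynomial (Fin n) ℂ)}
    (hW : W ≤ homogeneousSubmodule (Fin n) ℂ d) : Module.Finite ℂ W := by
  have := finite_homog n d
  exact Module.Finite.of_injective (Submodule.inclusion hW) (Submodule.inclusion_injective hW)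

end BridgeBX

open BridgeAX BridgeBX

/-- If the powers span then no form vanishes at the fat points. -/
theorem fat_eq_bot_of_span {r : ℕ} {ι : Type} [Fintype ι] (d : ℕ)
    (p : ι → Fin (r + 1) → ℂ) (m : ι → ℕ)
    (h : homogeneousSubmodule (Fin (r + 1)) ℂ d ≤ powSpan d p (fun i => d + 1 - m i)) :
    Module.finrank ℂ (fatForms r d p m) = 0 := by
  have h1 := finrank_fat_add_powSpan d p m
  have h2 : powSpan d p (fun i => d + 1 - m i) = homogeneousSubmodule (Fin (r + 1)) ℂ d :=
    le_antisymm (powSpan_le d p _) h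
  rw [h2, finrank_homog, card_mons] at h1
  omega

/-- If the powers are independent then the fat points impose independent conditions. -/
theorem finrank_fat_of_indep {r : ℕ} {ι : Type} [Fintype ι] (d : ℕ)
    (p : ι → Fin (r + 1) → ℂ) (m : ι → ℕ) (hm : ∀ i, 1 ≤ m i ∧ m i ≤ d)
    (h : Indep d p (fun i => d + 1 - m i)) :
    (Module.finrank ℂ (fatForms r d p m) : ℤ) ≤
      ((d + r).choose r : ℤ) - ∑ i, ((m i + r - 1).choose r : ℤ) := by
  have h1 := finrank_fat_add_powSpan d p m
  -- the sum map
  let Φ : (∀ i, (mons (r + 1) (m i - 1) → ℂ)) →ₗ[ℂ] MvPolynomial (Fin (r + 1)) ℂ :=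
    { toFun := fun f => ∑ i, toPoly (r + 1) (m i - 1) (f i) * lin (p i) ^ (d + 1 - m i)
      map_add' := fun f g => by
        rw [← Finset.sum_add_distrib]
        refine Finset.sum_congr rfl fun i _ => ?_
        rw [Pi.add_apply, map_add, add_mul]
      map_smul' := fun c f => by
        rw [RingHom.id_apply, Finset.smul_sum]
        refine Finset.sum_congr rfl fun i _ => ?_
        rw [Pi.smul_apply, map_smul, smul_mul_assoc] }
  have hΦ : ∀ f, Φ f = ∑ i, toPoly (r + 1) (m i - 1) (f i) * lin (p i) ^ (d + 1 - m i) :=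
    fun _ => rfl
  have hdeg : ∀ i, d - (d + 1 - m i) = m i - 1 := fun i => by
    have := hm i
    omega
  have hinj : Function.Injective Φ := by
    rw [← LinearMap.ker_eq_bot, LinearMap.ker_eq_bot']
    intro f hf
    rw [hΦ] at hf
    have h2 := h (fun i => toPoly (r + 1) (m i - 1) (f i)) (fun i => by
      change (toPoly (r + 1) (m i - 1) (f i)).IsHomogeneous (d - (d + 1 - m i))
      rw [hdeg i]
      exact toPoly_isHomogeneous _) hf
    funext i
    apply toPoly_injective (r + 1) (m i - 1)
    rw [h2 i]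
    exact (map_zero _).symm
  have hrange : LinearMap.range Φ ≤ powSpan d p (fun i => d + 1 - m i) := by
    rintro _ ⟨f, rfl⟩
    rw [hΦ]
    refine Submodule.sum_mem _ fun i _ => ?_
    refine Submodule.subset_span ⟨i, toPoly (r + 1) (m i - 1) (f i), ?_, ?_, rfl⟩
    · have := hm i
      change d + 1 - m i ≤ d
      omega
    · change (toPoly (r + 1) (m i - 1) (f i)).IsHomogeneous (d - (d + 1 - m i))
      rw [hdeg i]
      exact toPoly_isHomogeneous _
  have := finite_of_le (powSpan_le d p (fun i => d + 1 - m i))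
  have h3 := Submodule.finrank_mono hrange
  rw [LinearMap.finrank_range_of_inj hinj, Module.finrank_pi_fintype] at h3
  have h4 : ∑ i, Module.finrank ℂ (mons (r + 1) (m i - 1) → ℂ) =
      ∑ i, (m i + r - 1).choose r := by
    refine Finset.sum_congr rfl fun i _ => ?_
    rw [Module.finrank_fintype_fun_eq_card, Fintype.card_coe, card_mons]
    have := hm i
    congr 1
    omega
  rw [h4] at h3
  have h5 : ((∑ i, (m i + r - 1).choose r : ℕ) : ℤ) = ∑ i, ((m i + r - 1).choose r : ℤ) := by
    push_cast
    rfl
  rw [← h5]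
  omega

end Pool.Agent.H21.HD

end

section

/-!
# The chain rule for polynomials, and values at independent points
-/

namespace Pool.Agent.V7.Top

open MvPolynomial

variable {σ : Type*}

/-- A derivation applied to the coefficients of a polynomial. -/
noncomputable def Dc (D : Derivation ℚ ℂ ℂ) (p : MvPolynomial σ ℂ) : MvPolynomial σ ℂ :=
  ∑ α ∈ p.support, monomial α (D (coeff α p))

theorem coeff_Dc (D : Derivation ℚ ℂ ℂ) (p : MvPolynomial σ ℂ) (α : σ →₀ ℕ) :
    coeff α (Dc D p) = D (coeff α p) := by
  classical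
  rw [Dc, coeff_sum]
  simp only [coeff_monomial]
  rw [Finset.sum_ite_eq' p.support α]
  split_ifs with h
  · rfl
  · rw [notMem_support_iff.1 h, map_zero]

theorem Dc_add (D : Derivation ℚ ℂ ℂ) (p q : MvPolynomial σ ℂ) :
    Dc D (p + q) = Dc D p + Dc D q := by
  ext α
  simp [coeff_Dc]

theorem Dc_C (D : Derivation ℚ ℂ ℂ) (a : ℂ) : Dc D (C a : MvPolynomial σ ℂ) = C (D a) := by
  classical
  ext α
  rw [coeff_Dc, coeff_C, coeff_C]
  split_ifs
  · rfl
  · exact map_zero D

theorem Dc_mul_X (D : Derivation ℚ ℂ ℂ) (p : MvPolynomial σ ℂ) (i : σ) :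
    Dc D (p * X i) = Dc D p * X i := by
  classical
  ext α
  rw [coeff_Dc, coeff_mul_X', coeff_mul_X']
  split_ifs
  · rw [coeff_Dc]
  · exact map_zero D

/-- The chain rule. -/
theorem chain [Fintype σ] (D : Derivation ℚ ℂ ℂ) (x : σ → ℂ) (p : MvPolynomial σ ℂ) :
    D (eval x p) = eval x (Dc D p) + ∑ i, eval x (pderiv i p) * D (x i) := by
  classical
  induction p using MvPolynomial.induction_on with
  | C a => simp [Dc_C]
  | add p q hp hq =>
    rw [map_add, map_add, hp, hq, Dc_add, map_add]
    simp only [map_add, add_mul, Finset.sum_add_distrib]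
    ring
  | mul_X p j hp =>
    have h0 : eval x (p * X j) = eval x p * x j := by rw [map_mul, eval_X]
    have h0' : eval x (Dc D p * X j) = eval x (Dc D p) * x j := by rw [map_mul, eval_X]
    rw [Dc_mul_X, h0, h0', Derivation.leibniz, hp]
    have h1 : ∀ i, eval x (pderiv i (p * X j)) * D (x i) =
        x j * (eval x (pderiv i p) * D (x i)) + if i = j then eval x p * D (x j) else 0 := by
      intro i
      rw [pderiv_mul, map_add, map_mul, map_mul, eval_X, pderiv_X]
      by_cases h : i = j
      · subst h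
        simp
        ring
      · simp [h]
        ring
    simp only [h1, Finset.sum_add_distrib, ← Finset.mul_sum, Finset.sum_ite_eq',
      Finset.mem_univ, if_true, smul_eq_mul]
    ring

theorem Dc_eq_zero {D : Derivation ℚ ℂ ℂ} {p : MvPolynomial σ ℂ} (h : ∀ α, D (coeff α p) = 0) :
    Dc D p = 0 := by
  ext α
  rw [coeff_Dc, h, coeff_zero]

theorem pderiv_const {D : Derivation ℚ ℂ ℂ} {p : MvPolynomial σ ℂ}
    (h : ∀ α, D (coeff α p) = 0) (i : σ) (α : σ →₀ ℕ) : D (coeff α (pderiv i p)) = 0 := by
  rw [coeff_pderiv, Derivation.leibniz, h]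
  have h1 : D ((α i : ℂ) + 1) = 0 := by
    have h2 : ((α i : ℂ) + 1) = ((α i + 1 : ℕ) : ℂ) := by push_cast; rfl
    rw [h2]
    exact D.map_natCast _
  rw [h1]
  simp

/-- A polynomial all of whose derivatives vanish is constant. -/
theorem eq_C_of_pderiv [Fintype σ] {p : MvPolynomial σ ℂ} (h : ∀ i, pderiv i p = 0) :
    p = C (coeff 0 p) := by
  classical
  ext α
  rw [coeff_C]
  split_ifs with h0
  · rw [h0]
  · obtain ⟨i, hi⟩ : ∃ i, α i ≠ 0 := by
      by_contra hcon
      push Not at hcon
      apply h0
      ext i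
      rw [hcon i]
      rfl
    have h1 : coeff (α - Finsupp.single i 1) (pderiv i p) = 0 := by rw [h i, coeff_zero]
    rw [coeff_pderiv] at h1
    have h2 : α - Finsupp.single i 1 + Finsupp.single i 1 = α := by
      apply tsub_add_cancel_of_le
      rw [Finsupp.single_le_iff]
      omega
    rw [h2] at h1
    rcases mul_eq_zero.1 h1 with h3 | h3
    · exact h3
    · exfalso
      have h4 : ((((α - Finsupp.single i 1 : σ →₀ ℕ) i + 1 : ℕ)) : ℂ) = 0 := by
        push_cast
        exact h3
      exact absurd (Nat.cast_eq_zero.1 h4) (Nat.succ_ne_zero _)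

theorem pderiv_comm (i j : σ) (p : MvPolynomial σ ℂ) :
    pderiv i (pderiv j p) = pderiv j (pderiv i p) := by
  classical
  ext α
  rw [coeff_pderiv, coeff_pderiv, coeff_pderiv, coeff_pderiv, add_right_comm]
  by_cases h : i = j
  · rw [h]
  · have h1 : (α + Finsupp.single i 1 : σ →₀ ℕ) j = α j := by
      rw [Finsupp.add_apply, Finsupp.single_eq_of_ne (Ne.symm h), add_zero]
    have h2 : (α + Finsupp.single j 1 : σ →₀ ℕ) i = α i := by
      rw [Finsupp.add_apply, Finsupp.single_eq_of_ne h, add_zero]
    rw [h1, h2]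
    ring

theorem totalDegree_pderiv_lt' {p : MvPolynomial σ ℂ} (i : σ) (h : pderiv i p ≠ 0) :
    (pderiv i p).totalDegree < p.totalDegree := by
  classical
  obtain ⟨α, hα, hd⟩ : ∃ α ∈ (pderiv i p).support,
      (α.sum fun _ e => e) = (pderiv i p).totalDegree := by
    have h1 : (pderiv i p).support.Nonempty := by
      rw [Finset.nonempty_iff_ne_empty, Ne, support_eq_empty]
      exact h
    obtain ⟨α, hα, h2⟩ := Finset.exists_mem_eq_sup (pderiv i p).support h1
      (fun s => s.sum fun _ e => e)
    exact ⟨α, hα, h2.symm⟩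
  rw [mem_support_iff, coeff_pderiv] at hα
  have h3 : coeff (α + Finsupp.single i 1) p ≠ 0 := left_ne_zero_of_mul hα
  have h4 := le_totalDegree (mem_support_iff.2 h3)
  rw [Finsupp.sum_add_index' (fun _ => rfl) (fun _ _ _ => rfl),
    Finsupp.sum_single_index rfl] at h4
  omega

/-- A polynomial with constant coefficients, in independent variables, does not vanish. -/
theorem gen_eval [Fintype σ] [DecidableEq σ] {S : Set ℂ} (J : Finset σ) (x : σ → ℂ)
    (Dl : σ → Derivation ℚ ℂ ℂ) (hD : ∀ i ∈ J, Dl i ∈ Kd S)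
    (hx : ∀ i ∈ J, ∀ i' ∈ J, Dl i (x i') = if i = i' then 1 else 0) (n : ℕ) :
    ∀ p : MvPolynomial σ ℂ, p.totalDegree ≤ n → (∀ α, ∀ D ∈ Kd S, D (coeff α p) = 0) →
      (∀ i ∉ J, pderiv i p = 0) → eval x p = 0 → p = 0 := by
  classical
  induction n with
  | zero =>
    intro p hp _ _ h0
    rw [totalDegree_eq_zero_iff_eq_C.1 (Nat.le_zero.1 hp)] at h0 ⊢
    rw [eval_C] at h0
    rw [h0, C_0]
  | succ n ih =>
    intro p hp hc hv h0
    have h1 : ∀ i, pderiv i p = 0 := by
      intro i
      by_cases hi : i ∈ J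
      · by_contra hne
        apply hne
        apply ih
        · have := totalDegree_pderiv_lt' i hne
          omega
        · intro α D hD'
          exact pderiv_const (fun β => hc β D hD') i α
        · intro j hj
          rw [pderiv_comm, hv j hj, map_zero]
        · have h2 := chain (Dl i) x p
          rw [h0, map_zero, Dc_eq_zero (fun α => hc α _ (hD i hi)), map_zero, zero_add] at h2
          rw [Finset.sum_eq_single i] at h2
          · rw [hx i hi i hi, if_pos rfl, mul_one] at h2
            exact h2.symm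
          · intro j _ hj
            by_cases hjJ : j ∈ J
            · rw [hx i hi j hjJ, if_neg (Ne.symm hj), mul_zero]
            · rw [hv j hjJ, map_zero, zero_mul]
          · intro h
            exact absurd (Finset.mem_univ i) h
      · exact hv i hi
    rw [eq_C_of_pderiv h1] at h0 ⊢
    rw [eval_C] at h0
    rw [h0, C_0]

end Pool.Agent.V7.Top

end
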