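import Pool.Agent.H94.LP5.H18.Ex.Defs

/-! The parts of this file: H18.Ex.Ell, H18.Ex.Tay, H51.TB.Asy. -/

section

/-!
# Module Ell: elementary facts about `ell n m = binom(m + n - 1, n)`
-/

namespace Pool.Agent.H18.Ex

open Finset

theorem ell_zero {n : ℕ} (hn : 1 ≤ n) : ell n 0 = 0 := by
  unfold ell
  exact Nat.choose_eq_zero_of_lt (by omega)

theorem ell_one (n : ℕ) : ell n 1 = 1 := by
  unfold ell
  rw [show 1 + n - 1 = n by omega, Nat.choose_self]

theorem ell_mono (n : ℕ) {m m' : ℕ} (h : m ≤ m') : ell n m ≤ ell n m' :=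
  Nat.choose_le_choose n (by omega)

theorem ell_pos (n : ℕ) {m : ℕ} (h : 1 ≤ m) : 1 ≤ ell n m :=
  Nat.choose_pos (by omega)

/-- Pascal. -/
theorem ell_succ (n c : ℕ) : ell (n + 1) (c + 1) = ell (n + 1) c + ell n (c + 1) := by
  unfold ell
  rw [show c + 1 + (n + 1) - 1 = (c + n) + 1 by omega, show c + (n + 1) - 1 = c + n by omega,
    show c + 1 + n - 1 = c + n by omega, Nat.choose_succ_succ, add_comm]

/-- `M * ell n c ≤ (M - 1) * ell n (c + 1)` for `c + 1 ≤ M`, `n ≥ 1`:
`(c + n) * ell n c = c * ell n (c + 1)`, so `ell n c ≤ c / (c + 1) * ell n (c + 1)`. -/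
theorem ell_ratio {n c M : ℕ} (hn : 1 ≤ n) (hc : c + 1 ≤ M) :
    M * ell n c ≤ (M - 1) * ell n (c + 1) := by
  rcases Nat.eq_zero_or_pos c with h | h
  · subst h
    rw [ell_zero hn, mul_zero]
    exact Nat.zero_le _
  obtain ⟨K, rfl⟩ : ∃ K, M = K + 1 := ⟨M - 1, by omega⟩
  have key : ell n c * (c + n) = ell n (c + 1) * c := by
    unfold ell
    have := Nat.choose_mul_succ_eq (c + n - 1) n
    rw [show c + n - 1 + 1 = c + n by omega, show c + n - n = c by omega] at this
    rw [show c + 1 + n - 1 = c + n by omega]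
    exact this
  have h1 : 0 < c + n := by omega
  refine Nat.le_of_mul_le_mul_right ?_ h1
  rw [Nat.add_sub_cancel]
  calc (K + 1) * ell n c * (c + n) = (K + 1) * (ell n c * (c + n)) := by ring
    _ = ((K + 1) * c) * ell n (c + 1) := by rw [key]; ring
    _ ≤ (K * (c + n)) * ell n (c + 1) := by
        refine Nat.mul_le_mul_right _ ?_
        have : K * (c + 1) ≤ K * (c + n) := Nat.mul_le_mul_left _ (by omega)
        nlinarith
    _ = K * ell n (c + 1) * (c + n) := by ring

/-- `ell (n + 1) c = (c + n) / (n + 1) * ell n c ≤ c * ell n c`. -/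
theorem ell_le_mul (n c : ℕ) : ell (n + 1) c ≤ c * ell n c := by
  rcases Nat.eq_zero_or_pos c with h | h
  · subst h
    rw [ell_zero (by omega)]
    exact Nat.zero_le _
  have key : (c + n) * ell n c = ell (n + 1) c * (n + 1) := by
    unfold ell
    have := Nat.add_one_mul_choose_eq (c + n - 1) n
    rw [show c + n - 1 + 1 = c + n by omega] at this
    rw [show c + (n + 1) - 1 = c + n by omega]
    exact this
  refine Nat.le_of_mul_le_mul_right ?_ (Nat.succ_pos n)
  rw [Nat.succ_eq_add_one, ← key]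
  calc (c + n) * ell n c ≤ (c * (n + 1)) * ell n c := by
        refine Nat.mul_le_mul_right _ ?_
        nlinarith
    _ = c * ell n c * (n + 1) := by ring

end Pool.Agent.H18.Ex

end

section

/-!
# Module Tay: Taylor coefficients, traces and residuals

Throughout `A'` is the residual of `A` along `x_l = 0`: `a ∈ A' ↔ a + e_l ∈ A`.
-/

namespace Pool.Agent.H18.Ex

open Finset

variable {ι : Type} [Fintype ι] [DecidableEq ι] {R : Type*} [CommRing R]

/-- Splitting off the factor of the coordinate `l`. -/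
lemma tcr_eq (q : ι → R) (a b : ι → ℕ) (l : ι) :
    tcr q a b = (((a l).choose (b l) : ℕ) : R) * q l ^ (a l - b l) *
      ∏ i ∈ univ.erase l, (((a i).choose (b i) : ℕ) : R) * q i ^ (a i - b i) := by
  unfold tcr
  rw [mul_prod_erase univ (fun i => (((a i).choose (b i) : ℕ) : R) * q i ^ (a i - b i))
    (mem_univ l)]

/-- The product of the other factors only depends on the other coordinates. -/
lemma rest_congr {q q' : ι → R} {a a' b b' : ι → ℕ} {l : ι} (hq : ∀ i, i ≠ l → q i = q' i)
    (ha : ∀ i, i ≠ l → a i = a' i) (hb : ∀ i, i ≠ l → b i = b' i) :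
    ∏ i ∈ univ.erase l, (((a i).choose (b i) : ℕ) : R) * q i ^ (a i - b i) =
      ∏ i ∈ univ.erase l, (((a' i).choose (b' i) : ℕ) : R) * q' i ^ (a' i - b' i) := by
  apply prod_congr rfl
  intro i hi
  have h := ne_of_mem_erase hi
  rw [hq i h, ha i h, hb i h]

omit [Fintype ι] in
lemma update_other {β : Type} (f : ι → β) (l : ι) (v : β) : ∀ i, i ≠ l → Function.update f l v i = f i :=
  fun _ hi => Function.update_of_ne hi _ _

omit [Fintype ι] in
lemma sum_shift (A A' : Finset (ι → ℕ)) (l : ι)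
    (hA : ∀ a, a ∈ A' ↔ Function.update a l (a l + 1) ∈ A) (g : (ι → ℕ) → R)
    (hg : ∀ a ∈ A, a l = 0 → g a = 0) :
    ∑ a ∈ A, g a = ∑ a ∈ A', g (Function.update a l (a l + 1)) := by
  symm
  apply sum_of_injOn (fun a => Function.update a l (a l + 1))
  · intro a _ a' _ h
    funext i
    have h1 : Function.update a l (a l + 1) i = Function.update a' l (a' l + 1) i := congrFun h i
    by_cases hi : i = l
    · subst hi
      simp only [Function.update_self] at h1
      omega
    · rwa [Function.update_of_ne hi, Function.update_of_ne hi] at h1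
  · intro a ha
    exact (hA a).mp ha
  · intro a ha hna
    apply hg a ha
    by_contra h0
    apply hna
    have h1 : Function.update (Function.update a l (a l - 1)) l
        (Function.update a l (a l - 1) l + 1) = a := by
      rw [Function.update_self, Function.update_idem, Nat.sub_add_cancel (Nat.pos_of_ne_zero h0),
        Function.update_eq_self]
    refine ⟨Function.update a l (a l - 1), ?_, h1⟩
    rw [mem_coe, hA, h1]
    exact ha
  · intro a _
    rfl

lemma tcr_up_zero (q : ι → R) (a b : ι → ℕ) (l : ι) (hb : b l = 0) :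
    tcr q (Function.update a l (a l + 1)) b = q l * tcr q a b := by
  rw [tcr_eq q _ b l, tcr_eq q a b l, rest_congr (q' := q) (a' := a) (b' := b) (fun _ _ => rfl)
    (update_other a l _) (fun _ _ => rfl), Function.update_self, hb]
  simp only [Nat.choose_zero_right, Nat.sub_zero, Nat.cast_one, one_mul, pow_succ]
  ring

lemma tcr_up_up (q : ι → R) (a b : ι → ℕ) (l : ι) :
    tcr q (Function.update a l (a l + 1)) (Function.update b l (b l + 1)) =
      q l * tcr q a (Function.update b l (b l + 1)) + tcr q a b := by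
  rw [tcr_eq q (Function.update a l (a l + 1)) _ l, tcr_eq q a (Function.update b l (b l + 1)) l,
    tcr_eq q a b l,
    rest_congr (q' := q) (a' := a) (b' := b) (fun _ _ => rfl)
      (update_other a l _) (update_other b l _),
    rest_congr (q' := q) (a := a) (a' := a) (b' := b) (fun _ _ => rfl)
      (fun _ _ => rfl) (update_other b l _), Function.update_self, Function.update_self,
    Nat.choose_succ_succ, Nat.add_sub_add_right]
  rcases Nat.lt_or_ge (a l) (b l + 1) with h | h
  · rw [Nat.choose_eq_zero_of_lt h]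
    simp only [Nat.cast_zero, add_zero, zero_mul, mul_zero, zero_add]
  · have e : a l - b l = (a l - (b l + 1)) + 1 := by omega
    rw [e, pow_succ, Nat.cast_add]
    ring

lemma tcr_up_up_zero (q : ι → R) (a b : ι → ℕ) (l : ι) (hq : q l = 0) :
    tcr q (Function.update a l (a l + 1)) (Function.update b l (b l + 1)) = tcr q a b := by
  rw [tcr_up_up, hq, zero_mul, zero_add]

/-- Trace.  If `q l = 0` and `b l = 0` only the exponents with `a l = 0` contribute
(`0 ^ (a l) = 0` for `a l > 0`). -/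
theorem layer_sum (A : Finset (ι → ℕ)) (l : ι) (f : (ι → ℕ) → R) (q : ι → R) (hq : q l = 0)
    (b : ι → ℕ) (hb : b l = 0) :
    ∑ a ∈ A, f a * tcr q a b = ∑ a ∈ A.filter (fun a => a l = 0), f a * tcr q a b := by
  rw [sum_filter_of_ne]
  intro a _ h
  by_contra h0
  apply h
  rw [tcr_eq q a b l, hq, hb, Nat.sub_zero, zero_pow h0, mul_zero, zero_mul, mul_zero]

/-- Residual.  If `q l = 0`, the Taylor coefficient at `b + e_l` only sees exponents with
`a l = b l + 1`; substitute `a = a' + e_l`. -/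
theorem resid_sum (A A' : Finset (ι → ℕ)) (l : ι)
    (hA : ∀ a, a ∈ A' ↔ Function.update a l (a l + 1) ∈ A)
    (f : (ι → ℕ) → R) (q : ι → R) (hq : q l = 0) (b : ι → ℕ) :
    ∑ a ∈ A, f a * tcr q a (Function.update b l (b l + 1)) =
      ∑ a ∈ A', f (Function.update a l (a l + 1)) * tcr q a b := by
  rw [sum_shift A A' l hA (fun a => f a * tcr q a (Function.update b l (b l + 1)))]
  · apply sum_congr rfl
    intro a _
    rw [tcr_up_up_zero q a b l hq]
  · intro a _ h0
    rw [tcr_eq q a _ l, Function.update_self, h0, Nat.choose_zero_succ, Nat.cast_zero, zero_mul,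
      zero_mul, mul_zero]

/-- If the layer part of `f` vanishes, conditions at points off the hyperplane pass to the
residual.  Proof: Pascal, `tcr q (a + e_l) b = q l * tcr q a b + tcr q a (b - e_l)` (second term
absent if `b l = 0`), so `0 = ∑_{a ∈ A} f a tcr q a b = q l * T b + T (b - e_l)`, where
`T b = ∑_{a ∈ A'} f (a + e_l) tcr q a b`; induct on `b l`, the set of indices being closed under
`b ↦ b - e_l`.  (Here `(k.pt q) l = q l ≠ 0` because `k` is not forced to `x_l = 0`.) -/
theorem sat_resid_of_notAt (A A' : Finset (ι → ℕ)) (l : ι)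
    (hA : ∀ a, a ∈ A' ↔ Function.update a l (a l + 1) ∈ A)
    (f : (ι → ℕ) → ℂ) (h0 : ∀ a ∈ A, a l = 0 → f a = 0) (k : Kind ι) (hk : k.NotAt l)
    (q : ι → ℂ) (hq : q l ≠ 0) (h : Sat A f k q) :
    Sat A' (fun a => f (Function.update a l (a l + 1))) k q := by
  have hp : k.pt q l = q l := by
    cases k with
    | free m => rfl
    | forced l' c e =>
      have h1 : l' ≠ l := hk
      exact Function.update_of_ne (Ne.symm h1) _ _
  have hIdx : ∀ b : ι → ℕ, k.Idx (Function.update b l (b l + 1)) → k.Idx b := by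
    intro b hb
    have hle : ∑ i, b i ≤ ∑ i, Function.update b l (b l + 1) i := by
      apply sum_le_sum
      intro i _
      by_cases hi : i = l
      · subst hi; rw [Function.update_self]; omega
      · rw [Function.update_of_ne hi]
    cases k with
    | free m => exact lt_of_le_of_lt hle hb
    | forced l' c e =>
      have h1 : l' ≠ l := hk
      obtain ⟨h2, h3⟩ := hb
      rw [Function.update_of_ne h1] at h3
      exact ⟨lt_of_le_of_lt hle h2, h3⟩
  have key : ∀ (n : ℕ) (b : ι → ℕ), b l = n → k.Idx b →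
      ∑ a ∈ A', f (Function.update a l (a l + 1)) * tcr (k.pt q) a b = 0 := by
    intro n
    induction n with
    | zero =>
      intro b hb hI
      have h1 := h b hI
      rw [sum_shift A A' l hA (fun a => f a * tcr (k.pt q) a b)
        (fun a ha h2 => by rw [h0 a ha h2, zero_mul])] at h1
      have h2 : ∀ a ∈ A', f (Function.update a l (a l + 1)) *
          tcr (k.pt q) (Function.update a l (a l + 1)) b =
          k.pt q l * (f (Function.update a l (a l + 1)) * tcr (k.pt q) a b) := by
        intro a _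
        rw [tcr_up_zero _ a b l hb]
        ring
      rw [sum_congr rfl h2, ← mul_sum, hp] at h1
      exact (mul_eq_zero.mp h1).resolve_left hq
    | succ n ih =>
      intro b hb hI
      obtain ⟨b', hb', rfl⟩ : ∃ b' : ι → ℕ, b' l = n ∧ Function.update b' l (b' l + 1) = b := by
        refine ⟨Function.update b l n, Function.update_self _ _ _, ?_⟩
        rw [Function.update_self, Function.update_idem, ← hb, Function.update_eq_self]
      have h3 := ih b' hb' (hIdx b' hI)
      have h1 := h _ hI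
      rw [sum_shift A A' l hA
        (fun a => f a * tcr (k.pt q) a (Function.update b' l (b' l + 1)))
        (fun a ha h2 => by rw [h0 a ha h2, zero_mul])] at h1
      have h2 : ∀ a ∈ A', f (Function.update a l (a l + 1)) *
          tcr (k.pt q) (Function.update a l (a l + 1)) (Function.update b' l (b' l + 1)) =
          k.pt q l * (f (Function.update a l (a l + 1)) *
            tcr (k.pt q) a (Function.update b' l (b' l + 1))) +
          f (Function.update a l (a l + 1)) * tcr (k.pt q) a b' := by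
        intro a _
        rw [tcr_up_up]
        ring
      rw [sum_congr rfl h2, sum_add_distrib, h3, add_zero, ← mul_sum, hp] at h1
      exact (mul_eq_zero.mp h1).resolve_left hq
  intro b hI
  exact key (b l) b rfl hI

lemma tcr_layer_congr (q q' : ι → R) (a b : ι → ℕ) (l : ι) (hq : ∀ i, i ≠ l → q i = q' i)
    (ha : a l = 0) : tcr q a b = tcr q' a b := by
  rw [tcr_eq q a b l, tcr_eq q' a b l, rest_congr hq (fun _ _ => rfl) (fun _ _ => rfl), ha]
  simp only [Nat.zero_sub, pow_zero]

/-- Conditions forced to the hyperplane: the residual (`resid_sum`). -/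
theorem sat_resid_forced (A A' : Finset (ι → ℕ)) (l : ι)
    (hA : ∀ a, a ∈ A' ↔ Function.update a l (a l + 1) ∈ A)
    (f : (ι → ℕ) → R) (c e : ℕ) (q : ι → R) (h : Sat A f (Kind.forced l c e) q) :
    Sat A' (fun a => f (Function.update a l (a l + 1))) (Kind.forced l (c - 1) e) q := by
  intro b hb
  obtain ⟨h1, h2⟩ := hb
  have hq : Function.update q l 0 l = 0 := Function.update_self _ _ _
  change ∑ a ∈ A', f (Function.update a l (a l + 1)) * tcr (Function.update q l 0) a b = 0
  rw [← resid_sum A A' l hA f _ hq b]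
  apply h
  refine ⟨?_, ?_⟩
  · have h3 : ∑ i, Function.update b l (b l + 1) i = ∑ i, b i + 1 := by
      rw [← add_sum_erase univ _ (mem_univ l), ← add_sum_erase univ b (mem_univ l),
        Function.update_self]
      have h4 : ∑ x ∈ univ.erase l, Function.update b l (b l + 1) x = ∑ x ∈ univ.erase l, b x := by
        apply sum_congr rfl
        intro i hi
        exact Function.update_of_ne (ne_of_mem_erase hi) _ _
      rw [h4]
      ring
    rw [h3]
    omega
  · rw [Function.update_self]
    omega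

/-- Conditions forced to the hyperplane: the trace (`layer_sum`; the value `q l` is irrelevant on
the layer, and for `b l > 0` every term vanishes). -/
theorem sat_layer_forced (A : Finset (ι → ℕ)) (l : ι) (f : (ι → ℕ) → R) (c e : ℕ) (q : ι → R)
    (h : Sat A f (Kind.forced l c e) q) :
    Sat (A.filter fun a => a l = 0) f (Kind.free (if e ≤ c then c else 0)) q := by
  intro b hb
  change ∑ i, b i < (if e ≤ c then c else 0) at hb
  have hec : e ≤ c := by
    by_contra hec
    rw [if_neg hec] at hb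
    omega
  rw [if_pos hec] at hb
  change ∑ a ∈ A.filter (fun a => a l = 0), f a * tcr q a b = 0
  by_cases hbl : b l = 0
  · have h1 := h b ⟨hb, by omega⟩
    change ∑ a ∈ A, f a * tcr (Function.update q l 0) a b = 0 at h1
    rw [layer_sum A l f _ (Function.update_self _ _ _) b hbl] at h1
    refine Eq.trans (sum_congr rfl ?_) h1
    intro a ha
    congr 1
    exact tcr_layer_congr _ _ a b l (fun i hi => (Function.update_of_ne hi _ _).symm)
      (mem_filter.mp ha).2
  · apply sum_eq_zero
    intro a ha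
    have h0 : a l = 0 := (mem_filter.mp ha).2
    rw [tcr_eq q a b l, h0, Nat.choose_eq_zero_of_lt (by omega), Nat.cast_zero, zero_mul,
      zero_mul, mul_zero]

/-- A free point placed on the hyperplane is a forced point. -/
theorem sat_forced_one_iff (A : Finset (ι → ℕ)) (l : ι) (f : (ι → ℕ) → R) (m : ℕ) (q : ι → R) :
    Sat A f (Kind.forced l m 1) q ↔ Sat A f (Kind.free m) (Function.update q l 0) := by
  constructor
  · intro h b hb
    refine h b ⟨hb, ?_⟩
    have h1 : b l ≤ ∑ i, b i := single_le_sum (fun i _ => Nat.zero_le (b i)) (mem_univ l)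
    have h2 : ∑ i, b i < m := hb
    omega
  · intro h b hb
    exact h b hb.1

end Pool.Agent.H18.Ex

end

section

/-!
# Module D3 (TB): asymptotics

`multichoose v p = v (v + 1) ⋯ (v + p - 1) / p!`, `ell (n - 1) (k + 1) = binom (n - 1 + k, k) =
multichoose n k`.
-/

namespace Pool.Agent.H51.TB

open Finset Pool.Agent.H18.Ex

private theorem Asy_fac (v p : ℕ) :
    (p.factorial : ℝ) * (Nat.multichoose v p : ℝ) = ∏ i ∈ range p, ((v : ℝ) + i) := by
  have h : p.factorial * Nat.multichoose v p = v.ascFactorial p := by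
    rw [Nat.multichoose_eq, Nat.ascFactorial_eq_factorial_mul_choose']
  have h2 := Nat.ascFactorial_eq_prod_range v p
  rw [← h] at h2
  exact_mod_cast h2

private theorem Asy_ell (n k : ℕ) (hn : 1 ≤ n) : ell (n - 1) (k + 1) = Nat.multichoose n k := by
  rw [Nat.multichoose_eq]
  unfold ell
  rw [show k + 1 + (n - 1) - 1 = (n - 1) + k by omega, show n + k - 1 = (n - 1) + k by omega,
    Nat.choose_symm_add]

/-- the ratio as a function of `r = (a - b) / n` and `t = 1 / n` -/
private noncomputable def Asy_Phi (s p q : ℕ) (x : ℝ × ℝ) : ℝ :=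
  ((p + q).choose q : ℝ) * ((∏ i ∈ range p, (1 / 2 + x.1 / 2 + ((i : ℝ) - s) * x.2)) *
    ∏ j ∈ range q, (1 / 2 - x.1 / 2 + ((j : ℝ) - s) * x.2)) /
    ∏ i ∈ range (p + q), (1 + (i : ℝ) * x.2)

private theorem Asy_cont (s p q : ℕ) : ContinuousAt (Asy_Phi s p q) (0, 0) := by
  unfold Asy_Phi
  refine ContinuousAt.div ?_ ?_ ?_
  · fun_prop
  · fun_prop
  · simp

private theorem Asy_zero (s p q : ℕ) :
    Asy_Phi s p q (0, 0) = ((p + q).choose q : ℝ) / 2 ^ (p + q) := by
  unfold Asy_Phi
  simp only [zero_div, add_zero, mul_zero, sub_zero, prod_const, card_range, one_pow, div_one]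
  rw [← pow_add, one_div, inv_pow, div_eq_mul_inv]

private theorem Asy_id (s p q a b : ℕ) (ha : s ≤ a) (hb : s ≤ b) (hn : 1 ≤ a + b) :
    ((Nat.multichoose (a - s) p * Nat.multichoose (b - s) q : ℕ) : ℝ) =
      Asy_Phi s p q (((a : ℝ) - b) / ((a + b : ℕ) : ℝ), 1 / ((a + b : ℕ) : ℝ)) *
        (Nat.multichoose (a + b) (p + q) : ℝ) := by
  have hn0 : (0 : ℝ) < ((a + b : ℕ) : ℝ) := by exact_mod_cast hn
  set n : ℝ := ((a + b : ℕ) : ℝ) with hnd
  have hab : n = (a : ℝ) + b := by rw [hnd]; push_cast; ring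
  set PA : ℝ := ∏ i ∈ range p, (1 / 2 + ((a : ℝ) - b) / n / 2 + ((i : ℝ) - s) * (1 / n)) with hPA
  set PB : ℝ := ∏ j ∈ range q, (1 / 2 - ((a : ℝ) - b) / n / 2 + ((j : ℝ) - s) * (1 / n)) with hPB
  set PN : ℝ := ∏ i ∈ range (p + q), (1 + (i : ℝ) * (1 / n)) with hPN
  have hPN0 : 0 < PN := prod_pos fun i _ => by positivity
  have hA : (p.factorial : ℝ) * (Nat.multichoose (a - s) p : ℝ) = n ^ p * PA := by
    rw [Asy_fac, hPA, ← card_range p, ← prod_const, card_range, ← prod_mul_distrib]
    refine prod_congr rfl fun i _ => ?_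
    rw [Nat.cast_sub ha, hab]
    have : (a : ℝ) + b ≠ 0 := by rw [← hab]; exact hn0.ne'
    field_simp
    ring
  have hB : (q.factorial : ℝ) * (Nat.multichoose (b - s) q : ℝ) = n ^ q * PB := by
    rw [Asy_fac, hPB, ← card_range q, ← prod_const, card_range, ← prod_mul_distrib]
    refine prod_congr rfl fun i _ => ?_
    rw [Nat.cast_sub hb, hab]
    have : (a : ℝ) + b ≠ 0 := by rw [← hab]; exact hn0.ne'
    field_simp
    ring
  have hN : ((p + q).factorial : ℝ) * (Nat.multichoose (a + b) (p + q) : ℝ) =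
      n ^ (p + q) * PN := by
    rw [Asy_fac, hPN, ← card_range (p + q), ← prod_const, card_range, ← prod_mul_distrib]
    refine prod_congr rfl fun i _ => ?_
    rw [← hnd]
    field_simp
  have hC : ((p + q).choose q : ℝ) * p.factorial * q.factorial = ((p + q).factorial : ℝ) := by
    have := Nat.add_choose_mul_factorial_mul_factorial p q
    exact_mod_cast this
  have hΦ : Asy_Phi s p q (((a : ℝ) - b) / n, 1 / n) =
      ((p + q).choose q : ℝ) * (PA * PB) / PN := rfl
  rw [hΦ]
  have hp0 : (0 : ℝ) < p.factorial := by exact_mod_cast p.factorial_pos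
  have hq0 : (0 : ℝ) < q.factorial := by exact_mod_cast q.factorial_pos
  have hpq0 : (0 : ℝ) < (p + q).factorial := by exact_mod_cast (p + q).factorial_pos
  have hpq : (0 : ℝ) < p.factorial * q.factorial * (p + q).factorial := by positivity
  push_cast
  refine mul_left_cancel₀ hpq.ne' ?_
  have e1 : (p.factorial : ℝ) * q.factorial * (p + q).factorial *
      ((Nat.multichoose (a - s) p : ℝ) * (Nat.multichoose (b - s) q : ℝ)) =
      (p + q).factorial * ((p.factorial * (Nat.multichoose (a - s) p : ℝ)) *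
        (q.factorial * (Nat.multichoose (b - s) q : ℝ))) := by ring
  have e2 : (p.factorial : ℝ) * q.factorial * (p + q).factorial *
      (((p + q).choose q : ℝ) * (PA * PB) / PN * (Nat.multichoose (a + b) (p + q) : ℝ)) =
      (((p + q).choose q : ℝ) * p.factorial * q.factorial) * (PA * PB) / PN *
        ((p + q).factorial * (Nat.multichoose (a + b) (p + q) : ℝ)) := by ring
  rw [e1, e2, hA, hB, hN, hC, pow_add]
  field_simp

private theorem Asy_gen (s p q : ℕ) (δ : ℝ) (hδ : 0 < δ) : ∃ ε : ℝ, 0 < ε ∧ ∃ n₀ : ℕ,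
    ∀ a b : ℕ, s ≤ a → s ≤ b → 1 ≤ a → n₀ ≤ a + b → |(a : ℝ) - b| ≤ ε * (a + b : ℕ) →
    |((Nat.multichoose (a - s) p * Nat.multichoose (b - s) q : ℕ) : ℝ) -
      ((p + q).choose q : ℝ) / 2 ^ (p + q) * (ell (a + b - 1) (p + q + 1) : ℝ)| ≤
      δ * (ell (a + b - 1) (p + q + 1) : ℝ) := by
  obtain ⟨η, hη, h⟩ := Metric.continuousAt_iff.1 (Asy_cont s p q) δ hδ
  refine ⟨η / 2, by linarith, ⌊1 / η⌋₊ + 1, ?_⟩
  intro a b ha hb ha1 hn hab
  have hn1 : 1 ≤ a + b := by omega
  have hn0 : (0 : ℝ) < ((a + b : ℕ) : ℝ) := by exact_mod_cast hn1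
  have ht : 1 / ((a + b : ℕ) : ℝ) < η := by
    have h1 : 1 / η < ((a + b : ℕ) : ℝ) := by
      have h2 := Nat.lt_floor_add_one (1 / η)
      have h3 : ((⌊1 / η⌋₊ + 1 : ℕ) : ℝ) ≤ ((a + b : ℕ) : ℝ) := by exact_mod_cast hn
      push_cast at h3 ⊢
      linarith
    rw [div_lt_iff₀ hη] at h1
    rw [div_lt_iff₀ hn0]
    linarith
  have hr : |((a : ℝ) - b) / ((a + b : ℕ) : ℝ)| < η := by
    rw [abs_div, abs_of_pos hn0, div_lt_iff₀ hn0]
    have : 0 < η * ((a + b : ℕ) : ℝ) := by positivity
    linarith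
  have h1 := @h (((a : ℝ) - b) / ((a + b : ℕ) : ℝ), 1 / ((a + b : ℕ) : ℝ)) (by
    rw [Prod.dist_eq, Real.dist_eq, Real.dist_eq, max_lt_iff]
    simp only [sub_zero]
    refine ⟨hr, ?_⟩
    rw [abs_of_pos (by positivity)]
    exact ht)
  rw [Real.dist_eq, Asy_zero] at h1
  rw [Asy_id s p q a b ha hb hn1, Asy_ell (a + b) (p + q) hn1, ← sub_mul, abs_mul,
    abs_of_nonneg (Nat.cast_nonneg (α := ℝ) (Nat.multichoose (a + b) (p + q)))]
  exact mul_le_mul_of_nonneg_right h1.le (Nat.cast_nonneg _)

theorem asy (p q : ℕ) (δ : ℝ) (hδ : 0 < δ) : ∃ ε : ℝ, 0 < ε ∧ ∃ n₀ : ℕ, ∀ a b : ℕ, 1 ≤ a → 1 ≤ b →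
    n₀ ≤ a + b → |(a : ℝ) - b| ≤ ε * (a + b : ℕ) →
    |((Nat.multichoose (a - 1) p * Nat.multichoose (b - 1) q : ℕ) : ℝ) -
      ((p + q).choose q : ℝ) / 2 ^ (p + q) * (ell (a + b - 1) (p + q + 1) : ℝ)| ≤
      δ * (ell (a + b - 1) (p + q + 1) : ℝ) := by
  obtain ⟨ε, hε, n₀, h⟩ := Asy_gen 1 p q δ hδ
  exact ⟨ε, hε, n₀, fun a b ha hb hn hab => h a b ha hb ha hn hab⟩

theorem asy' (p q : ℕ) (δ : ℝ) (hδ : 0 < δ) : ∃ ε : ℝ, 0 < ε ∧ ∃ n₀ : ℕ, ∀ a b : ℕ, 1 ≤ a → 1 ≤ b →
    n₀ ≤ a + b → |(a : ℝ) - b| ≤ ε * (a + b : ℕ) →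
    |((Nat.multichoose a p * Nat.multichoose b q : ℕ) : ℝ) -
      ((p + q).choose q : ℝ) / 2 ^ (p + q) * (ell (a + b - 1) (p + q + 1) : ℝ)| ≤
      δ * (ell (a + b - 1) (p + q + 1) : ℝ) := by
  obtain ⟨ε, hε, n₀, h⟩ := Asy_gen 0 p q δ hδ
  exact ⟨ε, hε, n₀, fun a b ha hb hn hab => h a b (Nat.zero_le _) (Nat.zero_le _) ha hn hab⟩

end Pool.Agent.H51.TB

end
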