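import Pool.Agent.H94.LP5.M03
import Pool.Agent.H94.LP5.M13
import Pool.Agent.H94.LP5.M18

/-! The parts of this file: H21.NX.LensA, H51.TB.LBas, H51.TB.Theta, H51.TB.Tot, H51.TB.UDefs. -/

section

/-!
# Module LensA: lengths and bounds for the Horace step (only multiset arithmetic and `ell`)

Facts about `ell` (H18/Ex/Ell): `ell_zero`, `ell_one`, `ell_mono`, `ell_pos`, `ell_succ`.
-/

namespace Pool.Agent.H21.NX

open Finset Pool.Agent.H18.Ex

/-- `ell s c * (c + s) = ell s (c + 1) * c` (see the proof of `ell_ratio`). -/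
theorem ell_mul_add (s c : ℕ) (hs : 1 ≤ s) : ell s c * (c + s) = ell s (c + 1) * c := by
  rcases Nat.eq_zero_or_pos c with h | h
  · subst h
    rw [ell_zero hs, mul_zero, zero_mul]
  unfold ell
  have := Nat.choose_mul_succ_eq (c + s - 1) s
  rw [show c + s - 1 + 1 = c + s by omega, show c + s - s = c by omega] at this
  rw [show c + 1 + s - 1 = c + s by omega]
  exact this

/-- `(c + s) * ell s c = (s + 1) * ell (s + 1) c` (see the proof of `ell_le_mul`; `c = 0` too). -/
theorem ell_succ_mul (s c : ℕ) (hs : 1 ≤ s) : (c + s) * ell s c = (s + 1) * ell (s + 1) c := by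
  rcases Nat.eq_zero_or_pos c with h | h
  · subst h
    rw [ell_zero hs, ell_zero (by omega)]
    simp
  unfold ell
  have := Nat.add_one_mul_choose_eq (c + s - 1) s
  rw [show c + s - 1 + 1 = c + s by omega] at this
  rw [show c + (s + 1) - 1 = c + s by omega, this, mul_comm]

/-- `(x + s) * ell s (c - 1) ≤ x * ell s c` for `c ≤ x + 1`. -/
theorem ell_pred_le (s c x : ℕ) (hs : 1 ≤ s) (hc : c ≤ x + 1) :
    (x + s) * ell s (c - 1) ≤ x * ell s c := by
  rcases Nat.eq_zero_or_pos c with h | h
  · subst h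
    rw [Nat.zero_sub, ell_zero hs, mul_zero]
    exact Nat.zero_le _
  obtain ⟨k, rfl⟩ : ∃ k, c = k + 1 := ⟨c - 1, by omega⟩
  rw [Nat.add_sub_cancel]
  have key := ell_mul_add s k hs
  have h1 : 0 < k + s := by omega
  refine Nat.le_of_mul_le_mul_right ?_ h1
  calc (x + s) * ell s k * (k + s) = (x + s) * (ell s k * (k + s)) := by ring
    _ = ((x + s) * k) * ell s (k + 1) := by rw [key]; ring
    _ ≤ (x * (k + s)) * ell s (k + 1) := by
        refine Nat.mul_le_mul_right _ ?_
        have : s * k ≤ s * x := Nat.mul_le_mul_left _ (by omega)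
        nlinarith
    _ = x * ell s (k + 1) * (k + s) := by ring

/-- The weight of a condition which may be empty. -/
def wgt (s : ℕ) (x : ℕ × ℕ) : ℕ := if x.2 ≤ x.1 then ell (s + 1) x.1 + 1 - x.2 else 0

theorem ell_pred_add (s c : ℕ) (hc : 1 ≤ c) : ell (s + 1) (c - 1) + ell s c = ell (s + 1) c := by
  obtain ⟨k, rfl⟩ : ∃ k, c = k + 1 := ⟨c - 1, by omega⟩
  rw [Nat.add_sub_cancel, ← ell_succ]

theorem wgt_here (s c e : ℕ) (h1 : 1 ≤ e) (h2 : e ≤ 2) (h3 : e ≤ c) :
    wgt s (c - 1, e) + ell s c = ell (s + 1) c + 1 - e := by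
  have h := ell_pred_add s c (by omega)
  unfold wgt
  simp only
  split_ifs with h4
  · have := ell_pos (s + 1) (m := c - 1) (by omega)
    omega
  · have hce : c = e := by omega
    subst hce
    have h5 : ell (s + 1) (c - 1) + 1 = c := by
      obtain h6 | h6 : c = 1 ∨ c = 2 := by omega
      · rw [h6, Nat.sub_self, ell_zero (by omega)]
      · rw [h6, ell_one]
    omega

end Pool.Agent.H21.NX

end

section

/-!
# Module B1 (TB): the system of a level, first facts
-/

namespace Pool.Agent.H51.TB

open Finset MvPolynomial Pool.Agent.H18.Ex Pool.Agent.H21.NX Pool.Agent.H18.Ta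

private theorem LBas_eval {a b : ℕ} (q : Z a b → ℂ) (α β : Z a b → ℕ) :
    eval q (tcr (fun i => (X i : MvPolynomial (Z a b) ℂ)) α β) = tcr q α β := by
  unfold tcr
  rw [map_prod]
  refine prod_congr rfl fun i _ => ?_
  rw [map_mul, map_natCast, map_pow, eval_X]

/-- The conditions in terms of `tcr` (`MvPolynomial.eval` of the coefficients, `tcr_map` in
`Pool/Agent/H18/Ex/Gen.lean`). -/
theorem mem_LV {a b d j : ℕ} {κ : Type} (m : κ → Finset (ℕ × ℕ)) (p : κ → Z a b → ℂ)
    (f : {α // α ∈ Bx a b d j} → ℂ) :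
    f ∈ (LSys a b d j).V m p ↔ ∀ i (β : Z a b → ℕ), (xd β, yd β) ∈ m i →
      ∑ α : {α // α ∈ Bx a b d j}, tcr (p i) α.1 β * f α = 0 := by
  rw [Sys.mem_V]
  constructor
  · intro h i β hβ
    have h1 := h i ⟨β, hβ⟩
    refine Eq.trans (sum_congr rfl fun α _ => ?_) h1
    rw [← LBas_eval (p i) α.1 β]
    rfl
  · intro h i r
    have h1 := h i r.1 r.2
    refine Eq.trans (sum_congr rfl fun α _ => ?_) h1
    rw [← LBas_eval (p i) α.1 r.1]
    rfl

theorem dom_of_subset {a b d j : ℕ} {Λ Λ' : Finset (ℕ × ℕ)} (h : Λ ⊆ Λ') :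
    (LSys a b d j).Dom Λ' Λ := by
  intro q f hf
  rw [mem_LV] at hf ⊢
  exact fun i β hβ => hf i β (h hβ)

private theorem LBas_card_Sx {ι : Type} [Fintype ι] [DecidableEq ι] (n : ℕ) :
    (Sx ι n).card = Nat.multichoose (Fintype.card ι) n := by
  rw [← card_univ, ← card_finsuppAntidiag_nat_eq_multichoose]
  symm
  apply card_bij (fun (α : ι →₀ ℕ) _ => (⇑α : ι → ℕ))
  · intro α hα
    rw [mem_finsuppAntidiag] at hα
    exact mem_Sx.2 hα.1
  · intro α _ β _ h
    exact DFunLike.coe_injective h
  · intro f hf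
    refine ⟨Finsupp.equivFunOnFinite.symm f, ?_, rfl⟩
    rw [mem_finsuppAntidiag]
    exact ⟨mem_Sx.1 hf, subset_univ _⟩

/-- The exponents of the level `j` are pairs of a multi-index of degree `d - j` in `a` variables and
one of degree `j` in `b` variables (`multichoose a (d - j)` and `multichoose b j` of them;
e.g. `Finset.card_piAntidiag`, or `Sym.card_sym_eq_multichoose`). -/
theorem card_Bx {a b d j : ℕ} (hj : j ≤ d) : (Bx a b d j).card = bet a b d j := by
  unfold bet
  have h1 := LBas_card_Sx (ι := Fin a) (d - j)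
  have h2 := LBas_card_Sx (ι := Fin b) j
  rw [Fintype.card_fin] at h1 h2
  rw [← h1, ← h2, ← card_product]
  apply card_bij (fun (α : Z a b → ℕ) _ => ((fun i => α (Sum.inl i), fun i => α (Sum.inr i)) : (Fin a → ℕ) × (Fin b → ℕ)))
  · intro α hα
    rw [mem_Bx] at hα
    rw [mem_product, mem_Sx, mem_Sx]
    constructor
    · change xd α = d - j
      omega
    · exact hα.2
  · intro α _ β _ h
    rw [Prod.mk.injEq] at h
    funext z
    rcases z with i | i
    · exact congrFun h.1 i
    · exact congrFun h.2 i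
  · intro f hf
    rw [mem_product, mem_Sx, mem_Sx] at hf
    refine ⟨Sum.elim f.1 f.2, ?_, rfl⟩
    rw [mem_Bx]
    have h3 : xd (Sum.elim f.1 f.2 : Z a b → ℕ) = ∑ i, f.1 i := rfl
    have h4 : yd (Sum.elim f.1 f.2 : Z a b → ℕ) = ∑ i, f.2 i := rfl
    omega

/-- `∑_j bet = binom(a + b - 1 + d, d) = ell (a + b - 1) (d + 1)` (Vandermonde for `multichoose`; or
count `Sx (Z a b) d`). -/
theorem sum_bet {a b : ℕ} (ha : 1 ≤ a) (hb : 1 ≤ b) (d : ℕ) :
    ∑ j ∈ range (d + 1), bet a b d j = ell (a + b - 1) (d + 1) := by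
  have h1 := LBas_card_Sx (ι := Z a b) d
  rw [Fintype.card_sum, Fintype.card_fin, Fintype.card_fin] at h1
  have h2 : (Sx (Z a b) d).card = ∑ j ∈ range (d + 1), (Bx a b d j).card := by
    unfold Bx
    apply card_eq_sum_card_fiberwise
    intro α hα
    rw [Finset.mem_coe, mem_Sx, Fintype.sum_sum_type] at hα
    rw [Finset.mem_coe, mem_range]
    unfold yd
    omega
  have h3 : ∑ j ∈ range (d + 1), bet a b d j = ∑ j ∈ range (d + 1), (Bx a b d j).card := by
    refine sum_congr rfl fun j hj => ?_
    rw [mem_range] at hj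
    rw [card_Bx (by omega)]
  rw [h3, ← h2, h1, Nat.multichoose_eq]
  unfold ell
  have h4 : d + 1 + (a + b - 1) - 1 = a + b + d - 1 := by omega
  rw [h4]
  have h5 : a + b + d - 1 = (a + b - 1) + d := by omega
  rw [h5]
  exact (Nat.choose_symm_add (a := a + b - 1) (b := d)).symm

end Pool.Agent.H51.TB

end

section

/-!
# Module D6 (TB): the proportions

Let `Ψ j = (∑_{i ≤ j} binom (m - 1, i)) / 2^(m - 1)` (`= 1` for `j ≥ m - 1`), `D = d + 1 - m ≥ m`.
`Gl d m s j = Ψ (j - D) + (if s ≤ j then Ψ j - Ψ (j - D) else 0)` (`Ψ (j - D) = 0` if `j < D`).  So with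
`C j = ∑_{s ≤ j} θ s` the equations say `Ψ (j - D) + (Ψ j - Ψ (j - D)) C j = Φ j`, that is,
`C j = Φ j / Ψ j` for `j < D`, `1 - C j = (1 - Φ j) / (1 - Ψ (j - D))` for `j ≥ D` (there `Ψ j = 1`);
for `m - 1 ≤ j < D` both formulas agree (`Ψ j = 1`).  At `j = d` the equation is `1 = 1` if `C d = 1`
(`Ψ d = 1`, `Φ d = 1`).
Put `C j` as above for `j < d`, `C d = 1`, `θ s = C s - C (s - 1)`, `C (-1) = 0`.  `C` is strictly
increasing: for `j < D`, `Φ j / Ψ j` is (up to a constant) a quotient of the partial sums of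
`binom (d, i)` and of `binom (m - 1, i)`, and the quotient `binom (d, i) / binom (m - 1, i)` increases
strictly in `i ≤ m - 1` (`m - 1 < d`), while for `j ≥ m - 1` the denominator is constant; for `j ≥ D`
use the symmetry `1 - Φ j = Φ (d - 1 - j)`, `1 - Ψ (j - D) = Ψ (d - 1 - j)`, so
`1 - C j = Φ (d - 1 - j) / Ψ (d - 1 - j)`.  The overlap `m - 1 ≤ D - 1` of the two ranges makes `C`
strictly increasing on `[0, d]`.
-/

namespace Pool.Agent.H51.TB

open Finset

/-- the partial sums of the binomial coefficients -/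
private def Theta_A (d j : ℕ) : ℕ := ∑ i ∈ range (j + 1), d.choose i

private theorem Theta_Phi (d j : ℕ) : Phi d j = (Theta_A d j : ℝ) / 2 ^ d := by
  unfold Phi Theta_A; push_cast; rfl

private theorem Theta_A_pos (d j : ℕ) : 0 < Theta_A d j := by
  unfold Theta_A
  refine Finset.sum_pos' (fun _ _ => Nat.zero_le _) ⟨0, by simp, by simp⟩

private theorem Theta_Phi_pos (d j : ℕ) : 0 < Phi d j := by
  rw [Theta_Phi]
  have := Theta_A_pos d j
  positivity

private theorem Theta_A_top {d j : ℕ} (h : d ≤ j) : Theta_A d j = 2 ^ d := by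
  unfold Theta_A
  rw [← Nat.sum_range_choose d]
  refine (Finset.sum_subset (Finset.range_subset_range.2 (by omega)) fun i _ hi => ?_).symm
  exact Nat.choose_eq_zero_of_lt (by simpa using hi)

private theorem Theta_Phi_top {d j : ℕ} (h : d ≤ j) : Phi d j = 1 := by
  rw [Theta_Phi, Theta_A_top h]; push_cast; field_simp

private theorem Theta_A_symm {d j : ℕ} (h : j < d) : Theta_A d j + Theta_A d (d - 1 - j) = 2 ^ d := by
  unfold Theta_A
  rw [← Nat.sum_range_choose d, ← Finset.sum_range_add_sum_Ico _ (show j + 1 ≤ d + 1 by omega)]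
  congr 1
  rw [Finset.sum_Ico_eq_sum_range, show d + 1 - (j + 1) = d - 1 - j + 1 by omega,
    ← Finset.sum_range_reflect]
  refine Finset.sum_congr rfl fun k hk => ?_
  rw [mem_range] at hk
  exact Nat.choose_symm_of_eq_add (by omega)

private theorem Theta_Phi_symm {d j : ℕ} (h : j < d) : Phi d j + Phi d (d - 1 - j) = 1 := by
  rw [Theta_Phi, Theta_Phi, ← add_div]
  have := Theta_A_symm h
  rw [div_eq_one_iff_eq (by positivity)]
  exact_mod_cast this

private theorem Theta_cross {d M i k : ℕ} (hMd : M ≤ d) (hik : i ≤ k) :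
    d.choose i * M.choose k ≤ d.choose k * M.choose i := by
  rcases lt_or_ge M k with h | h
  · rw [Nat.choose_eq_zero_of_lt h]; simp
  · have h1 : M.choose k * k.choose i = M.choose i * (M - i).choose (k - i) := Nat.choose_mul hik
    have h2 : d.choose k * k.choose i = d.choose i * (d - i).choose (k - i) := Nat.choose_mul hik
    have h3 : (M - i).choose (k - i) ≤ (d - i).choose (k - i) := Nat.choose_le_choose _ (by omega)
    have h4 : 0 < k.choose i := Nat.choose_pos hik
    refine Nat.le_of_mul_le_mul_right (c := k.choose i) ?_ h4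
    calc d.choose i * M.choose k * k.choose i = d.choose i * (M.choose k * k.choose i) := by ring
      _ = d.choose i * M.choose i * (M - i).choose (k - i) := by rw [h1]; ring
      _ ≤ d.choose i * M.choose i * (d - i).choose (k - i) := Nat.mul_le_mul_left _ h3
      _ = d.choose k * M.choose i * k.choose i := by
        rw [show d.choose k * M.choose i * k.choose i = M.choose i * (d.choose k * k.choose i) by ring, h2]; ring

private theorem Theta_choose_lt {d M k : ℕ} (hMd : M < d) (hk : 1 ≤ k) (hkd : k ≤ d) :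
    M.choose k < d.choose k := by
  rcases lt_or_ge M k with h | h
  · rw [Nat.choose_eq_zero_of_lt h]; exact Nat.choose_pos hkd
  · obtain ⟨k', rfl⟩ : ∃ k', k = k' + 1 := ⟨k - 1, by omega⟩
    have h1 : (M + 1).choose (k' + 1) = M.choose k' + M.choose (k' + 1) := Nat.choose_succ_succ _ _
    have h2 : 0 < M.choose k' := Nat.choose_pos (by omega)
    have h3 : (M + 1).choose (k' + 1) ≤ d.choose (k' + 1) := Nat.choose_le_choose _ (by omega)
    omega

private noncomputable def Theta_Q (d M j : ℕ) : ℝ := Phi d j / Phi M j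

private theorem Theta_Q_pos (d M j : ℕ) : 0 < Theta_Q d M j :=
  div_pos (Theta_Phi_pos d j) (Theta_Phi_pos M j)

private theorem Theta_Q_lt {d M j : ℕ} (hMd : M < d) (hj : j + 1 ≤ d) :
    Theta_Q d M j < Theta_Q d M (j + 1) := by
  unfold Theta_Q
  rw [div_lt_div_iff₀ (Theta_Phi_pos _ _) (Theta_Phi_pos _ _), Theta_Phi, Theta_Phi, Theta_Phi, Theta_Phi]
  have hA : Theta_A d (j + 1) = Theta_A d j + d.choose (j + 1) := by
    unfold Theta_A; rw [Finset.sum_range_succ _ (j + 1)]
  have hB : Theta_A M (j + 1) = Theta_A M j + M.choose (j + 1) := by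
    unfold Theta_A; rw [Finset.sum_range_succ _ (j + 1)]
  have key : Theta_A d j * M.choose (j + 1) < d.choose (j + 1) * Theta_A M j := by
    unfold Theta_A
    rw [Finset.sum_mul, Finset.mul_sum]
    refine Finset.sum_lt_sum (fun i hi => Theta_cross hMd.le ?_) ⟨0, by simp, ?_⟩
    · rw [mem_range] at hi; omega
    · simpa using Theta_choose_lt hMd (by omega) hj
  have h1 : Theta_A d j * Theta_A M (j + 1) < Theta_A d (j + 1) * Theta_A M j := by
    rw [hA, hB]; nlinarith
  have h2 : ((Theta_A d j : ℝ) * Theta_A M (j + 1)) < Theta_A d (j + 1) * Theta_A M j := by exact_mod_cast h1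
  have e1 : (Theta_A d j : ℝ) / 2 ^ d * (Theta_A M (j + 1) / 2 ^ M) =
      (Theta_A d j * Theta_A M (j + 1)) / (2 ^ d * 2 ^ M) := by ring
  have e2 : (Theta_A d (j + 1) : ℝ) / 2 ^ d * (Theta_A M j / 2 ^ M) =
      (Theta_A d (j + 1) * Theta_A M j) / (2 ^ d * 2 ^ M) := by ring
  rw [e1, e2]
  exact div_lt_div_of_pos_right h2 (by positivity)

private theorem Theta_Gl_le {d m s j : ℕ} (hm : 1 ≤ m) (h : s ≤ j) : Gl d m s j = Phi (m - 1) j := by
  unfold Gl Phi
  congr 1
  have e1 : ∀ i, (if i ≤ j ∧ (s ≤ j ∨ i + (d + 1) ≤ j + m) then ((m - 1).choose i : ℝ) else 0) =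
      if i ≤ j then ((m - 1).choose i : ℝ) else 0 := fun i => by simp [h]
  simp only [e1]
  rw [← Finset.sum_filter]
  refine Finset.sum_subset (fun i hi => ?_) fun i hi hi' => ?_
  · simp only [mem_filter, mem_range] at hi ⊢; omega
  · simp only [mem_filter, mem_range, not_and] at hi hi'
    have : m - 1 < i := by
      by_contra hc
      exact hi' (by omega) (by omega)
    exact_mod_cast Nat.choose_eq_zero_of_lt this

private theorem Theta_Gl_gt {d m s j : ℕ} (hm : 1 ≤ m) (hmd : m ≤ d) (h : j < s) :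
    Gl d m s j = if d + 1 - m ≤ j then Phi (m - 1) (j - (d + 1 - m)) else 0 := by
  unfold Gl
  have e1 : ∀ i, (if i ≤ j ∧ (s ≤ j ∨ i + (d + 1) ≤ j + m) then ((m - 1).choose i : ℝ) else 0) =
      if i + (d + 1 - m) ≤ j then ((m - 1).choose i : ℝ) else 0 := fun i => by
    by_cases hc : i + (d + 1 - m) ≤ j
    · rw [if_pos hc, if_pos ⟨by omega, Or.inr (by omega)⟩]
    · rw [if_neg hc, if_neg]
      rintro ⟨h1, h2⟩
      rcases h2 with h2 | h2 <;> omega
  simp only [e1]
  split_ifs with hD
  · unfold Phi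
    congr 1
    rw [← Finset.sum_filter]
    refine Finset.sum_subset (fun i hi => ?_) fun i hi hi' => ?_
    · simp only [mem_filter, mem_range] at hi ⊢; omega
    · simp only [mem_filter, mem_range, not_and] at hi hi'
      have : m - 1 < i := by
        by_contra hc
        exact hi' (by omega) (by omega)
      exact_mod_cast Nat.choose_eq_zero_of_lt this
  · rw [Finset.sum_eq_zero, zero_div]
    intro i _
    rw [if_neg (by omega)]

theorem theta (d m : ℕ) (hm : 1 ≤ m) (h2 : 2 * m ≤ d + 1) : ∃ θ : ℕ → ℝ, (∀ s ≤ d, 0 < θ s) ∧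
    ∑ s ∈ range (d + 1), θ s = 1 ∧
    ∀ j ≤ d, ∑ s ∈ range (d + 1), θ s * Gl d m s j = Phi d j := by
  classical
  obtain ⟨M, rfl⟩ : ∃ M, m = M + 1 := ⟨m - 1, by omega⟩
  obtain ⟨D, hD⟩ : ∃ D, D = d - M := ⟨_, rfl⟩
  have hMd : M < d := by omega
  have hDM : M + 1 ≤ D := by omega
  set T : ℕ → ℝ := fun n => if n = 0 then 0 else if n ≤ D then Theta_Q d M (n - 1) else
    if n ≤ d then 1 - Theta_Q d M (d - n) else 1 with hT
  have hT0 : T 0 = 0 := by simp [hT]
  have hT1 : ∀ n, 1 ≤ n → n ≤ D → T n = Theta_Q d M (n - 1) := fun n h1 h2 => by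
    simp only [hT]; rw [if_neg (by omega), if_pos h2]
  have hTd : T (d + 1) = 1 := by
    simp only [hT]; rw [if_neg (by omega), if_neg (by omega), if_neg (by omega)]
  have hT2 : ∀ n, D ≤ n → n ≤ d → T n = 1 - Theta_Q d M (d - n) := fun n h1 h2 => by
    rcases Nat.lt_or_ge D n with h | h
    · simp only [hT]; rw [if_neg (by omega), if_neg (by omega), if_pos h2]
    · have hn : n = D := by omega
      subst hn
      rw [hT1 _ (by omega) le_rfl]
      unfold Theta_Q
      rw [Theta_Phi_top (show M ≤ n - 1 by omega), Theta_Phi_top (show M ≤ d - n by omega)]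
      have := Theta_Phi_symm (d := d) (j := n - 1) (by omega)
      rw [show d - 1 - (n - 1) = d - n by omega] at this
      rw [div_one, div_one]; linarith
  have hmono : ∀ n ≤ d, T n < T (n + 1) := by
    intro n hn
    rcases Nat.eq_zero_or_pos n with h0 | h0
    · subst h0
      rw [hT0, hT1 _ (by omega) (by omega)]
      exact Theta_Q_pos _ _ _
    · rcases Nat.lt_or_ge n D with h1 | h1
      · rw [hT1 n (by omega) h1.le, hT1 (n + 1) (by omega) (by omega)]
        have := Theta_Q_lt (j := n - 1) hMd (by omega)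
        rwa [show n - 1 + 1 = n + 1 - 1 by omega] at this
      · rcases Nat.lt_or_ge n d with h2 | h2
        · rw [hT2 n h1 h2.le, hT2 (n + 1) (by omega) (by omega)]
          have := Theta_Q_lt (j := d - (n + 1)) hMd (by omega)
          rw [show d - (n + 1) + 1 = d - n by omega] at this
          linarith
        · have hnd : n = d := by omega
          subst hnd
          rw [hTd, hT2 n h1 le_rfl]
          have := Theta_Q_pos n M (n - n)
          linarith
  have hsum : ∀ n, ∑ s ∈ range n, (T (s + 1) - T s) = T n := fun n => by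
    rw [Finset.sum_range_sub, hT0, sub_zero]
  refine ⟨fun s => T (s + 1) - T s, fun s hs => sub_pos.2 (hmono s hs), by rw [hsum, hTd], fun j hj => ?_⟩
  rw [← Finset.sum_range_add_sum_Ico _ (show j + 1 ≤ d + 1 by omega)]
  have e1 : ∑ s ∈ range (j + 1), (T (s + 1) - T s) * Gl d (M + 1) s j = T (j + 1) * Phi M j := by
    rw [← hsum (j + 1), Finset.sum_mul]
    refine Finset.sum_congr rfl fun s hs => ?_
    rw [mem_range] at hs
    rw [Theta_Gl_le (by omega) (by omega), show M + 1 - 1 = M by omega]
  have e2 : ∑ s ∈ Ico (j + 1) (d + 1), (T (s + 1) - T s) * Gl d (M + 1) s j =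
      (1 - T (j + 1)) * (if D ≤ j then Phi M (j - D) else 0) := by
    have e3 : ∑ s ∈ Ico (j + 1) (d + 1), (T (s + 1) - T s) = 1 - T (j + 1) := by
      have := Finset.sum_range_add_sum_Ico (fun s => T (s + 1) - T s) (show j + 1 ≤ d + 1 by omega)
      rw [hsum, hsum, hTd] at this
      linarith
    rw [← e3, Finset.sum_mul]
    refine Finset.sum_congr rfl fun s hs => ?_
    rw [mem_Ico] at hs
    rw [Theta_Gl_gt (by omega) (by omega) (by omega), show d + 1 - (M + 1) = D by omega,
      show M + 1 - 1 = M by omega]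
  rw [e1, e2]
  rcases Nat.lt_or_ge j D with h1 | h1
  · rw [if_neg (by omega), mul_zero, add_zero, hT1 (j + 1) (by omega) (by omega), show j + 1 - 1 = j by omega]
    unfold Theta_Q
    exact div_mul_cancel₀ _ (Theta_Phi_pos _ _).ne'
  · rw [if_pos h1, Theta_Phi_top (show M ≤ j by omega), mul_one]
    rcases Nat.lt_or_ge j d with h2 | h2
    · rw [hT2 (j + 1) (by omega) (by omega), show d - (j + 1) = d - 1 - j by omega]
      have f1 := Theta_Phi_symm (d := d) (j := j) h2
      have f2 := Theta_Phi_symm (d := M) (j := j - D) (by omega)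
      rw [show M - 1 - (j - D) = d - 1 - j by omega] at f2
      have f3 : Theta_Q d M (d - 1 - j) * Phi M (d - 1 - j) = Phi d (d - 1 - j) := by
        unfold Theta_Q
        exact div_mul_cancel₀ _ (Theta_Phi_pos _ _).ne'
      have f4 : Phi M (j - D) = 1 - Phi M (d - 1 - j) := by linarith
      rw [f4]
      linear_combination -f3 - f1
    · have hjd : j = d := by omega
      subst hjd
      rw [hTd, Theta_Phi_top le_rfl]; ring

end Pool.Agent.H51.TB

end

section

/-!
# Module D1 (TB): the total number of conditions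

`∑_{j ≤ d} wt j = ∑_{g} Eg g * #{j ≤ d : g ∈ Lam d m c j}`.  For `|g| = k < m ≤ d + 1` the levels `j` of
the window `[gy, d - gx]` (`d - k + 1` of them) have the different window ranks `wr = 0, …, d - k`
(`rk` is injective on the levels), so `#{j : g ∈ Lam j} = min (m - k) (d - k + 1) = m - k`.  And
`∑_{|g| = k} Eg g = multichoose (a + b - 2) k` (Vandermonde: `multichoose` counts multisets; or
`PowerSeries`/generating functions; or induction), `∑_{k < m} (m - k) multichoose (a + b - 2) k =
ell (a + b - 1) m` (`m = 1`: both `1`; induction on `m` with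
`∑_{k ≤ m} multichoose (v) k = multichoose (v + 1) m`, twice).
-/

namespace Pool.Agent.H51.TB

open Finset Pool.Agent.H18.Ex Pool.Agent.H21.NX Pool.Agent.H18.Ta

/-- Vandermonde. -/
theorem sum_multichoose (v w k : ℕ) :
    ∑ g ∈ antidiagonal k, Nat.multichoose v g.1 * Nat.multichoose w g.2 =
      Nat.multichoose (v + w) k := by
  induction v generalizing k with
  | zero =>
    rw [Nat.zero_add]
    cases k with
    | zero =>
      rw [Finset.Nat.antidiagonal_zero, Finset.sum_singleton, Nat.multichoose_zero_right,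
        Nat.multichoose_zero_right]
    | succ k =>
      rw [Finset.Nat.sum_antidiagonal_succ, Nat.multichoose_zero_right, Nat.one_mul]
      rw [Finset.sum_eq_zero (fun p _ => by rw [Nat.multichoose_zero_succ, Nat.zero_mul]), Nat.add_zero]
  | succ v ihv =>
    induction k with
    | zero =>
      rw [Finset.Nat.antidiagonal_zero, Finset.sum_singleton, Nat.multichoose_zero_right,
        Nat.multichoose_zero_right, Nat.multichoose_zero_right]
    | succ k ihk =>
      have e1 := ihv (k + 1)
      rw [Finset.Nat.sum_antidiagonal_succ, Nat.multichoose_zero_right] at e1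
      rw [Finset.Nat.sum_antidiagonal_succ, Nat.multichoose_zero_right]
      have e2 : ∑ p ∈ antidiagonal k, Nat.multichoose (v + 1) (p.1 + 1) * Nat.multichoose w p.2 =
          ∑ p ∈ antidiagonal k, Nat.multichoose v (p.1 + 1) * Nat.multichoose w p.2 +
            ∑ p ∈ antidiagonal k, Nat.multichoose (v + 1) p.1 * Nat.multichoose w p.2 := by
        rw [← Finset.sum_add_distrib]
        refine Finset.sum_congr rfl (fun p _ => ?_)
        rw [Nat.multichoose_succ_succ, Nat.add_mul]
      rw [e2, ihk, ← Nat.add_assoc, e1, show v + 1 + w = (v + w) + 1 by omega,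
        Nat.multichoose_succ_succ]

private theorem Tot_rank (W : Finset ℕ) (f : ℕ → ℕ) (hf : ∀ i ∈ W, ∀ j ∈ W, f i = f j → i = j) (n : ℕ)
    (hn : n ≤ W.card) :
    (W.filter fun j => (W.filter fun i => f i < f j).card < n).card = n := by
  classical
  set r : ℕ → ℕ := fun j => (W.filter fun i => f i < f j).card with hr
  have hmono : ∀ i ∈ W, ∀ j ∈ W, f i < f j → r i < r j := by
    intro i hi j _ h
    refine Finset.card_lt_card ?_
    refine (Finset.ssubset_iff_of_subset ?_).2 ⟨i, Finset.mem_filter.2 ⟨hi, h⟩, ?_⟩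
    · intro t ht
      rw [Finset.mem_filter] at ht ⊢
      exact ⟨ht.1, ht.2.trans h⟩
    · intro h'
      exact absurd (Finset.mem_filter.1 h').2 (lt_irrefl _)
  have hinj : Set.InjOn r (W : Set ℕ) := by
    intro i hi j hj h
    have hi' := Finset.mem_coe.1 hi
    have hj' := Finset.mem_coe.1 hj
    rcases lt_trichotomy (f i) (f j) with h1 | h1 | h1
    · exact absurd h (hmono i hi' j hj' h1).ne
    · exact hf i hi' j hj' h1
    · exact absurd h (hmono j hj' i hi' h1).ne'
  have himg : W.image r = range W.card := by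
    refine Finset.eq_of_subset_of_card_le ?_ ?_
    · intro k hk
      obtain ⟨j, hj, rfl⟩ := Finset.mem_image.1 hk
      rw [Finset.mem_range]
      refine Finset.card_lt_card ?_
      refine (Finset.ssubset_iff_of_subset (Finset.filter_subset _ _)).2 ⟨j, hj, ?_⟩
      intro h'
      exact absurd (Finset.mem_filter.1 h').2 (lt_irrefl _)
    · rw [Finset.card_image_of_injOn hinj, Finset.card_range]
  have h1 : (W.filter fun j => r j < n).image r = range n := by
    ext k
    rw [Finset.mem_image, Finset.mem_range]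
    constructor
    · rintro ⟨j, hj, rfl⟩
      exact (Finset.mem_filter.1 hj).2
    · intro hk
      have hk' : k ∈ W.image r := by
        rw [himg, Finset.mem_range]
        omega
      obtain ⟨j, hj, rfl⟩ := Finset.mem_image.1 hk'
      exact ⟨j, Finset.mem_filter.2 ⟨hj, hk⟩, rfl⟩
  have h2 : ((W.filter fun j => r j < n).image r).card = (W.filter fun j => r j < n).card :=
    Finset.card_image_of_injOn (hinj.mono (by
      intro j hj
      exact Finset.mem_coe.2 (Finset.mem_filter.1 (Finset.mem_coe.1 hj)).1))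
  rw [h1, Finset.card_range] at h2
  exact h2.symm

/-- Each bidegree `g`, `|g| < m`, is used on exactly `m - |g|` levels. -/
theorem card_levels {d m : ℕ} (hm : m ≤ d + 1) {c : ℕ × ℕ} (hc : c.1 + c.2 ≤ d) (g : ℕ × ℕ)
    (hg : g.1 + g.2 < m) :
    ((range (d + 1)).filter fun j => g ∈ Lam d m c j).card = m - (g.1 + g.2) := by
  classical
  set W : Finset ℕ := (range (d + 1)).filter fun i => g.2 ≤ i ∧ i + g.1 ≤ d with hW
  have hWc : W.card = d + 1 - (g.1 + g.2) := by
    have e : W = Finset.Icc g.2 (d - g.1) := by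
      ext i
      rw [hW, Finset.mem_filter, Finset.mem_range, Finset.mem_Icc]
      omega
    rw [e, Nat.card_Icc]
    omega
  have hwr : ∀ j, wr d c g j =
      (W.filter fun i => rk (d + 1) c.1 c.2 i < rk (d + 1) c.1 c.2 j).card := by
    intro j
    unfold wr
    rw [hW, Finset.filter_filter]
    congr 1
    refine Finset.filter_congr (fun i _ => ?_)
    tauto
  have key := Tot_rank W (rk (d + 1) c.1 c.2) (by
    intro i hi j hj h
    rw [hW, Finset.mem_filter, Finset.mem_range] at hi hj
    exact rk_inj (by omega) hi.1 hj.1 h) (m - (g.1 + g.2)) (by omega)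
  rw [← key]
  congr 1
  ext j
  rw [Finset.mem_filter, Finset.mem_filter, ← hwr j]
  unfold Lam
  rw [hW, Finset.mem_filter, Finset.mem_filter, Finset.mem_product, Finset.mem_range, Finset.mem_range,
    Finset.mem_range]
  constructor
  · rintro ⟨h1, -, h2, h3, h4⟩
    exact ⟨⟨h1, h2, h3⟩, by omega⟩
  · rintro ⟨⟨h1, h2, h3⟩, h4⟩
    exact ⟨h1, ⟨by omega, by omega⟩, h2, h3, by omega⟩

private theorem Tot_sum1 (v : ℕ) : ∀ m : ℕ, ∑ k ∈ range (m + 1), Nat.multichoose v k =
    Nat.multichoose (v + 1) m := by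
  intro m
  induction m with
  | zero => rw [Finset.sum_range_one, Nat.multichoose_zero_right, Nat.multichoose_zero_right]
  | succ m ih =>
    rw [Finset.sum_range_succ, ih, Nat.multichoose_succ_succ, Nat.add_comm]

private theorem Tot_sum2 (v : ℕ) : ∀ m : ℕ, ∑ k ∈ range m, (m - k) * Nat.multichoose v k =
    (v + m).choose (v + 1) := by
  intro m
  induction m with
  | zero =>
    rw [Finset.sum_range_zero, Nat.add_zero, Nat.choose_eq_zero_of_lt (Nat.lt_succ_self v)]
  | succ m ih =>
    have e1 : ∑ k ∈ range (m + 1), (m + 1 - k) * Nat.multichoose v k =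
        ∑ k ∈ range (m + 1), (m - k) * Nat.multichoose v k + ∑ k ∈ range (m + 1), Nat.multichoose v k := by
      rw [← Finset.sum_add_distrib]
      refine Finset.sum_congr rfl (fun k hk => ?_)
      rw [Finset.mem_range] at hk
      rw [show m + 1 - k = (m - k) + 1 by omega, Nat.add_mul, Nat.one_mul]
    have e2 : ∑ k ∈ range (m + 1), (m - k) * Nat.multichoose v k = (v + m).choose (v + 1) := by
      rw [Finset.sum_range_succ, Nat.sub_self, Nat.zero_mul, Nat.add_zero, ih]
    rw [e1, e2, Tot_sum1, Nat.multichoose_eq, show v + 1 + m - 1 = v + m by omega,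
      show v + (m + 1) = (v + m) + 1 by omega, Nat.choose_succ_succ,
      ← Nat.choose_symm_of_eq_add (show v + m = m + v by omega), Nat.add_comm]

theorem sum_wt {a b d m : ℕ} (ha : 1 ≤ a) (hb : 1 ≤ b) (hm : m ≤ d + 1) {c : ℕ × ℕ}
    (hc : c.1 + c.2 ≤ d) : ∑ j ∈ range (d + 1), wt a b d m c j = ell (a + b - 1) m := by
  classical
  have hLam : ∀ j, Lam d m c j ⊆ range m ×ˢ range m := fun j => Finset.filter_subset _ _
  have e1 : ∀ j, wt a b d m c j = ∑ g ∈ range m ×ˢ range m, if g ∈ Lam d m c j then Eg a b g else 0 := by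
    intro j
    unfold wt
    rw [← Finset.sum_filter]
    refine Finset.sum_congr ?_ (fun _ _ => rfl)
    ext g
    rw [Finset.mem_filter]
    exact ⟨fun h => ⟨hLam j h, h⟩, fun h => h.2⟩
  have e2 : ∑ j ∈ range (d + 1), wt a b d m c j =
      ∑ g ∈ range m ×ˢ range m, (m - (g.1 + g.2)) * Eg a b g := by
    rw [Finset.sum_congr rfl (fun j _ => e1 j), Finset.sum_comm]
    refine Finset.sum_congr rfl (fun g _ => ?_)
    rw [← Finset.sum_filter, Finset.sum_const, smul_eq_mul]
    by_cases hg : g.1 + g.2 < m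
    · rw [card_levels hm hc g hg]
    · have e3 : (range (d + 1)).filter (fun j => g ∈ Lam d m c j) = ∅ := by
        refine Finset.filter_eq_empty_iff.2 ?_
        intro j _ h
        unfold Lam at h
        rw [Finset.mem_filter] at h
        omega
      rw [e3, Finset.card_empty, Nat.zero_mul, show m - (g.1 + g.2) = 0 by omega, Nat.zero_mul]
  have e4 : ∑ g ∈ range m ×ˢ range m, (m - (g.1 + g.2)) * Eg a b g =
      ∑ k ∈ range m, ∑ g ∈ antidiagonal k, (m - k) * Eg a b g := by
    have hfib := Finset.sum_fiberwise_of_maps_to (s := (range m ×ˢ range m).filter (fun g => g.1 + g.2 < m))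
      (t := range m) (g := fun g : ℕ × ℕ => g.1 + g.2) (by
        intro g hg
        exact Finset.mem_range.2 (Finset.mem_filter.1 hg).2) (fun g => (m - (g.1 + g.2)) * Eg a b g)
    have h1 : ∑ g ∈ (range m ×ˢ range m).filter (fun g => g.1 + g.2 < m), (m - (g.1 + g.2)) * Eg a b g =
        ∑ g ∈ range m ×ˢ range m, (m - (g.1 + g.2)) * Eg a b g := by
      refine Finset.sum_filter_of_ne ?_
      intro g _ h
      by_contra h'
      exact h (by rw [show m - (g.1 + g.2) = 0 by omega, Nat.zero_mul])
    rw [← h1, ← hfib]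
    refine Finset.sum_congr rfl (fun k hk => ?_)
    rw [Finset.mem_range] at hk
    have h2 : ((range m ×ˢ range m).filter (fun g : ℕ × ℕ => g.1 + g.2 < m)).filter (fun g => g.1 + g.2 = k) =
        antidiagonal k := by
      ext g
      rw [Finset.mem_filter, Finset.mem_filter, Finset.mem_product, Finset.mem_range, Finset.mem_range,
        Finset.HasAntidiagonal.mem_antidiagonal]
      omega
    rw [h2]
    refine Finset.sum_congr rfl (fun g hg => ?_)
    rw [Finset.HasAntidiagonal.mem_antidiagonal.1 hg]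
  rw [e2, e4]
  have e5 : ∀ k ∈ range m, ∑ g ∈ antidiagonal k, (m - k) * Eg a b g =
      (m - k) * Nat.multichoose (a + b - 2) k := by
    intro k _
    rw [← Finset.mul_sum]
    unfold Eg
    rw [sum_multichoose, show a - 1 + (b - 1) = a + b - 2 by omega]
  rw [Finset.sum_congr rfl e5, Tot_sum2]
  unfold ell
  rw [show a + b - 2 + 1 = a + b - 1 by omega, show a + b - 2 + m = m + (a + b - 1) - 1 by omega]

end Pool.Agent.H51.TB

end

section

/-!
# Project TB, second stage: definitions

`ASys A`: all conditions on the forms with exponents in `A` (`LSys a b d j = ASys (Bx a b d j)`).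
`Bu a b d j o e`: the exponents of the level `j` with exponent at most `e` at the `X`-variable `o`.  These
are the exponents of the forms vanishing to order `d - e` at the coordinate point `o`.
-/

namespace Pool.Agent.H51.TB

open Finset MvPolynomial Pool.Agent.H18.Ex Pool.Agent.H21.NX Pool.Agent.H18.Ta

/-- The system of all conditions on the forms with exponents in `A`. -/
noncomputable def ASys {a b : ℕ} (A : Finset (Z a b → ℕ)) :
    Sys {α // α ∈ A} (Z a b) (Finset (ℕ × ℕ)) where
  R := fun Λ => {β : Z a b → ℕ // (xd β, yd β) ∈ Λ}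
  fin := finite_idx a b
  co := fun _ β α => tcr (fun i => (X i : MvPolynomial (Z a b) ℂ)) α.1 β.1

theorem ASys_Bx (a b d j : ℕ) : ASys (Bx a b d j) = LSys a b d j := rfl

/-- The exponents of the level `j` with exponent at most `e` at the variable `o`. -/
def Bu (a b d j : ℕ) (o : Fin a) (e : ℕ) : Finset (Z a b → ℕ) :=
  (Bx a b d j).filter fun α => α (Sum.inl o) ≤ e

/-- Sections: forms whose coefficients are polynomials in the positions of the points and which
satisfy the conditions identically. -/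
def Sec {a b : ℕ} {κ : Type} (A : Finset (Z a b → ℕ)) (m : κ → Finset (ℕ × ℕ))
    (F : (Z a b → ℕ) → MvPolynomial (κ × Z a b) ℂ) : Prop :=
  ∀ i (β : Z a b → ℕ), (xd β, yd β) ∈ m i → ∑ α ∈ A, F α * tcr (fun v => X (i, v)) α β = 0

/-- The exponent `α + e_c - e_o`. -/
def sh {a b : ℕ} (o c : Fin a) (α : Z a b → ℕ) : Z a b → ℕ :=
  Function.update (Function.update α (Sum.inl o) (α (Sum.inl o) - 1)) (Sum.inl c)
    (α (Sum.inl c) + 1)

/-- The Lie derivative along the vector field `x_o ∂/∂x_c` (on the positions and on the forms). -/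
noncomputable def Lie {a b : ℕ} {κ : Type} [Fintype κ] (o c : Fin a)
    (F : (Z a b → ℕ) → MvPolynomial (κ × Z a b) ℂ) :
    (Z a b → ℕ) → MvPolynomial (κ × Z a b) ℂ := fun α =>
  (∑ i : κ, X (i, Sum.inl o) * pderiv (i, Sum.inl c) (F α)) +
    if 1 ≤ α (Sum.inl o) then ((α (Sum.inl c) + 1 : ℕ) : MvPolynomial (κ × Z a b) ℂ) * F (sh o c α)
    else 0

end Pool.Agent.H51.TB

end
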