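import Pool.Agent.H94.LP5.H18.Ex.Defs
import Pool.Agent.H94.LP5.H18.FatBasic

/-! The parts of this file: H18.FatLin, H18.Ex.Gen. -/

section

namespace Pool.Agent.H18.Fat

open MvPolynomial Finset

/-- Exponent vectors not involving the variable `0`, of degree smaller than `m`. -/
noncomputable def aff (r m : ℕ) : Finset (Fin (r + 1) →₀ ℕ) := by
  classical
  exact if m = 0 then ∅ else (mons (r + 1) (m - 1)).image (fun γ => γ.erase 0)

theorem degree_erase_zero {r : ℕ} (γ : Fin (r + 1) →₀ ℕ) :
    (γ.erase 0).degree + γ 0 = γ.degree := by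
  rw [Finsupp.degree_eq_sum, Finsupp.degree_eq_sum, Fin.sum_univ_succ, Fin.sum_univ_succ]
  simp only [Finsupp.erase_same, zero_add]
  rw [add_comm]
  congr 1
  exact sum_congr rfl fun i _ => Finsupp.erase_ne (Fin.succ_ne_zero i)

theorem mem_aff {r m : ℕ} {β : Fin (r + 1) →₀ ℕ} :
    β ∈ aff r m ↔ β 0 = 0 ∧ β.degree < m := by
  classical
  unfold aff
  split_ifs with h
  · subst h
    simp
  · rw [mem_image]
    constructor
    · rintro ⟨γ, hγ, rfl⟩
      rw [mem_mons] at hγ
      have := degree_erase_zero γ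
      refine ⟨by simp, by omega⟩
    · rintro ⟨h0, h1⟩
      refine ⟨β + Finsupp.single 0 (m - 1 - β.degree), ?_, ?_⟩
      · rw [mem_mons]
        simp only [map_add, Finsupp.degree_single]
        omega
      · ext j
        by_cases hj : j = 0
        · subst hj
          simp [h0]
        · simp [Finsupp.erase_ne hj, Finsupp.single_eq_of_ne hj]

theorem card_aff {r : ℕ} (hr : 1 ≤ r) (m : ℕ) : (aff r m).card = (m + r - 1).choose r := by
  classical
  unfold aff
  split_ifs with h
  · subst h
    rw [card_empty, Nat.choose_eq_zero_of_lt (by omega)]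
  · rw [card_image_of_injOn, card_mons]
    · congr 1
      omega
    · intro γ hγ γ' hγ' he
      have h1 := mem_mons.1 hγ
      have h2 := mem_mons.1 hγ'
      have h3 := degree_erase_zero γ
      have h4 := degree_erase_zero γ'
      simp only at he
      rw [he] at h3
      have h5 : γ 0 = γ' 0 := by omega
      ext j
      by_cases hj : j = 0
      · subst hj
        exact h5
      · have := congrArg (fun b => b j) he
        simpa [Finsupp.erase_ne hj] using this

section

variable {ι : Type*} [Fintype ι]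

/-- Indices of the linear conditions. -/
abbrev Cond (r : ℕ) (m : ι → ℕ) : Type _ := Σ i : ι, {β // β ∈ aff r (m i)}

theorem card_cond {r : ℕ} (hr : 1 ≤ r) (m : ι → ℕ) :
    Fintype.card (Cond r m) = ∑ i, (m i + r - 1).choose r := by
  rw [Fintype.card_sigma]
  refine sum_congr rfl fun i _ => ?_
  rw [Fintype.card_coe, card_aff hr]

end

/-- Injectivity of a matrix with polynomial entries is an open condition. -/
theorem exists_poly_injective {σ R K : Type*} [Fintype R] [Fintype K]
    (N : Matrix R K (MvPolynomial σ ℂ)) (a₀ : σ → ℂ)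
    (h : LinearMap.ker (N.map (eval a₀)).mulVecLin = ⊥) :
    ∃ G : MvPolynomial σ ℂ, eval a₀ G ≠ 0 ∧
      ∀ a, eval a G ≠ 0 → LinearMap.ker (N.map (eval a)).mulVecLin = ⊥ := by
  classical
  obtain ⟨g, hg⟩ := LinearMap.exists_leftInverse_of_injective _ h
  obtain ⟨B, hBg⟩ : ∃ B : Matrix K R ℂ, Matrix.toLin' B = g := ⟨LinearMap.toMatrix' g, by simp⟩
  have hB : B * (N.map (eval a₀)) = 1 := by
    apply Matrix.toLin'.injective
    rw [Matrix.toLin'_mul, hBg, Matrix.toLin'_one]
    exact hg
  have hB' : ∀ a : σ → ℂ, (B.map (C : ℂ → MvPolynomial σ ℂ)).map (eval a) = B := by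
    intro a
    ext i j
    simp
  let D : Matrix K K (MvPolynomial σ ℂ) := (B.map (C : ℂ → MvPolynomial σ ℂ)) * N
  have hD : ∀ a : σ → ℂ, eval a D.det = (B * (N.map (eval a))).det := by
    intro a
    rw [RingHom.map_det, RingHom.mapMatrix_apply]
    congr 1
    change ((B.map (C : ℂ → MvPolynomial σ ℂ)) * N).map (eval a) = _
    rw [Matrix.map_mul, hB']
  refine ⟨D.det, ?_, ?_⟩
  · rw [hD, hB, Matrix.det_one]
    exact one_ne_zero
  · intro a ha
    rw [hD] at ha
    have hunit : IsUnit (B * (N.map (eval a))) := by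
      rw [Matrix.isUnit_iff_isUnit_det]
      exact isUnit_iff_ne_zero.2 ha
    rw [LinearMap.ker_eq_bot']
    intro f hf
    rw [Matrix.mulVecLin_apply] at hf
    obtain ⟨E, hE⟩ := isUnit_iff_exists_inv'.1 hunit
    have h11 : (E * (B * N.map (eval a))).mulVec f = 0 := by
      rw [← Matrix.mulVec_mulVec, ← Matrix.mulVec_mulVec, hf, Matrix.mulVec_zero,
        Matrix.mulVec_zero]
    rwa [hE, Matrix.one_mulVec] at h11

end Pool.Agent.H18.Fat

end

section

/-!
# Module Gen: injectivity is an open condition on the positions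
-/

namespace Pool.Agent.H18.Ex

open Finset

variable {ι : Type} [Fintype ι] [DecidableEq ι]

/-- A bound for the multi-indices of a condition. -/
def Kind.bd (k : Kind ι) : ℕ :=
  match k with
  | .free m => m
  | .forced _ c _ => c

omit [DecidableEq ι] in
theorem Kind.Idx.lt {k : Kind ι} {b : ι → ℕ} (h : k.Idx b) (i : ι) : b i < k.bd := by
  have hle : b i ≤ ∑ j, b j := single_le_sum (fun j _ => Nat.zero_le (b j)) (mem_univ i)
  cases k with
  | free m => exact lt_of_le_of_lt hle h
  | forced l c e => exact lt_of_le_of_lt hle h.1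

open Classical in
/-- The finite set of the multi-indices of a condition. -/
noncomputable def Kind.idxs (k : Kind ι) : Finset (ι → ℕ) :=
  (Fintype.piFinset fun _ => range k.bd).filter fun b => k.Idx b

open Classical in
theorem Kind.mem_idxs {k : Kind ι} {b : ι → ℕ} : b ∈ k.idxs ↔ k.Idx b := by
  unfold Kind.idxs
  rw [mem_filter, Fintype.mem_piFinset]
  constructor
  · exact fun h => h.2
  · exact fun h => ⟨fun i => mem_range.2 (h.lt i), h⟩

/-- The matrix of the conditions. -/
noncomputable def cmat {R : Type} [CommRing R] {κ : Type} (A : Finset (ι → ℕ)) (k : κ → Kind ι)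
    (pos : κ → ι → R) : Matrix (Σ i : κ, {b // b ∈ (k i).idxs}) A R :=
  fun x a => tcr ((k x.1).pt (pos x.1)) a.1 x.2.1

theorem ker_cmat {κ : Type} (A : Finset (ι → ℕ)) (k : κ → Kind ι) (pos : κ → ι → ℂ) :
    LinearMap.ker (cmat A k pos).mulVecLin = ⊥ ↔ InjAt A k pos := by
  classical
  rw [LinearMap.ker_eq_bot']
  constructor
  · intro h f hf a ha
    have h1 := h (fun a : A => f a.1) ?_
    · exact congrFun h1 ⟨a, ha⟩
    · rw [Matrix.mulVecLin_apply]
      funext x
      have h2 := hf x.1 x.2.1 (Kind.mem_idxs.1 x.2.2)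
      rw [← sum_coe_sort A (fun a => f a * tcr ((k x.1).pt (pos x.1)) a x.2.1)] at h2
      show ∑ a : A, tcr ((k x.1).pt (pos x.1)) a.1 x.2.1 * f a.1 = 0
      rw [← h2]
      exact sum_congr rfl fun a _ => mul_comm _ _
  · intro h f hf
    rw [Matrix.mulVecLin_apply] at hf
    have h1 := h (fun a => if ha : a ∈ A then f ⟨a, ha⟩ else 0) ?_
    · funext a
      have h2 := h1 a.1 a.2
      rw [dif_pos a.2] at h2
      exact h2
    · intro i b hb
      have h2 := congrFun hf ⟨i, b, Kind.mem_idxs.2 hb⟩
      rw [← sum_coe_sort A]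
      have h3 : ∑ a : A, tcr ((k i).pt (pos i)) a.1 b * f a = 0 := h2
      refine Eq.trans (sum_congr rfl fun a _ => ?_) h3
      beta_reduce
      rw [dif_pos a.2]
      exact mul_comm _ _

omit [DecidableEq ι] in
theorem tcr_map {R S : Type} [CommRing R] [CommRing S] (φ : R →+* S) (q : ι → R) (a b : ι → ℕ) :
    φ (tcr q a b) = tcr (fun i => φ (q i)) a b := by
  unfold tcr
  rw [map_prod]
  refine prod_congr rfl fun i _ => ?_
  rw [map_mul, map_natCast, map_pow]

omit [Fintype ι] in
theorem pt_map {R S : Type} [CommRing R] [CommRing S] (φ : R →+* S) (k : Kind ι) (q : ι → R) :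
    (fun i => φ (k.pt q i)) = k.pt fun i => φ (q i) := by
  cases k with
  | free m => rfl
  | forced l c e =>
    funext i
    show φ (Function.update q l 0 i) = Function.update (fun i => φ (q i)) l 0 i
    by_cases hi : i = l
    · subst hi
      rw [Function.update_self, Function.update_self, map_zero]
    · rw [Function.update_of_ne hi, Function.update_of_ne hi]

/-- The general matrix. -/
noncomputable def gmat {κ : Type} (A : Finset (ι → ℕ)) (k : κ → Kind ι) :
    Matrix (Σ i : κ, {b // b ∈ (k i).idxs}) A (MvPolynomial (κ × ι) ℂ) :=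
  cmat A k fun i j => MvPolynomial.X (i, j)

theorem gmat_map {κ : Type} (A : Finset (ι → ℕ)) (k : κ → Kind ι) (x : κ × ι → ℂ) :
    (gmat A k).map (MvPolynomial.eval x) = cmat A k fun i j => x (i, j) := by
  ext r a
  show MvPolynomial.eval x (tcr ((k r.1).pt fun j => MvPolynomial.X (r.1, j)) a.1 r.2.1) =
    tcr ((k r.1).pt fun j => x (r.1, j)) a.1 r.2.1
  rw [tcr_map, pt_map]
  simp only [MvPolynomial.eval_X]

/-- Openness.  Proof: for every `i : κ` the multi-indices `b` with `(k i).Idx b` form a finite set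
(`∑ b < m`), so `InjAt A k pos` says that the kernel of the finite matrix with rows
`(i, b)`, columns `a ∈ A` and entries `tcr ((k i).pt (pos i)) a b` is trivial.  The entries are
the values at `pos` of the polynomials
`∏ j, C ((a j).choose (b j)) * Y j ^ (a j - b j)`, where `Y j = X (i, j)`, except `Y l = 0` when
`k i = forced l _ _`.  Apply `Pool.Agent.H18.Fat.exists_poly_injective` (file `FatLin`). -/
theorem GI.general {κ : Type} [Fintype κ] {A : Finset (ι → ℕ)} {k : κ → Kind ι} (h : GI A k) :
    ∃ G : MvPolynomial (κ × ι) ℂ, G ≠ 0 ∧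
      ∀ pos : κ → ι → ℂ, MvPolynomial.eval (fun x => pos x.1 x.2) G ≠ 0 → InjAt A k pos := by
  obtain ⟨pos₀, h₀⟩ := h
  have h1 : LinearMap.ker
      ((gmat A k).map (MvPolynomial.eval fun x : κ × ι => pos₀ x.1 x.2)).mulVecLin = ⊥ := by
    rw [gmat_map, ker_cmat]
    exact h₀
  obtain ⟨G, hG, hG'⟩ := Pool.Agent.H18.Fat.exists_poly_injective _ _ h1
  refine ⟨G, ?_, ?_⟩
  · rintro rfl
    exact hG (map_zero _)
  · intro pos hpos
    have h2 := hG' _ hpos
    rw [gmat_map, ker_cmat] at h2
    exact h2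

/-- Two open conditions can be satisfied at the same time, with all coordinates nonzero.
Proof: multiply the two polynomials of `GI.general` and `∏ x, X x`; a nonzero polynomial over the
infinite field `ℂ` has a non-root (`MvPolynomial.funext`). -/
theorem GI.exists_common {κ : Type} [Fintype κ] {A A' : Finset (ι → ℕ)} {k k' : κ → Kind ι}
    (h : GI A k) (h' : GI A' k') :
    ∃ pos : κ → ι → ℂ, InjAt A k pos ∧ InjAt A' k' pos ∧ ∀ i j, pos i j ≠ 0 := by
  obtain ⟨G, hG, hG'⟩ := h.general
  obtain ⟨H, hH, hH'⟩ := h'.general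
  have hX : (∏ x : κ × ι, (MvPolynomial.X x : MvPolynomial (κ × ι) ℂ)) ≠ 0 :=
    prod_ne_zero_iff.2 fun x _ => MvPolynomial.X_ne_zero x
  have hne : G * H * ∏ x : κ × ι, (MvPolynomial.X x : MvPolynomial (κ × ι) ℂ) ≠ 0 :=
    mul_ne_zero (mul_ne_zero hG hH) hX
  obtain ⟨x, hx⟩ : ∃ x : κ × ι → ℂ, MvPolynomial.eval x
      (G * H * ∏ x : κ × ι, (MvPolynomial.X x : MvPolynomial (κ × ι) ℂ)) ≠ 0 := by
    by_contra hcon
    push Not at hcon
    exact hne (MvPolynomial.funext fun x => by rw [hcon x, map_zero])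
  rw [map_mul, map_mul] at hx
  have h1 := left_ne_zero_of_mul (left_ne_zero_of_mul hx)
  have h2 := right_ne_zero_of_mul (left_ne_zero_of_mul hx)
  have h3 := right_ne_zero_of_mul hx
  rw [map_prod] at h3
  refine ⟨fun i j => x (i, j), hG' _ h1, hH' _ h2, fun i j => ?_⟩
  have h4 := prod_ne_zero_iff.1 h3 (i, j) (mem_univ _)
  rw [MvPolynomial.eval_X] at h4
  exact h4

end Pool.Agent.H18.Ex

end
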