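import Pool.Agent.H94.LP5.M01
import Pool.Agent.H94.LP5.M13
import Pool.Agent.H94.LP5.M25

/-! The parts of this file: H18.Ex.Dif, H18.Ex.Step, H21.NX.Defs_1. -/

section

/-!
# Module Dif: the differential lemma

`F` is a form with coefficients in `ℂ[t]` vanishing to order `μ` at the moving point
`(q, x_l = t)`.  Write `S s n b = ∑_{a ∈ A, a l = s} coeff_n (F a) * ∏_{i ≠ l} binom(a i, b i)
q_i^(a i - b i)` (with `b l = 0`); this is `∑_{a ∈ A} coeff_n (F a) * tcr (update q l 0) a (b + s e_l)`.
Taking the coefficient of `t^n` of the condition with index `b + β e_l` gives, for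
`|b| + β < μ` and all `n`,

  `E β n b := ∑_{i ≤ n} binom(β + i, β) * S (β + i) (n - i) b = 0`.

Identity (for any function `S`): `∑_{β ≤ j} (-1)^β E β (j - β) b = S 0 j b`, because the coefficient
of `S s (j - s) b` is `∑_{β ≤ s} (-1)^β binom(s, β) = 0` for `s > 0`.
-/

namespace Pool.Agent.H18.Ex

open Finset

variable {ι : Type} [Fintype ι] [DecidableEq ι]

/-- The alternating identity: `∑_{β ≤ j} (-1)^β ∑_{i ≤ j - β} binom(β+i, β) S (β+i) (j-β-i) = S 0 j`. -/
theorem alt_identity (S : ℕ → ℕ → ℂ) (j : ℕ) :
    ∑ β ∈ range (j + 1), (-1 : ℂ) ^ β * ∑ i ∈ range (j - β + 1),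
      ((β + i).choose β : ℂ) * S (β + i) (j - β - i) = S 0 j := by
  have h1 : ∀ β ∈ range (j + 1), (-1 : ℂ) ^ β * ∑ i ∈ range (j - β + 1),
      ((β + i).choose β : ℂ) * S (β + i) (j - β - i) =
      ∑ s ∈ Ico β (j + 1), (-1 : ℂ) ^ β * ((s.choose β : ℂ) * S s (j - s)) := by
    intro β hβ
    rw [mem_range] at hβ
    rw [sum_Ico_eq_sum_range, mul_sum]
    have h2 : j - β + 1 = j + 1 - β := by omega
    rw [h2]
    refine sum_congr rfl fun i hi => ?_
    rw [Nat.sub_sub]
  rw [sum_congr rfl h1]
  rw [sum_comm' (t' := range (j + 1)) (s' := fun s => range (s + 1))]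
  · have h3 : ∀ s ∈ range (j + 1), ∑ β ∈ range (s + 1),
        (-1 : ℂ) ^ β * ((s.choose β : ℂ) * S s (j - s)) = if s = 0 then S 0 j else 0 := by
      intro s _
      have h4 := Int.alternating_sum_range_choose (n := s)
      have h5 : ∑ β ∈ range (s + 1), (-1 : ℂ) ^ β * (s.choose β : ℂ) =
          ((∑ m ∈ range (s + 1), (-1 : ℤ) ^ m * (s.choose m : ℤ) : ℤ) : ℂ) := by
        push_cast
        rfl
      have h6 : ∑ β ∈ range (s + 1), (-1 : ℂ) ^ β * ((s.choose β : ℂ) * S s (j - s)) =
          (∑ β ∈ range (s + 1), (-1 : ℂ) ^ β * (s.choose β : ℂ)) * S s (j - s) := by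
        rw [sum_mul]
        exact sum_congr rfl fun β _ => by ring
      rw [h6, h5, h4]
      split_ifs with hs
      · subst hs
        simp
      · simp
    rw [sum_congr rfl h3, sum_ite_eq' (range (j + 1)) 0 fun _ => S 0 j]
    simp
  · intro β s
    simp only [mem_range, mem_Ico]
    omega

/-- The moving point `(q, x_l = t)`. -/
noncomputable def movPt (l : ι) (q : ι → ℂ) : ι → Polynomial ℂ :=
  fun i => if i = l then Polynomial.X else Polynomial.C (q i)

/-- The part of a Taylor coefficient away from the coordinate `l`. -/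
noncomputable def difP (l : ι) (q : ι → ℂ) (a b : ι → ℕ) : ℂ :=
  ∏ i ∈ univ.erase l, (((a i).choose (b i) : ℕ) : ℂ) * q i ^ (a i - b i)

/-- The sums `S s n b`. -/
noncomputable def difS (A : Finset (ι → ℕ)) (l : ι) (F : (ι → ℕ) → Polynomial ℂ) (q : ι → ℂ)
    (b : ι → ℕ) (s n : ℕ) : ℂ :=
  ∑ a ∈ A.filter (fun a => a l = s), (F a).coeff n * difP l q a b

lemma difP_update (l : ι) (q : ι → ℂ) (a b : ι → ℕ) (β : ℕ) :
    difP l q a (Function.update b l β) = difP l q a b := by
  unfold difP
  refine prod_congr rfl fun i hi => ?_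
  rw [Function.update_of_ne (ne_of_mem_erase hi)]

lemma difS_update (A : Finset (ι → ℕ)) (l : ι) (F : (ι → ℕ) → Polynomial ℂ) (q : ι → ℂ)
    (b : ι → ℕ) (β s n : ℕ) : difS A l F q (Function.update b l β) s n = difS A l F q b s n := by
  unfold difS
  exact sum_congr rfl fun a _ => by rw [difP_update]

lemma tcr_movPt (l : ι) (q : ι → ℂ) (a b : ι → ℕ) : tcr (movPt l q) a b =
    Polynomial.C (difP l q a b * ((a l).choose (b l) : ℂ)) * Polynomial.X ^ (a l - b l) := by
  unfold tcr difP
  rw [← mul_prod_erase univ _ (mem_univ l)]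
  have h1 : movPt l q l = Polynomial.X := by simp [movPt]
  have h2 : ∏ i ∈ univ.erase l, (((a i).choose (b i) : ℕ) : Polynomial ℂ) *
      movPt l q i ^ (a i - b i) = Polynomial.C (∏ i ∈ univ.erase l,
        (((a i).choose (b i) : ℕ) : ℂ) * q i ^ (a i - b i)) := by
    rw [map_prod]
    refine prod_congr rfl fun i hi => ?_
    have h3 : movPt l q i = Polynomial.C (q i) := by simp [movPt, ne_of_mem_erase hi]
    rw [h3, map_mul, map_pow, map_natCast]
  rw [h1, h2, map_mul, map_natCast]
  ring

/-- The conditions `E β n b = 0`. -/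
lemma dif_key {A : Finset (ι → ℕ)} {l : ι} {μ : ℕ} {F : (ι → ℕ) → Polynomial ℂ} {q : ι → ℂ}
    (h : Sat A F (Kind.free μ) (movPt l q)) {b : ι → ℕ} (hb : ∑ i, b i < μ) (n : ℕ) :
    ∑ i ∈ range (n + 1), ((b l + i).choose (b l) : ℂ) * difS A l F q b (b l + i) (n - i) = 0 := by
  have h1 := congrArg (fun p : Polynomial ℂ => p.coeff n) (h b hb)
  simp only [Kind.pt, Polynomial.finsetSum_coeff, Polynomial.coeff_zero, tcr_movPt] at h1
  rw [← h1]
  unfold difS
  simp only [mul_sum, sum_filter]
  rw [sum_comm]
  refine sum_congr rfl fun a _ => ?_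
  have h2 : F a * (Polynomial.C (difP l q a b * ((a l).choose (b l) : ℂ)) *
      Polynomial.X ^ (a l - b l)) = Polynomial.C (difP l q a b * ((a l).choose (b l) : ℂ)) *
        (F a * Polynomial.X ^ (a l - b l)) := by ring
  rw [h2, Polynomial.coeff_C_mul, Polynomial.coeff_mul_X_pow']
  by_cases h3 : b l ≤ a l
  · by_cases h4 : a l - b l ≤ n
    · rw [if_pos h4, sum_eq_single (a l - b l)]
      · have h5 : b l + (a l - b l) = a l := by omega
        rw [h5, if_pos rfl]
        ring
      · intro i _ hi
        rw [if_neg (by omega), mul_zero]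
      · intro h5
        exact absurd (mem_range.mpr (by omega)) h5
    · rw [if_neg h4, mul_zero]
      refine sum_eq_zero fun i hi => ?_
      rw [mem_range] at hi
      rw [if_neg (by omega), mul_zero]
  · rw [Nat.choose_eq_zero_of_lt (by omega), Nat.cast_zero, mul_zero, zero_mul]
    refine sum_eq_zero fun i _ => ?_
    rw [if_neg (by omega), mul_zero]

lemma sum_update_eq (b : ι → ℕ) (l : ι) (β : ℕ) :
    ∑ i, Function.update b l β i + b l = ∑ i, b i + β := by
  rw [← add_sum_erase univ _ (mem_univ l), ← add_sum_erase univ b (mem_univ l),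
    Function.update_self]
  have h1 : ∑ i ∈ univ.erase l, Function.update b l β i = ∑ i ∈ univ.erase l, b i :=
    sum_congr rfl fun i hi => by rw [Function.update_of_ne (ne_of_mem_erase hi)]
  rw [h1]
  ring

/-- The conditions `E β n b = 0`, where the entry of `b` at `l` is ignored. -/
lemma dif_key' {A : Finset (ι → ℕ)} {l : ι} {μ : ℕ} {F : (ι → ℕ) → Polynomial ℂ} {q : ι → ℂ}
    (h : Sat A F (Kind.free μ) (movPt l q)) {b : ι → ℕ} {β : ℕ} (hb : ∑ i, b i + β < μ + b l)
    (n : ℕ) :
    ∑ i ∈ range (n + 1), ((β + i).choose β : ℂ) * difS A l F q b (β + i) (n - i) = 0 := by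
  have h1 := dif_key h (b := Function.update b l β) (by
    have := sum_update_eq b l β
    omega) n
  simpa only [Function.update_self, difS_update] using h1

/-- (D1) For `j < μ` the `j`-th coefficient satisfies the simple condition at `q` on the layer.
Proof: `S 0 j 0 = ∑_{β ≤ j} (-1)^β E β (j - β) 0 = 0`, all indices `β ≤ j < μ` being allowed. -/
theorem dif_layer (A : Finset (ι → ℕ)) (l : ι) (μ : ℕ) (F : (ι → ℕ) → Polynomial ℂ) (q : ι → ℂ)
    (h : Sat A F (Kind.free μ) (movPt l q)) (j : ℕ) (hj : j < μ) :
    Sat (A.filter fun a => a l = 0) (fun a => (F a).coeff j) (Kind.free 1) q := by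
  intro b hb
  have hb0 : ∀ i, b i = 0 := by
    intro i
    have h1 : b i ≤ ∑ i, b i := single_le_sum (f := b) (fun _ _ => Nat.zero_le _) (mem_univ i)
    have h2 : ∑ i, b i < 1 := hb
    omega
  have h1 : ∑ a ∈ A.filter (fun a => a l = 0), (F a).coeff j * tcr q a b =
      difS A l F q b 0 j := by
    unfold difS
    refine sum_congr rfl fun a ha => ?_
    have ha0 := (mem_filter.mp ha).2
    congr 1
    unfold tcr difP
    rw [← mul_prod_erase univ _ (mem_univ l), ha0, hb0 l]
    simp
  have h2 : (∑ a ∈ A.filter (fun a => a l = 0), (fun a => (F a).coeff j) a *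
      tcr ((Kind.free 1 : Kind ι).pt q) a b) = difS A l F q b 0 j := h1
  rw [h2, ← alt_identity (difS A l F q b) j]
  refine sum_eq_zero fun β hβ => ?_
  rw [mem_range] at hβ
  rw [dif_key' h (b := b) (β := β) (by
    have h3 : ∑ i, b i = 0 := sum_eq_zero fun i _ => hb0 i
    have h4 := hb0 l
    omega) (j - β), mul_zero]

/-- (D2) If the layer parts of the first `μ` coefficients vanish, then the residual of the
`0`-th coefficient satisfies the condition `forced l μ 2`.
Proof: by `resid_sum` we need `S (b l + 1) 0 b' = 0` for `|b| < μ`, `b l + 2 ≤ μ`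
(`b'` = `b` without its `l`-th entry); put `j = b l + 1`, so `1 ≤ j ≤ μ - 1` and
`|b'| + j ≤ μ`.  If `|b'| + j < μ` this is `E j 0 b' = 0`.  If `|b'| + j = μ` then
`∑_{β < j} (-1)^β E β (j - β) b' = 0` and this sum is `S 0 j b' - (-1)^j S j 0 b'`, where
`S 0 j b' = 0` by hypothesis. -/
theorem dif_resid (A A' : Finset (ι → ℕ)) (l : ι)
    (hA : ∀ a, a ∈ A' ↔ Function.update a l (a l + 1) ∈ A) (μ : ℕ)
    (F : (ι → ℕ) → Polynomial ℂ) (q : ι → ℂ)
    (h : Sat A F (Kind.free μ) (movPt l q))
    (h0 : ∀ j < μ, ∀ a ∈ A, a l = 0 → (F a).coeff j = 0) :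
    Sat A' (fun a => (F (Function.update a l (a l + 1))).coeff 0) (Kind.forced l μ 2) q := by
  rintro b ⟨hb1, hb2⟩
  have hq : Function.update q l 0 l = 0 := Function.update_self _ _ _
  have h1 := resid_sum A A' l hA (fun a => (F a).coeff 0) (Function.update q l 0) hq b
  have h2 : (∑ a ∈ A', (fun a => (F (Function.update a l (a l + 1))).coeff 0) a *
      tcr ((Kind.forced l μ 2 : Kind ι).pt q) a b) =
      ∑ a ∈ A, (F a).coeff 0 * tcr (Function.update q l 0) a (Function.update b l (b l + 1)) :=
    h1.symm
  rw [h2]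
  set j := b l + 1 with hj
  have h3 : ∑ a ∈ A, (F a).coeff 0 * tcr (Function.update q l 0) a (Function.update b l j) =
      difS A l F q b j 0 := by
    unfold difS
    rw [sum_filter]
    refine sum_congr rfl fun a _ => ?_
    have h4 : tcr (Function.update q l 0) a (Function.update b l j) =
        (if a l = j then 1 else 0) * difP l q a b := by
      unfold tcr difP
      rw [← mul_prod_erase univ _ (mem_univ l)]
      congr 1
      · rw [Function.update_self, Function.update_self]
        split_ifs with h5
        · rw [h5]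
          simp
        · rcases lt_or_gt_of_ne h5 with h6 | h6
          · rw [Nat.choose_eq_zero_of_lt h6, Nat.cast_zero, zero_mul]
          · rw [zero_pow (by omega), mul_zero]
      · refine prod_congr rfl fun i hi => ?_
        rw [Function.update_of_ne (ne_of_mem_erase hi), Function.update_of_ne (ne_of_mem_erase hi)]
    rw [h4]
    split_ifs <;> ring
  rw [h3]
  rcases lt_or_ge (∑ i, b i + 1) μ with hlt | hge
  · have h4 := dif_key' h (b := b) (β := j) (by omega) 0
    simpa using h4
  · have h4 := alt_identity (difS A l F q b) j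
    have h5 : difS A l F q b 0 j = 0 := by
      unfold difS
      refine sum_eq_zero fun a ha => ?_
      obtain ⟨ha1, ha2⟩ := mem_filter.mp ha
      rw [h0 j (by omega) a ha1 ha2, zero_mul]
    rw [h5, sum_range_succ, sum_eq_zero, zero_add] at h4
    · have h6 := (mul_eq_zero.mp h4).resolve_left (pow_ne_zero _ (by norm_num))
      simpa using h6
    · intro β hβ
      rw [mem_range] at hβ
      rw [dif_key' h (b := b) (β := β) (by
        have h7 : b l ≤ ∑ i, b i :=
          single_le_sum (f := b) (fun _ _ => Nat.zero_le _) (mem_univ l)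
        omega) (j - β), mul_zero]

end Pool.Agent.H18.Ex

end

section

/-!
# Module Step: the (differential) Horace step
-/

namespace Pool.Agent.H18.Ex

open Finset

variable {ι : Type} [Fintype ι] [DecidableEq ι]

/-- A bound for the multi-indices of a condition. -/
def Kind.bdd (k : Kind ι) : ℕ :=
  match k with
  | .free m => m
  | .forced _ c _ => c

omit [DecidableEq ι] in
theorem Kind.Idx.lt_bdd {k : Kind ι} {b : ι → ℕ} (h : k.Idx b) (j : ι) : b j < k.bdd := by
  have h1 : b j ≤ ∑ i, b i := Finset.single_le_sum (fun i _ => Nat.zero_le (b i)) (mem_univ j)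
  cases k with
  | free m => exact lt_of_le_of_lt h1 h
  | forced l c e => exact lt_of_le_of_lt h1 h.1

omit [DecidableEq ι] in
theorem map_tcr {R S : Type*} [CommRing R] [CommRing S] (φ : R →+* S) (q : ι → R) (a b : ι → ℕ) :
    φ (tcr q a b) = tcr (fun i => φ (q i)) a b := by
  unfold tcr
  rw [map_prod]
  simp only [map_mul, map_natCast, map_pow]

omit [Fintype ι] in
theorem map_pt {R S : Type*} [CommRing R] [CommRing S] (φ : R →+* S) (k : Kind ι) (q : ι → R) :
    (fun i => φ (k.pt q i)) = k.pt (fun i => φ (q i)) := by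
  cases k with
  | free m => rfl
  | forced l c e =>
    funext i
    simp only [Kind.pt, Function.update_apply]
    split_ifs
    · exact map_zero φ
    · rfl

/-- The coefficients of a polynomial solution of conditions at a constant point. -/
theorem sat_coeff (A : Finset (ι → ℕ)) (F : (ι → ℕ) → Polynomial ℂ) (k : Kind ι) (q : ι → ℂ)
    (h : Sat A F k (fun i => Polynomial.C (q i))) (n : ℕ) :
    Sat A (fun a => (F a).coeff n) k q := by
  intro b hb
  have h1 := h b hb
  have h2 : ∀ a, tcr (k.pt (fun i => Polynomial.C (q i))) a b = Polynomial.C (tcr (k.pt q) a b) := by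
    intro a
    rw [map_tcr, map_pt]
  have h3 := congrArg (fun p => Polynomial.coeff p n) h1
  simp only [h2, Polynomial.finsetSum_coeff, Polynomial.coeff_mul_C, Polynomial.coeff_zero] at h3
  exact h3

/-- The positions, with parameter `t`. -/
def stepPos {κ R : Type*} [Zero R] (l : ι) (ρ : κ → Role ι) (pos : κ → ι → R) (t : R) (i : κ) :
    ι → R :=
  match ρ i with
  | .stay _ => pos i
  | .here _ _ => pos i
  | .ord _ => Function.update (pos i) l 0
  | .dif => Function.update (pos i) l t

/-- The Horace step.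

Proof.  By `GI.exists_common` take `pos` with both `InjAt`s and all coordinates nonzero.  For
`t : ℂ` let `pos_t i` be `pos i` for `stay` and `here`, `update (pos i) l 0` for `ord` and
`update (pos i) l t` for `dif`.  If `InjAt A (before) pos_t` for some `t` we are done.  Otherwise
`exists_poly_solution` (rows: `i` and the finitely many `b` with `(before i).Idx b`; entries
`tcr ((before i).pt (P i)) a b` over `ℂ[X]`, where `P i` is `C ∘ pos i`, resp. with `l`-th
coordinate `0`, resp. `movPt l (pos i)`; evaluation at `t` commutes with `tcr`) gives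
`F : (ι → ℕ) → ℂ[X]` satisfying all conditions over `ℂ[X]`, with `(F a).eval 0 ≠ 0` for some
`a ∈ A`.  Conditions with constant points hold for every coefficient `F_n a = (F a).coeff n`.
(i) For `j < μ` the function `F_j` satisfies the layer conditions: `here` by `sat_layer_forced`,
`ord` by `sat_forced_one_iff` and `sat_layer_forced` (and `sat_layer_congr`), `dif` by `dif_layer`,
`stay`: `free 0` is empty.  So `F_j a = 0` for `a ∈ A`, `a l = 0`.
(ii) `a ↦ F_0 (a + e_l)` satisfies the residual conditions: `stay` by `sat_resid_of_notAt`, `here`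
by `sat_resid_forced`, `ord` by `sat_forced_one_iff` and `sat_resid_forced`, `dif` by `dif_resid`.
So it vanishes on `A'`, hence `F_0 = 0` on `A` (use (i) for `a l = 0`), a contradiction. -/
theorem step {κ : Type} [Fintype κ] (A A' : Finset (ι → ℕ)) (l : ι)
    (hA : ∀ a, a ∈ A' ↔ Function.update a l (a l + 1) ∈ A) (μ : ℕ) (hμ : 1 ≤ μ)
    (ρ : κ → Role ι) (hρ : ∀ i k, ρ i = Role.stay k → k.NotAt l)
    (h0 : GI (A.filter fun a => a l = 0) fun i => Kind.free (ρ i).layer)
    (h1 : GI A' fun i => (ρ i).after l μ) :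
    GI A fun i => (ρ i).before l μ := by
  classical
  obtain ⟨pos, hL, hR, hne⟩ := GI.exists_common h0 h1
  by_contra hcon
  have hnot : ∀ t : ℂ, ∃ f : (ι → ℕ) → ℂ,
      (∀ i, Sat A f ((ρ i).before l μ) (stepPos l ρ pos t i)) ∧ ∃ a ∈ A, f a ≠ 0 := by
    intro t
    by_contra h2
    apply hcon
    refine ⟨stepPos l ρ pos t, ?_⟩
    intro f hf a ha
    by_contra h3
    exact h2 ⟨f, hf, a, ha, h3⟩
  -- the bound for the multi-indices
  obtain ⟨D, hD⟩ : ∃ D : ℕ, ∀ i, ((ρ i).before l μ).bdd ≤ D :=
    ⟨Finset.univ.sup fun i => ((ρ i).before l μ).bdd,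
      fun i => Finset.le_sup (f := fun i => ((ρ i).before l μ).bdd) (mem_univ i)⟩
  -- positions over the polynomial ring
  let P : κ → ι → Polynomial ℂ :=
    stepPos l ρ (fun i j => Polynomial.C (pos i j)) Polynomial.X
  have hP : ∀ (t : ℂ) (i : κ), (fun j => Polynomial.evalRingHom t (P i j)) = stepPos l ρ pos t i := by
    intro t i
    funext j
    simp only [P, stepPos]
    cases ρ i with
    | stay k => simp
    | here c e => simp
    | ord m =>
      simp only [Function.update_apply]
      split_ifs <;> simp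
    | dif =>
      simp only [Function.update_apply]
      split_ifs <;> simp
  let Mx : κ × (ι → Fin D) → (ι → ℕ) → Polynomial ℂ := fun r a =>
    if ((ρ r.1).before l μ).Idx (fun j => (r.2 j : ℕ)) then
      tcr (((ρ r.1).before l μ).pt (P r.1)) a (fun j => (r.2 j : ℕ)) else 0
  obtain ⟨F, hF, a0, ha0, hF0⟩ := exists_poly_solution A Mx (by
    intro t
    obtain ⟨f, hf, a, ha, hfa⟩ := hnot t
    refine ⟨f, ?_, a, ha, hfa⟩
    rintro ⟨i, b⟩
    by_cases hb : ((ρ i).before l μ).Idx (fun j => (b j : ℕ))
    · have h2 := hf i _ hb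
      rw [← h2]
      apply Finset.sum_congr rfl
      intro a _
      congr 1
      simp only [Mx]
      rw [if_pos hb]
      have h3 := map_tcr (Polynomial.evalRingHom t) (((ρ i).before l μ).pt (P i)) a
        (fun j => (b j : ℕ))
      rw [map_pt, hP] at h3
      exact h3
    · simp only [Mx, if_neg hb, Polynomial.eval_zero, mul_zero, Finset.sum_const_zero])
  have hsat : ∀ i, Sat A F ((ρ i).before l μ) (P i) := by
    intro i b hb
    have hlt : ∀ j, b j < D := fun j => lt_of_lt_of_le (hb.lt_bdd j) (hD i)
    have h2 := hF (i, fun j => ⟨b j, hlt j⟩)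
    simp only [Mx] at h2
    rw [← h2]
    apply Finset.sum_congr rfl
    intro a _
    rw [if_pos hb]
  -- the layer
  have hlayer : ∀ j < μ, ∀ a ∈ A, a l = 0 → (F a).coeff j = 0 := by
    intro j hj a ha hal
    refine hL (fun a => (F a).coeff j) ?_ a (mem_filter.mpr ⟨ha, hal⟩)
    intro i
    have h2 := hsat i
    simp only [P, stepPos] at h2
    show Sat (A.filter fun a => a l = 0) (fun a => (F a).coeff j) (Kind.free (ρ i).layer) (pos i)
    cases hi : ρ i with
    | stay k =>
      intro b hb
      exact absurd hb (Nat.not_lt_zero _)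
    | here c e =>
      rw [hi] at h2
      exact sat_layer_forced A l _ c e (pos i) (sat_coeff A F _ (pos i) h2 j)
    | ord m =>
      rw [hi] at h2
      have h3 : (fun i_1 => Polynomial.C (Function.update (pos i) l 0 i_1)) =
          Function.update (fun j => Polynomial.C (pos i j)) l 0 := by
        funext j'
        simp only [Function.update_apply]
        split_ifs
        · exact map_zero _
        · rfl
      have h4 := sat_coeff A F (Kind.free m) (Function.update (pos i) l 0)
        (by rw [h3]; exact h2) j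
      have h5 := sat_layer_forced A l _ m 1 (pos i) ((sat_forced_one_iff A l _ m (pos i)).mpr h4)
      have h6 : (if 1 ≤ m then m else 0) = m := by
        split_ifs with h7
        · rfl
        · omega
      rw [h6] at h5
      exact h5
    | dif =>
      rw [hi] at h2
      refine dif_layer A l μ F (pos i) ?_ j hj
      have h3 : movPt l (pos i) =
          Function.update (fun j => Polynomial.C (pos i j)) l Polynomial.X := by
        funext j'
        simp only [Function.update_apply, movPt]
      rw [h3]
      exact h2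
  -- the residual
  have hresid : ∀ a ∈ A', (F (Function.update a l (a l + 1))).coeff 0 = 0 := by
    intro a ha
    refine hR (fun a => (F (Function.update a l (a l + 1))).coeff 0) ?_ a ha
    intro i
    have h2 := hsat i
    simp only [P, stepPos] at h2
    show Sat A' (fun a => (F (Function.update a l (a l + 1))).coeff 0) ((ρ i).after l μ) (pos i)
    cases hi : ρ i with
    | stay k =>
      rw [hi] at h2
      exact sat_resid_of_notAt A A' l hA (fun a => (F a).coeff 0) (hlayer 0 (by omega)) k
        (hρ i k hi) (pos i) (hne i l) (sat_coeff A F k (pos i) h2 0)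
    | here c e =>
      rw [hi] at h2
      exact sat_resid_forced A A' l hA (fun a => (F a).coeff 0) c e (pos i)
        (sat_coeff A F _ (pos i) h2 0)
    | ord m =>
      rw [hi] at h2
      have h3 : (fun i_1 => Polynomial.C (Function.update (pos i) l 0 i_1)) =
          Function.update (fun j => Polynomial.C (pos i j)) l 0 := by
        funext j'
        simp only [Function.update_apply]
        split_ifs
        · exact map_zero _
        · rfl
      have h4 := sat_coeff A F (Kind.free m) (Function.update (pos i) l 0)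
        (by rw [h3]; exact h2) 0
      exact sat_resid_forced A A' l hA (fun a => (F a).coeff 0) m 1 (pos i)
        ((sat_forced_one_iff A l _ m (pos i)).mpr h4)
    | dif =>
      rw [hi] at h2
      refine dif_resid A A' l hA μ F (pos i) ?_ hlayer
      have h3 : movPt l (pos i) =
          Function.update (fun j => Polynomial.C (pos i j)) l Polynomial.X := by
        funext j'
        simp only [Function.update_apply, movPt]
      rw [h3]
      exact h2
  -- conclusion
  apply hF0
  rw [← Polynomial.coeff_zero_eq_eval_zero]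
  rcases Nat.eq_zero_or_pos (a0 l) with h2 | h2
  · exact hlayer 0 (by omega) a0 ha0 h2
  · have h3 : Function.update (Function.update a0 l (a0 l - 1)) l
        (Function.update a0 l (a0 l - 1) l + 1) = a0 := by
      rw [Function.update_idem, Function.update_self, Nat.sub_add_cancel h2,
        Function.update_eq_self]
    have h4 : Function.update a0 l (a0 l - 1) ∈ A' := by
      rw [hA, h3]
      exact ha0
    have h5 := hresid _ h4
    rw [h3] at h5
    exact h5

end Pool.Agent.H18.Ex

end

section

/-!
# Project NX: exactness in high dimension, definitions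

`ell n m = binom(m + n - 1, n)` is the length of a point of multiplicity `m` in dimension `n`.
Forms of degree `σ` in `s + 2` variables (dimension `s + 1`): `ell (s + 1) (σ + 1)` exponents;
the exponents with `a l = 0` (dimension `s`): `ell s (σ + 1)`.
-/

namespace Pool.Agent.H21.NX

open Finset MvPolynomial Pool.Agent.H18.Fat Pool.Agent.H18.Ex

/-- The total length of a multiset of multiplicities in dimension `n`. -/
def tot (n : ℕ) (S : Multiset ℕ) : ℕ := (S.map (ell n)).sum

/-- The forced conditions on `x_l = 0` given by a multiset of pairs `(c, e)`. -/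
def fk {ι : Type} (l : ι) (Φ : Multiset (ℕ × ℕ)) : Multiset (Kind ι) :=
  Φ.map fun x => Kind.forced l x.1 x.2

/-- Validity of a multiset of forced conditions with multiplicities at most `B`. -/
def OKF (B : ℕ) (Φ : Multiset (ℕ × ℕ)) : Prop :=
  ∀ x ∈ Φ, 1 ≤ x.2 ∧ x.2 ≤ 2 ∧ x.2 ≤ x.1 ∧ x.1 ≤ B

/-- The trace length (dimension `s`) of forced conditions. -/
def tl (s : ℕ) (Φ : Multiset (ℕ × ℕ)) : ℕ := (Φ.map fun x => ell s x.1).sum

/-- The length (dimension `s + 1`) of forced conditions. -/
def fl (s : ℕ) (Φ : Multiset (ℕ × ℕ)) : ℕ := (Φ.map fun x => ell (s + 1) x.1 + 1 - x.2).sum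

/-- The forced conditions after a Horace step: `Φ` were forced before, the points of `N0` and
`α` points of multiplicity `μ` are put on the hyperplane, `ρ` points of multiplicity `μ` are
differential. -/
def nxt (Φ : Multiset (ℕ × ℕ)) (N0 : Multiset ℕ) (μ α ρ : ℕ) : Multiset (ℕ × ℕ) :=
  (Φ.map (fun x : ℕ × ℕ => (x.1 - 1, x.2)) + N0.map (fun m => (m - 1, 1)) +
    Multiset.replicate α (μ - 1, 1) + Multiset.replicate ρ (μ, 2)).filter fun x : ℕ × ℕ => x.2 ≤ x.1

/-- The multiplicities of the traces in the Horace step. -/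
def trc (Φ : Multiset (ℕ × ℕ)) (N0 : Multiset ℕ) (μ α ρ : ℕ) : Multiset ℕ :=
  Φ.map Prod.fst + N0 + Multiset.replicate α μ + Multiset.replicate ρ 1

/-- The bound for the multiplicities on the hyperplane at stage `c`. -/
def Bc (M μ c : ℕ) : ℕ := max (M - μ + c) μ

/-- The numerical conditions. -/
structure Num (d s μ M A : ℕ) : Prop where
  hμ : 2 ≤ μ
  hμM : μ ≤ M
  h2 : 2 * μ + M ≤ d + 1
  hds : d + 1 ≤ s
  nc : ∀ c, 2 ≤ c → c ≤ μ →
    4 * (d + 1) * (ell s c * ell s (Bc M μ c) + ell s μ) * ell s μ ≤ ell s (d - μ + c)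
  q : ∀ c, 1 ≤ c → c ≤ μ → ell s (Bc M μ c) ^ 2 ≤ A * ell s c
  f1 : ell (s + 1) (d - μ + 1) + ell (s + 1) M + ell s (Bc M μ 1) ^ 2 ≤ A
  f2 : 8 * (d + 1) * ell (s + 1) μ * ell (s + 1) (d + 2 - 2 * μ) ≤ ell s (d - μ + 2)

end Pool.Agent.H21.NX

end
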