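import Pool.Agent.H94.LP5.M11
import Pool.Agent.H94.LP5.M21
import Pool.Agent.H94.LP5.M26
import Pool.Agent.H94.LP5.M30

/-! The parts of this file: H18.Ex.Multi, H21.NX.LensB, H21.NX.Phase, H21.NX.Core, H21.NX.UDefs, H21.NX.VDefs. -/

section

/-!
# Module Multi: the geometric lemmas for multisets of conditions

Useful: `Fin.univ_val_map`, `List.ofFn_get`, `Equiv.ofFiberEquiv`, `Multiset.count_map`,
`Multiset.map_univ_val_equiv`.
-/

namespace Pool.Agent.H18.Ex

open Finset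

variable {ι : Type} [Fintype ι] [DecidableEq ι]

/-- Two families with the same multiset of values differ by a bijection of the index types
(`Equiv.ofFiberEquiv`, the fibres have the same cardinality by `Multiset.count_map`). -/
theorem exists_equiv_of_map_eq {κ κ' X : Type} [Fintype κ] [Fintype κ'] (k : κ → X) (k' : κ' → X)
    (h : (univ : Finset κ).val.map k = (univ : Finset κ').val.map k') :
    ∃ e : κ ≃ κ', ∀ i, k i = k' (e i) := by
  classical
  have hc : ∀ x : X, Nonempty ({a // k a = x} ≃ {b // k' b = x}) := by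
    intro x
    rw [← Fintype.card_eq, Fintype.card_subtype, Fintype.card_subtype]
    have h1 := congrArg (Multiset.count x) h
    rw [Multiset.count_map, Multiset.count_map] at h1
    rw [Finset.card_def, Finset.card_def, Finset.filter_val, Finset.filter_val]
    simpa only [eq_comm] using h1
  refine ⟨Equiv.ofFiberEquiv fun x => (hc x).some, fun i => ?_⟩
  exact (Equiv.ofFiberEquiv_map (fun x => (hc x).some) i).symm

theorem GI.of_comp {κ κ' : Type} {A : Finset (ι → ℕ)} {k' : κ' → Kind ι} (e : κ → κ')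
    (he : Function.Injective e) (h : GI A fun i => k' (e i)) : GI A k' := by
  classical
  obtain ⟨pos, hpos⟩ := h
  refine ⟨fun j => if hj : ∃ i, e i = j then pos hj.choose else fun _ => 0, fun f hf => ?_⟩
  refine hpos f fun i => ?_
  have h1 := hf (e i)
  have h2 : ∃ i', e i' = e i := ⟨i, rfl⟩
  have h3 : h2.choose = i := he h2.choose_spec
  have h4 : (fun j => if hj : ∃ i, e i = j then pos hj.choose else fun _ => 0) (e i) = pos i := by
    show (if hj : ∃ i', e i' = e i then pos hj.choose else fun _ => 0) = pos i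
    rw [dif_pos h2, h3]
  rw [h4] at h1
  exact h1

/-- `GM` does not depend on the presentation of the multiset. -/
theorem GM_iff {κ : Type} [Fintype κ] (A : Finset (ι → ℕ)) (k : κ → Kind ι) :
    GM A ((univ : Finset κ).val.map k) ↔ GI A k := by
  constructor
  · rintro ⟨n, k0, hk0, hG⟩
    obtain ⟨e, he⟩ := exists_equiv_of_map_eq k0 k hk0
    refine GI.of_comp e e.injective ?_
    have : (fun i => k (e i)) = k0 := funext fun i => (he i).symm
    rw [this]
    exact hG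
  · intro hG
    refine ⟨Fintype.card κ, fun i => k ((Fintype.equivFin κ).symm i), ?_, ?_⟩
    · have h1 := Multiset.map_univ_val_equiv (Fintype.equivFin κ).symm
      rw [← h1, Multiset.map_map]
      rfl
    · refine GI.of_comp (Fintype.equivFin κ) (Fintype.equivFin κ).injective ?_
      simpa using hG

theorem multi_exists_fin {X : Type} (T : Multiset X) :
    ∃ (m : ℕ) (t : Fin m → X), (univ : Finset (Fin m)).val.map t = T := by
  induction T using Quotient.inductionOn with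
  | h L =>
    refine ⟨L.length, L.get, ?_⟩
    rw [Fin.univ_val_map, List.ofFn_get]
    rfl

theorem multi_map_sum {κ κ' X : Type} [Fintype κ] [Fintype κ'] (k : κ → X) (k' : κ' → X) :
    (univ : Finset (κ ⊕ κ')).val.map (Sum.elim k k')
      = (univ : Finset κ).val.map k + (univ : Finset κ').val.map k' := by
  rw [← Finset.univ_disjSum_univ, Finset.val_disjSum, Multiset.disjSum, Multiset.map_add,
    Multiset.map_map, Multiset.map_map]
  rfl

theorem GM.mono {A : Finset (ι → ℕ)} {S S' : Multiset (Kind ι)} (h : S ≤ S') (hS : GM A S) :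
    GM A S' := by
  obtain ⟨T, rfl⟩ := Multiset.le_iff_exists_add.1 h
  obtain ⟨n, k, rfl, hG⟩ := hS
  obtain ⟨m, t, rfl⟩ := multi_exists_fin T
  rw [← multi_map_sum, GM_iff]
  exact GI.of_comp Sum.inl Sum.inl_injective hG

theorem GM.of_card (A : Finset (ι → ℕ)) (T : Multiset ℕ) (S : Multiset (Kind ι))
    (hT : ∀ m ∈ T, 1 ≤ m) (h : A.card ≤ T.card) : GM A (T.map Kind.free + S) := by
  refine GM.mono (Multiset.le_add_right _ _) ?_
  obtain ⟨m, t, rfl⟩ := multi_exists_fin T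
  rw [Multiset.map_map, GM_iff]
  rw [Multiset.card_map, Finset.card_val, Finset.card_univ, Fintype.card_fin] at h
  refine GI.of_card A _ (Fin.castLEEmb h) fun j => ⟨t (Fin.castLEEmb h j), hT _ ?_, rfl⟩
  exact Multiset.mem_map.2 ⟨_, (by rw [Finset.mem_val]; exact Finset.mem_univ _), rfl⟩

theorem GM.step (A A' : Finset (ι → ℕ)) (l : ι)
    (hA : ∀ a, a ∈ A' ↔ Function.update a l (a l + 1) ∈ A) (μ : ℕ) (hμ : 1 ≤ μ)
    (S : Multiset (Role ι)) (hS : ∀ k, Role.stay k ∈ S → k.NotAt l)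
    (h0 : GM (A.filter fun a => a l = 0) (S.map fun r => Kind.free r.layer))
    (h1 : GM A' (S.map (Role.after l μ))) : GM A (S.map (Role.before l μ)) := by
  obtain ⟨m, ρ, rfl⟩ := multi_exists_fin S
  rw [Multiset.map_map, GM_iff] at h0 h1
  rw [Multiset.map_map, GM_iff]
  refine Pool.Agent.H18.Ex.step A A' l hA μ hμ ρ (fun i k hik => ?_) h0 h1
  exact hS k (Multiset.mem_map.2 ⟨i, (by rw [Finset.mem_val]; exact Finset.mem_univ _), hik⟩)

theorem GM.bridge (A A' : Finset (ι → ℕ)) (l : ι)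
    (hA : ∀ a, a ∈ A' ↔ Function.update a l (a l + 1) ∈ A) (S : Multiset (Kind ι)) (s : ℕ)
    (h1 : GM A (S + Multiset.replicate s (Kind.free 1)))
    (h2 : GM A' (S.map (Kind.dn l))) :
    GM A (S + Multiset.replicate s (Kind.forced l 1 1)) := by
  obtain ⟨m, k, rfl⟩ := multi_exists_fin S
  have hr : ∀ x : Kind ι, Multiset.replicate s x
      = (univ : Finset (Fin s)).val.map (fun _ => x) := by
    intro x
    rw [Multiset.map_const', Finset.card_val, Finset.card_univ, Fintype.card_fin]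
  rw [hr, ← multi_map_sum, GM_iff] at h1
  rw [hr, ← multi_map_sum, GM_iff]
  rw [Multiset.map_map, GM_iff] at h2
  exact Pool.Agent.H18.Ex.bridge A A' l hA k s h1 h2

end Pool.Agent.H18.Ex

end

section

/-!
# Module LensB: lengths and bounds for the Horace step (only multiset arithmetic and `ell`)

Facts about `ell` (H18/Ex/Ell): `ell_zero`, `ell_one`, `ell_mono`, `ell_pos`, `ell_succ`.
-/

namespace Pool.Agent.H21.NX

open Finset Pool.Agent.H18.Ex

/-- The main batch of `a` points of multiplicity `c ≥ 2`. -/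
theorem nxt_batch (Ψ : Multiset (ℕ × ℕ)) (a c μ α ρ : ℕ) (hc : 2 ≤ c) :
    nxt (Ψ + Multiset.replicate a (c, 1)) 0 μ α ρ =
      nxt Ψ 0 μ α ρ + Multiset.replicate a (c - 1, 1) := by
  have h : (Multiset.replicate a (c - 1, 1)).filter (fun x : ℕ × ℕ => x.2 ≤ x.1) =
      Multiset.replicate a (c - 1, 1) := by
    rw [Multiset.filter_eq_self]
    intro x hx
    rw [Multiset.eq_of_mem_replicate hx]
    simp only
    omega
  unfold nxt
  simp only [Multiset.map_add, Multiset.map_replicate, Multiset.filter_add, h]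
  abel

/-- In the first step `α` points of multiplicity `μ ≥ 2` become the main batch. -/
theorem nxt_start (N0 : Multiset ℕ) (μ α ρ : ℕ) (hμ : 2 ≤ μ) :
    nxt 0 N0 μ α ρ = nxt 0 N0 μ 0 ρ + Multiset.replicate α (μ - 1, 1) := by
  have h : (Multiset.replicate α (μ - 1, 1)).filter (fun x : ℕ × ℕ => x.2 ≤ x.1) =
      Multiset.replicate α (μ - 1, 1) := by
    rw [Multiset.filter_eq_self]
    intro x hx
    rw [Multiset.eq_of_mem_replicate hx]
    simp only
    omega
  unfold nxt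
  simp only [Multiset.filter_add, h, Multiset.replicate_zero, Multiset.filter_zero]
  abel

/-- The length of a forced condition is at least the length of its trace. -/
theorem tl_le_fl {B : ℕ} {Φ : Multiset (ℕ × ℕ)} (s : ℕ) (hs : 1 ≤ s) (hΦ : OKF B Φ) :
    tl s Φ ≤ fl s Φ := by
  have _ := hs
  unfold tl fl
  refine Multiset.sum_map_le_sum_map _ _ fun x hx => ?_
  have h := hΦ x hx
  have h2 := wgt_here s x.1 x.2 h.1 h.2.1 h.2.2.1
  omega

/-- `(s + 1) * fl ≤ (B + s) * tl`. -/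
theorem fl_le_tl {B : ℕ} {Φ : Multiset (ℕ × ℕ)} (s : ℕ) (hs : 1 ≤ s) (hΦ : OKF B Φ) :
    (s + 1) * fl s Φ ≤ (B + s) * tl s Φ := by
  unfold tl fl
  rw [← Multiset.sum_map_mul_left, ← Multiset.sum_map_mul_left]
  refine Multiset.sum_map_le_sum_map _ _ fun x hx => ?_
  have h := hΦ x hx
  calc (s + 1) * (ell (s + 1) x.1 + 1 - x.2) ≤ (s + 1) * ell (s + 1) x.1 :=
        Nat.mul_le_mul_left _ (by omega)
    _ = (x.1 + s) * ell s x.1 := (ell_succ_mul s x.1 hs).symm
    _ ≤ (B + s) * ell s x.1 := Nat.mul_le_mul_right _ (by omega)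

theorem tot_succ_le {B : ℕ} {N0 : Multiset ℕ} (s : ℕ) (hs : 1 ≤ s) (hN0 : ∀ m ∈ N0, m ≤ B) :
    (s + 1) * tot (s + 1) N0 ≤ (B + s) * tot s N0 := by
  unfold tot
  rw [← Multiset.sum_map_mul_left, ← Multiset.sum_map_mul_left]
  refine Multiset.sum_map_le_sum_map _ _ fun x hx => ?_
  rw [← ell_succ_mul s x hs]
  exact Nat.mul_le_mul_right _ (by have := hN0 x hx; omega)

theorem tot_le_tot_succ {N0 : Multiset ℕ} (s : ℕ) (hs : 1 ≤ s) :
    tot s N0 ≤ tot (s + 1) N0 := by
  unfold tot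
  refine Multiset.sum_map_le_sum_map _ _ fun x _ => ?_
  rcases Nat.eq_zero_or_pos x with h | h
  · rw [h, ell_zero hs]
    exact Nat.zero_le _
  · rw [← ell_pred_add s x h]
    exact Nat.le_add_left _ _

theorem tot_add (n : ℕ) (S T : Multiset ℕ) : tot n (S + T) = tot n S + tot n T := by
  simp only [tot, Multiset.map_add, Multiset.sum_add]

theorem tot_replicate (n k x : ℕ) : tot n (Multiset.replicate k x) = k * ell n x := by
  simp only [tot, Multiset.map_replicate, Multiset.sum_replicate, smul_eq_mul]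

theorem tot_filter_le (n t : ℕ) (S : Multiset ℕ) : tot n (S.filter (t ≤ ·)) ≤ tot n S := by
  conv_rhs => rw [← Multiset.filter_add_not (t ≤ ·) S, tot_add]
  exact Nat.le_add_right _ _

theorem filter_replicate_lt (k x t : ℕ) (h : x < t) :
    (Multiset.replicate k x).filter (t ≤ ·) = 0 := by
  rw [Multiset.filter_eq_nil]
  intro y hy
  rw [Multiset.eq_of_mem_replicate hy]
  omega

/-- The conditions of the window theorem for a trace which contains `a` points of multiplicity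
`c` and `ρ` simple points, with `ell c * ell B ≤ ρ` and `ell B ^ 2 ≤ a * ell c`: for `2 ≤ t ≤ c`
the simple points are not in the filter, for `t > c` neither are the points of multiplicity `c`. -/
theorem window_cond (s : ℕ) (hs : 1 ≤ s) (T1 : Multiset ℕ) (a c ρ B E : ℕ) (hcB : c ≤ B)
    (hc1 : 1 ≤ c) (hT1 : ∀ t ∈ T1, t ≤ B) (hρ : ell s c * ell s B ≤ ρ)
    (ha : ell s B ^ 2 ≤ a * ell s c) (hE : tot s T1 + a * ell s c + ρ ≤ E) (t : ℕ) (ht : 2 ≤ t)
    (htB : t ≤ B) :
    tot s ((T1 + Multiset.replicate a c + Multiset.replicate ρ 1).filter (t ≤ ·)) +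
      (ell s t - 1) * (ell s B - 1) ≤ E := by
  have _ := hs
  have _ := hcB
  have _ := hc1
  have _ := hT1
  rw [Multiset.filter_add, Multiset.filter_add, filter_replicate_lt ρ 1 t (by omega), add_zero,
    tot_add]
  have h1 := tot_filter_le s t T1
  have h2 := tot_filter_le s t (Multiset.replicate a c)
  rw [tot_replicate] at h2
  rcases Nat.lt_or_ge c t with h | h
  · rw [filter_replicate_lt a c t h]
    have h3 : (ell s t - 1) * (ell s B - 1) ≤ ell s B ^ 2 := by
      rw [pow_two]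
      exact Nat.mul_le_mul ((Nat.sub_le _ _).trans (ell_mono s htB)) (Nat.sub_le _ _)
    have h4 : tot s (0 : Multiset ℕ) = 0 := rfl
    omega
  · have h3 : (ell s t - 1) * (ell s B - 1) ≤ ell s c * ell s B :=
      Nat.mul_le_mul ((Nat.sub_le _ _).trans (ell_mono s h)) (Nat.sub_le _ _)
    omega

/-- The conditions of the window theorem for a trace with `τ + ell B ^ 2 ≤ E`, `τ` the length of
the part without the `q` simple points. -/
theorem window_cond' (s : ℕ) (hs : 1 ≤ s) (T1 : Multiset ℕ) (q B E : ℕ)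
    (hE : tot s T1 + ell s B ^ 2 ≤ E) (t : ℕ) (ht : 2 ≤ t) (htB : t ≤ B) :
    tot s ((T1 + Multiset.replicate q 1).filter (t ≤ ·)) +
      (ell s t - 1) * (ell s B - 1) ≤ E := by
  have _ := hs
  rw [Multiset.filter_add, filter_replicate_lt q 1 t (by omega), add_zero]
  have h1 := tot_filter_le s t T1
  have h3 : (ell s t - 1) * (ell s B - 1) ≤ ell s B ^ 2 := by
    rw [pow_two]
    exact Nat.mul_le_mul ((Nat.sub_le _ _).trans (ell_mono s htB)) (Nat.sub_le _ _)
  omega

theorem tot_trc (s : ℕ) (Φ : Multiset (ℕ × ℕ)) (N0 : Multiset ℕ) (μ α ρ : ℕ) :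
    tot s (trc Φ N0 μ α ρ) = tl s Φ + tot s N0 + α * ell s μ + ρ := by
  unfold trc
  rw [tot_add, tot_add, tot_add, tot_replicate, tot_replicate, ell_one, mul_one]
  congr 3
  unfold tot tl
  rw [Multiset.map_map]
  rfl

end Pool.Agent.H21.NX

end

section

/-!
# Module Phase: the Horace steps with the main batch
-/

namespace Pool.Agent.H21.NX

open Finset Pool.Agent.H18.Ex

theorem fk_add {ι : Type} (l : ι) (Φ Φ' : Multiset (ℕ × ℕ)) : fk l (Φ + Φ') = fk l Φ + fk l Φ' :=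
  Multiset.map_add _ _ _

theorem fk_replicate {ι : Type} (l : ι) (a c e : ℕ) :
    fk l (Multiset.replicate a (c, e)) = Multiset.replicate a (Kind.forced l c e) :=
  Multiset.map_replicate _ _ _

theorem tlr (s a c e : ℕ) : tl s (Multiset.replicate a (c, e)) = a * ell s c := by
  unfold tl
  rw [Multiset.map_replicate, Multiset.sum_replicate, smul_eq_mul]

theorem tot_zero (n : ℕ) : tot n 0 = 0 := rfl

theorem tot_fst (s : ℕ) (Φ : Multiset (ℕ × ℕ)) : tot s (Φ.map Prod.fst) = tl s Φ := by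
  unfold tot tl
  rw [Multiset.map_map]
  rfl

theorem Bc_ge (M μ c : ℕ) : μ ≤ Bc M μ c := le_max_right _ _

theorem Num.ell_step {d s μ M A : ℕ} (hn : Num d s μ M A) : 1 ≤ s := by
  have := hn.hds
  omega

/-- The bound for the number of the remaining points at the end. -/
theorem f_bound {d s μ M A : ℕ} (hn : Num d s μ M A) (Ψ : Multiset (ℕ × ℕ)) (a f : ℕ)
    (hΨ : OKF (Bc M μ 1) Ψ)
    (hT1 : ell (s + 1) (d - μ + 1 + 1) ≤
      fl s Ψ + a * ell (s + 1) 1 + f * ell (s + 1) μ)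
    (hload : 4 * (d + 1) * (tl s Ψ + a * ell s 1) ≤
      (4 * (d + 1) - 1) * ell s (d - μ + 1 + 1)) :
    ell (s + 1) (d + 2 - 2 * μ) ≤ f := by
  have hs := hn.ell_step
  have h1 := hn.h2
  have h2 := hn.hμ
  have h3 := hn.hμM
  have hB1 : 1 ≤ Bc M μ 1 := le_trans (by omega) (Bc_ge M μ 1)
  have hB : Bc M μ 1 ≤ d - μ + 1 + 1 := by
    unfold Bc
    omega
  have hZ : (s + 1) * (fl s Ψ + a * ell (s + 1) 1) ≤
      (Bc M μ 1 + s) * (tl s Ψ + a * ell s 1) := by
    have e1 := fl_le_tl s hs hΨ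
    have e2 : (s + 1) * (a * ell (s + 1) 1) ≤ (Bc M μ 1 + s) * (a * ell s 1) := by
      calc (s + 1) * (a * ell (s + 1) 1) = a * ((s + 1) * ell (s + 1) 1) := by ring
        _ = a * ((1 + s) * ell s 1) := by rw [ell_succ_mul s 1 hs]
        _ ≤ a * ((Bc M μ 1 + s) * ell s 1) :=
            Nat.mul_le_mul_left _ (Nat.mul_le_mul_right _ (by omega))
        _ = _ := by ring
    rw [Nat.mul_add, Nat.mul_add]
    exact Nat.add_le_add e1 e2
  have hK : 4 * (d + 1) = (4 * (d + 1) - 1) + 1 := by omega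
  have e3 := rest_arith s (d - μ + 1 + 1) (Bc M μ 1) f (tl s Ψ + a * ell s 1)
    (fl s Ψ + a * ell (s + 1) 1) (ell s (d - μ + 1 + 1)) (ell (s + 1) (d - μ + 1 + 1))
    (ell (s + 1) μ) (4 * (d + 1) - 1) (ell_succ_mul s _ hs) hT1 hZ (by rw [← hK]; exact hload)
    hB hB1
  rw [← hK] at e3
  have e4 := hn.f2
  rw [show d - μ + 2 = d - μ + 1 + 1 by omega] at e4
  have e5 : 0 < 4 * (d + 1) * ell (s + 1) μ := Nat.mul_pos (by omega) (ell_pos _ (by omega))
  have e6 : 4 * (d + 1) * ell (s + 1) μ * (2 * ell (s + 1) (d + 2 - 2 * μ)) ≤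
      4 * (d + 1) * ell (s + 1) μ * f := by
    calc 4 * (d + 1) * ell (s + 1) μ * (2 * ell (s + 1) (d + 2 - 2 * μ)) =
        8 * (d + 1) * ell (s + 1) μ * ell (s + 1) (d + 2 - 2 * μ) := by ring
      _ ≤ ell s (d - μ + 1 + 1) := e4
      _ ≤ 4 * (d + 1) * (f * ell (s + 1) μ) := e3
      _ = _ := by ring
  have e7 := Nat.le_of_mul_le_mul_left e6 e5
  omega

/-- The choice of the numbers in a step: `Δ = E0 - τ` is the room. -/
theorem choose_arith (Δ W Eμ : ℕ) (hE : 1 ≤ Eμ) (hW : W ≤ Δ) :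
    ∃ α ρ, α * Eμ + ρ = Δ ∧ W ≤ ρ ∧ ρ ≤ W + Eμ ∧ (Δ - W) / Eμ = α := by
  refine ⟨(Δ - W) / Eμ, Δ - (Δ - W) / Eμ * Eμ, ?_, ?_, ?_, rfl⟩
  · have := Nat.div_mul_le_self (Δ - W) Eμ
    omega
  · have := Nat.div_mul_le_self (Δ - W) Eμ
    omega
  · have := Nat.lt_div_mul_add (a := Δ - W) (b := Eμ) (by omega)
    omega

end Pool.Agent.H21.NX

end

section

/-!
# Module Core: many points of multiplicity `μ`
-/

namespace Pool.Agent.H21.NX

open Finset Pool.Agent.H18.Ex

theorem tot_cons (n a : ℕ) (S : Multiset ℕ) : tot n (a ::ₘ S) = ell n a + tot n S := by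
  unfold tot
  rw [Multiset.map_cons, Multiset.sum_cons]

/-- Greedy choice of a sub-multiset. -/
theorem greedy (n M x T : ℕ) (hx : x ≤ T) (R : Multiset ℕ) :
    (∀ m ∈ R, m ≤ M) → T ≤ x + tot n R →
      ∃ R' ≤ R, T ≤ x + tot n R' ∧ x + tot n R' ≤ T + ell n M := by
  induction R using Multiset.induction_on with
  | empty =>
    intro _ hT
    refine ⟨0, le_rfl, hT, ?_⟩
    rw [tot_zero]
    omega
  | cons a R ih =>
    intro hM hT
    by_cases h : T ≤ x + tot n R
    · obtain ⟨R', h1, h2, h3⟩ := ih (fun m hm => hM m (Multiset.mem_cons_of_mem hm)) h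
      exact ⟨R', le_trans h1 (Multiset.le_cons_self _ _), h2, h3⟩
    · refine ⟨_, le_rfl, hT, ?_⟩
      rw [tot_cons]
      have := ell_mono n (hM a (Multiset.mem_cons_self _ _))
      omega

theorem tot_filter_pos (n : ℕ) (hn : 1 ≤ n) (S : Multiset ℕ) :
    tot n (S.filter (1 ≤ ·)) = tot n S := by
  induction S using Multiset.induction_on with
  | empty => rfl
  | cons a S ih =>
    by_cases h : 1 ≤ a
    · rw [Multiset.filter_cons_of_pos _ h, tot_cons, tot_cons, ih]
    · rw [Multiset.filter_cons_of_neg _ h, tot_cons, ih, show a = 0 by omega, ell_zero hn,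
        Nat.zero_add]

end Pool.Agent.H21.NX

end

section

/-!
# Module UDefs: the uniform version, numerical conditions
-/

namespace Pool.Agent.H21.NX

open Finset Pool.Agent.H18.Ex

/-- The maximal number of simple traces in a step. -/
def GG (s M : ℕ) : ℕ := ell s M ^ 2 + ell s M

/-- The numerical conditions of the uniform version. -/
structure UNum (s M D0 : ℕ) : Prop where
  hM : 1 ≤ M
  hs : 16 * M ≤ s
  hD : 16 * M ≤ D0
  room : 16 * M * ell (s + 1) M ^ 3 ≤ ell s D0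

/-- The size of the batch. -/
def a0 (s M D0 d : ℕ) : ℕ :=
  (d + 1) * GG s M + ell (s + 1) M + ell s M ^ 2 + ell (s + 1) D0

theorem ell_le_succ (s m : ℕ) (hs : 1 ≤ s) : ell s m ≤ ell (s + 1) m := by
  have := tot_le_tot_succ (N0 := {m}) s hs
  simpa [tot] using this

/-- Greedy choice of a sub-multiset, from below. -/
theorem greedy_below (n M x T : ℕ) (hx : x ≤ T) (R : Multiset ℕ) :
    (∀ m ∈ R, m ≤ M) → T ≤ x + tot n R →
      ∃ R' ≤ R, x + tot n R' ≤ T ∧ T ≤ x + tot n R' + ell n M := by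
  induction R using Multiset.induction_on with
  | empty =>
    intro _ hT
    refine ⟨0, le_rfl, ?_, ?_⟩
    · rw [show tot n 0 = 0 from rfl]
      exact hx
    · exact le_trans hT (Nat.le_add_right _ _)
  | cons a R ih =>
    intro hM hT
    have hcons : tot n (a ::ₘ R) = ell n a + tot n R := by
      unfold tot
      rw [Multiset.map_cons, Multiset.sum_cons]
    by_cases h : T ≤ x + tot n R
    · obtain ⟨R', h1, h2, h3⟩ := ih (fun m hm => hM m (Multiset.mem_cons_of_mem hm)) h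
      exact ⟨R', le_trans h1 (Multiset.le_cons_self _ _), h2, h3⟩
    · refine ⟨R, Multiset.le_cons_self _ _, by omega, ?_⟩
      have := ell_mono n (hM a (Multiset.mem_cons_self _ _))
      omega

namespace UNum

variable {s M D0 : ℕ} (h : UNum s M D0)

include h

theorem s1 : 1 ≤ s := by
  have := h.hs
  have := h.hM
  omega

theorem F1 : 1 ≤ ell (s + 1) M := ell_pos _ h.hM

theorem E1 : 1 ≤ ell s M := ell_pos _ h.hM

theorem EF : ell s M ≤ ell (s + 1) M := ell_le_succ s M h.s1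

theorem GG_le : GG s M ≤ 2 * ell (s + 1) M ^ 2 := by
  have h1 := h.E1
  have h2 := h.EF
  unfold GG
  have h3 : ell s M ^ 2 ≤ ell (s + 1) M ^ 2 := Nat.pow_le_pow_left h2 2
  have h4 : ell s M ≤ ell (s + 1) M ^ 2 := by nlinarith
  omega

theorem roomS {S : ℕ} (hS : D0 ≤ S) : 16 * M * ell (s + 1) M ^ 3 ≤ ell s S :=
  le_trans h.room (ell_mono _ hS)

/-- `2 * E(M)^2 ≤ E(S)`. -/
theorem r1 {S : ℕ} (hS : D0 ≤ S) : 2 * ell s M ^ 2 ≤ ell s S := by
  refine le_trans ?_ (h.roomS hS)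
  have h1 := h.F1
  have h2 := h.EF
  have h3 : ell s M ^ 2 ≤ ell (s + 1) M ^ 2 := Nat.pow_le_pow_left h2 2
  calc 2 * ell s M ^ 2 ≤ 2 * ell (s + 1) M ^ 2 := Nat.mul_le_mul_left _ h3
    _ = 2 * 1 * (ell (s + 1) M ^ 2 * 1) := by ring
    _ ≤ 16 * M * (ell (s + 1) M ^ 2 * ell (s + 1) M) :=
        Nat.mul_le_mul (Nat.mul_le_mul (by omega) h.hM) (Nat.mul_le_mul_left _ h1)
    _ = _ := by ring

/-- `8 * G * E(M) ≤ E(S)`. -/
theorem r2 {S : ℕ} (hS : D0 ≤ S) : 8 * (GG s M * ell s M) ≤ ell s S := by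
  refine le_trans ?_ (h.roomS hS)
  calc 8 * (GG s M * ell s M) ≤ 8 * (2 * ell (s + 1) M ^ 2 * ell (s + 1) M) :=
        Nat.mul_le_mul_left _ (Nat.mul_le_mul h.GG_le h.EF)
    _ = 16 * 1 * ell (s + 1) M ^ 3 := by ring
    _ ≤ _ := Nat.mul_le_mul_right _ (Nat.mul_le_mul_left _ h.hM)

/-- `2 * M * G * E(M) ≤ E(S)`. -/
theorem r3 {S : ℕ} (hS : D0 ≤ S) : 2 * (M * GG s M * ell s M) ≤ ell s S := by
  refine le_trans ?_ (h.roomS hS)
  calc 2 * (M * GG s M * ell s M) ≤ 2 * (M * (2 * ell (s + 1) M ^ 2) * ell (s + 1) M) :=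
        Nat.mul_le_mul_left _ (Nat.mul_le_mul (Nat.mul_le_mul_left _ h.GG_le) h.EF)
    _ = 4 * M * ell (s + 1) M ^ 3 := by ring
    _ ≤ _ := Nat.mul_le_mul_right _ (Nat.mul_le_mul_right _ (by omega))

/-- `2 * (F(M)^2 + F(M)) * F(M) ≤ E(S)`. -/
theorem r4 {S : ℕ} (hS : D0 ≤ S) :
    2 * ((ell (s + 1) M ^ 2 + ell (s + 1) M) * ell (s + 1) M) ≤ ell s S := by
  refine le_trans ?_ (h.roomS hS)
  have h1 := h.F1
  have h2 : ell (s + 1) M ≤ ell (s + 1) M ^ 2 := by nlinarith
  calc 2 * ((ell (s + 1) M ^ 2 + ell (s + 1) M) * ell (s + 1) M) ≤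
      2 * ((ell (s + 1) M ^ 2 + ell (s + 1) M ^ 2) * ell (s + 1) M) :=
        Nat.mul_le_mul_left _ (Nat.mul_le_mul_right _ (Nat.add_le_add_left h2 _))
    _ = 4 * 1 * ell (s + 1) M ^ 3 := by ring
    _ ≤ _ := Nat.mul_le_mul_right _ (Nat.mul_le_mul (by omega) h.hM)

/-- The new load is small: `8 * x * E(S) ≤ (x + s) * E(S - 1)` for `x = M - 1`. -/
theorem load {S : ℕ} (hS : D0 + 1 ≤ S) :
    8 * ((M - 1) * ell s S) ≤ (M - 1 + s) * ell s (S - 1) := by
  have h1 := h.hs
  have h2 := h.hD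
  have h3 := h.hM
  obtain ⟨k, rfl⟩ : ∃ k, S = k + 1 := ⟨S - 1, by omega⟩
  rw [Nat.add_sub_cancel]
  have hrel : ell s k * (k + s) = ell s (k + 1) * k := ell_mul_add s k h.s1
  have hk : 0 < k := by omega
  refine Nat.le_of_mul_le_mul_right ?_ (show 0 < k from hk)
  obtain ⟨x, hx⟩ : ∃ x, M - 1 = x := ⟨_, rfl⟩
  rw [hx]
  have e1 : 8 * (x * (k + s)) ≤ (x + s) * k := by
    have hxs : 16 * x ≤ s := by omega
    have hxk : 16 * x ≤ k := by omega
    have e2 : 16 * x * k ≤ s * k := Nat.mul_le_mul_right _ hxs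
    have e3 : 16 * x * s ≤ k * s := Nat.mul_le_mul_right _ hxk
    nlinarith
  calc 8 * (x * ell s (k + 1)) * k = 8 * x * (ell s (k + 1) * k) := by ring
    _ = 8 * x * (ell s k * (k + s)) := by rw [hrel]
    _ = 8 * (x * (k + s)) * ell s k := by ring
    _ ≤ (x + s) * k * ell s k := Nat.mul_le_mul_right _ e1
    _ = (x + s) * ell s k * k := by ring

end UNum

end Pool.Agent.H21.NX

end

section

/-!
# Module VDefs: the version for every dimension, numerical conditions
-/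

namespace Pool.Agent.H21.NX

open Finset Pool.Agent.H18.Ex

/-- The numerical conditions, every dimension. -/
structure VNum (s M D0 : ℕ) : Prop where
  hM : 1 ≤ M
  s1 : 1 ≤ s
  hD : 16 * M ≤ D0
  room : 16 * M * ell (s + 1) M ^ 3 ≤ ell s D0

/-- The excess needed on the hyperplane in the overfull case. -/
def WW (s M : ℕ) : ℕ := GG s M * ell s M

/-- The base case of the overfull peeling. -/
def base (s M D0 : ℕ) : ℕ := ell (s + 1) D0 * ell (s + 1) M + M * ell s D0

namespace VNum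

variable {s M D0 : ℕ} (h : VNum s M D0)

include h

theorem F1 : 1 ≤ ell (s + 1) M := ell_pos _ h.hM

theorem E1 : 1 ≤ ell s M := ell_pos _ h.hM

theorem EF : ell s M ≤ ell (s + 1) M := ell_le_succ s M h.s1

theorem GG_le : GG s M ≤ 2 * ell (s + 1) M ^ 2 := by
  have h1 := h.E1
  have h2 := h.EF
  unfold GG
  have h3 : ell s M ^ 2 ≤ ell (s + 1) M ^ 2 := Nat.pow_le_pow_left h2 2
  have h4 : ell s M ≤ ell (s + 1) M ^ 2 := by nlinarith
  omega

theorem roomS {S : ℕ} (hS : D0 ≤ S) : 16 * M * ell (s + 1) M ^ 3 ≤ ell s S :=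
  le_trans h.room (ell_mono _ hS)

/-- `2 * M * E(M)^2 ≤ E(S)`. -/
theorem r1 {S : ℕ} (hS : D0 ≤ S) : 2 * M * ell s M ^ 2 ≤ ell s S := by
  refine le_trans ?_ (h.roomS hS)
  have h1 := h.F1
  have h2 := h.EF
  have h3 : ell s M ^ 2 ≤ ell (s + 1) M ^ 2 := Nat.pow_le_pow_left h2 2
  calc 2 * M * ell s M ^ 2 ≤ 2 * M * ell (s + 1) M ^ 2 := Nat.mul_le_mul_left _ h3
    _ = 2 * M * (ell (s + 1) M ^ 2 * 1) := by ring
    _ ≤ 16 * M * (ell (s + 1) M ^ 2 * ell (s + 1) M) :=
        Nat.mul_le_mul (Nat.mul_le_mul_right _ (by omega)) (Nat.mul_le_mul_left _ h1)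
    _ = _ := by ring

/-- `4 * M * (G * E(M)) ≤ E(S)`. -/
theorem r2 {S : ℕ} (hS : D0 ≤ S) : 4 * M * (GG s M * ell s M) ≤ ell s S := by
  refine le_trans ?_ (h.roomS hS)
  calc 4 * M * (GG s M * ell s M) ≤ 4 * M * (2 * ell (s + 1) M ^ 2 * ell (s + 1) M) :=
        Nat.mul_le_mul_left _ (Nat.mul_le_mul h.GG_le h.EF)
    _ = 8 * M * ell (s + 1) M ^ 3 := by ring
    _ ≤ _ := Nat.mul_le_mul_right _ (Nat.mul_le_mul_right _ (by omega))

/-- `2 * M * G * E(M) ≤ E(S)`. -/
theorem r3 {S : ℕ} (hS : D0 ≤ S) : 2 * (M * GG s M * ell s M) ≤ ell s S := by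
  refine le_trans ?_ (h.r2 hS)
  calc 2 * (M * GG s M * ell s M) = 2 * M * (GG s M * ell s M) := by ring
    _ ≤ _ := Nat.mul_le_mul_right _ (Nat.mul_le_mul_right _ (by omega))

/-- `4 * M * (W + E(M)) ≤ E(S)`. -/
theorem r4 {S : ℕ} (hS : D0 ≤ S) : 4 * M * (WW s M + ell s M) ≤ ell s S := by
  refine le_trans ?_ (h.roomS hS)
  have h1 := h.F1
  have h2 := h.EF
  have h3 : ell s M ≤ ell (s + 1) M ^ 3 := by
    calc ell s M ≤ ell (s + 1) M := h2
      _ = ell (s + 1) M ^ 1 := (pow_one _).symm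
      _ ≤ _ := Nat.pow_le_pow_right h1 (by omega)
  have h4 : WW s M ≤ 2 * ell (s + 1) M ^ 3 := by
    unfold WW
    calc GG s M * ell s M ≤ 2 * ell (s + 1) M ^ 2 * ell (s + 1) M :=
          Nat.mul_le_mul h.GG_le h.EF
      _ = _ := by ring
  calc 4 * M * (WW s M + ell s M) ≤ 4 * M * (2 * ell (s + 1) M ^ 3 + ell (s + 1) M ^ 3) :=
        Nat.mul_le_mul_left _ (Nat.add_le_add h4 h3)
    _ = 12 * M * ell (s + 1) M ^ 3 := by ring
    _ ≤ _ := Nat.mul_le_mul_right _ (Nat.mul_le_mul_right _ (by omega))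

/-- `E(M)^2 ≤ E(S) - load`. -/
theorem below {S x : ℕ} (hS : D0 ≤ S) (hx : 2 * M * x ≤ (2 * M - 1) * ell s S) :
    x + ell s M ^ 2 ≤ ell s S := by
  have h1 := h.r1 hS
  have hM := h.hM
  have hpos : 0 < 2 * M := by omega
  refine Nat.le_of_mul_le_mul_left ?_ hpos
  have h2 : (2 * M - 1) * ell s S + ell s S = 2 * M * ell s S := by
    obtain ⟨K, hK⟩ : ∃ K, 2 * M = K + 1 := ⟨2 * M - 1, by omega⟩
    rw [hK, Nat.add_sub_cancel]
    ring
  calc 2 * M * (x + ell s M ^ 2) = 2 * M * x + 2 * M * ell s M ^ 2 := by ring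
    _ ≤ (2 * M - 1) * ell s S + ell s S := Nat.add_le_add hx h1
    _ = _ := h2

/-- The new load. -/
theorem load {S t e : ℕ} (hS : D0 + 1 ≤ S)
    (ht : (M - 1 + s) * t ≤ (M - 1) * ell s S + (M - 1 + s) * e)
    (he : 4 * M * e ≤ ell s (S - 1)) : 2 * M * t ≤ (2 * M - 1) * ell s (S - 1) := by
  have h1 := h.s1
  have h2 := h.hD
  have h3 := h.hM
  obtain ⟨k, rfl⟩ : ∃ k, S = k + 1 := ⟨S - 1, by omega⟩
  rw [Nat.add_sub_cancel] at he ⊢
  have hrel : ell s k * (k + s) = ell s (k + 1) * k := ell_mul_add s k h.s1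
  have hk : 0 < k := by omega
  obtain ⟨x, rfl⟩ : ∃ x, M = x + 1 := ⟨M - 1, by omega⟩
  rw [Nat.add_sub_cancel] at ht
  rw [show 2 * (x + 1) - 1 = 2 * x + 1 by omega]
  have hpos : 0 < 2 * (k * (x + s)) := Nat.mul_pos (by omega) (Nat.mul_pos hk (by omega))
  refine Nat.le_of_mul_le_mul_left ?_ hpos
  have e1 : 2 * (k * (x + s)) * (2 * (x + 1) * t) ≤
      (4 * (x + 1) * (x * (k + s)) + k * (x + s)) * ell s k := by
    calc 2 * (k * (x + s)) * (2 * (x + 1) * t) = 4 * (x + 1) * k * ((x + s) * t) := by ring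
      _ ≤ 4 * (x + 1) * k * (x * ell s (k + 1) + (x + s) * e) := Nat.mul_le_mul_left _ ht
      _ = 4 * (x + 1) * x * (ell s (k + 1) * k) + k * (x + s) * (4 * (x + 1) * e) := by ring
      _ ≤ 4 * (x + 1) * x * (ell s (k + 1) * k) + k * (x + s) * ell s k :=
          Nat.add_le_add_left (Nat.mul_le_mul_left _ he) _
      _ = 4 * (x + 1) * x * (ell s k * (k + s)) + k * (x + s) * ell s k := by rw [hrel]
      _ = _ := by ring
  have e2 : 4 * (x + 1) * (x * (k + s)) + k * (x + s) ≤ 2 * (k * (x + s)) * (2 * x + 1) := by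
    obtain ⟨y, rfl⟩ : ∃ y, s = y + 1 := ⟨s - 1, by omega⟩
    obtain ⟨j, rfl⟩ : ∃ j, k = 4 * x + j := ⟨k - 4 * x, by omega⟩
    -- 3 k (x + s) ≤ 4 M s (k - x)
    have e3 : 3 * ((4 * x + j) * (x + (y + 1))) ≤
        4 * (x + 1) * ((y + 1) * (3 * x + j)) := by
      have e4 : x + (y + 1) ≤ (x + 1) * (y + 1) := by nlinarith [Nat.zero_le (x * y)]
      calc 3 * ((4 * x + j) * (x + (y + 1))) ≤ 3 * ((4 * x + j) * ((x + 1) * (y + 1))) :=
            Nat.mul_le_mul_left _ (Nat.mul_le_mul_left _ e4)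
        _ = (12 * x + 3 * j) * ((x + 1) * (y + 1)) := by ring
        _ ≤ (12 * x + 4 * j) * ((x + 1) * (y + 1)) := Nat.mul_le_mul_right _ (by omega)
        _ = _ := by ring
    nlinarith [e3]
  calc 2 * (k * (x + s)) * (2 * (x + 1) * t) ≤
      (4 * (x + 1) * (x * (k + s)) + k * (x + s)) * ell s k := e1
    _ ≤ (2 * (k * (x + s)) * (2 * x + 1)) * ell s k := Nat.mul_le_mul_right _ e2
    _ = _ := by ring

end VNum

end Pool.Agent.H21.NX

end
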