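import Pool.Agent.H94.LP5.M02

/-! The parts of this file: H21.HD.Defs2, H21.HD.Open. -/

section

/-!
Project HD: definitions, part 2 (set functionals, product functions).
-/

namespace Pool.Agent.H21.HD

open MvPolynomial
open scoped Classical

section

variable {ι : Type*}

/-- The subsets of `Q` that contain `p`. -/
noncomputable def subs (Q : Finset ι) (p : ι) : Finset (Finset ι) :=
  Q.powerset.filter (fun T => p ∈ T)

lemma mem_subs {Q : Finset ι} {p : ι} {T : Finset ι} : T ∈ subs Q p ↔ T ⊆ Q ∧ p ∈ T := by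
  unfold subs
  rw [Finset.mem_filter, Finset.mem_powerset]

lemma card_sdiff_lt' {Q T : Finset ι} {p : ι} (hT : T ⊆ Q) (hp : p ∈ T) :
    (Q \ T).card < Q.card :=
  Finset.card_lt_card (Finset.sdiff_ssubset hT ⟨p, hp⟩)

/-- Sum over set partitions of the products of the weights of the parts. -/
noncomputable def EEr (W : Finset ι → ℝ) (Q : Finset ι) : ℝ :=
  if h : Q.Nonempty then
    ∑ T : {T : Finset ι // T ∈ subs Q h.choose}, W T.1 * EEr W (Q \ T.1)
  else 1
termination_by Q.card
decreasing_by exact card_sdiff_lt' (mem_subs.mp T.2).1 (mem_subs.mp T.2).2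

/-- The functional `FF`. -/
noncomputable def FF (lam : Finset ι → ℝ) (J : Finset ι) : ℝ :=
  EEr (fun T => (if T.card = 1 then 1 else 0) - lam T) J

end

/-- Every function of the coordinates in `J` is a sum of multiples of the products
`∏_{i ∈ c p} v p i (y i)`, the multipliers depending only on the other coordinates in `J`. -/
def SpanGood {ι A α : Type} (J : Finset ι) (P : Finset α) (c : α → Finset ι)
    (v : α → ι → A → ℂ) : Prop :=
  ∀ f : (ι → A) → ℂ, DepOn J f → ∃ κ : α → (ι → A) → ℂ,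
    (∀ p ∈ P, DepOn (J \ c p) (κ p)) ∧
      ∀ y, f y = ∑ p ∈ P, (∏ i ∈ c p, v p i (y i)) * κ p y

/-- The data: `P` ordinary points with types `c p`, `Q` special points with types `c q`, thresholds
`f q` and reference points `ref q`. For an ordinary point the function `κ p` does not depend on
the coordinates in `c p`; for a special point `κ q y ≠ 0` only if at least `f q` of the coordinates
`y i`, `i ∈ c q`, equal the reference value `pt i (ref q i)`. -/
def Good {ι A α : Type} {B : ι → Type} (pt : ∀ i, A → B i) (N : ∀ i, B i → MvPolynomial A ℂ)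
    (J : Finset ι) (P Q : Finset α) (c : α → Finset ι) (f : α → ℕ) (ref : α → ι → A)
    (v : α → ι → A → ℂ) : Prop :=
  ∀ κ : α → (∀ i, B i) → ℂ, (∀ p ∈ P, DepOn (J \ c p) (κ p)) → (∀ q ∈ Q, DepOn J (κ q)) →
    (∀ q ∈ Q, ∀ y, κ q y ≠ 0 → f q ≤ ((c q).filter (fun i => y i = pt i (ref q i))).card) →
    (∀ y, ∑ p ∈ P, (∏ i ∈ c p, eval (v p i) (N i (y i))) * κ p y + ∑ q ∈ Q, κ q y = 0) →
    (∀ p ∈ P, κ p = 0) ∧ ∀ q ∈ Q, κ q = 0

end Pool.Agent.H21.HD

end

section

/-!
Openness of injectivity and surjectivity.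
-/

namespace Pool.Agent.H21.HD

open MvPolynomial

/-- The determinant of a matrix of polynomial functions. -/
theorem OpenX.det_poly {σ n : Type*} [Fintype n] [DecidableEq n] (M : (σ → ℂ) → Matrix n n ℂ)
    (hM : ∀ i j, PolyFun (fun x => M x i j)) :
    ∃ G : MvPolynomial σ ℂ, ∀ x, eval x G = (M x).det := by
  choose N hN using hM
  refine ⟨(Matrix.of fun i j => N i j).det, fun x => ?_⟩
  rw [RingHom.map_det]
  congr 1
  ext i j
  simp only [RingHom.mapMatrix_apply, Matrix.map_apply, Matrix.of_apply]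
  exact (hN i j x).symm

/-- Injectivity is an open condition in a polynomial family of linear maps. -/
theorem open_inj {σ V Y : Type*} [Finite Y] [AddCommGroup V] [Module ℂ V]
    [FiniteDimensional ℂ V] (T : (σ → ℂ) → V →ₗ[ℂ] (Y → ℂ))
    (hT : ∀ v y, PolyFun (fun x => T x v y)) (x₀ : σ → ℂ)
    (h : Function.Injective (T x₀)) :
    ∃ G : MvPolynomial σ ℂ, eval x₀ G ≠ 0 ∧ ∀ x, eval x G ≠ 0 → Function.Injective (T x) := by
  classical
  cases nonempty_fintype Y
  obtain ⟨B, hB⟩ := LinearMap.exists_leftInverse_of_injective (T x₀) (LinearMap.ker_eq_bot.mpr h)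
  let b := Module.finBasis ℂ V
  obtain ⟨G, hG⟩ := OpenX.det_poly (fun x => LinearMap.toMatrix b b (B ∘ₗ T x)) (by
    intro i j
    have h1 : (fun x => LinearMap.toMatrix b b (B ∘ₗ T x) i j) =
        fun x => ∑ y : Y, T x (b j) y * b.repr (B (Pi.single y 1)) i := by
      funext x
      rw [LinearMap.toMatrix_apply, LinearMap.comp_apply]
      have h2 : T x (b j) = ∑ y : Y, T x (b j) y • (Pi.single y (1 : ℂ) : Y → ℂ) := by
        ext z
        simp [Finset.sum_apply, Pi.single_apply]
      conv_lhs => rw [h2]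
      simp only [map_sum, map_smul, Finsupp.coe_finsetSum, Finset.sum_apply,
        Finsupp.coe_smul, Pi.smul_apply, smul_eq_mul]
    rw [h1]
    exact PolyFun.sum _ _ fun y _ => (hT (b j) y).mul (PolyFun.const _))
  refine ⟨G, ?_, fun x hx => ?_⟩
  · rw [hG, hB, LinearMap.toMatrix_id, Matrix.det_one]
    exact one_ne_zero
  · rw [hG, LinearMap.det_toMatrix] at hx
    have h3 : Function.Injective (B ∘ₗ T x) := by
      have h4 := (LinearMap.equivOfDetNeZero _ hx).injective
      exact h4
    intro u v huv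
    apply h3
    simp only [LinearMap.comp_apply, huv]

/-- Surjectivity is an open condition in a polynomial family of linear maps. -/
theorem open_surj {σ V Y : Type*} [Finite Y] [AddCommGroup V] [Module ℂ V]
    [FiniteDimensional ℂ V] (T : (σ → ℂ) → V →ₗ[ℂ] (Y → ℂ))
    (hT : ∀ v y, PolyFun (fun x => T x v y)) (x₀ : σ → ℂ)
    (h : Function.Surjective (T x₀)) :
    ∃ G : MvPolynomial σ ℂ, eval x₀ G ≠ 0 ∧ ∀ x, eval x G ≠ 0 → Function.Surjective (T x) := by
  classical
  cases nonempty_fintype Y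
  obtain ⟨B, hB⟩ := LinearMap.exists_rightInverse_of_surjective (T x₀)
    (LinearMap.range_eq_top.mpr h)
  obtain ⟨G, hG⟩ := OpenX.det_poly (fun x => LinearMap.toMatrix (Pi.basisFun ℂ Y)
    (Pi.basisFun ℂ Y) (T x ∘ₗ B)) (by
    intro i j
    have h1 : (fun x => LinearMap.toMatrix (Pi.basisFun ℂ Y) (Pi.basisFun ℂ Y) (T x ∘ₗ B) i j) =
        fun x => T x (B (Pi.single j 1)) i := by
      funext x
      rw [LinearMap.toMatrix_apply, LinearMap.comp_apply, Pi.basisFun_apply, Pi.basisFun_repr]
    rw [h1]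
    exact hT _ _)
  refine ⟨G, ?_, fun x hx => ?_⟩
  · rw [hG, hB, LinearMap.toMatrix_id, Matrix.det_one]
    exact one_ne_zero
  · rw [hG, LinearMap.det_toMatrix] at hx
    intro z
    obtain ⟨w, hw⟩ := (LinearMap.equivOfDetNeZero _ hx).surjective z
    exact ⟨B w, hw⟩

end Pool.Agent.H21.HD

end
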