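import Pool.Agent.H94.LP5.M03
import Pool.Agent.H94.LP5.M25

/-! The parts of this file: H18.FatBasic_1, H18.FatToric_3. -/

section

namespace Pool.Agent.H18.Fat

open MvPolynomial Finset

theorem coeff_shift {n : ℕ} (q : Fin n → ℂ) (β : Fin n →₀ ℕ) (F : MvPolynomial (Fin n) ℂ) :
    coeff β (shift q F) = ∑ α ∈ F.support, coeff α F * tc q α β := by
  classical
  conv_lhs => rw [F.as_sum]
  unfold shift
  rw [map_sum, coeff_sum]
  exact sum_congr rfl fun α _ => coeff_shift_monomial q α β _

/-- For a point with nonzero first coordinate only the derivatives in the other directions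
matter. -/
theorem vanishes_of_affine {n d : ℕ} {q : Fin (n + 1) → ℂ} (hq : q 0 ≠ 0)
    (f : mons (n + 1) d → ℂ) {m : ℕ}
    (h : ∀ β : Fin (n + 1) →₀ ℕ, β 0 = 0 → β.degree < m →
      coeff β (shift q (toPoly (n + 1) d f)) = 0) :
    VanishesToOrder (toPoly (n + 1) d f) q m := by
  have key : ∀ t : ℕ, ∀ β : Fin (n + 1) →₀ ℕ, β 0 = t → β.degree < m →
      coeff β (shift q (toPoly (n + 1) d f)) = 0 := by
    intro t
    induction t with
    | zero => exact h
    | succ t ih =>
      intro β hβ hdeg
      -- `β = β' + e_0`
      obtain ⟨β', hβ'⟩ : ∃ β' : Fin (n + 1) →₀ ℕ, β = β' + Finsupp.single 0 1 := by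
        refine ⟨β - Finsupp.single 0 1, ?_⟩
        ext j
        simp only [Finsupp.add_apply, Finsupp.tsub_apply]
        by_cases hj : j = 0
        · subst hj
          simp
          omega
        · simp [Finsupp.single_eq_of_ne hj]
      have h0 : β' 0 = t := by
        have := congrArg (fun b => b 0) hβ'
        simp at this
        omega
      have hd : β.degree = β'.degree + 1 := by
        rw [hβ']
        simp
      have he := coeff_shift_euler q β' f
      have hz : coeff β' (shift q (toPoly (n + 1) d f)) = 0 := ih β' h0 (by omega)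
      rw [hz, mul_zero, Fin.sum_univ_succ] at he
      have hz2 : ∀ j : Fin n, coeff (β' + Finsupp.single j.succ 1)
          (shift q (toPoly (n + 1) d f)) = 0 := by
        intro j
        apply ih
        · simp [h0]
        · simp only [map_add, Finsupp.degree_single]
          omega
      simp only [hz2, mul_zero, sum_const_zero, add_zero] at he
      rw [← hβ'] at he
      rcases mul_eq_zero.1 he with h1 | h1
      · exfalso
        rcases mul_eq_zero.1 h1 with h2 | h2
        · exact hq h2
        · have : ((β' 0 : ℂ) + 1) ≠ 0 := Nat.cast_add_one_ne_zero (β' 0)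
          exact this h2
      · exact h1
  intro β hβ
  exact key _ β rfl hβ

end Pool.Agent.H18.Fat

end

section

namespace Pool.Agent.H18.Fat

open MvPolynomial Finset

/-! ### General points -/

/-! ### Semicontinuity of the dimension -/

/-! ### Further points impose at most their length -/

theorem finrank_add_length_ge {r d : ℕ} (hr : 1 ≤ r) {ι κ : Type*} [Fintype κ]
    (p : ι → Fin (r + 1) → ℂ) (m : ι → ℕ) (q : κ → Fin (r + 1) → ℂ) (hq : ∀ j, q j 0 ≠ 0)
    (n : κ → ℕ) :
    Module.finrank ℂ (fatForms r d p m) ≤
      Module.finrank ℂ (fatForms r d (Sum.elim p q) (Sum.elim m n)) +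
        ∑ j, (n j + r - 1).choose r := by
  classical
  let W := fatForms r d p m
  -- the evaluation map
  let φ : W →ₗ[ℂ] (Cond r n → ℂ) :=
    { toFun := fun F x => coeff x.2.1 (shift (q x.1) F.1)
      map_add' := fun F G => by
        funext x
        simp [shift]
      map_smul' := fun c F => by
        funext x
        simp [shift] }
  have hφ : ∀ (F : W) (x : Cond r n), φ F x = coeff x.2.1 (shift (q x.1) F.1) := fun _ _ => rfl
  have h1 := LinearMap.finrank_range_add_finrank_ker φ
  have h2 : Module.finrank ℂ (LinearMap.range φ) ≤ ∑ j, (n j + r - 1).choose r := by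
    rw [← card_cond hr n, ← Module.finrank_fintype_fun_eq_card (R := ℂ)]
    exact Submodule.finrank_le _
  have h3 : Module.finrank ℂ (LinearMap.ker φ) ≤
      Module.finrank ℂ (fatForms r d (Sum.elim p q) (Sum.elim m n)) := by
    rw [(Submodule.equivMapOfInjective _ (Submodule.subtype_injective W)
      (LinearMap.ker φ)).finrank_eq]
    apply Submodule.finrank_mono
    rintro _ ⟨F, hF, rfl⟩
    refine ⟨F.2.1, ?_⟩
    rintro (i | j)
    · exact F.2.2 i
    · change VanishesToOrder F.1 (q j) (n j)
      rw [← exists_toPoly F.2.1]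
      apply vanishes_of_affine (hq j)
      intro β h0 hβ
      rw [exists_toPoly F.2.1]
      have h4 : φ F = 0 := hF
      have h5 := congrFun h4 ⟨j, β, mem_aff.2 ⟨h0, hβ⟩⟩
      rw [hφ] at h5
      exact h5
  change Module.finrank ℂ W ≤ _
  omega

/-! ### Linear changes of coordinates -/

/-! ### Coordinate points -/

end Pool.Agent.H18.Fat

end
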