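import Pool.Agent.H94.LP5.H21.HD.BlockA
import Pool.Agent.H94.LP5.M19
import Pool.Agent.H94.LP5.M34

/-! The parts of this file: H18.Ex.Final, H21.HD.ColOpen, H21.HD.GoodOpen, H21.HD.InjStep, H21.NX.Conv. -/

section

/-!
# Module Final: translation to fat points in projective space
-/

namespace Pool.Agent.H18.Ex

open Finset Pool.Agent.H18.Fat

/-- The coefficient function of a polynomial. -/
noncomputable def cf {n : ℕ} (F : MvPolynomial (Fin n) ℂ) (a : Fin n → ℕ) : ℂ :=
  F.coeff (Finsupp.equivFunOnFinite.symm a)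

/-- The condition at a free point from the order of vanishing. -/
theorem sat_of_vanishes {n d : ℕ} {w : Fin n → ℕ} {F : MvPolynomial (Fin n) ℂ}
    (hsupp : ∀ α ∈ F.support, ⇑α ∈ Rg d w) {q : Fin n → ℂ} {m : ℕ}
    (h : VanishesToOrder F q m) : Sat (Rg d w) (cf F) (Kind.free m) q := by
  intro b hb
  have h1 := h (Finsupp.equivFunOnFinite.symm b) (by
    rw [Finsupp.degree_eq_sum]
    exact hb)
  rw [coeff_shift] at h1
  rw [← h1]
  symm
  apply sum_bij_ne_zero (fun (α : Fin n →₀ ℕ) _ _ => (⇑α : Fin n → ℕ))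
  · intro α hα _
    exact hsupp α hα
  · intro α _ _ β _ _ hαβ
    exact DFunLike.coe_injective hαβ
  · intro a _ hne
    refine ⟨Finsupp.equivFunOnFinite.symm a, ?_, ?_, ?_⟩
    · rw [MvPolynomial.mem_support_iff]
      intro h0
      apply hne
      unfold cf
      rw [h0, zero_mul]
    · exact hne
    · rfl
  · intro α _ _
    unfold cf tcr tc
    congr 1
    rw [show Finsupp.equivFunOnFinite.symm (⇑α) = α from by ext; rfl]

end Pool.Agent.H18.Ex

end

section

/-!
ColInj is open.
-/

namespace Pool.Agent.H21.HD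

open MvPolynomial
open scoped Classical

variable {N : ℕ} {A Λ P : Type} [Fintype A] [Fintype Λ] [Fintype P]

namespace ColOpenX

/-- the exponent vectors of the column -/
def Gam (N : ℕ) (A Λ : Type) [Fintype A] [Fintype Λ] (a : Fin N → ℕ) (μ : Λ → ℕ) :
    Set (Sg N A Λ →₀ ℕ) :=
  {γ | bdeg γ = a ∧ (fun l => γ (Sum.inr l)) = μ}

theorem gam_finite (a : Fin N → ℕ) (μ : Λ → ℕ) : (Gam N A Λ a μ).Finite := by
  let b : Sg N A Λ →₀ ℕ := Finsupp.equivFunOnFinite.symm (Sum.elim (fun x => a x.1) μ)
  refine (Set.finite_Iic b).subset ?_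
  rintro γ ⟨h1, h2⟩
  rw [Set.mem_Iic]
  intro s
  rcases s with ⟨i, t⟩ | l
  · have h3 : γ (Sum.inl (i, t)) ≤ bdeg γ i := by
      unfold bdeg
      exact Finset.single_le_sum (f := fun t => γ (Sum.inl (i, t))) (fun _ _ => Nat.zero_le _)
        (Finset.mem_univ t)
    rw [h1] at h3
    simpa [b] using h3
  · have h3 : γ (Sum.inr l) = μ l := congrFun h2 l
    simp [b, h3]

/-- the space of the admissible families -/
noncomputable def VV (c : P → Finset (Fin N)) (lab : P → Λ) (ref : P → Fin N → A) (a : Fin N → ℕ)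
    (μ : Λ → ℕ) : Submodule ℂ (P → MvPolynomial (Sg N A Λ) ℂ) where
  carrier := {ft | Adm c lab ref a μ ft}
  zero_mem' := by
    intro p γ h
    simp at h
  add_mem' := by
    intro f g hf hg p γ h
    rw [Pi.add_apply, coeff_add] at h
    by_cases h1 : coeff γ (f p) = 0
    · rw [h1, zero_add] at h
      exact hg p γ h
    · exact hf p γ h1
  smul_mem' := by
    intro z f hf p γ h
    rw [Pi.smul_apply, coeff_smul] at h
    exact hf p γ (right_ne_zero_of_mul (by simpa using h))

theorem finiteDimensional_VV (c : P → Finset (Fin N)) (lab : P → Λ) (ref : P → Fin N → A)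
    (a : Fin N → ℕ) (μ : Λ → ℕ) : FiniteDimensional ℂ (VV c lab ref a μ) := by
  have : Finite (Gam N A Λ a μ) := gam_finite a μ
  let f : VV c lab ref a μ →ₗ[ℂ] (P × Gam N A Λ a μ → ℂ) :=
    { toFun := fun ft q => coeff q.2.1 (ft.1 q.1)
      map_add' := by
        intro x y
        funext q
        simp
      map_smul' := by
        intro z x
        funext q
        simp }
  refine FiniteDimensional.of_injective f ?_
  rw [injective_iff_map_eq_zero]
  intro ft h
  apply Subtype.ext
  funext p
  apply MvPolynomial.ext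
  intro γ
  rw [Submodule.coe_zero, Pi.zero_apply, coeff_zero]
  by_contra hne
  have h1 := ft.2 p γ hne
  have h2 : f ft (p, ⟨γ, h1.1, h1.2.1⟩) = 0 := by
    rw [h]; rfl
  exact hne h2

/-- the linear map of the column -/
noncomputable def TT (c : P → Finset (Fin N)) (lab : P → Λ) (ref : P → Fin N → A) (a : Fin N → ℕ)
    (μ : Λ → ℕ) (x : P × Fin N × A → ℂ) : VV c lab ref a μ →ₗ[ℂ] (Gam N A Λ a μ → ℂ) where
  toFun := fun ft γ => coeff γ.1 (∑ p, sbt (c p) (ref p) (fun i t => x (p, i, t)) (ft.1 p))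
  map_add' := by
    intro f g
    funext γ
    simp only [Submodule.coe_add, Pi.add_apply, map_add, Finset.sum_add_distrib, coeff_add]
  map_smul' := by
    intro z f
    funext γ
    simp only [Submodule.coe_smul, Pi.smul_apply, map_smul, RingHom.id_apply]
    rw [← Finset.smul_sum, coeff_smul]

theorem TT_apply (c : P → Finset (Fin N)) (lab : P → Λ) (ref : P → Fin N → A) (a : Fin N → ℕ)
    (μ : Λ → ℕ) (x : P × Fin N × A → ℂ) (ft : VV c lab ref a μ) (γ : Gam N A Λ a μ) :
    TT c lab ref a μ x ft γ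
      = coeff γ.1 (∑ p, sbt (c p) (ref p) (fun i t => x (p, i, t)) (ft.1 p)) := rfl

theorem TT_poly (c : P → Finset (Fin N)) (lab : P → Λ) (ref : P → Fin N → A) (a : Fin N → ℕ)
    (μ : Λ → ℕ) (ft : VV c lab ref a μ) (γ : Gam N A Λ a μ) :
    PolyFun (fun x => TT c lab ref a μ x ft γ) := by
  have h1 : (fun x => TT c lab ref a μ x ft γ)
      = fun x => ∑ p ∈ Finset.univ, coeff γ.1 (sbt (c p) (ref p) (fun i t => x (p, i, t)) (ft.1 p)) := by
    funext x
    rw [TT_apply, coeff_sum]
  rw [h1]
  apply PolyFun.sum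
  intro p _
  obtain ⟨M, hM⟩ := sbt_poly (Λ := Λ) (c p) (ref p) (ft.1 p) γ.1
  refine ⟨rename (fun q : Fin N × A => (p, q.1, q.2)) M, fun x => ?_⟩
  rw [eval_rename]
  exact hM (fun q => x (p, q.1, q.2))

/-- a family with vanishing image -/
theorem sum_eq_zero_iff (c : P → Finset (Fin N)) (lab : P → Λ) (ref : P → Fin N → A) (a : Fin N → ℕ)
    (μ : Λ → ℕ) (v : P → Fin N → A → ℂ) (ft : P → MvPolynomial (Sg N A Λ) ℂ)
    (hft : Adm c lab ref a μ ft)
    (h : ∀ γ ∈ Gam N A Λ a μ, coeff γ (∑ p, sbt (c p) (ref p) (v p) (ft p)) = 0) :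
    ∑ p, sbt (c p) (ref p) (v p) (ft p) = 0 := by
  have h1 : ∀ p, comp a μ (ft p) = ft p := by
    intro p
    apply MvPolynomial.ext
    intro γ
    rw [coeff_comp]
    split_ifs with h2
    · rfl
    · by_contra h3
      have h4 := hft p γ (Ne.symm h3)
      exact h2 ⟨h4.1, h4.2.1⟩
  have h5 : comp a μ (∑ p, sbt (c p) (ref p) (v p) (ft p)) = ∑ p, sbt (c p) (ref p) (v p) (ft p) := by
    rw [map_sum]
    apply Finset.sum_congr rfl
    intro p _
    rw [comp_sbt, h1]
  apply MvPolynomial.ext
  intro γ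
  rw [coeff_zero]
  by_cases h6 : γ ∈ Gam N A Λ a μ
  · exact h γ h6
  · rw [← h5, coeff_comp]
    exact if_neg h6

end ColOpenX

open ColOpenX

/-- `ColInj` is an open condition. -/
theorem colInj_open (c : P → Finset (Fin N)) (lab : P → Λ) (ref : P → Fin N → A) (a : Fin N → ℕ)
    (μ : Λ → ℕ) (v₀ : P → Fin N → A → ℂ) (h : ColInj c lab ref a μ v₀) :
    ∃ G : MvPolynomial (P × Fin N × A) ℂ, G ≠ 0 ∧ ∀ v : P → Fin N → A → ℂ,
      eval (fun x => v x.1 x.2.1 x.2.2) G ≠ 0 → ColInj c lab ref a μ v := by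
  have : Finite (Gam N A Λ a μ) := gam_finite a μ
  have := finiteDimensional_VV c lab ref a μ
  obtain ⟨G, hG1, hG2⟩ := open_inj (TT c lab ref a μ) (TT_poly c lab ref a μ)
    (fun x => v₀ x.1 x.2.1 x.2.2) (by
      rw [injective_iff_map_eq_zero]
      intro ft h1
      have h2 : ∑ p, sbt (c p) (ref p) (v₀ p) (ft.1 p) = 0 := by
        apply sum_eq_zero_iff c lab ref a μ v₀ ft.1 ft.2
        intro γ hγ
        have h3 := congrFun h1 ⟨γ, hγ⟩
        rw [TT_apply] at h3
        exact h3
      have h4 := h ft.1 ft.2 h2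
      apply Subtype.ext
      funext p
      exact h4 p)
  refine ⟨G, ?_, ?_⟩
  · rintro rfl
    simp at hG1
  · intro v hv ft hft h1
    have h2 := (injective_iff_map_eq_zero _).1 (hG2 _ hv) ⟨ft, hft⟩ (by
      funext γ
      rw [TT_apply]
      have h3 := congrArg (coeff γ.1) h1
      rw [coeff_zero] at h3
      exact h3)
    intro p
    have h3 := congrArg Subtype.val h2
    exact congrFun h3 p

end Pool.Agent.H21.HD

end

section

/-!
Good is open.
-/

namespace Pool.Agent.H21.HD

open MvPolynomial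
open scoped Classical

namespace GoodOpenX

/-- The functions that depend only on the coordinates in `T`. -/
noncomputable def depSub {ι : Type*} (B : ι → Type*) (T : Finset ι) :
    Submodule ℂ ((∀ i, B i) → ℂ) where
  carrier := {f | DepOn T f}
  add_mem' := by
    intro f g hf hg x y hxy
    simp only [Pi.add_apply]
    rw [hf x y hxy, hg x y hxy]
  zero_mem' := by
    intro x y _
    rfl
  smul_mem' := by
    intro c f hf x y hxy
    simp only [Pi.smul_apply]
    rw [hf x y hxy]

/-- The functions that depend only on the coordinates in `J`, supported on `S`. -/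
noncomputable def supSub {ι : Type*} (B : ι → Type*) (J : Finset ι) (S : (∀ i, B i) → Prop) :
    Submodule ℂ ((∀ i, B i) → ℂ) where
  carrier := {f | DepOn J f ∧ ∀ y, f y ≠ 0 → S y}
  add_mem' := by
    rintro f g ⟨hf, hf'⟩ ⟨hg, hg'⟩
    refine ⟨?_, ?_⟩
    · intro x y hxy
      simp only [Pi.add_apply]
      rw [hf x y hxy, hg x y hxy]
    · intro y hy
      by_cases h0 : f y = 0
      · refine hg' y fun h1 => hy ?_
        simp only [Pi.add_apply]
        rw [h0, h1, add_zero]
      · exact hf' y h0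
  zero_mem' := by
    refine ⟨fun x y _ => rfl, ?_⟩
    intro y hy
    exact absurd rfl hy
  smul_mem' := by
    rintro c f ⟨hf, hf'⟩
    refine ⟨?_, ?_⟩
    · intro x y hxy
      simp only [Pi.smul_apply]
      rw [hf x y hxy]
    · intro y hy
      refine hf' y fun h0 => hy ?_
      simp only [Pi.smul_apply]
      rw [h0, smul_zero]

/-- The linear map attached to the parameters `x`. -/
noncomputable def goodMap {ι A α : Type} {B : ι → Type} [Fintype ι] [∀ i, Fintype (B i)]
    (N : ∀ i, B i → MvPolynomial A ℂ) (J : Finset ι) (P Q : Finset α) (c : α → Finset ι)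
    (S : α → (∀ i, B i) → Prop) (x : α × ι × A → ℂ) :
    ((∀ p : P, depSub B (J \ c p)) × (∀ q : Q, supSub B J (S q))) →ₗ[ℂ] ((∀ i, B i) → ℂ) where
  toFun κ := fun y => ∑ p : P, (∏ i ∈ c p, eval (fun a => x (p.1, i, a)) (N i (y i))) *
      (κ.1 p).1 y + ∑ q : Q, (κ.2 q).1 y
  map_add' := by
    intro κ κ'
    funext y
    simp only [Prod.fst_add, Prod.snd_add, Pi.add_apply, Submodule.coe_add, mul_add,
      Finset.sum_add_distrib]
    ring
  map_smul' := by
    intro r κ
    funext y
    simp only [Prod.smul_fst, Prod.smul_snd, Pi.smul_apply, Submodule.coe_smul, smul_eq_mul,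
      RingHom.id_apply, mul_add, Finset.mul_sum]
    congr 1
    refine Finset.sum_congr rfl fun p _ => ?_
    ring

theorem goodMap_apply {ι A α : Type} {B : ι → Type} [Fintype ι] [∀ i, Fintype (B i)]
    (N : ∀ i, B i → MvPolynomial A ℂ) (J : Finset ι) (P Q : Finset α) (c : α → Finset ι)
    (S : α → (∀ i, B i) → Prop) (x : α × ι × A → ℂ)
    (κ : (∀ p : P, depSub B (J \ c p)) × (∀ q : Q, supSub B J (S q))) (y : ∀ i, B i) :
    goodMap N J P Q c S x κ y =
      ∑ p : P, (∏ i ∈ c p, eval (fun a => x (p.1, i, a)) (N i (y i))) *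
        (κ.1 p).1 y + ∑ q : Q, (κ.2 q).1 y := rfl

theorem polyFun_eval {ι A α : Type} (M : MvPolynomial A ℂ) (p : α) (i : ι) :
    PolyFun (fun x : α × ι × A → ℂ => eval (fun a => x (p, i, a)) M) := by
  refine ⟨rename (fun a => (p, i, a)) M, fun x => ?_⟩
  rw [eval_rename]
  rfl

end GoodOpenX

open GoodOpenX in
/-- `Good` is an open condition. -/
theorem good_open {ι A α : Type} {B : ι → Type} [Fintype ι] [∀ i, Fintype (B i)]
    [∀ i, Nonempty (B i)] (pt : ∀ i, A → B i) (N : ∀ i, B i → MvPolynomial A ℂ)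
    (J : Finset ι) (P Q : Finset α) (c : α → Finset ι) (f : α → ℕ) (ref : α → ι → A)
    (hPQ : Disjoint P Q) (v₀ : α → ι → A → ℂ) (h : Good pt N J P Q c f ref v₀) :
    ∃ G : MvPolynomial (α × ι × A) ℂ, G ≠ 0 ∧ ∀ v : α → ι → A → ℂ,
      eval (fun x => v x.1 x.2.1 x.2.2) G ≠ 0 → Good pt N J P Q c f ref v := by
  set S : α → (∀ i, B i) → Prop := fun q y =>
    f q ≤ ((c q).filter (fun i => y i = pt i (ref q i))).card with hS
  have hT : ∀ (κ : (∀ p : P, depSub B (J \ c p)) × (∀ q : Q, supSub B J (S q)))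
      (y : ∀ i, B i), PolyFun (fun x => goodMap N J P Q c S x κ y) := by
    intro κ y
    simp only [goodMap_apply]
    refine PolyFun.add ?_ (PolyFun.const _)
    refine PolyFun.sum _ _ fun p _ => ?_
    refine PolyFun.mul ?_ (PolyFun.const _)
    exact PolyFun.prod _ (fun i x => eval (fun a => x (p.1, i, a)) (N i (y i)))
      fun i _ => polyFun_eval _ _ _
  have hinj : Function.Injective (goodMap N J P Q c S (fun x => v₀ x.1 x.2.1 x.2.2)) := by
    rw [injective_iff_map_eq_zero]
    intro κ hκ
    have hQP : ∀ q ∈ Q, q ∉ P := fun q hq hp => Finset.disjoint_left.1 hPQ hp hq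
    let κ' : α → (∀ i, B i) → ℂ := fun p =>
      if hp : p ∈ P then (κ.1 ⟨p, hp⟩).1 else if hq : p ∈ Q then (κ.2 ⟨p, hq⟩).1 else 0
    have hP' : ∀ p (hp : p ∈ P), κ' p = (κ.1 ⟨p, hp⟩).1 := by
      intro p hp
      simp only [κ', dif_pos hp]
    have hQ' : ∀ q (hq : q ∈ Q), κ' q = (κ.2 ⟨q, hq⟩).1 := by
      intro q hq
      simp only [κ', dif_neg (hQP q hq), dif_pos hq]
    have h1 := h κ' ?_ ?_ ?_ ?_
    · obtain ⟨h2, h3⟩ := h1
      apply Prod.ext
      · funext p
        apply Subtype.ext
        have := h2 p.1 p.2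
        rw [hP' p.1 p.2] at this
        exact this
      · funext q
        apply Subtype.ext
        have := h3 q.1 q.2
        rw [hQ' q.1 q.2] at this
        exact this
    · intro p hp
      rw [hP' p hp]
      exact (κ.1 ⟨p, hp⟩).2
    · intro q hq
      rw [hQ' q hq]
      exact (κ.2 ⟨q, hq⟩).2.1
    · intro q hq y hy
      rw [hQ' q hq] at hy
      exact (κ.2 ⟨q, hq⟩).2.2 y hy
    · intro y
      have h2 := congrFun hκ y
      rw [goodMap_apply] at h2
      rw [← Finset.sum_coe_sort P
        (fun p => (∏ i ∈ c p, eval (v₀ p i) (N i (y i))) * κ' p y),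
        ← Finset.sum_coe_sort Q (fun q => κ' q y)]
      refine Eq.trans ?_ h2
      congr 1
      · refine Finset.sum_congr rfl fun p _ => ?_
        rw [hP' p.1 p.2]
      · refine Finset.sum_congr rfl fun q _ => ?_
        rw [hQ' q.1 q.2]
  obtain ⟨G, hG0, hG⟩ := open_inj (goodMap N J P Q c S) hT _ hinj
  refine ⟨G, ?_, ?_⟩
  · rintro rfl
    simp at hG0
  · intro v hv κ hκ1 hκ2 hκ3 hκ4
    have h1 := hG _ hv
    rw [injective_iff_map_eq_zero] at h1
    have h2 := h1 (⟨fun p => ⟨κ p.1, hκ1 p.1 p.2⟩, fun q => ⟨κ q.1, hκ2 q.1 q.2, hκ3 q.1 q.2⟩⟩) ?_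
    · refine ⟨fun p hp => ?_, fun q hq => ?_⟩
      · have h3 := congrFun (congrArg Prod.fst h2) ⟨p, hp⟩
        exact congrArg Subtype.val h3
      · have h3 := congrFun (congrArg Prod.snd h2) ⟨q, hq⟩
        exact congrArg Subtype.val h3
    · funext y
      rw [goodMap_apply]
      have h3 := hκ4 y
      rw [← Finset.sum_coe_sort P
        (fun p => (∏ i ∈ c p, eval (v p i) (N i (y i))) * κ p y),
        ← Finset.sum_coe_sort Q (fun q => κ q y)] at h3
      exact h3

end Pool.Agent.H21.HD

end

section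

/-!
The slicing step for injectivity.
-/

namespace Pool.Agent.H21.HD

open MvPolynomial
open scoped Classical

/-- `Good` only involves the values `v p k` with `k ∈ c p`. -/
private theorem good_congr {ι A α : Type} {B : ι → Type} (pt : ∀ i, A → B i)
    (N : ∀ i, B i → MvPolynomial A ℂ) (J : Finset ι) (P Q : Finset α) (c : α → Finset ι)
    (f : α → ℕ) (ref : α → ι → A) (v v' : α → ι → A → ℂ) (hv : ∀ p ∈ P, ∀ k ∈ c p, v p k = v' p k)
    (h : Good pt N J P Q c f ref v) : Good pt N J P Q c f ref v' := by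
  intro κ h1 h2 h3 h4
  refine h κ h1 h2 h3 fun y => ?_
  rw [← h4 y]
  congr 1
  refine Finset.sum_congr rfl fun p hp => ?_
  congr 1
  exact Finset.prod_congr rfl fun k hk => by rw [hv p hp k hk]

/-- One slicing step. The slice `y i = b` contains the ordinary points `p` with `i ∉ c p` or
`b = pt i (t p)`. -/
theorem inj_step {ι A α : Type} {B : ι → Type} [Fintype ι] [Fintype A] [∀ i, Fintype (B i)]
    [∀ i, Nonempty (B i)] (pt : ∀ i, A → B i) (N : ∀ i, B i → MvPolynomial A ℂ)
    (J : Finset ι) (i : ι) (hi : i ∈ J)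
    (hN : ∀ (a : A) (b : B i), eval (Pi.single a 1) (N i b) = if b = pt i a then 1 else 0)
    (P Q : Finset α) (c : α → Finset ι) (f : α → ℕ) (ref : α → ι → A)
    (hPQ : Disjoint P Q) (hP : ∀ p ∈ P, c p ⊆ J) (hQ : ∀ q ∈ Q, c q ⊆ J) (t : α → A)
    (h : ∀ b : B i, ∃ v : α → ι → A → ℂ,
      Good pt N (J.erase i) (P.filter (fun p => i ∈ c p → b = pt i (t p))) Q
        (fun p => (c p).erase i)
        (fun q => if i ∈ c q ∧ b = pt i (ref q i) then f q - 1 else f q) ref v) :
    ∃ v : α → ι → A → ℂ, Good pt N J P Q c f ref v := by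
  -- a common choice in the directions `k ≠ i`
  have h1 : ∀ b : B i, ∃ G : MvPolynomial (α × ι × A) ℂ, G ≠ 0 ∧ ∀ v : α → ι → A → ℂ,
      eval (fun x => v x.1 x.2.1 x.2.2) G ≠ 0 →
        Good pt N (J.erase i) (P.filter (fun p => i ∈ c p → b = pt i (t p))) Q
          (fun p => (c p).erase i)
          (fun q => if i ∈ c q ∧ b = pt i (ref q i) then f q - 1 else f q) ref v := by
    intro b
    obtain ⟨v, hv⟩ := h b
    exact good_open pt N _ _ Q _ _ ref (hPQ.mono_left (Finset.filter_subset _ _)) v hv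
  choose G hG0 hG using h1
  obtain ⟨x, hx⟩ := exists_common Finset.univ G fun b _ => hG0 b
  set v₀ : α → ι → A → ℂ := fun p k a => x (p, k, a) with hv₀
  set v : α → ι → A → ℂ := fun p k => if k = i then Pi.single (t p) 1 else v₀ p k with hv
  have h2 : ∀ b : B i, Good pt N (J.erase i) (P.filter (fun p => i ∈ c p → b = pt i (t p))) Q
      (fun p => (c p).erase i)
      (fun q => if i ∈ c q ∧ b = pt i (ref q i) then f q - 1 else f q) ref v := by
    intro b
    refine good_congr pt N _ _ Q _ _ ref v₀ v (fun p _ k hk => ?_) (hG b v₀ (hx b (Finset.mem_univ b)))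
    have hk' : k ≠ i := (Finset.mem_erase.1 hk).1
    simp only [hv, if_neg hk']
  refine ⟨v, fun κ k1 k2 k3 k4 => ?_⟩
  -- the slices
  have h3 : ∀ b : B i,
      (∀ p ∈ P.filter (fun p => i ∈ c p → b = pt i (t p)),
        (fun y => κ p (Function.update y i b)) = 0) ∧
      ∀ q ∈ Q, (fun y => κ q (Function.update y i b)) = 0 := by
    intro b
    refine h2 b (fun p y => κ p (Function.update y i b)) ?_ ?_ ?_ ?_
    · intro p hp y y' hy
      have hp' := (Finset.mem_filter.1 hp).1
      refine k1 p hp' _ _ fun k hk => ?_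
      obtain ⟨hk1, hk2⟩ := Finset.mem_sdiff.1 hk
      by_cases hki : k = i
      · subst hki; simp
      · rw [Function.update_of_ne hki, Function.update_of_ne hki]
        exact hy k (Finset.mem_sdiff.2 ⟨Finset.mem_erase.2 ⟨hki, hk1⟩,
          fun h => hk2 (Finset.mem_erase.1 h).2⟩)
    · intro q hq y y' hy
      refine k2 q hq _ _ fun k hk => ?_
      by_cases hki : k = i
      · subst hki; simp
      · rw [Function.update_of_ne hki, Function.update_of_ne hki]
        exact hy k (Finset.mem_erase.2 ⟨hki, hk⟩)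
    · intro q hq y hne
      have h4 := k3 q hq _ hne
      have h5 : ((c q).filter (fun k => Function.update y i b k = pt k (ref q k))).card ≤
          (((c q).erase i).filter (fun k => y k = pt k (ref q k))).card +
            (if i ∈ c q ∧ b = pt i (ref q i) then 1 else 0) := by
        by_cases h6 : i ∈ c q ∧ b = pt i (ref q i)
        · rw [if_pos h6]
          have : (c q).filter (fun k => Function.update y i b k = pt k (ref q k)) ⊆
              insert i (((c q).erase i).filter (fun k => y k = pt k (ref q k))) := by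
            intro k hk
            obtain ⟨hk1, hk2⟩ := Finset.mem_filter.1 hk
            by_cases hki : k = i
            · subst hki; exact Finset.mem_insert_self _ _
            · rw [Function.update_of_ne hki] at hk2
              exact Finset.mem_insert_of_mem
                (Finset.mem_filter.2 ⟨Finset.mem_erase.2 ⟨hki, hk1⟩, hk2⟩)
          exact (Finset.card_le_card this).trans (Finset.card_insert_le _ _)
        · rw [if_neg h6, add_zero]
          refine Finset.card_le_card ?_
          intro k hk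
          obtain ⟨hk1, hk2⟩ := Finset.mem_filter.1 hk
          by_cases hki : k = i
          · subst hki
            rw [Function.update_self] at hk2
            exact absurd ⟨hk1, hk2⟩ h6
          · rw [Function.update_of_ne hki] at hk2
            exact Finset.mem_filter.2 ⟨Finset.mem_erase.2 ⟨hki, hk1⟩, hk2⟩
      show (if i ∈ c q ∧ b = pt i (ref q i) then f q - 1 else f q) ≤
        (((c q).erase i).filter (fun k => y k = pt k (ref q k))).card
      split_ifs at h5 ⊢ <;> omega
    · intro y
      rw [← k4 (Function.update y i b)]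
      congr 1
      rw [Finset.sum_filter]
      refine Finset.sum_congr rfl fun p _ => ?_
      have hrest : ∀ k ∈ (c p).erase i, eval (v p k) (N k (Function.update y i b k)) =
          eval (v p k) (N k (y k)) := by
        intro k hk
        rw [Function.update_of_ne (Finset.mem_erase.1 hk).1]
      by_cases hip : i ∈ c p
      · have h7 : ∏ k ∈ c p, eval (v p k) (N k (Function.update y i b k)) =
            (if b = pt i (t p) then 1 else 0) * ∏ k ∈ (c p).erase i, eval (v p k) (N k (y k)) := by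
          rw [← Finset.mul_prod_erase _ _ hip, Finset.prod_congr rfl hrest, Function.update_self]
          congr 1
          rw [← hN (t p) b]
          simp only [hv, if_true]
        rw [h7]
        by_cases hb : b = pt i (t p)
        · rw [if_pos (fun _ => hb), if_pos hb, one_mul]
        · rw [if_neg (fun h => hb (h hip)), if_neg hb, zero_mul, zero_mul]
      · rw [if_pos (fun h => absurd h hip)]
        rw [← Finset.prod_congr rfl hrest, Finset.erase_eq_of_notMem hip]
  constructor
  · intro p hp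
    funext y
    by_cases hip : i ∈ c p
    · have h4 := (h3 (pt i (t p))).1 p (Finset.mem_filter.2 ⟨hp, fun _ => rfl⟩)
      have h5 := congrFun h4 y
      simp only [Pi.zero_apply] at h5 ⊢
      rw [← h5]
      refine k1 p hp _ _ fun k hk => ?_
      have hki : k ≠ i := by
        rintro rfl
        exact (Finset.mem_sdiff.1 hk).2 hip
      rw [Function.update_of_ne hki]
    · have h4 := (h3 (y i)).1 p (Finset.mem_filter.2 ⟨hp, fun h => absurd h hip⟩)
      have h5 := congrFun h4 y
      simpa using h5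
  · intro q hq
    funext y
    have h5 := congrFun ((h3 (y i)).2 q hq) y
    simpa using h5

end Pool.Agent.H21.HD

end

section

/-!
# Module Conv: conversions between `fatForms` and `GI`/`GM`

Templates: `sat_of_vanishes`, `exists_special` (H18/Ex/Final).
-/

namespace Pool.Agent.H21.NX

open Finset MvPolynomial Pool.Agent.H18.Fat Pool.Agent.H18.Ex

namespace ConvX

theorem mem_Sx_coe {n d : ℕ} {α : Fin n →₀ ℕ} : (⇑α : Fin n → ℕ) ∈ Sx (Fin n) d ↔ α ∈ mons n d := by
  rw [mem_Sx, mem_mons, Finsupp.degree_eq_sum]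

theorem symm_coe {n : ℕ} (α : Fin n →₀ ℕ) : Finsupp.equivFunOnFinite.symm (⇑α) = α := by
  ext
  rfl

theorem finite_fat' {r d : ℕ} {ι : Type} (p : ι → Fin (r + 1) → ℂ) (m : ι → ℕ) :
    Module.Finite ℂ (fatForms r d p m) := by
  have h1 : fatForms r d p m ≤ LinearMap.range (toPoly (r + 1) d) := fun F hF =>
    ⟨_, exists_toPoly hF.1⟩
  exact Module.Finite.of_injective (Submodule.inclusion h1) (Submodule.inclusion_injective h1)

end ConvX

open ConvX

/-- `ell n (σ + 1) = binom(σ + n, n)` exponents (`card_mons`, or stars and bars). -/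
theorem card_Sx (n σ : ℕ) : (Sx (Fin (n + 1)) σ).card = ell n (σ + 1) := by
  unfold ell
  rw [show σ + 1 + n - 1 = σ + n by omega, ← card_mons]
  symm
  apply card_bij (fun (α : Fin (n + 1) →₀ ℕ) _ => (⇑α : Fin (n + 1) → ℕ))
  · intro α hα
    exact mem_Sx_coe.2 hα
  · intro α _ β _ h
    exact DFunLike.coe_injective h
  · intro a ha
    refine ⟨Finsupp.equivFunOnFinite.symm a, ?_, rfl⟩
    rw [← mem_Sx_coe]
    exact ha

theorem Sx_resid {ι : Type} [Fintype ι] [DecidableEq ι] (σ : ℕ) (hσ : 1 ≤ σ) (l : ι)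
    (a : ι → ℕ) : a ∈ Sx ι (σ - 1) ↔ Function.update a l (a l + 1) ∈ Sx ι σ := by
  rw [mem_Sx, mem_Sx, Finset.sum_update_of_mem (mem_univ l),
    ← Finset.add_sum_erase univ a (mem_univ l), Finset.sdiff_singleton_eq_erase]
  omega

/-- A function on `Sx` satisfying the conditions is the coefficient function of a form in
`fatForms`, which is zero. -/
theorem GI_of_fat {n d : ℕ} {κ : Type} (p : κ → Fin (n + 1) → ℂ) (m : κ → ℕ)
    (h : Module.finrank ℂ (fatForms n d p m) = 0) :
    GI (Sx (Fin (n + 1)) d) fun i => Kind.free (m i) := by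
  classical
  refine ⟨p, fun f hf => ?_⟩
  have hfin := finite_fat' (d := d) p m
  have hbot : fatForms n d p m = ⊥ := Submodule.finrank_eq_zero.1 h
  have hmem : toPoly (n + 1) d (fun α => f (⇑α.1)) ∈ fatForms n d p m := by
    refine ⟨toPoly_isHomogeneous _, fun i β hβ => ?_⟩
    rw [coeff_shift_toPoly]
    have h1 := hf i (⇑β) (by
      rw [Finsupp.degree_eq_sum] at hβ
      exact hβ)
    rw [← h1]
    apply sum_bij (fun (α : mons (n + 1) d) _ => (⇑α.1 : Fin (n + 1) → ℕ))
    · intro α _
      exact mem_Sx_coe.2 α.2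
    · intro α _ α' _ hαα
      exact Subtype.ext (DFunLike.coe_injective hαα)
    · intro a ha
      refine ⟨⟨Finsupp.equivFunOnFinite.symm a, ?_⟩, mem_univ _, rfl⟩
      rw [← mem_Sx_coe]
      exact ha
    · intro α _
      rfl
  rw [hbot, Submodule.mem_bot] at hmem
  have h0 : (fun α : mons (n + 1) d => f (⇑α.1)) = 0 := by
    apply toPoly_injective (n + 1) d
    rw [hmem, map_zero]
  intro a ha
  have hm : Finsupp.equivFunOnFinite.symm a ∈ mons (n + 1) d := by
    rw [← mem_Sx_coe]
    exact ha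
  exact congrFun h0 ⟨_, hm⟩

theorem gdim_of_GI {n d : ℕ} {κ : Type} [Fintype κ] (m : κ → ℕ)
    (h : GI (Sx (Fin (n + 1)) d) fun i => Kind.free (m i)) : gdim n d m = 0 := by
  classical
  obtain ⟨pos, hpos⟩ := h
  have h1 : Module.finrank ℂ (fatForms n d pos m) = 0 := by
    have hbot : fatForms n d pos m = ⊥ := by
      rw [eq_bot_iff]
      intro F hF
      rw [Submodule.mem_bot]
      have hsupp : ∀ α ∈ F.support, (⇑α : Fin (n + 1) → ℕ) ∈
          Pool.Agent.H18.Ex.Rg d (fun _ => d) := by
        intro α hα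
        rw [MvPolynomial.mem_support_iff] at hα
        have hαd : α ∈ mons (n + 1) d := by
          rw [mem_mons]
          by_contra h
          exact hα (hF.1.coeff_eq_zero h)
        exact mem_Sx_coe.2 hαd
      have h2 := hpos (cf F) fun i => sat_of_vanishes hsupp (hF.2 i)
      by_contra hne
      obtain ⟨α, hα⟩ := MvPolynomial.ne_zero_iff.1 hne
      have h4 := h2 _ (hsupp α (MvPolynomial.mem_support_iff.2 hα))
      unfold cf at h4
      rw [symm_coe] at h4
      exact hα h4
    rw [hbot, finrank_bot]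
  have h2 : gdim n d m ≤ Module.finrank ℂ (fatForms n d pos m) := Nat.sInf_le ⟨pos, rfl⟩
  omega

end Pool.Agent.H21.NX

end
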