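import Pool.Agent.H94.LP5.M03
import Pool.Agent.H94.LP5.M25

/-! The parts of this file: H18.FatToric, H18.FatToric_1, H21.HD.BridgeC, H21.HD.BridgeD, H21.NX.GenA. -/

section

namespace Pool.Agent.H18.Fat

open MvPolynomial Finset

/-! ### General points -/

/-! ### Semicontinuity of the dimension -/

/-- All exponent vectors of degree smaller than `m`. -/
noncomputable def full (n m : ℕ) : Finset (Fin n →₀ ℕ) := by
  classical
  exact (range m).biUnion fun t => mons n t

theorem mem_full {n m : ℕ} {β : Fin n →₀ ℕ} : β ∈ full n m ↔ β.degree < m := by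
  classical
  unfold full
  rw [mem_biUnion]
  constructor
  · rintro ⟨t, ht, hβ⟩
    rw [mem_mons] at hβ
    rw [hβ]
    exact mem_range.1 ht
  · intro h
    exact ⟨_, mem_range.2 h, mem_mons.2 rfl⟩

/-- All linear conditions. -/
noncomputable def fullMat (r d : ℕ) {k : ℕ} (p : Fin k → Fin (r + 1) → ℂ) (m : Fin k → ℕ) :
    Matrix (Σ i : Fin k, {β // β ∈ full (r + 1) (m i)}) (mons (r + 1) d) ℂ :=
  fun x α => tc (p x.1) α.1 x.2.1

noncomputable def genFullMat (r d : ℕ) {k : ℕ} (m : Fin k → ℕ) :
    Matrix (Σ i : Fin k, {β // β ∈ full (r + 1) (m i)}) (mons (r + 1) d)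
      (MvPolynomial (Fin k × Fin (r + 1)) ℂ) :=
  fun x α => ∏ j, (C ((α.1 j).choose (x.2.1 j) : ℂ) * X (x.1, j) ^ (α.1 j - x.2.1 j))

theorem genFullMat_map {r d k : ℕ} (m : Fin k → ℕ) (p : Fin k → Fin (r + 1) → ℂ) :
    (genFullMat r d m).map (eval fun x : Fin k × Fin (r + 1) => p x.1 x.2) =
      fullMat r d p m := by
  ext x α
  simp [genFullMat, fullMat, tc]

theorem toPoly_mem_fatForms_full {r d k : ℕ} (p : Fin k → Fin (r + 1) → ℂ)
    (m : Fin k → ℕ) (f : mons (r + 1) d → ℂ) :
    toPoly (r + 1) d f ∈ fatForms r d p m ↔ (fullMat r d p m).mulVec f = 0 := by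
  constructor
  · intro h
    funext x
    have h1 := h.2 x.1 x.2.1 (mem_full.1 x.2.2)
    rw [coeff_shift_toPoly] at h1
    rw [Pi.zero_apply, ← h1]
    unfold Matrix.mulVec dotProduct fullMat
    exact sum_congr rfl fun α _ => mul_comm _ _
  · intro h
    refine ⟨toPoly_isHomogeneous f, fun i β hdeg => ?_⟩
    have h1 := congrFun h ⟨i, β, mem_full.2 hdeg⟩
    rw [coeff_shift_toPoly]
    rw [Pi.zero_apply] at h1
    rw [← h1]
    unfold Matrix.mulVec dotProduct fullMat
    exact sum_congr rfl fun α _ => mul_comm _ _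

theorem rank_full_add_finrank {r d k : ℕ} (p : Fin k → Fin (r + 1) → ℂ) (m : Fin k → ℕ) :
    Module.finrank ℂ (LinearMap.range (fullMat r d p m).mulVecLin) +
      Module.finrank ℂ (fatForms r d p m) = (d + r).choose r := by
  have h1 : fatForms r d p m = Submodule.map (toPoly (r + 1) d)
      (LinearMap.ker (fullMat r d p m).mulVecLin) := by
    ext F
    constructor
    · intro h
      refine ⟨fun α => coeff α.1 F, ?_, exists_toPoly h.1⟩
      rw [SetLike.mem_coe, LinearMap.mem_ker, Matrix.mulVecLin_apply]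
      rw [← toPoly_mem_fatForms_full, exists_toPoly h.1]
      exact h
    · rintro ⟨f, hf, rfl⟩
      rw [SetLike.mem_coe, LinearMap.mem_ker, Matrix.mulVecLin_apply] at hf
      exact (toPoly_mem_fatForms_full p m f).2 hf
  rw [h1, ← (Submodule.equivMapOfInjective _ (toPoly_injective _ _) _).finrank_eq,
    LinearMap.finrank_range_add_finrank_ker, Module.finrank_fintype_fun_eq_card,
    Fintype.card_coe, card_mons]

/-! ### Further points impose at most their length -/

/-! ### Linear changes of coordinates -/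

/-! ### Coordinate points -/

end Pool.Agent.H18.Fat

end

section

namespace Pool.Agent.H18.Fat

open MvPolynomial Finset

/-! ### General points -/

/-! ### Semicontinuity of the dimension -/

/-- The rank of a matrix with polynomial entries does not drop at general parameters. -/
theorem exists_poly_rank {σ R K : Type*} [Fintype R] [Fintype K] [DecidableEq K]
    (N : Matrix R K (MvPolynomial σ ℂ)) (a₀ : σ → ℂ) :
    ∃ G : MvPolynomial σ ℂ, eval a₀ G ≠ 0 ∧
      ∀ a, eval a G ≠ 0 →
        Module.finrank ℂ (LinearMap.range (N.map (eval a₀)).mulVecLin) ≤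
          Module.finrank ℂ (LinearMap.range (N.map (eval a)).mulVecLin) := by
  classical
  set ρ := Module.finrank ℂ (LinearMap.range (N.map (eval a₀)).mulVecLin) with hρ
  let b := Module.finBasis ℂ (LinearMap.range (N.map (eval a₀)).mulVecLin)
  have hb : ∀ i, ∃ v, (N.map (eval a₀)).mulVecLin v = (b i : R → ℂ) := fun i => (b i).2
  choose v hv using hb
  let B : Matrix K (Fin ρ) ℂ := Matrix.of fun x i => v i x
  have hBmul : ∀ (A : Matrix R K ℂ) (c : Fin ρ → ℂ),
      (A * B).mulVec c = ∑ i, c i • A.mulVec (v i) := by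
    intro A c
    rw [← Matrix.mulVec_mulVec]
    have h1 : B.mulVec c = ∑ i, c i • v i := by
      funext x
      simp only [B, Matrix.mulVec, dotProduct, Matrix.of_apply, Finset.sum_apply, Pi.smul_apply,
        smul_eq_mul]
      exact sum_congr rfl fun i _ => mul_comm _ _
    rw [h1, Matrix.mulVec_sum]
    exact sum_congr rfl fun i _ => Matrix.mulVec_smul _ _ _
  have hinj : LinearMap.ker ((N.map (eval a₀)) * B).mulVecLin = ⊥ := by
    rw [LinearMap.ker_eq_bot']
    intro c hc
    rw [Matrix.mulVecLin_apply, hBmul] at hc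
    have h2 : ∑ i, c i • b i = 0 := by
      apply Subtype.ext
      rw [Submodule.coe_sum]
      simp only [Submodule.coe_smul, Submodule.coe_zero]
      rw [← hc]
      refine sum_congr rfl fun i _ => ?_
      rw [← hv i, Matrix.mulVecLin_apply]
    have h3 := Fintype.linearIndependent_iff.1 b.linearIndependent c h2
    funext i
    exact h3 i
  let N' : Matrix R (Fin ρ) (MvPolynomial σ ℂ) := N * B.map (C : ℂ → MvPolynomial σ ℂ)
  have hN' : ∀ a : σ → ℂ, N'.map (eval a) = (N.map (eval a)) * B := by
    intro a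
    have hB' : (B.map (C : ℂ → MvPolynomial σ ℂ)).map (eval a) = B := by
      ext i j
      simp
    change (N * (B.map (C : ℂ → MvPolynomial σ ℂ))).map (eval a) = _
    rw [Matrix.map_mul, hB']
  rw [← hN'] at hinj
  obtain ⟨G, hG1, hG2⟩ := exists_poly_injective N' a₀ hinj
  refine ⟨G, hG1, fun a ha => ?_⟩
  have h4 := hG2 a ha
  rw [hN'] at h4
  have h5 : LinearMap.range ((N.map (eval a)) * B).mulVecLin ≤
      LinearMap.range (N.map (eval a)).mulVecLin := by
    rintro _ ⟨x, rfl⟩
    refine ⟨B.mulVec x, ?_⟩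
    rw [Matrix.mulVecLin_apply, Matrix.mulVecLin_apply, Matrix.mulVec_mulVec]
  have h6 := LinearMap.finrank_range_add_finrank_ker ((N.map (eval a)) * B).mulVecLin
  rw [h4, finrank_bot, add_zero, Module.finrank_fintype_fun_eq_card, Fintype.card_fin] at h6
  rw [← h6]
  exact Submodule.finrank_mono h5

/-- Upper semicontinuity of `dim V_d(Γ)`. -/
theorem general_finrank_le {r k : ℕ} (d : ℕ) (p₀ : Fin k → Fin (r + 1) → ℂ) (m : Fin k → ℕ) :
    ForGeneralPoints r k fun p =>
      Module.finrank ℂ (fatForms r d p m) ≤ Module.finrank ℂ (fatForms r d p₀ m) := by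
  classical
  obtain ⟨G, hG1, hG2⟩ := exists_poly_rank (genFullMat r d m)
    (fun x : Fin k × Fin (r + 1) => p₀ x.1 x.2)
  refine ⟨G, ?_, fun p hp => ?_⟩
  · intro h0
    apply hG1
    rw [h0, map_zero]
  · have h1 := hG2 _ hp
    rw [genFullMat_map, genFullMat_map] at h1
    have h2 := rank_full_add_finrank (d := d) p m
    have h3 := rank_full_add_finrank (d := d) p₀ m
    omega

/-! ### Further points impose at most their length -/

/-! ### Linear changes of coordinates -/

/-! ### Coordinate points -/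

end Pool.Agent.H18.Fat

end

section

/-!
Adding a point.
-/

namespace Pool.Agent.H21.HD

open MvPolynomial Pool.Agent.H18.Fat
open scoped Classical

namespace BridgeCX

/-- The derivative in the direction `P`. -/
noncomputable def dd {n : ℕ} (P : Fin n → ℂ) : MvPolynomial (Fin n) ℂ →ₗ[ℂ] MvPolynomial (Fin n) ℂ :=
  ∑ j, P j • (pderiv j : Derivation ℂ (MvPolynomial (Fin n) ℂ) (MvPolynomial (Fin n) ℂ)).toLinearMap

theorem dd_apply {n : ℕ} (P : Fin n → ℂ) (F : MvPolynomial (Fin n) ℂ) :
    dd P F = ∑ j, P j • pderiv j F := by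
  unfold dd
  rw [LinearMap.sum_apply]
  rfl

theorem shift_pderiv {n : ℕ} (q : Fin n → ℂ) (j : Fin n) (F : MvPolynomial (Fin n) ℂ) :
    shift q (pderiv j F) = pderiv j (shift q F) := by
  unfold shift
  induction F using MvPolynomial.induction_on with
  | C a => simp
  | add F G hF hG => simp only [map_add, hF, hG]
  | mul_X F i hF =>
    rw [pderiv_mul, map_add, map_mul, map_mul, map_mul, pderiv_mul, hF, aeval_X, map_add,
      pderiv_C, add_zero]
    have hx : aeval (fun j => X j + C (q j) : Fin n → MvPolynomial (Fin n) ℂ)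
        (pderiv j (X i : MvPolynomial (Fin n) ℂ)) = pderiv j (X i : MvPolynomial (Fin n) ℂ) := by
      by_cases hij : i = j
      · subst hij
        rw [pderiv_X_self, map_one]
      · rw [pderiv_X_of_ne hij, map_zero]
    rw [hx]

theorem coeff_shift_dd {n : ℕ} (P q : Fin n → ℂ) (F : MvPolynomial (Fin n) ℂ)
    (β : Fin n →₀ ℕ) :
    coeff β (shift q (dd P F)) =
      ∑ j, P j * ((β j : ℂ) + 1) * coeff (β + Finsupp.single j 1) (shift q F) := by
  rw [dd_apply]
  have h1 : shift q (∑ j, P j • pderiv j F) = ∑ j, P j • pderiv j (shift q F) := by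
    have h2 : shift q (∑ j, P j • pderiv j F) = ∑ j, P j • shift q (pderiv j F) := by
      unfold shift
      rw [map_sum]
      exact Finset.sum_congr rfl fun j _ => by rw [map_smul]
    rw [h2]
    exact Finset.sum_congr rfl fun j _ => by rw [shift_pderiv]
  rw [h1, coeff_sum]
  refine Finset.sum_congr rfl fun j _ => ?_
  rw [coeff_smul, coeff_pderiv, smul_eq_mul]
  ring

theorem dd_isHomogeneous {n d : ℕ} (P : Fin n → ℂ) {F : MvPolynomial (Fin n) ℂ}
    (hF : F.IsHomogeneous d) : (dd P F).IsHomogeneous (d - 1) := by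
  rw [dd_apply]
  apply IsHomogeneous.sum
  intro j _
  rw [smul_eq_C_mul]
  simpa using (isHomogeneous_C (Fin n) (P j)).mul (hF.pderiv (i := j))

theorem dd_vanishes {n m : ℕ} (P q : Fin n → ℂ) {F : MvPolynomial (Fin n) ℂ}
    (hF : VanishesToOrder F q m) : VanishesToOrder (dd P F) q (m - 1) := by
  intro β hβ
  rw [coeff_shift_dd]
  refine Finset.sum_eq_zero fun j _ => ?_
  rw [hF (β + Finsupp.single j 1) (by
    simp only [map_add, Finsupp.degree_single]
    omega), mul_zero]

theorem vanishes_of_dd {n d m : ℕ} (P : Fin n → ℂ) {F : MvPolynomial (Fin n) ℂ}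
    (hF : F.IsHomogeneous d) (hm : m ≤ d) (h : VanishesToOrder (dd P F) P m) :
    VanishesToOrder F P m := by
  intro β hβ
  have h1 := h β hβ
  rw [coeff_shift_dd] at h1
  have h2 := coeff_shift_euler P β (fun α : mons n d => coeff α.1 F)
  rw [exists_toPoly hF, h1] at h2
  have h3 : (d : ℂ) - (β.degree : ℂ) ≠ 0 := by
    intro h4
    have h5 : (d : ℂ) = (β.degree : ℂ) := sub_eq_zero.1 h4
    have h6 : d = β.degree := by exact_mod_cast h5
    omega
  exact (mul_eq_zero.1 h2.symm).resolve_left h3

theorem iter_isHomogeneous {n : ℕ} (P : Fin n → ℂ) (e : ℕ) :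
    ∀ {d : ℕ} {F : MvPolynomial (Fin n) ℂ}, F.IsHomogeneous d →
      (((dd P) ^ e) F).IsHomogeneous (d - e) := by
  induction e with
  | zero =>
    intro d F hF
    simpa using hF
  | succ e ih =>
    intro d F hF
    rw [pow_succ, Module.End.mul_apply]
    have h1 := ih (dd_isHomogeneous P hF)
    have h2 : d - 1 - e = d - (e + 1) := by omega
    rwa [h2] at h1

theorem iter_vanishes {n : ℕ} (P q : Fin n → ℂ) (e : ℕ) :
    ∀ {m : ℕ} {F : MvPolynomial (Fin n) ℂ}, VanishesToOrder F q m →
      VanishesToOrder (((dd P) ^ e) F) q (m - e) := by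
  induction e with
  | zero =>
    intro m F hF
    simpa using hF
  | succ e ih =>
    intro m F hF
    rw [pow_succ, Module.End.mul_apply]
    have h1 := ih (dd_vanishes P q hF)
    have h2 : m - 1 - e = m - (e + 1) := by omega
    rwa [h2] at h1

theorem vanishes_of_iter {n : ℕ} (P : Fin n → ℂ) (e : ℕ) :
    ∀ {d : ℕ} {F : MvPolynomial (Fin n) ℂ}, F.IsHomogeneous d → e ≤ d →
      ((dd P) ^ e) F = 0 → VanishesToOrder F P (d + 1 - e) := by
  induction e with
  | zero =>
    intro d F _ _ h
    rw [pow_zero, Module.End.one_apply] at h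
    subst h
    intro β _
    simp [shift]
  | succ e ih =>
    intro d F hF he h
    rw [pow_succ, Module.End.mul_apply] at h
    have h1 := ih (dd_isHomogeneous P hF) (by omega) h
    have h2 : d - 1 + 1 - e = d + 1 - (e + 1) := by omega
    rw [h2] at h1
    exact vanishes_of_dd P hF (by omega) h1

theorem finite_fat {r d : ℕ} {ι : Type*} (p : ι → Fin (r + 1) → ℂ) (m : ι → ℕ) :
    Module.Finite ℂ (fatForms r d p m) := by
  have h1 : fatForms r d p m ≤ LinearMap.range (toPoly (r + 1) d) := fun F hF =>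
    ⟨_, exists_toPoly hF.1⟩
  exact Module.Finite.of_injective (Submodule.inclusion h1) (Submodule.inclusion_injective h1)

end BridgeCX

open BridgeCX

/-- Adding a point of multiplicity `d + 1 - e` imposes at most as many conditions as there are
forms of degree `d - e` with the other multiplicities lowered by `e`. -/
theorem finrank_fat_le_add {r : ℕ} {ι : Type} [Fintype ι] (d : ℕ)
    (p : ι → Fin (r + 1) → ℂ) (m : ι → ℕ) (i₀ : ι) (e : ℕ) (he : e ≤ d) (hi₀ : m i₀ = 0) :
    Module.finrank ℂ (fatForms r d p m) ≤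
      Module.finrank ℂ (fatForms r d p (Function.update m i₀ (d + 1 - e))) +
        Module.finrank ℂ (fatForms r (d - e) p (fun i => m i - e)) := by
  have hfin1 := finite_fat (d := d) p m
  have hfin2 := finite_fat (d := d) p (Function.update m i₀ (d + 1 - e))
  have hfin3 := finite_fat (d := d - e) p (fun i => m i - e)
  let T : fatForms r d p m →ₗ[ℂ] MvPolynomial (Fin (r + 1)) ℂ :=
    ((dd (p i₀)) ^ e).comp (fatForms r d p m).subtype
  have hT : ∀ F : fatForms r d p m, T F = ((dd (p i₀)) ^ e) F.1 := fun _ => rfl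
  have h1 := LinearMap.finrank_range_add_finrank_ker T
  have h2 : Module.finrank ℂ (LinearMap.range T) ≤
      Module.finrank ℂ (fatForms r (d - e) p (fun i => m i - e)) := by
    apply Submodule.finrank_mono
    rintro _ ⟨F, rfl⟩
    rw [hT]
    exact ⟨iter_isHomogeneous _ e F.2.1, fun i => iter_vanishes _ _ e (F.2.2 i)⟩
  have h3 : Module.finrank ℂ (LinearMap.ker T) ≤
      Module.finrank ℂ (fatForms r d p (Function.update m i₀ (d + 1 - e))) := by
    rw [(Submodule.equivMapOfInjective _ (Submodule.subtype_injective (fatForms r d p m))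
      (LinearMap.ker T)).finrank_eq]
    apply Submodule.finrank_mono
    rintro _ ⟨F, hF, rfl⟩
    refine ⟨F.2.1, fun i => ?_⟩
    by_cases hi : i = i₀
    · subst hi
      rw [Function.update_self]
      exact vanishes_of_iter _ e F.2.1 he hF
    · rw [Function.update_of_ne hi]
      exact F.2.2 i
  omega

end Pool.Agent.H21.HD

end

section

/-!
Pairs with large multiplicities.
-/

namespace Pool.Agent.H21.HD

open MvPolynomial Pool.Agent.H18.Fat
open scoped Classical

namespace BridgeDX

open BridgeCX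

theorem range_toPoly' (n d : ℕ) :
    LinearMap.range (toPoly n d) = homogeneousSubmodule (Fin n) ℂ d := by
  ext F
  constructor
  · rintro ⟨f, rfl⟩
    exact toPoly_isHomogeneous f
  · intro hF
    exact ⟨_, exists_toPoly hF⟩

theorem finrank_homog' (r d : ℕ) :
    Module.finrank ℂ (homogeneousSubmodule (Fin (r + 1)) ℂ d) = (d + r).choose r := by
  rw [← range_toPoly', LinearMap.finrank_range_of_inj (toPoly_injective (r + 1) d),
    Module.finrank_fintype_fun_eq_card, Fintype.card_coe, card_mons]

end BridgeDX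

open BridgeCX BridgeDX

end Pool.Agent.H21.HD

end

section

/-!
# Module GenA: general points for finite index types

`Gen` is the analogue of `ForGeneralPoints` (file `H18/FatToric`: `ForGeneralPoints.mono`, `.and`,
`.coord_ne_zero`) for an arbitrary index type.
-/

namespace Pool.Agent.H21.NX

open Finset MvPolynomial Pool.Agent.H18.Fat

theorem Gen.mono {r : ℕ} {κ : Type} {P Q : (κ → Fin (r + 1) → ℂ) → Prop}
    (h : Gen r κ P) (hPQ : ∀ p, P p → Q p) : Gen r κ Q := by
  obtain ⟨G, hG, h⟩ := h
  exact ⟨G, hG, fun p hp => hPQ p (h p hp)⟩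

theorem Gen.and {r : ℕ} {κ : Type} {P Q : (κ → Fin (r + 1) → ℂ) → Prop}
    (h : Gen r κ P) (h' : Gen r κ Q) : Gen r κ fun p => P p ∧ Q p := by
  obtain ⟨G, hG, h⟩ := h
  obtain ⟨G', hG', h'⟩ := h'
  refine ⟨G * G', mul_ne_zero hG hG', fun p hp => ?_⟩
  rw [map_mul] at hp
  exact ⟨h p (left_ne_zero_of_mul hp), h' p (right_ne_zero_of_mul hp)⟩

/-- A nonzero polynomial over `ℂ` has a non-root (`MvPolynomial.funext`). -/
theorem Gen.exists {r : ℕ} {κ : Type} {P : (κ → Fin (r + 1) → ℂ) → Prop}
    (h : Gen r κ P) : ∃ p, P p := by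
  obtain ⟨G, hG, h⟩ := h
  by_contra hcon
  push Not at hcon
  apply hG
  apply MvPolynomial.funext
  intro x
  rw [map_zero]
  by_contra hx
  exact hcon (fun i j => x (i, j)) (h (fun i j => x (i, j)) hx)

theorem Gen.all {r : ℕ} {κ α : Type} (s : Finset α) {P : α → (κ → Fin (r + 1) → ℂ) → Prop}
    (h : ∀ a ∈ s, Gen r κ (P a)) : Gen r κ fun p => ∀ a ∈ s, P a p := by
  classical
  induction s using Finset.induction_on with
  | empty => exact ⟨1, one_ne_zero, fun p _ a ha => absurd ha (Finset.notMem_empty a)⟩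
  | insert a s has ih =>
    have h1 := h a (Finset.mem_insert_self a s)
    have h2 := ih fun b hb => h b (Finset.mem_insert_of_mem hb)
    refine (h1.and h2).mono fun p hp b hb => ?_
    rcases Finset.mem_insert.mp hb with rfl | hb
    · exact hp.1
    · exact hp.2 b hb

/-- Use `MvPolynomial.rename` with the injective map `(i, j) ↦ (φ i, j)`. -/
theorem Gen.comap {r : ℕ} {κ κ' : Type} (φ : κ' → κ) (hφ : Function.Injective φ)
    {P : (κ' → Fin (r + 1) → ℂ) → Prop} (h : Gen r κ' P) :
    Gen r κ fun p => P fun i => p (φ i) := by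
  obtain ⟨G, hG, h⟩ := h
  have hinj : Function.Injective (fun x : κ' × Fin (r + 1) => (φ x.1, x.2)) := by
    intro x y hxy
    have h1 := congrArg Prod.fst hxy
    have h2 := congrArg Prod.snd hxy
    exact Prod.ext (hφ h1) h2
  refine ⟨rename (fun x : κ' × Fin (r + 1) => (φ x.1, x.2)) G, ?_, fun p hp => ?_⟩
  · intro h0
    apply hG
    apply rename_injective _ hinj
    rw [h0, map_zero]
  · apply h
    rw [eval_rename] at hp
    exact hp

theorem Gen.coord_ne_zero (r : ℕ) (κ : Type) [Fintype κ] :
    Gen r κ fun p => ∀ i j, p i j ≠ 0 := by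
  refine ⟨∏ x : κ × Fin (r + 1), X x, ?_, fun p hp i j => ?_⟩
  · rw [Finset.prod_ne_zero_iff]
    intro x _
    exact X_ne_zero x
  · rw [map_prod, Finset.prod_ne_zero_iff] at hp
    have := hp (i, j) (Finset.mem_univ _)
    rwa [eval_X] at this

end Pool.Agent.H21.NX

end
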