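import Pool.Agent.H94.LP5.M02

/-! The parts of this file: H21.HD.FroA, H21.HD.FroAsymp. -/

section

/-!
Recursions for fro.
-/

namespace Pool.Agent.H21.HD

open scoped Classical

/-- Adding a point. -/
theorem fro_insert {P : Type} (r : ℕ) (e : P → ℕ) (I : Finset P) (i : P) (hi : i ∉ I) (j : ℕ) :
    fro r e (insert i I) j = fro r e I j - (if e i ≤ j then fro r e I (j - e i) else 0) := by
  unfold fro
  rw [Finset.sum_powerset_insert hi, sub_eq_add_neg]
  congr 1
  by_cases hij : e i ≤ j
  · rw [if_pos hij, ← Finset.sum_neg_distrib]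
    refine Finset.sum_congr rfl fun T hT => ?_
    have hiT : i ∉ T := fun h => hi (Finset.mem_powerset.1 hT h)
    rw [Finset.card_insert_of_notMem hiT, Finset.sum_insert hiT, pow_succ]
    by_cases h2 : ∑ x ∈ T, e x ≤ j - e i
    · have h3 : e i + ∑ x ∈ T, e x ≤ j := by omega
      rw [if_pos h2, if_pos h3]
      have h4 : r + j - (e i + ∑ x ∈ T, e x) = r + (j - e i) - ∑ x ∈ T, e x := by omega
      rw [h4]
      ring
    · have h3 : ¬ (e i + ∑ x ∈ T, e x ≤ j) := by omega
      rw [if_neg h2, if_neg h3]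
      ring
  · rw [if_neg hij, neg_zero]
    refine Finset.sum_eq_zero fun T hT => ?_
    have hiT : i ∉ T := fun h => hi (Finset.mem_powerset.1 hT h)
    rw [Finset.sum_insert hiT, if_neg (by omega), mul_zero]

namespace FroAX

theorem fro_empty {P : Type} (r : ℕ) (e : P → ℕ) (j : ℕ) :
    fro r e (∅ : Finset P) j = ((r + j).choose r : ℤ) := by
  simp [fro]

/-- Hockey stick. -/
theorem hockey (r j : ℕ) :
    ∑ t ∈ Finset.range j, ((r + (j - 1 - t)).choose r : ℤ) = ((r + j).choose (r + 1) : ℤ) := by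
  rw [Finset.sum_range_reflect (fun i => ((r + i).choose r : ℤ)) j]
  induction j with
  | zero => simp
  | succ n ih =>
    rw [Finset.sum_range_succ, ih]
    have := Nat.choose_succ_succ (r + n) r
    push_cast [← Nat.add_assoc] at this ⊢
    rw [Nat.succ_eq_add_one] at this
    rw [this]
    push_cast
    ring

theorem base (r j : ℕ) :
    (j : ℤ) * ((r + j).choose r : ℤ) = ((r : ℤ) + 1) *
      ∑ t ∈ Finset.range j, ((r + (j - 1 - t)).choose r : ℤ) := by
  rw [hockey]
  have h := Nat.choose_succ_right_eq (r + j) r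
  have h2 : r + j - r = j := by omega
  rw [h2] at h
  have h3 : (((r + j).choose (r + 1) * (r + 1) : ℕ) : ℤ) = (((r + j).choose r * j : ℕ) : ℤ) := by
    rw [h]
  push_cast at h3
  linarith

/-- Telescoping over the multiples of `c`. -/
theorem tele (c : ℕ) (hc : 1 ≤ c) (F : ℕ → ℤ) (j : ℕ) :
    ∑ t ∈ Finset.range j, (if c ∣ t + 1 then
      (F (j - 1 - t) - (if c ≤ j - 1 - t then F (j - 1 - t - c) else 0)) else 0) =
      if c ≤ j then F (j - c) else 0 := by
  induction j using Nat.strong_induction_on with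
  | _ j ih =>
    by_cases hcj : c ≤ j
    · obtain ⟨m, rfl⟩ := Nat.exists_eq_add_of_le hcj
      rw [if_pos hcj, Finset.sum_range_add]
      have h1 : ∑ x ∈ Finset.range c, (if c ∣ x + 1 then
          (F (c + m - 1 - x) - (if c ≤ c + m - 1 - x then F (c + m - 1 - x - c) else 0)) else 0)
          = F m - (if c ≤ m then F (m - c) else 0) := by
        rw [Finset.sum_eq_single (c - 1)]
        · have h2 : c - 1 + 1 = c := by omega
          have h3 : c + m - 1 - (c - 1) = m := by omega
          rw [h2, if_pos (dvd_refl c), h3]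
        · intro b hb hbc
          have hb' := Finset.mem_range.1 hb
          rw [if_neg]
          intro hd
          have := Nat.le_of_dvd (Nat.succ_pos b) hd
          omega
        · intro h
          exact absurd (Finset.mem_range.2 (by omega)) h
      rw [h1]
      have h4 : ∑ x ∈ Finset.range m, (if c ∣ c + x + 1 then
          (F (c + m - 1 - (c + x)) - (if c ≤ c + m - 1 - (c + x) then
            F (c + m - 1 - (c + x) - c) else 0)) else 0)
          = if c ≤ m then F (m - c) else 0 := by
        rw [← ih m (by omega)]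
        refine Finset.sum_congr rfl fun x hx => ?_
        have h5 : c + m - 1 - (c + x) = m - 1 - x := by omega
        have h6 : (c ∣ c + x + 1) ↔ (c ∣ x + 1) := by
          rw [Nat.add_assoc]
          exact Nat.dvd_add_right (dvd_refl c)
        rw [h5]
        simp only [h6]
      rw [h4]
      have h7 : c + m - c = m := by omega
      rw [h7]
      ring
    · rw [if_neg hcj]
      refine Finset.sum_eq_zero fun t ht => ?_
      have ht' := Finset.mem_range.1 ht
      rw [if_neg]
      intro hd
      have := Nat.le_of_dvd (Nat.succ_pos t) hd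
      omega

end FroAX

/-- The logarithmic derivative recursion. -/
theorem fro_rec {P : Type} (r : ℕ) (e : P → ℕ) (I : Finset P) (he : ∀ i ∈ I, 1 ≤ e i) (j : ℕ) :
    (j : ℤ) * fro r e I j = ∑ t ∈ Finset.range j,
      (((r : ℤ) + 1) - ∑ i ∈ I.filter (fun i => e i ∣ t + 1), (e i : ℤ)) *
        fro r e I (j - 1 - t) := by
  induction I using Finset.induction_on generalizing j with
  | empty =>
    simp only [FroAX.fro_empty, Finset.filter_empty, Finset.sum_empty, sub_zero]
    rw [FroAX.base, Finset.mul_sum]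
  | insert a s ha ih =>
    have he' : ∀ i ∈ s, 1 ≤ e i := fun i hi => he i (Finset.mem_insert_of_mem hi)
    have hea : 1 ≤ e a := he a (Finset.mem_insert_self a s)
    have ih' := ih he'
    set L : ℕ → ℤ := fun t => (((r : ℤ) + 1) - ∑ i ∈ s.filter (fun i => e i ∣ t + 1), (e i : ℤ))
      with hL
    have hfil : ∀ t, (((r : ℤ) + 1) - ∑ i ∈ (insert a s).filter (fun i => e i ∣ t + 1),
        (e i : ℤ)) = L t - (if e a ∣ t + 1 then (e a : ℤ) else 0) := by
      intro t
      rw [Finset.filter_insert]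
      by_cases hd : e a ∣ t + 1
      · rw [if_pos hd, if_pos hd, Finset.sum_insert]
        · simp only [hL]
          ring
        · intro h
          exact ha (Finset.mem_filter.1 h).1
      · rw [if_neg hd, if_neg hd, sub_zero]
    have hins : ∀ j, fro r e (insert a s) j =
        fro r e s j - (if e a ≤ j then fro r e s (j - e a) else 0) :=
      fun j => fro_insert r e s a ha j
    have hsum : ∑ t ∈ Finset.range j,
        (((r : ℤ) + 1) - ∑ i ∈ (insert a s).filter (fun i => e i ∣ t + 1), (e i : ℤ)) *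
          fro r e (insert a s) (j - 1 - t) =
        ∑ t ∈ Finset.range j, L t * fro r e s (j - 1 - t) -
        ∑ t ∈ Finset.range j, L t * (if e a ≤ j - 1 - t then fro r e s (j - 1 - t - e a) else 0) -
        (e a : ℤ) * ∑ t ∈ Finset.range j, (if e a ∣ t + 1 then
          (fro r e s (j - 1 - t) - (if e a ≤ j - 1 - t then fro r e s (j - 1 - t - e a) else 0))
            else 0) := by
      rw [Finset.mul_sum, ← Finset.sum_sub_distrib, ← Finset.sum_sub_distrib]
      refine Finset.sum_congr rfl fun t _ => ?_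
      rw [hfil, hins]
      by_cases hd : e a ∣ t + 1
      · rw [if_pos hd, if_pos hd]
        ring
      · rw [if_neg hd, if_neg hd]
        ring
    rw [hsum, FroAX.tele (e a) hea, ← ih' j, hins]
    have hmid : ∑ t ∈ Finset.range j,
        L t * (if e a ≤ j - 1 - t then fro r e s (j - 1 - t - e a) else 0) =
        if e a ≤ j then ((j - e a : ℕ) : ℤ) * fro r e s (j - e a) else 0 := by
      by_cases haj : e a ≤ j
      · rw [if_pos haj, ih' (j - e a)]
        obtain ⟨m, rfl⟩ := Nat.exists_eq_add_of_le haj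
        have h7 : e a + m - e a = m := by omega
        rw [h7, Nat.add_comm (e a) m, Finset.sum_range_add]
        have h8 : ∑ x ∈ Finset.range (e a), L (m + x) * (if e a ≤ m + e a - 1 - (m + x) then
            fro r e s (m + e a - 1 - (m + x) - e a) else 0) = 0 := by
          refine Finset.sum_eq_zero fun x hx => ?_
          rw [if_neg (by omega), mul_zero]
        rw [h8, add_zero]
        refine Finset.sum_congr rfl fun t ht => ?_
        have ht' := Finset.mem_range.1 ht
        have h9 : e a ≤ m + e a - 1 - t := by omega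
        have h10 : m + e a - 1 - t - e a = m - 1 - t := by omega
        rw [if_pos h9, h10]
      · rw [if_neg haj]
        refine Finset.sum_eq_zero fun t ht => ?_
        have ht' := Finset.mem_range.1 ht
        rw [if_neg (by omega), mul_zero]
    rw [hmid]
    by_cases haj : e a ≤ j
    · rw [if_pos haj, if_pos haj, Nat.cast_sub haj]
      ring
    · rw [if_neg haj, if_neg haj]
      ring

end Pool.Agent.H21.HD

end

section

/-!
Asymptotics of fro.
-/

namespace Pool.Agent.H21.HD

open scoped Classical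

namespace FroAsympX

/-- The limit coefficients. -/
noncomputable def lam (κ : ℕ → ℝ) (t : ℕ) : ℝ :=
  (if t = 0 then 1 else 0) - κ (t + 1) / (t.factorial : ℝ)

/-- The coefficients of the logarithmic derivative. -/
noncomputable def ell {P : Type} (r : ℕ) (e : P → ℕ) (I : Finset P) (t : ℕ) : ℝ :=
  (((r : ℝ) + 1) - ∑ i ∈ I.filter (fun i => e i ∣ t + 1), (e i : ℝ)) / ((r : ℝ) + 1) ^ (t + 1)

theorem phi_succ (κ : ℕ → ℝ) (j : ℕ) : phi κ (j + 1) =
    phi κ j - ∑ e ∈ Finset.range (j + 1), κ (e + 1) * (j.choose e : ℝ) * phi κ (j - e) := by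
  rw [phi, Finset.sum_range]

theorem psi_rec (κ : ℕ → ℝ) (j : ℕ) :
    ((j : ℝ) + 1) * (phi κ (j + 1) / ((j + 1).factorial : ℝ)) =
      ∑ t ∈ Finset.range (j + 1), lam κ t * (phi κ (j - t) / ((j - t).factorial : ℝ)) := by
  have hj : ((j.factorial : ℕ) : ℝ) ≠ 0 := Nat.cast_ne_zero.2 (Nat.factorial_ne_zero j)
  have hj1 : ((j : ℝ) + 1) ≠ 0 := by positivity
  have h1 : ((j : ℝ) + 1) * (phi κ (j + 1) / ((j + 1).factorial : ℝ)) =
      phi κ (j + 1) / (j.factorial : ℝ) := by
    rw [Nat.factorial_succ]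
    push_cast
    field_simp
  rw [h1, phi_succ, sub_div, Finset.sum_div]
  have h2 : ∀ t ∈ Finset.range (j + 1), lam κ t * (phi κ (j - t) / ((j - t).factorial : ℝ)) =
      (if t = 0 then phi κ j / (j.factorial : ℝ) else 0) -
        κ (t + 1) * (j.choose t : ℝ) * phi κ (j - t) / (j.factorial : ℝ) := by
    intro t ht
    have ht' : t ≤ j := Nat.lt_succ_iff.1 (Finset.mem_range.1 ht)
    have h3 := Nat.choose_mul_factorial_mul_factorial ht'
    have h4 : (j.choose t : ℝ) * (t.factorial : ℝ) * ((j - t).factorial : ℝ) =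
        (j.factorial : ℝ) := by exact_mod_cast h3
    have h5 : ((t.factorial : ℕ) : ℝ) ≠ 0 := Nat.cast_ne_zero.2 (Nat.factorial_ne_zero t)
    have h6 : (((j - t).factorial : ℕ) : ℝ) ≠ 0 :=
      Nat.cast_ne_zero.2 (Nat.factorial_ne_zero (j - t))
    unfold lam
    by_cases h0 : t = 0
    · subst h0
      simp
      ring
    · rw [if_neg h0, if_neg h0, zero_sub, zero_sub, ← h4]
      have h7 : (j.choose t : ℝ) ≠ 0 := by
        intro h
        rw [h, zero_mul, zero_mul] at h4
        exact hj h4.symm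
      field_simp
  rw [Finset.sum_congr rfl h2, Finset.sum_sub_distrib, Finset.sum_ite_eq']
  rw [if_pos (Finset.mem_range.2 (Nat.succ_pos j))]

theorem alpha_rec {P : Type} (r : ℕ) (e : P → ℕ) (I : Finset P) (he : ∀ i ∈ I, 1 ≤ e i) (j : ℕ) :
    ((j : ℝ) + 1) * ((fro r e I (j + 1) : ℝ) / ((r : ℝ) + 1) ^ (j + 1)) =
      ∑ t ∈ Finset.range (j + 1), ell r e I t *
        ((fro r e I (j - t) : ℝ) / ((r : ℝ) + 1) ^ (j - t)) := by
  have hn : ((r : ℝ) + 1) ≠ 0 := by positivity
  have h1 := fro_rec r e I he (j + 1)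
  have h2 : ((((j + 1 : ℕ) : ℤ) * fro r e I (j + 1) : ℤ) : ℝ) =
      ((∑ t ∈ Finset.range (j + 1),
      (((r : ℤ) + 1) - ∑ i ∈ I.filter (fun i => e i ∣ t + 1), (e i : ℤ)) *
        fro r e I (j + 1 - 1 - t) : ℤ) : ℝ) := by rw [h1]
  push_cast at h2
  rw [← mul_div_assoc, h2, Finset.sum_div]
  refine Finset.sum_congr rfl fun t ht => ?_
  have ht' : t ≤ j := Nat.lt_succ_iff.1 (Finset.mem_range.1 ht)
  unfold ell
  have h3 : ((r : ℝ) + 1) ^ (j + 1) = ((r : ℝ) + 1) ^ (t + 1) * ((r : ℝ) + 1) ^ (j - t) := by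
    rw [← pow_add]
    congr 1
    omega
  rw [h3, div_mul_div_comm]

theorem ell_sub_lam {P : Type} (r : ℕ) (e : P → ℕ) (I : Finset P) (t : ℕ) (C : ℝ) (hC : 0 ≤ C)
    (hload : ∀ i, 1 ≤ i → i ≤ t + 1 → load r e I i ≤ C) :
    |ell r e I t - lam (load r e I) t| ≤ (1 + ((t : ℝ) + 1) * C) / ((r : ℝ) + 1) := by
  have hn1 : (1 : ℝ) ≤ (r : ℝ) + 1 := by
    have : (0 : ℝ) ≤ (r : ℝ) := Nat.cast_nonneg r
    linarith
  have hn0 : (0 : ℝ) < (r : ℝ) + 1 := by linarith
  set n : ℝ := (r : ℝ) + 1 with hndef
  -- group the sum by the value of the exponent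
  have h1 : ∑ i ∈ I.filter (fun i => e i ∣ t + 1), (e i : ℝ) =
      ∑ d ∈ (t + 1).divisors, (d : ℝ) * ((I.filter (fun p => e p = d)).card : ℝ) := by
    rw [← Finset.sum_fiberwise_of_maps_to (s := I.filter (fun i => e i ∣ t + 1))
      (t := (t + 1).divisors) (g := e)]
    · refine Finset.sum_congr rfl fun d hd => ?_
      have hd' := Nat.dvd_of_mem_divisors hd
      have h2 : (I.filter (fun i => e i ∣ t + 1)).filter (fun i => e i = d) =
          I.filter (fun p => e p = d) := by
        ext p
        simp only [Finset.mem_filter]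
        constructor
        · rintro ⟨⟨h3, _⟩, h4⟩
          exact ⟨h3, h4⟩
        · rintro ⟨h3, h4⟩
          exact ⟨⟨h3, h4 ▸ hd'⟩, h4⟩
      rw [h2, Finset.sum_congr rfl (g := fun _ => (d : ℝ))]
      · rw [Finset.sum_const, nsmul_eq_mul, mul_comm]
      · intro p hp
        rw [(Finset.mem_filter.1 hp).2]
    · intro p hp
      exact Nat.mem_divisors.2 ⟨(Finset.mem_filter.1 hp).2, Nat.succ_ne_zero t⟩
  have hk : ∀ d : ℕ, ((I.filter (fun p => e p = d)).card : ℝ) =
      load r e I d * n ^ d / (d.factorial : ℝ) := by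
    intro d
    have h5 : ((d.factorial : ℕ) : ℝ) ≠ 0 := Nat.cast_ne_zero.2 (Nat.factorial_ne_zero d)
    unfold load
    rw [← hndef]
    field_simp
  have hload0 : ∀ d, 0 ≤ load r e I d := by
    intro d
    unfold load
    positivity
  have h6 : ∑ d ∈ (t + 1).divisors, (d : ℝ) * ((I.filter (fun p => e p = d)).card : ℝ) =
      (∑ d ∈ (t + 1).properDivisors, (d : ℝ) * ((I.filter (fun p => e p = d)).card : ℝ)) +
      ((t + 1 : ℕ) : ℝ) * ((I.filter (fun p => e p = t + 1)).card : ℝ) := by
    rw [← Nat.cons_self_properDivisors (Nat.succ_ne_zero t), Finset.sum_cons, add_comm]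
  have h7 : ((t + 1 : ℕ) : ℝ) * ((I.filter (fun p => e p = t + 1)).card : ℝ) / n ^ (t + 1) =
      load r e I (t + 1) / (t.factorial : ℝ) := by
    have h5 : ((t.factorial : ℕ) : ℝ) ≠ 0 := Nat.cast_ne_zero.2 (Nat.factorial_ne_zero t)
    have h8 : ((t : ℝ) + 1) ≠ 0 := by positivity
    rw [hk, Nat.factorial_succ]
    push_cast
    field_simp
  have h9 : ell r e I t - lam (load r e I) t =
      (n / n ^ (t + 1) - (if t = 0 then 1 else 0)) -
      (∑ d ∈ (t + 1).properDivisors, (d : ℝ) * ((I.filter (fun p => e p = d)).card : ℝ)) /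
        n ^ (t + 1) := by
    unfold ell lam
    rw [h1, h6, ← h7, ← hndef]
    ring
  rw [h9]
  have h10 : |n / n ^ (t + 1) - (if t = 0 then 1 else 0)| ≤ 1 / n := by
    by_cases h0 : t = 0
    · subst h0
      rw [if_pos rfl, zero_add, pow_one, div_self hn0.ne', sub_self, abs_zero]
      positivity
    · rw [if_neg h0, sub_zero, abs_of_nonneg (by positivity), div_le_div_iff₀ (by positivity) hn0,
        one_mul, ← pow_two]
      exact pow_le_pow_right₀ hn1 (by omega)
  have h11 : |(∑ d ∈ (t + 1).properDivisors,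
      (d : ℝ) * ((I.filter (fun p => e p = d)).card : ℝ)) / n ^ (t + 1)| ≤
      ((t : ℝ) + 1) * C / n := by
    rw [abs_of_nonneg (div_nonneg (Finset.sum_nonneg fun d _ => mul_nonneg (Nat.cast_nonneg _)
      (Nat.cast_nonneg _)) (pow_nonneg hn0.le _)), Finset.sum_div]
    have h12 : ∀ d ∈ (t + 1).properDivisors,
        (d : ℝ) * ((I.filter (fun p => e p = d)).card : ℝ) / n ^ (t + 1) ≤ C / n := by
      intro d hd
      have hd1 := Nat.mem_properDivisors.1 hd
      have hd2 : 1 ≤ d := Nat.pos_of_dvd_of_pos hd1.1 (Nat.succ_pos t)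
      have hl := hload d hd2 (by omega)
      have hl0 := hload0 d
      have h13 : (d : ℝ) ≤ (d.factorial : ℝ) := by exact_mod_cast Nat.self_le_factorial d
      have h14 : (0 : ℝ) < (d.factorial : ℝ) := by exact_mod_cast Nat.factorial_pos d
      rw [hk, div_le_div_iff₀ (by positivity) hn0]
      have h15 : n ^ d * n ≤ n ^ (t + 1) := by
        rw [← pow_succ]
        exact pow_le_pow_right₀ hn1 (by omega)
      calc (d : ℝ) * (load r e I d * n ^ d / (d.factorial : ℝ)) * n
          = ((d : ℝ) / (d.factorial : ℝ)) * (load r e I d * (n ^ d * n)) := by ring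
        _ ≤ 1 * (load r e I d * (n ^ d * n)) := by
          apply mul_le_mul_of_nonneg_right
          · rw [div_le_one h14]
            exact h13
          · positivity
        _ ≤ 1 * (C * n ^ (t + 1)) := by
          rw [one_mul, one_mul]
          exact mul_le_mul hl h15 (by positivity) hC
        _ = C * n ^ (t + 1) := one_mul _
    refine le_trans (Finset.sum_le_card_nsmul _ _ _ h12) ?_
    rw [nsmul_eq_mul, mul_div_assoc]
    apply mul_le_mul_of_nonneg_right
    · have h16 : ((t + 1).properDivisors).card ≤ t + 1 := by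
        have h17 : (t + 1).properDivisors ⊆ Finset.range (t + 1) := by
          intro d hd
          exact Finset.mem_range.2 (Nat.mem_properDivisors.1 hd).2
        calc _ ≤ (Finset.range (t + 1)).card := Finset.card_le_card h17
          _ = t + 1 := Finset.card_range _
      exact_mod_cast h16
    · positivity
  calc _ ≤ |n / n ^ (t + 1) - (if t = 0 then 1 else 0)| + |(∑ d ∈ (t + 1).properDivisors,
      (d : ℝ) * ((I.filter (fun p => e p = d)).card : ℝ)) / n ^ (t + 1)| := abs_sub _ _
    _ ≤ 1 / n + ((t : ℝ) + 1) * C / n := add_le_add h10 h11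
    _ = (1 + ((t : ℝ) + 1) * C) / n := by ring

theorem abs_lam_le {P : Type} (r : ℕ) (e : P → ℕ) (I : Finset P) (t : ℕ) (C : ℝ)
    (hload : load r e I (t + 1) ≤ C) : |lam (load r e I) t| ≤ 1 + C := by
  have h0 : 0 ≤ load r e I (t + 1) := by
    unfold load
    positivity
  have h1 : (1 : ℝ) ≤ (t.factorial : ℝ) := by exact_mod_cast Nat.factorial_pos t
  have h2 : load r e I (t + 1) / (t.factorial : ℝ) ≤ C :=
    le_trans (div_le_self h0 h1) hload
  have h3 : 0 ≤ load r e I (t + 1) / (t.factorial : ℝ) := by positivity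
  unfold lam
  refine le_trans (abs_sub _ _) (add_le_add ?_ ?_)
  · by_cases ht : t = 0
    · rw [if_pos ht, abs_one]
    · rw [if_neg ht, abs_zero]
      exact zero_le_one
  · rw [abs_of_nonneg h3]
    exact h2

theorem fro_zero {P : Type} (r : ℕ) (e : P → ℕ) (I : Finset P) (he : ∀ i ∈ I, 1 ≤ e i) :
    fro r e I 0 = 1 := by
  induction I using Finset.induction_on with
  | empty => simp [fro]
  | insert a s ha ih =>
    have h1 := he a (Finset.mem_insert_self a s)
    rw [fro_insert r e s a ha, ih fun i hi => he i (Finset.mem_insert_of_mem hi),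
      if_neg (by omega), sub_zero]

theorem main (j : ℕ) (C : ℝ) (hC : 0 ≤ C) : ∃ K : ℝ, 0 ≤ K ∧ ∀ r : ℕ,
    ∀ (P : Type) (e : P → ℕ) (I : Finset P), (∀ i ∈ I, 1 ≤ e i) →
    (∀ i, 1 ≤ i → i ≤ j → load r e I i ≤ C) → ∀ i ≤ j,
    |(fro r e I i : ℝ) / ((r : ℝ) + 1) ^ i - phi (load r e I) i / (i.factorial : ℝ)| ≤
      K / ((r : ℝ) + 1) ∧ |(fro r e I i : ℝ) / ((r : ℝ) + 1) ^ i| ≤ K ∧
      |phi (load r e I) i / (i.factorial : ℝ)| ≤ K := by
  induction j with
  | zero =>
    refine ⟨1, zero_le_one, fun r P e I he _ i hi => ?_⟩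
    have : i = 0 := by omega
    subst this
    rw [fro_zero r e I he, phi]
    have hn0 : (0 : ℝ) < (r : ℝ) + 1 := by positivity
    simp
    positivity
  | succ j ih =>
    obtain ⟨K, hK0, hK⟩ := ih
    refine ⟨K * (3 + ((j : ℝ) + 3) * C), by positivity, fun r P e I he hload i hi => ?_⟩
    have hKK : K ≤ K * (3 + ((j : ℝ) + 3) * C) := by
      apply le_mul_of_one_le_right hK0
      have : 0 ≤ ((j : ℝ) + 3) * C := by positivity
      linarith only [this]
    have hn0 : (0 : ℝ) < (r : ℝ) + 1 := by positivity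
    have hn1 : (1 : ℝ) ≤ (r : ℝ) + 1 := by
      have : (0 : ℝ) ≤ (r : ℝ) := Nat.cast_nonneg r
      linarith only
    have hK' := hK r P e I he fun i h1 h2 => hload i h1 (by omega)
    rcases Nat.lt_or_ge j i with hji | hji
    · have : i = j + 1 := by omega
      subst this
      have hj0 : (0 : ℝ) < (j : ℝ) + 1 := by positivity
      have hA := alpha_rec r e I he j
      have hB := psi_rec (load r e I) j
      set α : ℕ → ℝ := fun i => (fro r e I i : ℝ) / ((r : ℝ) + 1) ^ i with hα
      set ψ : ℕ → ℝ := fun i => phi (load r e I) i / (i.factorial : ℝ) with hψ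
      have hlam : ∀ t ∈ Finset.range (j + 1), |lam (load r e I) t| ≤ 1 + C := by
        intro t ht
        have ht' := Finset.mem_range.1 ht
        exact abs_lam_le r e I t C (hload (t + 1) (by omega) (by omega))
      have hell : ∀ t ∈ Finset.range (j + 1), |ell r e I t - lam (load r e I) t| ≤
          (1 + ((j : ℝ) + 1) * C) / ((r : ℝ) + 1) := by
        intro t ht
        have ht' := Finset.mem_range.1 ht
        refine le_trans (ell_sub_lam r e I t C hC fun i h1 h2 => hload i h1 (by omega)) ?_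
        apply div_le_div_of_nonneg_right _ hn0.le
        have : (t : ℝ) ≤ (j : ℝ) := by exact_mod_cast Nat.lt_succ_iff.1 ht'
        nlinarith only [hC, this]
      have h1 : |α (j + 1) - ψ (j + 1)| ≤ K * (2 + ((j : ℝ) + 2) * C) / ((r : ℝ) + 1) := by
        have h2 : ((j : ℝ) + 1) * (α (j + 1) - ψ (j + 1)) = ∑ t ∈ Finset.range (j + 1),
            ((ell r e I t - lam (load r e I) t) * α (j - t) +
              lam (load r e I) t * (α (j - t) - ψ (j - t))) := by
          rw [mul_sub]
          simp only [hα, hψ]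
          rw [hA, hB, ← Finset.sum_sub_distrib]
          refine Finset.sum_congr rfl fun t _ => ?_
          ring
        have h3 : |((j : ℝ) + 1) * (α (j + 1) - ψ (j + 1))| ≤
            ((j : ℝ) + 1) * (K * (2 + ((j : ℝ) + 2) * C) / ((r : ℝ) + 1)) := by
          rw [h2]
          refine le_trans (Finset.abs_sum_le_sum_abs _ _) ?_
          have h4 : ∀ t ∈ Finset.range (j + 1),
              |(ell r e I t - lam (load r e I) t) * α (j - t) +
              lam (load r e I) t * (α (j - t) - ψ (j - t))| ≤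
              K * (2 + ((j : ℝ) + 2) * C) / ((r : ℝ) + 1) := by
            intro t ht
            have ht' := Finset.mem_range.1 ht
            obtain ⟨h5, h6, _⟩ := hK' (j - t) (by omega)
            refine le_trans (abs_add_le _ _) ?_
            rw [abs_mul, abs_mul]
            calc _ ≤ (1 + ((j : ℝ) + 1) * C) / ((r : ℝ) + 1) * K +
                  (1 + C) * (K / ((r : ℝ) + 1)) :=
                  add_le_add (mul_le_mul (hell t ht) h6 (abs_nonneg _) (by positivity))
                    (mul_le_mul (hlam t ht) h5 (abs_nonneg _) (by positivity))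
              _ = K * (2 + ((j : ℝ) + 2) * C) / ((r : ℝ) + 1) := by ring
          refine le_trans (Finset.sum_le_card_nsmul _ _ _ h4) ?_
          rw [Finset.card_range, nsmul_eq_mul]
          push_cast
          exact le_rfl
        rw [abs_mul, abs_of_pos hj0] at h3
        exact le_of_mul_le_mul_left h3 hj0
      have h7 : |ψ (j + 1)| ≤ (1 + C) * K := by
        have h3 : |((j : ℝ) + 1) * ψ (j + 1)| ≤ ((j : ℝ) + 1) * ((1 + C) * K) := by
          simp only [hψ]
          rw [hB]
          refine le_trans (Finset.abs_sum_le_sum_abs _ _) ?_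
          have h4 : ∀ t ∈ Finset.range (j + 1), |lam (load r e I) t *
              (phi (load r e I) (j - t) / ((j - t).factorial : ℝ))| ≤ (1 + C) * K := by
            intro t ht
            have ht' := Finset.mem_range.1 ht
            obtain ⟨_, _, h6⟩ := hK' (j - t) (by omega)
            rw [abs_mul]
            exact mul_le_mul (hlam t ht) h6 (abs_nonneg _) (by positivity)
          refine le_trans (Finset.sum_le_card_nsmul _ _ _ h4) ?_
          rw [Finset.card_range, nsmul_eq_mul]
          push_cast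
          exact le_rfl
        rw [abs_mul, abs_of_pos hj0] at h3
        exact le_of_mul_le_mul_left h3 hj0
      have hX : 0 ≤ K * (2 + ((j : ℝ) + 2) * C) := by positivity
      have h8 : K * (2 + ((j : ℝ) + 2) * C) / ((r : ℝ) + 1) ≤ K * (2 + ((j : ℝ) + 2) * C) :=
        div_le_self hX hn1
      have h9 : |α (j + 1)| ≤ K * (2 + ((j : ℝ) + 2) * C) + (1 + C) * K := by
        have h10 : α (j + 1) = (α (j + 1) - ψ (j + 1)) + ψ (j + 1) := by ring
        rw [h10]
        exact le_trans (abs_add_le _ _) (add_le_add (le_trans h1 h8) h7)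
      have hKC : 0 ≤ K * C := mul_nonneg hK0 hC
      refine ⟨?_, ?_, ?_⟩
      · refine le_trans h1 ?_
        apply div_le_div_of_nonneg_right _ hn0.le
        nlinarith only [hK0, hKC]
      · refine le_trans h9 ?_
        nlinarith only
      · refine le_trans h7 ?_
        have : 0 ≤ K * C * (j : ℝ) := by positivity
        nlinarith only [hX]
    · obtain ⟨h1, h2, h3⟩ := hK' i hji
      exact ⟨le_trans h1 (div_le_div_of_nonneg_right hKK hn0.le), le_trans h2 hKK,
        le_trans h3 hKK⟩

theorem phi_load_empty {P : Type} (r : ℕ) (e : P → ℕ) (j : ℕ) :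
    phi (load r e (∅ : Finset P)) j = 1 := by
  induction j with
  | zero => rw [phi]
  | succ j ih =>
    rw [phi_succ, ih, Finset.sum_eq_zero, sub_zero]
    intro t _
    simp [load]

theorem pow_le_choose (r j : ℕ) :
    ((r : ℝ) + 1) ^ j ≤ (j.factorial : ℝ) * ((j + r).choose r : ℝ) := by
  have h1 := Nat.pow_succ_le_ascFactorial (r + 1) j
  rw [Nat.ascFactorial_eq_factorial_mul_choose] at h1
  have h2 : (r + j).choose j = (j + r).choose r := by
    rw [Nat.add_comm r j]
    exact Nat.choose_symm_add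
  rw [h2] at h1
  exact_mod_cast h1

end FroAsympX

/-- The asymptotic value of `fro`, uniformly for bounded loads. -/
theorem fro_asymp (j : ℕ) (C : ℝ) (η : ℝ) (hη : 0 < η) : ∃ r₀ : ℕ, ∀ r : ℕ, r₀ ≤ r →
    ∀ (P : Type) (e : P → ℕ) (I : Finset P), (∀ i ∈ I, 1 ≤ e i) →
    (∀ i, 1 ≤ i → i ≤ j → load r e I i ≤ C) →
    |(fro r e I j : ℝ) - phi (load r e I) j * ((j + r).choose r : ℝ)| ≤
      η * ((j + r).choose r : ℝ) := by
  obtain ⟨K, hK0, hK⟩ := FroAsympX.main j (max C 0) (le_max_right _ _)
  have hfac : (0 : ℝ) < (j.factorial : ℝ) := by exact_mod_cast Nat.factorial_pos j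
  obtain ⟨r₀, hr₀⟩ := exists_nat_ge
    ((j.factorial : ℝ) * (K + (j.factorial : ℝ) * K * K) / η)
  refine ⟨r₀, fun r hr P e I he hload => ?_⟩
  have hn0 : (0 : ℝ) < (r : ℝ) + 1 := by positivity
  obtain ⟨h1, _, h3⟩ := hK r P e I he
    (fun i ha hb => le_trans (hload i ha hb) (le_max_left _ _)) j le_rfl
  obtain ⟨h4, _, _⟩ := hK r P e (∅ : Finset P) (fun i hi => absurd hi (Finset.notMem_empty i))
    (fun i _ _ => by simp [load]) j le_rfl
  rw [FroAX.fro_empty, FroAsympX.phi_load_empty, Nat.add_comm r j] at h4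
  push_cast at h4
  set n : ℝ := (r : ℝ) + 1 with hn
  set cb : ℝ := ((j + r).choose r : ℝ) with hcb
  set φ : ℝ := phi (load r e I) j with hφ
  have hcb0 : 0 ≤ cb := Nat.cast_nonneg _
  have h5 : |φ| ≤ (j.factorial : ℝ) * K := by
    rw [abs_div, abs_of_pos hfac, div_le_iff₀ hfac] at h3
    linarith only [h3]
  have hnj : (0 : ℝ) < n ^ j := by positivity
  have h6 : (fro r e I j : ℝ) - φ * cb =
      n ^ j * (((fro r e I j : ℝ) / n ^ j - φ / (j.factorial : ℝ)) +
        φ * (1 / (j.factorial : ℝ) - cb / n ^ j)) := by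
    field_simp
    ring
  rw [h6, abs_mul, abs_of_pos hnj]
  have h7 : |((fro r e I j : ℝ) / n ^ j - φ / (j.factorial : ℝ)) +
        φ * (1 / (j.factorial : ℝ) - cb / n ^ j)| ≤ (K + (j.factorial : ℝ) * K * K) / n := by
    refine le_trans (abs_add_le _ _) ?_
    rw [abs_mul, abs_sub_comm (1 / (j.factorial : ℝ))]
    calc _ ≤ K / n + (j.factorial : ℝ) * K * (K / n) :=
          add_le_add h1 (mul_le_mul h5 h4 (abs_nonneg _) (by positivity))
      _ = (K + (j.factorial : ℝ) * K * K) / n := by ring
  have h8 := FroAsympX.pow_le_choose r j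
  rw [← hn, ← hcb] at h8
  have h9 : (j.factorial : ℝ) * (K + (j.factorial : ℝ) * K * K) ≤ η * n := by
    rw [div_le_iff₀ hη] at hr₀
    have h10 : (r₀ : ℝ) ≤ (r : ℝ) := by exact_mod_cast hr
    have h11 : (r₀ : ℝ) * η ≤ n * η := mul_le_mul_of_nonneg_right (by linarith only [h10]) hη.le
    linarith only [hr₀, h11]
  calc n ^ j * |((fro r e I j : ℝ) / n ^ j - φ / (j.factorial : ℝ)) +
        φ * (1 / (j.factorial : ℝ) - cb / n ^ j)|
      ≤ ((j.factorial : ℝ) * cb) * ((K + (j.factorial : ℝ) * K * K) / n) :=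
        mul_le_mul h8 h7 (abs_nonneg _) (by positivity)
    _ = ((j.factorial : ℝ) * (K + (j.factorial : ℝ) * K * K)) * cb / n := by ring
    _ ≤ (η * n) * cb / n := by
        apply div_le_div_of_nonneg_right _ hn0.le
        exact mul_le_mul_of_nonneg_right h9 hcb0
    _ = η * cb := by
        field_simp

end Pool.Agent.H21.HD

end
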