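import Pool.Agent.H94.LP5.M05
import Pool.Agent.H94.LP5.M21
import Pool.Agent.H94.LP5.M33
import Pool.Agent.H94.LP5.M34
import Pool.Agent.H94.LP5.M44

/-! The parts of this file: H18.FatLin_1, H18.FatToric_4, H21.HD.FroB, H21.HD.Inst, H51.TB.URank. -/

section

namespace Pool.Agent.H18.Fat

open MvPolynomial Finset

section

variable {ι : Type*} [Fintype ι]

/-- The matrix of the linear conditions imposed by the fat points. -/
noncomputable def condMat (r d : ℕ) (p : ι → Fin (r + 1) → ℂ) (m : ι → ℕ) :
    Matrix (Cond r m) (mons (r + 1) d) ℂ :=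
  fun x α => tc (p x.1) α.1 x.2.1

omit [Fintype ι] in
theorem toPoly_mem_fatForms {r d : ℕ} {p : ι → Fin (r + 1) → ℂ} (hp : ∀ i, p i 0 ≠ 0)
    (m : ι → ℕ) (f : mons (r + 1) d → ℂ) :
    toPoly (r + 1) d f ∈ fatForms r d p m ↔ (condMat r d p m).mulVec f = 0 := by
  constructor
  · intro h
    funext x
    have h1 := h.2 x.1 x.2.1 (mem_aff.1 x.2.2).2
    rw [coeff_shift_toPoly] at h1
    rw [Pi.zero_apply, ← h1]
    unfold Matrix.mulVec dotProduct condMat
    exact sum_congr rfl fun α _ => mul_comm _ _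
  · intro h
    refine ⟨toPoly_isHomogeneous f, fun i => ?_⟩
    apply vanishes_of_affine (hp i)
    intro β h0 hdeg
    have h1 := congrFun h ⟨i, β, mem_aff.2 ⟨h0, hdeg⟩⟩
    rw [coeff_shift_toPoly]
    rw [Pi.zero_apply] at h1
    rw [← h1]
    unfold Matrix.mulVec dotProduct condMat
    exact sum_congr rfl fun α _ => mul_comm _ _

theorem fatForms_eq_map {r d : ℕ} {p : ι → Fin (r + 1) → ℂ} (hp : ∀ i, p i 0 ≠ 0)
    (m : ι → ℕ) :
    fatForms r d p m = Submodule.map (toPoly (r + 1) d)
      (LinearMap.ker (condMat r d p m).mulVecLin) := by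
  ext F
  constructor
  · intro h
    refine ⟨fun α => coeff α.1 F, ?_, exists_toPoly h.1⟩
    rw [SetLike.mem_coe, LinearMap.mem_ker, Matrix.mulVecLin_apply]
    rw [← toPoly_mem_fatForms hp, exists_toPoly h.1]
    exact h
  · rintro ⟨f, hf, rfl⟩
    rw [SetLike.mem_coe, LinearMap.mem_ker, Matrix.mulVecLin_apply] at hf
    exact (toPoly_mem_fatForms hp m f).2 hf

theorem finrank_fatForms_eq {r d : ℕ} {p : ι → Fin (r + 1) → ℂ} (hp : ∀ i, p i 0 ≠ 0)
    (m : ι → ℕ) :
    Module.finrank ℂ (fatForms r d p m) =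
      Module.finrank ℂ (LinearMap.ker (condMat r d p m).mulVecLin) := by
  rw [fatForms_eq_map hp]
  exact (Submodule.equivMapOfInjective _ (toPoly_injective _ _) _).finrank_eq.symm

theorem rank_add_finrank {r d : ℕ} {p : ι → Fin (r + 1) → ℂ} (hp : ∀ i, p i 0 ≠ 0)
    (m : ι → ℕ) :
    Module.finrank ℂ (LinearMap.range (condMat r d p m).mulVecLin) +
      Module.finrank ℂ (fatForms r d p m) = (d + r).choose r := by
  rw [finrank_fatForms_eq hp, LinearMap.finrank_range_add_finrank_ker, Module.finrank_fintype_fun_eq_card,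
    Fintype.card_coe, card_mons]

theorem finrank_range_le {r : ℕ} (d : ℕ) (hr : 1 ≤ r) (p : ι → Fin (r + 1) → ℂ) (m : ι → ℕ) :
    Module.finrank ℂ (LinearMap.range (condMat r d p m).mulVecLin) ≤
      ∑ i, (m i + r - 1).choose r := by
  rw [← card_cond hr m, ← Module.finrank_fintype_fun_eq_card (R := ℂ)]
  exact Submodule.finrank_le _

/-- Every fat point scheme imposes at most its length many conditions. -/
theorem finrank_fatForms_ge {r d : ℕ} (hr : 1 ≤ r) {p : ι → Fin (r + 1) → ℂ}
    (hp : ∀ i, p i 0 ≠ 0) (m : ι → ℕ) :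
    ((d + r).choose r : ℤ) - ∑ i, ((m i + r - 1).choose r : ℤ) ≤
      Module.finrank ℂ (fatForms r d p m) := by
  have h1 := rank_add_finrank (d := d) hp m
  have h2 := finrank_range_le d hr p m
  have h3 : ((∑ i, (m i + r - 1).choose r : ℕ) : ℤ) = ∑ i, ((m i + r - 1).choose r : ℤ) := by
    push_cast
    rfl
  rw [← h3]
  omega

end

end Pool.Agent.H18.Fat

end

section

namespace Pool.Agent.H18.Fat

open MvPolynomial Finset

/-! ### General points -/

theorem ForGeneralPoints.mono {r k : ℕ} {P Q : (Fin k → Fin (r + 1) → ℂ) → Prop}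
    (h : ForGeneralPoints r k P) (hPQ : ∀ p, P p → Q p) : ForGeneralPoints r k Q := by
  obtain ⟨G, hG, hG'⟩ := h
  exact ⟨G, hG, fun p hp => hPQ p (hG' p hp)⟩

theorem ForGeneralPoints.and {r k : ℕ} {P Q : (Fin k → Fin (r + 1) → ℂ) → Prop}
    (h : ForGeneralPoints r k P) (h' : ForGeneralPoints r k Q) :
    ForGeneralPoints r k fun p => P p ∧ Q p := by
  obtain ⟨G, hG, hG'⟩ := h
  obtain ⟨H, hH, hH'⟩ := h'
  refine ⟨G * H, mul_ne_zero hG hH, fun p hp => ?_⟩
  rw [map_mul] at hp
  exact ⟨hG' p (left_ne_zero_of_mul hp), hH' p (right_ne_zero_of_mul hp)⟩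

theorem ForGeneralPoints.coord_ne_zero (r k : ℕ) :
    ForGeneralPoints r k fun p => ∀ i j, p i j ≠ 0 := by
  classical
  refine ⟨∏ x : Fin k × Fin (r + 1), X x, ?_, ?_⟩
  · exact prod_ne_zero_iff.2 fun x _ => X_ne_zero x
  · intro p hp i j
    rw [map_prod] at hp
    have := prod_ne_zero_iff.1 hp (i, j) (mem_univ _)
    simpa using this

/-! ### Semicontinuity of the dimension -/

/-! ### Further points impose at most their length -/

/-! ### Linear changes of coordinates -/

/-! ### Coordinate points -/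

/-- Order of vanishing at a coordinate point. -/
theorem vanishes_coord_iff {n d m : ℕ} (f : mons n d → ℂ) (i : Fin n) :
    VanishesToOrder (toPoly n d f) (Pi.single i 1) m ↔
      ∀ α : mons n d, f α ≠ 0 → α.1 i + m ≤ d := by
  classical
  -- Taylor coefficients at the coordinate point
  have htc : ∀ α β : Fin n →₀ ℕ, tc (Pi.single i 1) α β =
      if ∀ j, j ≠ i → α j = β j then ((α i).choose (β i) : ℂ) else 0 := by
    intro α β
    split_ifs with h
    · unfold tc
      rw [← mul_prod_erase univ _ (mem_univ i)]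
      have h1 : ∏ x ∈ univ.erase i, (((α x).choose (β x) : ℂ) *
          (Pi.single i 1 : Fin n → ℂ) x ^ (α x - β x)) = 1 := by
        refine prod_eq_one fun x hx => ?_
        rw [h x (ne_of_mem_erase hx)]
        simp
      rw [h1]
      simp
    · push Not at h
      obtain ⟨j, hji, hj⟩ := h
      unfold tc
      apply prod_eq_zero (mem_univ j)
      rcases lt_or_gt_of_ne hj with h | h
      · rw [Nat.choose_eq_zero_of_lt h]
        simp
      · rw [Pi.single_eq_of_ne hji, zero_pow (by omega), mul_zero]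
  constructor
  · intro h α hα
    by_contra hlt
    push Not at hlt
    -- test with `β = α.erase i`
    have hdeg : (α.1.erase i).degree + α.1 i = d := by
      have h1 := mem_mons.1 α.2
      rw [Finsupp.degree_eq_sum] at h1 ⊢
      rw [← add_sum_erase univ _ (mem_univ i)] at h1 ⊢
      rw [Finsupp.erase_same, zero_add]
      have h2 : ∑ x ∈ univ.erase i, (α.1.erase i) x = ∑ x ∈ univ.erase i, α.1 x :=
        sum_congr rfl fun x hx => Finsupp.erase_ne (ne_of_mem_erase hx)
      rw [h2]
      omega
    have h3 := h (α.1.erase i) (by omega)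
    rw [coeff_shift_toPoly, sum_eq_single α] at h3
    · rw [htc, if_pos (fun j hj => (Finsupp.erase_ne hj).symm), Finsupp.erase_same,
        Nat.choose_zero_right, Nat.cast_one, mul_one] at h3
      exact hα h3
    · intro γ _ hγ
      rw [htc, if_neg, mul_zero]
      intro hall
      apply hγ
      apply Subtype.ext
      ext j
      have hj' : ∀ j, j ≠ i → γ.1 j = α.1 j := fun j hj => by
        rw [hall j hj, Finsupp.erase_ne hj]
      by_cases hj : j = i
      · subst hj
        have h4 := mem_mons.1 α.2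
        have h5 := mem_mons.1 γ.2
        rw [Finsupp.degree_eq_sum, ← add_sum_erase univ _ (mem_univ j)] at h4 h5
        have h6 : ∑ x ∈ univ.erase j, γ.1 x = ∑ x ∈ univ.erase j, α.1 x :=
          sum_congr rfl fun x hx => hj' x (ne_of_mem_erase hx)
        omega
      · exact hj' j hj
    · intro h4
      exact absurd (mem_univ _) h4
  · intro h β hβ
    rw [coeff_shift_toPoly]
    refine sum_eq_zero fun α _ => ?_
    by_cases hf : f α = 0
    · rw [hf, zero_mul]
    · rw [htc, if_neg, mul_zero]
      intro hall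
      have h1 := h α hf
      have h4 := mem_mons.1 α.2
      rw [Finsupp.degree_eq_sum, ← add_sum_erase univ _ (mem_univ i)] at h4 hβ
      have h6 : ∑ x ∈ univ.erase i, α.1 x = ∑ x ∈ univ.erase i, β x :=
        sum_congr rfl fun x hx => hall x (ne_of_mem_erase hx)
      omega

end Pool.Agent.H18.Fat

end

section

/-!
Further lemmas on `fro`.
-/

namespace Pool.Agent.H21.HD

open scoped Classical

lemma fro_zero {P : Type} (r : ℕ) (e : P → ℕ) (I : Finset P) (he : ∀ i ∈ I, 1 ≤ e i) :
    fro r e I 0 = 1 := by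
  unfold fro
  rw [Finset.sum_eq_single ∅]
  · simp
  · intro T hT hne
    obtain ⟨i, hi⟩ := Finset.nonempty_iff_ne_empty.2 hne
    rw [if_neg, mul_zero]
    have h2 : e i ≤ ∑ i ∈ T, e i := Finset.single_le_sum (fun _ _ => Nat.zero_le _) hi
    have h3 := he i (Finset.mem_powerset.1 hT hi)
    omega
  · intro h2
    exact absurd (Finset.empty_mem_powerset I) h2

lemma fro_map {P R : Type} (r : ℕ) (f : P ↪ R) (e : R → ℕ) (I : Finset P) (j : ℕ) :
    fro r e (I.map f) j = fro r (fun p => e (f p)) I j := by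
  induction I using Finset.induction_on generalizing j with
  | empty => simp [fro]
  | insert a s ha ih =>
    rw [Finset.map_insert, fro_insert r e _ _ (by simpa using ha), fro_insert r _ s a ha, ih]
    simp only [ih]

/-- Adding simple points. -/
lemma fro_simple {P : Type} (r d : ℕ) (e : P → ℕ) (I S : Finset P) (hd : Disjoint I S)
    (he : ∀ i ∈ I, 1 ≤ e i) (hd1 : 1 ≤ d) (hS : ∀ i ∈ S, e i = d) :
    fro r e (I ∪ S) d = fro r e I d - S.card := by
  induction S using Finset.induction_on with
  | empty => simp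
  | insert a s ha ih =>
    have h1 : a ∉ I := fun h => (Finset.disjoint_left.1 hd h) (Finset.mem_insert_self a s)
    have h2 : a ∉ I ∪ s := by
      rw [Finset.mem_union]
      tauto
    have h3 : Disjoint I s := hd.mono_right (Finset.subset_insert a s)
    have h4 : ∀ i ∈ s, e i = d := fun i hi => hS i (Finset.mem_insert_of_mem hi)
    rw [Finset.union_insert, fro_insert r e _ a h2, ih h3 h4, hS a (Finset.mem_insert_self a s),
      if_pos le_rfl, Nat.sub_self, fro_zero, Finset.card_insert_of_notMem ha]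
    · push_cast
      ring
    · intro i hi
      rcases Finset.mem_union.1 hi with h5 | h5
      · exact he i h5
      · rw [h4 i h5]
        exact hd1

/-- Points with large exponents do not contribute. -/
lemma fro_union_large {P : Type} (r j : ℕ) (e : P → ℕ) (I S : Finset P) (hd : Disjoint I S)
    (hS : ∀ i ∈ S, j < e i) : fro r e (I ∪ S) j = fro r e I j := by
  induction S using Finset.induction_on with
  | empty => simp
  | insert a s ha ih =>
    have h1 : a ∉ I := fun h => (Finset.disjoint_left.1 hd h) (Finset.mem_insert_self a s)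
    have h2 : a ∉ I ∪ s := by
      rw [Finset.mem_union]
      tauto
    rw [Finset.union_insert, fro_insert r e _ a h2, ih (hd.mono_right (Finset.subset_insert a s))
      fun i hi => hS i (Finset.mem_insert_of_mem hi), if_neg, sub_zero]
    have := hS a (Finset.mem_insert_self a s)
    omega

end Pool.Agent.H21.HD

end

section

/-!
Project HD: versions of some lemmas for arbitrary decidability instances.
-/

namespace Pool.Agent.H21.HD

open MvPolynomial Pool.Agent.H18.Fat

theorem fro_insert' {P : Type} [DecidableEq P] (r : ℕ) (e : P → ℕ) (I : Finset P) (i : P)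
    (hi : i ∉ I) (j : ℕ) :
    fro r e (insert i I) j = fro r e I j - (if e i ≤ j then fro r e I (j - e i) else 0) := by
  have h0 : ∀ D : DecidableEq P, @insert P (Finset P) (@Finset.instInsert P D) i I =
      Finset.cons i I hi := fun D => (Finset.cons_eq_insert i I hi).symm
  have h := fro_insert r e I i hi j
  rw [h0] at h ⊢
  exact h

theorem fro_simple' {P : Type} [DecidableEq P] (r d : ℕ) (e : P → ℕ) (I S : Finset P)
    (hd : Disjoint I S) (he : ∀ i ∈ I, 1 ≤ e i) (hd1 : 1 ≤ d) (hS : ∀ i ∈ S, e i = d) :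
    fro r e (I ∪ S) d = fro r e I d - S.card := by
  have h0 : ∀ D : DecidableEq P, @Union.union (Finset P) (@Finset.instUnion P D) I S =
      Finset.disjUnion I S hd := fun D => (Finset.disjUnion_eq_union I S hd).symm
  have h := fro_simple r d e I S hd he hd1 hS
  rw [h0] at h ⊢
  exact h

theorem finrank_fat_le_add' {r : ℕ} {ι : Type} [Fintype ι] [E : DecidableEq ι] (d : ℕ)
    (p : ι → Fin (r + 1) → ℂ) (m : ι → ℕ) (i₀ : ι) (e : ℕ) (he : e ≤ d) (hi₀ : m i₀ = 0) :
    Module.finrank ℂ (fatForms r d p m) ≤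
      Module.finrank ℂ (fatForms r d p (Function.update m i₀ (d + 1 - e))) +
        Module.finrank ℂ (fatForms r (d - e) p (fun i => m i - e)) := by
  have h := finrank_fat_le_add (r := r) d p m i₀ e he hi₀
  have h1 : ∀ D : DecidableEq ι, @Function.update ι (fun _ => ℕ) D m i₀ (d + 1 - e) =
      @Function.update ι (fun _ => ℕ) E m i₀ (d + 1 - e) := by
    intro D
    funext i
    by_cases hi : i = i₀
    · subst hi
      exact (@Function.update_self ι (fun _ => ℕ) D i (d + 1 - e) m).trans
        (@Function.update_self ι (fun _ => ℕ) E i (d + 1 - e) m).symm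
    · exact (@Function.update_of_ne ι (fun _ => ℕ) D i i₀ hi (d + 1 - e) m).trans
        (@Function.update_of_ne ι (fun _ => ℕ) E i i₀ hi (d + 1 - e) m).symm
  rw [h1] at h
  exact h

end Pool.Agent.H21.HD

end

section

/-!
# Module U5 (TB2): membership, domination and sizes for `ASys`

As `LBas.mem_LV`, `LBas.dom_of_subset` and `LRank` (delivered, complete; the proofs can be copied).  For
`le_size_U` use the position `q` with `q = 1` at an `X`-variable `≠ o` and at the first
`Y`-variable: the exponent determined by `β` (zero at these two variables, bidegree `g ∈ Λ`) has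
`α_o = β_o ≤ g.1 ≤ e`, so it is in `Bu a b d j o e`.
-/

namespace Pool.Agent.H51.TB

open Finset MvPolynomial Pool.Agent.H18.Ex Pool.Agent.H21.NX Pool.Agent.H18.Ta

private theorem URank_eval {a b : ℕ} (q : Z a b → ℂ) (α β : Z a b → ℕ) :
    eval q (tcr (fun i => (X i : MvPolynomial (Z a b) ℂ)) α β) = tcr q α β := by
  unfold tcr
  rw [map_prod]
  refine prod_congr rfl fun i _ => ?_
  rw [map_mul, map_natCast, map_pow, eval_X]

theorem mem_AV {a b : ℕ} (A : Finset (Z a b → ℕ)) {κ : Type} (m : κ → Finset (ℕ × ℕ))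
    (p : κ → Z a b → ℂ) (f : {α // α ∈ A} → ℂ) :
    f ∈ (ASys A).V m p ↔ ∀ i (β : Z a b → ℕ), (xd β, yd β) ∈ m i →
      ∑ α : {α // α ∈ A}, tcr (p i) α.1 β * f α = 0 := by
  rw [Sys.mem_V]
  constructor
  · intro h i β hβ
    have h1 := h i ⟨β, hβ⟩
    refine Eq.trans (sum_congr rfl fun α _ => ?_) h1
    rw [← URank_eval (p i) α.1 β]
    rfl
  · intro h i r
    have h1 := h i r.1 r.2
    refine Eq.trans (sum_congr rfl fun α _ => ?_) h1
    rw [← URank_eval (p i) α.1 r.1]
    rfl

theorem dom_A {a b : ℕ} (A : Finset (Z a b → ℕ)) {Λ Λ' : Finset (ℕ × ℕ)} (h : Λ ⊆ Λ') :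
    (ASys A).Dom Λ' Λ := by
  intro q f hf
  rw [mem_AV] at hf ⊢
  exact fun i β hβ => hf i β (h hβ)

private theorem URank_card_Sx {ι : Type} [Fintype ι] [DecidableEq ι] (n : ℕ) :
    (Sx ι n).card = Nat.multichoose (Fintype.card ι) n := by
  rw [← card_univ, ← card_finsuppAntidiag_nat_eq_multichoose]
  symm
  apply card_bij (fun (α : ι →₀ ℕ) _ => (⇑α : ι → ℕ))
  · intro α hα
    rw [mem_finsuppAntidiag] at hα
    exact mem_Sx.2 hα.1
  · intro α _ β _ h
    exact DFunLike.coe_injective h
  · intro f hf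
    refine ⟨Finsupp.equivFunOnFinite.symm f, ?_, rfl⟩
    rw [mem_finsuppAntidiag]
    exact ⟨mem_Sx.1 hf, subset_univ _⟩

theorem size_le_A {a b : ℕ} (ha : 1 ≤ a) (A : Finset (Z a b → ℕ)) (Λ : Finset (ℕ × ℕ)) (t : ℕ)
    (hΛ : ∀ g ∈ Λ, g.1 + g.2 < t) : (ASys A).size Λ ≤ ell (a + b) t := by
  obtain ⟨p, hp⟩ := gd_attained (ASys A) (fun _ : Unit => Λ)
  have : Finite {β : Z a b → ℕ // (xd β, yd β) ∈ Λ} := finite_idx a b Λ
  letI : Fintype {β : Z a b → ℕ // (xd β, yd β) ∈ Λ} := Fintype.ofFinite _
  -- the number of conditions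
  have hcard : Fintype.card {β : Z a b → ℕ // (xd β, yd β) ∈ Λ} ≤ ell (a + b) t := by
    rcases Nat.eq_zero_or_pos t with rfl | ht
    · have : IsEmpty {β : Z a b → ℕ // (xd β, yd β) ∈ Λ} := ⟨fun β => by
        have := hΛ _ β.2
        omega⟩
      rw [Fintype.card_eq_zero]
      exact Nat.zero_le _
    · have hsum : ∀ β : Z a b → ℕ, ∑ z, β z = xd β + yd β := fun β => Fintype.sum_sum_type β
      let ψ : {β : Z a b → ℕ // (xd β, yd β) ∈ Λ} → {x // x ∈ Sx (Option (Z a b)) (t - 1)} := fun β =>
        ⟨fun o => o.elim (t - 1 - ∑ z, β.1 z) β.1, by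
          rw [mem_Sx, Fintype.sum_option]
          have h1 := hΛ _ β.2
          have h2 := hsum β.1
          simp only [Option.elim_none, Option.elim_some]
          omega⟩
      have hψ : Function.Injective ψ := by
        intro β γ h
        apply Subtype.ext
        funext z
        have h1 := congrArg Subtype.val h
        exact congrFun h1 (some z)
      have h1 := Fintype.card_le_of_injective ψ hψ
      rw [Fintype.card_coe, URank_card_Sx, Fintype.card_option, Fintype.card_sum, Fintype.card_fin, Fintype.card_fin,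
        Nat.multichoose_eq] at h1
      refine h1.trans (le_of_eq ?_)
      unfold ell
      have h2 : a + b + 1 + (t - 1) - 1 = (a + b) + (t - 1) := by omega
      have h3 : t + (a + b) - 1 = (a + b) + (t - 1) := by omega
      rw [h2, h3]
      exact (Nat.choose_symm_add (a := a + b) (b := t - 1)).symm
  -- the linear map
  let L : ({α // α ∈ A} → ℂ) →ₗ[ℂ] ({β : Z a b → ℕ // (xd β, yd β) ∈ Λ} → ℂ) :=
    { toFun := fun f β => ∑ α : {α // α ∈ A}, tcr (p ()) α.1 β.1 * f α
      map_add' := by
        intro f g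
        funext β
        simp only [Pi.add_apply, mul_add, sum_add_distrib]
      map_smul' := by
        intro c f
        funext β
        simp only [Pi.smul_apply, smul_eq_mul, RingHom.id_apply, mul_sum]
        exact sum_congr rfl fun α _ => by ring }
  have hker : LinearMap.ker L = (ASys A).V (fun _ : Unit => Λ) p := by
    ext f
    rw [LinearMap.mem_ker, mem_AV]
    constructor
    · intro h i β hβ
      exact congrFun h ⟨β, hβ⟩
    · intro h
      funext β
      exact h () β.1 β.2
  have hrn := LinearMap.finrank_range_add_finrank_ker L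
  rw [hker, hp, Module.finrank_fintype_fun_eq_card] at hrn
  have hr : Module.finrank ℂ (LinearMap.range L) ≤ Fintype.card {β : Z a b → ℕ // (xd β, yd β) ∈ Λ} := by
    have := Submodule.finrank_le (LinearMap.range L)
    rwa [Module.finrank_fintype_fun_eq_card] at this
  unfold Sys.size
  omega

/-- the special variables -/
private def URank_sp {a b : ℕ} (c : Fin a) (c' : Fin b) : Z a b → Prop
  | Sum.inl i => i = c
  | Sum.inr i => i = c'

private instance {a b : ℕ} (c : Fin a) (c' : Fin b) : DecidablePred (URank_sp c c') := fun z => by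
  rcases z with i | i <;> unfold URank_sp <;> infer_instance

/-- the special position -/
private noncomputable def URank_q {a b : ℕ} (c : Fin a) (c' : Fin b) (z : Z a b) : ℂ :=
  if URank_sp c c' z then 1 else 0

/-- `α` with the special coordinates removed -/
private def URank_red {a b : ℕ} (c : Fin a) (c' : Fin b) (α : Z a b → ℕ) (z : Z a b) : ℕ :=
  if URank_sp c c' z then 0 else α z

private theorem URank_sp_inl {a b : ℕ} (c : Fin a) (c' : Fin b) : URank_sp c c' (Sum.inl c) := rfl

private theorem URank_sp_inr {a b : ℕ} (c : Fin a) (c' : Fin b) : URank_sp c c' (Sum.inr c') := rfl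

private theorem URank_nsp_inl {a b : ℕ} (c : Fin a) (c' : Fin b) {i : Fin a} (h : i ≠ c) :
    ¬ URank_sp c c' (Sum.inl i) := h

private theorem URank_nsp_inr {a b : ℕ} (c : Fin a) (c' : Fin b) {i : Fin b} (h : i ≠ c') :
    ¬ URank_sp c c' (Sum.inr i) := h

private theorem URank_xd' {a b : ℕ} (c : Fin a) (α : Z a b → ℕ) :
    xd α = α (Sum.inl c) + ∑ i : {i // i ≠ c}, α (Sum.inl i.1) := by
  unfold xd
  exact Fintype.sum_eq_add_sum_subtype_ne (fun i => α (Sum.inl i)) c

private theorem URank_yd' {a b : ℕ} (c' : Fin b) (α : Z a b → ℕ) :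
    yd α = α (Sum.inr c') + ∑ i : {i // i ≠ c'}, α (Sum.inr i.1) := by
  unfold yd
  exact Fintype.sum_eq_add_sum_subtype_ne (fun i => α (Sum.inr i)) c'

private theorem URank_xd_red {a b : ℕ} (c : Fin a) (c' : Fin b) (α : Z a b → ℕ) :
    xd (URank_red c c' α) = ∑ i : {i // i ≠ c}, α (Sum.inl i.1) := by
  rw [URank_xd' c]
  have h0 : URank_red c c' α (Sum.inl c) = 0 := by
    unfold URank_red
    rw [if_pos (URank_sp_inl c c')]
  rw [h0, Nat.zero_add]
  refine sum_congr rfl fun i _ => ?_
  unfold URank_red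
  rw [if_neg (URank_nsp_inl c c' i.2)]

private theorem URank_yd_red {a b : ℕ} (c : Fin a) (c' : Fin b) (α : Z a b → ℕ) :
    yd (URank_red c c' α) = ∑ i : {i // i ≠ c'}, α (Sum.inr i.1) := by
  rw [URank_yd' c']
  have h0 : URank_red c c' α (Sum.inr c') = 0 := by
    unfold URank_red
    rw [if_pos (URank_sp_inr c c')]
  rw [h0, Nat.zero_add]
  refine sum_congr rfl fun i _ => ?_
  unfold URank_red
  rw [if_neg (URank_nsp_inr c c' i.2)]

private theorem URank_xd {a b : ℕ} (c : Fin a) (c' : Fin b) (α : Z a b → ℕ) :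
    xd α = α (Sum.inl c) + xd (URank_red c c' α) := by
  rw [URank_xd_red, URank_xd' c]

private theorem URank_yd {a b : ℕ} (c : Fin a) (c' : Fin b) (α : Z a b → ℕ) :
    yd α = α (Sum.inr c') + yd (URank_red c c' α) := by
  rw [URank_yd_red, URank_yd' c']

private theorem URank_eq {a b d j : ℕ} (c : Fin a) (c' : Fin b) {α α' : Z a b → ℕ}
    (h : α ∈ Bx a b d j) (h' : α' ∈ Bx a b d j) (hr : URank_red c c' α = URank_red c c' α') :
    α = α' := by
  rw [mem_Bx] at h h'
  have hx := URank_xd c c' α
  have hx' := URank_xd c c' α'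
  have hy := URank_yd c c' α
  have hy' := URank_yd c c' α'
  rw [hr] at hx hy
  funext z
  by_cases hz : URank_sp c c' z
  · rcases z with i | i
    · have : i = c := hz
      subst this
      omega
    · have : i = c' := hz
      subst this
      omega
  · have := congrFun hr z
    unfold URank_red at this
    rwa [if_neg hz, if_neg hz] at this

private theorem URank_tcr {a b : ℕ} (c : Fin a) (c' : Fin b) (α β : Z a b → ℕ) :
    tcr (URank_q c c') α (URank_red c c' β) =
      if URank_red c c' α = URank_red c c' β then 1 else 0 := by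
  unfold tcr
  split_ifs with h
  · apply prod_eq_one
    intro z _
    have h1 := congrFun h z
    unfold URank_q
    by_cases hz : URank_sp c c' z
    · have h2 : URank_red c c' β z = 0 := by
        unfold URank_red
        rw [if_pos hz]
      rw [if_pos hz, h2]
      simp
    · have h2 : URank_red c c' α z = α z := by
        unfold URank_red
        rw [if_neg hz]
      rw [if_neg hz, ← h1, h2]
      simp
  · have h1 : ∃ z, URank_red c c' α z ≠ URank_red c c' β z := by
      by_contra hc
      push Not at hc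
      exact h (funext hc)
    obtain ⟨z, hz⟩ := h1
    apply prod_eq_zero (mem_univ z)
    have hsp : ¬ URank_sp c c' z := by
      intro hs
      apply hz
      unfold URank_red
      rw [if_pos hs, if_pos hs]
    have h2 : URank_red c c' α z = α z := by
      unfold URank_red
      rw [if_neg hsp]
    rw [h2] at hz
    unfold URank_q
    rw [if_neg hsp]
    rcases Nat.lt_or_gt_of_ne hz with h3 | h3
    · rw [Nat.choose_eq_zero_of_lt h3]
      simp
    · rw [zero_pow (by omega), mul_zero]

/-- the exponents whose coefficients vanish -/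
private def URank_T {a b : ℕ} (d j : ℕ) (o : Fin a) (e : ℕ) (c : Fin a) (c' : Fin b)
    (Λ : Finset (ℕ × ℕ)) : Finset (Z a b → ℕ) :=
  (Bu a b d j o e).filter fun α => (xd (URank_red c c' α), yd (URank_red c c' α)) ∈ Λ

/-- the exponent with given coordinates off the special variables -/
private def URank_ext {a b : ℕ} (c : Fin a) (c' : Fin b) (s s' : ℕ)
    (w : ({i : Fin a // i ≠ c} → ℕ) × ({i : Fin b // i ≠ c'} → ℕ)) : Z a b → ℕ
  | Sum.inl i => if h : i = c then s else w.1 ⟨i, h⟩
  | Sum.inr i => if h : i = c' then s' else w.2 ⟨i, h⟩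

private theorem URank_ext_inl {a b : ℕ} (c : Fin a) (c' : Fin b) (s s' : ℕ)
    (w : ({i : Fin a // i ≠ c} → ℕ) × ({i : Fin b // i ≠ c'} → ℕ)) (i : {i : Fin a // i ≠ c}) :
    URank_ext c c' s s' w (Sum.inl i.1) = w.1 i := by
  unfold URank_ext
  simp only
  rw [dif_neg i.2]

private theorem URank_ext_inr {a b : ℕ} (c : Fin a) (c' : Fin b) (s s' : ℕ)
    (w : ({i : Fin a // i ≠ c} → ℕ) × ({i : Fin b // i ≠ c'} → ℕ)) (i : {i : Fin b // i ≠ c'}) :
    URank_ext c c' s s' w (Sum.inr i.1) = w.2 i := by
  unfold URank_ext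
  simp only
  rw [dif_neg i.2]

private theorem URank_card_fib {a b d j : ℕ} (hj : j ≤ d) (o : Fin a) (e : ℕ) (c : Fin a)
    (c' : Fin b) (hoc : o ≠ c) (g : ℕ × ℕ) (hg : j + g.1 ≤ d ∧ g.2 ≤ j ∧ g.1 ≤ e) :
    Eg a b g ≤ ((Bu a b d j o e).filter fun α =>
      (xd (URank_red c c' α), yd (URank_red c c' α)) = g).card := by
  have h1 := URank_card_Sx (ι := {i : Fin a // i ≠ c}) g.1
  have h2 := URank_card_Sx (ι := {i : Fin b // i ≠ c'}) g.2
  have h3 : Fintype.card {i : Fin a // i ≠ c} = a - 1 := by
    rw [Fintype.card_subtype_compl, Fintype.card_fin, Fintype.card_unique]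
  have h4 : Fintype.card {i : Fin b // i ≠ c'} = b - 1 := by
    rw [Fintype.card_subtype_compl, Fintype.card_fin, Fintype.card_unique]
  rw [h3] at h1
  rw [h4] at h2
  unfold Eg
  rw [← h1, ← h2, ← card_product]
  apply card_le_card_of_injOn (URank_ext c c' (d - j - g.1) (j - g.2))
  · intro w hw
    rw [Finset.mem_coe, mem_product, mem_Sx, mem_Sx] at hw
    rw [Finset.mem_coe, mem_filter]
    have e1 : xd (URank_red c c' (URank_ext c c' (d - j - g.1) (j - g.2) w)) = g.1 := by
      rw [URank_xd_red, ← hw.1]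
      exact sum_congr rfl fun i _ => URank_ext_inl c c' _ _ w i
    have e2 : yd (URank_red c c' (URank_ext c c' (d - j - g.1) (j - g.2) w)) = g.2 := by
      rw [URank_yd_red, ← hw.2]
      exact sum_congr rfl fun i _ => URank_ext_inr c c' _ _ w i
    have e3 : URank_ext c c' (d - j - g.1) (j - g.2) w (Sum.inl c) = d - j - g.1 := by
      unfold URank_ext
      simp
    have e4 : URank_ext c c' (d - j - g.1) (j - g.2) w (Sum.inr c') = j - g.2 := by
      unfold URank_ext
      simp
    have e5 : URank_ext c c' (d - j - g.1) (j - g.2) w (Sum.inl o) ≤ g.1 := by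
      rw [URank_ext_inl c c' _ _ w ⟨o, hoc⟩, ← hw.1]
      exact single_le_sum (f := w.1) (fun i _ => Nat.zero_le _) (mem_univ _)
    have hx := URank_xd c c' (URank_ext c c' (d - j - g.1) (j - g.2) w)
    have hy := URank_yd c c' (URank_ext c c' (d - j - g.1) (j - g.2) w)
    rw [e1, e3] at hx
    rw [e2, e4] at hy
    refine ⟨?_, by rw [e1, e2]⟩
    unfold Bu
    rw [mem_filter, mem_Bx]
    exact ⟨⟨by omega, by omega⟩, by omega⟩
  · intro w _ w' _ h
    ext i
    · have := congrFun h (Sum.inl i.1)
      rwa [URank_ext_inl, URank_ext_inl] at this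
    · have := congrFun h (Sum.inr i.1)
      rwa [URank_ext_inr, URank_ext_inr] at this

private theorem URank_card_T {a b d j : ℕ} (hj : j ≤ d) (o : Fin a) (e : ℕ) (c : Fin a)
    (c' : Fin b) (hoc : o ≠ c) (Λ : Finset (ℕ × ℕ))
    (hΛ : ∀ g ∈ Λ, j + g.1 ≤ d ∧ g.2 ≤ j ∧ g.1 ≤ e) :
    ∑ g ∈ Λ, Eg a b g ≤ (URank_T d j o e c c' Λ).card := by
  have h1 : (URank_T d j o e c c' Λ).card =
      ∑ g ∈ Λ, ((URank_T d j o e c c' Λ).filter fun α =>
        (xd (URank_red c c' α), yd (URank_red c c' α)) = g).card := by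
    apply card_eq_sum_card_fiberwise
    intro α hα
    unfold URank_T at hα
    rw [Finset.mem_coe, mem_filter] at hα
    exact hα.2
  rw [h1]
  refine sum_le_sum fun g hg => ?_
  refine (URank_card_fib hj o e c c' hoc g (hΛ g hg)).trans (card_le_card ?_)
  intro α hα
  rw [mem_filter] at hα
  unfold URank_T
  rw [mem_filter, mem_filter]
  exact ⟨⟨hα.1, by rw [hα.2]; exact hg⟩, hα.2⟩

theorem le_size_U {a b d j : ℕ} (ha : 2 ≤ a) (hb : 1 ≤ b) (hj : j ≤ d) (o : Fin a) (e : ℕ)
    (Λ : Finset (ℕ × ℕ)) (hΛ : ∀ g ∈ Λ, j + g.1 ≤ d ∧ g.2 ≤ j ∧ g.1 ≤ e) :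
    ∑ g ∈ Λ, Eg a b g ≤ (ASys (Bu a b d j o e)).size Λ := by
  obtain ⟨c, hoc⟩ : ∃ c : Fin a, o ≠ c := by
    haveI : Nontrivial (Fin a) := Fin.nontrivial_iff_two_le.mpr ha
    obtain ⟨c, hc⟩ := exists_ne o
    exact ⟨c, hc.symm⟩
  let c' : Fin b := ⟨0, by omega⟩
  refine (URank_card_T hj o e c c' hoc Λ hΛ).trans ?_
  let T : Finset {α // α ∈ Bu a b d j o e} := univ.filter fun α => α.1 ∈ URank_T d j o e c c' Λ
  have hT : T.card = (URank_T d j o e c c' Λ).card := by
    apply card_bij (fun (α : {α // α ∈ Bu a b d j o e}) _ => α.1)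
    · intro α hα
      exact (mem_filter.1 hα).2
    · intro α _ β _ h
      exact Subtype.ext h
    · intro α hα
      have h1 : α ∈ Bu a b d j o e := by
        unfold URank_T at hα
        exact (mem_filter.1 hα).1
      exact ⟨⟨α, h1⟩, mem_filter.2 ⟨mem_univ _, hα⟩, rfl⟩
  have hBx : ∀ α : {α // α ∈ Bu a b d j o e}, α.1 ∈ Bx a b d j := by
    intro α
    have h1 := α.2
    unfold Bu at h1
    exact (mem_filter.1 h1).1
  -- the solutions vanish on `T`
  have hvan : ∀ f ∈ (ASys (Bu a b d j o e)).V (fun _ : Unit => Λ) (fun _ => URank_q c c'),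
      ∀ α ∈ T, f α = 0 := by
    intro f hf α hα
    rw [mem_AV] at hf
    have hα' : (xd (URank_red c c' α.1), yd (URank_red c c' α.1)) ∈ Λ := by
      have := (mem_filter.1 hα).2
      unfold URank_T at this
      exact (mem_filter.1 this).2
    have h1 := hf () (URank_red c c' α.1) hα'
    rw [sum_eq_single α] at h1
    · rw [URank_tcr, if_pos rfl, one_mul] at h1
      exact h1
    · intro β _ hβ
      rw [URank_tcr, if_neg, zero_mul]
      intro h
      exact hβ (Subtype.ext (URank_eq c c' (hBx β) (hBx α) h))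
    · intro h
      exact absurd (mem_univ α) h
  have hfin : Module.finrank ℂ ((ASys (Bu a b d j o e)).V (fun _ : Unit => Λ)
      (fun _ => URank_q c c')) ≤ Fintype.card {α // α ∈ Bu a b d j o e} - T.card := by
    let φ : (ASys (Bu a b d j o e)).V (fun _ : Unit => Λ) (fun _ => URank_q c c') →ₗ[ℂ]
        ({α // α ∉ T} → ℂ) :=
      (LinearMap.funLeft ℂ ℂ (fun α : {α // α ∉ T} => α.1)).comp (Submodule.subtype _)
    have hφ : Function.Injective φ := by
      rw [← LinearMap.ker_eq_bot, LinearMap.ker_eq_bot']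
      intro f hf
      apply Subtype.ext
      funext α
      by_cases hα : α ∈ T
      · exact hvan f.1 f.2 α hα
      · exact congrFun hf ⟨α, hα⟩
    have h1 := LinearMap.finrank_le_finrank_of_injective hφ
    rw [Module.finrank_fintype_fun_eq_card] at h1
    have h2 : Fintype.card {α // α ∉ T} = Fintype.card {α // α ∈ Bu a b d j o e} - T.card := by
      rw [Fintype.card_subtype_compl, Fintype.card_coe, Fintype.card_coe]
    rw [h2] at h1
    exact h1
  have hgd := gd_le (ASys (Bu a b d j o e)) (fun _ : Unit => Λ) (fun _ => URank_q c c')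
  have hc : T.card ≤ Fintype.card {α // α ∈ Bu a b d j o e} := card_le_univ T
  unfold Sys.size
  omega

end Pool.Agent.H51.TB

end
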