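import Pool.Agent.H94.LP5.M04
import Pool.Agent.H94.LP5.M08
import Pool.Agent.H94.LP5.M31
import Pool.Agent.H94.LP5.M36
import Pool.Agent.H94.LP5.M45

/-! The parts of this file: H21.HD.BridgeD_1, H21.NX.KillMu, H21.NX.Final, H21.NX.MaxGM, H21.NX.NumB, H21.NX.UNum, H21.NX.URun, V7.Bridge, V7.CritA. -/

section

/-!
Pairs with large multiplicities.
-/

namespace Pool.Agent.H21.HD

open MvPolynomial Pool.Agent.H18.Fat
open scoped Classical

namespace BridgeDX

open BridgeCX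

theorem finite_homog' (n d : ℕ) :
    Module.Finite ℂ (homogeneousSubmodule (Fin n) ℂ d) := by
  rw [← range_toPoly']
  infer_instance

/-- A fat point imposes at least one condition. -/
theorem finrank_fat_lt {r d : ℕ} {ι : Type*} (p : ι → Fin (r + 1) → ℂ) (m : ι → ℕ) (i : ι)
    (hi : 1 ≤ m i) (hp : p i 0 ≠ 0) :
    Module.finrank ℂ (fatForms r d p m) < (d + r).choose r := by
  have hfin := finite_homog' (r + 1) d
  rw [← finrank_homog' r d]
  apply Submodule.finrank_lt_finrank_of_lt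
  refine lt_of_le_of_ne (fun F hF => hF.1) ?_
  intro heq
  have h1 : (X 0 ^ d : MvPolynomial (Fin (r + 1)) ℂ) ∈ homogeneousSubmodule (Fin (r + 1)) ℂ d := by
    rw [mem_homogeneousSubmodule]
    simpa using (isHomogeneous_X ℂ (0 : Fin (r + 1))).pow d
  rw [← heq] at h1
  have h2 := h1.2 i 0 (by
    rw [map_zero]
    omega)
  have h3 : coeff 0 (shift (p i) (X 0 ^ d)) = p i 0 ^ d := by
    unfold shift
    rw [map_pow, aeval_X, ← constantCoeff_eq, map_pow]
    simp
  rw [h3] at h2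
  exact pow_ne_zero d hp h2

end BridgeDX

open BridgeCX BridgeDX

/-- If two multiplicities have sum at least `d + 2` and there is a nonzero form, then the
conditions are not maximal. -/
theorem not_maximal_of_pair {r k : ℕ} (hr : 1 ≤ r) (d : ℕ) (p : Fin k → Fin (r + 1) → ℂ)
    (hp : ∀ i, p i 0 ≠ 0) (m : Fin k → ℕ) (hm : ∀ i, 1 ≤ m i ∧ m i ≤ d) (i j : Fin k) (hij : i ≠ j)
    (h : d + 2 ≤ m i + m j) (hpos : 0 < Module.finrank ℂ (fatForms r d p m)) :
    ¬ ImposesMaximalConditions r d p m := by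
  intro hmax
  unfold ImposesMaximalConditions at hmax
  have hmi := hm i
  have hmj := hm j
  have hzero : (0 + r - 1).choose r = 0 := Nat.choose_eq_zero_of_lt (by omega)
  set len : ℕ → ℕ := fun a => (a + r - 1).choose r with hlen
  have hlen0 : len 0 = 0 := hzero
  have hlen' : ∀ a, (a + r - 1).choose r = len a := fun _ => rfl
  let mi : Fin k → ℕ := fun l => if l = i then m l else 0
  let mij : Fin k → ℕ := fun l => if l = i ∨ l = j then m l else 0
  let n : Fin k → ℕ := fun l => if l = i ∨ l = j then 0 else m l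
  -- the single point
  have h1 : ((d + r).choose r : ℤ) - (len (m i) : ℤ) ≤ Module.finrank ℂ (fatForms r d p mi) := by
    have h := finrank_fatForms_ge (d := d) hr hp mi
    have h2 : ∑ l, ((mi l + r - 1).choose r : ℤ) = (len (m i) : ℤ) := by
      rw [Finset.sum_eq_single i]
      · simp [mi, hlen]
      · intro l _ hl
        have : mi l = 0 := if_neg hl
        rw [this]
        exact_mod_cast hzero
      · intro hi
        exact absurd (Finset.mem_univ _) hi
    rwa [h2] at h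
  -- adding the second point
  have h2 : Module.finrank ℂ (fatForms r d p mi) <
      Module.finrank ℂ (fatForms r d p mij) + len (m j) := by
    have h3 := finrank_fat_le_add d p mi j (d + 1 - m j) (by omega) (if_neg (Ne.symm hij))
    have h4 : ∀ inst : DecidableEq (Fin k),
        @Function.update (Fin k) (fun _ => ℕ) inst mi j (d + 1 - (d + 1 - m j)) = mij := by
      intro inst
      funext l
      by_cases hl : l = j
      · subst hl
        rw [Function.update_self]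
        have : mij l = m l := if_pos (Or.inr rfl)
        rw [this]
        omega
      · rw [Function.update_of_ne hl]
        by_cases hli : l = i
        · simp [mi, mij, hli]
        · simp [mi, mij, hli, hl]
    rw [h4] at h3
    have h5 := finrank_fat_lt (d := d - (d + 1 - m j)) p (fun l => mi l - (d + 1 - m j)) i
      (by
        have : mi i = m i := if_pos rfl
        change 1 ≤ mi i - (d + 1 - m j)
        rw [this]
        omega) (hp i)
    have h6 : d - (d + 1 - m j) + r = m j + r - 1 := by omega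
    rw [h6, hlen' (m j)] at h5
    omega
  -- the other points
  have h3 : Module.finrank ℂ (fatForms r d p mij) ≤
      Module.finrank ℂ (fatForms r d p m) + ∑ l, len (n l) := by
    have h4 := finrank_add_length_ge (d := d) hr p mij p hp n
    have hfin := finite_fat (d := d) p m
    have h5 : Module.finrank ℂ (fatForms r d (Sum.elim p p) (Sum.elim mij n)) ≤
        Module.finrank ℂ (fatForms r d p m) := by
      apply Submodule.finrank_mono
      intro F hF
      refine ⟨hF.1, fun l => ?_⟩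
      by_cases hl : l = i ∨ l = j
      · have h6 := hF.2 (Sum.inl l)
        simp only [Sum.elim_inl] at h6
        have h7 : mij l = m l := if_pos hl
        rwa [h7] at h6
      · have h6 := hF.2 (Sum.inr l)
        simp only [Sum.elim_inr] at h6
        have h7 : n l = m l := if_neg hl
        rwa [h7] at h6
    exact h4.trans (Nat.add_le_add_right h5 _)
  -- the sum of the lengths
  have h4 : ∑ l, len (m l) = ∑ l, len (n l) + len (m i) + len (m j) := by
    have h5 : ∀ l, len (m l) = len (n l) + (if l = i then len (m i) else 0) +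
        (if l = j then len (m j) else 0) := by
      intro l
      by_cases hl : l = i
      · subst hl
        have h7 : n l = 0 := if_pos (Or.inl rfl)
        rw [h7, hlen0, if_pos rfl, if_neg hij]
        omega
      · by_cases hl' : l = j
        · subst hl'
          have h7 : n l = 0 := if_pos (Or.inr rfl)
          rw [h7, hlen0, if_pos rfl, if_neg hl]
          omega
        · have h7 : n l = m l := if_neg (by tauto)
          rw [h7, if_neg hl, if_neg hl']
          omega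
    rw [Finset.sum_congr rfl fun l _ => h5 l, Finset.sum_add_distrib, Finset.sum_add_distrib]
    simp
  have h5 : ∑ l, ((m l + r - 1).choose r : ℤ) = ((∑ l, len (m l) : ℕ) : ℤ) := by
    push_cast
    rfl
  rw [h5, h4] at hmax
  generalize ∑ l, len (n l) = S at hmax h3
  have h6 : (0 : ℤ) < (Module.finrank ℂ (fatForms r d p m) : ℤ) := by exact_mod_cast hpos
  rcases le_total (0 : ℤ) (((d + r).choose r : ℤ) -
      ((S + len (m i) + len (m j) : ℕ) : ℤ)) with h7 | h7
  · rw [max_eq_right h7] at hmax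
    push_cast at hmax h1
    omega
  · rw [max_eq_left h7] at hmax
    omega

end Pool.Agent.H21.HD

end

section

/-!
# Module KillMu: many general points of multiplicity `μ` kill everything

Proof.  Let `e = σ + 1 - μ`.  The forms of degree `e` are spanned by the powers `lin v ^ e`
(`PowSpanLX.span_all`), a space of dimension `ell (s + 1) (e + 1) = (Sx _ e).card ≤ f`; so there
are `f` vectors `p i` such that the `lin (p i) ^ e` span all forms of degree `e`
(a spanning set contains a basis, e.g. `Submodule.exists_fun_fin_finrank_span_eq` or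
`exists_linearIndependent`; the remaining `p i` are arbitrary).  Then every monomial of degree `σ`
is a product of a form of degree `μ - 1` and a form of degree `e`, so
`homogeneousSubmodule _ ℂ σ ≤ powSpan σ p (fun _ => σ + 1 - μ)`, and `fat_eq_bot_of_span`
(H21/HD/BridgeB) gives `finrank (fatForms ..) = 0`; `GI_of_fat`, `GM_iff`.
-/

namespace Pool.Agent.H21.NX

open Finset Pool.Agent.H18.Ex

open MvPolynomial Pool.Agent.H21.HD in
/-- There are `f` vectors whose powers generate all forms of degree `σ`. -/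
private theorem killMu_points (s e σ f : ℕ) (he : e ≤ σ)
    (hf : (s + 1 + e).choose e ≤ f) :
    ∃ p : Fin f → Fin (s + 2) → ℂ,
      homogeneousSubmodule (Fin (s + 2)) ℂ σ ≤ powSpan σ p (fun _ => e) := by
  obtain ⟨w, hw⟩ := pow_span (Fin (s + 2)) e
  have hcard : (Fintype.card (Fin (s + 2)) - 1 + e).choose e ≤ f := by
    rw [Fintype.card_fin, show s + 2 - 1 = s + 1 by omega]
    exact hf
  refine ⟨fun i => if hi : (i : ℕ) < (Fintype.card (Fin (s + 2)) - 1 + e).choose e then w ⟨i, hi⟩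
    else 0, ?_⟩
  apply powSpan_up e σ he
  refine hw.trans ?_
  rw [Submodule.span_le]
  rintro _ ⟨k, rfl⟩
  refine Submodule.subset_span ⟨⟨k, lt_of_lt_of_le k.2 hcard⟩, 1, le_refl _, ?_, ?_⟩
  · rw [Nat.sub_self]
    exact isHomogeneous_one _ _
  · show lin (w k) ^ e = 1 * lin (dite ((k : ℕ) < _) _ _) ^ e
    rw [dif_pos k.2, one_mul]

theorem kill_mu (s μ σ f : ℕ) (hμ : 1 ≤ μ) (h : μ ≤ σ + 1)
    (hf : ell (s + 1) (σ + 2 - μ) ≤ f) :
    GM (Sx (Fin (s + 2)) σ) (Multiset.replicate f (Kind.free μ)) := by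
  have hf' : (s + 1 + (σ + 1 - μ)).choose (σ + 1 - μ) ≤ f := by
    refine le_trans (le_of_eq ?_) hf
    unfold ell
    rw [show σ + 2 - μ + (s + 1) - 1 = s + 1 + (σ + 1 - μ) by omega]
    exact Nat.choose_symm_of_eq_add (by omega)
  obtain ⟨p, hp⟩ := killMu_points s (σ + 1 - μ) σ f (by omega) hf'
  have h1 := Pool.Agent.H21.HD.fat_eq_bot_of_span (r := s + 1) σ p (fun _ => μ) hp
  have h2 := GI_of_fat (n := s + 1) (d := σ) p (fun _ => μ) h1
  have h3 := (GM_iff (Sx (Fin (s + 2)) σ) (fun _ : Fin f => Kind.free μ)).mpr h2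
  rw [Multiset.map_const', Finset.card_val, Finset.card_univ, Fintype.card_fin] at h3
  exact h3

end Pool.Agent.H21.NX

end

section

/-!
# Module Final: exactness in high dimension
-/

namespace Pool.Agent.H21.NX

open Finset Pool.Agent.H18.Fat Pool.Agent.H18.Ex

theorem ell_eq_choose (r d : ℕ) : ell r (d + 1) = (d + r).choose r := by
  unfold ell
  rw [show d + 1 + r - 1 = d + r by omega]

/-- The multiplicities together with simple points up to the expected number of conditions. -/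
def aug (r d : ℕ) {k : ℕ} (m : Fin k → ℕ) : Multiset ℕ :=
  (univ : Finset (Fin k)).val.map m +
    Multiset.replicate ((d + r).choose r - ∑ i, ell r (m i)) 1

theorem aug_map (r d : ℕ) {k : ℕ} (m : Fin k → ℕ) :
    (aug r d m).map (Kind.free (ι := Fin (r + 1))) =
      ((univ : Finset (Fin k)).val.map fun i => Kind.free (m i)) +
      Multiset.replicate ((d + r).choose r - ∑ i, ell r (m i)) (Kind.free 1) := by
  unfold aug
  rw [Multiset.map_add, Multiset.map_map, Multiset.map_replicate]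
  rfl

theorem le_tot_aug (r d : ℕ) {k : ℕ} (m : Fin k → ℕ) :
    ell r (d + 1) ≤ tot r (aug r d m) := by
  unfold aug
  rw [tot_add, tot_replicate, ell_one, mul_one, ell_eq_choose]
  have : tot r ((univ : Finset (Fin k)).val.map m) = ∑ i, ell r (m i) := by
    unfold tot
    rw [Multiset.map_map]
    rfl
  omega

theorem mem_aug {r d k : ℕ} {m : Fin k → ℕ} {M : ℕ} (hM : 1 ≤ M) (h : ∀ i, m i ≤ M) :
    ∀ x ∈ aug r d m, x ≤ M := by
  intro x hx
  rcases Multiset.mem_add.1 hx with hx | hx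
  · obtain ⟨i, -, rfl⟩ := Multiset.mem_map.1 hx
    exact h i
  · rw [Multiset.eq_of_mem_replicate hx]
    exact hM

theorem count_le_aug (r d : ℕ) {k : ℕ} (m : Fin k → ℕ) (μ : ℕ) :
    (univ.filter fun i => m i = μ).card ≤ (aug r d m).count μ := by
  unfold aug
  rw [Multiset.count_add]
  refine le_trans (le_of_eq ?_) (Nat.le_add_right _ _)
  rw [Multiset.count_map, ← Finset.filter_val, Finset.card_def]
  congr 2
  exact Finset.filter_congr fun x _ => eq_comm

/-- Pigeonhole. -/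
theorem exists_count (n M X : ℕ) (S : Multiset ℕ) (hn : 1 ≤ n) (hS : ∀ m ∈ S, m ≤ M)
    (hM : M * X < tot n S) : ∃ μ, 1 ≤ μ ∧ μ ≤ M ∧ X ≤ S.count μ * ell n μ := by
  by_contra hcon
  push Not at hcon
  have h1 : tot n S = ∑ μ ∈ Finset.range (M + 1), S.count μ * ell n μ := by
    unfold tot
    have h2 := Finset.sum_multiset_map_count S (ell n)
    rw [h2]
    rw [Finset.sum_subset (s₂ := Finset.range (M + 1))]
    · exact Finset.sum_congr rfl fun x _ => by rw [smul_eq_mul]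
    · intro x hx
      rw [Finset.mem_range, Nat.lt_succ_iff]
      exact hS x (Multiset.mem_toFinset.1 hx)
    · intro x _ hx
      rw [Multiset.count_eq_zero_of_notMem (fun h => hx (Multiset.mem_toFinset.2 h)), zero_smul]
  rw [Finset.sum_range_succ', ell_zero hn, mul_zero, add_zero] at h1
  have h3 : ∑ μ ∈ Finset.range M, S.count (μ + 1) * ell n (μ + 1) ≤
      ∑ μ ∈ Finset.range M, X := by
    refine Finset.sum_le_sum fun μ hμ => ?_
    exact (hcon (μ + 1) (by omega) (by have := Finset.mem_range.1 hμ; omega)).le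
  rw [Finset.sum_const, Finset.card_range, smul_eq_mul] at h3
  omega

end Pool.Agent.H21.NX

end

section

/-!
# Module MaxGM: from `GM` to general points
-/

namespace Pool.Agent.H21.NX

open Finset MvPolynomial Pool.Agent.H18.Fat Pool.Agent.H18.Ex

namespace MaxGMX

theorem Sx_eq_Rg {ι : Type} [Fintype ι] [DecidableEq ι] (σ : ℕ) :
    Sx ι σ = H18.Ex.Rg σ (fun _ => σ) := rfl

/-- The special configuration. -/
theorem special (r k d L : ℕ) (m : Fin k → ℕ)
    (h : GM (Sx (Fin (r + 1)) d) ((univ.val.map fun i => Kind.free (m i)) +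
      Multiset.replicate L (Kind.free 1))) :
    ∃ p₀ : Fin k → Fin (r + 1) → ℂ, Module.finrank ℂ (fatForms r d p₀ m) ≤ L := by
  classical
  let kk : Fin k ⊕ Fin L → Kind (Fin (r + 1)) :=
    Sum.elim (fun i => Kind.free (m i)) fun _ => Kind.free 1
  have hGI : GI (Sx (Fin (r + 1)) d) kk := by
    rw [← GM_iff, multi_map_sum]
    have h2 : (univ : Finset (Fin L)).val.map (fun _ : Fin L => (Kind.free 1 : Kind (Fin (r + 1))))
        = Multiset.replicate L (Kind.free 1) := by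
      rw [Multiset.map_const', Finset.card_val, card_univ, Fintype.card_fin]
    rw [h2]
    exact h
  rw [Sx_eq_Rg] at hGI
  obtain ⟨pos, hpos⟩ := hGI
  refine ⟨fun i => pos (Sum.inl i), ?_⟩
  set p₀ : Fin k → Fin (r + 1) → ℂ := fun i => pos (Sum.inl i) with hp₀
  have hsupp : ∀ F ∈ fatForms r d p₀ m, ∀ α ∈ F.support,
      (⇑α : Fin (r + 1) → ℕ) ∈ H18.Ex.Rg d (fun _ => d) := by
    intro F hF α hα
    rw [MvPolynomial.mem_support_iff] at hα
    have hαd : α ∈ mons (r + 1) d := by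
      rw [mem_mons]
      by_contra h
      exact hα (hF.1.coeff_eq_zero h)
    rw [← Sx_eq_Rg, mem_Sx]
    have hdeg := mem_mons.1 hαd
    rwa [Finsupp.degree_eq_sum] at hdeg
  let Ψ : fatForms r d p₀ m →ₗ[ℂ] (Fin L → ℂ) :=
    { toFun := fun F j => ∑ a ∈ H18.Ex.Rg d (fun _ => d), cf F.1 a * tcr (pos (Sum.inr j)) a 0
      map_add' := fun F G => by
        funext j
        simp only [Submodule.coe_add, cf, MvPolynomial.coeff_add, Pi.add_apply, add_mul,
          sum_add_distrib]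
      map_smul' := fun c F => by
        funext j
        simp only [Submodule.coe_smul, cf, MvPolynomial.coeff_smul, smul_eq_mul, RingHom.id_apply,
          Pi.smul_apply, mul_sum, mul_assoc] }
  have hΨ : Function.Injective Ψ := by
    rw [← LinearMap.ker_eq_bot, LinearMap.ker_eq_bot']
    intro F hF
    have h1 : ∀ i, Sat (H18.Ex.Rg d (fun _ => d)) (cf F.1) (kk i) (pos i) := by
      rintro (i | j)
      · exact sat_of_vanishes (hsupp F.1 F.2) (F.2.2 i)
      · intro b hb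
        have hb0 : b = 0 := by
          change ∑ i, b i < 1 at hb
          have h2 : ∑ i, b i = 0 := by omega
          rw [sum_eq_zero_iff] at h2
          funext i
          exact h2 i (mem_univ _)
        subst hb0
        exact congrFun hF j
    have h2 := hpos (cf F.1) h1
    apply Subtype.ext
    change F.1 = 0
    by_contra hne
    obtain ⟨α, hα⟩ := MvPolynomial.ne_zero_iff.1 hne
    have h3 := hsupp F.1 F.2 α (MvPolynomial.mem_support_iff.2 hα)
    have h4 := h2 _ h3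
    unfold cf at h4
    rw [show Finsupp.equivFunOnFinite.symm (⇑α) = α from by ext; rfl] at h4
    exact hα h4
  have := LinearMap.finrank_le_finrank_of_injective hΨ
  rwa [Module.finrank_fintype_fun_eq_card, Fintype.card_fin] at this

end MaxGMX

/-- From `GM` to general points (`∃ p₀` with `finrank ≤ N - L`, `general_finrank_le`, and
`finrank_fatForms_ge`; see `general_of_special` in H18/FatLin). -/
theorem max_of_GM (r k d : ℕ) (hr : 1 ≤ r) (m : Fin k → ℕ)
    (h : GM (Sx (Fin (r + 1)) d) ((univ.val.map fun i => Kind.free (m i)) +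
      Multiset.replicate ((d + r).choose r - ∑ i, ell r (m i)) (Kind.free 1))) :
    ForGeneralPoints r k fun p => ImposesMaximalConditions r d p m := by
  obtain ⟨p₀, hp₀⟩ := MaxGMX.special r k d _ m h
  refine ((general_finrank_le d p₀ m).and (ForGeneralPoints.coord_ne_zero r k)).mono ?_
  rintro p ⟨hp1, hp0⟩
  have hge := finrank_fatForms_ge (d := d) hr (fun i => hp0 i 0) m
  have hcast : ∑ i, ((m i + r - 1).choose r : ℤ) = ((∑ i, ell r (m i) : ℕ) : ℤ) := by
    push_cast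
    rfl
  unfold ImposesMaximalConditions
  rw [hcast] at hge ⊢
  omega

end Pool.Agent.H21.NX

end

section

/-!
# Module NumB: the numerical conditions hold for large `s`

Everything follows from the bounds of NumA by comparing exponents of `s`: with `U = 2 ^ (d + 1)`,
`V = (d + 1) ^ (d + 1)` and `d + 1 ≤ s` we have `ell s c ≤ U * s ^ (c - 1)` and
`s ^ (c - 1) ≤ V * ell s c` for `1 ≤ c ≤ d + 1` (and the same for `s + 1`).
Exponents, with `B = Bc M μ c = max (M - μ + c) μ`: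
* `nc`: left `(c - 1) + (B - 1) + (μ - 1)` and `2 (μ - 1)`, right `d - μ + c - 1`, strictly larger
  because `2 μ + M ≤ d + 1` and `2 ≤ c ≤ μ ≤ M`: gain a factor `s`;
* `q`: left `2 (B - 1)`, right `(d - μ) + (c - 1)`, at least as large because `2 M ≤ d + 1`,
  `3 μ ≤ d + 1`: use that `K` is large;
* `f1`: left `d - μ`, `M - 1`, `2 (B - 1)` with `c = 1`, right `d - μ` (`K` large);
* `f2`: left `(μ - 1) + (d + 1 - 2 μ)`, right `d - μ + 1`: gain a factor `s`;
* `e2`: left `(d - μ) + (μ - 1)`, `(μ - 1) + (M - 1)`, `d - 1`, `M - 1`, right `(d - μ) + (μ - 1)`: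
  `K0` large compared with `K`;
* `e3`: left `(d - μ) + (μ - 1) = d - 1`, right `d`: gain a factor `s`;
* `e4`: left `2 (M - 1)`, right `d - 1` (`K0` large).
-/

namespace Pool.Agent.H21.NX

open Pool.Agent.H18.Ex

namespace NumBX

/-- upper constant -/
def U (d : ℕ) : ℕ := 2 ^ (d + 1)

/-- lower constant -/
def V (d : ℕ) : ℕ := (d + 1) ^ (d + 1)

theorem U_pos (d : ℕ) : 1 ≤ U d := Nat.one_le_two_pow

theorem V_pos (d : ℕ) : 1 ≤ V d := Nat.one_le_pow _ _ (by omega)

theorem up (d s c : ℕ) (hc : 1 ≤ c) (hcd : c ≤ d + 1) (hs : d + 1 ≤ s) :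
    ell s c ≤ U d * s ^ (c - 1) := by
  refine (ell_le_pow s c hc (by omega)).trans ?_
  rw [mul_pow]
  exact Nat.mul_le_mul_right _ (Nat.pow_le_pow_right (by norm_num) (by omega))

theorem up' (d s c : ℕ) (hc : 1 ≤ c) (hcd : c ≤ d + 1) (hs : d + 1 ≤ s) :
    ell (s + 1) c ≤ U d * s ^ (c - 1) := by
  refine (ell_succ_le_pow s c hc (by omega)).trans ?_
  rw [mul_pow]
  exact Nat.mul_le_mul_right _ (Nat.pow_le_pow_right (by norm_num) (by omega))

theorem cc_le (d c : ℕ) (hcd : c ≤ d + 1) : c ^ c ≤ V d :=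
  (Nat.pow_le_pow_left hcd c).trans (Nat.pow_le_pow_right (by omega) hcd)

theorem lo (d s c : ℕ) (hc : 1 ≤ c) (hcd : c ≤ d + 1) : s ^ (c - 1) ≤ V d * ell s c :=
  (pow_le_ell s c hc).trans (Nat.mul_le_mul_right _ (cc_le d c hcd))

theorem lo' (d s c : ℕ) (hc : 1 ≤ c) (hcd : c ≤ d + 1) : s ^ (c - 1) ≤ V d * ell (s + 1) c :=
  (pow_le_ell_succ s c hc).trans (Nat.mul_le_mul_right _ (cc_le d c hcd))

theorem Bc_le {M μ c : ℕ} (hμM : μ ≤ M) (hc : c ≤ μ) : Bc M μ c ≤ M := by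
  unfold Bc; exact max_le (by omega) hμM

theorem Bc_ge {M μ c : ℕ} : μ ≤ Bc M μ c := by
  unfold Bc; exact le_max_right _ _

/-- `2 (B - 1) ≤ (d - μ) + (c - 1)` -/
theorem Bc_exp {d M μ c : ℕ} (hμ : 1 ≤ μ) (hμM : μ ≤ M) (hM : 2 * M ≤ d + 1)
    (h : 2 * μ + M ≤ d + 1) (h1 : 1 ≤ c) (hc : c ≤ μ) :
    2 * (Bc M μ c - 1) ≤ (d - μ) + (c - 1) := by
  unfold Bc
  rcases max_cases (M - μ + c) μ with ⟨h', _⟩ | ⟨h', _⟩ <;> rw [h'] <;> omega

end NumBX

open NumBX

theorem num_e1 (d : ℕ) : ∃ K1 : ℕ, ∀ K, K1 ≤ K → ∃ s0 : ℕ, ∀ s, s0 ≤ s → ∀ μ M : ℕ, 2 ≤ μ →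
    μ ≤ M → 2 * M ≤ d + 1 → 2 * μ + M ≤ d + 1 → Num d s μ M (K * s ^ (d - μ)) := by
  refine ⟨3 * U d ^ 2 * V d, fun K hK => ⟨d + 1 + 8 * (d + 1) * U d ^ 3 * V d,
    fun s hs μ M hμ hμM hM h => ?_⟩⟩
  have hds : d + 1 ≤ s := by omega
  have hs1 : 1 ≤ s := by omega
  have hbig : 8 * (d + 1) * U d ^ 3 * V d ≤ s := by omega
  have hV := V_pos d
  have hU := U_pos d
  refine ⟨hμ, hμM, h, hds, fun c hc2 hcμ => ?_, fun c hc1 hcμ => ?_, ?_, ?_⟩
  · -- nc
    have hB := Bc_le hμM hcμ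
    have hB' : μ ≤ Bc M μ c := NumBX.Bc_ge
    set B := Bc M μ c with hBdef
    have u1 := up d s c (by omega) (by omega) hds
    have u2 := up d s B (by omega) (by omega) hds
    have u3 := up d s μ (by omega) (by omega) hds
    have l1 := lo d s (d - μ + c) (by omega) (by omega)
    set e := d - μ + c - 1 with he
    obtain ⟨f, hf⟩ : ∃ f, e = f + 1 := ⟨e - 1, by omega⟩
    have hpow1 : s ^ (c - 1) * s ^ (B - 1) * s ^ (μ - 1) ≤ s ^ f := by
      rw [← pow_add, ← pow_add]; exact Nat.pow_le_pow_right hs1 (by omega)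
    have hpow2 : s ^ (μ - 1) * s ^ (μ - 1) ≤ s ^ f := by
      rw [← pow_add]; exact Nat.pow_le_pow_right hs1 (by omega)
    have hU23 : U d ^ 2 ≤ U d ^ 3 := Nat.pow_le_pow_right hU (by norm_num)
    have hL : (ell s c * ell s B + ell s μ) * ell s μ ≤ 2 * (U d ^ 3 * s ^ f) := by
      calc (ell s c * ell s B + ell s μ) * ell s μ
          ≤ ((U d * s ^ (c - 1)) * (U d * s ^ (B - 1)) + U d * s ^ (μ - 1)) *
              (U d * s ^ (μ - 1)) :=
            Nat.mul_le_mul (Nat.add_le_add (Nat.mul_le_mul u1 u2) u3) u3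
        _ = U d ^ 3 * (s ^ (c - 1) * s ^ (B - 1) * s ^ (μ - 1)) +
              U d ^ 2 * (s ^ (μ - 1) * s ^ (μ - 1)) := by ring
        _ ≤ U d ^ 3 * s ^ f + U d ^ 3 * s ^ f :=
            Nat.add_le_add (Nat.mul_le_mul_left _ hpow1) (Nat.mul_le_mul hU23 hpow2)
        _ = 2 * (U d ^ 3 * s ^ f) := by ring
    refine le_of_mul_le_mul_left ?_ (show 0 < V d from hV)
    calc V d * (4 * (d + 1) * (ell s c * ell s B + ell s μ) * ell s μ)
        = V d * (4 * (d + 1)) * ((ell s c * ell s B + ell s μ) * ell s μ) := by ring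
      _ ≤ V d * (4 * (d + 1)) * (2 * (U d ^ 3 * s ^ f)) := Nat.mul_le_mul_left _ hL
      _ = (8 * (d + 1) * U d ^ 3 * V d) * s ^ f := by ring
      _ ≤ s * s ^ f := Nat.mul_le_mul_right _ hbig
      _ = s ^ e := by rw [hf, pow_succ]; ring
      _ ≤ V d * ell s (d - μ + c) := l1
  · -- q
    have hB := Bc_le hμM hcμ
    have hB' : μ ≤ Bc M μ c := NumBX.Bc_ge
    have hexp := Bc_exp (by omega) hμM hM h hc1 hcμ
    set B := Bc M μ c with hBdef
    have u2 := up d s B (by omega) (by omega) hds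
    have l1 := lo d s c hc1 (by omega)
    have hK' : U d ^ 2 * V d ≤ K := by nlinarith only [hK, Nat.zero_le (U d ^ 2 * V d)]
    calc ell s B ^ 2 ≤ (U d * s ^ (B - 1)) ^ 2 := Nat.pow_le_pow_left u2 2
      _ = U d ^ 2 * s ^ (2 * (B - 1)) := by rw [mul_pow, ← pow_mul, mul_comm 2 (B - 1)]
      _ ≤ U d ^ 2 * s ^ ((d - μ) + (c - 1)) :=
          Nat.mul_le_mul_left _ (Nat.pow_le_pow_right hs1 hexp)
      _ = U d ^ 2 * s ^ (d - μ) * s ^ (c - 1) := by rw [pow_add]; ring
      _ ≤ U d ^ 2 * s ^ (d - μ) * (V d * ell s c) := Nat.mul_le_mul_left _ l1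
      _ = (U d ^ 2 * V d) * s ^ (d - μ) * ell s c := by ring
      _ ≤ K * s ^ (d - μ) * ell s c :=
          Nat.mul_le_mul_right _ (Nat.mul_le_mul_right _ hK')
  · -- f1
    have hB := Bc_le (c := 1) hμM (by omega)
    have hB' : μ ≤ Bc M μ 1 := NumBX.Bc_ge
    have hexp := Bc_exp (c := 1) (by omega) hμM hM h le_rfl (by omega)
    set B := Bc M μ 1 with hBdef
    have u1 := up' d s (d - μ + 1) (by omega) (by omega) hds
    have u2 := up' d s M (by omega) (by omega) hds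
    have u3 := up d s B (by omega) (by omega) hds
    have hU12 : U d ≤ U d ^ 2 := by nlinarith only [hU]
    have hp1 : U d * s ^ (d - μ + 1 - 1) ≤ U d ^ 2 * s ^ (d - μ) :=
      Nat.mul_le_mul hU12 (Nat.pow_le_pow_right hs1 (by omega))
    have hp2 : U d * s ^ (M - 1) ≤ U d ^ 2 * s ^ (d - μ) :=
      Nat.mul_le_mul hU12 (Nat.pow_le_pow_right hs1 (by omega))
    have hp3 : ell s B ^ 2 ≤ U d ^ 2 * s ^ (d - μ) := by
      calc ell s B ^ 2 ≤ (U d * s ^ (B - 1)) ^ 2 := Nat.pow_le_pow_left u3 2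
        _ = U d ^ 2 * s ^ (2 * (B - 1)) := by rw [mul_pow, ← pow_mul, mul_comm 2 (B - 1)]
        _ ≤ U d ^ 2 * s ^ (d - μ) :=
            Nat.mul_le_mul_left _ (Nat.pow_le_pow_right hs1 (by omega))
    have hK' : 3 * U d ^ 2 ≤ K := by
      calc 3 * U d ^ 2 = 3 * U d ^ 2 * 1 := by ring
        _ ≤ 3 * U d ^ 2 * V d := Nat.mul_le_mul_left _ hV
        _ ≤ K := hK
    calc ell (s + 1) (d - μ + 1) + ell (s + 1) M + ell s B ^ 2
        ≤ U d ^ 2 * s ^ (d - μ) + U d ^ 2 * s ^ (d - μ) + U d ^ 2 * s ^ (d - μ) :=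
          Nat.add_le_add (Nat.add_le_add (u1.trans hp1) (u2.trans hp2)) hp3
      _ = (3 * U d ^ 2) * s ^ (d - μ) := by ring
      _ ≤ K * s ^ (d - μ) := Nat.mul_le_mul_right _ hK'
  · -- f2
    have u1 := up' d s μ (by omega) (by omega) hds
    have u2 := up' d s (d + 2 - 2 * μ) (by omega) (by omega) hds
    have l1 := lo d s (d - μ + 2) (by omega) (by omega)
    have hpow : s ^ (μ - 1) * s ^ (d + 2 - 2 * μ - 1) ≤ s ^ (d - μ) := by
      rw [← pow_add]; exact Nat.pow_le_pow_right hs1 (by omega)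
    have hU23 : U d ^ 2 ≤ U d ^ 3 := Nat.pow_le_pow_right hU (by norm_num)
    refine le_of_mul_le_mul_left ?_ (show 0 < V d from hV)
    calc V d * (8 * (d + 1) * ell (s + 1) μ * ell (s + 1) (d + 2 - 2 * μ))
        = V d * (8 * (d + 1)) * (ell (s + 1) μ * ell (s + 1) (d + 2 - 2 * μ)) := by ring
      _ ≤ V d * (8 * (d + 1)) * ((U d * s ^ (μ - 1)) * (U d * s ^ (d + 2 - 2 * μ - 1))) :=
          Nat.mul_le_mul_left _ (Nat.mul_le_mul u1 u2)
      _ = V d * (8 * (d + 1)) * (U d ^ 2 * (s ^ (μ - 1) * s ^ (d + 2 - 2 * μ - 1))) := by ring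
      _ ≤ V d * (8 * (d + 1)) * (U d ^ 3 * s ^ (d - μ)) :=
          Nat.mul_le_mul_left _ (Nat.mul_le_mul hU23 hpow)
      _ = (8 * (d + 1) * U d ^ 3 * V d) * s ^ (d - μ) := by ring
      _ ≤ s * s ^ (d - μ) := Nat.mul_le_mul_right _ hbig
      _ = s ^ (d - μ + 2 - 1) := by
          rw [show d - μ + 2 - 1 = (d - μ) + 1 by omega, pow_succ]; ring
      _ ≤ V d * ell s (d - μ + 2) := l1

theorem num_e2 (d K : ℕ) : ∃ K0 : ℕ, ∀ K', K0 ≤ K' → ∃ s0 : ℕ, ∀ s, s0 ≤ s → ∀ μ M : ℕ, 1 ≤ μ →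
    μ ≤ M → 2 * M ≤ d + 1 → 2 * μ + M ≤ d + 1 →
    (K * s ^ (d - μ) + 1) * ell s μ + ell s μ * ell s M + ell (s + 1) d + ell (s + 1) M ≤
      K' * s ^ (d - μ) * ell (s + 1) μ := by
  refine ⟨(K * U d + 4 * U d ^ 2) * V d, fun K' hK' => ⟨d + 1, fun s hds μ M hμ hμM hM h => ?_⟩⟩
  have hs1 : 1 ≤ s := by omega
  have hU := U_pos d
  have hU12 : U d ≤ U d ^ 2 := by nlinarith only [hU]
  have u1 := up d s μ (by omega) (by omega) hds
  have u2 := up d s M (by omega) (by omega) hds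
  have u3 := up' d s d (by omega) (by omega) hds
  have u4 := up' d s M (by omega) (by omega) hds
  have l1 := lo' d s μ hμ (by omega)
  have t1 : (K * s ^ (d - μ) + 1) * ell s μ ≤ (K * U d + U d ^ 2) * s ^ (d - 1) := by
    calc (K * s ^ (d - μ) + 1) * ell s μ ≤ (K * s ^ (d - μ) + 1) * (U d * s ^ (μ - 1)) :=
          Nat.mul_le_mul_left _ u1
      _ = K * U d * (s ^ (d - μ) * s ^ (μ - 1)) + U d * s ^ (μ - 1) := by ring
      _ ≤ K * U d * s ^ (d - 1) + U d ^ 2 * s ^ (d - 1) := by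
          refine Nat.add_le_add (Nat.mul_le_mul_left _ ?_)
            (Nat.mul_le_mul hU12 (Nat.pow_le_pow_right hs1 (by omega)))
          rw [← pow_add]; exact Nat.pow_le_pow_right hs1 (by omega)
      _ = (K * U d + U d ^ 2) * s ^ (d - 1) := by ring
  have t2 : ell s μ * ell s M ≤ U d ^ 2 * s ^ (d - 1) := by
    calc ell s μ * ell s M ≤ (U d * s ^ (μ - 1)) * (U d * s ^ (M - 1)) := Nat.mul_le_mul u1 u2
      _ = U d ^ 2 * (s ^ (μ - 1) * s ^ (M - 1)) := by ring
      _ ≤ U d ^ 2 * s ^ (d - 1) := by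
          refine Nat.mul_le_mul_left _ ?_
          rw [← pow_add]; exact Nat.pow_le_pow_right hs1 (by omega)
  have t3 : ell (s + 1) d ≤ U d ^ 2 * s ^ (d - 1) :=
    u3.trans (Nat.mul_le_mul_right _ hU12)
  have t4 : ell (s + 1) M ≤ U d ^ 2 * s ^ (d - 1) :=
    u4.trans (Nat.mul_le_mul hU12 (Nat.pow_le_pow_right hs1 (by omega)))
  calc (K * s ^ (d - μ) + 1) * ell s μ + ell s μ * ell s M + ell (s + 1) d + ell (s + 1) M
      ≤ (K * U d + U d ^ 2) * s ^ (d - 1) + U d ^ 2 * s ^ (d - 1) + U d ^ 2 * s ^ (d - 1) +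
          U d ^ 2 * s ^ (d - 1) :=
        Nat.add_le_add (Nat.add_le_add (Nat.add_le_add t1 t2) t3) t4
    _ = (K * U d + 4 * U d ^ 2) * s ^ (d - 1) := by ring
    _ = (K * U d + 4 * U d ^ 2) * (s ^ (d - μ) * s ^ (μ - 1)) := by
        rw [← pow_add, show d - μ + (μ - 1) = d - 1 by omega]
    _ ≤ (K * U d + 4 * U d ^ 2) * (s ^ (d - μ) * (V d * ell (s + 1) μ)) :=
        Nat.mul_le_mul_left _ (Nat.mul_le_mul_left _ l1)
    _ = ((K * U d + 4 * U d ^ 2) * V d) * s ^ (d - μ) * ell (s + 1) μ := by ring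
    _ ≤ K' * s ^ (d - μ) * ell (s + 1) μ :=
        Nat.mul_le_mul_right _ (Nat.mul_le_mul_right _ hK')

theorem num_e3 (d K' : ℕ) : ∃ s0 : ℕ, ∀ s, s0 ≤ s → ∀ μ : ℕ, 1 ≤ μ → μ ≤ d →
    (d + 1) * (K' * s ^ (d - μ) * ell (s + 1) μ) ≤ ell (s + 1) (d + 1) := by
  refine ⟨d + 1 + (d + 1) * K' * U d * V d, fun s hs μ hμ hμd => ?_⟩
  have hds : d + 1 ≤ s := by omega
  have hs1 : 1 ≤ s := by omega
  have hbig : (d + 1) * K' * U d * V d ≤ s := by omega
  have hV := V_pos d
  have u1 := up' d s μ hμ (by omega) hds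
  have l1 := lo' d s (d + 1) (by omega) (by omega)
  refine le_of_mul_le_mul_left ?_ (show 0 < V d from hV)
  calc V d * ((d + 1) * (K' * s ^ (d - μ) * ell (s + 1) μ))
      ≤ V d * ((d + 1) * (K' * s ^ (d - μ) * (U d * s ^ (μ - 1)))) :=
        Nat.mul_le_mul_left _ (Nat.mul_le_mul_left _ (Nat.mul_le_mul_left _ u1))
    _ = ((d + 1) * K' * U d * V d) * (s ^ (d - μ) * s ^ (μ - 1)) := by ring
    _ = ((d + 1) * K' * U d * V d) * s ^ (d - 1) := by
        rw [← pow_add, show d - μ + (μ - 1) = d - 1 by omega]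
    _ ≤ s * s ^ (d - 1) := Nat.mul_le_mul_right _ hbig
    _ = s ^ (d + 1 - 1) := by
        rw [mul_comm, ← pow_succ, show d - 1 + 1 = d + 1 - 1 by omega]
    _ ≤ V d * ell (s + 1) (d + 1) := l1

theorem num_e4 (d : ℕ) : ∃ K0 : ℕ, ∀ K', K0 ≤ K' → ∃ s0 : ℕ, ∀ s, s0 ≤ s → ∀ M : ℕ,
    2 * M ≤ d + 1 → 1 ≤ M →
    ell (s + 1) M + ell (s + 1) M ^ 2 ≤ K' * s ^ (d - 1) := by
  refine ⟨2 * U d ^ 2, fun K' hK' => ⟨d + 1, fun s hds M hM hM1 => ?_⟩⟩
  have hs1 : 1 ≤ s := by omega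
  have hU := U_pos d
  have hU12 : U d ≤ U d ^ 2 := by nlinarith only [hU]
  have u1 := up' d s M hM1 (by omega) hds
  have t1 : ell (s + 1) M ≤ U d ^ 2 * s ^ (d - 1) :=
    u1.trans (Nat.mul_le_mul hU12 (Nat.pow_le_pow_right hs1 (by omega)))
  have t2 : ell (s + 1) M ^ 2 ≤ U d ^ 2 * s ^ (d - 1) := by
    calc ell (s + 1) M ^ 2 ≤ (U d * s ^ (M - 1)) ^ 2 := Nat.pow_le_pow_left u1 2
      _ = U d ^ 2 * s ^ (2 * (M - 1)) := by rw [mul_pow, ← pow_mul, mul_comm 2 (M - 1)]
      _ ≤ U d ^ 2 * s ^ (d - 1) :=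
          Nat.mul_le_mul_left _ (Nat.pow_le_pow_right hs1 (by omega))
  calc ell (s + 1) M + ell (s + 1) M ^ 2 ≤ U d ^ 2 * s ^ (d - 1) + U d ^ 2 * s ^ (d - 1) :=
        Nat.add_le_add t1 t2
    _ = (2 * U d ^ 2) * s ^ (d - 1) := by ring
    _ ≤ K' * s ^ (d - 1) := Nat.mul_le_mul_right _ hK'

/-- All conditions together. -/
theorem exists_num (d : ℕ) : ∃ K K' s0 : ℕ, 1 ≤ K' ∧ 1 ≤ s0 ∧ ∀ s, s0 ≤ s → ∀ μ M : ℕ, 1 ≤ μ →
    μ ≤ M → 2 * M ≤ d + 1 → 2 * μ + M ≤ d + 1 →
    (2 ≤ μ → Num d s μ M (K * s ^ (d - μ))) ∧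
    (K * s ^ (d - μ) + 1) * ell s μ + ell s μ * ell s M + ell (s + 1) d + ell (s + 1) M ≤
      K' * s ^ (d - μ) * ell (s + 1) μ ∧
    (d + 1) * (K' * s ^ (d - μ) * ell (s + 1) μ) ≤ ell (s + 1) (d + 1) ∧
    ell (s + 1) M + ell (s + 1) M ^ 2 ≤ K' * s ^ (d - 1) := by
  obtain ⟨K, hK⟩ := num_e1 d
  obtain ⟨s1, h1⟩ := hK K le_rfl
  obtain ⟨K2, hK2⟩ := num_e2 d K
  obtain ⟨K4, hK4⟩ := num_e4 d
  obtain ⟨s2, h2⟩ := hK2 (K2 + K4 + 1) (by omega)
  obtain ⟨s3, h3⟩ := num_e3 d (K2 + K4 + 1)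
  obtain ⟨s4, h4⟩ := hK4 (K2 + K4 + 1) (by omega)
  refine ⟨K, K2 + K4 + 1, s1 + s2 + s3 + s4 + 1, by omega, by omega, fun s hs μ M hμ hμM hM h => ?_⟩
  exact ⟨fun hμ2 => h1 s (by omega) μ M hμ2 hμM hM h, h2 s (by omega) μ M hμ hμM hM h,
    h3 s (by omega) μ hμ (by omega), h4 s (by omega) M hM (by omega)⟩

end Pool.Agent.H21.NX

end

section

/-!
# Module UNum: the numerical conditions of the uniform version
-/

namespace Pool.Agent.H21.NX

open Finset Pool.Agent.H18.Ex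

theorem big_step (s M D0 d : ℕ) (hs : 1 ≤ s)
    (h : 2 * ((a0 s M D0 d + M * GG s M) * (M * ell (s + 1) M)) ≤ ell s (d + 1)) :
    2 * ((a0 s M D0 (d + 1) + M * GG s M) * (M * ell (s + 1) M)) ≤ ell s (d + 1 + 1) := by
  have hrel : ell s (d + 1) * (d + 1 + s) = ell s (d + 1 + 1) * (d + 1) :=
    ell_mul_add s (d + 1) hs
  have ha : a0 s M D0 (d + 1) = a0 s M D0 d + GG s M := by
    unfold a0
    ring
  have h1 : 2 * ((d + 1) * GG s M * (M * ell (s + 1) M)) ≤ ell s (d + 1) := by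
    refine le_trans ?_ h
    refine Nat.mul_le_mul_left _ (Nat.mul_le_mul_right _ ?_)
    unfold a0
    omega
  refine Nat.le_of_mul_le_mul_right ?_ (show 0 < d + 1 by omega)
  rw [← hrel, ha]
  calc 2 * ((a0 s M D0 d + GG s M + M * GG s M) * (M * ell (s + 1) M)) * (d + 1) =
      2 * ((a0 s M D0 d + M * GG s M) * (M * ell (s + 1) M)) * (d + 1) +
        2 * ((d + 1) * GG s M * (M * ell (s + 1) M)) * 1 := by ring
    _ ≤ ell s (d + 1) * (d + 1) + ell s (d + 1) * s :=
        Nat.add_le_add (Nat.mul_le_mul_right _ h) (Nat.mul_le_mul h1 hs)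
    _ = _ := by ring

theorem exists_unum (M : ℕ) (hM : 1 ≤ M) : ∃ D0 D1 s0 : ℕ, ∀ s, s0 ≤ s → ∀ d, D1 ≤ d →
    UNum s M D0 ∧ D0 + M ≤ d ∧
    2 * ((a0 s M D0 d + M * GG s M) * (M * ell (s + 1) M)) ≤ ell s (d + 1) := by
  -- constants
  obtain ⟨D0, hD0⟩ : ∃ D0, D0 = 16 * M := ⟨_, rfl⟩
  obtain ⟨D1, hD1⟩ : ∃ D1, D1 = 20 * M := ⟨_, rfl⟩
  obtain ⟨C1, hC1⟩ : ∃ C1, C1 = 16 * M * 2 ^ (3 * (M - 1)) * D0 ^ D0 := ⟨_, rfl⟩
  obtain ⟨C2, hC2⟩ : ∃ C2, C2 = 2 * ((2 * (D1 + 1 + M) + 3) * M) * 2 ^ (D0 - 1 + (M - 1)) *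
    (D1 + 1) ^ (D1 + 1) := ⟨_, rfl⟩
  refine ⟨D0, D1, 16 * M + C1 + C2 + D0 + D1 + 1, fun s hs d hd => ?_⟩
  have hs1 : 1 ≤ s := by omega
  have hs16 : 16 * M ≤ s := by omega
  have hsC1 : C1 ≤ s := by omega
  have hsC2 : C2 ≤ s := by omega
  have hFM : ell (s + 1) M ≤ (2 * s) ^ (M - 1) := ell_succ_le_pow s M hM (by omega)
  have hEM : ell s M ≤ (2 * s) ^ (M - 1) := ell_le_pow s M hM (by omega)
  have hFD : ell (s + 1) D0 ≤ (2 * s) ^ (D0 - 1) := ell_succ_le_pow s D0 (by omega) (by omega)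
  have hun : UNum s M D0 := by
    refine ⟨hM, hs16, by omega, ?_⟩
    have h1 : s ^ (D0 - 1) ≤ D0 ^ D0 * ell s D0 := pow_le_ell s D0 (by omega)
    have h2 : 0 < D0 ^ D0 := Nat.pow_pos (by omega)
    refine Nat.le_of_mul_le_mul_left (le_trans ?_ h1) h2
    calc D0 ^ D0 * (16 * M * ell (s + 1) M ^ 3) ≤
        D0 ^ D0 * (16 * M * ((2 * s) ^ (M - 1)) ^ 3) :=
          Nat.mul_le_mul_left _ (Nat.mul_le_mul_left _ (Nat.pow_le_pow_left hFM 3))
      _ = 16 * M * 2 ^ (3 * (M - 1)) * D0 ^ D0 * s ^ (3 * (M - 1)) := by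
          rw [← pow_mul, mul_pow, mul_comm (M - 1) 3]
          ring
      _ = C1 * s ^ (3 * (M - 1)) := by rw [hC1]
      _ ≤ s * s ^ (3 * (M - 1)) := Nat.mul_le_mul_right _ hsC1
      _ = s ^ (3 * (M - 1) + 1) := by ring
      _ ≤ s ^ (D0 - 1) := Nat.pow_le_pow_right hs1 (by omega)
  refine ⟨hun, by omega, ?_⟩
  -- the base case of the induction on the degree
  have hbase : 2 * ((a0 s M D0 D1 + M * GG s M) * (M * ell (s + 1) M)) ≤ ell s (D1 + 1) := by
    have h1 : s ^ (D1 + 1 - 1) ≤ (D1 + 1) ^ (D1 + 1) * ell s (D1 + 1) :=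
      pow_le_ell s (D1 + 1) (by omega)
    have h2 : 0 < (D1 + 1) ^ (D1 + 1) := Nat.pow_pos (by omega)
    have hx1 : 1 ≤ 2 * s := by omega
    obtain ⟨x, hx⟩ : ∃ x, x = (2 * s) ^ (D0 - 1) := ⟨_, rfl⟩
    have hGx : GG s M ≤ 2 * x := by
      have e1 : ell s M ^ 2 ≤ x := by
        calc ell s M ^ 2 ≤ ((2 * s) ^ (M - 1)) ^ 2 := Nat.pow_le_pow_left hEM 2
          _ = (2 * s) ^ ((M - 1) * 2) := by rw [← pow_mul]
          _ ≤ (2 * s) ^ (D0 - 1) := Nat.pow_le_pow_right hx1 (by omega)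
          _ = x := hx.symm
      have e2 : ell s M ≤ x := by
        calc ell s M ≤ (2 * s) ^ (M - 1) := hEM
          _ ≤ (2 * s) ^ (D0 - 1) := Nat.pow_le_pow_right hx1 (by omega)
          _ = x := hx.symm
      unfold GG
      omega
    have hE2 : ell s M ^ 2 ≤ x := by
      calc ell s M ^ 2 ≤ ((2 * s) ^ (M - 1)) ^ 2 := Nat.pow_le_pow_left hEM 2
        _ = (2 * s) ^ ((M - 1) * 2) := by rw [← pow_mul]
        _ ≤ (2 * s) ^ (D0 - 1) := Nat.pow_le_pow_right hx1 (by omega)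
        _ = x := hx.symm
    have hFx : ell (s + 1) M ≤ x := by
      calc ell (s + 1) M ≤ (2 * s) ^ (M - 1) := hFM
        _ ≤ (2 * s) ^ (D0 - 1) := Nat.pow_le_pow_right hx1 (by omega)
        _ = x := hx.symm
    have hFDx : ell (s + 1) D0 ≤ x := by rw [hx]; exact hFD
    have ha : a0 s M D0 D1 + M * GG s M ≤ (2 * (D1 + 1 + M) + 3) * x := by
      unfold a0
      have e1 : (D1 + 1) * GG s M ≤ (D1 + 1) * (2 * x) := Nat.mul_le_mul_left _ hGx
      have e2 : M * GG s M ≤ M * (2 * x) := Nat.mul_le_mul_left _ hGx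
      calc (D1 + 1) * GG s M + ell (s + 1) M + ell s M ^ 2 + ell (s + 1) D0 + M * GG s M ≤
          (D1 + 1) * (2 * x) + x + x + x + M * (2 * x) := by omega
        _ = _ := by ring
    refine Nat.le_of_mul_le_mul_left (le_trans ?_ h1) h2
    calc (D1 + 1) ^ (D1 + 1) * (2 * ((a0 s M D0 D1 + M * GG s M) * (M * ell (s + 1) M))) ≤
        (D1 + 1) ^ (D1 + 1) * (2 * (((2 * (D1 + 1 + M) + 3) * x) * (M * (2 * s) ^ (M - 1)))) :=
          Nat.mul_le_mul_left _ (Nat.mul_le_mul_left _ (Nat.mul_le_mul ha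
            (Nat.mul_le_mul_left _ hFM)))
      _ = 2 * ((2 * (D1 + 1 + M) + 3) * M) * 2 ^ (D0 - 1 + (M - 1)) *
            (D1 + 1) ^ (D1 + 1) * s ^ (D0 - 1 + (M - 1)) := by
          rw [hx, mul_pow, mul_pow, pow_add, pow_add]
          ring
      _ = C2 * s ^ (D0 - 1 + (M - 1)) := by rw [hC2]
      _ ≤ s * s ^ (D0 - 1 + (M - 1)) := Nat.mul_le_mul_right _ hsC2
      _ = s ^ (D0 - 1 + (M - 1) + 1) := by ring
      _ ≤ s ^ (D1 + 1 - 1) := Nat.pow_le_pow_right hs1 (by omega)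
  exact Nat.le_induction hbase (fun d _ ih => big_step s M D0 d hs1 ih) d hd

end Pool.Agent.H21.NX

end

section

/-!
# Module URun: the Horace steps of the uniform version
-/

namespace Pool.Agent.H21.NX

open Finset Pool.Agent.H18.Ex

theorem count_nxt {Ψ : Multiset (ℕ × ℕ)} {N0 : Multiset ℕ} {μ α ρ a c : ℕ} (hc : 1 ≤ c)
    (h : a ≤ Ψ.count (c + 1, 1)) : a ≤ (nxt Ψ N0 μ α ρ).count (c, 1) := by
  rw [Multiset.le_count_iff_replicate_le] at h ⊢
  unfold nxt
  rw [Multiset.le_filter]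
  refine ⟨?_, fun x hx => ?_⟩
  · have h1 : Multiset.replicate a (c, 1) ≤ Ψ.map (fun x : ℕ × ℕ => (x.1 - 1, x.2)) := by
      have := Multiset.map_le_map (f := fun x : ℕ × ℕ => (x.1 - 1, x.2)) h
      rwa [Multiset.map_replicate] at this
    exact le_trans h1 (le_trans (Multiset.le_add_right _ _) (le_trans (Multiset.le_add_right _ _)
      (Multiset.le_add_right _ _)))
  · rw [Multiset.eq_of_mem_replicate hx]
    exact hc

theorem count_nxt_start {N0 : Multiset ℕ} {μ ρ a : ℕ} (hμ : 2 ≤ μ) :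
    a ≤ (nxt 0 N0 μ a ρ).count (μ - 1, 1) := by
  rw [Multiset.le_count_iff_replicate_le]
  unfold nxt
  rw [Multiset.le_filter]
  refine ⟨?_, fun x hx => ?_⟩
  · exact le_trans (Multiset.le_add_left _ _) (Multiset.le_add_right _ _)
  · rw [Multiset.eq_of_mem_replicate hx]
    change 1 ≤ μ - 1
    omega

end Pool.Agent.H21.NX

end

section

/-!
# V7: `PROP M c 0` implies `Crit M`
-/

namespace Pool.Agent.V7

open Finset MvPolynomial Pool.Agent.H51.TB
open Pool.Agent.H18.Ex (ell)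
open Pool.Agent.H21.NX (gdim)

theorem Bridge_count {k : ℕ} (m : Fin k → ℕ) (μ : ℕ) :
    ((univ : Finset (Fin k)).val.map fun i => Kd.ord (m i) ∅).count (Kd.ord μ ∅) =
      (univ.filter fun i => m i = μ).card := by
  rw [Multiset.count_map, ← Finset.filter_val, Finset.card_val]
  congr 1
  refine Finset.filter_congr fun i _ => ?_
  constructor
  · intro h
    exact (Kd.ord.inj h).1.symm
  · intro h
    rw [h]

end Pool.Agent.V7

end

section

/-!
# V7: forms in `r + 1` variables as the system of the level `0`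
-/

namespace Pool.Agent.V7

open Finset MvPolynomial Pool.Agent.H51.TB Pool.Agent.H54.V7
open Pool.Agent.H18.Fat (fatForms VanishesToOrder mons mem_mons)
open Pool.Agent.H18.Ex (tcr cf sat_of_vanishes Kind ell)
open Pool.Agent.H21.NX (gdim Sx mem_Sx)
open Pool.Agent.H21.NX.ConvX (mem_Sx_coe symm_coe)

theorem critA_mem_Ex {ν : Type} [Fintype ν] [DecidableEq ν] {β : ν → ℕ} {d : ℕ} {a : ν → ℕ} :
    a ∈ Ex β d 0 ↔ ∑ s, a s = d := by
  rw [mem_Ex]
  constructor
  · exact fun h => h.1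
  · exact fun h => ⟨h, fun i hi => absurd hi (Nat.not_lt_zero i)⟩

/-- The coefficient function on a set of exponents. -/
noncomputable def CritA_Phi {n : ℕ} (A : Finset (Fin n → ℕ)) :
    MvPolynomial (Fin n) ℂ →ₗ[ℂ] ({a // a ∈ A} → ℂ) where
  toFun F := fun e => cf F e.1
  map_add' F G := by
    funext e
    exact coeff_add _ _ _
  map_smul' c F := by
    funext e
    exact coeff_smul _ _ _

theorem critA_gdim_le (M r : ℕ) (β : Fin (r + 1) → ℕ) {κ : Type} [Fintype κ] (m : κ → ℕ) :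
    gdim r (2 * M - 1) m ≤ (LS M β 0).gd fun i => Kd.ord (m i) ∅ := by
  classical
  obtain ⟨p, hp⟩ := gd_attained (LS M β 0) fun i => Kd.ord (m i) ∅
  rw [← hp]
  let pos : κ → Fin (r + 1) → ℂ := fun i s => p i (Sum.inl s)
  have h1 : gdim r (2 * M - 1) m ≤ Module.finrank ℂ (fatForms r (2 * M - 1) pos m) :=
    Nat.sInf_le ⟨pos, rfl⟩
  refine h1.trans ?_
  have hsupp : ∀ F ∈ fatForms r (2 * M - 1) pos m, ∀ α ∈ F.support,
      (⇑α : Fin (r + 1) → ℕ) ∈ Pool.Agent.H18.Ex.Rg (2 * M - 1) (fun _ => 2 * M - 1) := by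
    intro F hF α hα
    rw [MvPolynomial.mem_support_iff] at hα
    have hαd : α ∈ mons (r + 1) (2 * M - 1) := by
      rw [mem_mons]
      by_contra h
      exact hα (hF.1.coeff_eq_zero h)
    exact mem_Sx_coe.2 hαd
  have hmem : ∀ F ∈ fatForms r (2 * M - 1) pos m,
      CritA_Phi (Ex β (2 * M - 1) 0) F ∈ (LS M β 0).V (fun i => Kd.ord (m i) ∅) p := by
    intro F hF
    rw [mem_LSA]
    intro i b hb
    have h2 := sat_of_vanishes (hsupp F hF) (hF.2 i) b hb
    have h3 : msk β ∅ (fun s => p i (Sum.inl s)) = pos i := by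
      funext s
      simp [msk, pos]
    rw [h3]
    show ∑ e : {a // a ∈ Ex β (2 * M - 1) 0}, cf F e.1 * tcr (pos i) e.1 b = 0
    rw [← h2]
    rw [Finset.sum_coe_sort (Ex β (2 * M - 1) 0) fun e => cf F e * tcr (pos i) e b]
    refine Finset.sum_congr ?_ fun _ _ => rfl
    ext a
    rw [critA_mem_Ex]
    exact (mem_Sx (ι := Fin (r + 1))).symm
  let Ψ : fatForms r (2 * M - 1) pos m →ₗ[ℂ] (LS M β 0).V (fun i => Kd.ord (m i) ∅) p :=
    ((CritA_Phi (Ex β (2 * M - 1) 0)).comp (fatForms r (2 * M - 1) pos m).subtype).codRestrict _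
      fun F => hmem F.1 F.2
  refine LinearMap.finrank_le_finrank_of_injective (f := Ψ) ?_
  rw [← LinearMap.ker_eq_bot, LinearMap.ker_eq_bot']
  intro F hF
  have h4 : ∀ a ∈ Ex β (2 * M - 1) 0, cf F.1 a = 0 := by
    intro a ha
    have h5 : (Ψ F : {a // a ∈ Ex β (2 * M - 1) 0} → ℂ) ⟨a, ha⟩ = 0 := by
      rw [hF]
      rfl
    exact h5
  apply Subtype.ext
  by_contra hne
  obtain ⟨α, hα⟩ := MvPolynomial.ne_zero_iff.1 hne
  have h6 := hsupp F.1 F.2 α (MvPolynomial.mem_support_iff.2 hα)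
  have h7 := h4 (⇑α) (by
    rw [critA_mem_Ex]
    exact (mem_Sx (ι := Fin (r + 1))).1 h6)
  unfold cf at h7
  rw [symm_coe] at h7
  exact hα h7

end Pool.Agent.V7

end
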