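import Pool.Agent.H94.LP5.M02

/-! The parts of this file: H18.Ta.Key, H21.HD.PhiNum, H51.TB.Sect. -/

section

/-!
# Module Key (TA): the keys realise the ranks

Let `G = bG ℓ = 4 (ℓ+1)^2`, `W = G ^ (ℓ - u)`, `e = ex ℓ u j`, `K s = e * s + kap ℓ s`.
For `s < ℓ` we have `kap ℓ s = kap ℓ (s+1) + G ^ (ℓ - s)` (`sum_range_succ`, as `ℓ - s = (ℓ - (s+1)) + 1`).
Hence `K (s+1) + G ^ (ℓ - s) = K s + e`.

Facts about `e`: `e ≤ 2 W`; for `j = 0`, `e = 2 W > W`; for `j ≥ 1`: `j e < W` and, as `j ≤ ℓ`,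
`j e ≥ W - j`, so `e ≥ (W - j)/j`, hence `(j + 1) e ≥ W - j + (W - j)/j > W + 2 W / G` because `G ≥ 4 ℓ²`,
`W ≥ G`; in particular `e ≥ W / (2 ℓ)` and `e > W / G = G ^ (ℓ - u - 1)`.

* On `[0, u]` the key decreases strictly: for `s < u`, `G ^ (ℓ - s) ≥ G W > 2 W ≥ e`.
* On `[u+1, ℓ-1]` the key increases strictly: for `u + 1 ≤ s`, `s + 1 < ℓ`, `G ^ (ℓ - s) ≤ W / G < e`.
* The keys of the layers `< u` are larger than all keys of the layers `≥ u`:
  `K (u-1) = K u + G W - e`, `K s ≤ K u + e (s - u)` for `s ≥ u`, and `G W > e (ℓ + 1)` by `e ≤ 2 W`.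
* `j = 0`: `K (u+1) = K u + e - W > K u`.
* `j ≥ 1`: `K (u+j) < K u`, as `K (u+j) ≤ K u + j e - W`, and (if `u + j + 1 < ℓ`)
  `K (u+j+1) > K u`, as `K (u+j+1) ≥ K u + (j+1) e - W - 2 W / G` (geometric sum
  `∑_{i=1}^{j} G ^ (ℓ-u-i) ≤ 2 G ^ (ℓ-u-1)`).
These give the order of the keys `u+1 < … < u+j < u < u+j+1 < … < ℓ-1 < u-1 < … < 0`.
-/

namespace Pool.Agent.H18.Ta

open Finset

private theorem Key_G (ℓ : ℕ) : 4 ≤ bG ℓ := by
  unfold bG
  nlinarith only [Nat.zero_le ℓ]

private theorem Key_step {ℓ s : ℕ} (hs : s < ℓ) : kap ℓ s = kap ℓ (s + 1) + bG ℓ ^ (ℓ - s) := by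
  unfold kap
  have h : ℓ - s = (ℓ - (s + 1)) + 1 := by omega
  rw [h, Finset.sum_range_succ]

private theorem Key_anti {ℓ s t : ℕ} (h : s ≤ t) : kap ℓ t ≤ kap ℓ s := by
  unfold kap
  refine Finset.sum_le_sum_of_subset ?_
  intro i hi
  rw [Finset.mem_range] at hi ⊢
  omega

private theorem Key_geo (ℓ n : ℕ) : ∑ i ∈ range n, bG ℓ ^ (i + 1) ≤ 2 * bG ℓ ^ n := by
  have hG := Key_G ℓ
  induction n with
  | zero => simp
  | succ n ih =>
    rw [Finset.sum_range_succ]
    have h1 : 4 * bG ℓ ^ n ≤ bG ℓ ^ (n + 1) := by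
      rw [pow_succ, mul_comm (bG ℓ ^ n)]
      exact Nat.mul_le_mul_right _ hG
    omega

private theorem Key_kap {ℓ u : ℕ} (hu : u < ℓ) :
    kap ℓ u ≤ bG ℓ ^ (ℓ - u) + 2 * bG ℓ ^ (ℓ - u - 1) := by
  unfold kap
  have h : ℓ - u = (ℓ - u - 1) + 1 := by omega
  have h2 := Key_geo ℓ (ℓ - u - 1)
  calc ∑ i ∈ range (ℓ - u), bG ℓ ^ (i + 1)
      = ∑ i ∈ range (ℓ - u - 1 + 1), bG ℓ ^ (i + 1) := by rw [← h]
    _ = ∑ i ∈ range (ℓ - u - 1), bG ℓ ^ (i + 1) + bG ℓ ^ (ℓ - u - 1 + 1) := by
        rw [Finset.sum_range_succ]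
    _ ≤ bG ℓ ^ (ℓ - u) + 2 * bG ℓ ^ (ℓ - u - 1) := by rw [← h]; omega

private theorem Key_ex_le (ℓ u j : ℕ) : ex ℓ u j ≤ 2 * bG ℓ ^ (ℓ - u) := by
  unfold ex
  split_ifs with h
  · exact le_rfl
  · exact (Nat.div_le_self _ _).trans ((Nat.sub_le _ _).trans (by omega))

private theorem Key_pow {ℓ u : ℕ} (hu : u < ℓ) :
    bG ℓ ^ (ℓ - u) = bG ℓ * bG ℓ ^ (ℓ - u - 1) := by
  rw [← pow_succ']
  congr 1
  omega

/-- The main lower bound. -/
private theorem Key_big {ℓ u j : ℕ} (h : u + j < ℓ) :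
    bG ℓ ^ (ℓ - u) + 2 * bG ℓ ^ (ℓ - u - 1) < ex ℓ u j * (j + 1) := by
  have hG := Key_G ℓ
  have hp := Key_pow (show u < ℓ by omega)
  set V := bG ℓ ^ (ℓ - u - 1) with hV
  have hV1 : 1 ≤ V := Nat.one_le_pow _ _ (by omega)
  unfold ex
  split_ifs with hj
  · subst hj
    rw [hp]
    nlinarith only [hG, hV1]
  · have hj1 : 1 ≤ j := Nat.one_le_iff_ne_zero.mpr hj
    set W := bG ℓ ^ (ℓ - u) with hW
    set e := (W - 1) / j with he
    have h1 : W ≤ e * j + j := by
      have h2 := Nat.div_add_mod (W - 1) j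
      have h3 := Nat.mod_lt (W - 1) hj1
      rw [← he] at h2
      have h4 : j * e = e * j := mul_comm _ _
      have h5 : 1 ≤ W := by rw [hp]; nlinarith only [hG, hV1]
      omega
    have hjl : j ≤ ℓ := by omega
    have h6 : j * j + j + 2 * j * V < W := by
      rw [hp]
      unfold bG
      nlinarith only [h, hV1, hj1, hjl, Nat.mul_le_mul hjl hjl, Nat.mul_le_mul hjl hV1, Nat.zero_le (ℓ * V)]
    -- e > j + 2 V
    have h7 : j + 2 * V < e := by
      by_contra hc
      push Not at hc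
      have : e * j ≤ (j + 2 * V) * j := Nat.mul_le_mul_right _ hc
      nlinarith only [h1, h6, this]
    nlinarith only [h1, h7]

private theorem Key_e_gt {ℓ u j : ℕ} (h : u + j < ℓ) : bG ℓ ^ (ℓ - u - 1) < ex ℓ u j := by
  have hG := Key_G ℓ
  have h1 := Key_big h
  have hp := Key_pow (show u < ℓ by omega)
  set V := bG ℓ ^ (ℓ - u - 1) with hV
  have hV1 : 1 ≤ V := Nat.one_le_pow _ _ (by omega)
  by_contra hc
  push Not at hc
  have h2 : ex ℓ u j * (j + 1) ≤ V * (j + 1) := Nat.mul_le_mul_right _ hc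
  have h3 : V * (j + 1) ≤ V * bG ℓ := by
    refine Nat.mul_le_mul_left _ ?_
    unfold bG
    nlinarith only [h]
  rw [hp] at h1
  nlinarith only [h1, hV1, h2, h3]

private theorem Key_low {ℓ u j : ℕ} (hj : 1 ≤ j) : ex ℓ u j * j < bG ℓ ^ (ℓ - u) := by
  have hG := Key_G ℓ
  unfold ex
  rw [if_neg (by omega)]
  have h1 := Nat.div_mul_le_self (bG ℓ ^ (ℓ - u) - 1) j
  have h2 : 1 ≤ bG ℓ ^ (ℓ - u) := Nat.one_le_pow _ _ (by omega)
  omega

private theorem Key_dec {ℓ u j s t : ℕ} (h : u + j < ℓ) (hst : s < t) (ht : t ≤ u) :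
    ex ℓ u j * t + kap ℓ t < ex ℓ u j * s + kap ℓ s := by
  have hG := Key_G ℓ
  have h1 := Key_step (show s < ℓ by omega)
  have h2 : kap ℓ t ≤ kap ℓ (s + 1) := Key_anti (by omega)
  have h3 := Key_ex_le ℓ u j
  -- ex * (t - s) < G ^ (ℓ - s)
  have h4 : bG ℓ ^ (ℓ - u) * bG ℓ ≤ bG ℓ ^ (ℓ - s) := by
    rw [← pow_succ]
    exact Nat.pow_le_pow_right (by omega) (by omega)
  obtain ⟨k, hk⟩ : ∃ k, t = s + k := ⟨t - s, by omega⟩
  have h5 : 1 ≤ bG ℓ ^ (ℓ - u) := Nat.one_le_pow _ _ (by omega)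
  have h6 : ex ℓ u j * k < bG ℓ ^ (ℓ - s) := by
    refine lt_of_lt_of_le ?_ h4
    have h7 : ex ℓ u j * k ≤ 2 * bG ℓ ^ (ℓ - u) * ℓ := Nat.mul_le_mul h3 (by omega)
    refine lt_of_le_of_lt h7 ?_
    have h8 : 2 * ℓ < bG ℓ := by unfold bG; nlinarith only [h, hst, ht]
    calc 2 * bG ℓ ^ (ℓ - u) * ℓ = bG ℓ ^ (ℓ - u) * (2 * ℓ) := by ring
      _ < bG ℓ ^ (ℓ - u) * bG ℓ := Nat.mul_lt_mul_of_pos_left h8 h5
  rw [hk] at h2 ⊢
  rw [h1, Nat.mul_add]
  omega

private theorem Key_inc {ℓ u j s t : ℕ} (h : u + j < ℓ) (hs : u < s) (hst : s < t) (ht : t < ℓ) :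
    ex ℓ u j * s + kap ℓ s < ex ℓ u j * t + kap ℓ t := by
  have hG := Key_G ℓ
  have he := Key_e_gt h
  induction t, hst using Nat.le_induction with
  | base =>
    have h1 := Key_step (show s < ℓ by omega)
    have h2 : bG ℓ ^ (ℓ - s) ≤ bG ℓ ^ (ℓ - u - 1) :=
      Nat.pow_le_pow_right (by omega) (by omega)
    rw [h1]
    have h3 : ex ℓ u j * (s + 1) = ex ℓ u j * s + ex ℓ u j := by ring
    have h4 : s.succ = s + 1 := rfl
    rw [h4] at *
    omega
  | succ t hst ih =>
    have h0 := ih (by omega)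
    have h1 := Key_step (show t < ℓ by omega)
    have h2 : bG ℓ ^ (ℓ - t) ≤ bG ℓ ^ (ℓ - u - 1) :=
      Nat.pow_le_pow_right (by omega) (by omega)
    have h3 : ex ℓ u j * (t + 1) = ex ℓ u j * t + ex ℓ u j := by ring
    omega

private theorem Key_up {ℓ u j s t : ℕ} (h : u + j < ℓ) (hs : u ≤ s) (hsl : s < ℓ) (ht : t < u) :
    ex ℓ u j * s + kap ℓ s < ex ℓ u j * t + kap ℓ t := by
  have hG := Key_G ℓ
  have h1 := Key_step (show t < ℓ by omega)
  have h2 : kap ℓ s ≤ kap ℓ (t + 1) := Key_anti (by omega)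
  have h3 := Key_ex_le ℓ u j
  have h4 : bG ℓ ^ (ℓ - u) * bG ℓ ≤ bG ℓ ^ (ℓ - t) := by
    rw [← pow_succ]
    exact Nat.pow_le_pow_right (by omega) (by omega)
  have h5 : 1 ≤ bG ℓ ^ (ℓ - u) := Nat.one_le_pow _ _ (by omega)
  have h6 : ex ℓ u j * s < bG ℓ ^ (ℓ - t) := by
    refine lt_of_lt_of_le ?_ h4
    have h7 : ex ℓ u j * s ≤ 2 * bG ℓ ^ (ℓ - u) * ℓ := Nat.mul_le_mul h3 (by omega)
    refine lt_of_le_of_lt h7 ?_
    have h8 : 2 * ℓ < bG ℓ := by unfold bG; nlinarith only [h, ht]
    calc 2 * bG ℓ ^ (ℓ - u) * ℓ = bG ℓ ^ (ℓ - u) * (2 * ℓ) := by ring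
      _ < bG ℓ ^ (ℓ - u) * bG ℓ := Nat.mul_lt_mul_of_pos_left h8 h5
  rw [h1]
  omega

private theorem Key_mid_lt {ℓ u j s : ℕ} (h : u + j < ℓ) (hs : u < s) (hsj : s ≤ u + j) :
    ex ℓ u j * s + kap ℓ s < ex ℓ u j * u + kap ℓ u := by
  have h1 := Key_step (show u < ℓ by omega)
  have h2 : kap ℓ s ≤ kap ℓ (u + 1) := Key_anti (by omega)
  have h3 := Key_low (ℓ := ℓ) (u := u) (j := j) (by omega)
  have h4 : ex ℓ u j * s ≤ ex ℓ u j * (u + j) := Nat.mul_le_mul_left _ hsj
  rw [Nat.mul_add] at h4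
  rw [h1]
  omega

private theorem Key_mid_gt {ℓ u j t : ℕ} (h : u + j < ℓ) (ht : u + j < t) :
    ex ℓ u j * u + kap ℓ u < ex ℓ u j * t + kap ℓ t := by
  have h1 := Key_kap (show u < ℓ by omega)
  have h2 := Key_big h
  have h4 : ex ℓ u j * (u + (j + 1)) ≤ ex ℓ u j * t := Nat.mul_le_mul_left _ (by omega)
  rw [Nat.mul_add] at h4
  omega

/-- The keys are ordered as the ranks. -/
theorem key_lt {ℓ u j s t : ℕ} (h : u + j < ℓ) (hs : s < ℓ) (ht : t < ℓ)
    (hr : rk ℓ u j s < rk ℓ u j t) :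
    ex ℓ u j * s + kap ℓ s < ex ℓ u j * t + kap ℓ t := by
  unfold rk at hr
  by_cases hsu : s < u
  · rw [if_pos hsu] at hr
    by_cases htu : t < u
    · rw [if_pos htu] at hr
      exact Key_dec h (by omega) hsu.le
    · exfalso
      rw [if_neg htu] at hr
      split_ifs at hr <;> omega
  · by_cases htu : t < u
    · exact Key_up h (by omega) hs htu
    · rw [if_neg hsu, if_neg htu] at hr
      by_cases hs0 : s = u
      · subst hs0
        rw [if_pos rfl] at hr
        by_cases ht0 : t = s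
        · rw [if_pos ht0] at hr; omega
        · rw [if_neg ht0] at hr
          by_cases htj : t ≤ s + j
          · rw [if_pos htj] at hr; omega
          · exact Key_mid_gt h (by omega)
      · rw [if_neg hs0] at hr
        by_cases ht0 : t = u
        · subst ht0
          rw [if_pos rfl] at hr
          by_cases hsj : s ≤ t + j
          · exact Key_mid_lt h (by omega) hsj
          · rw [if_neg hsj] at hr; omega
        · rw [if_neg ht0] at hr
          refine Key_inc h (by omega) ?_ ht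
          split_ifs at hr <;> omega

end Pool.Agent.H18.Ta

end

section

/-!
Facts on phi.
-/

namespace Pool.Agent.H21.HD

open scoped Classical

namespace PhiNumX

theorem phi_zero (κ : ℕ → ℝ) : phi κ 0 = 1 := by
  rw [phi]

theorem phi_succ (κ : ℕ → ℝ) (j : ℕ) : phi κ (j + 1) =
    phi κ j - ∑ e ∈ Finset.range (j + 1), κ (e + 1) * (j.choose e : ℝ) * phi κ (j - e) := by
  rw [phi, Finset.sum_range]

theorem phi_congr (d : ℕ) (κ κ' : ℕ → ℝ) (h : ∀ i, 1 ≤ i → i ≤ d → κ i = κ' i) :
    ∀ j ≤ d, phi κ j = phi κ' j := by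
  intro j
  induction j using Nat.strong_induction_on with
  | _ j ih =>
    intro hj
    cases j with
    | zero => rw [phi_zero, phi_zero]
    | succ j =>
      rw [phi_succ, phi_succ, ih j (by omega) (by omega)]
      congr 1
      refine Finset.sum_congr rfl fun e he => ?_
      have he' := Finset.mem_range.1 he
      rw [h (e + 1) (by omega) (by omega), ih (j - e) (by omega) (by omega)]

/-- With nonnegative loads and positive values, `phi` decreases. -/
theorem phi_le_sub (d : ℕ) (κ : ℕ → ℝ) (h0 : ∀ i, 0 ≤ κ i) (hpos : ∀ j ≤ d, 0 < phi κ j) (j : ℕ)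
    (hj : j ≤ d) : phi κ (j + 1) ≤ phi κ j - κ (j + 1) := by
  rw [phi_succ, Finset.sum_range_succ, Nat.choose_self, Nat.sub_self, phi_zero]
  have h1 : 0 ≤ ∑ e ∈ Finset.range j, κ (e + 1) * (j.choose e : ℝ) * phi κ (j - e) := by
    refine Finset.sum_nonneg fun e _ => ?_
    exact mul_nonneg (mul_nonneg (h0 _) (Nat.cast_nonneg _)) (hpos (j - e) (by omega)).le
  push_cast
  linarith

theorem phi_le_one (d : ℕ) (κ : ℕ → ℝ) (h0 : ∀ i, 0 ≤ κ i) (hpos : ∀ j ≤ d, 0 < phi κ j) :
    ∀ j ≤ d, phi κ j ≤ 1 := by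
  intro j
  induction j with
  | zero => intro _; rw [phi_zero]
  | succ j ih =>
    intro hj
    have h1 := phi_le_sub d κ h0 hpos j (by omega)
    have h2 := ih (by omega)
    have h3 := h0 (j + 1)
    linarith

end PhiNumX

open PhiNumX

/-- Monotonicity of `phi` inside the region. -/
theorem phi_anti (d : ℕ) (κ κ' : ℕ → ℝ) (h0 : ∀ i, 0 ≤ κ' i) (hle : ∀ i, κ' i ≤ κ i)
    (hpos : ∀ j ≤ d, 0 < phi κ j) : ∀ j ≤ d, phi κ j ≤ phi κ' j := by
  have key : ∀ j, j ≤ d → 0 < phi κ' j ∧ ∀ i ≤ j, phi κ j * phi κ' i ≤ phi κ' j * phi κ i := by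
    intro j
    induction j using Nat.strong_induction_on with
    | _ j ih =>
      intro hj
      cases j with
      | zero =>
        refine ⟨by rw [phi_zero]; norm_num, fun i hi => ?_⟩
        have : i = 0 := by omega
        subst this
        rw [phi_zero, phi_zero]
      | succ j =>
        obtain ⟨hp', hr⟩ := ih j (by omega) (by omega)
        have hp := hpos j (by omega)
        have h1 : phi κ (j + 1) * phi κ' j ≤ phi κ' (j + 1) * phi κ j := by
          rw [phi_succ κ, phi_succ κ', sub_mul, sub_mul, Finset.sum_mul, Finset.sum_mul]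
          have h2 : ∑ e ∈ Finset.range (j + 1), κ' (e + 1) * (j.choose e : ℝ) *
              phi κ' (j - e) * phi κ j ≤ ∑ e ∈ Finset.range (j + 1), κ (e + 1) *
              (j.choose e : ℝ) * phi κ (j - e) * phi κ' j := by
            refine Finset.sum_le_sum fun e _ => ?_
            have h3 := hr (j - e) (by omega)
            have h4 := hpos (j - e) (by omega)
            have hc : (0 : ℝ) ≤ (j.choose e : ℝ) := Nat.cast_nonneg _
            calc κ' (e + 1) * (j.choose e : ℝ) * phi κ' (j - e) * phi κ j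
                = κ' (e + 1) * (j.choose e : ℝ) * (phi κ j * phi κ' (j - e)) := by ring
              _ ≤ κ' (e + 1) * (j.choose e : ℝ) * (phi κ' j * phi κ (j - e)) :=
                mul_le_mul_of_nonneg_left h3 (mul_nonneg (h0 _) hc)
              _ = κ' (e + 1) * ((j.choose e : ℝ) * (phi κ' j * phi κ (j - e))) := by ring
              _ ≤ κ (e + 1) * ((j.choose e : ℝ) * (phi κ' j * phi κ (j - e))) :=
                mul_le_mul_of_nonneg_right (hle _)
                  (mul_nonneg hc (mul_nonneg hp'.le h4.le))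
              _ = κ (e + 1) * (j.choose e : ℝ) * phi κ (j - e) * phi κ' j := by ring
          linarith [mul_comm (phi κ j) (phi κ' j)]
        have hp1 := hpos (j + 1) hj
        have h5 : 0 < phi κ' (j + 1) * phi κ j := lt_of_lt_of_le (mul_pos hp1 hp') h1
        have h6 : 0 < phi κ' (j + 1) := by
          by_contra hcon
          push Not at hcon
          have := mul_nonpos_of_nonpos_of_nonneg hcon hp.le
          linarith
        refine ⟨h6, fun i hi => ?_⟩
        rcases Nat.lt_or_ge j i with h7 | h7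
        · have : i = j + 1 := by omega
          subst this
          rw [mul_comm]
        · have h8 := hr i h7
          have h9 : 0 < phi κ i := hpos i (by omega)
          have h10 : (phi κ (j + 1) * phi κ' i) * phi κ j ≤
              (phi κ' (j + 1) * phi κ i) * phi κ j := by
            calc (phi κ (j + 1) * phi κ' i) * phi κ j
                = phi κ (j + 1) * (phi κ j * phi κ' i) := by ring
              _ ≤ phi κ (j + 1) * (phi κ' j * phi κ i) := mul_le_mul_of_nonneg_left h8 hp1.le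
              _ = (phi κ (j + 1) * phi κ' j) * phi κ i := by ring
              _ ≤ (phi κ' (j + 1) * phi κ j) * phi κ i := mul_le_mul_of_nonneg_right h1 h9.le
              _ = (phi κ' (j + 1) * phi κ i) * phi κ j := by ring
          exact le_of_mul_le_mul_right h10 hp
  intro j hj
  have h := (key j hj).2 0 (Nat.zero_le j)
  rw [phi_zero, phi_zero, mul_one, mul_one] at h
  exact h

/-- Lipschitz estimate for `phi`. -/
theorem phi_lipschitz (j : ℕ) (C : ℝ) : ∃ L : ℝ, 0 ≤ L ∧ ∀ κ κ' : ℕ → ℝ,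
    (∀ i, 0 ≤ κ i ∧ κ i ≤ C) → (∀ i, 0 ≤ κ' i ∧ κ' i ≤ C) → ∀ δ : ℝ,
    (∀ i, |κ i - κ' i| ≤ δ) → |phi κ j - phi κ' j| ≤ L * δ := by
  have key : ∀ j : ℕ, ∃ L : ℝ, 0 ≤ L ∧ ∀ i ≤ j, ∀ κ κ' : ℕ → ℝ,
      (∀ i, 0 ≤ κ i ∧ κ i ≤ C) → (∀ i, 0 ≤ κ' i ∧ κ' i ≤ C) →
      |phi κ i| ≤ L ∧ ∀ δ : ℝ, (∀ i, |κ i - κ' i| ≤ δ) → |phi κ i - phi κ' i| ≤ L * δ := by
    intro j
    induction j with
    | zero =>
      refine ⟨1, zero_le_one, fun i hi κ κ' _ _ => ?_⟩
      have : i = 0 := by omega
      subst this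
      refine ⟨by rw [phi_zero, abs_one], fun δ hδ => ?_⟩
      rw [phi_zero, phi_zero, sub_self, abs_zero, one_mul]
      exact le_trans (abs_nonneg _) (hδ 0)
    | succ j ih =>
      obtain ⟨L, hL0, hL⟩ := ih
      refine ⟨L + ∑ e ∈ Finset.range (j + 1), (|C| * (j.choose e : ℝ) * L +
        (j.choose e : ℝ) * L), ?_, ?_⟩
      · refine add_nonneg hL0 (Finset.sum_nonneg fun e _ => ?_)
        positivity
      · intro i hi κ κ' hκ hκ'
        have hS : 0 ≤ ∑ e ∈ Finset.range (j + 1), (|C| * (j.choose e : ℝ) * L +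
            (j.choose e : ℝ) * L) := Finset.sum_nonneg fun e _ => by positivity
        rcases Nat.lt_or_ge j i with hji | hji
        · have : i = j + 1 := by omega
          subst this
          have hC : ∀ i, |κ i| ≤ |C| := by
            intro i
            rw [abs_of_nonneg (hκ i).1]
            exact le_trans (hκ i).2 (le_abs_self C)
          refine ⟨?_, fun δ hδ => ?_⟩
          · rw [phi_succ]
            refine le_trans (abs_sub _ _) (add_le_add ((hL j le_rfl κ κ' hκ hκ').1) ?_)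
            refine le_trans (Finset.abs_sum_le_sum_abs _ _) (Finset.sum_le_sum fun e _ => ?_)
            rw [abs_mul, abs_mul, Nat.abs_cast]
            have h1 := (hL (j - e) (by omega) κ κ' hκ hκ').1
            have h2 : |κ (e + 1)| * (j.choose e : ℝ) * |phi κ (j - e)| ≤
                |C| * (j.choose e : ℝ) * L :=
              mul_le_mul (mul_le_mul_of_nonneg_right (hC _) (Nat.cast_nonneg _)) h1
                (abs_nonneg _) (by positivity)
            have h3 : 0 ≤ (j.choose e : ℝ) * L := by positivity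
            linarith
          · have hδ0 : 0 ≤ δ := le_trans (abs_nonneg _) (hδ 0)
            rw [phi_succ, phi_succ, sub_sub_sub_comm, ← Finset.sum_sub_distrib, add_mul,
              Finset.sum_mul]
            refine le_trans (abs_sub _ _) (add_le_add ((hL j le_rfl κ κ' hκ hκ').2 δ hδ) ?_)
            refine le_trans (Finset.abs_sum_le_sum_abs _ _) (Finset.sum_le_sum fun e _ => ?_)
            have h1 := (hL (j - e) (by omega) κ κ' hκ hκ').2 δ hδ
            have h2 := (hL (j - e) (by omega) κ' κ hκ' hκ).1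
            have h3 : κ (e + 1) * (j.choose e : ℝ) * phi κ (j - e) -
                κ' (e + 1) * (j.choose e : ℝ) * phi κ' (j - e) =
                κ (e + 1) * (j.choose e : ℝ) * (phi κ (j - e) - phi κ' (j - e)) +
                (j.choose e : ℝ) * ((κ (e + 1) - κ' (e + 1)) * phi κ' (j - e)) := by ring
            rw [h3]
            refine le_trans (abs_add_le _ _) ?_
            rw [abs_mul, abs_mul, abs_mul, abs_mul, Nat.abs_cast]
            have h4 : |κ (e + 1)| * (j.choose e : ℝ) * |phi κ (j - e) - phi κ' (j - e)| ≤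
                |C| * (j.choose e : ℝ) * (L * δ) :=
              mul_le_mul (mul_le_mul_of_nonneg_right (hC _) (Nat.cast_nonneg _)) h1
                (abs_nonneg _) (by positivity)
            have h5 : (j.choose e : ℝ) * (|κ (e + 1) - κ' (e + 1)| * |phi κ' (j - e)|) ≤
                (j.choose e : ℝ) * (δ * L) :=
              mul_le_mul_of_nonneg_left (mul_le_mul (hδ _) h2 (abs_nonneg _) hδ0)
                (Nat.cast_nonneg _)
            calc _ ≤ |C| * (j.choose e : ℝ) * (L * δ) + (j.choose e : ℝ) * (δ * L) :=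
                  add_le_add h4 h5
              _ = (|C| * (j.choose e : ℝ) * L + (j.choose e : ℝ) * L) * δ := by ring
        · obtain ⟨h1, h2⟩ := hL i hji κ κ' hκ hκ'
          refine ⟨by linarith, fun δ hδ => ?_⟩
          have hδ0 : 0 ≤ δ := le_trans (abs_nonneg _) (hδ 0)
          have h3 := h2 δ hδ
          have h4 := mul_nonneg hS hδ0
          rw [add_mul]
          linarith
  obtain ⟨L, hL0, hL⟩ := key j
  exact ⟨L, hL0, fun κ κ' hκ hκ' δ hδ => (hL j le_rfl κ κ' hκ hκ').2 δ hδ⟩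

/-- Capping the loads at `1`. -/
theorem phi_cap (d : ℕ) (κ : ℕ → ℝ) (h0 : ∀ i, 0 ≤ κ i) (h : ∃ j ≤ d, phi κ j ≤ 0) :
    ∃ j ≤ d, phi (fun i => min (κ i) 1) j ≤ 0 := by
  by_contra hcon
  push Not at hcon
  have h0' : ∀ i, 0 ≤ (fun i => min (κ i) 1) i := fun i => le_min (h0 i) zero_le_one
  by_cases hall : ∀ i, 1 ≤ i → i ≤ d → κ i ≤ 1
  · obtain ⟨j, hj, hneg⟩ := h
    have h1 := phi_congr d κ (fun i => min (κ i) 1)
      (fun i h1 h2 => (min_eq_left (hall i h1 h2)).symm) j hj
    have h2 := hcon j hj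
    rw [← h1] at h2
    linarith
  · push Not at hall
    obtain ⟨i, hi1, hid, hi⟩ := hall
    obtain ⟨j, rfl⟩ := Nat.exists_eq_add_of_le' hi1
    have h1 := phi_le_sub d _ h0' hcon j (by omega)
    have h2 := phi_le_one d _ h0' hcon j (by omega)
    have h3 := hcon (j + 1) hid
    have h4 : min (κ (j + 1)) 1 = 1 := min_eq_right hi.le
    simp only [h4] at h1
    linarith

/-- A single exponent with load at least `1`. -/
theorem phi_single (i : ℕ) (hi : 1 ≤ i) : phi (fun t => if t = i then 1 else 0) i = 0 := by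
  have h1 : ∀ j, j < i → phi (fun t => if t = i then (1 : ℝ) else 0) j = 1 := by
    intro j
    induction j using Nat.strong_induction_on with
    | _ j ih =>
      intro hj
      cases j with
      | zero => rw [phi_zero]
      | succ j =>
        rw [phi_succ, ih j (by omega) (by omega), Finset.sum_eq_zero, sub_zero]
        intro e he
        have he' := Finset.mem_range.1 he
        rw [if_neg (by omega), zero_mul, zero_mul]
  obtain ⟨j, rfl⟩ := Nat.exists_eq_add_of_le' hi
  rw [phi_succ, h1 j (by omega), Finset.sum_eq_single j]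
  · rw [if_pos rfl, Nat.choose_self, Nat.sub_self, phi_zero]
    norm_num
  · intro e he hej
    have he' := Finset.mem_range.1 he
    rw [if_neg (by omega), zero_mul, zero_mul]
  · intro h
    exact absurd (Finset.mem_range.2 (by omega)) h

end Pool.Agent.H21.HD

end

section

/-!
# Module U1 (TB2): sections

If the general dimension is not `0`, there are nonzero solutions with polynomial coefficients.

Proof.  Let `K` be the fraction field of `R = MvPolynomial (κ × ν) ℂ` and `Mx` the matrix over `R` of all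
conditions (rows `Σ i, S.R (m i)`, finite; columns `E`).  If `Mx` has a nonzero kernel vector over `K`, clear
denominators.  Otherwise its rank over `K` is `card E`, so some square submatrix with all columns has a
nonzero determinant, a polynomial; at a position where it does not vanish `V m p = ⊥`, so `gd m = 0`.
(Compare the proof of `exists_poly_solution` in `Pool/Agent/H18/Ex/OnePar.lean`.  Alternatively: let
`r < card E` be the largest rank at a position, take an `r`-minor which is a nonzero polynomial, add one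
column and use Cramer's rule; all `(r+1)`-minors vanish identically.)
-/

namespace Pool.Agent.H51.TB

open Finset MvPolynomial

variable {E ν T : Type} [Fintype E] (S : Sys E ν T) {κ : Type}

private theorem Sect_solution {α ρ σ : Type} [Fintype ρ] [Fintype α]
    (Mx : ρ → α → MvPolynomial σ ℂ)
    (h : ∀ t : σ → ℂ, ∃ f : α → ℂ, (∀ r, ∑ a, f a * eval t (Mx r a) = 0) ∧ ∃ a, f a ≠ 0) :
    ∃ F : α → MvPolynomial σ ℂ, (∀ r, ∑ a, Mx r a * F a = 0) ∧ ∃ a, F a ≠ 0 := by
  classical
  let K := FractionRing (MvPolynomial σ ℂ)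
  let φ : MvPolynomial σ ℂ →+* K := algebraMap (MvPolynomial σ ℂ) K
  have hφ : Function.Injective φ := IsFractionRing.injective (MvPolynomial σ ℂ) K
  let Mk : Matrix ρ α K := fun r a => φ (Mx r a)
  by_cases hker : LinearMap.ker Mk.mulVecLin = ⊥
  · exfalso
    obtain ⟨g, hg⟩ := LinearMap.exists_leftInverse_of_injective Mk.mulVecLin hker
    let B : Matrix α ρ K := LinearMap.toMatrix' g
    have hB : B * Mk = 1 := by
      have h1 : LinearMap.toMatrix' (g ∘ₗ Mk.mulVecLin) = 1 := by
        rw [hg, LinearMap.toMatrix'_id]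
      rw [LinearMap.toMatrix'_comp] at h1
      rw [← h1]
      congr 1
      rw [← Matrix.toLin'_apply', LinearMap.toMatrix'_toLin']
    obtain ⟨δ, hδ⟩ := IsLocalization.exist_integer_multiples_of_finite
      (nonZeroDivisors (MvPolynomial σ ℂ)) (fun x : α × ρ => B x.1 x.2)
    choose B' hB' using hδ
    have hδ0 : (δ : MvPolynomial σ ℂ) ≠ 0 := nonZeroDivisors.coe_ne_zero δ
    have key : ∀ a a' : α, ∑ r, B' (a, r) * Mx r a' = if a = a' then (δ : MvPolynomial σ ℂ) else 0 := by
      intro a a'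
      apply hφ
      rw [map_sum]
      have h1 : ∀ r, φ (B' (a, r) * Mx r a') = φ δ * (B a r * Mk r a') := by
        intro r
        rw [map_mul]
        have h2 := hB' (a, r)
        rw [Algebra.smul_def] at h2
        rw [show φ (B' (a, r)) = φ δ * B a r from h2]
        show φ δ * B a r * φ (Mx r a') = φ δ * (B a r * φ (Mx r a'))
        ring
      rw [sum_congr rfl fun r _ => h1 r, ← mul_sum]
      have h3 : ∑ r, B a r * Mk r a' = (B * Mk) a a' := rfl
      rw [h3, hB, Matrix.one_apply]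
      split_ifs with hh
      · rw [mul_one]
      · rw [mul_zero, map_zero]
    obtain ⟨t, ht⟩ : ∃ t : σ → ℂ, eval t (δ : MvPolynomial σ ℂ) ≠ 0 := by
      by_contra hcon
      push Not at hcon
      apply hδ0
      exact MvPolynomial.funext fun t => by rw [hcon t, map_zero]
    obtain ⟨f, hf, a, hfa⟩ := h t
    apply hfa
    have h4 : eval t (δ : MvPolynomial σ ℂ) * f a = 0 := by
      have h5 : ∑ a' : α, (∑ r, eval t (B' (a, r)) * eval t (Mx r a')) * f a' = 0 := by
        simp only [sum_mul]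
        rw [sum_comm]
        refine sum_eq_zero fun r _ => ?_
        have h6 := hf r
        have h7 : ∑ a' : α, eval t (B' (a, r)) * eval t (Mx r a') * f a' =
            eval t (B' (a, r)) * ∑ a' : α, f a' * eval t (Mx r a') := by
          rw [mul_sum]
          exact sum_congr rfl fun a' _ => by ring
        rw [h7, h6, mul_zero]
      have h8 : ∀ a' : α, (∑ r, eval t (B' (a, r)) * eval t (Mx r a')) =
          if a = a' then eval t (δ : MvPolynomial σ ℂ) else 0 := by
        intro a'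
        have h9 := congrArg (eval t) (key a a')
        rw [map_sum] at h9
        simp only [map_mul] at h9
        rw [h9]
        split_ifs
        · rfl
        · exact map_zero _
      rw [sum_congr rfl fun a' _ => by rw [h8 a']] at h5
      rw [Finset.sum_eq_single a] at h5
      · rw [if_pos rfl] at h5
        exact h5
      · intro b _ hb
        rw [if_neg (fun h => hb h.symm), zero_mul]
      · intro hh
        exact absurd (mem_univ _) hh
    rcases mul_eq_zero.1 h4 with h5 | h5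
    · exact absurd h5 ht
    · exact h5
  · obtain ⟨v, hv, hv0⟩ := (Submodule.ne_bot_iff _).1 hker
    rw [LinearMap.mem_ker, Matrix.mulVecLin_apply] at hv
    obtain ⟨a₀, ha₀⟩ : ∃ a, v a ≠ 0 := by
      by_contra hcon
      push Not at hcon
      exact hv0 (funext hcon)
    obtain ⟨δ, hδ⟩ := IsLocalization.exist_integer_multiples_of_finite
      (nonZeroDivisors (MvPolynomial σ ℂ)) v
    choose F hF' using hδ
    have hδ0 : (δ : MvPolynomial σ ℂ) ≠ 0 := nonZeroDivisors.coe_ne_zero δ
    have hFa : ∀ a : α, φ (F a) = φ δ * v a := by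
      intro a
      have h2 := hF' a
      rw [Algebra.smul_def] at h2
      exact h2
    refine ⟨F, ?_, a₀, ?_⟩
    · intro r
      apply hφ
      rw [map_zero, map_sum]
      have h1 : ∑ a : α, φ (Mx r a * F a) = φ δ * ∑ a : α, Mk r a * v a := by
        rw [mul_sum]
        refine sum_congr rfl fun a _ => ?_
        rw [map_mul, hFa a]
        show φ (Mx r a) * (φ δ * v a) = φ δ * (φ (Mx r a) * v a)
        ring
      rw [h1]
      have h2 : ∑ a : α, Mk r a * v a = Mk.mulVec v r := rfl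
      rw [h2, hv]
      show φ δ * 0 = 0
      rw [mul_zero]
    · intro hz
      have h1 := hFa a₀
      rw [hz, map_zero] at h1
      rcases mul_eq_zero.1 h1.symm with h2 | h2
      · apply hδ0
        apply hφ
        rw [h2, map_zero]
      · exact ha₀ h2

theorem exists_section [Fintype κ] (m : κ → T) (h : S.gd m ≠ 0) :
    ∃ F : E → MvPolynomial (κ × ν) ℂ, (∃ e, F e ≠ 0) ∧
      ∀ i (r : S.R (m i)), ∑ e, rename (fun v => (i, v)) (S.co (m i) r e) * F e = 0 := by
  classical
  have hfin : ∀ i, Finite (S.R (m i)) := fun i => S.fin (m i)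
  let _ : Fintype (Σ i, S.R (m i)) := Fintype.ofFinite _
  obtain ⟨F, hF, hne⟩ := Sect_solution (ρ := Σ i, S.R (m i)) (σ := κ × ν)
    (fun x e => rename (fun v => (x.1, v)) (S.co (m x.1) x.2 e)) (by
      intro t
      have h1 : Module.finrank ℂ (S.V m fun i v => t (i, v)) ≠ 0 := by
        intro h0
        apply h
        unfold Sys.gd
        exact Nat.sInf_eq_zero.2 (Or.inl ⟨_, h0⟩)
      have h2 : S.V m (fun i v => t (i, v)) ≠ ⊥ := by
        intro hb
        rw [hb] at h1
        exact h1 (finrank_bot ℂ (E → ℂ))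
      obtain ⟨f, hf, hf0⟩ := (Submodule.ne_bot_iff _).1 h2
      refine ⟨f, fun r => ?_, ?_⟩
      · have h3 := hf r.1 r.2
        rw [← h3]
        refine sum_congr rfl fun e _ => ?_
        rw [eval_rename, mul_comm]
        rfl
      · by_contra hcon
        push Not at hcon
        exact hf0 (funext hcon))
  exact ⟨F, hne, fun i r => hF ⟨i, r⟩⟩

/-- The values of a section are solutions. -/
theorem section_mem (m : κ → T) (F : E → MvPolynomial (κ × ν) ℂ)
    (hF : ∀ i (r : S.R (m i)), ∑ e, rename (fun v => (i, v)) (S.co (m i) r e) * F e = 0)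
    (p : κ → ν → ℂ) : (fun e => eval (fun x : κ × ν => p x.1 x.2) (F e)) ∈ S.V m p := by
  rw [S.mem_V]
  intro i r
  have h1 := congrArg (eval (fun x : κ × ν => p x.1 x.2)) (hF i r)
  rw [map_sum, map_zero] at h1
  rw [← h1]
  refine sum_congr rfl fun e _ => ?_
  rw [map_mul, eval_rename]
  rfl

end Pool.Agent.H51.TB

end
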