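import Pool.Agent.H94.LP5.M03
import Pool.Agent.H94.LP5.M13
import Pool.Agent.H94.LP5.M19

/-! The parts of this file: H21.HD.PhiIndep, H21.HD.PhiOpen, H51.TB.Grow, H51.TB.Cell, H51.TB.Bnd, H51.TB.Eul. -/

section

/-!
From PhiInj to independence.
-/

namespace Pool.Agent.H21.HD

open MvPolynomial
open scoped Classical

variable {N : ℕ} {A Λ P : Type} [Fintype A] [Fintype Λ] [Fintype P]

private theorem bdeg_add' (γ δ : Sg N A Λ →₀ ℕ) (i : Fin N) :
    bdeg (γ + δ) i = bdeg γ i + bdeg δ i := by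
  unfold bdeg
  rw [← Finset.sum_add_distrib]
  rfl

private theorem bsupp_add' (γ δ : Sg N A Λ →₀ ℕ) :
    bsupp (γ + δ) = bsupp γ ∪ bsupp δ := by
  ext i
  simp only [bsupp, Finset.mem_filter, Finset.mem_univ, true_and, Finset.mem_union, bdeg_add']
  omega

private theorem bsupp_lin (c : Finset (Fin N)) (v : Fin N → A → ℂ) (y : Λ → ℂ)
    (δ : Sg N A Λ →₀ ℕ) (h : coeff δ (lin (vec c v y)) ≠ 0) : bsupp δ ⊆ c := by
  unfold lin at h
  rw [coeff_sum] at h
  obtain ⟨s, _, hs⟩ := Finset.exists_ne_zero_of_sum_ne_zero h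
  rw [coeff_C_mul, coeff_X] at hs
  split_ifs at hs with h1
  · intro i hi
    simp only [bsupp, Finset.mem_filter, Finset.mem_univ, true_and] at hi
    unfold bdeg at hi
    obtain ⟨a, _, ha⟩ := Finset.exists_ne_zero_of_sum_ne_zero hi
    rw [← h1, Finsupp.single_apply] at ha
    split_ifs at ha with h2
    · rw [h2] at hs
      by_contra hic
      apply hs
      simp [vec, hic]
    · exact absurd rfl ha
  · simp at hs

private theorem bsupp_lin_pow (c : Finset (Fin N)) (v : Fin N → A → ℂ) (y : Λ → ℂ) (e : ℕ)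
    (δ : Sg N A Λ →₀ ℕ) (h : coeff δ (lin (vec c v y) ^ e) ≠ 0) : bsupp δ ⊆ c := by
  induction e generalizing δ with
  | zero =>
    rw [pow_zero, coeff_one] at h
    split_ifs at h with h1
    · rw [← h1]
      intro i hi
      simp [bsupp, bdeg] at hi
    · exact absurd rfl h
  | succ e ih =>
    rw [pow_succ, coeff_mul] at h
    obtain ⟨x, hx, hx2⟩ := Finset.exists_ne_zero_of_sum_ne_zero h
    have hx := Finset.HasAntidiagonal.mem_antidiagonal.1 hx
    rw [← hx, bsupp_add']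
    exact Finset.union_subset (ih _ (left_ne_zero_of_mul hx2))
      (bsupp_lin c v y _ (right_ne_zero_of_mul hx2))

private theorem card_bsupp_le (γ : Sg N A Λ →₀ ℕ) : (bsupp γ).card ≤ γ.degree := by
  have h1 : γ.degree = ∑ s, γ s := by
    rw [Finsupp.degree_eq_sum]
  rw [h1, Fintype.sum_sum_type, Fintype.sum_prod_type]
  have h2 : (bsupp γ).card ≤ ∑ i : Fin N, ∑ a : A, γ (Sum.inl (i, a)) := by
    rw [Finset.card_eq_sum_ones]
    unfold bsupp
    rw [Finset.sum_filter]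
    apply Finset.sum_le_sum
    intro i _
    split_ifs with h3
    · unfold bdeg at h3
      omega
    · exact Nat.zero_le _
  omega

/-- The powers are independent if `PhiInj` holds for all sets of at most `d` blocks. -/
theorem indep_of_phiInj (d : ℕ) (c : P → Finset (Fin N)) (hc : ∀ p, (c p).card ≤ d)
    (v : P → Fin N → A → ℂ) (y : P → Λ → ℂ)
    (h : ∀ J : Finset (Fin N), J.card ≤ d → PhiInj d J c v y) :
    Indep d (fun p => vec (c p) (v p) (y p)) (fun p => (c p).card) := by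
  intro g hg hsum
  by_contra hcon
  push Not at hcon
  obtain ⟨p1, hp1⟩ := hcon
  obtain ⟨γ1, hγ1⟩ := (MvPolynomial.ne_zero_iff).1 hp1
  -- a pair with the largest set of blocks
  let S : Finset (Σ _ : P, (Sg N A Λ →₀ ℕ)) := Finset.univ.sigma (fun p => (g p).support)
  have hS : S.Nonempty := ⟨⟨p1, γ1⟩, by simp [S, hγ1]⟩
  obtain ⟨⟨p0, γ0⟩, hmem, hmax⟩ := Finset.exists_max_image S
    (fun x => (bsupp x.2 ∪ c x.1).card) hS
  have hγ0 : coeff γ0 (g p0) ≠ 0 := by
    have := (Finset.mem_sigma.1 hmem).2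
    exact mem_support_iff.1 this
  have hmax' : ∀ p γ, coeff γ (g p) ≠ 0 → (bsupp γ ∪ c p).card ≤ (bsupp γ0 ∪ c p0).card := by
    intro p γ hγ
    have h0 : (⟨p, γ⟩ : Σ _ : P, (Sg N A Λ →₀ ℕ)) ∈ S :=
      Finset.mem_sigma.2 ⟨Finset.mem_univ _, mem_support_iff.2 hγ⟩
    exact hmax ⟨p, γ⟩ h0
  set J : Finset (Fin N) := bsupp γ0 ∪ c p0 with hJ
  have hJd : J.card ≤ d := by
    have h1 := Finset.card_union_le (bsupp γ0) (c p0)
    have h2 := card_bsupp_le γ0
    have h3 : γ0.degree = d - (c p0).card := by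
      have := (hg p0) hγ0
      rw [← this]
      exact DFunLike.congr_fun (Finsupp.degree_eq_weight_one (σ := Sg N A Λ) (R := ℕ)) γ0
    have h4 := hc p0
    rw [← hJ] at h1
    omega
  let g' : P → MvPolynomial (Sg N A Λ) ℂ := fun p =>
    ∑ γ ∈ (g p).support.filter (fun γ => bsupp γ ∪ c p = J), monomial γ (coeff γ (g p))
  have hg'c : ∀ p γ, coeff γ (g' p) = if bsupp γ ∪ c p = J then coeff γ (g p) else 0 := by
    intro p γ
    simp only [g']
    rw [coeff_sum]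
    simp only [coeff_monomial]
    by_cases hb : bsupp γ ∪ c p = J
    · rw [if_pos hb]
      by_cases h0 : coeff γ (g p) = 0
      · rw [h0]
        apply Finset.sum_eq_zero
        intro δ _
        split_ifs with h5
        · rw [h5, h0]
        · rfl
      · rw [Finset.sum_ite_eq' , if_pos]
        rw [Finset.mem_filter, mem_support_iff]
        exact ⟨h0, hb⟩
    · rw [if_neg hb]
      apply Finset.sum_eq_zero
      intro δ hδ
      rw [Finset.mem_filter] at hδ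
      split_ifs with h5
      · rw [h5] at hδ
        exact absurd hδ.2 hb
      · rfl
  have hres := h J hJd g' ?_ ?_ ?_ p0
  · have h1 := hg'c p0 γ0
    rw [hres, if_pos rfl, coeff_zero] at h1
    exact hγ0 h1.symm
  · intro p γ hγ
    rw [hg'c] at hγ
    split_ifs at hγ with h1
    · exact hg p hγ
    · exact absurd rfl hγ
  · intro p γ hγ
    rw [hg'c] at hγ
    split_ifs at hγ with h1
    · exact h1
    · exact absurd rfl hγ
  · intro γ hγ
    have h1 : coeff γ (∑ p, g p * lin (vec (c p) (v p) (y p)) ^ (c p).card) = 0 := by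
      rw [hsum, coeff_zero]
    rw [← h1, coeff_sum, coeff_sum]
    apply Finset.sum_congr rfl
    intro p _
    rw [coeff_mul, coeff_mul]
    apply Finset.sum_congr rfl
    intro x hx
    have hx := Finset.HasAntidiagonal.mem_antidiagonal.1 hx
    by_cases h2 : coeff x.2 (lin (vec (c p) (v p) (y p)) ^ (c p).card) = 0
    · rw [h2, mul_zero, mul_zero]
    congr 1
    rw [hg'c]
    split_ifs with h3
    · rfl
    · by_contra h4
      have h5 : coeff x.1 (g p) ≠ 0 := fun h6 => h4 h6.symm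
      apply h3
      have h6 : bsupp x.2 ⊆ c p := bsupp_lin_pow _ _ _ _ _ h2
      have h7 : J ⊆ bsupp x.1 ∪ c p := by
        rw [← hγ, ← hx, bsupp_add']
        exact Finset.union_subset_union_right h6
      exact (Finset.eq_of_subset_of_card_le h7 (hmax' p x.1 h5)).symm

end Pool.Agent.H21.HD

end

section

/-!
PhiInj is open.
-/

namespace Pool.Agent.H21.HD

open MvPolynomial
open scoped Classical

namespace PhiOpenX

/-- All coefficients are polynomial in the parameters. -/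
def CP {σ τ : Type*} (F : (σ → ℂ) → MvPolynomial τ ℂ) : Prop :=
  ∀ γ, PolyFun (fun x => coeff γ (F x))

theorem CP.const {σ τ : Type*} (f : MvPolynomial τ ℂ) : CP (fun _ : σ → ℂ => f) :=
  fun _ => PolyFun.const _

theorem CP.mul {σ τ : Type*} {F G : (σ → ℂ) → MvPolynomial τ ℂ} (hF : CP F) (hG : CP G) :
    CP (fun x => F x * G x) := by
  intro γ
  simp only [coeff_mul]
  exact PolyFun.sum _ _ fun k _ => (hF k.1).mul (hG k.2)

theorem CP.pow {σ τ : Type*} {F : (σ → ℂ) → MvPolynomial τ ℂ} (hF : CP F) (n : ℕ) :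
    CP (fun x => F x ^ n) := by
  induction n with
  | zero => simpa using CP.const (σ := σ) (1 : MvPolynomial τ ℂ)
  | succ n ih =>
    simp only [pow_succ]
    exact ih.mul hF

theorem CP.sum {σ τ κ : Type*} (S : Finset κ) (F : κ → (σ → ℂ) → MvPolynomial τ ℂ)
    (hF : ∀ k ∈ S, CP (F k)) : CP (fun x => ∑ k ∈ S, F k x) := by
  intro γ
  simp only [coeff_sum]
  exact PolyFun.sum _ _ fun k hk => hF k hk γ

theorem CP.C {σ τ : Type*} {F : (σ → ℂ) → ℂ} (hF : PolyFun F) :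
    CP (fun x => (MvPolynomial.C (F x) : MvPolynomial τ ℂ)) := by
  intro γ
  simp only [coeff_C]
  by_cases h : (0 : τ →₀ ℕ) = γ
  · simpa [h] using hF
  · simpa [h] using PolyFun.const (σ := σ) 0

theorem CP.lin {σ τ : Type*} [Fintype τ] {w : (σ → ℂ) → τ → ℂ}
    (hw : ∀ s, PolyFun (fun x => w x s)) : CP (fun x => Pool.Agent.H21.HD.lin (w x)) := by
  unfold Pool.Agent.H21.HD.lin
  exact CP.sum _ _ fun s _ => (CP.C (hw s)).mul (CP.const _)

theorem lin_homog {τ : Type*} [Fintype τ] (w : τ → ℂ) :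
    (Pool.Agent.H21.HD.lin w).IsHomogeneous 1 := by
  unfold Pool.Agent.H21.HD.lin
  apply IsHomogeneous.sum
  intro s _
  simpa using (isHomogeneous_C τ (w s)).mul (isHomogeneous_X ℂ s)

end PhiOpenX

open PhiOpenX

variable {N : ℕ} {A Λ P : Type} [Fintype A] [Fintype Λ] [Fintype P]

namespace PhiOpenX

/-- The space of multipliers. -/
def VV (N : ℕ) (A Λ : Type) {P : Type} [Fintype A] [Fintype Λ] (d : ℕ) (J : Finset (Fin N))
    (c : P → Finset (Fin N)) : Submodule ℂ (P → MvPolynomial (Sg N A Λ) ℂ) where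
  carrier := {g | (∀ p, (g p).IsHomogeneous (d - (c p).card)) ∧
    ∀ p γ, coeff γ (g p) ≠ 0 → bsupp γ ∪ c p = J}
  add_mem' := by
    rintro g g' ⟨h1, h2⟩ ⟨h1', h2'⟩
    refine ⟨fun p => (h1 p).add (h1' p), fun p γ h => ?_⟩
    simp only [Pi.add_apply, coeff_add] at h
    by_cases h0 : coeff γ (g p) = 0
    · rw [h0, zero_add] at h
      exact h2' p γ h
    · exact h2 p γ h0
  zero_mem' := ⟨fun p => isHomogeneous_zero _ _ _, fun p γ h => absurd (by simp) h⟩
  smul_mem' := by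
    rintro a g ⟨h1, h2⟩
    refine ⟨fun p => ?_, fun p γ h => ?_⟩
    · have := (isHomogeneous_C (Sg N A Λ) a).mul (h1 p)
      simpa [MvPolynomial.smul_eq_C_mul] using this
    · simp only [Pi.smul_apply, coeff_smul, smul_eq_mul] at h
      exact h2 p γ (right_ne_zero_of_mul h)

/-- The exponent vectors of degree at most `M`. -/
abbrev YY (N : ℕ) (A Λ : Type) (M : ℕ) : Type := {γ : Sg N A Λ →₀ ℕ // γ.degree ≤ M}

theorem finite_YY (M : ℕ) : Finite (YY N A Λ M) := by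
  have : Set.Finite {γ : Sg N A Λ →₀ ℕ | γ.degree ≤ M} := by
    have h1 : {γ : Sg N A Λ →₀ ℕ | γ.degree ≤ M} ⊆
        Set.Iic (Finsupp.equivFunOnFinite.symm (fun _ => M)) := by
      intro γ hγ s
      have : γ s ≤ γ.degree := Finsupp.le_degree s γ
      simp only [Finsupp.equivFunOnFinite_symm_apply_apply]
      exact this.trans hγ
    exact (Set.finite_Iic _).subset h1
  exact this.to_subtype

theorem finiteDimensional_VV (d : ℕ) (J : Finset (Fin N)) (c : P → Finset (Fin N)) :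
    FiniteDimensional ℂ (VV N A Λ d J c) := by
  haveI := finite_YY (N := N) (A := A) (Λ := Λ) d
  let f : VV N A Λ d J c →ₗ[ℂ] (P × YY N A Λ d → ℂ) :=
    { toFun := fun g x => coeff x.2.1 (g.1 x.1)
      map_add' := by intro g g'; funext x; simp
      map_smul' := by intro a g; funext x; simp }
  apply Module.Finite.of_injective f
  intro g g' h
  apply Subtype.ext
  funext p
  ext γ
  by_cases hγ : γ.degree ≤ d
  · exact congrFun h (p, ⟨γ, hγ⟩)
  · have h1 : coeff γ (g.1 p) = 0 := by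
      apply (g.2.1 p).coeff_eq_zero
      omega
    have h2 : coeff γ (g'.1 p) = 0 := by
      apply (g'.2.1 p).coeff_eq_zero
      omega
    rw [h1, h2]

/-- The sum map. -/
noncomputable def TT (d : ℕ) (J : Finset (Fin N)) (c : P → Finset (Fin N))
    (x : (P × Fin N × A) ⊕ (P × Λ) → ℂ) :
    VV N A Λ d J c →ₗ[ℂ] ({γ : YY N A Λ (d + N) // bsupp γ.1 = J} → ℂ) where
  toFun g γ := coeff γ.1.1 (∑ p, g.1 p *
    lin (vec (c p) (fun i a => x (Sum.inl (p, i, a))) (fun l => x (Sum.inr (p, l)))) ^ (c p).card)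
  map_add' g g' := by
    funext γ
    simp only [Submodule.coe_add, Pi.add_apply, add_mul, Finset.sum_add_distrib, coeff_add]
  map_smul' a g := by
    funext γ
    simp only [SetLike.val_smul, Pi.smul_apply, smul_mul_assoc, ← Finset.smul_sum, coeff_smul,
      RingHom.id_apply]

theorem TT_inj_iff (d : ℕ) (J : Finset (Fin N)) (c : P → Finset (Fin N))
    (v : P → Fin N → A → ℂ) (y : P → Λ → ℂ) :
    Function.Injective (TT d J c (Sum.elim (fun x => v x.1 x.2.1 x.2.2) (fun x => y x.1 x.2))) ↔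
      PhiInj d J c v y := by
  constructor
  · intro h g hg1 hg2 hg3
    have h0 : (⟨g, hg1, hg2⟩ : VV N A Λ d J c) = 0 := by
      apply h
      rw [map_zero]
      funext γ
      exact hg3 γ.1.1 γ.2
    intro p
    have h1 := congrArg (fun z : VV N A Λ d J c => z.1 p) h0
    simpa using h1
  · intro h
    rw [← LinearMap.ker_eq_bot, LinearMap.ker_eq_bot']
    intro g hg
    have h1 := h g.1 g.2.1 g.2.2 (fun γ hγ => by
      by_cases hd : γ.degree ≤ d + N
      · exact congrFun hg ⟨⟨γ, hd⟩, hγ⟩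
      · rw [coeff_sum]
        apply Finset.sum_eq_zero
        intro p _
        have h2 : (g.1 p * lin (vec (c p) (v p) (y p)) ^ (c p).card).IsHomogeneous
            (d - (c p).card + 1 * (c p).card) :=
          (g.2.1 p).mul ((lin_homog _).pow _)
        apply h2.coeff_eq_zero
        have h3 : (c p).card ≤ N := by
          simpa using Finset.card_le_univ (c p)
        omega)
    apply Subtype.ext
    funext p
    exact h1 p

end PhiOpenX

/-- `PhiInj` is an open condition. -/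
theorem phiInj_open (d : ℕ) (J : Finset (Fin N)) (c : P → Finset (Fin N))
    (v₀ : P → Fin N → A → ℂ) (y₀ : P → Λ → ℂ) (h : PhiInj d J c v₀ y₀) :
    ∃ G : MvPolynomial ((P × Fin N × A) ⊕ (P × Λ)) ℂ, G ≠ 0 ∧
      ∀ (v : P → Fin N → A → ℂ) (y : P → Λ → ℂ),
        eval (Sum.elim (fun x => v x.1 x.2.1 x.2.2) (fun x => y x.1 x.2)) G ≠ 0 →
        PhiInj d J c v y := by
  haveI := finite_YY (N := N) (A := A) (Λ := Λ) (d + N)
  haveI := finiteDimensional_VV (N := N) (A := A) (Λ := Λ) d J c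
  obtain ⟨G, hG0, hG⟩ := open_inj (TT d J c) (fun g γ => by
      change PolyFun (fun x => coeff γ.1.1 (∑ p, g.1 p *
        lin (vec (c p) (fun i a => x (Sum.inl (p, i, a))) (fun l => x (Sum.inr (p, l)))) ^
          (c p).card))
      have h1 : CP (fun x : (P × Fin N × A) ⊕ (P × Λ) → ℂ => ∑ p, g.1 p *
        lin (vec (c p) (fun i a => x (Sum.inl (p, i, a))) (fun l => x (Sum.inr (p, l)))) ^
          (c p).card) := by
        apply CP.sum
        intro p _
        refine (CP.const _).mul (CP.pow (CP.lin ?_) _)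
        rintro (⟨i, a⟩ | l)
        · unfold vec
          by_cases hi : i ∈ c p
          · simpa [hi] using PolyFun.coord _
          · simpa [hi] using PolyFun.const _
        · simpa [vec] using PolyFun.coord _
      exact h1 γ.1.1)
    (Sum.elim (fun x => v₀ x.1 x.2.1 x.2.2) (fun x => y₀ x.1 x.2))
    ((TT_inj_iff d J c v₀ y₀).2 h)
  refine ⟨G, ?_, fun v y hvy => (TT_inj_iff d J c v y).1 (hG _ hvy)⟩
  rintro rfl
  simp at hG0

end Pool.Agent.H21.HD

end

section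

/-!
# Module D4 (TB): growth of `ell`

`ell n (k + 1) = binom (n + k, k)`; `n^k ≤ k! * ell n (k + 1)`, `ell n (k + 1) ≤ (2 n)^k` for
`k ≤ n`.
-/

namespace Pool.Agent.H51.TB

open Finset Pool.Agent.H18.Ex

private theorem Grow_eq (n k : ℕ) : ell n (k + 1) = (n + k).choose k := by
  unfold ell
  have h : k + 1 + n - 1 = n + k := by omega
  rw [h]
  have h2 := Nat.choose_symm_add (a := n) (b := k)
  exact h2

/-- the lower bound -/
private theorem Grow_lo (n k : ℕ) : (n : ℝ) ^ k ≤ (k.factorial : ℝ) * (ell n (k + 1) : ℝ) := by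
  rw [Grow_eq]
  have h1 : n ^ k ≤ k.factorial * (n + k).choose k := by
    rw [← Nat.ascFactorial_eq_factorial_mul_choose]
    exact (Nat.pow_le_pow_left (Nat.le_succ n) k).trans (Nat.pow_succ_le_ascFactorial (n + 1) k)
  exact_mod_cast h1

/-- the upper bound -/
private theorem Grow_hi {n c : ℕ} (hc : 1 ≤ c) (h : c ≤ n + 1) :
    (ell n c : ℝ) ≤ (2 * (n : ℝ)) ^ (c - 1) := by
  obtain ⟨k, rfl⟩ : ∃ k, c = k + 1 := ⟨c - 1, by omega⟩
  rw [Grow_eq, Nat.add_sub_cancel]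
  have h1 : (n + k).choose k ≤ (2 * n) ^ k :=
    (Nat.choose_le_pow (n + k) k).trans (Nat.pow_le_pow_left (by omega) k)
  exact_mod_cast h1

private theorem Grow_hi' {n c : ℕ} (hc : 1 ≤ c) (h : c ≤ n) :
    (ell (n - 1) c : ℝ) ≤ (2 * (n : ℝ)) ^ (c - 1) := by
  refine (Grow_hi hc (by omega)).trans ?_
  apply pow_le_pow_left₀ (by positivity)
  have h1 : ((n - 1 : ℕ) : ℝ) ≤ (n : ℝ) := by
    exact_mod_cast Nat.sub_le n 1
  linarith

/-- the common estimate -/
private theorem Grow_key (d : ℕ) (K : ℝ) : ∃ n₀ : ℕ, ∀ n : ℕ, n₀ ≤ n → d + 2 ≤ n ∧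
    ∀ e : ℕ, e ≤ 2 * d → |K| * ((d.factorial : ℝ) ^ 2 * (2 * (n : ℝ)) ^ e) ≤
      ((n - 1 : ℕ) : ℝ) ^ (e + 1) := by
  obtain ⟨N, hN⟩ := exists_nat_ge (|K| * ((d.factorial : ℝ) ^ 2 * (4 : ℝ) ^ (2 * d)))
  refine ⟨N + d + 2, fun n hn => ⟨by omega, fun e he => ?_⟩⟩
  have h1 : (1 : ℝ) ≤ ((n - 1 : ℕ) : ℝ) := by
    exact_mod_cast (by omega : 1 ≤ n - 1)
  have h2 : 2 * (n : ℝ) ≤ 4 * ((n - 1 : ℕ) : ℝ) := by
    have : 2 * n ≤ 4 * (n - 1) := by omega
    exact_mod_cast this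
  have h3 : (2 * (n : ℝ)) ^ e ≤ (4 : ℝ) ^ (2 * d) * ((n - 1 : ℕ) : ℝ) ^ e := by
    calc (2 * (n : ℝ)) ^ e ≤ (4 * ((n - 1 : ℕ) : ℝ)) ^ e :=
          pow_le_pow_left₀ (by positivity) h2 e
      _ = (4 : ℝ) ^ e * ((n - 1 : ℕ) : ℝ) ^ e := mul_pow _ _ _
      _ ≤ (4 : ℝ) ^ (2 * d) * ((n - 1 : ℕ) : ℝ) ^ e := by
          apply mul_le_mul_of_nonneg_right _ (by positivity)
          exact pow_le_pow_right₀ (by norm_num) he
  have h4 : (N : ℝ) ≤ ((n - 1 : ℕ) : ℝ) := by
    exact_mod_cast (by omega : N ≤ n - 1)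
  have h5 : 0 ≤ |K| := abs_nonneg K
  calc |K| * ((d.factorial : ℝ) ^ 2 * (2 * (n : ℝ)) ^ e)
      ≤ |K| * ((d.factorial : ℝ) ^ 2 * ((4 : ℝ) ^ (2 * d) * ((n - 1 : ℕ) : ℝ) ^ e)) := by
        apply mul_le_mul_of_nonneg_left _ h5
        apply mul_le_mul_of_nonneg_left h3 (by positivity)
    _ = (|K| * ((d.factorial : ℝ) ^ 2 * (4 : ℝ) ^ (2 * d))) * ((n - 1 : ℕ) : ℝ) ^ e := by ring
    _ ≤ ((n - 1 : ℕ) : ℝ) * ((n - 1 : ℕ) : ℝ) ^ e := by
        apply mul_le_mul_of_nonneg_right (hN.trans h4) (by positivity)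
    _ = ((n - 1 : ℕ) : ℝ) ^ (e + 1) := by ring

/-- the form used for a product on the left and one factor on the right -/
private theorem Grow_fin {d n : ℕ} {K P : ℝ} (hd : 1 ≤ d) (hn : d + 2 ≤ n) (hP0 : 0 ≤ P)
    (hP : P ≤ (2 * (n : ℝ)) ^ (d - 1))
    (hk : ∀ e : ℕ, e ≤ 2 * d → |K| * ((d.factorial : ℝ) ^ 2 * (2 * (n : ℝ)) ^ e) ≤
      ((n - 1 : ℕ) : ℝ) ^ (e + 1)) : K * P ≤ (ell (n - 1) (d + 1) : ℝ) := by
  have h1 := hk (d - 1) (by omega)
  rw [show d - 1 + 1 = d by omega] at h1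
  have h2 := Grow_lo (n - 1) d
  have hf : (1 : ℝ) ≤ (d.factorial : ℝ) := by exact_mod_cast Nat.one_le_iff_ne_zero.mpr (Nat.factorial_ne_zero d)
  have h3 : (d.factorial : ℝ) * (K * P) ≤ (d.factorial : ℝ) * (ell (n - 1) (d + 1) : ℝ) := by
    calc (d.factorial : ℝ) * (K * P) ≤ (d.factorial : ℝ) * (|K| * P) := by
          apply mul_le_mul_of_nonneg_left _ (by positivity)
          exact mul_le_mul_of_nonneg_right (le_abs_self K) hP0
      _ ≤ (d.factorial : ℝ) * (|K| * (2 * (n : ℝ)) ^ (d - 1)) := by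
          apply mul_le_mul_of_nonneg_left _ (by positivity)
          exact mul_le_mul_of_nonneg_left hP (abs_nonneg K)
      _ ≤ (d.factorial : ℝ) ^ 2 * (|K| * (2 * (n : ℝ)) ^ (d - 1)) := by
          apply mul_le_mul_of_nonneg_right _ (by positivity)
          nlinarith
      _ = |K| * ((d.factorial : ℝ) ^ 2 * (2 * (n : ℝ)) ^ (d - 1)) := by ring
      _ ≤ _ := h1.trans h2
  exact le_of_mul_le_mul_left h3 (by linarith)

/-- Three factors against two, the exponent is larger by one (`t + M + μ ≤ t + d`). -/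
theorem grow_three (d : ℕ) (K : ℝ) : ∃ n₀ : ℕ, ∀ n : ℕ, n₀ ≤ n → ∀ t M μ : ℕ, 1 ≤ t → 1 ≤ M →
    1 ≤ μ → t ≤ d → M + μ ≤ d →
    K * ((ell n (t + 1) : ℝ) * ell n M * ell (n - 1) μ) ≤
      (ell (n - 1) t : ℝ) * ell (n - 1) (d + 1) := by
  obtain ⟨n₀, h⟩ := Grow_key d K
  refine ⟨n₀, fun n hn t M μ ht hM hμ htd hMμ => ?_⟩
  obtain ⟨hnd, hk⟩ := h n hn
  have a1 := Grow_hi (n := n) (c := t + 1) (by omega) (by omega)
  have a2 := Grow_hi (n := n) (c := M) hM (by omega)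
  have a3 := Grow_hi' (n := n) (c := μ) hμ (by omega)
  rw [Nat.add_sub_cancel] at a1
  have b1 := Grow_lo (n - 1) (t - 1)
  have b2 := Grow_lo (n - 1) d
  rw [show t - 1 + 1 = t by omega] at b1
  have hn1 : (1 : ℝ) ≤ 2 * (n : ℝ) := by
    exact_mod_cast (by omega : 1 ≤ 2 * n)
  have c1 : (ell n (t + 1) : ℝ) * ell n M * ell (n - 1) μ ≤ (2 * (n : ℝ)) ^ (t + d - 2) := by
    calc (ell n (t + 1) : ℝ) * ell n M * ell (n - 1) μ
        ≤ (2 * (n : ℝ)) ^ t * (2 * (n : ℝ)) ^ (M - 1) * (2 * (n : ℝ)) ^ (μ - 1) := by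
          gcongr
      _ = (2 * (n : ℝ)) ^ (t + (M - 1) + (μ - 1)) := by rw [pow_add, pow_add]
      _ ≤ (2 * (n : ℝ)) ^ (t + d - 2) := pow_le_pow_right₀ hn1 (by omega)
  have c2 := hk (t + d - 2) (by omega)
  rw [show t + d - 2 + 1 = t - 1 + d by omega, pow_add] at c2
  have hf1 : (1 : ℝ) ≤ ((t - 1).factorial : ℝ) := by
    exact_mod_cast Nat.one_le_iff_ne_zero.mpr (Nat.factorial_ne_zero _)
  have hf2 : ((t - 1).factorial : ℝ) ≤ (d.factorial : ℝ) := by
    exact_mod_cast Nat.factorial_le (by omega : t - 1 ≤ d)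
  set x : ℝ := (ell (n - 1) t : ℝ) with hx
  set y : ℝ := (ell (n - 1) (d + 1) : ℝ) with hy
  have hx0 : 0 ≤ x := Nat.cast_nonneg _
  have hy0 : 0 ≤ y := Nat.cast_nonneg _
  have h3 : (d.factorial : ℝ) ^ 2 * (K * ((ell n (t + 1) : ℝ) * ell n M * ell (n - 1) μ)) ≤
      (d.factorial : ℝ) ^ 2 * (x * y) := by
    calc (d.factorial : ℝ) ^ 2 * (K * ((ell n (t + 1) : ℝ) * ell n M * ell (n - 1) μ))
        ≤ (d.factorial : ℝ) ^ 2 * (|K| * (2 * (n : ℝ)) ^ (t + d - 2)) := by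
          apply mul_le_mul_of_nonneg_left _ (by positivity)
          exact mul_le_mul (le_abs_self K) c1 (by positivity) (abs_nonneg K)
      _ = |K| * ((d.factorial : ℝ) ^ 2 * (2 * (n : ℝ)) ^ (t + d - 2)) := by ring
      _ ≤ ((n - 1 : ℕ) : ℝ) ^ (t - 1) * ((n - 1 : ℕ) : ℝ) ^ d := c2
      _ ≤ (((t - 1).factorial : ℝ) * x) * ((d.factorial : ℝ) * y) := by
          gcongr
      _ ≤ ((d.factorial : ℝ) * x) * ((d.factorial : ℝ) * y) := by
          gcongr
      _ = (d.factorial : ℝ) ^ 2 * (x * y) := by ring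
  have hpos : (0 : ℝ) < (d.factorial : ℝ) ^ 2 := by positivity
  exact le_of_mul_le_mul_left h3 hpos

/-- For the dominating class. -/
theorem grow_big (d : ℕ) (K : ℝ) : ∃ n₀ : ℕ, ∀ n : ℕ, n₀ ≤ n → ∀ M : ℕ, 1 ≤ M → M ≤ d →
    K * ((ell n (d + 1 - M) : ℝ) * ell n M) ≤ (ell (n - 1) (d + 1) : ℝ) := by
  obtain ⟨n₀, h⟩ := Grow_key d K
  refine ⟨n₀, fun n hn M hM hMd => ?_⟩
  obtain ⟨hnd, hk⟩ := h n hn
  refine Grow_fin (by omega) hnd (by positivity) ?_ hk
  have a1 := Grow_hi (n := n) (c := d + 1 - M) (by omega) (by omega)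
  have a2 := Grow_hi (n := n) (c := M) hM (by omega)
  calc (ell n (d + 1 - M) : ℝ) * ell n M
      ≤ (2 * (n : ℝ)) ^ (d + 1 - M - 1) * (2 * (n : ℝ)) ^ (M - 1) := by gcongr
    _ = (2 * (n : ℝ)) ^ (d - 1) := by
        rw [← pow_add]
        congr 1
        omega

/-- `K * n * ell n μ * ell (n - 1) μ ≤ ell (n - 1) (d + 1)` if `2 μ ≤ d`. -/
theorem grow_sq (d : ℕ) (K : ℝ) : ∃ n₀ : ℕ, ∀ n : ℕ, n₀ ≤ n → ∀ μ : ℕ, 1 ≤ μ → 2 * μ ≤ d →
    K * ((n : ℝ) * ell n μ * ell (n - 1) μ) ≤ (ell (n - 1) (d + 1) : ℝ) := by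
  obtain ⟨n₀, h⟩ := Grow_key d K
  refine ⟨n₀, fun n hn μ hμ hμd => ?_⟩
  obtain ⟨hnd, hk⟩ := h n hn
  refine Grow_fin (by omega) hnd (by positivity) ?_ hk
  have a1 := Grow_hi (n := n) (c := μ) hμ (by omega)
  have a2 := Grow_hi' (n := n) (c := μ) hμ (by omega)
  have hn0 : (0 : ℝ) ≤ (n : ℝ) := Nat.cast_nonneg n
  have hn1 : (1 : ℝ) ≤ 2 * (n : ℝ) := by
    exact_mod_cast (by omega : 1 ≤ 2 * n)
  have hn2 : (n : ℝ) ≤ 2 * (n : ℝ) := by linarith
  calc (n : ℝ) * ell n μ * ell (n - 1) μ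
      ≤ (2 * (n : ℝ)) * (2 * (n : ℝ)) ^ (μ - 1) * (2 * (n : ℝ)) ^ (μ - 1) := by gcongr
    _ = (2 * (n : ℝ)) ^ (1 + (μ - 1) + (μ - 1)) := by rw [pow_add, pow_add, pow_one]
    _ ≤ (2 * (n : ℝ)) ^ (d - 1) := pow_le_pow_right₀ hn1 (by omega)

/-- The length of a point is small. -/
theorem grow_one (d : ℕ) (K : ℝ) : ∃ n₀ : ℕ, ∀ n : ℕ, n₀ ≤ n → ∀ m : ℕ, m ≤ d →
    K * (ell n m : ℝ) ≤ (ell (n - 1) (d + 1) : ℝ) := by
  obtain ⟨n₀, h⟩ := Grow_key d K
  refine ⟨n₀, fun n hn m hm => ?_⟩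
  obtain ⟨hnd, hk⟩ := h n hn
  rcases Nat.eq_zero_or_pos m with rfl | hm0
  · have h0 : ell n 0 = 0 := by
      unfold ell
      exact Nat.choose_eq_zero_of_lt (by omega)
    rw [h0, Nat.cast_zero, mul_zero]
    exact Nat.cast_nonneg _
  · refine Grow_fin (by omega) hnd (by positivity) ?_ hk
    have a1 := Grow_hi (n := n) (c := m) hm0 (by omega)
    have hn1 : (1 : ℝ) ≤ 2 * (n : ℝ) := by
      exact_mod_cast (by omega : 1 ≤ 2 * n)
    exact a1.trans (pow_le_pow_right₀ hn1 (by omega))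

end Pool.Agent.H51.TB

end

section

/-!
# Module D8 (TB): all size classes occur on all levels

For `j + μ ≤ d` the cell `(j, μ - t)`: the rank of `j` is `ρ = μ - t`, and for a window
`[gy, d - gx] ∋ j` not containing all of `j + 1, …, j + ρ` one has `wr = d - gx - j`,
`gx + gy + wr ≥ d - j ≥ μ`, so `g ∉ Lam`; otherwise `wr = ρ`.  So `g ∈ Lam` iff `gy ≤ j`,
`gx + j ≤ d` and `|g| < t`, at least for `g = (t - 1, 0)` (`t - 1 + j + ρ ≤ d`), and `g ∈ Lam` implies
`|g| < t`.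

For `d < j + μ` (hence `μ ≤ j`) the cell `(j - ρ, 0)`, `ρ = μ - t`: the levels `j - ρ, …, j - 1` (those of
them in the window) are the ones before `j`; if `gy ≤ j - ρ` then `wr = ρ`, and if `gy > j - ρ` then
`wr = j - gy` and `gx + gy + wr ≥ j ≥ μ`, so `g ∉ Lam`.  The bidegree `g = (0, t - 1)` is in `Lam`:
`t - 1 ≤ j - ρ`.
-/

namespace Pool.Agent.H51.TB

open Finset Pool.Agent.H18.Ex Pool.Agent.H21.NX Pool.Agent.H18.Ta

private theorem Cell_mem {d m j : ℕ} {c g : ℕ × ℕ} : g ∈ Lam d m c j ↔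
    g.2 ≤ j ∧ j + g.1 ≤ d ∧ g.1 + g.2 + wr d c g j < m := by
  unfold Lam
  rw [mem_filter, mem_product, mem_range, mem_range]
  constructor
  · exact fun h => h.2
  · exact fun h => ⟨⟨by omega, by omega⟩, h⟩

/-- the class is determined by an upper bound and an element -/
private theorem Cell_cls {d m j t : ℕ} {c : ℕ × ℕ} (h1 : ∀ g ∈ Lam d m c j, g.1 + g.2 + 1 ≤ t)
    (h2 : ∃ g ∈ Lam d m c j, g.1 + g.2 + 1 = t) : cls d m c j = t := by
  unfold cls
  apply le_antisymm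
  · exact Finset.sup_le h1
  · obtain ⟨g, hg, he⟩ := h2
    rw [← he]
    exact Finset.le_sup (f := fun g : ℕ × ℕ => g.1 + g.2 + 1) hg

private theorem Cell_A {d μ j t : ℕ} (ht : 1 ≤ t) (htμ : t ≤ μ) (hA : j + μ ≤ d) :
    cls d μ (j, μ - t) j = t := by
  have hrk : rk (d + 1) j (μ - t) j = μ - t := by
    unfold rk
    rw [if_neg (lt_irrefl j), if_pos rfl]
  apply Cell_cls
  · intro g hg
    rw [Cell_mem] at hg
    obtain ⟨g1, g2, g3⟩ := hg
    have hwr : min (μ - t) (d - g.1 - j) ≤ wr d (j, μ - t) g j := by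
      have hsub : Finset.Ioc j (j + min (μ - t) (d - g.1 - j)) ⊆
          (range (d + 1)).filter fun i => g.2 ≤ i ∧ i + g.1 ≤ d ∧
            rk (d + 1) j (μ - t) i < rk (d + 1) j (μ - t) j := by
        intro i hi
        rw [Finset.mem_Ioc] at hi
        rw [mem_filter, mem_range, hrk]
        refine ⟨by omega, by omega, by omega, ?_⟩
        unfold rk
        split_ifs <;> omega
      have hc := card_le_card hsub
      rw [Nat.card_Ioc] at hc
      exact le_trans (by omega) hc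
    omega
  · refine ⟨(t - 1, 0), ?_, by simp only; omega⟩
    rw [Cell_mem]
    have hwr : wr d (j, μ - t) (t - 1, 0) j ≤ μ - t := by
      have hsub : ((range (d + 1)).filter fun i => 0 ≤ i ∧ i + (t - 1) ≤ d ∧
            rk (d + 1) j (μ - t) i < rk (d + 1) j (μ - t) j) ⊆ Finset.Ioc j (j + (μ - t)) := by
        intro i hi
        rw [mem_filter, mem_range, hrk] at hi
        obtain ⟨h1, _, _, h4⟩ := hi
        rw [Finset.mem_Ioc]
        unfold rk at h4
        split_ifs at h4 <;> omega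
      have hc := card_le_card hsub
      rw [Nat.card_Ioc] at hc
      exact le_trans hc (by omega)
    simp only
    omega

private theorem Cell_B {d μ j t : ℕ} (h2 : 2 * μ ≤ d) (hj : j ≤ d) (ht : 1 ≤ t) (htμ : t ≤ μ)
    (hB : d < j + μ) : cls d μ (j - (μ - t), 0) j = t := by
  have hrk : rk (d + 1) (j - (μ - t)) 0 j = μ - t := by
    unfold rk
    split_ifs <;> omega
  apply Cell_cls
  · intro g hg
    rw [Cell_mem] at hg
    obtain ⟨g1, g2, g3⟩ := hg
    have hwr : min (μ - t) (j - g.2) ≤ wr d (j - (μ - t), 0) g j := by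
      have hsub : Finset.Ico (j - min (μ - t) (j - g.2)) j ⊆
          (range (d + 1)).filter fun i => g.2 ≤ i ∧ i + g.1 ≤ d ∧
            rk (d + 1) (j - (μ - t)) 0 i < rk (d + 1) (j - (μ - t)) 0 j := by
        intro i hi
        rw [Finset.mem_Ico] at hi
        rw [mem_filter, mem_range, hrk]
        refine ⟨by omega, by omega, by omega, ?_⟩
        unfold rk
        split_ifs <;> omega
      have hc := card_le_card hsub
      rw [Nat.card_Ico] at hc
      exact le_trans (by omega) hc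
    omega
  · refine ⟨(0, t - 1), ?_, by simp only; omega⟩
    rw [Cell_mem]
    have hwr : wr d (j - (μ - t), 0) (0, t - 1) j ≤ μ - t := by
      have hsub : ((range (d + 1)).filter fun i => t - 1 ≤ i ∧ i + 0 ≤ d ∧
            rk (d + 1) (j - (μ - t)) 0 i < rk (d + 1) (j - (μ - t)) 0 j) ⊆
            Finset.Ico (j - (μ - t)) j := by
        intro i hi
        rw [mem_filter, mem_range, hrk] at hi
        obtain ⟨h1, _, _, h4⟩ := hi
        rw [Finset.mem_Ico]
        unfold rk at h4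
        split_ifs at h4 <;> omega
      have hc := card_le_card hsub
      rw [Nat.card_Ico] at hc
      exact le_trans hc (by omega)
    simp only
    omega

theorem cell {d μ j t : ℕ} (h2 : 2 * μ ≤ d) (hj : j ≤ d) (ht : 1 ≤ t) (htμ : t ≤ μ) :
    ∃ c ∈ KK d, c.2 ≤ μ ∧ cls d μ c j = t := by
  by_cases hA : j + μ ≤ d
  · refine ⟨(j, μ - t), ?_, by simp only; omega, Cell_A ht htμ hA⟩
    rw [mem_KK]
    simp only
    omega
  · refine ⟨(j - (μ - t), 0), ?_, Nat.zero_le _, Cell_B h2 hj ht htμ (by omega)⟩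
    rw [mem_KK]
    simp only
    omega

theorem cls_le {d m j : ℕ} (c : ℕ × ℕ) : cls d m c j ≤ m := by
  unfold cls
  apply Finset.sup_le
  intro g hg
  rw [Cell_mem] at hg
  omega

/-- A class is attained. -/
theorem cls_attained {d m j : ℕ} (c : ℕ × ℕ) (h : 1 ≤ cls d m c j) :
    ∃ g ∈ Lam d m c j, g.1 + g.2 + 1 = cls d m c j := by
  have hne : (Lam d m c j).Nonempty := by
    rw [Finset.nonempty_iff_ne_empty]
    intro h0
    unfold cls at h
    rw [h0, Finset.sup_empty] at h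
    exact absurd h (by decide)
  obtain ⟨g, hg, he⟩ := Finset.exists_mem_eq_sup (Lam d m c j) hne
    (fun g : ℕ × ℕ => g.1 + g.2 + 1)
  exact ⟨g, hg, he.symm⟩

end Pool.Agent.H51.TB

end

section

/-!
# Module D12 (TB): lower bounds for the masses

`Eg`: `asy` with `δ = 1 / 2^(d+1)` for the finitely many `g` with `|g| ≤ d`
(`binom (p+q, q) / 2^(p+q) ≥ 1 / 2^d`), so `κ = 1 / 2^(d+1)`.

`mass`: for a level `j` and `1 ≤ t ≤ μ` take the cell `x` of `cell` (`cls d μ x j = t`, `x.2 ≤ μ`).  The sum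
is at least `c x * wt a b d μ x j ≥ c x * Eg a b g`, `g ∈ Lam d μ x j`, `|g| + 1 = t` (`cls_attained`),
`≥ c x * κ₀ * ell (n - 1) t`, `n = a + b`, and `c x ≥ κ * ell (n - 1) (d + 1) / ell (n - 1) μ`.  For `t < μ` use
`grow_three` (with a large constant), for `t = μ` use `grow_big`.
-/

namespace Pool.Agent.H51.TB

open Finset Pool.Agent.H18.Ex Pool.Agent.H21.NX Pool.Agent.H18.Ta

theorem Eg_ge (d : ℕ) : ∃ κ : ℝ, 0 < κ ∧ ∃ ε : ℝ, 0 < ε ∧ ∃ n₀ : ℕ, ∀ a b : ℕ, 1 ≤ a → 1 ≤ b →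
    n₀ ≤ a + b → |(a : ℝ) - b| ≤ ε * (a + b : ℕ) → ∀ g : ℕ × ℕ, g.1 + g.2 ≤ d →
    κ * (ell (a + b - 1) (g.1 + g.2 + 1) : ℝ) ≤ (Eg a b g : ℝ) := by
  have hδ : (0 : ℝ) < 1 / 2 ^ (d + 1) := by positivity
  choose ε hε n0 h using fun p q : ℕ => asy p q (1 / 2 ^ (d + 1)) hδ
  obtain ⟨S, hS⟩ : ∃ S : Finset (ℕ × ℕ), S = range (d + 1) ×ˢ range (d + 1) := ⟨_, rfl⟩
  have hne : S.Nonempty := by
    rw [hS]
    exact ⟨(0, 0), by simp⟩
  refine ⟨1 / 2 ^ (d + 1), hδ, S.inf' hne fun x => ε x.1 x.2, ?_, S.sup fun x => n0 x.1 x.2, ?_⟩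
  · rw [Finset.lt_inf'_iff]
    exact fun x _ => hε x.1 x.2
  · intro a b ha hb hn hab g hg
    have hgS : g ∈ S := by
      rw [hS, mem_product, mem_range, mem_range]
      omega
    have h1 : n0 g.1 g.2 ≤ a + b := (Finset.le_sup (f := fun x : ℕ × ℕ => n0 x.1 x.2) hgS).trans hn
    have h2 : |(a : ℝ) - b| ≤ ε g.1 g.2 * (a + b : ℕ) := by
      refine hab.trans (mul_le_mul_of_nonneg_right ?_ (Nat.cast_nonneg _))
      exact Finset.inf'_le (fun x : ℕ × ℕ => ε x.1 x.2) hgS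
    have h3 := h g.1 g.2 a b ha hb h1 h2
    have h4 := (abs_le.1 h3).1
    have h5 : (1 : ℝ) / 2 ^ d ≤ ((g.1 + g.2).choose g.2 : ℝ) / 2 ^ (g.1 + g.2) := by
      have h6 : (1 : ℝ) ≤ ((g.1 + g.2).choose g.2 : ℝ) := by
        exact_mod_cast Nat.choose_pos (Nat.le_add_left g.2 g.1)
      have h7 : (2 : ℝ) ^ (g.1 + g.2) ≤ 2 ^ d := pow_le_pow_right₀ (by norm_num) hg
      have h8 : (0 : ℝ) < 2 ^ (g.1 + g.2) := by positivity
      calc (1 : ℝ) / 2 ^ d ≤ 1 / 2 ^ (g.1 + g.2) := one_div_le_one_div_of_le h8 h7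
        _ ≤ ((g.1 + g.2).choose g.2 : ℝ) / 2 ^ (g.1 + g.2) := div_le_div_of_nonneg_right h6 h8.le
    have h6 : (1 : ℝ) / 2 ^ d = 2 * (1 / 2 ^ (d + 1)) := by
      rw [pow_succ]
      field_simp
    have h7 : (0 : ℝ) ≤ (ell (a + b - 1) (g.1 + g.2 + 1) : ℝ) := Nat.cast_nonneg _
    have h8 := mul_le_mul_of_nonneg_right h5 h7
    have h9 : (Eg a b g : ℝ) = ((Nat.multichoose (a - 1) g.1 * Nat.multichoose (b - 1) g.2 : ℕ) : ℝ) := rfl
    rw [h9]
    rw [h6] at h8
    linarith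

theorem mass (d : ℕ) (κ : ℝ) (hκ : 0 < κ) : ∃ ε : ℝ, 0 < ε ∧ ∃ n₀ : ℕ, ∀ a b : ℕ, 1 ≤ a → 1 ≤ b →
    n₀ ≤ a + b → |(a : ℝ) - b| ≤ ε * (a + b : ℕ) → ∀ M μ : ℕ, 1 ≤ μ → μ ≤ M → μ + M ≤ d →
    ∀ c : ℕ × ℕ → ℕ,
    (∀ x ∈ KK d, x.2 ≤ μ →
      κ * (ell (a + b - 1) (d + 1) : ℝ) ≤ (c x : ℝ) * (ell (a + b - 1) μ : ℝ)) →
    (∀ j ≤ d, ∀ t, 1 ≤ t → t < μ → ell (a + b) (t + 1) * ell (a + b) M ≤
      ∑ x ∈ KK d, if cls d μ x j = t then c x * wt a b d μ x j else 0) ∧
    (∀ j ≤ d, ell (a + b) (d + 1 - M) * ell (a + b) M ≤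
      ∑ x ∈ KK d, if cls d μ x j = μ then c x * wt a b d μ x j else 0) := by
  obtain ⟨κ₀, hκ₀, ε, hε, n1, hE⟩ := Eg_ge d
  obtain ⟨n2, h2⟩ := grow_three d (1 / (κ * κ₀))
  obtain ⟨n3, h3⟩ := grow_big d (1 / (κ * κ₀))
  refine ⟨ε, hε, max n1 (max n2 n3), ?_⟩
  intro a b ha hb hn hab M μ hμ hμM hMd c hc
  have hn1 : n1 ≤ a + b := (le_max_left _ _).trans hn
  have hn2 : n2 ≤ a + b := ((le_max_left _ _).trans (le_max_right _ _)).trans hn
  have hn3 : n3 ≤ a + b := ((le_max_right _ _).trans (le_max_right _ _)).trans hn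
  have hKK : 0 < κ * κ₀ := mul_pos hκ hκ₀
  have hkey : ∀ j ≤ d, ∀ t, 1 ≤ t → t ≤ μ → ∃ s : ℕ,
      s ≤ (∑ x ∈ KK d, if cls d μ x j = t then c x * wt a b d μ x j else 0) ∧
      κ * κ₀ * ((ell (a + b - 1) t : ℝ) * ell (a + b - 1) (d + 1)) ≤ (s : ℝ) * (ell (a + b - 1) μ : ℝ) := by
    intro j hj t ht htμ
    obtain ⟨x, hx, hxμ, hxt⟩ := cell (d := d) (μ := μ) (j := j) (t := t) (by omega) hj ht htμ
    obtain ⟨g, hg, hgt⟩ := cls_attained (d := d) (m := μ) (j := j) x (by omega)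
    refine ⟨c x * wt a b d μ x j, ?_, ?_⟩
    · have h4 := Finset.single_le_sum (f := fun x => if cls d μ x j = t then c x * wt a b d μ x j else 0)
        (fun y _ => Nat.zero_le _) hx
      rw [if_pos hxt] at h4
      exact h4
    · have h4 : Eg a b g ≤ wt a b d μ x j :=
        Finset.single_le_sum (f := fun g => Eg a b g) (fun y _ => Nat.zero_le _) hg
      have h5 := hE a b ha hb hn1 hab g (by omega)
      rw [hgt, hxt] at h5
      have h6 := hc x hx hxμ
      have h7 : (Eg a b g : ℝ) ≤ (wt a b d μ x j : ℝ) := by exact_mod_cast h4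
      have h8 : κ₀ * (ell (a + b - 1) t : ℝ) ≤ (wt a b d μ x j : ℝ) := h5.trans h7
      have h9 : 0 ≤ κ₀ * (ell (a + b - 1) t : ℝ) := by positivity
      have h10 : (0 : ℝ) ≤ (c x : ℝ) * (ell (a + b - 1) μ : ℝ) := by positivity
      push_cast
      calc κ * κ₀ * ((ell (a + b - 1) t : ℝ) * ell (a + b - 1) (d + 1))
          = (κ * (ell (a + b - 1) (d + 1) : ℝ)) * (κ₀ * (ell (a + b - 1) t : ℝ)) := by ring
        _ ≤ ((c x : ℝ) * (ell (a + b - 1) μ : ℝ)) * (κ₀ * (ell (a + b - 1) t : ℝ)) :=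
            mul_le_mul_of_nonneg_right h6 h9
        _ ≤ ((c x : ℝ) * (ell (a + b - 1) μ : ℝ)) * (wt a b d μ x j : ℝ) :=
            mul_le_mul_of_nonneg_left h8 h10
        _ = (c x : ℝ) * (wt a b d μ x j : ℝ) * (ell (a + b - 1) μ : ℝ) := by ring
  have hμpos : (0 : ℝ) < (ell (a + b - 1) μ : ℝ) := by
    have h4 : 0 < ell (a + b - 1) μ := by
      unfold ell
      exact Nat.choose_pos (by omega)
    exact_mod_cast h4
  constructor
  · intro j hj t ht htμ
    obtain ⟨s, hs1, hs2⟩ := hkey j hj t ht htμ.le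
    refine le_trans ?_ hs1
    have h4 := h2 (a + b) hn2 t M μ ht (by omega) hμ (by omega) (by omega)
    rw [one_div, inv_mul_le_iff₀ hKK] at h4
    have h5 := h4.trans hs2
    have h6 : (ell (a + b) (t + 1) : ℝ) * ell (a + b) M ≤ s := le_of_mul_le_mul_right h5 hμpos
    exact_mod_cast h6
  · intro j hj
    obtain ⟨s, hs1, hs2⟩ := hkey j hj μ hμ le_rfl
    refine le_trans ?_ hs1
    have h4 := h3 (a + b) hn3 M (by omega) (by omega)
    rw [one_div, inv_mul_le_iff₀ hKK] at h4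
    have h5 : κ * κ₀ * (ell (a + b - 1) (d + 1) : ℝ) ≤ s := by
      have h6 : κ * κ₀ * (ell (a + b - 1) (d + 1) : ℝ) * (ell (a + b - 1) μ : ℝ) ≤ s * (ell (a + b - 1) μ : ℝ) := by
        calc κ * κ₀ * (ell (a + b - 1) (d + 1) : ℝ) * (ell (a + b - 1) μ : ℝ)
            = κ * κ₀ * ((ell (a + b - 1) μ : ℝ) * ell (a + b - 1) (d + 1)) := by ring
          _ ≤ _ := hs2
      exact le_of_mul_le_mul_right h6 hμpos
    have h6 := h4.trans h5
    exact_mod_cast h6

end Pool.Agent.H51.TB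

end

section

/-!
# Module C1 (TB): the Euler relations
-/

namespace Pool.Agent.H51.TB

open Finset Pool.Agent.H18.Ex Pool.Agent.H21.NX Pool.Agent.H18.Ta

private theorem Eul_num {R : Type*} [CommRing R] (A B : ℕ) (x : R) :
    ((B + 1 : ℕ) : R) * x * (((A.choose (B + 1) : ℕ) : R) * x ^ (A - (B + 1))) =
      ((A : R) - (B : R)) * (((A.choose B : ℕ) : R) * x ^ (A - B)) := by
  rcases lt_trichotomy B A with h | h | h
  · have h1 : A - B = (A - (B + 1)) + 1 := by omega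
    have h2 := Nat.choose_succ_right_eq A B
    have h3 : ((A.choose (B + 1) : ℕ) : R) * ((B + 1 : ℕ) : R) = ((A.choose B : ℕ) : R) * ((A : R) - (B : R)) := by
      rw [← Nat.cast_sub h.le, ← Nat.cast_mul, ← Nat.cast_mul, h2]
    rw [h1, pow_succ]
    calc ((B + 1 : ℕ) : R) * x * (((A.choose (B + 1) : ℕ) : R) * x ^ (A - (B + 1))) =
        (((A.choose (B + 1) : ℕ) : R) * ((B + 1 : ℕ) : R)) * (x ^ (A - (B + 1)) * x) := by ring
      _ = _ := by
        rw [h3]
        ring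
  · subst h
    rw [Nat.choose_succ_self, Nat.cast_zero, zero_mul, mul_zero, sub_self, zero_mul]
  · rw [Nat.choose_eq_zero_of_lt h, Nat.choose_eq_zero_of_lt (h.trans (Nat.lt_succ_self B)), Nat.cast_zero]
    ring

private theorem Eul_one {ι : Type} [Fintype ι] [DecidableEq ι] {R : Type*} [CommRing R] (q : ι → R)
    (α β : ι → ℕ) (l : ι) :
    ((β l + 1 : ℕ) : R) * q l * tcr q α (β + Pi.single l 1) = ((α l : R) - (β l : R)) * tcr q α β := by
  rw [tcr_eq q α (β + Pi.single l 1) l, tcr_eq q α β l]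
  have h1 : (β + Pi.single l 1 : ι → ℕ) l = β l + 1 := by simp
  have h2 : ∏ i ∈ univ.erase l, (((α i).choose ((β + Pi.single l 1 : ι → ℕ) i) : ℕ) : R) *
      q i ^ (α i - (β + Pi.single l 1 : ι → ℕ) i) =
      ∏ i ∈ univ.erase l, (((α i).choose (β i) : ℕ) : R) * q i ^ (α i - β i) := by
    refine rest_congr (fun _ _ => rfl) (fun _ _ => rfl) (fun i hi => ?_)
    rw [Pi.add_apply, Pi.single_eq_of_ne hi, Nat.add_zero]
  rw [h2, h1]
  have h3 := Eul_num (α l) (β l) (q l)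
  linear_combination (∏ i ∈ univ.erase l, (((α i).choose (β i) : ℕ) : R) * q i ^ (α i - β i)) * h3

private theorem Eul_xd {a b : ℕ} (β : Z a b → ℕ) (i : Fin b) :
    xd (β + Pi.single (Sum.inr i) 1) = xd β := by
  unfold xd
  refine Finset.sum_congr rfl (fun k _ => ?_)
  rw [Pi.add_apply, Pi.single_eq_of_ne (by simp), Nat.add_zero]

private theorem Eul_yd {a b : ℕ} (β : Z a b → ℕ) (i : Fin b) :
    yd (β + Pi.single (Sum.inr i) 1) = yd β + 1 := by
  unfold yd
  have h : ∀ k : Fin b, (β + Pi.single (Sum.inr i) 1 : Z a b → ℕ) (Sum.inr k) =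
      β (Sum.inr k) + (Pi.single i 1 : Fin b → ℕ) k := by
    intro k
    rw [Pi.add_apply]
    congr 1
    by_cases hk : k = i
    · subst hk
      simp
    · rw [Pi.single_eq_of_ne hk, Pi.single_eq_of_ne (by
        intro h1
        exact hk (Sum.inr_injective h1))]
  rw [Finset.sum_congr rfl (fun k _ => h k), Finset.sum_add_distrib]
  congr 1
  simp

private theorem Eul_zero {ι : Type} [Fintype ι] {R : Type*} [CommRing R] (q : ι → R)
    {α β : ι → ℕ} {l : ι} (h : α l < β l) : tcr q α β = 0 := by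
  unfold tcr
  refine Finset.prod_eq_zero (mem_univ l) ?_
  rw [Nat.choose_eq_zero_of_lt h, Nat.cast_zero, zero_mul]

/-- The Euler relation in the `Y`-variables.  For each `i`,
`(β_i + 1) * binom(α_i, β_i + 1) * q_i^(α_i - β_i - 1) * q_i = (α_i - β_i) * binom(α_i, β_i) *
q_i^(α_i - β_i)` if `β_i < α_i`; if `β_i = α_i` both sides vanish; if `α_i < β_i` then
`tcr q α β = 0` and `tcr q α (β + e_i) = 0`.  (If `β ≤ α` fails at another coordinate both
sides vanish as well.) -/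
theorem euler {R : Type*} [CommRing R] {a b : ℕ} (q : Z a b → R) (α β : Z a b → ℕ) :
    ∑ i : Fin b, ((β (Sum.inr i) + 1 : ℕ) : R) * q (Sum.inr i) *
      tcr q α (β + Pi.single (Sum.inr i) 1) = ((yd α : ℕ) - (yd β : ℕ) : R) * tcr q α β := by
  have h1 : ∀ i : Fin b, ((β (Sum.inr i) + 1 : ℕ) : R) * q (Sum.inr i) *
      tcr q α (β + Pi.single (Sum.inr i) 1) =
      ((α (Sum.inr i) : R) - (β (Sum.inr i) : R)) * tcr q α β := fun i => Eul_one q α β (Sum.inr i)
  rw [Finset.sum_congr rfl (fun i _ => h1 i), ← Finset.sum_mul, Finset.sum_sub_distrib]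
  unfold yd
  push_cast
  rfl

/-- Let `T j β = ∑_{α on the level j} g α * tcr q α β` and suppose
`∑_{j ≤ d} w j * T j β = 0` for all `β` with `|β| < m`.  Then
`∑_{j ≤ d} (∏_{u ∈ S} (j - u)) * (w j * T j β) = 0` if `|β| + |S| < m`.

Induction on `S`: by `euler`,
`(j - u) * T j β = ∑_i (β_i + 1) q_i T j (β + e_i) + (yd β - u) * T j β`. -/
theorem weighted {R : Type*} [CommRing R] {a b d m : ℕ} (q : Z a b → R) (g : (Z a b → ℕ) → R)
    (w : ℕ → R)
    (h : ∀ β : Z a b → ℕ, xd β + yd β < m →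
      ∑ j ∈ range (d + 1), w j * ∑ α ∈ Bx a b d j, g α * tcr q α β = 0)
    (S : Finset ℕ) (β : Z a b → ℕ) (hβ : xd β + yd β + S.card < m) :
    ∑ j ∈ range (d + 1), (∏ u ∈ S, ((j : R) - (u : R))) *
      (w j * ∑ α ∈ Bx a b d j, g α * tcr q α β) = 0 := by
  induction S using Finset.induction_on generalizing β with
  | empty =>
    simp only [Finset.prod_empty, one_mul]
    refine h β ?_
    rw [Finset.card_empty] at hβ
    omega
  | insert u S hu ih =>
    rw [Finset.card_insert_of_notMem hu] at hβ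
    have h1 : ∀ j ∈ range (d + 1), (∏ u' ∈ insert u S, ((j : R) - (u' : R))) *
        (w j * ∑ α ∈ Bx a b d j, g α * tcr q α β) =
        (∑ i : Fin b, (((β (Sum.inr i) + 1 : ℕ) : R) * q (Sum.inr i)) *
          ((∏ u' ∈ S, ((j : R) - (u' : R))) *
            (w j * ∑ α ∈ Bx a b d j, g α * tcr q α (β + Pi.single (Sum.inr i) 1)))) +
        ((yd β : R) - (u : R)) * ((∏ u' ∈ S, ((j : R) - (u' : R))) *
            (w j * ∑ α ∈ Bx a b d j, g α * tcr q α β)) := by
      intro j _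
      rw [Finset.prod_insert hu]
      have h2 : ((j : R) - (u : R)) * ∑ α ∈ Bx a b d j, g α * tcr q α β =
          (∑ i : Fin b, (((β (Sum.inr i) + 1 : ℕ) : R) * q (Sum.inr i)) *
            ∑ α ∈ Bx a b d j, g α * tcr q α (β + Pi.single (Sum.inr i) 1)) +
          ((yd β : R) - (u : R)) * ∑ α ∈ Bx a b d j, g α * tcr q α β := by
        have h3 : ∑ i : Fin b, (((β (Sum.inr i) + 1 : ℕ) : R) * q (Sum.inr i)) *
            ∑ α ∈ Bx a b d j, g α * tcr q α (β + Pi.single (Sum.inr i) 1) =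
            ∑ α ∈ Bx a b d j, g α * (((j : R) - (yd β : R)) * tcr q α β) := by
          rw [Finset.sum_congr rfl (fun i _ => Finset.mul_sum _ _ _), Finset.sum_comm]
          refine Finset.sum_congr rfl (fun α hα => ?_)
          have h4 := euler q α β
          rw [(mem_Bx.1 hα).2] at h4
          rw [← h4, Finset.mul_sum]
          refine Finset.sum_congr rfl (fun i _ => ?_)
          ring
        rw [h3, Finset.mul_sum, Finset.mul_sum, ← Finset.sum_add_distrib]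
        refine Finset.sum_congr rfl (fun α _ => ?_)
        ring
      have h5 : ((j : R) - (u : R)) * (∏ u' ∈ S, ((j : R) - (u' : R))) *
          (w j * ∑ α ∈ Bx a b d j, g α * tcr q α β) =
          (∏ u' ∈ S, ((j : R) - (u' : R))) * w j *
            (((j : R) - (u : R)) * ∑ α ∈ Bx a b d j, g α * tcr q α β) := by ring
      rw [h5, h2, mul_add, Finset.mul_sum]
      congr 1
      · refine Finset.sum_congr rfl (fun i _ => ?_)
        ring
      · ring
    rw [Finset.sum_congr rfl h1, Finset.sum_add_distrib, Finset.sum_comm, ← Finset.mul_sum,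
      ih β (by omega), mul_zero, add_zero]
    refine Finset.sum_eq_zero (fun i _ => ?_)
    rw [← Finset.mul_sum, ih (β + Pi.single (Sum.inr i) 1) (by rw [Eul_xd, Eul_yd]; omega), mul_zero]

/-- On the level `j` the derivatives of bidegree `g` vanish unless `gy ≤ j` and `gx ≤ d - j`. -/
theorem tcr_zero {R : Type*} [CommRing R] {a b d j : ℕ} (q : Z a b → R) (α β : Z a b → ℕ)
    (hα : α ∈ Bx a b d j) (h : ¬ (yd β ≤ j ∧ j + xd β ≤ d)) : tcr q α β = 0 := by
  obtain ⟨h1, h2⟩ := mem_Bx.1 hα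
  have h3 : (∃ i : Fin b, α (Sum.inr i) < β (Sum.inr i)) ∨ ∃ i : Fin a, α (Sum.inl i) < β (Sum.inl i) := by
    by_contra hcon
    push Not at hcon
    obtain ⟨h4, h5⟩ := hcon
    have h6 : yd β ≤ yd α := Finset.sum_le_sum (fun i _ => h4 i)
    have h7 : xd β ≤ xd α := Finset.sum_le_sum (fun i _ => h5 i)
    exact h ⟨by omega, by omega⟩
  rcases h3 with ⟨i, hi⟩ | ⟨i, hi⟩
  · exact Eul_zero q hi
  · exact Eul_zero q hi

/-- Scaling of the `Y`-coordinates. -/
theorem tcr_scale {R : Type*} [CommRing R] {a b : ℕ} (x : Fin a → R) (y : Fin b → R) (s : R)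
    (α β : Z a b → ℕ) :
    s ^ yd β * tcr (Sum.elim x fun i => s * y i) α β = s ^ yd α * tcr (Sum.elim x y) α β := by
  unfold tcr
  rw [Fintype.prod_sum_type, Fintype.prod_sum_type]
  simp only [Sum.elim_inl, Sum.elim_inr]
  have h1 : s ^ yd β * ∏ i : Fin b, (((α (Sum.inr i)).choose (β (Sum.inr i)) : ℕ) : R) *
      (s * y i) ^ (α (Sum.inr i) - β (Sum.inr i)) =
      s ^ yd α * ∏ i : Fin b, (((α (Sum.inr i)).choose (β (Sum.inr i)) : ℕ) : R) *
      y i ^ (α (Sum.inr i) - β (Sum.inr i)) := by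
    unfold yd
    rw [← Finset.prod_pow_eq_pow_sum, ← Finset.prod_pow_eq_pow_sum, ← Finset.prod_mul_distrib,
      ← Finset.prod_mul_distrib]
    refine Finset.prod_congr rfl (fun i _ => ?_)
    by_cases hi : β (Sum.inr i) ≤ α (Sum.inr i)
    · obtain ⟨k, hk⟩ := Nat.exists_eq_add_of_le hi
      rw [hk, Nat.add_sub_cancel_left, mul_pow, pow_add]
      ring
    · rw [Nat.choose_eq_zero_of_lt (not_le.1 hi), Nat.cast_zero]
      ring
  calc _ = (∏ i : Fin a, (((α (Sum.inl i)).choose (β (Sum.inl i)) : ℕ) : R) *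
        x i ^ (α (Sum.inl i) - β (Sum.inl i))) *
        (s ^ yd β * ∏ i : Fin b, (((α (Sum.inr i)).choose (β (Sum.inr i)) : ℕ) : R) *
      (s * y i) ^ (α (Sum.inr i) - β (Sum.inr i))) := by ring
    _ = _ := by
      rw [h1]
      ring

end Pool.Agent.H51.TB

end
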