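import Pool.Agent.H94.LP5.M01
import Pool.Agent.H94.LP5.M17
import Pool.Agent.H94.LP5.M20
import Pool.Agent.H94.LP5.M45

/-! The parts of this file: H21.HD.Region, H51.TB.LRank, H51.TB.Lim. -/

section

/-!
The region in terms of `fro`.
-/

namespace Pool.Agent.H21.HD

open scoped Classical

namespace RegionX

lemma phi_nonneg_le (j : ℕ) (κ : ℕ → ℝ) (h0 : ∀ i, 0 ≤ κ i) (hpos : ∀ i ≤ j, 0 ≤ phi κ i) :
    ∀ i ≤ j + 1, phi κ i ≤ 1 := by
  intro i
  induction i with
  | zero => intro _; rw [phi]
  | succ i ih =>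
    intro hi
    rw [phi]
    have h1 := ih (by omega)
    have h2 : 0 ≤ ∑ e : Fin (i + 1), κ (e + 1) * (i.choose e : ℝ) * phi κ (i - e) := by
      apply Finset.sum_nonneg
      intro e _
      have h3 := hpos (i - e) (by omega)
      have h4 := h0 (e + 1)
      positivity
    linarith

lemma phi_congr' {κ κ' : ℕ → ℝ} : ∀ j : ℕ, (∀ i, 1 ≤ i → i ≤ j → κ i = κ' i) →
    phi κ j = phi κ' j := by
  intro j
  induction j using Nat.strong_induction_on with
  | _ j ih =>
    intro h
    cases j with
    | zero => rw [phi, phi]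
    | succ j =>
      rw [phi, phi, ih j (Nat.lt_succ_self j) fun i h1 h2 => h i h1 (by omega)]
      congr 1
      refine Finset.sum_congr rfl fun e _ => ?_
      have he := e.2
      rw [h (e + 1) (by omega) (by omega), ih (j - e) (by omega) fun i h1 h2 => h i h1 (by omega)]

lemma load_nonneg' {P : Type} (r : ℕ) (e : P → ℕ) (I : Finset P) (i : ℕ) : 0 ≤ load r e I i := by
  unfold load
  positivity

/-- `j! binom(j + r, r) ≤ 2 (r + 1)^j` for large `r`. -/
lemma choose_le_two (j : ℕ) : ∃ r₀ : ℕ, ∀ r : ℕ, r₀ ≤ r →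
    (j.factorial : ℝ) * ((j + r).choose r : ℝ) ≤ 2 * ((r : ℝ) + 1) ^ j := by
  have key : ∀ r : ℕ, (j.factorial : ℝ) * ((j + r).choose r : ℝ) ≤ ((r : ℝ) + j) ^ j := by
    intro r
    have h1 : (j + r).choose r = (j + r).choose j := by
      rw [Nat.choose_symm_add]
    have h2 : j.factorial * (j + r).choose j ≤ (j + r) ^ j := by
      rw [← Nat.descFactorial_eq_factorial_mul_choose]
      exact Nat.descFactorial_le_pow _ _
    rw [h1]
    have h3 : ((j.factorial * (j + r).choose j : ℕ) : ℝ) ≤ (((j + r) ^ j : ℕ) : ℝ) := by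
      exact_mod_cast h2
    push_cast at h3
    rw [add_comm (j : ℝ) (r : ℝ)] at h3
    exact h3
  -- `(r + j)^j ≤ 2 (r+1)^j`
  have hlim : Filter.Tendsto (fun r : ℕ => (((r : ℝ) + j) / ((r : ℝ) + 1)) ^ j) Filter.atTop
      (nhds (1 ^ j)) := by
    apply Filter.Tendsto.pow
    have h1 : (fun r : ℕ => ((r : ℝ) + j) / ((r : ℝ) + 1)) =
        fun r : ℕ => 1 + ((j : ℝ) - 1) / ((r : ℝ) + 1) := by
      funext r
      have : (r : ℝ) + 1 ≠ 0 := by positivity
      field_simp
      ring
    rw [h1]
    have h2 : Filter.Tendsto (fun r : ℕ => ((j : ℝ) - 1) / ((r : ℝ) + 1)) Filter.atTop (nhds 0) := by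
      apply Filter.Tendsto.div_atTop tendsto_const_nhds
      exact Filter.tendsto_atTop_add_const_right _ _ tendsto_natCast_atTop_atTop
    simpa using h2.const_add 1
  rw [one_pow] at hlim
  have h1 := hlim.eventually (gt_mem_nhds (show (1 : ℝ) < 2 by norm_num))
  obtain ⟨r₀, hr₀⟩ := Filter.eventually_atTop.1 h1
  refine ⟨r₀, fun r hr => (key r).trans ?_⟩
  have h2 := (hr₀ r hr).le
  rw [div_pow, div_le_iff₀ (by positivity)] at h2
  exact h2

end RegionX

open RegionX

/-- If the Fröberg numbers are large then the loads are bounded and `phi` is large. -/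
theorem region_of_fro (d : ℕ) (η : ℝ) (hη : 0 < η) : ∃ r₀ : ℕ, ∀ r : ℕ, r₀ ≤ r →
    ∀ (P : Type) (e : P → ℕ) (I : Finset P), (∀ i ∈ I, 1 ≤ e i) →
    (∀ j ≤ d, η * ((j + r).choose r : ℝ) ≤ (fro r e I j : ℝ)) →
    (∀ i, 1 ≤ i → i ≤ d → load r e I i ≤ 2) ∧ ∀ j ≤ d, η / 2 ≤ phi (load r e I) j := by
  choose R hR using fun j : ℕ => fro_asymp j 2 (η / 2) (by linarith)
  choose S hS using fun j : ℕ => choose_le_two j
  refine ⟨(Finset.range (d + 1)).sup R + (Finset.range (d + 1)).sup S, fun r hr P e I he hfro => ?_⟩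
  have hRr : ∀ j ≤ d, R j ≤ r := by
    intro j hj
    have h1 : R j ≤ (Finset.range (d + 1)).sup R :=
      Finset.le_sup (f := R) (Finset.mem_range.2 (Nat.lt_succ_of_le hj))
    omega
  have hSr : ∀ j ≤ d, S j ≤ r := by
    intro j hj
    have h1 : S j ≤ (Finset.range (d + 1)).sup S :=
      Finset.le_sup (f := S) (Finset.mem_range.2 (Nat.lt_succ_of_le hj))
    omega
  have hs : ∀ j, (0 : ℝ) < ((j + r).choose r : ℝ) := by
    intro j
    exact_mod_cast Nat.choose_pos (by omega)
  have key : ∀ j ≤ d, (∀ i, 1 ≤ i → i ≤ j → load r e I i ≤ 2) ∧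
      ∀ i ≤ j, η / 2 ≤ phi (load r e I) i := by
    intro j
    induction j with
    | zero =>
      intro _
      refine ⟨fun i h1 h2 => by omega, fun i hi => ?_⟩
      have hi0 : i = 0 := by omega
      subst hi0
      have h1 := hfro 0 (Nat.zero_le _)
      rw [fro_zero r e I he] at h1
      have h2 : (0 + r).choose r = 1 := by simp
      rw [h2] at h1
      rw [phi]
      push_cast at h1
      linarith
    | succ j ih =>
      intro hj
      obtain ⟨ih1, ih2⟩ := ih (by omega)
      -- the load of `j + 1`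
      have hload : load r e I (j + 1) ≤ 2 := by
        set I₁ := I.filter (fun p => e p < j + 1) with hI₁
        set I₂ := I.filter (fun p => e p = j + 1) with hI₂
        set I₃ := I.filter (fun p => j + 1 < e p) with hI₃
        have hd12 : Disjoint I₁ I₂ := by
          rw [Finset.disjoint_left]
          intro x hx hx'
          rw [Finset.mem_filter] at hx hx'
          omega
        have hd3 : Disjoint (I₁ ∪ I₂) I₃ := by
          rw [Finset.disjoint_left]
          intro x hx hx'
          rw [Finset.mem_union, Finset.mem_filter, Finset.mem_filter] at hx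
          rw [Finset.mem_filter] at hx'
          omega
        have hI : I = (I₁ ∪ I₂) ∪ I₃ := by
          ext x
          simp only [hI₁, hI₂, hI₃, Finset.mem_union, Finset.mem_filter]
          constructor
          · intro hx
            rcases lt_trichotomy (e x) (j + 1) with h | h | h
            · exact Or.inl (Or.inl ⟨hx, h⟩)
            · exact Or.inl (Or.inr ⟨hx, h⟩)
            · exact Or.inr ⟨hx, h⟩
          · rintro ((h | h) | h) <;> exact h.1
        have h1 : fro r e I (j + 1) = fro r e I₁ (j + 1) - I₂.card := by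
          conv_lhs => rw [hI]
          rw [fro_union_large r (j + 1) e _ _ hd3 (fun i hi => (Finset.mem_filter.1 hi).2),
            fro_simple r (j + 1) e I₁ I₂ hd12 (fun i hi => he i (Finset.mem_filter.1 hi).1)
              (by omega) (fun i hi => (Finset.mem_filter.1 hi).2)]
        have hload₁ : ∀ i, 1 ≤ i → i ≤ j + 1 → load r e I₁ i =
            if i = j + 1 then 0 else load r e I i := by
          intro i h2 h3
          unfold load
          split_ifs with h4
          · have h5 : I₁.filter (fun p => e p = i) = ∅ := by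
              rw [Finset.filter_eq_empty_iff]
              intro x hx hxi
              rw [hI₁, Finset.mem_filter] at hx
              omega
            rw [h5]
            simp
          · have h5 : I₁.filter (fun p => e p = i) = I.filter (fun p => e p = i) := by
              ext x
              simp only [hI₁, Finset.mem_filter]
              constructor
              · rintro ⟨⟨h6, _⟩, h7⟩
                exact ⟨h6, h7⟩
              · rintro ⟨h6, h7⟩
                exact ⟨⟨h6, by omega⟩, h7⟩
            rw [h5]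
        have h2 := hR (j + 1) r (hRr (j + 1) hj) P e I₁
          (fun i hi => he i (Finset.mem_filter.1 hi).1) (by
            intro i h3 h4
            rw [hload₁ i h3 h4]
            split_ifs with h5
            · norm_num
            · exact ih1 i h3 (by omega))
        have h3 : phi (load r e I₁) (j + 1) ≤ 1 := by
          apply phi_nonneg_le j _ (load_nonneg' r e I₁) _ (j + 1) le_rfl
          intro i hi
          rw [phi_congr' (κ' := load r e I) i]
          · have := ih2 i hi
            linarith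
          · intro t h4 h5
            rw [hload₁ t h4 (by omega), if_neg (by omega)]
        have h4 := (abs_le.1 h2).2
        have h5 := hfro (j + 1) hj
        have hsj := hs (j + 1)
        have h6 : (I₂.card : ℝ) ≤ ((j + 1 + r).choose r : ℝ) := by
          rw [h1] at h5
          push_cast at h5
          have h7 : phi (load r e I₁) (j + 1) * ((j + 1 + r).choose r : ℝ) ≤
              1 * ((j + 1 + r).choose r : ℝ) := mul_le_mul_of_nonneg_right h3 hsj.le
          have h8 : 0 ≤ η / 2 * ((j + 1 + r).choose r : ℝ) := by positivity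
          linarith
        unfold load
        rw [div_le_iff₀ (by positivity)]
        have h7 := hS (j + 1) r (hSr (j + 1) hj)
        have h8 : ((j + 1).factorial : ℝ) * (I₂.card : ℝ) ≤
            ((j + 1).factorial : ℝ) * ((j + 1 + r).choose r : ℝ) :=
          mul_le_mul_of_nonneg_left h6 (by positivity)
        exact h8.trans h7
      have hload' : ∀ i, 1 ≤ i → i ≤ j + 1 → load r e I i ≤ 2 := by
        intro i h1 h2
        rcases Nat.lt_or_ge i (j + 1) with h3 | h3
        · exact ih1 i h1 (by omega)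
        · have : i = j + 1 := by omega
          rw [this]
          exact hload
      refine ⟨hload', fun i hi => ?_⟩
      rcases Nat.lt_or_ge i (j + 1) with h3 | h3
      · exact ih2 i (by omega)
      · have hi' : i = j + 1 := by omega
        subst hi'
        have h4 := hR (j + 1) r (hRr (j + 1) hj) P e I he hload'
        have h5 := (abs_le.1 h4).2
        have h6 := hfro (j + 1) hj
        have h7 : η / 2 * ((j + 1 + r).choose r : ℝ) ≤
            phi (load r e I) (j + 1) * ((j + 1 + r).choose r : ℝ) := by linarith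
        exact le_of_mul_le_mul_right h7 (hs (j + 1))
  exact key d le_rfl

end Pool.Agent.H21.HD

end

section

/-!
# Module B2 (TB): the size of a type on a level

Lower bound: at the position `q` with `q = 1` at the first `X`-variable and at the first
`Y`-variable and `q = 0` at the others, consider the conditions `β` which vanish at these two
variables and have bidegree `g ∈ Λ`; there are `multichoose (a-1) gx * multichoose (b-1) gy` of them for
each `g`.  `tcr q α β` is `1` if `α = β` off the two special variables and `0` otherwise, and for `α` on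
the level `j` this determines `α` (first `X`-coordinate `d - j - gx`, first `Y`-coordinate `j - gy`).
So these conditions say that the coefficients of different exponents vanish.

Upper bound: the number of conditions is at most the number of multi-indices `β : Z a b → ℕ` of degree
less than `t`, which is `ell (a + b) t`.
-/

namespace Pool.Agent.H51.TB

open Finset MvPolynomial Pool.Agent.H18.Ex Pool.Agent.H21.NX Pool.Agent.H18.Ta

private theorem LRank_card_Sx {ι : Type} [Fintype ι] [DecidableEq ι] (n : ℕ) :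
    (Sx ι n).card = Nat.multichoose (Fintype.card ι) n := by
  rw [← card_univ, ← card_finsuppAntidiag_nat_eq_multichoose]
  symm
  apply card_bij (fun (α : ι →₀ ℕ) _ => (⇑α : ι → ℕ))
  · intro α hα
    rw [mem_finsuppAntidiag] at hα
    exact mem_Sx.2 hα.1
  · intro α _ β _ h
    exact DFunLike.coe_injective h
  · intro f hf
    refine ⟨Finsupp.equivFunOnFinite.symm f, ?_, rfl⟩
    rw [mem_finsuppAntidiag]
    exact ⟨mem_Sx.1 hf, subset_univ _⟩

/-- the special variables -/
private def LRank_sp {a b : ℕ} : Z (a + 1) (b + 1) → Prop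
  | Sum.inl i => i = 0
  | Sum.inr i => i = 0

private instance {a b : ℕ} : DecidablePred (LRank_sp (a := a) (b := b)) := fun z => by
  rcases z with i | i <;> unfold LRank_sp <;> infer_instance

/-- the special position -/
private noncomputable def LRank_q (a b : ℕ) (z : Z (a + 1) (b + 1)) : ℂ := if LRank_sp z then 1 else 0

/-- `α` with the special coordinates removed -/
private def LRank_red {a b : ℕ} (α : Z (a + 1) (b + 1) → ℕ) (z : Z (a + 1) (b + 1)) : ℕ :=
  if LRank_sp z then 0 else α z

private theorem LRank_sp_inl {a b : ℕ} : LRank_sp (Sum.inl 0 : Z (a + 1) (b + 1)) := rfl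

private theorem LRank_sp_inr {a b : ℕ} : LRank_sp (Sum.inr 0 : Z (a + 1) (b + 1)) := rfl

private theorem LRank_nsp_inl {a b : ℕ} (i : Fin a) : ¬ LRank_sp (Sum.inl i.succ : Z (a + 1) (b + 1)) :=
  fun h => Fin.succ_ne_zero i h

private theorem LRank_nsp_inr {a b : ℕ} (i : Fin b) : ¬ LRank_sp (Sum.inr i.succ : Z (a + 1) (b + 1)) :=
  fun h => Fin.succ_ne_zero i h

private theorem LRank_xd {a b : ℕ} (α : Z (a + 1) (b + 1) → ℕ) :
    xd α = α (Sum.inl 0) + xd (LRank_red α) := by
  unfold xd
  rw [Fin.sum_univ_succ, Fin.sum_univ_succ (fun i => LRank_red α (Sum.inl i))]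
  have h0 : LRank_red α (Sum.inl 0) = 0 := by
    unfold LRank_red
    rw [if_pos LRank_sp_inl]
  have h1 : ∀ i : Fin a, LRank_red α (Sum.inl i.succ) = α (Sum.inl i.succ) := by
    intro i
    unfold LRank_red
    rw [if_neg (LRank_nsp_inl i)]
  rw [h0, Nat.zero_add]
  rw [sum_congr rfl fun i _ => h1 i]

private theorem LRank_yd {a b : ℕ} (α : Z (a + 1) (b + 1) → ℕ) :
    yd α = α (Sum.inr 0) + yd (LRank_red α) := by
  unfold yd
  rw [Fin.sum_univ_succ, Fin.sum_univ_succ (fun i => LRank_red α (Sum.inr i))]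
  have h0 : LRank_red α (Sum.inr 0) = 0 := by
    unfold LRank_red
    rw [if_pos LRank_sp_inr]
  have h1 : ∀ i : Fin b, LRank_red α (Sum.inr i.succ) = α (Sum.inr i.succ) := by
    intro i
    unfold LRank_red
    rw [if_neg (LRank_nsp_inr i)]
  rw [h0, Nat.zero_add]
  rw [sum_congr rfl fun i _ => h1 i]

private theorem LRank_eq {a b d j : ℕ} {α α' : Z (a + 1) (b + 1) → ℕ} (h : α ∈ Bx (a + 1) (b + 1) d j)
    (h' : α' ∈ Bx (a + 1) (b + 1) d j) (hr : LRank_red α = LRank_red α') : α = α' := by
  rw [mem_Bx] at h h'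
  have hx := LRank_xd α
  have hx' := LRank_xd α'
  have hy := LRank_yd α
  have hy' := LRank_yd α'
  rw [hr] at hx hy
  funext z
  by_cases hz : LRank_sp z
  · rcases z with i | i
    · have : i = 0 := hz
      subst this
      omega
    · have : i = 0 := hz
      subst this
      omega
  · have := congrFun hr z
    unfold LRank_red at this
    rwa [if_neg hz, if_neg hz] at this

private theorem LRank_tcr {a b : ℕ} (α β : Z (a + 1) (b + 1) → ℕ) :
    tcr (LRank_q a b) α (LRank_red β) = if LRank_red α = LRank_red β then 1 else 0 := by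
  unfold tcr
  split_ifs with h
  · apply prod_eq_one
    intro z _
    have h1 := congrFun h z
    unfold LRank_q
    by_cases hz : LRank_sp z
    · have h2 : LRank_red β z = 0 := by
        unfold LRank_red
        rw [if_pos hz]
      rw [if_pos hz, h2]
      simp
    · have h2 : LRank_red α z = α z := by
        unfold LRank_red
        rw [if_neg hz]
      rw [if_neg hz, ← h1, h2]
      simp
  · have h1 : ∃ z, LRank_red α z ≠ LRank_red β z := by
      by_contra hc
      push Not at hc
      exact h (funext hc)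
    obtain ⟨z, hz⟩ := h1
    apply prod_eq_zero (mem_univ z)
    have hsp : ¬ LRank_sp z := by
      intro hs
      apply hz
      unfold LRank_red
      rw [if_pos hs, if_pos hs]
    have h2 : LRank_red α z = α z := by
      unfold LRank_red
      rw [if_neg hsp]
    rw [h2] at hz
    unfold LRank_q
    rw [if_neg hsp]
    rcases Nat.lt_or_gt_of_ne hz with h3 | h3
    · rw [Nat.choose_eq_zero_of_lt h3]
      simp
    · rw [zero_pow (by omega), mul_zero]

/-- the exponents whose coefficients vanish -/
private def LRank_T (a b d j : ℕ) (Λ : Finset (ℕ × ℕ)) : Finset (Z (a + 1) (b + 1) → ℕ) :=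
  (Bx (a + 1) (b + 1) d j).filter fun α => (xd (LRank_red α), yd (LRank_red α)) ∈ Λ

private theorem LRank_card_fib {a b d j : ℕ} (hj : j ≤ d) (g : ℕ × ℕ) (hg : j + g.1 ≤ d ∧ g.2 ≤ j) :
    ((Bx (a + 1) (b + 1) d j).filter fun α => (xd (LRank_red α), yd (LRank_red α)) = g).card =
      Nat.multichoose a g.1 * Nat.multichoose b g.2 := by
  have h1 := LRank_card_Sx (ι := Fin a) g.1
  have h2 := LRank_card_Sx (ι := Fin b) g.2
  rw [Fintype.card_fin] at h1 h2
  rw [← h1, ← h2, ← card_product]
  symm
  have hext : ∀ (u : Fin a → ℕ) (v : Fin b → ℕ), xd (LRank_red (Sum.elim (Fin.cons (d - j - g.1) u : Fin (a + 1) → ℕ)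
      (Fin.cons (j - g.2) v : Fin (b + 1) → ℕ))) = ∑ i, u i := by
    intro u v
    unfold xd
    rw [Fin.sum_univ_succ]
    have h0 : LRank_red (Sum.elim (Fin.cons (d - j - g.1) u : Fin (a + 1) → ℕ) (Fin.cons (j - g.2) v : Fin (b + 1) → ℕ))
        (Sum.inl 0) = 0 := by
      unfold LRank_red
      rw [if_pos LRank_sp_inl]
    rw [h0, Nat.zero_add]
    refine sum_congr rfl fun i _ => ?_
    unfold LRank_red
    rw [if_neg (LRank_nsp_inl i)]
    simp
  have hext' : ∀ (u : Fin a → ℕ) (v : Fin b → ℕ), yd (LRank_red (Sum.elim (Fin.cons (d - j - g.1) u : Fin (a + 1) → ℕ)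
      (Fin.cons (j - g.2) v : Fin (b + 1) → ℕ))) = ∑ i, v i := by
    intro u v
    unfold yd
    rw [Fin.sum_univ_succ]
    have h0 : LRank_red (Sum.elim (Fin.cons (d - j - g.1) u : Fin (a + 1) → ℕ) (Fin.cons (j - g.2) v : Fin (b + 1) → ℕ))
        (Sum.inr 0) = 0 := by
      unfold LRank_red
      rw [if_pos LRank_sp_inr]
    rw [h0, Nat.zero_add]
    refine sum_congr rfl fun i _ => ?_
    unfold LRank_red
    rw [if_neg (LRank_nsp_inr i)]
    simp
  apply card_bij (fun (w : (Fin a → ℕ) × (Fin b → ℕ)) _ =>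
    (Sum.elim (Fin.cons (d - j - g.1) w.1 : Fin (a + 1) → ℕ) (Fin.cons (j - g.2) w.2 : Fin (b + 1) → ℕ) : Z (a + 1) (b + 1) → ℕ))
  · intro w hw
    rw [mem_product, mem_Sx, mem_Sx] at hw
    rw [mem_filter, mem_Bx]
    have hx := LRank_xd (Sum.elim (Fin.cons (d - j - g.1) w.1 : Fin (a + 1) → ℕ) (Fin.cons (j - g.2) w.2 : Fin (b + 1) → ℕ))
    have hy := LRank_yd (Sum.elim (Fin.cons (d - j - g.1) w.1 : Fin (a + 1) → ℕ) (Fin.cons (j - g.2) w.2 : Fin (b + 1) → ℕ))
    rw [hext, hw.1] at hx
    rw [hext', hw.2] at hy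
    simp only [Sum.elim_inl, Sum.elim_inr, Fin.cons_zero] at hx hy
    refine ⟨⟨by omega, by omega⟩, ?_⟩
    rw [hext, hext', hw.1, hw.2]
  · intro w _ w' _ h
    ext i
    · have := congrFun h (Sum.inl i.succ)
      simpa using this
    · have := congrFun h (Sum.inr i.succ)
      simpa using this
  · intro α hα
    rw [mem_filter, mem_Bx] at hα
    obtain ⟨⟨h3, h4⟩, h5⟩ := hα
    have hx := LRank_xd α
    have hy := LRank_yd α
    have h6 : xd (LRank_red α) = g.1 := by rw [← h5]
    have h7 : yd (LRank_red α) = g.2 := by rw [← h5]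
    have h8 : xd α = α (Sum.inl 0) + ∑ i : Fin a, α (Sum.inl i.succ) := by
      unfold xd
      exact Fin.sum_univ_succ _
    have h9 : yd α = α (Sum.inr 0) + ∑ i : Fin b, α (Sum.inr i.succ) := by
      unfold yd
      exact Fin.sum_univ_succ _
    refine ⟨(fun i => α (Sum.inl i.succ), fun i => α (Sum.inr i.succ)), ?_, ?_⟩
    · rw [mem_product, mem_Sx, mem_Sx]
      constructor
      · change ∑ i : Fin a, α (Sum.inl i.succ) = g.1
        omega
      · change ∑ i : Fin b, α (Sum.inr i.succ) = g.2
        omega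
    · funext z
      rcases z with i | i
      · refine Fin.cases ?_ (fun i => ?_) i
        · change d - j - g.1 = α (Sum.inl 0)
          omega
        · rfl
      · refine Fin.cases ?_ (fun i => ?_) i
        · change j - g.2 = α (Sum.inr 0)
          omega
        · rfl

private theorem LRank_card_T {a b d j : ℕ} (hj : j ≤ d) (Λ : Finset (ℕ × ℕ))
    (hΛ : ∀ g ∈ Λ, j + g.1 ≤ d ∧ g.2 ≤ j) :
    (LRank_T a b d j Λ).card = ∑ g ∈ Λ, Eg (a + 1) (b + 1) g := by
  have h1 : (LRank_T a b d j Λ).card =
      ∑ g ∈ Λ, ((LRank_T a b d j Λ).filter fun α => (xd (LRank_red α), yd (LRank_red α)) = g).card := by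
    apply card_eq_sum_card_fiberwise
    intro α hα
    unfold LRank_T at hα
    rw [Finset.mem_coe, mem_filter] at hα
    exact hα.2
  rw [h1]
  refine sum_congr rfl fun g hg => ?_
  rw [show Eg (a + 1) (b + 1) g = Nat.multichoose a g.1 * Nat.multichoose b g.2 from rfl,
    ← LRank_card_fib hj g (hΛ g hg)]
  congr 1
  unfold LRank_T
  rw [filter_filter]
  apply filter_congr
  intro α _
  constructor
  · exact fun h => h.2
  · intro h
    exact ⟨by rw [h]; exact hg, h⟩

theorem le_size {a b d j : ℕ} (ha : 1 ≤ a) (hb : 1 ≤ b) (hj : j ≤ d) (Λ : Finset (ℕ × ℕ))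
    (hΛ : ∀ g ∈ Λ, j + g.1 ≤ d ∧ g.2 ≤ j) : ∑ g ∈ Λ, Eg a b g ≤ (LSys a b d j).size Λ := by
  obtain ⟨a, rfl⟩ : ∃ a', a = a' + 1 := ⟨a - 1, by omega⟩
  obtain ⟨b, rfl⟩ : ∃ b', b = b' + 1 := ⟨b - 1, by omega⟩
  rw [← LRank_card_T hj Λ hΛ]
  let T : Finset {α // α ∈ Bx (a + 1) (b + 1) d j} := univ.filter fun α => α.1 ∈ LRank_T a b d j Λ
  have hT : T.card = (LRank_T a b d j Λ).card := by
    apply card_bij (fun (α : {α // α ∈ Bx (a + 1) (b + 1) d j}) _ => α.1)
    · intro α hα
      exact (mem_filter.1 hα).2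
    · intro α _ β _ h
      exact Subtype.ext h
    · intro α hα
      have h1 : α ∈ Bx (a + 1) (b + 1) d j := by
        unfold LRank_T at hα
        exact (mem_filter.1 hα).1
      exact ⟨⟨α, h1⟩, mem_filter.2 ⟨mem_univ _, hα⟩, rfl⟩
  -- the solutions vanish on `T`
  have hvan : ∀ f ∈ (LSys (a + 1) (b + 1) d j).V (fun _ : Unit => Λ) (fun _ => LRank_q a b), ∀ α ∈ T, f α = 0 := by
    intro f hf α hα
    rw [mem_LV] at hf
    have hα' : (xd (LRank_red α.1), yd (LRank_red α.1)) ∈ Λ := by
      have := (mem_filter.1 hα).2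
      unfold LRank_T at this
      exact (mem_filter.1 this).2
    have h1 := hf () (LRank_red α.1) hα'
    rw [sum_eq_single α] at h1
    · rw [LRank_tcr, if_pos rfl, one_mul] at h1
      exact h1
    · intro β _ hβ
      rw [LRank_tcr, if_neg, zero_mul]
      intro h
      exact hβ (Subtype.ext (LRank_eq β.2 α.2 h))
    · intro h
      exact absurd (mem_univ α) h
  have hfin : Module.finrank ℂ ((LSys (a + 1) (b + 1) d j).V (fun _ : Unit => Λ) (fun _ => LRank_q a b)) ≤
      Fintype.card {α // α ∈ Bx (a + 1) (b + 1) d j} - T.card := by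
    let φ : (LSys (a + 1) (b + 1) d j).V (fun _ : Unit => Λ) (fun _ => LRank_q a b) →ₗ[ℂ] ({α // α ∉ T} → ℂ) :=
      (LinearMap.funLeft ℂ ℂ (fun α : {α // α ∉ T} => α.1)).comp (Submodule.subtype _)
    have hφ : Function.Injective φ := by
      rw [← LinearMap.ker_eq_bot, LinearMap.ker_eq_bot']
      intro f hf
      apply Subtype.ext
      funext α
      by_cases hα : α ∈ T
      · exact hvan f.1 f.2 α hα
      · exact congrFun hf ⟨α, hα⟩
    have h1 := LinearMap.finrank_le_finrank_of_injective hφ
    rw [Module.finrank_fintype_fun_eq_card] at h1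
    have h2 : Fintype.card {α // α ∉ T} = Fintype.card {α // α ∈ Bx (a + 1) (b + 1) d j} - T.card := by
      rw [Fintype.card_subtype_compl, Fintype.card_coe, Fintype.card_coe]
    rw [h2] at h1
    exact h1
  have hgd := gd_le (LSys (a + 1) (b + 1) d j) (fun _ : Unit => Λ) (fun _ => LRank_q a b)
  have hc : T.card ≤ Fintype.card {α // α ∈ Bx (a + 1) (b + 1) d j} := card_le_univ T
  unfold Sys.size
  omega

theorem size_le {a b d j : ℕ} (ha : 1 ≤ a) (Λ : Finset (ℕ × ℕ)) (t : ℕ)
    (hΛ : ∀ g ∈ Λ, g.1 + g.2 < t) : (LSys a b d j).size Λ ≤ ell (a + b) t := by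
  obtain ⟨p, hp⟩ := gd_attained (LSys a b d j) (fun _ : Unit => Λ)
  have : Finite {β : Z a b → ℕ // (xd β, yd β) ∈ Λ} := finite_idx a b Λ
  letI : Fintype {β : Z a b → ℕ // (xd β, yd β) ∈ Λ} := Fintype.ofFinite _
  -- the number of conditions
  have hcard : Fintype.card {β : Z a b → ℕ // (xd β, yd β) ∈ Λ} ≤ ell (a + b) t := by
    rcases Nat.eq_zero_or_pos t with rfl | ht
    · have : IsEmpty {β : Z a b → ℕ // (xd β, yd β) ∈ Λ} := ⟨fun β => by
        have := hΛ _ β.2
        omega⟩
      rw [Fintype.card_eq_zero]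
      exact Nat.zero_le _
    · have hsum : ∀ β : Z a b → ℕ, ∑ z, β z = xd β + yd β := fun β => Fintype.sum_sum_type β
      let ψ : {β : Z a b → ℕ // (xd β, yd β) ∈ Λ} → {x // x ∈ Sx (Option (Z a b)) (t - 1)} := fun β =>
        ⟨fun o => o.elim (t - 1 - ∑ z, β.1 z) β.1, by
          rw [mem_Sx, Fintype.sum_option]
          have h1 := hΛ _ β.2
          have h2 := hsum β.1
          simp only [Option.elim_none, Option.elim_some]
          omega⟩
      have hψ : Function.Injective ψ := by
        intro β γ h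
        apply Subtype.ext
        funext z
        have h1 := congrArg Subtype.val h
        exact congrFun h1 (some z)
      have h1 := Fintype.card_le_of_injective ψ hψ
      rw [Fintype.card_coe, LRank_card_Sx, Fintype.card_option, Fintype.card_sum, Fintype.card_fin, Fintype.card_fin,
        Nat.multichoose_eq] at h1
      refine h1.trans (le_of_eq ?_)
      unfold ell
      have h2 : a + b + 1 + (t - 1) - 1 = (a + b) + (t - 1) := by omega
      have h3 : t + (a + b) - 1 = (a + b) + (t - 1) := by omega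
      rw [h2, h3]
      exact (Nat.choose_symm_add (a := a + b) (b := t - 1)).symm
  -- the linear map
  let L : ({α // α ∈ Bx a b d j} → ℂ) →ₗ[ℂ] ({β : Z a b → ℕ // (xd β, yd β) ∈ Λ} → ℂ) :=
    { toFun := fun f β => ∑ α : {α // α ∈ Bx a b d j}, tcr (p ()) α.1 β.1 * f α
      map_add' := by
        intro f g
        funext β
        simp only [Pi.add_apply, mul_add, sum_add_distrib]
      map_smul' := by
        intro c f
        funext β
        simp only [Pi.smul_apply, smul_eq_mul, RingHom.id_apply, mul_sum]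
        exact sum_congr rfl fun α _ => by ring }
  have hker : LinearMap.ker L = (LSys a b d j).V (fun _ : Unit => Λ) p := by
    ext f
    rw [LinearMap.mem_ker, mem_LV]
    constructor
    · intro h i β hβ
      exact congrFun h ⟨β, hβ⟩
    · intro h
      funext β
      exact h () β.1 β.2
  have hrn := LinearMap.finrank_range_add_finrank_ker L
  rw [hker, hp, Module.finrank_fintype_fun_eq_card] at hrn
  have hr : Module.finrank ℂ (LinearMap.range L) ≤ Fintype.card {β : Z a b → ℕ // (xd β, yd β) ∈ Λ} := by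
    have := Submodule.finrank_le (LinearMap.range L)
    rwa [Module.finrank_fintype_fun_eq_card] at this
  unfold Sys.size
  omega

end Pool.Agent.H51.TB

end

section

/-!
# Module C2 (TB): the limit lemma

Compare `Pool/Agent/H18/Ta/Core.lean` (the same argument for two variables).

Proof.  By `gn_gd` and `Gn.all` there are positions `p i` such that `V (Lam ... j) p = ⊥` for all
levels `j ≤ d`.  Let `e i = ex (d+1) u ρ`, `c i = (u, ρ)`, `kap = kap (d+1)` and
`key i j = e i * j + kap j`; by `key_lt` (with `ℓ = d + 1`) the keys are ordered as the ranks, and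
the ranks are different (`rk_inj`).  We claim that for some `t` the positions
`p_t i = (x_i, t^(e i) y_i)` prove `GI`.  Otherwise for all `t` there is a nonzero `f` (on
`Sx (Z a b) d`) with `∑_α f_α tcr (p_t i) α β = 0` for all `i`, `|β| < m i`; write
`f_α = t^(kap (yd α)) g_α` and multiply by `t^(e i * yd β)` (`tcr_scale`):
`∑_j t^(key i j) T_j = 0`, `T_j = ∑_{α on level j} g_α tcr (p i) α β` (as in Core, an additional factor
`X` takes care of `t = 0`).  By `exists_poly_solution` there are polynomials `g_α(t)`, not all zero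
at `t = 0`, which satisfy these identities as polynomials in `t`.

Fix `i`, a level `j` and `β` with `(xd β, yd β) ∈ Lam d (m i) (c i) j`.  Let `S` be the set of the levels
of the window `[yd β, d - xd β]` of rank smaller than that of `j`; `S.card = wr d (c i) (xd β, yd β) j`,
so `|β| + S.card < m i` and `weighted` gives `∑_{j'} ∏_{u ∈ S} (j' - u) t^(key i j') T_{j'} = 0`.  Take
the coefficient of `t^(key i j)`: the levels `j'` outside of the window have `T_{j'} = 0` (`tcr_zero`),
those of smaller rank are in `S`, those of larger rank have a larger key.  So `T_j(0) = 0` (the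
product over `S` is nonzero at `j`).  Hence the values `g_α(0)` on the level `j` are in
`V (Lam ... j) p = ⊥` for all `j`, a contradiction.
-/

namespace Pool.Agent.H51.TB

open Finset Pool.Agent.H18.Ex Pool.Agent.H21.NX Pool.Agent.H18.Ta

/-- The positions at the parameter `t`. -/
private def Lim_pos {a b : ℕ} (q : Z a b → ℂ) (s : ℂ) : Z a b → ℂ :=
  Sum.elim (fun v => q (Sum.inl v)) fun v => s * q (Sum.inr v)

private theorem Lim_scale {a b : ℕ} (q : Z a b → ℂ) (s : ℂ) (α β : Z a b → ℕ) :
    s ^ yd β * tcr (Lim_pos q s) α β = s ^ yd α * tcr q α β := by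
  have h1 := tcr_scale (fun v => q (Sum.inl v)) (fun v => q (Sum.inr v)) s α β
  have h2 : (Sum.elim (fun v => q (Sum.inl v)) fun v => q (Sum.inr v) : Z a b → ℂ) = q := by
    funext v
    cases v <;> rfl
  rw [h2] at h1
  exact h1

private theorem Lim_fiber {a b d : ℕ} {M : Type*} [AddCommMonoid M] (f : (Z a b → ℕ) → M) :
    ∑ α ∈ Sx (Z a b) d, f α = ∑ j ∈ range (d + 1), ∑ α ∈ Bx a b d j, f α := by
  symm
  unfold Bx
  refine sum_fiberwise_of_maps_to (g := fun α : Z a b → ℕ => yd α) ?_ f
  intro α hα
  rw [mem_Sx, Fintype.sum_sum_type] at hα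
  rw [mem_range]
  show yd α < d + 1
  unfold yd
  omega

/-- The positions at which all levels are killed. -/
private theorem Lim_gen {a b d : ℕ} {κ : Type} [Fintype κ] (m : κ → ℕ) (c : κ → ℕ × ℕ)
    (h : ∀ j ≤ d, (LSys a b d j).gd (fun i => Lam d (m i) (c i) j) = 0) :
    ∃ p : κ → Z a b → ℂ, ∀ j ≤ d, ∀ f ∈ (LSys a b d j).V (fun i => Lam d (m i) (c i) j) p,
      f = 0 := by
  have h1 : Gn κ (Z a b) fun p => ∀ j ∈ range (d + 1),
      Module.finrank ℂ ((LSys a b d j).V (fun i => Lam d (m i) (c i) j) p) =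
        (LSys a b d j).gd (fun i => Lam d (m i) (c i) j) :=
    Gn.all (range (d + 1)) fun j _ => gn_gd (LSys a b d j) _
  obtain ⟨p, hp⟩ := h1.exists
  refine ⟨p, fun j hj f hf => ?_⟩
  have h2 := hp j (mem_range.2 (by omega))
  rw [h j hj, Submodule.finrank_eq_zero] at h2
  rw [h2] at hf
  exact (Submodule.mem_bot ℂ).1 hf

theorem limit {a b d : ℕ} {κ : Type} [Fintype κ] (m : κ → ℕ) (c : κ → ℕ × ℕ)
    (hc : ∀ i, (c i).1 + (c i).2 ≤ d)
    (h : ∀ j ≤ d, (LSys a b d j).gd (fun i => Lam d (m i) (c i) j) = 0) :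
    GI (Sx (Z a b) d) fun i => Kind.free (m i) := by
  classical
  obtain ⟨p, hp⟩ := Lim_gen m c h
  by_contra hcon
  unfold GI InjAt at hcon
  push Not at hcon
  let e : κ → ℕ := fun i => ex (d + 1) (c i).1 (c i).2
  let key : κ → ℕ → ℕ := fun i j => e i * j + kap (d + 1) j
  let A : Finset (Z a b → ℕ) := Sx (Z a b) d
  let ρ : Type := (i : κ) × {β // β ∈ (Kind.free (m i) : Kind (Z a b)).idxs}
  let Mx : ρ → (Z a b → ℕ) → Polynomial ℂ := fun r α =>
    Polynomial.C (tcr (p r.1) α r.2.1) * (Polynomial.X ^ key r.1 (yd α) * Polynomial.X)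
  have hsol : ∀ t : ℂ, ∃ f : (Z a b → ℕ) → ℂ,
      (∀ r, ∑ α ∈ A, f α * (Mx r α).eval t = 0) ∧ ∃ α ∈ A, f α ≠ 0 := by
    intro t
    obtain ⟨f, hf, α₁, hα₁, hne⟩ := hcon fun i => Lim_pos (p i) (t ^ e i)
    by_cases ht : t = 0
    · refine ⟨fun _ => 1, fun r => sum_eq_zero fun α _ => ?_, α₁, hα₁, one_ne_zero⟩
      subst ht
      simp only [Mx]
      simp
    · refine ⟨fun α => f α * (t ^ kap (d + 1) (yd α))⁻¹, fun r => ?_, α₁, hα₁, ?_⟩
      · have h1 : ∑ α ∈ Sx (Z a b) d, f α * tcr (Lim_pos (p r.1) (t ^ e r.1)) α r.2.1 = 0 :=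
          hf r.1 r.2.1 (Kind.mem_idxs.1 r.2.2)
        have h2 : ∑ α ∈ A, f α * (t ^ kap (d + 1) (yd α))⁻¹ * (Mx r α).eval t =
            (t * (t ^ e r.1) ^ yd r.2.1) *
              ∑ α ∈ Sx (Z a b) d, f α * tcr (Lim_pos (p r.1) (t ^ e r.1)) α r.2.1 := by
          rw [mul_sum]
          refine sum_congr rfl fun α _ => ?_
          simp only [Mx, key]
          simp only [Polynomial.eval_mul, Polynomial.eval_C, Polynomial.eval_pow, Polynomial.eval_X]
          have h3 := Lim_scale (p r.1) (t ^ e r.1) α r.2.1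
          have h5 : t ^ kap (d + 1) (yd α) ≠ 0 := pow_ne_zero _ ht
          calc f α * (t ^ kap (d + 1) (yd α))⁻¹ * (tcr (p r.1) α r.2.1 *
                (t ^ (e r.1 * yd α + kap (d + 1) (yd α)) * t))
              = t * f α * ((t ^ e r.1) ^ yd α * tcr (p r.1) α r.2.1) *
                ((t ^ kap (d + 1) (yd α))⁻¹ * t ^ kap (d + 1) (yd α)) := by
                rw [pow_add, pow_mul]
                ring
            _ = t * f α * ((t ^ e r.1) ^ yd r.2.1 *
                tcr (Lim_pos (p r.1) (t ^ e r.1)) α r.2.1) := by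
                rw [inv_mul_cancel₀ h5, mul_one, h3]
            _ = _ := by ring
        rw [h2, h1, mul_zero]
      · exact mul_ne_zero hne (inv_ne_zero (pow_ne_zero _ ht))
  obtain ⟨F, hF, α₀, hα₀, hne⟩ := Pool.Agent.H18.Ex.exists_poly_solution A Mx hsol
  -- the equations without the factor `X`
  have heq : ∀ i (β : Z a b → ℕ), xd β + yd β < m i → ∑ j ∈ range (d + 1),
      (Polynomial.X : Polynomial ℂ) ^ key i j *
        ∑ α ∈ Bx a b d j, F α * tcr (fun v => Polynomial.C (p i v)) α β = 0 := by
    intro i β hβ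
    have hmem : β ∈ (Kind.free (m i) : Kind (Z a b)).idxs := by
      rw [Kind.mem_idxs]
      show ∑ v, β v < m i
      rw [Fintype.sum_sum_type]
      exact hβ
    have h1 := hF ⟨i, ⟨β, hmem⟩⟩
    have h2 : Polynomial.X * ∑ j ∈ range (d + 1),
        (Polynomial.X : Polynomial ℂ) ^ key i j *
          ∑ α ∈ Bx a b d j, F α * tcr (fun v => Polynomial.C (p i v)) α β = 0 := by
      rw [← h1]
      show _ = ∑ α ∈ Sx (Z a b) d, _
      rw [Lim_fiber, mul_sum]
      refine sum_congr rfl fun j _ => ?_
      rw [mul_sum, mul_sum]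
      refine sum_congr rfl fun α hα => ?_
      have h3 : yd α = j := (mem_Bx.1 hα).2
      simp only [Mx]
      rw [h3, tcr_map Polynomial.C (p i) α β]
      ring
    exact (mul_eq_zero.1 h2).resolve_left Polynomial.X_ne_zero
  -- the vanishing at zero
  have hkeyv : ∀ i, ∀ j₀ ≤ d, ∀ β : Z a b → ℕ, (xd β, yd β) ∈ Lam d (m i) (c i) j₀ →
      ∑ α ∈ Bx a b d j₀, tcr (p i) α β * (F α).eval 0 = 0 := by
    intro i j₀ hj₀ β hβ
    unfold Lam at hβ
    rw [mem_filter] at hβ
    obtain ⟨_, hy, hx, hw⟩ := hβ
    simp only at hy hx hw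
    have hci : (c i).1 + (c i).2 < d + 1 := by
      have := hc i
      omega
    set S : Finset ℕ := (range (d + 1)).filter fun k => yd β ≤ k ∧ k + xd β ≤ d ∧
      rk (d + 1) (c i).1 (c i).2 k < rk (d + 1) (c i).1 (c i).2 j₀ with hS
    have hScard : S.card = wr d (c i) (xd β, yd β) j₀ := rfl
    have h2 := weighted (m := m i) (fun v => Polynomial.C (p i v)) F
      (fun j => (Polynomial.X : Polynomial ℂ) ^ key i j) (fun β' hβ' => heq i β' hβ') S β
      (by rw [hScard]; exact hw)
    have h3 := congrArg (fun q => Polynomial.coeff q (key i j₀)) h2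
    simp only [Polynomial.finsetSum_coeff, Polynomial.coeff_zero] at h3
    rw [sum_eq_single j₀] at h3
    · -- the main term
      have h4 : (∏ u ∈ S, (((j₀ : ℕ) : Polynomial ℂ) - ((u : ℕ) : Polynomial ℂ))) =
          Polynomial.C (∏ u ∈ S, ((j₀ : ℂ) - (u : ℂ))) := by
        rw [map_prod]
        refine prod_congr rfl fun u _ => ?_
        rw [map_sub]
        simp
      rw [h4, Polynomial.coeff_C_mul, Polynomial.coeff_X_pow_mul', if_pos le_rfl,
        Nat.sub_self] at h3
      have h5 : (∏ u ∈ S, ((j₀ : ℂ) - (u : ℂ))) ≠ 0 := by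
        rw [prod_ne_zero_iff]
        intro u hu
        rw [sub_ne_zero]
        intro h6
        have h7 : j₀ = u := by exact_mod_cast h6
        have h8 := (mem_filter.1 hu).2.2.2
        rw [← h7] at h8
        exact lt_irrefl _ h8
      have h6 := (mul_eq_zero.1 h3).resolve_left h5
      rw [Polynomial.coeff_zero_eq_eval_zero, Polynomial.eval_finsetSum] at h6
      refine Eq.trans (sum_congr rfl fun α _ => ?_) h6
      rw [← tcr_map Polynomial.C (p i) α β, Polynomial.eval_mul, Polynomial.eval_C, mul_comm]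
    · -- the other terms
      intro j hj hne
      rw [mem_range] at hj
      by_cases hwin : yd β ≤ j ∧ j + xd β ≤ d
      · by_cases hjS : j ∈ S
        · rw [prod_eq_zero hjS (sub_self _), zero_mul, Polynomial.coeff_zero]
        · have h4 : rk (d + 1) (c i).1 (c i).2 j₀ ≤ rk (d + 1) (c i).1 (c i).2 j := by
            by_contra h5
            exact hjS (mem_filter.2 ⟨mem_range.2 hj, hwin.1, hwin.2, by omega⟩)
          have h5 : rk (d + 1) (c i).1 (c i).2 j₀ < rk (d + 1) (c i).1 (c i).2 j := by
            refine lt_of_le_of_ne h4 fun h6 => hne ?_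
            exact (rk_inj hci (by omega) hj h6).symm
          have h6 : key i j₀ < key i j := key_lt hci (by omega) hj h5
          rw [mul_left_comm, Polynomial.coeff_X_pow_mul', if_neg (by omega)]
      · have h4 : ∑ α ∈ Bx a b d j, F α * tcr (fun v => Polynomial.C (p i v)) α β = 0 := by
          refine sum_eq_zero fun α hα => ?_
          rw [tcr_zero _ α β hα hwin, mul_zero]
        rw [h4, mul_zero, mul_zero, Polynomial.coeff_zero]
    · intro hj
      exact absurd (mem_range.2 (by omega)) hj
  -- conclusion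
  have hα₀' : yd α₀ ≤ d ∧ α₀ ∈ Bx a b d (yd α₀) := by
    have h1 : α₀ ∈ Sx (Z a b) d := hα₀
    have h2 : α₀ ∈ Bx a b d (yd α₀) := by
      unfold Bx
      exact mem_filter.2 ⟨h1, rfl⟩
    refine ⟨?_, h2⟩
    have h3 := (mem_Bx.1 h2).1
    omega
  apply hne
  have h1 := hp (yd α₀) hα₀'.1 (fun α => (F α.1).eval 0) (by
    rw [mem_LV]
    intro i β hβ
    rw [sum_coe_sort (Bx a b d (yd α₀)) fun α => tcr (p i) α β * (F α).eval 0]
    exact hkeyv i (yd α₀) hα₀'.1 β hβ)
  exact congrFun h1 ⟨α₀, hα₀'.2⟩

end Pool.Agent.H51.TB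

end
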