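import Mathlib

/-! The parts of this file: H21.HD.Balanced, H21.HD.Distribute, H21.HD.LoadEst, H51.TB.Nt, V7.Num.StepA. -/

section

/-!
Balanced maps.
-/

namespace Pool.Agent.H21.HD

open scoped Classical

private theorem exists_bal {X Y : Type} [Fintype X] [Fintype Y] [Nonempty Y] :
    ∃ f : X → Y, ∀ y, Fintype.card X / Fintype.card Y ≤
      (Finset.univ.filter (fun x => f x = y)).card ∧
      (Finset.univ.filter (fun x => f x = y)).card ≤ Fintype.card X / Fintype.card Y + 1 := by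
  set n := Fintype.card X with hn
  set m := Fintype.card Y with hm
  have hm0 : 0 < m := Fintype.card_pos
  let eX : X ≃ Fin n := Fintype.equivFin X
  let eY : Y ≃ Fin m := Fintype.equivFin Y
  refine ⟨fun x => eY.symm ⟨(eX x : ℕ) % m, Nat.mod_lt _ hm0⟩, fun y => ?_⟩
  have h1 : (Finset.univ.filter (fun x : X => eY.symm ⟨(eX x : ℕ) % m, Nat.mod_lt _ hm0⟩ = y)).card
      = Nat.count (fun k => k ≡ (eY y : ℕ) [MOD m]) n := by
    rw [Nat.count_eq_card_filter_range]
    refine Finset.card_bij (fun x _ => (eX x : ℕ)) ?_ ?_ ?_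
    · intro x hx
      rw [Finset.mem_filter] at hx ⊢
      refine ⟨Finset.mem_range.2 (eX x).2, ?_⟩
      have h2 := hx.2
      rw [Equiv.symm_apply_eq] at h2
      have h3 := congrArg Fin.val h2
      change (eX x : ℕ) % m = (eY y : ℕ) % m
      rw [Nat.mod_eq_of_lt (eY y).2]
      exact h3
    · intro x _ x' _ h
      exact eX.injective (Fin.ext h)
    · intro k hk
      rw [Finset.mem_filter, Finset.mem_range] at hk
      refine ⟨eX.symm ⟨k, hk.1⟩, ?_, by simp⟩
      rw [Finset.mem_filter]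
      refine ⟨Finset.mem_univ _, ?_⟩
      rw [Equiv.symm_apply_eq]
      apply Fin.ext
      have h4 : k % m = (eY y : ℕ) % m := hk.2
      rw [Nat.mod_eq_of_lt (eY y).2] at h4
      simpa using h4
  rw [h1, Nat.count_modEq_card _ hm0]
  constructor
  · exact Nat.le_add_right _ _
  · split_ifs
    · exact le_refl _
    · exact Nat.le_succ _

/-- A map with fibres of size at most `|X| / |Y| + 1`. -/
theorem exists_balanced {X Y : Type} [Fintype X] [Fintype Y] [Nonempty Y] :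
    ∃ f : X → Y, ∀ y, (Finset.univ.filter (fun x => f x = y)).card ≤
      Fintype.card X / Fintype.card Y + 1 := by
  obtain ⟨f, hf⟩ := exists_bal (X := X) (Y := Y)
  exact ⟨f, fun y => (hf y).2⟩

/-- A map with fibres of size at least `|X| / |Y|`. -/
theorem exists_balanced' {X Y : Type} [Fintype X] [Fintype Y] [Nonempty Y] :
    ∃ f : X → Y, ∀ y, Fintype.card X / Fintype.card Y ≤
      (Finset.univ.filter (fun x => f x = y)).card := by
  obtain ⟨f, hf⟩ := exists_bal (X := X) (Y := Y)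
  exact ⟨f, fun y => (hf y).1⟩

end Pool.Agent.H21.HD

end

section

/-!
Distribution of points to slices.
-/

namespace Pool.Agent.H21.HD

open MvPolynomial
open scoped Classical

namespace DistributeX

/-- An enumeration of a finset. -/
theorem exists_index {α : Type} (S : Finset α) :
    ∃ f : α → ℕ, (∀ p ∈ S, f p < S.card) ∧ Set.InjOn f S := by
  refine ⟨fun p => if h : p ∈ S then (S.equivFin ⟨p, h⟩ : ℕ) else 0, ?_, ?_⟩
  · intro p hp
    simp only [hp, dite_true]
    exact (S.equivFin ⟨p, hp⟩).2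
  · intro p hp q hq hpq
    have hp' : p ∈ S := hp
    have hq' : q ∈ S := hq
    simp only [hp', hq', dite_true] at hpq
    have h1 := S.equivFin.injective (Fin.ext hpq)
    exact congrArg Subtype.val h1

/-- The number of points with given quotient index is at most the capacity. -/
theorem card_group {α : Type} (S : Finset α) (f : α → ℕ) (hf : Set.InjOn f S) (C g : ℕ)
    (hC : 0 < C) (hS : ∀ p ∈ S, f p / C = g) : S.card ≤ C := by
  have h1 : S.card ≤ (Finset.Ico (g * C) ((g + 1) * C)).card := by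
    refine Finset.card_le_card_of_injOn f ?_ hf
    intro p hp
    have h2 := hS p hp
    rw [Finset.mem_coe, Finset.mem_Ico]
    constructor
    · rw [← h2]
      exact Nat.div_mul_le_self _ _
    · rw [← h2]
      exact Nat.lt_mul_of_div_lt (Nat.lt_succ_self _) hC
  rw [Nat.card_Ico] at h1
  have h3 : (g + 1) * C - g * C = C := by
    rw [Nat.add_mul, Nat.one_mul, Nat.add_sub_cancel_left]
  omega

end DistributeX

open DistributeX

/-- Distribution of the points whose type contains `i` to the slices. -/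
theorem distribute (j s : ℕ) (ε : ℝ) (hε : 0 < ε) : ∃ W : ℕ, ∀ (ι A α : Type) [Fintype A],
    W ≤ Fintype.card A → ∀ (J : Finset ι), J.card = j → ∀ i ∈ J, ∀ (P : Finset α)
    (c : α → Finset ι), (∀ p ∈ P, c p ⊆ J) → ∀ (R : Finset A), R.card ≤ s →
    ∑ p ∈ P, (1 : ℝ) / (Fintype.card A : ℝ) ^ (c p).card ≤ 1 - ε →
    ∃ t : α → A, (∀ p ∈ P, i ∈ c p → t p ∉ R) ∧
      (∀ p ∈ P, ∀ p' ∈ P, i ∈ c p → i ∈ c p' → t p = t p' → c p = c p') ∧
      (∀ p ∈ P, ∀ p' ∈ P, i ∈ c p → i ∈ c p' → t p = t p' → c p = {i} → p = p') ∧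
      (∀ a : A, (∀ p ∈ P, i ∈ c p → t p = a → c p ≠ {i}) →
        ∑ p ∈ P.filter (fun p => i ∈ c p → t p = a),
          (1 : ℝ) / (Fintype.card A : ℝ) ^ ((c p).erase i).card ≤ 1 - ε / 2) := by
  refine ⟨⌈8 / ε ^ 2⌉₊ + ⌈4 * (s + 2 ^ j) / ε⌉₊ + ⌈2 / ε⌉₊ + 1, ?_⟩
  intro ι A α _ hW J hJ i hi P c hc R hR hload
  -- the number of slices
  set w : ℝ := (Fintype.card A : ℝ) with hw
  have hwW : ((⌈8 / ε ^ 2⌉₊ + ⌈4 * (s + 2 ^ j) / ε⌉₊ + ⌈2 / ε⌉₊ + 1 : ℕ) : ℝ) ≤ w := by
    rw [hw]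
    exact_mod_cast hW
  push_cast at hwW
  have hc1 : 8 / ε ^ 2 ≤ (⌈8 / ε ^ 2⌉₊ : ℝ) := Nat.le_ceil _
  have hc2 : 4 * (s + 2 ^ j) / ε ≤ (⌈4 * (s + 2 ^ j) / ε⌉₊ : ℝ) := Nat.le_ceil _
  have hc3 : 2 / ε ≤ (⌈2 / ε⌉₊ : ℝ) := Nat.le_ceil _
  have hp1 : 0 < 8 / ε ^ 2 := by positivity
  have hp2 : 0 < 4 * ((s : ℝ) + 2 ^ j) / ε := by positivity
  have hp3 : 0 < 2 / ε := by positivity
  have hw1 : 1 ≤ w := by linarith only [hwW, hc1, hc2, hc3, hp1, hp2, hp3]
  have hw8 : 8 / ε ^ 2 ≤ w := by linarith only [hwW, hc1, hc2, hc3, hp2, hp3]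
  have hw4 : 4 * (s + 2 ^ j) / ε ≤ w := by linarith only [hwW, hc1, hc2, hc3, hp1, hp3]
  have hw2 : 2 / ε ≤ w := by linarith only [hwW, hc1, hc2, hc3, hp1, hp2]
  have hw0 : 0 < w := by linarith only [hwW, hc1, hc2, hc3, hp1, hp2, hp3]
  have hcardA : 0 < Fintype.card A := by
    have : (0 : ℝ) < (Fintype.card A : ℝ) := hw0
    exact_mod_cast this
  have hne : Nonempty A := Fintype.card_pos_iff.mp hcardA
  -- split the load
  set L0 : ℝ := ∑ p ∈ P.filter (fun p => i ∉ c p), (1 : ℝ) / w ^ (c p).card with hL0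
  have hL0nn : 0 ≤ L0 := Finset.sum_nonneg (fun p _ => by positivity)
  set P1 : Finset α := P.filter (fun p => i ∈ c p) with hP1
  have hsplit : L0 + ∑ p ∈ P1, (1 : ℝ) / w ^ (c p).card ≤ 1 - ε := by
    rw [add_comm, hL0, hP1, Finset.sum_filter_add_sum_filter_not]
    exact hload
  have hP1nn : 0 ≤ ∑ p ∈ P1, (1 : ℝ) / w ^ (c p).card :=
    Finset.sum_nonneg (fun p _ => by positivity)
  set x : ℝ := 1 - ε / 2 - L0 with hx
  have hε1 : ε ≤ 1 := by linarith only [hL0nn, hsplit, hP1nn]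
  have hxlo : ε / 2 ≤ x := by linarith only [hsplit, hP1nn, hx]
  have hxhi : x ≤ 1 := by linarith only [hε, hL0nn, hx]
  have hx0 : 0 < x := by linarith only [hε, hsplit, hP1nn, hx]
  -- types
  set TT : Finset (Finset ι) := J.powerset.filter (fun T => i ∈ T) with hTT
  have hTTcard : (TT.card : ℝ) ≤ 2 ^ j := by
    have h1 : TT.card ≤ J.powerset.card := Finset.card_filter_le _ _
    rw [Finset.card_powerset, hJ] at h1
    exact_mod_cast h1
  set PT : Finset ι → Finset α := fun T => P1.filter (fun p => c p = T) with hPT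
  set Cap : Finset ι → ℕ := fun T => if T = {i} then 1 else ⌊x * w ^ (T.card - 1)⌋₊ with hCap
  have hcard1 : ∀ T ∈ TT, T ≠ {i} → 1 ≤ T.card - 1 := by
    intro T hT hne'
    rw [hTT, Finset.mem_filter] at hT
    have h1 : 1 < T.card := by
      by_contra hcon
      push Not at hcon
      apply hne'
      have h2 : T.card = 1 := le_antisymm hcon (Finset.card_pos.mpr ⟨i, hT.2⟩)
      obtain ⟨b, hb⟩ := Finset.card_eq_one.mp h2
      have h3 : i ∈ T := hT.2
      rw [hb, Finset.mem_singleton] at h3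
      rw [hb, h3]
    omega
  have hbig : ∀ T ∈ TT, T ≠ {i} → 1 ≤ x * w ^ (T.card - 1) := by
    intro T hT hne'
    have h1 := hcard1 T hT hne'
    have h2 : w ≤ w ^ (T.card - 1) := by
      calc w = w ^ 1 := (pow_one w).symm
        _ ≤ w ^ (T.card - 1) := pow_le_pow_right₀ hw1 h1
    calc (1 : ℝ) = ε / 2 * (2 / ε) := by field_simp
      _ ≤ x * w ^ (T.card - 1) := by
        apply mul_le_mul hxlo (le_trans hw2 h2) (by positivity) hx0.le
  have hCappos : ∀ T ∈ TT, 0 < Cap T := by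
    intro T hT
    by_cases h : T = {i}
    · simp only [hCap, h, if_true]
      norm_num
    · simp only [hCap, h, if_false]
      exact Nat.floor_pos.mpr (hbig T hT h)
  have hCaphi : ∀ T ∈ TT, T ≠ {i} → (Cap T : ℝ) ≤ x * w ^ (T.card - 1) := by
    intro T hT h
    simp only [hCap, h, if_false]
    exact Nat.floor_le (by positivity)
  -- δ
  have hδ : ∀ T ∈ TT, x * (1 - ε / 4) * w ^ (T.card - 1) ≤ (Cap T : ℝ) := by
    intro T hT
    by_cases h : T = {i}
    · simp only [hCap, h, if_true, Finset.card_singleton, Nat.sub_self, pow_zero, mul_one,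
        Nat.cast_one]
      nlinarith only [hε, hL0nn, hx, hsplit, hP1nn]
    · have h1 := hcard1 T hT h
      have h2 : w ≤ w ^ (T.card - 1) := by
        calc w = w ^ 1 := (pow_one w).symm
          _ ≤ w ^ (T.card - 1) := pow_le_pow_right₀ hw1 h1
      have h3 : x * w ^ (T.card - 1) - 1 ≤ (Cap T : ℝ) := by
        simp only [hCap, h, if_false]
        exact (Nat.sub_one_lt_floor _).le
      have h4 : 1 ≤ x * (ε / 4) * w ^ (T.card - 1) := by
        calc (1 : ℝ) = (ε / 2) * (ε / 4) * (8 / ε ^ 2) := by field_simp; norm_num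
          _ ≤ x * (ε / 4) * w ^ (T.card - 1) := by
            apply mul_le_mul _ (le_trans hw8 h2) (by positivity) (by positivity)
            apply mul_le_mul_of_nonneg_right hxlo (by positivity)
      nlinarith only [h3, h4]
  -- labels
  choose idx hidx1 hidx2 using fun T : Finset ι => exists_index (PT T)
  set nT : Finset ι → ℕ := fun T => (PT T).card / Cap T + 1 with hnT
  set Lab : Finset (Σ _ : Finset ι, ℕ) := TT.sigma (fun T => Finset.range (nT T)) with hLab
  have hsumPT : ∑ T ∈ TT, ((PT T).card : ℝ) / w ^ T.card = ∑ p ∈ P1, (1 : ℝ) / w ^ (c p).card := by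
    have hmaps : ∀ p ∈ P1, c p ∈ TT := by
      intro p hp
      rw [hP1, Finset.mem_filter] at hp
      rw [hTT, Finset.mem_filter, Finset.mem_powerset]
      exact ⟨hc p hp.1, hp.2⟩
    rw [← Finset.sum_fiberwise_of_maps_to hmaps]
    apply Finset.sum_congr rfl
    intro T _
    rw [Finset.sum_congr rfl (g := fun _ => (1 : ℝ) / w ^ T.card)]
    · rw [Finset.sum_const, nsmul_eq_mul]
      simp only [hPT]
      ring
    · intro p hp
      rw [(Finset.mem_filter.mp hp).2]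
  have hLabcard : (Lab.card : ℝ) ≤ w - s := by
    have h1 : (Lab.card : ℝ) = ∑ T ∈ TT, (nT T : ℝ) := by
      rw [hLab, Finset.card_sigma]
      push_cast
      apply Finset.sum_congr rfl
      intro T _
      rw [Finset.card_range]
    have hq : 0 < x * (1 - ε / 4) := by
      apply mul_pos hx0
      linarith only [hL0nn, hsplit, hP1nn]
    have h2 : ∀ T ∈ TT, (nT T : ℝ) ≤ w / (x * (1 - ε / 4)) * (((PT T).card : ℝ) / w ^ T.card) + 1 := by
      intro T hT
      have hcp : (0 : ℝ) < Cap T := by exact_mod_cast hCappos T hT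
      have h3 : (((PT T).card / Cap T : ℕ) : ℝ) ≤ ((PT T).card : ℝ) / (Cap T : ℝ) := Nat.cast_div_le
      have h4 : ((PT T).card : ℝ) / (Cap T : ℝ) ≤
          w / (x * (1 - ε / 4)) * (((PT T).card : ℝ) / w ^ T.card) := by
        have h5 : 1 ≤ T.card := by
          rw [hTT, Finset.mem_filter] at hT
          exact Finset.card_pos.mpr ⟨i, hT.2⟩
        have h6 : w ^ T.card = w * w ^ (T.card - 1) := by
          conv_lhs => rw [← Nat.sub_add_cancel h5]
          rw [pow_succ]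
          ring
        have h7 : w / (x * (1 - ε / 4)) * (((PT T).card : ℝ) / w ^ T.card) =
            ((PT T).card : ℝ) / (x * (1 - ε / 4) * w ^ (T.card - 1)) := by
          rw [h6]
          field_simp
        rw [h7]
        apply div_le_div_of_nonneg_left (by positivity) (by positivity) (hδ T hT)
      simp only [hnT]
      push_cast
      linarith only [h3, h4]
    have h3 : (Lab.card : ℝ) ≤ w / (x * (1 - ε / 4)) * (x - ε / 2) + 2 ^ j := by
      rw [h1]
      calc ∑ T ∈ TT, (nT T : ℝ)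
          ≤ ∑ T ∈ TT, (w / (x * (1 - ε / 4)) * (((PT T).card : ℝ) / w ^ T.card) + 1) :=
            Finset.sum_le_sum h2
        _ = w / (x * (1 - ε / 4)) * (∑ T ∈ TT, ((PT T).card : ℝ) / w ^ T.card) + TT.card := by
            rw [Finset.sum_add_distrib, Finset.mul_sum]
            simp
        _ ≤ _ := by
            apply add_le_add _ hTTcard
            apply mul_le_mul_of_nonneg_left _ (by positivity)
            rw [hsumPT]
            linarith only [hsplit, hx]
    have h4 : w / (x * (1 - ε / 4)) * (x - ε / 2) ≤ w * (1 - ε / 4) := by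
      rw [div_mul_eq_mul_div, div_le_iff₀ hq]
      have h5 : x - ε / 2 ≤ (1 - ε / 4) * (x * (1 - ε / 4)) := by nlinarith
      calc w * (x - ε / 2) ≤ w * ((1 - ε / 4) * (x * (1 - ε / 4))) :=
            mul_le_mul_of_nonneg_left h5 hw0.le
        _ = w * (1 - ε / 4) * (x * (1 - ε / 4)) := by ring
    have h5 : (s : ℝ) + 2 ^ j ≤ w * (ε / 4) := by
      have h6 : 4 * ((s : ℝ) + 2 ^ j) / ε * (ε / 4) = s + 2 ^ j := by
        field_simp
      rw [← h6]
      exact mul_le_mul_of_nonneg_right hw4 (by positivity)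
    nlinarith only [h3, h4, h5]
  have hemb : Nonempty (Lab ↪ (Rᶜ : Finset A)) := by
    apply Function.Embedding.nonempty_of_card_le
    rw [Fintype.card_coe, Fintype.card_coe, Finset.card_compl]
    have h1 : (Lab.card : ℝ) ≤ (Fintype.card A : ℝ) - s := hLabcard
    have h2 : Lab.card + s ≤ Fintype.card A := by
      have : ((Lab.card + s : ℕ) : ℝ) ≤ (Fintype.card A : ℝ) := by
        push_cast
        linarith only [hLabcard]
      exact_mod_cast this
    omega
  obtain ⟨φ⟩ := hemb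
  have hlab : ∀ p ∈ P, i ∈ c p →
      (⟨c p, idx (c p) p / Cap (c p)⟩ : Σ _ : Finset ι, ℕ) ∈ Lab := by
    intro p hp hip
    rw [hLab, Finset.mem_sigma]
    refine ⟨?_, ?_⟩
    · rw [hTT, Finset.mem_filter, Finset.mem_powerset]
      exact ⟨hc p hp, hip⟩
    · rw [Finset.mem_range]
      have h1 : p ∈ PT (c p) := by
        simp only [hPT, hP1, Finset.mem_filter]
        exact ⟨⟨hp, hip⟩, trivial⟩
      have h2 := hidx1 (c p) p h1
      have h3 : idx (c p) p / Cap (c p) ≤ (PT (c p)).card / Cap (c p) := Nat.div_le_div_right h2.le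
      simp only [hnT]
      omega
  set t : α → A := fun p => if h : p ∈ P ∧ i ∈ c p then (φ ⟨_, hlab p h.1 h.2⟩ : A)
    else Classical.choice hne with ht
  have htval : ∀ p (hp : p ∈ P) (hip : i ∈ c p), t p = (φ ⟨_, hlab p hp hip⟩ : A) := by
    intro p hp hip
    have h : p ∈ P ∧ i ∈ c p := ⟨hp, hip⟩
    simp only [ht]
    rw [dif_pos h]
  have htinj : ∀ p ∈ P, ∀ p' ∈ P, i ∈ c p → i ∈ c p' → t p = t p' →
      c p = c p' ∧ idx (c p) p / Cap (c p) = idx (c p') p' / Cap (c p') := by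
    intro p hp p' hp' hip hip' htt
    rw [htval p hp hip, htval p' hp' hip'] at htt
    have h1 := φ.injective (Subtype.ext htt)
    have h2 := congrArg Subtype.val h1
    simp only [Sigma.mk.injEq, heq_eq_eq] at h2
    exact h2
  refine ⟨t, ?_, ?_, ?_, ?_⟩
  · intro p hp hip
    rw [htval p hp hip]
    have h1 := (φ ⟨_, hlab p hp hip⟩).2
    exact Finset.mem_compl.mp h1
  · intro p hp p' hp' hip hip' htt
    exact (htinj p hp p' hp' hip hip' htt).1
  · intro p hp p' hp' hip hip' htt hci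
    obtain ⟨h1, h2⟩ := htinj p hp p' hp' hip hip' htt
    rw [← h1] at h2
    have hcap : Cap (c p) = 1 := by
      simp only [hCap, hci, if_true]
    rw [hcap, Nat.div_one, Nat.div_one] at h2
    apply hidx2 (c p) _ _ h2
    · simp only [hPT, hP1, Finset.mem_coe, Finset.mem_filter]
      exact ⟨⟨hp, hip⟩, trivial⟩
    · simp only [hPT, hP1, Finset.mem_coe, Finset.mem_filter]
      exact ⟨⟨hp', hip'⟩, h1.symm⟩
  · intro a ha
    -- split the points of the slice
    set Q : Finset α := P.filter (fun p => i ∈ c p ∧ t p = a) with hQ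
    have hsum : ∑ p ∈ P.filter (fun p => i ∈ c p → t p = a),
        (1 : ℝ) / w ^ ((c p).erase i).card = L0 + ∑ p ∈ Q, (1 : ℝ) / w ^ ((c p).card - 1) := by
      have h1 : P.filter (fun p => i ∈ c p → t p = a) =
          P.filter (fun p => i ∉ c p) ∪ Q := by
        ext p
        simp only [hQ, Finset.mem_filter, Finset.mem_union]
        tauto
      have h2 : Disjoint (P.filter (fun p => i ∉ c p)) Q := by
        rw [Finset.disjoint_left]
        intro p hp hq
        simp only [hQ, Finset.mem_filter] at hp hq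
        exact hp.2 hq.2.1
      rw [h1, Finset.sum_union h2]
      congr 1
      · rw [hL0]
        apply Finset.sum_congr rfl
        intro p hp
        rw [Finset.erase_eq_of_notMem (Finset.mem_filter.mp hp).2]
      · apply Finset.sum_congr rfl
        intro p hp
        rw [Finset.card_erase_of_mem (Finset.mem_filter.mp hp).2.1]
    rw [hsum]
    rcases Q.eq_empty_or_nonempty with hQe | ⟨p0, hp0⟩
    · rw [hQe, Finset.sum_empty]
      linarith only [hε, hsplit, hP1nn]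
    · have hp0' : p0 ∈ P ∧ i ∈ c p0 ∧ t p0 = a := by
        simpa only [hQ, Finset.mem_filter] using hp0
      have hT : c p0 ∈ TT := by
        rw [hTT, Finset.mem_filter, Finset.mem_powerset]
        exact ⟨hc p0 hp0'.1, hp0'.2.1⟩
      have hTne : c p0 ≠ {i} := ha p0 hp0'.1 hp0'.2.1 hp0'.2.2
      have hsame : ∀ p ∈ Q, c p = c p0 ∧
          idx (c p0) p / Cap (c p0) = idx (c p0) p0 / Cap (c p0) := by
        intro p hp
        simp only [hQ, Finset.mem_filter] at hp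
        obtain ⟨h1, h2⟩ := htinj p hp.1 p0 hp0'.1 hp.2.1 hp0'.2.1 (hp.2.2.trans hp0'.2.2.symm)
        refine ⟨h1, ?_⟩
        rw [h1] at h2
        exact h2
      have hQcard : Q.card ≤ Cap (c p0) := by
        apply card_group Q (idx (c p0)) _ (Cap (c p0)) (idx (c p0) p0 / Cap (c p0))
          (hCappos _ hT) (fun p hp => (hsame p hp).2)
        intro p hp q hq hpq
        apply hidx2 (c p0) _ _ hpq
        · have hp' := Finset.mem_coe.mp hp
          have h1 := (hsame p hp').1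
          simp only [hQ, Finset.mem_filter] at hp'
          simp only [hPT, hP1, Finset.mem_coe, Finset.mem_filter]
          exact ⟨⟨hp'.1, hp'.2.1⟩, h1⟩
        · have hq' := Finset.mem_coe.mp hq
          have h1 := (hsame q hq').1
          simp only [hQ, Finset.mem_filter] at hq'
          simp only [hPT, hP1, Finset.mem_coe, Finset.mem_filter]
          exact ⟨⟨hq'.1, hq'.2.1⟩, h1⟩
      have h1 : ∑ p ∈ Q, (1 : ℝ) / w ^ ((c p).card - 1) ≤ x := by
        calc ∑ p ∈ Q, (1 : ℝ) / w ^ ((c p).card - 1)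
            = ∑ p ∈ Q, (1 : ℝ) / w ^ ((c p0).card - 1) := by
              apply Finset.sum_congr rfl
              intro p hp
              rw [(hsame p hp).1]
          _ = (Q.card : ℝ) * (1 / w ^ ((c p0).card - 1)) := by
              rw [Finset.sum_const, nsmul_eq_mul]
          _ ≤ (x * w ^ ((c p0).card - 1)) * (1 / w ^ ((c p0).card - 1)) := by
              apply mul_le_mul_of_nonneg_right _ (by positivity)
              calc (Q.card : ℝ) ≤ (Cap (c p0) : ℝ) := by exact_mod_cast hQcard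
                _ ≤ _ := hCaphi _ hT hTne
          _ = x := by
              have : w ^ ((c p0).card - 1) ≠ 0 := by positivity
              field_simp
      linarith only [hx, h1]

end Pool.Agent.H21.HD

end

section

/-!
Numerical estimate.
-/

namespace Pool.Agent.H21.HD

open scoped Classical

/-- Numerical estimate: the load of a set of `d` blocks. -/
theorem load_estimate (d h : ℕ) (hd : 1 ≤ d) (hh : 1 ≤ h) (ε : ℝ) (hε : 0 < ε) :
    ∃ r₀ : ℕ, ∀ r : ℕ, r₀ ≤ r → ∀ N : ℕ, r + 1 < (N + 1) * h + h ^ d → 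
      d ≤ N ∧ ∀ e : ℕ, 1 ≤ e → e ≤ d →
        (d.choose e : ℝ) / ((N.choose e : ℝ) * (h : ℝ) ^ e) ≤
          (1 + ε) * ((r + (d - e)).choose r : ℝ) / ((r + d).choose r : ℝ) := by
  -- the limit
  set K : ℕ := d + h ^ d + d * h with hK
  have hlim : Filter.Tendsto (fun x : ℕ => (1 + (K : ℝ) / (x : ℝ)) ^ d) Filter.atTop (nhds 1) := by
    have h1 : Filter.Tendsto (fun x : ℕ => (K : ℝ) / (x : ℝ)) Filter.atTop (nhds 0) :=
      tendsto_const_div_atTop_nhds_zero_nat _
    have h2 := (h1.const_add 1).pow d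
    simpa using h2
  have hev := hlim.eventually (gt_mem_nhds (show (1 : ℝ) < 1 + ε by linarith))
  obtain ⟨x₀, hx₀⟩ := Filter.eventually_atTop.1 hev
  refine ⟨x₀ + (d + 1) * h + h ^ d + d * h + d, fun r hr N hN => ?_⟩
  have hdN : d ≤ N := by
    by_contra hcon
    push Not at hcon
    have h1 : (N + 1) * h ≤ d * h := Nat.mul_le_mul_right h hcon
    have h2 : (d + 1) * h = d * h + h := by ring
    omega
  refine ⟨hdN, fun e he1 hed => ?_⟩
  -- set x = r + 1 - h ^ d - d * h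
  obtain ⟨x, hx⟩ : ∃ x, r + 1 = x + (h ^ d + d * h) := ⟨r + 1 - (h ^ d + d * h), by omega⟩
  have hxx : x₀ ≤ x := by
    have h2 : (d + 1) * h = d * h + h := by ring
    omega
  have hx1 : 1 ≤ x := by
    have h2 : (d + 1) * h = d * h + h := by ring
    omega
  have hxpos : (0 : ℝ) < x := by exact_mod_cast hx1
  have hlt := hx₀ x hxx
  -- (N - e + 1) * h ≥ x
  obtain ⟨M, hM⟩ : ∃ M, N = M + e := ⟨N - e, by omega⟩
  have hMx : x ≤ (M + 1) * h := by
    have h1 : (N + 1) * h = (M + 1) * h + e * h := by rw [hM]; ring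
    have h2 : e * h ≤ d * h := Nat.mul_le_mul_right h hed
    omega
  -- lower bound for N.choose e
  have hchoose : ((M + 1 : ℕ) : ℝ) ^ e ≤ (N.choose e : ℝ) * (e.factorial : ℝ) := by
    have h1 : (M + 1) ^ e ≤ N.descFactorial e := by
      have h2 := Nat.pow_sub_le_descFactorial N e
      have h3 : N + 1 - e = M + 1 := by omega
      rw [h3] at h2
      exact h2
    have h2 : N.descFactorial e = N.choose e * e.factorial := by
      rw [Nat.descFactorial_eq_factorial_mul_choose]; ring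
    rw [h2] at h1
    exact_mod_cast h1
  have hNpos : (0 : ℝ) < (N.choose e : ℝ) := by
    have : 0 < N.choose e := Nat.choose_pos (by omega)
    exact_mod_cast this
  have hhpos : (0 : ℝ) < (h : ℝ) := by exact_mod_cast hh
  have hefpos : (0 : ℝ) < (e.factorial : ℝ) := by exact_mod_cast e.factorial_pos
  -- binomial ratio
  obtain ⟨f, hf⟩ : ∃ f, d = f + e := ⟨d - e, by omega⟩
  have hde : d - e = f := by omega
  rw [hde]
  have hrpos : (0 : ℝ) < ((r + d).choose r : ℝ) := by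
    have : 0 < (r + d).choose r := Nat.choose_pos (by omega)
    exact_mod_cast this
  -- (r+d).choose r * d! = (r+d)! / r!
  have e1 : ((r + d).choose r : ℝ) * (r.factorial : ℝ) * (d.factorial : ℝ) =
      ((r + d).factorial : ℝ) := by
    have h1 := Nat.choose_mul_factorial_mul_factorial (show r ≤ r + d by omega)
    have h2 : r + d - r = d := by omega
    rw [h2] at h1
    exact_mod_cast h1
  have e2 : ((r + f).choose r : ℝ) * (r.factorial : ℝ) * (f.factorial : ℝ) =
      ((r + f).factorial : ℝ) := by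
    have h1 := Nat.choose_mul_factorial_mul_factorial (show r ≤ r + f by omega)
    have h2 : r + f - r = f := by omega
    rw [h2] at h1
    exact_mod_cast h1
  have e3 : ((r + d).factorial : ℝ) ≤ ((r + f).factorial : ℝ) * ((r + d : ℕ) : ℝ) ^ e := by
    have h1 := Nat.factorial_mul_pow_le_factorial (m := r + f) (n := e)
    have h2 : (r + d).descFactorial e ≤ (r + d) ^ e := Nat.descFactorial_le_pow _ _
    have h3 := Nat.factorial_mul_descFactorial (show e ≤ r + d by omega)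
    have h4 : r + d - e = r + f := by omega
    rw [h4] at h3
    have h5 : (r + d).factorial ≤ (r + f).factorial * (r + d) ^ e := by
      rw [← h3]
      exact Nat.mul_le_mul_left _ h2
    exact_mod_cast h5
  have e4 : (d.choose e : ℝ) * (e.factorial : ℝ) * (f.factorial : ℝ) = (d.factorial : ℝ) := by
    have h1 := Nat.choose_mul_factorial_mul_factorial hed
    rw [hde] at h1
    exact_mod_cast h1
  have hffpos : (0 : ℝ) < (f.factorial : ℝ) := by exact_mod_cast f.factorial_pos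
  have hrfpos : (0 : ℝ) < (r.factorial : ℝ) := by exact_mod_cast r.factorial_pos
  have hdfpos : (0 : ℝ) < (d.factorial : ℝ) := by exact_mod_cast d.factorial_pos
  -- (r + d) ^ e ≤ (1 + ε) * x ^ e
  have e5 : ((r + d : ℕ) : ℝ) ^ e ≤ (1 + ε) * (x : ℝ) ^ e := by
    have h1 : ((r + d : ℕ) : ℝ) ≤ (x : ℝ) + K := by
      have : r + d ≤ x + K := by omega
      exact_mod_cast this
    have h2 : ((r + d : ℕ) : ℝ) ≤ (x : ℝ) * (1 + (K : ℝ) / (x : ℝ)) := by
      have : (x : ℝ) * (1 + (K : ℝ) / (x : ℝ)) = (x : ℝ) + K := by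
        field_simp
      rw [this]; exact h1
    have h3 : ((r + d : ℕ) : ℝ) ^ e ≤ ((x : ℝ) * (1 + (K : ℝ) / (x : ℝ))) ^ e :=
      pow_le_pow_left₀ (Nat.cast_nonneg _) h2 e
    rw [mul_pow] at h3
    have h4 : (1 + (K : ℝ) / (x : ℝ)) ^ e ≤ (1 + (K : ℝ) / (x : ℝ)) ^ d := by
      apply pow_le_pow_right₀ _ hed
      have : (0 : ℝ) ≤ (K : ℝ) / (x : ℝ) := by positivity
      linarith
    have h5 : (0 : ℝ) < (x : ℝ) ^ e := by positivity
    calc ((r + d : ℕ) : ℝ) ^ e ≤ (x : ℝ) ^ e * (1 + (K : ℝ) / (x : ℝ)) ^ e := h3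
      _ ≤ (x : ℝ) ^ e * (1 + ε) := by
          apply mul_le_mul_of_nonneg_left _ h5.le
          linarith
      _ = (1 + ε) * (x : ℝ) ^ e := by ring
  have e6 : (x : ℝ) ^ e ≤ ((M + 1 : ℕ) : ℝ) ^ e * (h : ℝ) ^ e := by
    rw [← mul_pow]
    apply pow_le_pow_left₀ hxpos.le
    exact_mod_cast hMx
  -- conclusion
  rw [div_le_div_iff₀ (by positivity) hrpos]
  -- d.choose e * (r+d).choose r ≤ (1+ε) * (r+f).choose r * (N.choose e * h^e)
  have key : (d.choose e : ℝ) * ((r + d).choose r : ℝ) *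
      ((e.factorial : ℝ) * (f.factorial : ℝ) * (r.factorial : ℝ) * (d.factorial : ℝ)) ≤
      (1 + ε) * ((r + f).choose r : ℝ) * ((N.choose e : ℝ) * (h : ℝ) ^ e) *
      ((e.factorial : ℝ) * (f.factorial : ℝ) * (r.factorial : ℝ) * (d.factorial : ℝ)) := by
    have l1 : (d.choose e : ℝ) * ((r + d).choose r : ℝ) *
      ((e.factorial : ℝ) * (f.factorial : ℝ) * (r.factorial : ℝ) * (d.factorial : ℝ)) =
      ((d.choose e : ℝ) * (e.factorial : ℝ) * (f.factorial : ℝ)) *
        (((r + d).choose r : ℝ) * (r.factorial : ℝ) * (d.factorial : ℝ)) := by ring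
    have l2 : (1 + ε) * ((r + f).choose r : ℝ) * ((N.choose e : ℝ) * (h : ℝ) ^ e) *
      ((e.factorial : ℝ) * (f.factorial : ℝ) * (r.factorial : ℝ) * (d.factorial : ℝ)) =
      (1 + ε) * (((r + f).choose r : ℝ) * (r.factorial : ℝ) * (f.factorial : ℝ)) *
        (((N.choose e : ℝ) * (e.factorial : ℝ)) * (h : ℝ) ^ e) * (d.factorial : ℝ) := by ring
    rw [l1, l2, e1, e2, e4]
    have hrf : (0 : ℝ) < ((r + f).factorial : ℝ) := by exact_mod_cast (r + f).factorial_pos
    have m1 : ((r + d).factorial : ℝ) ≤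
        (1 + ε) * ((r + f).factorial : ℝ) * (((N.choose e : ℝ) * (e.factorial : ℝ)) * (h : ℝ) ^ e) := by
      calc ((r + d).factorial : ℝ) ≤ ((r + f).factorial : ℝ) * ((r + d : ℕ) : ℝ) ^ e := e3
        _ ≤ ((r + f).factorial : ℝ) * ((1 + ε) * (x : ℝ) ^ e) :=
            mul_le_mul_of_nonneg_left e5 hrf.le
        _ ≤ ((r + f).factorial : ℝ) * ((1 + ε) * (((M + 1 : ℕ) : ℝ) ^ e * (h : ℝ) ^ e)) := by
            apply mul_le_mul_of_nonneg_left _ hrf.le
            apply mul_le_mul_of_nonneg_left e6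
            linarith
        _ ≤ ((r + f).factorial : ℝ) * ((1 + ε) *
              (((N.choose e : ℝ) * (e.factorial : ℝ)) * (h : ℝ) ^ e)) := by
            apply mul_le_mul_of_nonneg_left _ hrf.le
            apply mul_le_mul_of_nonneg_left _ (by linarith)
            exact mul_le_mul_of_nonneg_right hchoose (by positivity)
        _ = _ := by ring
    calc (d.factorial : ℝ) * ((r + d).factorial : ℝ) = ((r + d).factorial : ℝ) * (d.factorial : ℝ) := by
          ring
      _ ≤ _ := mul_le_mul_of_nonneg_right m1 hdfpos.le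
  have hpos : (0 : ℝ) < (e.factorial : ℝ) * (f.factorial : ℝ) * (r.factorial : ℝ) *
      (d.factorial : ℝ) := by positivity
  exact le_of_mul_le_mul_right key hpos

end Pool.Agent.H21.HD

end

section

/-!
# Module D7 (TB): the choice of the number of `X`-variables

Proof.  Let `z = ⌊log n / 8⌋`, `W = (M!)^2 * primorial z ≤ (M!)^2 * 4^z` (`primorial_le_4_pow`), which is
at most `n^(1/2)` for `n` large, and `a - 2 = W * y`, `y ∈ [y₁, y₂]` such that
`|2 a - n| ≤ ε n`; there are at least `c n / W ≥ c n^(1/2)` values of `y`.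
`multichoose (a - 1) t = binom (a - 2 + t, t) = ∏_{i=1}^t (a - 2 + i) / i`.  If a prime `p ≤ z` or
`p ≤ M` divides `n - 2` then `(a - 2) / i` is divisible by `p` for all `1 ≤ i ≤ M` (as `W` is divisible
by `i * p`), so `multichoose (a - 1) t ≡ 1 (mod p)`.  A prime `p > max(z, M)` dividing `n - 2` divides
`multichoose (a - 1) t`, `t ≤ M`, only if it divides one of the `a - 2 + i`, `1 ≤ i ≤ M`, that is, if
`y` is in one of at most `M` residue classes modulo `p` (`p` does not divide `W`).  The number of such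
`y` in an interval of `Y` integers is at most `M (Y / p + 1)`; the number of primes `p > z` dividing
`n - 2` is at most `log n / log z`.  The total number of bad `y` is at most
`M (log n / log z) (Y / z + 1)`, smaller than `Y` for `n` large since `z ≥ log n / 8 - 1`, that is
`log n / (z log z) → 0`, and `Y ≥ c n^(1/2)`.
-/

namespace Pool.Agent.H51.TB

private theorem Nt_small (M m p : ℕ) (hp : p.Prime) (h : ∀ i, 1 ≤ i → i ≤ M → i * p ∣ m) :
    ∀ t, t ≤ M → ¬ p ∣ Nat.choose (m + t) t := by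
  intro t
  induction t with
  | zero =>
    intro _ hd
    rw [Nat.choose_zero_right] at hd
    exact hp.one_lt.ne' (Nat.dvd_one.1 hd)
  | succ t ih =>
    intro ht hd
    obtain ⟨k, hk⟩ := h (t + 1) (by omega) ht
    have h1 : (m + t + 1) * Nat.choose (m + t) t = Nat.choose (m + t + 1) (t + 1) * (t + 1) :=
      Nat.add_one_mul_choose_eq (m + t) t
    have h2 : Nat.choose (m + t + 1) (t + 1) = (p * k + 1) * Nat.choose (m + t) t := by
      have h3 : (t + 1) * Nat.choose (m + t + 1) (t + 1) = (t + 1) * ((p * k + 1) * Nat.choose (m + t) t) := by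
        rw [mul_comm (t + 1) (Nat.choose (m + t + 1) (t + 1)), ← h1, ← mul_assoc]
        congr 1
        rw [add_assoc, hk]
        ring
      exact Nat.eq_of_mul_eq_mul_left (Nat.succ_pos t) h3
    rw [← add_assoc, h2] at hd
    rcases (Nat.Prime.dvd_mul hp).1 hd with h4 | h4
    · have h5 : p ∣ 1 := (Nat.dvd_add_right (Dvd.intro k rfl)).1 h4
      exact hp.one_lt.ne' (Nat.dvd_one.1 h5)
    · exact ih (by omega) h4

private theorem Nt_large (m p : ℕ) (hp : p.Prime) :
    ∀ t, p ∣ Nat.choose (m + t) t → ∃ i, 1 ≤ i ∧ i ≤ t ∧ p ∣ m + i := by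
  intro t
  induction t with
  | zero =>
    intro hd
    rw [Nat.choose_zero_right] at hd
    exact absurd (Nat.dvd_one.1 hd) hp.one_lt.ne'
  | succ t ih =>
    intro hd
    have h1 : (m + t + 1) * Nat.choose (m + t) t = Nat.choose (m + t + 1) (t + 1) * (t + 1) :=
      Nat.add_one_mul_choose_eq (m + t) t
    have h2 : p ∣ (m + t + 1) * Nat.choose (m + t) t := by
      rw [h1]
      exact Dvd.dvd.mul_right hd _
    rcases (Nat.Prime.dvd_mul hp).1 h2 with h3 | h3
    · exact ⟨t + 1, by omega, le_refl _, h3⟩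
    · obtain ⟨i, h4, h5, h6⟩ := ih h3
      exact ⟨i, h4, by omega, h6⟩

/-- the arithmetic core: among `z` consecutive `y` one is good -/
private theorem Nt_core (M N L z y₀ : ℕ) (hN : N ≠ 0) (hNL : N < 2 ^ (L + 1)) (hz : z = L / 8)
    (hzM : M ≤ z) (hz1 : 1 ≤ z) (hzB : 2 ^ (16 * (M + 1)) ≤ z) :
    ∃ y, y₀ ≤ y ∧ y < y₀ + z ∧ ∀ t, 1 ≤ t → t ≤ M →
      Nat.Coprime (Nat.choose (M.factorial * primorial z * y + t) t) N := by
  classical
  set W := M.factorial * primorial z with hW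
  by_contra hcon
  push Not at hcon
  set S := N.primeFactors.filter (fun p => z < p) with hS
  -- every `y` is bad
  have hbad : ∀ y ∈ Finset.Ico y₀ (y₀ + z), ∃ pi : ℕ × ℕ, pi ∈ S ×ˢ Finset.Icc 1 M ∧ pi.1 ∣ W * y + pi.2 := by
    intro y hy
    rw [Finset.mem_Ico] at hy
    obtain ⟨t, ht1, htM, hnc⟩ := hcon y hy.1 hy.2
    obtain ⟨p, hp, hpc, hpN⟩ := Nat.Prime.not_coprime_iff_dvd.1 hnc
    by_cases hpz : p ≤ z
    · exfalso
      refine Nt_small M (W * y) p hp (fun i hi1 hiM => ?_) t htM hpc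
      have h1 : i ∣ M.factorial := Nat.dvd_factorial hi1 hiM
      have h2 : p ∣ primorial z := hp.dvd_primorial_iff.2 hpz
      exact Dvd.dvd.mul_right (Nat.mul_dvd_mul h1 h2) y
    · obtain ⟨i, hi1, hit, hid⟩ := Nt_large (W * y) p hp t hpc
      refine ⟨(p, i), ?_, hid⟩
      rw [Finset.mem_product]
      refine ⟨?_, Finset.mem_Icc.2 ⟨hi1, hit.trans htM⟩⟩
      rw [hS, Finset.mem_filter]
      exact ⟨Nat.mem_primeFactors.2 ⟨hp, hpN, hN⟩, not_le.1 hpz⟩
  choose! f hf1 hf2 using hbad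
  -- counting
  have hcardS : 16 * (M + 1) * S.card ≤ L := by
    have h1 : (2 ^ (16 * (M + 1))) ^ S.card ≤ ∏ p ∈ S, p := by
      refine Finset.pow_card_le_prod S (fun p => p) _ (fun p hp => ?_)
      rw [hS, Finset.mem_filter] at hp
      exact hzB.trans hp.2.le
    have h2 : ∏ p ∈ S, p ≤ N := by
      refine Nat.le_of_dvd (Nat.pos_of_ne_zero hN) ?_
      refine Dvd.dvd.trans ?_ (Nat.prod_primeFactors_dvd N)
      exact Finset.prod_dvd_prod_of_subset _ _ _ (Finset.filter_subset _ _)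
    rw [← pow_mul] at h1
    have h3 : 2 ^ (16 * (M + 1) * S.card) < 2 ^ (L + 1) := lt_of_le_of_lt (h1.trans h2) hNL
    have h4 := (Nat.pow_lt_pow_iff_right (by norm_num : 1 < 2)).1 h3
    omega
  have hlt : (S ×ˢ Finset.Icc 1 M).card < (Finset.Ico y₀ (y₀ + z)).card := by
    rw [Finset.card_product, Nat.card_Icc, Nat.card_Ico]
    have h5 : 16 * (S.card * M) ≤ L := by
      refine le_trans ?_ hcardS
      nlinarith [Nat.zero_le S.card]
    have h6 : S.card * (M + 1 - 1) = S.card * M := by rw [Nat.add_sub_cancel]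
    rw [h6, Nat.add_sub_cancel_left]
    omega
  obtain ⟨y, hy, y', hy', hne, heq⟩ := Finset.exists_ne_map_eq_of_card_lt_of_maps_to hlt hf1
  -- two different `y` with the same pair
  have key : ∀ a b : ℕ, a ∈ Finset.Ico y₀ (y₀ + z) → b ∈ Finset.Ico y₀ (y₀ + z) → a < b → f a = f b → False := by
    intro a b ha hb hab hfab
    have h1 := hf2 a ha
    have h2 := hf2 b hb
    have h3 := hf1 a ha
    rw [← hfab] at h2
    rw [Finset.mem_product, hS, Finset.mem_filter] at h3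
    obtain ⟨⟨h4, h5⟩, -⟩ := h3
    have hp : (f a).1.Prime := (Nat.mem_primeFactors.1 h4).1
    rw [Finset.mem_Ico] at ha hb
    have h6 : (f a).1 ∣ W * (b - a) := by
      have h7 : W * b + (f a).2 = (W * a + (f a).2) + W * (b - a) := by
        have : b = a + (b - a) := by omega
        calc W * b + (f a).2 = W * (a + (b - a)) + (f a).2 := by rw [← this]
          _ = _ := by ring
      rw [h7] at h2
      exact (Nat.dvd_add_right h1).1 h2
    rcases (Nat.Prime.dvd_mul hp).1 h6 with h8 | h8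
    · rw [hW] at h8
      rcases (Nat.Prime.dvd_mul hp).1 h8 with h9 | h9
      · have := (Nat.Prime.dvd_factorial hp).1 h9
        omega
      · have := hp.dvd_primorial_iff.1 h9
        omega
    · have := Nat.le_of_dvd (by omega) h8
      omega
  rcases lt_or_gt_of_ne hne with h | h
  · exact key y y' hy hy' h heq
  · exact key y' y hy' hy h heq.symm

theorem exists_coprime (M : ℕ) (ε : ℝ) (hε : 0 < ε) : ∃ n₀ : ℕ, ∀ n : ℕ, n₀ ≤ n →
    ∃ a : ℕ, 2 ≤ a ∧ a + 2 ≤ n ∧ |2 * (a : ℝ) - n| ≤ ε * n ∧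
      ∀ t, 1 ≤ t → t ≤ M → Nat.Coprime (Nat.multichoose (a - 1) t) (n - 2) := by
  obtain ⟨F, hF⟩ : ∃ F, F = M.factorial := ⟨_, rfl⟩
  obtain ⟨n₁, hn₁⟩ := exists_nat_ge (((2 * (F : ℝ) + 4) / ε) ^ 2)
  refine ⟨n₁ + (2 * F) ^ 2 + 2 ^ (8 * 2 ^ (16 * (M + 1))) + 8, fun n hn => ?_⟩
  have hB1 : 1 ≤ 2 ^ (16 * (M + 1)) := Nat.one_le_two_pow
  have hBM : M < 2 ^ (16 * (M + 1)) := lt_trans (by omega : M < 16 * (M + 1)) Nat.lt_two_pow_self
  have hall : n₁ ≤ n ∧ (2 * F) ^ 2 ≤ n ∧ 2 ^ (8 * 2 ^ (16 * (M + 1))) ≤ n ∧ 8 ≤ n := by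
    generalize 2 ^ (8 * 2 ^ (16 * (M + 1))) = T at hn ⊢
    generalize (2 * F) ^ 2 = T' at hn ⊢
    omega
  obtain ⟨hn1', hnF, h2B, hn8⟩ := hall
  have hn0 : n ≠ 0 := by
    clear hn
    omega
  clear hn
  obtain ⟨B, hB⟩ : ∃ B, B = 2 ^ (16 * (M + 1)) := ⟨_, rfl⟩
  rw [← hB] at h2B hB1 hBM
  obtain ⟨L, hL⟩ : ∃ L, L = Nat.log 2 n := ⟨_, rfl⟩
  obtain ⟨z, hz⟩ : ∃ z, z = L / 8 := ⟨_, rfl⟩
  have hLB : 8 * B ≤ L := by
    rw [hL]
    exact (Nat.le_log_iff_pow_le (by norm_num) hn0).2 h2B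
  have hzB : B ≤ z := by omega
  have hz1 : 1 ≤ z := hB1.trans hzB
  have hzM : M ≤ z := hBM.le.trans hzB
  have hLn : 2 ^ L ≤ n := by
    rw [hL]
    exact Nat.pow_log_le_self 2 hn0
  have hLn' : n < 2 ^ (L + 1) := by
    rw [hL]
    exact Nat.lt_pow_succ_log_self (by norm_num) n
  -- the size of `W`
  obtain ⟨W, hW⟩ : ∃ W, W = F * primorial z := ⟨_, rfl⟩
  have hF1 : 1 ≤ F := hF ▸ Nat.factorial_pos M
  have hW1 : 1 ≤ W := hW ▸ Nat.mul_pos hF1 (primorial_pos z)
  have h16 : (16 ^ z) ^ 2 ≤ n := by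
    calc (16 ^ z) ^ 2 = 2 ^ (8 * z) := by
          rw [show (16 : ℕ) = 2 ^ 4 by norm_num, ← pow_mul, ← pow_mul]
          congr 1
          ring
      _ ≤ 2 ^ L := Nat.pow_le_pow_right (by norm_num) (by omega)
      _ ≤ n := hLn
  have hWz : W * (z + 1) ≤ F * 16 ^ z := by
    have h1 : primorial z ≤ 4 ^ z := primorial_le_four_pow z
    have h2 : z + 1 ≤ 4 ^ z := Nat.lt_pow_self (by norm_num)
    calc W * (z + 1) = F * (primorial z * (z + 1)) := by rw [hW, mul_assoc]
      _ ≤ F * (4 ^ z * 4 ^ z) := Nat.mul_le_mul_left _ (Nat.mul_le_mul h1 h2)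
      _ = F * 16 ^ z := by rw [← mul_pow]; norm_num
  -- real estimates
  have hsq : ((16 ^ z : ℕ) : ℝ) ≤ Real.sqrt n := by
    apply Real.le_sqrt_of_sq_le
    exact_mod_cast h16
  have hWzR : ((W * (z + 1) : ℕ) : ℝ) ≤ F * Real.sqrt n := by
    calc ((W * (z + 1) : ℕ) : ℝ) ≤ ((F * 16 ^ z : ℕ) : ℝ) := by exact_mod_cast hWz
      _ = F * ((16 ^ z : ℕ) : ℝ) := by push_cast; ring
      _ ≤ F * Real.sqrt n := mul_le_mul_of_nonneg_left hsq (Nat.cast_nonneg F)
  have hnR : (0 : ℝ) < n := by exact_mod_cast Nat.pos_of_ne_zero hn0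
  have hss : Real.sqrt n * Real.sqrt n = n := Real.mul_self_sqrt hnR.le
  have hs1 : (1 : ℝ) ≤ Real.sqrt n := by
    rw [Real.one_le_sqrt]
    exact_mod_cast (by omega : 1 ≤ n)
  have hsE : (2 * (F : ℝ) + 4) / ε ≤ Real.sqrt n := by
    apply Real.le_sqrt_of_sq_le
    exact hn₁.trans (by exact_mod_cast hn1')
  have hsF : 2 * (F : ℝ) ≤ Real.sqrt n := by
    apply Real.le_sqrt_of_sq_le
    exact_mod_cast hnF
  have hEps : 2 * (F * Real.sqrt n) + 4 ≤ ε * n := by
    have h1 : 2 * (F : ℝ) + 4 ≤ ε * Real.sqrt n := by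
      rw [div_le_iff₀ hε] at hsE
      linarith
    have h2 : (2 * (F : ℝ) + 4) * Real.sqrt n ≤ ε * Real.sqrt n * Real.sqrt n :=
      mul_le_mul_of_nonneg_right h1 (Real.sqrt_nonneg _)
    rw [mul_assoc ε, hss] at h2
    have h4 : (2 * (F : ℝ) + 4) * Real.sqrt n = 2 * (F * Real.sqrt n) + 4 * Real.sqrt n := by ring
    linarith
  -- the interval
  obtain ⟨u, hu⟩ : ∃ u, u = n / (2 * W) := ⟨_, rfl⟩
  have hzu : z ≤ u := by
    rw [hu, Nat.le_div_iff_mul_le (by omega)]
    have h1 : ((z * (2 * W) : ℕ) : ℝ) ≤ (n : ℝ) := by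
      have h2 : ((z * (2 * W) : ℕ) : ℝ) ≤ 2 * ((W * (z + 1) : ℕ) : ℝ) := by
        have : z * (2 * W) ≤ 2 * (W * (z + 1)) := by
          have h5 : 2 * (W * (z + 1)) = z * (2 * W) + 2 * W := by ring
          rw [h5]
          exact Nat.le_add_right _ _
        exact_mod_cast this
      have h3 : 2 * (F : ℝ) * Real.sqrt n ≤ Real.sqrt n * Real.sqrt n :=
        mul_le_mul_of_nonneg_right hsF (Real.sqrt_nonneg _)
      rw [hss] at h3
      linarith
    exact_mod_cast h1
  obtain ⟨y, hy1, hy2, hy3⟩ := Nt_core M (n - 2) L z (u - z) (by omega)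
    (lt_of_le_of_lt (Nat.sub_le _ _) hLn') hz hzM hz1 (hB ▸ hzB)
  have hyu : y < u := by omega
  have hup : 2 * W * (y + 1) ≤ n := by
    calc 2 * W * (y + 1) ≤ 2 * W * u := Nat.mul_le_mul_left _ hyu
      _ ≤ n := hu ▸ Nat.mul_div_le n (2 * W)
  have hlo : n < 2 * W * (y + z + 1) := by
    have h1 : n < 2 * W * (u + 1) := by
      rw [hu]
      exact Nat.lt_mul_div_succ n (by omega : 0 < 2 * W)
    refine lt_of_lt_of_le h1 (Nat.mul_le_mul_left _ ?_)
    omega
  refine ⟨W * y + 2, by omega, ?_, ?_, ?_⟩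
  · have h1 : 2 * W * (y + 1) = 2 * (W * y) + 2 * W := by ring
    omega
  · have h1 : (2 : ℝ) * W * (y + 1) ≤ n := by exact_mod_cast hup
    have h2 : (n : ℝ) < 2 * W * (y + z + 1) := by exact_mod_cast hlo
    have h3 : (W : ℝ) * (z + 1) ≤ F * Real.sqrt n := by
      have := hWzR
      push_cast at this
      exact this
    have hW1R : (1 : ℝ) ≤ W := by exact_mod_cast hW1
    push_cast
    have h4 : (2 : ℝ) * W * (y + 1) = 2 * (W * y) + 2 * W := by ring
    have h5 : (2 : ℝ) * W * (y + z + 1) = 2 * (W * y) + 2 * (W * (z + 1)) := by ring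
    have h6 : (0 : ℝ) ≤ F * Real.sqrt n := mul_nonneg (Nat.cast_nonneg F) (Real.sqrt_nonneg _)
    rw [abs_le]
    constructor
    · linarith
    · linarith
  · intro t ht1 htM
    rw [Nat.multichoose_eq]
    have h1 : W * y + 2 - 1 + t - 1 = W * y + t := by omega
    rw [h1, hW, hF]
    exact hy3 t ht1 htM

end Pool.Agent.H51.TB

end

section

/-!
# V7: the numbers of one step, preparations
-/

set_option autoImplicit false

namespace Pool.Agent.V7

open Finset

namespace NumStep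

/-! ### Real numbers -/

/-- `h = c / m`, `q = 1 - h`. -/
theorem pow_ge {h : ℝ} (h1 : h ≤ 1) (d : ℕ) : 1 - d * h ≤ (1 - h) ^ d := by
  have := one_add_mul_le_pow (a := -h) (by linarith) d
  have e : (1 + -h) = 1 - h := by ring
  rw [e] at this
  linarith

theorem pow_le' {h : ℝ} (h0 : 0 ≤ h) (h1 : h ≤ 1) (d : ℕ) :
    (1 - h) ^ d ≤ 1 - d * h + (d : ℝ) ^ 2 * h ^ 2 := by
  induction d with
  | zero => simp
  | succ d ih =>
    have h2 : 0 ≤ 1 - h := by linarith
    have h3 := mul_le_mul_of_nonneg_right ih h2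
    rw [pow_succ]
    refine h3.trans ?_
    push_cast
    have hd : (0 : ℝ) ≤ d := Nat.cast_nonneg d
    have h5 : 0 ≤ (d : ℝ) * h ^ 2 := by positivity
    have h6 : 0 ≤ (d : ℝ) ^ 2 * h ^ 3 := by positivity
    have h7 : 0 ≤ h ^ 2 := by positivity
    nlinarith

/-- The setting: `m = n + c`, `1 / n ≤ δ ≤ 1`. -/
structure Set' (c n m : ℕ) (δ : ℝ) : Prop where
  hc : 1 ≤ c
  hm : m = n + c
  hcn : c ≤ n
  hδ : 1 / (n : ℝ) ≤ δ
  hδ1 : δ ≤ 1

namespace Set'

variable {c n m : ℕ} {δ : ℝ} (S : Set' c n m δ)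

include S

theorem n0 : (0 : ℝ) < n := by
  have := S.hc.trans S.hcn
  exact_mod_cast this

theorem m0 : (0 : ℝ) < m := by
  have h1 := S.hc
  have h2 := S.hm
  have : 0 < m := by omega
  exact_mod_cast this

theorem c0 : (0 : ℝ) < c := by
  have h1 := S.hc
  exact_mod_cast h1

theorem n1 : (1 : ℝ) ≤ n := by
  have := S.hc.trans S.hcn
  exact_mod_cast this

theorem m1 : (1 : ℝ) ≤ m := by
  have h1 := S.hc
  have h2 := S.hm
  have : 1 ≤ m := by omega
  exact_mod_cast this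

theorem nm : (n : ℝ) ≤ m := by
  have h2 := S.hm
  have : n ≤ m := by omega
  exact_mod_cast this

theorem mc : (m : ℝ) = n + c := by
  rw [S.hm]
  push_cast
  ring

theorem δ0 : 0 < δ := lt_of_lt_of_le (one_div_pos.2 S.n0) S.hδ

theorem mδ : 1 / (m : ℝ) ≤ δ := (one_div_le_one_div_of_le S.n0 S.nm).trans S.hδ

theorem mδ' : 1 ≤ δ * m := by
  have h := S.mδ
  rw [div_le_iff₀ S.m0] at h
  exact h

theorem h0 : 0 ≤ (c : ℝ) / m := div_nonneg (Nat.cast_nonneg _) (Nat.cast_nonneg _)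

theorem h1 : (c : ℝ) / m ≤ 1 := by
  rw [div_le_one S.m0, S.mc]
  linarith [S.n0]

theorem q_eq : (n : ℝ) / m = 1 - c / m := by
  have := S.m0
  rw [eq_sub_iff_add_eq, ← add_div, ← S.mc, div_self this.ne']

theorem q0 : 0 ≤ (n : ℝ) / m := div_nonneg (Nat.cast_nonneg _) (Nat.cast_nonneg _)

theorem q1 : (n : ℝ) / m ≤ 1 := by
  rw [S.q_eq]
  linarith [S.h0]

theorem qm (d : ℕ) : ((n : ℝ) / m) ^ d * (m : ℝ) ^ d = (n : ℝ) ^ d := by
  rw [← mul_pow, div_mul_cancel₀ _ S.m0.ne']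

theorem q_ge (d : ℕ) : 1 - d * (c / m : ℝ) ≤ ((n : ℝ) / m) ^ d := by
  rw [S.q_eq]
  exact pow_ge S.h1 d

theorem q_le (d : ℕ) : ((n : ℝ) / m) ^ d ≤ 1 - d * (c / m : ℝ) + (d : ℝ) ^ 2 * (c / m : ℝ) ^ 2 := by
  rw [S.q_eq]
  exact pow_le' S.h0 S.h1 d

theorem q_pow_le (d : ℕ) : ((n : ℝ) / m) ^ d ≤ 1 := pow_le_one₀ S.q0 S.q1

theorem one_le_δW {e : ℕ} (he : 1 ≤ e) : 1 ≤ δ * (m : ℝ) ^ e := by
  have h1 : (m : ℝ) ≤ (m : ℝ) ^ e := by
    calc (m : ℝ) = (m : ℝ) ^ 1 := (pow_one _).symm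
      _ ≤ (m : ℝ) ^ e := pow_le_pow_right₀ S.m1 he
  exact S.mδ'.trans (mul_le_mul_of_nonneg_left h1 S.δ0.le)

/-- the difference of the totals: nominal size of the next level -/
theorem diff {T T' ν ν₁ J : ℝ} {e E : ℕ} (he : 1 ≤ e) (hE : e + 1 ≤ E) (hJ : 0 ≤ J) (hν : 0 ≤ ν)
    (hν₁ : ν ≤ ν₁) (hT0 : 0 ≤ T)
    (hT : |T - ν * (m : ℝ) ^ (e + 1)| ≤ δ * (m : ℝ) ^ (e + 1))
    (h1 : ((n : ℝ) / m) ^ (e + 1) * T - J ≤ T') (h2 : T' ≤ ((n : ℝ) / m) ^ (e + 1) * T) :
    |T - T' - ν * ((e + 1 : ℕ) : ℝ) * c * (m : ℝ) ^ e| ≤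
      (J + (ν₁ + 1) * (E : ℝ) ^ 2 * (c : ℝ) ^ 2 + E * c) * δ * (m : ℝ) ^ e := by
  set W : ℝ := (m : ℝ) ^ e with hW
  have hm := S.m0
  have hW0 : 0 < W := pow_pos hm e
  have hmW : (m : ℝ) ^ (e + 1) = m * W := by rw [pow_succ]; ring
  rw [hmW] at hT
  set d : ℝ := ((e + 1 : ℕ) : ℝ) with hd
  have hd0 : 0 ≤ d := Nat.cast_nonneg _
  have hdE : d ≤ E := Nat.cast_le.2 hE
  set h : ℝ := (c : ℝ) / m with hh
  have hhm : h * m = c := div_mul_cancel₀ _ hm.ne'
  have hh0 : 0 ≤ h := S.h0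
  have hq1 := S.q_ge (e + 1)
  have hq2 := S.q_le (e + 1)
  set Q : ℝ := ((n : ℝ) / m) ^ (e + 1) with hQ
  obtain ⟨hTa, hTb⟩ := abs_le.1 hT
  have hc0 : (0 : ℝ) < c := S.c0
  have hE0 : (0 : ℝ) ≤ E := Nat.cast_nonneg _
  -- bounds
  have b1 : T ≤ (ν₁ + 1) * (m * W) := by
    have : δ * (m * W) ≤ 1 * (m * W) := mul_le_mul_of_nonneg_right S.hδ1 (by positivity)
    have h3 : ν * (m * W) ≤ ν₁ * (m * W) := mul_le_mul_of_nonneg_right hν₁ (by positivity)
    linarith
  have b2 : T * (d * h) ≤ ν * d * c * W + E * c * δ * W := by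
    have h3 : T ≤ ν * (m * W) + δ * (m * W) := by linarith
    have h4 : T * (d * h) ≤ (ν * (m * W) + δ * (m * W)) * (d * h) :=
      mul_le_mul_of_nonneg_right h3 (by positivity)
    have h5 : (ν * (m * W) + δ * (m * W)) * (d * h) = ν * d * (h * m) * W + d * (h * m) * δ * W := by
      ring
    rw [h5, hhm] at h4
    have h6 : d * c * δ * W ≤ E * c * δ * W := by
      have := S.δ0
      gcongr
    linarith
  have b3 : ν * d * c * W - E * c * δ * W ≤ T * (d * h) := by
    have h3 : ν * (m * W) - δ * (m * W) ≤ T := by linarith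
    have h4 : (ν * (m * W) - δ * (m * W)) * (d * h) ≤ T * (d * h) :=
      mul_le_mul_of_nonneg_right h3 (by positivity)
    have h5 : (ν * (m * W) - δ * (m * W)) * (d * h) = ν * d * (h * m) * W - d * (h * m) * δ * W := by
      ring
    rw [h5, hhm] at h4
    have h6 : d * c * δ * W ≤ E * c * δ * W := by
      have := S.δ0
      gcongr
    linarith
  have b4 : T * (d ^ 2 * h ^ 2) ≤ (ν₁ + 1) * (E : ℝ) ^ 2 * (c : ℝ) ^ 2 * δ * W := by
    have hν₁0 : 0 ≤ ν₁ := hν.trans hν₁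
    have h3 : T * (d ^ 2 * h ^ 2) ≤ ((ν₁ + 1) * (m * W)) * (d ^ 2 * h ^ 2) :=
      mul_le_mul_of_nonneg_right b1 (by positivity)
    have h4 : ((ν₁ + 1) * (m * W)) * (d ^ 2 * h ^ 2) =
        (ν₁ + 1) * d ^ 2 * (h * m) * h * W := by ring
    rw [h4, hhm] at h3
    refine h3.trans ?_
    have h5 : h = c * (1 / m) := by rw [hh]; ring
    have h6 : h ≤ c * δ := by
      rw [h5]
      exact mul_le_mul_of_nonneg_left S.mδ hc0.le
    have h7 : d ^ 2 ≤ (E : ℝ) ^ 2 := pow_le_pow_left₀ hd0 hdE 2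
    calc (ν₁ + 1) * d ^ 2 * c * h * W ≤ (ν₁ + 1) * (E : ℝ) ^ 2 * c * (c * δ) * W := by gcongr
      _ = (ν₁ + 1) * (E : ℝ) ^ 2 * (c : ℝ) ^ 2 * δ * W := by ring
  have b5 : J ≤ J * δ * W := by
    have h3 := S.one_le_δW he
    rw [← hW] at h3
    calc J = J * 1 := (mul_one J).symm
      _ ≤ J * (δ * W) := mul_le_mul_of_nonneg_left h3 hJ
      _ = J * δ * W := by ring
  -- 1 - Q
  have c1 : T - T' ≤ T * (d * h) + J := by
    have h3 : T * (1 - d * h) ≤ T * Q := mul_le_mul_of_nonneg_left hq1 hT0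
    have h4 : Q * T = T * Q := mul_comm _ _
    linarith
  have c2 : T * (d * h) - T * (d ^ 2 * h ^ 2) ≤ T - T' := by
    have h3 : T * Q ≤ T * (1 - d * h + d ^ 2 * h ^ 2) := mul_le_mul_of_nonneg_left hq2 hT0
    have h4 : Q * T = T * Q := mul_comm _ _
    linarith
  have hsplit : (J + (ν₁ + 1) * (E : ℝ) ^ 2 * (c : ℝ) ^ 2 + E * c) * δ * W =
      J * δ * W + (ν₁ + 1) * (E : ℝ) ^ 2 * (c : ℝ) ^ 2 * δ * W + E * c * δ * W := by ring
  have hp1 : 0 ≤ (ν₁ + 1) * (E : ℝ) ^ 2 * (c : ℝ) ^ 2 * δ * W := by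
    have := S.δ0
    have hν₁0 : 0 ≤ ν₁ := hν.trans hν₁
    positivity
  have hp2 : 0 ≤ J * δ * W := by
    have := S.δ0
    positivity
  rw [hsplit, abs_le]
  constructor <;> linarith

/-- the totals of the trace: nominal size of the same level -/
theorem same {T T' ν ν₁ J : ℝ} {d E : ℕ} (hd : 1 ≤ d) (hE : d ≤ E) (hJ : 0 ≤ J) (hν : 0 ≤ ν)
    (hν₁ : ν ≤ ν₁) (hT0 : 0 ≤ T) (hT : |T - ν * (m : ℝ) ^ d| ≤ δ * (m : ℝ) ^ d)
    (h1 : ((n : ℝ) / m) ^ d * T - J ≤ T') (h2 : T' ≤ ((n : ℝ) / m) ^ d * T) :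
    |T' - ν * (m : ℝ) ^ d| ≤ (J + (ν₁ + 1) * E * c + 1) * δ * (m : ℝ) ^ d := by
  set W : ℝ := (m : ℝ) ^ d with hW
  have hm := S.m0
  have hW0 : 0 < W := pow_pos hm d
  have hd0 : (0 : ℝ) ≤ d := Nat.cast_nonneg _
  have hdE : (d : ℝ) ≤ E := by exact_mod_cast hE
  set h : ℝ := (c : ℝ) / m with hh
  have hh0 : 0 ≤ h := S.h0
  have hq1 := S.q_ge d
  have hq2 := S.q_pow_le d
  set Q : ℝ := ((n : ℝ) / m) ^ d with hQ
  obtain ⟨hTa, hTb⟩ := abs_le.1 hT
  have hc0 : (0 : ℝ) < c := S.c0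
  have hν₁0 : 0 ≤ ν₁ := hν.trans hν₁
  have b1 : T ≤ (ν₁ + 1) * W := by
    have : δ * W ≤ 1 * W := mul_le_mul_of_nonneg_right S.hδ1 hW0.le
    have h3 : ν * W ≤ ν₁ * W := mul_le_mul_of_nonneg_right hν₁ hW0.le
    linarith
  have h5 : h = c * (1 / m) := by rw [hh]; ring
  have h6 : h ≤ c * δ := by
    rw [h5]
    exact mul_le_mul_of_nonneg_left S.mδ hc0.le
  have b4 : T * (d * h) ≤ (ν₁ + 1) * E * c * δ * W := by
    have h3 : T * (d * h) ≤ ((ν₁ + 1) * W) * (d * h) :=
      mul_le_mul_of_nonneg_right b1 (by positivity)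
    refine h3.trans ?_
    calc ((ν₁ + 1) * W) * (d * h) ≤ ((ν₁ + 1) * W) * (E * (c * δ)) := by gcongr
      _ = (ν₁ + 1) * E * c * δ * W := by ring
  have b5 : J ≤ J * δ * W := by
    have h3 := S.one_le_δW hd
    rw [← hW] at h3
    calc J = J * 1 := (mul_one J).symm
      _ ≤ J * (δ * W) := mul_le_mul_of_nonneg_left h3 hJ
      _ = J * δ * W := by ring
  have c1 : T - T * (d * h) ≤ Q * T := by
    have h3 : T * (1 - d * h) ≤ T * Q := mul_le_mul_of_nonneg_left hq1 hT0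
    have h4 : Q * T = T * Q := mul_comm _ _
    linarith
  have c2 : Q * T ≤ T := by
    have h3 : Q * T ≤ 1 * T := mul_le_mul_of_nonneg_right hq2 hT0
    linarith
  have hsplit : (J + (ν₁ + 1) * E * c + 1) * δ * W =
      J * δ * W + (ν₁ + 1) * E * c * δ * W + δ * W := by ring
  have hp1 : 0 ≤ (ν₁ + 1) * E * c * δ * W := by
    have := S.δ0
    positivity
  have hp2 : 0 ≤ J * δ * W := by
    have := S.δ0
    positivity
  rw [hsplit, abs_le]
  constructor <;> linarith

/-- upper bounds for one kind: the residual part -/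
theorem one_res {a a' b : ℝ} {e E : ℕ} (he : 1 ≤ e) (hE : e + 1 ≤ E) (ha : 0 ≤ a)
    (hab : a ≤ (b + δ) * (m : ℝ) ^ (e + 1))
    (h1 : ((n : ℝ) / m) ^ (e + 1) * a - 1 ≤ a') :
    a - a' ≤ (b * ((e + 1 : ℕ) : ℝ) * c + (E * c + 1) * δ) * (m : ℝ) ^ e := by
  set W : ℝ := (m : ℝ) ^ e with hW
  have hm := S.m0
  have hW0 : 0 < W := pow_pos hm e
  have hmW : (m : ℝ) ^ (e + 1) = m * W := by rw [pow_succ]; ring
  rw [hmW] at hab
  set d : ℝ := ((e + 1 : ℕ) : ℝ) with hd
  have hd0 : 0 ≤ d := Nat.cast_nonneg _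
  have hdE : d ≤ E := Nat.cast_le.2 hE
  set h : ℝ := (c : ℝ) / m with hh
  have hhm : h * m = c := div_mul_cancel₀ _ hm.ne'
  have hh0 : 0 ≤ h := S.h0
  have hq1 := S.q_ge (e + 1)
  set Q : ℝ := ((n : ℝ) / m) ^ (e + 1) with hQ
  have hc0 : (0 : ℝ) < c := S.c0
  have c1 : a - a' ≤ a * (d * h) + 1 := by
    have h3 : a * (1 - d * h) ≤ a * Q := mul_le_mul_of_nonneg_left hq1 ha
    have h4 : Q * a = a * Q := mul_comm _ _
    linarith
  have c2 : a * (d * h) ≤ ((b + δ) * (m * W)) * (d * h) :=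
    mul_le_mul_of_nonneg_right hab (by positivity)
  have c3 : ((b + δ) * (m * W)) * (d * h) = b * d * (h * m) * W + d * (h * m) * δ * W := by ring
  rw [c3, hhm] at c2
  have c4 : d * c * δ * W ≤ E * c * δ * W := by
    have := S.δ0
    gcongr
  have c5 := S.one_le_δW he
  rw [← hW] at c5
  have c6 : (b * d * c + (E * c + 1) * δ) * W = b * d * c * W + E * c * δ * W + δ * W := by ring
  rw [c6]
  linarith

/-- upper bounds for one kind: the trace -/
theorem one_tr {a a' b : ℝ} {d : ℕ} (ha : 0 ≤ a) (hab : a ≤ (b + δ) * (m : ℝ) ^ d)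
    (h2 : a' ≤ ((n : ℝ) / m) ^ d * a) : a' ≤ (b + δ) * (m : ℝ) ^ d := by
  have hq2 := S.q_pow_le d
  have h3 : ((n : ℝ) / m) ^ d * a ≤ 1 * a := mul_le_mul_of_nonneg_right hq2 ha
  linarith

end Set'

end NumStep

end Pool.Agent.V7

end
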