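import Pool.Agent.H94.LP5.M03
import Pool.Agent.H94.LP5.M18
import Pool.Agent.H94.LP5.M19

/-! The parts of this file: H21.HD.FFl, H21.HD.NonSq, H21.HD.BlockPow, H21.HD.SpanCols, H21.HD.SpanOpen, H21.HD.SpanSplit, H21.HD.SpanStep, H21.NX.Layer. -/

section

/-!
The functional FF.
-/

namespace Pool.Agent.H21.HD

open scoped Classical

variable {ι : Type*}

lemma FFlX.EEr_empty (W : Finset ι → ℝ) : EEr W ∅ = 1 := by
  rw [EEr]
  simp

lemma FFlX.EEr_choose (W : Finset ι → ℝ) (Q : Finset ι) (h : Q.Nonempty) :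
    EEr W Q = ∑ T ∈ subs Q h.choose, W T * EEr W (Q \ T) := by
  rw [EEr, dif_pos h]
  exact Finset.sum_coe_sort (subs Q h.choose) (fun T => W T * EEr W (Q \ T))

/-- The recursion holds for every element. -/
lemma FFlX.EEr_rec (W : Finset ι → ℝ) : ∀ (n : ℕ) (Q : Finset ι), Q.card = n → ∀ p ∈ Q,
    EEr W Q = ∑ T ∈ subs Q p, W T * EEr W (Q \ T) := by
  intro n
  induction n using Nat.strong_induction_on with
  | _ n ih =>
    intro Q hQ p hp
    have hne : Q.Nonempty := ⟨p, hp⟩
    rw [FFlX.EEr_choose W Q hne]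
    set q := hne.choose with hq
    have hqQ : q ∈ Q := hne.choose_spec
    have key : ∀ a ∈ Q, ∀ b ∈ Q, ∑ T ∈ subs Q a, W T * EEr W (Q \ T) =
        ∑ T ∈ (subs Q a).filter (fun T => b ∈ T), W T * EEr W (Q \ T) +
        ∑ T ∈ (subs Q a).filter (fun T => b ∉ T), ∑ T' ∈ subs (Q \ T) b,
          W T * (W T' * EEr W ((Q \ T) \ T')) := by
      intro a ha b hb
      rw [← Finset.sum_filter_add_sum_filter_not (subs Q a) (fun T => b ∈ T)]
      congr 1
      refine Finset.sum_congr rfl fun T hT => ?_
      rw [Finset.mem_filter, mem_subs] at hT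
      rw [ih _ (by rw [← hQ]; exact card_sdiff_lt' hT.1.1 hT.1.2) (Q \ T) rfl b
        (Finset.mem_sdiff.mpr ⟨hb, hT.2⟩), Finset.mul_sum]
    rw [key q hqQ p hp, key p hp q hqQ]
    congr 1
    · refine Finset.sum_congr ?_ fun _ _ => rfl
      ext T
      rw [Finset.mem_filter, Finset.mem_filter, mem_subs, mem_subs]
      tauto
    · rw [Finset.sum_sigma', Finset.sum_sigma']
      refine Finset.sum_nbij' (fun x => ⟨x.2, x.1⟩) (fun x => ⟨x.2, x.1⟩) ?_ ?_ ?_ ?_ ?_
      · rintro ⟨T, T'⟩ hx
        rw [Finset.mem_sigma, Finset.mem_filter, mem_subs, mem_subs] at hx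
        obtain ⟨⟨⟨h1, h2⟩, h3⟩, h4, h5⟩ := hx
        simp only at h1 h2 h3 h4 h5
        rw [Finset.mem_sigma, Finset.mem_filter, mem_subs, mem_subs]
        have hdisj : Disjoint T T' := by
          rw [Finset.disjoint_right]
          intro y hy hyT
          exact (Finset.mem_sdiff.mp (h4 hy)).2 hyT
        refine ⟨⟨⟨h4.trans Finset.sdiff_subset, h5⟩, ?_⟩, ?_, h2⟩
        · intro hqT'
          exact (Finset.disjoint_left.mp hdisj h2) hqT'
        · intro y hy
          exact Finset.mem_sdiff.mpr ⟨h1 hy, fun h => (Finset.disjoint_left.mp hdisj hy) h⟩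
      · rintro ⟨T, T'⟩ hx
        rw [Finset.mem_sigma, Finset.mem_filter, mem_subs, mem_subs] at hx
        obtain ⟨⟨⟨h1, h2⟩, h3⟩, h4, h5⟩ := hx
        simp only at h1 h2 h3 h4 h5
        rw [Finset.mem_sigma, Finset.mem_filter, mem_subs, mem_subs]
        have hdisj : Disjoint T T' := by
          rw [Finset.disjoint_right]
          intro y hy hyT
          exact (Finset.mem_sdiff.mp (h4 hy)).2 hyT
        refine ⟨⟨⟨h4.trans Finset.sdiff_subset, h5⟩, ?_⟩, ?_, h2⟩
        · intro hqT'
          exact (Finset.disjoint_left.mp hdisj h2) hqT'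
        · intro y hy
          exact Finset.mem_sdiff.mpr ⟨h1 hy, fun h => (Finset.disjoint_left.mp hdisj hy) h⟩
      · rintro ⟨T, T'⟩ _; rfl
      · rintro ⟨T, T'⟩ _; rfl
      · rintro ⟨T, T'⟩ _
        simp only
        rw [sdiff_sdiff_comm]
        ring

lemma FFlX.EEr_rec' (W : Finset ι → ℝ) (Q : Finset ι) (p : ι) (hp : p ∈ Q) :
    EEr W Q = ∑ T ∈ subs Q p, W T * EEr W (Q \ T) :=
  FFlX.EEr_rec W _ Q rfl p hp

lemma FFlX.EEr_congr {W W' : Finset ι → ℝ} : ∀ (n : ℕ) (Q : Finset ι), Q.card = n →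
    (∀ T ⊆ Q, T.Nonempty → W T = W' T) → EEr W Q = EEr W' Q := by
  intro n
  induction n using Nat.strong_induction_on with
  | _ n ih =>
    intro Q hQ h
    by_cases hne : Q.Nonempty
    · obtain ⟨p, hp⟩ := hne
      rw [FFlX.EEr_rec' W Q p hp, FFlX.EEr_rec' W' Q p hp]
      refine Finset.sum_congr rfl fun T hT => ?_
      rw [mem_subs] at hT
      rw [h T hT.1 ⟨p, hT.2⟩, ih _ (by rw [← hQ]; exact card_sdiff_lt' hT.1 hT.2) (Q \ T) rfl
        (fun T' hT' => h T' (hT'.trans Finset.sdiff_subset))]
    · rw [Finset.not_nonempty_iff_eq_empty] at hne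
      rw [hne, FFlX.EEr_empty, FFlX.EEr_empty]

lemma FF_empty (lam : Finset ι → ℝ) : FF lam ∅ = 1 := by
  unfold FF
  exact FFlX.EEr_empty _

/-- The recursion, for every element `i` of `J`. -/
lemma FF_rec (lam : Finset ι → ℝ) (J : Finset ι) (i : ι) (hi : i ∈ J) :
    FF lam J = FF lam (J.erase i) - ∑ T ∈ subs J i, lam T * FF lam (J \ T) := by
  have h1 : FF lam J = ∑ T ∈ subs J i, ((if T.card = 1 then 1 else 0) - lam T) *
      FF lam (J \ T) := by
    unfold FF
    exact FFlX.EEr_rec' _ J i hi
  rw [h1]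
  simp only [sub_mul, Finset.sum_sub_distrib]
  congr 1
  have h2 : ∑ T ∈ subs J i, (if T.card = 1 then (1 : ℝ) else 0) * FF lam (J \ T) =
      ∑ T ∈ subs J i, if T = {i} then FF lam (J \ {i}) else 0 := by
    refine Finset.sum_congr rfl fun T hT => ?_
    rw [mem_subs] at hT
    by_cases hc : T.card = 1
    · obtain ⟨j, rfl⟩ := Finset.card_eq_one.mp hc
      have hij : i = j := Finset.mem_singleton.mp hT.2
      subst hij
      simp
    · have hne : T ≠ {i} := by
        rintro rfl
        exact hc (Finset.card_singleton i)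
      rw [if_neg hc, if_neg hne, zero_mul]
  rw [h2, Finset.sum_ite_eq', if_pos]
  · rw [Finset.sdiff_singleton_eq_erase]
  · rw [mem_subs]
    exact ⟨Finset.singleton_subset_iff.mpr hi, Finset.mem_singleton_self i⟩

lemma FF_congr {lam lam' : Finset ι → ℝ} (J : Finset ι)
    (h : ∀ T ⊆ J, T.Nonempty → lam T = lam' T) : FF lam J = FF lam' J := by
  unfold FF
  exact FFlX.EEr_congr _ J rfl fun T hT hne => by rw [h T hT hne]

/-- `FF` is affine in each of its arguments. -/
lemma FF_add {lam lam' : Finset ι → ℝ} (J T₀ : Finset ι) (hT₀ : T₀.Nonempty) (hJ : T₀ ⊆ J)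
    (μ : ℝ) (h1 : lam' T₀ = lam T₀ + μ) (h2 : ∀ T, T ≠ T₀ → lam' T = lam T) :
    FF lam' J = FF lam J - μ * FF lam (J \ T₀) := by
  obtain ⟨p, hp⟩ := hT₀
  rw [FF_rec lam' J p (hJ hp), FF_rec lam J p (hJ hp)]
  have e1 : FF lam' (J.erase p) = FF lam (J.erase p) := by
    refine FF_congr _ fun T hT _ => h2 T ?_
    rintro rfl
    exact (Finset.notMem_erase p J) (hT hp)
  have e2 : ∑ T ∈ subs J p, lam' T * FF lam' (J \ T) =
      ∑ T ∈ subs J p, (lam T * FF lam (J \ T) + if T = T₀ then μ * FF lam (J \ T₀) else 0) := by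
    refine Finset.sum_congr rfl fun T hT => ?_
    rw [mem_subs] at hT
    have e3 : FF lam' (J \ T) = FF lam (J \ T) := by
      refine FF_congr _ fun T' hT' _ => h2 T' ?_
      rintro rfl
      exact (Finset.mem_sdiff.mp (hT' hp)).2 hT.2
    rw [e3]
    by_cases hc : T = T₀
    · rw [if_pos hc, hc, h1]
      ring
    · rw [if_neg hc, h2 T hc]
      ring
  rw [e1, e2, Finset.sum_add_distrib, Finset.sum_ite_eq', if_pos (mem_subs.mpr ⟨hJ, hp⟩)]
  ring

/-- For loads that depend only on the cardinality the functional is `phi`. -/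
lemma FF_card (κ : ℕ → ℝ) (J : Finset ι) (lam : Finset ι → ℝ)
    (h : ∀ T ⊆ J, T.Nonempty → lam T = κ T.card) : FF lam J = phi κ J.card := by
  have main : ∀ (n : ℕ) (J : Finset ι), J.card = n →
      (∀ T ⊆ J, T.Nonempty → lam T = κ T.card) → FF lam J = phi κ n := by
    intro n
    induction n using Nat.strong_induction_on with
    | _ n ih =>
      intro J hJ h
      by_cases hne : J.Nonempty
      · obtain ⟨i, hi⟩ := hne
        obtain ⟨m, rfl⟩ : ∃ m, n = m + 1 :=
          Nat.exists_eq_succ_of_ne_zero (by rw [← hJ]; exact Finset.card_ne_zero_of_mem hi)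
        have hce : (J.erase i).card = m := by
          rw [Finset.card_erase_of_mem hi, hJ]; rfl
        rw [FF_rec lam J i hi, phi]
        congr 1
        · exact ih m (Nat.lt_succ_self m) _ hce
            fun T hT hT' => h T (hT.trans (Finset.erase_subset i J)) hT'
        · have e1 : ∑ T ∈ subs J i, lam T * FF lam (J \ T) =
              ∑ U ∈ (J.erase i).powerset, κ (U.card + 1) * phi κ (m - U.card) := by
            symm
            refine Finset.sum_bij' (fun U _ => insert i U) (fun T _ => T.erase i) ?_ ?_ ?_ ?_ ?_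
            · intro U hU
              rw [Finset.mem_powerset] at hU
              rw [mem_subs]
              exact ⟨Finset.insert_subset hi (hU.trans (Finset.erase_subset i J)),
                Finset.mem_insert_self i U⟩
            · intro T hT
              rw [mem_subs] at hT
              rw [Finset.mem_powerset]
              exact Finset.erase_subset_erase i hT.1
            · intro U hU
              rw [Finset.mem_powerset] at hU
              exact Finset.erase_insert fun hiU => Finset.notMem_erase i J (hU hiU)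
            · intro T hT
              rw [mem_subs] at hT
              exact Finset.insert_erase hT.2
            · intro U hU
              rw [Finset.mem_powerset] at hU
              have hiU : i ∉ U := fun hiU => Finset.notMem_erase i J (hU hiU)
              have hsub : insert i U ⊆ J :=
                Finset.insert_subset hi (hU.trans (Finset.erase_subset i J))
              have hcU : (insert i U).card = U.card + 1 := Finset.card_insert_of_notMem hiU
              have hcd : (J \ insert i U).card = m - U.card := by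
                rw [Finset.card_sdiff_of_subset hsub, hJ, hcU]
                omega
              rw [h _ hsub ⟨i, Finset.mem_insert_self i U⟩, hcU]
              congr 1
              symm
              refine ih (m - U.card) (by omega) _ hcd fun T hT hT' =>
                h T (hT.trans Finset.sdiff_subset) hT'
          rw [e1, Finset.sum_powerset_apply_card (fun k => κ (k + 1) * phi κ (m - k)) , hce,
            Finset.sum_range]
          refine Finset.sum_congr rfl fun e _ => ?_
          rw [nsmul_eq_mul]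
          ring
      · rw [Finset.not_nonempty_iff_eq_empty] at hne
        rw [hne, FF_empty]
        rw [hne, Finset.card_empty] at hJ
        rw [← hJ, phi]
  exact main _ J rfl h

end Pool.Agent.H21.HD

end

section

/-!
Monomials that are not squarefree in the blocks.
-/

namespace Pool.Agent.H21.HD

open MvPolynomial
open scoped Classical

private theorem NonSqX_interp {σ : Type} (β γ : σ →₀ ℕ) (hβ : β ≤ γ) (k : ℕ)
    (h1 : β.degree ≤ k) (h2 : k ≤ γ.degree) : ∃ δ, β ≤ δ ∧ δ ≤ γ ∧ δ.degree = k := by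
  induction k, h1 using Nat.le_induction with
  | base => exact ⟨β, le_refl β, hβ, rfl⟩
  | succ k hk ih =>
    obtain ⟨δ, hδ1, hδ2, hδ3⟩ := ih (by omega)
    have hne : ∃ s, δ s < γ s := by
      by_contra hcon
      push Not at hcon
      have h3 : γ ≤ δ := hcon
      have h4 : γ = δ := le_antisymm h3 hδ2
      rw [h4, hδ3] at h2
      omega
    obtain ⟨s, hs⟩ := hne
    refine ⟨δ + Finsupp.single s 1, ?_, ?_, ?_⟩
    · exact hδ1.trans (le_add_of_nonneg_right (zero_le))
    · intro t
      rw [Finsupp.add_apply]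
      by_cases hts : t = s
      · rw [hts, Finsupp.single_eq_same]
        omega
      · rw [Finsupp.single_eq_of_ne hts, add_zero]
        exact hδ2 t
    · rw [map_add, hδ3, Finsupp.degree_single]

private theorem NonSqX_deg {N : ℕ} {A : Type} [Fintype A] (γ : Fin N × A →₀ ℕ) :
    ∑ i, bdegB γ i = γ.degree := by
  unfold bdegB
  rw [Finsupp.degree_eq_sum, Fintype.sum_prod_type]

/-- The monomials that are not squarefree in the blocks, from the powers spanning the forms of
degree `e₀` in each set of `e₀ - 1` blocks. -/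
theorem nonsquarefree_of_blocks {N : ℕ} {A R : Type} [Fintype A] (d e₀ : ℕ) (h2 : 2 ≤ e₀)
    (hd : e₀ ≤ d) (hN : e₀ ≤ N) (w : R → Fin N × A → ℂ) (e : R → ℕ)
    (h : ∀ b : Finset (Fin N), b.card = e₀ - 1 → ∀ F : MvPolynomial (Fin N × A) ℂ,
      F.IsHomogeneous e₀ → (∀ γ ∈ F.support, ∀ x, γ x ≠ 0 → x.1 ∈ b) → F ∈ powSpan e₀ w e)
    (γ : Fin N × A →₀ ℕ) (hγ : γ.degree = d) (hi : ∃ i, 2 ≤ bdegB γ i) :
    monomial γ (1 : ℂ) ∈ powSpan d w e := by
  obtain ⟨i, hi⟩ := hi
  -- the part of `γ` in the block `i`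
  set γi : Fin N × A →₀ ℕ := γ.filter (fun x => x.1 = i) with hγi
  have hγile : γi ≤ γ := by
    intro x
    rw [hγi, Finsupp.filter_apply]
    split_ifs
    · exact le_refl _
    · exact Nat.zero_le _
  have hγideg : 2 ≤ γi.degree := by
    rw [← NonSqX_deg]
    calc 2 ≤ bdegB γ i := hi
      _ = bdegB γi i := by
        unfold bdegB
        apply Finset.sum_congr rfl
        intro a _
        rw [hγi, Finsupp.filter_apply, if_pos rfl]
      _ ≤ _ := Finset.single_le_sum (f := fun j => bdegB γi j) (fun _ _ => Nat.zero_le _)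
        (Finset.mem_univ i)
  obtain ⟨β₀, -, hβ₀le, hβ₀deg⟩ := NonSqX_interp 0 γi (zero_le) 2 (by simp) hγideg
  have hβ₀i : bdegB β₀ i = 2 := by
    rw [← hβ₀deg, ← NonSqX_deg]
    symm
    apply Finset.sum_eq_single i
    · intro j _ hji
      unfold bdegB
      apply Finset.sum_eq_zero
      intro a _
      have h3 := hβ₀le (j, a)
      rw [hγi, Finsupp.filter_apply, if_neg (by exact hji)] at h3
      exact Nat.le_zero.1 h3
    · intro h3
      exact absurd (Finset.mem_univ i) h3
  obtain ⟨β, hβ1, hβ2, hβ3⟩ := NonSqX_interp β₀ γ (hβ₀le.trans hγile) e₀ (by omega) (by omega)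
  have hβi : 2 ≤ bdegB β i := by
    rw [← hβ₀i]
    exact Finset.sum_le_sum fun a _ => hβ1 (i, a)
  -- the blocks that `β` meets
  set b₀ : Finset (Fin N) := Finset.univ.filter (fun j => bdegB β j ≠ 0) with hb₀
  have hib₀ : i ∈ b₀ := by
    rw [hb₀, Finset.mem_filter]
    exact ⟨Finset.mem_univ i, by omega⟩
  have hb₀card : b₀.card ≤ e₀ - 1 := by
    have h3 : ∑ j ∈ b₀, bdegB β j ≤ e₀ := by
      rw [← hβ3, ← NonSqX_deg]
      exact Finset.sum_le_sum_of_subset (Finset.subset_univ _)
    rw [← Finset.add_sum_erase _ _ hib₀] at h3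
    have h4 : (b₀.erase i).card ≤ ∑ j ∈ b₀.erase i, bdegB β j := by
      calc (b₀.erase i).card = ∑ j ∈ b₀.erase i, 1 := by simp
        _ ≤ _ := by
          apply Finset.sum_le_sum
          intro j hj
          have h5 := Finset.mem_of_mem_erase hj
          rw [hb₀, Finset.mem_filter] at h5
          omega
    rw [Finset.card_erase_of_mem hib₀] at h4
    omega
  obtain ⟨b, hb₀b, hbcard⟩ := Finset.exists_superset_card_eq hb₀card
    (by rw [Fintype.card_fin]; omega)
  have hmem : monomial β (1 : ℂ) ∈ powSpan e₀ w e := by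
    apply h b hbcard
    · exact isHomogeneous_monomial _ hβ3
    · intro γ' hγ' x hx
      have h3 := support_monomial_subset hγ'
      rw [Finset.mem_singleton] at h3
      rw [h3] at hx
      apply hb₀b
      rw [hb₀, Finset.mem_filter]
      refine ⟨Finset.mem_univ _, fun h4 => ?_⟩
      unfold bdegB at h4
      rw [Finset.sum_eq_zero_iff] at h4
      exact hx (h4 x.2 (Finset.mem_univ _))
  have hmul : monomial γ (1 : ℂ) = monomial (γ - β) 1 * monomial β 1 := by
    rw [monomial_mul, one_mul, tsub_add_cancel_of_le hβ2]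
  have hdeg : (γ - β).degree = d - e₀ := by
    have h3 : (γ - β + β).degree = γ.degree := by rw [tsub_add_cancel_of_le hβ2]
    rw [map_add, hβ3, hγ] at h3
    omega
  rw [hmul]
  have hhom : (monomial (γ - β) (1 : ℂ)).IsHomogeneous (d - e₀) :=
    isHomogeneous_monomial _ hdeg
  generalize monomial (γ - β) (1 : ℂ) = G at hhom ⊢
  generalize monomial β (1 : ℂ) = F at hmem ⊢
  unfold powSpan at hmem
  induction hmem using Submodule.span_induction with
  | mem x hx =>
    obtain ⟨p, g, hp, hg, rfl⟩ := hx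
    apply Submodule.subset_span
    refine ⟨p, G * g, hp.trans hd, ?_, by ring⟩
    have h3 := hhom.mul hg
    have h4 : d - e₀ + (e₀ - e p) = d - e p := by omega
    rwa [h4] at h3
  | zero =>
    rw [mul_zero]
    exact Submodule.zero_mem _
  | add x y _ _ hx hy =>
    rw [mul_add]
    exact Submodule.add_mem _ hx hy
  | smul t x _ hx =>
    rw [mul_smul_comm]
    exact Submodule.smul_mem _ _ hx

end Pool.Agent.H21.HD

end

section

/-!
Powers spanning each set of blocks.
-/

namespace Pool.Agent.H21.HD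

open MvPolynomial
open scoped Classical

namespace BlockPowX

/-- extension by zero -/
noncomputable def extv {N : ℕ} {A : Type} (b : Finset (Fin N)) (u : {x : Fin N × A // x.1 ∈ b} → ℂ) :
    Fin N × A → ℂ := fun x => if h : x.1 ∈ b then u ⟨x, h⟩ else 0

theorem rename_lin {N : ℕ} {A : Type} [Fintype A] (b : Finset (Fin N))
    (u : {x : Fin N × A // x.1 ∈ b} → ℂ) :
    rename (Subtype.val : {x : Fin N × A // x.1 ∈ b} → Fin N × A) (lin u) = lin (extv b u) := by
  unfold lin
  rw [map_sum]
  apply Fintype.sum_of_injective Subtype.val Subtype.val_injective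
  · intro x hx
    have h1 : x.1 ∉ b := by
      intro h
      exact hx ⟨⟨x, h⟩, rfl⟩
    simp [extv, h1]
  · intro x
    have h1 : extv b u x.1 = u x := by
      unfold extv
      rw [dif_pos x.2]
    rw [h1, map_mul, rename_C, rename_X]

theorem card_sub {N : ℕ} {A : Type} [Fintype A] (b : Finset (Fin N)) :
    Fintype.card {x : Fin N × A // x.1 ∈ b} = b.card * Fintype.card A := by
  rw [Fintype.card_subtype]
  have h1 : Finset.univ.filter (fun x : Fin N × A => x.1 ∈ b) = b ×ˢ Finset.univ := by
    ext x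
    simp
  rw [h1, Finset.card_product, Finset.card_univ]

end BlockPowX

open BlockPowX

/-- Linear forms whose `e₀`-th powers span the forms of degree `e₀` in every set of `e₀ - 1`
blocks. -/
theorem exists_block_powers {N : ℕ} {A : Type} [Fintype A] [Nonempty A] (e₀ : ℕ) (h2 : 2 ≤ e₀)
    (X : Type) [Fintype X]
    (hX : N.choose (e₀ - 1) * ((e₀ - 1) * Fintype.card A - 1 + e₀).choose e₀ ≤ Fintype.card X) :
    ∃ w : X → Fin N × A → ℂ, ∀ b : Finset (Fin N), b.card = e₀ - 1 →
      ∀ F : MvPolynomial (Fin N × A) ℂ, F.IsHomogeneous e₀ →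
        (∀ γ ∈ F.support, ∀ x, γ x ≠ 0 → x.1 ∈ b) →
        F ∈ powSpan e₀ w (fun _ => e₀) := by
  have h1 : ∀ b : {b : Finset (Fin N) // b.card = e₀ - 1},
      ∃ w : Fin (((e₀ - 1) * Fintype.card A - 1 + e₀).choose e₀) → {x : Fin N × A // x.1 ∈ b.1} → ℂ,
      homogeneousSubmodule {x : Fin N × A // x.1 ∈ b.1} ℂ e₀
        ≤ Submodule.span ℂ (Set.range fun k => lin (w k) ^ e₀) := by
    intro b
    have hne : Nonempty {x : Fin N × A // x.1 ∈ b.1} := by
      have h3 : b.1.Nonempty := by
        rw [← Finset.card_pos, b.2]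
        omega
      obtain ⟨i, hi⟩ := h3
      exact ⟨⟨(i, Classical.arbitrary A), hi⟩⟩
    have h4 := pow_span {x : Fin N × A // x.1 ∈ b.1} e₀
    rw [card_sub b.1, b.2] at h4
    exact h4
  choose W hW using h1
  have h3 : Fintype.card ({b : Finset (Fin N) // b.card = e₀ - 1}
      × Fin (((e₀ - 1) * Fintype.card A - 1 + e₀).choose e₀)) ≤ Fintype.card X := by
    rw [Fintype.card_prod, Fintype.card_fin, Fintype.card_finset_len, Fintype.card_fin]
    exact hX
  obtain ⟨ι⟩ := Function.Embedding.nonempty_of_card_le h3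
  refine ⟨fun x => if h : ∃ q, ι q = x then extv h.choose.1.1 (W h.choose.1 h.choose.2) else 0, ?_⟩
  intro b hb F hF hsupp
  have hvars : (F.vars : Set (Fin N × A)) ⊆ Set.range (Subtype.val : {x : Fin N × A // x.1 ∈ b} → _) := by
    intro x hx
    rw [Finset.mem_coe, mem_vars] at hx
    obtain ⟨γ, hγ, hxγ⟩ := hx
    exact ⟨⟨x, hsupp γ hγ x (Finsupp.mem_support_iff.1 hxγ)⟩, rfl⟩
  obtain ⟨F', hF'⟩ := exists_rename_eq_of_vars_subset_range F Subtype.val Subtype.val_injective hvars
  have hhom : F'.IsHomogeneous e₀ := by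
    rw [← IsHomogeneous.rename_isHomogeneous_iff (f := (Subtype.val : {x : Fin N × A // x.1 ∈ b} → _))
      Subtype.val_injective, hF']
    exact hF
  have h5 := hW ⟨b, hb⟩ ((mem_homogeneousSubmodule _ _).2 hhom)
  have h6 : rename (Subtype.val : {x : Fin N × A // x.1 ∈ b} → _) F' ∈
      (Submodule.span ℂ (Set.range fun k => lin (W ⟨b, hb⟩ k) ^ e₀)).map
        (rename (R := ℂ) (Subtype.val : {x : Fin N × A // x.1 ∈ b} → _)).toLinearMap :=
    ⟨F', h5, rfl⟩
  rw [hF', Submodule.map_span] at h6
  refine Submodule.span_le.2 ?_ h6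
  rintro _ ⟨_, ⟨k, rfl⟩, rfl⟩
  apply Submodule.subset_span
  refine ⟨ι (⟨b, hb⟩, k), 1, le_rfl, ?_, ?_⟩
  · rw [Nat.sub_self]
    exact isHomogeneous_one _ _
  · have h7 : ∃ q, ι q = ι (⟨b, hb⟩, k) := ⟨_, rfl⟩
    have h8 : h7.choose = (⟨b, hb⟩, k) := ι.injective h7.choose_spec
    simp only
    rw [dif_pos h7, one_mul, AlgHom.toLinearMap_apply, map_pow, rename_lin, h8]

end Pool.Agent.H21.HD

end

section

/-!
Spanning from the squarefree columns.
-/

namespace Pool.Agent.H21.HD

open MvPolynomial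
open scoped Classical

namespace SpanColsX

variable {N : ℕ} {A : Type} [Fintype A]

/-- The linear form in the block `i`. -/
noncomputable def blk (v : Fin N → A → ℂ) (i : Fin N) : MvPolynomial (Fin N × A) ℂ :=
  ∑ a, C (v i a) * X (i, a)

lemma blk_homog (v : Fin N → A → ℂ) (i : Fin N) : (blk v i).IsHomogeneous 1 := by
  unfold blk
  apply IsHomogeneous.sum
  intro a _
  have h1 : (C (v i a) : MvPolynomial (Fin N × A) ℂ).IsHomogeneous 0 := isHomogeneous_C _ _
  have h2 : (X (i, a) : MvPolynomial (Fin N × A) ℂ).IsHomogeneous 1 := isHomogeneous_X _ _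
  simpa using h1.mul h2

lemma lin_vecB (c : Finset (Fin N)) (v : Fin N → A → ℂ) :
    lin (vecB c v) = ∑ i ∈ c, blk v i := by
  unfold lin vecB blk
  rw [Fintype.sum_prod_type]
  rw [← Finset.sum_filter_add_sum_filter_not Finset.univ (fun i => i ∈ c)]
  have h0 : ∑ x ∈ Finset.univ.filter (fun i : Fin N => ¬ i ∈ c), ∑ y : A,
      (C (if (x, y).1 ∈ c then v (x, y).1 (x, y).2 else 0) * X (x, y) :
        MvPolynomial (Fin N × A) ℂ) = 0 := by
    apply Finset.sum_eq_zero
    intro i hi
    rw [Finset.mem_filter] at hi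
    apply Finset.sum_eq_zero
    intro a _
    simp [hi.2]
  rw [h0, add_zero]
  have h1 : Finset.univ.filter (fun i : Fin N => i ∈ c) = c := by
    ext i; simp
  rw [h1]
  apply Finset.sum_congr rfl
  intro i hi
  apply Finset.sum_congr rfl
  intro a _
  simp [hi]

lemma bdegB_add (γ δ : Fin N × A →₀ ℕ) (i : Fin N) :
    bdegB (γ + δ) i = bdegB γ i + bdegB δ i := by
  unfold bdegB
  rw [← Finset.sum_add_distrib]
  rfl

lemma bdegB_single (i : Fin N) (a : A) (j : Fin N) :
    bdegB (Finsupp.single (i, a) 1) j = if i = j then 1 else 0 := by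
  unfold bdegB
  by_cases h : i = j
  · subst h
    rw [if_pos rfl]
    rw [Finset.sum_eq_single a]
    · simp
    · intro b _ hb
      rw [Finsupp.single_apply, if_neg]
      intro h
      exact hb (Prod.ext_iff.1 h).2.symm
    · intro h
      exact absurd (Finset.mem_univ a) h
  · rw [if_neg h]
    apply Finset.sum_eq_zero
    intro b _
    rw [Finsupp.single_apply, if_neg]
    intro h'
    exact h (Prod.ext_iff.1 h').1

/-- Twice a variable of a block. -/
lemma sq_mem {M : Submodule ℂ (MvPolynomial (Fin N × A) ℂ)} {d : ℕ}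
    (hns : ∀ γ : Fin N × A →₀ ℕ, γ.degree = d → (∃ i, 2 ≤ bdegB γ i) →
      monomial γ (1 : ℂ) ∈ M) (d' : ℕ) (hd : d' + 2 = d)
    (G : MvPolynomial (Fin N × A) ℂ) (hG : G.IsHomogeneous d') (i : Fin N) (a b : A) :
    X (i, a) * X (i, b) * G ∈ M := by
  rw [G.as_sum, Finset.mul_sum]
  apply Submodule.sum_mem
  intro δ hδ
  have hdeg : δ.degree = d' := by
    have := hG (mem_support_iff.1 hδ)
    rw [← this, Finsupp.degree_eq_weight_one]
    rfl
  have h1 : (X (i, a) * X (i, b) * monomial δ (coeff δ G) : MvPolynomial (Fin N × A) ℂ)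
      = (coeff δ G) • monomial (Finsupp.single (i, a) 1 + Finsupp.single (i, b) 1 + δ) (1 : ℂ) := by
    rw [smul_monomial, X, X, monomial_mul, monomial_mul]
    simp
  rw [h1]
  apply Submodule.smul_mem
  apply hns
  · simp [hdeg]
    omega
  · refine ⟨i, ?_⟩
    rw [bdegB_add, bdegB_add, bdegB_single, bdegB_single]
    simp

lemma blk_sq_mem {M : Submodule ℂ (MvPolynomial (Fin N × A) ℂ)} {d : ℕ}
    (hns : ∀ γ : Fin N × A →₀ ℕ, γ.degree = d → (∃ i, 2 ≤ bdegB γ i) →
      monomial γ (1 : ℂ) ∈ M) (v : Fin N → A → ℂ) (d' : ℕ) (hd : d' + 2 = d)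
    (G : MvPolynomial (Fin N × A) ℂ) (hG : G.IsHomogeneous d') (i : Fin N) :
    blk v i ^ 2 * G ∈ M := by
  have h1 : blk v i ^ 2 * G = ∑ a, ∑ b, (v i a * v i b) • (X (i, a) * X (i, b) * G) := by
    rw [pow_two]
    unfold blk
    rw [Finset.sum_mul_sum, Finset.sum_mul]
    apply Finset.sum_congr rfl
    intro a _
    rw [Finset.sum_mul]
    apply Finset.sum_congr rfl
    intro b _
    rw [smul_eq_C_mul, C_mul]
    ring
  rw [h1]
  apply Submodule.sum_mem
  intro a _
  apply Submodule.sum_mem
  intro b _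
  exact Submodule.smul_mem _ _ (sq_mem hns d' hd G hG i a b)

/-- The product of the block forms times a multiplier. -/
lemma prod_mem {R : Type} {d : ℕ} {w : R → Fin N × A → ℂ} {e : R → ℕ}
    (hns : ∀ γ : Fin N × A →₀ ℕ, γ.degree = d → (∃ i, 2 ≤ bdegB γ i) →
      monomial γ (1 : ℂ) ∈ powSpan d w e) (v : Fin N → A → ℂ) (c : Finset (Fin N))
    (hc : c.card ≤ d) (p : R) (hw : w p = vecB c v) (he : e p = c.card)
    (g : MvPolynomial (Fin N × A) ℂ) (hg : g.IsHomogeneous (d - c.card)) :
    g * ∏ i ∈ c, blk v i ∈ powSpan d w e := by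
  have h1 : g * lin (w p) ^ e p ∈ powSpan d w e := by
    apply Submodule.subset_span
    exact ⟨p, g, by rw [he]; exact hc, by rw [he]; exact hg, rfl⟩
  rw [hw, he, lin_vecB, Finset.sum_pow_eq_sum_piAntidiag, Finset.mul_sum] at h1
  -- the indicator of `c`
  set k0 : Fin N → ℕ := fun i => if i ∈ c then 1 else 0 with hk0
  have hk0mem : k0 ∈ Finset.piAntidiag c c.card := by
    rw [Finset.mem_piAntidiag]
    refine ⟨?_, ?_⟩
    · rw [hk0]
      simp
    · intro i hi
      by_contra hcon
      apply hi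
      simp [hk0, hcon]
  rw [← Finset.add_sum_erase _ _ hk0mem] at h1
  have h2 : ∑ k ∈ (Finset.piAntidiag c c.card).erase k0,
      g * (((Nat.multinomial c k : ℕ) : MvPolynomial (Fin N × A) ℂ) * ∏ i ∈ c, blk v i ^ k i)
      ∈ powSpan d w e := by
    apply Submodule.sum_mem
    intro k hk
    rw [Finset.mem_erase, Finset.mem_piAntidiag] at hk
    obtain ⟨hne, hsum, hsupp⟩ := hk
    -- some exponent is at least two
    have h3 : ∃ i ∈ c, 2 ≤ k i := by
      by_contra hcon
      push Not at hcon
      apply hne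
      have h4 : ∀ i ∈ c, k i = 1 := by
        have h5 : ∑ i ∈ c, k i = ∑ i ∈ c, 1 := by
          rw [hsum]; simp
        have h6 : ∀ i ∈ c, k i ≤ 1 := fun i hi => by
          have := hcon i hi
          omega
        exact (Finset.sum_eq_sum_iff_of_le h6).1 h5
      funext i
      by_cases hi : i ∈ c
      · rw [h4 i hi, hk0]
        simp [hi]
      · have : k i = 0 := by
          by_contra h
          exact hi (hsupp i h)
        rw [this, hk0]
        simp [hi]
    obtain ⟨i0, hi0, h2i⟩ := h3
    have hsum' : k i0 + ∑ i ∈ c.erase i0, k i = c.card := by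
      rw [Finset.add_sum_erase _ _ hi0, hsum]
    have h7 : g * (((Nat.multinomial c k : ℕ) : MvPolynomial (Fin N × A) ℂ) *
        ∏ i ∈ c, blk v i ^ k i)
        = ((Nat.multinomial c k : ℕ) : ℂ) • (blk v i0 ^ 2 * (g * (blk v i0 ^ (k i0 - 2) *
          ∏ i ∈ c.erase i0, blk v i ^ k i))) := by
      rw [← Finset.mul_prod_erase _ _ hi0, smul_eq_C_mul]
      have h8 : blk v i0 ^ k i0 = blk v i0 ^ 2 * blk v i0 ^ (k i0 - 2) := by
        rw [← pow_add]
        congr 1
        omega
      rw [h8, map_natCast]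
      ring
    rw [h7]
    apply Submodule.smul_mem
    apply blk_sq_mem hns v (d - 2)
    · have : k i0 ≤ c.card := by omega
      omega
    · have h9 : (blk v i0 ^ (k i0 - 2)).IsHomogeneous (1 * (k i0 - 2)) :=
        (blk_homog v i0).pow _
      have h10 : (∏ i ∈ c.erase i0, blk v i ^ k i).IsHomogeneous
          (∑ i ∈ c.erase i0, 1 * k i) := by
        apply IsHomogeneous.prod
        intro i _
        exact (blk_homog v i).pow _
      have h11 := hg.mul (h9.mul h10)
      have h12 : d - c.card + (1 * (k i0 - 2) + ∑ i ∈ c.erase i0, 1 * k i) = d - 2 := by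
        simp only [one_mul]
        omega
      rw [h12] at h11
      exact h11
  have h3 : g * (((Nat.multinomial c k0 : ℕ) : MvPolynomial (Fin N × A) ℂ) *
      ∏ i ∈ c, blk v i ^ k0 i) ∈ powSpan d w e := by
    have := Submodule.sub_mem _ h1 h2
    simpa using this
  have h4 : ∏ i ∈ c, blk v i ^ k0 i = ∏ i ∈ c, blk v i := by
    apply Finset.prod_congr rfl
    intro i hi
    simp [hk0, hi]
  have h5 : (Nat.multinomial c k0 : ℂ) ≠ 0 := by
    exact_mod_cast (Nat.multinomial_pos c k0).ne'
  rw [h4] at h3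
  have h6 : g * ∏ i ∈ c, blk v i = (Nat.multinomial c k0 : ℂ)⁻¹ •
      (g * (((Nat.multinomial c k0 : ℕ) : MvPolynomial (Fin N × A) ℂ) * ∏ i ∈ c, blk v i)) := by
    rw [smul_eq_C_mul]
    have h7 : (C ((Nat.multinomial c k0 : ℂ)⁻¹) : MvPolynomial (Fin N × A) ℂ) *
        ((Nat.multinomial c k0 : ℕ) : MvPolynomial (Fin N × A) ℂ) = 1 := by
      rw [← map_natCast (C : ℂ →+* MvPolynomial (Fin N × A) ℂ), ← C_mul, inv_mul_cancel₀ h5, C_1]
    calc g * ∏ i ∈ c, blk v i = 1 * (g * ∏ i ∈ c, blk v i) := by rw [one_mul]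
      _ = _ := by rw [← h7]; ring
  rw [h6]
  exact Submodule.smul_mem _ _ h3

/-- The squarefree monomial. -/
noncomputable def mon (J : Finset (Fin N)) (y : Fin N → A) : MvPolynomial (Fin N × A) ℂ :=
  ∏ i ∈ J, X (i, y i)

omit [Fintype A] in
lemma mon_homog (J : Finset (Fin N)) (y : Fin N → A) : (mon J y).IsHomogeneous J.card := by
  unfold mon
  have := IsHomogeneous.prod J (fun i => (X (i, y i) : MvPolynomial (Fin N × A) ℂ)) (fun _ => 1)
    (fun i _ => isHomogeneous_X _ _)
  simpa using this

/-- The exchange of coordinates. -/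
noncomputable def exch (c : Finset (Fin N)) :
    ((Fin N → A) × (Fin N → A)) ≃ ((Fin N → A) × (Fin N → A)) where
  toFun q := (c.piecewise q.2 q.1, c.piecewise q.1 q.2)
  invFun q := (c.piecewise q.2 q.1, c.piecewise q.1 q.2)
  left_inv q := by
    apply Prod.ext
    · funext i
      by_cases hi : i ∈ c <;> simp [Finset.piecewise, hi]
    · funext i
      by_cases hi : i ∈ c <;> simp [Finset.piecewise, hi]
  right_inv q := by
    apply Prod.ext
    · funext i
      by_cases hi : i ∈ c <;> simp [Finset.piecewise, hi]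
    · funext i
      by_cases hi : i ∈ c <;> simp [Finset.piecewise, hi]

lemma sum_exch (c : Finset (Fin N)) (F : (Fin N → A) → MvPolynomial (Fin N × A) ℂ) :
    ((Fintype.card (Fin N → A) : ℕ) : ℂ) • ∑ y, F y = ∑ y, ∑ z, F (c.piecewise z y) := by
  have h1 : ∑ y : Fin N → A, ∑ z : Fin N → A, F (c.piecewise z y)
      = ∑ q : (Fin N → A) × (Fin N → A), F (exch c q).1 := by
    rw [Fintype.sum_prod_type]
    rfl
  rw [h1, Equiv.sum_comp (exch c) (fun q => F q.1), Fintype.sum_prod_type]
  simp only [Finset.sum_const, Finset.card_univ, Finset.smul_sum]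
  apply Finset.sum_congr rfl
  intro y _
  rw [smul_eq_C_mul, nsmul_eq_mul]
  simp

lemma sum_prod_blk (c : Finset (Fin N)) (v : Fin N → A → ℂ) :
    ∃ t : ℂ, ∑ z : Fin N → A, ∏ i ∈ c, (C (v i (z i)) * X (i, z i) : MvPolynomial (Fin N × A) ℂ)
      = t • ∏ i ∈ c, blk v i := by
  have h1 : ∀ z : Fin N → A, ∏ i ∈ c, (C (v i (z i)) * X (i, z i) : MvPolynomial (Fin N × A) ℂ)
      = ∏ i, (if i ∈ c then C (v i (z i)) * X (i, z i) else 1) := by
    intro z
    rw [Finset.prod_ite_mem, Finset.univ_inter]
  simp only [h1]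
  have h2 := Finset.prod_univ_sum (fun _ : Fin N => (Finset.univ : Finset A))
    (fun i a => (if i ∈ c then C (v i a) * X (i, a) else 1 : MvPolynomial (Fin N × A) ℂ))
  rw [Fintype.piFinset_univ] at h2
  rw [← h2]
  have h3 : ∀ i : Fin N, ∑ a : A, (if i ∈ c then C (v i a) * X (i, a) else 1 :
      MvPolynomial (Fin N × A) ℂ) = (if i ∈ c then blk v i else 1) *
        (if i ∈ c then 1 else C ((Fintype.card A : ℕ) : ℂ)) := by
    intro i
    by_cases hi : i ∈ c
    · simp [hi, blk]
    · simp [hi]
  simp only [h3]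
  rw [Finset.prod_mul_distrib]
  have h4 : ∏ i : Fin N, (if i ∈ c then blk v i else 1) = ∏ i ∈ c, blk v i := by
    rw [Finset.prod_ite_mem, Finset.univ_inter]
  rw [h4]
  refine ⟨∏ i : Fin N, (if i ∈ c then 1 else ((Fintype.card A : ℕ) : ℂ)), ?_⟩
  rw [smul_eq_C_mul, map_prod, mul_comm]
  congr 1
  apply Finset.prod_congr rfl
  intro i _
  by_cases hi : i ∈ c <;> simp [hi]

omit [Fintype A] in
lemma mon_piecewise {c J : Finset (Fin N)} (hc : c ⊆ J) (y z : Fin N → A) :
    mon J (c.piecewise z y) = (∏ i ∈ c, X (i, z i)) * mon (J \ c) y := by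
  unfold mon
  rw [← Finset.prod_sdiff hc, mul_comm]
  congr 1
  · apply Finset.prod_congr rfl
    intro i hi
    simp [Finset.piecewise, hi]
  · apply Finset.prod_congr rfl
    intro i hi
    have : i ∉ c := (Finset.mem_sdiff.1 hi).2
    simp [Finset.piecewise, this]

/-- The exponent vector of a squarefree monomial. -/
lemma exists_y [Nonempty A] {d : ℕ} (γ : Fin N × A →₀ ℕ) (hd : γ.degree = d)
    (h : ∀ i, bdegB γ i < 2) :
    ∃ J : Finset (Fin N), J.card = d ∧ ∃ y : Fin N → A, monomial γ (1 : ℂ) = mon J y := by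
  set J : Finset (Fin N) := Finset.univ.filter (fun i => bdegB γ i = 1) with hJ
  have h01 : ∀ i, bdegB γ i = if i ∈ J then 1 else 0 := by
    intro i
    have := h i
    by_cases hi : bdegB γ i = 1
    · simp [hJ, hi]
    · simp only [hJ, Finset.mem_filter, Finset.mem_univ, true_and, hi, if_false]
      omega
  have hex : ∀ i, ∃ a, i ∈ J → ∀ b, γ (i, b) = if b = a then 1 else 0 := by
    intro i
    by_cases hi : i ∈ J
    · have h1 : ∑ a, γ (i, a) = 1 := by
        have := h01 i
        rw [if_pos hi] at this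
        exact this
      have h2 : ∃ a, γ (i, a) ≠ 0 := by
        by_contra hcon
        push Not at hcon
        rw [Finset.sum_eq_zero (fun a _ => hcon a)] at h1
        exact absurd h1 (by norm_num)
      obtain ⟨a, ha⟩ := h2
      refine ⟨a, fun _ b => ?_⟩
      have h3 : γ (i, a) + ∑ b ∈ Finset.univ.erase a, γ (i, b) = 1 := by
        rw [Finset.add_sum_erase Finset.univ (fun b => γ (i, b)) (Finset.mem_univ a), h1]
      by_cases hb : b = a
      · subst hb
        rw [if_pos rfl]
        omega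
      · rw [if_neg hb]
        have h4 : γ (i, b) ≤ ∑ b ∈ Finset.univ.erase a, γ (i, b) :=
          Finset.single_le_sum (f := fun b => γ (i, b)) (fun _ _ => Nat.zero_le _)
            (Finset.mem_erase.2 ⟨hb, Finset.mem_univ b⟩)
        omega
    · exact ⟨Classical.arbitrary A, fun h => absurd h hi⟩
  choose y hy using hex
  have hγ : γ = ∑ i ∈ J, Finsupp.single (i, y i) 1 := by
    ext ⟨i, a⟩
    rw [Finsupp.finsetSum_apply]
    by_cases hi : i ∈ J
    · rw [hy i hi a, Finset.sum_eq_single i]
      · rw [Finsupp.single_apply]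
        by_cases ha : a = y i
        · simp [ha]
        · rw [if_neg ha, if_neg]
          intro h
          exact ha (Prod.ext_iff.1 h).2.symm
      · intro j _ hj
        rw [Finsupp.single_apply, if_neg]
        intro h
        exact hj (Prod.ext_iff.1 h).1
      · intro h
        exact absurd hi h
    · have h1 : ∑ a, γ (i, a) = 0 := by
        have := h01 i
        rw [if_neg hi] at this
        exact this
      have h2 : γ (i, a) = 0 := by
        have h3 : γ (i, a) ≤ ∑ a, γ (i, a) :=
          Finset.single_le_sum (f := fun b => γ (i, b)) (fun _ _ => Nat.zero_le _)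
            (Finset.mem_univ a)
        omega
      rw [h2]
      symm
      apply Finset.sum_eq_zero
      intro j hj
      rw [Finsupp.single_apply, if_neg]
      intro h
      have : j = i := (Prod.ext_iff.1 h).1
      exact hi (this ▸ hj)
  refine ⟨J, ?_, y, ?_⟩
  · rw [← hd, hγ, map_sum]
    simp
  · rw [hγ]
    unfold mon
    rw [monomial_sum_one]
    rfl

end SpanColsX

open SpanColsX in
/-- Spanning from the squarefree columns: every monomial of degree `d` that is not squarefree in
the blocks lies in `M`, and the squarefree columns are spanned by products. -/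
theorem span_of_columns {N : ℕ} {A R α : Type} [Fintype A] [Nonempty A] (d : ℕ)
    (w : R → Fin N × A → ℂ) (e : R → ℕ)
    (hns : ∀ γ : Fin N × A →₀ ℕ, γ.degree = d → (∃ i, 2 ≤ bdegB γ i) →
      monomial γ (1 : ℂ) ∈ powSpan d w e)
    (c : α → Finset (Fin N)) (v : α → Fin N → A → ℂ) (emb : α → R)
    (hemb : ∀ p, w (emb p) = vecB (c p) (v p) ∧ e (emb p) = (c p).card)
    (hcol : ∀ J : Finset (Fin N), J.card = d → ∃ P : Finset α, (∀ p ∈ P, c p ⊆ J) ∧
      SpanGood J P c v) :
    homogeneousSubmodule (Fin N × A) ℂ d ≤ powSpan d w e := by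
  intro F hF
  rw [mem_homogeneousSubmodule] at hF
  rw [F.as_sum]
  apply Submodule.sum_mem
  intro γ hγ
  have hdeg : γ.degree = d := by
    have := hF (mem_support_iff.1 hγ)
    rw [← this, Finsupp.degree_eq_weight_one]
    rfl
  have h1 : monomial γ (coeff γ F) = (coeff γ F) • monomial γ (1 : ℂ) := by
    rw [smul_monomial]; simp
  rw [h1]
  apply Submodule.smul_mem
  by_cases hsq : ∃ i, 2 ≤ bdegB γ i
  · exact hns γ hdeg hsq
  push Not at hsq
  obtain ⟨J, hJ, y0, hy0⟩ := exists_y γ hdeg hsq
  rw [hy0]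
  obtain ⟨P, hP, hgood⟩ := hcol J hJ
  obtain ⟨κ, hκ, hf⟩ := hgood (fun y => if ∀ i ∈ J, y i = y0 i then 1 else 0) (by
    intro x y hxy
    have : (∀ i ∈ J, x i = y0 i) ↔ (∀ i ∈ J, y i = y0 i) := by
      constructor
      · intro h i hi
        rw [← hxy i hi]
        exact h i hi
      · intro h i hi
        rw [hxy i hi]
        exact h i hi
    simp only [this])
  -- the sum over all `y`
  have h2 : ∑ y : Fin N → A, (C (if ∀ i ∈ J, y i = y0 i then (1 : ℂ) else 0) * mon J y :
      MvPolynomial (Fin N × A) ℂ)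
      = (((Finset.univ.filter (fun y : Fin N → A => ∀ i ∈ J, y i = y0 i)).card : ℕ) : ℂ) •
        mon J y0 := by
    have h3 : ∀ y : Fin N → A, (C (if ∀ i ∈ J, y i = y0 i then (1 : ℂ) else 0) * mon J y :
        MvPolynomial (Fin N × A) ℂ) = if ∀ i ∈ J, y i = y0 i then mon J y0 else 0 := by
      intro y
      by_cases hy : ∀ i ∈ J, y i = y0 i
      · rw [if_pos hy, if_pos hy, C_1, one_mul]
        unfold mon
        apply Finset.prod_congr rfl
        intro i hi
        rw [hy i hi]
      · rw [if_neg hy, if_neg hy, C_0, zero_mul]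
    simp only [h3]
    rw [← Finset.sum_filter, Finset.sum_const, smul_eq_C_mul, nsmul_eq_mul]
    simp
  have hcne : (((Finset.univ.filter (fun y : Fin N → A => ∀ i ∈ J, y i = y0 i)).card : ℕ) : ℂ)
      ≠ 0 := by
    have : 0 < (Finset.univ.filter (fun y : Fin N → A => ∀ i ∈ J, y i = y0 i)).card := by
      apply Finset.card_pos.2
      exact ⟨y0, by simp⟩
    exact_mod_cast this.ne'
  have hmem : ∑ y : Fin N → A, (C (if ∀ i ∈ J, y i = y0 i then (1 : ℂ) else 0) * mon J y :
      MvPolynomial (Fin N × A) ℂ) ∈ powSpan d w e := by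
    have h4 : ∑ y : Fin N → A, (C (if ∀ i ∈ J, y i = y0 i then (1 : ℂ) else 0) * mon J y :
        MvPolynomial (Fin N × A) ℂ)
        = ∑ p ∈ P, ∑ y : Fin N → A, C ((∏ i ∈ c p, v p i (y i)) * κ p y) * mon J y := by
      rw [Finset.sum_comm]
      apply Finset.sum_congr rfl
      intro y _
      rw [← Finset.sum_mul, ← map_sum]
      congr 2
      exact hf y
    rw [h4]
    apply Submodule.sum_mem
    intro p hp
    have hcJ := hP p hp
    have hcard : ((Fintype.card (Fin N → A) : ℕ) : ℂ) ≠ 0 := by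
      have : 0 < Fintype.card (Fin N → A) := Fintype.card_pos
      exact_mod_cast this.ne'
    have h5 := sum_exch (c p) (fun y : Fin N → A =>
      (C ((∏ i ∈ c p, v p i (y i)) * κ p y) * mon J y : MvPolynomial (Fin N × A) ℂ))
    obtain ⟨t, ht⟩ := sum_prod_blk (c p) (v p)
    have h6 : ∑ y : Fin N → A, ∑ z : Fin N → A,
        (C ((∏ i ∈ c p, v p i ((c p).piecewise z y i)) * κ p ((c p).piecewise z y)) *
          mon J ((c p).piecewise z y) : MvPolynomial (Fin N × A) ℂ)
        = t • ((∑ y : Fin N → A, C (κ p y) * mon (J \ c p) y) * ∏ i ∈ c p, blk (v p) i) := by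
      rw [← mul_smul_comm, ← ht, Finset.sum_mul_sum]
      apply Finset.sum_congr rfl
      intro y _
      apply Finset.sum_congr rfl
      intro z _
      rw [mon_piecewise hcJ]
      have h7 : κ p ((c p).piecewise z y) = κ p y := by
        apply hκ p hp
        intro i hi
        have : i ∉ c p :=
          ((@Finset.mem_sdiff _ (fun a b => Classical.propDecidable (a = b)) _ _ _).1 hi).2
        simp [Finset.piecewise, this]
      have h8 : ∏ i ∈ c p, v p i ((c p).piecewise z y i) = ∏ i ∈ c p, v p i (z i) := by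
        apply Finset.prod_congr rfl
        intro i hi
        simp [Finset.piecewise, hi]
      rw [h7, h8, Finset.prod_mul_distrib, C_mul, map_prod]
      ring
    rw [h6] at h5
    have h9 : ∑ y : Fin N → A, (C ((∏ i ∈ c p, v p i (y i)) * κ p y) * mon J y :
        MvPolynomial (Fin N × A) ℂ) = (((Fintype.card (Fin N → A) : ℕ) : ℂ)⁻¹ * t) •
          ((∑ y : Fin N → A, C (κ p y) * mon (J \ c p) y) * ∏ i ∈ c p, blk (v p) i) := by
      rw [mul_smul, ← h5, smul_smul, inv_mul_cancel₀ hcard, one_smul]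
    rw [h9]
    apply Submodule.smul_mem
    have hcd : (c p).card ≤ d := by
      rw [← hJ]
      exact Finset.card_le_card hcJ
    apply prod_mem hns (v p) (c p) hcd (emb p) (hemb p).1 (hemb p).2
    apply IsHomogeneous.sum
    intro y _
    have h10 : (C (κ p y) : MvPolynomial (Fin N × A) ℂ).IsHomogeneous 0 := isHomogeneous_C _ _
    have h11 := h10.mul (mon_homog (J \ c p) y)
    have h12 : 0 + (J \ c p).card = d - (c p).card := by
      rw [Finset.card_sdiff_of_subset hcJ, hJ, zero_add]
    rw [h12] at h11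
    exact h11
  rw [h2] at hmem
  have h13 : mon J y0 = ((((Finset.univ.filter
      (fun y : Fin N → A => ∀ i ∈ J, y i = y0 i)).card : ℕ) : ℂ))⁻¹ •
      ((((Finset.univ.filter (fun y : Fin N → A => ∀ i ∈ J, y i = y0 i)).card : ℕ) : ℂ) •
        mon J y0) := by
    rw [smul_smul, inv_mul_cancel₀ hcne, one_smul]
  rw [h13]
  exact Submodule.smul_mem _ _ hmem

end Pool.Agent.H21.HD

end

section

/-!
SpanGood is open.
-/

namespace Pool.Agent.H21.HD

open MvPolynomial
open scoped Classical

namespace SpanOpenX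

/-- The functions that depend only on the coordinates in `T`. -/
noncomputable def depSub {ι : Type*} (B : ι → Type*) (T : Finset ι) :
    Submodule ℂ ((∀ i, B i) → ℂ) where
  carrier := {f | DepOn T f}
  add_mem' := by
    intro f g hf hg x y hxy
    simp only [Pi.add_apply]
    rw [hf x y hxy, hg x y hxy]
  zero_mem' := by
    intro x y _
    rfl
  smul_mem' := by
    intro c f hf x y hxy
    simp only [Pi.smul_apply]
    rw [hf x y hxy]

/-- The linear map attached to the parameters `x`. -/
noncomputable def spanMap {ι A α : Type} [Fintype ι] [Fintype A] (base : A)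
    (J : Finset ι) (P : Finset α) (c : α → Finset ι) (x : α × ι × A → ℂ) :
    (∀ p : P, depSub (fun _ : ι => A) (J \ c p)) →ₗ[ℂ]
      ({y : ι → A // ∀ i, i ∉ J → y i = base} → ℂ) where
  toFun κ := fun y => ∑ p : P, (∏ i ∈ c p, x (p.1, i, y.1 i)) * (κ p).1 y.1
  map_add' := by
    intro κ κ'
    funext y
    simp only [Pi.add_apply, Submodule.coe_add, mul_add, Finset.sum_add_distrib]
  map_smul' := by
    intro r κ
    funext y
    simp only [Pi.smul_apply, Submodule.coe_smul, smul_eq_mul, RingHom.id_apply, Finset.mul_sum]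
    refine Finset.sum_congr rfl fun p _ => ?_
    ring

theorem spanMap_apply {ι A α : Type} [Fintype ι] [Fintype A] (base : A)
    (J : Finset ι) (P : Finset α) (c : α → Finset ι) (x : α × ι × A → ℂ)
    (κ : ∀ p : P, depSub (fun _ : ι => A) (J \ c p))
    (y : {y : ι → A // ∀ i, i ∉ J → y i = base}) :
    spanMap base J P c x κ y = ∑ p : P, (∏ i ∈ c p, x (p.1, i, y.1 i)) * (κ p).1 y.1 := rfl

end SpanOpenX

open SpanOpenX in
/-- `SpanGood` is an open condition. -/
theorem spanGood_open {ι A α : Type} [Fintype ι] [Fintype A] [Nonempty A]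
    (J : Finset ι) (P : Finset α) (c : α → Finset ι) (hc : ∀ p ∈ P, c p ⊆ J)
    (v₀ : α → ι → A → ℂ) (h : SpanGood J P c v₀) :
    ∃ G : MvPolynomial (α × ι × A) ℂ, G ≠ 0 ∧ ∀ v : α → ι → A → ℂ,
      eval (fun x => v x.1 x.2.1 x.2.2) G ≠ 0 → SpanGood J P c v := by
  obtain ⟨base⟩ := ‹Nonempty A›
  have hT : ∀ (κ : ∀ p : P, depSub (fun _ : ι => A) (J \ c p))
      (y : {y : ι → A // ∀ i, i ∉ J → y i = base}),
      PolyFun (fun x => spanMap base J P c x κ y) := by
    intro κ y
    simp only [spanMap_apply]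
    refine PolyFun.sum _ _ fun p _ => ?_
    refine PolyFun.mul ?_ (PolyFun.const _)
    exact PolyFun.prod _ (fun i x => x (p.1, i, y.1 i)) fun i _ => PolyFun.coord _
  have hsurj : Function.Surjective (spanMap base J P c (fun x => v₀ x.1 x.2.1 x.2.2)) := by
    intro f
    let F : (ι → A) → ℂ := fun y => f ⟨fun i => if i ∈ J then y i else base, by
      intro i hi
      simp [hi]⟩
    have hF : DepOn J F := by
      intro x y hxy
      have : (fun i => if i ∈ J then x i else base) = fun i => if i ∈ J then y i else base := by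
        funext i
        by_cases hi : i ∈ J
        · simp [hi, hxy i hi]
        · simp [hi]
      simp only [F, this]
    obtain ⟨κ, hκ1, hκ2⟩ := h F hF
    refine ⟨fun p => ⟨κ p.1, hκ1 p.1 p.2⟩, ?_⟩
    funext y
    rw [spanMap_apply]
    have h1 : f y = F y.1 := by
      simp only [F]
      congr 1
      apply Subtype.ext
      funext i
      by_cases hi : i ∈ J
      · simp [hi]
      · simp [hi, y.2 i hi]
    rw [h1, hκ2 y.1, ← Finset.sum_coe_sort P
      (fun p => (∏ i ∈ c p, v₀ p i (y.1 i)) * κ p y.1)]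
  obtain ⟨G, hG0, hG⟩ := open_surj (spanMap base J P c) hT _ hsurj
  refine ⟨G, ?_, ?_⟩
  · rintro rfl
    simp at hG0
  · intro v hv f hf
    obtain ⟨κ, hκ⟩ := hG _ hv (fun y => f y.1)
    refine ⟨fun p => if hp : p ∈ P then (κ ⟨p, hp⟩).1 else 0, ?_, ?_⟩
    · intro p hp
      simp only [dif_pos hp]
      exact (κ ⟨p, hp⟩).2
    · intro y
      have hz : ∀ i, i ∉ J → (fun i => if i ∈ J then y i else base) i = base := by
        intro i hi
        simp [hi]
      have h1 := congrFun hκ ⟨fun i => if i ∈ J then y i else base, hz⟩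
      rw [spanMap_apply] at h1
      have h2 : f (fun i => if i ∈ J then y i else base) = f y := by
        apply hf
        intro i hi
        simp [hi]
      simp only [h2] at h1
      rw [← h1, ← Finset.sum_coe_sort P
        (fun p => (∏ i ∈ c p, v p i (y i)) *
          (if hp : p ∈ P then (κ ⟨p, hp⟩).1 else 0) y)]
      refine Finset.sum_congr rfl fun p _ => ?_
      rw [dif_pos p.2]
      congr 1
      · refine Finset.prod_congr rfl fun i hi => ?_
        simp [hc p.1 p.2 hi]
      · apply (κ p).2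
        intro i hi
        simp [(Finset.mem_sdiff.1 hi).1]

end Pool.Agent.H21.HD

end

section

/-!
The real-number part of the slicing step.
-/

namespace Pool.Agent.H21.HD

open MvPolynomial
open scoped Classical

/-- `FF` decreases when the set grows -/
private lemma spanSplit_anti {ι : Type} (J : Finset ι) (lam : Finset ι → ℝ)
    (h0 : ∀ T, 0 ≤ lam T) (hpos : ∀ J' ⊂ J, 0 < FF lam J') (K : Finset ι) (hK : K ⊂ J) :
    ∀ n : ℕ, ∀ L : Finset ι, L ⊆ K → (K \ L).card = n → FF lam K ≤ FF lam L := by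
  intro n
  induction n with
  | zero =>
    intro L hL hc
    have h1 : K \ L = ∅ := Finset.card_eq_zero.mp hc
    have h2 : K ⊆ L := Finset.sdiff_eq_empty_iff_subset.mp h1
    rw [Finset.Subset.antisymm hL h2]
  | succ n ih =>
    intro L hL hc
    have hne : (K \ L).Nonempty := by
      rw [← Finset.card_pos, hc]; exact Nat.succ_pos n
    obtain ⟨x, hx⟩ := hne
    have hxK : x ∈ K := (Finset.mem_sdiff.mp hx).1
    have hxL : x ∉ L := (Finset.mem_sdiff.mp hx).2
    have hins : insert x L ⊆ K := Finset.insert_subset hxK hL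
    have hcard : (K \ insert x L).card = n := by
      have e1 := Finset.card_sdiff_add_card_eq_card hL
      have e2 := Finset.card_sdiff_add_card_eq_card hins
      rw [Finset.card_insert_of_notMem hxL] at e2
      omega
    have h1 := ih (insert x L) hins hcard
    have h2 := FF_rec lam (insert x L) x (Finset.mem_insert_self x L)
    rw [Finset.erase_insert hxL] at h2
    have h3 : 0 ≤ ∑ T ∈ subs (insert x L) x, lam T * FF lam (insert x L \ T) := by
      apply Finset.sum_nonneg
      intro T _
      apply mul_nonneg (h0 T)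
      apply le_of_lt
      apply hpos
      exact lt_of_le_of_lt (Finset.sdiff_subset.trans hins) hK
    linarith only [h1, h2, h3]

/-- Real-number part of the slicing step. If `FF lam` is positive on all proper subsets of `J`
and `FF lam J ≤ 0`, then the `w` slices can be distributed to the sets `T ∋ i`. -/
theorem span_split {ι : Type} (J : Finset ι) (i : ι) (hi : i ∈ J) (lam : Finset ι → ℝ)
    (h0 : ∀ T, 0 ≤ lam T) (hpos : ∀ J' ⊂ J, 0 < FF lam J') (hle : FF lam J ≤ 0)
    (η : ℝ) (hη : 0 < η) (w : ℕ) (hw : 4 / η ≤ w) :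
    ∃ (n : Finset ι → ℕ) (m : Finset ι → ℕ) (μ : Finset ι → ℝ),
      w ≤ ∑ T ∈ subs J i, n T ∧
      (∀ T ∈ subs J i, n T ≤ w) ∧
      (∀ T ∈ subs J i, 0 < n T → 0 < lam T) ∧
      (∀ T ∈ subs J i, 0 < μ T ∧ μ T ≤ 1) ∧
      (∀ T ∈ subs J i, FF lam (J.erase i) - μ T * FF lam (J \ T) ≤ 0) ∧
      (∀ T ∈ subs J i, (μ T + η / 2) * (w : ℝ) ^ (T.card - 1) ≤ m T) ∧
      (∀ T ∈ subs J i, 1 < T.card → (n T : ℝ) * m T ≤ (lam T + η) * (w : ℝ) ^ T.card) ∧
      (∀ T ∈ subs J i, T.card = 1 → (n T : ℝ) ≤ (lam T + η) * (w : ℝ)) := by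
  have hwη : 4 ≤ (w : ℝ) * η := by
    rw [div_le_iff₀ hη] at hw
    exact hw
  have hw0 : 0 < (w : ℝ) := by
    by_contra hcon
    push Not at hcon
    nlinarith only [hwη, hη, hcon]
  have hw1 : (1 : ℝ) ≤ w := by
    have : 0 < w := by exact_mod_cast hw0
    exact_mod_cast this
  have hE : 0 < FF lam (J.erase i) := hpos _ (Finset.erase_ssubset hi)
  have hD : ∀ T ∈ subs J i, 0 < FF lam (J \ T) := by
    intro T hT
    rw [mem_subs] at hT
    exact hpos _ (Finset.sdiff_ssubset hT.1 ⟨i, hT.2⟩)
  have hmono : ∀ T ∈ subs J i, FF lam (J.erase i) ≤ FF lam (J \ T) := by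
    intro T hT
    rw [mem_subs] at hT
    refine spanSplit_anti J lam h0 hpos (J.erase i) (Finset.erase_ssubset hi) _ (J \ T) ?_ rfl
    intro x hx
    rw [Finset.mem_sdiff] at hx
    rw [Finset.mem_erase]
    refine ⟨?_, hx.1⟩
    rintro rfl
    exact hx.2 hT.2
  set μ : Finset ι → ℝ := fun T => FF lam (J.erase i) / FF lam (J \ T) with hμ
  have hμ0 : ∀ T ∈ subs J i, 0 < μ T := fun T hT => div_pos hE (hD T hT)
  have hμ1 : ∀ T ∈ subs J i, μ T ≤ 1 := fun T hT => (div_le_one (hD T hT)).mpr (hmono T hT)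
  set y : Finset ι → ℝ := fun T => lam T / μ T with hy
  have hy0 : ∀ T ∈ subs J i, 0 ≤ y T := fun T hT => div_nonneg (h0 T) (hμ0 T hT).le
  have hyμ : ∀ T ∈ subs J i, y T * μ T = lam T := fun T hT =>
    div_mul_cancel₀ _ (hμ0 T hT).ne'
  have hsum : 1 ≤ ∑ T ∈ subs J i, y T := by
    have h1 := FF_rec lam J i hi
    have h2 : FF lam (J.erase i) ≤ ∑ T ∈ subs J i, lam T * FF lam (J \ T) := by linarith
    have h3 : ∑ T ∈ subs J i, y T =
        (∑ T ∈ subs J i, lam T * FF lam (J \ T)) / FF lam (J.erase i) := by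
      rw [Finset.sum_div]
      apply Finset.sum_congr rfl
      intro T hT
      have hd := (hD T hT).ne'
      have he := hE.ne'
      simp only [hy, hμ]
      field_simp
    rw [h3, one_le_div hE]
    exact h2
  set n : Finset ι → ℕ := fun T => min ⌈y T * w⌉₊ w with hn
  set m : Finset ι → ℕ := fun T => ⌈(μ T + η / 2) * (w : ℝ) ^ (T.card - 1)⌉₊ with hm
  have hnlt : ∀ T ∈ subs J i, (n T : ℝ) ≤ y T * w + 1 := by
    intro T hT
    have h1 : (n T : ℝ) ≤ (⌈y T * w⌉₊ : ℝ) := by
      exact_mod_cast min_le_left _ _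
    have h2 := Nat.ceil_lt_add_one (mul_nonneg (hy0 T hT) hw0.le)
    linarith
  have hnw : ∀ T, (n T : ℝ) ≤ w := by
    intro T
    exact_mod_cast min_le_right _ _
  refine ⟨n, m, μ, ?_, ?_, ?_, ?_, ?_, ?_, ?_, ?_⟩
  · by_cases hex : ∃ T ∈ subs J i, n T = w
    · obtain ⟨T, hT, hTw⟩ := hex
      calc w = n T := hTw.symm
        _ ≤ ∑ T ∈ subs J i, n T := Finset.single_le_sum (fun _ _ => Nat.zero_le _) hT
    · push Not at hex
      have h1 : ∀ T ∈ subs J i, y T * w ≤ (n T : ℝ) := by
        intro T hT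
        have h2 : n T = ⌈y T * w⌉₊ := by
          rcases min_choice ⌈y T * (w : ℝ)⌉₊ w with h | h
          · exact h
          · exact absurd h (hex T hT)
        rw [h2]
        exact Nat.le_ceil _
      have h3 : (w : ℝ) ≤ ((∑ T ∈ subs J i, n T : ℕ) : ℝ) := by
        push_cast
        calc (w : ℝ) = 1 * w := (one_mul _).symm
          _ ≤ (∑ T ∈ subs J i, y T) * w := mul_le_mul_of_nonneg_right hsum hw0.le
          _ = ∑ T ∈ subs J i, y T * w := Finset.sum_mul _ _ _
          _ ≤ ∑ T ∈ subs J i, (n T : ℝ) := Finset.sum_le_sum h1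
      exact_mod_cast h3
  · intro T _
    exact min_le_right _ _
  · intro T hT hpos'
    rcases (h0 T).lt_or_eq with h | h
    · exact h
    · exfalso
      have h1 : y T = 0 := by simp only [hy]; rw [← h]; simp
      have h2 : n T = 0 := by
        simp only [hn, h1]; simp
      omega
  · intro T hT
    exact ⟨hμ0 T hT, hμ1 T hT⟩
  · intro T hT
    have : μ T * FF lam (J \ T) = FF lam (J.erase i) := div_mul_cancel₀ _ (hD T hT).ne'
    rw [this, sub_self]
  · intro T _
    exact Nat.le_ceil _
  · intro T hT hc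
    obtain ⟨s, hs⟩ : ∃ s, T.card = s + 2 := ⟨T.card - 2, by omega⟩
    have e1 : T.card - 1 = s + 1 := by omega
    have hm1 : (m T : ℝ) ≤ (μ T + η / 2) * (w : ℝ) ^ (s + 1) + 1 := by
      have hnn : 0 ≤ (μ T + η / 2) * (w : ℝ) ^ (s + 1) := by
        have := (hμ0 T hT).le
        positivity
      have h2 := Nat.ceil_lt_add_one hnn
      simp only [hm, e1]
      linarith only [h2]
    have hn0 : (0 : ℝ) ≤ n T := Nat.cast_nonneg _
    have hP : (1 : ℝ) ≤ (w : ℝ) ^ s := one_le_pow₀ hw1
    rw [hs]
    set P := (w : ℝ) ^ s with hPdef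
    have eP1 : (w : ℝ) ^ (s + 1) = P * w := pow_succ _ _
    have eP2 : (w : ℝ) ^ (s + 2) = P * w * w := by rw [pow_succ, pow_succ]
    rw [eP1] at hm1
    rw [eP2]
    have hPw : 0 ≤ P * w := by positivity
    have hμnn := (hμ0 T hT).le
    have hstep1 : (n T : ℝ) * m T ≤ n T * ((μ T + η / 2) * (P * w) + 1) :=
      mul_le_mul_of_nonneg_left hm1 hn0
    have hstep2 : (n T : ℝ) * (μ T * (P * w)) ≤ (y T * w + 1) * (μ T * (P * w)) :=
      mul_le_mul_of_nonneg_right (hnlt T hT) (mul_nonneg hμnn hPw)
    have hstep3 : (n T : ℝ) * (η / 2 * (P * w) + 1) ≤ w * (η / 2 * (P * w) + 1) :=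
      mul_le_mul_of_nonneg_right (hnw T) (by positivity)
    have hstep4 : (y T * w + 1) * (μ T * (P * w)) = lam T * (P * w * w) + μ T * (P * w) := by
      rw [← hyμ T hT]; ring
    have hstep5 : μ T * (P * w) ≤ P * w := by
      have := mul_le_mul_of_nonneg_right (hμ1 T hT) hPw
      linarith only [this]
    have hstep6 : (w : ℝ) ≤ P * w := by nlinarith only [hP]
    have hstep7 : 2 * (P * w) ≤ η / 2 * (P * w * w) := by
      have := mul_le_mul_of_nonneg_left hwη hPw
      nlinarith only [this]
    nlinarith only [hstep1, hstep2, hstep3, hstep4, hstep5, hstep6, hstep7]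
  · intro T hT hc
    have hTi : T = {i} := by
      obtain ⟨a, ha⟩ := Finset.card_eq_one.mp hc
      rw [mem_subs] at hT
      have := hT.2
      rw [ha, Finset.mem_singleton] at this
      rw [ha, this]
    have hμT : μ T = 1 := by
      simp only [hμ]
      have : J \ T = J.erase i := by rw [hTi]; exact Finset.sdiff_singleton_eq_erase i J
      rw [this, div_self hE.ne']
    have hyT : y T = lam T := by
      have := hyμ T hT
      rw [hμT, mul_one] at this
      exact this
    have h1 := hnlt T hT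
    rw [hyT] at h1
    nlinarith only [hwη, h1]

end Pool.Agent.H21.HD

end

section

/-!
The slicing step for spanning.
-/

namespace Pool.Agent.H21.HD

open MvPolynomial
open scoped Classical

private lemma depOn_mono {ι : Type*} {B : ι → Type*} {T T' : Finset ι} {f : (∀ i, B i) → ℂ}
    (h : DepOn T f) (hT : T ⊆ T') : DepOn T' f :=
  fun x y hxy => h x y fun i hi => hxy i (hT hi)

private lemma depOn_update {ι A : Type*} {J : Finset ι} {i : ι} {f : (ι → A) → ℂ}
    (h : DepOn J f) (t : A) : DepOn (J.erase i) (fun y => f (Function.update y i t)) := by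
  intro x y hxy
  refine h _ _ fun k hk => ?_
  by_cases hki : k = i
  · subst hki; simp
  · rw [Function.update_of_ne hki, Function.update_of_ne hki]
    exact hxy k (Finset.mem_erase.2 ⟨hki, hk⟩)

/-- One slicing step. -/
theorem span_step {ι A α : Type} [Fintype ι] [Fintype A] [Nonempty A]
    (J : Finset ι) (i : ι) (hi : i ∈ J) (P : Finset α) (c : α → Finset ι)
    (hc : ∀ p ∈ P, c p ⊆ J) (s : α → A)
    (h : ∀ t : A, (∃ p ∈ P, c p = {i} ∧ s p = t) ∨
      ∃ v : α → ι → A → ℂ, SpanGood (J.erase i) (P.filter (fun p => i ∈ c p → s p = t))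
        (fun p => (c p).erase i) v) :
    ∃ v : α → ι → A → ℂ, SpanGood J P c v := by
  -- a polynomial for every slice
  have key : ∀ t : A, ∃ G : MvPolynomial (α × ι × A) ℂ, G ≠ 0 ∧ ∀ v : α → ι → A → ℂ,
      eval (fun x => v x.1 x.2.1 x.2.2) G ≠ 0 →
        SpanGood (J.erase i) (P.filter (fun p => i ∈ c p → s p = t)) (fun p => (c p).erase i) v := by
    intro t
    rcases h t with ⟨p₀, hp₀, hcp, hsp⟩ | ⟨v₀, hv₀⟩
    · refine ⟨1, one_ne_zero, fun v _ f hf => ?_⟩
      refine ⟨fun p y => if p = p₀ then f y else 0, ?_, ?_⟩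
      · intro p _
        by_cases hpp : p = p₀
        · subst hpp
          have h1 : J.erase i \ (c p).erase i = J.erase i := by
            rw [hcp]
            ext k
            simp
          simp only [if_true]
          show DepOn (J.erase i \ (c p).erase i) fun y => f y
          rw [h1]
          exact hf
        · intro x y _
          simp [hpp]
      · intro y
        rw [Finset.sum_eq_single p₀]
        · simp [hcp]
        · intro p _ hpp
          simp [hpp]
        · intro hno
          exact absurd (Finset.mem_filter.2 ⟨hp₀, fun _ => hsp⟩) hno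
    · exact spanGood_open (J.erase i) _ _ (by
        intro p hp
        exact Finset.erase_subset_erase i (hc p (Finset.mem_filter.1 hp).1)) v₀ hv₀
  choose G hG0 hG using key
  obtain ⟨x, hx⟩ := exists_common (Finset.univ : Finset A) G (fun t _ => hG0 t)
  set v0 : α → ι → A → ℂ := fun p k a => x (p, k, a) with hv0
  have hgood : ∀ t : A, SpanGood (J.erase i) (P.filter (fun p => i ∈ c p → s p = t))
      (fun p => (c p).erase i) v0 := by
    intro t
    refine hG t v0 ?_
    have h1 : (fun x : α × ι × A => v0 x.1 x.2.1 x.2.2) = x := by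
      funext z
      rfl
    rw [h1]
    exact hx t (Finset.mem_univ t)
  refine ⟨fun p k a => if k = i then (if a = s p then 1 else 0) else v0 p k a, ?_⟩
  intro f hf
  have hk : ∀ t : A, ∃ κ : α → (ι → A) → ℂ,
      (∀ p ∈ P.filter (fun p => i ∈ c p → s p = t), DepOn (J.erase i \ (c p).erase i) (κ p)) ∧
        ∀ y, f (Function.update y i t) = ∑ p ∈ P.filter (fun p => i ∈ c p → s p = t),
          (∏ k ∈ (c p).erase i, v0 p k (y k)) * κ p y :=
    fun t => hgood t _ (depOn_update hf t)
  choose κ hκ1 hκ2 using hk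
  refine ⟨fun p y => if i ∈ c p then κ (s p) p y else κ (y i) p y, ?_, ?_⟩
  · intro p hp
    have hsub : J.erase i \ (c p).erase i ⊆ J \ c p := by
      intro k hk
      simp only [Finset.mem_sdiff, Finset.mem_erase, not_and] at hk ⊢
      exact ⟨hk.1.2, fun hkc => hk.2 hk.1.1 hkc⟩
    by_cases hic : i ∈ c p
    · simp only [hic, if_true]
      exact depOn_mono (hκ1 (s p) p (Finset.mem_filter.2 ⟨hp, fun _ => rfl⟩)) hsub
    · simp only [hic, if_false]
      intro y z hyz
      have h1 : y i = z i := hyz i (Finset.mem_sdiff.2 ⟨hi, hic⟩)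
      show κ (y i) p y = κ (z i) p z
      rw [h1]
      exact hκ1 (z i) p (Finset.mem_filter.2 ⟨hp, fun h => absurd h hic⟩) y z
        fun k hk => hyz k (hsub hk)
  · intro y
    have h1 : f y = f (Function.update y i (y i)) := by rw [Function.update_eq_self]
    rw [h1, hκ2 (y i) y, Finset.sum_filter]
    refine Finset.sum_congr rfl fun p _ => ?_
    by_cases hic : i ∈ c p
    · have h2 : ∏ k ∈ c p, (if k = i then (if y k = s p then (1 : ℂ) else 0) else v0 p k (y k)) =
          (if y i = s p then 1 else 0) * ∏ k ∈ (c p).erase i, v0 p k (y k) := by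
        rw [← Finset.mul_prod_erase (c p) _ hic]
        simp only [if_true]
        congr 1
        refine Finset.prod_congr rfl fun k hk => ?_
        rw [if_neg (Finset.mem_erase.1 hk).1]
      rw [h2]
      by_cases hs : s p = y i
      · simp only [hic, hs, if_true, one_mul, forall_const]
      · have hs' : ¬ (y i = s p) := fun h => hs h.symm
        simp only [hic, hs, hs', if_false, zero_mul, forall_const]
    · have h2 : ∏ k ∈ c p, (if k = i then (if y k = s p then (1 : ℂ) else 0) else v0 p k (y k)) =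
          ∏ k ∈ (c p).erase i, v0 p k (y k) := by
        rw [Finset.erase_eq_of_notMem hic]
        refine Finset.prod_congr rfl fun k hk => ?_
        rw [if_neg]
        rintro rfl
        exact hic hk
      rw [h2]
      simp only [hic, false_imp_iff, if_true, if_false]

end Pool.Agent.H21.HD

end

section

/-!
# Module Layer: forms not involving a variable
-/

namespace Pool.Agent.H21.NX

open Finset MvPolynomial Pool.Agent.H18.Fat Pool.Agent.H18.Ex

/-- insertion of the value `c` at the coordinate `l` -/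
private def lins {α : Type} {n : ℕ} (l : Fin (n + 1)) (c : α) (a : Fin n → α) : Fin (n + 1) → α :=
  l.insertNth (α := fun _ => α) c a

private theorem lins_same {α : Type} {n : ℕ} (l : Fin (n + 1)) (c : α) (a : Fin n → α) :
    lins l c a l = c := by
  unfold lins
  simp

private theorem lins_succ {α : Type} {n : ℕ} (l : Fin (n + 1)) (c : α) (a : Fin n → α)
    (i : Fin n) : lins l c a (l.succAbove i) = a i := by
  unfold lins
  simp

private theorem lins_eta {α : Type} {n : ℕ} (l : Fin (n + 1)) (c : α) (a : Fin (n + 1) → α)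
    (h : a l = c) : lins l c (fun i => a (l.succAbove i)) = a := by
  funext i
  rcases Fin.eq_self_or_eq_succAbove l i with h1 | ⟨j, h1⟩
  · rw [h1, lins_same, h]
  · rw [h1, lins_succ]

private theorem lins_inj {α : Type} {n : ℕ} (l : Fin (n + 1)) (c : α) :
    Function.Injective (lins l c : (Fin n → α) → Fin (n + 1) → α) := by
  intro a b h
  funext i
  rw [← lins_succ l c a i, h, lins_succ]

private theorem lins_sum {n : ℕ} (l : Fin (n + 1)) (a : Fin n → ℕ) :
    ∑ i, lins l 0 a i = ∑ i, a i := by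
  rw [Fin.sum_univ_succAbove _ l, lins_same, zero_add]
  exact sum_congr rfl fun i _ => lins_succ l 0 a i

private theorem lins_tcr {n : ℕ} (l : Fin (n + 1)) (q : Fin n → ℂ) (a b : Fin n → ℕ) :
    tcr (lins l 1 q) (lins l 0 a) (lins l 0 b) = tcr q a b := by
  unfold tcr
  rw [Fin.prod_univ_succAbove _ l]
  simp only [lins_same, lins_succ]
  simp

/-- Forms not involving the variable `l`.  Positions: insert any value (say `1`) at the
coordinate `l` (`Fin.insertNth`).  For `a l = 0` the Taylor coefficients `tcr q a b` with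
`b l ≥ 1` are zero and those with `b l = 0` are the Taylor coefficients in the other variables
(`Fin.succAbove`, `Fin.prod_univ_succAbove`, `Fin.sum_univ_succAbove`). -/
theorem GI_layer {n σ : ℕ} {κ : Type} (l : Fin (n + 1)) (m : κ → ℕ)
    (h : GI (Sx (Fin n) σ) fun i => Kind.free (m i)) :
    GI ((Sx (Fin (n + 1)) σ).filter fun a => a l = 0) fun i => Kind.free (m i) := by
  obtain ⟨pos, hpos⟩ := h
  refine ⟨fun i => lins l 1 (pos i), fun f hf => ?_⟩
  have key : ∀ a ∈ Sx (Fin n) σ, f (lins l 0 a) = 0 := by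
    refine hpos (fun a => f (lins l 0 a)) fun i b hb => ?_
    have h1 := hf i (lins l 0 b) (by
      show ∑ j, lins l 0 b j < m i
      rw [lins_sum]
      exact hb)
    rw [← h1]
    refine sum_nbij (fun a => lins l 0 a) ?_ ?_ ?_ ?_
    · intro a ha
      rw [mem_filter, mem_Sx, lins_sum]
      exact ⟨mem_Sx.1 ha, lins_same _ _ _⟩
    · intro a _ a' _ haa
      exact lins_inj l 0 haa
    · intro a ha
      rw [mem_coe, mem_filter, mem_Sx] at ha
      refine ⟨fun j => a (l.succAbove j), ?_, lins_eta l 0 a ha.2⟩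
      rw [mem_coe, mem_Sx, ← ha.1, Fin.sum_univ_succAbove _ l, ha.2, zero_add]
    · intro a _
      show f (lins l 0 a) * tcr (pos i) a b =
        f (lins l 0 a) * tcr (lins l 1 (pos i)) (lins l 0 a) (lins l 0 b)
      rw [lins_tcr]
  intro a ha
  rw [mem_filter, mem_Sx] at ha
  have h2 := key (fun j => a (l.succAbove j)) (by
    rw [mem_Sx, ← ha.1, Fin.sum_univ_succAbove _ l, ha.2, zero_add])
  rwa [lins_eta l 0 a ha.2] at h2

end Pool.Agent.H21.NX

end
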