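import Pool.Agent.H94.LP5.M08
import Pool.Agent.H94.LP5.M17
import Pool.Agent.H94.LP5.M23
import Pool.Agent.H94.LP5.M29
import Pool.Agent.H94.LP5.M45

/-! The parts of this file: H21.HD.SpanT, H21.HD.SpanBlocks, H21.HD.SpanMain, H21.HD.Vanish, H21.HD.Upper. -/

section

/-!
Spanning by product functions.
-/

namespace Pool.Agent.H21.HD

open MvPolynomial
open scoped Classical

/-- The statement for fixed `j`, `η`, `W`. -/
private def SpanTQ (j : ℕ) (η : ℝ) (W : ℕ) : Prop :=
  ∀ (ι A α : Type) [Fintype ι] [Fintype A],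
    W ≤ Fintype.card A → ∀ (J : Finset ι), J.card = j → ∀ (lam : Finset ι → ℝ),
    (∀ T, 0 ≤ lam T) → (∃ J' ⊆ J, FF lam J' ≤ 0) →
    ∀ (P : Finset α) (c : α → Finset ι), (∀ p ∈ P, c p ⊆ J ∧ (c p).Nonempty) →
    (∀ T ⊆ J, T.Nonempty → 0 < lam T →
      (lam T + η) * (Fintype.card A : ℝ) ^ T.card ≤ (P.filter (fun p => c p = T)).card) →
    ∃ v : α → ι → A → ℂ, SpanGood J P c v

/-- Enlarging the set of coordinates. -/
private lemma spanGood_enlarge {ι A α : Type} [Nonempty A] {J' J : Finset ι} (hJ : J' ⊆ J)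
    {P : Finset α} {c : α → Finset ι} {v : α → ι → A → ℂ}
    (h : SpanGood J' (P.filter (fun p => c p ⊆ J')) c v) : SpanGood J P c v := by
  intro f hf
  obtain ⟨a₀⟩ := ‹Nonempty A›
  set r : (ι → A) → (ι → A) := fun y i => if i ∈ J \ J' then y i else a₀ with hr
  have hfy : ∀ z : ι → A, DepOn J' (fun x => f (fun i => if i ∈ J' then x i else z i)) := by
    intro z x x' hx
    show f (fun i => if i ∈ J' then x i else z i) = f (fun i => if i ∈ J' then x' i else z i)
    congr 1
    funext i
    by_cases hi : i ∈ J'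
    · simp only [hi, if_true]
      exact hx i hi
    · simp only [hi, if_false]
  choose κ hκ1 hκ2 using fun z : ι → A => h _ (hfy z)
  refine ⟨fun p y => if c p ⊆ J' then κ (r y) p y else 0, ?_, ?_⟩
  · intro p hp
    by_cases hcp : c p ⊆ J'
    · intro x y hxy
      have h1 : r x = r y := by
        funext i
        simp only [hr]
        by_cases hi : i ∈ J \ J'
        · simp only [hi, if_true]
          have h2 := Finset.mem_sdiff.1 hi
          exact hxy i (Finset.mem_sdiff.2 ⟨h2.1, fun h3 => h2.2 (hcp h3)⟩)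
        · simp only [hi, if_false]
      show (if c p ⊆ J' then κ (r x) p x else 0) = (if c p ⊆ J' then κ (r y) p y else 0)
      rw [if_pos hcp, if_pos hcp, h1]
      refine hκ1 (r y) p (Finset.mem_filter.2 ⟨hp, hcp⟩) x y fun i hi => hxy i ?_
      exact Finset.sdiff_subset_sdiff hJ le_rfl hi
    · intro x y _
      show (if c p ⊆ J' then κ (r x) p x else 0) = (if c p ⊆ J' then κ (r y) p y else 0)
      rw [if_neg hcp, if_neg hcp]
  · intro y
    have h1 : f y = f (fun i => if i ∈ J' then y i else r y i) := by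
      refine hf _ _ fun i hi => ?_
      by_cases hi' : i ∈ J'
      · simp only [hi', if_true]
      · have h2 : i ∈ J \ J' := Finset.mem_sdiff.2 ⟨hi, hi'⟩
        simp only [hi', if_false, hr, h2, if_true]
    rw [h1]
    have h3 := hκ2 (r y) y
    rw [h3, Finset.sum_filter]
    refine Finset.sum_congr rfl fun p _ => ?_
    by_cases hcp : c p ⊆ J'
    · simp only [hcp, if_true]
    · simp only [hcp, if_false, mul_zero]

/-- Distributing the slices to the types. -/
private lemma exists_tau {A T : Type*} [Fintype A] (S : Finset T) (n : T → ℕ)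
    (h : Fintype.card A ≤ ∑ t ∈ S, n t) :
    ∃ τ : A → T, (∀ a, τ a ∈ S) ∧
      ∀ t ∈ S, (Finset.univ.filter (fun a => τ a = t)).card ≤ n t := by
  classical
  set E : Finset ((_ : T) × ℕ) := S.sigma (fun t => Finset.range (n t)) with hE
  have hcard : Fintype.card A ≤ Fintype.card E := by
    rw [Fintype.card_coe, hE, Finset.card_sigma]
    simpa using h
  obtain ⟨e⟩ := Function.Embedding.nonempty_of_card_le hcard
  refine ⟨fun a => (e a).1.1, fun a => (Finset.mem_sigma.1 (e a).2).1, fun t _ => ?_⟩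
  have h1 : (Finset.univ.filter (fun a => (e a).1.1 = t)).card ≤ (Finset.range (n t)).card := by
    refine Finset.card_le_card_of_injOn (fun a => (e a).1.2) ?_ ?_
    · intro a ha
      have h2 := (Finset.mem_filter.1 (Finset.mem_coe.1 ha)).2
      have h3 := (Finset.mem_sigma.1 (e a).2).2
      rw [h2] at h3
      exact h3
    · intro a ha b hb hab
      have h2 := (Finset.mem_filter.1 (Finset.mem_coe.1 ha)).2
      have h3 := (Finset.mem_filter.1 (Finset.mem_coe.1 hb)).2
      apply e.injective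
      apply Subtype.ext
      exact Sigma.ext (h2.trans h3.symm) (heq_of_eq hab)
  simpa using h1

/-- Distributing the points of one type to the slices. -/
private lemma exists_fiber {α A : Type*} [Nonempty A] (m : ℕ) (F : Finset A) :
    ∀ Q : Finset α, F.card * m ≤ Q.card →
      ∃ s : α → A, ∀ t ∈ F, m ≤ (Q.filter (fun p => s p = t)).card := by
  classical
  induction F using Finset.induction_on with
  | empty =>
    intro Q _
    obtain ⟨a₀⟩ := ‹Nonempty A›
    exact ⟨fun _ => a₀, fun t ht => absurd ht (Finset.notMem_empty t)⟩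
  | insert a F ha ih =>
    intro Q hQ
    rw [Finset.card_insert_of_notMem ha, add_mul, one_mul] at hQ
    obtain ⟨Q1, hQ1, hc⟩ := Finset.exists_subset_card_eq (show m ≤ Q.card by omega)
    obtain ⟨s, hs⟩ := ih (Q \ Q1) (by
      rw [Finset.card_sdiff_of_subset hQ1, hc]
      omega)
    refine ⟨fun p => if p ∈ Q1 then a else s p, fun t ht => ?_⟩
    rcases Finset.mem_insert.1 ht with rfl | ht
    · rw [← hc]
      refine Finset.card_le_card fun p hp => ?_
      simp [hQ1 hp, hp]
    · refine (hs t ht).trans (Finset.card_le_card fun p hp => ?_)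
      obtain ⟨h1, h2⟩ := Finset.mem_filter.1 hp
      obtain ⟨h3, h4⟩ := Finset.mem_sdiff.1 h1
      simp [h3, h4, h2]

private lemma spanT_main (j : ℕ) (ih : ∀ j' < j, ∀ η : ℝ, 0 < η → ∃ W, SpanTQ j' η W)
    (η : ℝ) (hη : 0 < η) : ∃ W, SpanTQ j η W := by
  choose W hW using fun x : Fin j => ih x x.2 η hη
  obtain ⟨W2, hW2⟩ : ∃ W2, 0 < j → SpanTQ (j - 1) (η / 2) W2 := by
    by_cases hj : 0 < j
    · obtain ⟨W2, h⟩ := ih (j - 1) (by omega) (η / 2) (by positivity)
      exact ⟨W2, fun _ => h⟩
    · exact ⟨0, fun h => absurd h hj⟩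
  refine ⟨Finset.univ.sup W + W2 + ⌈4 / η⌉₊ + 1, ?_⟩
  intro ι A α _ _ hA J hJ lam hlam hex P c hP hcount
  have hAne : Nonempty A := Fintype.card_pos_iff.1 (by omega)
  by_cases hprop : ∃ J' ⊂ J, FF lam J' ≤ 0
  · -- a proper subset
    obtain ⟨J', hJ', hFF⟩ := hprop
    have hlt : J'.card < j := hJ ▸ Finset.card_lt_card hJ'
    have h1 : SpanTQ J'.card η (W ⟨J'.card, hlt⟩) := hW ⟨J'.card, hlt⟩
    have h2 : W ⟨J'.card, hlt⟩ ≤ Fintype.card A := by
      have := Finset.le_sup (f := W) (Finset.mem_univ (⟨J'.card, hlt⟩ : Fin j))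
      omega
    obtain ⟨v, hv⟩ := h1 ι A α h2 J' rfl lam hlam ⟨J', le_rfl, hFF⟩
      (P.filter (fun p => c p ⊆ J')) c
      (by
        intro p hp
        obtain ⟨h3, h4⟩ := Finset.mem_filter.1 hp
        exact ⟨h4, (hP p h3).2⟩)
      (by
        intro T hT hTne hTl
        refine (hcount T (hT.trans hJ'.1) hTne hTl).trans ?_
        norm_cast
        refine Finset.card_le_card fun p hp => ?_
        obtain ⟨h3, h4⟩ := Finset.mem_filter.1 hp
        exact Finset.mem_filter.2 ⟨Finset.mem_filter.2 ⟨h3, h4 ▸ hT⟩, h4⟩)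
    exact ⟨v, spanGood_enlarge hJ'.1 hv⟩
  · push Not at hprop
    obtain ⟨J', hJ', hFF⟩ := hex
    have hJJ : J' = J := by
      by_contra hne
      exact absurd hFF (not_le.2 (hprop J' (Finset.ssubset_iff_subset_ne.2 ⟨hJ', hne⟩)))
    subst hJJ
    have hJne : J'.Nonempty := by
      rw [Finset.nonempty_iff_ne_empty]
      rintro rfl
      rw [FF_empty] at hFF
      linarith
    obtain ⟨i, hi⟩ := hJne
    have hjpos : 0 < j := by
      rw [← hJ]
      exact Finset.card_pos.2 ⟨i, hi⟩
    have hw : 4 / η ≤ (Fintype.card A : ℝ) := by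
      refine (Nat.le_ceil (4 / η)).trans ?_
      exact_mod_cast (show ⌈4 / η⌉₊ ≤ Fintype.card A by omega)
    obtain ⟨n, m, μ, hn1, hn2, hn3, hμ, hFFμ, hm, hnm, hn4⟩ :=
      span_split J' i hi lam hlam hprop hFF η hη (Fintype.card A) hw
    obtain ⟨τ, hτ1, hτ2⟩ := exists_tau (subs J' i) n hn1
    -- the points of type `T`
    have hfib : ∀ T : Finset ι, ∃ s : α → A, ∀ t : A, τ t = T →
        (if T.card = 1 then 1 else m T) ≤
          ((P.filter (fun p => c p = T)).filter (fun p => s p = t)).card := by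
      intro T
      by_cases hT : ∃ t, τ t = T
      · obtain ⟨t₀, ht₀⟩ := hT
        have hTs : T ∈ subs J' i := ht₀ ▸ hτ1 t₀
        have hTJ := (mem_subs.1 hTs).1
        have hiT := (mem_subs.1 hTs).2
        set F : Finset A := Finset.univ.filter (fun a => τ a = T) with hF
        have hFn : F.card ≤ n T := by
          have h1 := hτ2 T hTs
          convert h1
        have hFpos : 0 < F.card := Finset.card_pos.2 ⟨t₀, by simp [hF, ht₀]⟩
        have hlT : 0 < lam T := hn3 T hTs (by omega)
        have hc := hcount T hTJ ⟨i, hiT⟩ hlT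
        have hle : F.card * (if T.card = 1 then 1 else m T) ≤
            (P.filter (fun p => c p = T)).card := by
          by_cases hT1 : T.card = 1
          · simp only [hT1, if_true, mul_one]
            have h1 := hn4 T hTs hT1
            rw [hT1, pow_one] at hc
            have h2 : (n T : ℝ) ≤ ((P.filter (fun p => c p = T)).card : ℝ) := h1.trans hc
            exact hFn.trans (by exact_mod_cast h2)
          · simp only [hT1, if_false]
            have hTc : 1 < T.card := by
              have := Finset.card_pos.2 ⟨i, hiT⟩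
              omega
            have h1 := hnm T hTs hTc
            have h2 : (n T : ℝ) * m T ≤ ((P.filter (fun p => c p = T)).card : ℝ) := h1.trans hc
            refine (Nat.mul_le_mul_right (m T) hFn).trans ?_
            exact_mod_cast h2
        obtain ⟨s, hs⟩ := exists_fiber (if T.card = 1 then 1 else m T) F
          (P.filter (fun p => c p = T)) hle
        exact ⟨s, fun t ht => hs t (by simp [hF, ht])⟩
      · obtain ⟨a₀⟩ := hAne
        exact ⟨fun _ => a₀, fun t ht => absurd ⟨t, ht⟩ hT⟩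
    choose s hs using hfib
    refine span_step J' i hi P c (fun p hp => (hP p hp).1) (fun p => s (c p) p) ?_
    intro t
    by_cases hfirst : ∃ p ∈ P, c p = {i} ∧ s (c p) p = t
    · exact Or.inl hfirst
    · right
      set T := τ t with hT
      have hTs : T ∈ subs J' i := hτ1 t
      have hTJ := (mem_subs.1 hTs).1
      have hiT := (mem_subs.1 hTs).2
      have hTc : T.card ≠ 1 := by
        intro hT1
        have h1 := hs T t rfl
        rw [if_pos hT1] at h1
        obtain ⟨p, hp⟩ := Finset.card_pos.1 (lt_of_lt_of_le one_pos h1)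
        obtain ⟨h2, h3⟩ := Finset.mem_filter.1 hp
        obtain ⟨h4, h5⟩ := Finset.mem_filter.1 h2
        obtain ⟨k, hk⟩ := Finset.card_eq_one.1 hT1
        have hki : k = i := by
          rw [hk, Finset.mem_singleton] at hiT
          exact hiT.symm
        exact hfirst ⟨p, h4, by rw [h5, hk, hki], by rw [h5]; exact h3⟩
      have hTc' : 1 < T.card := by
        have := Finset.card_pos.2 ⟨i, hiT⟩
        omega
      have hTe : (T.erase i).Nonempty := by
        rw [← Finset.card_pos, Finset.card_erase_of_mem hiT]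
        omega
      set lam' : Finset ι → ℝ := fun S => if S = T.erase i then lam S + μ T else lam S with hlam'
      have hFF' : FF lam' (J'.erase i) = FF lam (J'.erase i) - μ T * FF lam (J' \ T) := by
        rw [FF_add (lam := lam) (lam' := lam') (J'.erase i) (T.erase i) hTe
          (Finset.erase_subset_erase i hTJ) (μ T) (by simp [hlam'])
          (fun S hS => by simp [hlam', hS])]
        congr 3
        ext k
        simp only [Finset.mem_sdiff, Finset.mem_erase, not_and]
        constructor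
        · rintro ⟨⟨h1, h2⟩, h3⟩
          exact ⟨h2, h3 h1⟩
        · rintro ⟨h1, h2⟩
          exact ⟨⟨fun h => h2 (h ▸ hiT), h1⟩, fun _ => h2⟩
      have hcJ : (J'.erase i).card = j - 1 := by rw [Finset.card_erase_of_mem hi, hJ]
      refine hW2 hjpos ι A α (by omega) (J'.erase i) hcJ lam' ?_
        ⟨J'.erase i, le_rfl, by rw [hFF']; exact hFFμ T hTs⟩ _ _ ?_ ?_
      · intro S
        simp only [hlam']
        split_ifs
        · have := (hμ T hTs).1
          have := hlam S
          linarith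
        · exact hlam S
      · intro p hp
        obtain ⟨h1, h2⟩ := Finset.mem_filter.1 hp
        refine ⟨Finset.erase_subset_erase i (hP p h1).1, ?_⟩
        by_cases hic : i ∈ c p
        · by_contra hne
          rw [Finset.not_nonempty_iff_eq_empty, Finset.erase_eq_empty_iff] at hne
          rcases hne with h3 | h3
          · rw [h3] at hic
            exact absurd hic (Finset.notMem_empty i)
          · exact hfirst ⟨p, h1, h3, h2 hic⟩
        · rw [Finset.erase_eq_of_notMem hic]
          exact (hP p h1).2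
      · intro S hS hSne hSl
        have hiS : i ∉ S := fun h => Finset.notMem_erase i J' (hS h)
        have hSJ : S ⊆ J' := hS.trans (Finset.erase_subset i J')
        have hApos : (0 : ℝ) ≤ (Fintype.card A : ℝ) ^ S.card := by positivity
        -- the two kinds of points
        have hA1 : P.filter (fun p => c p = S) ⊆
            (P.filter (fun p => i ∈ c p → s (c p) p = t)).filter
              (fun p => (c p).erase i = S) := by
          intro p hp
          obtain ⟨h1, h2⟩ := Finset.mem_filter.1 hp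
          refine Finset.mem_filter.2 ⟨Finset.mem_filter.2 ⟨h1, fun h => ?_⟩, ?_⟩
          · rw [h2] at h
            exact absurd h hiS
          · rw [h2, Finset.erase_eq_of_notMem hiS]
        have hcS : 0 < lam S → (lam S + η) * (Fintype.card A : ℝ) ^ S.card ≤
            ((P.filter (fun p => c p = S)).card : ℝ) := hcount S hSJ hSne
        have hcS' : lam S * (Fintype.card A : ℝ) ^ S.card ≤
            ((P.filter (fun p => c p = S)).card : ℝ) := by
          rcases eq_or_lt_of_le (hlam S) with h0 | h0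
          · rw [← h0, zero_mul]
            positivity
          · refine le_trans ?_ (hcS h0)
            exact mul_le_mul_of_nonneg_right (by linarith) hApos
        by_cases hST : S = T.erase i
        · have hl : lam' S = lam S + μ T := by simp [hlam', hST]
          rw [hl]
          have hins : insert i S = T := by rw [hST, Finset.insert_erase hiT]
          have hScard : T.card - 1 = S.card := by
            rw [hST, Finset.card_erase_of_mem hiT]
          have h1 := hs T t rfl
          rw [if_neg hTc] at h1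
          have h2 := hm T hTs
          rw [hScard] at h2
          have hB1 : (P.filter (fun p => c p = T)).filter (fun p => s T p = t) ⊆
              (P.filter (fun p => i ∈ c p → s (c p) p = t)).filter
                (fun p => (c p).erase i = S) := by
            intro p hp
            obtain ⟨h3, h4⟩ := Finset.mem_filter.1 hp
            obtain ⟨h5, h6⟩ := Finset.mem_filter.1 h3
            refine Finset.mem_filter.2 ⟨Finset.mem_filter.2 ⟨h5, fun _ => ?_⟩, ?_⟩
            · rw [h6]; exact h4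
            · rw [h6, hST]
          have hdisj : Disjoint (P.filter (fun p => c p = S))
              ((P.filter (fun p => c p = T)).filter (fun p => s T p = t)) := by
            rw [Finset.disjoint_left]
            intro p hp hp'
            have h3 := (Finset.mem_filter.1 hp).2
            have h4 := (Finset.mem_filter.1 (Finset.mem_filter.1 hp').1).2
            rw [h3] at h4
            rw [h4] at hiS
            exact hiS hiT
          have h3 := Finset.card_le_card (Finset.union_subset hA1 hB1)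
          rw [Finset.card_union_of_disjoint hdisj] at h3
          have h4 : ((P.filter (fun p => c p = S)).card : ℝ) +
              (((P.filter (fun p => c p = T)).filter (fun p => s T p = t)).card : ℝ) ≤
              (((P.filter (fun p => i ∈ c p → s (c p) p = t)).filter
                (fun p => (c p).erase i = S)).card : ℝ) := by exact_mod_cast h3
          have h5 : (m T : ℝ) ≤
              (((P.filter (fun p => c p = T)).filter (fun p => s T p = t)).card : ℝ) := by
            exact_mod_cast h1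
          refine le_trans ?_ h4
          have h6 : (lam S + μ T + η / 2) * (Fintype.card A : ℝ) ^ S.card =
              lam S * (Fintype.card A : ℝ) ^ S.card +
                (μ T + η / 2) * (Fintype.card A : ℝ) ^ S.card := by ring
          rw [h6]
          linarith
        · have hl : lam' S = lam S := by simp [hlam', hST]
          rw [hl] at hSl ⊢
          refine le_trans ?_ ((hcS hSl).trans ?_)
          · exact mul_le_mul_of_nonneg_right (by linarith) hApos
          · exact_mod_cast Finset.card_le_card hA1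

/-- Spanning outside the region of convergence. -/
theorem tensor_span (j : ℕ) : ∀ η : ℝ, 0 < η → ∃ W : ℕ, ∀ (ι A α : Type) [Fintype ι] [Fintype A],
    W ≤ Fintype.card A → ∀ (J : Finset ι), J.card = j → ∀ (lam : Finset ι → ℝ),
    (∀ T, 0 ≤ lam T) → (∃ J' ⊆ J, FF lam J' ≤ 0) →
    ∀ (P : Finset α) (c : α → Finset ι), (∀ p ∈ P, c p ⊆ J ∧ (c p).Nonempty) →
    (∀ T ⊆ J, T.Nonempty → 0 < lam T →
      (lam T + η) * (Fintype.card A : ℝ) ^ T.card ≤ (P.filter (fun p => c p = T)).card) →
    ∃ v : α → ι → A → ℂ, SpanGood J P c v := by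
  induction j using Nat.strong_induction_on with
  | _ j ih =>
    intro η hη
    exact spanT_main j (fun j' hj' η' hη' => ih j' hj' η' hη') η hη

end Pool.Agent.H21.HD

end

section

/-!
Spanning in blocks.
-/

namespace Pool.Agent.H21.HD

open MvPolynomial
open scoped Classical

/-- `powSpan` grows when the family is enlarged. -/
private lemma powSpan_inl {σ X α : Type*} [Fintype σ] (d : ℕ) (w₁ : X → σ → ℂ) (w₂ : α → σ → ℂ)
    (e₁ : X → ℕ) (e₂ : α → ℕ) :
    powSpan d w₁ e₁ ≤ powSpan d (Sum.elim w₁ w₂) (Sum.elim e₁ e₂) := by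
  apply Submodule.span_mono
  rintro F ⟨p, g, h1, h2, rfl⟩
  exact ⟨Sum.inl p, g, h1, h2, rfl⟩

/-- Spanning in `N * |A|` variables. -/
theorem span_blocks (d : ℕ) (η : ℝ) (hη : 0 < η) : ∃ W : ℕ, ∀ (A : Type) [Fintype A],
    W ≤ Fintype.card A → ∀ (N e₀ : ℕ), 2 ≤ e₀ → e₀ ≤ d → d ≤ N →
    ∀ (X : Type) [Fintype X],
    N.choose (e₀ - 1) * ((e₀ - 1) * Fintype.card A - 1 + e₀).choose e₀ ≤ Fintype.card X →
    ∀ (α : Type) [Fintype α] (c : α → Finset (Fin N)), (∀ p, (c p).Nonempty) →
    ∀ lam : ℕ → ℝ, (∀ i, 0 ≤ lam i) → (∃ j ≤ d, phi lam j ≤ 0) →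
    (∀ T : Finset (Fin N), T.Nonempty → T.card ≤ d → 0 < lam T.card →
      (lam T.card + η) * (Fintype.card A : ℝ) ^ T.card ≤
        (Finset.univ.filter (fun p => c p = T)).card) →
    ∃ (w : X ⊕ α → Fin N × A → ℂ),
      homogeneousSubmodule (Fin N × A) ℂ d ≤
        powSpan d w (Sum.elim (fun _ => e₀) (fun p => (c p).card)) := by
  obtain ⟨W₀, hW₀⟩ := tensor_span d η hη
  refine ⟨max W₀ 1, ?_⟩
  intro A _ hA N e₀ h2 hed hdN X _ hX α _ c hc lam hlam hphi hT
  have hA1 : 1 ≤ Fintype.card A := le_trans (le_max_right _ _) hA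
  haveI : Nonempty A := Fintype.card_pos_iff.1 hA1
  obtain ⟨j, hjd, hj⟩ := hphi
  -- the columns
  have hcol : ∀ J : Finset (Fin N), J.card = d → ∃ v : α → Fin N → A → ℂ,
      SpanGood J (Finset.univ.filter (fun p => c p ⊆ J)) c v := by
    intro J hJ
    refine hW₀ (Fin N) A α (le_trans (le_max_left _ _) hA) J hJ (fun T => lam T.card)
      (fun T => hlam _) ?_ _ c ?_ ?_
    · obtain ⟨J', hJ', hJ'c⟩ := Finset.exists_subset_card_eq (s := J) (n := j) (by omega)
      refine ⟨J', hJ', ?_⟩
      rw [FF_card lam J' (fun T => lam T.card) (fun T _ _ => rfl), hJ'c]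
      exact hj
    · intro p hp
      exact ⟨(Finset.mem_filter.1 hp).2, hc p⟩
    · intro T hTJ hTn hTl
      have h1 := hT T hTn (by rw [← hJ]; exact Finset.card_le_card hTJ) hTl
      refine h1.trans (le_of_eq ?_)
      congr 2
      ext p
      simp only [Finset.mem_filter, Finset.mem_univ, true_and]
      constructor
      · intro h
        exact ⟨by rw [h]; exact hTJ, h⟩
      · intro h
        exact h.2
  choose! vJ hvJ using hcol
  have hopen : ∀ J : Finset (Fin N), J.card = d → ∃ G : MvPolynomial (α × Fin N × A) ℂ, G ≠ 0 ∧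
      ∀ v : α → Fin N → A → ℂ, eval (fun x => v x.1 x.2.1 x.2.2) G ≠ 0 →
        SpanGood J (Finset.univ.filter (fun p => c p ⊆ J)) c v := by
    intro J hJ
    exact spanGood_open J _ c (fun p hp => (Finset.mem_filter.1 hp).2) (vJ J) (hvJ J hJ)
  choose! G hG0 hG using hopen
  obtain ⟨x, hx⟩ := exists_common (Finset.powersetCard d (Finset.univ : Finset (Fin N))) G
    (fun J hJ => hG0 J (Finset.mem_powersetCard.1 hJ).2)
  -- the killers
  obtain ⟨w₁, hw₁⟩ := exists_block_powers (N := N) (A := A) e₀ h2 X hX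
  refine ⟨Sum.elim w₁ (fun p => vecB (c p) (fun i a => x (p, i, a))), ?_⟩
  refine span_of_columns d _ _ ?_ c (fun p i a => x (p, i, a)) Sum.inr ?_ ?_
  · intro γ hγ hi
    refine nonsquarefree_of_blocks d e₀ h2 hed (by omega) _ _ ?_ γ hγ hi
    intro b hb F hF hFb
    exact powSpan_inl e₀ w₁ _ (fun _ => e₀) _ (hw₁ b hb F hF hFb)
  · intro p
    exact ⟨rfl, rfl⟩
  · intro J hJ
    refine ⟨Finset.univ.filter (fun p => c p ⊆ J), fun p hp => (Finset.mem_filter.1 hp).2, ?_⟩
    refine hG J hJ (fun p i a => x (p, i, a)) ?_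
    have h1 := hx J (Finset.mem_powersetCard.2 ⟨Finset.subset_univ J, hJ⟩)
    exact h1

end Pool.Agent.H21.HD

end

section

/-!
The spanning theorem.
-/

namespace Pool.Agent.H21.HD

open MvPolynomial
open scoped Classical

namespace SpanMainX

/-- Transport along an injection of index types. -/
lemma transport {σ P Y : Type} [Fintype σ] (d : ℕ) (e : P → ℕ) (e' : Y → ℕ) (ι : Y → P)
    (hι : Function.Injective ι) (he : ∀ y, e (ι y) = e' y) (w' : Y → σ → ℂ) :
    powSpan d w' e' ≤ powSpan d (Function.extend ι w' 0) e := by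
  unfold powSpan
  apply Submodule.span_mono
  rintro F ⟨y, g, h1, h2, h3⟩
  refine ⟨ι y, g, ?_, ?_, ?_⟩
  · rw [he]; exact h1
  · rw [he]; exact h2
  · rw [he, hι.extend_apply]; exact h3

lemma lin_single {σ : Type} [Fintype σ] (s : σ) :
    lin (Pi.single s (1 : ℂ)) = (X s : MvPolynomial σ ℂ) := by
  unfold lin
  rw [Finset.sum_eq_single s]
  · simp
  · intro t _ hts
    simp [Pi.single_eq_of_ne hts]
  · intro h
    exact absurd (Finset.mem_univ s) h

/-- The coordinate forms span. -/
lemma span_coord {σ : Type} [Fintype σ] (d : ℕ) (hd : 1 ≤ d) :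
    homogeneousSubmodule σ ℂ d ≤
      powSpan d (fun s : σ => (Pi.single s (1 : ℂ) : σ → ℂ)) (fun _ => 1) := by
  intro F hF
  rw [mem_homogeneousSubmodule] at hF
  rw [MvPolynomial.as_sum F]
  apply Submodule.sum_mem
  intro γ hγ
  have hdeg : γ.degree = d := by
    rw [Finsupp.degree_eq_weight_one]
    exact hF (mem_support_iff.1 hγ)
  have hs : ∃ s, γ s ≠ 0 := by
    by_contra hcon
    push Not at hcon
    have h0 : γ = 0 := by ext s; simp [hcon s]
    rw [h0] at hdeg
    simp at hdeg
    omega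
  obtain ⟨s, hs⟩ := hs
  have hle : Finsupp.single s 1 ≤ γ := by
    rw [Finsupp.single_le_iff]
    omega
  apply Submodule.subset_span
  refine ⟨s, monomial (γ - Finsupp.single s 1) (coeff γ F), hd, ?_, ?_⟩
  · apply isHomogeneous_monomial
    have h1 : (γ - Finsupp.single s 1).degree + (Finsupp.single s 1).degree = γ.degree := by
      rw [← map_add, tsub_add_cancel_of_le hle]
    rw [hdeg] at h1
    simp at h1
    show (γ - Finsupp.single s 1).degree = d - 1
    omega
  · rw [lin_single, pow_one, X, monomial_mul, tsub_add_cancel_of_le hle, mul_one]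

/-- Recursion of `phi` when only the first load is present. -/
lemma phi_one (lam : ℕ → ℝ) (d : ℕ) (h : ∀ i, 2 ≤ i → i ≤ d → lam i = 0) :
    ∀ j, j ≤ d → phi lam j = (1 - lam 1) ^ j := by
  intro j
  induction j with
  | zero => intro _; simp [phi]
  | succ j ih =>
    intro hj
    have ih' := ih (by omega)
    rw [phi, Finset.sum_eq_single (⟨0, by omega⟩ : Fin (j + 1))]
    · simp only [zero_add, Nat.choose_zero_right, Nat.cast_one, mul_one, Nat.sub_zero]
      rw [ih', pow_succ]
      ring
    · intro e _ he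
      have he0 : (e : ℕ) ≠ 0 := by
        intro h0
        apply he
        ext
        exact h0
      have : lam ((e : ℕ) + 1) = 0 := h _ (by omega) (by have := e.2; omega)
      rw [this]
      ring
    · intro hcon
      exact absurd (Finset.mem_univ _) hcon

/-- The first case. -/
lemma case_one (d : ℕ) (hd : 1 ≤ d) (η : ℝ) (hη : 0 < η) (r : ℕ)
    (P : Type) [Fintype P] (e : P → ℕ) (lam : ℕ → ℝ) (hlam : ∀ i, 0 ≤ lam i ∧ lam i ≤ 1)
    (hphi : ∃ j ≤ d, phi lam j ≤ 0) (h0 : ∀ i, 2 ≤ i → i ≤ d → lam i = 0)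
    (hcount : ∀ i, 1 ≤ i → i ≤ d → 0 < lam i → (lam i + η) * ((r : ℝ) + 1) ^ i / (i.factorial : ℝ) ≤
      (Finset.univ.filter (fun p => e p = i)).card) :
    ∃ w : P → Fin (r + 1) → ℂ, homogeneousSubmodule (Fin (r + 1)) ℂ d ≤ powSpan d w e := by
  obtain ⟨j, hj, hphij⟩ := hphi
  rw [phi_one lam d h0 j hj] at hphij
  have h1 := hlam 1
  have hl1 : lam 1 = 1 := by
    by_contra hne
    have hlt : lam 1 < 1 := lt_of_le_of_ne h1.2 hne
    have : 0 < (1 - lam 1) ^ j := pow_pos (by linarith only [hlt]) j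
    linarith only [hphij, this]
  have hc := hcount 1 le_rfl hd (by rw [hl1]; norm_num)
  rw [hl1] at hc
  simp only [pow_one, Nat.factorial_one, Nat.cast_one, div_one] at hc
  have hc2 : ((r + 1 : ℕ) : ℝ) ≤ ((Finset.univ.filter (fun p => e p = 1)).card : ℝ) := by
    refine le_trans ?_ hc
    push_cast
    have : (0 : ℝ) ≤ r := Nat.cast_nonneg r
    nlinarith only [hη]
  have hc3 : r + 1 ≤ (Finset.univ.filter (fun p => e p = 1)).card := by exact_mod_cast hc2
  have hcard : Fintype.card (Fin (r + 1)) ≤ Fintype.card {p : P // e p = 1} := by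
    rw [Fintype.card_fin, Fintype.card_subtype]
    exact hc3
  obtain ⟨ι⟩ := Function.Embedding.nonempty_of_card_le hcard
  have hinj : Function.Injective (fun s : Fin (r + 1) => (ι s).1) :=
    Subtype.val_injective.comp ι.injective
  exact ⟨_, (span_coord d hd).trans (transport d e (fun _ => 1) (fun s => (ι s).1) hinj
    (fun s => (ι s).2) _)⟩

lemma ceil_bounds (h r : ℕ) (hh : 1 ≤ h) :
    r + 1 ≤ ((r + h) / h) * h ∧ ((r + h) / h) * h ≤ r + h := by
  constructor
  · have := Nat.lt_div_mul_add (a := r + h) (b := h) (by omega)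
    omega
  · exact Nat.div_mul_le_self _ _

/-- The numerical estimate. -/
lemma num_est (d : ℕ) (η : ℝ) (hη : 0 < η) (h : ℕ) (hh : 1 ≤ h) (hηh : 4 ≤ η * h) (r : ℕ)
    (hr : (1 + η) * (h : ℝ) ^ (d + 1) * d ≤ (r : ℝ) + 1) (N : ℕ) (hN1 : r + 1 ≤ N * h)
    (hN2 : N * h ≤ r + h) (i : ℕ) (hi : 1 ≤ i) (hid : i ≤ d) (hiN : i ≤ N) (l : ℝ) (hl0 : 0 ≤ l)
    (hl1 : l ≤ 1) (n : ℕ) (hn : (l + η) * ((r : ℝ) + 1) ^ i / (i.factorial : ℝ) ≤ n) :
    (l + η / 4) * (h : ℝ) ^ i ≤ ((n : ℝ) / (N.choose i : ℝ)) - 2 ∧ N.choose i ≤ n := by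
  have hr1 : (0 : ℝ) < (r : ℝ) + 1 := by positivity
  have hh0 : (1 : ℝ) ≤ h := by exact_mod_cast hh
  have hNpos : 0 < N := by
    rcases Nat.eq_zero_or_pos N with h0 | h0
    · subst h0; omega
    · exact h0
  have hN0 : (0 : ℝ) < N := by exact_mod_cast hNpos
  have hC : 0 < N.choose i := Nat.choose_pos hiN
  have hC0 : (0 : ℝ) < (N.choose i : ℝ) := by exact_mod_cast hC
  have hN2' : (N : ℝ) * h ≤ r + h := by exact_mod_cast hN2
  -- t = (r+1)/N
  set t : ℝ := ((r : ℝ) + 1) / N with ht
  have ht0 : 0 < t := div_pos hr1 hN0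
  have hrh : (0 : ℝ) ≤ r := Nat.cast_nonneg r
  have ht1 : (h : ℝ) * (1 - h / ((r : ℝ) + 1)) ≤ t := by
    rw [ht, le_div_iff₀ hN0]
    have h1 : (h : ℝ) * (1 - h / ((r : ℝ) + 1)) * N = (1 - h / ((r : ℝ) + 1)) * (N * h) := by ring
    rw [h1]
    by_cases hneg : 0 ≤ 1 - (h : ℝ) / ((r : ℝ) + 1)
    · calc (1 - (h : ℝ) / ((r : ℝ) + 1)) * (N * h) ≤ (1 - (h : ℝ) / ((r : ℝ) + 1)) * (r + h) := by
            gcongr
        _ ≤ (r : ℝ) + 1 := by
            have : (1 - (h : ℝ) / ((r : ℝ) + 1)) * (r + h)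
                = (((r : ℝ) + 1 - h) * (r + h)) / ((r : ℝ) + 1) := by
              field_simp
            rw [this, div_le_iff₀ hr1]
            nlinarith only [hh0]
    · push Not at hneg
      have : (1 - (h : ℝ) / ((r : ℝ) + 1)) * (N * h) ≤ 0 :=
        mul_nonpos_of_nonpos_of_nonneg hneg.le (by positivity)
      linarith only [this]
  -- h/(r+1) ≤ 1
  have hd0 : (1 : ℝ) ≤ d := by exact_mod_cast (by omega : 1 ≤ d)
  have hpow1 : (1 : ℝ) ≤ (h : ℝ) ^ d := one_le_pow₀ hh0
  have hhr : (h : ℝ) ≤ (r : ℝ) + 1 := by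
    refine le_trans ?_ hr
    rw [pow_succ]
    have h2 : (1 : ℝ) ≤ (1 + η) := by linarith only [hη]
    calc (h : ℝ) = 1 * (1 * h) * 1 := by ring
      _ ≤ (1 + η) * ((h : ℝ) ^ d * h) * d := by gcongr
  have hfrac : (h : ℝ) / ((r : ℝ) + 1) ≤ 1 := by
    rw [div_le_one hr1]; exact hhr
  have hti : (h : ℝ) ^ i * (1 - i * (h / ((r : ℝ) + 1))) ≤ t ^ i := by
    have h3 : (1 : ℝ) + i * (-(h / ((r : ℝ) + 1))) ≤ (1 + (-(h / ((r : ℝ) + 1)))) ^ i :=
      one_add_mul_le_pow (by linarith only [hfrac]) i
    calc (h : ℝ) ^ i * (1 - i * (h / ((r : ℝ) + 1)))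
        = (h : ℝ) ^ i * (1 + i * (-(h / ((r : ℝ) + 1)))) := by ring
      _ ≤ (h : ℝ) ^ i * (1 + (-(h / ((r : ℝ) + 1)))) ^ i := by gcongr
      _ = ((h : ℝ) * (1 - h / ((r : ℝ) + 1))) ^ i := by rw [mul_pow]; ring
      _ ≤ t ^ i := by
          apply pow_le_pow_left₀ _ ht1
          apply mul_nonneg (by positivity)
          linarith only [hfrac]
  -- bound for the quotient
  have hfac : ((i.factorial : ℕ) : ℝ) * (N.choose i : ℝ) ≤ (N : ℝ) ^ i := by
    have := Nat.descFactorial_le_pow N i
    rw [Nat.descFactorial_eq_factorial_mul_choose] at this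
    exact_mod_cast this
  have hfac0 : (0 : ℝ) < ((i.factorial : ℕ) : ℝ) := by exact_mod_cast i.factorial_pos
  have hq : (l + η) * t ^ i ≤ (n : ℝ) / (N.choose i : ℝ) := by
    rw [le_div_iff₀ hC0]
    refine le_trans ?_ hn
    rw [ht, div_pow, le_div_iff₀ hfac0]
    have h4 : (l + η) * (((r : ℝ) + 1) ^ i / (N : ℝ) ^ i) * (N.choose i : ℝ) * (i.factorial : ℝ)
        = (l + η) * ((r : ℝ) + 1) ^ i * (((i.factorial : ℝ) * (N.choose i : ℝ)) / (N : ℝ) ^ i) := by
      ring
    rw [h4]
    have h5 : ((i.factorial : ℝ) * (N.choose i : ℝ)) / (N : ℝ) ^ i ≤ 1 := by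
      rw [div_le_one (by positivity)]
      exact hfac
    calc (l + η) * ((r : ℝ) + 1) ^ i * (((i.factorial : ℝ) * (N.choose i : ℝ)) / (N : ℝ) ^ i)
        ≤ (l + η) * ((r : ℝ) + 1) ^ i * 1 := by
          gcongr
      _ = _ := by ring
  have hpowle : (h : ℝ) ^ i ≤ (h : ℝ) ^ d := pow_le_pow_right₀ hh0 hid
  have herr : (l + η) * ((h : ℝ) ^ i * (i * (h / ((r : ℝ) + 1)))) ≤ 1 := by
    have hid' : (i : ℝ) ≤ d := by exact_mod_cast hid
    calc (l + η) * ((h : ℝ) ^ i * (i * (h / ((r : ℝ) + 1))))
        ≤ (1 + η) * ((h : ℝ) ^ d * (d * (h / ((r : ℝ) + 1)))) := by gcongr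
      _ = ((1 + η) * (h : ℝ) ^ (d + 1) * d) / ((r : ℝ) + 1) := by rw [pow_succ]; ring
      _ ≤ 1 := by rw [div_le_one hr1]; exact hr
  have hmain : (l + η) * (h : ℝ) ^ i - 1 ≤ (n : ℝ) / (N.choose i : ℝ) := by
    refine le_trans ?_ hq
    have h6 : (l + η) * ((h : ℝ) ^ i * (1 - i * (h / ((r : ℝ) + 1)))) ≤ (l + η) * t ^ i := by
      gcongr
    have h7 : (l + η) * ((h : ℝ) ^ i * (1 - i * (h / ((r : ℝ) + 1))))
        = (l + η) * (h : ℝ) ^ i - (l + η) * ((h : ℝ) ^ i * (i * (h / ((r : ℝ) + 1)))) := by ring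
    rw [h7] at h6
    linarith only [herr, h6]
  have hpi : (h : ℝ) ≤ (h : ℝ) ^ i := le_self_pow₀ hh0 (by omega)
  have hηi : 4 ≤ η * (h : ℝ) ^ i := le_trans hηh (by gcongr)
  constructor
  · have h8 : (l + η / 4) * (h : ℝ) ^ i + 2 ≤ (l + η) * (h : ℝ) ^ i - 1 := by nlinarith only [hηi]
    linarith only [hmain, hηi]
  · have h9 : (1 : ℝ) ≤ (n : ℝ) / (N.choose i : ℝ) := by
      refine le_trans ?_ hmain
      have : 0 ≤ l * (h : ℝ) ^ i := by positivity
      nlinarith only [hηi, this]
    rw [le_div_iff₀ hC0, one_mul] at h9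
    exact_mod_cast h9

/-- The number of killers is at most one per subset. -/
lemma killers (d h N e₀ : ℕ) (he₀ : 2 ≤ e₀) (hed : e₀ ≤ d)
    (hN : 2 ^ (d * h + d) * d + d ≤ N) :
    N.choose (e₀ - 1) * ((e₀ - 1) * h - 1 + e₀).choose e₀ ≤ N.choose e₀ := by
  set M := ((e₀ - 1) * h - 1 + e₀).choose e₀ with hM
  have hM1 : M ≤ 2 ^ (d * h + d) := by
    refine (Nat.choose_le_two_pow _ _).trans ?_
    apply Nat.pow_le_pow_right (by norm_num)
    have : (e₀ - 1) * h ≤ d * h := Nat.mul_le_mul_right h (by omega)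
    omega
  obtain ⟨k, rfl⟩ : ∃ k, e₀ = k + 1 := ⟨e₀ - 1, by omega⟩
  simp only [Nat.add_sub_cancel] at hM ⊢
  have h1 := Nat.choose_succ_right_eq N k
  have h2 : M * (k + 1) ≤ N - k := by
    have : M * (k + 1) ≤ 2 ^ (d * h + d) * d := Nat.mul_le_mul hM1 hed
    omega
  have h3 : N.choose k * M * (k + 1) ≤ N.choose (k + 1) * (k + 1) := by
    rw [h1, mul_assoc]
    exact Nat.mul_le_mul_left _ h2
  exact Nat.le_of_mul_le_mul_right h3 (by omega)

end SpanMainX

open SpanMainX in
/-- The spanning theorem. -/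
theorem span_main (d : ℕ) (hd : 1 ≤ d) (η : ℝ) (hη : 0 < η) : ∃ r₀ : ℕ, ∀ r : ℕ, r₀ ≤ r →
    ∀ (P : Type) [Fintype P] (e : P → ℕ) (lam : ℕ → ℝ), (∀ i, 0 ≤ lam i ∧ lam i ≤ 1) →
    (∃ j ≤ d, phi lam j ≤ 0) →
    (∀ i, 1 ≤ i → i ≤ d → 0 < lam i → (lam i + η) * ((r : ℝ) + 1) ^ i / (i.factorial : ℝ) ≤
      (Finset.univ.filter (fun p => e p = i)).card) →
    ∃ w : P → Fin (r + 1) → ℂ, homogeneousSubmodule (Fin (r + 1)) ℂ d ≤ powSpan d w e := by
  obtain ⟨W, hW⟩ := span_blocks d (η / 4) (by positivity)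
  obtain ⟨h, hWh, hh, hηh⟩ : ∃ h : ℕ, W ≤ h ∧ 1 ≤ h ∧ 4 ≤ η * h := by
    refine ⟨max W (max 1 ⌈4 / η⌉₊), le_max_left _ _, le_trans (le_max_left _ _) (le_max_right _ _), ?_⟩
    have h1 : 4 / η ≤ (⌈4 / η⌉₊ : ℝ) := Nat.le_ceil _
    have h2 : (⌈4 / η⌉₊ : ℝ) ≤ ((max W (max 1 ⌈4 / η⌉₊) : ℕ) : ℝ) := by
      exact_mod_cast le_trans (le_max_right _ _) (le_max_right _ _)
    have h3 : 4 / η ≤ ((max W (max 1 ⌈4 / η⌉₊) : ℕ) : ℝ) := h1.trans h2
    rw [div_le_iff₀ hη] at h3
    linarith only [h3]
  set M : ℕ := 2 ^ (d * h + d) * d + d with hM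
  refine ⟨max (h * M) ⌈(1 + η) * (h : ℝ) ^ (d + 1) * d⌉₊, ?_⟩
  intro r hr P _ e lam hlam hphi hcount
  by_cases hcase : ∃ e₀, 2 ≤ e₀ ∧ e₀ ≤ d ∧ 0 < lam e₀
  swap
  · apply case_one d hd η hη r P e lam hlam hphi _ hcount
    intro i h2 hid
    by_contra hne
    exact hcase ⟨i, h2, hid, lt_of_le_of_ne (hlam i).1 (Ne.symm hne)⟩
  obtain ⟨e₀, he2, hed, hle0⟩ := hcase
  set N : ℕ := (r + h) / h with hNdef
  obtain ⟨hN1, hN2⟩ := ceil_bounds h r hh
  rw [← hNdef] at hN1 hN2
  have hrM : h * M ≤ r := le_trans (le_max_left _ _) hr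
  have hrη : (1 + η) * (h : ℝ) ^ (d + 1) * d ≤ (r : ℝ) + 1 := by
    have h1 : ⌈(1 + η) * (h : ℝ) ^ (d + 1) * d⌉₊ ≤ r := le_trans (le_max_right _ _) hr
    have h2 := Nat.le_ceil ((1 + η) * (h : ℝ) ^ (d + 1) * d)
    have h3 : ((⌈(1 + η) * (h : ℝ) ^ (d + 1) * d⌉₊ : ℕ) : ℝ) ≤ (r : ℝ) := by exact_mod_cast h1
    linarith only [h2, h3]
  have hMN : M ≤ N := by
    have h1 : M * h ≤ N * h := by
      calc M * h = h * M := mul_comm _ _
        _ ≤ r := hrM
        _ ≤ N * h := by omega
    exact Nat.le_of_mul_le_mul_right h1 (by omega)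
  have hdN : d ≤ N := by omega
  -- numerical facts
  have hnum : ∀ i, 1 ≤ i → i ≤ d → 0 < lam i →
      (lam i + η / 4) * (h : ℝ) ^ i ≤
        (((Finset.univ.filter (fun p => e p = i)).card : ℝ) / (N.choose i : ℝ)) - 2 ∧
      N.choose i ≤ (Finset.univ.filter (fun p => e p = i)).card := by
    intro i h1 h2 h3
    exact num_est d η hη h hh hηh r hrη N hN1 hN2 i h1 h2 (by omega) (lam i) (hlam i).1 (hlam i).2 _
      (hcount i h1 h2 h3)
  have hkill := killers d h N e₀ he2 hed hMN
  set K1 : ℕ := N.choose (e₀ - 1) * ((e₀ - 1) * h - 1 + e₀).choose e₀ with hK1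
  -- the killers
  obtain ⟨K, hKsub, hKcard⟩ := Finset.exists_subset_card_eq
    (hkill.trans (hnum e₀ (by omega) hed hle0).2)
  -- the other points
  let α : Type := {p : P // p ∉ K ∧ 1 ≤ e p ∧ e p ≤ d}
  have hbal : ∀ i : ℕ, i ≤ N → ∃ f : {p : α // e p.1 = i} → {T : Finset (Fin N) // T.card = i},
      ∀ T, Fintype.card {p : α // e p.1 = i} / N.choose i ≤
        (Finset.univ.filter (fun x => f x = T)).card := by
    intro i hi
    have hne : Nonempty {T : Finset (Fin N) // T.card = i} := by
      obtain ⟨T, -, hT⟩ := Finset.exists_subset_card_eq (s := (Finset.univ : Finset (Fin N)))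
        (n := i) (by simpa using hi)
      exact ⟨⟨T, hT⟩⟩
    obtain ⟨f, hf⟩ := exists_balanced' (X := {p : α // e p.1 = i})
      (Y := {T : Finset (Fin N) // T.card = i})
    refine ⟨f, fun T => ?_⟩
    have hcY : Fintype.card {T : Finset (Fin N) // T.card = i} = N.choose i := by
      rw [Fintype.card_finset_len, Fintype.card_fin]
    rw [← hcY]
    convert hf T
  choose f hf using hbal
  have hαN : ∀ p : α, e p.1 ≤ N := fun p => le_trans p.2.2.2 hdN
  let c : α → Finset (Fin N) := fun p => (f (e p.1) (hαN p) ⟨p, rfl⟩).1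
  have hc : ∀ p, (c p).card = e p.1 := fun p => (f (e p.1) (hαN p) ⟨p, rfl⟩).2
  have hcne : ∀ p, (c p).Nonempty := by
    intro p
    rw [← Finset.card_pos, hc p]
    exact p.2.2.1
  have hcast : ∀ (i : ℕ) (hi : i ≤ N) (x : {p : α // e p.1 = i}), c x.1 = (f i hi x).1 := by
    rintro i hi ⟨p, hp⟩
    subst hp
    rfl
  have hcountα : ∀ i, 1 ≤ i → i ≤ d →
      (Finset.univ.filter (fun p : P => e p = i)).card ≤
        Fintype.card {p : α // e p.1 = i} + N.choose i := by
    intro i hi hid
    by_cases hie : i = e₀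
    · have h1 : (Finset.univ.filter (fun p : P => e p = i) \ K).card ≤
          Fintype.card {p : α // e p.1 = i} := by
        rw [← Fintype.card_coe]
        apply Fintype.card_le_of_injective
          (fun x : ↥(Finset.univ.filter (fun p : P => e p = i) \ K) =>
            (⟨⟨x.1, (Finset.mem_sdiff.1 x.2).2, by
              have := (Finset.mem_filter.1 (Finset.mem_sdiff.1 x.2).1).2
              omega, by
              have := (Finset.mem_filter.1 (Finset.mem_sdiff.1 x.2).1).2
              omega⟩, (Finset.mem_filter.1 (Finset.mem_sdiff.1 x.2).1).2⟩ :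
              {p : α // e p.1 = i}))
        intro x y hxy
        have := congrArg (fun z : {p : α // e p.1 = i} => z.1.1) hxy
        exact Subtype.ext this
      have h2 := Finset.le_card_sdiff K (Finset.univ.filter (fun p : P => e p = i))
      rw [hKcard] at h2
      rw [hie] at h1 h2 ⊢
      omega
    · have h1 : (Finset.univ.filter (fun p : P => e p = i)).card ≤
          Fintype.card {p : α // e p.1 = i} := by
        rw [← Fintype.card_coe]
        apply Fintype.card_le_of_injective
          (fun x : ↥(Finset.univ.filter (fun p : P => e p = i)) =>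
            (⟨⟨x.1, fun hxK => hie (by
              have h3 := (Finset.mem_filter.1 (hKsub hxK)).2
              have h4 := (Finset.mem_filter.1 x.2).2
              omega), by
              have := (Finset.mem_filter.1 x.2).2
              omega, by
              have := (Finset.mem_filter.1 x.2).2
              omega⟩, (Finset.mem_filter.1 x.2).2⟩ :
              {p : α // e p.1 = i}))
        intro x y hxy
        have := congrArg (fun z : {p : α // e p.1 = i} => z.1.1) hxy
        exact Subtype.ext this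
      omega
  have hT : ∀ T : Finset (Fin N), T.Nonempty → T.card ≤ d → 0 < lam T.card →
      (lam T.card + η / 4) * (Fintype.card (Fin h) : ℝ) ^ T.card ≤
        (Finset.univ.filter (fun p => c p = T)).card := by
    intro T hTne hTd hlT
    have hT1 : 1 ≤ T.card := Finset.card_pos.2 hTne
    have hTN : T.card ≤ N := by omega
    obtain ⟨hn1, -⟩ := hnum T.card hT1 hTd hlT
    rw [Fintype.card_fin]
    refine hn1.trans ?_
    have h1 := hcountα T.card hT1 hTd
    have h2 := hf T.card hTN ⟨T, rfl⟩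
    have h3 : (Finset.univ.filter (fun x => f T.card hTN x = ⟨T, rfl⟩)).card ≤
        (Finset.univ.filter (fun p : α => c p = T)).card := by
      apply Finset.card_le_card_of_injOn (fun x => x.1)
      · intro x hx
        simp only [Finset.coe_filter, Finset.mem_univ, true_and, Set.mem_ofPred_eq] at hx ⊢
        rw [hcast T.card hTN x, hx]
      · intro x _ y _ hxy
        exact Subtype.ext hxy
    have hC : 0 < N.choose T.card := Nat.choose_pos hTN
    have hC0 : (0 : ℝ) < (N.choose T.card : ℝ) := by exact_mod_cast hC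
    have h4 : ((Fintype.card {p : α // e p.1 = T.card} : ℕ) : ℝ) / (N.choose T.card : ℝ) - 1 ≤
        ((Fintype.card {p : α // e p.1 = T.card} / N.choose T.card : ℕ) : ℝ) := by
      have h5 := Nat.lt_div_mul_add (a := Fintype.card {p : α // e p.1 = T.card}) hC
      have h6 : ((Fintype.card {p : α // e p.1 = T.card} : ℕ) : ℝ) ≤
          ((Fintype.card {p : α // e p.1 = T.card} / N.choose T.card : ℕ) : ℝ) *
            (N.choose T.card : ℝ) + (N.choose T.card : ℝ) := by exact_mod_cast h5.le
      rw [sub_le_iff_le_add, div_le_iff₀ hC0]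
      linarith only [h6]
    have h7 : ((Finset.univ.filter (fun p : P => e p = T.card)).card : ℝ) / (N.choose T.card : ℝ) ≤
        ((Fintype.card {p : α // e p.1 = T.card} : ℕ) : ℝ) / (N.choose T.card : ℝ) + 1 := by
      rw [div_le_iff₀ hC0, add_mul, div_mul_cancel₀ _ hC0.ne', one_mul]
      exact_mod_cast h1
    have h8 : ((Fintype.card {p : α // e p.1 = T.card} / N.choose T.card : ℕ) : ℝ) ≤
        ((Finset.univ.filter (fun p : α => c p = T)).card : ℝ) := by
      exact_mod_cast h2.trans h3
    linarith only [h4, h7, h8]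
  obtain ⟨w', hw'⟩ := hW (Fin h) (by rw [Fintype.card_fin]; exact hWh) N e₀ he2 hed hdN
    {p : P // p ∈ K} (by rw [Fintype.card_fin, Fintype.card_coe, hKcard]) α c hcne lam
    (fun i => (hlam i).1) hphi hT
  -- restriction
  have hcardle : Fintype.card (Fin (r + 1)) ≤ Fintype.card (Fin N × Fin h) := by
    rw [Fintype.card_prod, Fintype.card_fin, Fintype.card_fin, Fintype.card_fin]
    exact hN1
  obtain ⟨g⟩ := Function.Embedding.nonempty_of_card_le hcardle
  have h5 := span_restrict (g : Fin (r + 1) → Fin N × Fin h) g.injective d w' _ hw'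
  let ι : {p : P // p ∈ K} ⊕ α → P := Sum.elim (fun x => x.1) (fun x => x.1)
  have hι : Function.Injective ι := by
    rintro (x | x) (y | y) hxy
    · exact congrArg Sum.inl (Subtype.ext hxy)
    · exfalso
      have h6 : x.1 = y.1 := hxy
      exact y.2.1 (h6 ▸ x.2)
    · exfalso
      have h6 : x.1 = y.1 := hxy
      exact x.2.1 (h6 ▸ y.2)
    · exact congrArg Sum.inr (Subtype.ext hxy)
  refine ⟨_, h5.trans (transport d e _ ι hι ?_ _)⟩
  rintro (x | x)
  · exact (Finset.mem_filter.1 (hKsub x.2)).2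
  · exact (hc x).symm

end Pool.Agent.H21.HD

end

section

/-!
Vanishing outside the region.
-/

namespace Pool.Agent.H21.HD

open MvPolynomial Pool.Agent.H18.Fat
open scoped Classical

namespace VanishX

/-- `phi` depends only on the loads `1, …, j`. -/
lemma phi_congr {κ κ' : ℕ → ℝ} : ∀ j : ℕ, (∀ i, 1 ≤ i → i ≤ j → κ i = κ' i) →
    phi κ j = phi κ' j := by
  intro j
  induction j using Nat.strong_induction_on with
  | _ j ih =>
    intro h
    cases j with
    | zero => rw [phi, phi]
    | succ j =>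
      rw [phi, phi, ih j (Nat.lt_succ_self j) fun i h1 h2 => h i h1 (by omega)]
      congr 1
      refine Finset.sum_congr rfl fun e _ => ?_
      have he := e.2
      rw [h (e + 1) (by omega) (by omega), ih (j - e) (by omega) fun i h1 h2 => h i h1 (by omega)]

lemma load_nonneg {P : Type} (r : ℕ) (e : P → ℕ) (I : Finset P) (i : ℕ) : 0 ≤ load r e I i := by
  unfold load
  positivity

/-- The case distinction: loads `lam ≤ 1` outside the region, dominated with a margin. -/
lemma exists_lam (j : ℕ) (η : ℝ) (hη : 0 < η) : ∃ η' : ℝ, 0 < η' ∧ ∃ r₀ : ℕ, ∀ r : ℕ, r₀ ≤ r →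
    ∀ (P : Type) (e : P → ℕ) (I : Finset P), (∀ i ∈ I, 1 ≤ e i) →
    (fro r e I j : ℝ) ≤ - (η * ((j + r).choose r : ℝ)) →
    ∃ lam : ℕ → ℝ, (∀ i, 0 ≤ lam i ∧ lam i ≤ 1) ∧ (∃ i ≤ j, phi lam i ≤ 0) ∧
      ∀ i, 1 ≤ i → i ≤ j → 0 < lam i → lam i + η' ≤ load r e I i := by
  obtain ⟨L, hL0, hL⟩ := phi_lipschitz j 2
  obtain ⟨r₀, hr₀⟩ := fro_asymp j 2 (η / 2) (by linarith)
  set η' : ℝ := min 1 (η / 2 / (L + 1)) with hη'
  have hL1 : 0 < L + 1 := by linarith
  have hη'0 : 0 < η' := lt_min one_pos (by positivity)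
  have hη'1 : η' ≤ 1 := min_le_left _ _
  have hη'2 : L * η' ≤ η / 2 := by
    have h1 : η' ≤ η / 2 / (L + 1) := min_le_right _ _
    calc L * η' ≤ (L + 1) * η' := by nlinarith
      _ ≤ (L + 1) * (η / 2 / (L + 1)) := mul_le_mul_of_nonneg_left h1 hL1.le
      _ = η / 2 := by field_simp
  refine ⟨η', hη'0, r₀, fun r hr P e I he hfro => ?_⟩
  by_cases hbig : ∃ i, 1 ≤ i ∧ i ≤ j ∧ 2 < load r e I i
  · obtain ⟨i, hi1, hi2, hi3⟩ := hbig
    refine ⟨fun t => if t = i then 1 else 0, ?_, ⟨i, hi2, (phi_single i hi1).le⟩, ?_⟩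
    · intro t
      simp only
      split_ifs <;> norm_num
    · intro t _ _ h3
      simp only at h3 ⊢
      split_ifs at h3 ⊢ with h4
      · subst h4
        linarith
      · exact absurd h3 (lt_irrefl _)
  · push Not at hbig
    set κ : ℕ → ℝ := fun i => if 1 ≤ i ∧ i ≤ j then load r e I i else 0 with hκ
    have hκ0 : ∀ i, 0 ≤ κ i ∧ κ i ≤ 2 := by
      intro i
      simp only [hκ]
      split_ifs with h1
      · exact ⟨load_nonneg r e I i, hbig i h1.1 h1.2⟩
      · norm_num
    have hκload : phi κ j = phi (load r e I) j := by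
      apply phi_congr
      intro i h1 h2
      simp only [hκ]
      rw [if_pos ⟨h1, h2⟩]
    have hs : (0 : ℝ) < ((j + r).choose r : ℝ) := by
      exact_mod_cast Nat.choose_pos (by omega)
    have h1 := hr₀ r hr P e I he (fun i h1 h2 => hbig i h1 h2)
    rw [← hκload] at h1
    have h2 : phi κ j ≤ - (η / 2) := by
      have h3 := (abs_le.1 h1).1
      have h4 : phi κ j * ((j + r).choose r : ℝ) ≤ - (η / 2) * ((j + r).choose r : ℝ) := by
        linarith
      exact le_of_mul_le_mul_right h4 hs
    set lam₀ : ℕ → ℝ := fun i => max (κ i - η') 0 with hlam₀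
    have hlam₀b : ∀ i, 0 ≤ lam₀ i ∧ lam₀ i ≤ 2 := by
      intro i
      have := hκ0 i
      refine ⟨le_max_right _ _, max_le (by linarith) (by norm_num)⟩
    have hdiff : ∀ i, |κ i - lam₀ i| ≤ η' := by
      intro i
      have := hκ0 i
      simp only [hlam₀]
      rcases le_total (κ i - η') 0 with h3 | h3
      · rw [max_eq_right h3, abs_le]
        constructor <;> linarith
      · rw [max_eq_left h3, abs_le]
        constructor <;> linarith
    have h3 := hL κ lam₀ hκ0 hlam₀b η' hdiff
    have h4 : phi lam₀ j ≤ 0 := by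
      have h5 := (abs_le.1 h3).1
      linarith
    obtain ⟨i, hi, h5⟩ := phi_cap j lam₀ (fun i => (hlam₀b i).1) ⟨j, le_rfl, h4⟩
    refine ⟨fun i => min (lam₀ i) 1, fun i => ⟨le_min (hlam₀b i).1 zero_le_one, min_le_right _ _⟩,
      ⟨i, hi, h5⟩, ?_⟩
    intro t ht1 ht2 ht3
    simp only at ht3 ⊢
    have h6 : 0 < lam₀ t := lt_of_lt_of_le ht3 (min_le_left _ _)
    have h7 : lam₀ t = κ t - η' := by
      simp only [hlam₀] at h6 ⊢
      rcases le_total (κ t - η') 0 with h8 | h8
      · rw [max_eq_right h8] at h6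
        exact absurd h6 (lt_irrefl _)
      · exact max_eq_left h8
    have h8 : κ t = load r e I t := by
      simp only [hκ]
      rw [if_pos ⟨ht1, ht2⟩]
    have h9 : min (lam₀ t) 1 ≤ lam₀ t := min_le_left _ _
    linarith

end VanishX

open VanishX

/-- Outside the region no form vanishes at the fat points. -/
theorem vanish_general (j d : ℕ) (hjd : j ≤ d) (η : ℝ) (hη : 0 < η) : ∃ r₀ : ℕ, ∀ r : ℕ, r₀ ≤ r →
    ∀ (k : ℕ) (e : Fin k → ℕ), (∀ i, 1 ≤ e i) → ∀ I : Finset (Fin k),
    (fro r e I j : ℝ) ≤ - (η * ((j + r).choose r : ℝ)) →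
    ForGeneralPoints r k fun p =>
      Module.finrank ℂ (fatForms r d p (fun i => if i ∈ I then d + 1 - e i else 0)) = 0 := by
  rcases Nat.eq_zero_or_pos j with hj0 | hj1
  · -- degree zero
    subst hj0
    refine ⟨0, fun r _ k e he I hfro => ?_⟩
    exfalso
    have h1 : fro r e I 0 = 1 := by
      unfold fro
      rw [Finset.sum_eq_single ∅]
      · simp
      · intro T hT hne
        obtain ⟨i, hi⟩ := Finset.nonempty_iff_ne_empty.2 hne
        rw [if_neg, mul_zero]
        have h2 : e i ≤ ∑ i ∈ T, e i := Finset.single_le_sum (fun _ _ => Nat.zero_le _) hi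
        have h3 := he i
        omega
      · intro h2
        exact absurd (Finset.empty_mem_powerset I) h2
    rw [h1] at hfro
    have h2 : (0 : ℝ) ≤ η * ((0 + r).choose r : ℝ) := by positivity
    norm_num at hfro
    linarith
  obtain ⟨η', hη', r₁, h₁⟩ := exists_lam j η hη
  obtain ⟨r₂, h₂⟩ := span_main j hj1 η' hη'
  refine ⟨max r₁ r₂, fun r hr k e he I hfro => ?_⟩
  obtain ⟨lam, hlam, hphi, hload⟩ := h₁ r ((le_max_left _ _).trans hr) (Fin k) e I
    (fun i _ => he i) hfro
  obtain ⟨w, hw⟩ := h₂ r ((le_max_right _ _).trans hr) {i : Fin k // i ∈ I} (fun i => e i.1) lam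
    hlam hphi (by
      intro i hi1 hi2 hi3
      have h3 := hload i hi1 hi2 hi3
      have hr1 : (0 : ℝ) < ((r : ℝ) + 1) ^ i := by positivity
      have hf : (0 : ℝ) < (i.factorial : ℝ) := by exact_mod_cast i.factorial_pos
      have hcard : ((Finset.univ.filter (fun p : {i : Fin k // i ∈ I} => e p.1 = i)).card : ℝ) =
          ((I.filter (fun p => e p = i)).card : ℝ) := by
        congr 1
        rw [← Finset.card_map (Function.Embedding.subtype _)]
        congr 1
        ext x
        simp only [Finset.mem_map, Finset.mem_filter, Finset.mem_univ, true_and,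
          Function.Embedding.subtype_apply, Subtype.exists, exists_and_right, exists_eq_right]
        constructor
        · rintro ⟨h4, h5⟩
          exact ⟨h4, h5⟩
        · rintro ⟨h4, h5⟩
          exact ⟨h4, h5⟩
      rw [hcard]
      unfold load at h3
      rw [le_div_iff₀ hr1] at h3
      rw [div_le_iff₀ hf]
      linarith)
  -- the special points
  let p₀ : Fin k → Fin (r + 1) → ℂ := fun i => if h : i ∈ I then w ⟨i, h⟩ else 0
  have h4 : homogeneousSubmodule (Fin (r + 1)) ℂ d ≤
      powSpan d p₀ (fun i => d + 1 - (if i ∈ I then d + 1 - e i else 0)) := by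
    refine (powSpan_up j d hjd w _ hw).trans ?_
    -- points with exponent larger than `d` do not contribute
    unfold powSpan
    apply Submodule.span_mono
    rintro F ⟨p, g, hp, hg, rfl⟩
    simp only at hp hg ⊢
    have he1 := he p.1
    have h5 : d + 1 - (if p.1 ∈ I then d + 1 - e p.1 else 0) = e p.1 := by
      rw [if_pos p.2]
      omega
    have h6 : p₀ p.1 = w p := by
      simp only [p₀]
      rw [dif_pos p.2]
    refine ⟨p.1, g, ?_, ?_, ?_⟩
    · simp only [h5]; exact hp
    · simp only [h5]; exact hg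
    · simp only [h5, h6]
  have h5 := fat_eq_bot_of_span d p₀ _ h4
  refine (general_finrank_le d p₀ (fun i => if i ∈ I then d + 1 - e i else 0)).mono
    fun p hp => ?_
  rw [h5] at hp
  exact Nat.le_zero.1 hp

end Pool.Agent.H21.HD

end

section

/-!
Upper bound.
-/

namespace Pool.Agent.H21.HD

open MvPolynomial Pool.Agent.H18.Fat
open scoped Classical

namespace UpperX

lemma exists_point {r k : ℕ} {P : (Fin k → Fin (r + 1) → ℂ) → Prop}
    (h : ForGeneralPoints r k P) : ∃ p, P p := by
  obtain ⟨G, hG, hG'⟩ := h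
  obtain ⟨x, hx⟩ := exists_common {0} (fun _ => G) (by simpa using hG)
  refine ⟨fun i j => x (i, j), hG' _ ?_⟩
  have := hx 0 (Finset.mem_singleton_self 0)
  simpa using this

end UpperX

open UpperX

/-- Upper bound. -/
theorem upper_general (d : ℕ) (η : ℝ) (hη : 0 < η) : ∃ r₀ : ℕ, ∀ r : ℕ, r₀ ≤ r →
    ∀ (k : ℕ) (e : Fin k → ℕ), (∀ i, 1 ≤ e i) → ∀ I : Finset (Fin k),
    0 ≤ (fro r e I d : ℝ) + η * ((d + r).choose r : ℝ) →
    ForGeneralPoints r k fun p =>
      (Module.finrank ℂ (fatForms r d p (fun i => if i ∈ I then d + 1 - e i else 0)) : ℝ) ≤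
        (fro r e I d : ℝ) + η * ((d + r).choose r : ℝ) := by
  rcases Nat.eq_zero_or_pos d with hd0 | hd1
  · subst hd0
    refine ⟨0, fun r _ k e he I _ => ?_⟩
    refine (general_finrank_le 0 (fun _ _ => 0)
      (fun i => if i ∈ I then 0 + 1 - e i else 0)).mono fun p _ => ?_
    have h1 := rank_full_add_finrank (d := 0) p (fun i => if i ∈ I then 0 + 1 - e i else 0)
    have h2 : (0 + r).choose r = 1 := by simp
    rw [h2] at h1
    have h3 : Module.finrank ℂ (fatForms r 0 p (fun i => if i ∈ I then 0 + 1 - e i else 0)) ≤ 1 :=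
      by omega
    have h4 : (Module.finrank ℂ
        (fatForms r 0 p (fun i => if i ∈ I then 0 + 1 - e i else 0)) : ℝ) ≤ 1 := by
      exact_mod_cast h3
    rw [fro_zero r e I fun i _ => he i, h2]
    push_cast
    linarith
  obtain ⟨r₁, h₁⟩ := vanish_general d d le_rfl (η / 2) (by linarith)
  refine ⟨max (max r₁ 1) ⌈2 / η⌉₊, fun r hr k e he I hpos => ?_⟩
  have hr1 : r₁ ≤ r := (le_max_left _ _).trans ((le_max_left _ _).trans hr)
  have hr2 : 1 ≤ r := (le_max_right _ _).trans ((le_max_left _ _).trans hr)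
  have hr3 : 2 / η ≤ (r : ℝ) := (Nat.le_ceil _).trans (by exact_mod_cast (le_max_right _ _).trans hr)
  have hs : (r : ℝ) ≤ ((d + r).choose r : ℝ) := by
    have h1 : (1 + r).choose r ≤ (d + r).choose r := Nat.choose_le_choose r (by omega)
    have h2 : (1 + r).choose r = r + 1 := by
      rw [add_comm, Nat.choose_succ_self_right]
    rw [h2] at h1
    have : r ≤ (d + r).choose r := by omega
    exact_mod_cast this
  have hs1 : 1 ≤ η / 2 * ((d + r).choose r : ℝ) := by
    have h1 : η / 2 * (2 / η) = 1 := by field_simp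
    calc (1 : ℝ) = η / 2 * (2 / η) := h1.symm
      _ ≤ η / 2 * ((d + r).choose r : ℝ) :=
        mul_le_mul_of_nonneg_left (hr3.trans hs) (by linarith)
  set D : ℝ := ((d + r).choose r : ℝ) with hD
  set s : ℕ := ⌈(fro r e I d : ℝ) + η / 2 * D⌉₊ with hsdef
  have hs2 : (s : ℝ) ≤ (fro r e I d : ℝ) + η * D := by
    rcases le_or_gt 0 ((fro r e I d : ℝ) + η / 2 * D) with h1 | h1
    · have h2 := Nat.ceil_lt_add_one h1
      rw [← hsdef] at h2
      linarith
    · have h2 : s = 0 := by
        rw [hsdef]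
        exact Nat.ceil_eq_zero.2 h1.le
      rw [h2]
      push_cast
      exact hpos
  have hs3 : (fro r e I d : ℝ) + η / 2 * D ≤ s := Nat.le_ceil _
  -- the enlarged family
  let e' : Fin (k + s) → ℕ := Fin.append e (fun _ => d)
  let I' : Finset (Fin (k + s)) := I.map (Fin.castAddEmb s) ∪ Finset.univ.map (Fin.natAddEmb k)
  have hdisj : Disjoint (I.map (Fin.castAddEmb s)) (Finset.univ.map (Fin.natAddEmb k)) := by
    rw [Finset.disjoint_left]
    intro x hx hx'
    obtain ⟨a, -, rfl⟩ := Finset.mem_map.1 hx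
    obtain ⟨b, -, hb⟩ := Finset.mem_map.1 hx'
    have h1 := congrArg Fin.val hb
    simp at h1
    have := a.2
    omega
  have he'1 : ∀ i : Fin k, e' (Fin.castAdd s i) = e i := fun i => Fin.append_left _ _ i
  have he'2 : ∀ i : Fin s, e' (Fin.natAdd k i) = d := fun i => Fin.append_right _ _ i
  have he' : ∀ i, 1 ≤ e' i := by
    intro i
    refine Fin.addCases (fun i => ?_) (fun i => ?_) i
    · rw [he'1]; exact he i
    · rw [he'2]; exact hd1
  have hfro : fro r e' I' d = fro r e I d - s := by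
    have h1 := fro_simple' r d e' (I.map (Fin.castAddEmb s)) (Finset.univ.map (Fin.natAddEmb k))
      hdisj (fun i _ => he' i) hd1 (by
        intro i hi
        obtain ⟨b, -, rfl⟩ := Finset.mem_map.1 hi
        exact he'2 b)
    rw [fro_map] at h1
    have h2 : (fun p => e' ((Fin.castAddEmb s) p)) = e := by
      funext i
      exact he'1 i
    rw [h2, Finset.card_map, Finset.card_univ, Fintype.card_fin] at h1
    exact h1
  have h2 := h₁ r hr1 (k + s) e' he' I' (by
    rw [hfro]
    push_cast
    linarith)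
  obtain ⟨p', hp'1, hp'2⟩ := exists_point (h2.and (ForGeneralPoints.coord_ne_zero r (k + s)))
  let p₀ : Fin k → Fin (r + 1) → ℂ := fun i => p' (Fin.castAdd s i)
  have h3 := finrank_add_length_ge (d := d) hr2 p₀ (fun i => if i ∈ I then d + 1 - e i else 0)
    (fun j : Fin s => p' (Fin.natAdd k j)) (fun j => hp'2 _ 0) (fun _ => 1)
  have h4 : Module.finrank ℂ (fatForms r d (Sum.elim p₀ (fun j : Fin s => p' (Fin.natAdd k j)))
      (Sum.elim (fun i => if i ∈ I then d + 1 - e i else 0) (fun _ => 1))) ≤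
      Module.finrank ℂ (fatForms r d p' (fun i => if i ∈ I' then d + 1 - e' i else 0)) := by
    apply Submodule.finrank_mono
    rintro F ⟨hF1, hF2⟩
    refine ⟨hF1, fun i => ?_⟩
    refine Fin.addCases (fun i => ?_) (fun i => ?_) i
    · have h5 := hF2 (Sum.inl i)
      simp only [Sum.elim_inl] at h5
      have h6 : (Fin.castAdd s i ∈ I') ↔ i ∈ I := by
        simp only [I', Finset.mem_union, Finset.mem_map, Finset.mem_univ, true_and]
        constructor
        · rintro (⟨a, ha, hab⟩ | ⟨b, hb⟩)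
          · have h7 := (Fin.castAddEmb s).injective hab
            rw [← h7]
            exact ha
          · exfalso
            have h7 := congrArg Fin.val hb
            simp at h7
            have := i.2
            omega
        · intro hi
          exact Or.inl ⟨i, hi, rfl⟩
      have h7 : (if Fin.castAdd s i ∈ I' then d + 1 - e' (Fin.castAdd s i) else 0) =
          if i ∈ I then d + 1 - e i else 0 := by
        rw [he'1]
        by_cases hi : i ∈ I
        · rw [if_pos hi, if_pos (h6.2 hi)]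
        · rw [if_neg hi, if_neg (fun h => hi (h6.1 h))]
      change VanishesToOrder F (p' (Fin.castAdd s i))
        (if Fin.castAdd s i ∈ I' then d + 1 - e' (Fin.castAdd s i) else 0)
      rw [h7]
      exact h5
    · have h5 := hF2 (Sum.inr i)
      simp only [Sum.elim_inr] at h5
      have h6 : Fin.natAdd k i ∈ I' := by
        simp only [I', Finset.mem_union, Finset.mem_map, Finset.mem_univ, true_and]
        exact Or.inr ⟨i, rfl⟩
      change VanishesToOrder F (p' (Fin.natAdd k i))
        (if Fin.natAdd k i ∈ I' then d + 1 - e' (Fin.natAdd k i) else 0)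
      rw [if_pos h6, he'2]
      have h7 : d + 1 - d = 1 := by omega
      rw [h7]
      exact h5
  have h5 : Module.finrank ℂ (fatForms r d p₀ (fun i => if i ∈ I then d + 1 - e i else 0)) ≤ s := by
    have h6 : ∑ _j : Fin s, (1 + r - 1).choose r = s := by
      have h7 : (1 + r - 1).choose r = 1 := by
        have : 1 + r - 1 = r := by omega
        rw [this, Nat.choose_self]
      simp only [h7, Finset.sum_const, Finset.card_univ, Fintype.card_fin, smul_eq_mul, mul_one]
    rw [h6] at h3
    omega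
  refine (general_finrank_le d p₀ (fun i => if i ∈ I then d + 1 - e i else 0)).mono fun p hp => ?_
  have h6 : Module.finrank ℂ (fatForms r d p (fun i => if i ∈ I then d + 1 - e i else 0)) ≤ s :=
    hp.trans h5
  have h7 : (Module.finrank ℂ
      (fatForms r d p (fun i => if i ∈ I then d + 1 - e i else 0)) : ℝ) ≤ s := by
    exact_mod_cast h6
  exact h7.trans hs2

end Pool.Agent.H21.HD

end
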