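import Pool.Agent.H94.LP5.H21.HD.BlockA

/-! The parts of this file: H21.HD.OneVar, H21.HD.LeadL, H21.HD.LeadS, H21.HD.PhiCol. -/

section

/-!
One-variable lemmas.
-/

namespace Pool.Agent.H21.HD

namespace OneVarX

open Polynomial in
theorem coeff_zero_of {S : Type} [CommRing S] [IsDomain S] (x : S) (hx : x ≠ 0) (E : ℕ)
    (M : Polynomial S) (r : ℕ)
    (h : ∀ t, t < r → ((Polynomial.X + Polynomial.C x) ^ E * M).coeff t = 0) :
    (∀ t, t < r → M.coeff t = 0) ∧
      ((Polynomial.X + Polynomial.C x) ^ E * M).coeff r = x ^ E * M.coeff r := by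
  have key : ∀ t, (∀ s, s < t → M.coeff s = 0) →
      ((Polynomial.X + Polynomial.C x) ^ E * M).coeff t = x ^ E * M.coeff t := by
    intro t ht
    rw [Polynomial.coeff_mul, Finset.sum_eq_single (0, t)]
    · congr 1
      rw [Polynomial.coeff_zero_eq_eval_zero]
      simp
    · rintro ⟨i, j⟩ hij hne
      rw [Finset.HasAntidiagonal.mem_antidiagonal] at hij
      simp only at hij
      have hj : j < t := by
        rcases Nat.eq_zero_or_pos i with hi | hi
        · exfalso
          apply hne
          subst hi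
          simp only [zero_add] at hij
          rw [hij]
        · omega
      simp only [ht j hj, mul_zero]
    · intro hn
      exfalso
      apply hn
      rw [Finset.HasAntidiagonal.mem_antidiagonal]
      simp
  have h1 : ∀ t, t < r → M.coeff t = 0 := by
    intro t
    induction t using Nat.strong_induction_on with
    | _ t ih =>
      intro htr
      have h2 := key t (fun s hs => ih s hs (by omega))
      rw [h t htr] at h2
      have h3 : x ^ E ≠ 0 := pow_ne_zero _ hx
      rcases mul_eq_zero.1 h2.symm with h4 | h4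
      · exact absurd h4 h3
      · exact h4
  exact ⟨h1, key r h1⟩

end OneVarX

/-- If `(x + T)^E` divides `Q` and the coefficients below `r` of `Q` vanish then `x^E` divides
the coefficient `r`. -/
theorem one_var' {S : Type} [CommRing S] [IsDomain S] (x : S) (hx : x ≠ 0) (E : ℕ)
    (Q : Polynomial S) (hQ : (Polynomial.X + Polynomial.C x) ^ E ∣ Q) (r : ℕ)
    (h : ∀ t, t < r → Q.coeff t = 0) : x ^ E ∣ Q.coeff r := by
  obtain ⟨M, rfl⟩ := hQ
  rw [(OneVarX.coeff_zero_of x hx E M r h).2]
  exact dvd_mul_right _ _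

/-- The one-variable lemma: if `(x + T)^E` divides `Q` and the coefficients `1, …, r - 1` of `Q`
vanish then `x^(E-1)` divides the coefficient `r`. -/
theorem one_var {S : Type} [CommRing S] [IsDomain S] [Algebra ℚ S] (x : S) (hx : x ≠ 0) (E : ℕ)
    (Q : Polynomial S) (hQ : (Polynomial.X + Polynomial.C x) ^ E ∣ Q) (r : ℕ) (hr : 1 ≤ r)
    (h : ∀ t, 1 ≤ t → t < r → Q.coeff t = 0) : x ^ (E - 1) ∣ Q.coeff r := by
  have h1 := Polynomial.pow_sub_one_dvd_derivative_of_pow_dvd hQ
  have h2 := one_var' x hx (E - 1) _ h1 (r - 1) (by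
    intro t ht
    rw [Polynomial.coeff_derivative, h (t + 1) (by omega) (by omega), zero_mul])
  rw [Polynomial.coeff_derivative] at h2
  have h3 : r - 1 + 1 = r := by omega
  rw [h3] at h2
  have h4 : ((r - 1 : ℕ) : S) + 1 = algebraMap ℚ S (r : ℚ) := by
    rw [map_natCast]
    have h5 : ((r - 1 : ℕ) : S) + 1 = ((r - 1 + 1 : ℕ) : S) := by push_cast; ring
    rw [h5, h3]
  rw [h4] at h2
  have h5 : IsUnit (algebraMap ℚ S (r : ℚ)) := by
    apply IsUnit.map
    apply IsUnit.mk0
    exact_mod_cast (by omega : r ≠ 0)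
  exact (h5.dvd_mul_right).1 h2

end Pool.Agent.H21.HD

end

section

/-!
The leading coefficient lemma.
-/

namespace Pool.Agent.H21.HD

namespace LeadLX

open MvPolynomial

theorem key_lt_iff {N : ℕ} (a b : Fin N → ℕ) : key a < key b ↔
    ∃ i, (∀ j, j < i → rk0 (a j) = rk0 (b j)) ∧ rk0 (a i) < rk0 (b i) := Iff.rfl

theorem key_lt_head {N : ℕ} (a b : Fin (N + 1) → ℕ) (h : rk0 (a 0) < rk0 (b 0)) :
    key a < key b := by
  rw [key_lt_iff]
  exact ⟨0, fun j hj => absurd hj (Fin.not_lt_zero j), h⟩

theorem key_lt_tail {N : ℕ} (a b : Fin (N + 1) → ℕ) (h0 : a 0 = b 0)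
    (h : key (fun i => a i.succ) < key (fun i => b i.succ)) : key a < key b := by
  rw [key_lt_iff] at h ⊢
  obtain ⟨i, h1, h2⟩ := h
  refine ⟨i.succ, fun j hj => ?_, h2⟩
  refine Fin.cases ?_ (fun j' => ?_) j hj
  · intro _
    rw [h0]
  · intro hj'
    exact h1 j' (Fin.succ_lt_succ_iff.1 hj')

theorem rk0_lt_of {a b : ℕ} (ha : a ≠ 0) (h : a < b) : rk0 a < rk0 b := by
  unfold rk0
  rw [if_neg ha, if_neg (by omega)]
  exact_mod_cast h

theorem rk0_lt_zero {a : ℕ} (ha : a ≠ 0) : rk0 a < rk0 0 := by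
  unfold rk0
  rw [if_neg ha, if_pos rfl]
  exact ENat.natCast_lt_top a

/-- The remaining coordinates. -/
def tl {N : ℕ} (c : Finset (Fin (N + 1))) : Finset (Fin N) :=
  Finset.univ.filter (fun i : Fin N => i.succ ∈ c)

theorem form_split {R : Type} [CommRing R] {N : ℕ} (c : Finset (Fin (N + 1))) (y : R) :
    finSuccEquiv R N ((∑ i ∈ c, X i) + C y) =
      (if (0 : Fin (N + 1)) ∈ c then Polynomial.X else 0) +
        Polynomial.C ((∑ i ∈ tl c, X i) + C y) := by
  have h1 : (∑ i ∈ c, X i : MvPolynomial (Fin (N + 1)) R) =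
      ∑ i, if i ∈ c then X i else 0 := by
    rw [Finset.sum_ite_mem, Finset.univ_inter]
  have h2 : finSuccEquiv R N (C y) = Polynomial.C (C y) := by
    simp [finSuccEquiv_apply]
  have h3 : finSuccEquiv R N (if (0 : Fin (N + 1)) ∈ c then X 0 else 0) =
      (if (0 : Fin (N + 1)) ∈ c then Polynomial.X else 0) := by
    split_ifs
    · exact finSuccEquiv_X_zero
    · exact map_zero _
  have h4 : finSuccEquiv R N (∑ i : Fin N, if i.succ ∈ c then X i.succ else 0) =
      Polynomial.C (∑ i ∈ tl c, X i) := by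
    unfold tl
    rw [map_sum, Finset.sum_filter, map_sum]
    refine Finset.sum_congr rfl fun i _ => ?_
    split_ifs
    · exact finSuccEquiv_X_succ
    · rw [map_zero, map_zero]
  rw [h1, Fin.sum_univ_succ, map_add, map_add, h2, h3, h4, map_add, add_assoc]

theorem card_split {N : ℕ} (c : Finset (Fin (N + 1))) (ω : Fin (N + 1) → ℕ) :
    (c.filter (fun i => ω i = 0)).card =
      (if (0 : Fin (N + 1)) ∈ c ∧ ω 0 = 0 then 1 else 0) +
        ((tl c).filter (fun i => ω i.succ = 0)).card := by
  have h1 : (c.filter (fun i => ω i = 0)).card =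
      ∑ i : Fin (N + 1), if i ∈ c ∧ ω i = 0 then 1 else 0 := by
    rw [Finset.card_filter, ← Finset.sum_filter, ← Finset.sum_filter]
    congr 1
    ext i
    simp
  have h2 : ((tl c).filter (fun i => ω i.succ = 0)).card =
      ∑ i : Fin N, if i.succ ∈ c ∧ ω i.succ = 0 then 1 else 0 := by
    rw [Finset.card_filter, ← Finset.sum_filter, ← Finset.sum_filter]
    congr 1
    ext i
    simp [tl]
  rw [h1, h2, Fin.sum_univ_succ]

theorem form_ne {R : Type} [CommRing R] {N : ℕ} (c : Finset (Fin N)) (y : R) (hy : y ≠ 0) :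
    ((∑ i ∈ c, X i) + C y : MvPolynomial (Fin N) R) ≠ 0 := by
  intro h
  have h1 := congrArg (MvPolynomial.constantCoeff) h
  simp at h1
  exact hy h1

end LeadLX

open LeadLX MvPolynomial in
/-- The leading coefficient lemma. -/
theorem lead_lemma {R : Type} [CommRing R] [IsDomain R] [Algebra ℚ R] (N : ℕ)
    (c : Finset (Fin N)) (ω : Fin N → ℕ) (y : R) (hy : y ≠ 0) (E : ℕ)
    (hE : (c.filter (fun i => ω i = 0)).card ≤ E) (Q : MvPolynomial (Fin N) R)
    (hdiv : ((∑ i ∈ c, X i) + C y) ^ E ∣ Q) (b : Fin N →₀ ℕ) (hb : coeff b Q ≠ 0)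
    (hlow : ∀ b' : Fin N →₀ ℕ, key (fun i => b' i + ω i) < key (fun i => b i + ω i) →
      coeff b' Q = 0) :
    (∀ i ∈ c, b i + ω i ≠ 0) ∧ y ^ (E - (c.filter (fun i => ω i = 0)).card) ∣ coeff b Q := by
  induction N generalizing E with
  | zero =>
    have hc : c = ∅ := Finset.eq_empty_of_isEmpty c
    subst hc
    refine ⟨fun i hi => absurd hi (Finset.notMem_empty i), ?_⟩
    simp only [Finset.sum_empty, zero_add, Finset.filter_empty, Finset.card_empty,
      Nat.sub_zero] at hdiv ⊢
    obtain ⟨M, rfl⟩ := hdiv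
    rw [← map_pow, coeff_C_mul]
    exact dvd_mul_right _ _
  | succ N ih =>
    -- the slices
    set Qh : Polynomial (MvPolynomial (Fin N) R) := finSuccEquiv R N Q with hQh
    have hbc : b = Finsupp.cons (b 0) b.tail := (Finsupp.cons_tail b).symm
    have hcb : coeff b Q = coeff b.tail (Qh.coeff (b 0)) := by
      rw [hQh, finSuccEquiv_coeff_coeff, ← hbc]
    have hdiv' : ((if (0 : Fin (N + 1)) ∈ c then Polynomial.X else 0) +
        Polynomial.C ((∑ i ∈ tl c, X i) + C y : MvPolynomial (Fin N) R)) ^ E ∣ Qh := by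
      have h1 := map_dvd (finSuccEquiv R N) hdiv
      rwa [map_pow, form_split] at h1
    have htail : ∀ b'' : Fin N →₀ ℕ,
        key (fun i => b'' i + ω i.succ) < key (fun i => b.tail i + ω i.succ) →
        coeff b'' (Qh.coeff (b 0)) = 0 := by
      intro b'' hk
      rw [hQh, finSuccEquiv_coeff_coeff]
      apply hlow
      apply key_lt_tail
      · simp
      · simpa [Finsupp.tail_apply] using hk
    have hhead : ∀ t, rk0 (t + ω 0) < rk0 (b 0 + ω 0) → Qh.coeff t = 0 := by
      intro t ht
      ext b''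
      rw [hQh, finSuccEquiv_coeff_coeff, coeff_zero]
      apply hlow
      apply key_lt_head
      simpa using ht
    have hx := form_ne (tl c) y hy
    have hcard := card_split c ω
    have hb' : coeff b.tail (Qh.coeff (b 0)) ≠ 0 := by
      rw [← hcb]
      exact hb
    -- the last step
    have fin : ∀ E', ((tl c).filter (fun i => ω i.succ = 0)).card ≤ E' →
        ((∑ i ∈ tl c, X i) + C y : MvPolynomial (Fin N) R) ^ E' ∣ Qh.coeff (b 0) →
        ((0 : Fin (N + 1)) ∈ c → b 0 + ω 0 ≠ 0) →
        E' - ((tl c).filter (fun i => ω i.succ = 0)).card =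
          E - (c.filter (fun i => ω i = 0)).card →
        (∀ i ∈ c, b i + ω i ≠ 0) ∧
          y ^ (E - (c.filter (fun i => ω i = 0)).card) ∣ coeff b Q := by
      intro E' hE' hd h0 hEE
      have h1 := ih (tl c) (fun i => ω i.succ) E' hE' (Qh.coeff (b 0)) hd b.tail hb' htail
      refine ⟨?_, ?_⟩
      · intro i
        refine Fin.cases ?_ (fun j => ?_) i
        · exact h0
        · intro hj
          have h2 := h1.1 j (by simp [tl, hj])
          simpa [Finsupp.tail_apply] using h2
      · rw [← hEE, hcb]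
        exact h1.2
    by_cases h0 : (0 : Fin (N + 1)) ∈ c
    · rw [if_pos h0] at hdiv'
      by_cases hω : ω 0 = 0
      · rw [if_pos ⟨h0, hω⟩] at hcard
        -- the first degree is not zero
        have hb0 : b 0 ≠ 0 := by
          intro hb0
          have h1 : ∀ t, t ≠ 0 → Qh.coeff t = 0 := by
            intro t ht
            apply hhead
            rw [hω, hb0]
            simpa using rk0_lt_zero ht
          have h2 : Qh = Polynomial.C (Qh.coeff 0) := by
            ext1 t
            by_cases ht : t = 0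
            · subst ht
              simp
            · rw [h1 t ht, Polynomial.coeff_C, if_neg ht]
          have h3 : (Polynomial.X + Polynomial.C ((∑ i ∈ tl c, X i) + C y :
              MvPolynomial (Fin N) R)) ∣ Qh :=
            dvd_trans (dvd_pow_self _ (by omega)) hdiv'
          obtain ⟨M, hM⟩ := h3
          have h4 := congrArg (Polynomial.eval (-((∑ i ∈ tl c, X i) + C y :
              MvPolynomial (Fin N) R))) hM
          rw [Polynomial.eval_mul, Polynomial.eval_add, Polynomial.eval_X, Polynomial.eval_C,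
            neg_add_cancel, zero_mul, h2, Polynomial.eval_C] at h4
          apply hb'
          rw [hb0, h4, coeff_zero]
        apply fin (E - 1) (by omega)
        · apply one_var _ hx E Qh hdiv' (b 0) (by omega)
          intro t ht1 ht2
          apply hhead
          rw [hω]
          exact rk0_lt_of (by omega) (by omega)
        · intro _
          omega
        · omega
      · rw [if_neg (fun h => hω h.2)] at hcard
        apply fin E (by omega)
        · apply one_var' _ hx E Qh hdiv' (b 0)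
          intro t ht
          apply hhead
          exact rk0_lt_of (by omega) (by omega)
        · intro _
          omega
        · omega
    · rw [if_neg h0, zero_add, ← map_pow] at hdiv'
      rw [if_neg (fun h => h0 h.1)] at hcard
      apply fin E (by omega)
      · exact (Polynomial.C_dvd_iff_dvd_coeff _ _).1 hdiv' (b 0)
      · intro h
        exact absurd h h0
      · omega

end Pool.Agent.H21.HD

end

section

/-!
The leading structure.
-/

namespace Pool.Agent.H21.HD

open MvPolynomial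
open scoped Classical

set_option linter.unusedSectionVars false

variable {N : ℕ} {A Λ : Type} [Fintype A] [Fintype Λ]

namespace LeadSX

/-- The spectator variables. -/
def IsSpec (c : Finset (Fin N)) (ref : Fin N → A) (lam : Λ) : Sg N A Λ → Prop :=
  Sum.elim (fun x => ¬ (x.1 ∈ c ∧ x.2 = ref x.1)) (fun l => l ≠ lam)

/-- The spectator part of an exponent vector. -/
noncomputable def spec (c : Finset (Fin N)) (ref : Fin N → A) (lam : Λ) (γ : Sg N A Λ →₀ ℕ) :
    Sg N A Λ →₀ ℕ :=
  Finsupp.equivFunOnFinite.symm (fun s => if IsSpec c ref lam s then γ s else 0)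

/-- The reference part. -/
noncomputable def refp (c : Finset (Fin N)) (ref : Fin N → A) (γ : Sg N A Λ →₀ ℕ) :
    Fin N →₀ ℕ :=
  Finsupp.equivFunOnFinite.symm (fun i => if i ∈ c then γ (Sum.inl (i, ref i)) else 0)

theorem spec_apply (c : Finset (Fin N)) (ref : Fin N → A) (lam : Λ) (γ : Sg N A Λ →₀ ℕ)
    (s : Sg N A Λ) : spec c ref lam γ s = if IsSpec c ref lam s then γ s else 0 := rfl

theorem refp_apply (c : Finset (Fin N)) (ref : Fin N → A) (γ : Sg N A Λ →₀ ℕ)
    (i : Fin N) : refp c ref γ i = if i ∈ c then γ (Sum.inl (i, ref i)) else 0 := rfl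

theorem spec_add (c : Finset (Fin N)) (ref : Fin N → A) (lam : Λ) (γ δ : Sg N A Λ →₀ ℕ) :
    spec c ref lam (γ + δ) = spec c ref lam γ + spec c ref lam δ := by
  ext s
  rw [Finsupp.add_apply, spec_apply, spec_apply, spec_apply, Finsupp.add_apply]
  split_ifs <;> simp

theorem refp_add (c : Finset (Fin N)) (ref : Fin N → A) (γ δ : Sg N A Λ →₀ ℕ) :
    refp c ref (γ + δ) = refp c ref γ + refp c ref δ := by
  ext s
  rw [Finsupp.add_apply, refp_apply, refp_apply, refp_apply, Finsupp.add_apply]
  split_ifs <;> simp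

theorem spec_zero (c : Finset (Fin N)) (ref : Fin N → A) (lam : Λ) :
    spec c ref lam (0 : Sg N A Λ →₀ ℕ) = 0 := by
  ext s
  rw [spec_apply]
  simp

theorem refp_zero (c : Finset (Fin N)) (ref : Fin N → A) :
    refp c ref (0 : Sg N A Λ →₀ ℕ) = 0 := by
  ext s
  rw [refp_apply]
  simp

/-- The image of a monomial. -/
noncomputable def TT (c : Finset (Fin N)) (ref : Fin N → A) (lam : Λ) (δ : Sg N A Λ →₀ ℕ) (r : ℂ) :
    MvPolynomial (Sg N A Λ) (MvPolynomial (Fin N) (Polynomial ℂ)) :=
  monomial (spec c ref lam δ) (monomial (refp c ref δ)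
    (Polynomial.monomial (δ (Sum.inr lam)) r))

theorem TT_mul (c : Finset (Fin N)) (ref : Fin N → A) (lam : Λ) (γ δ : Sg N A Λ →₀ ℕ) (r s : ℂ) :
    TT c ref lam γ r * TT c ref lam δ s = TT c ref lam (γ + δ) (r * s) := by
  unfold TT
  rw [monomial_mul, monomial_mul, Polynomial.monomial_mul_monomial, spec_add, refp_add,
    Finsupp.add_apply]

theorem TT_zero (c : Finset (Fin N)) (ref : Fin N → A) (lam : Λ) (r : ℂ) :
    TT c ref lam (0 : Sg N A Λ →₀ ℕ) r = C (C (Polynomial.C r)) := by
  unfold TT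
  rw [spec_zero, refp_zero, Finsupp.zero_apply, Polynomial.monomial_zero_left]
  rfl

/-- The separation of the variables. -/
noncomputable def Psi (c : Finset (Fin N)) (ref : Fin N → A) (lam : Λ) :
    MvPolynomial (Sg N A Λ) ℂ →+*
      MvPolynomial (Sg N A Λ) (MvPolynomial (Fin N) (Polynomial ℂ)) :=
  eval₂Hom ((C.comp C).comp Polynomial.C)
    (Sum.elim (fun x => if x.1 ∈ c ∧ x.2 = ref x.1 then C (X x.1) else X (Sum.inl x))
      (fun l => if l = lam then C (C Polynomial.X) else X (Sum.inr l)))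

theorem Psi_C (c : Finset (Fin N)) (ref : Fin N → A) (lam : Λ) (r : ℂ) :
    Psi c ref lam (C r) = C (C (Polynomial.C r)) := by
  unfold Psi
  rw [coe_eval₂Hom, eval₂_C]
  rfl

theorem Psi_X (c : Finset (Fin N)) (ref : Fin N → A) (lam : Λ) (s : Sg N A Λ) :
    Psi c ref lam (X s) = Sum.elim
      (fun x => if x.1 ∈ c ∧ x.2 = ref x.1 then C (X x.1) else X (Sum.inl x))
      (fun l => if l = lam then C (C Polynomial.X) else X (Sum.inr l)) s := by
  unfold Psi
  rw [coe_eval₂Hom, eval₂_X]

theorem Psi_X' (c : Finset (Fin N)) (ref : Fin N → A) (lam : Λ) (s : Sg N A Λ) :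
    Psi c ref lam (X s) = TT c ref lam (Finsupp.single s 1) 1 := by
  rw [Psi_X]
  unfold TT
  rcases s with ⟨i, x⟩ | l
  · simp only [Sum.elim_inl]
    have h0 : (Finsupp.single (Sum.inl (i, x)) 1 : Sg N A Λ →₀ ℕ) (Sum.inr lam) = 0 := by
      rw [Finsupp.single_apply, if_neg]
      intro h; cases h
    rw [h0]
    split_ifs with h
    · obtain ⟨hi, rfl⟩ := h
      have h1 : spec c ref lam (Finsupp.single (Sum.inl (i, ref i)) 1) = 0 := by
        ext s
        rw [spec_apply]
        split_ifs with hs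
        · rw [Finsupp.single_apply, if_neg, Finsupp.zero_apply]
          intro h
          subst h
          exact hs ⟨hi, rfl⟩
        · rfl
      have h2 : refp c ref (Finsupp.single (Sum.inl (i, ref i) : Sg N A Λ) 1)
          = Finsupp.single i 1 := by
        ext j
        rw [refp_apply]
        by_cases hj : j = i
        · subst hj
          rw [if_pos hi]
          simp
        · have e1 : (Finsupp.single i 1 : Fin N →₀ ℕ) j = 0 := by
            rw [Finsupp.single_apply, if_neg (fun h => hj h.symm)]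
          have e2 : (Finsupp.single (Sum.inl (i, ref i)) 1 : Sg N A Λ →₀ ℕ)
              (Sum.inl (j, ref j)) = 0 := by
            rw [Finsupp.single_apply, if_neg]
            intro h
            apply hj
            exact (Prod.mk.inj (Sum.inl.inj h)).1.symm
          rw [e1, e2, ite_self]
      rw [h1, h2]
      rfl
    · have h1 : spec c ref lam (Finsupp.single (Sum.inl (i, x)) 1)
          = Finsupp.single (Sum.inl (i, x)) 1 := by
        ext s
        rw [spec_apply]
        split_ifs with hs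
        · rfl
        · rw [Finsupp.single_apply, if_neg]
          intro h'
          subst h'
          exact hs h
      have h2 : refp c ref (Finsupp.single (Sum.inl (i, x) : Sg N A Λ) 1) = 0 := by
        ext j
        rw [refp_apply]
        split_ifs with hj
        · rw [Finsupp.single_apply, if_neg, Finsupp.zero_apply]
          intro h'
          have := Prod.mk.inj (Sum.inl.inj h')
          obtain ⟨rfl, rfl⟩ := this
          exact h ⟨hj, rfl⟩
        · rfl
      rw [h1, h2]
      rfl
  · simp only [Sum.elim_inr]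
    have h2 : refp c ref (Finsupp.single (Sum.inr l : Sg N A Λ) 1) = 0 := by
      ext j
      rw [refp_apply]
      split_ifs with hj
      · rw [Finsupp.single_apply, if_neg, Finsupp.zero_apply]
        intro h'
        cases h'
      · rfl
    rw [h2]
    split_ifs with h
    · subst h
      have h1 : spec c ref l (Finsupp.single (Sum.inr l) 1) = 0 := by
        ext s
        rw [spec_apply]
        split_ifs with hs
        · rw [Finsupp.single_apply, if_neg, Finsupp.zero_apply]
          intro h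
          subst h
          exact hs rfl
        · rfl
      rw [h1, Finsupp.single_eq_same]
      rfl
    · have h1 : spec c ref lam (Finsupp.single (Sum.inr l) 1) = Finsupp.single (Sum.inr l) 1 := by
        ext s
        rw [spec_apply]
        split_ifs with hs
        · rfl
        · rw [Finsupp.single_apply, if_neg]
          intro h'
          subst h'
          exact hs h
      have h3 : (Finsupp.single (Sum.inr l) 1 : Sg N A Λ →₀ ℕ) (Sum.inr lam) = 0 := by
        rw [Finsupp.single_apply, if_neg]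
        intro h'
        exact h (Sum.inr.inj h')
      rw [h1, h3]
      rfl

theorem Psi_monomial (c : Finset (Fin N)) (ref : Fin N → A) (lam : Λ) (δ : Sg N A Λ →₀ ℕ) (r : ℂ) :
    Psi c ref lam (monomial δ r) = TT c ref lam δ r := by
  have key1 : ∀ δ : Sg N A Λ →₀ ℕ, Psi c ref lam (monomial δ 1) = TT c ref lam δ 1 := by
    intro δ
    induction δ using Finsupp.induction_linear with
    | zero =>
      rw [TT_zero]
      have h : (monomial (0 : Sg N A Λ →₀ ℕ) (1 : ℂ)) = C 1 := rfl
      rw [h, Psi_C]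
    | add f g hf hg =>
      have h : (monomial (f + g) (1 : ℂ) : MvPolynomial (Sg N A Λ) ℂ)
          = monomial f 1 * monomial g 1 := by
        rw [monomial_mul, one_mul]
      rw [h, map_mul, hf, hg, TT_mul, one_mul]
    | single s n =>
      induction n with
      | zero =>
        rw [Finsupp.single_zero, TT_zero]
        have h : (monomial (0 : Sg N A Λ →₀ ℕ) (1 : ℂ)) = C 1 := rfl
        rw [h, Psi_C]
      | succ n ih =>
        have h : (monomial (Finsupp.single s (n + 1)) (1 : ℂ) : MvPolynomial (Sg N A Λ) ℂ)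
            = monomial (Finsupp.single s n) 1 * MvPolynomial.X s := by
          rw [MvPolynomial.X, monomial_mul, one_mul, Finsupp.single_add]
        rw [h, map_mul, ih, Psi_X', TT_mul, one_mul, Finsupp.single_add]
  have h : (monomial δ r : MvPolynomial (Sg N A Λ) ℂ) = C r * monomial δ 1 := by
    rw [C_mul_monomial, mul_one]
  rw [h, map_mul, key1, Psi_C, ← TT_zero c ref lam, TT_mul, zero_add, mul_one]

theorem sep_inj (c : Finset (Fin N)) (ref : Fin N → A) (lam : Λ) (γ δ : Sg N A Λ →₀ ℕ)
    (h1 : spec c ref lam γ = spec c ref lam δ) (h2 : refp c ref γ = refp c ref δ)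
    (h3 : γ (Sum.inr lam) = δ (Sum.inr lam)) : γ = δ := by
  ext s
  by_cases hs : IsSpec c ref lam s
  · have h := DFunLike.congr_fun h1 s
    rwa [spec_apply, spec_apply, if_pos hs, if_pos hs] at h
  · rcases s with ⟨i, x⟩ | l
    · have h : i ∈ c ∧ x = ref i := by
        by_contra h
        exact hs h
      obtain ⟨hi, rfl⟩ := h
      have h := DFunLike.congr_fun h2 i
      rwa [refp_apply, refp_apply, if_pos hi, if_pos hi] at h
    · have h : l = lam := by
        by_contra h
        exact hs h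
      rw [h, h3]

theorem coeff_Psi (c : Finset (Fin N)) (ref : Fin N → A) (lam : Λ)
    (F : MvPolynomial (Sg N A Λ) ℂ) (γ : Sg N A Λ →₀ ℕ) :
    (coeff (refp c ref γ) (coeff (spec c ref lam γ) (Psi c ref lam F))).coeff (γ (Sum.inr lam))
      = coeff γ F := by
  induction F using MvPolynomial.induction_on' with
  | monomial δ r =>
    rw [Psi_monomial, TT, coeff_monomial]
    by_cases h : δ = γ
    · subst h
      rw [if_pos rfl, coeff_monomial, if_pos rfl, Polynomial.coeff_monomial, if_pos rfl,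
        coeff_monomial, if_pos rfl]
    · rw [coeff_monomial, if_neg h]
      split_ifs with h1
      · rw [coeff_monomial]
        split_ifs with h2
        · rw [Polynomial.coeff_monomial]
          split_ifs with h3
          · exact absurd (sep_inj c ref lam δ γ h1 h2 h3) h
          · rfl
        · rfl
      · rw [coeff_zero]; rfl
  | add p q hp hq =>
    rw [map_add, coeff_add, coeff_add, Polynomial.coeff_add, hp, hq, coeff_add]

theorem coeff_Psi_zero (c : Finset (Fin N)) (ref : Fin N → A) (lam : Λ)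
    (F : MvPolynomial (Sg N A Λ) ℂ) (σ : Sg N A Λ →₀ ℕ) (b : Fin N →₀ ℕ)
    (i : Fin N) (hi : i ∉ c) (hb : b i ≠ 0) :
    coeff b (coeff σ (Psi c ref lam F)) = 0 := by
  induction F using MvPolynomial.induction_on' with
  | monomial δ r =>
    rw [Psi_monomial, TT, coeff_monomial]
    split_ifs with h1
    · rw [coeff_monomial, if_neg]
      intro h
      apply hb
      rw [← h, refp_apply, if_neg hi]
    · rfl
  | add p q hp hq =>
    rw [map_add, coeff_add, coeff_add, hp, hq, add_zero]

/-- The exponent vector with given parts. -/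
noncomputable def mk (c : Finset (Fin N)) (ref : Fin N → A) (lam : Λ)
    (σ : Sg N A Λ →₀ ℕ) (b : Fin N →₀ ℕ) (j : ℕ) : Sg N A Λ →₀ ℕ :=
  Finsupp.equivFunOnFinite.symm (Sum.elim
    (fun x => if x.1 ∈ c ∧ x.2 = ref x.1 then b x.1 else σ (Sum.inl x))
    (fun l => if l = lam then j else σ (Sum.inr l)))

theorem mk_inl (c : Finset (Fin N)) (ref : Fin N → A) (lam : Λ)
    (σ : Sg N A Λ →₀ ℕ) (b : Fin N →₀ ℕ) (j : ℕ) (x : Fin N × A) :
    mk c ref lam σ b j (Sum.inl x) = if x.1 ∈ c ∧ x.2 = ref x.1 then b x.1 else σ (Sum.inl x) :=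
  rfl

theorem mk_inr (c : Finset (Fin N)) (ref : Fin N → A) (lam : Λ)
    (σ : Sg N A Λ →₀ ℕ) (b : Fin N →₀ ℕ) (j : ℕ) (l : Λ) :
    mk c ref lam σ b j (Sum.inr l) = if l = lam then j else σ (Sum.inr l) :=
  rfl

theorem spec_mk (c : Finset (Fin N)) (ref : Fin N → A) (lam : Λ)
    (γ : Sg N A Λ →₀ ℕ) (b : Fin N →₀ ℕ) (j : ℕ) :
    spec c ref lam (mk c ref lam (spec c ref lam γ) b j) = spec c ref lam γ := by
  ext s
  rw [spec_apply]
  rcases s with ⟨i, x⟩ | l
  · rw [mk_inl]
    by_cases h : i ∈ c ∧ x = ref i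
    · rw [if_pos h, if_neg (show ¬ IsSpec c ref lam (Sum.inl (i, x)) from fun h' => h' h),
        spec_apply, if_neg (show ¬ IsSpec c ref lam (Sum.inl (i, x)) from fun h' => h' h)]
    · rw [if_neg h, if_pos (show IsSpec c ref lam (Sum.inl (i, x)) from h)]
  · rw [mk_inr]
    by_cases h : l = lam
    · rw [if_pos h, if_neg (show ¬ IsSpec c ref lam (Sum.inr l) from fun h' => h' h),
        spec_apply, if_neg (show ¬ IsSpec c ref lam (Sum.inr l) from fun h' => h' h)]
    · rw [if_neg h, if_pos (show IsSpec c ref lam (Sum.inr l) from h)]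

theorem refp_mk (c : Finset (Fin N)) (ref : Fin N → A) (lam : Λ)
    (σ : Sg N A Λ →₀ ℕ) (b : Fin N →₀ ℕ) (j : ℕ) (hb : ∀ i, i ∉ c → b i = 0) :
    refp c ref (mk c ref lam σ b j) = b := by
  ext i
  rw [refp_apply]
  by_cases hi : i ∈ c
  · rw [if_pos hi, mk_inl, if_pos ⟨hi, rfl⟩]
  · rw [if_neg hi, hb i hi]

/-- The degree of the spectators in a block. -/
noncomputable def om (c : Finset (Fin N)) (ref : Fin N → A) (lam : Λ) (γ : Sg N A Λ →₀ ℕ)
    (i : Fin N) : ℕ := ∑ a, spec c ref lam γ (Sum.inl (i, a))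

theorem bdeg_mk (c : Finset (Fin N)) (ref : Fin N → A) (lam : Λ)
    (γ : Sg N A Λ →₀ ℕ) (b : Fin N →₀ ℕ) (j : ℕ) (hb : ∀ i, i ∉ c → b i = 0) (i : Fin N) :
    bdeg (mk c ref lam (spec c ref lam γ) b j) i = b i + om c ref lam γ i := by
  unfold bdeg om
  by_cases hi : i ∈ c
  · rw [← Finset.add_sum_erase _ _ (Finset.mem_univ (ref i)),
      ← Finset.add_sum_erase _ (fun a => spec c ref lam γ (Sum.inl (i, a)))
        (Finset.mem_univ (ref i)), mk_inl, if_pos ⟨hi, rfl⟩, spec_apply,
      if_neg (show ¬ IsSpec c ref lam (Sum.inl (i, ref i)) from fun h' => h' ⟨hi, rfl⟩), zero_add]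
    congr 1
    apply Finset.sum_congr rfl
    intro a ha
    rw [mk_inl, if_neg]
    intro h
    exact Finset.ne_of_mem_erase ha h.2
  · rw [hb i hi, zero_add]
    apply Finset.sum_congr rfl
    intro a _
    rw [mk_inl, if_neg]
    intro h
    exact hi h.1

theorem mk_self (c : Finset (Fin N)) (ref : Fin N → A) (lam : Λ)
    (γ : Sg N A Λ →₀ ℕ) :
    mk c ref lam (spec c ref lam γ) (refp c ref γ) (γ (Sum.inr lam)) = γ := by
  have hb : ∀ i, i ∉ c → refp c ref γ i = 0 := by
    intro i hi
    rw [refp_apply, if_neg hi]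
  apply sep_inj c ref lam
  · exact spec_mk c ref lam γ _ _
  · exact refp_mk c ref lam _ _ _ hb
  · rw [mk_inr, if_pos rfl]

theorem bdeg_eq (c : Finset (Fin N)) (ref : Fin N → A) (lam : Λ)
    (γ : Sg N A Λ →₀ ℕ) (i : Fin N) :
    bdeg γ i = refp c ref γ i + om c ref lam γ i := by
  have hb : ∀ i, i ∉ c → refp c ref γ i = 0 := by
    intro i hi
    rw [refp_apply, if_neg hi]
  have h := bdeg_mk c ref lam γ (refp c ref γ) (γ (Sum.inr lam)) hb i
  rwa [mk_self] at h

theorem om_zero_card (c : Finset (Fin N)) (ref : Fin N → A) (lam : Λ)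
    (γ : Sg N A Λ →₀ ℕ) :
    (c.filter (fun i => om c ref lam γ i = 0)).card = pureCount c ref γ := by
  unfold pureCount
  congr 1
  apply Finset.filter_congr
  intro i hi
  unfold om
  rw [Finset.sum_eq_zero_iff]
  constructor
  · intro h a ha
    have := h a (Finset.mem_univ a)
    rwa [spec_apply, if_pos] at this
    intro h'
    exact ha h'.2
  · intro h a _
    rw [spec_apply]
    split_ifs with h1
    · apply h
      intro h2
      exact h1 ⟨hi, h2⟩
    · rfl

theorem lin_vec (c : Finset (Fin N)) (ref : Fin N → A) (v : Fin N → A → ℂ) (lam : Λ) :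
    lin (vec c v (Pi.single lam 1)) =
      sbt c ref v (∑ i ∈ c, X (Sum.inl (i, ref i)) + X (Sum.inr lam)) := by
  unfold lin
  rw [map_add, map_sum, BlockAX.sbt_X_inr, Fintype.sum_sum_type]
  congr 1
  · rw [Fintype.sum_prod_type, ← Finset.sum_subset (Finset.subset_univ c)]
    · apply Finset.sum_congr rfl
      intro i hi
      rw [BlockAX.sbt_X_inl_of c ref v i hi]
      apply Finset.sum_congr rfl
      intro a _
      simp only [vec, Sum.elim_inl, if_pos hi]
    · intro i _ hi
      apply Finset.sum_eq_zero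
      intro a _
      simp only [vec, Sum.elim_inl, if_neg hi, C_0, zero_mul]
  · rw [Finset.sum_eq_single lam]
    · simp only [vec, Sum.elim_inr, Pi.single_eq_same, C_1, one_mul]
    · intro l _ hl
      simp only [vec, Sum.elim_inr, Pi.single_eq_of_ne hl, C_0, zero_mul]
    · intro h
      exact absurd (Finset.mem_univ _) h

theorem Psi_L (c : Finset (Fin N)) (ref : Fin N → A) (lam : Λ) :
    Psi c ref lam (∑ i ∈ c, X (Sum.inl (i, ref i)) + X (Sum.inr lam)) =
      C ((∑ i ∈ c, X i) + C Polynomial.X) := by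
  rw [map_add, map_sum, map_add, map_sum, Psi_X, Sum.elim_inr, if_pos rfl]
  congr 1
  apply Finset.sum_congr rfl
  intro i hi
  rw [Psi_X, Sum.elim_inl, if_pos ⟨hi, rfl⟩]

end LeadSX

open LeadSX

/-- The leading structure of a multiple of the power of the linear form of a point. -/
theorem lead_struct (c : Finset (Fin N)) (ref : Fin N → A) (v : Fin N → A → ℂ)
    (hv : ∀ i ∈ c, v i (ref i) ≠ 0) (lam : Λ) (g : MvPolynomial (Sg N A Λ) ℂ) (a : Fin N → ℕ)
    (hlow : ∀ γ, key (bdeg γ) < key a →
      coeff γ (g * lin (vec c v (Pi.single lam 1)) ^ c.card) = 0) :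
    ∃ ft : MvPolynomial (Sg N A Λ) ℂ,
      sbt c ref v ft = g * lin (vec c v (Pi.single lam 1)) ^ c.card ∧
      ∀ γ, bdeg γ = a → coeff γ ft ≠ 0 →
        (∀ i ∈ c, a i ≠ 0) ∧ c.card ≤ γ (Sum.inr lam) + pureCount c ref γ := by
  set f := g * lin (vec c v (Pi.single lam 1)) ^ c.card with hf
  set ft := BlockAX.theta c ref v f with hft
  have hsbt : sbt c ref v ft = f := BlockAX.sbt_theta c ref v hv f
  refine ⟨ft, hsbt, ?_⟩
  have hft2 : ft = BlockAX.theta c ref v g *
      (∑ i ∈ c, X (Sum.inl (i, ref i)) + X (Sum.inr lam)) ^ c.card := by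
    rw [hft, hf, map_mul, map_pow, lin_vec c ref v lam, BlockAX.theta_sbt c ref v hv]
  -- low coefficients of `ft`
  have hlow' : ∀ γ, key (bdeg γ) < key a → coeff γ ft = 0 := by
    intro γ hγ
    have h1 : comp (bdeg γ) (fun l => γ (Sum.inr l)) f = 0 := by
      ext δ
      rw [coeff_comp, coeff_zero]
      split_ifs with h
      · apply hlow
        rw [h.1]
        exact hγ
      · rfl
    rw [← hsbt, comp_sbt] at h1
    have h2 : comp (bdeg γ) (fun l => γ (Sum.inr l)) ft = 0 := by
      apply sbt_injective c ref v hv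
      rw [h1, map_zero]
    have h3 := coeff_comp (bdeg γ) (fun l => γ (Sum.inr l)) ft γ
    rw [h2, coeff_zero, if_pos ⟨rfl, rfl⟩] at h3
    exact h3.symm
  intro γ hγa hγ
  set Q : MvPolynomial (Fin N) (Polynomial ℂ) :=
    coeff (spec c ref lam γ) (Psi c ref lam ft) with hQ
  have hdiv : ((∑ i ∈ c, X i) + C Polynomial.X) ^ c.card ∣ Q := by
    rw [hQ, hft2, map_mul, map_pow, Psi_L, ← map_pow, mul_comm, coeff_C_mul]
    exact dvd_mul_right _ _
  have hb : coeff (refp c ref γ) Q ≠ 0 := by
    intro h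
    apply hγ
    rw [← coeff_Psi c ref lam ft γ, ← hQ, h, Polynomial.coeff_zero]
  have hkey : (fun i => refp c ref γ i + om c ref lam γ i) = a := by
    rw [← hγa]
    funext i
    rw [bdeg_eq c ref lam γ i]
  obtain ⟨h1, h2⟩ := lead_lemma (R := Polynomial ℂ) N c (om c ref lam γ) Polynomial.X
    Polynomial.X_ne_zero c.card (Finset.card_filter_le _ _) Q hdiv (refp c ref γ) hb (by
      intro b' hb'
      rw [hkey] at hb'
      by_cases hsupp : ∀ i, i ∉ c → b' i = 0
      · ext j
        rw [Polynomial.coeff_zero]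
        have h3 := coeff_Psi c ref lam ft (mk c ref lam (spec c ref lam γ) b' j)
        rw [spec_mk, refp_mk _ _ _ _ _ _ hsupp, mk_inr, if_pos rfl] at h3
        rw [hQ, h3]
        apply hlow'
        have h4 : bdeg (mk c ref lam (spec c ref lam γ) b' j)
            = fun i => b' i + om c ref lam γ i := by
          funext i
          exact bdeg_mk c ref lam γ b' j hsupp i
        rw [h4]
        exact hb'
      · push Not at hsupp
        obtain ⟨i, hi, hbi⟩ := hsupp
        exact coeff_Psi_zero c ref lam ft _ b' i hi hbi)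
  refine ⟨?_, ?_⟩
  · intro i hi
    have := h1 i hi
    rwa [congrFun hkey i] at this
  · rw [om_zero_card] at h2
    by_contra hlt
    push Not at hlt
    apply hγ
    rw [← coeff_Psi c ref lam ft γ, ← hQ]
    obtain ⟨q, hq⟩ := h2
    rw [hq, Polynomial.coeff_X_pow_mul']
    rw [if_neg]
    omega

end Pool.Agent.H21.HD

end

section

/-!
From columns to PhiInj.
-/

namespace Pool.Agent.H21.HD

open MvPolynomial
open scoped Classical

variable {N : ℕ} {A Λ P : Type} [Fintype A] [Fintype Λ] [Fintype P]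

private theorem PhiColX_coeff_lin {σ : Type} [Fintype σ] (v : σ → ℂ) (γ : σ →₀ ℕ)
    (h : coeff γ (lin v) ≠ 0) : ∃ s, v s ≠ 0 ∧ γ = Finsupp.single s 1 := by
  unfold lin at h
  rw [coeff_sum] at h
  obtain ⟨s, -, hs⟩ := Finset.exists_ne_zero_of_sum_ne_zero h
  rw [coeff_C_mul, coeff_X] at hs
  refine ⟨s, left_ne_zero_of_mul hs, ?_⟩
  by_contra hne
  apply right_ne_zero_of_mul hs
  rw [if_neg (fun h' => hne h'.symm)]

private theorem PhiColX_lin_single {σ : Type} [Fintype σ] (v : σ → ℂ) (s : σ) :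
    coeff (Finsupp.single s 1) (lin v) = v s := by
  unfold lin
  rw [coeff_sum, Finset.sum_eq_single s]
  · rw [coeff_C_mul, coeff_X, if_pos rfl, mul_one]
  · intro t _ hts
    rw [coeff_C_mul, coeff_X, if_neg, mul_zero]
    intro h'
    exact hts ((Finsupp.single_left_injective one_ne_zero) h')
  · intro h'
    exact absurd (Finset.mem_univ s) h'

private theorem PhiColX_lin_hom {σ : Type} [Fintype σ] (v : σ → ℂ) :
    (lin v).IsHomogeneous 1 := by
  unfold lin
  apply IsHomogeneous.sum
  intro s _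
  have := (isHomogeneous_C σ (v s)).mul (isHomogeneous_X ℂ s)
  rwa [zero_add] at this

private theorem PhiColX_pow_supp {σ : Type} [Fintype σ] (v : σ → ℂ) (e : ℕ) (γ : σ →₀ ℕ)
    (h : coeff γ (lin v ^ e) ≠ 0) (s : σ) (hs : γ s ≠ 0) : v s ≠ 0 := by
  induction e generalizing γ with
  | zero =>
    rw [pow_zero, coeff_one] at h
    have : (0 : σ →₀ ℕ) = γ := by
      by_contra hne
      exact h (if_neg hne)
    rw [← this] at hs
    exact absurd rfl hs
  | succ n ih =>
    rw [pow_succ, coeff_mul] at h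
    obtain ⟨x, hx, hxn⟩ := Finset.exists_ne_zero_of_sum_ne_zero h
    replace hx := Finset.HasAntidiagonal.mem_antidiagonal.1 hx
    have h1 := left_ne_zero_of_mul hxn
    have h2 := right_ne_zero_of_mul hxn
    obtain ⟨t, ht, hxt⟩ := PhiColX_coeff_lin v x.2 h2
    by_cases hst : x.1 s ≠ 0
    · exact ih x.1 h1 hst
    · push Not at hst
      rw [← hx, Finsupp.add_apply, hst, zero_add, hxt] at hs
      have : t = s := by
        by_contra hne
        exact hs (Finsupp.single_eq_of_ne (fun h' => hne h'.symm))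
      rw [← this]
      exact ht

private theorem PhiColX_bdeg_degree (γ : Sg N A Λ →₀ ℕ) :
    ∑ i, bdeg γ i + ∑ l, γ (Sum.inr l) = γ.degree := by
  unfold bdeg
  rw [Finsupp.degree_eq_sum, Fintype.sum_sum_type, Fintype.sum_prod_type]

omit [Fintype Λ] in
private theorem PhiColX_bsupp (γ : Sg N A Λ →₀ ℕ) (i : Fin N) :
    i ∈ bsupp γ ↔ ∃ a, γ (Sum.inl (i, a)) ≠ 0 := by
  unfold bsupp bdeg
  rw [Finset.mem_filter]
  simp only [Finset.mem_univ, true_and]
  constructor
  · intro h
    by_contra hcon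
    push Not at hcon
    exact h (Finset.sum_eq_zero fun a _ => hcon a)
  · rintro ⟨a, ha⟩ h
    rw [Finset.sum_eq_zero_iff] at h
    exact ha (h a (Finset.mem_univ a))

/-- `PhiInj` from the injectivity in all columns, for points with distinct labels; here all the
sets `c p` are contained in `J`. -/
theorem phiInj_of_col (d : ℕ) (J : Finset (Fin N)) (c : P → Finset (Fin N)) (hc : ∀ p, c p ⊆ J)
    (hcd : ∀ p, (c p).card ≤ d) (lab : P → Λ) (v : P → Fin N → A → ℂ)
    (hv : ∀ p i a, v p i a ≠ 0)
    (h : ∀ (a : Fin N → ℕ) (μ : Λ → ℕ), Finset.univ.filter (fun i => a i ≠ 0) = J →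
      ∑ i, a i + ∑ l, μ l = d → ∃ ref : P → Fin N → A, ColInj c lab ref a μ v) :
    PhiInj d J c v (fun p => Pi.single (lab p) 1) := by
  intro g hg hgJ hsum
  by_contra hcon
  push Not at hcon
  obtain ⟨p₁, hp₁⟩ := hcon
  -- the products
  set L : P → MvPolynomial (Sg N A Λ) ℂ :=
    fun p => lin (vec (c p) (v p) (Pi.single (lab p) 1)) with hL
  set f : P → MvPolynomial (Sg N A Λ) ℂ := fun p => g p * L p ^ (c p).card with hf
  have hL0 : ∀ p, L p ≠ 0 := by
    intro p h0
    have h1 := PhiColX_lin_single (vec (c p) (v p) (Pi.single (lab p) 1)) (Sum.inr (lab p))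
    have h2 : lin (vec (c p) (v p) (Pi.single (lab p) 1)) = 0 := h0
    rw [h2, coeff_zero] at h1
    simp [vec] at h1
  have hf1 : f p₁ ≠ 0 := mul_ne_zero hp₁ (pow_ne_zero _ (hL0 p₁))
  -- the supports
  have hfhom : ∀ p, (f p).IsHomogeneous d := by
    intro p
    have h1 := (hg p).mul ((PhiColX_lin_hom
      (vec (c p) (v p) (Pi.single (lab p) 1))).pow (c p).card)
    rw [one_mul, Nat.sub_add_cancel (hcd p)] at h1
    exact h1
  -- minimal key
  obtain ⟨x₀, hx₀, hmin⟩ : ∃ x₀ : (p : P) × (Sg N A Λ →₀ ℕ),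
      coeff x₀.2 (f x₀.1) ≠ 0 ∧ ∀ p γ, key (bdeg γ) < key (bdeg x₀.2) → coeff γ (f p) = 0 := by
    let S : Finset ((p : P) × (Sg N A Λ →₀ ℕ)) := Finset.univ.sigma (fun p => (f p).support)
    have hS : S.Nonempty := by
      obtain ⟨γ, hγ⟩ := MvPolynomial.ne_zero_iff.1 hf1
      exact ⟨⟨p₁, γ⟩, by
        rw [Finset.mem_sigma]
        exact ⟨Finset.mem_univ _, MvPolynomial.mem_support_iff.2 hγ⟩⟩
    obtain ⟨x₀, hx₀, hmin⟩ := S.exists_min_image (fun x => key (bdeg x.2)) hS
    refine ⟨x₀, MvPolynomial.mem_support_iff.1 (Finset.mem_sigma.1 hx₀).2, ?_⟩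
    intro p γ hlt
    by_contra hne
    have h1 := hmin ⟨p, γ⟩ (by
      rw [Finset.mem_sigma]
      exact ⟨Finset.mem_univ _, MvPolynomial.mem_support_iff.2 hne⟩)
    exact absurd hlt (not_lt.2 h1)
  obtain ⟨p₀, γ₀⟩ := x₀
  simp only at hx₀ hmin
  set a : Fin N → ℕ := bdeg γ₀ with ha
  set μ : Λ → ℕ := fun l => γ₀ (Sum.inr l) with hμ
  -- decomposition of γ₀
  obtain ⟨γ₁, γ₂, hγ12, hγ1, hγ2⟩ : ∃ γ₁ γ₂, γ₁ + γ₂ = γ₀ ∧ coeff γ₁ (g p₀) ≠ 0 ∧
      coeff γ₂ (L p₀ ^ (c p₀).card) ≠ 0 := by
    have h1 := hx₀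
    rw [hf] at h1
    simp only at h1
    rw [coeff_mul] at h1
    obtain ⟨x, hx, hxn⟩ := Finset.exists_ne_zero_of_sum_ne_zero h1
    replace hx := Finset.HasAntidiagonal.mem_antidiagonal.1 hx
    exact ⟨x.1, x.2, hx, left_ne_zero_of_mul hxn, right_ne_zero_of_mul hxn⟩
  have hJ1 := hgJ p₀ γ₁ hγ1
  have hb2 : bsupp γ₂ ⊆ c p₀ := by
    intro i hi
    rw [PhiColX_bsupp] at hi
    obtain ⟨b, hb⟩ := hi
    have h1 := PhiColX_pow_supp _ _ γ₂ hγ2 (Sum.inl (i, b)) hb
    by_contra hic
    apply h1
    simp [vec, hic]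
  have hb0 : bsupp γ₀ = bsupp γ₁ ∪ bsupp γ₂ := by
    ext i
    rw [Finset.mem_union, PhiColX_bsupp, PhiColX_bsupp, PhiColX_bsupp, ← exists_or]
    apply exists_congr
    intro b
    rw [← hγ12, Finsupp.add_apply]
    omega
  have hdeg0 : γ₀.degree = d := by
    have h1 := hfhom p₀ hx₀
    rwa [Finsupp.degree_eq_weight_one]
  -- a first reference function
  obtain ⟨ref₀, -⟩ : ∃ ref : P → Fin N → A, ColInj c lab ref
      (fun i => if i ∈ J then 1 else 0) (fun l => if l = lab p₀ then d - J.card else 0) v := by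
    apply h
    · ext i
      rw [Finset.mem_filter]
      simp
    · have hcard : J.card ≤ d := by
        have h1 : γ₁.degree = d - (c p₀).card := by
          have h2 := hg p₀ hγ1
          rwa [Finsupp.degree_eq_weight_one]
        have h3 : (bsupp γ₁).card ≤ γ₁.degree := by
          rw [← PhiColX_bdeg_degree γ₁]
          calc (bsupp γ₁).card = ∑ i ∈ bsupp γ₁, 1 := by simp
            _ ≤ ∑ i ∈ bsupp γ₁, bdeg γ₁ i := by
              apply Finset.sum_le_sum
              intro i hi
              unfold bsupp at hi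
              rw [Finset.mem_filter] at hi
              omega
            _ ≤ ∑ i, bdeg γ₁ i := Finset.sum_le_sum_of_subset (Finset.subset_univ _)
            _ ≤ _ := Nat.le_add_right _ _
        have h4 := hcd p₀
        have h5 : J.card ≤ (bsupp γ₁).card + (c p₀).card := by
          rw [← hJ1]
          exact Finset.card_union_le _ _
        omega
      rw [Finset.sum_ite_mem, Finset.univ_inter, Finset.sum_ite_eq' Finset.univ (lab p₀)]
      simp
      omega
  -- the first claim
  have hne_comp : comp a μ (f p₀) ≠ 0 := by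
    intro h0
    have h1 := coeff_comp a μ (f p₀) γ₀
    rw [h0, coeff_zero, if_pos ⟨ha.symm, hμ.symm⟩] at h1
    exact hx₀ h1.symm
  have hc0 : ∀ i ∈ c p₀, a i ≠ 0 := by
    obtain ⟨ft, hft, hst⟩ := lead_struct (c p₀) (ref₀ p₀) (v p₀) (fun i _ => hv p₀ i _) (lab p₀)
      (g p₀) a (fun γ hγ => hmin p₀ γ hγ)
    have h1 : comp a μ ft ≠ 0 := by
      intro h0
      apply hne_comp
      have h2 : f p₀ = sbt (c p₀) (ref₀ p₀) (v p₀) ft := hft.symm
      rw [h2, comp_sbt, h0, map_zero]
    obtain ⟨γ, hγ⟩ := MvPolynomial.ne_zero_iff.1 h1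
    rw [coeff_comp] at hγ
    have h2 : bdeg γ = a ∧ (fun l => γ (Sum.inr l)) = μ := by
      by_contra hne
      exact hγ (if_neg hne)
    rw [if_pos h2] at hγ
    exact (hst γ h2.1 hγ).1
  have haJ : Finset.univ.filter (fun i => a i ≠ 0) = J := by
    have h1 : Finset.univ.filter (fun i => a i ≠ 0) = bsupp γ₀ := rfl
    rw [h1]
    apply Finset.Subset.antisymm
    · rw [hb0, ← hJ1]
      exact Finset.union_subset_union_right hb2
    · rw [← hJ1]
      apply Finset.union_subset
      · rw [hb0]
        exact Finset.subset_union_left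
      · intro i hi
        rw [← h1, Finset.mem_filter]
        exact ⟨Finset.mem_univ i, hc0 i hi⟩
  have hsumd : ∑ i, a i + ∑ l, μ l = d := by
    rw [← hdeg0, ← PhiColX_bdeg_degree γ₀]
  obtain ⟨ref, hcol⟩ := h a μ haJ hsumd
  -- leading structures for all points
  have hex : ∀ p, ∃ ft : MvPolynomial (Sg N A Λ) ℂ, sbt (c p) (ref p) (v p) ft = f p ∧
      ∀ γ, bdeg γ = a → coeff γ ft ≠ 0 →
        (∀ i ∈ c p, a i ≠ 0) ∧
          (c p).card ≤ γ (Sum.inr (lab p)) + pureCount (c p) (ref p) γ := fun p =>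
    lead_struct (c p) (ref p) (v p) (fun i _ => hv p i _) (lab p) (g p) a
      (fun γ hγ => hmin p γ hγ)
  choose ft hft hst using hex
  have hAdm : Adm c lab ref a μ (fun p => comp a μ (ft p)) := by
    intro p γ hγ
    rw [coeff_comp] at hγ
    have h2 : bdeg γ = a ∧ (fun l => γ (Sum.inr l)) = μ := by
      by_contra hne
      exact hγ (if_neg hne)
    rw [if_pos h2] at hγ
    refine ⟨h2.1, h2.2, ?_⟩
    have h3 := (hst p γ h2.1 hγ).2
    have h4 : γ (Sum.inr (lab p)) = μ (lab p) := congrFun h2.2 (lab p)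
    rwa [h4] at h3
  have hzero : ∑ p, sbt (c p) (ref p) (v p) (comp a μ (ft p)) = 0 := by
    have h1 : ∀ p, sbt (c p) (ref p) (v p) (comp a μ (ft p)) = comp a μ (f p) := by
      intro p
      rw [← comp_sbt, hft p]
    rw [Finset.sum_congr rfl (fun p _ => h1 p), ← map_sum]
    ext γ
    rw [coeff_comp, coeff_zero]
    split_ifs with h2
    · apply hsum γ
      rw [← haJ, ← h2.1]
      rfl
    · rfl
  have hfin := hcol _ hAdm hzero p₀
  apply hne_comp
  rw [← hft p₀, comp_sbt]
  rw [hfin, map_zero]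

end Pool.Agent.H21.HD

end
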