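import Pool.Agent.H94.LP5.M35
import Pool.Agent.H94.LP5.M46
import Pool.Agent.H94.LP5.M48
import Pool.Agent.H94.LP5.M59
import Pool.Agent.H94.LP5.M61

/-! The parts of this file: H21.HD.IndepG, H21.HD.Lower, H21.HD.Main, H51.TB.Cone. -/

section

/-!
Independence for general points.
-/

namespace Pool.Agent.H21.HD

open MvPolynomial Pool.Agent.H18.Fat
open scoped Classical

/-- Independence in the absence of a pair with large multiplicities. -/
theorem indep_general (d : ℕ) (hd : 1 ≤ d) (ε : ℝ) (hε : 0 < ε) : ∃ r₀ : ℕ, ∀ r : ℕ, r₀ ≤ r →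
    ∀ (k : ℕ) (m : Fin k → ℕ), (∀ i, 1 ≤ m i ∧ m i ≤ d) →
    (∀ i j, i ≠ j → m i + m j ≤ d + 1) →
    (∑ i, ((m i + r - 1).choose r : ℝ)) ≤ (1 - ε) * ((d + r).choose r : ℝ) →
    ForGeneralPoints r k fun p => ImposesMaximalConditions r d p m := by
  obtain ⟨r₀, h⟩ := ind_main d hd ε hε
  refine ⟨max r₀ 1, fun r hr k m hm hpair hsum => ?_⟩
  have hr0 : r₀ ≤ r := (le_max_left _ _).trans hr
  have hr1 : 1 ≤ r := (le_max_right _ _).trans hr
  obtain ⟨w, hw⟩ := h r hr0 (Fin k) (fun i => d + 1 - m i)
    (fun i => by have := hm i; omega)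
    (fun i j hij => by have := hpair i j hij; have := hm i; have := hm j; omega)
    (by
      have h1 : ∀ i, ((r + (d - (d + 1 - m i))).choose r : ℝ) = ((m i + r - 1).choose r : ℝ) := by
        intro i
        have := hm i
        congr 2
        omega
      simp only [h1]
      rwa [add_comm r d])
  have h1 := finrank_fat_of_indep d w m hm hw
  refine ((general_finrank_le d w m).and (ForGeneralPoints.coord_ne_zero r k)).mono ?_
  rintro p ⟨hp1, hp2⟩
  have h2 := finrank_fatForms_ge (d := d) hr1 (fun i => hp2 i 0) m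
  unfold ImposesMaximalConditions
  have h3 : (Module.finrank ℂ (fatForms r d p m) : ℤ) ≤ Module.finrank ℂ (fatForms r d w m) := by
    exact_mod_cast hp1
  have h4 : (0 : ℤ) ≤ Module.finrank ℂ (fatForms r d p m) :=
    Int.natCast_nonneg _
  rw [max_eq_right (by linarith)]
  linarith

end Pool.Agent.H21.HD

end

section

/-!
Lower bound.
-/

namespace Pool.Agent.H21.HD

open MvPolynomial Pool.Agent.H18.Fat
open scoped Classical

namespace LowerX

/-- A finite conjunction of general properties is general. -/
lemma forGeneral_forall {r k : ℕ} {κ : Type} (S : Finset κ)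
    (P : κ → (Fin k → Fin (r + 1) → ℂ) → Prop) (h : ∀ a ∈ S, ForGeneralPoints r k (P a)) :
    ForGeneralPoints r k fun p => ∀ a ∈ S, P a p := by
  induction S using Finset.induction_on with
  | empty => exact ⟨1, one_ne_zero, fun p _ a ha => absurd ha (Finset.notMem_empty a)⟩
  | insert a s ha ih =>
    refine ((h a (Finset.mem_insert_self a s)).and
      (ih fun b hb => h b (Finset.mem_insert_of_mem hb))).mono ?_
    rintro p ⟨h1, h2⟩ b hb
    rcases Finset.mem_insert.1 hb with rfl | hb
    · exact h1
    · exact h2 b hb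

lemma choose_step (r j : ℕ) :
    ((r : ℝ) + 1) * ((j + r).choose r : ℝ) ≤ ((j : ℝ) + 1) * ((j + 1 + r).choose r : ℝ) := by
  have h1 : (j + 1) * (j + 1 + r).choose r = (j + 1 + r) * (j + r).choose r := by
    have h2 := Nat.add_one_mul_choose_eq (j + r) j
    have h3 : (j + r).choose j = (j + r).choose r := Nat.choose_symm_add
    have h4 : (j + r + 1).choose (j + 1) = (j + 1 + r).choose r := by
      have : j + r + 1 = j + 1 + r := by ring
      rw [this]
      exact Nat.choose_symm_add
    rw [h3, h4] at h2
    have h5 : j + 1 + r = j + r + 1 := by ring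
    rw [h5] at h2 ⊢
    linarith
  have h2 : ((j : ℝ) + 1) * ((j + 1 + r).choose r : ℝ) =
      ((j : ℝ) + 1 + r) * ((j + r).choose r : ℝ) := by
    exact_mod_cast h1
  rw [h2]
  apply mul_le_mul_of_nonneg_right _ (by positivity)
  have : (0 : ℝ) ≤ j := by positivity
  linarith

lemma choose_steps (r d : ℕ) : ∀ l ≤ d, ((r : ℝ) + 1) ^ l * ((d - l + r).choose r : ℝ) ≤
    (d.descFactorial l : ℝ) * ((d + r).choose r : ℝ) := by
  intro l
  induction l with
  | zero => intro _; simp
  | succ l ih =>
    intro hl
    have h1 := ih (by omega)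
    have h2 := choose_step r (d - (l + 1))
    have h3 : d - (l + 1) + 1 = d - l := by omega
    rw [h3] at h2
    have h4 : ((d - (l + 1) : ℕ) : ℝ) + 1 = ((d - l : ℕ) : ℝ) := by
      have : (d - (l + 1) : ℕ) + 1 = d - l := by omega
      exact_mod_cast this
    rw [h4] at h2
    rw [Nat.descFactorial_succ]
    push_cast [Nat.cast_mul]
    calc ((r : ℝ) + 1) ^ (l + 1) * ((d - (l + 1) + r).choose r : ℝ)
        = ((r : ℝ) + 1) ^ l * (((r : ℝ) + 1) * ((d - (l + 1) + r).choose r : ℝ)) := by ring
      _ ≤ ((r : ℝ) + 1) ^ l * (((d - l : ℕ) : ℝ) * ((d - l + r).choose r : ℝ)) :=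
        mul_le_mul_of_nonneg_left h2 (by positivity)
      _ = ((d - l : ℕ) : ℝ) * (((r : ℝ) + 1) ^ l * ((d - l + r).choose r : ℝ)) := by ring
      _ ≤ ((d - l : ℕ) : ℝ) * ((d.descFactorial l : ℝ) * ((d + r).choose r : ℝ)) :=
        mul_le_mul_of_nonneg_left h1 (by positivity)
      _ = _ := by ring

/-- The total number of forms of degree `d - e i`. -/
lemma sum_le (r d k : ℕ) (e : Fin k → ℕ) (he : ∀ i, 1 ≤ e i)
    (hload : ∀ i, 1 ≤ i → i ≤ d → load r e Finset.univ i ≤ 2) :
    ∑ i ∈ Finset.univ.filter (fun i : Fin k => e i ≤ d), ((d - e i + r).choose r : ℝ) ≤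
      2 ^ (d + 1) * ((d + r).choose r : ℝ) := by
  have h1 : ∑ i ∈ Finset.univ.filter (fun i : Fin k => e i ≤ d), ((d - e i + r).choose r : ℝ) =
      ∑ l ∈ Finset.range (d + 1), ∑ i ∈ (Finset.univ.filter
        (fun i : Fin k => e i ≤ d)).filter (fun i => e i = l), ((d - e i + r).choose r : ℝ) := by
    rw [Finset.sum_fiberwise_of_maps_to]
    intro i hi
    rw [Finset.mem_filter] at hi
    rw [Finset.mem_range]
    omega
  rw [h1]
  have h2 : ∀ l ∈ Finset.range (d + 1), ∑ i ∈ (Finset.univ.filter
        (fun i : Fin k => e i ≤ d)).filter (fun i => e i = l), ((d - e i + r).choose r : ℝ) ≤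
      2 * ((d.choose l : ℝ) * ((d + r).choose r : ℝ)) := by
    intro l hl
    rw [Finset.mem_range] at hl
    have h3 : ∑ i ∈ (Finset.univ.filter
        (fun i : Fin k => e i ≤ d)).filter (fun i => e i = l), ((d - e i + r).choose r : ℝ) =
        ((Finset.univ.filter (fun i : Fin k => e i = l)).card : ℝ) *
          ((d - l + r).choose r : ℝ) := by
      have h4 : (Finset.univ.filter (fun i : Fin k => e i ≤ d)).filter (fun i => e i = l) =
          Finset.univ.filter (fun i : Fin k => e i = l) := by
        ext i
        simp only [Finset.mem_filter, Finset.mem_univ, true_and]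
        constructor
        · rintro ⟨_, h5⟩; exact h5
        · intro h5; exact ⟨by omega, h5⟩
      rw [h4, Finset.sum_congr rfl (g := fun _ => ((d - l + r).choose r : ℝ)), Finset.sum_const,
        nsmul_eq_mul]
      intro i hi
      rw [(Finset.mem_filter.1 hi).2]
    rw [h3]
    rcases Nat.eq_zero_or_pos l with hl0 | hl0
    · subst hl0
      have h4 : Finset.univ.filter (fun i : Fin k => e i = 0) = ∅ := by
        rw [Finset.filter_eq_empty_iff]
        intro i _ h5
        have := he i
        omega
      rw [h4]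
      simp only [Finset.card_empty, Nat.cast_zero, zero_mul]
      positivity
    · have h4 := hload l hl0 (by omega)
      unfold load at h4
      rw [div_le_iff₀ (by positivity)] at h4
      have h5 := choose_steps r d l (by omega)
      have h6 : (d.descFactorial l : ℝ) = (l.factorial : ℝ) * (d.choose l : ℝ) := by
        exact_mod_cast Nat.descFactorial_eq_factorial_mul_choose d l
      have h7 : (0 : ℝ) < (l.factorial : ℝ) := by exact_mod_cast l.factorial_pos
      rw [h6] at h5
      apply le_of_mul_le_mul_left _ h7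
      calc (l.factorial : ℝ) * (((Finset.univ.filter (fun i : Fin k => e i = l)).card : ℝ) *
          ((d - l + r).choose r : ℝ))
          = ((l.factorial : ℝ) * ((Finset.univ.filter (fun i : Fin k => e i = l)).card : ℝ)) *
          ((d - l + r).choose r : ℝ) := by ring
        _ ≤ (2 * ((r : ℝ) + 1) ^ l) * ((d - l + r).choose r : ℝ) :=
          mul_le_mul_of_nonneg_right h4 (by positivity)
        _ = 2 * (((r : ℝ) + 1) ^ l * ((d - l + r).choose r : ℝ)) := by ring
        _ ≤ 2 * ((l.factorial : ℝ) * (d.choose l : ℝ) * ((d + r).choose r : ℝ)) := by linarith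
        _ = _ := by ring
  refine (Finset.sum_le_sum h2).trans ?_
  rw [← Finset.mul_sum, ← Finset.sum_mul]
  have h3 : ∑ l ∈ Finset.range (d + 1), (d.choose l : ℝ) = 2 ^ d := by
    exact_mod_cast Nat.sum_range_choose d
  rw [h3, pow_succ]
  apply le_of_eq
  ring

/-- The indices below `t`. -/
noncomputable def pre (k t : ℕ) : Finset (Fin k) := Finset.univ.filter (fun i => i.val < t)

lemma mem_pre {k t : ℕ} {i : Fin k} : i ∈ pre k t ↔ i.val < t := by
  unfold pre
  simp

/-- The forms for the points in `I`. -/
noncomputable def mu {k : ℕ} (e : Fin k → ℕ) (I : Finset (Fin k)) (j : ℕ) : Fin k → ℕ :=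
  fun i => if i ∈ I then j + 1 - e i else 0

lemma load_mono {P : Type} (r : ℕ) (e : P → ℕ) {I I' : Finset P} (h : I ⊆ I') (i : ℕ) :
    load r e I i ≤ load r e I' i := by
  unfold load
  apply div_le_div_of_nonneg_right _ (by positivity)
  apply mul_le_mul_of_nonneg_left _ (by positivity)
  exact_mod_cast Finset.card_le_card (Finset.filter_subset_filter _ h)

/-- The telescoping inequality. -/
lemma telescope {r k d : ℕ} (e : Fin k → ℕ) (he : ∀ i, 1 ≤ e i) (p : Fin k → Fin (r + 1) → ℂ)
    (ε : ℝ) (h : ∀ t ≤ k, ∀ j < d, (Module.finrank ℂ (fatForms r j p (mu e (pre k t) j)) : ℝ) ≤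
      (fro r e (pre k t) j : ℝ) + ε * ((j + r).choose r : ℝ)) :
    ∀ t ≤ k, (fro r e (pre k t) d : ℝ) -
      ε * ∑ i ∈ (pre k t).filter (fun i => e i ≤ d), ((d - e i + r).choose r : ℝ) ≤
      (Module.finrank ℂ (fatForms r d p (mu e (pre k t) d)) : ℝ) := by
  intro t
  induction t with
  | zero =>
    intro _
    have h1 : pre k 0 = ∅ := by
      ext i
      simp [mem_pre]
    rw [h1]
    have h2 : fro r e ∅ d = ((d + r).choose r : ℤ) := by
      unfold fro
      simp [add_comm r d]
    rw [h2]
    have h3 : fatForms r d p (mu e ∅ d) = homogeneousSubmodule (Fin (r + 1)) ℂ d := by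
      ext F
      constructor
      · intro hF
        exact hF.1
      · intro hF
        refine ⟨hF, fun i => ?_⟩
        intro β hβ
        simp [mu] at hβ
    have h4 : Module.finrank ℂ (fatForms r d p (mu e ∅ d)) = (d + r).choose r := by
      have h5 := rank_full_add_finrank (d := d) p (mu e ∅ d)
      have h6 : Module.finrank ℂ (LinearMap.range (fullMat r d p (mu e ∅ d)).mulVecLin) = 0 := by
        have h7 : (fullMat r d p (mu e ∅ d)) = 0 := by
          ext x α
          exfalso
          obtain ⟨i, β, hβ⟩ := x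
          rw [mem_full] at hβ
          simp [mu] at hβ
        rw [h7]
        simp
      omega
    rw [h4]
    simp
  | succ t ih =>
    intro ht
    have ih1 := ih (by omega)
    let i₀ : Fin k := ⟨t, by omega⟩
    have hi₀ : i₀ ∉ pre k t := by
      rw [mem_pre]
      simp [i₀]
    have hpre : pre k (t + 1) = insert i₀ (pre k t) := by
      ext i
      rw [Finset.mem_insert, mem_pre, mem_pre, Fin.ext_iff]
      simp only [i₀]
      omega
    have hmu0 : mu e (pre k t) d i₀ = 0 := by
      unfold mu
      rw [if_neg hi₀]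
    by_cases hed : e i₀ ≤ d
    · have h1 := finrank_fat_le_add' d p (mu e (pre k t) d) i₀ (e i₀) hed hmu0
      have h2 : Function.update (mu e (pre k t) d) i₀ (d + 1 - e i₀) = mu e (pre k (t + 1)) d := by
        funext i
        by_cases hi : i = i₀
        · subst hi
          rw [Function.update_self]
          unfold mu
          rw [hpre, if_pos (Finset.mem_insert_self _ _)]
        · rw [Function.update_of_ne hi]
          unfold mu
          rw [hpre]
          by_cases hi' : i ∈ pre k t
          · rw [if_pos hi', if_pos (Finset.mem_insert_of_mem hi')]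
          · rw [if_neg hi', if_neg (by
              rw [Finset.mem_insert]
              tauto)]
      have h3 : (fun i => mu e (pre k t) d i - e i₀) = mu e (pre k t) (d - e i₀) := by
        funext i
        unfold mu
        by_cases hi' : i ∈ pre k t
        · rw [if_pos hi', if_pos hi']
          omega
        · rw [if_neg hi', if_neg hi']
          omega
      have h1' : Module.finrank ℂ (fatForms r d p (mu e (pre k t) d)) ≤
          Module.finrank ℂ (fatForms r d p (mu e (pre k (t + 1)) d)) +
          Module.finrank ℂ (fatForms r (d - e i₀) p (mu e (pre k t) (d - e i₀))) := by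
        rw [← h2, ← h3]
        exact h1
      have h4 := h t (by omega) (d - e i₀) (by have := he i₀; omega)
      have h5 : fro r e (pre k (t + 1)) d = fro r e (pre k t) d - fro r e (pre k t) (d - e i₀) := by
        rw [hpre]
        have h6 := fro_insert' r e (pre k t) i₀ hi₀ d
        rw [if_pos hed] at h6
        exact h6
      have h6 : (pre k (t + 1)).filter (fun i => e i ≤ d) =
          insert i₀ ((pre k t).filter (fun i => e i ≤ d)) := by
        rw [hpre]
        ext i
        simp only [Finset.mem_filter, Finset.mem_insert]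
        constructor
        · rintro ⟨rfl | h7, h8⟩
          · exact Or.inl rfl
          · exact Or.inr ⟨h7, h8⟩
        · rintro (rfl | ⟨h7, h8⟩)
          · exact ⟨Or.inl rfl, hed⟩
          · exact ⟨Or.inr h7, h8⟩
      have h7 : (Module.finrank ℂ (fatForms r d p (mu e (pre k t) d)) : ℝ) ≤
          (Module.finrank ℂ (fatForms r d p (mu e (pre k (t + 1)) d)) : ℝ) +
          (Module.finrank ℂ (fatForms r (d - e i₀) p (mu e (pre k t) (d - e i₀))) : ℝ) := by
        exact_mod_cast h1'
      rw [h5, h6, Finset.sum_insert (by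
        rw [Finset.mem_filter]
        tauto)]
      push_cast
      linarith
    · have h2 : mu e (pre k (t + 1)) d = mu e (pre k t) d := by
        funext i
        unfold mu
        rw [hpre]
        by_cases hi : i = i₀
        · subst hi
          rw [if_pos (Finset.mem_insert_self _ _), if_neg hi₀]
          omega
        · by_cases hi' : i ∈ pre k t
          · rw [if_pos hi', if_pos (Finset.mem_insert_of_mem hi')]
          · rw [if_neg hi', if_neg (by
              rw [Finset.mem_insert]
              tauto)]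
      have h5 : fro r e (pre k (t + 1)) d = fro r e (pre k t) d := by
        rw [hpre]
        have h6 := fro_insert' r e (pre k t) i₀ hi₀ d
        rw [if_neg hed, sub_zero] at h6
        exact h6
      have h6 : (pre k (t + 1)).filter (fun i => e i ≤ d) =
          ((pre k t).filter (fun i => e i ≤ d)) := by
        rw [hpre]
        ext i
        simp only [Finset.mem_filter, Finset.mem_insert]
        constructor
        · rintro ⟨rfl | h7, h8⟩
          · exact absurd h8 hed
          · exact ⟨h7, h8⟩
        · rintro ⟨h7, h8⟩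
          exact ⟨Or.inr h7, h8⟩
      rw [h2, h5, h6]
      exact ih1

end LowerX

open LowerX

/-- Lower bound inside the region. -/
theorem lower_general (d : ℕ) (η ε : ℝ) (hη : 0 < η) (hε : 0 < ε) : ∃ r₀ : ℕ, ∀ r : ℕ, r₀ ≤ r →
    ∀ (k : ℕ) (e : Fin k → ℕ), (∀ i, 1 ≤ e i) →
    (∀ j ≤ d, η * ((j + r).choose r : ℝ) ≤ (fro r e Finset.univ j : ℝ)) →
    ForGeneralPoints r k fun p =>
      (fro r e Finset.univ d : ℝ) - ε * ((d + r).choose r : ℝ) ≤
        (Module.finrank ℂ (fatForms r d p (fun i => d + 1 - e i)) : ℝ) := by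
  set ε' : ℝ := ε / 2 ^ (d + 1) with hε'
  have hε'0 : 0 < ε' := by positivity
  obtain ⟨r₁, h₁⟩ := region_of_fro d η hη
  choose R hR using fun j : ℕ => fro_asymp j 2 (η / 2) (by linarith)
  choose U hU using fun j : ℕ => upper_general j ε' hε'0
  refine ⟨r₁ + (Finset.range (d + 1)).sup R + (Finset.range (d + 1)).sup U,
    fun r hr k e he hfro => ?_⟩
  have hRr : ∀ j ≤ d, R j ≤ r := by
    intro j hj
    have h1 : R j ≤ (Finset.range (d + 1)).sup R :=
      Finset.le_sup (f := R) (Finset.mem_range.2 (Nat.lt_succ_of_le hj))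
    omega
  have hUr : ∀ j ≤ d, U j ≤ r := by
    intro j hj
    have h1 : U j ≤ (Finset.range (d + 1)).sup U :=
      Finset.le_sup (f := U) (Finset.mem_range.2 (Nat.lt_succ_of_le hj))
    omega
  obtain ⟨hload, hphi⟩ := h₁ r (by omega) (Fin k) e Finset.univ (fun i _ => he i) hfro
  have hs : ∀ j, (0 : ℝ) < ((j + r).choose r : ℝ) := by
    intro j
    exact_mod_cast Nat.choose_pos (by omega)
  -- the numbers of the prefixes are nonnegative
  have hpre : ∀ t ≤ k, ∀ j < d, 0 ≤ (fro r e (pre k t) j : ℝ) := by
    intro t _ j hj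
    have h1 := hR j r (hRr j hj.le) (Fin k) e (pre k t) (fun i _ => he i) (fun i h2 h3 =>
      (load_mono r e (Finset.subset_univ _) i).trans (hload i h2 (by omega)))
    have h2 : phi (load r e Finset.univ) j ≤ phi (load r e (pre k t)) j := by
      apply phi_anti d _ _ (fun i => RegionX.load_nonneg' r e _ i)
        (fun i => load_mono r e (Finset.subset_univ _) i) _ j hj.le
      intro i hi
      have := hphi i hi
      linarith
    have h3 := hphi j hj.le
    have h4 := (abs_le.1 h1).1
    have h5 : η / 2 * ((j + r).choose r : ℝ) ≤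
        phi (load r e (pre k t)) j * ((j + r).choose r : ℝ) :=
      mul_le_mul_of_nonneg_right (h3.trans h2) (hs j).le
    linarith
  have h2 : ForGeneralPoints r k fun p => ∀ x ∈ (Finset.range (k + 1)) ×ˢ (Finset.range d),
      (Module.finrank ℂ (fatForms r x.2 p (mu e (pre k x.1) x.2)) : ℝ) ≤
      (fro r e (pre k x.1) x.2 : ℝ) + ε' * ((x.2 + r).choose r : ℝ) := by
    apply forGeneral_forall
    rintro ⟨t, j⟩ hx
    rw [Finset.mem_product, Finset.mem_range, Finset.mem_range] at hx
    simp only at hx ⊢
    have h3 := hpre t (by omega) j hx.2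
    have h4 : 0 ≤ ε' * ((j + r).choose r : ℝ) := mul_nonneg hε'0.le (hs j).le
    exact hU j r (hUr j hx.2.le) k e he (pre k t) (by linarith)
  refine h2.mono fun p hp => ?_
  have h3 := telescope (d := d) e he p ε' (fun t ht j hj => hp (t, j) (by
    rw [Finset.mem_product, Finset.mem_range, Finset.mem_range]
    simp only
    omega)) k le_rfl
  have h4 : pre k k = Finset.univ := by
    ext i
    rw [mem_pre]
    simp
  rw [h4] at h3
  have h5 : mu e Finset.univ d = fun i => d + 1 - e i := by
    funext i
    simp [mu]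
  rw [h5] at h3
  have h6 := sum_le r d k e he hload
  have h7 : ε' * ∑ i ∈ Finset.univ.filter (fun i : Fin k => e i ≤ d),
      ((d - e i + r).choose r : ℝ) ≤ ε * ((d + r).choose r : ℝ) := by
    calc ε' * ∑ i ∈ Finset.univ.filter (fun i : Fin k => e i ≤ d), ((d - e i + r).choose r : ℝ)
        ≤ ε' * (2 ^ (d + 1) * ((d + r).choose r : ℝ)) := mul_le_mul_of_nonneg_left h6 hε'0.le
      _ = ε * ((d + r).choose r : ℝ) := by
        rw [hε']
        field_simp
  linarith

end Pool.Agent.H21.HD

end

section

/-!
The main theorem.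
-/

namespace Pool.Agent.H21.HD

open MvPolynomial Pool.Agent.H18.Fat
open scoped Classical

namespace MainX

/-- `fro` in the absence of pairs. -/
lemma fro_no_pairs {P : Type} (r d : ℕ) (e : P → ℕ) (I : Finset P) (he : ∀ i ∈ I, e i ≤ d)
    (h : ∀ i ∈ I, ∀ j ∈ I, i ≠ j → d + 1 ≤ e i + e j) :
    fro r e I d = ((d + r).choose r : ℤ) - ∑ i ∈ I, ((d - e i + r).choose r : ℤ) := by
  induction I using Finset.induction_on with
  | empty =>
    unfold fro
    simp [add_comm r d]
  | insert a s ha ih =>
    rw [fro_insert r e s a ha, if_pos (he a (Finset.mem_insert_self a s)),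
      ih (fun i hi => he i (Finset.mem_insert_of_mem hi))
        (fun i hi j hj => h i (Finset.mem_insert_of_mem hi) j (Finset.mem_insert_of_mem hj)),
      Finset.sum_insert ha]
    have h1 : fro r e s (d - e a) = ((d - e a + r).choose r : ℤ) := by
      have h2 := fro_union_large r (d - e a) e ∅ s (Finset.disjoint_empty_left s) (by
        intro i hi
        have h3 := h a (Finset.mem_insert_self a s) i (Finset.mem_insert_of_mem hi)
          (fun hc => ha (hc ▸ hi))
        have h4 := he a (Finset.mem_insert_self a s)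
        omega)
      rw [Finset.empty_union] at h2
      rw [h2]
      unfold fro
      simp [add_comm r (d - e a)]
    rw [h1]
    ring

/-- A multiplicity larger than the degree. -/
lemma big_mult {r k d : ℕ} (p : Fin k → Fin (r + 1) → ℂ) (m : Fin k → ℕ) (i : Fin k)
    (hi : d < m i) : Module.finrank ℂ (fatForms r d p m) = 0 := by
  apply fat_eq_bot_of_span
  intro F hF
  apply Submodule.subset_span
  have h1 : d + 1 - m i = 0 := by omega
  refine ⟨i, F, ?_, ?_, ?_⟩
  · simp only [h1]
    omega
  · simp only [h1]
    simpa using hF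
  · simp only [h1, pow_zero, mul_one]

end MainX

open MainX

/-- The main theorem. -/
theorem main (d : ℕ) (η : ℝ) (hη : 0 < η) : ∃ r₀ : ℕ, ∀ r : ℕ, r₀ ≤ r →
    ∀ (k : ℕ) (m : Fin k → ℕ), (∀ i, 1 ≤ m i) →
    ((∀ i, m i ≤ d) →
      (∀ j ≤ d, η * ((j + r).choose r : ℝ) ≤ (fro r (fun i => d + 1 - m i) Finset.univ j : ℝ)) →
      ForGeneralPoints r k fun p =>
        (¬ ImposesMaximalConditions r d p m ↔ ∃ i j, i ≠ j ∧ d + 2 ≤ m i + m j) ∧
        |(Module.finrank ℂ (fatForms r d p m) : ℝ) -
          (fro r (fun i => d + 1 - m i) Finset.univ d : ℝ)| ≤ η * ((d + r).choose r : ℝ)) ∧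
    ((∃ i, d < m i) ∨ (∃ I : Finset (Fin k), (∀ i ∈ I, m i ≤ d) ∧ ∃ j ≤ d,
        (fro r (fun i => d + 1 - m i) I j : ℝ) ≤ - (η * ((j + r).choose r : ℝ))) →
      ForGeneralPoints r k fun p =>
        Module.finrank ℂ (fatForms r d p m) = 0 ∧ ImposesMaximalConditions r d p m) := by
  -- the constants
  choose V hV using fun j : Fin (d + 1) =>
    vanish_general j.1 d (Nat.lt_succ_iff.1 j.2) η hη
  obtain ⟨r₁, h₁⟩ : ∃ r₁ : ℕ, ∀ r : ℕ, r₁ ≤ r → ∀ (k : ℕ) (m : Fin k → ℕ),
      (∀ i, 1 ≤ m i ∧ m i ≤ d) → (∀ i j, i ≠ j → m i + m j ≤ d + 1) →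
      (∑ i, ((m i + r - 1).choose r : ℝ)) ≤ (1 - η) * ((d + r).choose r : ℝ) →
      ForGeneralPoints r k fun p => ImposesMaximalConditions r d p m := by
    rcases Nat.eq_zero_or_pos d with hd | hd
    · subst hd
      refine ⟨0, fun r _ k m hm _ _ => ?_⟩
      have hk : k = 0 := by
        by_contra hk
        have := hm ⟨0, Nat.pos_of_ne_zero hk⟩
        omega
      subst hk
      refine ⟨1, one_ne_zero, fun p _ => ?_⟩
      unfold ImposesMaximalConditions
      have h5 := rank_full_add_finrank (d := 0) p m
      have h6 : Module.finrank ℂ (LinearMap.range (fullMat r 0 p m).mulVecLin) = 0 := by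
        have h7 : (fullMat r 0 p m) = 0 := by
          ext x α
          exact absurd x.1.2 (Nat.not_lt_zero _)
        rw [h7]
        simp
      simp only [zero_add, Nat.choose_self] at h5
      simp only [zero_add, Nat.choose_self, Finset.univ_eq_empty, Finset.sum_empty]
      have h8 : Module.finrank ℂ (fatForms r 0 p m) = 1 := by omega
      rw [h8]
      norm_num
    · exact indep_general d hd η hη
  obtain ⟨r₂, h₂⟩ := lower_general d η (η / 2) hη (by linarith)
  obtain ⟨r₃, h₃⟩ := upper_general d η hη
  refine ⟨Finset.univ.sup V + r₁ + r₂ + r₃ + 1, fun r hr k m hm => ?_⟩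
  have hr1 : 1 ≤ r := by omega
  have hs : ∀ j, (0 : ℝ) < ((j + r).choose r : ℝ) := by
    intro j
    exact_mod_cast Nat.choose_pos (by omega)
  constructor
  · intro hmd hfro
    have he : ∀ i, 1 ≤ d + 1 - m i := fun i => by have := hmd i; omega
    have hm' : (fun i => d + 1 - (d + 1 - m i)) = m := by
      funext i
      have := hmd i
      omega
    have hlow := h₂ r (by omega) k (fun i => d + 1 - m i) he hfro
    have hup := h₃ r (by omega) k (fun i => d + 1 - m i) he Finset.univ (by
      have := hfro d le_rfl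
      have := hs d
      nlinarith)
    have hm'' : (fun i => if i ∈ (Finset.univ : Finset (Fin k)) then d + 1 - (d + 1 - m i) else 0)
        = m := by
      funext i
      rw [if_pos (Finset.mem_univ i)]
      have := hmd i
      omega
    rw [hm''] at hup
    rw [hm'] at hlow
    have hestimate : ∀ x : ℝ, (fro r (fun i => d + 1 - m i) Finset.univ d : ℝ) -
        η / 2 * ((d + r).choose r : ℝ) ≤ x →
        x ≤ (fro r (fun i => d + 1 - m i) Finset.univ d : ℝ) + η * ((d + r).choose r : ℝ) →
        |x - (fro r (fun i => d + 1 - m i) Finset.univ d : ℝ)| ≤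
          η * ((d + r).choose r : ℝ) := by
      intro x h4 h5
      have h6 := hs d
      rw [abs_le]
      constructor <;> nlinarith
    by_cases hpair : ∃ i j, i ≠ j ∧ d + 2 ≤ m i + m j
    · refine ((hlow.and hup).and (ForGeneralPoints.coord_ne_zero r k)).mono ?_
      rintro p ⟨⟨hp1, hp2⟩, hp3⟩
      refine ⟨⟨fun _ => hpair, fun _ => ?_⟩, hestimate _ hp1 hp2⟩
      obtain ⟨i, j, hij, hd2⟩ := hpair
      apply not_maximal_of_pair hr1 d p (fun i => hp3 i 0) m (fun i => ⟨hm i, hmd i⟩) i j hij hd2
      have h4 := hfro d le_rfl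
      have h5 := hs d
      have h6 : (0 : ℝ) < (Module.finrank ℂ (fatForms r d p m) : ℝ) := by nlinarith
      exact_mod_cast h6
    · have hnp : ∀ i j, i ≠ j → m i + m j ≤ d + 1 := by
        intro i j hij
        by_contra hcon
        exact hpair ⟨i, j, hij, by omega⟩
      have h4 := fro_no_pairs r d (fun i => d + 1 - m i) Finset.univ
        (fun i _ => by have := hm i; omega) (fun i _ j _ hij => by
          have := hnp i j hij
          have := hmd i
          have := hmd j
          omega)
      have h5 : ∀ i, ((d - (d + 1 - m i) + r).choose r : ℤ) = ((m i + r - 1).choose r : ℤ) := by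
        intro i
        have h6 := hm i
        have h7 := hmd i
        have h8 : d - (d + 1 - m i) + r = m i + r - 1 := by omega
        rw [h8]
      simp only [h5] at h4
      have h6 := h₁ r (by omega) k m (fun i => ⟨hm i, hmd i⟩) hnp (by
        have h7 := hfro d le_rfl
        rw [h4] at h7
        push_cast at h7
        linarith)
      refine ((hlow.and hup).and h6).mono ?_
      rintro p ⟨⟨hp1, hp2⟩, hp3⟩
      exact ⟨⟨fun h => absurd hp3 h, fun h => absurd h hpair⟩, hestimate _ hp1 hp2⟩
  · intro hcase
    have hfin : ForGeneralPoints r k fun p => Module.finrank ℂ (fatForms r d p m) = 0 := by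
      by_cases hbig : ∃ i, d < m i
      · obtain ⟨i, hi⟩ := hbig
        exact ⟨1, one_ne_zero, fun p _ => big_mult p m i hi⟩
      · push Not at hbig
        rcases hcase with ⟨i, hi⟩ | ⟨I, -, j, hj, hfro⟩
        · exact absurd hi (not_lt.2 (hbig i))
        · have hVr : V ⟨j, Nat.lt_succ_iff.2 hj⟩ ≤ r := by
            have h4 : V ⟨j, Nat.lt_succ_iff.2 hj⟩ ≤ Finset.univ.sup V :=
              Finset.le_sup (f := V) (Finset.mem_univ _)
            omega
          have h4 := hV ⟨j, Nat.lt_succ_iff.2 hj⟩ r hVr k (fun i => d + 1 - m i)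
            (fun i => by have := hbig i; omega) I hfro
          refine h4.mono fun p hp => ?_
          have h5 : Module.finrank ℂ (fatForms r d p m) ≤ Module.finrank ℂ
              (fatForms r d p (fun i => if i ∈ I then d + 1 - (d + 1 - m i) else 0)) := by
            apply Submodule.finrank_mono
            rintro F ⟨hF1, hF2⟩
            refine ⟨hF1, fun i => ?_⟩
            intro β hβ
            apply hF2 i β
            have h6 := hbig i
            by_cases hi : i ∈ I
            · simp only [hi, if_true] at hβ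
              omega
            · simp only [hi, if_false] at hβ
              omega
          omega
    refine (hfin.and (ForGeneralPoints.coord_ne_zero r k)).mono ?_
    rintro p ⟨hp1, hp2⟩
    refine ⟨hp1, ?_⟩
    have h4 := finrank_fatForms_ge (d := d) hr1 (fun i => hp2 i 0) m
    unfold ImposesMaximalConditions
    rw [hp1] at h4 ⊢
    rw [max_eq_left]
    · simp
    · simpa using h4

end Pool.Agent.H21.HD

end

section

/-!
# Module E5 (TB): one large point and simple points

`simple_add`: adding a simple point lowers `gdim` by one unless it is `0` (`le_gdim_elim` with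
`ell r 1 = 1`, `gdim_elim_le`, `gdim_simple`).  Then induction on the number of simple points, starting
from `gdim_single`.  From `gdim` to general points: `gen_gdim` (`Gen r (Fin k)` is
`ForGeneralPoints r k`), see the end of `Pool/Agent/H21/NX/Window.lean` (`window_fin`).

`cone`: let `m i₀` be the largest multiplicity, `m i₀ ≥ d`.  If `m i₀ ≥ d + 1` there is no other point
(`1 ≤ m j ≤ 0`), `V = 0` (`MainX.big_mult`) and `ell r (m i₀) ≥ ell r (d + 1) = binom (d + r, r)`.  If
`m i₀ = d` all other points are simple.
-/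

namespace Pool.Agent.H51.TB

open Finset MvPolynomial Pool.Agent.H18.Fat Pool.Agent.H18.Ex Pool.Agent.H21.NX

theorem simple_add (r d : ℕ) (hr : 1 ≤ r) {κ : Type} [Fintype κ] (m : κ → ℕ) :
    gdim r d (Sum.elim m fun _ : Unit => 1) = gdim r d m - 1 := by
  have h1 := gdim_elim_le r d m (fun _ : Unit => 1)
  have h2 := le_gdim_elim r d hr m (fun _ : Unit => 1)
  have h3 : ∑ _j : Unit, ell r 1 = 1 := by
    rw [Fintype.sum_unique]
    unfold ell
    rw [Nat.add_sub_cancel_left, Nat.choose_self]
  rw [h3] at h2
  have h4 := gdim_simple r d m 1 le_rfl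
  by_cases h5 : gdim r d (Sum.elim m fun _ : Unit => 1) = gdim r d m
  · have h6 := h4 h5
    omega
  · omega

private theorem Cone_many (r d : ℕ) (hr : 1 ≤ r) {κ : Type} [Fintype κ] (m : κ → ℕ) (n : ℕ) :
    gdim r d (Sum.elim m fun _ : Fin n => 1) = gdim r d m - n := by
  induction n with
  | zero =>
    rw [Nat.sub_zero]
    have h := gdim_comp_equiv r d (Equiv.sumEmpty κ (Fin 0)) m
    rw [← h]
    congr 1
    funext x
    rcases x with i | j
    · rfl
    · exact j.elim0
  | succ n ih =>
    have h1 := simple_add r d hr (Sum.elim m fun _ : Fin n => 1)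
    rw [ih] at h1
    let e : κ ⊕ Fin (n + 1) ≃ (κ ⊕ Fin n) ⊕ Unit :=
      ((Equiv.refl κ).sumCongr ((finSuccEquiv n).trans (Equiv.optionEquivSumPUnit.{0, 0} _))).trans
        (Equiv.sumAssoc _ _ _).symm
    have h2 := gdim_comp_equiv r d e (Sum.elim (Sum.elim m fun _ : Fin n => 1) fun _ : Unit => 1)
    have h3 : (fun i => Sum.elim (Sum.elim m fun _ : Fin n => 1) (fun _ : Unit => 1) (e i)) =
        Sum.elim m fun _ : Fin (n + 1) => 1 := by
      funext x
      rcases x with i | j
      · rfl
      · refine Fin.cases ?_ (fun j => ?_) j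
        · simp [e]
        · simp [e]
    rw [h3, h1] at h2
    rw [h2]
    omega

theorem cone (r d k : ℕ) (hr : 1 ≤ r) (m : Fin k → ℕ) (hm : ∀ i, 1 ≤ m i)
    (hp : ∀ i j, i ≠ j → m i + m j ≤ d + 1) (i₀ : Fin k) (h0 : d ≤ m i₀) :
    ForGeneralPoints r k fun p => ImposesMaximalConditions r d p m := by
  classical
  rcases Nat.lt_or_ge d (m i₀) with hlt | hge
  · -- a multiplicity larger than the degree
    have h1 : (d + r).choose r ≤ ∑ i, (m i + r - 1).choose r := by
      refine le_trans ?_ (Finset.single_le_sum (f := fun i => (m i + r - 1).choose r)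
        (fun i _ => Nat.zero_le _) (Finset.mem_univ i₀))
      exact Nat.choose_le_choose r (by omega)
    refine ⟨1, one_ne_zero, fun p _ => ?_⟩
    change ImposesMaximalConditions r d p m
    unfold ImposesMaximalConditions
    rw [Pool.Agent.H21.HD.MainX.big_mult p m i₀ hlt]
    have h2 : (((d + r).choose r : ℕ) : ℤ) ≤ ∑ i, (((m i + r - 1).choose r : ℕ) : ℤ) := by
      exact_mod_cast h1
    rw [max_eq_left (by linarith)]
    simp
  · have hd : m i₀ = d := le_antisymm hge h0
    have hs : ∀ j, j ≠ i₀ → m j = 1 := by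
      intro j hj
      have h1 := hm j
      have h2 := hp i₀ j (Ne.symm hj)
      omega
    obtain ⟨n, hn⟩ : ∃ n, Fintype.card {j : Fin k // ¬ j = i₀} = n := ⟨_, rfl⟩
    let e2 : {j : Fin k // ¬ j = i₀} ≃ Fin n := Fintype.equivFinOfCardEq hn
    let e1 : {j : Fin k // j = i₀} ≃ Unit := Equiv.ofUnique _ _
    let e : Unit ⊕ Fin n ≃ Fin k := (Equiv.sumCongr e1.symm e2.symm).trans (Equiv.sumCompl fun j => j = i₀)
    have he : (fun i => m (e i)) = Sum.elim (fun _ : Unit => d) fun _ : Fin n => 1 := by
      funext x
      rcases x with u | j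
      · have h1 : e (Sum.inl u) = i₀ := by
          change ((e1.symm u : {j : Fin k // j = i₀}) : Fin k) = i₀
          exact (e1.symm u).2
        change m (e (Sum.inl u)) = d
        rw [h1, hd]
      · have h1 : e (Sum.inr j) ≠ i₀ := by
          change ((e2.symm j : {j : Fin k // ¬ j = i₀}) : Fin k) ≠ i₀
          exact (e2.symm j).2
        exact hs _ h1
    have h3 : gdim r d m = gdim r d (fun _ : Unit => d) - n := by
      rw [← gdim_comp_equiv r d e m, he]
      exact Cone_many r d hr _ n
    have h4 := gdim_single r d hr d (Nat.le_succ d)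
    have h5 : ∑ i, ell r (m i) = ell r d + n := by
      rw [← Equiv.sum_comp e (fun i => ell r (m i)), Fintype.sum_sum_type]
      have h6 : ∀ u : Unit, ell r (m (e (Sum.inl u))) = ell r d := by
        intro u
        have := congrFun he (Sum.inl u)
        change m (e (Sum.inl u)) = d at this
        rw [this]
      have h7 : ∀ j : Fin n, ell r (m (e (Sum.inr j))) = 1 := by
        intro j
        have := congrFun he (Sum.inr j)
        change m (e (Sum.inr j)) = 1 at this
        rw [this]
        unfold ell
        rw [Nat.add_sub_cancel_left, Nat.choose_self]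
      rw [Finset.sum_congr rfl fun u _ => h6 u, Finset.sum_congr rfl fun j _ => h7 j]
      simp
    have hg : Gen r (Fin k) fun p => ImposesMaximalConditions r d p m := by
      refine (gen_gdim r d m).mono fun p hp => ?_
      unfold ImposesMaximalConditions
      rw [hp, h3]
      have e3 : ∑ i, (((m i + r - 1).choose r : ℕ) : ℤ) = ((∑ i, ell r (m i) : ℕ) : ℤ) := by
        push_cast
        rfl
      rw [e3, h5]
      omega
    exact hg

end Pool.Agent.H51.TB

end
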