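import Pool.Agent.H94.LP5.H18.Iso.Pair
import Pool.Agent.H94.LP5.M62

/-! The parts of this file: H18.Ex.Sing, H18.Iso.Pair_1. -/

section

/-!
# Lines of singular points through two points of high multiplicity
-/

namespace Pool.Agent.H18.Ex

open MvPolynomial Pool.Agent.H18.Fat

/-- The restriction of `F` to the line `q + t v`, as a polynomial in `t`. -/
noncomputable def line {n : ℕ} (q v : Fin n → ℂ) (F : MvPolynomial (Fin n) ℂ) : Polynomial ℂ :=
  aeval (fun i => Polynomial.C (q i) + Polynomial.C (v i) * Polynomial.X) F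

theorem eval_line {n : ℕ} (q v : Fin n → ℂ) (F : MvPolynomial (Fin n) ℂ) (t : ℂ) :
    (line q v F).eval t = eval (fun i => q i + t * v i) F := by
  unfold line
  induction F using MvPolynomial.induction_on with
  | C a => simp
  | add p q hp hq => rw [map_add, Polynomial.eval_add, hp, hq, map_add]
  | mul_X p i hp =>
    rw [map_mul, Polynomial.eval_mul, hp, map_mul, aeval_X, eval_X]
    simp only [Polynomial.eval_add, Polynomial.eval_mul, Polynomial.eval_C, Polynomial.eval_X]
    ring

theorem line_shift {n : ℕ} (q v : Fin n → ℂ) (F : MvPolynomial (Fin n) ℂ) :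
    line q v F = line 0 v (shift q F) := by
  unfold line shift
  induction F using MvPolynomial.induction_on with
  | C a => simp
  | add p q hp hq => rw [map_add, hp, hq, map_add, map_add]
  | mul_X p i hp =>
    rw [map_mul, hp, map_mul, map_mul, aeval_X, aeval_X, map_add, aeval_X]
    congr 1
    simp only [Pi.zero_apply, map_zero, zero_add, aeval_C]
    rw [add_comm]
    rfl

theorem line_zero_monomial {n : ℕ} (v : Fin n → ℂ) (α : Fin n →₀ ℕ) (c : ℂ) :
    line 0 v (monomial α c) = Polynomial.C (c * ∏ i, v i ^ α i) * Polynomial.X ^ α.degree := by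
  unfold line
  rw [aeval_monomial, Finsupp.prod_fintype _ _ (fun i => pow_zero _)]
  simp only [Pi.zero_apply, map_zero, zero_add, mul_pow]
  rw [Finset.prod_mul_distrib, Finset.prod_pow_eq_pow_sum, Finsupp.degree_eq_sum, map_mul,
    map_prod]
  simp only [map_pow]
  rw [mul_assoc]
  rfl

theorem coeff_line {n : ℕ} {q v : Fin n → ℂ} {F : MvPolynomial (Fin n) ℂ} {m k : ℕ}
    (h : VanishesToOrder F q m) (hk : k < m) : (line q v F).coeff k = 0 := by
  rw [line_shift]
  have h1 : line 0 v (shift q F) =
      ∑ α ∈ (shift q F).support, line 0 v (monomial α (coeff α (shift q F))) := by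
    conv_lhs => rw [(shift q F).as_sum]
    unfold line
    rw [map_sum]
  rw [h1, Polynomial.finset_sum_coeff]
  refine Finset.sum_eq_zero fun α hα => ?_
  rw [line_zero_monomial, Polynomial.coeff_C_mul_X_pow, if_neg]
  intro h2
  exact (mem_support_iff.1 hα) (h α (by omega))

theorem shift_pderiv {n : ℕ} (q : Fin n → ℂ) (j : Fin n) (F : MvPolynomial (Fin n) ℂ) :
    shift q (pderiv j F) = pderiv j (shift q F) := by
  unfold shift
  induction F using MvPolynomial.induction_on with
  | C a => simp
  | add p q hp hq => rw [map_add, map_add, hp, hq, map_add, map_add]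
  | mul_X p i hp =>
    rw [Derivation.leibniz, map_mul, Derivation.leibniz, map_add, aeval_X, smul_eq_mul,
      smul_eq_mul, smul_eq_mul, smul_eq_mul, map_mul, map_mul, hp, aeval_X, map_add, pderiv_C,
      add_zero, pderiv_X]
    by_cases hij : i = j
    · subst hij
      simp
    · have h0 : (Pi.single j (1 : MvPolynomial (Fin n) ℂ) : Fin n → MvPolynomial (Fin n) ℂ) i = 0 :=
        Pi.single_eq_of_ne hij _
      rw [h0, map_zero, mul_zero]

theorem VanishesToOrder.pderiv {n : ℕ} {F : MvPolynomial (Fin n) ℂ} {q : Fin n → ℂ} {m : ℕ}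
    (h : VanishesToOrder F q m) (j : Fin n) : VanishesToOrder (pderiv j F) q (m - 1) := by
  intro β hβ
  rw [shift_pderiv, (shift q F).as_sum, map_sum, coeff_sum]
  refine Finset.sum_eq_zero fun α hα => ?_
  rw [pderiv_monomial, coeff_monomial]
  by_cases h0 : α j = 0
  · rw [h0, Nat.cast_zero, mul_zero, ite_self]
  · rw [if_neg]
    intro h1
    apply mem_support_iff.1 hα
    apply h
    have h2 : β + Finsupp.single j 1 = α := by
      rw [← h1]
      ext i
      by_cases hi : i = j
      · subst hi
        simp only [Finsupp.add_apply, Finsupp.tsub_apply, Finsupp.single_eq_same]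
        omega
      · simp [Finsupp.single_eq_of_ne hi]
    rw [← h2, map_add, Finsupp.degree_single]
    omega

theorem eval_smul_of_homogeneous {n D : ℕ} {G : MvPolynomial (Fin n) ℂ} (hG : G.IsHomogeneous D)
    (t : ℂ) (x : Fin n → ℂ) : eval (fun i => t * x i) G = t ^ D * eval x G := by
  rw [eval_eq', eval_eq', Finset.mul_sum]
  refine Finset.sum_congr rfl fun α hα => ?_
  have h1 : α.degree = D := by
    have := hG (mem_support_iff.1 hα)
    rw [Finsupp.degree_eq_weight_one]
    exact this
  simp only [mul_pow]
  rw [Finset.prod_mul_distrib, Finset.prod_pow_eq_pow_sum, ← Finsupp.degree_eq_sum, h1]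
  ring

/-- A form of degree `D` vanishing to orders `a`, `b` with `a + b > D` at two points vanishes on
the line through them. -/
theorem line_eq_zero {n D a b : ℕ} {G : MvPolynomial (Fin n) ℂ} (hG : G.IsHomogeneous D)
    {q v : Fin n → ℂ} (ha : VanishesToOrder G q a) (hb : VanishesToOrder G v b)
    (hab : D < a + b) : line q v G = 0 := by
  set A := line q v G with hA
  set B := line v q G with hB
  set N := B.natDegree + D with hN
  have hinv : ∀ t : ℂ, t ≠ 0 → A.eval t = t ^ D * B.eval t⁻¹ := by
    intro t ht
    rw [hA, hB, eval_line, eval_line, ← eval_smul_of_homogeneous hG]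
    congr 2
    funext i
    field_simp
    ring
  have hpoly : Polynomial.X ^ (N + 1) * A = Polynomial.X ^ (D + 1) * Polynomial.reflect N B := by
    apply Polynomial.funext
    intro t
    by_cases ht : t = 0
    · subst ht
      simp
    · let _ : Invertible t⁻¹ := invertibleOfNonzero (inv_ne_zero ht)
      have h1 := Polynomial.eval₂_reflect_mul_pow (RingHom.id ℂ) t⁻¹ N B (by omega)
      have h2 : (⅟(t⁻¹) : ℂ) = t := by rw [invOf_eq_inv, inv_inv]
      rw [h2] at h1
      simp only [Polynomial.eval_mul, Polynomial.eval_pow, Polynomial.eval_X]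
      rw [hinv t ht]
      have h3 : B.eval t⁻¹ = Polynomial.eval₂ (RingHom.id ℂ) t⁻¹ B := rfl
      have h4 : Polynomial.eval t (Polynomial.reflect N B) =
        Polynomial.eval₂ (RingHom.id ℂ) t (Polynomial.reflect N B) := rfl
      rw [h3, ← h1, ← h4, inv_pow]
      have h5 : t ^ N ≠ 0 := pow_ne_zero _ ht
      field_simp
      ring
  ext k
  rw [Polynomial.coeff_zero]
  by_cases hk : k < a
  · exact coeff_line ha hk
  · have h1 := congrArg (fun P => Polynomial.coeff P (k + (N + 1))) hpoly
    rw [Polynomial.coeff_X_pow_mul] at h1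
    have h2 : k + (N + 1) = (k + N - D) + (D + 1) := by omega
    rw [h2, Polynomial.coeff_X_pow_mul, Polynomial.coeff_reflect] at h1
    rw [h1]
    by_cases hkD : k ≤ D
    · rw [Polynomial.revAt_le (by omega)]
      exact coeff_line hb (by omega)
    · rw [Polynomial.revAt_eq_self_of_lt (by omega)]
      exact Polynomial.coeff_eq_zero_of_natDegree_lt (by omega)

/-- All first derivatives vanish on the line through two points of high multiplicity. -/
theorem singular_line {n d a b : ℕ} {F : MvPolynomial (Fin n) ℂ} (hF : F.IsHomogeneous d)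
    {q v : Fin n → ℂ} (ha : VanishesToOrder F q a) (hb : VanishesToOrder F v b)
    (had : a ≤ d) (hbd : b ≤ d) (hab : d + 2 ≤ a + b) (j : Fin n) (t : ℂ) :
    eval (fun i => q i + t * v i) (pderiv j F) = 0 := by
  rw [← eval_line, line_eq_zero (hF.pderiv (i := j)) (VanishesToOrder.pderiv ha j)
    (VanishesToOrder.pderiv hb j) (by omega), Polynomial.eval_zero]

end Pool.Agent.H18.Ex

end

section

/-!
# Isolated singularities at general base points bound the pair sums of the multiplicities
-/

namespace Pool.Agent.H18.Iso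

open MvPolynomial Pool.Agent.H18.Fat

/-- If `F` is singular along the line through `q` and `v` then `q` is not isolated, for
independent `q`, `v`. -/
theorem not_isolated_of_line {s : ℕ} {F : MvPolynomial (Fin (s + 1 + 1)) ℂ}
    {q v : Fin (s + 1 + 1) → ℂ} (hdet : q 0 * v 1 - q 1 * v 0 ≠ 0)
    (hline : ∀ j t, eval (fun i => q i + t * v i) (pderiv j F) = 0) : ¬ IsolatedAt F q := by
  rintro ⟨e', g, -, hg0, hg⟩
  -- a parameter different from zero at which `g` does not vanish
  obtain ⟨t, ht0, htg⟩ : ∃ t : ℂ, t ≠ 0 ∧ eval (fun i => q i + t * v i) g ≠ 0 := by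
    by_contra hcon
    push Not at hcon
    have h3 : Polynomial.X * Pool.Agent.H18.Ex.line q v g = 0 := by
      apply Polynomial.funext
      intro t
      rw [Polynomial.eval_mul, Polynomial.eval_X, Polynomial.eval_zero,
        Pool.Agent.H18.Ex.eval_line]
      by_cases ht : t = 0
      · rw [ht, zero_mul]
      · rw [hcon t ht, mul_zero]
    rw [mul_eq_zero] at h3
    rcases h3 with h3 | h3
    · exact Polynomial.X_ne_zero h3
    · apply hg0
      have h4 := Pool.Agent.H18.Ex.eval_line q v g 0
      rw [h3, Polynomial.eval_zero] at h4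
      rw [h4]
      congr 2
      funext i
      rw [zero_mul, add_zero]
  obtain ⟨c, hc⟩ := hg _ (fun j => hline j t) htg
  have c0 := congrFun hc 0
  have c1 := congrFun hc 1
  simp only [Pi.smul_apply, smul_eq_mul] at c0 c1
  apply hdet
  have e1 : t * (q 0 * v 1 - q 1 * v 0) = 0 := by
    linear_combination (q 0) * c1 - (q 1) * c0
  rcases mul_eq_zero.1 e1 with h3 | h3
  · exact absurd h3 ht0
  · exact h3

/-- If for general points some member has isolated singularities at all the points, then
`m_i + m_j ≤ d + 1` for all `i ≠ j`. -/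
theorem pair_le {n h d : ℕ} (hn : 1 ≤ n) (m : Fin h → ℕ)
    (hiso : ForGeneralPoints n h fun p => ∃ F ∈ fatForms n d p m, ∀ i, IsolatedAt F (p i))
    (i j : Fin h) (hij : i ≠ j) : m i + m j ≤ d + 1 := by
  classical
  obtain ⟨s, rfl⟩ : ∃ s, n = s + 1 := ⟨n - 1, by omega⟩
  by_contra hcon
  have hab : d + 2 ≤ m i + m j := by omega
  -- general points are pairwise distinct in projective space
  have hind : ForGeneralPoints (s + 1) h fun p =>
      p i 0 * p j 1 - p i 1 * p j 0 ≠ 0 := by
    refine ⟨X (i, 0) * X (j, 1) - X (i, 1) * X (j, 0), ?_, ?_⟩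
    · intro h0
      have h3 := congrArg (eval fun x : Fin h × Fin (s + 1 + 1) =>
        if x = (i, 0) then (1 : ℂ) else if x = (j, 1) then 1 else 0) h0
      simp only [map_sub, map_mul, eval_X, map_zero] at h3
      have e1 : ((i, (1 : Fin (s + 1 + 1))) : Fin h × Fin (s + 1 + 1)) ≠ (i, 0) := by
        intro h4
        have := congrArg (fun x => x.2) h4
        simp at this
      have e2 : ((i, (1 : Fin (s + 1 + 1))) : Fin h × Fin (s + 1 + 1)) ≠ (j, 1) := by
        intro h4
        exact hij (congrArg (fun x => x.1) h4)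
      have e3 : ((j, (1 : Fin (s + 1 + 1))) : Fin h × Fin (s + 1 + 1)) ≠ (i, 0) := by
        intro h4
        exact hij (congrArg (fun x => x.1) h4).symm
      rw [if_neg e1, if_neg e2, if_neg e3, if_pos trivial, if_pos trivial] at h3
      norm_num at h3
    · intro p hp
      simpa using hp
  obtain ⟨G, hG0, hG⟩ := hiso.and hind
  obtain ⟨x, hx⟩ : ∃ x : Fin h × Fin (s + 1 + 1) → ℂ, eval x G ≠ 0 := by
    by_contra hcon
    push Not at hcon
    exact hG0 (MvPolynomial.funext fun x => by rw [hcon x, map_zero])
  obtain ⟨⟨F, hF, hisoF⟩, hdet⟩ := hG (fun i j => x (i, j)) hx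
  set p : Fin h → Fin (s + 1 + 1) → ℂ := fun i j => x (i, j) with hp
  refine not_isolated_of_line hdet ?_ (hisoF i)
  by_cases hbig : ∃ l, d < m l
  · obtain ⟨l, hl⟩ := hbig
    have h0 := Pool.Agent.H21.HD.MainX.big_mult (d := d) p m l hl
    have hfin : Module.Finite ℂ (fatForms (s + 1) d p m) := inferInstance
    have hF0 : F = 0 := by
      have h1 : (⟨F, hF⟩ : fatForms (s + 1) d p m) = 0 := by
        have := Module.finrank_zero_iff.1 h0
        exact Subsingleton.elim _ _
      exact congrArg Subtype.val h1
    intro j' t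
    rw [hF0, map_zero, map_zero]
  · push Not at hbig
    exact fun j' t => Pool.Agent.H18.Ex.singular_line hF.1 (hF.2 i) (hF.2 j) (hbig i) (hbig j)
      hab j' t

end Pool.Agent.H18.Iso

end
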