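import Pool.Agent.H94.LP5.H51.TB.Mov
import Pool.Agent.H94.LP5.M11
import Pool.Agent.H94.LP5.M21
import Pool.Agent.H94.LP5.M30

/-! The parts of this file: H18.Ex.Peel, H21.NX.LensA_1, H21.NX.Stage, H51.TB.Adj. -/

section

/-!
# Module Peel: one Horace step for configurations

The region `A` has dimension `n + 1`, its layer `A₀ = A ∩ {a l = 0}` dimension `n` and `f`
exponents.
-/

namespace Pool.Agent.H18.Ex

open Finset

section PeelAux

variable {ι : Type} [DecidableEq ι]

/-- The configuration after a step: the points of `I` become ordinary forced points, `t` points of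
multiplicity `μ` become differential points, `u` simple points are used. -/
def peelCfg (c : Cfg ι) (l : ι) (I : Multiset ℕ) (μ t u : ℕ) : Cfg ι where
  N := c.N - I - Multiset.replicate t μ
  s := c.s - u
  Φ := Function.update c.Φ l (shf (c.Φ l) + I.map (fun m => (m - 1, 1)) +
    Multiset.replicate t (μ, 2))

theorem peelCfg_Φ_self (c : Cfg ι) (l : ι) (I : Multiset ℕ) (μ t u : ℕ) :
    (peelCfg c l I μ t u).Φ l = shf (c.Φ l) + I.map (fun m => (m - 1, 1)) +
      Multiset.replicate t (μ, 2) := Function.update_self _ _ _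

theorem peelCfg_Φ_ne (c : Cfg ι) {l l' : ι} (h : l' ≠ l) (I : Multiset ℕ) (μ t u : ℕ) :
    (peelCfg c l I μ t u).Φ l' = c.Φ l' := Function.update_of_ne h _ _

private theorem map_finset_sum {α β γ : Type*} (g : α → β) (s : Finset γ) (F : γ → Multiset α) :
    (∑ i ∈ s, F i).map g = ∑ i ∈ s, (F i).map g :=
  map_sum (Multiset.mapAddMonoidHom g) F s

variable [Fintype ι]

/-- The roles of the conditions. -/
def roles (c : Cfg ι) (l : ι) (I : Multiset ℕ) (μ t u : ℕ) : Multiset (Role ι) :=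
  (c.N - I - Multiset.replicate t μ).map (fun m => Role.stay (Kind.free m)) +
    Multiset.replicate (c.s - u) (Role.stay (Kind.free 1)) +
    ∑ l' ∈ univ.erase l, (c.Φ l').map (fun x => Role.stay (Kind.forced l' x.1 x.2)) +
    (c.Φ l).map (fun x => Role.here x.1 x.2) + I.map (fun m => Role.ord m) +
    Multiset.replicate t Role.dif + Multiset.replicate u (Role.ord 1)

theorem roles_before (c : Cfg ι) (l : ι) {I : Multiset ℕ} (hI : I ≤ c.N) {μ t u : ℕ}
    (ht : Multiset.replicate t μ ≤ c.N - I) (hu : u ≤ c.s) :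
    (roles c l I μ t u).map (Role.before l μ) = c.kinds := by
  have h1 : c.N = (c.N - I - Multiset.replicate t μ) + I + Multiset.replicate t μ := by
    rw [add_right_comm, tsub_add_cancel_of_le ht, tsub_add_cancel_of_le hI]
  have h2 : Multiset.replicate c.s (Kind.free 1 : Kind ι) =
      Multiset.replicate (c.s - u) (Kind.free 1) + Multiset.replicate u (Kind.free 1) := by
    rw [← Multiset.replicate_add, Nat.sub_add_cancel hu]
  have h3 : ∑ l', (c.Φ l').map (fun x => Kind.forced l' x.1 x.2) =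
      ∑ l' ∈ univ.erase l, (c.Φ l').map (fun x => Kind.forced l' x.1 x.2) +
        (c.Φ l).map (fun x => Kind.forced l x.1 x.2) :=
    (Finset.sum_erase_add univ _ (Finset.mem_univ l)).symm
  have h4 : c.kinds = ((c.N - I - Multiset.replicate t μ) + I +
      Multiset.replicate t μ).map Kind.free + Multiset.replicate c.s (Kind.free 1) +
      ∑ l', (c.Φ l').map (fun x => Kind.forced l' x.1 x.2) := by
    rw [← h1]
    rfl
  rw [h4, h2, h3]
  unfold roles
  simp only [Multiset.map_add, map_finset_sum, Multiset.map_map, Multiset.map_replicate,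
    Function.comp_def, Role.before]
  abel

theorem roles_after (c : Cfg ι) (l : ι) (I : Multiset ℕ) (μ t u : ℕ) :
    (peelCfg c l I μ t u).kinds ≤ (roles c l I μ t u).map (Role.after l μ) := by
  have h3 : ∑ l', ((peelCfg c l I μ t u).Φ l').map (fun x => Kind.forced l' x.1 x.2) =
      ∑ l' ∈ univ.erase l, (c.Φ l').map (fun x => Kind.forced l' x.1 x.2) +
        (shf (c.Φ l) + I.map (fun m => (m - 1, 1)) + Multiset.replicate t (μ, 2)).map
          (fun x : ℕ × ℕ => Kind.forced l x.1 x.2) := by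
    rw [← Finset.sum_erase_add univ _ (Finset.mem_univ l), peelCfg_Φ_self]
    congr 1
    refine Finset.sum_congr rfl fun l' hl' => ?_
    rw [peelCfg_Φ_ne c (Finset.ne_of_mem_erase hl')]
  have h4 : (peelCfg c l I μ t u).kinds = (c.N - I - Multiset.replicate t μ).map Kind.free +
      Multiset.replicate (c.s - u) (Kind.free 1) +
      ∑ l', ((peelCfg c l I μ t u).Φ l').map (fun x => Kind.forced l' x.1 x.2) := rfl
  have h5 : (shf (c.Φ l)).map (fun x => Kind.forced l x.1 x.2) ≤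
      (c.Φ l).map (fun x => Kind.forced l (x.1 - 1) x.2) := by
    have h6 : shf (c.Φ l) ≤ (c.Φ l).map fun x => (x.1 - 1, x.2) := Multiset.filter_le _ _
    have h7 := Multiset.map_le_map (f := fun x : ℕ × ℕ => Kind.forced l x.1 x.2) h6
    rw [Multiset.map_map] at h7
    exact h7
  rw [h4, h3]
  unfold roles
  simp only [Multiset.map_add, map_finset_sum, Multiset.map_map, Multiset.map_replicate,
    Function.comp_def, Role.after]
  calc (c.N - I - Multiset.replicate t μ).map Kind.free +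
      Multiset.replicate (c.s - u) (Kind.free 1) +
      (∑ l' ∈ univ.erase l, (c.Φ l').map (fun x => Kind.forced l' x.1 x.2) +
        ((shf (c.Φ l)).map (fun x => Kind.forced l x.1 x.2) +
          I.map (fun m => Kind.forced l (m - 1) 1) +
          Multiset.replicate t (Kind.forced l μ 2)))
      ≤ (c.N - I - Multiset.replicate t μ).map Kind.free +
      Multiset.replicate (c.s - u) (Kind.free 1) +
      (∑ l' ∈ univ.erase l, (c.Φ l').map (fun x => Kind.forced l' x.1 x.2) +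
        ((c.Φ l).map (fun x => Kind.forced l (x.1 - 1) x.2) +
          I.map (fun m => Kind.forced l (m - 1) 1) +
          Multiset.replicate t (Kind.forced l μ 2))) := by
        gcongr
    _ = (c.N - I - Multiset.replicate t μ).map (fun m => Kind.free m) +
      Multiset.replicate (c.s - u) (Kind.free 1) +
      ∑ l' ∈ univ.erase l, (c.Φ l').map (fun x => Kind.forced l' x.1 x.2) +
      (c.Φ l).map (fun x => Kind.forced l (x.1 - 1) x.2) +
      I.map (fun m => Kind.forced l (m - 1) 1) +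
      Multiset.replicate t (Kind.forced l μ 2) := by abel
    _ ≤ _ := Multiset.le_add_right _ _

private theorem sum_ell_zero {n : ℕ} (hn : 1 ≤ n) {α : Type*} (S : Multiset α) :
    (S.map fun _ => ell n 0).sum = 0 := by
  rw [ell_zero hn]
  simp

theorem roles_layer {n M : ℕ} (hn : 1 ≤ n) {c : Cfg ι} (hc : c.OK M) (l : ι)
    (I : Multiset ℕ) (μ t u : ℕ) :
    (((roles c l I μ t u).map Role.layer).map (ell n)).sum =
      c.tr n l + (I.map (ell n)).sum + t + u := by
  have h1 : ((c.Φ l).map fun x => ell n (if x.2 ≤ x.1 then x.1 else 0)).sum = c.tr n l := by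
    unfold Cfg.tr
    congr 1
    refine Multiset.map_congr rfl fun x hx => ?_
    rw [if_pos (hc.hΦ l x hx).2.2.1]
  unfold roles
  simp only [Multiset.map_add, map_finset_sum, Multiset.map_map, Multiset.map_replicate,
    Function.comp_def, Role.layer, Multiset.sum_add]
  rw [h1, sum_ell_zero hn]
  have h2 : (∑ l' ∈ univ.erase l, (c.Φ l').map fun _ => ell n 0).sum = 0 := by
    have h3 : (∑ l' ∈ univ.erase l, (c.Φ l').map fun _ => ell n 0).sum =
        ∑ l' ∈ univ.erase l, ((c.Φ l').map fun _ => ell n 0).sum :=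
      map_sum (Multiset.sumAddMonoidHom) _ _
    rw [h3]
    exact Finset.sum_eq_zero fun l' _ => sum_ell_zero hn _
  rw [h2, ell_one, Multiset.sum_replicate, Multiset.sum_replicate, Multiset.sum_replicate,
    ell_zero hn]
  simp

end PeelAux

variable {ι : Type} [Fintype ι] [DecidableEq ι]

end Pool.Agent.H18.Ex

end

section

/-!
# Module LensA: lengths and bounds for the Horace step (only multiset arithmetic and `ell`)

Facts about `ell` (H18/Ex/Ell): `ell_zero`, `ell_one`, `ell_mono`, `ell_pos`, `ell_succ`.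
-/

namespace Pool.Agent.H21.NX

open Finset Pool.Agent.H18.Ex

theorem OKF_nxt {B B' : ℕ} {Φ : Multiset (ℕ × ℕ)} {N0 : Multiset ℕ} {μ α ρ : ℕ}
    (hΦ : OKF B Φ) (hN0 : ∀ m ∈ N0, m ≤ B) (hB : B ≤ B' + 1) (hμ : μ ≤ B' + 1)
    (hρ : ρ = 0 ∨ μ ≤ B') : OKF B' (nxt Φ N0 μ α ρ) := by
  intro y hy
  unfold nxt at hy
  rw [Multiset.mem_filter, Multiset.mem_add, Multiset.mem_add, Multiset.mem_add,
    Multiset.mem_map, Multiset.mem_map, Multiset.mem_replicate, Multiset.mem_replicate] at hy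
  obtain ⟨((⟨x, hx, rfl⟩ | ⟨m, hm, rfl⟩) | ⟨hα, rfl⟩) | ⟨hρ', rfl⟩, h2⟩ := hy
  · have h := hΦ x hx
    simp only at h2 ⊢
    omega
  · have h := hN0 m hm
    simp only at h2 ⊢
    omega
  · simp only at h2 ⊢
    omega
  · simp only at h2 ⊢
    omega

theorem fl_filter (s : ℕ) (S : Multiset (ℕ × ℕ)) :
    fl s (S.filter fun x : ℕ × ℕ => x.2 ≤ x.1) = (S.map (wgt s)).sum := by
  induction S using Multiset.induction_on with
  | empty => rfl
  | cons a S ih =>
    rw [Multiset.map_cons, Multiset.sum_cons, ← ih]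
    by_cases h : a.2 ≤ a.1
    · rw [Multiset.filter_cons_of_pos (p := fun x : ℕ × ℕ => x.2 ≤ x.1) S h, wgt, if_pos h, fl,
        Multiset.map_cons, Multiset.sum_cons]
      rfl
    · rw [Multiset.filter_cons_of_neg (p := fun x : ℕ × ℕ => x.2 ≤ x.1) S h, wgt, if_neg h,
        zero_add]

/-- Lengths: the total length drops by the length of the trace. -/
theorem fl_nxt {B : ℕ} {Φ : Multiset (ℕ × ℕ)} {N0 : Multiset ℕ} {μ α ρ : ℕ} (s : ℕ)
    (hs : 1 ≤ s) (hΦ : OKF B Φ) (hN0 : ∀ m ∈ N0, 1 ≤ m) (hμ : 1 ≤ μ) (hρ : ρ = 0 ∨ 2 ≤ μ) :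
    fl s (nxt Φ N0 μ α ρ) + (tl s Φ + tot s N0 + α * ell s μ + ρ) =
      fl s Φ + tot (s + 1) N0 + (α + ρ) * ell (s + 1) μ := by
  unfold nxt
  rw [fl_filter]
  simp only [Multiset.map_add, Multiset.sum_add, Multiset.map_map, Multiset.map_replicate,
    Multiset.sum_replicate, smul_eq_mul]
  have h1 : (Φ.map (wgt s ∘ fun x : ℕ × ℕ => (x.1 - 1, x.2))).sum + tl s Φ = fl s Φ := by
    unfold tl fl
    rw [← Multiset.sum_map_add]
    refine congrArg _ (Multiset.map_congr rfl fun x hx => ?_)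
    have h := hΦ x hx
    exact wgt_here s x.1 x.2 h.1 h.2.1 h.2.2.1
  have h2 : (N0.map (wgt s ∘ fun m => (m - 1, 1))).sum + tot s N0 = tot (s + 1) N0 := by
    unfold tot
    rw [← Multiset.sum_map_add]
    refine congrArg _ (Multiset.map_congr rfl fun m hm => ?_)
    exact wgt_here s m 1 le_rfl (by omega) (hN0 m hm)
  have h3 : α * wgt s (μ - 1, 1) + α * ell s μ = α * ell (s + 1) μ := by
    rw [← mul_add, wgt_here s μ 1 le_rfl (by omega) hμ, Nat.add_sub_cancel]
  have h4 : ρ * wgt s (μ, 2) + ρ = ρ * ell (s + 1) μ := by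
    rcases hρ with h | h
    · rw [h]
      simp
    · unfold wgt
      rw [if_pos h]
      simp only
      have h5 := ell_pos (s + 1) hμ
      calc ρ * (ell (s + 1) μ + 1 - 2) + ρ = ρ * ((ell (s + 1) μ + 1 - 2) + 1) := by ring
        _ = ρ * ell (s + 1) μ := by
            congr 1
            omega
  rw [add_mul]
  omega

theorem tl_filter_le (s : ℕ) (S : Multiset (ℕ × ℕ)) :
    tl s (S.filter fun x : ℕ × ℕ => x.2 ≤ x.1) ≤ tl s S := by
  induction S using Multiset.induction_on with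
  | empty => exact le_rfl
  | cons a S ih =>
    have h2 : tl s (a ::ₘ S) = ell s a.1 + tl s S := by
      rw [tl, Multiset.map_cons, Multiset.sum_cons]
      rfl
    by_cases h : a.2 ≤ a.1
    · rw [Multiset.filter_cons_of_pos (p := fun x : ℕ × ℕ => x.2 ≤ x.1) S h, h2, tl,
        Multiset.map_cons, Multiset.sum_cons]
      exact Nat.add_le_add_left ih _
    · rw [Multiset.filter_cons_of_neg (p := fun x : ℕ × ℕ => x.2 ≤ x.1) S h, h2]
      omega

theorem tl_add (s : ℕ) (S T : Multiset (ℕ × ℕ)) : tl s (S + T) = tl s S + tl s T := by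
  simp only [tl, Multiset.map_add, Multiset.sum_add]

theorem tl_replicate (s n : ℕ) (x : ℕ × ℕ) :
    tl s (Multiset.replicate n x) = n * ell s x.1 := by
  simp only [tl, Multiset.map_replicate, Multiset.sum_replicate, smul_eq_mul]

/-- The new traces. -/
theorem tl_nxt {B : ℕ} {Φ : Multiset (ℕ × ℕ)} {N0 : Multiset ℕ} {μ α ρ : ℕ} (s x : ℕ)
    (hs : 1 ≤ s) (hΦ : OKF B Φ) (hN0 : ∀ m ∈ N0, m ≤ B) (hμ : μ ≤ x + 1) (hB : B ≤ x + 1) :
    (x + s) * tl s (nxt Φ N0 μ α ρ) ≤
      x * (tl s Φ + tot s N0 + α * ell s μ) + (x + s) * (ρ * ell s μ) := by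
  have h1 : (x + s) * tl s (Φ.map fun y : ℕ × ℕ => (y.1 - 1, y.2)) ≤ x * tl s Φ := by
    unfold tl
    rw [Multiset.map_map, ← Multiset.sum_map_mul_left, ← Multiset.sum_map_mul_left]
    refine Multiset.sum_map_le_sum_map _ _ fun y hy => ?_
    have h := hΦ y hy
    exact ell_pred_le s y.1 x hs (by omega)
  have h2 : (x + s) * tl s (N0.map fun m => (m - 1, 1)) ≤ x * tot s N0 := by
    unfold tl tot
    rw [Multiset.map_map, ← Multiset.sum_map_mul_left, ← Multiset.sum_map_mul_left]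
    refine Multiset.sum_map_le_sum_map _ _ fun y hy => ?_
    have h := hN0 y hy
    exact ell_pred_le s y x hs (by omega)
  have h3 : (x + s) * (α * ell s (μ - 1)) ≤ x * (α * ell s μ) := by
    have := Nat.mul_le_mul_left α (ell_pred_le s μ x hs hμ)
    calc (x + s) * (α * ell s (μ - 1)) = α * ((x + s) * ell s (μ - 1)) := by ring
      _ ≤ α * (x * ell s μ) := this
      _ = x * (α * ell s μ) := by ring
  unfold nxt
  refine (Nat.mul_le_mul_left _ (tl_filter_le s _)).trans ?_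
  rw [tl_add, tl_add, tl_add, tl_replicate, tl_replicate]
  simp only
  rw [mul_add, mul_add, mul_add, mul_add, mul_add]
  omega

end Pool.Agent.H21.NX

end

section

/-!
# Module Stage: one Horace step along `x_l = 0`

Proof of `stage`: `GM.step` (H18/Ex/Multi) with the multiset of roles
`Φ.map (here c e) + N0.map ord + replicate α (ord μ) + replicate ρ dif +
replicate f (stay (free μ))`, `A = Sx σ`, `A' = Sx (σ - 1)` (`Sx_resid`).  Its `before` is the
given multiset of conditions; its layers are `trc Φ N0 μ α ρ` and `f` zeros (`trace_GM`, applied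
to `trc Φ N0 μ α ρ`, and `GM.mono`); its `after` contains `fk l (nxt Φ N0 μ α ρ)` and
`replicate f (free μ)` (`GM.mono`; the filter in `nxt` only removes conditions).
-/

namespace Pool.Agent.H21.NX

open Finset Pool.Agent.H18.Ex

namespace StageX

/-- The roles. -/
def roles {ι : Type} (Φ : Multiset (ℕ × ℕ)) (N0 : Multiset ℕ) (μ α ρ f : ℕ) :
    Multiset (Role ι) :=
  Φ.map (fun x => Role.here x.1 x.2) + N0.map Role.ord + Multiset.replicate α (Role.ord μ) +
    Multiset.replicate ρ Role.dif + Multiset.replicate f (Role.stay (Kind.free μ))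

theorem roles_before {ι : Type} (l : ι) (Φ : Multiset (ℕ × ℕ)) (N0 : Multiset ℕ)
    (μ α ρ f : ℕ) :
    (roles Φ N0 μ α ρ f).map (Role.before l μ) = fk l Φ + N0.map Kind.free +
      Multiset.replicate (α + ρ + f) (Kind.free μ) := by
  unfold roles fk
  simp only [Multiset.map_add, Multiset.map_map, Multiset.map_replicate, Multiset.replicate_add]
  have e1 : (Role.before l μ ∘ fun x : ℕ × ℕ => Role.here x.1 x.2) =
      fun x : ℕ × ℕ => Kind.forced l x.1 x.2 := rfl
  have e2 : (Role.before l μ ∘ (Role.ord : ℕ → Role ι)) = (Kind.free : ℕ → Kind ι) := rfl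
  have e3 : Role.before l μ (Role.ord μ : Role ι) = Kind.free μ := rfl
  have e4 : Role.before l μ (Role.dif : Role ι) = Kind.free μ := rfl
  have e5 : Role.before l μ (Role.stay (Kind.free μ) : Role ι) = Kind.free μ := rfl
  rw [e1, e2, e3, e4, e5]
  simp only [add_assoc]

theorem roles_layer {ι : Type} (Φ : Multiset (ℕ × ℕ)) (N0 : Multiset ℕ) (μ α ρ f : ℕ)
    (hΦ : ∀ x ∈ Φ, x.2 ≤ x.1) :
    ((trc Φ N0 μ α ρ).map (Kind.free : ℕ → Kind ι)) ≤
      (roles Φ N0 μ α ρ f).map (fun r : Role ι => (Kind.free r.layer : Kind ι)) := by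
  unfold roles trc
  simp only [Multiset.map_add, Multiset.map_map, Multiset.map_replicate]
  refine le_trans (le_of_eq ?_) (Multiset.le_add_right _ _)
  have e1 : Multiset.map ((Kind.free : ℕ → Kind ι) ∘ Prod.fst) Φ =
      Multiset.map ((fun r : Role ι => (Kind.free r.layer : Kind ι)) ∘
        fun x : ℕ × ℕ => Role.here x.1 x.2) Φ := by
    refine Multiset.map_congr rfl fun x hx => ?_
    have h := hΦ x hx
    simp only [Function.comp, Role.layer, h, if_true]
  rw [e1]
  rfl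

theorem roles_after {ι : Type} (l : ι) (Φ : Multiset (ℕ × ℕ)) (N0 : Multiset ℕ)
    (μ α ρ f : ℕ) :
    fk l (nxt Φ N0 μ α ρ) + Multiset.replicate f (Kind.free μ) ≤
      (roles Φ N0 μ α ρ f).map (Role.after l μ) := by
  have h1 : fk l (nxt Φ N0 μ α ρ) ≤ fk l
      (Φ.map (fun x : ℕ × ℕ => (x.1 - 1, x.2)) + N0.map (fun m => (m - 1, 1)) +
        Multiset.replicate α (μ - 1, 1) + Multiset.replicate ρ (μ, 2)) :=
    Multiset.map_le_map (Multiset.filter_le _ _)
  refine le_trans (add_le_add h1 le_rfl) (le_of_eq ?_)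
  unfold roles fk
  simp only [Multiset.map_add, Multiset.map_map, Multiset.map_replicate]
  rfl

end StageX

end Pool.Agent.H21.NX

end

section

/-!
# Module D10 (TB): exact adjustment of the number of conditions

`z` from `solve` for `v s ρ = Mv a b d μ s ρ`, `q = a + b - 2`, `B = ell (a + b) μ` (`Mv_one`, `Mv_two`,
`Mv_zero`, `Mv_ge`, `Mv_le`).  `z s ρ` points (of multiplicity `μ`) are moved from the cell `(s, ρ)`
to the cell `(s, ρ + 1)`, i.e.
`c₁ (s, ρ) = c₀ (s, ρ) - z s ρ + z s (ρ - 1)` (where `z s ρ` counts only for `ρ < μ`, `s < d`,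
`s + ρ + 1 ≤ d`); the number is at least `E - 4 E' ≥ E / 2` if `solve` is used with `E' ≤ E / 8`, and the
total number does not change.  `Pre_move` gives the last statement.
-/

namespace Pool.Agent.H51.TB

open Finset Pool.Agent.H18.Ex Pool.Agent.H21.NX Pool.Agent.H18.Ta

/-- The change of the number of points of the cell `x`. -/
private def Adj_w (d μ : ℕ) (z : ℕ → ℕ → ℤ) (x : ℕ × ℕ) : ℤ :=
  (if 1 ≤ x.2 ∧ x.2 ≤ μ then z x.1 (x.2 - 1) else 0) -
    (if x.2 < μ ∧ x.1 + x.2 + 1 ≤ d then z x.1 x.2 else 0)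

private theorem Adj_sum (d μ : ℕ) (z : ℕ → ℕ → ℤ) (f : ℕ × ℕ → ℤ) :
    ∑ x ∈ KK d, Adj_w d μ z x * f x = ∑ s ∈ range d, ∑ ρ ∈ range μ,
      if s + ρ + 1 ≤ d then z s ρ * (f (s, ρ + 1) - f (s, ρ)) else 0 := by
  have h0 : ∑ s ∈ range d, ∑ ρ ∈ range μ,
      (if s + ρ + 1 ≤ d then z s ρ * (f (s, ρ + 1) - f (s, ρ)) else 0) =
      ∑ p ∈ (range d ×ˢ range μ).filter (fun p : ℕ × ℕ => p.1 + p.2 + 1 ≤ d),
        z p.1 p.2 * (f (p.1, p.2 + 1) - f (p.1, p.2)) := by
    rw [sum_filter, sum_product]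
  have h1 : ∑ x ∈ KK d, (if 1 ≤ x.2 ∧ x.2 ≤ μ then z x.1 (x.2 - 1) else 0) * f x =
      ∑ p ∈ (range d ×ˢ range μ).filter (fun p : ℕ × ℕ => p.1 + p.2 + 1 ≤ d),
        z p.1 p.2 * f (p.1, p.2 + 1) := by
    rw [sum_congr rfl (g := fun x : ℕ × ℕ => if 1 ≤ x.2 ∧ x.2 ≤ μ then z x.1 (x.2 - 1) * f x else 0)
      (fun x _ => by rw [ite_mul, zero_mul]), ← sum_filter]
    refine sum_nbij' (fun x => (x.1, x.2 - 1)) (fun p => (p.1, p.2 + 1)) ?_ ?_ ?_ ?_ ?_
    · intro x hx
      rw [mem_filter, mem_KK] at hx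
      rw [mem_filter, mem_product, mem_range, mem_range]
      simp only
      omega
    · intro p hp
      rw [mem_filter, mem_product, mem_range, mem_range] at hp
      rw [mem_filter, mem_KK]
      simp only
      omega
    · intro x hx
      rw [mem_filter, mem_KK] at hx
      ext
      · rfl
      · simp only
        omega
    · intro p _
      simp
    · intro x hx
      rw [mem_filter, mem_KK] at hx
      simp only
      have h : x.2 - 1 + 1 = x.2 := by omega
      rw [h]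
  have h2 : ∑ x ∈ KK d, (if x.2 < μ ∧ x.1 + x.2 + 1 ≤ d then z x.1 x.2 else 0) * f x =
      ∑ p ∈ (range d ×ˢ range μ).filter (fun p : ℕ × ℕ => p.1 + p.2 + 1 ≤ d),
        z p.1 p.2 * f (p.1, p.2) := by
    rw [sum_congr rfl (g := fun x : ℕ × ℕ => if x.2 < μ ∧ x.1 + x.2 + 1 ≤ d then z x.1 x.2 * f x
      else 0) (fun x _ => by rw [ite_mul, zero_mul]), ← sum_filter]
    refine sum_congr ?_ fun x _ => rfl
    ext x
    rw [mem_filter, mem_KK, mem_filter, mem_product, mem_range, mem_range]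
    omega
  have h3 : ∑ p ∈ (range d ×ˢ range μ).filter (fun p : ℕ × ℕ => p.1 + p.2 + 1 ≤ d),
        z p.1 p.2 * (f (p.1, p.2 + 1) - f (p.1, p.2)) =
      ∑ p ∈ (range d ×ˢ range μ).filter (fun p : ℕ × ℕ => p.1 + p.2 + 1 ≤ d),
        z p.1 p.2 * f (p.1, p.2 + 1) -
      ∑ p ∈ (range d ×ˢ range μ).filter (fun p : ℕ × ℕ => p.1 + p.2 + 1 ≤ d),
        z p.1 p.2 * f (p.1, p.2) := by
    rw [← sum_sub_distrib]
    exact sum_congr rfl fun x _ => by rw [mul_sub]
  rw [h0, h3, ← h1, ← h2, ← sum_sub_distrib]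
  refine sum_congr rfl fun x _ => ?_
  unfold Adj_w
  ring

private theorem Adj_abs (d μ : ℕ) (z : ℕ → ℕ → ℤ) (F : ℤ) (hz : ∀ s ρ, |z s ρ| ≤ F) (x : ℕ × ℕ) :
    |Adj_w d μ z x| ≤ 2 * F := by
  have hF : 0 ≤ F := le_trans (abs_nonneg _) (hz 0 0)
  have h1 : |(if 1 ≤ x.2 ∧ x.2 ≤ μ then z x.1 (x.2 - 1) else 0 : ℤ)| ≤ F := by
    split_ifs
    · exact hz _ _
    · simpa using hF
  have h2 : |(if x.2 < μ ∧ x.1 + x.2 + 1 ≤ d then z x.1 x.2 else 0 : ℤ)| ≤ F := by
    split_ifs
    · exact hz _ _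
    · simpa using hF
  unfold Adj_w
  calc _ ≤ _ := abs_sub _ _
    _ ≤ 2 * F := by linarith

theorem adjust (d μ : ℕ) (hμ : 1 ≤ μ) (h2 : 2 * μ ≤ d) : ∃ K : ℕ, 1 ≤ K ∧
    ∀ a b : ℕ, 2 ≤ a → 2 ≤ b →
    (∀ t, 1 ≤ t → t < μ → Nat.Coprime (Nat.multichoose (a - 1) t) (a + b - 2)) →
    ∀ (c₀ : ℕ × ℕ → ℕ) (E : ℕ) (P : ℕ → ℤ), (∀ x ∈ KK d, x.2 ≤ μ → E ≤ c₀ x) →
    K * ((a + b) * ell (a + b) μ) ≤ E →
    (∀ s < d, (K : ℤ) * |P s| ≤ (E : ℤ) * (Mv a b d μ s 0 : ℤ)) →
    ∃ c₁ : ℕ × ℕ → ℕ, ∑ x ∈ KK d, c₁ x = ∑ x ∈ KK d, c₀ x ∧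
      (∀ x ∈ KK d, x.2 ≤ μ → E ≤ 2 * c₁ x) ∧
      ∀ j < d, ∑ x ∈ KK d, (c₁ x : ℤ) * (Pre a b d μ x j : ℤ) =
        ∑ x ∈ KK d, (c₀ x : ℤ) * (Pre a b d μ x j : ℤ) - P j := by
  obtain ⟨K, hK1, hK⟩ := solve d μ hμ h2
  refine ⟨16 * K, by omega, ?_⟩
  intro a b ha hb hcop c₀ E P hE hKE hP
  have hell : 1 ≤ ell (a + b) μ := by
    unfold ell
    exact Nat.choose_pos (by omega)
  have hE64 : 64 ≤ E := by
    have h1 : 4 * 1 ≤ (a + b) * ell (a + b) μ := Nat.mul_le_mul (by omega) hell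
    have h3 : 16 * 1 * (4 * 1) ≤ 16 * K * ((a + b) * ell (a + b) μ) :=
      Nat.mul_le_mul (Nat.mul_le_mul le_rfl hK1) h1
    omega
  have hE16 : E ≤ 16 * (E / 8) := by omega
  have hE8 : 8 * (E / 8) ≤ E := by omega
  set E' : ℕ := E / 8 with hE'
  have hab : ((a + b - 2 : ℕ) : ℤ) = (a : ℤ) + b - 2 := by
    rw [Nat.cast_sub (by omega)]
    push_cast
    ring
  obtain ⟨z, hz, hzP⟩ := hK (fun s ρ => (Mv a b d μ s ρ : ℤ)) ((a + b - 2 : ℕ) : ℤ)
    (ell (a + b) μ : ℤ) (E' : ℤ) P (by rw [hab]; omega) (by exact_mod_cast hell)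
    (fun s hs => by
      rw [Mv_one hμ hs]
      rfl)
    (fun hm s h1 hs => by
      rw [Mv_two (by omega) (by omega) hm h1 hs])
    (fun t ht1 ht2 => by
      rw [Mv_zero (by omega) (by omega) (by omega)]
      exact Nat.isCoprime_iff_coprime.mpr (hcop t ht1 ht2))
    (fun s hs => by
      obtain ⟨g, _, hg⟩ := Mv_ge (a := a) (b := b) hμ (by omega) hs
      have hg1 : 1 ≤ Eg a b g := by
        unfold Eg
        refine Nat.mul_pos ?_ ?_
        · rw [Nat.multichoose_eq]
          exact Nat.choose_pos (by omega)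
        · rw [Nat.multichoose_eq]
          exact Nat.choose_pos (by omega)
      exact_mod_cast le_trans hg1 hg)
    (fun s _ ρ _ => by
      rw [Nat.abs_cast]
      exact_mod_cast Mv_le (by omega) (by omega))
    (by
      have h1 : K * ((a + b - 2) * ell (a + b) μ) ≤ E' := by
        have h3 : 16 * (K * ((a + b - 2) * ell (a + b) μ)) ≤
            16 * K * ((a + b) * ell (a + b) μ) := by
          rw [Nat.mul_assoc]
          exact Nat.mul_le_mul le_rfl (Nat.mul_le_mul le_rfl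
            (Nat.mul_le_mul (Nat.sub_le _ _) le_rfl))
        omega
      exact_mod_cast h1)
    (fun s hs => by
      have h1 := hP s hs
      push_cast at h1
      have h3 : (1 : ℤ) ≤ K := by exact_mod_cast hK1
      have h4 : (16 : ℤ) * |P s| ≤ 16 * K * |P s| := by
        nlinarith [abs_nonneg (P s)]
      have h5 : (E : ℤ) * (Mv a b d μ s 0 : ℤ) ≤ 16 * E' * (Mv a b d μ s 0 : ℤ) := by
        refine mul_le_mul_of_nonneg_right ?_ (Nat.cast_nonneg _)
        exact_mod_cast hE16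
      linarith)
  have hw : ∀ x ∈ KK d, x.2 ≤ μ → (E : ℤ) ≤ 2 * ((c₀ x : ℤ) + Adj_w d μ z x) := by
    intro x hx hx2
    have h1 := hE x hx hx2
    have h3 := Adj_abs d μ z (2 * (E' : ℤ)) hz x
    have h4 := (abs_le.mp h3).1
    omega
  have hpos : ∀ x ∈ KK d, 0 ≤ (c₀ x : ℤ) + Adj_w d μ z x := by
    intro x hx
    by_cases hx2 : x.2 ≤ μ
    · have := hw x hx hx2
      omega
    · unfold Adj_w
      rw [if_neg (by omega), if_neg (by omega)]
      simp
  refine ⟨fun x => ((c₀ x : ℤ) + Adj_w d μ z x).toNat, ?_, ?_, ?_⟩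
  · have h1 : ∑ x ∈ KK d, Adj_w d μ z x = 0 := by
      have h3 := Adj_sum d μ z (fun _ => 1)
      simp only [mul_one, sub_self, mul_zero, ite_self, sum_const_zero] at h3
      exact h3
    have h3 : ((∑ x ∈ KK d, ((c₀ x : ℤ) + Adj_w d μ z x).toNat : ℕ) : ℤ) =
        ((∑ x ∈ KK d, c₀ x : ℕ) : ℤ) := by
      rw [Nat.cast_sum, Nat.cast_sum, sum_congr rfl fun x hx => Int.toNat_of_nonneg (hpos x hx),
        sum_add_distrib, h1, add_zero]
    exact_mod_cast h3
  · intro x hx hx2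
    have h1 := hw x hx hx2
    simp only
    omega
  · intro j hj
    rw [sum_congr rfl (g := fun x => (c₀ x : ℤ) * (Pre a b d μ x j : ℤ) +
      Adj_w d μ z x * (Pre a b d μ x j : ℤ)) (fun x hx => by
        simp only
        rw [Int.toNat_of_nonneg (hpos x hx)]
        ring), sum_add_distrib, Adj_sum, hzP j hj, sub_eq_add_neg, ← sum_neg_distrib]
    congr 1
    refine sum_congr rfl fun s _ => ?_
    rw [← sum_neg_distrib]
    refine sum_congr rfl fun ρ _ => ?_
    by_cases hs : s + ρ + 1 ≤ d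
    · rw [if_pos hs]
      have h1 := Pre_move (a := a) (b := b) (m := μ) hs j (by omega)
      by_cases h3 : s ≤ j ∧ j ≤ s + ρ
      · rw [if_pos h3] at h1
        rw [if_pos ⟨h3.1, h3.2, hs⟩]
        have h4 : (Pre a b d μ (s, ρ + 1) j : ℤ) + (Mv a b d μ s ρ : ℤ) =
            (Pre a b d μ (s, ρ) j : ℤ) := by exact_mod_cast h1
        rw [← h4]
        ring
      · rw [if_neg h3, add_zero] at h1
        rw [if_neg (fun h => h3 ⟨h.1, h.2.1⟩), h1]
        ring
    · rw [if_neg hs, if_neg (fun h => hs h.2.2), neg_zero]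

end Pool.Agent.H51.TB

end
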