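import Pool.Agent.H94.LP5.M21

/-! The parts of this file: H51.TB.Lead, H51.TB.Init. -/

section

/-!
# Module D5 (TB): the leading part of the conditions

`Pre a b d m c j = ∑_g Eg g * #{i ≤ j : g ∈ Lam d m c i}` (`|g| < m`).  The `g` with `|g| ≤ m - 2`
contribute at most `(d + 1) * ∑_{|g| ≤ m - 2} Eg g ≤ (d + 1) * ell (a + b - 1) (m - 1)`, which is small
compared with `ell (a + b - 1) m`.  For `|g| = m - 1`: `g ∈ Lam d m c i` iff `i` is in the window
`[gy, d - gx]` and no level of the window has a smaller rank, that is, `i` is the level of the window of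
smallest rank, which is `max gy (min (st c) (d - gx))`.  It is `≤ j` iff `gy ≤ j` and
(`st c ≤ j` or `d - gx ≤ j`), and `d - gx = gy + d + 1 - m`.  By `asy` (for the finitely many `g`)
`Eg g` is about `binom (m-1, gy) / 2^(m-1) * ell (a + b - 1) m`.

Second statement: `bet a b d i = multichoose a (d - i) * multichoose b i` and `asy'`.
-/

namespace Pool.Agent.H51.TB

open Finset Pool.Agent.H18.Ex Pool.Agent.H21.NX Pool.Agent.H18.Ta

private theorem Lead_unif (N : ℕ) (P : ℕ → ℕ → ℕ → Prop)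
    (h : ∀ q < N, ∃ ε : ℝ, 0 < ε ∧ ∃ n₀ : ℕ, ∀ a b : ℕ, 1 ≤ a → 1 ≤ b → n₀ ≤ a + b →
      |(a : ℝ) - b| ≤ ε * (a + b : ℕ) → P q a b) :
    ∃ ε : ℝ, 0 < ε ∧ ∃ n₀ : ℕ, ∀ a b : ℕ, 1 ≤ a → 1 ≤ b → n₀ ≤ a + b →
      |(a : ℝ) - b| ≤ ε * (a + b : ℕ) → ∀ q < N, P q a b := by
  induction N with
  | zero => exact ⟨1, one_pos, 0, fun a b _ _ _ _ q hq => absurd hq (by omega)⟩
  | succ N ih =>
    obtain ⟨ε₁, hε₁, n₁, h₁⟩ := ih fun q hq => h q (by omega)
    obtain ⟨ε₂, hε₂, n₂, h₂⟩ := h N (by omega)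
    refine ⟨min ε₁ ε₂, lt_min hε₁ hε₂, max n₁ n₂, fun a b ha hb hn hab q hq => ?_⟩
    have hpos : (0 : ℝ) ≤ (a + b : ℕ) := Nat.cast_nonneg _
    have e1 : |(a : ℝ) - b| ≤ ε₁ * (a + b : ℕ) :=
      hab.trans (mul_le_mul_of_nonneg_right (min_le_left _ _) hpos)
    have e2 : |(a : ℝ) - b| ≤ ε₂ * (a + b : ℕ) :=
      hab.trans (mul_le_mul_of_nonneg_right (min_le_right _ _) hpos)
    rcases Nat.lt_or_ge q N with hqN | hqN
    · exact h₁ a b ha hb (le_trans (le_max_left _ _) hn) e1 q hqN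
    · have : q = N := by omega
      subst this
      exact h₂ a b ha hb (le_trans (le_max_right _ _) hn) e2

private theorem Lead_swap (a b d m : ℕ) (c : ℕ × ℕ) (N : ℕ) :
    ∑ i ∈ range N, wt a b d m c i =
      ∑ g ∈ range m ×ˢ range m, Eg a b g * ((range N).filter fun i => g ∈ Lam d m c i).card := by
  have h1 : ∀ i, wt a b d m c i = ∑ g ∈ range m ×ˢ range m, if g ∈ Lam d m c i then Eg a b g else 0 := by
    intro i
    unfold wt
    rw [Finset.sum_ite_mem]
    congr 1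
    refine (Finset.inter_eq_right.2 ?_).symm
    unfold Lam
    exact Finset.filter_subset _ _
  simp only [h1]
  rw [Finset.sum_comm]
  refine Finset.sum_congr rfl fun g _ => ?_
  rw [← Finset.sum_filter, Finset.sum_const, smul_eq_mul, mul_comm]

private theorem Lead_mem {d m : ℕ} {c g : ℕ × ℕ} {i : ℕ} : g ∈ Lam d m c i ↔
    g.2 ≤ i ∧ i + g.1 ≤ d ∧ g.1 + g.2 + wr d c g i < m := by
  unfold Lam
  rw [mem_filter, mem_product, mem_range, mem_range]
  constructor
  · exact fun h => h.2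
  · exact fun h => ⟨⟨by omega, by omega⟩, h⟩

/-- the level with the smallest rank in a window -/
private theorem Lead_min {d u ρ lo hi i : ℕ} (hc : u + ρ ≤ d) (hlh : lo ≤ hi) (hhi : hi ≤ d) (h1 : lo ≤ i)
    (h2 : i ≤ hi) {x : ℕ} (hx : x = max lo (min (st (u, ρ)) hi)) :
    rk (d + 1) u ρ x ≤ rk (d + 1) u ρ i := by
  unfold st at hx
  unfold rk
  simp only at hx
  split_ifs at hx ⊢ <;> omega

private theorem Lead_star {d m : ℕ} {c g : ℕ × ℕ} {i : ℕ} (hc : c.1 + c.2 ≤ d) (hm : m ≤ d)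
    (hg : g.1 + g.2 + 1 = m) (hi : i ≤ d) :
    g ∈ Lam d m c i ↔ i = max g.2 (min (st c) (d - g.1)) := by
  rw [Lead_mem]
  set x := max g.2 (min (st c) (d - g.1)) with hx
  have hx1 : g.2 ≤ x := le_max_left _ _
  have hx2 : x + g.1 ≤ d := by
    have : x ≤ d - g.1 := max_le (by omega) (min_le_right _ _)
    omega
  have hmin : ∀ i', g.2 ≤ i' → i' + g.1 ≤ d → rk (d + 1) c.1 c.2 x ≤ rk (d + 1) c.1 c.2 i' := fun i' h1 h2 =>
    Lead_min (lo := g.2) (hi := d - g.1) hc (by omega) (by omega) h1 (by omega) hx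
  have hwr : ∀ i', wr d c g i' = 0 ↔ ∀ i'' ≤ d, g.2 ≤ i'' → i'' + g.1 ≤ d →
      ¬ rk (d + 1) c.1 c.2 i'' < rk (d + 1) c.1 c.2 i' := by
    intro i'
    unfold wr
    rw [Finset.card_eq_zero, Finset.filter_eq_empty_iff]
    constructor
    · intro h i'' h1 h2 h3 h4
      exact h (mem_range.2 (by omega)) ⟨h2, h3, h4⟩
    · intro h i'' h1 h2
      exact h i'' (by rw [mem_range] at h1; omega) h2.1 h2.2.1 h2.2.2
  constructor
  · rintro ⟨h1, h2, h3⟩
    have h4 : wr d c g i = 0 := by omega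
    have h5 := (hwr i).1 h4 x (by omega) hx1 hx2
    have h6 := hmin i h1 h2
    exact rk_inj (ℓ := d + 1) (u := c.1) (j := c.2) (by omega) (by omega) (by omega) (by omega)
  · intro hix
    rw [hix]
    have h4 : wr d c g x = 0 := (hwr x).2 fun i'' _ h2 h3 h4 => by
      have := hmin i'' h2 h3
      omega
    exact ⟨hx1, hx2, by omega⟩

private theorem Lead_card {d m j : ℕ} {c g : ℕ × ℕ} (hc : c.1 + c.2 ≤ d) (hm : m ≤ d)
    (hg : g.1 + g.2 + 1 = m) (hj : j ≤ d) :
    ((range (j + 1)).filter fun i => g ∈ Lam d m c i).card =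
      if g.2 ≤ j ∧ (st c ≤ j ∨ g.2 + (d + 1) ≤ j + m) then 1 else 0 := by
  have h1 : ((range (j + 1)).filter fun i => g ∈ Lam d m c i) =
      (range (j + 1)).filter fun i => i = max g.2 (min (st c) (d - g.1)) := by
    refine Finset.filter_congr fun i hi => ?_
    rw [mem_range] at hi
    exact Lead_star hc hm hg (by omega)
  rw [h1, Finset.filter_eq']
  have h2 : (max g.2 (min (st c) (d - g.1)) ∈ range (j + 1)) ↔
      (g.2 ≤ j ∧ (st c ≤ j ∨ g.2 + (d + 1) ≤ j + m)) := by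
    rw [mem_range, Nat.lt_succ_iff, max_le_iff, min_le_iff]
    have : d - g.1 ≤ j ↔ g.2 + (d + 1) ≤ j + m := by omega
    rw [this]
  by_cases h3 : g.2 ≤ j ∧ (st c ≤ j ∨ g.2 + (d + 1) ≤ j + m)
  · rw [if_pos h3, if_pos (h2.2 h3), Finset.card_singleton]
  · rw [if_neg h3, if_neg fun h => h3 (h2.1 h), Finset.card_empty]

private theorem Lead_ratio {n c : ℕ} (hn : 1 ≤ n) : ell n c * (c + n) = ell n (c + 1) * c := by
  rcases Nat.eq_zero_or_pos c with h | h
  · subst h
    rw [ell_zero hn]; simp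
  · unfold ell
    have := Nat.choose_mul_succ_eq (c + n - 1) n
    rw [show c + n - 1 + 1 = c + n by omega, show c + n - n = c by omega] at this
    rw [show c + 1 + n - 1 = c + n by omega]
    exact this

/-- the contribution of the bidegrees `g` with `|g| ≤ m - 2` -/
private theorem Lead_small {a b d m j : ℕ} (ha : 1 ≤ a) (hb : 1 ≤ b) (hm : 1 ≤ m) (hmd : m ≤ d) (hj : j ≤ d)
    {c : ℕ × ℕ} (hc : c.1 + c.2 ≤ d) :
    ∑ g ∈ (range m ×ˢ range m).filter (fun g => ¬ (g.1 + g.2 + 1 = m)),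
      Eg a b g * ((range (j + 1)).filter fun i => g ∈ Lam d m c i).card ≤
      (d + 1) * ell (a + b - 1) (m - 1) := by
  have h1 := sum_wt (d := d) (m := m - 1) ha hb (by omega) hc
  rw [Lead_swap] at h1
  rw [← h1, Finset.mul_sum]
  have h2 : ∑ g ∈ (range m ×ˢ range m).filter (fun g => ¬ (g.1 + g.2 + 1 = m)),
      Eg a b g * ((range (j + 1)).filter fun i => g ∈ Lam d m c i).card ≤
      ∑ g ∈ (range (m - 1) ×ˢ range (m - 1)).filter (fun g => g.1 + g.2 < m - 1),
      (d + 1) * (Eg a b g * ((range (d + 1)).filter fun i => g ∈ Lam d (m - 1) c i).card) := by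
    rw [← Finset.sum_filter_add_sum_filter_not _ (fun g : ℕ × ℕ => g.1 + g.2 < m - 1)]
    have e1 : ∑ g ∈ ((range m ×ˢ range m).filter (fun g => ¬ (g.1 + g.2 + 1 = m))).filter
        (fun g : ℕ × ℕ => ¬ (g.1 + g.2 < m - 1)),
        Eg a b g * ((range (j + 1)).filter fun i => g ∈ Lam d m c i).card = 0 := by
      refine Finset.sum_eq_zero fun g hg => ?_
      simp only [mem_filter, mem_product, mem_range] at hg
      have : ((range (j + 1)).filter fun i => g ∈ Lam d m c i) = ∅ := by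
        rw [Finset.filter_eq_empty_iff]
        intro i _ hi
        rw [Lead_mem] at hi
        omega
      rw [this, Finset.card_empty, mul_zero]
    rw [e1, add_zero]
    have e2 : ((range m ×ˢ range m).filter (fun g => ¬ (g.1 + g.2 + 1 = m))).filter
        (fun g : ℕ × ℕ => g.1 + g.2 < m - 1) =
        (range (m - 1) ×ˢ range (m - 1)).filter (fun g => g.1 + g.2 < m - 1) := by
      ext g
      simp only [mem_filter, mem_product, mem_range]
      omega
    rw [e2]
    refine Finset.sum_le_sum fun g hg => ?_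
    simp only [mem_filter, mem_product, mem_range] at hg
    have e3 := card_levels (d := d) (m := m - 1) (by omega) hc g hg.2
    rw [e3]
    have e4 : ((range (j + 1)).filter fun i => g ∈ Lam d m c i).card ≤ d + 1 := by
      refine (Finset.card_filter_le _ _).trans ?_
      rw [card_range]; omega
    have e5 : 1 ≤ m - 1 - (g.1 + g.2) := by omega
    calc Eg a b g * ((range (j + 1)).filter fun i => g ∈ Lam d m c i).card ≤ Eg a b g * (d + 1) :=
          Nat.mul_le_mul_left _ e4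
      _ = (d + 1) * (Eg a b g * 1) := by ring
      _ ≤ (d + 1) * (Eg a b g * (m - 1 - (g.1 + g.2))) :=
          Nat.mul_le_mul_left _ (Nat.mul_le_mul_left _ e5)
  refine h2.trans (Finset.sum_le_sum_of_subset (Finset.filter_subset _ _))

private theorem Lead_top {a b d m j : ℕ} (hm : 1 ≤ m) (hmd : m ≤ d) (hj : j ≤ d)
    {c : ℕ × ℕ} (hc : c.1 + c.2 ≤ d) :
    ∑ g ∈ (range m ×ˢ range m).filter (fun g => g.1 + g.2 + 1 = m),
      Eg a b g * ((range (j + 1)).filter fun i => g ∈ Lam d m c i).card =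
      ∑ q ∈ range m, Eg a b (m - 1 - q, q) *
        (if q ≤ j ∧ (st c ≤ j ∨ q + (d + 1) ≤ j + m) then 1 else 0) := by
  refine Finset.sum_nbij' (fun g => g.2) (fun q => (m - 1 - q, q)) ?_ ?_ ?_ ?_ ?_
  · intro g hg
    simp only [mem_filter, mem_product, mem_range] at hg ⊢
    exact hg.1.2
  · intro q hq
    simp only [mem_filter, mem_product, mem_range] at hq ⊢
    omega
  · rintro ⟨x, y⟩ hg
    simp only [mem_filter, mem_product, mem_range] at hg ⊢
    rw [Prod.mk.injEq]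
    omega
  · intro q hq
    rfl
  · rintro ⟨x, y⟩ hg
    simp only [mem_filter, mem_product, mem_range] at hg
    have hx : x = m - 1 - y := by omega
    subst hx
    rw [Lead_card hc hmd (by simp only; omega) hj]

theorem lead (d m : ℕ) (hm : 1 ≤ m) (hmd : m ≤ d) (δ : ℝ) (hδ : 0 < δ) :
    ∃ ε : ℝ, 0 < ε ∧ ∃ n₀ : ℕ, ∀ a b : ℕ, 1 ≤ a → 1 ≤ b → n₀ ≤ a + b →
    |(a : ℝ) - b| ≤ ε * (a + b : ℕ) → ∀ c ∈ KK d, ∀ j ≤ d,
    |(Pre a b d m c j : ℝ) - Gl d m (st c) j * (ell (a + b - 1) m : ℝ)| ≤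
      δ * (ell (a + b - 1) m : ℝ) := by
  have hm0 : (0 : ℝ) < m := by exact_mod_cast hm
  obtain ⟨ε, hε, n₀, h⟩ := Lead_unif m (fun q a b =>
    |(Eg a b (m - 1 - q, q) : ℝ) - ((m - 1).choose q : ℝ) / 2 ^ (m - 1) * (ell (a + b - 1) m : ℝ)| ≤
      δ / (2 * m) * (ell (a + b - 1) m : ℝ)) (fun q hq => by
    obtain ⟨ε, hε, n₀, h⟩ := asy (m - 1 - q) q (δ / (2 * m)) (by positivity)
    refine ⟨ε, hε, n₀, fun a b ha hb hn hab => ?_⟩
    have := h a b ha hb hn hab
    rw [show m - 1 - q + q = m - 1 by omega, show m - 1 + 1 = m by omega] at this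
    exact this)
  obtain ⟨N, hN⟩ := exists_nat_ge (2 * (d + 1) * d / δ : ℝ)
  refine ⟨ε, hε, max n₀ (N + 2), fun a b ha hb hn hab c hc j hj => ?_⟩
  rw [mem_KK] at hc
  have hq := h a b ha hb (le_trans (le_max_left _ _) hn) hab
  have hn2 : N + 2 ≤ a + b := le_trans (le_max_right _ _) hn
  set n := a + b - 1 with hndef
  set L : ℝ := (ell n m : ℝ) with hL
  have hL0 : 0 ≤ L := Nat.cast_nonneg _
  -- the decomposition
  have hPre : (Pre a b d m c j : ℝ) =
      ((∑ q ∈ range m, Eg a b (m - 1 - q, q) *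
        (if q ≤ j ∧ (st c ≤ j ∨ q + (d + 1) ≤ j + m) then 1 else 0) : ℕ) : ℝ) +
      ((∑ g ∈ (range m ×ˢ range m).filter (fun g => ¬ (g.1 + g.2 + 1 = m)),
        Eg a b g * ((range (j + 1)).filter fun i => g ∈ Lam d m c i).card : ℕ) : ℝ) := by
    unfold Pre
    rw [Lead_swap, ← Finset.sum_filter_add_sum_filter_not _ (fun g : ℕ × ℕ => g.1 + g.2 + 1 = m),
      Lead_top hm hmd hj hc, Nat.cast_add]
  have hsmall := Lead_small ha hb hm hmd hj hc
  set Bn : ℕ := ∑ g ∈ (range m ×ˢ range m).filter (fun g => ¬ (g.1 + g.2 + 1 = m)),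
        Eg a b g * ((range (j + 1)).filter fun i => g ∈ Lam d m c i).card with hBn
  have hB1 : (Bn : ℝ) ≤ (d + 1) * (ell n (m - 1) : ℝ) := by exact_mod_cast hsmall
  have hn1 : 1 ≤ n := by omega
  have hnR : (0 : ℝ) < n := by exact_mod_cast hn1
  have hratio : (ell n (m - 1) : ℝ) * n ≤ L * d := by
    have h1 := Lead_ratio (c := m - 1) hn1
    rw [show m - 1 + 1 = m by omega] at h1
    have h2 : ell n (m - 1) * n ≤ ell n m * d := by
      calc ell n (m - 1) * n ≤ ell n (m - 1) * (m - 1 + n) := Nat.mul_le_mul_left _ (by omega)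
        _ = ell n m * (m - 1) := h1
        _ ≤ ell n m * d := Nat.mul_le_mul_left _ (by omega)
    rw [hL]
    exact_mod_cast h2
  have hNn : (2 * (d + 1) * d / δ : ℝ) ≤ n := by
    refine hN.trans ?_
    exact_mod_cast (by omega : N ≤ n)
  have hB2 : (Bn : ℝ) ≤ δ / 2 * L := by
    rw [div_le_iff₀ hδ] at hNn
    have h1 : (d + 1) * (ell n (m - 1) : ℝ) * n ≤ δ / 2 * L * n := by
      calc (d + 1) * (ell n (m - 1) : ℝ) * n = (d + 1) * ((ell n (m - 1) : ℝ) * n) := by ring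
        _ ≤ (d + 1) * (L * d) := by gcongr
        _ = L * (2 * (d + 1) * d) / 2 := by ring
        _ ≤ L * (n * δ) / 2 := by gcongr
        _ = δ / 2 * L * n := by ring
    have h2 : (d + 1) * (ell n (m - 1) : ℝ) ≤ δ / 2 * L := le_of_mul_le_mul_right h1 hnR
    exact hB1.trans h2
  have hA : |((∑ q ∈ range m, Eg a b (m - 1 - q, q) *
        (if q ≤ j ∧ (st c ≤ j ∨ q + (d + 1) ≤ j + m) then 1 else 0) : ℕ) : ℝ) - Gl d m (st c) j * L| ≤
      δ / 2 * L := by
    have e1 : Gl d m (st c) j * L = ∑ q ∈ range m,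
        (if q ≤ j ∧ (st c ≤ j ∨ q + (d + 1) ≤ j + m) then ((m - 1).choose q : ℝ) / 2 ^ (m - 1) * L else 0) := by
      unfold Gl
      rw [Finset.sum_div, Finset.sum_mul]
      refine Finset.sum_congr rfl fun q _ => ?_
      split_ifs <;> simp
    rw [e1]
    push_cast
    rw [← Finset.sum_sub_distrib]
    refine (Finset.abs_sum_le_sum_abs _ _).trans ?_
    calc ∑ q ∈ range m, |(Eg a b (m - 1 - q, q) : ℝ) *
          (if q ≤ j ∧ (st c ≤ j ∨ q + (d + 1) ≤ j + m) then 1 else 0) -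
          (if q ≤ j ∧ (st c ≤ j ∨ q + (d + 1) ≤ j + m) then ((m - 1).choose q : ℝ) / 2 ^ (m - 1) * L else 0)|
        ≤ ∑ q ∈ range m, δ / (2 * m) * L := by
          refine Finset.sum_le_sum fun q hq' => ?_
          rw [mem_range] at hq'
          split_ifs
          · rw [mul_one]; exact hq q hq'
          · rw [mul_zero, sub_zero, abs_zero]; positivity
      _ = δ / 2 * L := by
          rw [Finset.sum_const, card_range, nsmul_eq_mul]
          field_simp
  rw [hPre, abs_le]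
  rw [abs_le] at hA
  have hBn0 : (0 : ℝ) ≤ Bn := Nat.cast_nonneg _
  constructor <;> linarith

theorem lead_bet (d : ℕ) (δ : ℝ) (hδ : 0 < δ) :
    ∃ ε : ℝ, 0 < ε ∧ ∃ n₀ : ℕ, ∀ a b : ℕ, 1 ≤ a → 1 ≤ b → n₀ ≤ a + b →
    |(a : ℝ) - b| ≤ ε * (a + b : ℕ) → ∀ j ≤ d,
    |((∑ i ∈ range (j + 1), bet a b d i : ℕ) : ℝ) - Phi d j * (ell (a + b - 1) (d + 1) : ℝ)| ≤
      δ * (ell (a + b - 1) (d + 1) : ℝ) := by
  obtain ⟨ε, hε, n₀, h⟩ := Lead_unif (d + 1) (fun q a b =>
    |(bet a b d q : ℝ) - (d.choose q : ℝ) / 2 ^ d * (ell (a + b - 1) (d + 1) : ℝ)| ≤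
      δ / (d + 1) * (ell (a + b - 1) (d + 1) : ℝ)) (fun q hq => by
    obtain ⟨ε, hε, n₀, h⟩ := asy' (d - q) q (δ / (d + 1)) (by positivity)
    refine ⟨ε, hε, n₀, fun a b ha hb hn hab => ?_⟩
    have := h a b ha hb hn hab
    rw [show d - q + q = d by omega] at this
    exact this)
  refine ⟨ε, hε, n₀, fun a b ha hb hn hab j hj => ?_⟩
  have hq := h a b ha hb hn hab
  set L : ℝ := (ell (a + b - 1) (d + 1) : ℝ) with hL
  have hL0 : 0 ≤ L := Nat.cast_nonneg _
  have e1 : Phi d j * L = ∑ i ∈ range (j + 1), (d.choose i : ℝ) / 2 ^ d * L := by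
    unfold Phi
    rw [Finset.sum_div, Finset.sum_mul]
  rw [e1]
  push_cast
  rw [← Finset.sum_sub_distrib]
  refine (Finset.abs_sum_le_sum_abs _ _).trans ?_
  calc ∑ i ∈ range (j + 1), |(bet a b d i : ℝ) - (d.choose i : ℝ) / 2 ^ d * L|
      ≤ ∑ i ∈ range (j + 1), δ / (d + 1) * L := by
        refine Finset.sum_le_sum fun i hi => ?_
        rw [mem_range] at hi
        exact hq i (by omega)
    _ = (j + 1 : ℕ) * (δ / (d + 1) * L) := by
        rw [Finset.sum_const, card_range, nsmul_eq_mul]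
    _ ≤ (d + 1 : ℕ) * (δ / (d + 1) * L) := by
        refine mul_le_mul_of_nonneg_right ?_ (by positivity)
        exact_mod_cast (by omega : j + 1 ≤ d + 1)
    _ = δ * L := by push_cast; field_simp

end Pool.Agent.H51.TB

end

section

/-!
# Module D11 (TB): the initial distribution of the points of multiplicity `m`

Take `θ` from `theta`, `e = min_s θ s / (d + 3)`.  Given the number `A` of points and `E ≤ e * A`, let
`N s = ⌊θ s * A⌋` for `1 ≤ s ≤ d` and `N 0 = A - ∑_{s ≥ 1} N s`, so `|N s - θ s * A| ≤ d + 1` for all `s`.  The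
points with `st c = s` are the `N s` ones: `E` points in each cell `(s - 1, ρ)`, `1 ≤ ρ ≤ m`,
`s - 1 + ρ ≤ d` (if `s ≥ 1`), and the remaining ones in the cell `(s, 0)` (at least `E`, since
`N s ≥ (m + 1) * E`: `N s ≥ θ s * A - 1` and if `E ≥ 1` then `θ s * A ≥ (d + 3) * E`, `m + 1 ≤ d + 1`).
Then `∑_x c₀ x * Gl d m (st x) j = ∑_s N s * Gl d m s j`, which differs from `A * Phi d j` by at most
`(d + 1)^2` (`0 ≤ Gl ≤ 1`), and by `lead` `∑_x c₀ x * Pre x j` differs from
`∑_x c₀ x * Gl d m (st x) j * ell (a + b - 1) m` by at most `δ * A * ell (a + b - 1) m`.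
-/

namespace Pool.Agent.H51.TB

open Finset Pool.Agent.H18.Ex Pool.Agent.H21.NX Pool.Agent.H18.Ta

private def Init_K (d m : ℕ) : ℕ → ℕ
  | 0 => 0
  | s + 1 => ∑ ρ ∈ range d, if s + (ρ + 1) ≤ d ∧ ρ + 1 ≤ m then 1 else 0

private theorem Init_K_le (d m s : ℕ) : Init_K d m s ≤ m := by
  cases s with
  | zero => exact Nat.zero_le _
  | succ s =>
    show ∑ ρ ∈ range d, (if s + (ρ + 1) ≤ d ∧ ρ + 1 ≤ m then 1 else 0) ≤ m
    rw [← card_filter]
    have h : (range d).filter (fun ρ => s + (ρ + 1) ≤ d ∧ ρ + 1 ≤ m) ⊆ range m := by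
      intro ρ hρ
      rw [mem_filter] at hρ
      rw [mem_range]
      omega
    calc _ ≤ (range m).card := card_le_card h
      _ = m := card_range m

/-- The distribution. -/
private def Init_c (d m E : ℕ) (N : ℕ → ℕ) (x : ℕ × ℕ) : ℕ :=
  if x.2 = 0 then N x.1 - E * Init_K d m x.1 else if x.2 ≤ m then E else 0

private theorem Init_sum (d m E : ℕ) (N : ℕ → ℕ) (hN : ∀ s ≤ d, E * Init_K d m s ≤ N s)
    (f : ℕ → ℝ) : ∑ x ∈ KK d, (Init_c d m E N x : ℝ) * f (st x) =
      ∑ s ∈ range (d + 1), (N s : ℝ) * f s := by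
  have h1 : ∑ x ∈ KK d, (Init_c d m E N x : ℝ) * f (st x) =
      ∑ u ∈ range (d + 1), ∑ ρ ∈ range (d + 1),
        if u + ρ ≤ d then (Init_c d m E N (u, ρ) : ℝ) * f (st (u, ρ)) else 0 := by
    unfold KK
    rw [sum_filter, sum_product]
  rw [h1]
  have h2 : ∀ u ∈ range (d + 1), ∑ ρ ∈ range (d + 1),
      (if u + ρ ≤ d then (Init_c d m E N (u, ρ) : ℝ) * f (st (u, ρ)) else 0) =
      (E : ℝ) * (Init_K d m (u + 1) : ℝ) * f (u + 1) +
        ((N u : ℝ) - (E : ℝ) * (Init_K d m u : ℝ)) * f u := by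
    intro u hu
    have hu' : u ≤ d := by
      rw [mem_range] at hu
      omega
    rw [sum_range_succ']
    congr 1
    · show _ = (E : ℝ) * ((∑ ρ ∈ range d, if u + (ρ + 1) ≤ d ∧ ρ + 1 ≤ m then 1 else 0 : ℕ) : ℝ) *
        f (u + 1)
      rw [Nat.cast_sum, mul_sum, sum_mul]
      refine sum_congr rfl fun ρ _ => ?_
      have hc : Init_c d m E N (u, ρ + 1) = if ρ + 1 ≤ m then E else 0 := by
        unfold Init_c
        rw [if_neg (by simp)]
      have hs : st (u, ρ + 1) = u + 1 := by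
        unfold st
        rw [if_neg (by simp)]
      rw [hc, hs]
      by_cases c1 : u + (ρ + 1) ≤ d
      · by_cases c2 : ρ + 1 ≤ m
        · rw [if_pos c1, if_pos c2, if_pos ⟨c1, c2⟩]
          simp
        · rw [if_pos c1, if_neg c2, if_neg (fun h => c2 h.2)]
          simp
      · rw [if_neg c1, if_neg (fun h => c1 h.1)]
        simp
    · rw [if_pos (by omega)]
      have hc : Init_c d m E N (u, 0) = N u - E * Init_K d m u := by
        unfold Init_c
        rw [if_pos rfl]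
      have hs : st (u, 0) = u := by
        unfold st
        rw [if_pos rfl]
      rw [hc, hs, Nat.cast_sub (hN u hu')]
      push_cast
      ring
  rw [sum_congr rfl h2, sum_add_distrib]
  have h3 : ∑ u ∈ range (d + 1), ((N u : ℝ) - (E : ℝ) * (Init_K d m u : ℝ)) * f u =
      ∑ s ∈ range (d + 1), (N s : ℝ) * f s -
        ∑ u ∈ range (d + 1), (E : ℝ) * (Init_K d m u : ℝ) * f u := by
    rw [← sum_sub_distrib]
    refine sum_congr rfl fun u _ => ?_
    ring
  have h4 : ∑ u ∈ range (d + 1), (E : ℝ) * (Init_K d m u : ℝ) * f u =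
      ∑ u ∈ range (d + 1), (E : ℝ) * (Init_K d m (u + 1) : ℝ) * f (u + 1) := by
    rw [sum_range_succ', sum_range_succ]
    have h5 : Init_K d m 0 = 0 := rfl
    have h6 : Init_K d m (d + 1) = 0 := by
      show ∑ ρ ∈ range d, (if d + (ρ + 1) ≤ d ∧ ρ + 1 ≤ m then 1 else 0) = 0
      refine sum_eq_zero fun ρ _ => ?_
      rw [if_neg]
      omega
    rw [h5, h6]
    simp
  rw [h3, h4]
  ring

private theorem Init_Gl_nonneg (d m s j : ℕ) : 0 ≤ Gl d m s j := by
  unfold Gl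
  refine div_nonneg (sum_nonneg fun i _ => ?_) (by positivity)
  split_ifs
  · exact Nat.cast_nonneg _
  · exact le_refl _

private theorem Init_Gl_le (d m s j : ℕ) (hm : 1 ≤ m) : Gl d m s j ≤ 1 := by
  unfold Gl
  rw [div_le_one (by positivity)]
  have h1 : ∑ i ∈ range m, ((m - 1).choose i : ℝ) = 2 ^ (m - 1) := by
    have h2 := Nat.sum_range_choose (m - 1)
    have h3 : m - 1 + 1 = m := by omega
    rw [h3] at h2
    exact_mod_cast h2
  rw [← h1]
  refine sum_le_sum fun i _ => ?_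
  split_ifs
  · exact le_refl _
  · exact Nat.cast_nonneg _

theorem init (d m : ℕ) (hm : 1 ≤ m) (h2 : 2 * m ≤ d + 1) : ∃ e : ℝ, 0 < e ∧ ∀ δ : ℝ, 0 < δ →
    ∃ ε : ℝ, 0 < ε ∧ ∃ n₀ : ℕ, ∀ a b : ℕ, 1 ≤ a → 1 ≤ b → n₀ ≤ a + b →
    |(a : ℝ) - b| ≤ ε * (a + b : ℕ) → ∀ A E : ℕ, (E : ℝ) ≤ e * A →
    ∃ c₀ : ℕ × ℕ → ℕ, ∑ x ∈ KK d, c₀ x = A ∧ (∀ x ∈ KK d, x.2 ≤ m → E ≤ c₀ x) ∧
      ∀ j ≤ d, |((∑ x ∈ KK d, c₀ x * Pre a b d m x j : ℕ) : ℝ) -
        Phi d j * ((A * ell (a + b - 1) m : ℕ) : ℝ)| ≤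
        (δ * A + (d + 1) ^ 2) * (ell (a + b - 1) m : ℝ) := by
  obtain ⟨θ, hθ, hθ1, hθΦ⟩ := theta d m hm h2
  obtain ⟨w, hw0, hw⟩ : ∃ w : ℝ, 0 < w ∧ ∀ s ≤ d, w ≤ θ s := by
    obtain ⟨s₀, hs₀, hmin⟩ := exists_min_image (range (d + 1)) θ ⟨0, by simp⟩
    refine ⟨θ s₀, hθ s₀ (by rw [mem_range] at hs₀; omega), fun s hs => hmin s ?_⟩
    rw [mem_range]
    omega
  have hd3 : (0 : ℝ) < (d : ℝ) + 3 := by positivity
  refine ⟨w / (d + 3), div_pos hw0 hd3, fun δ hδ => ?_⟩
  obtain ⟨ε, hε, n₀, H⟩ := lead d m hm (by omega) δ hδ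
  refine ⟨ε, hε, n₀, fun a b ha hb hab hε' A E hE => ?_⟩
  have hL := H a b ha hb hab hε'
  have hA0 : (0 : ℝ) ≤ A := Nat.cast_nonneg A
  have hE0 : (0 : ℝ) ≤ E := Nat.cast_nonneg E
  -- the numbers `N s`
  have hsum1 : ∑ s ∈ range d, θ (s + 1) + θ 0 = 1 := by
    rw [← hθ1, sum_range_succ']
  let M : ℕ → ℕ := fun s => ⌊θ s * A⌋₊
  have hM1 : ∀ s ≤ d, (M s : ℝ) ≤ θ s * A := fun s hs =>
    Nat.floor_le (mul_nonneg (hθ s hs).le hA0)
  have hM2 : ∀ s, θ s * A - 1 ≤ (M s : ℝ) := fun s => by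
    have := Nat.lt_floor_add_one (θ s * A)
    show θ s * A - 1 ≤ ((⌊θ s * A⌋₊ : ℕ) : ℝ)
    linarith
  have hMsum : (∑ s ∈ range d, M (s + 1) : ℕ) ≤ A := by
    have h3 : ((∑ s ∈ range d, M (s + 1) : ℕ) : ℝ) ≤ A := by
      rw [Nat.cast_sum]
      calc ∑ s ∈ range d, (M (s + 1) : ℝ) ≤ ∑ s ∈ range d, θ (s + 1) * A :=
            sum_le_sum fun s hs => hM1 (s + 1) (by rw [mem_range] at hs; omega)
        _ = (∑ s ∈ range d, θ (s + 1)) * A := by rw [sum_mul]
        _ = (1 - θ 0) * A := by rw [← hsum1]; ring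
        _ ≤ 1 * A := by
            refine mul_le_mul_of_nonneg_right ?_ hA0
            have := hθ 0 (Nat.zero_le d)
            linarith
        _ = A := one_mul _
    exact_mod_cast h3
  let N : ℕ → ℕ := fun s => if s = 0 then A - ∑ s ∈ range d, M (s + 1) else M s
  have hN0 : N 0 = A - ∑ s ∈ range d, M (s + 1) := if_pos rfl
  have hNs : ∀ s, N (s + 1) = M (s + 1) := fun s => if_neg (Nat.succ_ne_zero s)
  have hNsum : ∑ s ∈ range (d + 1), N s = A := by
    rw [sum_range_succ', hN0]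
    simp only [hNs]
    omega
  have hN0r : (N 0 : ℝ) = A - ∑ s ∈ range d, (M (s + 1) : ℝ) := by
    rw [hN0, Nat.cast_sub hMsum, Nat.cast_sum]
  have hlow : ∀ s ≤ d, θ s * A - 1 ≤ (N s : ℝ) := by
    intro s hs
    cases s with
    | zero =>
      rw [hN0r]
      have h3 : ∑ s ∈ range d, (M (s + 1) : ℝ) ≤ (1 - θ 0) * A := by
        calc ∑ s ∈ range d, (M (s + 1) : ℝ) ≤ ∑ s ∈ range d, θ (s + 1) * A :=
            sum_le_sum fun s hs => hM1 (s + 1) (by rw [mem_range] at hs; omega)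
          _ = (∑ s ∈ range d, θ (s + 1)) * A := by rw [sum_mul]
          _ = (1 - θ 0) * A := by rw [← hsum1]; ring
      linarith
    | succ s =>
      rw [hNs]
      exact hM2 (s + 1)
  have hupp : ∀ s ≤ d, (N s : ℝ) ≤ θ s * A + d := by
    intro s hs
    cases s with
    | zero =>
      rw [hN0r]
      have h3 : (1 - θ 0) * A - d ≤ ∑ s ∈ range d, (M (s + 1) : ℝ) := by
        calc (1 - θ 0) * A - d = (∑ s ∈ range d, θ (s + 1)) * A - d := by rw [← hsum1]; ring
          _ = ∑ s ∈ range d, (θ (s + 1) * A - 1) := by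
              rw [sum_sub_distrib, sum_mul]
              simp
          _ ≤ ∑ s ∈ range d, (M (s + 1) : ℝ) := sum_le_sum fun s _ => hM2 (s + 1)
      linarith
    | succ s =>
      rw [hNs]
      have := hM1 (s + 1) hs
      have hd0 : (0 : ℝ) ≤ d := Nat.cast_nonneg d
      linarith
  have habs : ∀ s ≤ d, |(N s : ℝ) - θ s * A| ≤ d + 1 := by
    intro s hs
    have h3 := hlow s hs
    have h4 := hupp s hs
    have hd0 : (0 : ℝ) ≤ d := Nat.cast_nonneg d
    rw [abs_le]
    constructor <;> linarith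
  have hbig : ∀ s ≤ d, (m + 1) * E ≤ N s := by
    intro s hs
    rcases Nat.eq_zero_or_pos E with h0 | hpos
    · rw [h0]
      simp
    · have h3 : ((d : ℝ) + 3) * E ≤ θ s * A := by
        have h4 : (E : ℝ) * (d + 3) ≤ w * A := by
          have h5 : (E : ℝ) ≤ w * A / (d + 3) := by
            calc (E : ℝ) ≤ w / (d + 3) * A := hE
              _ = w * A / (d + 3) := by ring
          rwa [le_div_iff₀ hd3] at h5
        have h6 : w * A ≤ θ s * A := mul_le_mul_of_nonneg_right (hw s hs) hA0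
        linarith
      have h7 := hlow s hs
      have h8 : (1 : ℝ) ≤ E := by exact_mod_cast hpos
      have h9 : ((m : ℝ) + 1) * E ≤ N s := by
        have h10 : (m : ℝ) ≤ d + 1 := by
          have : m ≤ d + 1 := by omega
          exact_mod_cast this
        have h11 : ((m : ℝ) + 1) * E ≤ (d + 2) * E :=
          mul_le_mul_of_nonneg_right (by linarith) hE0
        nlinarith
      exact_mod_cast h9
  have hK : ∀ s ≤ d, E * Init_K d m s ≤ N s := by
    intro s hs
    have h3 := hbig s hs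
    have h4 := Init_K_le d m s
    calc E * Init_K d m s ≤ E * m := Nat.mul_le_mul_left E h4
      _ ≤ (m + 1) * E := by
          rw [mul_comm]
          exact Nat.mul_le_mul_right E (Nat.le_succ m)
      _ ≤ N s := h3
  refine ⟨Init_c d m E N, ?_, ?_, ?_⟩
  · have h3 := Init_sum d m E N hK fun _ => 1
    simp only [mul_one] at h3
    have h4 : ((∑ x ∈ KK d, Init_c d m E N x : ℕ) : ℝ) = ((∑ s ∈ range (d + 1), N s : ℕ) : ℝ) := by
      rw [Nat.cast_sum, Nat.cast_sum]
      exact h3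
    have h5 : ∑ x ∈ KK d, Init_c d m E N x = ∑ s ∈ range (d + 1), N s := by exact_mod_cast h4
    rw [h5, hNsum]
  · intro x hx hxm
    rw [mem_KK] at hx
    unfold Init_c
    by_cases h0 : x.2 = 0
    · rw [if_pos h0]
      have h3 := hbig x.1 (by omega)
      have h4 := Init_K_le d m x.1
      have h5 : E * Init_K d m x.1 ≤ E * m := Nat.mul_le_mul_left E h4
      have h6 : (m + 1) * E = E * m + E := by ring
      omega
    · rw [if_neg h0, if_pos hxm]
  · intro j hj
    have hell : (0 : ℝ) ≤ (ell (a + b - 1) m : ℝ) := Nat.cast_nonneg _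
    set L : ℝ := (ell (a + b - 1) m : ℝ) with hLdef
    have h3 := Init_sum d m E N hK fun s => Gl d m s j * L
    have hc1 : ∑ x ∈ KK d, (Init_c d m E N x : ℝ) = A := by
      have h3 := Init_sum d m E N hK fun _ => 1
      simp only [mul_one] at h3
      rw [h3, ← Nat.cast_sum, hNsum]
    have h4 : |∑ x ∈ KK d, (Init_c d m E N x : ℝ) * (Pre a b d m x j : ℝ) -
        ∑ x ∈ KK d, (Init_c d m E N x : ℝ) * (Gl d m (st x) j * L)| ≤ δ * A * L := by
      rw [← sum_sub_distrib]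
      calc |∑ x ∈ KK d, ((Init_c d m E N x : ℝ) * (Pre a b d m x j : ℝ) -
            (Init_c d m E N x : ℝ) * (Gl d m (st x) j * L))|
          ≤ ∑ x ∈ KK d, |(Init_c d m E N x : ℝ) * (Pre a b d m x j : ℝ) -
            (Init_c d m E N x : ℝ) * (Gl d m (st x) j * L)| := abs_sum_le_sum_abs _ _
        _ ≤ ∑ x ∈ KK d, (Init_c d m E N x : ℝ) * (δ * L) := by
            refine sum_le_sum fun x hx => ?_
            rw [← mul_sub, abs_mul, abs_of_nonneg (Nat.cast_nonneg (Init_c d m E N x))]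
            exact mul_le_mul_of_nonneg_left (hL x hx j hj) (Nat.cast_nonneg _)
        _ = δ * A * L := by
            rw [← sum_mul, hc1]
            ring
    have h5 : |∑ s ∈ range (d + 1), (N s : ℝ) * (Gl d m s j * L) - Phi d j * (A * L)| ≤
        (d + 1) ^ 2 * L := by
      rw [← hθΦ j hj, sum_mul, ← sum_sub_distrib]
      calc |∑ s ∈ range (d + 1), ((N s : ℝ) * (Gl d m s j * L) - θ s * Gl d m s j * (A * L))|
          ≤ ∑ s ∈ range (d + 1), |(N s : ℝ) * (Gl d m s j * L) - θ s * Gl d m s j * (A * L)| :=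
            abs_sum_le_sum_abs _ _
        _ ≤ ∑ s ∈ range (d + 1), ((d : ℝ) + 1) * L := by
            refine sum_le_sum fun s hs => ?_
            have hs' : s ≤ d := by
              rw [mem_range] at hs
              omega
            have h6 : (N s : ℝ) * (Gl d m s j * L) - θ s * Gl d m s j * (A * L) =
                ((N s : ℝ) - θ s * A) * (Gl d m s j * L) := by ring
            rw [h6, abs_mul, abs_of_nonneg (mul_nonneg (Init_Gl_nonneg d m s j) hell)]
            have h7 : Gl d m s j * L ≤ 1 * L :=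
              mul_le_mul_of_nonneg_right (Init_Gl_le d m s j hm) hell
            calc |(N s : ℝ) - θ s * A| * (Gl d m s j * L) ≤ ((d : ℝ) + 1) * (1 * L) :=
                  mul_le_mul (habs s hs') h7 (mul_nonneg (Init_Gl_nonneg d m s j) hell)
                    (by positivity)
              _ = ((d : ℝ) + 1) * L := by ring
        _ = (d + 1) ^ 2 * L := by
            rw [sum_const, card_range, nsmul_eq_mul]
            push_cast
            ring
    have h8 : ((∑ x ∈ KK d, Init_c d m E N x * Pre a b d m x j : ℕ) : ℝ) =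
        ∑ x ∈ KK d, (Init_c d m E N x : ℝ) * (Pre a b d m x j : ℝ) := by
      push_cast
      rfl
    have h9 : ((A * ell (a + b - 1) m : ℕ) : ℝ) = A * L := by
      push_cast
      rfl
    rw [h8, h9]
    rw [h3] at h4
    have h10 := abs_sub_le (∑ x ∈ KK d, (Init_c d m E N x : ℝ) * (Pre a b d m x j : ℝ))
      (∑ s ∈ range (d + 1), (N s : ℝ) * (Gl d m s j * L)) (Phi d j * (A * L))
    calc _ ≤ _ := h10
      _ ≤ δ * A * L + (d + 1) ^ 2 * L := add_le_add h4 h5
      _ = _ := by ring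

end Pool.Agent.H51.TB

end
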