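import Pool.Agent.H94.LP5.M20
import Pool.Agent.H94.LP5.M23
import Pool.Agent.H94.LP5.M32
import Pool.Agent.H94.LP5.M64

/-! The parts of this file: H51.TB.Start, H51.TB.Num. -/

section

/-!
# Module D13 (TB): the initial distribution of all points

For each `m` with `A m ≠ 0` (then `1 ≤ m`, `2 m ≤ m + M ≤ d + 1`) use `init` (with `E` for `m = μ`, with
`E = 0` for the others); for `A m = 0` put `c₀ m = 0`.  `e` is the minimum of the finitely many `e` of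
`init`, `ε` and `n₀` for the finitely many `m ≤ d` as well.  Let `n = a + b`, `N = ell (n - 1) (d + 1)` and
`L` the total length, `N ≤ L ≤ N + ell (n - 1) d ≤ 2 N`.  The sum over `m`, `x` of
`c₀ m x * Pre m x j` differs from `Phi d j * (L - ell (n - 1) m₀)` by at most
`δ' * L + (d + 1)^3 * ell (n - 1) d`; `Pre a b d m₀ (0, 0) j ≤ ell (n - 1) m₀ ≤ ell (n - 1) d`
(`sum_wt`); `0 ≤ Phi d j ≤ 1`, `|L - N| ≤ ell (n - 1) d`; and `lead_bet`.  The length of a point is small by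
`grow_one` (`ell (n - 1) d ≤ ell n d`).
-/

namespace Pool.Agent.H51.TB

open Finset Pool.Agent.H18.Ex Pool.Agent.H21.NX Pool.Agent.H18.Ta

private theorem Start_min (d : ℕ) (f : ℕ → ℝ) (hf : ∀ m, 0 < f m) : ∃ e : ℝ, 0 < e ∧ ∀ m ≤ d, e ≤ f m := by
  obtain ⟨m, _, hm⟩ := Finset.exists_min_image (range (d + 1)) f ⟨0, mem_range.2 (by omega)⟩
  exact ⟨f m, hf m, fun k hk => hm k (mem_range.2 (by omega))⟩

private theorem Start_max (d : ℕ) (f : ℕ → ℕ) : ∃ e : ℕ, ∀ m ≤ d, f m ≤ e :=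
  ⟨∑ m ∈ range (d + 1), f m, fun m hm =>
    single_le_sum (f := f) (fun _ _ => Nat.zero_le _) (mem_range.2 (by omega))⟩

private theorem Start_unif (d : ℕ) : ∃ e : ℝ, 0 < e ∧ ∀ δ : ℝ, 0 < δ →
    ∃ ε : ℝ, 0 < ε ∧ ∃ n₀ : ℕ, ∀ a b : ℕ, 1 ≤ a → 1 ≤ b → n₀ ≤ a + b →
    |(a : ℝ) - b| ≤ ε * (a + b : ℕ) → ∀ m ≤ d, 1 ≤ m → 2 * m ≤ d + 1 → ∀ A E : ℕ, (E : ℝ) ≤ e * A →
    ∃ c₀ : ℕ × ℕ → ℕ, ∑ x ∈ KK d, c₀ x = A ∧ (∀ x ∈ KK d, x.2 ≤ m → E ≤ c₀ x) ∧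
      ∀ j ≤ d, |((∑ x ∈ KK d, c₀ x * Pre a b d m x j : ℕ) : ℝ) -
        Phi d j * ((A * ell (a + b - 1) m : ℕ) : ℝ)| ≤
        (δ * A + (d + 1) ^ 2) * (ell (a + b - 1) m : ℝ) := by
  have h1 : ∀ m : ℕ, ∃ e : ℝ, 0 < e ∧ (1 ≤ m → 2 * m ≤ d + 1 → ∀ δ : ℝ, 0 < δ →
    ∃ ε : ℝ, 0 < ε ∧ ∃ n₀ : ℕ, ∀ a b : ℕ, 1 ≤ a → 1 ≤ b → n₀ ≤ a + b →
    |(a : ℝ) - b| ≤ ε * (a + b : ℕ) → ∀ A E : ℕ, (E : ℝ) ≤ e * A →
    ∃ c₀ : ℕ × ℕ → ℕ, ∑ x ∈ KK d, c₀ x = A ∧ (∀ x ∈ KK d, x.2 ≤ m → E ≤ c₀ x) ∧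
      ∀ j ≤ d, |((∑ x ∈ KK d, c₀ x * Pre a b d m x j : ℕ) : ℝ) -
        Phi d j * ((A * ell (a + b - 1) m : ℕ) : ℝ)| ≤
        (δ * A + (d + 1) ^ 2) * (ell (a + b - 1) m : ℝ)) := by
    intro m
    by_cases hm : 1 ≤ m ∧ 2 * m ≤ d + 1
    · obtain ⟨e, he, H⟩ := init d m hm.1 hm.2
      exact ⟨e, he, fun _ _ => H⟩
    · exact ⟨1, one_pos, fun ha hb => absurd ⟨ha, hb⟩ hm⟩
  choose f hf hF using h1
  obtain ⟨e, he, hef⟩ := Start_min d f hf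
  refine ⟨e, he, fun δ hδ => ?_⟩
  have h2 : ∀ m : ℕ, ∃ ε : ℝ, 0 < ε ∧ ∃ n₀ : ℕ, (1 ≤ m → 2 * m ≤ d + 1 → ∀ a b : ℕ, 1 ≤ a → 1 ≤ b →
    n₀ ≤ a + b → |(a : ℝ) - b| ≤ ε * (a + b : ℕ) → ∀ A E : ℕ, (E : ℝ) ≤ f m * A →
    ∃ c₀ : ℕ × ℕ → ℕ, ∑ x ∈ KK d, c₀ x = A ∧ (∀ x ∈ KK d, x.2 ≤ m → E ≤ c₀ x) ∧
      ∀ j ≤ d, |((∑ x ∈ KK d, c₀ x * Pre a b d m x j : ℕ) : ℝ) -
        Phi d j * ((A * ell (a + b - 1) m : ℕ) : ℝ)| ≤
        (δ * A + (d + 1) ^ 2) * (ell (a + b - 1) m : ℝ)) := by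
    intro m
    by_cases hm : 1 ≤ m ∧ 2 * m ≤ d + 1
    · obtain ⟨ε, hε, n₀, H⟩ := hF m hm.1 hm.2 δ hδ
      exact ⟨ε, hε, n₀, fun _ _ => H⟩
    · exact ⟨1, one_pos, 0, fun ha hb => absurd ⟨ha, hb⟩ hm⟩
  choose g hg k hk using h2
  obtain ⟨ε, hε, hεg⟩ := Start_min d g hg
  obtain ⟨n₀, hn₀⟩ := Start_max d k
  refine ⟨ε, hε, n₀, fun a b ha hb hn hab m hm h1m h2m A E hE => ?_⟩
  refine hk m h1m h2m a b ha hb ((hn₀ m hm).trans hn) (hab.trans ?_) A E (hE.trans ?_)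
  · exact mul_le_mul_of_nonneg_right (hεg m hm) (Nat.cast_nonneg _)
  · exact mul_le_mul_of_nonneg_right (hef m hm) (Nat.cast_nonneg _)

private theorem Start_Phi (d j : ℕ) (hj : j ≤ d) : 0 ≤ Phi d j ∧ Phi d j ≤ 1 := by
  unfold Phi
  constructor
  · positivity
  · rw [div_le_one (by positivity)]
    have h1 : ∑ i ∈ range (j + 1), (d.choose i : ℝ) ≤ ∑ i ∈ range (d + 1), (d.choose i : ℝ) :=
      sum_le_sum_of_subset_of_nonneg (range_subset_range.2 (by omega)) fun i _ _ => Nat.cast_nonneg _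
    refine h1.trans (le_of_eq ?_)
    have h2 := Nat.sum_range_choose d
    exact_mod_cast h2

private theorem Start_ell_le {n d : ℕ} (hn : 1 ≤ n) (hd : 1 ≤ d) : ell (n - 1) d ≤ ell n d := by
  obtain ⟨n', rfl⟩ : ∃ n', n = n' + 1 := ⟨n - 1, by omega⟩
  obtain ⟨d', rfl⟩ : ∃ d', d = d' + 1 := ⟨d - 1, by omega⟩
  rw [Nat.add_sub_cancel, ell_succ]
  exact Nat.le_add_left _ _

private theorem Start_Pre {a b d m j : ℕ} (ha : 1 ≤ a) (hb : 1 ≤ b) (hm : m ≤ d) (hj : j ≤ d) :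
    Pre a b d m (0, 0) j ≤ ell (a + b - 1) d := by
  have h1 := sum_wt (m := m) ha hb (by omega : m ≤ d + 1) (c := (0, 0)) (Nat.zero_le d)
  unfold Pre
  calc ∑ i ∈ range (j + 1), wt a b d m (0, 0) i ≤ ∑ i ∈ range (d + 1), wt a b d m (0, 0) i :=
        sum_le_sum_of_subset (range_subset_range.2 (by omega))
    _ = ell (a + b - 1) m := h1
    _ ≤ ell (a + b - 1) d := ell_mono _ hm

theorem start (d : ℕ) : ∃ e : ℝ, 0 < e ∧ ∀ δ : ℝ, 0 < δ →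
    ∃ ε : ℝ, 0 < ε ∧ ∃ n₀ : ℕ, ∀ a b : ℕ, 1 ≤ a → 1 ≤ b → n₀ ≤ a + b →
    |(a : ℝ) - b| ≤ ε * (a + b : ℕ) → ∀ (M μ m₀ : ℕ) (A : ℕ → ℕ), 1 ≤ μ → μ ≤ M → μ + M ≤ d →
    m₀ ≤ d → (∀ m, A m ≠ 0 → 1 ≤ m ∧ m ≤ M ∧ m + M ≤ d + 1) →
    ell (a + b - 1) (d + 1) ≤
      ell (a + b - 1) m₀ + ∑ m ∈ range (d + 1), A m * ell (a + b - 1) m →
    ell (a + b - 1) m₀ + ∑ m ∈ range (d + 1), A m * ell (a + b - 1) m ≤
      ell (a + b - 1) (d + 1) + ell (a + b - 1) d →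
    ∀ E : ℕ, (E : ℝ) ≤ e * A μ →
    ∃ c₀ : ℕ → ℕ × ℕ → ℕ, (∀ m ∈ range (d + 1), ∑ x ∈ KK d, c₀ m x = A m) ∧
      (∀ x ∈ KK d, x.2 ≤ μ → E ≤ c₀ μ x) ∧
      ∀ j ≤ d, |((Pre a b d m₀ (0, 0) j +
        ∑ m ∈ range (d + 1), ∑ x ∈ KK d, c₀ m x * Pre a b d m x j : ℕ) : ℝ) -
        ((∑ i ∈ range (j + 1), bet a b d i : ℕ) : ℝ)| ≤ δ * (ell (a + b - 1) (d + 1) : ℝ) := by
  obtain ⟨e, he, H⟩ := Start_unif d
  refine ⟨e, he, fun δ hδ => ?_⟩
  obtain ⟨δ', hδ'd⟩ : ∃ δ' : ℝ, δ' = min (δ / 4) 1 := ⟨_, rfl⟩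
  have hδ' : 0 < δ' := by
    rw [hδ'd]
    exact lt_min (by linarith) one_pos
  have hδ1 : δ' ≤ δ / 4 := hδ'd ▸ min_le_left _ _
  have hδ2 : δ' ≤ 1 := hδ'd ▸ min_le_right _ _
  obtain ⟨ε1, hε1, n1, H1⟩ := H δ' hδ'
  obtain ⟨ε2, hε2, n2, H2⟩ := lead_bet d δ' hδ'
  obtain ⟨n3, H3⟩ := grow_one d (2 * (3 + (d + 1) ^ 3) / δ)
  refine ⟨min ε1 ε2, lt_min hε1 hε2, max n1 (max n2 n3), ?_⟩
  intro a b ha hb hn hab M μ m₀ A hμ hμM hμd hm₀ hA hlo hhi E hE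
  have hn1 : n1 ≤ a + b := (le_max_left _ _).trans hn
  have hn2 : n2 ≤ a + b := ((le_max_left _ _).trans (le_max_right _ _)).trans hn
  have hn3 : n3 ≤ a + b := ((le_max_right _ _).trans (le_max_right _ _)).trans hn
  have hab1 : |(a : ℝ) - b| ≤ ε1 * (a + b : ℕ) :=
    hab.trans (mul_le_mul_of_nonneg_right (min_le_left _ _) (Nat.cast_nonneg _))
  have hab2 : |(a : ℝ) - b| ≤ ε2 * (a + b : ℕ) :=
    hab.trans (mul_le_mul_of_nonneg_right (min_le_right _ _) (Nat.cast_nonneg _))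
  have hc : ∀ m, ∃ c : ℕ × ℕ → ℕ, m ≤ d → (∑ x ∈ KK d, c x = A m ∧
      (∀ x ∈ KK d, x.2 ≤ μ → m = μ → E ≤ c x) ∧
      ∀ j ≤ d, |((∑ x ∈ KK d, c x * Pre a b d m x j : ℕ) : ℝ) -
        Phi d j * ((A m * ell (a + b - 1) m : ℕ) : ℝ)| ≤
        (δ' * A m + (d + 1) ^ 2) * (ell (a + b - 1) m : ℝ)) := by
    intro m
    by_cases hAm : A m = 0
    · refine ⟨fun _ => 0, fun _ => ⟨by simp [hAm], ?_, ?_⟩⟩
      · intro x _ _ hmμ
        rw [← hmμ, hAm, Nat.cast_zero, mul_zero] at hE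
        have : (E : ℝ) = 0 := le_antisymm hE (Nat.cast_nonneg _)
        have : E = 0 := by exact_mod_cast this
        exact this.le
      · intro j _
        rw [hAm]
        simp only [zero_mul, sum_const_zero, Nat.cast_zero, mul_zero, sub_zero, abs_zero, zero_add]
        positivity
    · obtain ⟨h1, h2, h3⟩ := hA m hAm
      have hmd : m ≤ d := by omega
      have hEm : (((if m = μ then E else 0 : ℕ)) : ℝ) ≤ e * A m := by
        split_ifs with h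
        · rw [h]
          exact hE
        · rw [Nat.cast_zero]
          positivity
      obtain ⟨c, hc1, hc2, hc3⟩ := H1 a b ha hb hn1 hab1 m hmd h1 (by omega) (A m)
        (if m = μ then E else 0) hEm
      refine ⟨c, fun _ => ⟨hc1, ?_, hc3⟩⟩
      intro x hx hxμ hmμ
      have h4 := hc2 x hx (by omega)
      rwa [if_pos hmμ] at h4
  choose c hc using hc
  refine ⟨c, fun m hm => (hc m (by rw [mem_range] at hm; omega)).1,
    fun x hx hxμ => (hc μ (by omega)).2.1 x hx hxμ rfl, ?_⟩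
  intro j hj
  obtain ⟨hΦ0, hΦ1⟩ := Start_Phi d j hj
  obtain ⟨l, hl⟩ : ∃ l : ℝ, l = (ell (a + b - 1) d : ℝ) := ⟨_, rfl⟩
  obtain ⟨N, hN⟩ : ∃ N : ℝ, N = (ell (a + b - 1) (d + 1) : ℝ) := ⟨_, rfl⟩
  obtain ⟨T, hT⟩ : ∃ T : ℕ, T = ∑ m ∈ range (d + 1), A m * ell (a + b - 1) m := ⟨_, rfl⟩
  obtain ⟨S, hS⟩ : ∃ S : ℕ, S = ∑ m ∈ range (d + 1), ∑ x ∈ KK d, c m x * Pre a b d m x j := ⟨_, rfl⟩
  obtain ⟨B, hB⟩ : ∃ B : ℕ, B = ∑ i ∈ range (j + 1), bet a b d i := ⟨_, rfl⟩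
  have hl0 : 0 ≤ l := hl ▸ Nat.cast_nonneg _
  have hT0 : (0 : ℝ) ≤ (T : ℝ) := Nat.cast_nonneg _
  have hB2 : |(B : ℝ) - Phi d j * N| ≤ δ' * N := by
    rw [hB, hN]
    exact H2 a b ha hb hn2 hab2 j hj
  have hlN : (3 + ((d : ℝ) + 1) ^ 3) * l ≤ δ / 2 * N := by
    have h1 := H3 (a + b) hn3 d le_rfl
    have h2 : ell (a + b - 1) d ≤ ell (a + b) d := Start_ell_le (by omega) (by omega)
    have h3 : l ≤ (ell (a + b) d : ℝ) := by
      rw [hl]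
      exact_mod_cast h2
    have h4 : 2 * (3 + ((d : ℝ) + 1) ^ 3) / δ * l ≤ N := by
      rw [hN]
      refine le_trans ?_ h1
      exact mul_le_mul_of_nonneg_left h3 (by positivity)
    have h5 := mul_le_mul_of_nonneg_left h4 (by positivity : (0 : ℝ) ≤ δ / 2)
    refine le_trans (le_of_eq ?_) h5
    field_simp
  have hlm : ∀ m ≤ d, (ell (a + b - 1) m : ℝ) ≤ l := by
    intro m hm
    rw [hl]
    exact_mod_cast ell_mono _ hm
  have hP : ((Pre a b d m₀ (0, 0) j : ℕ) : ℝ) ≤ l := by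
    rw [hl]
    exact_mod_cast Start_Pre ha hb (by omega) hj
  have hP0 : (0 : ℝ) ≤ ((Pre a b d m₀ (0, 0) j : ℕ) : ℝ) := Nat.cast_nonneg _
  have hT1 : N - l ≤ (T : ℝ) := by
    have h1 := hlm m₀ (by omega)
    have h2 : N ≤ (ell (a + b - 1) m₀ : ℝ) + (T : ℝ) := by
      rw [hN, hT]
      exact_mod_cast hlo
    linarith
  have hT2 : (T : ℝ) ≤ N + l := by
    have h1 : (0 : ℝ) ≤ (ell (a + b - 1) m₀ : ℝ) := Nat.cast_nonneg _
    have h2 : (ell (a + b - 1) m₀ : ℝ) + (T : ℝ) ≤ N + l := by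
      rw [hN, hT, hl]
      exact_mod_cast hhi
    linarith
  have hSer : |(S : ℝ) - Phi d j * T| ≤ δ' * T + ((d : ℝ) + 1) ^ 3 * l := by
    have h1 : (S : ℝ) - Phi d j * T = ∑ m ∈ range (d + 1),
        (((∑ x ∈ KK d, c m x * Pre a b d m x j : ℕ) : ℝ) -
          Phi d j * ((A m * ell (a + b - 1) m : ℕ) : ℝ)) := by
      rw [sum_sub_distrib, ← mul_sum, hS, hT, Nat.cast_sum, Nat.cast_sum]
    rw [h1]
    refine (abs_sum_le_sum_abs _ _).trans ?_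
    have h2 : ∀ m ∈ range (d + 1), |((∑ x ∈ KK d, c m x * Pre a b d m x j : ℕ) : ℝ) -
          Phi d j * ((A m * ell (a + b - 1) m : ℕ) : ℝ)| ≤
        δ' * ((A m * ell (a + b - 1) m : ℕ) : ℝ) + ((d : ℝ) + 1) ^ 2 * l := by
      intro m hm
      rw [mem_range] at hm
      have h3 := (hc m (by omega)).2.2 j hj
      refine h3.trans ?_
      have h4 := mul_le_mul_of_nonneg_left (hlm m (by omega)) (by positivity : (0 : ℝ) ≤ ((d : ℝ) + 1) ^ 2)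
      rw [add_mul, Nat.cast_mul]
      linarith
    refine (sum_le_sum h2).trans (le_of_eq ?_)
    rw [sum_add_distrib, ← mul_sum, ← Nat.cast_sum, ← hT, sum_const, card_range, nsmul_eq_mul]
    push_cast
    ring
  have hΦT : |Phi d j * T - Phi d j * N| ≤ l := by
    rw [← mul_sub, abs_mul, abs_of_nonneg hΦ0]
    have h1 : |(T : ℝ) - N| ≤ l := abs_le.2 ⟨by linarith, by linarith⟩
    calc Phi d j * |(T : ℝ) - N| ≤ 1 * l := mul_le_mul hΦ1 h1 (abs_nonneg _) zero_le_one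
      _ = l := one_mul l
  rw [← hS, ← hB, ← hN]
  have hfin : (((Pre a b d m₀ (0, 0) j + S : ℕ)) : ℝ) - (B : ℝ) =
      ((Pre a b d m₀ (0, 0) j : ℕ) : ℝ) + ((S : ℝ) - Phi d j * T) +
        (Phi d j * T - Phi d j * N) - ((B : ℝ) - Phi d j * N) := by
    push_cast
    ring
  rw [hfin]
  have e1 : δ' * (T : ℝ) ≤ δ' * (N + l) := mul_le_mul_of_nonneg_left hT2 hδ'.le
  have e2 : δ' * l ≤ 1 * l := mul_le_mul_of_nonneg_right hδ2 hl0
  have hN0 : 0 ≤ N := hN ▸ Nat.cast_nonneg _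
  have e3 : δ' * N ≤ δ / 4 * N := mul_le_mul_of_nonneg_right hδ1 hN0
  have a1 := abs_le.1 hSer
  have a2 := abs_le.1 hΦT
  have a3 := abs_le.1 hB2
  rw [abs_le]
  constructor
  · linarith [a1.1, a2.1, a3.2]
  · linarith [a1.2, a2.2, a3.1]

end Pool.Agent.H51.TB

end

section

/-!
# Module D14 (TB): the numerical theorem

Let `n = a + b`, `N = ell (n - 1) (d + 1)`.  Constants: `e` from `start`, `κ₀` from `Eg_ge d`, for
each `μ` with `2 μ ≤ d` the `K` from `adjust` (let `K` be at least all of them; if `adjust` holds with `K_μ`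
and `K ≥ K_μ`, the hypotheses with `K` imply those with `K_μ`).  `E = ⌊e * A μ⌋`; as
`A μ * ell (n - 1) μ ≥ η N` and `N / ell (n - 1) μ → ∞` (`grow_sq`), `E ≥ (e / 2) A μ`, so
`E * ell (n - 1) μ ≥ (e η / 2) N`.  `δ = e η κ₀ / (2 K)` in `start`.  `a` from `exists_coprime` (with `M = d`
and a small `ε`: `|a - b| = |2 a - n|`), `b = n - a`.

`start` gives `c₀`; let `P j` (`j < d`) be the (integer) difference of the prefix sum
`Pre m₀ (0,0) j + ∑ c₀ m x * Pre m x j` and `∑_{i ≤ j} bet i`: `|P j| ≤ δ N`, and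
`K |P j| ≤ K δ N ≤ κ₀ (e η / 2) N ≤ κ₀ E ell (n - 1) μ ≤ E * Mv a b d μ j 0` (`Mv_ge`, `Eg_ge`).
`K * n * ell n μ ≤ E` by `grow_sq`.  `adjust` gives `c₁`; `c m = c₀ m` for `m ≠ μ`, `c μ = c₁`.  Then the
prefix sums of the masses are exactly those of `bet` for `j < d`, hence the masses are equal to
`bet j` for `j < d`; for `j = d` the prefix sum of the masses is the total length (`sum_wt`),
which is at least `N = ∑ bet` (`sum_bet`), so the mass of the level `d` is at least `bet d`.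
`mass` (with `κ = e η / 4`, for `c = c₁`; the sums over `m` are at least the term `m = μ`) gives the
last two statements.
-/

namespace Pool.Agent.H51.TB

open Finset Pool.Agent.H18.Ex Pool.Agent.H21.NX Pool.Agent.H18.Ta

/-- Prefix sums determine the terms, and the last one is bounded below. -/
private theorem Num_prefix {d : ℕ} {f g : ℕ → ℕ}
    (h : ∀ j < d, ∑ i ∈ range (j + 1), f i = ∑ i ∈ range (j + 1), g i)
    (h' : ∑ i ∈ range (d + 1), g i ≤ ∑ i ∈ range (d + 1), f i) : ∀ j ≤ d, g j ≤ f j := by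
  intro j hj
  have h1 : ∑ i ∈ range j, f i = ∑ i ∈ range j, g i := by
    rcases Nat.eq_zero_or_pos j with h0 | h0
    · rw [h0, range_zero, sum_empty, sum_empty]
    · obtain ⟨k, rfl⟩ : ∃ k, j = k + 1 := ⟨j - 1, by omega⟩
      exact h k (by omega)
  have h2 : ∑ i ∈ range (j + 1), g i ≤ ∑ i ∈ range (j + 1), f i := by
    rcases Nat.lt_or_ge j d with h0 | h0
    · exact (h j h0).ge
    · have h3 : j = d := by omega
      rw [h3]
      exact h'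
  rw [sum_range_succ, sum_range_succ, h1] at h2
  omega

/-- The prefix sums of the masses. -/
private theorem Num_Pre {a b d m₀ : ℕ} (c : ℕ → ℕ × ℕ → ℕ) (j : ℕ) :
    ∑ i ∈ range (j + 1), (wt a b d m₀ (0, 0) i +
      ∑ m ∈ range (d + 1), ∑ x ∈ KK d, c m x * wt a b d m x i) =
    Pre a b d m₀ (0, 0) j + ∑ m ∈ range (d + 1), ∑ x ∈ KK d, c m x * Pre a b d m x j := by
  rw [sum_add_distrib, sum_comm]
  unfold Pre
  congr 1
  refine sum_congr rfl fun m _ => ?_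
  rw [sum_comm]
  refine sum_congr rfl fun x _ => ?_
  rw [mul_sum]

/-- The total mass. -/
private theorem Num_total {a b d m₀ : ℕ} (ha : 1 ≤ a) (hb : 1 ≤ b) (hm₀ : m₀ ≤ d + 1)
    (c : ℕ → ℕ × ℕ → ℕ) (A : ℕ → ℕ) (hA : ∀ m ∈ range (d + 1), ∑ x ∈ KK d, c m x = A m) :
    ∑ i ∈ range (d + 1), (wt a b d m₀ (0, 0) i +
      ∑ m ∈ range (d + 1), ∑ x ∈ KK d, c m x * wt a b d m x i) =
    ell (a + b - 1) m₀ + ∑ m ∈ range (d + 1), A m * ell (a + b - 1) m := by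
  rw [Num_Pre]
  unfold Pre
  rw [sum_wt ha hb hm₀ (by simp)]
  congr 1
  refine sum_congr rfl fun m hm => ?_
  rw [← hA m hm, sum_mul]
  refine sum_congr rfl fun x hx => ?_
  rw [sum_wt ha hb (by rw [mem_range] at hm; omega) (mem_KK.1 hx)]

theorem num (d : ℕ) (η : ℝ) (hη : 0 < η) : ∃ n₀ : ℕ, ∀ n : ℕ, n₀ ≤ n →
    ∃ a b : ℕ, 2 ≤ a ∧ 2 ≤ b ∧ a + b = n ∧ ∀ (M μ m₀ : ℕ) (A : ℕ → ℕ),
    1 ≤ μ → μ ≤ M → μ + M ≤ d → m₀ ≤ d →
    (∀ m, A m ≠ 0 → 1 ≤ m ∧ m ≤ M ∧ m + M ≤ d + 1) →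
    ell (a + b - 1) (d + 1) ≤
      ell (a + b - 1) m₀ + ∑ m ∈ range (d + 1), A m * ell (a + b - 1) m →
    ell (a + b - 1) m₀ + ∑ m ∈ range (d + 1), A m * ell (a + b - 1) m ≤
      ell (a + b - 1) (d + 1) + ell (a + b - 1) d →
    η * (ell (a + b - 1) (d + 1) : ℝ) ≤ ((A μ * ell (a + b - 1) μ : ℕ) : ℝ) →
    ∃ c : ℕ → ℕ × ℕ → ℕ, (∀ m ∈ range (d + 1), ∑ x ∈ KK d, c m x = A m) ∧
      (∀ j ≤ d, bet a b d j ≤ wt a b d m₀ (0, 0) j +
        ∑ m ∈ range (d + 1), ∑ x ∈ KK d, c m x * wt a b d m x j) ∧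
      (∀ j ≤ d, ∀ t, 1 ≤ t → t < μ → ell (a + b) (t + 1) * ell (a + b) M ≤
        ∑ m ∈ range (d + 1), ∑ x ∈ KK d, if cls d m x j = t then c m x * wt a b d m x j else 0) ∧
      (∀ j ≤ d, ell (a + b) (d + 1 - M) * ell (a + b) M ≤
        ∑ m ∈ range (d + 1), ∑ x ∈ KK d,
          if cls d m x j = μ then c m x * wt a b d m x j else 0) := by
  obtain ⟨e, he, hstart⟩ := start d
  obtain ⟨κ₀, hκ₀, ε₁, hε₁, n₁, hEg⟩ := Eg_ge d
  -- the constants of `adjust`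
  have hadj : ∀ μ : ℕ, ∃ K : ℕ, 1 ≤ K ∧ (1 ≤ μ → 2 * μ ≤ d → ∀ a b : ℕ, 2 ≤ a → 2 ≤ b →
      (∀ t, 1 ≤ t → t < μ → Nat.Coprime (Nat.multichoose (a - 1) t) (a + b - 2)) →
      ∀ (c₀ : ℕ × ℕ → ℕ) (E : ℕ) (P : ℕ → ℤ), (∀ x ∈ KK d, x.2 ≤ μ → E ≤ c₀ x) →
      K * ((a + b) * ell (a + b) μ) ≤ E →
      (∀ s < d, (K : ℤ) * |P s| ≤ (E : ℤ) * (Mv a b d μ s 0 : ℤ)) →
      ∃ c₁ : ℕ × ℕ → ℕ, ∑ x ∈ KK d, c₁ x = ∑ x ∈ KK d, c₀ x ∧
        (∀ x ∈ KK d, x.2 ≤ μ → E ≤ 2 * c₁ x) ∧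
        ∀ j < d, ∑ x ∈ KK d, (c₁ x : ℤ) * (Pre a b d μ x j : ℤ) =
          ∑ x ∈ KK d, (c₀ x : ℤ) * (Pre a b d μ x j : ℤ) - P j) := by
    intro μ
    by_cases h : 1 ≤ μ ∧ 2 * μ ≤ d
    · obtain ⟨K, hK1, hK2⟩ := adjust d μ h.1 h.2
      exact ⟨K, hK1, fun _ _ => hK2⟩
    · exact ⟨1, le_rfl, fun h1 h2 => absurd ⟨h1, h2⟩ h⟩
  choose Kf hKf1 hKf2 using hadj
  set K : ℕ := 1 + ∑ μ ∈ range (d + 1), Kf μ with hK
  have hKf3 : ∀ μ ≤ d, Kf μ ≤ K := by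
    intro μ hμ
    have : Kf μ ≤ ∑ μ ∈ range (d + 1), Kf μ :=
      single_le_sum (fun _ _ => Nat.zero_le _) (mem_range.2 (by omega))
    omega
  have hK0 : (0 : ℝ) < K := by
    have : 0 < K := by omega
    exact_mod_cast this
  have heη : 0 < e * η := by positivity
  set δ : ℝ := e * η * κ₀ / (2 * K) with hδ
  have hδ0 : 0 < δ := by positivity
  obtain ⟨ε₂, hε₂, n₂, hst⟩ := hstart δ hδ0
  obtain ⟨ε₃, hε₃, n₃, hmass⟩ := mass d (e * η / 4) (by positivity)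
  obtain ⟨n₄, hcop⟩ := exists_coprime d (min ε₁ (min ε₂ ε₃)) (lt_min hε₁ (lt_min hε₂ hε₃))
  obtain ⟨n₅, hsq⟩ := grow_sq d (2 * K / (e * η))
  obtain ⟨n₆, hone⟩ := grow_one d (2 / (e * η))
  refine ⟨max (max (max n₁ n₂) (max n₃ n₄)) (max (max n₅ n₆) 2), fun n hn => ?_⟩
  have hn1 : n₁ ≤ n := le_trans ((le_max_left _ _).trans ((le_max_left _ _).trans (le_max_left _ _))) hn
  have hn2 : n₂ ≤ n := le_trans ((le_max_right _ _).trans ((le_max_left _ _).trans (le_max_left _ _))) hn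
  have hn3 : n₃ ≤ n := le_trans ((le_max_left _ _).trans ((le_max_right _ _).trans (le_max_left _ _))) hn
  have hn4 : n₄ ≤ n := le_trans ((le_max_right _ _).trans ((le_max_right _ _).trans (le_max_left _ _))) hn
  have hn5 : n₅ ≤ n := le_trans ((le_max_left _ _).trans ((le_max_left _ _).trans (le_max_right _ _))) hn
  have hn6 : n₆ ≤ n := le_trans ((le_max_right _ _).trans ((le_max_left _ _).trans (le_max_right _ _))) hn
  obtain ⟨a, ha2, hab, habs, hco⟩ := hcop n hn4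
  obtain ⟨b, rfl⟩ : ∃ b, n = a + b := ⟨n - a, by omega⟩
  have hb2 : 2 ≤ b := by omega
  have habs' : ∀ ε : ℝ, min ε₁ (min ε₂ ε₃) ≤ ε → |(a : ℝ) - b| ≤ ε * ((a + b : ℕ) : ℝ) := by
    intro ε hε
    have h1 : (a : ℝ) - b = 2 * (a : ℝ) - ((a + b : ℕ) : ℝ) := by
      push_cast
      ring
    rw [h1]
    exact habs.trans (mul_le_mul_of_nonneg_right hε (Nat.cast_nonneg _))
  have hab1 := habs' ε₁ (min_le_left _ _)
  have hab2 := habs' ε₂ ((min_le_right _ _).trans (min_le_left _ _))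
  have hab3 := habs' ε₃ ((min_le_right _ _).trans (min_le_right _ _))
  refine ⟨a, b, ha2, hb2, rfl, ?_⟩
  intro M μ m₀ A hμ hμM hμd hm₀ hA hL1 hL2 hη'
  have hμd' : 2 * μ ≤ d := by omega
  have hμle : μ ≤ d := by omega
  set N : ℝ := (ell (a + b - 1) (d + 1) : ℝ) with hN
  set l : ℝ := (ell (a + b - 1) μ : ℝ) with hl
  have hl0 : 0 < l := by
    have := ell_pos (a + b - 1) hμ
    rw [hl]
    exact_mod_cast this
  have hN0 : 0 ≤ N := Nat.cast_nonneg _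
  set E : ℕ := ⌊e * A μ⌋₊ with hE
  have hE1 : (E : ℝ) ≤ e * A μ := Nat.floor_le (by positivity)
  have hE2 : e * A μ < E + 1 := Nat.lt_floor_add_one _
  have hAμ : η * N ≤ A μ * l := by
    have := hη'
    push_cast at this
    exact this
  -- `E l ≥ (e η / 2) N`
  have hlN : l ≤ e * η / 2 * N := by
    have h1 := hone (a + b) hn6 μ hμle
    have h2 : l ≤ (ell (a + b) μ : ℝ) := by
      have h3 : ell (a + b - 1) μ ≤ ell (a + b) μ := by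
        obtain ⟨k, hk⟩ : ∃ k, a + b = k + 1 := ⟨a + b - 1, by omega⟩
        obtain ⟨c', hc'⟩ : ∃ c', μ = c' + 1 := ⟨μ - 1, by omega⟩
        rw [hk, Nat.add_sub_cancel, hc', ell_succ]
        omega
      show ((ell (a + b - 1) μ : ℕ) : ℝ) ≤ _
      exact Nat.cast_le.2 h3
    have h4 : 2 / (e * η) * l ≤ N := (mul_le_mul_of_nonneg_left h2 (by positivity)).trans h1
    have h5 : l = e * η / 2 * (2 / (e * η) * l) := by
      field_simp
    rw [h5]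
    exact mul_le_mul_of_nonneg_left h4 (by positivity)
  have hEl : e * η / 2 * N ≤ E * l := by
    have h1 : (e * A μ) * l ≤ (E + 1) * l := mul_le_mul_of_nonneg_right hE2.le hl0.le
    have h2 : e * (η * N) ≤ e * (A μ * l) := mul_le_mul_of_nonneg_left hAμ he.le
    nlinarith
  -- the initial distribution
  obtain ⟨c₀, hc₀1, hc₀2, hc₀3⟩ := hst a b (by omega) (by omega) hn2 hab2 M μ m₀ A hμ hμM hμd hm₀ hA
    hL1 hL2 E hE1
  set P : ℕ → ℤ := fun j => ((Pre a b d m₀ (0, 0) j +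
    ∑ m ∈ range (d + 1), ∑ x ∈ KK d, c₀ m x * Pre a b d m x j : ℕ) : ℤ) -
    ((∑ i ∈ range (j + 1), bet a b d i : ℕ) : ℤ) with hP
  have hPabs : ∀ j ≤ d, ((|P j| : ℤ) : ℝ) ≤ δ * N := by
    intro j hj
    have h1 := hc₀3 j hj
    rw [Int.cast_abs]
    have h2 : ((P j : ℤ) : ℝ) = ((Pre a b d m₀ (0, 0) j +
        ∑ m ∈ range (d + 1), ∑ x ∈ KK d, c₀ m x * Pre a b d m x j : ℕ) : ℝ) -
        ((∑ i ∈ range (j + 1), bet a b d i : ℕ) : ℝ) := by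
      rw [hP]
      simp only [Int.cast_sub, Int.cast_natCast]
    rw [h2]
    exact h1
  -- the adjustment
  have hKμ : ((Kf μ : ℕ) : ℝ) ≤ K := by exact_mod_cast hKf3 μ hμle
  have hbig : Kf μ * ((a + b) * ell (a + b) μ) ≤ E := by
    have h1 := hsq (a + b) hn5 μ hμ hμd'
    have h2 : (K : ℝ) * (((a + b : ℕ) : ℝ) * ell (a + b) μ) * l ≤ E * l := by
      have h3 : (K : ℝ) * (((a + b : ℕ) : ℝ) * ell (a + b) μ) * l =
          e * η / 2 * (2 * K / (e * η) * (((a + b : ℕ) : ℝ) * ell (a + b) μ * ell (a + b - 1) μ)) := by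
        rw [hl]
        field_simp
      rw [h3]
      exact (mul_le_mul_of_nonneg_left h1 (by positivity)).trans hEl
    have h4 : (K : ℝ) * (((a + b : ℕ) : ℝ) * ell (a + b) μ) ≤ E := le_of_mul_le_mul_right h2 hl0
    have h5 : ((Kf μ * ((a + b) * ell (a + b) μ) : ℕ) : ℝ) ≤ E := by
      push_cast
      push_cast at h4
      exact (mul_le_mul_of_nonneg_right hKμ (by positivity)).trans h4
    exact_mod_cast h5
  have hPM : ∀ s < d, (Kf μ : ℤ) * |P s| ≤ (E : ℤ) * (Mv a b d μ s 0 : ℤ) := by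
    intro s hs
    obtain ⟨g, hg1, hg2⟩ := Mv_ge (a := a) (b := b) hμ hμle hs
    have h1 := hEg a b (by omega) (by omega) hn1 hab1 g (by omega)
    rw [hg1] at h1
    have h2 : κ₀ * l ≤ (Mv a b d μ s 0 : ℝ) := by
      have : (Eg a b g : ℝ) ≤ (Mv a b d μ s 0 : ℝ) := by exact_mod_cast hg2
      linarith
    have h3 : (Kf μ : ℝ) * ((|P s| : ℤ) : ℝ) ≤ K * (δ * N) := by
      have h31 := hPabs s hs.le
      have h32 : (0 : ℝ) ≤ ((|P s| : ℤ) : ℝ) := by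
        exact_mod_cast abs_nonneg (P s)
      exact mul_le_mul hKμ h31 h32 hK0.le
    have h4 : (K : ℝ) * (δ * N) = κ₀ * (e * η / 2 * N) := by
      rw [hδ]
      field_simp
    have h5 : κ₀ * (e * η / 2 * N) ≤ κ₀ * (E * l) := mul_le_mul_of_nonneg_left hEl hκ₀.le
    have h6 : κ₀ * (E * l) ≤ E * (Mv a b d μ s 0 : ℝ) := by
      have : κ₀ * (E * l) = E * (κ₀ * l) := by ring
      rw [this]
      exact mul_le_mul_of_nonneg_left h2 (Nat.cast_nonneg _)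
    have h7 : (Kf μ : ℝ) * ((|P s| : ℤ) : ℝ) ≤ E * (Mv a b d μ s 0 : ℝ) := by linarith
    exact_mod_cast h7
  obtain ⟨c₁, hc₁1, hc₁2, hc₁3⟩ := hKf2 μ hμ hμd' a b ha2 hb2
    (fun t ht1 ht2 => hco t ht1 (by omega)) (c₀ μ) E P hc₀2 hbig hPM
  have hμr : μ ∈ range (d + 1) := mem_range.2 (by omega)
  set c : ℕ → ℕ × ℕ → ℕ := Function.update c₀ μ c₁ with hc
  have hcμ : c μ = c₁ := Function.update_self _ _ _
  have hcm : ∀ m, m ≠ μ → c m = c₀ m := fun m hm => Function.update_of_ne hm _ _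
  have hcA : ∀ m ∈ range (d + 1), ∑ x ∈ KK d, c m x = A m := by
    intro m hm
    by_cases h : m = μ
    · rw [h, hcμ, hc₁1]
      exact hc₀1 μ hμr
    · rw [hcm m h]
      exact hc₀1 m hm
  refine ⟨c, hcA, ?_, ?_, ?_⟩
  · -- the masses
    refine Num_prefix (fun j hj => ?_) ?_
    · rw [Num_Pre]
      have h1 := hc₁3 j hj
      have h2 : ((∑ m ∈ range (d + 1), ∑ x ∈ KK d, c m x * Pre a b d m x j : ℕ) : ℤ) =
          ((∑ m ∈ range (d + 1), ∑ x ∈ KK d, c₀ m x * Pre a b d m x j : ℕ) : ℤ) - P j := by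
        rw [← add_sum_erase _ _ hμr, ← add_sum_erase (range (d + 1))
          (fun m => ∑ x ∈ KK d, c₀ m x * Pre a b d m x j) hμr]
        have h3 : ∑ m ∈ (range (d + 1)).erase μ, ∑ x ∈ KK d, c m x * Pre a b d m x j =
            ∑ m ∈ (range (d + 1)).erase μ, ∑ x ∈ KK d, c₀ m x * Pre a b d m x j := by
          refine sum_congr rfl fun m hm => ?_
          rw [hcm m (ne_of_mem_erase hm)]
        rw [h3, hcμ]
        push_cast
        rw [h1]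
        ring
      have h4 : P j = ((Pre a b d m₀ (0, 0) j +
        ∑ m ∈ range (d + 1), ∑ x ∈ KK d, c₀ m x * Pre a b d m x j : ℕ) : ℤ) -
        ((∑ i ∈ range (j + 1), bet a b d i : ℕ) : ℤ) := rfl
      rw [h4] at h2
      have h5 : ((Pre a b d m₀ (0, 0) j +
          ∑ m ∈ range (d + 1), ∑ x ∈ KK d, c m x * Pre a b d m x j : ℕ) : ℤ) =
          ((∑ i ∈ range (j + 1), bet a b d i : ℕ) : ℤ) := by
        rw [Nat.cast_add, h2, Nat.cast_add]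
        ring
      exact_mod_cast h5
    · rw [Num_total (by omega) (by omega) (by omega) c A hcA, sum_bet (by omega) (by omega)]
      exact hL1
  · -- the small classes
    intro j hj t ht1 ht2
    have hm := hmass a b (by omega) (by omega) hn3 hab3 M μ hμ hμM hμd c₁ (fun x hx hx2 => by
      have h1 := hc₁2 x hx hx2
      have h2 : (E : ℝ) ≤ 2 * c₁ x := by exact_mod_cast h1
      have h3 : (E : ℝ) * l ≤ 2 * c₁ x * l := mul_le_mul_of_nonneg_right h2 hl0.le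
      show e * η / 4 * N ≤ (c₁ x : ℝ) * l
      linarith)
    refine (hm.1 j hj t ht1 ht2).trans ?_
    have h1 := single_le_sum (f := fun m => ∑ x ∈ KK d,
      if cls d m x j = t then c m x * wt a b d m x j else 0) (fun _ _ => Nat.zero_le _) hμr
    simp only [hcμ] at h1
    exact h1
  · intro j hj
    have hm := hmass a b (by omega) (by omega) hn3 hab3 M μ hμ hμM hμd c₁ (fun x hx hx2 => by
      have h1 := hc₁2 x hx hx2
      have h2 : (E : ℝ) ≤ 2 * c₁ x := by exact_mod_cast h1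
      have h3 : (E : ℝ) * l ≤ 2 * c₁ x * l := mul_le_mul_of_nonneg_right h2 hl0.le
      show e * η / 4 * N ≤ (c₁ x : ℝ) * l
      linarith)
    refine (hm.2 j hj).trans ?_
    have h1 := single_le_sum (f := fun m => ∑ x ∈ KK d,
      if cls d m x j = μ then c m x * wt a b d m x j else 0) (fun _ _ => Nat.zero_le _) hμr
    simp only [hcμ] at h1
    exact h1

end Pool.Agent.H51.TB

end
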