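import Pool.Agent.H94.LP5.M05
import Pool.Agent.H94.LP5.M21

/-! The parts of this file: H51.TB.LSpan, H51.TB.Sw, H51.TB.Win, H51.TB.Fam, H51.TB.Lev. -/

section

/-!
# Module B3 (TB): the span property of the system of a level

Proof (compare `Pool/Agent/H21/NX/GL.lean`).  Let `φ ≠ 0` be a functional on `E → ℂ`,
`E = {α // α ∈ Bx a b d j}`, and `G ≠ 0` a polynomial such that `V m p ≤ ker φ` if `G(p) ≠ 0`.  Take
`p₀` with `G(p₀) ≠ 0` and `f ∈ V m p₀`; we show `f = 0` (then `gd_le` gives `gd m = 0`).  Let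
`F = ∑_α f_α z^α` (a polynomial in the variables `Z a b`).  For matrices `A` (size `a`) and `B` (size
`b`) let `F_{A,B}(x, y) = F(A x, B y)`; its coefficients (on the level `j`) are polynomials in the
entries of `A`, `B`.  At `p_i = (adj(A) x_i, adj(B) y_i)`, where `p₀ i = (x_i, y_i)`, we have
`(A, B) p_i = (det A x_i, det B y_i)`, and the coefficients of `F_{A,B}` lie in `V m p` if
`det A ≠ 0`, `det B ≠ 0`: the vanishing of all derivatives of one bidegree `g` is preserved by
`(A, B)` (chain rule: the part of bidegree `g` of `F_{A,B}(p + z)` is obtained from the part of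
bidegree `g` of `F((A,B)p + w)` by `w = (A, B) z`), and for `F` of bidegree `(d - j, j)` the derivatives
at `(λ x, μ y)` and at `(x, y)` differ by powers of `λ`, `μ`.  Hence
`φ(F_{A,B}) * det A * det B * G(p) = 0` for all `A`, `B`, and the last three factors are not the
zero polynomial (value `G(p₀)` at `A = 1`, `B = 1`), so `φ(F_{A,B}) = 0` for all `A`, `B`.  For
`A i k = c i * v k`, `B i k = e i * w k` one has
`F_{A,B} = F(c, e) * (∑ v_k x_k)^(d-j) * (∑ w_k y_k)^j`.  If `f ≠ 0` there is `(c, e)` with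
`F(c, e) ≠ 0`, so `φ` vanishes on `(∑ v_k x_k)^(d-j) (∑ w_k y_k)^j` for all `v`, `w`; its value is
`∑_α (multinomial coefficients) v^{α_x} w^{α_y} φ(e_α)`, a polynomial in `(v, w)` vanishing
identically, so `φ(e_α) = 0` for all `α`, a contradiction.
-/

namespace Pool.Agent.H51.TB

open Finset MvPolynomial Pool.Agent.H18.Ex Pool.Agent.H21.NX Pool.Agent.H18.Ta

/-- The weights of the variables. -/
private def LSpan_w (a b : ℕ) : Z a b → ℕ × ℕ := Sum.elim (fun _ => (1, 0)) fun _ => (0, 1)

private lemma LSpan_weight {a b : ℕ} (α : Z a b →₀ ℕ) :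
    Finsupp.weight (LSpan_w a b) α = (xd α, yd α) := by
  rw [Finsupp.weight_apply, Finsupp.sum_fintype _ _ (by intro i; simp),
    Fintype.sum_sum_type]
  unfold xd yd LSpan_w
  ext <;> simp [Prod.fst_sum, Prod.snd_sum]

/-- The finitely supported function of a function. -/
private noncomputable def LSpan_sf {a b : ℕ} (α : Z a b → ℕ) : Z a b →₀ ℕ :=
  Finsupp.equivFunOnFinite.symm α

private lemma LSpan_sf_coe {a b : ℕ} (α : Z a b → ℕ) : ⇑(LSpan_sf α) = α := rfl

private lemma LSpan_sf_eta {a b : ℕ} (α : Z a b →₀ ℕ) : LSpan_sf ⇑α = α := by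
  ext i
  rfl

private lemma LSpan_sf_inj {a b : ℕ} {α β : Z a b → ℕ} : LSpan_sf α = LSpan_sf β ↔ α = β :=
  Finsupp.equivFunOnFinite.symm.injective.eq_iff

/-- The Taylor coefficients of a monomial. -/
private lemma LSpan_shift_monomial {a b : ℕ} (q : Z a b → ℂ) (α β : Z a b → ℕ) (c : ℂ) :
    coeff (LSpan_sf β) (aeval (fun i => X i + C (q i)) (monomial (LSpan_sf α) c) :
      MvPolynomial (Z a b) ℂ) = c * tcr q α β := by
  classical
  rw [aeval_monomial, algebraMap_eq, coeff_C_mul, Finsupp.prod_fintype _ _ (by intro i; simp)]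
  congr 1
  have h1 : ∀ j : Z a b, (X j + C (q j) : MvPolynomial (Z a b) ℂ) ^ (LSpan_sf α j) =
      ∑ b ∈ range (α j + 1), monomial (Finsupp.single j b)
        (((α j).choose b : ℂ) * q j ^ (α j - b)) := by
    intro j
    rw [LSpan_sf_coe, add_pow]
    refine sum_congr rfl fun b _ => ?_
    rw [X_pow_eq_monomial, ← C_pow, mul_assoc, mul_comm (C (q j ^ (α j - b)))]
    rw [← C_eq_coe_nat, ← C_mul, mul_comm, C_mul_monomial, mul_one]
  simp_rw [h1]
  rw [prod_univ_sum, coeff_sum]
  have h2 : ∀ x ∈ Fintype.piFinset fun j => range (α j + 1),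
      coeff (LSpan_sf β) (∏ j, monomial (Finsupp.single j (x j))
        (((α j).choose (x j) : ℂ) * q j ^ (α j - x j)) : MvPolynomial (Z a b) ℂ) =
      if x = β then tcr q α β else 0 := by
    intro x _
    rw [← monomial_sum_prod, coeff_monomial]
    have h4 : (∑ j, Finsupp.single j (x j)) = LSpan_sf x := by
      unfold LSpan_sf
      rw [Finsupp.equivFunOnFinite_symm_eq_sum]
    rw [h4]
    by_cases hx : x = β
    · subst hx
      simp [tcr]
    · rw [if_neg, if_neg hx]
      intro h5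
      exact hx (LSpan_sf_inj.1 h5)
  rw [sum_congr rfl h2, sum_ite_eq']
  split_ifs with h
  · rfl
  · rw [Fintype.mem_piFinset] at h
    push Not at h
    obtain ⟨j, hj⟩ := h
    rw [mem_range] at hj
    symm
    unfold tcr
    apply prod_eq_zero (mem_univ j)
    rw [Nat.choose_eq_zero_of_lt (by omega)]
    simp

/-- The polynomial of a coefficient vector. -/
private noncomputable def LSpan_P {a b d j : ℕ} (f : {α // α ∈ Bx a b d j} → ℂ) :
    MvPolynomial (Z a b) ℂ := ∑ α : {α // α ∈ Bx a b d j}, monomial (LSpan_sf α.1) (f α)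

private lemma LSpan_coeff_P {a b d j : ℕ} (f : {α // α ∈ Bx a b d j} → ℂ)
    (α : {α // α ∈ Bx a b d j}) : coeff (LSpan_sf α.1) (LSpan_P f) = f α := by
  classical
  unfold LSpan_P
  rw [coeff_sum]
  simp only [coeff_monomial, LSpan_sf_inj, Subtype.coe_inj]
  simp

private lemma LSpan_coeff_P_zero {a b d j : ℕ} (f : {α // α ∈ Bx a b d j} → ℂ)
    (α : Z a b → ℕ) (hα : α ∉ Bx a b d j) : coeff (LSpan_sf α) (LSpan_P f) = 0 := by
  classical
  unfold LSpan_P
  rw [coeff_sum]
  refine sum_eq_zero fun β _ => ?_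
  rw [coeff_monomial, if_neg]
  intro h
  rw [LSpan_sf_inj] at h
  exact hα (h ▸ β.2)

private lemma LSpan_shift_P {a b d j : ℕ} (q : Z a b → ℂ) (f : {α // α ∈ Bx a b d j} → ℂ)
    (β : Z a b → ℕ) :
    coeff (LSpan_sf β) (aeval (fun i => X i + C (q i)) (LSpan_P f) : MvPolynomial (Z a b) ℂ) =
      ∑ α : {α // α ∈ Bx a b d j}, tcr q α.1 β * f α := by
  unfold LSpan_P
  rw [map_sum, coeff_sum]
  refine sum_congr rfl fun α _ => ?_
  rw [LSpan_shift_monomial, mul_comm]

/-- Substitutions respecting the weights. -/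
private lemma LSpan_mono_hom {a b : ℕ} {g : Z a b → MvPolynomial (Z a b) ℂ}
    (hg : ∀ i, IsWeightedHomogeneous (LSpan_w a b) (g i) (LSpan_w a b i)) (α : Z a b →₀ ℕ)
    (c : ℂ) : IsWeightedHomogeneous (LSpan_w a b) (aeval g (monomial α c)) (xd α, yd α) := by
  rw [aeval_monomial, algebraMap_eq, Finsupp.prod_fintype _ _ (by intro i; simp)]
  have h1 : IsWeightedHomogeneous (LSpan_w a b) (∏ i, g i ^ α i) (xd α, yd α) := by
    rw [← LSpan_weight, Finsupp.weight_apply, Finsupp.sum_fintype _ _ (by intro i; simp)]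
    exact IsWeightedHomogeneous.prod _ _ _ fun i _ => (hg i).pow (α i)
  exact h1.C_mul c

private lemma LSpan_pres {a b : ℕ} {g : Z a b → MvPolynomial (Z a b) ℂ}
    (hg : ∀ i, IsWeightedHomogeneous (LSpan_w a b) (g i) (LSpan_w a b i)) (n : ℕ × ℕ)
    {H : MvPolynomial (Z a b) ℂ} (hH : ∀ β : Z a b →₀ ℕ, (xd β, yd β) = n → coeff β H = 0)
    (β : Z a b →₀ ℕ) (hβ : (xd β, yd β) = n) : coeff β (aeval g H) = 0 := by
  classical
  rw [H.as_sum, map_sum, coeff_sum]
  refine sum_eq_zero fun α hα => ?_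
  by_cases h : (xd α, yd α) = n
  · exact absurd (hH α h) (mem_support_iff.1 hα)
  · refine (LSpan_mono_hom hg α _).coeff_eq_zero β ?_
    rw [LSpan_weight, hβ]
    exact Ne.symm h

/-- The block substitution. -/
private noncomputable def LSpan_g {a b : ℕ} (A : Matrix (Fin a) (Fin a) ℂ)
    (B : Matrix (Fin b) (Fin b) ℂ) : Z a b → MvPolynomial (Z a b) ℂ :=
  Sum.elim (fun i => ∑ k, C (A i k) * X (Sum.inl k)) fun i => ∑ k, C (B i k) * X (Sum.inr k)

private lemma LSpan_g_hom {a b : ℕ} (A : Matrix (Fin a) (Fin a) ℂ)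
    (B : Matrix (Fin b) (Fin b) ℂ) (i : Z a b) :
    IsWeightedHomogeneous (LSpan_w a b) (LSpan_g A B i) (LSpan_w a b i) := by
  rcases i with i | i
  · show IsWeightedHomogeneous (LSpan_w a b) (∑ k, C (A i k) * X (Sum.inl k)) (1, 0)
    exact IsWeightedHomogeneous.sum _ _ _ fun k _ =>
      (isWeightedHomogeneous_X ℂ (LSpan_w a b) (Sum.inl k)).C_mul _
  · show IsWeightedHomogeneous (LSpan_w a b) (∑ k, C (B i k) * X (Sum.inr k)) (0, 1)
    exact IsWeightedHomogeneous.sum _ _ _ fun k _ =>
      (isWeightedHomogeneous_X ℂ (LSpan_w a b) (Sum.inr k)).C_mul _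

/-- The point `(A x, B y)`. -/
private def LSpan_mv {a b : ℕ} (A : Matrix (Fin a) (Fin a) ℂ)
    (B : Matrix (Fin b) (Fin b) ℂ) (q : Z a b → ℂ) : Z a b → ℂ :=
  Sum.elim (A.mulVec fun k => q (Sum.inl k)) (B.mulVec fun k => q (Sum.inr k))

private lemma LSpan_shift_comm {a b : ℕ} (A : Matrix (Fin a) (Fin a) ℂ)
    (B : Matrix (Fin b) (Fin b) ℂ) (q : Z a b → ℂ) (F : MvPolynomial (Z a b) ℂ) :
    aeval (fun i => X i + C (q i)) (aeval (LSpan_g A B) F) =
      aeval (LSpan_g A B) (aeval (fun i => X i + C (LSpan_mv A B q i)) F) := by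
  have h : (aeval (fun j => X j + C (q j)) :
      MvPolynomial (Z a b) ℂ →ₐ[ℂ] MvPolynomial (Z a b) ℂ).comp (aeval (LSpan_g A B)) =
      (aeval (LSpan_g A B)).comp (aeval (fun j => X j + C (LSpan_mv A B q j))) := by
    apply algHom_ext
    rintro (i | i)
    · simp only [LSpan_g, LSpan_mv, AlgHom.comp_apply, aeval_X, map_sum, map_mul, aeval_C,
        algebraMap_eq, map_add, mul_add, sum_add_distrib, Matrix.mulVec, dotProduct, Sum.elim_inl]
    · simp only [LSpan_g, LSpan_mv, AlgHom.comp_apply, aeval_X, map_sum, map_mul, aeval_C,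
        algebraMap_eq, map_add, mul_add, sum_add_distrib, Matrix.mulVec, dotProduct, Sum.elim_inr]
  exact DFunLike.congr_fun h F

/-- Scalar multiples of the two blocks. -/
private lemma LSpan_tcr_smul {a b : ℕ} (l m : ℂ) (x : Fin a → ℂ) (y : Fin b → ℂ)
    (α β : Z a b → ℕ) :
    tcr (Sum.elim (fun k => l * x k) fun k => m * y k : Z a b → ℂ) α β =
      l ^ (xd α - xd β) * m ^ (yd α - yd β) * tcr (Sum.elim x y : Z a b → ℂ) α β := by
  by_cases h : ∀ i, β i ≤ α i
  · unfold tcr
    rw [Fintype.prod_sum_type, Fintype.prod_sum_type]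
    simp only [Sum.elim_inl, Sum.elim_inr, mul_pow]
    have e1 : ∑ i, (α (Sum.inl i) - β (Sum.inl i)) = xd α - xd β := by
      unfold xd
      rw [Finset.sum_tsub_distrib _ fun i _ => h _]
    have e2 : ∑ i, (α (Sum.inr i) - β (Sum.inr i)) = yd α - yd β := by
      unfold yd
      rw [Finset.sum_tsub_distrib _ fun i _ => h _]
    rw [← e1, ← e2, ← prod_pow_eq_pow_sum, ← prod_pow_eq_pow_sum]
    simp only [prod_mul_distrib]
    ring
  · push Not at h
    obtain ⟨i, hi⟩ := h
    have h0 : ∀ q : Z a b → ℂ, tcr q α β = 0 := by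
      intro q
      unfold tcr
      apply prod_eq_zero (mem_univ i)
      rw [Nat.choose_eq_zero_of_lt hi]
      simp
    rw [h0, h0, mul_zero]

/-- The coefficients of the transformed polynomial. -/
private noncomputable def LSpan_T {a b d j : ℕ} (A : Matrix (Fin a) (Fin a) ℂ)
    (B : Matrix (Fin b) (Fin b) ℂ) (f : {α // α ∈ Bx a b d j} → ℂ) :
    {α // α ∈ Bx a b d j} → ℂ :=
  fun α => coeff (LSpan_sf α.1) (aeval (LSpan_g A B) (LSpan_P f))

private lemma LSpan_P_T {a b d j : ℕ} (A : Matrix (Fin a) (Fin a) ℂ)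
    (B : Matrix (Fin b) (Fin b) ℂ) (f : {α // α ∈ Bx a b d j} → ℂ) :
    LSpan_P (LSpan_T A B f) = aeval (LSpan_g A B) (LSpan_P f) := by
  classical
  ext γ
  rw [← LSpan_sf_eta γ]
  by_cases hγ : ⇑γ ∈ Bx a b d j
  · exact LSpan_coeff_P (LSpan_T A B f) ⟨⇑γ, hγ⟩
  · rw [LSpan_coeff_P_zero _ _ hγ]
    symm
    unfold LSpan_P
    rw [map_sum, coeff_sum]
    refine sum_eq_zero fun α _ => ?_
    refine (LSpan_mono_hom (LSpan_g_hom A B) _ _).coeff_eq_zero _ ?_
    rw [LSpan_weight, LSpan_sf_coe, LSpan_sf_coe]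
    intro h
    apply hγ
    have h1 := mem_Bx.1 α.2
    rw [Prod.mk.injEq] at h
    rw [mem_Bx, h.1, h.2]
    exact h1

private lemma LSpan_mem {a b d j : ℕ} {κ : Type} (m : κ → Finset (ℕ × ℕ)) (p : κ → Z a b → ℂ)
    (f : {α // α ∈ Bx a b d j} → ℂ) (hf : f ∈ (LSys a b d j).V m p)
    (A : Matrix (Fin a) (Fin a) ℂ) (B : Matrix (Fin b) (Fin b) ℂ) :
    LSpan_T A B f ∈ (LSys a b d j).V m fun i => LSpan_mv A.adjugate B.adjugate (p i) := by
  rw [mem_LV] at hf ⊢
  intro i β hβ
  rw [← LSpan_shift_P, LSpan_P_T, LSpan_shift_comm]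
  refine LSpan_pres (LSpan_g_hom A B) (xd β, yd β) ?_ _ rfl
  intro γ hγ
  rw [← LSpan_sf_eta γ, LSpan_shift_P]
  have h1 : LSpan_mv A B (LSpan_mv A.adjugate B.adjugate (p i)) =
      Sum.elim (fun k => A.det * p i (Sum.inl k)) fun k => B.det * p i (Sum.inr k) := by
    have e1 : A.mulVec (A.adjugate.mulVec fun k => p i (Sum.inl k)) =
        fun k => A.det * p i (Sum.inl k) := by
      rw [Matrix.mulVec_mulVec, Matrix.mul_adjugate, Matrix.smul_mulVec, Matrix.one_mulVec]
      rfl
    have e2 : B.mulVec (B.adjugate.mulVec fun k => p i (Sum.inr k)) =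
        fun k => B.det * p i (Sum.inr k) := by
      rw [Matrix.mulVec_mulVec, Matrix.mul_adjugate, Matrix.smul_mulVec, Matrix.one_mulVec]
      rfl
    unfold LSpan_mv
    simp only [Sum.elim_inl, Sum.elim_inr]
    rw [e1, e2]
  rw [h1]
  have h2 : (Sum.elim (fun k => p i (Sum.inl k)) fun k => p i (Sum.inr k) : Z a b → ℂ) = p i := by
    funext x
    rcases x with x | x <;> rfl
  have h3 : ∀ α : {α // α ∈ Bx a b d j},
      tcr (Sum.elim (fun k => A.det * p i (Sum.inl k)) fun k => B.det * p i (Sum.inr k) :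
        Z a b → ℂ) α.1 ⇑γ * f α =
      A.det ^ (d - j - xd γ) * B.det ^ (j - yd γ) * (tcr (p i) α.1 ⇑γ * f α) := by
    intro α
    have h4 := mem_Bx.1 α.2
    rw [LSpan_tcr_smul, h2, show xd α.1 = d - j by omega, show yd α.1 = j by omega]
    ring
  simp_rw [h3]
  rw [← mul_sum, hf i ⇑γ (by rw [hγ]; exact hβ), mul_zero]

/-- The parameters of the pair `(A, B)`. -/
private def LSpan_t {a b : ℕ} (A : Matrix (Fin a) (Fin a) ℂ) (B : Matrix (Fin b) (Fin b) ℂ) :
    (Fin a × Fin a) ⊕ (Fin b × Fin b) → ℂ :=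
  Sum.elim (fun x => A x.1 x.2) fun x => B x.1 x.2

/-- The generic substitution. -/
private noncomputable def LSpan_gF {a b : ℕ} : MvPolynomial (Z a b) ℂ →+*
    MvPolynomial (Z a b) (MvPolynomial ((Fin a × Fin a) ⊕ (Fin b × Fin b)) ℂ) :=
  eval₂Hom (C.comp C) (Sum.elim (fun i => ∑ k, C (X (Sum.inl (i, k))) * X (Sum.inl k))
    fun i => ∑ k, C (X (Sum.inr (i, k))) * X (Sum.inr k))

private lemma LSpan_map_gF {a b : ℕ} (A : Matrix (Fin a) (Fin a) ℂ)
    (B : Matrix (Fin b) (Fin b) ℂ) (F : MvPolynomial (Z a b) ℂ) :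
    MvPolynomial.map (eval (LSpan_t A B)) (LSpan_gF F) = aeval (LSpan_g A B) F := by
  have h : (MvPolynomial.map (eval (LSpan_t A B))).comp LSpan_gF =
      (aeval (LSpan_g A B) : MvPolynomial (Z a b) ℂ →ₐ[ℂ] MvPolynomial (Z a b) ℂ).toRingHom := by
    apply ringHom_ext
    · intro c
      simp [LSpan_gF]
    · rintro (i | i)
      · simp [LSpan_gF, LSpan_g, LSpan_t]
      · simp [LSpan_gF, LSpan_g, LSpan_t]
  exact DFunLike.congr_fun h F

private lemma LSpan_functional {a b d j : ℕ} (φ : ({α // α ∈ Bx a b d j} → ℂ) →ₗ[ℂ] ℂ)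
    (f : {α // α ∈ Bx a b d j} → ℂ) :
    φ f = ∑ α, φ (Pi.single α 1) * f α := by
  classical
  rw [LinearMap.pi_apply_eq_sum_univ φ f]
  refine sum_congr rfl fun α _ => ?_
  rw [smul_eq_mul, mul_comm]
  congr 2
  funext β
  by_cases h : α = β
  · subst h; simp
  · rw [if_neg h, Pi.single_eq_of_ne (Ne.symm h)]

private lemma LSpan_functional_poly {a b d j : ℕ} (φ : ({α // α ∈ Bx a b d j} → ℂ) →ₗ[ℂ] ℂ)
    (f : {α // α ∈ Bx a b d j} → ℂ) :
    ∃ Q : MvPolynomial ((Fin a × Fin a) ⊕ (Fin b × Fin b)) ℂ,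
      ∀ (A : Matrix (Fin a) (Fin a) ℂ) (B : Matrix (Fin b) (Fin b) ℂ),
      eval (LSpan_t A B) Q = φ (LSpan_T A B f) := by
  classical
  refine ⟨∑ α : {α // α ∈ Bx a b d j},
    C (φ (Pi.single α 1)) * coeff (LSpan_sf α.1) (LSpan_gF (LSpan_P f)), fun A B => ?_⟩
  rw [LSpan_functional, map_sum]
  refine sum_congr rfl fun α _ => ?_
  rw [map_mul, eval_C]
  unfold LSpan_T
  rw [← LSpan_map_gF, coeff_map]

private lemma LSpan_eval_aeval {σ τ : Type*} (a : τ → ℂ) (g : σ → MvPolynomial τ ℂ)
    (G : MvPolynomial σ ℂ) : eval a (aeval g G) = eval (fun x => eval a (g x)) G := by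
  induction G using MvPolynomial.induction_on with
  | C c => simp
  | add p q hp hq => rw [map_add, map_add, map_add, hp, hq]
  | mul_X p i hp => rw [map_mul, map_mul, map_mul, hp, aeval_X, eval_X]

/-- The polynomial `G(p_{A,B})`. -/
private lemma LSpan_D {a b : ℕ} {κ : Type} (G : MvPolynomial (κ × Z a b) ℂ)
    (p₀ : κ → Z a b → ℂ) :
    ∃ D : MvPolynomial ((Fin a × Fin a) ⊕ (Fin b × Fin b)) ℂ,
      ∀ (A : Matrix (Fin a) (Fin a) ℂ) (B : Matrix (Fin b) (Fin b) ℂ),
      eval (LSpan_t A B) D =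
        eval (fun x : κ × Z a b => LSpan_mv A.adjugate B.adjugate (p₀ x.1) x.2) G := by
  classical
  let NA : Matrix (Fin a) (Fin a) (MvPolynomial ((Fin a × Fin a) ⊕ (Fin b × Fin b)) ℂ) :=
    Matrix.of fun i k => X (Sum.inl (i, k))
  let NB : Matrix (Fin b) (Fin b) (MvPolynomial ((Fin a × Fin a) ⊕ (Fin b × Fin b)) ℂ) :=
    Matrix.of fun i k => X (Sum.inr (i, k))
  have hNA : ∀ (A : Matrix (Fin a) (Fin a) ℂ) (B : Matrix (Fin b) (Fin b) ℂ),
      (eval (LSpan_t A B)).mapMatrix NA = A := by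
    intro A B
    ext i k
    simp [NA, LSpan_t]
  have hNB : ∀ (A : Matrix (Fin a) (Fin a) ℂ) (B : Matrix (Fin b) (Fin b) ℂ),
      (eval (LSpan_t A B)).mapMatrix NB = B := by
    intro A B
    ext i k
    simp [NB, LSpan_t]
  refine ⟨aeval (fun x : κ × Z a b => Sum.elim
    (fun i => ∑ k, NA.adjugate i k * C (p₀ x.1 (Sum.inl k)))
    (fun i => ∑ k, NB.adjugate i k * C (p₀ x.1 (Sum.inr k))) x.2) G, fun A B => ?_⟩
  rw [LSpan_eval_aeval]
  have h1 : ∀ i k, eval (LSpan_t A B) (NA.adjugate i k) = A.adjugate i k := by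
    intro i k
    have h3 := RingHom.map_adjugate (eval (LSpan_t A B)) NA
    rw [hNA] at h3
    have h4 := congrFun (congrFun h3 i) k
    simpa using h4
  have h2 : ∀ i k, eval (LSpan_t A B) (NB.adjugate i k) = B.adjugate i k := by
    intro i k
    have h3 := RingHom.map_adjugate (eval (LSpan_t A B)) NB
    rw [hNB] at h3
    have h4 := congrFun (congrFun h3 i) k
    simpa using h4
  have h3 : (fun x : κ × Z a b => eval (LSpan_t A B) (Sum.elim
      (fun i => ∑ k, NA.adjugate i k * C (p₀ x.1 (Sum.inl k)))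
      (fun i => ∑ k, NB.adjugate i k * C (p₀ x.1 (Sum.inr k))) x.2)) =
      fun x : κ × Z a b => LSpan_mv A.adjugate B.adjugate (p₀ x.1) x.2 := by
    funext x
    obtain ⟨x, i | i⟩ := x
    · simp only [Sum.elim_inl, map_sum, map_mul, h1, eval_C]
      rfl
    · simp only [Sum.elim_inr, map_sum, map_mul, h2, eval_C]
      rfl
  rw [h3]

/-- Step 1: `φ` vanishes on all transformed solutions. -/
private lemma LSpan_all {a b d j : ℕ} {κ : Type} (m : κ → Finset (ℕ × ℕ))
    (φ : ({α // α ∈ Bx a b d j} → ℂ) →ₗ[ℂ] ℂ) (G : MvPolynomial (κ × Z a b) ℂ)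
    (hG : ∀ p : κ → Z a b → ℂ, eval (fun x => p x.1 x.2) G ≠ 0 →
      (LSys a b d j).V m p ≤ LinearMap.ker φ)
    (p₀ : κ → Z a b → ℂ) (hp₀ : eval (fun x => p₀ x.1 x.2) G ≠ 0)
    (f : {α // α ∈ Bx a b d j} → ℂ) (hf : f ∈ (LSys a b d j).V m p₀)
    (A : Matrix (Fin a) (Fin a) ℂ) (B : Matrix (Fin b) (Fin b) ℂ) :
    φ (LSpan_T A B f) = 0 := by
  classical
  obtain ⟨Q, hQ⟩ := LSpan_functional_poly φ f
  obtain ⟨D, hD⟩ := LSpan_D G p₀
  have hQD : Q * D = 0 := by
    apply MvPolynomial.funext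
    intro t
    let A : Matrix (Fin a) (Fin a) ℂ := Matrix.of fun i k => t (Sum.inl (i, k))
    let B : Matrix (Fin b) (Fin b) ℂ := Matrix.of fun i k => t (Sum.inr (i, k))
    have ht : t = LSpan_t A B := by
      funext x
      rcases x with x | x <;> rfl
    rw [map_mul, map_zero, ht, hQ, hD]
    by_cases hGA : eval (fun x : κ × Z a b => LSpan_mv A.adjugate B.adjugate (p₀ x.1) x.2) G = 0
    · rw [hGA, mul_zero]
    have h1 : φ (LSpan_T A B f) = 0 :=
      hG (fun i => LSpan_mv A.adjugate B.adjugate (p₀ i)) hGA (LSpan_mem m p₀ f hf A B)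
    rw [h1, zero_mul]
  have hD0 : D ≠ 0 := by
    intro h0
    have h1 := hD 1 1
    rw [h0, map_zero] at h1
    apply hp₀
    rw [h1]
    have h2 : (fun x : κ × Z a b => p₀ x.1 x.2) = fun x : κ × Z a b =>
        LSpan_mv (1 : Matrix (Fin a) (Fin a) ℂ).adjugate (1 : Matrix (Fin b) (Fin b) ℂ).adjugate
          (p₀ x.1) x.2 := by
      funext x
      rw [Matrix.adjugate_one, Matrix.adjugate_one]
      unfold LSpan_mv
      rw [Matrix.one_mulVec, Matrix.one_mulVec]
      obtain ⟨x, i | i⟩ := x <;> rfl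
    rw [h2]
  have hQ0 : Q = 0 := (mul_eq_zero.1 hQD).resolve_right hD0
  rw [← hQ, hQ0, map_zero]

/-- Step 2: rank one matrices. -/
private lemma LSpan_rank_one {a b d j : ℕ} (hj : j ≤ d) (f : {α // α ∈ Bx a b d j} → ℂ)
    (c v : Z a b → ℂ) :
    aeval (LSpan_g (Matrix.of fun i k => c (Sum.inl i) * v (Sum.inl k))
      (Matrix.of fun i k => c (Sum.inr i) * v (Sum.inr k))) (LSpan_P f) =
      C (eval c (LSpan_P f)) * ((∑ k, C (v (Sum.inl k)) * X (Sum.inl k)) ^ (d - j) *
        (∑ k, C (v (Sum.inr k)) * X (Sum.inr k)) ^ j) := by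
  classical
  unfold LSpan_P
  rw [map_sum, map_sum, map_sum, sum_mul]
  refine sum_congr rfl fun α _ => ?_
  have h4 := mem_Bx.1 α.2
  have e1 : ∑ i, α.1 (Sum.inl i) = d - j := by
    have : xd α.1 = d - j := by omega
    exact this
  have e2 : ∑ i, α.1 (Sum.inr i) = j := h4.2
  rw [aeval_monomial, algebraMap_eq, eval_monomial, Finsupp.prod_fintype _ _ (by intro i; simp),
    Finsupp.prod_fintype _ _ (by intro i; simp), Fintype.prod_sum_type, Fintype.prod_sum_type,
    LSpan_sf_coe]
  have h5 : ∀ i : Fin a, LSpan_g (Matrix.of fun i k => c (Sum.inl i) * v (Sum.inl k))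
      (Matrix.of fun i k => c (Sum.inr i) * v (Sum.inr k)) (Sum.inl i) =
      C (c (Sum.inl i)) * ∑ k, C (v (Sum.inl k)) * X (Sum.inl k) := by
    intro i
    simp only [LSpan_g, Sum.elim_inl, Matrix.of_apply, mul_sum, C_mul, mul_assoc]
  have h6 : ∀ i : Fin b, LSpan_g (Matrix.of fun i k => c (Sum.inl i) * v (Sum.inl k))
      (Matrix.of fun i k => c (Sum.inr i) * v (Sum.inr k)) (Sum.inr i) =
      C (c (Sum.inr i)) * ∑ k, C (v (Sum.inr k)) * X (Sum.inr k) := by
    intro i
    simp only [LSpan_g, Sum.elim_inr, Matrix.of_apply, mul_sum, C_mul, mul_assoc]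
  simp_rw [h5, h6, mul_pow]
  rw [prod_mul_distrib, prod_mul_distrib, prod_pow_eq_pow_sum, prod_pow_eq_pow_sum, e1, e2]
  simp only [C_mul, map_prod, C_pow]
  ring

/-- The coefficients of the products of powers of two linear forms. -/
private lemma LSpan_coeff_pow {a b d j : ℕ} (hj : j ≤ d) (v : Z a b → ℂ)
    (α : {α // α ∈ Bx a b d j}) :
    coeff (LSpan_sf α.1) ((∑ k, C (v (Sum.inl k)) * X (Sum.inl k)) ^ (d - j) *
        (∑ k, C (v (Sum.inr k)) * X (Sum.inr k)) ^ j : MvPolynomial (Z a b) ℂ) =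
      ((Nat.multinomial univ (fun i => α.1 (Sum.inl i)) *
        Nat.multinomial univ (fun i => α.1 (Sum.inr i)) : ℕ) : ℂ) * ∏ i, v i ^ α.1 i := by
  classical
  rw [sum_pow_eq_sum_piAntidiag, sum_pow_eq_sum_piAntidiag, sum_mul_sum, coeff_sum]
  have h1 : ∀ (k : Fin a → ℕ) (l : Fin b → ℕ),
      ((Nat.multinomial univ k : MvPolynomial (Z a b) ℂ) *
        ∏ i, (C (v (Sum.inl i)) * X (Sum.inl i)) ^ k i) *
      ((Nat.multinomial univ l : MvPolynomial (Z a b) ℂ) *
        ∏ i, (C (v (Sum.inr i)) * X (Sum.inr i)) ^ l i) =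
      monomial (LSpan_sf (Sum.elim k l)) (((Nat.multinomial univ k * Nat.multinomial univ l : ℕ) : ℂ)
        * ((∏ i, v (Sum.inl i) ^ k i) * ∏ i, v (Sum.inr i) ^ l i)) := by
    intro k l
    rw [monomial_eq, Finsupp.prod_fintype _ _ (by intro i; simp), Fintype.prod_sum_type,
      LSpan_sf_coe]
    simp only [Sum.elim_inl, Sum.elim_inr, mul_pow, prod_mul_distrib, C_mul, map_prod, C_pow,
      Nat.cast_mul, ← C_eq_coe_nat]
    ring
  have e1 : ∑ i, α.1 (Sum.inl i) = d - j := by
    have h4 := mem_Bx.1 α.2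
    have : xd α.1 = d - j := by omega
    exact this
  have e2 : ∑ i, α.1 (Sum.inr i) = j := (mem_Bx.1 α.2).2
  have h2 : ∀ k ∈ piAntidiag (univ : Finset (Fin a)) (d - j),
      coeff (LSpan_sf α.1) (∑ l ∈ piAntidiag (univ : Finset (Fin b)) j,
      ((Nat.multinomial univ k : MvPolynomial (Z a b) ℂ) *
        ∏ i, (C (v (Sum.inl i)) * X (Sum.inl i)) ^ k i) *
      ((Nat.multinomial univ l : MvPolynomial (Z a b) ℂ) *
        ∏ i, (C (v (Sum.inr i)) * X (Sum.inr i)) ^ l i)) =
      if k = (fun i => α.1 (Sum.inl i)) then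
        (((Nat.multinomial univ (fun i => α.1 (Sum.inl i)) *
        Nat.multinomial univ (fun i => α.1 (Sum.inr i)) : ℕ) : ℂ) * ∏ i, v i ^ α.1 i) else 0 := by
    intro k _
    rw [coeff_sum]
    have h3 : ∀ l ∈ piAntidiag (univ : Finset (Fin b)) j, coeff (LSpan_sf α.1)
      (((Nat.multinomial univ k : MvPolynomial (Z a b) ℂ) *
        ∏ i, (C (v (Sum.inl i)) * X (Sum.inl i)) ^ k i) *
      ((Nat.multinomial univ l : MvPolynomial (Z a b) ℂ) *
        ∏ i, (C (v (Sum.inr i)) * X (Sum.inr i)) ^ l i)) =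
        if l = (fun i => α.1 (Sum.inr i)) then (if k = (fun i => α.1 (Sum.inl i)) then
        (((Nat.multinomial univ (fun i => α.1 (Sum.inl i)) *
        Nat.multinomial univ (fun i => α.1 (Sum.inr i)) : ℕ) : ℂ) * ∏ i, v i ^ α.1 i) else 0)
        else 0 := by
      intro l _
      rw [h1, coeff_monomial]
      by_cases hk : k = (fun i => α.1 (Sum.inl i))
      · by_cases hl : l = (fun i => α.1 (Sum.inr i))
        · have h5 : LSpan_sf (Sum.elim k l) = LSpan_sf α.1 := by
            rw [LSpan_sf_inj, hk, hl]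
            funext x
            rcases x with x | x <;> rfl
          rw [if_pos hk, if_pos hl, if_pos h5, Fintype.prod_sum_type, hk, hl]
        · rw [if_neg hl, if_neg]
          intro h
          apply hl
          rw [LSpan_sf_inj] at h
          funext x
          exact congrFun h (Sum.inr x)
      · rw [if_neg hk, ite_self, if_neg]
        intro h
        apply hk
        rw [LSpan_sf_inj] at h
        funext x
        exact congrFun h (Sum.inl x)
    rw [sum_congr rfl h3, sum_ite_eq' , if_pos]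
    rw [mem_piAntidiag]
    exact ⟨e2, fun i _ => mem_univ i⟩
  rw [sum_congr rfl h2, sum_ite_eq', if_pos]
  rw [mem_piAntidiag]
  exact ⟨e1, fun i _ => mem_univ i⟩

theorem span_L {a b d j : ℕ} (ha : 1 ≤ a) (hb : 1 ≤ b) (hj : j ≤ d) : (LSys a b d j).Span := by
  classical
  intro κ _ m φ hφ hgn
  obtain ⟨G, hG0, hG⟩ := hgn
  obtain ⟨t, ht⟩ : ∃ t, eval t G ≠ 0 := by
    by_contra hcon
    push Not at hcon
    exact hG0 (MvPolynomial.funext fun t => by rw [hcon t, map_zero])
  let p₀ : κ → Z a b → ℂ := fun i k => t (i, k)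
  have hp₀ : eval (fun x : κ × Z a b => p₀ x.1 x.2) G ≠ 0 := ht
  have hbot : (LSys a b d j).V m p₀ = ⊥ := by
    rw [Submodule.eq_bot_iff]
    intro f hf
    by_contra hf0
    obtain ⟨c, hc⟩ : ∃ c, eval c (LSpan_P f) ≠ 0 := by
      by_contra hcon
      push Not at hcon
      have h0 : LSpan_P f = 0 := MvPolynomial.funext fun a => by rw [hcon a, map_zero]
      apply hf0
      funext α
      rw [← LSpan_coeff_P f α, h0, coeff_zero]
      rfl
    have h1 : ∀ v : Z a b → ℂ, ∑ α : {α // α ∈ Bx a b d j}, φ (Pi.single α 1) *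
        (((Nat.multinomial univ (fun i => α.1 (Sum.inl i)) *
        Nat.multinomial univ (fun i => α.1 (Sum.inr i)) : ℕ) : ℂ) * ∏ i, v i ^ α.1 i) = 0 := by
      intro v
      have h2 := LSpan_all m φ G hG p₀ hp₀ f hf
        (Matrix.of fun i k => c (Sum.inl i) * v (Sum.inl k))
        (Matrix.of fun i k => c (Sum.inr i) * v (Sum.inr k))
      rw [LSpan_functional] at h2
      have h3 : ∀ α : {α // α ∈ Bx a b d j}, φ (Pi.single α 1) *
          LSpan_T (Matrix.of fun i k => c (Sum.inl i) * v (Sum.inl k))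
            (Matrix.of fun i k => c (Sum.inr i) * v (Sum.inr k)) f α =
          eval c (LSpan_P f) * (φ (Pi.single α 1) *
          (((Nat.multinomial univ (fun i => α.1 (Sum.inl i)) *
          Nat.multinomial univ (fun i => α.1 (Sum.inr i)) : ℕ) : ℂ) * ∏ i, v i ^ α.1 i)) := by
        intro α
        unfold LSpan_T
        rw [LSpan_rank_one hj, coeff_C_mul, LSpan_coeff_pow hj]
        ring
      simp_rw [h3] at h2
      rw [← mul_sum] at h2
      exact (mul_eq_zero.1 h2).resolve_left hc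
    have h4 : LSpan_P (fun α : {α // α ∈ Bx a b d j} => φ (Pi.single α 1) *
        ((Nat.multinomial univ (fun i => α.1 (Sum.inl i)) *
        Nat.multinomial univ (fun i => α.1 (Sum.inr i)) : ℕ) : ℂ)) = 0 := by
      apply MvPolynomial.funext
      intro v
      rw [map_zero, ← h1 v]
      unfold LSpan_P
      rw [map_sum]
      refine sum_congr rfl fun α _ => ?_
      rw [eval_monomial, Finsupp.prod_fintype _ _ (by intro i; simp), LSpan_sf_coe]
      ring
    apply hφ
    ext α
    have h5 := LSpan_coeff_P (fun α : {α // α ∈ Bx a b d j} => φ (Pi.single α 1) *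
        ((Nat.multinomial univ (fun i => α.1 (Sum.inl i)) *
        Nat.multinomial univ (fun i => α.1 (Sum.inr i)) : ℕ) : ℂ)) α
    rw [h4, coeff_zero] at h5
    have h6 : ((Nat.multinomial univ (fun i => α.1 (Sum.inl i)) *
        Nat.multinomial univ (fun i => α.1 (Sum.inr i)) : ℕ) : ℂ) ≠ 0 := by
      rw [Nat.cast_ne_zero]
      exact Nat.mul_ne_zero (Nat.multinomial_pos _ _).ne' (Nat.multinomial_pos _ _).ne'
    have h7 : φ (Pi.single α 1) = 0 := (mul_eq_zero.1 h5.symm).resolve_right h6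
    simpa using h7
  have h4 := gd_le (LSys a b d j) m p₀
  rw [hbot, finrank_bot] at h4
  omega

end Pool.Agent.H51.TB

end

section

/-!
# Module A4 (TB): the swap lemma

As `swap_step` in `Pool/Agent/H21/NX/Swap.lean`: `gdim r d` is replaced by `S.gd`, the homogeneous
forms of degree `d` by all of `E → ℂ` (dimension `Fintype.card E`), `M` by the dominating type `b`
(`hb` is used where the original uses `m a ≤ M`), `gl_lemma` by the hypothesis `hS : S.Span`
(a proper subspace is contained in the kernel of a functional `φ ≠ 0`), `gen_fix` by `Gn.fix`.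
-/

namespace Pool.Agent.H51.TB

open Finset MvPolynomial

/-- The index of the point used at `a`: `y a` if `a ∈ A`, else `x a`. -/
private def SwX.zt {κ : Type} [DecidableEq κ] (A : Finset κ) (a : κ) : κ ⊕ (κ ⊕ Unit) :=
  if a ∈ A then Sum.inr (Sum.inl a) else Sum.inl a

private theorem SwX.zt_inj {κ : Type} [DecidableEq κ] (A : Finset κ) :
    Function.Injective (SwX.zt A) := by
  intro a b h
  unfold SwX.zt at h
  split_ifs at h with h1 h2 h2
  · exact Sum.inl_injective (Sum.inr_injective h)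
  · exact Sum.inl_injective h

private theorem SwX.zt_ne_ell {κ : Type} [DecidableEq κ] (A : Finset κ) (a : κ) :
    SwX.zt A a ≠ Sum.inr (Sum.inr ()) := by
  unfold SwX.zt
  split_ifs
  · intro h
    cases h
  · intro h
    cases h

private theorem SwX.zt_ne_y {κ : Type} [DecidableEq κ] (A : Finset κ) (a b : κ) (hb : b ∉ A) :
    SwX.zt A a ≠ Sum.inr (Sum.inl b) := by
  unfold SwX.zt
  split_ifs with h1
  · intro h
    have := Sum.inl_injective (Sum.inr_injective h)
    exact hb (this ▸ h1)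
  · intro h
    cases h

private theorem SwX.elim_inj {α β : Type} (f : α → β) (b : β) (hf : Function.Injective f)
    (hb : ∀ a, f a ≠ b) : Function.Injective (Sum.elim f fun _ : Unit => b) := by
  rintro (x | x) (y | y) h
  · exact congrArg Sum.inl (hf h)
  · exact absurd h (hb x)
  · exact absurd h.symm (hb y)
  · rfl

private theorem SwX.comp_elim {α β γ : Type} (p : β → γ) (f : α → β) (b : β) :
    (fun i => p (Sum.elim f (fun _ : Unit => b) i)) =
      Sum.elim (fun i => p (f i)) fun _ : Unit => p b := by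
  funext i
  rcases i with i | i <;> rfl

private theorem SwX.dom {E ν T : Type} [Fintype E] (S : Sys E ν T) {b t : T} (h : S.Dom b t)
    (q : ν → ℂ) (f : E → ℂ)
    (hf : ∀ r : S.R b, ∑ e, eval q (S.co b r e) * f e = 0) (r : S.R t) :
    ∑ e, eval q (S.co t r e) * f e = 0 := by
  have h1 : f ∈ S.V (fun _ : Unit => b) fun _ => q := fun _ r => hf r
  exact h q h1 () r

/-- Pulling back a general statement along points where the other coordinates are fixed. -/
private theorem SwX.gen_fix {ν κ : Type} (G : MvPolynomial ((κ ⊕ (κ ⊕ Unit)) × ν) ℂ)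
    (p₀ : κ ⊕ (κ ⊕ Unit) → ν → ℂ) (h0 : eval (fun x => p₀ x.1 x.2) G ≠ 0)
    (P : (κ → ν → ℂ) → Prop)
    (hP : ∀ y : κ → ν → ℂ,
      eval (fun x : (κ ⊕ (κ ⊕ Unit)) × ν =>
        (Sum.elim (fun a => p₀ (Sum.inl a))
          (Sum.elim y fun _ : Unit => p₀ (Sum.inr (Sum.inr ())))) x.1 x.2) G ≠ 0 → P y) :
    Gn κ ν P := by
  let s : (κ ⊕ (κ ⊕ Unit)) × ν → MvPolynomial (κ × ν) ℂ := fun x =>
    Sum.elim (fun a => C (p₀ (Sum.inl a) x.2))
      (Sum.elim (fun a => X (a, x.2)) fun _ : Unit => C (p₀ (Sum.inr (Sum.inr ())) x.2)) x.1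
  have hea : ∀ (y : κ × ν → ℂ) (F : MvPolynomial ((κ ⊕ (κ ⊕ Unit)) × ν) ℂ),
      eval y (aeval s F) = eval (fun x => eval y (s x)) F := by
    intro y F
    induction F using MvPolynomial.induction_on with
    | C c => simp
    | add p q hp hq => rw [map_add, map_add, map_add, hp, hq]
    | mul_X p i hp => rw [map_mul, map_mul, map_mul, hp, aeval_X, eval_X]
  have hs : ∀ y : κ → ν → ℂ, eval (fun x => y x.1 x.2) (aeval s G) =
      eval (fun x : (κ ⊕ (κ ⊕ Unit)) × ν =>
        (Sum.elim (fun a => p₀ (Sum.inl a))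
          (Sum.elim y fun _ : Unit => p₀ (Sum.inr (Sum.inr ())))) x.1 x.2) G := by
    intro y
    rw [hea]
    refine congrArg (fun f : (κ ⊕ (κ ⊕ Unit)) × ν → ℂ => eval f G) (funext fun x => ?_)
    obtain ⟨x, j⟩ := x
    rcases x with a | a | a <;> simp [s]
  refine ⟨aeval s G, ?_, ?_⟩
  · intro h
    have h1 := hs fun a => p₀ (Sum.inr (Sum.inl a))
    rw [h, map_zero] at h1
    apply h0
    rw [h1]
    refine congrArg (fun f : (κ ⊕ (κ ⊕ Unit)) × ν → ℂ => eval f G) (funext fun x => ?_)
    obtain ⟨x, j⟩ := x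
    rcases x with a | a | a <;> rfl
  · intro y hy
    rw [hs] at hy
    exact hP y hy

variable {E ν T : Type} [Fintype E] (S : Sys E ν T) {κ : Type}

theorem swap (hS : S.Span) [Fintype κ] [DecidableEq κ] (m : κ → T) (t b : T)
    (hb : ∀ i, S.Dom b (m i))
    (hc : S.gd m + S.gd (ad (ad m b) t) = S.gd (ad m t) + S.gd (ad m b)) :
    S.gd m = 0 ∨ S.gd m = S.gd (ad m t) + S.size t := by
  -- the point `ℓ`
  let ℓ : κ ⊕ (κ ⊕ Unit) := Sum.inr (Sum.inr ())
  let yy : κ → κ ⊕ (κ ⊕ Unit) := fun a => Sum.inr (Sum.inl a)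
  -- the general conditions
  have c1 : ∀ A ∈ (univ : Finset (Finset κ)), Gn (κ ⊕ (κ ⊕ Unit)) ν fun p =>
      Module.finrank ℂ (S.V m (fun a => p (SwX.zt A a))) = S.gd m := fun A _ =>
    Gn.comap (SwX.zt A) (SwX.zt_inj A) (gn_gd S m)
  have c2 : Gn (κ ⊕ (κ ⊕ Unit)) ν fun p =>
      Module.finrank ℂ (S.V (fun _ : Unit => t) (fun _ : Unit => p ℓ)) =
        S.gd fun _ : Unit => t :=
    Gn.comap (fun _ : Unit => ℓ) (fun _ _ _ => rfl) (gn_gd S fun _ : Unit => t)
  have c3 : ∀ A ∈ (univ : Finset (Finset κ)), Gn (κ ⊕ (κ ⊕ Unit)) ν fun p =>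
      Module.finrank ℂ (S.V (Sum.elim m fun _ : Unit => t)
        (Sum.elim (fun a => p (SwX.zt A a)) fun _ : Unit => p ℓ)) = S.gd (ad m t) := by
    intro A _
    have h := Gn.comap (Sum.elim (SwX.zt A) fun _ : Unit => ℓ)
      (SwX.elim_inj _ _ (SwX.zt_inj A) (SwX.zt_ne_ell A)) (gn_gd S (ad m t))
    refine h.mono fun p hp => ?_
    rwa [SwX.comp_elim] at hp
  have c4 : ∀ A ∈ (univ : Finset (Finset κ)), Gn (κ ⊕ (κ ⊕ Unit)) ν fun p =>
      ∀ a ∈ (univ : Finset κ), a ∉ A → Module.finrank ℂ (S.V (Sum.elim m fun _ : Unit => b)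
        (Sum.elim (fun a => p (SwX.zt A a)) fun _ : Unit => p (yy a))) = S.gd (ad m b) := by
    intro A _
    refine Gn.all _ fun a _ => ?_
    by_cases ha : a ∈ A
    · refine (c2).mono fun p _ h => absurd ha h
    · have h := Gn.comap (Sum.elim (SwX.zt A) fun _ : Unit => yy a)
        (SwX.elim_inj _ _ (SwX.zt_inj A) fun b => SwX.zt_ne_y A b a ha)
        (gn_gd S (ad m b))
      refine h.mono fun p hp _ => ?_
      rwa [SwX.comp_elim] at hp
  have c5 : ∀ A ∈ (univ : Finset (Finset κ)), Gn (κ ⊕ (κ ⊕ Unit)) ν fun p =>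
      ∀ a ∈ (univ : Finset κ), a ∉ A → Module.finrank ℂ (S.V
        (Sum.elim (Sum.elim m fun _ : Unit => b) fun _ : Unit => t)
        (Sum.elim (Sum.elim (fun a => p (SwX.zt A a)) fun _ : Unit => p (yy a))
          fun _ : Unit => p ℓ)) = S.gd (ad (ad m b) t) := by
    intro A _
    refine Gn.all _ fun a _ => ?_
    by_cases ha : a ∈ A
    · refine (c2).mono fun p _ h => absurd ha h
    · have h := Gn.comap (Sum.elim (Sum.elim (SwX.zt A) fun _ : Unit => yy a) fun _ : Unit => ℓ)
        (SwX.elim_inj _ _ (SwX.elim_inj _ _ (SwX.zt_inj A) fun b => SwX.zt_ne_y A b a ha) (by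
          rintro (b | b)
          · exact SwX.zt_ne_ell A b
          · intro h
            exact absurd (Sum.inr_injective h) Sum.inl_ne_inr))
        (gn_gd S (ad (ad m b) t))
      refine h.mono fun p hp _ => ?_
      rwa [SwX.comp_elim, SwX.comp_elim] at hp
  have hall := ((Gn.all _ c1).and c2).and (((Gn.all _ c3).and (Gn.all _ c4)).and
    (Gn.all _ c5))
  -- the key inclusion for general points
  have hkey : Gn (κ ⊕ (κ ⊕ Unit)) ν fun p =>
      Module.finrank ℂ (S.V m (fun a => p (Sum.inl a)) ⊔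
        S.V (fun _ : Unit => t) (fun _ : Unit => p ℓ) : Submodule ℂ (E → ℂ)) +
          S.gd (ad m t) = S.gd m + S.gd (fun _ : Unit => t) ∧
      S.V m (fun a => p (yy a)) ≤ S.V m (fun a => p (Sum.inl a)) ⊔
        S.V (fun _ : Unit => t) (fun _ : Unit => p ℓ) := by
    refine hall.mono ?_
    rintro p ⟨⟨h1, h2⟩, ⟨h3, h4⟩, h5⟩
    let XT : Finset κ → Submodule ℂ (E → ℂ) := fun A =>
      S.V m (fun a => p (SwX.zt A a)) ⊔ S.V (fun _ : Unit => t) (fun _ : Unit => p ℓ)
    have hX : ∀ A, Module.finrank ℂ (XT A) + S.gd (ad m t) =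
        S.gd m + S.gd (fun _ : Unit => t) := by
      intro A
      have h := finrank_V_sup S m (fun _ : Unit => t) (fun a => p (SwX.zt A a))
        (fun _ : Unit => p ℓ)
      rw [h1 A (mem_univ _), h2, h3 A (mem_univ _)] at h
      exact h
    have hstep : ∀ (A : Finset κ) (a : κ), a ∉ A → XT A = XT (insert a A) := by
      intro A a ha
      let U : Submodule ℂ (E → ℂ) :=
        S.V (Sum.elim m fun _ : Unit => b)
          (Sum.elim (fun a => p (SwX.zt A a)) fun _ : Unit => p (yy a)) ⊔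
          S.V (fun _ : Unit => t) (fun _ : Unit => p ℓ)
      have hW : Module.finrank ℂ U + S.gd (ad (ad m b) t) =
          S.gd (ad m b) + S.gd (fun _ : Unit => t) := by
        have h := finrank_V_sup S (Sum.elim m fun _ : Unit => b) (fun _ : Unit => t)
          (Sum.elim (fun a => p (SwX.zt A a)) fun _ : Unit => p (yy a)) (fun _ : Unit => p ℓ)
        rw [h4 A (mem_univ _) a (mem_univ _) ha, h2, h5 A (mem_univ _) a (mem_univ _) ha] at h
        exact h
      have hW1 : U ≤ XT A := by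
        refine sup_le_sup_right ?_ _
        rw [V_elim]
        exact inf_le_left
      have hW2 : U ≤ XT (insert a A) := by
        refine sup_le_sup_right ?_ _
        intro w hw
        rw [S.mem_V] at hw ⊢
        intro c
        by_cases hc : c = a
        · subst hc
          have h6 := hw (Sum.inr ())
          have h7 : SwX.zt (insert c A) c = yy c := by
            unfold SwX.zt
            rw [if_pos (mem_insert_self c A)]
          rw [h7]
          exact SwX.dom S (hb c) _ w h6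
        · have h6 := hw (Sum.inl c)
          have h7 : SwX.zt (insert a A) c = SwX.zt A c := by
            unfold SwX.zt
            by_cases hbT : c ∈ A
            · rw [if_pos hbT, if_pos (mem_insert_of_mem hbT)]
            · rw [if_neg hbT, if_neg]
              intro h
              rcases mem_insert.1 h with h | h
              · exact hc h
              · exact hbT h
          rw [h7]
          exact h6
      have e1 : U = XT A := by
        refine Submodule.eq_of_le_of_finrank_eq hW1 ?_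
        have := hX A
        omega
      have e2 : U = XT (insert a A) := by
        refine Submodule.eq_of_le_of_finrank_eq hW2 ?_
        have := hX (insert a A)
        omega
      rw [← e1, e2]
    have hind : ∀ A : Finset κ, XT A = XT ∅ := by
      intro A
      induction A using Finset.induction_on with
      | empty => rfl
      | insert a A ha ih => rw [← hstep A a ha, ih]
    have z0 : (fun a => p (SwX.zt (∅ : Finset κ) a)) = fun a => p (Sum.inl a) := by
      funext a
      unfold SwX.zt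
      rw [if_neg (Finset.notMem_empty a)]
    have z1 : (fun a => p (SwX.zt (univ : Finset κ) a)) = fun a => p (yy a) := by
      funext a
      unfold SwX.zt
      rw [if_pos (mem_univ a)]
    constructor
    · have e : XT ∅ = S.V m (fun a => p (Sum.inl a)) ⊔
          S.V (fun _ : Unit => t) (fun _ : Unit => p ℓ) := by
        simp only [XT]
        rw [z0]
      have h := hX ∅
      rw [e] at h
      exact h
    · have h := hind univ
      simp only [XT] at h
      rw [z0, z1] at h
      rw [← h]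
      exact le_sup_left
  obtain ⟨G, hG0, hG⟩ := hkey
  obtain ⟨v, hv⟩ : ∃ a, eval a G ≠ 0 := by
    by_contra hcon
    push Not at hcon
    exact hG0 (MvPolynomial.funext fun a => by rw [hcon a, map_zero])
  let p₀ : κ ⊕ (κ ⊕ Unit) → ν → ℂ := fun i j => v (i, j)
  have hp₀ : eval (fun x => p₀ x.1 x.2) G ≠ 0 := hv
  let X : Submodule ℂ (E → ℂ) :=
    S.V m (fun a => p₀ (Sum.inl a)) ⊔ S.V (fun _ : Unit => t) (fun _ : Unit => p₀ ℓ)
  by_cases hX : X = ⊤
  · right
    have h1 := (hG p₀ hp₀).1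
    change Module.finrank ℂ X + _ = _ at h1
    rw [hX, finrank_top, Module.finrank_fintype_fun_eq_card] at h1
    have h2 := gd_unit S t
    omega
  · left
    obtain ⟨φ, hφ0, hφ⟩ := Submodule.exists_le_ker_of_lt_top X (lt_top_iff_ne_top.mpr hX)
    refine hS κ m φ hφ0 ?_
    refine SwX.gen_fix G p₀ hp₀ _ fun y hy => ?_
    exact ((hG (Sum.elim (fun a => p₀ (Sum.inl a))
      (Sum.elim y fun _ : Unit => p₀ (Sum.inr (Sum.inr ())))) hy).2).trans hφ

end Pool.Agent.H51.TB

end

section

/-!
# Module A5 (TB): the window lemma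

Proof (as in `Pool/Agent/H21/NX/Chain.lean`).  Let `A_j = m + j b` (`j` further points of type `b`;
e.g. `Sum.elim m fun _ : Fin j => b`), `g_j = gd A_j`, `G_j = gd (A_j, t)`, `c_j = g_j - G_j`.
`g_{j+1} ≥ g_j - size b` (`gd_le_ad`), so `g_j ≥ gd m - j * size b > 0` for `j ≤ size t - 1`.
Suppose `c_0 ≠ size t`, so `c_0 < size t` (`gd_le_ad`) and `size t ≥ 1`.  By `gd_submod`
`c_{j+1} ≤ c_j`, and if equality holds and `g_j ≠ 0` then `c_j = size t` by `swap` (all types of
`A_j` are dominated by `b`), impossible since `c_j ≤ c_0 < size t`.  Hence `c_{j+1} < c_j` for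
`j < size t - 1`, so `c_{size t - 1} = 0`, and `gd_simple` gives `g_{size t - 1} = 0`, a contradiction.
(The order in which points are added does not matter: `gd_comp_equiv`.)
-/

namespace Pool.Agent.H51.TB

open Finset MvPolynomial

/-- An equivalence of index types. -/
private noncomputable def WinX.eqv (κ : Type) (j : ℕ) : (κ ⊕ Fin j) ⊕ Unit ≃ κ ⊕ Fin (j + 1) :=
  (Equiv.sumAssoc κ (Fin j) Unit).trans
    (Equiv.sumCongr (Equiv.refl κ) (Fintype.equivOfCardEq (by simp)))

private theorem WinX.g_succ {E ν T : Type} [Fintype E] (S : Sys E ν T) {κ : Type} (m : κ → T)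
    (b : T) (j : ℕ) :
    S.gd (ad (Sum.elim m fun _ : Fin j => b) b) = S.gd (Sum.elim m fun _ : Fin (j + 1) => b) := by
  rw [← gd_comp_equiv S (WinX.eqv κ j)]
  congr 1
  funext i
  rcases i with (i | i) | i <;> rfl

private theorem WinX.G_succ {E ν T : Type} [Fintype E] (S : Sys E ν T) {κ : Type} (m : κ → T)
    (t b : T) (j : ℕ) :
    S.gd (ad (ad (Sum.elim m fun _ : Fin j => b) b) t) =
      S.gd (ad (Sum.elim m fun _ : Fin (j + 1) => b) t) := by
  rw [← gd_comp_equiv S (Equiv.sumCongr (WinX.eqv κ j) (Equiv.refl Unit))]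
  congr 1
  funext i
  rcases i with ((i | i) | i) | i <;> rfl

private theorem WinX.g_zero {E ν T : Type} [Fintype E] (S : Sys E ν T) {κ : Type} (m : κ → T)
    (b : T) : S.gd (Sum.elim m fun _ : Fin 0 => b) = S.gd m := by
  rw [← gd_comp_equiv S (Equiv.sumEmpty κ (Fin 0))]
  congr 1
  funext i
  rcases i with i | i
  · rfl
  · exact i.elim0

private theorem WinX.G_zero {E ν T : Type} [Fintype E] (S : Sys E ν T) {κ : Type} (m : κ → T)
    (t b : T) : S.gd (ad (Sum.elim m fun _ : Fin 0 => b) t) = S.gd (ad m t) := by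
  rw [← gd_comp_equiv S (Equiv.sumCongr (Equiv.sumEmpty κ (Fin 0)) (Equiv.refl Unit))]
  congr 1
  funext i
  rcases i with (i | i) | i
  · rfl
  · exact i.elim0
  · rfl

variable {E ν T : Type} [Fintype E] (S : Sys E ν T) {κ : Type}

theorem window (hS : S.Span) [Fintype κ] (m : κ → T) (t b : T) (hb : ∀ i, S.Dom b (m i))
    (h : (S.size t - 1) * S.size b < S.gd m) : S.gd m = S.gd (ad m t) + S.size t := by
  classical
  set g : ℕ → ℕ := fun j => S.gd (Sum.elim m fun _ : Fin j => b) with hg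
  set G : ℕ → ℕ := fun j => S.gd (ad (Sum.elim m fun _ : Fin j => b) t) with hG
  have h1 : ∀ j, G j ≤ g j := fun j => gd_ad_le S _ t
  have h2 : ∀ j, g j ≤ G j + S.size t := fun j => gd_le_ad S (Sum.elim m fun _ : Fin j => b) t
  have h3 : ∀ j, g j ≤ g (j + 1) + S.size b := fun j => by
    have := gd_le_ad S (Sum.elim m fun _ : Fin j => b) b
    rw [WinX.g_succ] at this
    exact this
  have h4 : ∀ j, G j + g (j + 1) ≤ g j + G (j + 1) := fun j => by
    have := gd_submod S (Sum.elim m fun _ : Fin j => b) b t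
    rw [WinX.g_succ, WinX.G_succ] at this
    change g (j + 1) + G j ≤ g j + G (j + 1) at this
    omega
  have h5 : ∀ j, g j ≠ 0 → G j + g (j + 1) = g j + G (j + 1) → g j = G j + S.size t := by
    intro j hj he
    have hmj : ∀ a, S.Dom b ((Sum.elim m fun _ : Fin j => b) a) := by
      rintro (a | a)
      · exact hb a
      · exact fun q => le_rfl
    rcases swap S hS (Sum.elim m fun _ : Fin j => b) t b hmj (by
      rw [WinX.g_succ, WinX.G_succ]
      change g j + G (j + 1) = G j + g (j + 1)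
      exact he.symm) with h | h
    · exact absurd h hj
    · exact h
  have hg0 : g 0 = S.gd m := WinX.g_zero S m b
  have hG0 : G 0 = S.gd (ad m t) := WinX.G_zero S m t b
  have hlow : ∀ j, g 0 ≤ g j + j * S.size b := by
    intro j
    induction j with
    | zero => simp
    | succ j ih =>
      have := h3 j
      have e : (j + 1) * S.size b = j * S.size b + S.size b := by ring
      omega
  have hne : ∀ j, j ≤ S.size t - 1 → g j ≠ 0 := by
    intro j hj h0
    have i1 := hlow j
    have i2 : j * S.size b ≤ (S.size t - 1) * S.size b := Nat.mul_le_mul_right _ hj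
    omega
  rw [← hg0, ← hG0]
  by_contra hcon
  have a1 := h1 0
  have a2 := h2 0
  have hpos : 1 ≤ S.size t := by omega
  have key : ∀ j, j ≤ S.size t - 1 → g j - G j + j ≤ S.size t - 1 := by
    intro j
    induction j with
    | zero => intro _; omega
    | succ j ih =>
      intro hj
      have i1 := ih (by omega)
      have i2 := h4 j
      have i3 := h1 j
      have i4 := h1 (j + 1)
      have i5 : g j ≠ 0 := hne j (by omega)
      have i6 : G j + g (j + 1) ≠ g j + G (j + 1) := fun he => by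
        have := h5 j i5 he
        omega
      omega
  have k1 := key _ le_rfl
  have k2 := h1 (S.size t - 1)
  have k3 : G (S.size t - 1) = g (S.size t - 1) := by omega
  exact hne _ le_rfl (gd_simple S hS _ t hpos k3)

end Pool.Agent.H51.TB

end

section

/-!
# Module A6 (TB): families of points

`S.gf m A` is the general dimension for the points of the finite set `A` of a family `m`.
-/

namespace Pool.Agent.H51.TB

open Finset MvPolynomial

variable {E ν T : Type} [Fintype E] (S : Sys E ν T) {κ : Type}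

/-- The general dimension for the points of `A`. -/
noncomputable def Sys.gf (m : κ → T) (A : Finset κ) : ℕ := S.gd fun i : {x // x ∈ A} => m i.1

theorem gf_univ [Fintype κ] (m : κ → T) : S.gf m univ = S.gd m :=
  gd_comp_equiv S (Equiv.subtypeUnivEquiv fun x : κ => mem_univ x) m

theorem gf_singleton (m : κ → T) (i : κ) : S.gf m {i} + S.size (m i) = Fintype.card E := by
  have h : S.gf m {i} = S.gd fun _ : Unit => m i := by
    let e : Unit ≃ {x : κ // x ∈ ({i} : Finset κ)} :=
      { toFun := fun _ => ⟨i, mem_singleton_self i⟩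
        invFun := fun _ => ()
        left_inv := fun _ => rfl
        right_inv := fun x => Subtype.ext (mem_singleton.1 x.2).symm }
    exact (gd_comp_equiv S e fun x => m x.1).symm
  rw [h]
  exact gd_unit S (m i)

theorem gf_insert [DecidableEq κ] (m : κ → T) (A : Finset κ) (i : κ) (hi : i ∉ A) :
    S.gf m (insert i A) = S.gd (ad (fun i : {x // x ∈ A} => m i.1) (m i)) := by
  let g : {x // x ∈ A} ⊕ Unit → {x // x ∈ insert i A} :=
    Sum.elim (fun x => ⟨x.1, mem_insert_of_mem x.2⟩) fun _ => ⟨i, mem_insert_self i A⟩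
  have hg : Function.Bijective g := by
    constructor
    · rintro (x | x) (y | y) h
      · have h1 : x.1 = y.1 := congrArg (fun z : {x // x ∈ insert i A} => z.1) h
        exact congrArg Sum.inl (Subtype.ext h1)
      · have h1 : x.1 = i := congrArg (fun z : {x // x ∈ insert i A} => z.1) h
        exact absurd (h1 ▸ x.2) hi
      · have h1 : i = y.1 := congrArg (fun z : {x // x ∈ insert i A} => z.1) h
        exact absurd (h1 ▸ y.2) hi
      · rfl
    · rintro ⟨x, hx⟩
      rcases mem_insert.1 hx with h | h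
      · exact ⟨Sum.inr (), Subtype.ext h.symm⟩
      · exact ⟨Sum.inl ⟨x, h⟩, rfl⟩
  have h1 := gd_comp_equiv S (Equiv.ofBijective g hg) fun x => m x.1
  have h2 : (fun j => m ((Equiv.ofBijective g hg) j).1) =
      ad (fun i : {x // x ∈ A} => m i.1) (m i) := by
    funext j
    rcases j with x | x
    · rfl
    · rfl
  rw [h2] at h1
  exact h1.symm

/-- A phase: the points of `B` are added one after the other (induction on `B`, `window`).  If the
dimension is larger than `W` then the next point imposes `size` conditions; the dimension never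
increases. -/
theorem gf_phase (hS : S.Span) [DecidableEq κ] (m : κ → T) (b : T) (hb : ∀ i, S.Dom b (m i))
    (W : ℕ) (A B : Finset κ) (hAB : Disjoint A B)
    (hW : ∀ i ∈ B, (S.size (m i) - 1) * S.size b ≤ W) :
    S.gf m (A ∪ B) ≤ max (S.gf m A - ∑ i ∈ B, S.size (m i)) W := by
  induction B using Finset.induction_on with
  | empty =>
    rw [union_empty, sum_empty]
    exact le_max_left _ _
  | insert i B hi ih =>
    have hAB' : Disjoint A B := hAB.mono_right (subset_insert i B)
    have ih' := ih hAB' fun j hj => hW j (mem_insert_of_mem hj)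
    have hiA : i ∉ A := fun h => (Finset.disjoint_left.1 hAB) h (mem_insert_self i B)
    have hiU : i ∉ A ∪ B := by
      rw [mem_union]
      rintro (h | h)
      · exact hiA h
      · exact hi h
    have e : A ∪ insert i B = insert i (A ∪ B) := union_insert i A B
    rw [e, gf_insert S m (A ∪ B) i hiU, sum_insert hi]
    have hW' := hW i (mem_insert_self i B)
    rcases lt_or_ge W (S.gf m (A ∪ B)) with h | h
    · have h1 : S.gf m (A ∪ B) = S.gd (ad (fun i : {x // x ∈ A ∪ B} => m i.1) (m i)) +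
          S.size (m i) :=
        window S hS (fun i : {x // x ∈ A ∪ B} => m i.1) (m i) b (fun j => hb j.1)
          (lt_of_le_of_lt hW' h)
      have h2 : S.gf m (A ∪ B) ≤ S.gf m A - ∑ i ∈ B, S.size (m i) := by
        rcases le_max_iff.1 ih' with h3 | h3
        · exact h3
        · omega
      refine le_trans ?_ (le_max_left _ _)
      omega
    · refine le_trans ?_ (le_max_right _ _)
      have h1 : S.gd (ad (fun i : {x // x ∈ A ∪ B} => m i.1) (m i)) ≤ S.gf m (A ∪ B) :=
        gd_elim_le S (fun i : {x // x ∈ A ∪ B} => m i.1) fun _ : Unit => m i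
      exact h1.trans h

end Pool.Agent.H51.TB

end

section

/-!
# Module A7 (TB): the level lemma

The points are added in the following order: first `i₀`, then those of class larger than `μ`, then
class `μ`, then class `μ - 1`, …, class `1`, class `0`; one phase (`gf_phase`) for each group.
Let `R t` be the dimension after the classes `≥ t` (and `i₀`) have been added.  Then for
`t ≤ μ`: `R t ≤ max (card E - (mass of i₀ and of the classes ≥ t)) (W t)`, by descending induction,
since `R t ≤ max (R (t+1) - mass_t) (W t)` and `W (t+1) ≤ mass_t` for `1 ≤ t < μ`, `Wb ≤ mass_μ`; for `t = 1`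
and `t = 0` use `W 1 = 0`, `W 0 = 0`.  At the end `card E - total mass = 0`.
-/

namespace Pool.Agent.H51.TB

open Finset MvPolynomial

variable {E ν T : Type} [Fintype E] (S : Sys E ν T) {κ : Type}

theorem level (hS : S.Span) [Fintype κ] [DecidableEq κ] (m : κ → T) (b : T)
    (hb : ∀ i, S.Dom b (m i)) (i₀ : κ) (cls : κ → ℕ) (μ : ℕ) (hμ : 1 ≤ μ) (W : ℕ → ℕ) (Wb : ℕ)
    (hW0 : W 0 = 0) (hW1 : W 1 = 0)
    (h1 : ∀ i, i ≠ i₀ → cls i ≤ μ → (S.size (m i) - 1) * S.size b ≤ W (cls i))
    (h2 : ∀ i, i ≠ i₀ → μ < cls i → (S.size (m i) - 1) * S.size b ≤ Wb)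
    (h3 : ∀ t, 1 ≤ t → t < μ →
      W (t + 1) ≤ ∑ i ∈ univ.filter (fun i => i ≠ i₀ ∧ cls i = t), S.size (m i))
    (h4 : Wb ≤ ∑ i ∈ univ.filter (fun i => i ≠ i₀ ∧ cls i = μ), S.size (m i))
    (h5 : Fintype.card E ≤ ∑ i, S.size (m i)) : S.gd m = 0 := by
  -- the groups
  let A : ℕ → Finset κ := fun t => univ.filter (fun i => i = i₀ ∨ t ≤ cls i)
  let B : ℕ → Finset κ := fun t => univ.filter (fun i => i ≠ i₀ ∧ cls i = t)
  have hmemA : ∀ t i, i ∈ A t ↔ (i = i₀ ∨ t ≤ cls i) := fun t i => by simp [A]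
  have hmemB : ∀ t i, i ∈ B t ↔ (i ≠ i₀ ∧ cls i = t) := fun t i => by simp [B]
  have hunion : ∀ t, A t = A (t + 1) ∪ B t := by
    intro t
    ext i
    rw [mem_union, hmemA, hmemA, hmemB]
    constructor
    · rintro (h | h)
      · exact Or.inl (Or.inl h)
      · by_cases hi : i = i₀
        · exact Or.inl (Or.inl hi)
        · rcases Nat.lt_or_ge t (cls i) with h' | h'
          · exact Or.inl (Or.inr h')
          · exact Or.inr ⟨hi, le_antisymm h' h⟩
    · rintro ((h | h) | ⟨_, h⟩)
      · exact Or.inl h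
      · exact Or.inr (by omega)
      · exact Or.inr h.ge
  have hdisj : ∀ t, Disjoint (A (t + 1)) (B t) := by
    intro t
    rw [Finset.disjoint_left]
    intro i hi hi'
    rw [hmemA] at hi
    rw [hmemB] at hi'
    rcases hi with h | h
    · exact hi'.1 h
    · omega
  have hmass : ∀ t, ∑ i ∈ A t, S.size (m i) = ∑ i ∈ A (t + 1), S.size (m i) + ∑ i ∈ B t, S.size (m i) := by
    intro t
    rw [hunion t, sum_union (hdisj t)]
  -- a phase
  have hphase : ∀ t, t ≤ μ → S.gf m (A t) ≤ max (S.gf m (A (t + 1)) - ∑ i ∈ B t, S.size (m i)) (W t) := by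
    intro t ht
    rw [hunion t]
    refine gf_phase S hS m b hb (W t) (A (t + 1)) (B t) (hdisj t) ?_
    intro i hi
    obtain ⟨hi1, hi2⟩ := (hmemB t i).1 hi
    have := h1 i hi1 (by omega)
    rwa [hi2] at this
  -- the large classes
  have hbig : S.gf m (A (μ + 1)) ≤ max (Fintype.card E - ∑ i ∈ A (μ + 1), S.size (m i)) Wb := by
    let C : Finset κ := univ.filter (fun i => i ≠ i₀ ∧ μ < cls i)
    have hmemC : ∀ i, i ∈ C ↔ (i ≠ i₀ ∧ μ < cls i) := fun i => by simp [C]
    have hU : A (μ + 1) = {i₀} ∪ C := by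
      ext i
      rw [mem_union, hmemA, hmemC, mem_singleton]
      constructor
      · rintro (h | h)
        · exact Or.inl h
        · by_cases hi : i = i₀
          · exact Or.inl hi
          · exact Or.inr ⟨hi, h⟩
      · rintro (h | ⟨_, h⟩)
        · exact Or.inl h
        · exact Or.inr h
    have hd : Disjoint ({i₀} : Finset κ) C := by
      rw [Finset.disjoint_singleton_left, hmemC]
      exact fun h => h.1 rfl
    have hp := gf_phase S hS m b hb Wb {i₀} C hd (fun i hi => h2 i ((hmemC i).1 hi).1 ((hmemC i).1 hi).2)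
    rw [← hU] at hp
    have hs := gf_singleton S m i₀
    have hm : ∑ i ∈ A (μ + 1), S.size (m i) = S.size (m i₀) + ∑ i ∈ C, S.size (m i) := by
      rw [hU, sum_union hd, sum_singleton]
    rw [hm]
    have h6 : S.gf m {i₀} - ∑ i ∈ C, S.size (m i) = Fintype.card E - (S.size (m i₀) + ∑ i ∈ C, S.size (m i)) := by
      omega
    rwa [h6] at hp
  -- the descending induction
  have hind : ∀ k, k < μ → S.gf m (A (μ - k)) ≤ max (Fintype.card E - ∑ i ∈ A (μ - k), S.size (m i)) (W (μ - k)) := by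
    intro k
    induction k with
    | zero =>
      intro _
      rw [Nat.sub_zero]
      have h7 := hphase μ le_rfl
      have h8 := hmass μ
      have h4' : Wb ≤ ∑ i ∈ B μ, S.size (m i) := h4
      rcases le_max_iff.1 hbig with h | h
      · rcases le_max_iff.1 h7 with h' | h'
        · exact le_max_of_le_left (by omega)
        · exact le_max_of_le_right h'
      · rcases le_max_iff.1 h7 with h' | h'
        · exact le_max_of_le_left (by omega)
        · exact le_max_of_le_right h'
    | succ k ih =>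
      intro hk
      have ih' := ih (by omega)
      have hst : μ - k = (μ - (k + 1)) + 1 := by omega
      have ht1 : 1 ≤ μ - (k + 1) := by omega
      rw [hst] at ih'
      generalize μ - (k + 1) = t at *
      have h7 := hphase t (by omega)
      have h8 := hmass t
      have h9 : W (t + 1) ≤ ∑ i ∈ B t, S.size (m i) := h3 t ht1 (by omega)
      rcases le_max_iff.1 ih' with h | h
      · rcases le_max_iff.1 h7 with h' | h'
        · exact le_max_of_le_left (by omega)
        · exact le_max_of_le_right h'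
      · rcases le_max_iff.1 h7 with h' | h'
        · exact le_max_of_le_left (by omega)
        · exact le_max_of_le_right h'
  have hone := hind (μ - 1) (by omega)
  have hsub : μ - (μ - 1) = 1 := by omega
  rw [hsub, hW1, Nat.max_zero] at hone
  have h7 := hphase 0 (Nat.zero_le _)
  rw [hW0, Nat.max_zero] at h7
  have h8 := hmass 0
  have hA0 : A 0 = univ := by
    ext i
    simp [A]
  rw [hA0] at h7 h8
  rw [gf_univ] at h7
  simp only [Nat.zero_add] at h7 h8
  omega

end Pool.Agent.H51.TB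

end
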