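import Mathlib

/-! The parts of this file: H18.Ex.OnePar, V7.Top.Ext. -/

section

/-!
# Module OnePar: solutions of a linear system depending polynomially on one parameter
-/

namespace Pool.Agent.H18.Ex

open Finset

/-- Division by the largest possible power of `X`. -/
theorem exists_eval_ne {α ρ : Type} (A : Finset α) (Mx : ρ → α → Polynomial ℂ) (a₀ : α)
    (ha₀ : a₀ ∈ A) : ∀ (n : ℕ) (F : α → Polynomial ℂ), (F a₀).natDegree = n → F a₀ ≠ 0 →
      (∀ r, ∑ a ∈ A, F a * Mx r a = 0) →
      ∃ F : α → Polynomial ℂ, (∀ r, ∑ a ∈ A, F a * Mx r a = 0) ∧ ∃ a ∈ A, (F a).eval 0 ≠ 0 := by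
  intro n
  induction n with
  | zero =>
    intro F hd hne hF
    refine ⟨F, hF, a₀, ha₀, ?_⟩
    rw [Polynomial.eq_C_of_natDegree_eq_zero hd] at hne ⊢
    rw [Polynomial.eval_C]
    intro h
    rw [h, Polynomial.C_0] at hne
    exact hne rfl
  | succ n ih =>
    intro F hd hne hF
    by_cases hz : ∃ a ∈ A, (F a).eval 0 ≠ 0
    · exact ⟨F, hF, hz⟩
    · push Not at hz
      have hdiv : ∀ a ∈ A, F a = (F a).divX * Polynomial.X := by
        intro a ha
        have h := hz a ha
        rw [← Polynomial.coeff_zero_eq_eval_zero] at h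
        conv_lhs => rw [← Polynomial.divX_mul_X_add (F a), h, Polynomial.C_0, add_zero]
      refine ih (fun a => (F a).divX) ?_ ?_ ?_
      · show (F a₀).divX.natDegree = n
        rw [Polynomial.natDegree_divX_eq_natDegree_tsub_one, hd]
        omega
      · intro h
        apply hne
        rw [hdiv a₀ ha₀]
        show (F a₀).divX * Polynomial.X = 0
        have h' : (F a₀).divX = 0 := h
        rw [h', zero_mul]
      · intro r
        have h := hF r
        have h2 : (∑ a ∈ A, (F a).divX * Mx r a) * Polynomial.X = 0 := by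
          rw [sum_mul, ← h]
          refine sum_congr rfl fun a ha => ?_
          conv_rhs => rw [hdiv a ha]
          ring
        rcases mul_eq_zero.1 h2 with h3 | h3
        · exact h3
        · exact absurd h3 Polynomial.X_ne_zero

/-- If a linear system with coefficients in `ℂ[t]` has a nonzero solution for every value of `t`,
then it has a polynomial solution which does not vanish at `t = 0`.

Proof.  Let `Frac` be the fraction field of `ℂ[X]`.  Case 1: the matrix `(r, a) ↦ Mx r a`
(`r : ρ`, `a : A`) has trivial kernel over `Frac`.  Then it has a left inverse `B` over `Frac`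
(`LinearMap.exists_leftInverse_of_injective`); clearing denominators gives a matrix `B'` over
`ℂ[X]` and `δ ≠ 0` with `B' * Mx = δ • 1`.  Take `t` with `δ.eval t ≠ 0` (`ℂ` is infinite):
then the system at `t` has only the zero solution, a contradiction.  Case 2: there is a nonzero
solution over `Frac`; clear denominators to get a nonzero solution `F` over `ℂ[X]`
(e.g. `IsLocalization.exist_integer_multiples_of_finset`).  Divide by the largest power of `X`
dividing all `F a`, `a ∈ A` (strong induction on the minimum, or on the sum, of the `natDegree`s of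
the nonzero `F a`: if all `F a`, `a ∈ A`, vanish at `0` replace `F a` by `(F a).divX`). -/
theorem exists_poly_solution {α ρ : Type} [Fintype ρ] (A : Finset α)
    (Mx : ρ → α → Polynomial ℂ)
    (h : ∀ t : ℂ, ∃ f : α → ℂ, (∀ r, ∑ a ∈ A, f a * (Mx r a).eval t = 0) ∧ ∃ a ∈ A, f a ≠ 0) :
    ∃ F : α → Polynomial ℂ, (∀ r, ∑ a ∈ A, F a * Mx r a = 0) ∧ ∃ a ∈ A, (F a).eval 0 ≠ 0 := by
  classical
  let K := FractionRing (Polynomial ℂ)
  let φ : Polynomial ℂ →+* K := algebraMap (Polynomial ℂ) K
  have hφ : Function.Injective φ := IsFractionRing.injective (Polynomial ℂ) K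
  let Mk : Matrix ρ A K := fun r a => φ (Mx r a.1)
  by_cases hker : LinearMap.ker Mk.mulVecLin = ⊥
  · exfalso
    obtain ⟨g, hg⟩ := LinearMap.exists_leftInverse_of_injective Mk.mulVecLin hker
    let B : Matrix A ρ K := LinearMap.toMatrix' g
    have hB : B * Mk = 1 := by
      have h1 : LinearMap.toMatrix' (g ∘ₗ Mk.mulVecLin) = 1 := by
        rw [hg, LinearMap.toMatrix'_id]
      rw [LinearMap.toMatrix'_comp] at h1
      rw [← h1]
      congr 1
      rw [← Matrix.toLin'_apply', LinearMap.toMatrix'_toLin']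
    obtain ⟨δ, hδ⟩ := IsLocalization.exist_integer_multiples_of_finite
      (nonZeroDivisors (Polynomial ℂ)) (fun x : A × ρ => B x.1 x.2)
    choose B' hB' using hδ
    have hδ0 : (δ : Polynomial ℂ) ≠ 0 := nonZeroDivisors.coe_ne_zero δ
    have key : ∀ a a' : A, ∑ r, B' (a, r) * Mx r a'.1 = if a = a' then (δ : Polynomial ℂ) else 0 := by
      intro a a'
      apply hφ
      rw [map_sum]
      have h1 : ∀ r, φ (B' (a, r) * Mx r a'.1) = φ δ * (B a r * Mk r a') := by
        intro r
        rw [map_mul]
        have h2 := hB' (a, r)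
        rw [Algebra.smul_def] at h2
        rw [show φ (B' (a, r)) = φ δ * B a r from h2]
        show φ δ * B a r * φ (Mx r a'.1) = φ δ * (B a r * φ (Mx r a'.1))
        ring
      rw [sum_congr rfl fun r _ => h1 r, ← mul_sum]
      have h3 : ∑ r, B a r * Mk r a' = (B * Mk) a a' := rfl
      rw [h3, hB, Matrix.one_apply]
      split_ifs with hh
      · rw [mul_one]
      · rw [mul_zero, map_zero]
    obtain ⟨t, ht⟩ : ∃ t : ℂ, (δ : Polynomial ℂ).eval t ≠ 0 := by
      by_contra hcon
      push Not at hcon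
      apply hδ0
      exact Polynomial.funext fun t => by rw [hcon t, Polynomial.eval_zero]
    obtain ⟨f, hf, a, ha, hfa⟩ := h t
    apply hfa
    have h4 : (δ : Polynomial ℂ).eval t * f a = 0 := by
      have h5 : ∑ a' : A, (∑ r, (B' (⟨a, ha⟩, r)).eval t * (Mx r a'.1).eval t) * f a'.1 = 0 := by
        simp only [sum_mul]
        rw [sum_comm]
        refine sum_eq_zero fun r _ => ?_
        have h6 := hf r
        rw [← sum_coe_sort A (fun a => f a * (Mx r a).eval t)] at h6
        have h7 : ∑ a' : A, (B' (⟨a, ha⟩, r)).eval t * (Mx r a'.1).eval t * f a'.1 =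
            (B' (⟨a, ha⟩, r)).eval t * ∑ a' : A, f a'.1 * (Mx r a'.1).eval t := by
          rw [mul_sum]
          exact sum_congr rfl fun a' _ => by ring
        rw [h7, h6, mul_zero]
      have h8 : ∀ a' : A, (∑ r, (B' (⟨a, ha⟩, r)).eval t * (Mx r a'.1).eval t) =
          if (⟨a, ha⟩ : A) = a' then (δ : Polynomial ℂ).eval t else 0 := by
        intro a'
        have h9 := congrArg (Polynomial.eval t) (key ⟨a, ha⟩ a')
        rw [Polynomial.eval_finsetSum] at h9
        simp only [Polynomial.eval_mul] at h9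
        rw [h9]
        split_ifs
        · rfl
        · exact Polynomial.eval_zero
      rw [sum_congr rfl fun a' _ => by rw [h8 a']] at h5
      rw [Finset.sum_eq_single (⟨a, ha⟩ : A)] at h5
      · rw [if_pos rfl] at h5
        exact h5
      · intro b _ hb
        rw [if_neg (fun h => hb h.symm), zero_mul]
      · intro hh
        exact absurd (mem_univ _) hh
    rcases mul_eq_zero.1 h4 with h5 | h5
    · exact absurd h5 ht
    · exact h5
  · obtain ⟨v, hv, hv0⟩ := (Submodule.ne_bot_iff _).1 hker
    rw [LinearMap.mem_ker, Matrix.mulVecLin_apply] at hv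
    obtain ⟨a₀, ha₀⟩ : ∃ a, v a ≠ 0 := by
      by_contra hcon
      push Not at hcon
      exact hv0 (funext hcon)
    obtain ⟨δ, hδ⟩ := IsLocalization.exist_integer_multiples_of_finite
      (nonZeroDivisors (Polynomial ℂ)) v
    choose F' hF' using hδ
    have hδ0 : (δ : Polynomial ℂ) ≠ 0 := nonZeroDivisors.coe_ne_zero δ
    let F : α → Polynomial ℂ := fun a => if ha : a ∈ A then F' ⟨a, ha⟩ else 0
    have hFa : ∀ a : A, φ (F a.1) = φ δ * v a := by
      intro a
      have h2 := hF' a
      rw [Algebra.smul_def] at h2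
      show φ (if ha : a.1 ∈ A then F' ⟨a.1, ha⟩ else 0) = φ δ * v a
      rw [dif_pos a.2]
      exact h2
    refine exists_eval_ne A Mx a₀.1 a₀.2 _ F rfl ?_ ?_
    · intro hz
      have h1 := hFa a₀
      rw [hz, map_zero] at h1
      rcases mul_eq_zero.1 h1.symm with h2 | h2
      · apply hδ0
        apply hφ
        rw [h2, map_zero]
      · exact ha₀ h2
    · intro r
      apply hφ
      rw [map_zero, map_sum, ← sum_coe_sort A (fun a => φ (F a * Mx r a))]
      have h1 : ∑ a : A, φ (F a.1 * Mx r a.1) = φ δ * ∑ a : A, Mk r a * v a := by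
        rw [mul_sum]
        refine sum_congr rfl fun a _ => ?_
        rw [map_mul, hFa a]
        show φ δ * v a * φ (Mx r a.1) = φ δ * (φ (Mx r a.1) * v a)
        ring
      rw [h1]
      have h2 : ∑ a : A, Mk r a * v a = Mk.mulVec v r := rfl
      rw [h2, hv]
      show φ δ * 0 = 0
      rw [mul_zero]

end Pool.Agent.H18.Ex

end

section

/-!
# Derivations of the complex numbers

For a countable set `S` of complex numbers and every `k` there are complex numbers `t 0, …, t (k-1)`
and derivations of `ℂ` which vanish on `S` and are dual to them.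
-/

namespace Pool.Agent.V7.Top

open Module

/-- The derivations of `ℂ` which vanish on `S`. -/
noncomputable def Kd (S : Set ℂ) : Submodule ℂ (Derivation ℚ ℂ ℂ) where
  carrier := {D | ∀ x ∈ S, D x = 0}
  add_mem' := by
    intro D D' h h' x hx
    have h1 : D x = 0 := h x hx
    have h2 : D' x = 0 := h' x hx
    simp [h1, h2]
  zero_mem' := by
    intro x _
    rfl
  smul_mem' := by
    intro c D h x hx
    have h1 : D x = 0 := h x hx
    simp [h1]

theorem ext_lift {R A B : Type*} [CommRing R] [CommRing A] [CommRing B] [Algebra R A]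
    [Algebra.FormallySmooth R A] (φ : R →+* B) (π : B →+* A) (hπ : Function.Surjective π)
    (hker : ∀ r s, π r = 0 → π s = 0 → r * s = 0) (hcomp : ∀ r, π (φ r) = algebraMap R A r) :
    ∃ ψ : A →+* B, (∀ r, ψ (algebraMap R A r) = φ r) ∧ ∀ a, π (ψ a) = a := by
  let _ : Algebra R B := φ.toAlgebra
  let g : B →ₐ[R] A := { π with commutes' := fun r => hcomp r }
  have hg' : IsNilpotent (RingHom.ker (g : B →+* A)) := by
    refine ⟨2, ?_⟩
    rw [pow_two, Ideal.zero_eq_bot, eq_bot_iff, Ideal.mul_le]
    intro r hr s hs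
    rw [RingHom.mem_ker] at hr hs
    rw [Ideal.mem_bot]
    exact hker r s hr hs
  let f : A →ₐ[R] B := Algebra.FormallySmooth.liftOfSurjective (AlgHom.id R A) g hπ hg'
  refine ⟨f.toRingHom, fun r => f.commutes r, fun a => ?_⟩
  exact Algebra.FormallySmooth.liftOfSurjective_apply (AlgHom.id R A) g hπ hg' a

/-- The projection of the dual numbers. -/
noncomputable def ext_pi : TrivSqZeroExt ℂ ℂ →+* ℂ := (TrivSqZeroExt.fstHom ℂ ℂ ℂ).toRingHom

theorem ext_ker_nil (r s : TrivSqZeroExt ℂ ℂ) (hr : ext_pi r = 0) (hs : ext_pi s = 0) :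
    r * s = 0 := by
  have hr' : r.fst = 0 := hr
  have hs' : s.fst = 0 := hs
  apply TrivSqZeroExt.ext
  · simp [hr']
  · simp [hr', hs']

/-- A ring homomorphism to the dual numbers over the identity is a derivation. -/
theorem ext_toDer (ψ : ℂ →+* TrivSqZeroExt ℂ ℂ) (h : ∀ a, (ψ a).fst = a) :
    ∃ D : Derivation ℚ ℂ ℂ, ∀ a, D a = (ψ a).snd := by
  let L : ℂ →+ ℂ := { toFun := fun a => (ψ a).snd, map_zero' := by simp, map_add' := by simp }
  refine ⟨Derivation.mk' L.toRatLinearMap ?_, fun a => rfl⟩
  intro a b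
  show (ψ (a * b)).snd = a • (ψ b).snd + b • (ψ a).snd
  rw [map_mul, TrivSqZeroExt.snd_mul, h, h]
  simp [mul_comm]

open scoped IntermediateField.algebraAdjoinAdjoin in
/-- Derivations with arbitrary values on a transcendence basis. -/
theorem exists_der_basis {K : Type*} [Field K] [Algebra K ℂ] [CharZero K] {ι : Type*} {v : ι → ℂ}
    (hv : IsTranscendenceBasis K v) (a : ι → ℂ) :
    ∃ D : Derivation ℚ ℂ ℂ, (∀ x : K, D (algebraMap K ℂ x) = 0) ∧ ∀ i, D (v i) = a i := by
  have h1 : Algebra.FormallySmooth (Algebra.adjoin K (Set.range v))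
      (IntermediateField.adjoin K (Set.range v)) := .of_isLocalization (nonZeroDivisors _)
  have halg : Algebra.IsAlgebraic (IntermediateField.adjoin K (Set.range v)) ℂ :=
    hv.isAlgebraic_field
  have h2 : Algebra.FormallyEtale (IntermediateField.adjoin K (Set.range v)) ℂ :=
    Algebra.FormallyEtale.of_isSeparable _ _
  have h3 : Algebra.FormallySmooth (Algebra.adjoin K (Set.range v)) ℂ :=
    .comp _ (IntermediateField.adjoin K (Set.range v)) _
  let φ₀ : MvPolynomial ι K →ₐ[K] TrivSqZeroExt ℂ ℂ :=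
    MvPolynomial.aeval (fun i => TrivSqZeroExt.inl (v i) + TrivSqZeroExt.inr (a i))
  let φ : Algebra.adjoin K (Set.range v) →+* TrivSqZeroExt ℂ ℂ :=
    (φ₀.comp (hv.1.aevalEquiv.symm : _ →ₐ[K] MvPolynomial ι K)).toRingHom
  have hφ : ∀ p : MvPolynomial ι K, φ (hv.1.aevalEquiv p) = φ₀ p := by
    intro p
    show φ₀ (hv.1.aevalEquiv.symm (hv.1.aevalEquiv p)) = φ₀ p
    rw [AlgEquiv.symm_apply_apply]
  have hcomp : ∀ r, ext_pi (φ r) =
      algebraMap (Algebra.adjoin K (Set.range v)) ℂ r := by
    intro r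
    obtain ⟨p, rfl⟩ := hv.1.aevalEquiv.surjective r
    rw [hφ]
    have h4 : algebraMap (Algebra.adjoin K (Set.range v)) ℂ (hv.1.aevalEquiv p) =
        MvPolynomial.aeval v p := hv.1.algebraMap_aevalEquiv p
    rw [h4]
    have h5 : ((TrivSqZeroExt.fstHom K ℂ ℂ).comp φ₀) = MvPolynomial.aeval v := by
      apply MvPolynomial.algHom_ext
      intro i
      simp [φ₀]
    exact DFunLike.congr_fun h5 p
  obtain ⟨ψ, hψ1, hψ2⟩ := ext_lift φ ext_pi TrivSqZeroExt.fst_surjective ext_ker_nil hcomp
  obtain ⟨D, hD⟩ := ext_toDer ψ hψ2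
  refine ⟨D, ?_, ?_⟩
  · intro x
    rw [hD]
    have h6 : algebraMap K ℂ x = algebraMap (Algebra.adjoin K (Set.range v)) ℂ
        (hv.1.aevalEquiv (MvPolynomial.C x)) := by
      rw [hv.1.algebraMap_aevalEquiv, MvPolynomial.aeval_C]
    rw [h6, hψ1, hφ]
    simp only [φ₀, MvPolynomial.aeval_C]
    rfl
  · intro i
    rw [hD]
    have h6 : v i = algebraMap (Algebra.adjoin K (Set.range v)) ℂ
        (hv.1.aevalEquiv (MvPolynomial.X i)) := by
      rw [hv.1.algebraMap_aevalEquiv, MvPolynomial.aeval_X]
    conv_lhs => rw [h6]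
    rw [hψ1, hφ]
    simp [φ₀]

theorem exists_der (S : Set ℂ) (hS : S.Countable) (k : ℕ) :
    ∃ (t : Fin k → ℂ) (D : Fin k → Derivation ℚ ℂ ℂ), (∀ i, D i ∈ Kd S) ∧
      ∀ i j, D i (t j) = if i = j then 1 else 0 := by
  classical
  let K : Subfield ℂ := Subfield.closure S
  have hK : Cardinal.mk K ≤ Cardinal.aleph0 := by
    refine (Subfield.cardinalMk_closure_le_max S).trans ?_
    simp only [max_le_iff, le_refl, and_true]
    exact hS.le_aleph0
  obtain ⟨ι, v, hv⟩ := exists_isTranscendenceBasis' K ℂ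
  have hinf : Infinite ι := by
    by_contra hfin
    rw [not_infinite_iff_finite] at hfin
    have h1 := IsAlgClosed.cardinal_le_max_transcendence_basis' v hv
    have h2 : Cardinal.mk ι ≤ Cardinal.aleph0 := (Cardinal.lt_aleph0_of_finite ι).le
    have h3 : Cardinal.mk ℂ ≤ Cardinal.aleph0 := by
      refine h1.trans ?_
      simp only [max_le_iff, le_refl, and_true]
      exact ⟨hK, h2⟩
    rw [Cardinal.mk_complex] at h3
    exact absurd h3 (not_le.2 Cardinal.aleph0_lt_continuum)
  let e : Fin k ↪ ι := (Fin.valEmbedding).trans (Infinite.natEmbedding ι)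
  choose D hD1 hD2 using fun i : Fin k => exists_der_basis hv (Pi.single (e i) 1)
  refine ⟨fun j => v (e j), D, ?_, ?_⟩
  · intro i x hx
    exact hD1 i ⟨x, Subfield.subset_closure hx⟩
  · intro i j
    rw [hD2, Pi.single_apply]
    by_cases h : i = j
    · simp [h]
    · rw [if_neg h, if_neg]
      intro h'
      exact h (e.injective h').symm

end Pool.Agent.V7.Top

end
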