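import Pool.Agent.H94.LP5.M01
import Pool.Agent.H94.LP5.M03

/-! The parts of this file: H54.V7.DH, H54.V7.Lim, V7.Defs. -/

section

/-!
# Taylor coefficients at a moving point; the differential lemma for a subspace of any codimension

`tcr q a b` is the `b`-th Taylor (Hasse) coefficient of the monomial `x^a` at the point `q`.
-/

namespace Pool.Agent.H54.V7

open Finset Pool.Agent.H18.Ex

/-! ### Composition of Taylor expansions -/

theorem choose_comp {R : Type*} [CommRing R] (q r : R) (m b N : ℕ) (hN : m < N) :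
    ((m.choose b : ℕ) : R) * (q + r) ^ (m - b) =
      ∑ e ∈ range N, (((m.choose e : ℕ) : R) * q ^ (m - e)) *
        (((e.choose b : ℕ) : R) * r ^ (e - b)) := by
  by_cases hb : b ≤ m
  · obtain ⟨k, rfl⟩ := Nat.exists_eq_add_of_le hb
    have h1 : ∑ e ∈ range N, ((((b + k).choose e : ℕ) : R) * q ^ (b + k - e)) *
        (((e.choose b : ℕ) : R) * r ^ (e - b)) =
        ∑ e ∈ Ico b (b + k + 1), ((((b + k).choose e : ℕ) : R) * q ^ (b + k - e)) *
        (((e.choose b : ℕ) : R) * r ^ (e - b)) := by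
      symm
      refine sum_subset ?_ ?_
      · intro e he
        rw [mem_Ico] at he
        rw [mem_range]
        omega
      · intro e _ he
        rw [mem_Ico] at he
        by_cases h : e < b
        · rw [Nat.choose_eq_zero_of_lt h, Nat.cast_zero, zero_mul, mul_zero]
        · rw [Nat.choose_eq_zero_of_lt (show b + k < e by omega), Nat.cast_zero, zero_mul, zero_mul]
    rw [h1, sum_Ico_eq_sum_range]
    have h2 : b + k + 1 - b = k + 1 := by omega
    have h3 : b + k - b = k := by omega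
    rw [h2, h3, add_comm q r, add_pow, mul_sum]
    refine sum_congr rfl fun s hs => ?_
    rw [mem_range] at hs
    have h4 : b + s - b = s := by omega
    have h5 : b + k - (b + s) = k - s := by omega
    have h6 : (b + k).choose (b + s) * (b + s).choose b = (b + k).choose b * k.choose s := by
      rw [Nat.choose_mul (show b ≤ b + s by omega), h3, h4]
    rw [h4, h5]
    have h7 : (((b + k).choose (b + s) : ℕ) : R) * (((b + s).choose b : ℕ) : R) =
        (((b + k).choose b : ℕ) : R) * ((k.choose s : ℕ) : R) := by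
      rw [← Nat.cast_mul, h6, Nat.cast_mul]
    calc (((b + k).choose b : ℕ) : R) * (r ^ s * q ^ (k - s) * ((k.choose s : ℕ) : R)) =
        ((((b + k).choose b : ℕ) : R) * ((k.choose s : ℕ) : R)) * (q ^ (k - s) * r ^ s) := by ring
      _ = ((((b + k).choose (b + s) : ℕ) : R) * (((b + s).choose b : ℕ) : R)) *
          (q ^ (k - s) * r ^ s) := by rw [h7]
      _ = _ := by ring
  · rw [Nat.choose_eq_zero_of_lt (show m < b by omega), Nat.cast_zero, zero_mul]
    symm
    refine sum_eq_zero fun e _ => ?_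
    by_cases h : e < b
    · rw [Nat.choose_eq_zero_of_lt h, Nat.cast_zero, zero_mul, mul_zero]
    · rw [Nat.choose_eq_zero_of_lt (show m < e by omega), Nat.cast_zero, zero_mul, zero_mul]

section

set_option linter.unusedSectionVars false

variable {ι : Type} [Fintype ι] [DecidableEq ι]

/-- The box of exponents below `N`. -/
def bx (ι : Type) [Fintype ι] [DecidableEq ι] (N : ℕ) : Finset (ι → ℕ) :=
  Fintype.piFinset fun _ => range N

theorem mem_bx {N : ℕ} {e : ι → ℕ} : e ∈ bx ι N ↔ ∀ i, e i < N := by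
  unfold bx
  rw [Fintype.mem_piFinset]
  simp only [mem_range]

/-- Taylor expansion in two steps. -/
theorem tcr_add {R : Type*} [CommRing R] (q r : ι → R) (m b : ι → ℕ) (N : ℕ)
    (hN : ∀ i, m i < N) :
    tcr (fun i => q i + r i) m b = ∑ e ∈ bx ι N, tcr q m e * tcr r e b := by
  unfold tcr bx
  have h1 : ∀ i ∈ (univ : Finset ι), (((m i).choose (b i) : ℕ) : R) * (q i + r i) ^ (m i - b i) =
      ∑ e ∈ range N, ((((m i).choose e : ℕ) : R) * q i ^ (m i - e)) *
        (((e.choose (b i) : ℕ) : R) * r i ^ (e - b i)) :=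
    fun i _ => choose_comp (q i) (r i) (m i) (b i) N (hN i)
  rw [prod_congr rfl h1, prod_univ_sum]
  refine sum_congr rfl fun e _ => ?_
  rw [prod_mul_distrib]

/-- A Taylor coefficient at a multiple of a point. -/
theorem tcr_smul {R : Type*} [CommRing R] (s : R) (r : ι → R) (e b : ι → ℕ) (h : ∀ i, b i ≤ e i) :
    tcr (fun i => s * r i) e b = s ^ (∑ i, e i - ∑ i, b i) * tcr r e b := by
  unfold tcr
  have h1 : ∑ i, e i - ∑ i, b i = ∑ i, (e i - b i) := by
    have h2 : ∑ i, (e i - b i) + ∑ i, b i = ∑ i, e i := by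
      rw [← sum_add_distrib]
      exact sum_congr rfl fun i _ => by have := h i; omega
    omega
  rw [h1, ← prod_pow_eq_pow_sum, ← prod_mul_distrib]
  refine prod_congr rfl fun i _ => ?_
  rw [mul_pow]
  ring

theorem tcr_eq_zero {R : Type*} [CommRing R] (r : ι → R) (e b : ι → ℕ) (h : ¬ ∀ i, b i ≤ e i) :
    tcr r e b = 0 := by
  push Not at h
  obtain ⟨i, hi⟩ := h
  unfold tcr
  refine prod_eq_zero (mem_univ i) ?_
  rw [Nat.choose_eq_zero_of_lt hi, Nat.cast_zero, zero_mul]

theorem tcr_self {R : Type*} [CommRing R] (r : ι → R) (e b : ι → ℕ) (h : ∀ i, b i ≤ e i)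
    (h2 : ∑ i, e i ≤ ∑ i, b i) : tcr r e b = if e = b then 1 else 0 := by
  have h3 : e = b := by
    have h4 : ∑ i, b i ≤ ∑ i, e i := sum_le_sum fun i _ => h i
    have h5 : ∀ i ∈ (univ : Finset ι), b i = e i :=
      (sum_eq_sum_iff_of_le fun i _ => h i).1 (le_antisymm h4 h2)
    exact funext fun i => (h5 i (mem_univ i)).symm
  rw [if_pos h3, h3]
  unfold tcr
  refine prod_eq_one fun i _ => ?_
  rw [Nat.choose_self, Nat.cast_one, Nat.sub_self, pow_zero, one_mul]

/-! ### A form depending on `t` which vanishes to order `M` at the moving point `p + t v` -/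

open Polynomial

variable {K : Type*} [CommRing K] {E : Type*}

/-- The moving point `p + t v`. -/
noncomputable def mv (p v : ι → K) : ι → K[X] := fun i => C (p i) + X * C (v i)

/-- The Taylor coefficients of the form `F_t` at the moving point. -/
noncomputable def mH (A : Finset E) (ex : E → ι → ℕ) (F : E → K[X]) (p v : ι → K) (b : ι → ℕ) : K[X] :=
  ∑ m ∈ A, F m * tcr (mv p v) (ex m) b

/-- The Taylor coefficients of the form `F_t` at the fixed point `p`. -/
noncomputable def mG (A : Finset E) (ex : E → ι → ℕ) (F : E → K[X]) (p : ι → K) (b : ι → ℕ) : K[X] :=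
  ∑ m ∈ A, F m * tcr (fun i => C (p i)) (ex m) b

theorem mG_eq (A : Finset E) (ex : E → ι → ℕ) (F : E → K[X]) (p v : ι → K) (a : ι → ℕ) (N : ℕ)
    (hN : ∀ m ∈ A, ∀ i, ex m i < N) :
    mG A ex F p a = ∑ b ∈ bx ι N, mH A ex F p v b * tcr (fun i => (-X) * C (v i)) b a := by
  unfold mG mH
  simp only [sum_mul]
  rw [sum_comm]
  refine sum_congr rfl fun m hm => ?_
  have h1 : tcr (fun i => C (p i)) (ex m) a =
      tcr (fun i => mv p v i + (-X) * C (v i)) (ex m) a := by
    congr 1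
    funext i
    unfold mv
    ring
  rw [h1, tcr_add _ _ (ex m) a N (hN m hm), mul_sum]
  refine sum_congr rfl fun b _ => ?_
  ring

theorem tcr_C (v : ι → K) (b a : ι → ℕ) : tcr (fun i => C (v i)) b a = C (tcr v b a) := by
  unfold tcr
  rw [map_prod]
  refine prod_congr rfl fun i _ => ?_
  rw [map_mul, map_pow, map_natCast]

theorem eval_tcr_mv (p v : ι → K) (m b : ι → ℕ) : (tcr (mv p v) m b).eval 0 = tcr p m b := by
  unfold tcr mv
  rw [eval_prod]
  refine prod_congr rfl fun i _ => ?_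
  simp

theorem eval_mH (A : Finset E) (ex : E → ι → ℕ) (F : E → K[X]) (p v : ι → K) (b : ι → ℕ) :
    (mH A ex F p v b).eval 0 = ∑ m ∈ A, (F m).eval 0 * tcr p (ex m) b := by
  unfold mH
  rw [eval_finsetSum]
  refine sum_congr rfl fun m _ => ?_
  rw [eval_mul, eval_tcr_mv]

/-- The exponents of total degree `M` in the box. -/
def bxd (ι : Type) [Fintype ι] [DecidableEq ι] (N M : ℕ) : Finset (ι → ℕ) :=
  (bx ι N).filter fun e => ∑ i, e i = M

/-- If `F_t` vanishes to order `M` at `p + t v`, then its `a`-th Taylor coefficient at `p` is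
`(-t)^(M - |a|)` times (the derivative of order `M - |a|` of it in the direction `v` plus a multiple
of `t`). -/
theorem mG_expand (A : Finset E) (ex : E → ι → ℕ) (F : E → K[X]) (p v : ι → K) (a : ι → ℕ) (N M : ℕ)
    (hN : ∀ m ∈ A, ∀ i, ex m i < N) (hF : ∀ b : ι → ℕ, ∑ i, b i < M → mH A ex F p v b = 0)
    (ha : ∑ i, a i ≤ M) :
    ∃ R : K[X], mG A ex F p a = (-X) ^ (M - ∑ i, a i) *
      (∑ b ∈ bxd ι N M, mH A ex F p v b * C (tcr v b a) + X * R) := by
  have h1 : ∀ b ∈ bx ι N, ∃ R : K[X], mH A ex F p v b * tcr (fun i => (-X) * C (v i)) b a =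
      (-X) ^ (M - ∑ i, a i) *
        ((if ∑ i, b i = M then mH A ex F p v b * C (tcr v b a) else 0) + X * R) := by
    intro b _
    by_cases hb : ∑ i, b i < M
    · refine ⟨0, ?_⟩
      rw [hF b hb, zero_mul, if_neg (by omega), mul_zero, add_zero, mul_zero]
    · by_cases hab : ∀ i, a i ≤ b i
      · rw [tcr_smul _ _ _ _ hab, tcr_C]
        by_cases hb2 : ∑ i, b i = M
        · refine ⟨0, ?_⟩
          rw [if_pos hb2, hb2]
          ring
        · refine ⟨-(mH A ex F p v b * ((-X) ^ (∑ i, b i - M - 1) * C (tcr v b a))), ?_⟩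
          rw [if_neg hb2]
          have h2 : ∑ i, b i - ∑ i, a i = (M - ∑ i, a i) + 1 + (∑ i, b i - M - 1) := by omega
          rw [h2, pow_add, pow_add]
          ring
      · refine ⟨0, ?_⟩
        rw [tcr_eq_zero _ _ _ hab, tcr_eq_zero _ _ _ hab]
        simp
  choose! R hR using h1
  refine ⟨∑ b ∈ bx ι N, R b, ?_⟩
  rw [mG_eq A ex F p v a N hN, sum_congr rfl hR, ← mul_sum, sum_add_distrib, mul_sum]
  congr 2
  unfold bxd
  rw [sum_filter]

/-- (DH1) The value at `p` of `F_t` is divisible by `t^M`. -/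
theorem dh_value (A : Finset E) (ex : E → ι → ℕ) (F : E → K[X]) (p v : ι → K) (M : ℕ)
    (hF : ∀ b : ι → ℕ, ∑ i, b i < M → mH A ex F p v b = 0) :
    X ^ M ∣ mG A ex F p 0 := by
  obtain ⟨N, hN⟩ : ∃ N, ∀ m ∈ A, ∀ i, ex m i < N := by
    refine ⟨(∑ m ∈ A, ∑ i, ex m i) + 1, fun m hm i => ?_⟩
    have h1 : ex m i ≤ ∑ i, ex m i :=
      single_le_sum (f := ex m) (fun _ _ => Nat.zero_le _) (mem_univ i)
    have h2 : ∑ i, ex m i ≤ ∑ m ∈ A, ∑ i, ex m i :=
      single_le_sum (f := fun m => ∑ i, ex m i) (fun _ _ => Nat.zero_le _) hm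
    omega
  obtain ⟨R, hR⟩ := mG_expand A ex F p v 0 N M hN hF (by simp)
  have h0 : ∑ i : ι, (0 : ι → ℕ) i = 0 := by simp
  rw [hR, h0, Nat.sub_zero, neg_pow, mul_assoc]
  exact Dvd.dvd.mul_left (dvd_mul_right _ _) _

/-- (DH2) If the `a`-th Taylor coefficient of `F_t` at `p` is divisible by `t^(M - |a| + 1)`, then
the derivative of order `M - |a|` in the direction `v` of the `a`-th derivative of `F_0` vanishes
at `p`. -/
theorem dh_deriv (A : Finset E) (ex : E → ι → ℕ) (F : E → K[X]) (p v : ι → K) (a : ι → ℕ) (N M : ℕ)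
    (hN : ∀ m ∈ A, ∀ i, ex m i < N) (hF : ∀ b : ι → ℕ, ∑ i, b i < M → mH A ex F p v b = 0)
    (ha : ∑ i, a i ≤ M) (hdiv : X ^ (M - ∑ i, a i + 1) ∣ mG A ex F p a) :
    ∑ b ∈ bxd ι N M, tcr v b a * ∑ m ∈ A, (F m).eval 0 * tcr p (ex m) b = 0 := by
  obtain ⟨R, hR⟩ := mG_expand A ex F p v a N M hN hF ha
  obtain ⟨Q, hQ⟩ := hdiv
  rw [hQ] at hR
  have h1 : X ^ (M - ∑ i, a i) * (X * Q) = X ^ (M - ∑ i, a i) * ((-1) ^ (M - ∑ i, a i) *
      (∑ b ∈ bxd ι N M, mH A ex F p v b * C (tcr v b a) + X * R)) := by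
    rw [neg_pow] at hR
    calc X ^ (M - ∑ i, a i) * (X * Q) = X ^ (M - ∑ i, a i + 1) * Q := by ring
      _ = _ := hR
      _ = _ := by ring
  have h2 : X * Q = (-1) ^ (M - ∑ i, a i) *
      (∑ b ∈ bxd ι N M, mH A ex F p v b * C (tcr v b a) + X * R) := by
    have h3 : IsLeftRegular ((X : K[X]) ^ (M - ∑ i, a i)) :=
      (Polynomial.monic_X_pow _).isRegular.left
    exact h3 h1
  have h3 := congrArg (Polynomial.eval 0) h2
  rw [eval_mul, eval_X, zero_mul, eval_mul, eval_add, eval_mul, eval_X, zero_mul, add_zero,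
    eval_finsetSum] at h3
  have h4 : ((-1 : K[X]) ^ (M - ∑ i, a i)).eval 0 * ((-1 : K[X]) ^ (M - ∑ i, a i)).eval 0 = 1 := by
    rw [← eval_mul, ← mul_pow]
    simp
  have h5 : ∑ b ∈ bxd ι N M, eval 0 (mH A ex F p v b * C (tcr v b a)) = 0 := by
    calc ∑ b ∈ bxd ι N M, eval 0 (mH A ex F p v b * C (tcr v b a)) =
        (((-1 : K[X]) ^ (M - ∑ i, a i)).eval 0 * ((-1 : K[X]) ^ (M - ∑ i, a i)).eval 0) *
          ∑ b ∈ bxd ι N M, eval 0 (mH A ex F p v b * C (tcr v b a)) := by rw [h4, one_mul]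
      _ = ((-1 : K[X]) ^ (M - ∑ i, a i)).eval 0 * 0 := by rw [mul_assoc, ← h3]
      _ = 0 := mul_zero _
  refine Eq.trans ?_ h5
  refine sum_congr rfl fun b _ => ?_
  rw [eval_mul, eval_C, eval_mH]
  ring

/-! ### A form which vanishes to order `M` in `t` on the subspace `x_i = 0` (`i ∈ B`) -/

/-- A Taylor coefficient along the subspace `x_i = 0` (`i ∈ B`) of a monomial which vanishes on it,
at a point of it. -/
theorem tcr_off {R : Type*} [CommRing R] (B : Finset ι) (p : ι → R) (hp : ∀ i ∈ B, p i = 0)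
    (m a : ι → ℕ) (ha : ∀ i ∈ B, a i = 0) (hm : ¬ ∀ i ∈ B, m i = 0) : tcr p m a = 0 := by
  push Not at hm
  obtain ⟨i, hi, hm⟩ := hm
  unfold tcr
  refine prod_eq_zero (mem_univ i) ?_
  rw [hp i hi, ha i hi, Nat.sub_zero, zero_pow hm, mul_zero]

/-- The lower coefficients of the trace of `F_t` vanish at `p`. -/
theorem dh_trace (A : Finset E) (ex : E → ι → ℕ) (F : E → K[X]) (B : Finset ι) (p v : ι → K)
    (hp : ∀ i ∈ B, p i = 0) (M : ℕ) (hF : ∀ b : ι → ℕ, ∑ i, b i < M → mH A ex F p v b = 0)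
    (j : ℕ) (hj : j < M) :
    ∑ m ∈ A.filter (fun m => ∀ i ∈ B, ex m i = 0), (F m).coeff j * tcr p (ex m) 0 = 0 := by
  have h1 := (X_pow_dvd_iff.1 (dh_value A ex F p v M hF)) j hj
  unfold mG at h1
  rw [finsetSum_coeff] at h1
  rw [← h1, sum_filter]
  refine sum_congr rfl fun m _ => ?_
  rw [tcr_C, coeff_mul_C]
  split_ifs with h
  · rfl
  · rw [tcr_off B p hp (ex m) 0 (fun _ _ => rfl) h, mul_zero]

/-- The additional conditions on `F_0` at `p`. -/
theorem dh_swap (A : Finset E) (ex : E → ι → ℕ) (F : E → K[X]) (B : Finset ι) (p v : ι → K)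
    (hp : ∀ i ∈ B, p i = 0) (M N : ℕ) (hN : ∀ m ∈ A, ∀ i, ex m i < N)
    (hF : ∀ b : ι → ℕ, ∑ i, b i < M → mH A ex F p v b = 0)
    (htr : ∀ m ∈ A, (∀ i ∈ B, ex m i = 0) → X ^ M ∣ F m)
    (a : ι → ℕ) (haB : ∀ i ∈ B, a i = 0) (ha1 : 1 ≤ ∑ i, a i) (ha : ∑ i, a i ≤ M) :
    ∑ b ∈ bxd ι N M, tcr v b a * ∑ m ∈ A, (F m).eval 0 * tcr p (ex m) b = 0 := by
  refine dh_deriv A ex F p v a N M hN hF ha ?_
  refine (pow_dvd_pow X (show M - ∑ i, a i + 1 ≤ M by omega)).trans ?_
  unfold mG
  refine dvd_sum fun m hm => ?_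
  by_cases h : ∀ i ∈ B, ex m i = 0
  · exact (htr m hm h).mul_right _
  · rw [tcr_C, tcr_off B p hp (ex m) a haB h, C_0, mul_zero]
    exact dvd_zero _

/-- `F_0` vanishes to order `M` at `p`. -/
theorem dh_fat (A : Finset E) (ex : E → ι → ℕ) (F : E → K[X]) (p v : ι → K) (M : ℕ)
    (hF : ∀ b : ι → ℕ, ∑ i, b i < M → mH A ex F p v b = 0) (b : ι → ℕ) (hb : ∑ i, b i < M) :
    ∑ m ∈ A, (F m).eval 0 * tcr p (ex m) b = 0 := by
  rw [← eval_mH A ex F p v b, hF b hb, eval_zero]

end

end Pool.Agent.H54.V7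

end

section

/-!
# The limit of the solution spaces of a linear system depending on one parameter
-/

namespace Pool.Agent.H54.V7

open Finset Polynomial Pool.Agent.H18.Ex

/-- A subspace is cut out by finitely many linear equations. -/
theorem exists_eqns {E : Type} [Fintype E] (W : Submodule ℂ (E → ℂ)) :
    ∃ (k : ℕ) (c : Fin k → E → ℂ), ∀ f : E → ℂ, f ∈ W ↔ ∀ r, ∑ e, c r e * f e = 0 := by
  classical
  obtain ⟨k, b⟩ : ∃ k, Nonempty (((E → ℂ) ⧸ W) ≃ₗ[ℂ] (Fin k → ℂ)) :=
    ⟨Module.finrank ℂ ((E → ℂ) ⧸ W), ⟨(Module.finBasis ℂ ((E → ℂ) ⧸ W)).equivFun⟩⟩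
  obtain ⟨b⟩ := b
  let L : (E → ℂ) →ₗ[ℂ] (Fin k → ℂ) := b.toLinearMap ∘ₗ W.mkQ
  refine ⟨k, fun r e => L (Pi.single e 1) r, fun f => ?_⟩
  have h1 : ∀ r, ∑ e, L (Pi.single e 1) r * f e = L f r := by
    intro r
    have h2 : f = ∑ e, f e • (Pi.single e (1 : ℂ) : E → ℂ) := by
      funext x
      rw [Finset.sum_apply]
      simp [Pi.single_apply]
    conv_rhs => rw [h2, map_sum]
    rw [Finset.sum_apply]
    refine sum_congr rfl fun e _ => ?_
    rw [map_smul, Pi.smul_apply, smul_eq_mul, mul_comm]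
  simp only [h1]
  constructor
  · intro hf r
    have h3 : L f = 0 := by
      show b (W.mkQ f) = 0
      rw [(Submodule.Quotient.mk_eq_zero W).2 hf |> fun h => (show W.mkQ f = 0 from h), map_zero]
    rw [h3]
    rfl
  · intro h
    have h3 : L f = 0 := funext h
    have h4 : W.mkQ f = 0 := by
      apply b.injective
      rw [map_zero]
      exact h3
    exact (Submodule.Quotient.mk_eq_zero W).1 h4

/-- Finitely many linear forms which are injective on a subspace. -/
theorem exists_coords {E : Type} [Fintype E] (R : Submodule ℂ (E → ℂ)) :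
    ∃ c : Fin (Module.finrank ℂ R) → E → ℂ,
      ∀ f ∈ R, (∀ r, ∑ e, c r e * f e = 0) → f = 0 := by
  classical
  obtain ⟨g, hg⟩ := LinearMap.exists_leftInverse_of_injective R.subtype (by
    rw [Submodule.ker_subtype])
  let L : (E → ℂ) →ₗ[ℂ] (Fin (Module.finrank ℂ R) → ℂ) :=
    (Module.finBasis ℂ R).equivFun.toLinearMap ∘ₗ g
  refine ⟨fun r e => L (Pi.single e 1) r, fun f hf h => ?_⟩
  have h1 : ∀ r, ∑ e, L (Pi.single e 1) r * f e = L f r := by
    intro r
    have h2 : f = ∑ e, f e • (Pi.single e (1 : ℂ) : E → ℂ) := by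
      funext x
      rw [Finset.sum_apply]
      simp [Pi.single_apply]
    conv_rhs => rw [h2, map_sum]
    rw [Finset.sum_apply]
    refine sum_congr rfl fun e _ => ?_
    rw [map_smul, Pi.smul_apply, smul_eq_mul, mul_comm]
  have h3 : L f = 0 := by
    funext r
    rw [← h1 r]
    exact h r
  have h4 : g f = 0 := by
    apply (Module.finBasis ℂ R).equivFun.injective
    rw [map_zero]
    exact h3
  have h5 : g f = ⟨f, hf⟩ := by
    have h6 := LinearMap.congr_fun hg ⟨f, hf⟩
    exact h6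
  rw [h5] at h4
  exact congrArg Subtype.val h4

/-- The solutions of a linear system at the value `t` of the parameter. -/
noncomputable def solAt {E ρ : Type} [Fintype E] (Mx : ρ → E → ℂ[X]) (t : ℂ) :
    Submodule ℂ (E → ℂ) where
  carrier := {f | ∀ r, ∑ e, f e * (Mx r e).eval t = 0}
  zero_mem' := fun r => by simp
  add_mem' := by
    intro f g hf hg r
    have h1 := hf r
    have h2 := hg r
    simp only [Pi.add_apply, add_mul, sum_add_distrib]
    rw [h1, h2, add_zero]
  smul_mem' := by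
    intro c f hf r
    have h1 := hf r
    have h2 : ∑ e, (c • f) e * (Mx r e).eval t = c * ∑ e, f e * (Mx r e).eval t := by
      rw [mul_sum]
      exact sum_congr rfl fun e _ => by rw [Pi.smul_apply, smul_eq_mul, mul_assoc]
    rw [h2, h1, mul_zero]

theorem mem_solAt {E ρ : Type} [Fintype E] (Mx : ρ → E → ℂ[X]) (t : ℂ) (f : E → ℂ) :
    f ∈ solAt Mx t ↔ ∀ r, ∑ e, f e * (Mx r e).eval t = 0 := Iff.rfl

/-- If the values at `t = 0` of all polynomial solutions lie in `R`, then for some `t` the space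
of solutions at `t` has at most the dimension of `R`. -/
theorem poly_limit {E ρ : Type} [Fintype E] [Fintype ρ] (Mx : ρ → E → ℂ[X])
    (R : Submodule ℂ (E → ℂ))
    (hR : ∀ F : E → ℂ[X], (∀ r, ∑ e, F e * Mx r e = 0) → (fun e => (F e).eval 0) ∈ R) :
    ∃ t : ℂ, Module.finrank ℂ (solAt Mx t) ≤ Module.finrank ℂ R := by
  classical
  by_contra hcon
  push Not at hcon
  obtain ⟨c, hc⟩ := exists_coords R
  let Mx' : ρ ⊕ Fin (Module.finrank ℂ R) → E → ℂ[X] :=
    Sum.elim Mx fun r e => C (c r e)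
  obtain ⟨F, hF, e, _, he⟩ := exists_poly_solution (univ : Finset E) Mx' (by
    intro t
    let L : (E → ℂ) →ₗ[ℂ] (Fin (Module.finrank ℂ R) → ℂ) :=
      LinearMap.pi fun r => ∑ e, c r e • LinearMap.proj e
    have hL : ∀ f r, L f r = ∑ e, c r e * f e := by
      intro f r
      simp [L]
    let L' : solAt Mx t →ₗ[ℂ] (Fin (Module.finrank ℂ R) → ℂ) := L ∘ₗ (solAt Mx t).subtype
    have h1 : LinearMap.ker L' ≠ ⊥ := by
      intro h
      have h2 := LinearMap.finrank_le_finrank_of_injective (LinearMap.ker_eq_bot.1 h)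
      rw [Module.finrank_fin_fun] at h2
      exact absurd h2 (not_le.2 (hcon t))
    obtain ⟨f, hf, hf0⟩ := (Submodule.ne_bot_iff _).1 h1
    refine ⟨f.1, ?_, ?_⟩
    · rintro (r | r)
      · exact f.2 r
      · have h3 : L f.1 = 0 := hf
        have h4 := congrFun h3 r
        rw [hL] at h4
        show ∑ e, f.1 e * (C (c r e)).eval t = 0
        rw [Pi.zero_apply] at h4
        rw [← h4]
        exact sum_congr rfl fun e _ => by rw [eval_C, mul_comm]
    · by_contra h3
      push Not at h3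
      apply hf0
      apply Subtype.ext
      funext e
      exact h3 e (mem_univ e))
  have h1 : (fun e => (F e).eval 0) ∈ R := hR F fun r => hF (Sum.inl r)
  have h2 := hc _ h1 (by
    intro r
    have h3 := congrArg (Polynomial.eval 0) (hF (Sum.inr r))
    rw [eval_finsetSum, eval_zero] at h3
    refine Eq.trans ?_ h3
    refine sum_congr rfl fun e _ => ?_
    show c r e * (F e).eval 0 = (F e * C (c r e)).eval 0
    rw [eval_mul, eval_C, mul_comm])
  exact he (congrFun h2 e)

section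

set_option linter.unusedSectionVars false

variable {ι : Type} [Fintype ι] [DecidableEq ι] {E : Type} [Fintype E]

/-- `f` vanishes to order `M` at `q`. -/
def Fat (ex : E → ι → ℕ) (M : ℕ) (q : ι → ℂ) (f : E → ℂ) : Prop :=
  ∀ b : ι → ℕ, ∑ i, b i < M → ∑ e, f e * tcr q (ex e) b = 0

/-- The additional conditions: the derivative of order `M - |a|` in the direction `v` of the
`a`-th derivative of `f` vanishes at `p`, for all `a` along the subspace `x_i = 0` (`i ∈ B`) with
`1 ≤ |a| ≤ M`. -/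
def Sw (ex : E → ι → ℕ) (M N : ℕ) (B : Finset ι) (p v : ι → ℂ) (f : E → ℂ) : Prop :=
  ∀ a : ι → ℕ, (∀ i ∈ B, a i = 0) → 1 ≤ ∑ i, a i → ∑ i, a i ≤ M →
    ∑ b ∈ bxd ι N M, tcr v b a * ∑ e, f e * tcr p (ex e) b = 0

/-- The forms of `W` which vanish to order `M` at the points `q s`. -/
def fatSub {κ : Type} (W : Submodule ℂ (E → ℂ)) (ex : E → ι → ℕ) (M : ℕ) (q : κ → ι → ℂ) :
    Submodule ℂ (E → ℂ) where
  carrier := {f | f ∈ W ∧ ∀ s, Fat ex M (q s) f}
  zero_mem' := ⟨W.zero_mem, fun s b _ => by simp⟩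
  add_mem' := by
    intro f g hf hg
    refine ⟨W.add_mem hf.1 hg.1, fun s b hb => ?_⟩
    simp only [Pi.add_apply, add_mul, sum_add_distrib]
    rw [hf.2 s b hb, hg.2 s b hb, add_zero]
  smul_mem' := by
    intro c f hf
    refine ⟨W.smul_mem c hf.1, fun s b hb => ?_⟩
    have h2 : ∑ e, (c • f) e * tcr (q s) (ex e) b = c * ∑ e, f e * tcr (q s) (ex e) b := by
      rw [mul_sum]
      exact sum_congr rfl fun e _ => by rw [Pi.smul_apply, smul_eq_mul, mul_assoc]
    rw [h2, hf.2 s b hb, mul_zero]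

/-- The residual system. -/
def resSub {κ : Type} (W : Submodule ℂ (E → ℂ)) (ex : E → ι → ℕ) (M N : ℕ) (B : Finset ι)
    (p v : κ → ι → ℂ) : Submodule ℂ (E → ℂ) where
  carrier := {f | f ∈ W ∧ (∀ e, (∀ i ∈ B, ex e i = 0) → f e = 0) ∧ (∀ s, Fat ex M (p s) f) ∧
    ∀ s, Sw ex M N B (p s) (v s) f}
  zero_mem' := ⟨W.zero_mem, fun e _ => rfl, fun s b _ => by simp, fun s a _ _ _ => by simp⟩
  add_mem' := by
    intro f g hf hg
    refine ⟨W.add_mem hf.1 hg.1, fun e he => ?_, fun s b hb => ?_, fun s a ha h1 h2 => ?_⟩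
    · rw [Pi.add_apply, hf.2.1 e he, hg.2.1 e he, add_zero]
    · simp only [Pi.add_apply, add_mul, sum_add_distrib]
      rw [hf.2.2.1 s b hb, hg.2.2.1 s b hb, add_zero]
    · simp only [Pi.add_apply, add_mul, sum_add_distrib, mul_add]
      rw [hf.2.2.2 s a ha h1 h2, hg.2.2.2 s a ha h1 h2, add_zero]
  smul_mem' := by
    intro c f hf
    have h2 : ∀ (q : ι → ℂ) (b : ι → ℕ), ∑ e, (c • f) e * tcr q (ex e) b =
        c * ∑ e, f e * tcr q (ex e) b := by
      intro q b
      rw [mul_sum]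
      exact sum_congr rfl fun e _ => by rw [Pi.smul_apply, smul_eq_mul, mul_assoc]
    refine ⟨W.smul_mem c hf.1, fun e he => ?_, fun s b hb => ?_, fun s a ha h3 h4 => ?_⟩
    · rw [Pi.smul_apply, hf.2.1 e he, smul_zero]
    · rw [h2, hf.2.2.1 s b hb, mul_zero]
    · have h5 : ∑ b ∈ bxd ι N M, tcr (v s) b a * ∑ e, (c • f) e * tcr (p s) (ex e) b =
          c * ∑ b ∈ bxd ι N M, tcr (v s) b a * ∑ e, f e * tcr (p s) (ex e) b := by
        rw [mul_sum]
        refine sum_congr rfl fun b _ => ?_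
        rw [h2]
        ring
      rw [h5, hf.2.2.2 s a ha h3 h4, mul_zero]

theorem eval_tcr_mv_gen (p v : ι → ℂ) (t : ℂ) (m b : ι → ℕ) :
    (tcr (mv p v) m b).eval t = tcr (fun i => p i + t * v i) m b := by
  unfold tcr mv
  rw [eval_prod]
  refine prod_congr rfl fun i _ => ?_
  rw [eval_mul, eval_natCast, eval_pow, eval_add, eval_mul, eval_C, eval_C, eval_X]

/-- **The differential Horace lemma** for a subspace `x_i = 0` (`i ∈ B`) of any codimension, with
simple trace.  `W` is the system of the fixed conditions; the points `p s + t v s` of multiplicity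
`M` move, with `p s` on the subspace.  If a form of `W` whose trace vanishes at all `p s` has trace
zero, then for some `t` the system has at most the dimension of the residual system. -/
theorem dh_step {κ : Type} [Fintype κ] (ex : E → ι → ℕ) (M N : ℕ) (hM : 1 ≤ M) (hN : ∀ e i, ex e i < N)
    (B : Finset ι) (W : Submodule ℂ (E → ℂ)) (p v : κ → ι → ℂ) (hp : ∀ s, ∀ i ∈ B, p s i = 0)
    (htr : ∀ f ∈ W, (∀ s, ∑ e ∈ univ.filter (fun e => ∀ i ∈ B, ex e i = 0),
      f e * tcr (p s) (ex e) 0 = 0) → ∀ e, (∀ i ∈ B, ex e i = 0) → f e = 0) :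
    ∃ t : ℂ, Module.finrank ℂ (fatSub W ex M fun s i => p s i + t * v s i) ≤
      Module.finrank ℂ (resSub W ex M N B p v) := by
  classical
  obtain ⟨k, c, hc⟩ := exists_eqns W
  let Mx : Fin k ⊕ (κ × (ι → Fin M)) → E → ℂ[X] := Sum.elim (fun r e => C (c r e))
    fun r e => if ∑ i, (r.2 i : ℕ) < M then
      tcr (mv (p r.1) (v r.1)) (ex e) (fun i => (r.2 i : ℕ)) else 0
  have hlt : ∀ b : ι → ℕ, ∑ i, b i < M → ∀ i, b i < M := by
    intro b hb i
    have h1 : b i ≤ ∑ i, b i := single_le_sum (f := b) (fun _ _ => Nat.zero_le _) (mem_univ i)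
    omega
  obtain ⟨t, ht⟩ := poly_limit Mx (resSub W ex M N B p v) (by
    intro F hF
    -- the coefficients lie in `W`
    have hW : ∀ j, (fun e => (F e).coeff j) ∈ W := by
      intro j
      rw [hc]
      intro r
      have h1 := congrArg (fun q : ℂ[X] => q.coeff j) (hF (Sum.inl r))
      rw [coeff_zero, finsetSum_coeff] at h1
      refine Eq.trans ?_ h1
      refine sum_congr rfl fun e _ => ?_
      show c r e * (F e).coeff j = (F e * C (c r e)).coeff j
      rw [coeff_mul_C, mul_comm]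
    have hH : ∀ s, ∀ b : ι → ℕ, ∑ i, b i < M → mH univ ex F (p s) (v s) b = 0 := by
      intro s b hb
      have h1 := hF (Sum.inr (s, fun i => ⟨b i, hlt b hb i⟩))
      refine Eq.trans ?_ h1
      unfold mH
      refine sum_congr rfl fun e _ => ?_
      show F e * tcr (mv (p s) (v s)) (ex e) b = F e * (if ∑ i, b i < M then
        tcr (mv (p s) (v s)) (ex e) (fun i => b i) else 0)
      rw [if_pos hb]
    have h0 : ∀ j < M, ∀ e, (∀ i ∈ B, ex e i = 0) → (F e).coeff j = 0 := by
      intro j hj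
      refine htr _ (hW j) fun s => ?_
      exact dh_trace univ ex F B (p s) (v s) (hp s) M (hH s) j hj
    have hdvd : ∀ e ∈ (univ : Finset E), (∀ i ∈ B, ex e i = 0) → X ^ M ∣ F e := by
      intro e _ he
      rw [X_pow_dvd_iff]
      intro j hj
      exact h0 j hj e he
    refine ⟨?_, ?_, ?_, ?_⟩
    · have h1 := hW 0
      simpa only [coeff_zero_eq_eval_zero] using h1
    · intro e he
      have h1 := h0 0 (by omega) e he
      rw [coeff_zero_eq_eval_zero] at h1
      exact h1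
    · intro s b hb
      exact dh_fat univ ex F (p s) (v s) M (hH s) b hb
    · intro s a ha h1 h2
      exact dh_swap univ ex F B (p s) (v s) (hp s) M N (fun e _ => hN e) (hH s) hdvd a ha h1 h2)
  refine ⟨t, le_trans (le_of_eq ?_) ht⟩
  have h1 : fatSub W ex M (fun s i => p s i + t * v s i) = solAt Mx t := by
    ext f
    rw [mem_solAt]
    constructor
    · rintro ⟨hf, hf2⟩ (r | ⟨s, b⟩)
      · have h2 := (hc f).1 hf r
        refine Eq.trans ?_ h2
        refine sum_congr rfl fun e _ => ?_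
        show f e * (C (c r e)).eval t = c r e * f e
        rw [eval_C, mul_comm]
      · by_cases hb : ∑ i, (b i : ℕ) < M
        · have h2 := hf2 s (fun i => (b i : ℕ)) hb
          refine Eq.trans ?_ h2
          refine sum_congr rfl fun e _ => ?_
          show f e * (if ∑ i, (b i : ℕ) < M then
            tcr (mv (p s) (v s)) (ex e) (fun i => (b i : ℕ)) else 0).eval t = _
          rw [if_pos hb, eval_tcr_mv_gen]
        · refine sum_eq_zero fun e _ => ?_
          show f e * (if ∑ i, (b i : ℕ) < M then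
            tcr (mv (p s) (v s)) (ex e) (fun i => (b i : ℕ)) else 0).eval t = _
          rw [if_neg hb, eval_zero, mul_zero]
    · intro h
      refine ⟨(hc f).2 fun r => ?_, fun s b hb => ?_⟩
      · refine Eq.trans ?_ (h (Sum.inl r))
        refine sum_congr rfl fun e _ => ?_
        show c r e * f e = f e * (C (c r e)).eval t
        rw [eval_C, mul_comm]
      · refine Eq.trans ?_ (h (Sum.inr (s, fun i => ⟨b i, hlt b hb i⟩)))
        refine sum_congr rfl fun e _ => ?_
        show _ = f e * (if ∑ i, b i < M then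
          tcr (mv (p s) (v s)) (ex e) (fun i => b i) else 0).eval t
        rw [if_pos hb, eval_tcr_mv_gen]
  rw [h1]

end

end Pool.Agent.H54.V7

end

section

/-!
# V7: definitions

Variables `s : ν` with block numbers `β s : ℕ`.  The level `j` consists of the forms of degree
`2 M - 1` all of whose monomials meet the blocks `0, …, j - 1` (they vanish on the subspaces
`L_i = {x = 0 on the block i}`, `i < j`).

Kinds of points: `ord μ I` is a point of multiplicity `μ` which lies on `L_i` for all `i ∈ I`;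
`sw i I` (swapped point) is a point `p` which lies on `L_i` and on `L_{i'}`, `i' ∈ I`, together with
a direction `v` which lies on `L_{i'}`, `i' ∈ I`: multiplicity `M` at `p`, and for every derivative of
order `1 ≤ |a| ≤ M` along `L_i` one more order of vanishing on the line `p + u v`.
A position is a function on `ν ⊕ ν`: coordinates of `p` (`Sum.inl`) and of `v` (`Sum.inr`); the
coordinates on the blocks where the point has to vanish are replaced by `0` (`msk`).
-/

set_option autoImplicit false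
set_option linter.unusedSectionVars false

namespace Pool.Agent.V7

open Finset MvPolynomial Pool.Agent.H51.TB Pool.Agent.H54.V7
open Pool.Agent.H18.Ex (tcr)

/-- The kinds of points. -/
inductive Kd : Type
  | ord (μ : ℕ) (I : Finset ℕ) : Kd
  | sw (i : ℕ) (I : Finset ℕ) : Kd
  deriving DecidableEq

/-- The kind of a point which lies on the subspace `L_j` too. -/
def Kd.add (j : ℕ) : Kd → Kd
  | .ord μ I => .ord μ (insert j I)
  | .sw i I => .sw i (insert j I)

/-- The kinds of the level `j` for the multiplicity `M`. -/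
def Kd.Ok (M j : ℕ) : Kd → Prop
  | .ord μ I => 1 ≤ μ ∧ μ ≤ M ∧ I ⊆ range j
  | .sw i I => i < j ∧ I ⊆ Ico (i + 1) j

/-- Simple points. -/
abbrev Kd.sm : Kd := .ord 1 ∅

/-! ### Numbers -/

/-- The number of monomials of degree `k` in `n` variables which meet `j` blocks of size `c`
(for `j c ≤ n`). -/
def bb (c k : ℕ) : ℕ → ℕ → ℕ
  | 0, n => Nat.multichoose n k
  | j + 1, n => bb c k j n - bb c k j (n - c)

/-- The number of conditions of a point. -/
def wt (M c n : ℕ) : Kd → ℕ
  | .ord μ I => bb c (μ - 1) I.card n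
  | .sw _ I => bb c (M - 1) I.card n - if I = ∅ then 1 else 0

/-- The virtual dimension of a configuration. -/
def vd (M c j n : ℕ) (s : Multiset Kd) : ℤ :=
  (bb c (2 * M - 1) j n : ℤ) - ((s.map (wt M c n)).sum : ℕ)

/-! ### Systems -/

/-- The coordinates on the blocks of `I` are replaced by `0`. -/
def msk {ν R : Type} [Zero R] (β : ν → ℕ) (I : Finset ℕ) (q : ν → R) : ν → R :=
  fun s => if β s ∈ I then 0 else q s

section

variable {ν : Type} [Fintype ν] [DecidableEq ν]

/-- The exponents of degree `d` which meet the blocks `0, …, j - 1`. -/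
def Ex (β : ν → ℕ) (d j : ℕ) : Finset (ν → ℕ) :=
  (Pool.Agent.H21.NX.Sx ν d).filter fun a => ∀ i < j, ∃ s, β s = i ∧ a s ≠ 0

theorem mem_Ex {β : ν → ℕ} {d j : ℕ} {a : ν → ℕ} :
    a ∈ Ex β d j ↔ ∑ s, a s = d ∧ ∀ i < j, ∃ s, β s = i ∧ a s ≠ 0 := by
  unfold Ex
  rw [mem_filter, Pool.Agent.H21.NX.mem_Sx]

/-- The indices of the conditions of a kind. -/
def Cdx (M : ℕ) (β : ν → ℕ) : Kd → Type
  | .ord μ _ => {b : ν → ℕ // ∑ s, b s < μ}
  | .sw i _ => {b : ν → ℕ // ∑ s, b s < M} ⊕
      {a : ν → ℕ // (∀ s, β s = i → a s = 0) ∧ 1 ≤ ∑ s, a s ∧ ∑ s, a s ≤ M}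

theorem finite_lt (μ : ℕ) (P : (ν → ℕ) → Prop) (h : ∀ b, P b → ∑ s, b s ≤ μ) :
    Finite {b : ν → ℕ // P b} := by
  have h0 : {f : ν → ℕ | ∀ i, f i ∈ Set.Iic μ}.Finite :=
    Set.Finite.pi' fun _ => Set.finite_Iic μ
  have h1 : {b : ν → ℕ | P b} ⊆ {f : ν → ℕ | ∀ i, f i ∈ Set.Iic μ} := by
    intro b hb i
    exact (single_le_sum (f := b) (fun _ _ => Nat.zero_le _) (mem_univ i)).trans (h b hb)
  exact (h0.subset h1).to_subtype

/-- The coefficients of the conditions of a kind. -/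
noncomputable def cof (M : ℕ) (β : ν → ℕ) : (k : Kd) → Cdx M β k → (ν → ℕ) →
    MvPolynomial (ν ⊕ ν) ℂ
  | .ord _ I, b, e => tcr (msk β I fun s => X (Sum.inl s)) e b.1
  | .sw i I, Sum.inl b, e => tcr (msk β (insert i I) fun s => X (Sum.inl s)) e b.1
  | .sw i I, Sum.inr a, e => ∑ b ∈ bxd ν (2 * M) M,
      tcr (msk β I fun s => X (Sum.inr s)) b a.1 *
        tcr (msk β (insert i I) fun s => X (Sum.inl s)) e b

/-- The system of the forms with the exponents `A`. -/
noncomputable def LSA (M : ℕ) (β : ν → ℕ) (A : Finset (ν → ℕ)) : Sys {a // a ∈ A} (ν ⊕ ν) Kd where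
  R := Cdx M β
  fin := by
    rintro (⟨μ, I⟩ | ⟨i, I⟩)
    · exact finite_lt μ _ fun b hb => hb.le
    · have h1 : Finite {b : ν → ℕ // ∑ s, b s < M} := finite_lt M _ fun b hb => hb.le
      have h2 : Finite {a : ν → ℕ // (∀ s, β s = i → a s = 0) ∧ 1 ≤ ∑ s, a s ∧ ∑ s, a s ≤ M} :=
        finite_lt M _ fun b hb => hb.2.2
      exact Finite.instSum
  co := fun k r e => cof M β k r e.1

/-- The system of the level `j`: forms of degree `2 M - 1` which vanish on `L_0, …, L_{j - 1}`. -/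
noncomputable abbrev LS (M : ℕ) (β : ν → ℕ) (j : ℕ) :
    Sys {a // a ∈ Ex β (2 * M - 1) j} (ν ⊕ ν) Kd :=
  LSA M β (Ex β (2 * M - 1) j)

/-- The conditions of a point of kind `k` at the position `q`. -/
def SatK (M : ℕ) (β : ν → ℕ) {A : Finset (ν → ℕ)} (k : Kd) (q : ν ⊕ ν → ℂ)
    (f : {a // a ∈ A} → ℂ) : Prop :=
  match k with
  | .ord μ I => Fat (fun e : {a // a ∈ A} => e.1) μ (msk β I fun s => q (Sum.inl s)) f
  | .sw i I => Fat (fun e : {a // a ∈ A} => e.1) M (msk β (insert i I) fun s => q (Sum.inl s)) f ∧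
      Sw (fun e : {a // a ∈ A} => e.1) M (2 * M) (univ.filter fun s => β s = i)
        (msk β (insert i I) fun s => q (Sum.inl s)) (msk β I fun s => q (Sum.inr s)) f

theorem eval_tcr_msk (β : ν → ℕ) (I : Finset ℕ) (φ : ν → ν ⊕ ν) (q : ν ⊕ ν → ℂ) (e b : ν → ℕ) :
    eval q (tcr (msk β I fun s => (X (φ s) : MvPolynomial (ν ⊕ ν) ℂ)) e b) =
      tcr (msk β I fun s => q (φ s)) e b := by
  unfold tcr
  rw [map_prod]
  refine prod_congr rfl fun s _ => ?_
  rw [map_mul, map_pow, map_natCast]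
  congr 2
  unfold msk
  split_ifs
  · rw [map_zero]
  · rw [eval_X]

theorem eval_cof_ord (M : ℕ) (β : ν → ℕ) (μ : ℕ) (I : Finset ℕ) (r : Cdx M β (.ord μ I))
    (q : ν ⊕ ν → ℂ) (e : ν → ℕ) : eval q (cof M β (.ord μ I) r e) =
      tcr (msk β I fun s => q (Sum.inl s)) e r.1 :=
  eval_tcr_msk β I Sum.inl q e r.1

theorem eval_cof_sw_inl (M : ℕ) (β : ν → ℕ) (i : ℕ) (I : Finset ℕ)
    (b : {b : ν → ℕ // ∑ s, b s < M}) (q : ν ⊕ ν → ℂ) (e : ν → ℕ) :
    eval q (cof M β (.sw i I) (Sum.inl b) e) =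
      tcr (msk β (insert i I) fun s => q (Sum.inl s)) e b.1 :=
  eval_tcr_msk β (insert i I) Sum.inl q e b.1

theorem eval_cof_sw_inr (M : ℕ) (β : ν → ℕ) (i : ℕ) (I : Finset ℕ)
    (a : {a : ν → ℕ // (∀ s, β s = i → a s = 0) ∧ 1 ≤ ∑ s, a s ∧ ∑ s, a s ≤ M})
    (q : ν ⊕ ν → ℂ) (e : ν → ℕ) :
    eval q (cof M β (.sw i I) (Sum.inr a) e) = ∑ b ∈ bxd ν (2 * M) M,
      tcr (msk β I fun s => q (Sum.inr s)) b a.1 *
        tcr (msk β (insert i I) fun s => q (Sum.inl s)) e b := by
  show eval q (∑ b ∈ bxd ν (2 * M) M, tcr (msk β I fun s => X (Sum.inr s)) b a.1 *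
    tcr (msk β (insert i I) fun s => X (Sum.inl s)) e b) = _
  rw [map_sum]
  refine sum_congr rfl fun b _ => ?_
  rw [map_mul, eval_tcr_msk, eval_tcr_msk]

theorem mem_LSA (M : ℕ) (β : ν → ℕ) (A : Finset (ν → ℕ)) {κ : Type} (m : κ → Kd)
    (p : κ → ν ⊕ ν → ℂ) (f : {a // a ∈ A} → ℂ) :
    f ∈ (LSA M β A).V m p ↔ ∀ i, SatK M β (m i) (p i) f := by
  rw [Sys.mem_V]
  refine forall_congr' fun x => ?_
  generalize m x = k
  generalize p x = q
  show (∀ r : Cdx M β k, ∑ e : {a // a ∈ A}, eval q (cof M β k r e.1) * f e = 0) ↔ _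
  rcases k with ⟨μ, I⟩ | ⟨i, I⟩
  · constructor
    · intro h b hb
      rw [← h (⟨b, hb⟩ : {b : ν → ℕ // ∑ s, b s < μ})]
      refine sum_congr rfl fun e _ => ?_
      rw [eval_cof_ord, mul_comm]
    · intro h r
      rw [← h r.1 r.2]
      refine sum_congr rfl fun e _ => ?_
      rw [eval_cof_ord, mul_comm]
  · constructor
    · intro h
      refine ⟨fun b hb => ?_, fun a h1 h2 h3 => ?_⟩
      · rw [← h (Sum.inl (⟨b, hb⟩ : {b : ν → ℕ // ∑ s, b s < M}))]
        refine sum_congr rfl fun e _ => ?_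
        rw [eval_cof_sw_inl, mul_comm]
      · have h1' : ∀ s, β s = i → a s = 0 := fun s hs => h1 s (by rw [mem_filter]; exact ⟨mem_univ s, hs⟩)
        rw [← h (Sum.inr (⟨a, h1', h2, h3⟩ :
          {a : ν → ℕ // (∀ s, β s = i → a s = 0) ∧ 1 ≤ ∑ s, a s ∧ ∑ s, a s ≤ M}))]
        simp only [mul_sum]
        rw [sum_comm]
        refine sum_congr rfl fun e _ => ?_
        rw [eval_cof_sw_inr, sum_mul]
        refine sum_congr rfl fun b _ => ?_
        ring
    · intro h r
      rcases r with b | a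
      · rw [← h.1 b.1 b.2]
        refine sum_congr rfl fun e _ => ?_
        rw [eval_cof_sw_inl, mul_comm]
      · rw [← h.2 a.1 (fun s hs => a.2.1 s (by rw [mem_filter] at hs; exact hs.2)) a.2.2.1 a.2.2.2]
        simp only [mul_sum]
        rw [sum_comm]
        refine sum_congr rfl fun e _ => ?_
        rw [eval_cof_sw_inr, sum_mul]
        refine sum_congr rfl fun b _ => ?_
        ring

/-- The canonical variables: `n` variables, block number `s / c`. -/
def blk (c n : ℕ) : Fin n → ℕ := fun s => s.1 / c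

end

end Pool.Agent.V7

end
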