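import Pool.Agent.H94.LP5.H18.Ex.Defs
import Pool.Agent.H94.LP5.M02

/-! The parts of this file: H18.Ex.Frac, H18.TileRg, H21.HD.IndTrans, H21.HD.SpanRestrict, H21.NX.NumA, H51.TB.Sub, H51.TB.Gn, H51.TB.Gd, H51.TB.Gs, V7.ST.Ms. -/

section

/-!
# Module Frac: few exponents lie near a face
-/

namespace Pool.Agent.H18.Ex

open Finset

variable {ι : Type} [Fintype ι] [DecidableEq ι]

/-- At most `N + 1` active coordinates; `v ≤ w i`, `v ≤ σ`, `2 k ≤ v`.  Then the proportion of the
exponents with `x i < k` is at most `2 N² k / v`.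

Proof.  Let `h = v / (2 N)` and `S = {x ∈ Rg σ w | x i < k}`.  For `x ∈ S` the other active
coordinates (at most `N` of them) have sum `σ - x i ≥ v / 2 ≥ N h` (also `k - 1 + h ≤ w i`), so one
of them, `b` (choose one with `x b` maximal), has `x b ≥ h`.  Map `(x, j)`, `j ≤ h`, to
`(x + j e_i - j e_b, x i, b)`: this is an injection of `S × [0, h]` into
`Rg σ w × [0, k) × {active coordinates ≠ i}` (recover `j` from the `i`-th coordinate and `x i`).
Hence `|S| (h + 1) ≤ |Rg σ w| * k * N` and `v ≤ 2 N (h + 1)`.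
(If `i` is inactive then `v = 0`.) -/
theorem frac (N : ℕ) (hN : 1 ≤ N) (σ : ℕ) (w : ι → ℕ) (i : ι) (k v : ℕ)
    (hcard : (univ.filter fun i => 0 < w i).card ≤ N + 1) (hv : v ≤ w i) (hvσ : v ≤ σ)
    (hk : 2 * k ≤ v) :
    ((Rg σ w).filter fun x => x i < k).card * v ≤ 2 * N ^ 2 * k * (Rg σ w).card := by
  classical
  have : Nonempty ι := ⟨i⟩
  rcases Nat.eq_zero_or_pos v with hv0 | hv0
  · rw [hv0, mul_zero]
    exact Nat.zero_le _
  set h : ℕ := v / (2 * N) with hh
  set S := (Rg σ w).filter fun x => x i < k with hS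
  set B := (univ.filter fun j => 0 < w j).erase i with hB
  have hiact : i ∈ univ.filter fun j => 0 < w j := by
    simp only [mem_filter, mem_univ, true_and]
    omega
  have hBcard : B.card ≤ N := by
    rw [hB, card_erase_of_mem hiact]
    omega
  have hh1 : 2 * N * h ≤ v := by
    rw [hh]; exact Nat.mul_div_le v (2 * N)
  have hh2 : v < 2 * N * (h + 1) := by
    rw [hh]
    have := Nat.lt_mul_div_succ v (show 0 < 2 * N by omega)
    exact this
  have hhv : 2 * h ≤ v := by
    refine le_trans ?_ hh1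
    nlinarith
  -- choice of the second coordinate
  have hex : ∀ x ∈ S, ∃ b ∈ B, h ≤ x b := by
    intro x hx
    rw [hS, mem_filter, mem_Rg] at hx
    obtain ⟨⟨hxw, hxs⟩, hxk⟩ := hx
    by_contra hcon
    push Not at hcon
    have hsum : ∑ j, x j = x i + ∑ j ∈ B, x j := by
      have h1 : ∑ j, x j = ∑ j ∈ univ.filter (fun j => 0 < w j), x j := by
        symm
        refine sum_subset (filter_subset _ _) fun j _ hj => ?_
        simp only [mem_filter, mem_univ, true_and, not_lt, Nat.le_zero] at hj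
        have := hxw j
        omega
      rw [h1, hB, add_sum_erase _ _ hiact]
    have hle : ∑ j ∈ B, x j ≤ B.card * (h - 1) := by
      rw [← smul_eq_mul]
      refine sum_le_card_nsmul B x (h - 1) fun j hj => ?_
      have := hcon j hj
      omega
    have hBne : B.Nonempty := by
      rw [nonempty_iff_ne_empty]
      intro hBe
      rw [hBe, sum_empty] at hsum
      omega
    obtain ⟨b0, hb0⟩ := hBne
    have hh0 : 1 ≤ h := by
      have := hcon b0 hb0
      omega
    have hle2 : B.card * (h - 1) ≤ N * (h - 1) := Nat.mul_le_mul_right _ hBcard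
    have hle3 : N * (h - 1) + N = N * h := by
      rw [← Nat.mul_succ, Nat.succ_eq_add_one, Nat.sub_add_cancel hh0]
    have hle4 : 2 * (N * h) ≤ v := by linarith
    omega
  choose! b hbB hbh using hex
  set f : (ι → ℕ) × ℕ → (ι → ℕ) × (ℕ × ι) := fun p =>
    (fun c => if c = i then p.1 i + p.2 else if c = b p.1 then p.1 c - p.2 else p.1 c,
      (p.1 i, b p.1)) with hf
  have hinj : (S ×ˢ range (h + 1)).card ≤ ((Rg σ w) ×ˢ (range k ×ˢ B)).card := by
    refine card_le_card_of_injOn f ?_ ?_
    · intro p hp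
      rw [mem_coe, mem_product, mem_range] at hp
      obtain ⟨hp1, hp2⟩ := hp
      have hb1 := hbB p.1 hp1
      have hb2 := hbh p.1 hp1
      rw [hS, mem_filter, mem_Rg] at hp1
      obtain ⟨⟨hxw, hxs⟩, hxk⟩ := hp1
      have hbi : b p.1 ≠ i := by
        intro hbi
        rw [hbi, hB] at hb1
        exact (mem_erase.1 hb1).1 rfl
      rw [mem_coe, mem_product, mem_product]
      refine ⟨?_, mem_range.2 hxk, hb1⟩
      rw [mem_Rg]
      constructor
      · intro c
        simp only [hf]
        split_ifs with h1 h2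
        · rw [h1]
          omega
        · have := hxw c
          omega
        · exact hxw c
      · have e1 : ∑ c, (f p).1 c = (f p).1 i + ((f p).1 (b p.1) +
            ∑ c ∈ (univ.erase i).erase (b p.1), (f p).1 c) := by
          rw [add_sum_erase _ _ (mem_erase.2 ⟨hbi, mem_univ _⟩), add_sum_erase _ _ (mem_univ i)]
        have e2 : ∑ c, p.1 c = p.1 i + (p.1 (b p.1) +
            ∑ c ∈ (univ.erase i).erase (b p.1), p.1 c) := by
          rw [add_sum_erase _ _ (mem_erase.2 ⟨hbi, mem_univ _⟩), add_sum_erase _ _ (mem_univ i)]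
        have e3 : ∑ c ∈ (univ.erase i).erase (b p.1), (f p).1 c =
            ∑ c ∈ (univ.erase i).erase (b p.1), p.1 c := by
          refine sum_congr rfl fun c hc => ?_
          rw [mem_erase, mem_erase] at hc
          simp only [hf]
          rw [if_neg hc.2.1, if_neg hc.1]
        have e4 : (f p).1 i = p.1 i + p.2 := by simp [hf]
        have e5 : (f p).1 (b p.1) = p.1 (b p.1) - p.2 := by
          simp [hf, hbi]
        rw [e1, e3, e4, e5]
        omega
    · intro p hp q hq hpq
      rw [mem_coe, mem_product, mem_range] at hp hq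
      have hb1 := hbB p.1 hp.1
      have hb2 := hbh p.1 hp.1
      have hb3 := hbh q.1 hq.1
      have hbi : b p.1 ≠ i := by
        intro hbi
        rw [hbi, hB] at hb1
        exact (mem_erase.1 hb1).1 rfl
      simp only [hf, Prod.mk.injEq] at hpq
      obtain ⟨h1, h2, h3⟩ := hpq
      have h4 := congrFun h1 i
      simp only [if_true] at h4
      have h5 : p.2 = q.2 := by omega
      refine Prod.ext ?_ h5
      funext c
      have h6 := congrFun h1 c
      rw [← h3] at h6
      by_cases hc : c = i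
      · rw [hc]; exact h2
      · by_cases hc2 : c = b p.1
        · rw [if_neg hc, if_pos hc2, if_neg hc, if_pos hc2] at h6
          rw [← h3] at hb3
          rw [hc2] at h6 ⊢
          omega
        · rw [if_neg hc, if_neg hc2, if_neg hc, if_neg hc2] at h6
          exact h6
  rw [card_product, card_product, card_product, card_range, card_range] at hinj
  have h1 : S.card * v ≤ S.card * (2 * N * (h + 1)) := Nat.mul_le_mul_left _ hh2.le
  have h2 : (Rg σ w).card * (k * B.card) ≤ (Rg σ w).card * (k * N) :=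
    Nat.mul_le_mul_left _ (Nat.mul_le_mul_left _ hBcard)
  calc S.card * v ≤ S.card * (2 * N * (h + 1)) := h1
    _ = 2 * N * (S.card * (h + 1)) := by ring
    _ ≤ 2 * N * ((Rg σ w).card * (k * N)) := Nat.mul_le_mul_left _ (hinj.trans h2)
    _ = 2 * N ^ 2 * k * (Rg σ w).card := by ring

lemma Rg_update_eq (σ : ℕ) (w : ι → ℕ) (l : ι) :
    Rg σ (Function.update w l 0) = (Rg σ w).filter fun x => x l < 1 := by
  ext x
  rw [mem_filter, mem_Rg, mem_Rg]
  constructor
  · rintro ⟨h1, h2⟩
    have h3 := h1 l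
    rw [Function.update_self] at h3
    refine ⟨⟨fun j => ?_, h2⟩, by omega⟩
    by_cases hj : j = l
    · rw [hj]; omega
    · have := h1 j
      rwa [Function.update_of_ne hj] at this
  · rintro ⟨⟨h1, h2⟩, h3⟩
    refine ⟨fun j => ?_, h2⟩
    by_cases hj : j = l
    · rw [hj, Function.update_self]; omega
    · rw [Function.update_of_ne hj]; exact h1 j

/-- The case `k = 1`: a facet is small compared with the region. -/
theorem facet_le (N : ℕ) (hN : 1 ≤ N) (σ : ℕ) (w : ι → ℕ) (l : ι) (v : ℕ)
    (hcard : (univ.filter fun i => 0 < w i).card ≤ N + 1) (hv : v ≤ w l) (hvσ : v ≤ σ)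
    (h2 : 2 ≤ v) :
    fc σ w l * v ≤ 2 * N ^ 2 * (Rg σ w).card := by
  have := frac N hN σ w l 1 v hcard hv hvσ (by omega)
  unfold fc
  rw [Rg_update_eq]
  simpa using this

theorem fc_le (σ : ℕ) (w : ι → ℕ) (l : ι) : fc σ w l ≤ (Rg σ w).card := by
  unfold fc
  rw [Rg_update_eq]
  exact card_filter_le _ _

/-- The region is nonempty as soon as `σ ≤ ∑ w`. -/
theorem Rg_nonempty (σ : ℕ) (w : ι → ℕ) (h : σ ≤ ∑ i, w i) : (Rg σ w).Nonempty := by
  induction σ with
  | zero => exact ⟨fun _ => 0, mem_Rg.2 ⟨fun _ => Nat.zero_le _, by simp⟩⟩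
  | succ s ih =>
    obtain ⟨x, hx⟩ := ih (by omega)
    rw [mem_Rg] at hx
    obtain ⟨h1, h2⟩ := hx
    have hex : ∃ i, x i < w i := by
      by_contra hcon
      push Not at hcon
      have : ∑ i, w i ≤ ∑ i, x i := sum_le_sum fun i _ => hcon i
      omega
    obtain ⟨i, hi⟩ := hex
    refine ⟨Function.update x i (x i + 1), mem_Rg.2 ⟨fun j => ?_, ?_⟩⟩
    · by_cases hj : j = i
      · rw [hj, Function.update_self]; omega
      · rw [Function.update_of_ne hj]; exact h1 j
    · rw [sum_update_of_mem (mem_univ i), ← h2, ← add_sum_erase _ _ (mem_univ i),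
        erase_eq]
      omega

/-- Lower bound for the number of exponents: the coordinate `x i` takes at least `b + 1` values
(all values between `max (0, σ - ∑_{≠ i} w)` and `min (w i, σ)`; for each of them the rest can be
filled by `Rg_nonempty`). -/
theorem card_ge (σ : ℕ) (w : ι → ℕ) (b : ℕ) (i j : ι) (hij : i ≠ j) (hi : b ≤ w i)
    (hj : b ≤ w j) (hσ : b ≤ σ) (hw : σ + b ≤ ∑ i, w i) : b + 1 ≤ (Rg σ w).card := by
  have hsum : ∑ c, w c = w i + ∑ c ∈ univ.erase i, w c := (add_sum_erase _ _ (mem_univ i)).symm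
  have hjle : w j ≤ ∑ c ∈ univ.erase i, w c :=
    single_le_sum (f := w) (fun _ _ => Nat.zero_le _) (mem_erase.2 ⟨hij.symm, mem_univ _⟩)
  set W := ∑ c ∈ univ.erase i, w c with hW
  set t0 := σ - W with ht0
  have hsub : Icc t0 (t0 + b) ⊆ (Rg σ w).image fun x => x i := by
    intro t ht
    rw [mem_Icc] at ht
    have h1 : σ - t ≤ ∑ c, Function.update w i 0 c := by
      rw [sum_update_of_mem (mem_univ i), zero_add, ← erase_eq]
      show σ - t ≤ W
      omega
    obtain ⟨y, hy⟩ := Rg_nonempty (σ - t) (Function.update w i 0) h1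
    rw [mem_Rg] at hy
    obtain ⟨hy1, hy2⟩ := hy
    have hyi : y i = 0 := by
      have := hy1 i
      rw [Function.update_self] at this
      omega
    rw [mem_image]
    refine ⟨Function.update y i t, mem_Rg.2 ⟨fun c => ?_, ?_⟩, by rw [Function.update_self]⟩
    · by_cases hc : c = i
      · rw [hc, Function.update_self]; omega
      · rw [Function.update_of_ne hc]
        have := hy1 c
        rwa [Function.update_of_ne hc] at this
    · have e1 : ∑ c, y c = y i + ∑ c ∈ univ.erase i, y c := (add_sum_erase _ _ (mem_univ i)).symm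
      rw [sum_update_of_mem (mem_univ i), ← erase_eq]
      omega
  have h2 := card_le_card hsub
  rw [Nat.card_Icc] at h2
  have h3 := h2.trans card_image_le
  omega

end Pool.Agent.H18.Ex

end

section

/-!
# Lattice points of truncated boxes: counting
-/

namespace Pool.Agent.H18.Fat

open Finset

section

variable {r : ℕ}

/-- The lattice points `a` with `v ≤ a < u` and `lo ≤ |a| < hi`. -/
noncomputable def Rg (v u : Fin r → ℤ) (lo hi : ℤ) : Finset (Fin r → ℤ) :=
  (Fintype.piFinset fun j => Ico (v j) (u j)).filter fun a => lo ≤ ∑ j, a j ∧ ∑ j, a j < hi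

theorem mem_Rg {v u : Fin r → ℤ} {lo hi : ℤ} {a : Fin r → ℤ} :
    a ∈ Rg v u lo hi ↔ (∀ j, v j ≤ a j ∧ a j < u j) ∧ lo ≤ ∑ j, a j ∧ ∑ j, a j < hi := by
  unfold Rg
  rw [mem_filter, Fintype.mem_piFinset]
  simp only [mem_Ico]

/-- The region above the slab. -/
def above (v : Fin (r + 1) → ℤ) (w : ℤ) : Fin (r + 1) → ℤ := Fin.cons w (Fin.tail v)

theorem mem_above {v u : Fin (r + 1) → ℤ} {lo hi w : ℤ} (hw : v 0 ≤ w) {a : Fin (r + 1) → ℤ} :
    a ∈ Rg (above v w) u lo hi ↔ a ∈ Rg v u lo hi ∧ w ≤ a 0 := by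
  rw [mem_Rg, mem_Rg]
  unfold above
  constructor
  · rintro ⟨h1, h2⟩
    have h0 := h1 0
    rw [Fin.cons_zero] at h0
    refine ⟨⟨fun j => ?_, h2⟩, h0.1⟩
    refine Fin.cases ⟨by omega, h0.2⟩ (fun i => ?_) j
    have := h1 i.succ
    rw [Fin.cons_succ] at this
    exact this
  · rintro ⟨⟨h1, h2⟩, h3⟩
    refine ⟨fun j => ?_, h2⟩
    refine Fin.cases ?_ (fun i => ?_) j
    · rw [Fin.cons_zero]
      exact ⟨h3, (h1 0).2⟩
    · rw [Fin.cons_succ]
      exact h1 i.succ

end

end Pool.Agent.H18.Fat

end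

section

/-!
Renaming variables.
-/

namespace Pool.Agent.H21.HD

open MvPolynomial
open scoped Classical

/-- Independence does not depend on the names of the variables. -/
theorem indep_transport {σ τ P : Type} [Fintype σ] [Fintype τ] [Fintype P] (E : σ ≃ τ) (d : ℕ)
    (w : P → σ → ℂ) (e : P → ℕ) (h : Indep d w e) :
    Indep d (fun p t => w p (E.symm t)) e := by
  intro g hg hsum p
  have hlin : ∀ p, rename E.symm (lin (fun t => w p (E.symm t))) = lin (w p) := by
    intro p
    unfold lin
    rw [map_sum]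
    simp only [map_mul, rename_C, rename_X]
    exact Equiv.sum_comp E.symm (fun s => C (w p s) * X s)
  have h1 := h (fun p => rename E.symm (g p))
    (fun p => (hg p).rename_isHomogeneous) (by
      have h2 := congrArg (rename E.symm) hsum
      rw [map_sum, map_zero] at h2
      rw [← h2]
      refine Finset.sum_congr rfl fun p _ => ?_
      rw [map_mul, map_pow, hlin]) p
  have h3 : Function.Injective (rename E.symm : MvPolynomial τ ℂ → MvPolynomial σ ℂ) :=
    rename_injective _ E.symm.injective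
  apply h3
  rw [map_zero]
  exact h1

end Pool.Agent.H21.HD

end

section

/-!
Fewer variables, higher degree.
-/

namespace Pool.Agent.H21.HD

open MvPolynomial
open scoped Classical

/-- Passage to fewer variables. -/
theorem span_restrict {σ τ R : Type} [Fintype σ] [Fintype τ] (f : τ → σ)
    (hf : Function.Injective f) (d : ℕ) (w : R → σ → ℂ) (e : R → ℕ)
    (h : homogeneousSubmodule σ ℂ d ≤ powSpan d w e) :
    homogeneousSubmodule τ ℂ d ≤ powSpan d (fun p t => w p (f t)) e := by
  let x : σ → MvPolynomial τ ℂ := fun s => ∑ t, if f t = s then X t else 0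
  have hx : ∀ s, (x s).IsHomogeneous 1 := by
    intro s
    apply IsHomogeneous.sum
    intro t _
    split_ifs
    · exact isHomogeneous_X ℂ t
    · exact isHomogeneous_zero τ ℂ 1
  have hxf : ∀ t, x (f t) = X t := by
    intro t
    change (∑ t', if f t' = f t then (X t' : MvPolynomial τ ℂ) else 0) = X t
    rw [Finset.sum_eq_single t]
    · rw [if_pos rfl]
    · intro b _ hb
      rw [if_neg (fun hh => hb (hf hh))]
    · intro hh
      exact absurd (Finset.mem_univ _) hh
  have hlin : ∀ v : σ → ℂ, aeval x (lin v) = lin fun t => v (f t) := by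
    intro v
    unfold lin
    rw [map_sum]
    have h1 : ∀ s, aeval x (C (v s) * X s : MvPolynomial σ ℂ) =
        ∑ t, if f t = s then (C (v (f t)) * X t : MvPolynomial τ ℂ) else 0 := by
      intro s
      rw [map_mul, aeval_C, aeval_X, algebraMap_eq]
      change C (v s) * (∑ t, if f t = s then (X t : MvPolynomial τ ℂ) else 0) = _
      rw [Finset.mul_sum]
      refine Finset.sum_congr rfl fun t _ => ?_
      split_ifs with hts
      · rw [hts]
      · rw [mul_zero]
    rw [Finset.sum_congr rfl fun s _ => h1 s, Finset.sum_comm]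
    refine Finset.sum_congr rfl fun t _ => ?_
    rw [Finset.sum_ite_eq]
    rw [if_pos (Finset.mem_univ _)]
  have hmap : powSpan d w e ≤
      (powSpan d (fun p t => w p (f t)) e).comap (aeval x : MvPolynomial σ ℂ →ₐ[ℂ] _).toLinearMap := by
    unfold powSpan
    rw [Submodule.span_le]
    rintro F ⟨p, g, hp, hg, rfl⟩
    refine Submodule.subset_span ⟨p, aeval x g, hp, ?_, ?_⟩
    · have := hg.aeval x hx
      rwa [one_mul] at this
    · rw [AlgHom.toLinearMap_apply, map_mul, map_pow, hlin]
  intro F hF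
  have h1 : rename f F ∈ homogeneousSubmodule σ ℂ d := by
    rw [mem_homogeneousSubmodule]
    exact IsHomogeneous.rename_isHomogeneous hF
  have h2 := hmap (h h1)
  rw [Submodule.mem_comap, AlgHom.toLinearMap_apply, aeval_rename] at h2
  have h3 : (x ∘ f) = X := funext hxf
  rw [h3, aeval_X_left, AlgHom.id_apply] at h2
  exact h2

/-- Spanning in degree `j` implies spanning in degree `d ≥ j`. -/
theorem powSpan_up {σ P : Type} [Fintype σ] (j d : ℕ) (hjd : j ≤ d) (w : P → σ → ℂ) (e : P → ℕ)
    (h : homogeneousSubmodule σ ℂ j ≤ powSpan j w e) :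
    homogeneousSubmodule σ ℂ d ≤ powSpan d w e := by
  have h1 : homogeneousSubmodule σ ℂ d =
      homogeneousSubmodule σ ℂ (d - j) * homogeneousSubmodule σ ℂ j := by
    rw [← homogeneousSubmodule_one_pow (σ := σ) ℂ d, ← homogeneousSubmodule_one_pow (σ := σ) ℂ (d - j),
      ← homogeneousSubmodule_one_pow (σ := σ) ℂ j, ← pow_add, Nat.sub_add_cancel hjd]
  rw [h1, Submodule.mul_le]
  intro G hG F hF
  have hF' := h hF
  have hmap : powSpan j w e ≤ (powSpan d w e).comap (LinearMap.mulLeft ℂ G) := by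
    conv_lhs => unfold powSpan
    rw [Submodule.span_le]
    rintro K ⟨p, g, hp, hg, rfl⟩
    refine Submodule.subset_span ⟨p, G * g, hp.trans hjd, ?_, ?_⟩
    · have := IsHomogeneous.mul hG hg
      rwa [show d - j + (j - e p) = d - e p by omega] at this
    · rw [LinearMap.mulLeft_apply, mul_assoc]
  exact hmap hF'

end Pool.Agent.H21.HD

end

section

/-!
# Module NumA: upper and lower bounds for `ell`

`ell n c = binom(c + n - 1, n) = binom(c + n - 1, c - 1)` for `c ≥ 1` (`Nat.choose_symm_diff`);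
`Nat.choose_le_pow`, `Nat.pow_le_choose` (or `Nat.pow_sub_le_descFactorial`,
`Nat.choose_eq_descFactorial_div_factorial`; or induction with `ell_mul_add`-type identities).
-/

namespace Pool.Agent.H21.NX

open Pool.Agent.H18.Ex

private theorem numA_ell_eq (s k : ℕ) : ell s (k + 1) = (k + s).choose k := by
  unfold ell
  rw [show k + 1 + s - 1 = k + s by omega, Nat.choose_symm_add]

private theorem numA_choose_le (n k : ℕ) : n.choose k ≤ n ^ k := by
  have h1 : n.choose k ≤ n.descFactorial k := by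
    rw [Nat.descFactorial_eq_factorial_mul_choose]
    exact Nat.le_mul_of_pos_left _ (Nat.factorial_pos k)
  exact h1.trans (Nat.descFactorial_le_pow n k)

private theorem numA_le_choose (n k : ℕ) : (n + 1 - k) ^ k ≤ (k + 1) ^ (k + 1) * n.choose k := by
  have h1 := Nat.pow_sub_le_descFactorial n k
  rw [Nat.descFactorial_eq_factorial_mul_choose] at h1
  refine h1.trans (Nat.mul_le_mul_right _ ?_)
  calc k.factorial ≤ (k + 1).factorial := Nat.factorial_le (Nat.le_succ k)
    _ ≤ (k + 1) ^ (k + 1) := Nat.factorial_le_pow (k + 1)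

theorem ell_le_pow (s c : ℕ) (hc : 1 ≤ c) (h : c ≤ s) : ell s c ≤ (2 * s) ^ (c - 1) := by
  obtain ⟨k, rfl⟩ : ∃ k, c = k + 1 := ⟨c - 1, by omega⟩
  rw [numA_ell_eq, Nat.add_sub_cancel]
  exact (numA_choose_le _ _).trans (Nat.pow_le_pow_left (by omega) _)

theorem ell_succ_le_pow (s c : ℕ) (hc : 1 ≤ c) (h : c ≤ s) :
    ell (s + 1) c ≤ (2 * s) ^ (c - 1) := by
  obtain ⟨k, rfl⟩ : ∃ k, c = k + 1 := ⟨c - 1, by omega⟩
  rw [numA_ell_eq, Nat.add_sub_cancel]
  exact (numA_choose_le _ _).trans (Nat.pow_le_pow_left (by omega) _)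

theorem pow_le_ell (s c : ℕ) (hc : 1 ≤ c) : s ^ (c - 1) ≤ c ^ c * ell s c := by
  obtain ⟨k, rfl⟩ : ∃ k, c = k + 1 := ⟨c - 1, by omega⟩
  rw [numA_ell_eq, Nat.add_sub_cancel]
  refine le_trans (Nat.pow_le_pow_left ?_ _) (numA_le_choose (k + s) k)
  omega

theorem pow_le_ell_succ (s c : ℕ) (hc : 1 ≤ c) : s ^ (c - 1) ≤ c ^ c * ell (s + 1) c := by
  obtain ⟨k, rfl⟩ : ∃ k, c = k + 1 := ⟨c - 1, by omega⟩
  rw [numA_ell_eq, Nat.add_sub_cancel]
  refine le_trans (Nat.pow_le_pow_left ?_ _) (numA_le_choose (k + (s + 1)) k)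
  omega

end Pool.Agent.H21.NX

end

section

/-!
# Module E3 (TB): choosing a part of the points

`greedy`: induction on `S`.

`choose_part`: let `q = S.count μ`, `S = replicate q μ + R`.  If `e₀ + q * w μ ≥ N` take the smallest
`q' ≤ q` with `e₀ + q' * w μ ≥ N` (`greedy`), so `q' * w μ ≥ N - e₀ ≥ N / 2`.  Otherwise take all `q` of them
and a part of `R` (`greedy` with `N - e₀ - q * w μ`).
-/

namespace Pool.Agent.H51.TB

open Finset

theorem greedy (w : ℕ → ℕ) (B X : ℕ) (S : Multiset ℕ) (hB : ∀ m ∈ S, w m ≤ B)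
    (hX : X ≤ (S.map w).sum) : ∃ T ≤ S, X ≤ (T.map w).sum ∧ (T.map w).sum ≤ X + B := by
  induction S using Multiset.induction_on with
  | empty =>
    refine ⟨0, le_rfl, ?_, ?_⟩
    · simpa using hX
    · simp
  | cons a S ih =>
    by_cases h : X ≤ (S.map w).sum
    · obtain ⟨T, hT, h1, h2⟩ := ih (fun m hm => hB m (Multiset.mem_cons_of_mem hm)) h
      exact ⟨T, hT.trans (Multiset.le_cons_self S a), h1, h2⟩
    · refine ⟨a ::ₘ S, le_rfl, hX, ?_⟩
      have h3 := hB a (Multiset.mem_cons_self a S)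
      rw [Multiset.map_cons, Multiset.sum_cons]
      omega

theorem choose_part (w : ℕ → ℕ) (B N e₀ μ : ℕ) (S : Multiset ℕ) (hB : ∀ m ∈ S, w m ≤ B)
    (he : 2 * e₀ ≤ N) (hN : N ≤ e₀ + (S.map w).sum) :
    ∃ T ≤ S, N ≤ e₀ + (T.map w).sum ∧ e₀ + (T.map w).sum ≤ N + B ∧
      (T.count μ = S.count μ ∨ N ≤ 2 * (T.count μ * w μ)) := by
  set q := S.count μ with hq
  set R := S.filter (fun x => ¬ x = μ) with hR
  have hS : Multiset.replicate q μ + R = S := by
    rw [hq, ← Multiset.filter_eq', hR]
    exact Multiset.filter_add_not _ S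
  have hsum : (S.map w).sum = q * w μ + (R.map w).sum := by
    rw [← hS, Multiset.map_add, Multiset.sum_add, Multiset.map_replicate, Multiset.sum_replicate,
      smul_eq_mul]
  by_cases h : N ≤ e₀ + q * w μ
  · have h1 : N - e₀ ≤ ((Multiset.replicate q μ).map w).sum := by
      rw [Multiset.map_replicate, Multiset.sum_replicate, smul_eq_mul]
      omega
    obtain ⟨T, hT, h2, h3⟩ := greedy w B (N - e₀) (Multiset.replicate q μ)
      (fun m hm => hB m (by rw [← hS]; exact Multiset.mem_add.2 (Or.inl hm))) h1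
    obtain ⟨k, hk, rfl⟩ := Multiset.le_replicate_iff.1 hT
    rw [Multiset.map_replicate, Multiset.sum_replicate, smul_eq_mul] at h2 h3
    refine ⟨Multiset.replicate k μ, ?_, ?_, ?_, Or.inr ?_⟩
    · refine hT.trans ?_
      conv_rhs => rw [← hS]
      exact Multiset.le_add_right _ _
    · rw [Multiset.map_replicate, Multiset.sum_replicate, smul_eq_mul]
      omega
    · rw [Multiset.map_replicate, Multiset.sum_replicate, smul_eq_mul]
      omega
    · rw [Multiset.count_replicate_self]
      omega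
  · have h1 : N - e₀ - q * w μ ≤ (R.map w).sum := by omega
    obtain ⟨T, hT, h2, h3⟩ := greedy w B (N - e₀ - q * w μ) R
      (fun m hm => hB m (by rw [← hS]; exact Multiset.mem_add.2 (Or.inr hm))) h1
    have hcT : T.count μ = 0 := by
      rw [Multiset.count_eq_zero]
      intro hm
      have h4 := Multiset.mem_of_le hT hm
      rw [hR, Multiset.mem_filter] at h4
      exact h4.2 rfl
    have hsT : ((Multiset.replicate q μ + T).map w).sum = q * w μ + (T.map w).sum := by
      rw [Multiset.map_add, Multiset.sum_add, Multiset.map_replicate, Multiset.sum_replicate,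
        smul_eq_mul]
    refine ⟨Multiset.replicate q μ + T, ?_, ?_, ?_, Or.inl ?_⟩
    · conv_rhs => rw [← hS]
      exact Multiset.add_le_add_left hT
    · rw [hsT]
      omega
    · rw [hsT]
      omega
    · rw [Multiset.count_add, Multiset.count_replicate_self, hcT, add_zero]

end Pool.Agent.H51.TB

end

section

/-!
# Module A1 (TB): general positions

Everything is as in `Pool/Agent/H21/NX/GenA.lean` (with `Fin (r + 1)` replaced by `ν`), and
`SwapX.gen_fix` of `Pool/Agent/H21/NX/Swap.lean` for the last statement.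
-/

namespace Pool.Agent.H51.TB

open Finset MvPolynomial

variable {κ κ' ν : Type}

private theorem GnX.eval_aeval {σ τ : Type*} (a : τ → ℂ) (g : σ → MvPolynomial τ ℂ)
    (G : MvPolynomial σ ℂ) : eval a (aeval g G) = eval (fun x => eval a (g x)) G := by
  induction G using MvPolynomial.induction_on with
  | C c => simp
  | add p q hp hq => rw [map_add, map_add, map_add, hp, hq]
  | mul_X p i hp => rw [map_mul, map_mul, map_mul, hp, aeval_X, eval_X]

private theorem GnX.exists_eval_ne_zero {τ : Type*} {G : MvPolynomial τ ℂ} (hG : G ≠ 0) :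
    ∃ a, eval a G ≠ 0 := by
  by_contra hcon
  push Not at hcon
  exact hG (MvPolynomial.funext fun a => by rw [hcon a, map_zero])

theorem Gn.mono {P Q : (κ → ν → ℂ) → Prop} (h : Gn κ ν P) (hPQ : ∀ p, P p → Q p) : Gn κ ν Q := by
  obtain ⟨G, hG, h⟩ := h
  exact ⟨G, hG, fun p hp => hPQ p (h p hp)⟩

theorem Gn.and {P Q : (κ → ν → ℂ) → Prop} (h : Gn κ ν P) (h' : Gn κ ν Q) :
    Gn κ ν fun p => P p ∧ Q p := by
  obtain ⟨G, hG, h⟩ := h
  obtain ⟨G', hG', h'⟩ := h'
  refine ⟨G * G', mul_ne_zero hG hG', fun p hp => ?_⟩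
  rw [map_mul] at hp
  exact ⟨h p (left_ne_zero_of_mul hp), h' p (right_ne_zero_of_mul hp)⟩

/-- A nonzero polynomial over `ℂ` has a non-root (`MvPolynomial.funext`). -/
theorem Gn.exists {P : (κ → ν → ℂ) → Prop} (h : Gn κ ν P) : ∃ p, P p := by
  obtain ⟨G, hG, h⟩ := h
  obtain ⟨a, ha⟩ := GnX.exists_eval_ne_zero hG
  exact ⟨fun i j => a (i, j), h (fun i j => a (i, j)) ha⟩

theorem Gn.all {α : Type} (s : Finset α) {P : α → (κ → ν → ℂ) → Prop}
    (h : ∀ a ∈ s, Gn κ ν (P a)) : Gn κ ν fun p => ∀ a ∈ s, P a p := by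
  classical
  induction s using Finset.induction_on with
  | empty => exact ⟨1, one_ne_zero, fun p _ a ha => absurd ha (Finset.notMem_empty a)⟩
  | insert a s has ih =>
    have h1 := h a (Finset.mem_insert_self a s)
    have h2 := ih fun b hb => h b (Finset.mem_insert_of_mem hb)
    refine (h1.and h2).mono fun p hp b hb => ?_
    rcases Finset.mem_insert.mp hb with rfl | hb
    · exact hp.1
    · exact hp.2 b hb

/-- Use `MvPolynomial.rename` with the injective map `(i, j) ↦ (φ i, j)`. -/
theorem Gn.comap (φ : κ' → κ) (hφ : Function.Injective φ) {P : (κ' → ν → ℂ) → Prop}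
    (h : Gn κ' ν P) : Gn κ ν fun p => P fun i => p (φ i) := by
  obtain ⟨G, hG, h⟩ := h
  have hinj : Function.Injective (fun x : κ' × ν => (φ x.1, x.2)) := by
    intro x y hxy
    have h1 := congrArg Prod.fst hxy
    have h2 := congrArg Prod.snd hxy
    exact Prod.ext (hφ h1) h2
  refine ⟨rename (fun x : κ' × ν => (φ x.1, x.2)) G, ?_, fun p hp => ?_⟩
  · intro h0
    apply hG
    apply rename_injective _ hinj
    rw [h0, map_zero]
  · apply h
    rw [eval_rename] at hp
    exact hp

/-- Fixing some of the points at (general) positions. -/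
theorem Gn.fix {P : (κ ⊕ κ' → ν → ℂ) → Prop} (h : Gn (κ ⊕ κ') ν P) :
    ∃ p₀ : κ → ν → ℂ, Gn κ' ν fun q => P (Sum.elim p₀ q) := by
  obtain ⟨G, hG0, hG⟩ := h
  obtain ⟨a, ha⟩ := GnX.exists_eval_ne_zero hG0
  let p₀ : κ → ν → ℂ := fun i j => a (Sum.inl i, j)
  let G' : MvPolynomial (κ' × ν) ℂ := aeval (fun x : (κ ⊕ κ') × ν =>
    Sum.elim (fun i => (C (p₀ i x.2) : MvPolynomial (κ' × ν) ℂ)) (fun k => X (k, x.2)) x.1) G
  have hG' : ∀ y : κ' → ν → ℂ, eval (fun x => y x.1 x.2) G' =
      eval (fun x : (κ ⊕ κ') × ν => Sum.elim p₀ y x.1 x.2) G := by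
    intro y
    simp only [G']
    rw [GnX.eval_aeval]
    refine congrArg (fun f : (κ ⊕ κ') × ν → ℂ => eval f G) (funext fun x => ?_)
    obtain ⟨i | u, j⟩ := x
    · simp
    · simp
  refine ⟨p₀, G', ?_, fun y hy => ?_⟩
  · intro h0
    have h1 := hG' fun k j => a (Sum.inr k, j)
    rw [h0, map_zero] at h1
    apply ha
    have h2 : a = fun x : (κ ⊕ κ') × ν => Sum.elim p₀ (fun k j => a (Sum.inr k, j)) x.1 x.2 := by
      funext x
      obtain ⟨i | k, j⟩ := x <;> rfl
    rw [h2]
    exact h1.symm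
  · exact hG _ (by rw [← hG']; exact hy)

end Pool.Agent.H51.TB

end

section

/-!
# Module A2 (TB): the general dimension, first facts

As in `Pool/Agent/H21/NX/GenB.lean` and `SwapX.fat_elim`, `SwapX.finrank_sup` in
`Pool/Agent/H21/NX/Swap.lean`.  For `gn_gd`: the matrix of all conditions (rows `Σ i, S.R (m i)`,
columns `E`, entries `rename (fun v => (i, v)) (S.co (m i) r e)`) and `exists_poly_rank`
(`Pool/Agent/H18/FatToric.lean`): the rank at general positions is at least the rank at a
position where the minimum `gd m` is attained; `finrank ker + finrank range = card E`.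
-/

namespace Pool.Agent.H51.TB

open Finset MvPolynomial

variable {E ν T : Type} [Fintype E] (S : Sys E ν T) {κ κ' : Type}

/-- The values of the conditions as polynomials in the position. -/
private noncomputable def GdX.lam {E ν : Type} [Fintype E] (c : E → MvPolynomial ν ℂ) :
    (E → ℂ) →ₗ[ℂ] MvPolynomial ν ℂ where
  toFun w := ∑ e, w e • c e
  map_add' := fun w w' => by
    simp only [Pi.add_apply, add_smul, sum_add_distrib]
  map_smul' := fun a w => by
    simp only [Pi.smul_apply, smul_eq_mul, mul_smul, smul_sum, RingHom.id_apply]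

private theorem GdX.eval_lam {E ν : Type} [Fintype E] (c : E → MvPolynomial ν ℂ) (q : ν → ℂ)
    (w : E → ℂ) : eval q (GdX.lam c w) = ∑ e, eval q (c e) * w e := by
  unfold GdX.lam
  simp only [LinearMap.coe_mk, AddHom.coe_mk]
  rw [map_sum]
  refine sum_congr rfl fun e _ => ?_
  rw [smul_eval, mul_comm]

private theorem GdX.mem_V_lam (m : κ → T) (p : κ → ν → ℂ) (f : E → ℂ) :
    f ∈ S.V m p ↔ ∀ i (r : S.R (m i)), eval (p i) (GdX.lam (S.co (m i) r) f) = 0 := by
  rw [S.mem_V]
  constructor
  · intro h i r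
    rw [GdX.eval_lam]
    exact h i r
  · intro h i r
    have := h i r
    rwa [GdX.eval_lam] at this

/-- Points of a family with independent values. -/
private theorem GdX.exists_det_ne_zero {ι X : Type} [Fintype ι] [DecidableEq ι] (v : X → ι → ℂ)
    (h : ∀ c : ι → ℂ, (∀ x, ∑ τ, c τ * v x τ = 0) → c = 0) :
    ∃ x : ι → X, (Matrix.of fun τ τ' => v (x τ) τ').det ≠ 0 := by
  classical
  have hspan : Submodule.span ℂ (Set.range v) = ⊤ := by
    by_contra hne
    obtain ⟨f, hf0, hf⟩ := Submodule.exists_le_ker_of_lt_top _ (lt_top_iff_ne_top.mpr hne)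
    have hfe : ∀ w : ι → ℂ, f w = ∑ τ, f (Pi.single τ 1) * w τ := by
      intro w
      conv_lhs => rw [← Finset.univ_sum_single w]
      rw [map_sum]
      refine Finset.sum_congr rfl fun τ _ => ?_
      have : (Pi.single τ (w τ) : ι → ℂ) = w τ • Pi.single τ 1 := by
        rw [← Pi.single_smul, smul_eq_mul, mul_one]
      rw [this, map_smul, smul_eq_mul, mul_comm]
    have hc := h (fun τ => f (Pi.single τ 1)) (fun x => by
      rw [← hfe]
      exact LinearMap.mem_ker.mp (hf (Submodule.subset_span ⟨x, rfl⟩)))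
    apply hf0
    ext w
    have := congrFun hc w
    simpa using this
  obtain ⟨b, hb, hbs, hbl⟩ := exists_linearIndependent ℂ (Set.range v)
  rw [hspan] at hbs
  let B : Module.Basis b ℂ (ι → ℂ) := Module.Basis.mk hbl (by
    rw [Subtype.range_coe_subtype, Set.ofPred_mem_eq, hbs])
  have hfin : Finite b := Module.Finite.finite_basis B
  let _ : Fintype b := Fintype.ofFinite b
  have hcard : Fintype.card ι = Fintype.card b := by
    rw [← Module.finrank_eq_card_basis B, Module.finrank_fintype_fun_eq_card]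
  let e : ι ≃ b := Fintype.equivOfCardEq hcard
  have hx : ∀ τ : ι, ∃ x : X, v x = (e τ : ι → ℂ) := fun τ => hb (e τ).2
  choose x hx using hx
  refine ⟨x, ?_⟩
  have hli : LinearIndependent ℂ (Matrix.of fun τ τ' => v (x τ) τ').row := by
    have : (Matrix.of fun τ τ' => v (x τ) τ').row = fun τ => (e τ : ι → ℂ) := by
      funext τ
      exact hx τ
    rw [this]
    exact hbl.comp e e.injective
  rw [Matrix.linearIndependent_rows_iff_isUnit, Matrix.isUnit_iff_isUnit_det] at hli
  exact hli.ne_zero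

/-- Semicontinuity. -/
private theorem GdX.gn_finrank_le (m : κ → T) (p₀ : κ → ν → ℂ) :
    Gn κ ν fun p => Module.finrank ℂ (S.V m p) ≤ Module.finrank ℂ (S.V m p₀) := by
  classical
  obtain ⟨W', hW'⟩ := Submodule.exists_isCompl (S.V m p₀)
  let b := Module.finBasis ℂ W'
  let v : (Σ a, S.R (m a)) → Fin (Module.finrank ℂ W') → ℂ := fun x τ =>
    eval (p₀ x.1) (GdX.lam (S.co (m x.1) x.2) (b τ : E → ℂ))
  obtain ⟨x, hx⟩ := GdX.exists_det_ne_zero v (by
    intro c hc
    have h1 : ((∑ τ, c τ • b τ : W') : E → ℂ) ∈ S.V m p₀ := by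
      rw [GdX.mem_V_lam]
      intro a s
      have h2 := hc ⟨a, s⟩
      rw [Submodule.coe_sum, map_sum, map_sum, ← h2]
      refine Finset.sum_congr rfl fun τ _ => ?_
      rw [Submodule.coe_smul, map_smul, smul_eval]
    have h3 : ((∑ τ, c τ • b τ : W') : E → ℂ) = 0 := by
      have := Submodule.disjoint_def.mp hW'.disjoint _ h1 (∑ τ, c τ • b τ : W').2
      exact this
    have h4 : (∑ τ, c τ • b τ : W') = 0 := Subtype.ext h3
    have h5 := Fintype.linearIndependent_iff.mp b.linearIndependent c h4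
    exact funext h5)
  let M : Matrix (Fin (Module.finrank ℂ W')) (Fin (Module.finrank ℂ W')) (MvPolynomial (κ × ν) ℂ) :=
    Matrix.of fun τ τ' => rename (fun j => ((x τ).1, j))
      (GdX.lam (S.co (m (x τ).1) (x τ).2) (b τ' : E → ℂ))
  have hM : ∀ p : κ → ν → ℂ, eval (fun x => p x.1 x.2) M.det =
      (Matrix.of fun τ τ' => eval (p (x τ).1)
        (GdX.lam (S.co (m (x τ).1) (x τ).2) (b τ' : E → ℂ))).det := by
    intro p
    rw [RingHom.map_det]
    congr 1
    ext τ τ'
    rw [RingHom.mapMatrix_apply, Matrix.map_apply]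
    simp only [M, Matrix.of_apply]
    rw [eval_rename]
    rfl
  refine ⟨M.det, ?_, fun p hp => ?_⟩
  · intro h0
    apply hx
    have := hM p₀
    rw [h0, map_zero] at this
    exact this.symm
  · rw [hM] at hp
    let Φ : (E → ℂ) →ₗ[ℂ] (Fin (Module.finrank ℂ W') → ℂ) :=
      LinearMap.pi fun τ => (aeval (p (x τ).1)).toLinearMap ∘ₗ GdX.lam (S.co (m (x τ).1) (x τ).2)
    have hΦ : ∀ w τ, Φ w τ = eval (p (x τ).1) (GdX.lam (S.co (m (x τ).1) (x τ).2) w) := by
      intro w τ
      simp only [Φ, LinearMap.pi_apply, LinearMap.comp_apply, AlgHom.toLinearMap_apply]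
      rw [aeval_eq_eval]
    have hle : S.V m p ≤ LinearMap.ker Φ := by
      intro w hw
      rw [LinearMap.mem_ker]
      funext τ
      rw [hΦ]
      exact (GdX.mem_V_lam S m p w).mp hw (x τ).1 (x τ).2
    have hsurj : LinearMap.range Φ = ⊤ := by
      rw [LinearMap.range_eq_top]
      intro y
      rw [← isUnit_iff_ne_zero, ← Matrix.isUnit_iff_isUnit_det] at hp
      obtain ⟨c, hc⟩ := (Matrix.mulVec_surjective_iff_isUnit.mpr hp) y
      refine ⟨∑ τ', c τ' • (b τ' : E → ℂ), ?_⟩
      rw [← hc]
      funext τ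
      rw [hΦ, map_sum, map_sum, Matrix.mulVec, dotProduct]
      refine Finset.sum_congr rfl fun τ' _ => ?_
      rw [map_smul, smul_eval, Matrix.of_apply, mul_comm]
    have h1 := LinearMap.finrank_range_add_finrank_ker Φ
    rw [hsurj, finrank_top, Module.finrank_fintype_fun_eq_card, Fintype.card_fin] at h1
    have h2 := Submodule.finrank_add_eq_of_isCompl hW'
    have h3 := Submodule.finrank_mono hle
    omega

/-- The conditions of two families of points. -/
theorem V_elim (m : κ → T) (n : κ' → T) (p : κ → ν → ℂ) (q : κ' → ν → ℂ) :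
    S.V (Sum.elim m n) (Sum.elim p q) = S.V m p ⊓ S.V n q := by
  ext f
  rw [Submodule.mem_inf, S.mem_V, S.mem_V, S.mem_V]
  constructor
  · intro h
    exact ⟨fun i => h (Sum.inl i), fun i => h (Sum.inr i)⟩
  · rintro ⟨h1, h2⟩ (i | i)
    · exact h1 i
    · exact h2 i

theorem finrank_V_sup (m : κ → T) (n : κ' → T) (p : κ → ν → ℂ) (q : κ' → ν → ℂ) :
    Module.finrank ℂ (S.V m p ⊔ S.V n q : Submodule ℂ (E → ℂ)) +
      Module.finrank ℂ (S.V (Sum.elim m n) (Sum.elim p q)) =
      Module.finrank ℂ (S.V m p) + Module.finrank ℂ (S.V n q) := by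
  rw [V_elim]
  exact Submodule.finrank_sup_add_finrank_inf_eq _ _

theorem gd_le (m : κ → T) (p : κ → ν → ℂ) : S.gd m ≤ Module.finrank ℂ (S.V m p) := by
  exact Nat.sInf_le ⟨p, rfl⟩

theorem gd_attained (m : κ → T) : ∃ p : κ → ν → ℂ, Module.finrank ℂ (S.V m p) = S.gd m := by
  obtain ⟨p, hp⟩ := Nat.sInf_mem (Set.range_nonempty
    fun p : κ → ν → ℂ => Module.finrank ℂ (S.V m p))
  exact ⟨p, hp⟩

theorem gd_le_card (m : κ → T) : S.gd m ≤ Fintype.card E := by
  obtain ⟨p, hp⟩ := gd_attained S m
  rw [← hp]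
  have := Submodule.finrank_le (S.V m p)
  rwa [Module.finrank_fintype_fun_eq_card] at this

/-- The minimal dimension is attained at general positions. -/
theorem gn_gd [Fintype κ] (m : κ → T) :
    Gn κ ν fun p => Module.finrank ℂ (S.V m p) = S.gd m := by
  obtain ⟨p₀, hp₀⟩ := gd_attained S m
  refine (GdX.gn_finrank_le S m p₀).mono fun p hp => ?_
  rw [hp₀] at hp
  exact le_antisymm hp (gd_le S m p)

theorem gd_comp_equiv (e : κ' ≃ κ) (m : κ → T) : S.gd (fun i => m (e i)) = S.gd m := by
  have key : ∀ p : κ → ν → ℂ, S.V (fun i => m (e i)) (fun i => p (e i)) = S.V m p := by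
    intro p
    ext f
    rw [S.mem_V, S.mem_V]
    constructor
    · intro h i
      obtain ⟨j, rfl⟩ := e.surjective i
      exact h j
    · intro h i
      exact h (e i)
  apply le_antisymm
  · obtain ⟨p₀, hp₀⟩ := gd_attained S m
    rw [← hp₀, ← key p₀]
    exact gd_le S _ _
  · obtain ⟨p₀, hp₀⟩ := gd_attained S (fun i => m (e i))
    have h1 := key fun j => p₀ (e.symm j)
    simp only [Equiv.symm_apply_apply] at h1
    rw [← hp₀, h1]
    exact gd_le S _ _

/-- Fewer points: the dimension is larger. -/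
theorem gd_elim_le [Fintype κ] [Fintype κ'] (m : κ → T) (n : κ' → T) :
    S.gd (Sum.elim m n) ≤ S.gd m := by
  obtain ⟨p₀, hp₀⟩ := gd_attained S m
  rw [← hp₀]
  refine (gd_le S (Sum.elim m n) (Sum.elim p₀ 0)).trans (Submodule.finrank_mono ?_)
  rw [V_elim]
  exact inf_le_left

theorem gd_empty [IsEmpty κ] (m : κ → T) : S.gd m = Fintype.card E := by
  obtain ⟨p₀, hp₀⟩ := gd_attained S m
  have h : S.V m p₀ = ⊤ := by
    rw [eq_top_iff]
    intro f _
    rw [S.mem_V]
    exact fun i => isEmptyElim i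
  rw [← hp₀, h, finrank_top, Module.finrank_fintype_fun_eq_card]

theorem gd_unit (t : T) : S.gd (fun _ : Unit => t) + S.size t = Fintype.card E := by
  have h1 := gd_le_card S fun _ : Unit => t
  unfold Sys.size
  omega

end Pool.Agent.H51.TB

end

section

/-!
# Module A3 (TB): the general dimension, adding points

As in `Pool/Agent/H21/NX/GenB.lean` (`le_gdim_elim`, `gdim_submod`, `gdim_simple`).
-/

namespace Pool.Agent.H51.TB

open Finset MvPolynomial

variable {E ν T : Type} [Fintype E] (S : Sys E ν T) {κ : Type}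

private theorem GsX.comp_elim {α β γ : Type} (p : β → γ) (f : α → β) (b : β) :
    (fun i => p (Sum.elim f (fun _ : Unit => b) i)) =
      Sum.elim (fun i => p (f i)) fun _ : Unit => p b := by
  funext i
  rcases i with i | i <;> rfl

private theorem GsX.elim_inj {α β : Type} (f : α → β) (b : β) (hf : Function.Injective f)
    (hb : ∀ a, f a ≠ b) : Function.Injective (Sum.elim f fun _ : Unit => b) := by
  rintro (x | x) (y | y) h
  · exact congrArg Sum.inl (hf h)
  · exact absurd h (hb x)
  · exact absurd h.symm (hb y)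
  · rfl

/-- One more point imposes at most `size t` conditions: at general positions
`finrank (V m ⊓ V t) ≥ finrank V m + finrank V t - card E`. -/
theorem gd_le_ad [Fintype κ] (m : κ → T) (t : T) : S.gd m ≤ S.gd (ad m t) + S.size t := by
  obtain ⟨P, hP1, hP2⟩ := ((gn_gd S (ad m t)).and ((gn_gd S fun _ : Unit => t).comap
    (fun _ : Unit => (Sum.inr () : κ ⊕ Unit)) (fun _ _ _ => rfl))).exists
  have e : P = Sum.elim (fun i => P (Sum.inl i)) fun _ : Unit => P (Sum.inr ()) := by
    funext x
    rcases x with i | i <;> rfl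
  have h1 := finrank_V_sup S m (fun _ : Unit => t) (fun i => P (Sum.inl i))
    (fun _ : Unit => P (Sum.inr ()))
  rw [← e] at h1
  change _ + Module.finrank ℂ (S.V (ad m t) P) = _ at h1
  rw [hP1, hP2] at h1
  have h2 := Submodule.finrank_le (S.V m (fun i => P (Sum.inl i)) ⊔
    S.V (fun _ : Unit => t) fun _ : Unit => P (Sum.inr ()))
  rw [Module.finrank_fintype_fun_eq_card] at h2
  have h3 := gd_le S m fun i => P (Sum.inl i)
  have h4 := gd_unit S t
  omega

theorem gd_ad_le [Fintype κ] (m : κ → T) (t : T) : S.gd (ad m t) ≤ S.gd m := by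
  exact gd_elim_le S m fun _ : Unit => t

/-- Submodularity: at general positions `V(m, t)` and `V(m, u)` are subspaces of `V(m)` with
intersection `V(m, t, u)`. -/
theorem gd_submod [Fintype κ] (m : κ → T) (t u : T) :
    S.gd (ad m t) + S.gd (ad m u) ≤ S.gd m + S.gd (ad (ad m t) u) := by
  have hinj : Function.Injective (fun i : κ => (Sum.inl (Sum.inl i) : (κ ⊕ Unit) ⊕ Unit)) :=
    fun a b h => Sum.inl_injective (Sum.inl_injective h)
  obtain ⟨P, hP1, hP2⟩ := ((gn_gd S (ad (ad m t) u)).and
    ((gn_gd S m).comap (fun i : κ => (Sum.inl (Sum.inl i) : (κ ⊕ Unit) ⊕ Unit)) hinj)).exists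
  let P₁ : κ ⊕ Unit → ν → ℂ := fun i => P (Sum.inl i)
  let P₂ : κ ⊕ Unit → ν → ℂ :=
    Sum.elim (fun i => P (Sum.inl (Sum.inl i))) fun j => P (Sum.inr j)
  let P₀ : κ → ν → ℂ := fun i => P (Sum.inl (Sum.inl i))
  have h1 := Submodule.finrank_sup_add_finrank_inf_eq (S.V (ad m t) P₁) (S.V (ad m u) P₂)
  have h2 : S.V (ad m t) P₁ ⊔ S.V (ad m u) P₂ ≤ S.V m P₀ := by
    refine sup_le (fun w hw => ?_) (fun w hw => ?_)
    · rw [S.mem_V] at hw ⊢
      exact fun i => hw (Sum.inl i)
    · rw [S.mem_V] at hw ⊢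
      exact fun i => hw (Sum.inl i)
  have h3 : S.V (ad m t) P₁ ⊓ S.V (ad m u) P₂ = S.V (ad (ad m t) u) P := by
    ext w
    rw [Submodule.mem_inf, S.mem_V, S.mem_V, S.mem_V]
    constructor
    · rintro ⟨hF1, hF2⟩ (i | j)
      · exact hF1 i
      · exact hF2 (Sum.inr j)
    · intro hF
      refine ⟨fun i => hF (Sum.inl i), ?_⟩
      rintro (i | j)
      · exact hF (Sum.inl (Sum.inl i))
      · exact hF (Sum.inr j)
  have h4 := Submodule.finrank_mono h2
  have h5 := gd_le S (ad m t) P₁
  have h6 := gd_le S (ad m u) P₂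
  rw [h3, hP1] at h1
  have hP2' : Module.finrank ℂ (S.V m P₀) = S.gd m := hP2
  omega

/-- If a further point (of positive size) imposes no condition then the dimension is `0`: for
general positions `V m p ≤ V t q`; fix a general `q` (`Gn.fix`), then `V t q ≠ ⊤`, so there is a
functional `φ ≠ 0` with `V t q ≤ ker φ`; apply `hS`. -/
theorem gd_simple (hS : S.Span) [Fintype κ] (m : κ → T) (t : T) (ht : 1 ≤ S.size t)
    (h : S.gd (ad m t) = S.gd m) : S.gd m = 0 := by
  have c1 : Gn (Unit ⊕ κ) ν fun p => Module.finrank ℂ (S.V (ad m t)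
      (Sum.elim (fun a => p (Sum.inr a)) fun _ : Unit => p (Sum.inl ()))) = S.gd (ad m t) := by
    have h1 := (gn_gd S (ad m t)).comap
      (Sum.elim (Sum.inr : κ → Unit ⊕ κ) fun _ : Unit => Sum.inl ())
      (GsX.elim_inj _ _ Sum.inr_injective fun a ha => by cases ha)
    refine h1.mono fun p hp => ?_
    rwa [GsX.comp_elim] at hp
  have c2 : Gn (Unit ⊕ κ) ν fun p =>
      Module.finrank ℂ (S.V m (fun a => p (Sum.inr a))) = S.gd m :=
    (gn_gd S m).comap (Sum.inr : κ → Unit ⊕ κ) Sum.inr_injective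
  have c3 : Gn (Unit ⊕ κ) ν fun p =>
      Module.finrank ℂ (S.V (fun _ : Unit => t) (fun u : Unit => p (Sum.inl u))) =
        S.gd fun _ : Unit => t :=
    (gn_gd S fun _ : Unit => t).comap (Sum.inl : Unit → Unit ⊕ κ) Sum.inl_injective
  obtain ⟨p₀, hfix⟩ := ((c1.and c2).and c3).fix
  have hX : S.V (fun _ : Unit => t) p₀ < ⊤ := by
    rw [lt_top_iff_ne_top]
    intro htop
    obtain ⟨y, hy⟩ := hfix.exists
    have h1 := hy.2
    change Module.finrank ℂ (S.V (fun _ : Unit => t) p₀) = _ at h1
    rw [htop, finrank_top, Module.finrank_fintype_fun_eq_card] at h1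
    have h2 := gd_unit S t
    omega
  obtain ⟨φ, hφ0, hφ⟩ := Submodule.exists_le_ker_of_lt_top _ hX
  refine hS κ m φ hφ0 (hfix.mono fun y hy => ?_)
  obtain ⟨⟨h1, h2⟩, -⟩ := hy
  change Module.finrank ℂ (S.V (Sum.elim m fun _ : Unit => t) (Sum.elim y p₀)) = _ at h1
  change Module.finrank ℂ (S.V m y) = _ at h2
  rw [V_elim, h, ← h2] at h1
  exact (inf_eq_left.mp (Submodule.eq_of_le_of_finrank_eq inf_le_left h1)).trans hφ

end Pool.Agent.H51.TB

end

section

/-!
# V7, block STEP: configurations as multisets of types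

The general dimension depends only on the numbers of points of the types.
-/

set_option autoImplicit false

namespace Pool.Agent.V7.ST

open Finset MvPolynomial Pool.Agent.H51.TB

variable {E ν T : Type} [Fintype E] (S : Sys E ν T)

/-- The general dimension depends only on the numbers of points of the types. -/
theorem gd_congr {κ κ' : Type} [Fintype κ] [Fintype κ'] (m : κ → T) (n : κ' → T)
    (h : (univ : Finset κ).val.map m = (univ : Finset κ').val.map n) : S.gd m = S.gd n := by
  classical
  have hc : ∀ τ : T, Nonempty ({a : κ // m a = τ} ≃ {b : κ' // n b = τ}) := by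
    intro τ
    refine ⟨Fintype.equivOfCardEq ?_⟩
    have h1 := congrArg (Multiset.count τ) h
    rw [Multiset.count_map, Multiset.count_map] at h1
    have e1 : (Multiset.filter (fun a => τ = m a) (univ : Finset κ).val).card =
        Fintype.card {a : κ // m a = τ} := by
      rw [Fintype.card_subtype, ← Finset.filter_val, Finset.card_val]
      exact congrArg Finset.card (Finset.filter_congr fun a _ => eq_comm)
    have e2 : (Multiset.filter (fun a => τ = n a) (univ : Finset κ').val).card =
        Fintype.card {a : κ' // n a = τ} := by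
      rw [Fintype.card_subtype, ← Finset.filter_val, Finset.card_val]
      exact congrArg Finset.card (Finset.filter_congr fun a _ => eq_comm)
    rw [← e1, ← e2, h1]
  let e : ∀ τ : T, {a : κ // m a = τ} ≃ {b : κ' // n b = τ} := fun τ => (hc τ).some
  have h2 := gd_comp_equiv S (Equiv.ofFiberEquiv fun τ => e τ) n
  have h3 : (fun i => n ((Equiv.ofFiberEquiv fun τ => e τ) i)) = m := by
    funext i
    exact Equiv.ofFiberEquiv_map _ _
  rw [h3] at h2
  exact h2

/-- The general dimension of a multiset of types. -/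
noncomputable def gM (s : Multiset T) : ℕ :=
  S.gd fun i : Fin s.toList.length => s.toList.get i

theorem gd_eq_gM {κ : Type} [Fintype κ] (m : κ → T) :
    S.gd m = gM S ((univ : Finset κ).val.map m) := by
  set s := (univ : Finset κ).val.map m with hs
  refine gd_congr S _ _ ?_
  rw [← hs]
  have h1 : (univ : Finset (Fin s.toList.length)).val.map (fun i => s.toList.get i) =
      ((List.ofFn fun i => s.toList.get i : List T) : Multiset T) := by
    rw [List.ofFn_eq_map, Fin.univ_val_map]
    rw [List.ofFn_eq_map]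
  rw [h1, List.ofFn_get, Multiset.coe_toList]

/-- Every multiset is a configuration. -/
theorem exists_conf (s : Multiset T) :
    ∃ m : Fin s.toList.length → T, (univ : Finset (Fin s.toList.length)).val.map m = s ∧
      S.gd m = gM S s := by
  refine ⟨fun i => s.toList.get i, ?_, rfl⟩
  have h1 : (univ : Finset (Fin s.toList.length)).val.map (fun i => s.toList.get i) =
      ((List.ofFn fun i => s.toList.get i : List T) : Multiset T) := by
    rw [List.ofFn_eq_map, Fin.univ_val_map]
    rw [List.ofFn_eq_map]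
  rw [h1, List.ofFn_get, Multiset.coe_toList]

theorem map_elim {κ κ' : Type} [Fintype κ] [Fintype κ'] (m : κ → T) (n : κ' → T) :
    (univ : Finset (κ ⊕ κ')).val.map (Sum.elim m n) =
      (univ : Finset κ).val.map m + (univ : Finset κ').val.map n := by
  rw [← Finset.univ_disjSum_univ, Finset.val_disjSum]
  unfold Multiset.disjSum
  rw [Multiset.map_add, Multiset.map_map, Multiset.map_map]
  rfl

theorem map_const {κ : Type} [Fintype κ] (t : T) :
    (univ : Finset κ).val.map (fun _ => t) = Multiset.replicate (Fintype.card κ) t := by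
  rw [Multiset.map_const', Finset.card_val, Finset.card_univ]

theorem map_ad {κ : Type} [Fintype κ] (m : κ → T) (t : T) :
    (univ : Finset (κ ⊕ Unit)).val.map (ad m t) = t ::ₘ (univ : Finset κ).val.map m := by
  unfold ad
  rw [map_elim, map_const, Fintype.card_unit, Multiset.replicate_one, Multiset.add_comm,
    Multiset.singleton_add]

theorem gM_zero : gM S 0 = Fintype.card E := by
  obtain ⟨m, hm, h⟩ := exists_conf S (0 : Multiset T)
  rw [← h]
  have : IsEmpty (Fin (0 : Multiset T).toList.length) := by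
    rw [Multiset.toList_zero]
    exact Fin.isEmpty'
  exact gd_empty S m

theorem gM_cons_le (s : Multiset T) (t : T) : gM S (t ::ₘ s) ≤ gM S s := by
  obtain ⟨m, hm, h⟩ := exists_conf S s
  have h1 := gd_ad_le S m t
  rwa [gd_eq_gM S (ad m t), map_ad, hm, h] at h1

theorem gM_le_cons (s : Multiset T) (t : T) : gM S s ≤ gM S (t ::ₘ s) + S.size t := by
  obtain ⟨m, hm, h⟩ := exists_conf S s
  have h1 := gd_le_ad S m t
  rwa [gd_eq_gM S (ad m t), map_ad, hm, h] at h1

theorem gM_submod (s : Multiset T) (t u : T) :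
    gM S (t ::ₘ s) + gM S (u ::ₘ s) ≤ gM S s + gM S (u ::ₘ t ::ₘ s) := by
  obtain ⟨m, hm, h⟩ := exists_conf S s
  have h1 := gd_submod S m t u
  rwa [gd_eq_gM S (ad m t), gd_eq_gM S (ad m u), gd_eq_gM S (ad (ad m t) u), map_ad, map_ad,
    map_ad, hm, h, map_ad, hm] at h1

end Pool.Agent.V7.ST

end
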