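import Pool.Agent.H94.LP5.M04
import Pool.Agent.H94.LP5.M05

/-! The parts of this file: V7.Cls, V7.Top.Gam. -/

section

/-!
# V7: the classes of configurations

`C = binom(2M-1, M)`.  On the level `j` the nominal number of the points which lie exactly on the `L_i`,
`i ∈ I`, and impose as many conditions as an `M`-fold point is `nom M c j I * n ^ (M + |I| - j)`.
-/

set_option autoImplicit false

namespace Pool.Agent.V7

open Finset Pool.Agent.H51.TB Pool.Agent.V7.ST

/-- The finite set of the kinds on the level `j`. -/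
def kds (M j : ℕ) : Finset Kd :=
  ((Icc 1 M ×ˢ (range j).powerset).image fun x => Kd.ord x.1 x.2) ∪
    ((range j ×ˢ (range j).powerset).filter (fun x => x.2 ⊆ Ico (x.1 + 1) j)).image fun x =>
      Kd.sw x.1 x.2

theorem mem_kds {M j : ℕ} {τ : Kd} : τ ∈ kds M j ↔ τ.Ok M j := by
  unfold kds
  cases τ with
  | ord μ I =>
    simp only [mem_union, mem_image, mem_product, mem_powerset, mem_filter, mem_Icc, Prod.exists,
      Kd.ord.injEq, reduceCtorEq, and_false, exists_false, or_false, Kd.Ok]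
    constructor
    · rintro ⟨a, b, ⟨⟨h1, h2⟩, h3⟩, rfl, rfl⟩
      exact ⟨h1, h2, h3⟩
    · rintro ⟨h1, h2, h3⟩
      exact ⟨μ, I, ⟨⟨h1, h2⟩, h3⟩, rfl, rfl⟩
  | sw i I =>
    simp only [mem_union, mem_image, mem_product, mem_powerset, mem_filter, mem_range, Prod.exists,
      Kd.sw.injEq, reduceCtorEq, and_false, exists_false, false_or, Kd.Ok]
    constructor
    · rintro ⟨a, b, ⟨⟨h1, h2⟩, h3⟩, rfl, rfl⟩
      exact ⟨h1, h3⟩
    · rintro ⟨h1, h2⟩
      refine ⟨i, I, ⟨⟨h1, fun x hx => ?_⟩, h2⟩, rfl, rfl⟩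
      have := mem_Ico.1 (h2 hx)
      rw [mem_range]
      exact this.2

/-- The virtual dimension of a system with `N τ` points of the kind `τ`. -/
def vN (M c j n : ℕ) (N : Kd → ℕ) : ℤ :=
  (bb c (2 * M - 1) j n : ℤ) - ∑ τ ∈ kds M j, (N τ : ℤ) * (wt M c n τ : ℤ)

theorem vd_eq_vN (M c j n : ℕ) (s : Multiset Kd) (hs : ∀ τ ∈ s, τ ∈ kds M j) :
    vd M c j n s = vN M c j n fun τ => s.count τ := by
  unfold vd vN
  congr 1
  have h1 : (s.map (wt M c n)).sum = ∑ τ ∈ s.toFinset, s.count τ * wt M c n τ :=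
    Finset.sum_multiset_map_count s (wt M c n)
  rw [h1]
  push_cast
  refine Finset.sum_subset (fun τ hτ => hs τ (Multiset.mem_toFinset.1 hτ)) fun τ _ hτ => ?_
  rw [Multiset.mem_toFinset] at hτ
  rw [Multiset.count_eq_zero_of_notMem hτ, Nat.cast_zero, zero_mul]

/-- The nominal density of the points of multiplicity `M` with support `I` on the level `j`. -/
noncomputable def nom (M c j : ℕ) (I : Finset ℕ) : ℝ :=
  (c : ℝ) ^ (j - I.card) / (((2 * M - 1).choose M : ℝ) * ((M + I.card - j).factorial : ℝ))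

/-- The number of the points of type `I` with as many conditions as an `M`-fold point (swapped points
included). -/
def tot (M j : ℕ) (N : Kd → ℕ) (I : Finset ℕ) : ℕ := N (.ord M I) + ∑ i ∈ range j, N (.sw i I)

/-- The densities are within `e` of the nominal ones, except possibly for the type `range j`, for
which nothing is required. -/
structure Cls0 (M c j n : ℕ) (e : ℝ) (N : Kd → ℕ) : Prop where
  /-- only the kinds of the level `j` occur -/
  ok : ∀ τ, N τ ≠ 0 → τ ∈ kds M j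
  /-- `M`-fold points and swapped points together -/
  big : ∀ I, I ⊆ range j → I ≠ range j →
    |(tot M j N I : ℝ) - nom M c j I * (n : ℝ) ^ (M + I.card - j)| ≤ e * (n : ℝ) ^ (M + I.card - j)
  /-- the share of the swapped points -/
  swp : ∀ i < j, ∀ I, I ⊆ range j → (N (.sw i I) : ℝ) ≤
    (2 * ((2 * M - 1).choose M : ℝ) / c * nom M c j I + e) * (n : ℝ) ^ (M + I.card - j)
  /-- the points of smaller multiplicity -/
  sml : ∀ μ, 1 ≤ μ → μ < M → ∀ I, I ⊆ range j →
    (N (.ord μ I) : ℝ) ≤ e * (n : ℝ) ^ (2 * M - μ + I.card - j)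

/-- The densities are within `e` of the nominal ones. -/
structure Cls (M c j n : ℕ) (e : ℝ) (N : Kd → ℕ) : Prop extends Cls0 M c j n e N where
  /-- the type `range j` -/
  top : |(N (.ord M (range j)) : ℝ) - nom M c j (range j) * (n : ℝ) ^ M| ≤ e * (n : ℝ) ^ M

/-- The numbers of the residual system: `N` points on the level `j` in `n` variables, `N'` of them
specialised to `L_j`, and `y` further points of the kind `ord M ∅` swapped to `L_j`. -/
def resN (M j : ℕ) (N N' : Kd → ℕ) (y : ℕ) : Kd → ℕ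
  | .ord μ I => if j ∈ I then N' (.ord μ (I.erase j)) else
      N (.ord μ I) - N' (.ord μ I) - if μ = M ∧ I = ∅ then y else 0
  | .sw i I => if i = j then (if I = ∅ then y else 0) else
      if j ∈ I then N' (.sw i (I.erase j)) else N (.sw i I) - N' (.sw i I)

/-- Exactness on the level `j` (one half; the other one is `vd ≤ gM`). -/
def PROP (M c j : ℕ) : Prop :=
  ∃ e : ℝ, 0 < e ∧ ∃ n₀ : ℕ, ∀ n : ℕ, n₀ ≤ n → ∀ s : Multiset Kd,
    Cls M c j n e (fun τ => s.count τ) → (gM (LS M (blk c n) j) s : ℤ) ≤ max 0 (vd M c j n s)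

/-- Independence without points of the kind `ord M (range j)`. -/
def OJ (M c j : ℕ) : Prop :=
  ∃ e : ℝ, 0 < e ∧ ∃ n₀ : ℕ, ∀ n : ℕ, n₀ ≤ n → ∀ s : Multiset Kd,
    Cls0 M c j n e (fun τ => s.count τ) → Kd.ord M (range j) ∉ s →
    (gM (LS M (blk c n) j) s : ℤ) ≤ vd M c j n s

end Pool.Agent.V7

end

section

/-!
# The vector valued form of a form of the top level

The variables are `φ (inl (i, r))`, `i < k`, `r < c` (the blocks) and `φ (inr t)`, `t < m`.
`Gam φ f a` is the coefficient of `∏ i, x (i, a i)` in `f`, a form in the last `m` variables.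
-/

set_option autoImplicit false
set_option linter.unusedSectionVars false

namespace Pool.Agent.V7.Top

open Finset Module MvPolynomial Pool.Agent.H51.TB Pool.Agent.V7 Pool.Agent.H54.V7
open Pool.Agent.H18.Ex (tcr)

variable {ν : Type} [Fintype ν] [DecidableEq ν] {k c m : ℕ}

/-- The exponent of `∏ i, x (i, a i)` times a monomial in the last variables. -/
def HasX (φ : (Fin k × Fin c) ⊕ Fin m ≃ ν) (a : Fin k → Fin c) (e : ν → ℕ) : Prop :=
  ∀ x : Fin k × Fin c, e (φ (Sum.inl x)) = if x.2 = a x.1 then 1 else 0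

instance (φ : (Fin k × Fin c) ⊕ Fin m ≃ ν) (a : Fin k → Fin c) (e : ν → ℕ) :
    Decidable (HasX φ a e) := by
  unfold HasX
  infer_instance

/-- The exponents of the last variables. -/
noncomputable def zp (φ : (Fin k × Fin c) ⊕ Fin m ≃ ν) (e : ν → ℕ) : Fin m →₀ ℕ :=
  Finsupp.equivFunOnFinite.symm fun t => e (φ (Sum.inr t))

theorem zp_apply (φ : (Fin k × Fin c) ⊕ Fin m ≃ ν) (e : ν → ℕ) (t : Fin m) :
    zp φ e t = e (φ (Sum.inr t)) := rfl

/-- The vector valued form. -/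
noncomputable def Gam (φ : (Fin k × Fin c) ⊕ Fin m ≃ ν) {A : Finset (ν → ℕ)} :
    ({e // e ∈ A} → ℂ) →ₗ[ℂ] ((Fin k → Fin c) → MvPolynomial (Fin m) ℂ) :=
  LinearMap.pi fun a => ∑ e : {e // e ∈ A},
    if HasX φ a e.1 then (monomial (zp φ e.1)).comp (LinearMap.proj e) else 0

theorem Gam_apply (φ : (Fin k × Fin c) ⊕ Fin m ≃ ν) {A : Finset (ν → ℕ)} (f : {e // e ∈ A} → ℂ)
    (a : Fin k → Fin c) : Gam φ f a =
      ∑ e : {e // e ∈ A}, if HasX φ a e.1 then monomial (zp φ e.1) (f e) else 0 := by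
  simp only [Gam, LinearMap.pi_apply, LinearMap.sum_apply]
  refine sum_congr rfl fun e _ => ?_
  split_ifs
  · rfl
  · rfl

theorem sum_split (φ : (Fin k × Fin c) ⊕ Fin m ≃ ν) (e : ν → ℕ) :
    ∑ s, e s = ∑ x, e (φ (Sum.inl x)) + ∑ t, e (φ (Sum.inr t)) := by
  rw [← φ.sum_comp, Fintype.sum_sum_type]

theorem HasX.sum {φ : (Fin k × Fin c) ⊕ Fin m ≃ ν} {a : Fin k → Fin c} {e : ν → ℕ}
    (h : HasX φ a e) : ∑ x, e (φ (Sum.inl x)) = k := by
  have h1 : ∀ x : Fin k × Fin c, e (φ (Sum.inl x)) = if x.2 = a x.1 then 1 else 0 := h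
  simp only [h1]
  rw [Fintype.sum_prod_type]
  simp

theorem Gam_hom (φ : (Fin k × Fin c) ⊕ Fin m ≃ ν) {M : ℕ} (hk : k + 1 = M) (β : ν → ℕ)
    (f : {e // e ∈ Pool.Agent.V7.Ex β (2 * M - 1) k} → ℂ) (a : Fin k → Fin c) :
    (Gam φ f a).IsHomogeneous M := by
  rw [Gam_apply]
  refine IsHomogeneous.sum _ _ _ fun e _ => ?_
  split_ifs with h
  · apply isHomogeneous_monomial
    have h1 := (Pool.Agent.V7.mem_Ex.1 e.2).1
    rw [sum_split φ, h.sum] at h1
    rw [Finsupp.degree_eq_sum]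
    simp only [zp_apply]
    omega
  · exact isHomogeneous_zero _ _ _

/-- Two exponents with the same `x`-part and `z`-part are equal. -/
theorem ext_HasX {φ : (Fin k × Fin c) ⊕ Fin m ≃ ν} {a : Fin k → Fin c} {e e' : ν → ℕ}
    (h : HasX φ a e) (h' : HasX φ a e') (hz : zp φ e = zp φ e') : e = e' := by
  funext s
  obtain ⟨x, rfl⟩ := φ.surjective s
  rcases x with x | t
  · rw [h x, h' x]
  · exact DFunLike.congr_fun hz t

theorem coeff_Gam (φ : (Fin k × Fin c) ⊕ Fin m ≃ ν) {A : Finset (ν → ℕ)}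
    (f : {e // e ∈ A} → ℂ) (a : Fin k → Fin c) (e : {e // e ∈ A}) (h : HasX φ a e.1) :
    coeff (zp φ e.1) (Gam φ f a) = f e := by
  classical
  rw [Gam_apply, coeff_sum, sum_eq_single e]
  · rw [if_pos h, coeff_monomial, if_pos rfl]
  · intro e' _ hne
    split_ifs with h'
    · rw [coeff_monomial, if_neg]
      intro h1
      exact hne (Subtype.ext (ext_HasX h' h h1))
    · exact coeff_zero _
  · intro h1
    exact absurd (mem_univ e) h1

/-- The block numbers are as expected. -/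
def IsB (φ : (Fin k × Fin c) ⊕ Fin m ≃ ν) (β : ν → ℕ) : Prop :=
  (∀ x : Fin k × Fin c, β (φ (Sum.inl x)) = x.1) ∧ ∀ t, k ≤ β (φ (Sum.inr t))

theorem exists_HasX {φ : (Fin k × Fin c) ⊕ Fin m ≃ ν} {β : ν → ℕ} (hβ : IsB φ β) {d : ℕ}
    {e : ν → ℕ} (he : e ∈ Pool.Agent.V7.Ex β d k) (h : ∑ x, e (φ (Sum.inl x)) ≤ k) :
    ∃ a : Fin k → Fin c, HasX φ a e := by
  classical
  have h1 : ∀ i : Fin k, ∃ r : Fin c, e (φ (Sum.inl (i, r))) ≠ 0 := by
    intro i
    obtain ⟨s, hs, hs'⟩ := (Pool.Agent.V7.mem_Ex.1 he).2 i i.2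
    obtain ⟨x, rfl⟩ := φ.surjective s
    rcases x with ⟨i', r⟩ | t
    · have h2 := hβ.1 (i', r)
      rw [hs] at h2
      have h3 : i = i' := Fin.ext h2
      subst h3
      exact ⟨r, hs'⟩
    · have h2 := hβ.2 t
      have := i.2
      omega
  choose a ha using h1
  refine ⟨a, ?_⟩
  rw [Fintype.sum_prod_type] at h
  have h2 : ∀ i : Fin k, 1 ≤ ∑ r, e (φ (Sum.inl (i, r))) := by
    intro i
    refine le_trans ?_ (single_le_sum (f := fun r => e (φ (Sum.inl (i, r))))
      (fun _ _ => Nat.zero_le _) (mem_univ (a i)))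
    have := ha i
    omega
  have h3 : ∀ i : Fin k, ∑ r, e (φ (Sum.inl (i, r))) = 1 := by
    have h4 : ∑ _i : Fin k, 1 ≤ ∑ i : Fin k, ∑ r, e (φ (Sum.inl (i, r))) :=
      sum_le_sum fun i _ => h2 i
    have h5 : ∑ _i : Fin k, 1 = ∑ i : Fin k, ∑ r, e (φ (Sum.inl (i, r))) := by
      apply le_antisymm h4
      rw [sum_const, card_univ, Fintype.card_fin, smul_eq_mul, mul_one]
      exact h
    intro i
    exact ((sum_eq_sum_iff_of_le fun i _ => h2 i).1 h5 i (mem_univ i)).symm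
  rintro ⟨i, r⟩
  show e (φ (Sum.inl (i, r))) = if r = a i then 1 else 0
  have h4 := h3 i
  rw [← add_sum_erase _ _ (mem_univ (a i))] at h4
  have h5 := ha i
  split_ifs with hr
  · rw [hr]
    omega
  · have h6 : e (φ (Sum.inl (i, r))) ≤
        ∑ r ∈ univ.erase (a i), e (φ (Sum.inl (i, r))) :=
      single_le_sum (f := fun r => e (φ (Sum.inl (i, r)))) (fun _ _ => Nat.zero_le _)
        (mem_erase.2 ⟨hr, mem_univ r⟩)
    omega

/-- The coefficients of the monomials of `x`-degree `k` vanish if the vector valued form does. -/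
theorem Gam_zero {φ : (Fin k × Fin c) ⊕ Fin m ≃ ν} {β : ν → ℕ} (hβ : IsB φ β) {d : ℕ}
    (f : {e // e ∈ Pool.Agent.V7.Ex β d k} → ℂ) (hf : Gam φ f = 0)
    (e : {e // e ∈ Pool.Agent.V7.Ex β d k})
    (he : ∑ s ∈ univ.filter (fun s => β s < k), e.1 s ≤ k) : f e = 0 := by
  classical
  have h1 : ∑ s ∈ univ.filter (fun s => β s < k), e.1 s = ∑ x, e.1 (φ (Sum.inl x)) := by
    rw [sum_filter, ← φ.sum_comp, Fintype.sum_sum_type]
    have h2 : ∑ t, (if β (φ (Sum.inr t)) < k then e.1 (φ (Sum.inr t)) else 0) = 0 := by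
      apply sum_eq_zero
      intro t _
      rw [if_neg]
      have := hβ.2 t
      omega
    rw [h2, add_zero]
    refine sum_congr rfl fun x _ => ?_
    rw [if_pos]
    rw [hβ.1 x]
    exact x.1.2
  rw [h1] at he
  obtain ⟨a, ha⟩ := exists_HasX hβ e.2 he
  rw [← coeff_Gam φ f a e ha, hf]
  exact coeff_zero _

/-- The position of a point on all the subspaces. -/
noncomputable def posz (φ : (Fin k × Fin c) ⊕ Fin m ≃ ν) (z : Fin m → ℂ) : ν ⊕ ν → ℂ :=
  Sum.elim (fun s => Sum.elim (fun _ => 0) z (φ.symm s)) 0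

theorem eval_Gam (φ : (Fin k × Fin c) ⊕ Fin m ≃ ν) {A : Finset (ν → ℕ)}
    (f : {e // e ∈ A} → ℂ) (a : Fin k → Fin c) (z : Fin m → ℂ) :
    eval z (Gam φ f a) =
      ∑ e : {e // e ∈ A}, if HasX φ a e.1 then f e * ∏ t, z t ^ e.1 (φ (Sum.inr t)) else 0 := by
  rw [Gam_apply, map_sum]
  refine sum_congr rfl fun e _ => ?_
  split_ifs
  · rw [eval_monomial, Finsupp.prod_fintype _ _ (fun t => pow_zero _)]
    rfl
  · exact map_zero _

theorem htop {φ : (Fin k × Fin c) ⊕ Fin m ≃ ν} {β : ν → ℕ} (hβ : IsB φ β) {M : ℕ}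
    (hk : k + 1 = M) (z : Fin m → ℂ) {A : Finset (ν → ℕ)} (f : {e // e ∈ A} → ℂ)
    (hf : f ∈ (LSA M β A).V (fun _ : Unit => Kd.ord M (range k)) fun _ => posz φ z)
    (a : Fin k → Fin c) : eval z (Gam φ f a) = 0 := by
  classical
  rw [mem_LSA] at hf
  have h1 : Fat (fun e : {a // a ∈ A} => e.1) M
      (msk β (range k) fun s => posz φ z (Sum.inl s)) f := hf ()
  let b : ν → ℕ := fun s => Sum.elim (fun x : Fin k × Fin c => if x.2 = a x.1 then 1 else 0)
    (fun _ => 0) (φ.symm s)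
  have hb1 : ∀ x, b (φ (Sum.inl x)) = if x.2 = a x.1 then 1 else 0 := by
    intro x
    simp [b]
  have hb2 : ∀ t, b (φ (Sum.inr t)) = 0 := by
    intro t
    simp [b]
  have hb : ∑ s, b s < M := by
    rw [sum_split φ]
    simp only [hb1, hb2, sum_const_zero, add_zero]
    rw [Fintype.sum_prod_type]
    simp only [sum_ite_eq', mem_univ, if_true, sum_const, card_univ, Fintype.card_fin,
      smul_eq_mul, mul_one]
    omega
  rw [← h1 b hb, eval_Gam]
  refine sum_congr rfl fun e _ => ?_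
  have hx : ∀ x, (msk β (range k) fun s => posz φ z (Sum.inl s)) (φ (Sum.inl x)) = 0 := by
    intro x
    unfold msk
    rw [if_pos]
    rw [hβ.1 x, mem_range]
    exact x.1.2
  have hz : ∀ t, (msk β (range k) fun s => posz φ z (Sum.inl s)) (φ (Sum.inr t)) = z t := by
    intro t
    unfold msk
    rw [if_neg]
    · simp [posz]
    · rw [mem_range]
      have := hβ.2 t
      omega
  have h2 : tcr (msk β (range k) fun s => posz φ z (Sum.inl s)) e.1 b =
      (∏ x, if e.1 (φ (Sum.inl x)) = b (φ (Sum.inl x)) then (1 : ℂ) else 0) *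
        ∏ t, z t ^ e.1 (φ (Sum.inr t)) := by
    unfold tcr
    rw [← φ.prod_comp, Fintype.prod_sum_type]
    congr 1
    · refine prod_congr rfl fun x _ => ?_
      rw [hx]
      split_ifs with h
      · rw [h, Nat.choose_self, Nat.sub_self, pow_zero, Nat.cast_one, mul_one]
      · rcases Nat.lt_or_ge (e.1 (φ (Sum.inl x))) (b (φ (Sum.inl x))) with h3 | h3
        · rw [Nat.choose_eq_zero_of_lt h3, Nat.cast_zero, zero_mul]
        · rw [zero_pow (by omega), mul_zero]
    · refine prod_congr rfl fun t _ => ?_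
      rw [hz, hb2, Nat.choose_zero_right, Nat.cast_one, one_mul, Nat.sub_zero]
  rw [h2]
  by_cases h : HasX φ a e.1
  · have h4 : (∏ x, if e.1 (φ (Sum.inl x)) = b (φ (Sum.inl x)) then (1 : ℂ) else 0) = 1 :=
      prod_eq_one fun x _ => by rw [if_pos]; rw [hb1, h x]
    rw [if_pos h, h4, one_mul]
  · rw [if_neg h]
    have h3 : ∃ x, e.1 (φ (Sum.inl x)) ≠ b (φ (Sum.inl x)) := by
      by_contra hcon
      push Not at hcon
      apply h
      intro x
      rw [hcon x, hb1]
    obtain ⟨x, hx'⟩ := h3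
    rw [prod_eq_zero (mem_univ x) (by rw [if_neg hx']), zero_mul, mul_zero]

end Pool.Agent.V7.Top

end
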