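import Pool.Agent.H94.LP5.M08

/-! The parts of this file: V7.Top.Basic, V7.Top.LemS, V7.Top.LemN. -/

section

/-!
# Ranks of tuples of complex numbers with respect to derivations
-/

namespace Pool.Agent.V7.Top

open Module MvPolynomial

theorem Kd_anti {S S' : Set ℂ} (h : S ⊆ S') : Kd S' ≤ Kd S := fun _ hD x hx => hD x (h hx)

/-- The values of a derivation on a tuple. -/
noncomputable def dv {ι : Type*} (y : ι → ℂ) : Derivation ℚ ℂ ℂ →ₗ[ℂ] (ι → ℂ) where
  toFun D := fun i => D (y i)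
  map_add' _ _ := rfl
  map_smul' _ _ := rfl

@[simp] theorem dv_apply {ι : Type*} (y : ι → ℂ) (D : Derivation ℚ ℂ ℂ) (i : ι) :
    dv y D i = D (y i) := rfl

/-- The values on a tuple of the derivations which vanish on `S`. -/
noncomputable def im {ι : Type*} (S : Set ℂ) (y : ι → ℂ) : Submodule ℂ (ι → ℂ) :=
  (Kd S).map (dv y)

/-- The number of independent values. -/
noncomputable def rk {ι : Type*} (S : Set ℂ) (y : ι → ℂ) : ℕ := finrank ℂ (im S y)

theorem rk_anti {ι : Type*} [Finite ι] {S S' : Set ℂ} (h : S ⊆ S') (y : ι → ℂ) :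
    rk S' y ≤ rk S y :=
  Submodule.finrank_mono (Submodule.map_mono (Kd_anti h))

theorem rk_le_card {ι : Type*} [Fintype ι] (S : Set ℂ) (y : ι → ℂ) :
    rk S y ≤ Fintype.card ι := by
  refine (Submodule.finrank_le _).trans ?_
  simp

theorem Kd_inf_ker {ι : Type*} (S : Set ℂ) (y : ι → ℂ) :
    Kd S ⊓ LinearMap.ker (dv y) = Kd (S ∪ Set.range y) := by
  ext D
  rw [Submodule.mem_inf, LinearMap.mem_ker]
  constructor
  · rintro ⟨h1, h2⟩ x (hx | ⟨i, rfl⟩)
    · exact h1 x hx
    · exact congrFun h2 i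
  · intro h
    exact ⟨fun x hx => h x (Or.inl hx), funext fun i => h _ (Or.inr ⟨i, rfl⟩)⟩

theorem finrank_map_prod {V A B : Type*} [AddCommGroup V] [Module ℂ V] [AddCommGroup A]
    [Module ℂ A] [AddCommGroup B] [Module ℂ B] [FiniteDimensional ℂ A] [FiniteDimensional ℂ B]
    (P : Submodule ℂ V) (f : V →ₗ[ℂ] A) (g : V →ₗ[ℂ] B) :
    finrank ℂ (P.map (f.prod g)) =
      finrank ℂ (P.map f) + finrank ℂ ((P ⊓ LinearMap.ker f).map g) := by
  set Q := P.map (f.prod g) with hQ
  have h1 := LinearMap.finrank_range_add_finrank_ker ((LinearMap.fst ℂ A B).domRestrict Q)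
  rw [← h1]
  congr 1
  · have h3 : LinearMap.range ((LinearMap.fst ℂ A B).domRestrict Q) = P.map f := by
      rw [LinearMap.range_domRestrict, hQ, ← Submodule.map_comp]
      rfl
    rw [h3]
  · have h2 : (LinearMap.ker ((LinearMap.fst ℂ A B).domRestrict Q)).map
        ((LinearMap.snd ℂ A B).domRestrict Q) = (P ⊓ LinearMap.ker f).map g := by
      ext y
      constructor
      · rintro ⟨⟨q, hq⟩, hq1, rfl⟩
        obtain ⟨v, hv, rfl⟩ := hq
        refine ⟨v, ⟨hv, ?_⟩, rfl⟩
        exact hq1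
      · rintro ⟨v, ⟨hv, hv2⟩, rfl⟩
        refine ⟨⟨(f.prod g) v, Submodule.mem_map_of_mem hv⟩, ?_, rfl⟩
        exact hv2
    have h4 : LinearMap.range (((LinearMap.snd ℂ A B).domRestrict Q).domRestrict
        (LinearMap.ker ((LinearMap.fst ℂ A B).domRestrict Q))) = (P ⊓ LinearMap.ker f).map g := by
      rw [LinearMap.range_domRestrict, h2]
    rw [← h4]
    symm
    apply LinearMap.finrank_range_of_inj
    intro x y hxy
    apply Subtype.ext
    apply Subtype.ext
    apply Prod.ext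
    · have hx : (x : Q).1.1 = 0 := x.2
      have hy : (y : Q).1.1 = 0 := y.2
      rw [hx, hy]
    · exact hxy

theorem rk_joint {ι κ : Type*} [Finite ι] [Finite κ] (S : Set ℂ) (y : ι → ℂ) (y' : κ → ℂ) :
    finrank ℂ ((Kd S).map ((dv y).prod (dv y'))) = rk S y + rk (S ∪ Set.range y) y' := by
  rw [finrank_map_prod, Kd_inf_ker]
  rfl

theorem rk_le_add {ι κ : Type*} [Finite ι] [Finite κ] (S : Set ℂ) (y : ι → ℂ) (y' : κ → ℂ) :
    rk S y' ≤ rk S y + rk (S ∪ Set.range y) y' := by
  rw [← rk_joint]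
  have h : im S y' = ((Kd S).map ((dv y).prod (dv y'))).map (LinearMap.snd ℂ (ι → ℂ) (κ → ℂ)) := by
    rw [← Submodule.map_comp]
    rfl
  rw [rk, h]
  exact Submodule.finrank_map_le _ _

/-- A subspace of a space of functions has a basis in echelon form. -/
theorem exists_pivot {ι : Type*} [Finite ι] (W : Submodule ℂ (ι → ℂ)) :
    ∃ (a : Fin (finrank ℂ W) → ι) (b : Fin (finrank ℂ W) → ι → ℂ), Function.Injective a ∧
      (∀ k, b k ∈ W) ∧ (∀ k k', b k (a k') = if k = k' then 1 else 0) ∧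
      ∀ w ∈ W, w = ∑ k, w (a k) • b k := by
  classical
  let φ : ι → Dual ℂ W := fun i => (LinearMap.proj i).comp W.subtype
  have hspan : Submodule.span ℂ (Set.range φ) = ⊤ := by
    by_contra hne
    obtain ⟨x, hx0, hx⟩ : ∃ x : W, x ≠ 0 ∧ ∀ f ∈ Submodule.span ℂ (Set.range φ), f x = 0 := by
      by_contra hcon
      push Not at hcon
      apply hne
      have h1 : (Submodule.span ℂ (Set.range φ)).dualCoannihilator = ⊥ := by
        rw [eq_bot_iff]
        intro x hx
        rw [Submodule.mem_bot]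
        by_contra hx0
        obtain ⟨f, hf, hf'⟩ := hcon x hx0
        rw [Submodule.mem_dualCoannihilator] at hx
        exact hf' (hx f hf)
      have h2 := Subspace.dualCoannihilator_dualAnnihilator_eq
        (W := Submodule.span ℂ (Set.range φ))
      rw [← h2, h1, Submodule.dualAnnihilator_bot]
    apply hx0
    apply Subtype.ext
    funext i
    exact hx (φ i) (Submodule.subset_span ⟨i, rfl⟩)
  obtain ⟨κ, a, ha, hsp, hli⟩ := exists_linearIndependent' ℂ φ
  rw [hspan] at hsp
  have : Finite κ := Finite.of_injective a ha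
  have : Fintype κ := Fintype.ofFinite κ
  let B : Basis κ ℂ (Dual ℂ W) := Basis.mk hli hsp.ge
  have hcard : Fintype.card κ = finrank ℂ W := by
    rw [← finrank_eq_card_basis B, Subspace.dual_finrank_eq]
  let Φ : W →ₗ[ℂ] (κ → ℂ) := LinearMap.pi fun k => φ (a k)
  have hinj : Function.Injective Φ := by
    rw [← LinearMap.ker_eq_bot, eq_bot_iff]
    intro x hx
    rw [Submodule.mem_bot]
    rw [LinearMap.mem_ker] at hx
    have h1 : ∀ f ∈ Submodule.span ℂ (Set.range (φ ∘ a)), f x = 0 := by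
      intro f hf
      induction hf using Submodule.span_induction with
      | mem f hf =>
        obtain ⟨k, rfl⟩ := hf
        exact congrFun hx k
      | zero => rfl
      | add f g _ _ h1 h2 => rw [LinearMap.add_apply, h1, h2, add_zero]
      | smul c f _ h1 => rw [LinearMap.smul_apply, h1, smul_zero]
    apply Subtype.ext
    funext i
    apply h1 (φ i)
    rw [hsp]
    trivial
  have hfr : finrank ℂ W = finrank ℂ (κ → ℂ) := by
    rw [finrank_fintype_fun_eq_card, hcard]
  let e : W ≃ₗ[ℂ] (κ → ℂ) := LinearEquiv.ofInjectiveOfFinrankEq Φ hinj hfr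
  let r : Fin (finrank ℂ W) ≃ κ := (Fintype.equivFinOfCardEq hcard).symm
  have he : ∀ (w : W) (k : κ), e w k = (w : ι → ℂ) (a k) := fun w k => rfl
  have hb : ∀ k k', ((e.symm (Pi.single (r k) 1) : W) : ι → ℂ) (a (r k')) =
      if k = k' then 1 else 0 := by
    intro k k'
    rw [← he, LinearEquiv.apply_symm_apply, Pi.single_apply]
    by_cases h : k = k'
    · simp [h]
    · rw [if_neg h, if_neg]
      intro h'
      exact h (r.injective h').symm
  refine ⟨fun k => a (r k), fun k => ((e.symm (Pi.single (r k) 1) : W) : ι → ℂ), ?_, ?_, hb, ?_⟩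
  · exact ha.comp r.injective
  · intro k
    exact (e.symm _).2
  · intro w hw
    have h1 : (⟨w, hw⟩ : W) = ∑ k, w (a (r k)) • e.symm (Pi.single (r k) 1) := by
      apply e.injective
      rw [map_sum]
      funext k'
      obtain ⟨k'', rfl⟩ := r.surjective k'
      rw [he, Finset.sum_apply]
      simp only [map_smul, LinearEquiv.apply_symm_apply, Pi.smul_apply, Pi.single_apply,
        smul_eq_mul, mul_ite, mul_one, mul_zero, EmbeddingLike.apply_eq_iff_eq]
      simp
    have h2 := congrArg (Subtype.val) h1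
    simp only [Submodule.coe_sum, Submodule.coe_smul] at h2
    exact h2

/-- The echelon basis of a subspace which is stable under derivations consists of constants. -/
theorem pivot_const {ι : Type*} [Finite ι] {S : Set ℂ} {W : Submodule ℂ (ι → ℂ)}
    (hW : ∀ D ∈ Kd S, ∀ w ∈ W, (fun i => D (w i)) ∈ W)
    {a : Fin (finrank ℂ W) → ι} {b : Fin (finrank ℂ W) → ι → ℂ} (hb : ∀ k, b k ∈ W)
    (hab : ∀ k k', b k (a k') = if k = k' then 1 else 0) (hs : ∀ w ∈ W, w = ∑ k, w (a k) • b k)
    (k : Fin (finrank ℂ W)) (i : ι) (D : Derivation ℚ ℂ ℂ) (hD : D ∈ Kd S) : D (b k i) = 0 := by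
  have h1 := hs _ (hW D hD _ (hb k))
  have h2 : ∀ k', D (b k (a k')) = 0 := by
    intro k'
    rw [hab]
    split_ifs
    · exact D.map_one_eq_zero
    · exact map_zero D
  have h3 := congrFun h1 i
  rw [h3, Finset.sum_apply]
  apply Finset.sum_eq_zero
  intro k' _
  rw [Pi.smul_apply, h2, zero_smul]

theorem exists_const {ι : Type*} [Finite ι] {S : Set ℂ} {W : Submodule ℂ (ι → ℂ)}
    (hW : ∀ D ∈ Kd S, ∀ w ∈ W, (fun i => D (w i)) ∈ W) (h0 : W ≠ ⊥) :
    ∃ w ∈ W, w ≠ 0 ∧ ∀ D ∈ Kd S, ∀ i, D (w i) = 0 := by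
  obtain ⟨a, b, ha, hb, hab, hs⟩ := exists_pivot W
  have hpos : 0 < finrank ℂ W := by
    rw [pos_iff_ne_zero]
    intro h
    exact h0 (Submodule.finrank_eq_zero.1 h)
  refine ⟨b ⟨0, hpos⟩, hb _, ?_, fun D hD i => pivot_const hW hb hab hs _ i D hD⟩
  intro h
  have h1 := hab ⟨0, hpos⟩ ⟨0, hpos⟩
  rw [h] at h1
  simp at h1

end Pool.Agent.V7.Top

end

section

/-!
# Forms which are singular along a large locus
-/

namespace Pool.Agent.V7.Top

open Module MvPolynomial

/-- The exponents of degree `M`. -/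
abbrev Ex (m M : ℕ) :=
  {α : Fin m →₀ ℕ // α ∈ Finset.finsuppAntidiag (Finset.univ : Finset (Fin m)) M}

theorem card_Ex (m M : ℕ) : Fintype.card (Ex m M) = (m + M - 1).choose M := by
  rw [Fintype.card_coe, Finset.card_finsuppAntidiag_nat_eq_choose, Finset.card_univ,
    Fintype.card_fin]

/-- The form with given coefficients. -/
noncomputable def Pg {m M : ℕ} : (Ex m M → ℂ) →ₗ[ℂ] MvPolynomial (Fin m) ℂ :=
  ∑ α : Ex m M, (monomial α.1).comp (LinearMap.proj α)

theorem Pg_apply {m M : ℕ} (g : Ex m M → ℂ) : Pg g = ∑ α : Ex m M, monomial α.1 (g α) := by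
  simp [Pg]

theorem coeff_Pg {m M : ℕ} (g : Ex m M → ℂ) (β : Ex m M) : coeff β.1 (Pg g) = g β := by
  classical
  rw [Pg_apply, coeff_sum]
  simp only [coeff_monomial]
  rw [Finset.sum_eq_single β]
  · rw [if_pos rfl]
  · intro α _ hα
    rw [if_neg]
    intro h
    exact hα (Subtype.ext h)
  · intro h
    exact absurd (Finset.mem_univ β) h

theorem coeff_Pg' {m M : ℕ} (g : Ex m M → ℂ) (α : Fin m →₀ ℕ)
    (h : α ∉ Finset.finsuppAntidiag (Finset.univ : Finset (Fin m)) M) :
    coeff α (Pg g) = 0 := by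
  classical
  rw [Pg_apply, coeff_sum]
  apply Finset.sum_eq_zero
  intro β _
  rw [coeff_monomial, if_neg]
  rintro rfl
  exact h β.2

theorem Pg_injective {m M : ℕ} : Function.Injective (Pg : (Ex m M → ℂ) →ₗ[ℂ] _) := by
  intro g g' h
  funext β
  rw [← coeff_Pg g, h, coeff_Pg]

theorem Dc_Pg {m M : ℕ} (D : Derivation ℚ ℂ ℂ) (g : Ex m M → ℂ) :
    Dc D (Pg g) = Pg (fun α => D (g α)) := by
  classical
  ext α
  rw [coeff_Dc]
  by_cases h : α ∈ Finset.finsuppAntidiag (Finset.univ : Finset (Fin m)) M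
  · have h1 := coeff_Pg g ⟨α, h⟩
    have h2 := coeff_Pg (fun α => D (g α)) ⟨α, h⟩
    simp only at h1 h2
    rw [h1, h2]
  · rw [coeff_Pg' _ _ h, coeff_Pg' _ _ h, map_zero]

theorem coeff_Pg_const {m M : ℕ} {D : Derivation ℚ ℂ ℂ} {g : Ex m M → ℂ}
    (h : ∀ α, D (g α) = 0) (α : Fin m →₀ ℕ) : D (coeff α (Pg g)) = 0 := by
  by_cases h' : α ∈ Finset.finsuppAntidiag (Finset.univ : Finset (Fin m)) M
  · have h1 := coeff_Pg g ⟨α, h'⟩
    simp only at h1
    rw [h1, h]
  · rw [coeff_Pg' _ _ h', map_zero]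

/-- Derivations dual to the pivot coordinates of a point. -/
theorem exists_dual {m : ℕ} (S : Set ℂ) (w : Fin m → ℂ) :
    ∃ (J : Finset (Fin m)) (Dl : Fin m → Derivation ℚ ℂ ℂ), J.card = rk S w ∧
      (∀ i ∈ J, Dl i ∈ Kd S) ∧ ∀ i ∈ J, ∀ i' ∈ J, Dl i (w i') = if i = i' then 1 else 0 := by
  classical
  obtain ⟨a, b, ha, hb, hab, -⟩ := exists_pivot (im S w)
  choose Dk hDk1 hDk2 using fun k => hb k
  let Dl : Fin m → Derivation ℚ ℂ ℂ := fun i => if h : ∃ k, a k = i then Dk h.choose else 0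
  have hDl : ∀ k, Dl (a k) = Dk k := by
    intro k
    have h : ∃ k', a k' = a k := ⟨k, rfl⟩
    simp only [Dl, dif_pos h]
    congr 1
    exact ha h.choose_spec
  refine ⟨Finset.univ.image a, Dl, ?_, ?_, ?_⟩
  · rw [Finset.card_image_of_injective _ ha, Finset.card_univ, Fintype.card_fin]
    rfl
  · intro i hi
    obtain ⟨k, -, rfl⟩ := Finset.mem_image.1 hi
    rw [hDl]
    exact hDk1 k
  · intro i hi i' hi'
    obtain ⟨k, -, rfl⟩ := Finset.mem_image.1 hi
    obtain ⟨k', -, rfl⟩ := Finset.mem_image.1 hi'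
    rw [hDl, ← dv_apply, hDk2, hab]
    by_cases h : k = k'
    · simp [h]
    · rw [if_neg h, if_neg]
      intro h'
      exact h (ha h')

/-- Extension by zero of the coefficients of a form in the variables of `J`. -/
noncomputable def extJ {m : ℕ} (M : ℕ) (J : Finset (Fin m)) :
    (↥(Finset.finsuppAntidiag J M) → ℂ) →ₗ[ℂ] (Ex m M → ℂ) where
  toFun f α := if h : α.1 ∈ Finset.finsuppAntidiag J M then f ⟨α.1, h⟩ else 0
  map_add' f f' := by
    funext α
    by_cases h : α.1 ∈ Finset.finsuppAntidiag J M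
    · simp only [dif_pos h, Pi.add_apply]
    · simp only [dif_neg h, Pi.add_apply, add_zero]
  map_smul' c f := by
    funext α
    by_cases h : α.1 ∈ Finset.finsuppAntidiag J M
    · simp only [dif_pos h, Pi.smul_apply, RingHom.id_apply]
    · simp only [dif_neg h, Pi.smul_apply, RingHom.id_apply, smul_zero]

theorem extJ_apply {m M : ℕ} {J : Finset (Fin m)} (f : ↥(Finset.finsuppAntidiag J M) → ℂ)
    (α : Ex m M) :
    extJ M J f α = if h : α.1 ∈ Finset.finsuppAntidiag J M then f ⟨α.1, h⟩ else 0 := rfl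

theorem extJ_injective {m M : ℕ} (J : Finset (Fin m)) : Function.Injective (extJ M J) := by
  intro f f' h
  funext α
  have hα : α.1 ∈ Finset.finsuppAntidiag (Finset.univ : Finset (Fin m)) M := by
    have h1 := α.2
    rw [Finset.mem_finsuppAntidiag] at h1 ⊢
    refine ⟨?_, Finset.subset_univ _⟩
    refine Eq.trans ?_ h1.1
    symm
    apply Finset.sum_subset (Finset.subset_univ _)
    intro x _ hx
    by_contra hne
    exact hx (h1.2 (Finsupp.mem_support_iff.2 hne))
  have h2 := congrFun h ⟨α.1, hα⟩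
  rw [extJ_apply, extJ_apply, dif_pos α.2, dif_pos α.2] at h2
  exact h2

theorem lemS {m M : ℕ} (S : Set ℂ) (g : Ex m M → ℂ) (w : Fin m → ℂ)
    (h0 : eval w (Pg g) = 0) (h1 : ∀ i, eval w (pderiv i (Pg g)) = 0) :
    rk S g + (rk (S ∪ Set.range g) w + M - 1).choose M ≤ (m + M - 1).choose M := by
  classical
  obtain ⟨J, Dl, hJ, hD, hx⟩ := exists_dual (S ∪ Set.range g) w
  have hz : ∀ h ∈ im S g, eval w (Pg h) = 0 := by
    rintro _ ⟨D, hD', rfl⟩
    have h2 := chain D w (Pg g)
    rw [h0, map_zero, Dc_Pg] at h2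
    simp only [h1, zero_mul, Finset.sum_const_zero, add_zero] at h2
    exact h2.symm
  have hdisj : im S g ⊓ LinearMap.range (extJ M J) = ⊥ := by
    by_contra hne
    have hst : ∀ D ∈ Kd (S ∪ Set.range g), ∀ v ∈ im S g ⊓ LinearMap.range (extJ M J),
        (fun i => D (v i)) ∈ im S g ⊓ LinearMap.range (extJ M J) := by
      rintro D hD' v ⟨⟨D', hD'', rfl⟩, ⟨f, hf⟩⟩
      refine ⟨⟨⁅D, D'⁆, ?_, ?_⟩, ⟨fun a => D (f a), ?_⟩⟩
      · intro x hx'
        rw [Derivation.commutator_apply, hD'' x hx', hD' x (Or.inl hx'), map_zero, map_zero,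
          sub_zero]
      · funext i
        rw [dv_apply, Derivation.commutator_apply, hD' (g i) (Or.inr ⟨i, rfl⟩), map_zero,
          sub_zero]
        rfl
      · funext α
        rw [← hf, extJ_apply, extJ_apply]
        split_ifs
        · rfl
        · exact (map_zero D).symm
    obtain ⟨h, ⟨hT, ⟨f, hf⟩⟩, hne', hc⟩ := exists_const hst hne
    apply hne'
    apply Pg_injective
    rw [map_zero]
    refine gen_eval J w Dl hD hx (Pg h).totalDegree (Pg h) le_rfl
      (fun α D hD' => coeff_Pg_const (fun β => hc D hD' β) α) ?_ (hz h hT)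
    intro i hi
    ext α
    rw [coeff_pderiv, coeff_zero]
    have h3 : coeff (α + Finsupp.single i 1) (Pg h) = 0 := by
      by_cases h' : (α + Finsupp.single i 1) ∈
          Finset.finsuppAntidiag (Finset.univ : Finset (Fin m)) M
      · have h4 := coeff_Pg h ⟨_, h'⟩
        simp only at h4
        rw [h4, ← hf, extJ_apply, dif_neg]
        intro h5
        rw [Finset.mem_finsuppAntidiag] at h5
        apply hi
        apply h5.2
        rw [Finsupp.mem_support_iff]
        simp
      · exact coeff_Pg' _ _ h'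
    rw [h3, zero_mul]
  have h2 := Submodule.finrank_add_finrank_le_of_disjoint (disjoint_iff.2 hdisj)
  rw [LinearMap.finrank_range_of_inj (extJ_injective J), finrank_fintype_fun_eq_card,
    finrank_fintype_fun_eq_card, card_Ex, Fintype.card_coe,
    Finset.card_finsuppAntidiag_nat_eq_choose, hJ] at h2
  exact h2

end Pool.Agent.V7.Top

end

section

/-!
# Forms which vanish at independent points
-/

namespace Pool.Agent.V7.Top

open Module MvPolynomial

theorem rk_prod_le {κ : Type*} [Fintype κ] {m : ℕ} (S : Set ℂ) (l : κ → Fin m → ℂ) :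
    rk S (fun q : κ × Fin m => l q.1 q.2) ≤ ∑ s, rk S (l s) := by
  classical
  let Φ : im S (fun q : κ × Fin m => l q.1 q.2) →ₗ[ℂ] ((s : κ) → im S (l s)) :=
    { toFun := fun v s => ⟨fun i => v.1 (s, i), by
        obtain ⟨D, hD, hv⟩ := v.2
        exact ⟨D, hD, by rw [← hv]; rfl⟩⟩
      map_add' := fun _ _ => rfl
      map_smul' := fun _ _ => rfl }
  have hΦ : Function.Injective Φ := by
    intro v w h
    apply Subtype.ext
    funext q
    have h1 := congrArg (fun f => ((f q.1 : im S (l q.1)) : Fin m → ℂ) q.2) h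
    exact h1
  have h1 := LinearMap.finrank_le_finrank_of_injective hΦ
  rw [Module.finrank_pi_fintype] at h1
  exact h1

theorem exists_free {σ : Type*} [Fintype σ] {S : Set ℂ} (x : σ → ℂ) (n : ℕ) :
    ∀ p : MvPolynomial σ ℂ, p.totalDegree ≤ n → p ≠ 0 → eval x p = 0 →
      (∀ α, ∀ D ∈ Kd S, D (coeff α p) = 0) →
      ∃ p' : MvPolynomial σ ℂ, (∀ α, ∀ D ∈ Kd S, D (coeff α p') = 0) ∧ eval x p' = 0 ∧
        ∃ i, eval x (pderiv i p') ≠ 0 := by
  induction n with
  | zero =>
    intro p hp hp0 h0 _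
    exfalso
    apply hp0
    rw [totalDegree_eq_zero_iff_eq_C.1 (Nat.le_zero.1 hp)] at h0 ⊢
    rw [eval_C] at h0
    rw [h0, C_0]
  | succ n ih =>
    intro p hp hp0 h0 hc
    by_cases h : ∃ i, eval x (pderiv i p) ≠ 0
    · exact ⟨p, hc, h0, h⟩
    · push Not at h
      have h1 : ∃ i, pderiv i p ≠ 0 := by
        by_contra hcon
        push Not at hcon
        apply hp0
        rw [eq_C_of_pderiv hcon] at h0 ⊢
        rw [eval_C] at h0
        rw [h0, C_0]
      obtain ⟨i, hi⟩ := h1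
      have h2 := totalDegree_pderiv_lt' i hi
      exact ih (pderiv i p) (by omega) hi (h i)
        (fun α D hD => pderiv_const (fun β => hc β D hD) i α)

theorem rk_zero_lt {m M : ℕ} (S : Set ℂ) (g : Ex m M → ℂ) (hg : g ≠ 0) (x : Fin m → ℂ)
    (hz : eval x (Pg g) = 0) : rk (S ∪ Set.range g) x + 1 ≤ m := by
  classical
  have hg' : Pg g ≠ 0 := by
    intro h
    exact hg (Pg_injective (by rw [h, map_zero]))
  obtain ⟨p, hc, h0, i, hi⟩ := exists_free (S := S ∪ Set.range g) x _ (Pg g) le_rfl hg' hz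
    (fun α D hD => coeff_Pg_const (fun β => hD _ (Or.inr ⟨β, rfl⟩)) α)
  let f : (Fin m → ℂ) →ₗ[ℂ] ℂ := ∑ j, (eval x (pderiv j p)) • LinearMap.proj j
  have hf : ∀ v, f v = ∑ j, eval x (pderiv j p) * v j := by
    intro v
    simp [f]
  have hf0 : f ≠ 0 := by
    intro h
    have h1 : f (Pi.single i 1) = 0 := by rw [h]; rfl
    rw [hf, Finset.sum_eq_single i] at h1
    · rw [Pi.single_eq_same, mul_one] at h1
      exact hi h1
    · intro j _ hj
      rw [Pi.single_eq_of_ne hj, mul_zero]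
    · intro h
      exact absurd (Finset.mem_univ i) h
  have hle : im (S ∪ Set.range g) x ≤ LinearMap.ker f := by
    rintro _ ⟨D, hD, rfl⟩
    rw [LinearMap.mem_ker, hf]
    have h1 := chain D x p
    rw [h0, map_zero, Dc_eq_zero (fun α => hc α D hD), map_zero, zero_add] at h1
    exact h1.symm
  have h2 := LinearMap.finrank_range_add_finrank_ker f
  have h3 : LinearMap.range f = ⊤ := LinearMap.range_eq_top.2 (LinearMap.surjective hf0)
  rw [h3, finrank_top, finrank_self, finrank_fintype_fun_eq_card, Fintype.card_fin] at h2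
  have h4 := Submodule.finrank_mono hle
  have h5 : rk (S ∪ Set.range g) x = finrank ℂ (im (S ∪ Set.range g) x) := rfl
  omega

theorem lemN {κ : Type*} [Fintype κ] {m M : ℕ} (S : Set ℂ) (g : Ex m M → ℂ) (hg : g ≠ 0)
    (l : κ → Fin m → ℂ) (hl : rk S (fun q : κ × Fin m => l q.1 q.2) = Fintype.card κ * m)
    (hz : ∀ s, eval (l s) (Pg g) = 0) : Fintype.card κ ≤ rk S g := by
  have h1 := rk_le_add S g (fun q : κ × Fin m => l q.1 q.2)
  have h2 := rk_prod_le (S ∪ Set.range g) l
  have h3 : ∑ s, (rk (S ∪ Set.range g) (l s) + 1) ≤ ∑ _s : κ, m :=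
    Finset.sum_le_sum fun s _ => rk_zero_lt S g hg (l s) (hz s)
  rw [Finset.sum_add_distrib, Finset.sum_const, Finset.sum_const, Finset.card_univ,
    smul_eq_mul, smul_eq_mul, mul_one] at h3
  omega

end Pool.Agent.V7.Top

end
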