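import Pool.Agent.H94.LP5.M06
import Pool.Agent.H94.LP5.M07
import Pool.Agent.H94.LP5.M09

/-! The parts of this file: V7.Top.ClaimZ, V7.Top.Step, V7.Top.Main, V7.Top.Asm, V7.Top.Lin, V7.Top.Inp. -/

section

/-!
# The zero locus of a vector valued form has the expected codimension
-/

namespace Pool.Agent.V7.Top

open Module MvPolynomial

variable {R b m M : ℕ}

/-- The vector valued form with coordinates `u` with respect to the family `H`. -/
noncomputable def GH (H : Fin R → Fin b → Ex m M → ℂ) (u : Fin R → ℂ) (a : Fin b) : Ex m M → ℂ :=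
  ∑ j, u j • H j a

theorem GH_apply (H : Fin R → Fin b → Ex m M → ℂ) (u : Fin R → ℂ) (a : Fin b) (α : Ex m M) :
    GH H u a α = ∑ j, u j * H j a α := by
  simp [GH]

theorem GH_const {S : Set ℂ} {H : Fin R → Fin b → Ex m M → ℂ}
    (hH : ∀ D ∈ Kd S, ∀ j a α, D (H j a α) = 0) {D : Derivation ℚ ℂ ℂ} (hD : D ∈ Kd S)
    (u : Fin R → ℂ) (a : Fin b) (α : Ex m M) :
    D (GH H u a α) = GH H (fun j => D (u j)) a α := by
  rw [GH_apply, GH_apply, map_sum]
  apply Finset.sum_congr rfl
  intro j _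
  rw [Derivation.leibniz, hH D hD, smul_zero, zero_add, smul_eq_mul, mul_comm]

/-- The vector of the coefficients of a monomial. -/
noncomputable def col (H : Fin R → Fin b → Ex m M → ℂ) (u : Fin R → ℂ) (α : Ex m M) :
    Fin b → ℂ := fun a => GH H u a α

/-- The span of the vectors of coefficients. -/
noncomputable def Es (H : Fin R → Fin b → Ex m M → ℂ) (u : Fin R → ℂ) :
    Submodule ℂ (Fin b → ℂ) := Submodule.span ℂ (Set.range (col H u))

theorem col_mem (H : Fin R → Fin b → Ex m M → ℂ) (u : Fin R → ℂ) (α : Ex m M) :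
    col H u α ∈ Es H u := Submodule.subset_span ⟨α, rfl⟩

theorem lin_expand (L : (Ex m M → ℂ) →ₗ[ℂ] ℂ) (h : Ex m M → ℂ) :
    L h = ∑ α, h α * L (Pi.single α 1) := by
  classical
  conv_lhs => rw [pi_eq_sum_univ' h, map_sum]
  apply Finset.sum_congr rfl
  intro α _
  rw [map_smul, smul_eq_mul]

theorem swap (H : Fin R → Fin b → Ex m M → ℂ) (u : Fin R → ℂ) (γ : (Fin b → ℂ) →ₗ[ℂ] ℂ)
    (L : (Ex m M → ℂ) →ₗ[ℂ] ℂ) :
    L (fun α => γ (col H u α)) = γ (fun a => L (GH H u a)) := by
  classical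
  have h1 : (fun a => L (GH H u a)) = ∑ α, L (Pi.single α 1) • col H u α := by
    funext a
    rw [lin_expand, Finset.sum_apply]
    apply Finset.sum_congr rfl
    intro α _
    rw [Pi.smul_apply, smul_eq_mul, mul_comm]
    rfl
  rw [h1, map_sum, lin_expand]
  apply Finset.sum_congr rfl
  intro α _
  rw [map_smul, smul_eq_mul, mul_comm]

/-- Evaluation at a point as a linear functional of the coefficients. -/
noncomputable def evL (w : Fin m → ℂ) : (Ex m M → ℂ) →ₗ[ℂ] ℂ :=
  (MvPolynomial.aeval w).toLinearMap.comp Pg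

theorem evL_apply (w : Fin m → ℂ) (g : Ex m M → ℂ) : evL w g = eval w (Pg g) := by
  simp [evL, MvPolynomial.aeval_eq_eval]

/-- The value of a partial derivative as a linear functional of the coefficients. -/
noncomputable def evdL (w : Fin m → ℂ) (i : Fin m) : (Ex m M → ℂ) →ₗ[ℂ] ℂ :=
  (MvPolynomial.aeval w).toLinearMap.comp ((pderiv i).toLinearMap.comp Pg)

theorem evdL_apply (w : Fin m → ℂ) (i : Fin m) (g : Ex m M → ℂ) :
    evdL w i g = eval w (pderiv i (Pg g)) := by
  simp [evdL, MvPolynomial.aeval_eq_eval]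

/-- The differential of a vector valued form. -/
noncomputable def dG (H : Fin R → Fin b → Ex m M → ℂ) (u : Fin R → ℂ) (w : Fin m → ℂ) :
    (Fin m → ℂ) →ₗ[ℂ] (Fin b → ℂ) :=
  LinearMap.pi fun a => ∑ i, (eval w (pderiv i (Pg (GH H u a)))) • LinearMap.proj i

theorem dG_apply (H : Fin R → Fin b → Ex m M → ℂ) (u : Fin R → ℂ) (w v : Fin m → ℂ)
    (a : Fin b) : dG H u w v a = ∑ i, eval w (pderiv i (Pg (GH H u a))) * v i := by
  simp [dG]

theorem dG_single (H : Fin R → Fin b → Ex m M → ℂ) (u : Fin R → ℂ) (w : Fin m → ℂ)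
    (i : Fin m) : dG H u w (Pi.single i 1) = fun a => eval w (pderiv i (Pg (GH H u a))) := by
  classical
  funext a
  rw [dG_apply, Finset.sum_eq_single i]
  · rw [Pi.single_eq_same, mul_one]
  · intro j _ hj
    rw [Pi.single_eq_of_ne hj, mul_zero]
  · intro h
    exact absurd (Finset.mem_univ i) h

theorem dG_range (H : Fin R → Fin b → Ex m M → ℂ) (u : Fin R → ℂ) (w : Fin m → ℂ) :
    LinearMap.range (dG H u w) ≤ Es H u := by
  classical
  rintro _ ⟨v, rfl⟩
  let L : (Ex m M → ℂ) →ₗ[ℂ] ℂ := ∑ i, v i • evdL w i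
  have h1 : dG H u w v = ∑ α, L (Pi.single α 1) • col H u α := by
    funext a
    have h2 : dG H u w v a = L (GH H u a) := by
      rw [dG_apply]
      simp only [L, LinearMap.sum_apply, LinearMap.smul_apply, evdL_apply, smul_eq_mul]
      apply Finset.sum_congr rfl
      intro i _
      ring
    rw [h2, lin_expand, Finset.sum_apply]
    apply Finset.sum_congr rfl
    intro α _
    rw [Pi.smul_apply, smul_eq_mul, mul_comm]
    rfl
  rw [h1]
  exact Submodule.sum_mem _ fun α _ => Submodule.smul_mem _ _ (col_mem H u α)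

theorem im_le_ker_dG {S : Set ℂ} {H : Fin R → Fin b → Ex m M → ℂ}
    (hH : ∀ D ∈ Kd S, ∀ j a α, D (H j a α) = 0) (u : Fin R → ℂ) (w : Fin m → ℂ)
    (hw : ∀ a, eval w (Pg (GH H u a)) = 0) :
    im (S ∪ Set.range u) w ≤ LinearMap.ker (dG H u w) := by
  rintro _ ⟨D, hD, rfl⟩
  rw [LinearMap.mem_ker]
  funext a
  rw [dG_apply]
  have h1 := chain D w (Pg (GH H u a))
  have h2 : Dc D (Pg (GH H u a)) = 0 := by
    rw [Dc_Pg]
    have h3 : (fun α => D (GH H u a α)) = 0 := by
      funext α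
      rw [GH_const hH (Kd_anti Set.subset_union_left hD), GH_apply]
      apply Finset.sum_eq_zero
      intro j _
      rw [hD (u j) (Or.inr ⟨j, rfl⟩), zero_mul]
    rw [h3, map_zero]
  rw [hw, map_zero, h2, map_zero, zero_add] at h1
  exact h1.symm

/-- The functionals on the span of the vectors of coefficients, as coefficients of a form. -/
noncomputable def Psi (H : Fin R → Fin b → Ex m M → ℂ) (u : Fin R → ℂ) :
    Dual ℂ (Es H u) →ₗ[ℂ] (Ex m M → ℂ) where
  toFun δ α := δ ⟨col H u α, col_mem H u α⟩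
  map_add' _ _ := rfl
  map_smul' _ _ := rfl

theorem rk_comb_lt {S : Set ℂ} {H : Fin R → Fin b → Ex m M → ℂ}
    (hH : ∀ D ∈ Kd S, ∀ j a α, D (H j a α) = 0) (u : Fin R → ℂ) (γ : (Fin b → ℂ) →ₗ[ℂ] ℂ)
    (α₀ : Ex m M) (h1 : γ (col H u α₀) = 1) :
    rk (S ∪ Set.range u) (fun α => γ (col H u α)) < finrank ℂ (Es H u) := by
  classical
  have hle : im (S ∪ Set.range u) (fun α => γ (col H u α)) ≤
      LinearMap.range (Psi H u) ⊓ LinearMap.ker (LinearMap.proj α₀) := by
    rintro _ ⟨D, hD, rfl⟩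
    refine ⟨?_, ?_⟩
    · let γ' : (Fin b → ℂ) →ₗ[ℂ] ℂ := ∑ a, (D (γ (Pi.single a 1))) • LinearMap.proj a
      refine ⟨γ'.comp (Es H u).subtype, ?_⟩
      funext α
      have h2 : γ (col H u α) = ∑ a, GH H u a α * γ (Pi.single a 1) := by
        conv_lhs => rw [pi_eq_sum_univ' (col H u α), map_sum]
        apply Finset.sum_congr rfl
        intro a _
        rw [map_smul, smul_eq_mul]
        congr 2
      have h3 : D (γ (col H u α)) = ∑ a, GH H u a α * D (γ (Pi.single a 1)) := by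
        rw [h2, map_sum]
        apply Finset.sum_congr rfl
        intro a _
        have h4 : GH H (fun j => D (u j)) a α = 0 := by
          rw [GH_apply]
          apply Finset.sum_eq_zero
          intro j _
          rw [hD (u j) (Or.inr ⟨j, rfl⟩), zero_mul]
        rw [Derivation.leibniz, GH_const hH (Kd_anti Set.subset_union_left hD), h4, smul_zero,
          add_zero, smul_eq_mul]
      show γ' (col H u α) = D (γ (col H u α))
      rw [h3]
      simp only [γ', LinearMap.sum_apply, LinearMap.smul_apply, LinearMap.proj_apply, smul_eq_mul]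
      apply Finset.sum_congr rfl
      intro a _
      rw [mul_comm]
      rfl
    · show D (γ (col H u α₀)) = 0
      rw [h1]
      exact D.map_one_eq_zero
  have hlt : LinearMap.range (Psi H u) ⊓ LinearMap.ker (LinearMap.proj α₀) <
      LinearMap.range (Psi H u) := by
    refine lt_of_le_of_ne inf_le_left ?_
    intro h
    have h2 : Psi H u (γ.comp (Es H u).subtype) ∈ LinearMap.range (Psi H u) ⊓
        LinearMap.ker (LinearMap.proj (R := ℂ) (φ := fun _ => ℂ) α₀) := by
      rw [h]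
      exact ⟨_, rfl⟩
    have h3 : γ (col H u α₀) = 0 := h2.2
    rw [h1] at h3
    exact one_ne_zero h3
  have h2 := Submodule.finrank_mono hle
  have h3 := Submodule.finrank_lt_finrank_of_lt hlt
  have h4 := LinearMap.finrank_range_le (Psi H u)
  rw [Subspace.dual_finrank_eq] at h4
  have h5 : rk (S ∪ Set.range u) (fun α => γ (col H u α)) =
    finrank ℂ (im (S ∪ Set.range u) (fun α => γ (col H u α))) := rfl
  omega

theorem claimZ {κ : Type*} [Fintype κ] {S : Set ℂ} {H : Fin R → Fin b → Ex m M → ℂ}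
    (hH : ∀ D ∈ Kd S, ∀ j a α, D (H j a α) = 0) (u : Fin R → ℂ)
    (l : κ → Fin m → ℂ) (hl : rk S (fun q : κ × Fin m => l q.1 q.2) = Fintype.card κ * m)
    (hu : ∀ s a, eval (l s) (Pg (GH H u a)) = 0) (w : Fin m → ℂ)
    (hw : ∀ a, eval w (Pg (GH H u a)) = 0)
    (hN : (m + M - 1).choose M <
      Fintype.card κ + (m - (2 * finrank ℂ (Es H u) - 2) + M - 1).choose M) :
    rk (S ∪ Set.range u) w + finrank ℂ (Es H u) ≤ m := by
  classical
  by_contra hcon
  push Not at hcon
  have h1 := Submodule.finrank_mono (im_le_ker_dG hH u w hw)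
  have h2 := LinearMap.finrank_range_add_finrank_ker (dG H u w)
  rw [finrank_fintype_fun_eq_card, Fintype.card_fin] at h2
  have h3 : rk (S ∪ Set.range u) w = finrank ℂ (im (S ∪ Set.range u) w) := rfl
  have h4 : LinearMap.range (dG H u w) < Es H u := by
    refine lt_of_le_of_ne (dG_range H u w) ?_
    intro h
    rw [h] at h2
    omega
  obtain ⟨x, hx, hx'⟩ := SetLike.exists_of_lt h4
  obtain ⟨f, hf, hf'⟩ := Submodule.exists_dual_map_eq_bot_of_notMem hx' inferInstance
  have h5 : ∃ α₀, f (col H u α₀) ≠ 0 := by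
    by_contra hno
    push Not at hno
    apply hf
    have h6 : Es H u ≤ LinearMap.ker f := by
      rw [Es, Submodule.span_le]
      rintro _ ⟨α, rfl⟩
      exact hno α
    exact h6 hx
  obtain ⟨α₀, hα₀⟩ := h5
  let γ : (Fin b → ℂ) →ₗ[ℂ] ℂ := (f (col H u α₀))⁻¹ • f
  have hγ : γ (col H u α₀) = 1 := by
    simp only [γ, LinearMap.smul_apply, smul_eq_mul]
    exact inv_mul_cancel₀ hα₀
  have hγr : ∀ v, γ (dG H u w v) = 0 := by
    intro v
    have h6 : f (dG H u w v) ∈ (LinearMap.range (dG H u w)).map f := ⟨_, ⟨v, rfl⟩, rfl⟩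
    rw [hf', Submodule.mem_bot] at h6
    simp only [γ, LinearMap.smul_apply, h6, smul_zero]
  set g : Ex m M → ℂ := fun α => γ (col H u α) with hg
  have hg0 : g ≠ 0 := by
    intro h
    have h6 : g α₀ = 1 := hγ
    rw [h] at h6
    exact zero_ne_one h6
  have hgz : ∀ x, (∀ a, eval x (Pg (GH H u a)) = 0) → eval x (Pg g) = 0 := by
    intro x hx
    rw [← evL_apply, hg, swap]
    have h6 : (fun a => evL x (GH H u a)) = 0 := by
      funext a
      rw [evL_apply, hx]
      rfl
    rw [h6, map_zero]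
  have hgd : ∀ i, eval w (pderiv i (Pg g)) = 0 := by
    intro i
    rw [← evdL_apply, hg, swap]
    have h6 : (fun a => evdL w i (GH H u a)) = dG H u w (Pi.single i 1) := by
      rw [dG_single]
      funext a
      rw [evdL_apply]
    rw [h6, hγr]
  have h7 := rk_comb_lt hH u γ α₀ hγ
  have h8 := rk_le_add (S ∪ Set.range u) g w
  have h9 : rk (S ∪ Set.range u ∪ Set.range g) w ≤ rk (S ∪ Set.range g) w := by
    apply rk_anti
    intro x hx
    rcases hx with hx | hx
    · exact Or.inl (Or.inl hx)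
    · exact Or.inr hx
  have h10 := lemS S g w (hgz w hw) hgd
  have h11 := lemN S g hg0 l hl (fun s => hgz (l s) (hu s))
  have h12 : (m - (2 * finrank ℂ (Es H u) - 2) + M - 1).choose M ≤
      (rk (S ∪ Set.range g) w + M - 1).choose M := by
    apply Nat.choose_le_choose
    rw [← hg] at h7
    omega
  omega

end Pool.Agent.V7.Top

end

section

/-!
# The rank of the evaluation at a further independent point
-/

namespace Pool.Agent.V7.Top

open Module MvPolynomial

variable {R b m M : ℕ}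

/-- A tuple is generic over `S` if the derivations which vanish on `S` take all values on it. -/
def Gen {ι : Type*} (S : Set ℂ) (t : ι → ℂ) : Prop :=
  ∀ c : ι → ℂ, ∃ D ∈ Kd S, ∀ i, D (t i) = c i

theorem Gen.comp {ι κ : Type*} {S : Set ℂ} {t : ι → ℂ} (h : Gen S t) (f : κ → ι)
    (hf : Function.Injective f) : Gen S (fun k => t (f k)) := by
  classical
  intro c
  obtain ⟨D, hD, hc⟩ := h (fun i => if h : ∃ k, f k = i then c h.choose else 0)
  refine ⟨D, hD, fun k => ?_⟩
  have hk : ∃ k', f k' = f k := ⟨k, rfl⟩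
  rw [hc, dif_pos hk]
  congr 1
  exact hf hk.choose_spec

theorem Gen.right {ι κ : Type*} {S : Set ℂ} {t : ι → ℂ} {t' : κ → ℂ}
    (h : Gen S (Sum.elim t t')) : Gen (S ∪ Set.range t) t' := by
  intro c
  obtain ⟨D, hD, hc⟩ := h (Sum.elim 0 c)
  refine ⟨D, ?_, fun i => hc (Sum.inr i)⟩
  rintro x (hx | ⟨i, rfl⟩)
  · exact hD x hx
  · exact hc (Sum.inl i)

theorem Gen.rk {ι : Type*} [Fintype ι] {S : Set ℂ} {t : ι → ℂ} (h : Gen S t) :
    rk S t = Fintype.card ι := by
  have h1 : im S t = ⊤ := by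
    rw [eq_top_iff]
    intro c _
    obtain ⟨D, hD, hc⟩ := h c
    exact ⟨D, hD, funext hc⟩
  rw [Top.rk, h1, finrank_top, finrank_fintype_fun_eq_card]

theorem exists_gen {S : Set ℂ} (hS : S.Countable) (ι : Type*) [Fintype ι] :
    ∃ t : ι → ℂ, Gen S t := by
  classical
  obtain ⟨t, D, hD, ht⟩ := exists_der S hS (Fintype.card ι)
  let e := Fintype.equivFin ι
  refine ⟨fun i => t (e i), fun c => ⟨∑ k, c (e.symm k) • D k, ?_, ?_⟩⟩
  · exact Submodule.sum_mem _ fun k _ => Submodule.smul_mem _ _ (hD k)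
  · intro i
    have h1 : (∑ k, c (e.symm k) • D k) (t (e i)) = ∑ k, c (e.symm k) * (D k) (t (e i)) := by
      rw [← Derivation.coeFnAddMonoidHom_apply, map_sum, Finset.sum_apply]
      rfl
    rw [h1, Finset.sum_eq_single (e i)]
    · rw [ht, if_pos rfl, mul_one, Equiv.symm_apply_apply]
    · intro k _ hk
      rw [ht, if_neg hk, mul_zero]
    · intro h
      exact absurd (Finset.mem_univ _) h

theorem ev_GH (H : Fin R → Fin b → Ex m M → ℂ) (u : Fin R → ℂ) (a : Fin b) (x : Fin m → ℂ) :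
    eval x (Pg (GH H u a)) = ∑ j, u j * eval x (Pg (H j a)) := by
  simp only [← evL_apply]
  rw [GH, map_sum]
  apply Finset.sum_congr rfl
  intro j _
  rw [map_smul, smul_eq_mul]

/-- The coordinates of the forms which vanish on a set. -/
noncomputable def VS (H : Fin R → Fin b → Ex m M → ℂ) (A : Set (Fin m → ℂ)) :
    Submodule ℂ (Fin R → ℂ) where
  carrier := {u | ∀ x ∈ A, ∀ a, eval x (Pg (GH H u a)) = 0}
  add_mem' := by
    intro u v hu hv x hx a
    have h1 := hu x hx a
    have h2 := hv x hx a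
    rw [ev_GH] at h1 h2 ⊢
    simp only [Pi.add_apply, add_mul, Finset.sum_add_distrib]
    rw [h1, h2, add_zero]
  zero_mem' := by
    intro x _ a
    rw [ev_GH]
    simp
  smul_mem' := by
    intro c u hu x hx a
    have h1 := hu x hx a
    rw [ev_GH] at h1 ⊢
    simp only [Pi.smul_apply, smul_eq_mul, mul_assoc]
    rw [← Finset.mul_sum, h1, mul_zero]

theorem mem_VS {H : Fin R → Fin b → Ex m M → ℂ} {A : Set (Fin m → ℂ)} {u : Fin R → ℂ} :
    u ∈ VS H A ↔ ∀ x ∈ A, ∀ a, eval x (Pg (GH H u a)) = 0 := Iff.rfl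

theorem VS_stable {S T : Set ℂ} {H : Fin R → Fin b → Ex m M → ℂ}
    (hH : ∀ D ∈ Kd S, ∀ j a α, D (H j a α) = 0) (hST : S ⊆ T) {A : Set (Fin m → ℂ)}
    (hA : ∀ x ∈ A, ∀ i, x i ∈ T) (D : Derivation ℚ ℂ ℂ) (hD : D ∈ Kd T) (u : Fin R → ℂ)
    (hu : u ∈ VS H A) : (fun j => D (u j)) ∈ VS H A := by
  intro x hx a
  have h1 := chain D x (Pg (GH H u a))
  rw [hu x hx a, map_zero, Dc_Pg] at h1
  have h2 : ∑ i, eval x (pderiv i (Pg (GH H u a))) * D (x i) = 0 := by
    apply Finset.sum_eq_zero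
    intro i _
    rw [hD _ (hA x hx i), mul_zero]
  rw [h2, add_zero] at h1
  have h3 : (fun α => D (GH H u a α)) = GH H (fun j => D (u j)) a := by
    funext α
    exact GH_const hH (Kd_anti hST hD) u a α
  rw [h3] at h1
  exact h1.symm

theorem step1 {κ : Type*} [Fintype κ] {S : Set ℂ} {H : Fin R → Fin b → Ex m M → ℂ}
    (hH : ∀ D ∈ Kd S, ∀ j a α, D (H j a α) = 0) (l : κ → Fin m → ℂ) (z : Fin m → ℂ)
    (τ : Fin R → ℂ) (hgen : Gen (S ∪ Set.range (fun q : κ × Fin m => l q.1 q.2))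
      (Sum.elim z τ)) (hK : VS H (insert z (Set.range l)) ≠ ⊥) :
    ∃ u ∈ VS H (insert z (Set.range l)), u ≠ 0 ∧
      finrank ℂ (VS H (insert z (Set.range l))) + m ≤
        finrank ℂ (VS H (Set.range l)) + rk (S ∪ Set.range u) z := by
  classical
  set Sl : Set ℂ := S ∪ Set.range (fun q : κ × Fin m => l q.1 q.2) with hSl
  set K := VS H (insert z (Set.range l)) with hKdef
  obtain ⟨a, c, ha, hc, hac, hs⟩ := exists_pivot K
  have hst : ∀ D ∈ Kd (Sl ∪ Set.range z), ∀ w ∈ K, (fun i => D (w i)) ∈ K := by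
    intro D hD w hw
    refine VS_stable hH (T := Sl ∪ Set.range z) ?_ ?_ D hD w hw
    · exact fun x hx => Or.inl (Or.inl hx)
    · rintro x (rfl | ⟨s, rfl⟩) i
      · exact Or.inr ⟨i, rfl⟩
      · exact Or.inl (Or.inr ⟨(s, i), rfl⟩)
  set u : Fin R → ℂ := ∑ k, τ (a k) • c k with hu
  have huK : u ∈ K := Submodule.sum_mem _ fun k _ => Submodule.smul_mem _ _ (hc k)
  have hua : ∀ k, u (a k) = τ (a k) := by
    intro k
    rw [hu, Finset.sum_apply, Finset.sum_eq_single k]
    · rw [Pi.smul_apply, hac, if_pos rfl, smul_eq_mul, mul_one]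
    · intro k' _ hk'
      rw [Pi.smul_apply, hac, if_neg hk', smul_zero]
    · intro h
      exact absurd (Finset.mem_univ _) h
  have hpos : 0 < finrank ℂ K := by
    rw [pos_iff_ne_zero]
    intro h
    exact hK (Submodule.finrank_eq_zero.1 h)
  refine ⟨u, huK, ?_, ?_⟩
  · intro h0
    obtain ⟨D, hD, hDc⟩ := hgen (Sum.elim 0 1)
    have h1 := hDc (Sum.inr (a ⟨0, hpos⟩))
    simp only [Sum.elim_inr, Pi.one_apply] at h1
    rw [← hua, h0] at h1
    simp at h1
  · have h1 := rk_joint Sl u z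
    have h2 : finrank ℂ K + m ≤ finrank ℂ ((Kd Sl).map ((dv u).prod (dv z))) := by
      let F : (Fin R → ℂ) × (Fin m → ℂ) →ₗ[ℂ] (Fin (finrank ℂ K) → ℂ) × (Fin m → ℂ) :=
        LinearMap.prodMap (LinearMap.funLeft ℂ ℂ a) LinearMap.id
      have h3 : ((Kd Sl).map ((dv u).prod (dv z))).map F = ⊤ := by
        rw [eq_top_iff]
        rintro ⟨x, y⟩ _
        obtain ⟨D, hD, hDc⟩ := hgen (Sum.elim y
          (fun i => if h : ∃ k, a k = i then x h.choose else 0))
        refine ⟨_, ⟨D, hD, rfl⟩, ?_⟩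
        apply Prod.ext
        · funext k
          show D (u (a k)) = x k
          rw [hua]
          have h4 := hDc (Sum.inr (a k))
          have hk : ∃ k', a k' = a k := ⟨k, rfl⟩
          simp only [Sum.elim_inr, dif_pos hk] at h4
          rw [h4]
          congr 1
          exact ha hk.choose_spec
        · funext i
          exact hDc (Sum.inl i)
      have h4 := Submodule.finrank_map_le F ((Kd Sl).map ((dv u).prod (dv z)))
      rw [h3, finrank_top, finrank_prod, finrank_fintype_fun_eq_card,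
        finrank_fintype_fun_eq_card, Fintype.card_fin, Fintype.card_fin] at h4
      exact h4
    have h3 : rk Sl u ≤ finrank ℂ (VS H (Set.range l)) := by
      apply Submodule.finrank_mono
      rintro _ ⟨D, hD, rfl⟩
      refine VS_stable hH (T := Sl) (fun x hx => Or.inl hx) ?_ D hD u ?_
      · rintro x ⟨s, rfl⟩ i
        exact Or.inr ⟨(s, i), rfl⟩
      · intro x hx
        exact huK x (Or.inr hx)
    have h4 : rk (Sl ∪ Set.range u) z ≤ rk (S ∪ Set.range u) z := by
      apply rk_anti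
      rintro x (hx | hx)
      · exact Or.inl (Or.inl hx)
      · exact Or.inr hx
    omega

/-- The coordinates of the forms whose coefficients lie in a subspace. -/
noncomputable def secU (H : Fin R → Fin b → Ex m M → ℂ) (E : Submodule ℂ (Fin b → ℂ)) :
    Submodule ℂ (Fin R → ℂ) where
  carrier := {u | ∀ α, col H u α ∈ E}
  add_mem' := by
    intro u v hu hv α
    have h1 : col H (u + v) α = col H u α + col H v α := by
      funext a
      simp only [col, GH_apply, Pi.add_apply, add_mul, Finset.sum_add_distrib]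
    rw [h1]
    exact E.add_mem (hu α) (hv α)
  zero_mem' := by
    intro α
    have h1 : col H (0 : Fin R → ℂ) α = 0 := by
      funext a
      simp [col, GH_apply]
    rw [h1]
    exact E.zero_mem
  smul_mem' := by
    intro c u hu α
    have h1 : col H (c • u) α = c • col H u α := by
      funext a
      simp only [col, GH_apply, Pi.smul_apply, smul_eq_mul, mul_assoc, Finset.mul_sum]
    rw [h1]
    exact E.smul_mem c (hu α)

theorem step5 {S : Set ℂ} {H : Fin R → Fin b → Ex m M → ℂ}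
    (hH : ∀ D ∈ Kd S, ∀ j a α, D (H j a α) = 0) (u : Fin R → ℂ) :
    rk S u ≤ finrank ℂ (secU H (Es H u)) +
      finrank ℂ (Es H u) * (b - finrank ℂ (Es H u)) := by
  classical
  obtain ⟨a, c, ha, hc, hac, hs⟩ := exists_pivot (Es H u)
  let ε : Fin (finrank ℂ (Es H u)) × {i : Fin b // i ∉ Finset.univ.image a} → ℂ :=
    fun q => c q.1 q.2.1
  have h1 := rk_le_add S ε u
  have h2 := rk_le_card S ε
  have h3 : Fintype.card (Fin (finrank ℂ (Es H u)) × {i : Fin b // i ∉ Finset.univ.image a}) =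
      finrank ℂ (Es H u) * (b - finrank ℂ (Es H u)) := by
    rw [Fintype.card_prod, Fintype.card_fin, Fintype.card_subtype_compl,
      Fintype.card_coe, Finset.card_image_of_injective _ ha, Finset.card_univ,
      Fintype.card_fin, Fintype.card_fin]
  have h4 : rk (S ∪ Set.range ε) u ≤ finrank ℂ (secU H (Es H u)) := by
    apply Submodule.finrank_mono
    rintro _ ⟨D, hD, rfl⟩ α
    have h5 : ∀ k i, D (c k i) = 0 := by
      intro k i
      by_cases hi : i ∈ Finset.univ.image a
      · obtain ⟨k', -, rfl⟩ := Finset.mem_image.1 hi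
        rw [hac]
        split_ifs
        · exact D.map_one_eq_zero
        · exact map_zero D
      · exact hD _ (Or.inr ⟨(k, ⟨i, hi⟩), rfl⟩)
    have h6 : col H (fun j => D (u j)) α = ∑ k, D (col H u α (a k)) • c k := by
      funext i
      have h7 : col H (fun j => D (u j)) α i = D (col H u α i) :=
        (GH_const hH (Kd_anti Set.subset_union_left hD) u i α).symm
      have h8 := congrFun (hs _ (col_mem H u α)) i
      rw [h7, h8, Finset.sum_apply, map_sum, Finset.sum_apply]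
      apply Finset.sum_congr rfl
      intro k _
      rw [Pi.smul_apply, Pi.smul_apply, smul_eq_mul, Derivation.leibniz, h5, smul_zero,
        zero_add, smul_eq_mul, smul_eq_mul, mul_comm]
    show col H (fun j => D (u j)) α ∈ Es H u
    rw [h6]
    exact Submodule.sum_mem _ fun k _ => Submodule.smul_mem _ _ (hc k)
  omega

theorem main_claim {κ : Type*} [Fintype κ] {S : Set ℂ} {H : Fin R → Fin b → Ex m M → ℂ}
    (hH : ∀ D ∈ Kd S, ∀ j a α, D (H j a α) = 0)
    (hinj : ∀ u : Fin R → ℂ, (∀ a α, GH H u a α = 0) → u = 0)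
    (l : κ → Fin m → ℂ) (z : Fin m → ℂ) (τ : Fin R → ℂ)
    (hgen : Gen S (Sum.elim (fun q : κ × Fin m => l q.1 q.2) (Sum.elim z τ)))
    (N₀ : ℕ) (hκ : N₀ ≤ Fintype.card κ)
    (h1 : (m + M - 1).choose M < N₀ + (m - (2 * b - 2) + M - 1).choose M)
    (h2 : ∀ E : Submodule ℂ (Fin b → ℂ), E ≠ ⊥ → E ≠ ⊤ →
      finrank ℂ (secU H E) + finrank ℂ E * (b - finrank ℂ E) < finrank ℂ E * N₀)
    (hK : VS H (insert z (Set.range l)) ≠ ⊥) :
    finrank ℂ (VS H (insert z (Set.range l))) + b ≤ finrank ℂ (VS H (Set.range l)) := by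
  classical
  obtain ⟨u, huK, hu0, hu⟩ := step1 hH l z τ hgen.right hK
  have hl : rk S (fun q : κ × Fin m => l q.1 q.2) = Fintype.card κ * m := by
    have h3 : Gen S (fun q : κ × Fin m => l q.1 q.2) := hgen.comp Sum.inl Sum.inl_injective
    rw [h3.rk, Fintype.card_prod, Fintype.card_fin]
  have huz : ∀ a, eval z (Pg (GH H u a)) = 0 := huK z (Or.inl rfl)
  have hul : ∀ s a, eval (l s) (Pg (GH H u a)) = 0 := fun s => huK (l s) (Or.inr ⟨s, rfl⟩)
  have heb : finrank ℂ (Es H u) ≤ b := by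
    have h3 := Submodule.finrank_le (Es H u)
    rw [finrank_fintype_fun_eq_card, Fintype.card_fin] at h3
    exact h3
  have hN : (m + M - 1).choose M <
      Fintype.card κ + (m - (2 * finrank ℂ (Es H u) - 2) + M - 1).choose M := by
    have h3 : (m - (2 * b - 2) + M - 1).choose M ≤
        (m - (2 * finrank ℂ (Es H u) - 2) + M - 1).choose M := by
      apply Nat.choose_le_choose
      omega
    omega
  have h3 := claimZ hH u l hl hul z huz hN
  by_cases he : finrank ℂ (Es H u) = b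
  · omega
  · exfalso
    have hbot : Es H u ≠ ⊥ := by
      intro h
      apply hu0
      apply hinj
      intro a α
      have h4 := col_mem H u α
      rw [h, Submodule.mem_bot] at h4
      exact congrFun h4 a
    have htop : Es H u ≠ ⊤ := by
      intro h
      apply he
      rw [h, finrank_top, finrank_fintype_fun_eq_card, Fintype.card_fin]
    have h4 := h2 (Es H u) hbot htop
    have h5 := step5 hH u
    have h6 := rk_le_add S u (fun q : κ × Fin m => l q.1 q.2)
    have h7 := rk_prod_le (S ∪ Set.range u) l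
    have h8 : ∑ s, (rk (S ∪ Set.range u) (l s) + finrank ℂ (Es H u)) ≤ ∑ _s : κ, m :=
      Finset.sum_le_sum fun s _ => claimZ hH u l hl hul (l s) (hul s) hN
    rw [Finset.sum_add_distrib, Finset.sum_const, Finset.sum_const, Finset.card_univ,
      smul_eq_mul, smul_eq_mul] at h8
    have h9 : finrank ℂ (Es H u) * N₀ ≤ Fintype.card κ * finrank ℂ (Es H u) := by
      rw [mul_comm]
      exact Nat.mul_le_mul_right _ hκ
    omega

end Pool.Agent.V7.Top

end

section

/-!
# Exactness of the evaluation of vector valued forms at general points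
-/

namespace Pool.Agent.V7.Top

open Module MvPolynomial

variable {R b m M : ℕ}

/-- Evaluation at a point in coordinates. -/
noncomputable def evR (H : Fin R → Fin b → Ex m M → ℂ) (x : Fin m → ℂ) :
    (Fin R → ℂ) →ₗ[ℂ] (Fin b → ℂ) :=
  LinearMap.pi fun a => ∑ j, eval x (Pg (H j a)) • LinearMap.proj j

theorem evR_apply (H : Fin R → Fin b → Ex m M → ℂ) (x : Fin m → ℂ) (u : Fin R → ℂ) (a : Fin b) :
    evR H x u a = eval x (Pg (GH H u a)) := by
  rw [ev_GH]
  simp [evR, mul_comm]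

theorem VS_insert (H : Fin R → Fin b → Ex m M → ℂ) (A : Set (Fin m → ℂ)) (x : Fin m → ℂ) :
    VS H (insert x A) = VS H A ⊓ LinearMap.ker (evR H x) := by
  ext u
  rw [Submodule.mem_inf, LinearMap.mem_ker, mem_VS, mem_VS]
  constructor
  · intro h
    refine ⟨fun y hy => h y (Or.inr hy), ?_⟩
    funext a
    rw [evR_apply]
    exact h x (Or.inl rfl) a
  · rintro ⟨h1, h2⟩ y (rfl | hy) a
    · rw [← evR_apply, h2]
      rfl
    · exact h1 y hy a

theorem finrank_split (W : Submodule ℂ (Fin R → ℂ)) (f : (Fin R → ℂ) →ₗ[ℂ] (Fin b → ℂ)) :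
    finrank ℂ (W.map f) + finrank ℂ (W ⊓ LinearMap.ker f : Submodule ℂ (Fin R → ℂ)) =
      finrank ℂ W := by
  have h1 := LinearMap.finrank_range_add_finrank_ker (f.domRestrict W)
  rw [LinearMap.range_domRestrict] at h1
  rw [← h1]
  congr 1
  rw [LinearMap.ker_domRestrict]
  have h2 := Submodule.finrank_map_subtype_eq W ((LinearMap.ker f).comap W.subtype)
  rw [Submodule.map_comap_subtype] at h2
  rw [h2]

theorem VS_drop_le (H : Fin R → Fin b → Ex m M → ℂ) (A : Set (Fin m → ℂ)) (x : Fin m → ℂ) :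
    finrank ℂ (VS H A) ≤ finrank ℂ (VS H (insert x A)) + b := by
  rw [VS_insert, ← finrank_split (VS H A) (evR H x)]
  have h1 := Submodule.finrank_le ((VS H A).map (evR H x))
  rw [finrank_fintype_fun_eq_card, Fintype.card_fin] at h1
  omega

theorem VS_drop_mono (H : Fin R → Fin b → Ex m M → ℂ) {A B : Set (Fin m → ℂ)} (h : A ⊆ B)
    (x : Fin m → ℂ) :
    finrank ℂ (VS H B) + finrank ℂ (VS H (insert x A)) ≤
      finrank ℂ (VS H A) + finrank ℂ (VS H (insert x B)) := by
  rw [VS_insert, VS_insert, ← finrank_split (VS H A) (evR H x),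
    ← finrank_split (VS H B) (evR H x)]
  have h1 : VS H B ≤ VS H A := fun u hu y hy => hu y (h hy)
  have h2 := Submodule.finrank_mono (Submodule.map_mono (f := evR H x) h1)
  omega

theorem coord_exact {S : Set ℂ} (hS : S.Countable) {H : Fin R → Fin b → Ex m M → ℂ}
    (hH : ∀ D ∈ Kd S, ∀ j a α, D (H j a α) = 0)
    (hinj : ∀ u : Fin R → ℂ, (∀ a α, GH H u a α = 0) → u = 0) (N₀ : ℕ)
    (h1 : (m + M - 1).choose M < N₀ + (m - (2 * b - 2) + M - 1).choose M)
    (h2 : ∀ E : Submodule ℂ (Fin b → ℂ), E ≠ ⊥ → E ≠ ⊤ →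
      finrank ℂ (secU H E) + finrank ℂ E * (b - finrank ℂ E) < finrank ℂ E * N₀)
    (h3 : b * (N₀ + 1) ≤ R) (N : ℕ) :
    ∃ l : Fin N → Fin m → ℂ, finrank ℂ (VS H (Set.range l)) ≤ R - b * N := by
  classical
  obtain ⟨N', hN', hN''⟩ : ∃ N', N ≤ N' ∧ N₀ + 1 ≤ N' :=
    ⟨max N (N₀ + 1), le_max_left _ _, le_max_right _ _⟩
  obtain ⟨t, ht⟩ := exists_gen hS ((Fin N' × Fin m) ⊕ Fin R)
  let L : Fin N' → Fin m → ℂ := fun s i => t (Sum.inl (s, i))
  let W : Finset (Fin N') → Submodule ℂ (Fin R → ℂ) := fun A => VS H (L '' A)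
  have hWi : ∀ (A : Finset (Fin N')) (q : Fin N'), W (insert q A) = VS H (insert (L q) (L '' A)) := by
    intro A q
    simp only [W, Finset.coe_insert, Set.image_insert_eq]
  have hdrop : ∀ (A : Finset (Fin N')) (q : Fin N'), q ∉ A → N₀ ≤ A.card →
      W (insert q A) ≠ ⊥ → finrank ℂ (W (insert q A)) + b ≤ finrank ℂ (W A) := by
    intro A q hq hA hne
    have hr : Set.range (fun s : A => L s) = L '' A := by
      ext x
      constructor
      · rintro ⟨s, rfl⟩
        exact ⟨s, s.2, rfl⟩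
      · rintro ⟨s, hs, rfl⟩
        exact ⟨⟨s, hs⟩, rfl⟩
    let f : (A × Fin m) ⊕ (Fin m ⊕ Fin R) → (Fin N' × Fin m) ⊕ Fin R :=
      Sum.elim (fun p => Sum.inl (p.1.1, p.2)) (Sum.elim (fun i => Sum.inl (q, i)) Sum.inr)
    have hf : Function.Injective f := by
      rintro (⟨⟨s, hs⟩, i⟩ | (i | j)) (⟨⟨s', hs'⟩, i'⟩ | (i' | j')) h
      · simp only [f, Sum.elim_inl, Sum.inl.injEq, Prod.mk.injEq] at h
        obtain ⟨h4, h5⟩ := h
        subst h4
        subst h5
        rfl
      · simp only [f, Sum.elim_inl, Sum.elim_inr, Sum.inl.injEq, Prod.mk.injEq] at h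
        exact absurd (h.1 ▸ hs) hq
      · simp [f] at h
      · simp only [f, Sum.elim_inl, Sum.elim_inr, Sum.inl.injEq, Prod.mk.injEq] at h
        exact absurd (h.1.symm ▸ hs') hq
      · simp only [f, Sum.elim_inl, Sum.elim_inr, Sum.inl.injEq, Prod.mk.injEq, true_and] at h
        rw [h]
      · simp [f] at h
      · simp [f] at h
      · simp [f] at h
      · simp only [f, Sum.elim_inr, Sum.inr.injEq] at h
        rw [h]
    have hgen : Gen S (Sum.elim (fun p : A × Fin m => L p.1 p.2)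
        (Sum.elim (L q) (fun j => t (Sum.inr j)))) := by
      have h4 := ht.comp f hf
      have h5 : (fun k => t (f k)) = Sum.elim (fun p : A × Fin m => L p.1 p.2)
          (Sum.elim (L q) (fun j => t (Sum.inr j))) := by
        funext k
        rcases k with p | (i | j) <;> rfl
      rw [h5] at h4
      exact h4
    have h4 := main_claim hH hinj (fun s : A => L s) (L q) (fun j => t (Sum.inr j)) hgen N₀
      (by rw [Fintype.card_coe]; exact hA) h1 h2 (by rw [hr, ← hWi]; exact hne)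
    rw [hr, ← hWi] at h4
    exact h4
  have hlow : ∀ A : Finset (Fin N'), R ≤ finrank ℂ (W A) + b * A.card := by
    intro A
    induction A using Finset.induction_on with
    | empty =>
      have h4 : W ∅ = ⊤ := by
        rw [eq_top_iff]
        intro u _ x hx
        simp at hx
      rw [h4, finrank_top, finrank_fintype_fun_eq_card, Fintype.card_fin]
      omega
    | insert q A hq ih =>
      have h4 := VS_drop_le H (L '' A) (L q)
      rw [← hWi] at h4
      rw [Finset.card_insert_of_notMem hq, mul_add, mul_one]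
      have h5 : finrank ℂ (W A) = finrank ℂ (VS H (L '' A)) := rfl
      omega
  have hP : ∀ (A : Finset (Fin N')) (q : Fin N'), q ∉ A → A.card = N₀ →
      finrank ℂ (W (insert q A)) + b ≤ finrank ℂ (W A) := by
    intro A q hq hA
    by_cases hne : W (insert q A) = ⊥
    · rw [hne, finrank_bot]
      have h4 := hlow A
      rw [hA] at h4
      rw [mul_add, mul_one] at h3
      omega
    · exact hdrop A q hq hA.ge hne
  have hsmall : ∀ (A : Finset (Fin N')) (q : Fin N'), q ∉ A → A.card ≤ N₀ →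
      finrank ℂ (W (insert q A)) + b ≤ finrank ℂ (W A) := by
    intro A q hq hA
    have h4 : A ⊆ Finset.univ.erase q := by
      intro x hx
      rw [Finset.mem_erase]
      refine ⟨?_, Finset.mem_univ _⟩
      rintro rfl
      exact hq hx
    have h5 : N₀ ≤ (Finset.univ.erase q).card := by
      rw [Finset.card_erase_of_mem (Finset.mem_univ _), Finset.card_univ, Fintype.card_fin]
      omega
    obtain ⟨B, hAB, hB, hBc⟩ := Finset.exists_subsuperset_card_eq h4 hA h5
    have hqB : q ∉ B := fun h => (Finset.mem_erase.1 (hB h)).1 rfl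
    have h6 := hP B q hqB hBc
    have h7 := VS_drop_mono H (A := L '' A) (B := L '' B)
      (Set.image_mono (Finset.coe_subset.2 hAB)) (L q)
    rw [← hWi, ← hWi] at h7
    have h8 : finrank ℂ (W A) = finrank ℂ (VS H (L '' A)) := rfl
    have h9 : finrank ℂ (W B) = finrank ℂ (VS H (L '' B)) := rfl
    omega
  have hmain : ∀ A : Finset (Fin N'), finrank ℂ (W A) ≤ R - b * A.card := by
    intro A
    induction A using Finset.induction_on with
    | empty =>
      have h4 := Submodule.finrank_le (W ∅)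
      rw [finrank_fintype_fun_eq_card, Fintype.card_fin] at h4
      rw [Finset.card_empty, mul_zero, Nat.sub_zero]
      exact h4
    | insert q A hq ih =>
      rw [Finset.card_insert_of_notMem hq, mul_add, mul_one]
      by_cases hA : A.card ≤ N₀
      · have h4 := hsmall A q hq hA
        omega
      · by_cases hne : W (insert q A) = ⊥
        · rw [hne, finrank_bot]
          exact Nat.zero_le _
        · have h4 := hdrop A q hq (by omega) hne
          omega
  refine ⟨fun s => L (Fin.castLE hN' s), ?_⟩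
  have h4 := hmain (Finset.univ.map (Fin.castLEEmb hN'))
  rw [Finset.card_map, Finset.card_univ, Fintype.card_fin] at h4
  have h5 : Set.range (fun s => L (Fin.castLE hN' s)) =
      L '' (Finset.univ.map (Fin.castLEEmb hN') : Finset (Fin N')) := by
    ext x
    constructor
    · rintro ⟨s, rfl⟩
      exact ⟨Fin.castLE hN' s, Finset.mem_coe.2 (Finset.mem_map.2 ⟨s, Finset.mem_univ s, rfl⟩),
        rfl⟩
    · rintro ⟨y, hy, rfl⟩
      obtain ⟨s, -, rfl⟩ := Finset.mem_map.1 (Finset.mem_coe.1 hy)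
      exact ⟨s, rfl⟩
  rw [h5]
  exact h4

/-- The members of `V` all of whose vectors of coefficients lie in `E`. -/
noncomputable def secE (V : Submodule ℂ (Fin b → MvPolynomial (Fin m) ℂ))
    (E : Submodule ℂ (Fin b → ℂ)) : Submodule ℂ (Fin b → MvPolynomial (Fin m) ℂ) where
  carrier := {G | G ∈ V ∧ ∀ α, (fun a => coeff α (G a)) ∈ E}
  add_mem' := by
    rintro G G' ⟨h1, h2⟩ ⟨h3, h4⟩
    refine ⟨V.add_mem h1 h3, fun α => ?_⟩
    have h5 : (fun a => coeff α ((G + G') a)) =
        (fun a => coeff α (G a)) + fun a => coeff α (G' a) := by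
      funext a
      simp
    rw [h5]
    exact E.add_mem (h2 α) (h4 α)
  zero_mem' := by
    refine ⟨V.zero_mem, fun α => ?_⟩
    have h5 : (fun a => coeff α ((0 : Fin b → MvPolynomial (Fin m) ℂ) a)) = 0 := by
      funext a
      simp
    rw [h5]
    exact E.zero_mem
  smul_mem' := by
    rintro c G ⟨h1, h2⟩
    refine ⟨V.smul_mem c h1, fun α => ?_⟩
    have h5 : (fun a => coeff α ((c • G) a)) = c • fun a => coeff α (G a) := by
      funext a
      simp
    rw [h5]
    exact E.smul_mem c (h2 α)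

/-- The members of `V` which vanish at the points `l s`. -/
noncomputable def vanish {κ : Type*} (V : Submodule ℂ (Fin b → MvPolynomial (Fin m) ℂ))
    (l : κ → Fin m → ℂ) : Submodule ℂ (Fin b → MvPolynomial (Fin m) ℂ) where
  carrier := {G | G ∈ V ∧ ∀ s a, eval (l s) (G a) = 0}
  add_mem' := by
    rintro G G' ⟨h1, h2⟩ ⟨h3, h4⟩
    refine ⟨V.add_mem h1 h3, fun s a => ?_⟩
    rw [Pi.add_apply, map_add, h2, h4, add_zero]
  zero_mem' := ⟨V.zero_mem, fun s a => by rw [Pi.zero_apply, map_zero]⟩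
  smul_mem' := by
    rintro c G ⟨h1, h2⟩
    refine ⟨V.smul_mem c h1, fun s a => ?_⟩
    rw [Pi.smul_apply, smul_eval, h2, mul_zero]

/-- Exactness of the evaluation of vector valued forms at general points: if the slope condition
`h2` holds, `N` general points impose `min (b * N) (dim V)` conditions on `V`. -/
theorem top_exact (V : Submodule ℂ (Fin b → MvPolynomial (Fin m) ℂ)) [FiniteDimensional ℂ V]
    (hV : ∀ G ∈ V, ∀ a, (G a).IsHomogeneous M) (N₀ : ℕ)
    (h1 : (m + M - 1).choose M < N₀ + (m - (2 * b - 2) + M - 1).choose M)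
    (h2 : ∀ E : Submodule ℂ (Fin b → ℂ), E ≠ ⊥ → E ≠ ⊤ →
      finrank ℂ (secE V E) + finrank ℂ E * (b - finrank ℂ E) < finrank ℂ E * N₀)
    (h3 : b * (N₀ + 1) ≤ finrank ℂ V) (N : ℕ) :
    ∃ l : Fin N → Fin m → ℂ, finrank ℂ (vanish V l) ≤ finrank ℂ V - b * N := by
  classical
  let B := Module.finBasis ℂ V
  let H : Fin (finrank ℂ V) → Fin b → Ex m M → ℂ :=
    fun j a α => coeff α.1 (((B j : V) : Fin b → MvPolynomial (Fin m) ℂ) a)
  let S : Set ℂ := Set.range (fun q : Fin (finrank ℂ V) × Fin b × Ex m M => H q.1 q.2.1 q.2.2)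
  have hS : S.Countable := Set.countable_range _
  have hH : ∀ D ∈ Kd S, ∀ j a α, D (H j a α) = 0 := fun D hD j a α => hD _ ⟨(j, a, α), rfl⟩
  let f : (Fin (finrank ℂ V) → ℂ) →ₗ[ℂ] (Fin b → MvPolynomial (Fin m) ℂ) :=
    V.subtype.comp B.equivFun.symm.toLinearMap
  have hf : Function.Injective f :=
    Subtype.val_injective.comp B.equivFun.symm.injective
  have hfV : ∀ u, f u ∈ V := fun u => (B.equivFun.symm u).2
  have hfP : ∀ u a, f u a = Pg (GH H u a) := by
    intro u a
    have h4 : f u a = ∑ j, u j • ((B j : V) : Fin b → MvPolynomial (Fin m) ℂ) a := by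
      show ((B.equivFun.symm u : V) : Fin b → MvPolynomial (Fin m) ℂ) a = _
      rw [Basis.equivFun_symm_apply, Submodule.coe_sum, Finset.sum_apply]
      rfl
    ext α
    by_cases h : α ∈ Finset.finsuppAntidiag (Finset.univ : Finset (Fin m)) M
    · have h5 := coeff_Pg (GH H u a) ⟨α, h⟩
      simp only at h5
      rw [h5, GH_apply, h4, coeff_sum]
      apply Finset.sum_congr rfl
      intro j _
      rw [coeff_smul, smul_eq_mul]
    · rw [coeff_Pg' _ _ h]
      apply (hV _ (hfV u) a).coeff_eq_zero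
      intro h5
      apply h
      rw [Finset.mem_finsuppAntidiag]
      refine ⟨?_, Finset.subset_univ _⟩
      rw [← h5, Finsupp.degree_eq_sum]
  have hinj : ∀ u : Fin (finrank ℂ V) → ℂ, (∀ a α, GH H u a α = 0) → u = 0 := by
    intro u hu
    apply hf
    rw [map_zero]
    funext a
    rw [hfP, Pi.zero_apply, ← map_zero Pg]
    congr 1
    funext α
    exact hu a α
  have hsurj : ∀ G ∈ V, ∃ u, f u = G := by
    intro G hG
    refine ⟨B.equivFun ⟨G, hG⟩, ?_⟩
    show ((B.equivFun.symm (B.equivFun ⟨G, hG⟩) : V) : Fin b → MvPolynomial (Fin m) ℂ) = G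
    rw [LinearEquiv.symm_apply_apply]
  have hsec : ∀ E : Submodule ℂ (Fin b → ℂ), finrank ℂ (secU H E) = finrank ℂ (secE V E) := by
    intro E
    have h4 : (secU H E).map f = secE V E := by
      ext G
      constructor
      · rintro ⟨u, hu, rfl⟩
        refine ⟨hfV u, fun α => ?_⟩
        by_cases h : α ∈ Finset.finsuppAntidiag (Finset.univ : Finset (Fin m)) M
        · have h5 := hu ⟨α, h⟩
          have h6 : (fun a => coeff α (f u a)) = col H u ⟨α, h⟩ := by
            funext a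
            rw [hfP]
            exact coeff_Pg (GH H u a) ⟨α, h⟩
          rw [h6]
          exact h5
        · have h6 : (fun a => coeff α (f u a)) = 0 := by
            funext a
            rw [hfP, coeff_Pg' _ _ h]
            rfl
          rw [h6]
          exact E.zero_mem
      · rintro ⟨hG, hG'⟩
        obtain ⟨u, rfl⟩ := hsurj G hG
        refine ⟨u, fun α => ?_, rfl⟩
        have h6 : (fun a => coeff α.1 (f u a)) = col H u α := by
          funext a
          rw [hfP]
          exact coeff_Pg (GH H u a) α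
        rw [← h6]
        exact hG' α.1
    rw [← h4]
    exact (Submodule.equivMapOfInjective f hf (secU H E)).finrank_eq
  obtain ⟨l, hl⟩ := coord_exact hS hH hinj N₀ h1 (fun E hE hE' => by
    rw [hsec]
    exact h2 E hE hE') h3 N
  refine ⟨l, ?_⟩
  have h4 : (VS H (Set.range l)).map f = vanish V l := by
    ext G
    constructor
    · rintro ⟨u, hu, rfl⟩
      refine ⟨hfV u, fun s a => ?_⟩
      rw [hfP]
      exact hu (l s) ⟨s, rfl⟩ a
    · rintro ⟨hG, hG'⟩
      obtain ⟨u, rfl⟩ := hsurj G hG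
      refine ⟨u, ?_, rfl⟩
      rintro x ⟨s, rfl⟩ a
      rw [← hfP]
      exact hG' s a
  rw [← h4, ← (Submodule.equivMapOfInjective f hf (VS H (Set.range l))).finrank_eq]
  exact hl

end Pool.Agent.V7.Top

end

section

/-!
# From the exactness of the evaluation of vector valued forms to systems of points
-/

namespace Pool.Agent.V7.Top

open Module MvPolynomial Pool.Agent.H51.TB

/-- The points of type `top` impose the expected number of conditions on the solutions for the
points `rest`, if their conditions are the vanishing of a vector valued form at a point. -/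
theorem assemble {E ν T : Type} [Fintype E] (S : Sys E ν T) {κ : Type} (rest : κ → T) (top : T)
    {b m M : ℕ} (Γ : (E → ℂ) →ₗ[ℂ] (Fin b → MvPolynomial (Fin m) ℂ))
    (hhom : ∀ f a, (Γ f a).IsHomogeneous M) (pos : (Fin m → ℂ) → ν → ℂ)
    (htop : ∀ (z : Fin m → ℂ) (f : E → ℂ), f ∈ S.V (fun _ : Unit => top) (fun _ => pos z) →
      ∀ a, eval z (Γ f a) = 0)
    (p₀ : κ → ν → ℂ) (hinj : ∀ f ∈ S.V rest p₀, Γ f = 0 → f = 0) (N₀ : ℕ)
    (h1 : (m + M - 1).choose M < N₀ + (m - (2 * b - 2) + M - 1).choose M)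
    (h2 : ∀ F : Submodule ℂ (Fin b → ℂ), F ≠ ⊥ → F ≠ ⊤ →
      finrank ℂ (secE ((S.V rest p₀).map Γ) F) + finrank ℂ F * (b - finrank ℂ F) <
        finrank ℂ F * N₀)
    (h3 : b * (N₀ + 1) ≤ finrank ℂ (S.V rest p₀)) (N : ℕ) :
    S.gd (Sum.elim rest fun _ : Fin N => top) ≤ finrank ℂ (S.V rest p₀) - b * N := by
  classical
  set V := (S.V rest p₀).map Γ with hV
  have hfin : FiniteDimensional ℂ V := inferInstance
  let Γ' : S.V rest p₀ →ₗ[ℂ] (Fin b → MvPolynomial (Fin m) ℂ) := Γ.domRestrict _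
  have hΓ' : Function.Injective Γ' := by
    rw [← LinearMap.ker_eq_bot, eq_bot_iff]
    intro f hf
    rw [Submodule.mem_bot]
    exact Subtype.ext (hinj f.1 f.2 hf)
  have hfr : finrank ℂ V = finrank ℂ (S.V rest p₀) := by
    have h4 : LinearMap.range Γ' = V := LinearMap.range_domRestrict _ _
    rw [← h4]
    exact LinearMap.finrank_range_of_inj hΓ'
  obtain ⟨l, hl⟩ := top_exact V (M := M) (by
    rintro _ ⟨f, _, rfl⟩ a
    exact hhom f a) N₀ h1 h2 (by rw [hfr]; exact h3) N
  rw [hfr] at hl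
  refine le_trans ?_ hl
  refine (gd_le S _ (Sum.elim p₀ fun s => pos (l s))).trans ?_
  have hle : ∀ f ∈ S.V (Sum.elim rest fun _ : Fin N => top) (Sum.elim p₀ fun s => pos (l s)),
      f ∈ S.V rest p₀ ∧ Γ f ∈ vanish V l := by
    intro f hf
    rw [V_elim, Submodule.mem_inf] at hf
    refine ⟨hf.1, Submodule.mem_map_of_mem hf.1, fun s a => htop (l s) f ?_ a⟩
    intro _ r
    exact hf.2 s r
  have hfd : FiniteDimensional ℂ (vanish V l) :=
    Submodule.finiteDimensional_of_le (S₂ := V) fun G hG => hG.1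
  let Δ : S.V (Sum.elim rest fun _ : Fin N => top) (Sum.elim p₀ fun s => pos (l s)) →ₗ[ℂ]
      vanish V l := (Γ.domRestrict _).codRestrict (vanish V l) fun f => (hle f.1 f.2).2
  refine LinearMap.finrank_le_finrank_of_injective (f := Δ) ?_
  rw [← LinearMap.ker_eq_bot, eq_bot_iff]
  intro f hf
  rw [Submodule.mem_bot]
  have h4 : Γ f.1 = 0 := congrArg Subtype.val hf
  exact Subtype.ext (hinj f.1 (hle f.1 f.2).1 h4)

end Pool.Agent.V7.Top

end

section

/-!
# The top level: from the conditions at general positions to exactness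

`SF φ V F` is the space of the `f ∈ V` all of whose coefficient vectors with respect to the last
variables lie in `F`.
-/

set_option autoImplicit false
set_option linter.unusedSectionVars false

namespace Pool.Agent.V7.Top

open Finset Module MvPolynomial Pool.Agent.H51.TB Pool.Agent.V7 Pool.Agent.H54.V7

variable {ν : Type} [Fintype ν] [DecidableEq ν] {k c m : ℕ}

/-- The solutions whose coefficient vectors lie in `F`. -/
noncomputable def SF (φ : (Fin k × Fin c) ⊕ Fin m ≃ ν) {A : Finset (ν → ℕ)}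
    (V : Submodule ℂ ({e // e ∈ A} → ℂ)) (F : Submodule ℂ ((Fin k → Fin c) → ℂ)) :
    Submodule ℂ ({e // e ∈ A} → ℂ) where
  carrier := {f | f ∈ V ∧ ∀ α, (fun a => coeff α (Gam φ f a)) ∈ F}
  add_mem' := by
    rintro f f' ⟨h1, h2⟩ ⟨h3, h4⟩
    refine ⟨V.add_mem h1 h3, fun α => ?_⟩
    have h5 : (fun a => coeff α (Gam φ (f + f') a)) =
        (fun a => coeff α (Gam φ f a)) + fun a => coeff α (Gam φ f' a) := by
      funext a
      simp
    rw [h5]
    exact F.add_mem (h2 α) (h4 α)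
  zero_mem' := by
    refine ⟨V.zero_mem, fun α => ?_⟩
    have h5 : (fun a => coeff α (Gam φ (0 : {e // e ∈ A} → ℂ) a)) = 0 := by
      funext a
      simp
    rw [h5]
    exact F.zero_mem
  smul_mem' := by
    rintro x f ⟨h1, h2⟩
    refine ⟨V.smul_mem x h1, fun α => ?_⟩
    have h5 : (fun a => coeff α (Gam φ (x • f) a)) = x • fun a => coeff α (Gam φ f a) := by
      funext a
      simp
    rw [h5]
    exact F.smul_mem x (h2 α)

theorem mem_SF_coeff (φ : (Fin k × Fin c) ⊕ Fin m ≃ ν) {A : Finset (ν → ℕ)}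
    (V : Submodule ℂ ({e // e ∈ A} → ℂ)) (F : Submodule ℂ ((Fin k → Fin c) → ℂ))
    (f : {e // e ∈ A} → ℂ) :
    f ∈ SF φ V F ↔ f ∈ V ∧ ∀ α, (fun a => coeff α (Gam φ f a)) ∈ F := Iff.rfl

/-- The exponent of `∏ i, x (i, a i)` times `z ^ α`. -/
def sl (φ : (Fin k × Fin c) ⊕ Fin m ≃ ν) (a : Fin k → Fin c) (α : Fin m → ℕ) : ν → ℕ :=
  fun s => Sum.elim (fun x : Fin k × Fin c => if x.2 = a x.1 then 1 else 0) α (φ.symm s)

theorem sl_inl (φ : (Fin k × Fin c) ⊕ Fin m ≃ ν) (a : Fin k → Fin c) (α : Fin m → ℕ)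
    (x : Fin k × Fin c) : sl φ a α (φ (Sum.inl x)) = if x.2 = a x.1 then 1 else 0 := by
  simp [sl]

theorem sl_inr (φ : (Fin k × Fin c) ⊕ Fin m ≃ ν) (a : Fin k → Fin c) (α : Fin m → ℕ)
    (t : Fin m) : sl φ a α (φ (Sum.inr t)) = α t := by
  simp [sl]

theorem sl_HasX (φ : (Fin k × Fin c) ⊕ Fin m ≃ ν) (a : Fin k → Fin c) (α : Fin m → ℕ) :
    HasX φ a (sl φ a α) := fun x => sl_inl φ a α x

theorem sl_mem {φ : (Fin k × Fin c) ⊕ Fin m ≃ ν} {β : ν → ℕ} (hβ : IsB φ β) {M : ℕ}
    (hk : k + 1 = M) (a : Fin k → Fin c) {α : Fin m → ℕ} (h : ∑ t, α t = M) :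
    sl φ a α ∈ Pool.Agent.V7.Ex β (2 * M - 1) k := by
  rw [Pool.Agent.V7.mem_Ex]
  constructor
  · rw [sum_split φ, (sl_HasX φ a α).sum]
    simp only [sl_inr]
    omega
  · intro i hi
    refine ⟨φ (Sum.inl (⟨i, hi⟩, a ⟨i, hi⟩)), hβ.1 _, ?_⟩
    rw [sl_inl, if_pos rfl]
    exact one_ne_zero

theorem coeff_Gam_sl {φ : (Fin k × Fin c) ⊕ Fin m ≃ ν} {β : ν → ℕ} (hβ : IsB φ β) {M : ℕ}
    (hk : k + 1 = M) (f : {e // e ∈ Pool.Agent.V7.Ex β (2 * M - 1) k} → ℂ) (a : Fin k → Fin c)
    (α : Fin m →₀ ℕ) (h : ∑ t, α t = M) :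
    coeff α (Gam φ f a) = f ⟨sl φ a α, sl_mem hβ hk a h⟩ := by
  rw [← coeff_Gam φ f a ⟨sl φ a α, sl_mem hβ hk a h⟩ (sl_HasX φ a α)]
  congr 1
  ext t
  rw [zp_apply]
  exact (sl_inr φ a α t).symm

/-- `SF` in terms of slices. -/
theorem mem_SF {φ : (Fin k × Fin c) ⊕ Fin m ≃ ν} {β : ν → ℕ} (hβ : IsB φ β) {M : ℕ}
    (hk : k + 1 = M) (V : Submodule ℂ ({e // e ∈ Pool.Agent.V7.Ex β (2 * M - 1) k} → ℂ))
    (F : Submodule ℂ ((Fin k → Fin c) → ℂ))
    (f : {e // e ∈ Pool.Agent.V7.Ex β (2 * M - 1) k} → ℂ) :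
    f ∈ SF φ V F ↔ f ∈ V ∧ ∀ (α : Fin m → ℕ) (h : ∑ t, α t = M),
      (fun a => f ⟨sl φ a α, sl_mem hβ hk a h⟩) ∈ F := by
  rw [mem_SF_coeff]
  refine and_congr_right fun _ => ?_
  constructor
  · intro h1 α h
    have h2 := h1 (Finsupp.equivFunOnFinite.symm α)
    have h3 : (fun a => coeff (Finsupp.equivFunOnFinite.symm α) (Gam φ f a)) =
        fun a => f ⟨sl φ a α, sl_mem hβ hk a h⟩ := by
      funext a
      exact coeff_Gam_sl hβ hk f a (Finsupp.equivFunOnFinite.symm α) h
    rwa [h3] at h2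
  · intro h1 α
    by_cases h : ∑ t, α t = M
    · have h3 : (fun a => coeff α (Gam φ f a)) = fun a => f ⟨sl φ a α, sl_mem hβ hk a h⟩ := by
        funext a
        exact coeff_Gam_sl hβ hk f a α h
      rw [h3]
      exact h1 α h
    · have h3 : (fun a => coeff α (Gam φ f a)) = 0 := by
        funext a
        refine (Gam_hom φ hk β f a).coeff_eq_zero ?_
        rw [Finsupp.degree_eq_sum]
        exact h
      rw [h3]
      exact F.zero_mem

/-- Points of the type `range k` on the solutions at a fixed position of the other points. -/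
theorem top_lin {φ : (Fin k × Fin c) ⊕ Fin m ≃ ν} {β : ν → ℕ} (hβ : IsB φ β) {M : ℕ}
    (hk : k + 1 = M) {κ : Type} (rest : κ → Pool.Agent.V7.Kd) (p₀ : κ → ν ⊕ ν → ℂ)
    (hinj : ∀ f ∈ (LS M β k).V rest p₀, Gam φ f = 0 → f = 0) (N₀ : ℕ)
    (h1 : (m + M - 1).choose M < N₀ + (m - (2 * c ^ k - 2) + M - 1).choose M)
    (h2 : ∀ F : Submodule ℂ ((Fin k → Fin c) → ℂ), F ≠ ⊥ → F ≠ ⊤ →
      finrank ℂ (SF φ ((LS M β k).V rest p₀) F) + finrank ℂ F * (c ^ k - finrank ℂ F) <
        finrank ℂ F * N₀)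
    (h3 : c ^ k * (N₀ + 1) ≤ finrank ℂ ((LS M β k).V rest p₀)) (N : ℕ) :
    (LS M β k).gd (Sum.elim rest fun _ : Fin N => Pool.Agent.V7.Kd.ord M (range k)) ≤
      finrank ℂ ((LS M β k).V rest p₀) - c ^ k * N := by
  classical
  let g : Fin (c ^ k) ≃ (Fin k → Fin c) := finFunctionFinEquiv.symm
  let L : ((Fin k → Fin c) → MvPolynomial (Fin m) ℂ) →ₗ[ℂ]
    (Fin (c ^ k) → MvPolynomial (Fin m) ℂ) := LinearMap.funLeft ℂ _ g
  let Q : ((Fin k → Fin c) → ℂ) ≃ₗ[ℂ] (Fin (c ^ k) → ℂ) := LinearEquiv.funCongrLeft ℂ ℂ g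
  refine assemble (LS M β k) rest (Pool.Agent.V7.Kd.ord M (range k)) (M := M) (L ∘ₗ Gam φ)
    (fun f a => Gam_hom φ hk β f (g a)) (posz φ)
    (fun z f hf a => htop hβ hk z f hf (g a)) p₀ ?_ N₀ h1 ?_ h3 N
  · intro f hf h4
    refine hinj f hf (funext fun a => ?_)
    have h5 := congrFun h4 (g.symm a)
    have h6 : Gam φ f (g (g.symm a)) = 0 := h5
    rwa [g.apply_symm_apply] at h6
  · intro F' hF' hF''
    set F : Submodule ℂ ((Fin k → Fin c) → ℂ) := F'.comap Q.toLinearMap with hF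
    have hfr : finrank ℂ F = finrank ℂ F' := by
      have h4 : F.map Q.toLinearMap = F' :=
        Submodule.map_comap_eq_self (by
          rw [LinearMap.range_eq_top.2 Q.surjective]
          exact le_top)
      rw [← h4]
      exact (LinearEquiv.finrank_map_eq Q F).symm
    have hb : F ≠ ⊥ := by
      intro h
      rw [h, finrank_bot] at hfr
      exact hF' (Submodule.finrank_eq_zero.1 hfr.symm)
    have ht : F ≠ ⊤ := by
      intro h
      apply hF''
      rw [eq_top_iff]
      intro y _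
      have h4 : Q.symm y ∈ F := by
        rw [h]
        trivial
      have h5 : Q (Q.symm y) ∈ F' := h4
      rwa [Q.apply_symm_apply] at h5
    have h4 := h2 F hb ht
    rw [hfr] at h4
    refine lt_of_le_of_lt ?_ h4
    gcongr
    refine le_trans ?_ (Submodule.finrank_map_le (L ∘ₗ Gam φ) _)
    refine Submodule.finrank_mono ?_
    rintro G ⟨⟨f, hf, rfl⟩, h5⟩
    refine ⟨f, ⟨hf, fun α => ?_⟩, rfl⟩
    exact h5 α

open Topology in
/-- The same with conditions at general positions and near one position. -/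
theorem top_gen {φ : (Fin k × Fin c) ⊕ Fin m ≃ ν} {β : ν → ℕ} (hβ : IsB φ β) {M : ℕ}
    (hk : k + 1 = M) {κ : Type} [Fintype κ] (rest : κ → Pool.Agent.V7.Kd)
    (hG : Gn κ (ν ⊕ ν) fun p => ∀ f ∈ (LS M β k).V rest p,
      (∀ e : {e // e ∈ Pool.Agent.V7.Ex β (2 * M - 1) k},
        ∑ s ∈ univ.filter (fun s => β s < k), e.1 s ≤ k → f e = 0) → f = 0) (N₀ : ℕ)
    (h1 : (m + M - 1).choose M < N₀ + (m - (2 * c ^ k - 2) + M - 1).choose M)
    (h2 : ∃ p₁ : κ → ν ⊕ ν → ℂ, ∀ᶠ p in 𝓝 p₁, ∀ F : Submodule ℂ ((Fin k → Fin c) → ℂ),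
      F ≠ ⊥ → F ≠ ⊤ → finrank ℂ (SF φ ((LS M β k).V rest p) F) +
        finrank ℂ F * (c ^ k - finrank ℂ F) < finrank ℂ F * N₀)
    (h3 : c ^ k * (N₀ + 1) ≤ (LS M β k).gd rest) (N : ℕ) :
    (LS M β k).gd (Sum.elim rest fun _ : Fin N => Pool.Agent.V7.Kd.ord M (range k)) ≤
      (LS M β k).gd rest - c ^ k * N := by
  obtain ⟨p₁, hp₁⟩ := h2
  have h4 := hG.and (gn_gd (LS M β k) rest)
  obtain ⟨p, hp, hp1, hp2⟩ := Pool.Agent.V7.BE.Gn.near h4 p₁ _ hp₁
  rw [← hp2] at h3 ⊢
  refine top_lin hβ hk rest p ?_ N₀ h1 hp h3 N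
  intro f hf hf0
  exact hp1 f hf fun e he => Gam_zero hβ f hf0 e he

end Pool.Agent.V7.Top

end

section

/-!
# The top level: the input statements
-/

set_option autoImplicit false

namespace Pool.Agent.V7

open Finset Module Pool.Agent.H51.TB Pool.Agent.V7.ST Topology

/-- GAMMA: at general positions of the points a form of the level `k = M - 1` which satisfies their
conditions is zero if its part of degree `k` in the variables of the blocks `0, …, k - 1` is. -/
def GAMMA (M c k : ℕ) : Prop :=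
  ∃ e : ℝ, 0 < e ∧ ∃ n₀ : ℕ, ∀ n : ℕ, n₀ ≤ n → ∀ (κ : Type) [Fintype κ] (rest : κ → Kd),
    Cls0 M c k n e (fun τ => ((univ : Finset κ).val.map rest).count τ) →
    Gn κ (Fin n ⊕ Fin n) fun p => ∀ f ∈ (LS M (blk c n) k).V rest p,
      (∀ a : {a // a ∈ Ex (blk c n) (2 * M - 1) k},
        ∑ s ∈ univ.filter (fun s => blk c n s < k), a.1 s ≤ k → f a = 0) → f = 0

/-- BETA: near some position of the points (none of the type `range k`) the solutions with
coefficient vectors in a proper subspace `F ≠ 0` are too few. -/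
def BETA (M c k : ℕ) : Prop :=
  ∃ δ : ℝ, 0 < δ ∧ ∃ e : ℝ, 0 < e ∧ ∃ n₀ : ℕ, ∀ n : ℕ, n₀ ≤ n →
    ∀ (m : ℕ) (φ : (Fin k × Fin c) ⊕ Fin m ≃ Fin n), Top.IsB φ (blk c n) →
    ∀ (κ : Type) [Fintype κ] (rest : κ → Kd),
    Cls0 M c k n e (fun τ => ((univ : Finset κ).val.map rest).count τ) →
    (∀ i, rest i ≠ Kd.ord M (range k)) →
    ∃ p₁ : κ → Fin n ⊕ Fin n → ℂ, ∀ᶠ p in 𝓝 p₁, ∀ F : Submodule ℂ ((Fin k → Fin c) → ℂ),
      F ≠ ⊥ → F ≠ ⊤ → (finrank ℂ (Top.SF φ ((LS M (blk c n) k).V rest p) F) : ℝ) ≤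
        (1 - δ) * finrank ℂ F * ((n : ℝ) ^ M / (((2 * M - 1).choose M : ℝ) * (M.factorial : ℝ)))

/-- The virtual dimension of the points which are not of the type `range k`. -/
def VAS (M c k : ℕ) : Prop :=
  ∃ K : ℝ, 0 < K ∧ ∃ n₀ : ℕ, ∀ n : ℕ, n₀ ≤ n → ∀ e : ℝ, 0 ≤ e → e ≤ 1 → ∀ N : Kd → ℕ,
    Cls0 M c k n e N → N (.ord M (range k)) = 0 →
    |(vN M c k n N : ℝ) - (c : ℝ) ^ k *
      ((n : ℝ) ^ M / (((2 * M - 1).choose M : ℝ) * (M.factorial : ℝ)))| ≤
      (K * e + K / n) * (n : ℝ) ^ M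

/-- The numbering of the variables. -/
def phn (c k n : ℕ) (h : k * c ≤ n) : (Fin k × Fin c) ⊕ Fin (n - k * c) ≃ Fin n :=
  ((Equiv.sumCongr finProdFinEquiv (Equiv.refl _)).trans finSumFinEquiv).trans
    (finCongr (Nat.add_sub_cancel' h))

theorem phn_inl (c k n : ℕ) (h : k * c ≤ n) (x : Fin k × Fin c) :
    (phn c k n h (Sum.inl x)).1 = x.2 + c * x.1 := rfl

theorem phn_inr (c k n : ℕ) (h : k * c ≤ n) (t : Fin (n - k * c)) :
    (phn c k n h (Sum.inr t)).1 = k * c + t := rfl

theorem isB_phn (c k n : ℕ) (hc : 0 < c) (h : k * c ≤ n) : Top.IsB (phn c k n h) (blk c n) := by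
  constructor
  · intro x
    show (phn c k n h (Sum.inl x)).1 / c = x.1
    rw [phn_inl, Nat.add_mul_div_left _ _ hc, Nat.div_eq_of_lt x.2.2, zero_add]
  · intro t
    show k ≤ (phn c k n h (Sum.inr t)).1 / c
    rw [phn_inr, Nat.le_div_iff_mul_le hc]
    omega

end Pool.Agent.V7

end
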