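import Pool.Agent.H94.LP5.M04
import Pool.Agent.H94.LP5.M05
import Pool.Agent.H94.LP5.M11

/-! The parts of this file: H54.V7.Eul, H54.V7.Red, H54.V7.Size, V7.F1. -/

section

/-!
# Euler relations for Taylor coefficients and for the swapped conditions
-/

namespace Pool.Agent.H54.V7

open Finset Pool.Agent.H18.Ex

section

set_option linter.unusedSectionVars false

variable {ι : Type} [Fintype ι] [DecidableEq ι] {E : Type} [Fintype E] (ex : E → ι → ℕ)

/-- The `b`-th Taylor coefficient of the form `f` at `p`. -/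
noncomputable def TC (f : E → ℂ) (p : ι → ℂ) (b : ι → ℕ) : ℂ := ∑ e, f e * tcr p (ex e) b

/-- The `a`-th swapped condition: the derivative of order `m - |a|` in the direction `v` of the
`a`-th derivative of `f`, at `p`. -/
noncomputable def SC (N m : ℕ) (f : E → ℂ) (p v : ι → ℂ) (a : ι → ℕ) : ℂ :=
  ∑ b ∈ bxd ι N m, tcr v b a * TC ex f p b

theorem tcr_split {R : Type*} [CommRing R] (q : ι → R) (a b : ι → ℕ) (l : ι) :
    tcr q a b = (((a l).choose (b l) : ℕ) : R) * q l ^ (a l - b l) *
      ∏ i ∈ univ.erase l, (((a i).choose (b i) : ℕ) : R) * q i ^ (a i - b i) := by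
  unfold tcr
  rw [mul_prod_erase univ (fun i => (((a i).choose (b i) : ℕ) : R) * q i ^ (a i - b i))
    (mem_univ l)]

theorem eul_num {R : Type*} [CommRing R] (A B : ℕ) (x : R) :
    ((B + 1 : ℕ) : R) * x * (((A.choose (B + 1) : ℕ) : R) * x ^ (A - (B + 1))) =
      ((A : R) - (B : R)) * (((A.choose B : ℕ) : R) * x ^ (A - B)) := by
  rcases lt_trichotomy B A with h | h | h
  · have h1 : A - B = (A - (B + 1)) + 1 := by omega
    have h2 := Nat.choose_succ_right_eq A B
    have h3 : ((A.choose (B + 1) : ℕ) : R) * ((B + 1 : ℕ) : R) =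
        ((A.choose B : ℕ) : R) * ((A : R) - (B : R)) := by
      rw [← Nat.cast_sub h.le, ← Nat.cast_mul, ← Nat.cast_mul, h2]
    rw [h1, pow_succ]
    calc ((B + 1 : ℕ) : R) * x * (((A.choose (B + 1) : ℕ) : R) * x ^ (A - (B + 1))) =
        (((A.choose (B + 1) : ℕ) : R) * ((B + 1 : ℕ) : R)) * (x ^ (A - (B + 1)) * x) := by ring
      _ = _ := by
        rw [h3]
        ring
  · subst h
    rw [Nat.choose_succ_self, Nat.cast_zero, zero_mul, mul_zero, sub_self, zero_mul]
  · rw [Nat.choose_eq_zero_of_lt h, Nat.choose_eq_zero_of_lt (h.trans (Nat.lt_succ_self B)),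
      Nat.cast_zero]
    ring

theorem eul_one {R : Type*} [CommRing R] (q : ι → R) (α β : ι → ℕ) (l : ι) :
    ((β l + 1 : ℕ) : R) * q l * tcr q α (β + Pi.single l 1) =
      ((α l : R) - (β l : R)) * tcr q α β := by
  rw [tcr_split q α (β + Pi.single l 1) l, tcr_split q α β l]
  have h1 : (β + Pi.single l 1 : ι → ℕ) l = β l + 1 := by simp
  have h2 : ∏ i ∈ univ.erase l, (((α i).choose ((β + Pi.single l 1 : ι → ℕ) i) : ℕ) : R) *
      q i ^ (α i - (β + Pi.single l 1 : ι → ℕ) i) =
      ∏ i ∈ univ.erase l, (((α i).choose (β i) : ℕ) : R) * q i ^ (α i - β i) := by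
    refine prod_congr rfl fun i hi => ?_
    rw [Pi.add_apply, Pi.single_eq_of_ne (ne_of_mem_erase hi), Nat.add_zero]
  rw [h2, h1]
  have h3 := eul_num (α l) (β l) (q l)
  linear_combination (∏ i ∈ univ.erase l, (((α i).choose (β i) : ℕ) : R) * q i ^ (α i - β i)) * h3

/-- Euler's relation for the Taylor coefficients of a form of degree `d`. -/
theorem euler_TC (d : ℕ) (hE : ∀ e, ∑ i, ex e i = d) (f : E → ℂ) (p : ι → ℂ) (b : ι → ℕ) :
    ∑ k, ((b k + 1 : ℕ) : ℂ) * p k * TC ex f p (b + Pi.single k 1) =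
      ((d : ℂ) - ((∑ i, b i : ℕ) : ℂ)) * TC ex f p b := by
  unfold TC
  simp only [mul_sum]
  rw [sum_comm]
  refine sum_congr rfl fun e _ => ?_
  have h1 : ∀ k ∈ (univ : Finset ι), ((b k + 1 : ℕ) : ℂ) * p k *
      (f e * tcr p (ex e) (b + Pi.single k 1)) =
      f e * ((((ex e k : ℕ) : ℂ) - ((b k : ℕ) : ℂ)) * tcr p (ex e) b) := by
    intro k _
    rw [← eul_one p (ex e) b k]
    ring
  rw [sum_congr rfl h1, ← mul_sum, ← sum_mul, sum_sub_distrib, ← Nat.cast_sum, ← Nat.cast_sum, hE]
  ring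

/-- If the Taylor coefficients of order exactly `m < d` vanish, then so do those of lower order. -/
theorem TC_lower (d : ℕ) (hE : ∀ e, ∑ i, ex e i = d) (f : E → ℂ) (p : ι → ℂ) (m : ℕ) (hm : m < d)
    (h : ∀ b : ι → ℕ, ∑ i, b i = m → TC ex f p b = 0) :
    ∀ b : ι → ℕ, ∑ i, b i ≤ m → TC ex f p b = 0 := by
  have key : ∀ k, k ≤ m → ∀ b : ι → ℕ, ∑ i, b i + k = m → TC ex f p b = 0 := by
    intro k
    induction k with
    | zero =>
      intro _ b hb
      exact h b (by omega)
    | succ k ih =>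
      intro hk b hb
      have h1 := euler_TC ex d hE f p b
      have h2 : ∑ k, ((b k + 1 : ℕ) : ℂ) * p k * TC ex f p (b + Pi.single k 1) = 0 := by
        refine sum_eq_zero fun l _ => ?_
        rw [ih (by omega) (b + Pi.single l 1), mul_zero]
        have h3 : ∑ i, (b + Pi.single l 1 : ι → ℕ) i = ∑ i, b i + 1 := by
          simp [sum_add_distrib]
        omega
      rw [h2] at h1
      rcases mul_eq_zero.1 h1.symm with h3 | h3
      · exfalso
        have h4 : (d : ℂ) = ((∑ i, b i : ℕ) : ℂ) := sub_eq_zero.1 h3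
        have h5 : d = ∑ i, b i := by exact_mod_cast h4
        omega
      · exact h3
  intro b hb
  exact key (m - ∑ i, b i) (by omega) b (by omega)

theorem swap_num {R : Type*} [CommRing R] (B A : ℕ) (x : R) :
    ((B + 1 : ℕ) : R) * (((B.choose A : ℕ) : R) * x ^ (B - A)) =
      ((A + 1 : ℕ) : R) * ((((B + 1).choose (A + 1) : ℕ) : R) * x ^ (B + 1 - (A + 1))) := by
  have h1 : B + 1 - (A + 1) = B - A := by omega
  have h2 : (((B + 1 : ℕ) : R) * ((B.choose A : ℕ) : R)) =
      (((B + 1).choose (A + 1) : ℕ) : R) * ((A + 1 : ℕ) : R) := by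
    rw [← Nat.cast_mul, ← Nat.cast_mul, Nat.add_one_mul_choose_eq]
  rw [h1]
  linear_combination x ^ (B - A) * h2

theorem swap_one {R : Type*} [CommRing R] (v : ι → R) (b a : ι → ℕ) (l : ι) :
    ((b l + 1 : ℕ) : R) * tcr v b a =
      ((a l + 1 : ℕ) : R) * tcr v (b + Pi.single l 1) (a + Pi.single l 1) := by
  rw [tcr_split v b a l, tcr_split v (b + Pi.single l 1) (a + Pi.single l 1) l]
  have h1 : (b + Pi.single l 1 : ι → ℕ) l = b l + 1 := by simp
  have h1' : (a + Pi.single l 1 : ι → ℕ) l = a l + 1 := by simp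
  have h2 : ∏ i ∈ univ.erase l, (((((b + Pi.single l 1 : ι → ℕ) i)).choose
      ((a + Pi.single l 1 : ι → ℕ) i) : ℕ) : R) *
      v i ^ ((b + Pi.single l 1 : ι → ℕ) i - (a + Pi.single l 1 : ι → ℕ) i) =
      ∏ i ∈ univ.erase l, (((b i).choose (a i) : ℕ) : R) * v i ^ (b i - a i) := by
    refine prod_congr rfl fun i hi => ?_
    rw [Pi.add_apply, Pi.add_apply, Pi.single_eq_of_ne (ne_of_mem_erase hi), Nat.add_zero,
      Nat.add_zero]
  rw [h2, h1, h1']
  have h3 := swap_num (b l) (a l) (v l)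
  linear_combination (∏ i ∈ univ.erase l, (((b i).choose (a i) : ℕ) : R) * v i ^ (b i - a i)) * h3

/-- Euler's relation for the swapped conditions. -/
theorem euler_SC (d N m : ℕ) (hE : ∀ e, ∑ i, ex e i = d) (hN : d < N) (hmd : m < d) (f : E → ℂ)
    (p v : ι → ℂ) (a : ι → ℕ) :
    ∑ k, ((a k + 1 : ℕ) : ℂ) * p k * SC ex N (m + 1) f p v (a + Pi.single k 1) =
      ((d : ℂ) - (m : ℂ)) * SC ex N m f p v a := by
  have hsum : ∀ (b : ι → ℕ) (k : ι), ∑ i, (b + Pi.single k 1 : ι → ℕ) i = ∑ i, b i + 1 := by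
    intro b k
    simp [sum_add_distrib]
  have h1 : ∀ k : ι, ∑ b ∈ bxd ι N m, tcr v (b + Pi.single k 1) (a + Pi.single k 1) *
      TC ex f p (b + Pi.single k 1) = SC ex N (m + 1) f p v (a + Pi.single k 1) := by
    intro k
    unfold SC
    refine sum_of_injOn (fun b => b + Pi.single k 1) ?_ ?_ ?_ ?_
    · intro b _ b' _ h
      exact add_right_cancel h
    · intro b hb
      rw [mem_coe] at hb ⊢
      unfold bxd at hb ⊢
      rw [mem_filter, mem_bx] at hb ⊢
      have h2 : ∀ i, (b + Pi.single k 1 : ι → ℕ) i ≤ ∑ i, (b + Pi.single k 1 : ι → ℕ) i := fun i =>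
        single_le_sum (f := (b + Pi.single k 1 : ι → ℕ)) (fun _ _ => Nat.zero_le _) (mem_univ i)
      have h3 := hsum b k
      refine ⟨fun i => ?_, ?_⟩
      · have := h2 i
        have := hb.2
        show (b + Pi.single k 1 : ι → ℕ) i < N
        omega
      · show ∑ i, (b + Pi.single k 1 : ι → ℕ) i = m + 1
        rw [h3, hb.2]
    · intro b' hb' hn
      unfold bxd at hb'
      rw [mem_filter, mem_bx] at hb'
      by_cases hk : b' k = 0
      · have h2 : tcr v b' (a + Pi.single k 1) = 0 := by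
          refine tcr_eq_zero _ _ _ fun h => ?_
          have h3 := h k
          rw [hk, Pi.add_apply, Pi.single_eq_same] at h3
          omega
        rw [h2, zero_mul]
      · exfalso
        apply hn
        have h4 : (b' - Pi.single k 1 : ι → ℕ) + Pi.single k 1 = b' := by
          funext i
          rw [Pi.add_apply, Pi.sub_apply]
          by_cases hi : i = k
          · subst hi
            rw [Pi.single_eq_same]
            omega
          · rw [Pi.single_eq_of_ne hi]
            omega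
        refine ⟨b' - Pi.single k 1, ?_, h4⟩
        rw [mem_coe]
        unfold bxd
        rw [mem_filter, mem_bx]
        have h5 := hsum (b' - Pi.single k 1) k
        rw [h4] at h5
        refine ⟨fun i => ?_, by omega⟩
        have := hb'.1 i
        rw [Pi.sub_apply]
        omega
    · intro b _
      rfl
  have h2 : ((d : ℂ) - (m : ℂ)) * SC ex N m f p v a =
      ∑ b ∈ bxd ι N m, tcr v b a * (((d : ℂ) - ((∑ i, b i : ℕ) : ℂ)) * TC ex f p b) := by
    unfold SC
    rw [mul_sum]
    refine sum_congr rfl fun b hb => ?_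
    unfold bxd at hb
    rw [mem_filter] at hb
    rw [hb.2]
    ring
  rw [h2]
  have h3 : ∀ b ∈ bxd ι N m, tcr v b a * (((d : ℂ) - ((∑ i, b i : ℕ) : ℂ)) * TC ex f p b) =
      ∑ k, ((a k + 1 : ℕ) : ℂ) * p k * (tcr v (b + Pi.single k 1) (a + Pi.single k 1) *
        TC ex f p (b + Pi.single k 1)) := by
    intro b _
    rw [← euler_TC ex d hE f p b, mul_sum]
    refine sum_congr rfl fun k _ => ?_
    have h4 := swap_one v b a k
    linear_combination (p k * TC ex f p (b + Pi.single k 1)) * h4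
  rw [sum_congr rfl h3, sum_comm]
  refine sum_congr rfl fun k _ => ?_
  rw [← h1 k, mul_sum]

end

end Pool.Agent.H54.V7

end

section

/-!
# Reduction of the conditions to few of them
-/

namespace Pool.Agent.H54.V7

open Finset Pool.Agent.H18.Ex

section

set_option linter.unusedSectionVars false

variable {ι : Type} [Fintype ι] [DecidableEq ι] {E : Type} [Fintype E] (ex : E → ι → ℕ)

theorem fat_iff (M : ℕ) (p : ι → ℂ) (f : E → ℂ) :
    Fat ex M p f ↔ ∀ b : ι → ℕ, ∑ i, b i < M → TC ex f p b = 0 := Iff.rfl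

theorem sw_iff (M N : ℕ) (B : Finset ι) (p v : ι → ℂ) (f : E → ℂ) :
    Sw ex M N B p v f ↔ ∀ a : ι → ℕ, (∀ i ∈ B, a i = 0) → 1 ≤ ∑ i, a i → ∑ i, a i ≤ M →
      SC ex N M f p v a = 0 := Iff.rfl

/-- A Taylor coefficient which misses a block met by all monomials. -/
theorem TC_miss (s : Finset ι) (hs : ∀ e, ¬ ∀ i ∈ s, ex e i = 0) (f : E → ℂ) (p : ι → ℂ)
    (hp : ∀ i ∈ s, p i = 0) (b : ι → ℕ) (hb : ∀ i ∈ s, b i = 0) : TC ex f p b = 0 := by
  unfold TC
  refine sum_eq_zero fun e _ => ?_
  rw [tcr_off s p hp (ex e) b hb (hs e), mul_zero]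

/-- A swapped condition which misses a block met by all monomials. -/
theorem SC_miss (N m : ℕ) (s : Finset ι) (hs : ∀ e, ¬ ∀ i ∈ s, ex e i = 0) (f : E → ℂ)
    (p v : ι → ℂ) (hp : ∀ i ∈ s, p i = 0) (hv : ∀ i ∈ s, v i = 0) (a : ι → ℕ)
    (ha : ∀ i ∈ s, a i = 0) : SC ex N m f p v a = 0 := by
  unfold SC
  refine sum_eq_zero fun b _ => ?_
  by_cases hb : ∀ i ∈ s, b i = 0
  · rw [TC_miss ex s hs f p hp b hb, mul_zero]
  · rw [tcr_off s v hv b a ha hb, zero_mul]

/-- A swapped condition of top order is a Taylor coefficient. -/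
theorem SC_top (N m : ℕ) (f : E → ℂ) (p v : ι → ℂ) (a : ι → ℕ) (ha : ∑ i, a i = m)
    (h0 : TC ex f p a = 0) : SC ex N m f p v a = 0 := by
  unfold SC
  refine sum_eq_zero fun b hb => ?_
  unfold bxd at hb
  rw [mem_filter] at hb
  by_cases hab : ∀ i, a i ≤ b i
  · rw [tcr_self v b a hab (by omega)]
    split_ifs with h
    · rw [h, h0, mul_zero]
    · rw [zero_mul]
  · rw [tcr_eq_zero _ _ _ hab, zero_mul]

/-- The swapped conditions follow from those without the variable `s₀`. -/
theorem SC_reduce (d N M : ℕ) (hE : ∀ e, ∑ i, ex e i = d) (hN : d < N) (hM : M ≤ d)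
    (f : E → ℂ) (p v : ι → ℂ) (B : Finset ι) (hpB : ∀ i ∈ B, p i = 0) (s₀ : ι) (hsB : s₀ ∉ B)
    (hps : p s₀ ≠ 0) (hfat : ∀ b : ι → ℕ, ∑ i, b i < M → TC ex f p b = 0)
    (h0 : ∀ a : ι → ℕ, (∀ i ∈ B, a i = 0) → a s₀ = 0 → 1 ≤ ∑ i, a i → ∑ i, a i < M →
      SC ex N M f p v a = 0) :
    ∀ a : ι → ℕ, (∀ i ∈ B, a i = 0) → 1 ≤ ∑ i, a i → ∑ i, a i < M →
      SC ex N M f p v a = 0 := by
  have key : ∀ k : ℕ, ∀ a : ι → ℕ, (∀ i ∈ B, a i = 0) → a s₀ = k → 1 ≤ ∑ i, a i →
      ∑ i, a i < M → SC ex N M f p v a = 0 := by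
    intro k
    induction k with
    | zero =>
      intro a ha h1 h2 h3
      exact h0 a ha h1 h2 h3
    | succ k ih =>
      intro a ha h1 h2 h3
      set a' : ι → ℕ := a - Pi.single s₀ 1 with ha'
      have haa : a' + Pi.single s₀ 1 = a := by
        funext i
        rw [ha', Pi.add_apply, Pi.sub_apply]
        by_cases hi : i = s₀
        · subst hi
          rw [Pi.single_eq_same]
          omega
        · rw [Pi.single_eq_of_ne hi]
          omega
      have hsum : ∀ k : ι, ∑ i, (a' + Pi.single k 1 : ι → ℕ) i = ∑ i, a i := by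
        intro k
        have h4 : ∀ l : ι, ∑ i, (a' + Pi.single l 1 : ι → ℕ) i = ∑ i, a' i + 1 := by
          intro l
          simp [sum_add_distrib]
        rw [h4 k, ← h4 s₀, haa]
      have h4 := euler_SC ex d N (M - 1) hE hN (by omega) f p v a'
      have h5 : M - 1 + 1 = M := by omega
      have h6 : SC ex N (M - 1) f p v a' = 0 := by
        unfold SC
        refine sum_eq_zero fun b hb => ?_
        unfold bxd at hb
        rw [mem_filter] at hb
        rw [hfat b (by omega), mul_zero]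
      rw [h5, h6, mul_zero] at h4
      rw [sum_eq_single s₀] at h4
      · rw [haa] at h4
        rcases mul_eq_zero.1 h4 with h7 | h7
        · rcases mul_eq_zero.1 h7 with h8 | h8
          · exact absurd h8 (Nat.cast_ne_zero.2 (Nat.succ_ne_zero _))
          · exact absurd h8 hps
        · exact h7
      · intro l _ hl
        by_cases hlB : l ∈ B
        · rw [hpB l hlB, mul_zero, zero_mul]
        · rw [ih (a' + Pi.single l 1) ?_ ?_ ?_ ?_, mul_zero]
          · intro i hi
            have h7 : i ≠ l := fun h => hlB (h ▸ hi)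
            have h8 : i ≠ s₀ := fun h => hsB (h ▸ hi)
            rw [Pi.add_apply, Pi.single_eq_of_ne h7, Nat.add_zero, ha', Pi.sub_apply,
              Pi.single_eq_of_ne h8, Nat.sub_zero]
            exact ha i hi
          · rw [Pi.add_apply, Pi.single_eq_of_ne (Ne.symm hl), Nat.add_zero, ha', Pi.sub_apply,
              Pi.single_eq_same, h1]
            omega
          · rw [hsum l]
            exact h2
          · rw [hsum l]
            exact h3
      · intro h
        exact absurd (mem_univ s₀) h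
  intro a ha h1 h2
  exact key (a s₀) a ha rfl h1 h2

/-- Finitely many linear conditions lower the dimension by at most their number. -/
theorem finrank_le_add {κ : Type} (V V' : Submodule ℂ (E → ℂ)) (s : Finset κ)
    (c : κ → E → ℂ) (h : ∀ f ∈ V, (∀ r ∈ s, ∑ e, c r e * f e = 0) → f ∈ V') :
    Module.finrank ℂ V ≤ Module.finrank ℂ V' + s.card := by
  classical
  let L : (E → ℂ) →ₗ[ℂ] (s → ℂ) := LinearMap.pi fun r => ∑ e, c r.1 e • LinearMap.proj e
  have hL : ∀ f r, L f r = ∑ e, c r.1 e * f e := by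
    intro f r
    simp [L]
  let L' : V →ₗ[ℂ] (s → ℂ) := L ∘ₗ V.subtype
  have h1 := LinearMap.finrank_range_add_finrank_ker L'
  have h2 : Module.finrank ℂ (LinearMap.range L') ≤ s.card := by
    have h3 := Submodule.finrank_le (LinearMap.range L')
    rw [Module.finrank_fintype_fun_eq_card, Fintype.card_coe] at h3
    exact h3
  have h3 : Module.finrank ℂ (LinearMap.ker L') ≤ Module.finrank ℂ V' := by
    let g : LinearMap.ker L' →ₗ[ℂ] V' :=
      { toFun := fun x => ⟨x.1.1, h x.1.1 x.1.2 (by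
          intro r hr
          have h4 : L x.1.1 = 0 := x.2
          have h5 := congrFun h4 ⟨r, hr⟩
          rw [hL] at h5
          exact h5)⟩
        map_add' := fun _ _ => rfl
        map_smul' := fun _ _ => rfl }
    refine LinearMap.finrank_le_finrank_of_injective (f := g) ?_
    intro x y hxy
    have h4 : (g x).1 = (g y).1 := congrArg Subtype.val hxy
    apply Subtype.ext
    apply Subtype.ext
    exact h4
  omega

end

end Pool.Agent.H54.V7

end

section

/-!
# The numbers of conditions of an ordinary and of a swapped point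
-/

namespace Pool.Agent.H54.V7

open Finset Pool.Agent.H18.Ex

section

set_option linter.unusedSectionVars false

variable {ι : Type} [Fintype ι] [DecidableEq ι] {κ : Type} [DecidableEq κ] {E : Type} [Fintype E]
  (ex : E → ι → ℕ)

/-- The vanishing to order `M` at a point of the subspace given by the blocks of `I` follows from
the Taylor coefficients of order `M - 1` which meet the blocks of `I`. -/
theorem fat_of_mset (d M : ℕ) (hM : 1 ≤ M) (hMd : M ≤ d) (hE : ∀ e, ∑ i, ex e i = d)
    (blk : κ → Finset ι) (I : Finset κ) (hI : ∀ k ∈ I, ∀ e, ¬ ∀ x ∈ blk k, ex e x = 0)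
    (p : ι → ℂ) (hp : ∀ k ∈ I, ∀ x ∈ blk k, p x = 0) (f : E → ℂ)
    (h : ∀ b ∈ mset blk univ I (M - 1), TC ex f p b = 0) : Fat ex M p f := by
  rw [fat_iff]
  intro b hb
  refine TC_lower ex d hE f p (M - 1) (by omega) ?_ b (by omega)
  intro b hb
  by_cases h1 : ∀ k ∈ I, ¬ ∀ x ∈ blk k, b x = 0
  · exact h b (mem_mset.2 ⟨⟨hb, fun x _ => mem_univ x⟩, h1⟩)
  · push Not at h1
    obtain ⟨k, hk, h1⟩ := h1
    exact TC_miss ex (blk k) (hI k hk) f p (hp k hk) b h1

/-- The coefficients of a swapped condition. -/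
noncomputable def swc (N M : ℕ) (p v : ι → ℂ) (a : ι → ℕ) (e : E) : ℂ :=
  ∑ b ∈ bxd ι N M, tcr v b a * tcr p (ex e) b

theorem swc_sum (N M : ℕ) (f : E → ℂ) (p v : ι → ℂ) (a : ι → ℕ) :
    ∑ e, swc ex N M p v a e * f e = SC ex N M f p v a := by
  unfold swc SC TC
  simp only [sum_mul, mul_sum]
  rw [sum_comm]
  refine sum_congr rfl fun b _ => sum_congr rfl fun e _ => ?_
  ring

theorem tc_sum (f : E → ℂ) (p : ι → ℂ) (b : ι → ℕ) :
    ∑ e, tcr p (ex e) b * f e = TC ex f p b := by
  unfold TC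
  exact sum_congr rfl fun e _ => mul_comm _ _

/-- The number of conditions of an ordinary point. -/
theorem fat_card (d M c : ℕ) (hM : 1 ≤ M) (hMd : M ≤ d) (hE : ∀ e, ∑ i, ex e i = d)
    (blk : κ → Finset ι) (I : Finset κ) (hI : ∀ k ∈ I, ∀ e, ¬ ∀ x ∈ blk k, ex e x = 0)
    (hc : ∀ k ∈ I, (blk k).card = c) (hd : ∀ k ∈ I, ∀ l ∈ I, k ≠ l → Disjoint (blk k) (blk l))
    (p : ι → ℂ) (hp : ∀ k ∈ I, ∀ x ∈ blk k, p x = 0) (V V' : Submodule ℂ (E → ℂ))
    (h : ∀ f ∈ V, Fat ex M p f → f ∈ V') :
    Module.finrank ℂ V ≤ Module.finrank ℂ V' + bbc c (M - 1) I.card (Fintype.card ι) := by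
  have h1 := finrank_le_add V V' (mset blk univ I (M - 1)) (fun b e => tcr p (ex e) b) (by
    intro f hf h2
    refine h f hf (fat_of_mset ex d M hM hMd hE blk I hI p hp f fun b hb => ?_)
    rw [← tc_sum]
    exact h2 b hb)
  rw [card_mset blk c (M - 1) I univ (fun k hk => ⟨subset_univ _, hc k hk⟩) hd, card_univ] at h1
  exact h1

/-- The number of conditions of a swapped point. -/
theorem sw_card (d M N c : ℕ) (hM : 1 ≤ M) (hMd : M ≤ d) (hN : d < N)
    (hE : ∀ e, ∑ i, ex e i = d)
    (blk : κ → Finset ι) (I : Finset κ) (i : κ) (hiI : i ∉ I)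
    (hI : ∀ k ∈ insert i I, ∀ e, ¬ ∀ x ∈ blk k, ex e x = 0)
    (hc : ∀ k ∈ insert i I, (blk k).card = c)
    (hd : ∀ k ∈ insert i I, ∀ l ∈ insert i I, k ≠ l → Disjoint (blk k) (blk l))
    (p v : ι → ℂ) (hp : ∀ k ∈ insert i I, ∀ x ∈ blk k, p x = 0)
    (hv : ∀ k ∈ I, ∀ x ∈ blk k, v x = 0) (s₀ : ι) (hs₀ : ∀ k ∈ insert i I, s₀ ∉ blk k)
    (hps : p s₀ ≠ 0) (V V' : Submodule ℂ (E → ℂ))
    (h : ∀ f ∈ V, Fat ex M p f → Sw ex M N (blk i) p v f → f ∈ V') :
    Module.finrank ℂ V ≤ Module.finrank ℂ V' +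
      (bbc c (M - 1) I.card (Fintype.card ι) - if I = ∅ then 1 else 0) := by
  classical
  have hii : i ∈ insert i I := mem_insert_self i I
  set T : Finset (ι → ℕ) := mset blk (univ \ blk i) I (M - 1) with hT
  have hIne : ∀ a : ι → ℕ, a ∈ T ↔ (∑ x, a x = M - 1 ∧ ∀ x ∈ blk i, a x = 0) ∧
      ∀ k ∈ I, ¬ ∀ x ∈ blk k, a x = 0 := by
    intro a
    rw [hT, mem_mset]
    constructor
    · rintro ⟨⟨h1, h2⟩, h3⟩
      refine ⟨⟨h1, fun x hx => ?_⟩, h3⟩
      by_contra h4
      exact (mem_sdiff.1 (h2 x h4)).2 hx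
    · rintro ⟨⟨h1, h2⟩, h3⟩
      refine ⟨⟨h1, fun x hx => ?_⟩, h3⟩
      rw [mem_sdiff]
      exact ⟨mem_univ x, fun h4 => hx (h2 x h4)⟩
  set T' : Finset (ι → ℕ) := if I = ∅ then T.erase (Pi.single s₀ (M - 1)) else T with hT'
  have hcardT' : T'.card = T.card - if I = ∅ then 1 else 0 := by
    rw [hT']
    split_ifs with h1
    · refine card_erase_of_mem ?_
      rw [hIne]
      refine ⟨⟨?_, fun x hx => ?_⟩, fun k hk => ?_⟩
      · rw [sum_pi_single']
        simp
      · have h2 : x ≠ s₀ := fun h3 => hs₀ i hii (h3 ▸ hx)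
        rw [Pi.single_eq_of_ne h2]
      · rw [h1] at hk
        exact absurd hk (notMem_empty k)
    · rfl
  have h1 := finrank_le_add V V' ((mset blk univ (insert i I) (M - 1)).disjSum T')
    (Sum.elim (fun b e => tcr p (ex e) b) fun a e => swc ex N M p v (Function.update a s₀ 0) e) (by
    intro f hf h2
    have hfat : Fat ex M p f :=
      fat_of_mset ex d M hM hMd hE blk (insert i I) hI p hp f fun b hb => by
        rw [← tc_sum]
        exact h2 (Sum.inl b) (inl_mem_disjSum.2 hb)
    refine h f hf hfat ?_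
    rw [sw_iff]
    intro a ha h3 h4
    rcases Nat.lt_or_ge (∑ x, a x) M with h5 | h5
    · refine SC_reduce ex d N M hE hN hMd f p v (blk i) (hp i hii) s₀ (hs₀ i hii) hps
        ((fat_iff ex M p f).1 hfat) ?_ a ha h3 h5
      clear ha h3 h4 h5 a
      intro a ha h6 h3 h5
      by_cases h7 : ∀ k ∈ I, ¬ ∀ x ∈ blk k, a x = 0
      · set a' : ι → ℕ := Function.update a s₀ (M - 1 - ∑ x, a x) with ha'
        have h8 : ∑ x, a' x = M - 1 := by
          rw [ha', ← add_sum_erase univ _ (mem_univ s₀), Function.update_self]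
          have h9 : ∑ x ∈ univ.erase s₀, Function.update a s₀ (M - 1 - ∑ x, a x) x = ∑ x, a x := by
            rw [← add_sum_erase univ a (mem_univ s₀), h6, zero_add]
            exact sum_congr rfl fun x hx => by rw [Function.update_of_ne (ne_of_mem_erase hx)]
          rw [h9]
          omega
        have h9 : a' ∈ T := by
          rw [hIne]
          refine ⟨⟨h8, fun x hx => ?_⟩, fun k hk h10 => h7 k hk fun x hx => ?_⟩
          · have h2 : x ≠ s₀ := fun h3 => hs₀ i hii (h3 ▸ hx)
            rw [ha', Function.update_of_ne h2]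
            exact ha x hx
          · have h2 : x ≠ s₀ := fun h3 => hs₀ k (mem_insert_of_mem hk) (h3 ▸ hx)
            have h11 := h10 x hx
            rwa [ha', Function.update_of_ne h2] at h11
        have h10 : Function.update a' s₀ 0 = a := by
          rw [ha', Function.update_idem, ← h6, Function.update_eq_self]
        have h11 : a' ∈ T' := by
          rw [hT']
          split_ifs with h12
          · refine mem_erase.2 ⟨?_, h9⟩
            intro h13
            rw [h13] at h10
            have h14 : a = 0 := by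
              rw [← h10]
              funext x
              by_cases hx : x = s₀
              · subst hx
                rw [Function.update_self]
                rfl
              · rw [Function.update_of_ne hx, Pi.single_eq_of_ne hx]
                rfl
            rw [h14] at h3
            simp at h3
          · exact h9
        have h12 := h2 (Sum.inr a') (inr_mem_disjSum.2 h11)
        have h13 : ∑ e, swc ex N M p v (Function.update a' s₀ 0) e * f e = 0 := h12
        rw [h10, swc_sum] at h13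
        exact h13
      · push Not at h7
        obtain ⟨k, hk, h7⟩ := h7
        exact SC_miss ex N M (blk k) (hI k (mem_insert_of_mem hk)) f p v
          (hp k (mem_insert_of_mem hk)) (hv k hk) a h7
    · exact SC_top ex N M f p v a (by omega)
        (TC_miss ex (blk i) (hI i hii) f p (hp i hii) a ha))
  rw [card_disjSum, hcardT'] at h1
  have h2 := card_mset_insert blk univ I i (M - 1)
  have h3 := card_mset blk c (M - 1) I univ
    (fun k hk => ⟨subset_univ _, hc k (mem_insert_of_mem hk)⟩)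
    (fun k hk l hl => hd k (mem_insert_of_mem hk) l (mem_insert_of_mem hl))
  rw [card_univ] at h3
  rw [← hT] at h2
  have h4 : (if I = ∅ then 1 else 0) ≤ T.card := by
    split_ifs with h5
    · refine card_pos.2 ⟨Pi.single s₀ (M - 1), ?_⟩
      rw [hIne]
      refine ⟨⟨?_, fun x hx => ?_⟩, fun k hk => ?_⟩
      · rw [sum_pi_single']
        simp
      · have h2 : x ≠ s₀ := fun h3 => hs₀ i hii (h3 ▸ hx)
        rw [Pi.single_eq_of_ne h2]
      · rw [h5] at hk
        exact absurd hk (notMem_empty k)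
    · exact Nat.zero_le _
  omega

end

end Pool.Agent.H54.V7

end

section

/-!
# V7: the dimension is at least the virtual dimension

The size of a kind is at most its weight (`Pool.Agent.H54.V7.Size`), and the number of the exponents
which meet `j` blocks of size `c` is `bb c (2 M - 1) j n`.
-/

set_option autoImplicit false
set_option linter.unusedSectionVars false

namespace Pool.Agent.V7

open Finset MvPolynomial Pool.Agent.H51.TB Pool.Agent.H54.V7
open Pool.Agent.V7.ST (gM gM_zero gM_le_cons)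

theorem bb_eq_bbc (c s : ℕ) : ∀ k n, bb c s k n = bbc c s k n
  | 0, n => Nat.multichoose_eq n s
  | k + 1, n => by
    show bb c s k n - bb c s k (n - c) = bbc c s k n - bbc c s k (n - c)
    rw [bb_eq_bbc c s k n, bb_eq_bbc c s k (n - c)]

variable {ν : Type} [Fintype ν] [DecidableEq ν]

/-- The variables of the block `i`. -/
abbrev blo (β : ν → ℕ) (i : ℕ) : Finset ν := univ.filter fun s => β s = i

theorem blo_disjoint (β : ν → ℕ) {i k : ℕ} (h : i ≠ k) : Disjoint (blo β i) (blo β k) := by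
  rw [disjoint_left]
  intro s hs hs'
  rw [mem_filter] at hs hs'
  exact h (hs.2.symm.trans hs'.2)

theorem card_Ex {c j : ℕ} {β : ν → ℕ} (hβ : ∀ i < j, (blo β i).card = c) (d : ℕ) :
    (Ex β d j).card = bb c d j (Fintype.card ν) := by
  have h1 : Ex β d j = mset (blo β) univ (range j) d := by
    ext a
    rw [mem_Ex, mem_mset]
    constructor
    · rintro ⟨h1, h2⟩
      refine ⟨⟨h1, fun x _ => mem_univ x⟩, fun i hi h3 => ?_⟩
      obtain ⟨s, hs, hs'⟩ := h2 i (mem_range.1 hi)
      exact hs' (h3 s (mem_filter.2 ⟨mem_univ s, hs⟩))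
    · rintro ⟨⟨h1, -⟩, h2⟩
      refine ⟨h1, fun i hi => ?_⟩
      by_contra h3
      push Not at h3
      exact h2 i (mem_range.2 hi) fun x hx => h3 x (mem_filter.1 hx).2
  rw [h1, card_mset (blo β) c d (range j) univ
    (fun i hi => ⟨subset_univ _, hβ i (mem_range.1 hi)⟩)
    (fun i _ k _ hik => blo_disjoint β hik), card_range, card_univ, bb_eq_bbc]

theorem Ex_miss {j d : ℕ} {β : ν → ℕ} {i : ℕ} (hi : i < j) (e : {a // a ∈ Ex β d j}) :
    ¬ ∀ x ∈ blo β i, e.1 x = 0 := by
  intro h
  obtain ⟨s, hs, hs'⟩ := (mem_Ex.1 e.2).2 i hi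
  exact hs' (h s (mem_filter.2 ⟨mem_univ s, hs⟩))

theorem msk_blo (β : ν → ℕ) {I : Finset ℕ} (q : ν → ℂ) {i : ℕ} (hi : i ∈ I) :
    ∀ x ∈ blo β i, msk β I q x = 0 := by
  intro x hx
  unfold msk
  rw [if_pos]
  rw [(mem_filter.1 hx).2]
  exact hi

/-- The number of conditions of a kind. -/
theorem size_le_wt {M c j : ℕ} (hM : 1 ≤ M) {β : ν → ℕ} (hβ : ∀ i < j, (blo β i).card = c)
    {s₀ : ν} (hs₀ : j ≤ β s₀) {k : Kd} (hk : k.Ok M j) :
    (LS M β j).size k ≤ wt M c (Fintype.card ν) k := by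
  have hE : ∀ e : Ex β (2 * M - 1) j, ∑ s, e.1 s = 2 * M - 1 := fun e =>
    (mem_Ex.1 e.2).1
  have hu := gd_unit (LS M β j) k
  have key : ∃ q : Unit → ν ⊕ ν → ℂ, q () (Sum.inl s₀) ≠ 0 ∧
      Module.finrank ℂ ((LS M β j).V (fun _ : Unit => k) q) =
        (LS M β j).gd fun _ : Unit => k := by
    have h1 : Gn Unit (ν ⊕ ν) fun q => q () (Sum.inl s₀) ≠ 0 :=
      ⟨X ((), Sum.inl s₀), X_ne_zero _, fun p hp => by rwa [eval_X] at hp⟩
    exact (h1.and (gn_gd (LS M β j) fun _ : Unit => k)).exists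
  obtain ⟨q, hq0, hq⟩ := key
  suffices h : Fintype.card (Ex β (2 * M - 1) j) ≤
      Module.finrank ℂ ((LS M β j).V (fun _ : Unit => k) q) + wt M c (Fintype.card ν) k by
    omega
  have htop : Module.finrank ℂ (⊤ : Submodule ℂ (Ex β (2 * M - 1) j → ℂ)) =
      Fintype.card (Ex β (2 * M - 1) j) := by
    rw [finrank_top, Module.finrank_fintype_fun_eq_card]
  rw [← htop]
  rcases k with ⟨μ, I⟩ | ⟨i, I⟩
  · obtain ⟨h1, h2, h3⟩ := hk
    have h4 := fat_card (fun e : Ex β (2 * M - 1) j => e.1) (2 * M - 1) μ c h1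
      (by omega) hE (blo β) I (fun k hk e => Ex_miss (mem_range.1 (h3 hk)) e)
      (fun k hk => hβ k (mem_range.1 (h3 hk))) (fun k _ l _ hkl => blo_disjoint β hkl)
      (msk β I fun s => q () (Sum.inl s)) (fun k hk => msk_blo β _ hk) ⊤
      ((LS M β j).V (fun _ : Unit => Kd.ord μ I) q) (fun f _ hf => by
        rw [mem_LSA]
        exact fun _ => hf)
    rw [← bb_eq_bbc] at h4
    exact h4
  · obtain ⟨h1, h2⟩ := hk
    have hiI : i ∉ I := fun h => by
      have := mem_Ico.1 (h2 h)
      omega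
    have hlt : ∀ k ∈ insert i I, k < j := fun k hk => by
      rcases mem_insert.1 hk with h | h
      · rw [h]
        exact h1
      · exact (mem_Ico.1 (h2 h)).2
    have hs₀' : ∀ k ∈ insert i I, s₀ ∉ blo β k := fun k hk h => by
      have h3 := (mem_filter.1 h).2
      have h4 := hlt k hk
      omega
    have hne : β s₀ ∉ insert i I := fun h => by
      have h4 := hlt _ h
      omega
    have h4 := sw_card (fun e : Ex β (2 * M - 1) j => e.1) (2 * M - 1) M (2 * M) c hM
      (by omega) (by omega) hE (blo β) I i hiI (fun k hk e => Ex_miss (hlt k hk) e)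
      (fun k hk => hβ k (hlt k hk)) (fun k _ l _ hkl => blo_disjoint β hkl)
      (msk β (insert i I) fun s => q () (Sum.inl s)) (msk β I fun s => q () (Sum.inr s))
      (fun k hk => msk_blo β _ hk) (fun k hk => msk_blo β _ hk) s₀ hs₀'
      (by
        unfold msk
        rw [if_neg hne]
        exact hq0) ⊤
      ((LS M β j).V (fun _ : Unit => Kd.sw i I) q) (fun f _ hf hf' => by
        rw [mem_LSA]
        exact fun _ => ⟨hf, hf'⟩)
    rw [← bb_eq_bbc] at h4
    exact h4

/-- **F1.** The dimension is at least the virtual dimension. -/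
theorem vd_le_gM {M c j : ℕ} (hM : 1 ≤ M) {β : ν → ℕ} (hβ : ∀ i < j, (blo β i).card = c)
    {s₀ : ν} (hs₀ : j ≤ β s₀) (s : Multiset Kd) (hs : ∀ k ∈ s, k.Ok M j) :
    vd M c j (Fintype.card ν) s ≤ gM (LS M β j) s := by
  induction s using Multiset.induction_on with
  | empty =>
    rw [gM_zero, Fintype.card_coe, card_Ex hβ]
    unfold vd
    simp
  | cons k s ih =>
    have h1 := ih fun k' hk' => hs k' (Multiset.mem_cons_of_mem hk')
    have h2 := gM_le_cons (LS M β j) s k
    have h3 := size_le_wt hM hβ hs₀ (hs k (Multiset.mem_cons_self k s))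
    unfold vd at h1 ⊢
    rw [Multiset.map_cons, Multiset.sum_cons]
    push_cast
    push_cast at h1
    have h4 : (gM (LS M β j) s : ℤ) ≤ gM (LS M β j) (k ::ₘ s) + wt M c (Fintype.card ν) k := by
      exact_mod_cast h2.trans (Nat.add_le_add_left h3 _)
    linarith

/-! ### The canonical variables -/

theorem card_blo_blk {c n i : ℕ} (hc : 0 < c) (h : (i + 1) * c ≤ n) :
    (blo (blk c n) i).card = c := by
  have h1 : (blo (blk c n) i).card = (Ico (i * c) ((i + 1) * c)).card := by
    refine card_bij (fun s _ => s.1) ?_ ?_ ?_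
    · intro s hs
      have h2 : s.1 / c = i := (mem_filter.1 hs).2
      rw [mem_Ico]
      constructor
      · rw [← h2]
        exact Nat.div_mul_le_self _ _
      · rw [← h2]
        exact Nat.lt_mul_of_div_lt (Nat.lt_succ_self _) hc
    · intro s _ t _ hst
      exact Fin.ext hst
    · intro x hx
      rw [mem_Ico] at hx
      refine ⟨⟨x, lt_of_lt_of_le hx.2 h⟩, mem_filter.2 ⟨mem_univ _, ?_⟩, rfl⟩
      exact Nat.div_eq_of_lt_le hx.1 hx.2
  rw [h1, Nat.card_Ico, add_mul, one_mul]
  omega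

theorem card_Ex_blk {c n j : ℕ} (hc : 0 < c) (h : j * c ≤ n) (d : ℕ) :
    (Ex (blk c n) d j).card = bb c d j n := by
  rw [card_Ex (fun i hi => card_blo_blk hc
    ((Nat.mul_le_mul_right c (Nat.succ_le_of_lt hi)).trans h)) d, Fintype.card_fin]

theorem size_blk {M c j n : ℕ} (hM : 1 ≤ M) (hc : 0 < c) (h : j * c < n) {k : Kd}
    (hk : k.Ok M j) : (LS M (blk c n) j).size k ≤ wt M c n k := by
  have h1 := size_le_wt (ν := Fin n) (c := c) hM (fun i hi => card_blo_blk hc
    ((Nat.mul_le_mul_right c (Nat.succ_le_of_lt hi)).trans h.le)) (s₀ := ⟨j * c, h⟩)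
    (show j ≤ j * c / c by rw [Nat.mul_div_cancel _ hc]) hk
  rwa [Fintype.card_fin] at h1

/-- **F1**, canonical variables. -/
theorem vd_le_gM_blk {M c j n : ℕ} (hM : 1 ≤ M) (hc : 0 < c) (h : j * c < n) (s : Multiset Kd)
    (hs : ∀ k ∈ s, k.Ok M j) : vd M c j n s ≤ gM (LS M (blk c n) j) s := by
  have h1 := vd_le_gM (ν := Fin n) (c := c) hM (fun i hi => card_blo_blk hc
    ((Nat.mul_le_mul_right c (Nat.succ_le_of_lt hi)).trans h.le)) (s₀ := ⟨j * c, h⟩)
    (show j ≤ j * c / c by rw [Nat.mul_div_cancel _ hc]) s hs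
  rwa [Fintype.card_fin] at h1

end Pool.Agent.V7

end
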