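import Pool.Agent.H94.LP5.M05
import Pool.Agent.H94.LP5.M07

/-! The parts of this file: V7.AL.Tens, V7.BE.Dir, V7.BE.Rest, V7.BE.Wts. -/

section

/-!
# V7, the tensor lemma, one slot at a time

For an intersecting family of kinds `S` with weights `w S`, total weight `W`, the `w S c^|S| / W`
general pure tensors of every kind kill all tensors.  Proof: give the points whose kind contains a
slot a coordinate vector in this slot.  The coordinate `x` of the slot (a *line*) is pure of a kind
`T`: only points of kind `T ∪ {slot}` are put on it, and the slice is again an intersecting problem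
with total weight `W`, the kind `T` has the weight `W₁` = sum of the weights of the kinds containing
the slot.
-/

namespace Pool.Agent.V7

open Finset MvPolynomial Pool.Agent.H51.TB

section cut

variable {α : Type} [Fintype α] [DecidableEq α] {c : ℕ}

/-- adding a coordinate -/
def tensCons (x : Fin c) (u : α → Fin c) : Option α → Fin c := fun o => o.elim x u

theorem tens_sum (f : (Option α → Fin c) → ℂ) :
    ∑ e : Option α → Fin c, f e = ∑ x : Fin c, ∑ u : α → Fin c, f (tensCons x u) := by
  rw [← Fintype.sum_prod_type' (fun (x : Fin c) (u : α → Fin c) => f (tensCons x u))]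
  refine Fintype.sum_equiv Equiv.piOptionEquivProd _ _ fun e => ?_
  refine congrArg f (funext fun o => ?_)
  cases o <;> rfl

theorem tens_ctr_some (S : Finset α) (y : Option α × Fin c → ℂ) (F : (Option α → Fin c) → ℂ)
    (x : Fin c) (w : α → Fin c) : ctr (S.map Function.Embedding.some) y F (tensCons x w) =
      ctr S (fun z => y (some z.1, z.2)) (fun u => F (tensCons x u)) w := by
  unfold ctr
  rw [tens_sum, Finset.sum_eq_single x]
  · refine Finset.sum_congr rfl fun u _ => ?_
    have h : (∀ j, j ∉ S.map Function.Embedding.some → tensCons x u j = tensCons x w j) ↔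
        ∀ a, a ∉ S → u a = w a := by
      constructor
      · intro h a ha
        exact h (some a) fun h' => ha (by simpa using h')
      · intro h j hj
        cases j with
        | none => rfl
        | some a => exact h a fun h' => hj (by simpa using h')
    by_cases h' : ∀ a, a ∉ S → u a = w a
    · rw [if_pos h', if_pos (h.2 h'), Finset.prod_map]
      rfl
    · rw [if_neg h', if_neg fun h1 => h' (h.1 h1)]
  · intro x' _ hx'
    refine Finset.sum_eq_zero fun u _ => if_neg fun h => hx' ?_
    exact h none (by simp)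
  · exact fun h => absurd (Finset.mem_univ x) h

theorem tens_ctr_none (S : Finset α) (y : Option α × Fin c → ℂ) (F : (Option α → Fin c) → ℂ)
    (x : Fin c) (w : α → Fin c) : ctr (insertNone S) y F (tensCons x w) =
      ∑ x', y (none, x') * ctr S (fun z => y (some z.1, z.2)) (fun u => F (tensCons x' u)) w := by
  unfold ctr
  rw [tens_sum]
  refine Finset.sum_congr rfl fun x' _ => ?_
  rw [Finset.mul_sum]
  refine Finset.sum_congr rfl fun u _ => ?_
  have h : (∀ j, j ∉ insertNone S → tensCons x' u j = tensCons x w j) ↔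
      ∀ a, a ∉ S → u a = w a := by
    constructor
    · intro h a ha
      exact h (some a) fun h' => ha (some_mem_insertNone.1 h')
    · intro h j hj
      cases j with
      | none => exact absurd none_mem_insertNone hj
      | some a => exact h a fun h' => hj (some_mem_insertNone.2 h')
  by_cases h' : ∀ a, a ∉ S → u a = w a
  · rw [if_pos h', if_pos (h.2 h'), Finset.prod_insertNone, ← mul_assoc]
    rfl
  · rw [if_neg h', if_neg fun h1 => h' (h.1 h1), mul_zero]

omit [Fintype α] in
theorem tens_eq_map {S : Finset (Option α)} (h : none ∉ S) :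
    S = (eraseNone S).map Function.Embedding.some := by
  ext (_ | a)
  · simp [h]
  · simp

omit [Fintype α] in
theorem tens_eq_ins {S : Finset (Option α)} (h : none ∈ S) : S = insertNone (eraseNone S) := by
  ext (_ | a)
  · simp [h]
  · simp

/-- The slot step: if all slices are killed, everything is killed. -/
theorem tens_step {κ : Type} [Fintype κ] (m : κ → Finset (Option α)) (line : κ → Fin c)
    (h : ∀ x : Fin c, (TSys α c).gd (fun i : {i // none ∉ m i ∨ line i = x} =>
      eraseNone (m i.1)) = 0) : (TSys (Option α) c).gd m = 0 := by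
  classical
  have h1 : ∀ x ∈ (Finset.univ : Finset (Fin c)), Gn κ (α × Fin c) fun p =>
      Module.finrank ℂ ((TSys α c).V (fun i : {i // none ∉ m i ∨ line i = x} =>
        eraseNone (m i.1)) fun i => p i.1) = 0 := by
    intro x _
    have h2 := gn_gd (TSys α c) fun i : {i // none ∉ m i ∨ line i = x} => eraseNone (m i.1)
    have h3 := Gn.comap (κ := κ) (fun i : {i // none ∉ m i ∨ line i = x} => i.1)
      Subtype.val_injective h2
    refine h3.mono fun p hp => ?_
    rw [h x] at hp
    exact hp
  obtain ⟨p, hp⟩ := (Gn.all Finset.univ h1).exists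
  let P : κ → Option α × Fin c → ℂ := fun i z =>
    match z.1 with
    | none => if z.2 = line i then 1 else 0
    | some a => p i (a, z.2)
  have hV : (TSys (Option α) c).V m P = ⊥ := by
    rw [Submodule.eq_bot_iff]
    intro F hF
    rw [mem_TSys] at hF
    have h3 : ∀ x : Fin c, (fun u : α → Fin c => F (tensCons x u)) = 0 := by
      intro x
      have h4 : (TSys α c).V (fun i : {i // none ∉ m i ∨ line i = x} =>
          eraseNone (m i.1)) (fun i => p i.1) = ⊥ := Submodule.finrank_eq_zero.1 (hp x (mem_univ x))
      have h5 : (fun u : α → Fin c => F (tensCons x u)) ∈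
          (TSys α c).V (fun i : {i // none ∉ m i ∨ line i = x} =>
            eraseNone (m i.1)) (fun i => p i.1) := by
        rw [mem_TSys]
        rintro ⟨i, hi⟩ w
        by_cases hn : none ∈ m i
        · have hl : line i = x := hi.resolve_left fun h' => h' hn
          have h6 := hF i (tensCons x w)
          rw [tens_eq_ins hn, tens_ctr_none, Finset.sum_eq_single x] at h6
          · have e1 : P i (none, x) = 1 := if_pos hl.symm
            rw [e1, one_mul] at h6
            exact h6
          · intro x' _ hx'
            have e1 : P i (none, x') = 0 := if_neg fun h' => hx' (h'.trans hl)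
            rw [e1, zero_mul]
          · exact fun h' => absurd (mem_univ x) h'
        · have h6 := hF i (tensCons x w)
          rw [tens_eq_map hn, tens_ctr_some] at h6
          exact h6
      rw [h4, Submodule.mem_bot] at h5
      exact h5
    funext e
    have h7 := congrFun (h3 (e none)) fun a => e (some a)
    have h8 : tensCons (e none) (fun a => e (some a)) = e := by
      funext o
      cases o <;> rfl
    simp only [h8] at h7
    exact h7
  have h9 := gd_le (TSys (Option α) c) m P
  rw [hV, finrank_bot] at h9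
  omega

/-- The distribution of the points on the lines. -/
theorem tens_lines {κ : Type} [Fintype κ] (m : κ → Finset (Option α)) (hc : 0 < c)
    (L q : Finset α → ℕ) (hL : ∑ T, L T = c)
    (hcard : ∀ T, (univ.filter fun i => m i = insertNone T).card = L T * q T) :
    ∃ (τ : Fin c → Finset α) (line : κ → Fin c), (∀ x, L (τ x) ≠ 0) ∧
      (∀ i, none ∈ m i → m i = insertNone (τ (line i))) ∧
      ∀ x, (univ.filter fun i => none ∈ m i ∧ line i = x).card = q (τ x) := by
  classical
  have e1 : Fin c ≃ Σ T : Finset α, Fin (L T) := by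
    refine Fintype.equivOfCardEq ?_
    rw [Fintype.card_sigma]
    simp only [Fintype.card_fin]
    exact hL.symm
  let τ : Fin c → Finset α := fun x => (e1 x).1
  have hτ : ∀ T, Fintype.card {x // τ x = T} = L T := by
    intro T
    have h1 : {x // τ x = T} ≃ {z : Σ T : Finset α, Fin (L T) // z.1 = T} :=
      e1.subtypeEquiv fun x => Iff.rfl
    have h2 : {z : Σ T : Finset α, Fin (L T) // z.1 = T} ≃ Fin (L T) :=
      { toFun := fun z => Fin.cast (congrArg L z.2) z.1.2
        invFun := fun v => ⟨⟨T, v⟩, rfl⟩
        left_inv := by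
          rintro ⟨⟨T', v⟩, h⟩
          cases h
          rfl
        right_inv := fun v => rfl }
    rw [Fintype.card_congr (h1.trans h2), Fintype.card_fin]
  have hE : ∀ T, Nonempty ({i // m i = insertNone T} ≃ {x // τ x = T} × Fin (q T)) := by
    intro T
    refine ⟨Fintype.equivOfCardEq ?_⟩
    rw [Fintype.card_prod, hτ, Fintype.card_fin, ← hcard T, Fintype.card_subtype]
  have E : ∀ T, {i // m i = insertNone T} ≃ {x // τ x = T} × Fin (q T) := fun T =>
    Classical.choice (hE T)
  let line : κ → Fin c := fun i =>
    if h : none ∈ m i then ((E (eraseNone (m i)) ⟨i, tens_eq_ins h⟩).1).1 else ⟨0, hc⟩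
  have hl : ∀ (T : Finset α) (i : κ) (h : m i = insertNone T), line i = ((E T ⟨i, h⟩).1).1 := by
    intro T i h
    have h1 : none ∈ m i := by
      rw [h]
      exact none_mem_insertNone
    have h2 : T = eraseNone (m i) := by
      rw [h, eraseNone_insertNone]
    subst h2
    exact dif_pos h1
  refine ⟨τ, line, ?_, ?_, ?_⟩
  · intro x h
    have h1 : (e1 x).2.1 < L (τ x) := (e1 x).2.2
    omega
  · intro i hi
    have h1 := hl (eraseNone (m i)) i (tens_eq_ins hi)
    rw [h1, ((E (eraseNone (m i)) ⟨i, tens_eq_ins hi⟩).1).2]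
    exact tens_eq_ins hi
  · intro x
    have h3 : Fintype.card (Fin (q (τ x))) = q (τ x) := Fintype.card_fin _
    rw [← h3, ← Finset.card_univ]
    symm
    refine Finset.card_bij (fun j _ => ((E (τ x)).symm (⟨x, rfl⟩, j)).1) ?_ ?_ ?_
    · intro j _
      have h4 := ((E (τ x)).symm (⟨x, rfl⟩, j)).2
      rw [mem_filter]
      refine ⟨mem_univ _, ?_, ?_⟩
      · rw [h4]
        exact none_mem_insertNone
      · rw [hl (τ x) _ h4]
        have h5 : (⟨((E (τ x)).symm (⟨x, rfl⟩, j)).1, h4⟩ : {i // m i = insertNone (τ x)}) =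
            (E (τ x)).symm (⟨x, rfl⟩, j) := rfl
        rw [h5, Equiv.apply_symm_apply]
    · intro j _ j' _ h
      have h4 := (E (τ x)).symm.injective (Subtype.ext h)
      exact (Prod.ext_iff.1 h4).2
    · intro i hi
      rw [mem_filter] at hi
      obtain ⟨-, hi1, hi2⟩ := hi
      have h4 : m i = insertNone (τ x) := by
        have h5 := hl (eraseNone (m i)) i (tens_eq_ins hi1)
        have h6 := ((E (eraseNone (m i)) ⟨i, tens_eq_ins hi1⟩).1).2
        rw [← h5, hi2] at h6
        rw [h6]
        exact tens_eq_ins hi1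
      refine ⟨(E (τ x) ⟨i, h4⟩).2, mem_univ _, ?_⟩
      have h7 : (E (τ x) ⟨i, h4⟩).1 = ⟨x, rfl⟩ := Subtype.ext ((hl _ _ h4).symm.trans hi2)
      have h8 : ((⟨x, rfl⟩ : {y // τ y = τ x}), (E (τ x) ⟨i, h4⟩).2) = E (τ x) ⟨i, h4⟩ := by
        rw [← h7]
      show ((E (τ x)).symm (⟨x, rfl⟩, (E (τ x) ⟨i, h4⟩).2)).1 = i
      rw [h8, Equiv.symm_apply_apply]

theorem tens_sum_opt (f : Finset (Option α) → ℕ) : ∑ S, f S =
    ∑ T : Finset α, f (T.map Function.Embedding.some) + ∑ T : Finset α, f (insertNone T) := by
  classical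
  rw [← Finset.sum_filter_add_sum_filter_not univ (fun S : Finset (Option α) => none ∉ S) f]
  congr 1
  · refine Finset.sum_nbij' (i := fun S => eraseNone S)
      (j := fun T => T.map Function.Embedding.some) ?_ ?_ ?_ ?_ ?_
    · intro S _
      exact mem_univ _
    · intro T _
      rw [mem_filter]
      exact ⟨mem_univ _, by simp⟩
    · intro S hS
      exact (tens_eq_map (mem_filter.1 hS).2).symm
    · intro T _
      ext a
      simp
    · intro S hS
      show f S = f ((eraseNone S).map Function.Embedding.some)
      rw [← tens_eq_map (mem_filter.1 hS).2]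
  · refine Finset.sum_nbij' (i := fun S => eraseNone S) (j := fun T => insertNone T) ?_ ?_ ?_ ?_ ?_
    · intro S _
      exact mem_univ _
    · intro T _
      rw [mem_filter]
      exact ⟨mem_univ _, by simp⟩
    · intro S hS
      have h := (mem_filter.1 hS).2
      rw [not_not] at h
      exact (tens_eq_ins h).symm
    · intro T _
      exact eraseNone_insertNone T
    · intro S hS
      have h := (mem_filter.1 hS).2
      rw [not_not] at h
      show f S = f (insertNone (eraseNone S))
      rw [← tens_eq_ins h]

/-- The numbers of lines of every kind and of points on every line. -/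
theorem tens_data {W : ℕ} (hW : 1 ≤ W) (hdiv : W.factorial ∣ c)
    (w : Finset (Option α) → ℕ) (hsum : ∑ S, w S = W) (hint : Inter w) (n : Finset α → ℕ)
    (hn : ∀ T, n T * W = w (insertNone T) * c ^ (T.card + 1)) :
    ∃ L q : Finset α → ℕ, ∑ T, L T = c ∧ (∀ T, n T = L T * q T) ∧
      (∀ T, L T ≠ 0 → q T * W = (∑ T, w (insertNone T)) * c ^ T.card) ∧
      ∀ T, L T ≠ 0 → (∑ T, w (insertNone T)) ≠ 0 → w (insertNone T) ≠ 0 := by
  classical
  set W1 := ∑ T, w (insertNone T) with hW1
  rcases Nat.eq_zero_or_pos W1 with h0 | h0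
  · have h1 : ∀ T, w (insertNone T) = 0 := fun T => by
      rw [hW1] at h0
      exact (Finset.sum_eq_zero_iff.1 h0) T (mem_univ T)
    refine ⟨fun T => if T = ∅ then c else 0, fun _ => 0, ?_, ?_, ?_, ?_⟩
    · simp
    · intro T
      have h2 := hn T
      rw [h1, zero_mul] at h2
      rw [mul_zero]
      exact (Nat.mul_eq_zero.1 h2).resolve_right (by omega)
    · intro T _
      rw [h0, zero_mul, zero_mul]
    · intro T _ h
      exact absurd h0 h
  · have hle : W1 ≤ W := by
      rw [← hsum, tens_sum_opt]
      exact Nat.le_add_left _ _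
    obtain ⟨c1, hc1⟩ : W1 ∣ c := (Nat.dvd_factorial h0 hle).trans hdiv
    have hdW : W ∣ c := (Nat.dvd_factorial hW le_rfl).trans hdiv
    have hq : ∀ T : Finset α, w (insertNone T) ≠ 0 →
        (W1 * c ^ T.card / W) * W = W1 * c ^ T.card := by
      intro T hT
      refine Nat.div_mul_cancel ?_
      rcases T.eq_empty_or_nonempty with hT0 | hT0
      · subst hT0
        have h2 : ∑ T : Finset α, w (T.map Function.Embedding.some) = 0 := by
          refine Finset.sum_eq_zero fun T _ => ?_
          by_contra h3
          rcases hint _ _ h3 hT with h4 | h4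
          · obtain ⟨o, ho⟩ := h4
            rw [mem_inter] at ho
            cases o with
            | none => simp at ho
            | some a => simp at ho
          · have h5 : (none : Option α) ∈ insertNone (∅ : Finset α) := none_mem_insertNone
            rw [h4.2] at h5
            exact absurd h5 (Finset.notMem_empty _)
        have h3 : W1 = W := by
          have h4 := tens_sum_opt w
          rw [hsum, h2, zero_add] at h4
          exact h4.symm
        rw [h3]
        exact Dvd.intro _ rfl
      · refine Dvd.dvd.mul_left (hdW.trans (dvd_pow_self c ?_)) _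
        exact (Finset.card_pos.2 hT0).ne'
    refine ⟨fun T => c1 * w (insertNone T), fun T => W1 * c ^ T.card / W, ?_, ?_, ?_, ?_⟩
    · rw [← Finset.mul_sum, ← hW1, hc1]
      ring
    · intro T
      by_cases hT : w (insertNone T) = 0
      · have h2 := hn T
        rw [hT, zero_mul] at h2
        show n T = c1 * w (insertNone T) * _
        rw [hT, mul_zero, zero_mul]
        exact (Nat.mul_eq_zero.1 h2).resolve_right (by omega)
      · refine Nat.eq_of_mul_eq_mul_right (show 0 < W by omega) ?_
        show n T * W = c1 * w (insertNone T) * (W1 * c ^ T.card / W) * W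
        rw [hn, mul_assoc (c1 * w (insertNone T)), hq T hT, pow_succ]
        conv_lhs => rw [hc1]
        rw [← hc1]
        conv_lhs =>
          rw [show w (insertNone T) * (c ^ T.card * c) = w (insertNone T) * c ^ T.card * c by ring]
        nth_rewrite 2 [hc1]
        ring
    · intro T hT
      refine hq T fun h => hT ?_
      show c1 * w (insertNone T) = 0
      rw [h, mul_zero]
    · intro T hT _ h
      refine hT ?_
      show c1 * w (insertNone T) = 0
      rw [h, mul_zero]

end cut

/-- The statement of the lemma with numbers of points instead of index types. -/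
def TKill (ι : Type) [Fintype ι] [DecidableEq ι] : Prop :=
  ∀ (c W : ℕ), 1 ≤ W → 1 ≤ c → W.factorial ∣ c → ∀ w : Finset ι → ℕ, ∑ S, w S = W → Inter w →
    ∀ (κ : Type) [Fintype κ] (m : κ → Finset ι),
      (∀ S, (univ.filter fun i => m i = S).card * W = w S * c ^ S.card) → (TSys ι c).gd m = 0

theorem tens_option {α : Type} [Fintype α] [DecidableEq α] (h : TKill α) : TKill (Option α) := by
  intro c W hW hc hdiv w hsum hint κ _ m hm
  classical
  obtain ⟨L, q, hL, hLq, hq, hw⟩ := tens_data hW hdiv w hsum hint
    (fun T => (univ.filter fun i => m i = insertNone T).card)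
    (fun T => by rw [hm, Finset.card_insertNone])
  obtain ⟨τ, line, hτ, hline, hcard⟩ := tens_lines m hc L q hL hLq
  set W1 := ∑ T, w (insertNone T) with hW1
  refine tens_step m line fun x => ?_
  refine h c W hW hc hdiv
    (fun S => w (S.map Function.Embedding.some) + if S = τ x then W1 else 0) ?_ ?_ _ _ ?_
  · rw [Finset.sum_add_distrib, Finset.sum_ite_eq' univ (τ x) fun _ => W1, if_pos (mem_univ _),
      hW1, ← tens_sum_opt, hsum]
  · intro S S' hS hS'
    have k1 : ∀ A B : Finset α, w (A.map Function.Embedding.some) ≠ 0 →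
        w (B.map Function.Embedding.some) ≠ 0 → (A ∩ B).Nonempty ∨ (A = ∅ ∧ B = ∅) := by
      intro A B hA hB
      rcases hint _ _ hA hB with h1 | h1
      · left
        rw [← Finset.map_inter, Finset.map_nonempty] at h1
        exact h1
      · right
        rw [Finset.map_eq_empty, Finset.map_eq_empty] at h1
        exact h1
    have k2 : ∀ B : Finset α, W1 ≠ 0 → w (B.map Function.Embedding.some) ≠ 0 →
        (τ x ∩ B).Nonempty := by
      intro B h0 hB
      rcases hint _ _ (hw _ (hτ x) h0) hB with h1 | h1
      · obtain ⟨o, ho⟩ := h1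
        rw [mem_inter] at ho
        cases o with
        | none => simp at ho
        | some a =>
          refine ⟨a, ?_⟩
          rw [mem_inter]
          simpa using ho
      · have h5 : (none : Option α) ∈ insertNone (τ x) := none_mem_insertNone
        rw [h1.1] at h5
        exact absurd h5 (Finset.notMem_empty _)
    have k3 : ∀ A, (w (A.map Function.Embedding.some) + if A = τ x then W1 else 0) ≠ 0 →
        w (A.map Function.Embedding.some) ≠ 0 ∨ (A = τ x ∧ W1 ≠ 0) := by
      intro A hA
      by_cases h1 : A = τ x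
      · rw [if_pos h1] at hA
        by_cases h2 : W1 = 0
        · left
          omega
        · right
          exact ⟨h1, h2⟩
      · rw [if_neg h1] at hA
        left
        omega
    rcases k3 S hS with h1 | h1 <;> rcases k3 S' hS' with h2 | h2
    · exact k1 _ _ h1 h2
    · left
      rw [h2.1, Finset.inter_comm]
      exact k2 S h2.2 h1
    · left
      rw [h1.1]
      exact k2 S' h1.2 h2
    · rw [h1.1, h2.1]
      rcases (τ x).eq_empty_or_nonempty with h3 | h3
      · right
        exact ⟨h3, h3⟩
      · left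
        rw [Finset.inter_self]
        exact h3
  · intro S
    have h1 : (univ.filter fun i : {i // none ∉ m i ∨ line i = x} => eraseNone (m i.1) = S).card =
        (univ.filter fun i => (none ∉ m i ∨ line i = x) ∧ eraseNone (m i) = S).card := by
      refine Finset.card_bij (fun i _ => i.1) ?_ ?_ ?_
      · intro i hi
        rw [mem_filter] at hi ⊢
        exact ⟨mem_univ _, i.2, hi.2⟩
      · intro i _ j _ hij
        exact Subtype.ext hij
      · intro i hi
        rw [mem_filter] at hi
        exact ⟨⟨i, hi.2.1⟩, by rw [mem_filter]; exact ⟨mem_univ _, hi.2.2⟩, rfl⟩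
    have h2 : (univ.filter fun i => (none ∉ m i ∨ line i = x) ∧ eraseNone (m i) = S) =
        (univ.filter fun i => m i = S.map Function.Embedding.some) ∪
          univ.filter fun i => none ∈ m i ∧ line i = x ∧ S = τ x := by
      ext i
      rw [mem_union, mem_filter, mem_filter, mem_filter]
      constructor
      · rintro ⟨-, h3, h4⟩
        by_cases h5 : none ∈ m i
        · right
          have h6 := h3.resolve_left fun h => h h5
          refine ⟨mem_univ _, h5, h6, ?_⟩
          rw [← h4, hline i h5, h6, eraseNone_insertNone]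
        · left
          refine ⟨mem_univ _, ?_⟩
          rw [← h4]
          exact tens_eq_map h5
      · rintro (⟨-, h3⟩ | ⟨-, h3, h4, h5⟩)
        · refine ⟨mem_univ _, Or.inl ?_, ?_⟩
          · rw [h3]
            simp
          · rw [h3]
            ext a
            simp
        · refine ⟨mem_univ _, Or.inr h4, ?_⟩
          rw [hline i h3, h4, eraseNone_insertNone, h5]
    have h3 : Disjoint (univ.filter fun i => m i = S.map Function.Embedding.some)
        (univ.filter fun i => none ∈ m i ∧ line i = x ∧ S = τ x) := by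
      rw [Finset.disjoint_left]
      intro i hi hi'
      rw [mem_filter] at hi hi'
      have h4 := hi'.2.1
      rw [hi.2] at h4
      simp at h4
    have h4 : (univ.filter fun i => none ∈ m i ∧ line i = x ∧ S = τ x).card =
        if S = τ x then q (τ x) else 0 := by
      split_ifs with hS
      · rw [← hcard x]
        congr 1
        ext i
        rw [mem_filter, mem_filter]
        tauto
      · rw [Finset.card_eq_zero, Finset.filter_eq_empty_iff]
        intro i _ hi
        exact hS hi.2.2
    rw [h1, h2, Finset.card_union_of_disjoint h3, h4, add_mul, hm, Finset.card_map, add_mul (w _)]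
    congr 1
    split_ifs with hS
    · rw [hq _ (hτ x), hS]
    · rw [zero_mul, zero_mul]

/-- A point of kind `∅` kills everything. -/
theorem tens_point {ι : Type} [Fintype ι] [DecidableEq ι] {c : ℕ} {κ : Type} (m : κ → Finset ι)
    (i : κ) (hi : m i = ∅) : (TSys ι c).gd m = 0 := by
  have h : (TSys ι c).V m 0 = ⊥ := by
    rw [Submodule.eq_bot_iff]
    intro F hF
    rw [mem_TSys] at hF
    funext w
    have h1 := hF i w
    rw [hi] at h1
    unfold ctr at h1
    rw [Finset.sum_eq_single w] at h1
    · simpa using h1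
    · intro e _ he
      refine if_neg fun h => he ?_
      funext j
      exact h j (Finset.notMem_empty j)
    · exact fun h => absurd (mem_univ w) h
  have h2 := gd_le (TSys ι c) m 0
  rw [h, finrank_bot] at h2
  omega

/-- Renaming of the slots. -/
theorem tens_equiv {ι ι' : Type} [Fintype ι] [DecidableEq ι] [Fintype ι'] [DecidableEq ι']
    (e : ι ≃ ι') {c : ℕ} {κ : Type} (m : κ → Finset ι')
    (h : (TSys ι c).gd (fun i => (m i).map e.symm.toEmbedding) = 0) : (TSys ι' c).gd m = 0 := by
  obtain ⟨p, hp⟩ := gd_attained (TSys ι c) fun i => (m i).map e.symm.toEmbedding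
  rw [h] at hp
  have h1 := Submodule.finrank_eq_zero.1 hp
  let p' : κ → ι' × Fin c → ℂ := fun i z => p i (e.symm z.1, z.2)
  have h2 : (TSys ι' c).V m p' = ⊥ := by
    rw [Submodule.eq_bot_iff]
    intro F hF
    rw [mem_TSys] at hF
    have h3 : (fun u : ι → Fin c => F fun j => u (e.symm j)) ∈
        (TSys ι c).V (fun i => (m i).map e.symm.toEmbedding) p := by
      rw [mem_TSys]
      intro i w
      rw [← hF i fun j => w (e.symm j)]
      unfold ctr
      refine Fintype.sum_equiv (Equiv.arrowCongr e (Equiv.refl (Fin c))) _ _ fun u => ?_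
      have h4 : (Equiv.arrowCongr e (Equiv.refl (Fin c))) u = fun j => u (e.symm j) := rfl
      rw [h4]
      have h5 : (∀ j, j ∉ (m i).map e.symm.toEmbedding → u j = w j) ↔
          ∀ j, j ∉ m i → u (e.symm j) = w (e.symm j) := by
        constructor
        · intro h6 j hj
          refine h6 _ fun h7 => hj ?_
          rw [Finset.mem_map_equiv] at h7
          simpa using h7
        · intro h6 j hj
          have h7 := h6 (e j) fun h8 => hj (by
            rw [Finset.mem_map_equiv]
            simpa using h8)
          simpa using h7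
      by_cases h6 : ∀ j, j ∉ m i → u (e.symm j) = w (e.symm j)
      · rw [if_pos h6, if_pos (h5.2 h6), Finset.prod_map]
        rfl
      · rw [if_neg h6, if_neg fun h7 => h6 (h5.1 h7)]
    rw [h1, Submodule.mem_bot] at h3
    funext u
    have h4 := congrFun h3 fun j => u (e j)
    simp only [Equiv.apply_symm_apply] at h4
    exact h4
  have h3 := gd_le (TSys ι' c) m p'
  rw [h2, finrank_bot] at h3
  omega

theorem tens_all (ι : Type) [Fintype ι] : ∀ [DecidableEq ι], TKill ι := by
  refine Fintype.induction_empty_option (P := fun ι _ => ∀ [DecidableEq ι], TKill ι) ?_ ?_ ?_ ι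
  · intro α β _ e h _
    classical
    let _ : Fintype α := Fintype.ofEquiv β e.symm
    intro c W hW hc hdiv w hsum hint κ _ m hm
    refine tens_equiv e m ?_
    refine h c W hW hc hdiv (fun S => w (S.map e.toEmbedding)) ?_ ?_ κ _ ?_
    · rw [← hsum]
      exact Fintype.sum_equiv e.finsetCongr _ _ fun S => rfl
    · intro S S' hS hS'
      rcases hint _ _ hS hS' with h1 | h1
      · left
        rw [← Finset.map_inter, Finset.map_nonempty] at h1
        exact h1
      · right
        rw [Finset.map_eq_empty, Finset.map_eq_empty] at h1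
        exact h1
    · intro S
      have h1 := hm (S.map e.toEmbedding)
      rw [Finset.card_map] at h1
      rw [← h1]
      congr 2
      ext i
      rw [mem_filter, mem_filter]
      have h2 : (m i).map e.symm.toEmbedding = S ↔ m i = S.map e.toEmbedding := by
        constructor
        · rintro rfl
          ext a
          simp
        · intro h3
          rw [h3]
          ext a
          simp
      rw [h2]
  · intro _ c W hW hc hdiv w hsum hint κ _ m hm
    have h1 : ∑ S, w S = w ∅ := by
      refine Fintype.sum_eq_single _ fun S hS => absurd ?_ hS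
      ext a
      exact a.elim
    have h2 := hm ∅
    rw [← h1, hsum, Finset.card_empty, pow_zero, mul_one] at h2
    have h3 : (univ.filter fun i => m i = ∅).card ≠ 0 := by
      intro h3
      rw [h3, zero_mul] at h2
      omega
    obtain ⟨i, hi⟩ := Finset.card_ne_zero.1 h3
    exact tens_point m i (mem_filter.1 hi).2
  · intro α _ h _
    classical
    have h1 := tens_option (@h fun a b => Classical.propDecidable _)
    have h2 : ∀ D E : DecidableEq (Option α), @TKill (Option α) _ D → @TKill (Option α) _ E := by
      intro D E hD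
      rw [Subsingleton.elim E D]
      exact hD
    exact h2 _ _ h1

section gen

variable {E ν T : Type} [Fintype E] (S : Sys E ν T) {κ : Type}

/-- Further points impose at most the sum of their sizes. -/
theorem tens_gd_le_add [Fintype κ] (m : κ → T) (κ' : Type) [Fintype κ'] : ∀ n : κ' → T,
    S.gd m ≤ S.gd (Sum.elim m n) + ∑ i, S.size (n i) := by
  refine Fintype.induction_empty_option (P := fun κ' _ => ∀ n : κ' → T,
    S.gd m ≤ S.gd (Sum.elim m n) + ∑ i, S.size (n i)) ?_ ?_ ?_ κ'
  · intro α β _ e h n
    let _ : Fintype α := Fintype.ofEquiv β e.symm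
    have h1 := h fun a => n (e a)
    have h2 : S.gd (Sum.elim m fun a => n (e a)) = S.gd (Sum.elim m n) := by
      rw [← gd_comp_equiv S (Equiv.sumCongr (Equiv.refl κ) e)]
      congr 1
      funext i
      rcases i with i | i <;> rfl
    have h3 : ∑ a, S.size (n (e a)) = ∑ b, S.size (n b) :=
      Equiv.sum_comp e fun b => S.size (n b)
    rw [h2, h3] at h1
    exact h1
  · intro n
    have h2 : S.gd (Sum.elim m n) = S.gd m := by
      rw [← gd_comp_equiv S (Equiv.sumEmpty κ PEmpty)]
      congr 1
      funext i
      rcases i with i | i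
      · rfl
      · exact i.elim
    rw [h2]
    exact Nat.le_add_right _ _
  · intro α _ h n
    have h1 := h fun a => n (some a)
    have h2 := gd_le_ad S (Sum.elim m fun a => n (some a)) (n none)
    have h3 : S.gd (ad (Sum.elim m fun a => n (some a)) (n none)) = S.gd (Sum.elim m n) := by
      rw [← gd_comp_equiv S ((Equiv.sumAssoc κ α Unit).trans
        (Equiv.sumCongr (Equiv.refl κ) (Equiv.optionEquivSumPUnit α).symm))]
      congr 1
      funext i
      rcases i with (i | i) | i <;> rfl
    rw [Fintype.sum_option]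
    omega

end gen

section main

variable {ι : Type} [Fintype ι] [DecidableEq ι] {c W : ℕ}

theorem tens_dvd (hW : 1 ≤ W) (hdiv : W.factorial ∣ c) (w : Finset ι → ℕ)
    (hsum : ∑ S, w S = W) (hint : Inter w) (S : Finset ι) : W ∣ w S * c ^ S.card := by
  rcases S.eq_empty_or_nonempty with hS | hS
  · subst hS
    by_cases h0 : w ∅ = 0
    · rw [h0, zero_mul]
      exact dvd_zero W
    · have h1 : ∑ S, w S = w ∅ := by
        refine Finset.sum_eq_single_of_mem _ (mem_univ _) fun S _ hS => ?_
        by_contra h2
        rcases hint _ _ h0 h2 with h3 | h3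
        · rw [Finset.empty_inter] at h3
          exact absurd h3 Finset.not_nonempty_empty
        · exact hS h3.2
      rw [← h1, hsum]
      exact Dvd.intro _ rfl
  · exact Dvd.dvd.mul_left (((Nat.dvd_factorial hW le_rfl).trans hdiv).trans
      (dvd_pow_self c (Finset.card_pos.2 hS).ne')) _

theorem tens_tcard (w : Finset ι → ℕ) (S : Finset ι) :
    (univ.filter fun x : TIdx ι c W w => x.1 = S).card = w S * c ^ S.card / W := by
  classical
  rw [← Fintype.card_subtype]
  have h2 : {z : TIdx ι c W w // z.1 = S} ≃ Fin (w S * c ^ S.card / W) :=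
    { toFun := fun z => Fin.cast (congrArg (fun S : Finset ι => w S * c ^ S.card / W) z.2) z.1.2
      invFun := fun v => ⟨⟨S, v⟩, rfl⟩
      left_inv := by
        rintro ⟨⟨T', v⟩, h⟩
        cases h
        rfl
      right_inv := fun v => rfl }
  rw [Fintype.card_congr h2, Fintype.card_fin]

theorem tens_kill (hW : 1 ≤ W) (hc : 1 ≤ c) (hdiv : W.factorial ∣ c) (w : Finset ι → ℕ)
    (hsum : ∑ S, w S = W) (hint : Inter w) :
    (TSys ι c).gd (fun x : TIdx ι c W w => x.1) = 0 := by
  refine tens_all ι c W hW hc hdiv w hsum hint _ _ fun S => ?_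
  rw [tens_tcard]
  exact Nat.div_mul_cancel (tens_dvd hW hdiv w hsum hint S)

/-- The number of conditions of a point. -/
theorem tens_size (hc : 1 ≤ c) (S : Finset ι) :
    (TSys ι c).size S ≤ c ^ (Fintype.card ι - S.card) := by
  classical
  obtain ⟨p, hp⟩ := gd_attained (TSys ι c) fun _ : Unit => S
  let ex : ({j // j ∉ S} → Fin c) → ι → Fin c := fun u j =>
    if h : j ∉ S then u ⟨j, h⟩ else ⟨0, hc⟩
  let Φ : ((ι → Fin c) → ℂ) →ₗ[ℂ] (({j // j ∉ S} → Fin c) → ℂ) :=
    { toFun := fun F u => ctr S (p ()) F (ex u)
      map_add' := fun F G => by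
        funext u
        unfold ctr
        rw [Pi.add_apply, ← Finset.sum_add_distrib]
        refine Finset.sum_congr rfl fun e _ => ?_
        split_ifs
        · rw [Pi.add_apply, mul_add]
        · rw [add_zero]
      map_smul' := fun a F => by
        funext u
        unfold ctr
        rw [RingHom.id_apply, Pi.smul_apply, smul_eq_mul, Finset.mul_sum]
        refine Finset.sum_congr rfl fun e _ => ?_
        split_ifs
        · rw [Pi.smul_apply, smul_eq_mul]
          ring
        · rw [mul_zero] }
  have h1 : LinearMap.ker Φ ≤ (TSys ι c).V (fun _ : Unit => S) p := by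
    intro F hF
    rw [mem_TSys]
    rintro ⟨⟩ w
    have h2 : ctr S (p ()) F (ex fun j => w j.1) = 0 :=
      congrFun (LinearMap.mem_ker.1 hF) fun j => w j.1
    rw [← h2]
    unfold ctr
    refine Finset.sum_congr rfl fun e _ => ?_
    have h3 : (∀ j, j ∉ S → e j = w j) ↔ ∀ j, j ∉ S → e j = ex (fun j => w j.1) j := by
      refine forall_congr' fun j => forall_congr' fun hj => ?_
      have h4 : ex (fun j => w j.1) j = w j := dif_pos hj
      rw [h4]
    by_cases h4 : ∀ j, j ∉ S → e j = w j
    · rw [if_pos h4, if_pos (h3.1 h4)]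
    · rw [if_neg h4, if_neg fun h5 => h4 (h3.2 h5)]
  have h2 := LinearMap.finrank_range_add_finrank_ker Φ
  have h3 := Submodule.finrank_le (LinearMap.range Φ)
  rw [Module.finrank_fintype_fun_eq_card] at h2 h3
  have h4 := Submodule.finrank_mono h1
  rw [hp] at h4
  have h5 : Fintype.card ({j // j ∉ S} → Fin c) = c ^ (Fintype.card ι - S.card) := by
    rw [Fintype.card_fun, Fintype.card_fin, Fintype.card_subtype_compl, Fintype.card_coe]
  unfold Sys.size
  omega

theorem tens_sum_kinds {κ : Type} [Fintype κ] (m : κ → Finset ι) (g : Finset ι → ℕ) :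
    ∑ i, g (m i) = ∑ S, (univ.filter fun i => m i = S).card * g S := by
  classical
  have h1 : ∀ i, g (m i) = ∑ S, if m i = S then g S else 0 := fun i => by
    rw [Finset.sum_ite_eq univ (m i) g, if_pos (mem_univ _)]
  rw [Finset.sum_congr rfl fun i _ => h1 i, Finset.sum_comm]
  refine Finset.sum_congr rfl fun S _ => ?_
  rw [← Finset.sum_filter, Finset.sum_const, smul_eq_mul]

/-- At most the given numbers of points impose independent conditions. -/
theorem tens_indep (hW : 1 ≤ W) (hc : 1 ≤ c) (hdiv : W.factorial ∣ c) (w : Finset ι → ℕ)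
    (hsum : ∑ S, w S = W) (hint : Inter w) {κ : Type} [Fintype κ] (m : κ → Finset ι)
    (hcnt : ∀ S, (univ.filter fun i => m i = S).card * W ≤ w S * c ^ S.card) :
    (TSys ι c).gd m + ∑ i, c ^ (Fintype.card ι - (m i).card) = c ^ Fintype.card ι := by
  classical
  let n : Finset ι → ℕ := fun S =>
    w S * c ^ S.card / W - (univ.filter fun i => m i = S).card
  have hn : ∀ S, (univ.filter fun i => m i = S).card + n S = w S * c ^ S.card / W := by
    intro S
    have h1 := (Nat.le_div_iff_mul_le (show 0 < W by omega)).2 (hcnt S)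
    show _ + (w S * c ^ S.card / W - _) = _
    omega
  have hf : ∀ S, (univ.filter fun x : (Σ S : Finset ι, Fin (n S)) => x.1 = S).card = n S := by
    intro S
    rw [← Fintype.card_subtype]
    have h2 : {z : (Σ S : Finset ι, Fin (n S)) // z.1 = S} ≃ Fin (n S) :=
      { toFun := fun z => Fin.cast (congrArg n z.2) z.1.2
        invFun := fun v => ⟨⟨S, v⟩, rfl⟩
        left_inv := by
          rintro ⟨⟨T', v⟩, h⟩
          cases h
          rfl
        right_inv := fun v => rfl }
    rw [Fintype.card_congr h2, Fintype.card_fin]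
  have h1 : (TSys ι c).gd (Sum.elim m fun x : (Σ S : Finset ι, Fin (n S)) => x.1) = 0 := by
    refine tens_all ι c W hW hc hdiv w hsum hint _ _ fun S => ?_
    have h2 : (univ.filter fun y : κ ⊕ (Σ S : Finset ι, Fin (n S)) =>
        Sum.elim m (fun x => x.1) y = S).card =
        (univ.filter fun i => m i = S).card +
          (univ.filter fun x : (Σ S : Finset ι, Fin (n S)) => x.1 = S).card := by
      rw [Finset.card_filter, Fintype.sum_sum_type, Finset.card_filter, Finset.card_filter]
      rfl
    rw [h2, hf, hn]
    exact Nat.div_mul_cancel (tens_dvd hW hdiv w hsum hint S)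
  have h2 := tens_gd_le_add (TSys ι c) m (Σ S : Finset ι, Fin (n S)) fun x => x.1
  rw [h1, zero_add] at h2
  have h3 := tens_gd_le_add (TSys ι c) (fun x : PEmpty => (x.elim : Finset ι)) κ m
  have h4 : (TSys ι c).gd (Sum.elim (fun x : PEmpty => (x.elim : Finset ι)) m) =
      (TSys ι c).gd m := by
    rw [← gd_comp_equiv (TSys ι c) (Equiv.emptySum PEmpty κ)]
    congr 1
    funext i
    rcases i with i | i
    · exact i.elim
    · rfl
  rw [gd_empty, h4, Fintype.card_fun, Fintype.card_fin] at h3
  have h5 : ∑ i, (TSys ι c).size (m i) ≤ ∑ i, c ^ (Fintype.card ι - (m i).card) :=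
    Finset.sum_le_sum fun i _ => tens_size hc (m i)
  have h6 : ∑ x : (Σ S : Finset ι, Fin (n S)), (TSys ι c).size x.1 ≤
      ∑ x : (Σ S : Finset ι, Fin (n S)), c ^ (Fintype.card ι - x.1.card) :=
    Finset.sum_le_sum fun i _ => tens_size hc i.1
  have h7 : ∑ i, c ^ (Fintype.card ι - (m i).card) +
      ∑ x : (Σ S : Finset ι, Fin (n S)), c ^ (Fintype.card ι - x.1.card) =
      c ^ Fintype.card ι := by
    rw [tens_sum_kinds m fun S => c ^ (Fintype.card ι - S.card),
      tens_sum_kinds (fun x : (Σ S : Finset ι, Fin (n S)) => x.1)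
        fun S => c ^ (Fintype.card ι - S.card), ← Finset.sum_add_distrib]
    refine Nat.eq_of_mul_eq_mul_right (show 0 < W by omega) ?_
    rw [Finset.sum_mul]
    have h8 : ∀ S : Finset ι, ((univ.filter fun i => m i = S).card *
        c ^ (Fintype.card ι - S.card) + (univ.filter fun x : (Σ S : Finset ι, Fin (n S)) =>
          x.1 = S).card * c ^ (Fintype.card ι - S.card)) * W = w S * c ^ Fintype.card ι := by
      intro S
      rw [hf, ← add_mul, hn, mul_right_comm,
        Nat.div_mul_cancel (tens_dvd hW hdiv w hsum hint S), mul_assoc, ← pow_add]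
      congr 2
      have := Finset.card_le_univ S
      omega
    rw [Finset.sum_congr rfl fun S _ => h8 S, ← Finset.sum_mul, hsum, mul_comm]
  omega

end main

end Pool.Agent.V7

end

section

/-!
# V7, block BETA, module Dir: directions

`exists_dir`: for every proper nonzero subspace `E` of `(ℂ^c)^{⊗ k}` there are a factor `i` and a
vector `x` such that the contraction `E → E ⌟ x` has rank greater than `dim E / c`.

`tele`: dimension of a subspace from its successive images.
-/

namespace Pool.Agent.V7.BE

open Finset Module Pool.Agent.V7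

/-! ### Telescoping -/

section tele

variable {V V' : Type*} [AddCommGroup V] [Module ℂ V] [AddCommGroup V'] [Module ℂ V']

/-- The successive kernels. -/
def cut (φ : ℕ → V →ₗ[ℂ] V') (E : Submodule ℂ V) : ℕ → Submodule ℂ V
  | 0 => E
  | n + 1 => cut φ E n ⊓ LinearMap.ker (φ n)

theorem mem_cut (φ : ℕ → V →ₗ[ℂ] V') (E : Submodule ℂ V) (n : ℕ) (v : V) :
    v ∈ cut φ E n ↔ v ∈ E ∧ ∀ a < n, φ a v = 0 := by
  induction n with
  | zero => simp [cut]
  | succ n ih =>
    rw [cut, Submodule.mem_inf, ih, LinearMap.mem_ker]
    constructor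
    · rintro ⟨⟨h1, h2⟩, h3⟩
      refine ⟨h1, fun a ha => ?_⟩
      rcases Nat.lt_succ_iff_lt_or_eq.1 ha with h | h
      · exact h2 a h
      · rw [h]
        exact h3
    · rintro ⟨h1, h2⟩
      exact ⟨⟨h1, fun a ha => h2 a (by omega)⟩, h2 n (by omega)⟩

theorem finrank_map_add (P : Submodule ℂ V) [FiniteDimensional ℂ P] (φ : V →ₗ[ℂ] V') :
    finrank ℂ (P.map φ) + finrank ℂ (P ⊓ LinearMap.ker φ : Submodule ℂ V) = finrank ℂ P := by
  have h := LinearMap.finrank_range_add_finrank_ker (φ.domRestrict P)
  have h1 : LinearMap.range (φ.domRestrict P) = P.map φ := by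
    ext x
    constructor
    · rintro ⟨v, rfl⟩
      exact ⟨v.1, v.2, rfl⟩
    · rintro ⟨v, hv, rfl⟩
      exact ⟨⟨v, hv⟩, rfl⟩
  have h2 : finrank ℂ (LinearMap.ker (φ.domRestrict P)) =
      finrank ℂ (P ⊓ LinearMap.ker φ : Submodule ℂ V) := by
    have h3 : (LinearMap.ker (φ.domRestrict P)).map P.subtype = P ⊓ LinearMap.ker φ := by
      ext x
      constructor
      · rintro ⟨v, hv, rfl⟩
        exact ⟨v.2, hv⟩
      · rintro ⟨hx, hx'⟩
        exact ⟨⟨x, hx⟩, hx', rfl⟩
    rw [← h3]
    exact (LinearEquiv.finrank_eq (Submodule.equivMapOfInjective P.subtype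
      P.injective_subtype _))
  rw [h1, h2] at h
  exact h

theorem tele [FiniteDimensional ℂ V] (φ : ℕ → V →ₗ[ℂ] V') (E : Submodule ℂ V) (n : ℕ) :
    finrank ℂ E = ∑ a ∈ range n, finrank ℂ ((cut φ E a).map (φ a)) + finrank ℂ (cut φ E n) := by
  induction n with
  | zero =>
    rw [range_zero, sum_empty, zero_add]
    rfl
  | succ n ih =>
    rw [sum_range_succ, add_assoc, cut, finrank_map_add (cut φ E n) (φ n)]
    exact ih

end tele

/-! ### Directions -/

section dir

variable {ι : Type} [Fintype ι] [DecidableEq ι] {c : ℕ}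

/-- The tensor `e_a ⊗ w` (slot `i`), for `w` independent of the slot `i`. -/
noncomputable def ep (i : ι) (a : Fin c) : ((ι → Fin c) → ℂ) →ₗ[ℂ] ((ι → Fin c) → ℂ) where
  toFun w s := if s i = a then w s else 0
  map_add' v w := by
    funext s
    simp only [Pi.add_apply]
    split_ifs <;> simp
  map_smul' x v := by
    funext s
    simp only [Pi.smul_apply, smul_eq_mul, RingHom.id_apply]
    split_ifs <;> simp

theorem ep_apply (i : ι) (a : Fin c) (w : (ι → Fin c) → ℂ) (s : ι → Fin c) :
    ep i a w s = if s i = a then w s else 0 := rfl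

theorem Dk_single (i : ι) (a : Fin c) (v : (ι → Fin c) → ℂ) (s : ι → Fin c) :
    Dk i (Pi.single a 1) v s = v (Function.update s i a) := by
  rw [Dk_apply, sum_eq_single a]
  · simp
  · intro b _ hb
    rw [Pi.single_eq_of_ne hb, zero_mul]
  · intro h
    exact absurd (mem_univ a) h

theorem sum_ep (i : ι) (v : (ι → Fin c) → ℂ) :
    ∑ a, ep i a (Dk i (Pi.single a 1) v) = v := by
  funext s
  rw [Finset.sum_apply, sum_eq_single (s i)]
  · rw [ep_apply, if_pos rfl, Dk_single, Function.update_eq_self]
  · intro b _ hb
    rw [ep_apply, if_neg hb.symm]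
  · intro h
    exact absurd (mem_univ _) h

theorem Dk_ep (i : ι) (x : Fin c → ℂ) (a : Fin c) (w : (ι → Fin c) → ℂ)
    (hw : ∀ s b, w (Function.update s i b) = w s) :
    Dk i x (ep i a w) = x a • w := by
  funext s
  rw [Dk_apply, sum_eq_single a]
  · rw [ep_apply, Function.update_self, if_pos rfl, hw, Pi.smul_apply, smul_eq_mul]
  · intro b _ hb
    rw [ep_apply, Function.update_self, if_neg hb, mul_zero]
  · intro h
    exact absurd (mem_univ _) h

/-- If contraction never has rank greater than `dim E / c` then `E` is saturated in the factor. -/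
theorem closed_of_le (hc : 0 < c) (E : Submodule ℂ ((ι → Fin c) → ℂ)) (i : ι)
    (h : ∀ x : Fin c → ℂ, x ≠ 0 → c * finrank ℂ (E.map (Dk i x)) ≤ finrank ℂ E)
    (a b : Fin c) {v : (ι → Fin c) → ℂ} (hv : v ∈ E) : ep i a (Dk i (Pi.single b 1) v) ∈ E := by
  classical
  set Ea : Fin c → Submodule ℂ ((ι → Fin c) → ℂ) := fun a => E.map (Dk i (Pi.single a 1)) with hEa
  set F := E.map (Dk i (fun _ : Fin c => (1 : ℂ))) with hF
  have hne : ∀ a : Fin c, (Pi.single a 1 : Fin c → ℂ) ≠ 0 := fun a h => by
    have := congrFun h a
    simp at this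
  have hne1 : (fun _ : Fin c => (1 : ℂ)) ≠ 0 := fun h => by
    have := congrFun h ⟨0, hc⟩
    simp at this
  have h1 : ∀ a, c * finrank ℂ (Ea a) ≤ finrank ℂ E := fun a => h _ (hne a)
  have h2 : c * finrank ℂ F ≤ finrank ℂ E := h _ hne1
  let L : (∀ a, Ea a) →ₗ[ℂ] ((ι → Fin c) → ℂ) :=
    ∑ a, (ep i a) ∘ₗ (Ea a).subtype ∘ₗ LinearMap.proj a
  have hL : ∀ w, L w = ∑ a, ep i a (w a : (ι → Fin c) → ℂ) := by
    intro w
    simp [L, LinearMap.sum_apply]
  have hEL : E ≤ LinearMap.range L := by
    intro u hu
    refine ⟨fun a => ⟨Dk i (Pi.single a 1) u, ⟨u, hu, rfl⟩⟩, ?_⟩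
    rw [hL]
    exact sum_ep i u
  have hdim : finrank ℂ (∀ a, Ea a) = ∑ a, finrank ℂ (Ea a) := Module.finrank_pi_fintype ℂ
  have hsum : ∑ a, finrank ℂ (Ea a) ≤ finrank ℂ E := by
    have : c * ∑ a, finrank ℂ (Ea a) ≤ c * finrank ℂ E := by
      rw [mul_sum]
      calc ∑ a, c * finrank ℂ (Ea a) ≤ ∑ _a : Fin c, finrank ℂ E := sum_le_sum fun a _ => h1 a
        _ = c * finrank ℂ E := by simp
    exact Nat.le_of_mul_le_mul_left this hc
  have hrange : finrank ℂ (LinearMap.range L) ≤ finrank ℂ E := by
    have := LinearMap.finrank_range_le L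
    omega
  have hEq : E = LinearMap.range L := Submodule.eq_of_le_of_finrank_le hEL hrange
  have hge : finrank ℂ E ≤ ∑ a, finrank ℂ (Ea a) := by
    have := LinearMap.finrank_range_le L
    rw [← hEq] at this
    omega
  have hep : ∀ a, ∀ w ∈ Ea a, ep i a w ∈ E := by
    intro a w hw
    rw [hEq]
    refine ⟨Pi.single a ⟨w, hw⟩, ?_⟩
    rw [hL, sum_eq_single a]
    · simp
    · intro b _ hb
      rw [Pi.single_eq_of_ne hb]
      simp
    · intro h
      exact absurd (mem_univ _) h
  have hindep : ∀ a, ∀ w ∈ Ea a, ∀ s b, w (Function.update s i b) = w s := by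
    rintro a w ⟨u, _, rfl⟩ s b
    exact Dk_update i _ u s b
  have hle : ∀ a, Ea a ≤ F := by
    intro a w hw
    refine ⟨ep i a w, hep a w hw, ?_⟩
    rw [Dk_ep i _ a w (hindep a w hw), one_smul]
  have hle' : ∀ a, finrank ℂ (Ea a) ≤ finrank ℂ F := fun a => Submodule.finrank_mono (hle a)
  have hall : ∀ a, finrank ℂ (Ea a) = finrank ℂ F := by
    intro a
    by_contra hcon
    have hlt : finrank ℂ (Ea a) < finrank ℂ F := lt_of_le_of_ne (hle' a) hcon
    have : ∑ a, finrank ℂ (Ea a) < ∑ _a : Fin c, finrank ℂ F :=
      sum_lt_sum (fun a _ => hle' a) ⟨a, mem_univ a, hlt⟩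
    rw [sum_const, card_univ, Fintype.card_fin, smul_eq_mul] at this
    omega
  have hEF : ∀ a, Ea a = F := fun a => Submodule.eq_of_le_of_finrank_eq (hle a) (hall a)
  apply hep a
  rw [hEF a, ← hEF b]
  exact ⟨v, hv, rfl⟩

/-- A nonzero subspace which is saturated in all factors is everything. -/
theorem eq_top_of_closed (E : Submodule ℂ ((ι → Fin c) → ℂ)) (h0 : E ≠ ⊥)
    (h : ∀ (i : ι) (a b : Fin c), ∀ v ∈ E, ep i a (Dk i (Pi.single b 1) v) ∈ E) : E = ⊤ := by
  classical
  obtain ⟨v, hv, hv0⟩ := (Submodule.ne_bot_iff E).1 h0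
  obtain ⟨s0, hs0⟩ : ∃ s, v s ≠ 0 := by
    by_contra hcon
    push Not at hcon
    exact hv0 (funext hcon)
  have key : ∀ (t : ι → Fin c) (I : Finset ι), (fun s : ι → Fin c =>
      if ∀ i ∈ I, s i = t i then v (fun j => if j ∈ I then s0 j else s j) else 0) ∈ E := by
    intro t I
    induction I using Finset.induction_on with
    | empty => simpa using hv
    | insert i I hi ih =>
      have h1 := h i (t i) (s0 i) _ ih
      have h2 : ep i (t i) (Dk i (Pi.single (s0 i) 1) (fun s : ι → Fin c =>
          if ∀ i ∈ I, s i = t i then v (fun j => if j ∈ I then s0 j else s j) else 0)) =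
          fun s : ι → Fin c => if ∀ i' ∈ insert i I, s i' = t i' then
            v (fun j => if j ∈ insert i I then s0 j else s j) else 0 := by
        funext s
        rw [ep_apply, Dk_single]
        by_cases hsi : s i = t i
        · rw [if_pos hsi]
          by_cases hI : ∀ i' ∈ I, s i' = t i'
          · have e1 : ∀ i' ∈ I, Function.update s i (s0 i) i' = t i' := by
              intro i' hi'
              rw [Function.update_of_ne]
              · exact hI i' hi'
              · rintro rfl
                exact hi hi'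
            have e2 : ∀ i' ∈ insert i I, s i' = t i' := by
              intro i' hi'
              rcases mem_insert.1 hi' with h | h
              · rw [h]
                exact hsi
              · exact hI i' h
            rw [if_pos e1, if_pos e2]
            congr 1
            funext j
            by_cases hj : j = i
            · subst hj
              rw [if_neg hi, if_pos (mem_insert_self _ _), Function.update_self]
            · by_cases hjI : j ∈ I
              · rw [if_pos hjI, if_pos (mem_insert_of_mem hjI)]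
              · rw [if_neg hjI, if_neg, Function.update_of_ne hj]
                intro h
                rcases mem_insert.1 h with h | h
                · exact hj h
                · exact hjI h
          · rw [if_neg, if_neg]
            · intro h
              exact hI fun i' hi' => h i' (mem_insert_of_mem hi')
            · intro h
              apply hI
              intro i' hi'
              have := h i' hi'
              rwa [Function.update_of_ne] at this
              rintro rfl
              exact hi hi'
        · rw [if_neg hsi, if_neg]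
          intro h
          exact hsi (h i (mem_insert_self _ _))
      rw [h2] at h1
      exact h1
  rw [eq_top_iff]
  intro w _
  have hsing : ∀ t, (Pi.single t 1 : (ι → Fin c) → ℂ) ∈ E := by
    intro t
    have h1 := key t univ
    have h2 : (fun s : ι → Fin c => if ∀ i ∈ (univ : Finset ι), s i = t i then
        v (fun j => if j ∈ (univ : Finset ι) then s0 j else s j) else 0) =
        v s0 • (Pi.single t 1 : (ι → Fin c) → ℂ) := by
      funext s
      by_cases hst : s = t
      · subst hst
        simp
      · rw [if_neg, Pi.smul_apply, Pi.single_eq_of_ne hst, smul_zero]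
        intro h
        exact hst (funext fun i => h i (mem_univ i))
    rw [h2] at h1
    have h3 := E.smul_mem (v s0)⁻¹ h1
    rwa [smul_smul, inv_mul_cancel₀ hs0, one_smul] at h3
  rw [pi_eq_sum_univ w]
  refine E.sum_mem fun t _ => ?_
  have h1 := E.smul_mem (w t) (hsing t)
  convert h1 using 1
  congr 1
  funext s
  by_cases hst : t = s
  · subst hst
    simp
  · rw [if_neg hst, Pi.single_eq_of_ne (Ne.symm hst)]

theorem exists_dir (hc : 0 < c) (E : Submodule ℂ ((ι → Fin c) → ℂ)) (h0 : E ≠ ⊥) (h1 : E ≠ ⊤) :
    ∃ (i : ι) (x : Fin c → ℂ), x ≠ 0 ∧ finrank ℂ E < c * finrank ℂ (E.map (Dk i x)) := by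
  by_contra hcon
  push Not at hcon
  exact h1 (eq_top_of_closed E h0 fun i a b v hv =>
    closed_of_le hc E i (fun x hx => hcon i x hx) a b hv)

end dir

end Pool.Agent.V7.BE

end

section

/-!
# V7, block BETA, module Rest: tensors which do not depend on one slot
-/

namespace Pool.Agent.V7.BE

open Finset Module Pool.Agent.V7

variable {ι : Type} [Fintype ι] [DecidableEq ι] {c : ℕ}

/-- The embedding of the remaining slots. -/
abbrev em (i : ι) : {j : ι // j ≠ i} ↪ ι := Function.Embedding.subtype _

/-- Restriction of an index to the remaining slots. -/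
def rs (i : ι) (e : ι → Fin c) : {j : ι // j ≠ i} → Fin c := fun j => e j.1

/-- Extension of an index by the value `b` in the slot `i`. -/
def ex (i : ι) (b : Fin c) (e : {j : ι // j ≠ i} → Fin c) : ι → Fin c :=
  fun j => if h : j = i then b else e ⟨j, h⟩

theorem rs_ex (i : ι) (b : Fin c) (e : {j : ι // j ≠ i} → Fin c) : rs i (ex i b e) = e := by
  funext j
  unfold rs ex
  rw [dif_neg j.2]

theorem ex_rs (i : ι) (b : Fin c) (e : ι → Fin c) : ex i b (rs i e) = Function.update e i b := by
  funext j
  unfold rs ex
  by_cases h : j = i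
  · subst h
    simp
  · rw [dif_neg h, Function.update_of_ne h]

/-- The tensor on the remaining slots. -/
def down (i : ι) (b : Fin c) (H : (ι → Fin c) → ℂ) : ({j : ι // j ≠ i} → Fin c) → ℂ :=
  fun e => H (ex i b e)

theorem down_apply (i : ι) (b : Fin c) {H : (ι → Fin c) → ℂ}
    (hH : ∀ e b', H (Function.update e i b') = H e) (e : ι → Fin c) :
    down i b H (rs i e) = H e := by
  unfold down
  rw [ex_rs, hH]

/-- Contraction in the remaining slots. -/
theorem ctr_down (i : ι) (b : Fin c) {H : (ι → Fin c) → ℂ}
    (hH : ∀ e b', H (Function.update e i b') = H e) (S : Finset {j : ι // j ≠ i})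
    (q : ι × Fin c → ℂ) (p : {j : ι // j ≠ i} × Fin c → ℂ)
    (hpq : ∀ j x, p (j, x) = q (j.1, x)) (w : ι → Fin c) :
    ctr (S.map (em i)) q H w = ctr S p (down i b H) (rs i w) := by
  rw [ctr_eq, ctr_eq]
  refine sum_nbij' (fun e => rs i e) (fun e => ex i (w i) e) ?_ ?_ ?_ ?_ ?_
  · intro e he
    rw [mem_filter] at he ⊢
    refine ⟨mem_univ _, fun j hj => ?_⟩
    refine he.2 j.1 fun h => hj ?_
    rw [mem_map] at h
    obtain ⟨j', hj', h2⟩ := h
    rwa [show j' = j from Subtype.ext h2] at hj'
  · intro e he
    rw [mem_filter] at he ⊢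
    refine ⟨mem_univ _, fun j hj => ?_⟩
    unfold ex
    by_cases h : j = i
    · rw [dif_pos h, h]
    · rw [dif_neg h]
      refine he.2 ⟨j, h⟩ fun h2 => hj ?_
      exact mem_map.2 ⟨⟨j, h⟩, h2, rfl⟩
  · intro e he
    rw [mem_filter] at he
    have h1 : e i = w i := by
      refine he.2 i fun h => ?_
      rw [mem_map] at h
      obtain ⟨j', _, h2⟩ := h
      exact j'.2 h2
    rw [ex_rs, ← h1, Function.update_eq_self]
  · intro e _
    exact rs_ex i _ e
  · intro e _
    rw [down_apply i b hH, prod_map]
    congr 1
    refine prod_congr rfl fun j _ => ?_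
    rw [hpq]
    rfl

theorem mem_map_em (i : ι) (S : Finset {j : ι // j ≠ i}) : i ∉ S.map (em i) := by
  intro h
  rw [mem_map] at h
  obtain ⟨j', _, h2⟩ := h
  exact j'.2 h2

/-- The set in the remaining slots. -/
def sub (i : ι) (S : Finset ι) : Finset {j : ι // j ≠ i} := S.subtype fun j => j ≠ i

theorem sub_map (i : ι) (S : Finset {j : ι // j ≠ i}) : sub i (S.map (em i)) = S := by
  ext j
  unfold sub
  rw [mem_subtype, mem_map]
  constructor
  · rintro ⟨j', hj', h2⟩
    rwa [show j' = j from Subtype.ext h2] at hj'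
  · intro h
    exact ⟨j, h, rfl⟩

theorem sub_insert (i : ι) (S : Finset {j : ι // j ≠ i}) : sub i (insert i (S.map (em i))) = S := by
  ext j
  unfold sub
  rw [mem_subtype, mem_insert, mem_map]
  constructor
  · rintro (h | ⟨j', hj', h2⟩)
    · exact absurd h j.2
    · rwa [show j' = j from Subtype.ext h2] at hj'
  · intro h
    exact Or.inr ⟨j, h, rfl⟩

/-- `ctr` does not depend on the index inside `S`. -/
theorem ctr_congr (S : Finset ι) (q : ι × Fin c → ℂ) (F : (ι → Fin c) → ℂ) {w w' : ι → Fin c}
    (h : ∀ j, j ∉ S → w j = w' j) : ctr S q F w = ctr S q F w' := by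
  rw [ctr_eq, ctr_eq]
  congr 1
  ext e
  rw [mem_filter, mem_filter]
  constructor
  · rintro ⟨h1, h2⟩
    exact ⟨h1, fun j hj => (h2 j hj).trans (h j hj)⟩
  · rintro ⟨h1, h2⟩
    exact ⟨h1, fun j hj => (h2 j hj).trans (h j hj).symm⟩

section slots

variable {k M : ℕ}

theorem notMem_S0 (j : Fin k) : (Sum.inl j : Slot k M) ∉ S0 k M := by
  unfold S0
  simp

theorem mem_S0 (j : Fin M) : (Sum.inr j : Slot k M) ∈ S0 k M := by
  unfold S0
  simp

theorem card_S0 : (S0 k M).card = M := by
  have : S0 k M = univ.map (Function.Embedding.inr : Fin M ↪ Slot k M) := by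
    ext j
    rcases j with j | j
    · simp [S0]
    · simp [S0]
  rw [this, card_map, card_univ, Fintype.card_fin]

/-- Contraction with a point of kind `S₀` in terms of the `z`-indices. -/
theorem ctr_S0 (q : Slot k M × Fin c → ℂ) (F : (Slot k M → Fin c) → ℂ) (s : Fin k → Fin c)
    (u₀ : Fin M → Fin c) :
    ctr (S0 k M) q F (Sum.elim s u₀) =
      ∑ u : Fin M → Fin c, (∏ j, q (Sum.inr j, u j)) * F (Sum.elim s u) := by
  rw [ctr_eq]
  refine sum_nbij' (fun e j => e (Sum.inr j)) (fun u => Sum.elim s u) ?_ ?_ ?_ ?_ ?_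
  · intro e _
    exact mem_univ _
  · intro u _
    rw [mem_filter]
    refine ⟨mem_univ _, ?_⟩
    rintro (j | j) hj
    · rfl
    · exact absurd (mem_S0 j) hj
  · intro e he
    rw [mem_filter] at he
    funext j
    rcases j with j | j
    · exact (he.2 (Sum.inl j) (notMem_S0 j)).symm
    · rfl
  · intro u _
    rfl
  · intro e he
    rw [mem_filter] at he
    have e1 : e = Sum.elim s fun j => e (Sum.inr j) := by
      funext j
      rcases j with j | j
      · exact he.2 (Sum.inl j) (notMem_S0 j)
      · rfl
    have e2 : ∏ j ∈ S0 k M, q (j, e j) = ∏ j : Fin M, q (Sum.inr j, e (Sum.inr j)) := by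
      have : S0 k M = univ.map (Function.Embedding.inr : Fin M ↪ Slot k M) := by
        ext j
        rcases j with j | j
        · simp [S0]
        · simp [S0]
      rw [this, prod_map]
      rfl
    rw [e2, ← e1]

/-- The `E`-part of a contraction in the slot `inl i`. -/
theorem Dk_elim (i : Fin k) (y : Fin c → ℂ) (G : (Slot k M → Fin c) → ℂ) (u : Fin M → Fin c) :
    (fun s => Dk (Sum.inl i) y G (Sum.elim s u)) = Dk i y (fun s => G (Sum.elim s u)) := by
  funext s
  rw [Dk_apply, Dk_apply]
  refine sum_congr rfl fun b _ => ?_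
  congr 2
  funext j
  rcases j with j | j
  · by_cases h : j = i
    · subst h
      simp
    · rw [Function.update_of_ne (by simpa using h)]
      simp [Function.update_of_ne h]
  · rw [Function.update_of_ne (by simp)]
    rfl

end slots

end Pool.Agent.V7.BE

end

section

/-!
# V7, block BETA, module Wts: weights of the slices, distribution of the kinds
-/

namespace Pool.Agent.V7.BE

open Finset Module Pool.Agent.V7

/-- `W = 2 binom(2M-1, M)`. -/
def Wt (M : ℕ) : ℕ := 2 * (2 * M - 1).choose M

/-- The number of kinds `S'` of pure slices. -/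
def K1 (M : ℕ) : ℕ := (2 * M - 2).choose (M - 1)

/-- Weights of a slice: `M`-subsets get `2` (`S₀`: `z`), `T` (of cardinality `M - 1`) gets `x`. -/
def wS {ρ : Type} [DecidableEq ρ] (M : ℕ) (S₀ T : Finset ρ) (x z : ℕ) (S : Finset ρ) : ℕ :=
  if S = S₀ then z else if S.card = M then 2 else if S = T then x else 0

theorem sum_wS {ρ : Type} [Fintype ρ] [DecidableEq ρ] {M : ℕ} (hM : 2 ≤ M)
    (hρ : Fintype.card ρ = 2 * M - 2) {S₀ T : Finset ρ} (h0 : S₀.card = M) (hT : T.card = M - 1)
    {x z : ℕ} (hxz : x + z = 2 * K1 M + 2) : ∑ S, wS M S₀ T x z S = Wt M := by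
  classical
  have h1 : ∑ S, wS M S₀ T x z S =
      ∑ S, ((if S = S₀ then z else 0) + (if S.card = M ∧ S ≠ S₀ then 2 else 0) +
        (if S = T then x else 0)) := by
    refine sum_congr rfl fun S _ => ?_
    unfold wS
    by_cases hS : S = S₀
    · subst hS
      have : S ≠ T := fun h => by
        rw [h] at h0
        omega
      simp [this]
    · by_cases hc : S.card = M
      · have : S ≠ T := fun h => by
          rw [h] at hc
          omega
        simp [hS, hc, this]
      · simp [hS, hc]
  rw [h1, sum_add_distrib, sum_add_distrib, sum_ite_eq' univ S₀, if_pos (mem_univ _),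
    sum_ite_eq' univ T, if_pos (mem_univ _)]
  have h2 : ∑ S : Finset ρ, (if S.card = M ∧ S ≠ S₀ then 2 else 0) =
      2 * ((2 * M - 2).choose M - 1) := by
    rw [← sum_filter, sum_const, smul_eq_mul, mul_comm]
    congr 1
    have : (univ.filter fun S : Finset ρ => S.card = M ∧ S ≠ S₀) =
        ((univ : Finset ρ).powersetCard M).erase S₀ := by
      ext S
      simp [mem_powersetCard, and_comm]
    rw [this, card_erase_of_mem, card_powersetCard, card_univ, hρ]
    rw [mem_powersetCard]
    exact ⟨subset_univ _, h0⟩
  rw [h2]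
  have h3 : (2 * M - 1).choose M = (2 * M - 2).choose (M - 1) + (2 * M - 2).choose M := by
    obtain ⟨m, rfl⟩ : ∃ m, M = m + 2 := ⟨M - 2, by omega⟩
    have e1 : 2 * (m + 2) - 1 = (2 * m + 2) + 1 := by omega
    have e2 : 2 * (m + 2) - 2 = 2 * m + 2 := by omega
    have e3 : m + 2 - 1 = m + 1 := by omega
    rw [e1, e2, e3]
    exact Nat.choose_succ_succ (2 * m + 2) (m + 1)
  have h4 : 0 < (2 * M - 2).choose M := Nat.choose_pos (by omega)
  unfold Wt
  rw [h3]
  unfold K1 at hxz
  omega

theorem inter_wS {ρ : Type} [Fintype ρ] [DecidableEq ρ] {M : ℕ} (hM : 2 ≤ M)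
    (hρ : Fintype.card ρ = 2 * M - 2) {S₀ T : Finset ρ} (h0 : S₀.card = M) (hT : T.card = M - 1)
    {x z : ℕ} : Inter (wS M S₀ T x z) := by
  intro S S' hS hS'
  left
  have key : ∀ S, wS M S₀ T x z S ≠ 0 → S.card = M ∨ S = T := by
    intro S hS
    unfold wS at hS
    split_ifs at hS with h1 h2 h3
    · left
      rw [h1, h0]
    · left
      exact h2
    · right
      exact h3
    · exact absurd rfl hS
  have hcard : ∀ S, wS M S₀ T x z S ≠ 0 → M - 1 ≤ S.card := by
    intro S hS
    rcases key S hS with h | h
    · omega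
    · rw [h, hT]
  by_contra hcon
  rw [not_nonempty_iff_eq_empty, ← disjoint_iff_inter_eq_empty] at hcon
  have h1 := card_union_of_disjoint hcon
  have h2 : (S ∪ S').card ≤ 2 * M - 2 := by
    rw [← hρ, ← card_univ]
    exact card_le_card (subset_univ _)
  have h3 := hcard S hS
  have h4 := hcard S' hS'
  rcases key S hS with h | h
  · omega
  · rcases key S' hS' with h' | h'
    · omega
    · rw [h, h', disjoint_self_iff_empty] at hcon
      rw [hcon, card_empty] at hT
      omega

/-- Distribution of the slices `Fin c` to the kinds `X`, equally often, with `a ≠ a'` of the same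
kind. -/
theorem exists_dist {X : Type} [Fintype X] [DecidableEq X] {c m : ℕ} (hc : c = Fintype.card X * m)
    (hm : 2 ≤ m) (a a' : Fin c) (ha : a ≠ a') :
    ∃ σ : Fin c → X, σ a = σ a' ∧ ∀ x, (univ.filter fun b => σ b = x).card = m := by
  classical
  let e : Fin c ≃ X × Fin m := Fintype.equivOfCardEq (by
    rw [Fintype.card_fin, Fintype.card_prod, Fintype.card_fin, hc])
  obtain ⟨j, hj⟩ : ∃ j : Fin m, j ≠ (e a).2 := by
    have : Nontrivial (Fin m) := Fin.nontrivial_iff_two_le.2 hm
    exact exists_ne _
  let z : X × Fin m := ((e a).1, j)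
  have hz : z ≠ e a := by
    intro h
    exact hj (congrArg Prod.snd h)
  let e' : Fin c ≃ X × Fin m := e.trans (Equiv.swap (e a') z)
  have h1 : e' a = e a := by
    show Equiv.swap (e a') z (e a) = e a
    refine Equiv.swap_apply_of_ne_of_ne ?_ hz.symm
    intro h
    exact ha (e.injective h)
  have h2 : e' a' = z := by
    show Equiv.swap (e a') z (e a') = z
    exact Equiv.swap_apply_left _ _
  refine ⟨fun b => (e' b).1, ?_, fun x => ?_⟩
  · show (e' a).1 = (e' a').1
    rw [h1, h2]
  · have : (univ.filter fun b => (e' b).1 = x) = univ.map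
        ((⟨fun i : Fin m => e'.symm (x, i), fun i i' h => by
          have := e'.symm.injective h
          exact congrArg Prod.snd this⟩ : Fin m ↪ Fin c)) := by
      ext b
      rw [mem_filter, mem_map]
      constructor
      · rintro ⟨_, h⟩
        refine ⟨(e' b).2, mem_univ _, ?_⟩
        show e'.symm (x, (e' b).2) = b
        rw [← h]
        exact e'.symm_apply_apply b
      · rintro ⟨i, _, rfl⟩
        refine ⟨mem_univ _, ?_⟩
        show (e' (e'.symm (x, i))).1 = x
        rw [e'.apply_symm_apply]
    rw [this, card_map, card_univ, Fintype.card_fin]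

/-- The arithmetic of the numbers of points. -/
theorem arith {M c : ℕ} (hM : 2 ≤ M) (hc : 0 < c) (hdiv : (Wt M).factorial ∣ c) :
    ∃ v₀ u₀ m : ℕ, 0 < u₀ ∧ 2 ≤ m ∧ c = K1 M * m ∧ c ^ (M - 1) = Wt M * v₀ ∧
      c ^ M = Wt M * u₀ ∧ lam M c = 2 * u₀ ∧ m * (2 * K1 M * v₀) = lam M c := by
  have hC : 0 < (2 * M - 1).choose M := Nat.choose_pos (by omega)
  have hW : 0 < Wt M := by
    unfold Wt
    omega
  have hWc : Wt M ∣ c := dvd_trans (Nat.dvd_factorial hW le_rfl) hdiv
  have hK : 0 < K1 M := Nat.choose_pos (by omega)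
  have hKC : K1 M ≤ (2 * M - 1).choose M := by
    unfold K1
    obtain ⟨m, rfl⟩ : ∃ m, M = m + 2 := ⟨M - 2, by omega⟩
    have e1 : 2 * (m + 2) - 1 = (2 * m + 2) + 1 := by omega
    have e2 : 2 * (m + 2) - 2 = 2 * m + 2 := by omega
    have e3 : m + 2 - 1 = m + 1 := by omega
    rw [e1, e2, e3, Nat.choose_succ_succ (2 * m + 2) (m + 1)]
    omega
  have hKW : 2 * K1 M ≤ Wt M := by
    unfold Wt
    omega
  have hKc : 2 * K1 M ∣ c := dvd_trans (Nat.dvd_factorial (by omega) hKW) hdiv
  obtain ⟨m', hm'⟩ := hKc
  have hm'0 : 0 < m' := by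
    rcases Nat.eq_zero_or_pos m' with h | h
    · rw [h, mul_zero] at hm'
      omega
    · exact h
  obtain ⟨v₀, hv₀⟩ : Wt M ∣ c ^ (M - 1) := dvd_pow hWc (by omega)
  have hpow : c ^ M = c * c ^ (M - 1) := by
    obtain ⟨m, rfl⟩ : ∃ m, M = m + 1 := ⟨M - 1, by omega⟩
    rw [Nat.add_sub_cancel, pow_succ, mul_comm]
  have hu : c ^ M = Wt M * (c * v₀) := by
    rw [hpow, hv₀]
    ring
  have hv0 : 0 < v₀ := by
    rcases Nat.eq_zero_or_pos v₀ with h | h
    · rw [h, mul_zero] at hv₀
      have := pow_pos hc (M - 1)
      omega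
    · exact h
  have hlam : lam M c = 2 * (c * v₀) := by
    unfold lam
    rw [hu]
    unfold Wt
    rw [show 2 * (2 * M - 1).choose M * (c * v₀) = (2 * M - 1).choose M * (2 * (c * v₀)) by ring]
    exact Nat.mul_div_cancel_left _ hC
  refine ⟨v₀, c * v₀, 2 * m', Nat.mul_pos hc hv0, by omega, ?_, hv₀, hu, hlam, ?_⟩
  · rw [hm']
    ring
  · rw [hlam]
    calc 2 * m' * (2 * K1 M * v₀) = 2 * ((2 * K1 M * m') * v₀) := by ring
      _ = 2 * (c * v₀) := by rw [← hm']

end Pool.Agent.V7.BE

end
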