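import Pool.Agent.H94.LP5.M06
import Pool.Agent.H94.LP5.M14
import Pool.Agent.H94.LP5.M15

/-! The parts of this file: V7.BE.Slice, V7.BE.Gen, V7.Num.Ms. -/

section

/-!
# V7, block BETA, module Slice: semistability and strictness

`KE_le`: if `ω` together with `lam` points of kind `S₀` kills every tensor then
`finrank (KE ω E) ≤ lam * finrank E` for all `E`.

`strict`: for every `E ≠ ⊥, ⊤` there is a configuration `ω` with
`finrank (KE ω E) < lam * finrank E`.

Proof of `strict`: choose `i`, `x` with `c * finrank (E ⌟ x) > finrank E` (`exists_dir`), complete `x`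
to a basis `y_0 = x, y_1, ...` of the `i`-th factor, filter `E` by the `E_a`.  The points with a
factor in the slot `i` get this factor in `{y_a}`; the slices decouple; the slice `a` is pure of a
kind `σ a`; the slices `0` and `a₀` (of the same kind) exchange points.
-/

namespace Pool.Agent.V7.BE

open Finset Module Pool.Agent.V7 Pool.Agent.H51.TB

/-- The exactness of tensor systems of total weight `W` (helper18's lemma). -/
def TK (c W : ℕ) : Prop :=
  ∀ (ι : Type) [Fintype ι] [DecidableEq ι] (w : Finset ι → ℕ), ∑ S, w S = W → Inter w →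
    (TSys ι c).gd (fun x : TIdx ι c W w => x.1) = 0

variable {k M c : ℕ}

/-- Exactness of a configuration together with auxiliary points of kind `S₀`. -/
def Exact (ω : Pts k M c) (l : Fin (lam M c) → Slot k M × Fin c → ℂ) : Prop :=
  ∀ G : (Slot k M → Fin c) → ℂ,
    (∀ S : Finset (Slot k M), S.card = M → S ≠ S0 k M → ∀ t w, ctr S (ω S t) G w = 0) →
    (∀ t w, ctr (S0 k M) (l t) G w = 0) → G = 0

/-- Auxiliary points of kind `S₀` bound the dimension. -/
theorem finrank_le_aux (hc : 0 < c) {L : ℕ} (l : Fin L → Slot k M × Fin c → ℂ)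
    (V : Submodule ℂ ((Slot k M → Fin c) → ℂ)) (F : Submodule ℂ ((Fin k → Fin c) → ℂ))
    (hVF : ∀ H ∈ V, ∀ u : Fin M → Fin c, (fun s => H (Sum.elim s u)) ∈ F)
    (hinj : ∀ H ∈ V, (∀ t w, ctr (S0 k M) (l t) H w = 0) → H = 0) :
    finrank ℂ V ≤ L * finrank ℂ F := by
  let u₀ : Fin M → Fin c := fun _ => ⟨0, hc⟩
  have hmem : ∀ (H : V) (t : Fin L), (fun s => ctr (S0 k M) (l t) H.1 (Sum.elim s u₀)) ∈ F := by
    intro H t
    have : (fun s => ctr (S0 k M) (l t) H.1 (Sum.elim s u₀)) =
        ∑ u : Fin M → Fin c, (∏ j, l t (Sum.inr j, u j)) • (fun s => H.1 (Sum.elim s u)) := by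
      funext s
      rw [ctr_S0, Finset.sum_apply]
      rfl
    rw [this]
    exact F.sum_mem fun u _ => F.smul_mem _ (hVF H.1 H.2 u)
  let Ψ : V →ₗ[ℂ] (Fin L → F) :=
    { toFun := fun H t => ⟨fun s => ctr (S0 k M) (l t) H.1 (Sum.elim s u₀), hmem H t⟩
      map_add' := by
        intro H H'
        funext t
        apply Subtype.ext
        funext s
        exact congrFun ((ctrL (S0 k M) (l t)).map_add H.1 H'.1) (Sum.elim s u₀)
      map_smul' := by
        intro x H
        funext t
        apply Subtype.ext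
        funext s
        exact congrFun ((ctrL (S0 k M) (l t)).map_smul x H.1) (Sum.elim s u₀) }
  have hker : LinearMap.ker Ψ = ⊥ := by
    rw [LinearMap.ker_eq_bot']
    intro H hH
    apply Subtype.ext
    refine hinj H.1 H.2 fun t w => ?_
    have h1 := congrFun (congrArg Subtype.val (congrFun hH t)) (fun j => w (Sum.inl j))
    have h2 : ctr (S0 k M) (l t) H.1 (Sum.elim (fun j => w (Sum.inl j)) u₀) = 0 := h1
    rw [← h2]
    refine ctr_congr _ _ _ ?_
    rintro (j | j) hj
    · rfl
    · exact absurd (mem_S0 j) hj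
  have h1 := LinearMap.finrank_le_finrank_of_injective (LinearMap.ker_eq_bot.1 hker)
  rw [Module.finrank_pi_fintype, sum_const, card_univ, Fintype.card_fin, smul_eq_mul] at h1
  exact h1

theorem KE_le (hc : 0 < c) {ω : Pts k M c} {l : Fin (lam M c) → Slot k M × Fin c → ℂ}
    (h : Exact ω l) (E : Submodule ℂ ((Fin k → Fin c) → ℂ)) :
    finrank ℂ (KE ω E) ≤ lam M c * finrank ℂ E :=
  finrank_le_aux hc l _ E (fun _ hH => hH.1) fun H hH hl => h H hH.2 hl

section basis

variable {ι : Type} [Fintype ι] [DecidableEq ι]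

/-- The basis `y`. -/
noncomputable def yb (x : Fin c → ℂ) (z b : Fin c) (a : Fin c) : Fin c → ℂ :=
  if a = z then x else Pi.single (Equiv.swap z b a) 1

theorem yb_inj {x : Fin c → ℂ} {z b : Fin c} (hb : x b ≠ 0) (i : ι) (v : (ι → Fin c) → ℂ)
    (h : ∀ a, Dk i (yb x z b a) v = 0) : v = 0 := by
  have h1 : ∀ j, j ≠ b → ∀ s, v (Function.update s i j) = 0 := by
    intro j hj s
    have h2 := congrFun (h (Equiv.swap z b j)) s
    have h3 : Equiv.swap z b j ≠ z := by
      intro h4
      have h5 := congrArg (Equiv.swap z b) h4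
      rw [Equiv.swap_apply_self, Equiv.swap_apply_left] at h5
      exact hj h5
    unfold yb at h2
    rw [if_neg h3, Equiv.swap_apply_self, Dk_single] at h2
    exact h2
  have h2 : ∀ s, v (Function.update s i b) = 0 := by
    intro s
    have h3 := congrFun (h z) s
    unfold yb at h3
    rw [if_pos rfl, Dk_apply, sum_eq_single b] at h3
    · rcases mul_eq_zero.1 h3 with h4 | h4
      · exact absurd h4 hb
      · exact h4
    · intro j _ hj
      rw [h1 j hj, mul_zero]
    · intro h4
      exact absurd (mem_univ _) h4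
  funext s
  by_cases hs : s i = b
  · have := h2 s
    rwa [← hs, Function.update_eq_self] at this
  · have := h1 (s i) hs s
    rwa [Function.update_eq_self] at this

end basis

/-- The shifted weights. -/
def xn (K a₀ a : ℕ) : ℕ := if a = 0 then 2 * K + 1 else if a = a₀ then 2 * K - 1 else 2 * K

/-- The shifted weights. -/
def zn (a₀ a : ℕ) : ℕ := if a = 0 then 1 else if a = a₀ then 3 else 2

theorem xn_zn {K : ℕ} (hK : 1 ≤ K) (a₀ a : ℕ) : xn K a₀ a + zn a₀ a = 2 * K + 2 := by
  unfold xn zn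
  split_ifs <;> omega

/-- The total weight of a class of slices which contains both or none of `0`, `a₀`. -/
theorem sum_xn {K a₀ : ℕ} (hK : 1 ≤ K) (ha₀ : a₀ ≠ 0) (A : Finset ℕ) (hA : 0 ∈ A ↔ a₀ ∈ A) :
    ∑ a ∈ A, xn K a₀ a = A.card * (2 * K) := by
  classical
  have h1 : ∀ a ∈ A, xn K a₀ a + (if a = a₀ then 1 else 0) = 2 * K + (if a = 0 then 1 else 0) := by
    intro a _
    unfold xn
    split_ifs <;> omega
  have h2 := sum_congr (rfl : A = A) h1
  rw [sum_add_distrib, sum_add_distrib, sum_ite_eq' A a₀, sum_ite_eq' A 0, sum_const,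
    smul_eq_mul] at h2
  by_cases h : 0 ∈ A
  · rw [if_pos h, if_pos (hA.1 h)] at h2
    omega
  · rw [if_neg h, if_neg (fun h' => h (hA.2 h'))] at h2
    omega

set_option maxHeartbeats 8000000 in
theorem strict (hT : TK c (Wt M)) (hk : k + 1 = M) (hc : 0 < c) (hdiv : (Wt M).factorial ∣ c)
    (E : Submodule ℂ ((Fin k → Fin c) → ℂ)) (h0 : E ≠ ⊥) (h1 : E ≠ ⊤) :
    ∃ ω : Pts k M c, finrank ℂ (KE ω E) < lam M c * finrank ℂ E := by
  classical
  obtain ⟨i, x, hx, hdim⟩ := exists_dir hc E h0 h1
  have hM : 2 ≤ M := by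
    have := i.2
    omega
  obtain ⟨b, hb⟩ : ∃ b, x b ≠ 0 := by
    by_contra hcon
    push Not at hcon
    exact hx (funext hcon)
  obtain ⟨v₀, u₀, m, hu₀, hm, hcm, hv, hu, hlam, hmlam⟩ := arith hM hc hdiv
  have hK : 1 ≤ K1 M := Nat.choose_pos (by omega)
  have hW : 0 < Wt M := by
    unfold Wt
    have : 0 < (2 * M - 1).choose M := Nat.choose_pos (by omega)
    omega
  let z : Fin c := ⟨0, hc⟩
  let y : Fin c → Fin c → ℂ := yb x z b
  let yn : ℕ → Fin c → ℂ := fun a => if h : a < c then y ⟨a, h⟩ else 0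
  have hyn : ∀ a : Fin c, yn a.1 = y a := fun a => by
    show (if h : a.1 < c then y ⟨a.1, h⟩ else 0) = y a
    rw [dif_pos a.2]
  let I : Slot k M := Sum.inl i
  let φ : ℕ → ((Slot k M → Fin c) → ℂ) →ₗ[ℂ] ((Slot k M → Fin c) → ℂ) := fun a => Dk I (yn a)
  let φ' : ℕ → ((Fin k → Fin c) → ℂ) →ₗ[ℂ] ((Fin k → Fin c) → ℂ) := fun a => Dk i (yn a)
  -- dimensions of the filtration of `E`
  let e' : ℕ → ℕ := fun a => finrank ℂ ((cut φ' E a).map (φ' a))
  have hE : finrank ℂ E = ∑ a ∈ range c, e' a := by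
    have h := tele φ' E c
    have hbot : cut φ' E c = ⊥ := by
      rw [eq_bot_iff]
      intro v hv
      rw [mem_cut] at hv
      rw [Submodule.mem_bot]
      refine yb_inj (z := z) hb i v fun a => ?_
      have := hv.2 a.1 a.2
      show Dk i (y a) v = 0
      rw [← hyn a]
      exact this
    rw [hbot, finrank_bot, add_zero] at h
    exact h
  have he0 : finrank ℂ E < c * e' 0 := by
    have : e' 0 = finrank ℂ (E.map (Dk i x)) := by
      show finrank ℂ (E.map (Dk i (yn 0))) = _
      have h2 : yn 0 = x := by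
        have := hyn z
        rw [show z.1 = 0 from rfl] at this
        rw [this]
        show (if z = z then x else _) = x
        rw [if_pos rfl]
      rw [h2]
    rw [this]
    exact hdim
  obtain ⟨a₀, ha₀c, ha₀⟩ : ∃ a₀ < c, e' a₀ < e' 0 := by
    by_contra hcon
    push Not at hcon
    have h2 : ∑ a ∈ range c, e' 0 ≤ ∑ a ∈ range c, e' a :=
      sum_le_sum fun a ha => hcon a (mem_range.1 ha)
    rw [sum_const, card_range, smul_eq_mul] at h2
    omega
  have ha₀0 : a₀ ≠ 0 := by
    rintro rfl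
    exact lt_irrefl _ ha₀
  -- remaining slots
  let ρ : Type := {j : Slot k M // j ≠ I}
  have hρ : Fintype.card ρ = 2 * M - 2 := by
    show Fintype.card {j : Slot k M // j ≠ I} = _
    rw [Fintype.card_subtype_compl, Fintype.card_sum, Fintype.card_fin, Fintype.card_fin,
      Fintype.card_unique]
    omega
  let S₀' : Finset ρ := sub I (S0 k M)
  have hS₀map : S₀'.map (em I) = S0 k M := by
    ext j
    rw [mem_map]
    constructor
    · rintro ⟨j', hj', h2⟩
      rw [← h2]
      exact mem_subtype.1 hj'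
    · intro hj
      refine ⟨⟨j, ?_⟩, mem_subtype.2 hj, rfl⟩
      rintro rfl
      exact notMem_S0 i hj
  have hS₀c : S₀'.card = M := by
    rw [← card_map (em I), hS₀map, card_S0]
  -- distribution of the kinds
  let X : Type := {T : Finset ρ // T.card = M - 1}
  have hX : Fintype.card X = K1 M := by
    show Fintype.card {T : Finset ρ // T.card = M - 1} = _
    rw [Fintype.card_finset_len, hρ]
    rfl
  obtain ⟨σ, hσ, hσc⟩ := exists_dist (X := X) (by rw [hX]; exact hcm) hm z ⟨a₀, ha₀c⟩ (by
    intro h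
    exact ha₀0 (congrArg Fin.val h).symm)
  let w : Fin c → Finset ρ → ℕ := fun a => wS M S₀' (σ a).1 (xn (K1 M) a₀ a.1) (zn a₀ a.1)
  have hσS : ∀ a, (σ a).1 ≠ S₀' := fun a h => by
    have h2 := (σ a).2
    rw [h, hS₀c] at h2
    omega
  have hw0 : ∀ a, w a S₀' = zn a₀ a.1 := fun a => by
    show wS M S₀' (σ a).1 _ _ S₀' = _
    unfold wS
    rw [if_pos rfl]
  have hw1 : ∀ a S, S.card = M → S ≠ S₀' → w a S = 2 := fun a S hS hS' => by
    show wS M S₀' (σ a).1 _ _ S = _
    unfold wS
    rw [if_neg hS', if_pos hS]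
  have hw2 : ∀ a, w a (σ a).1 = xn (K1 M) a₀ a.1 := fun a => by
    show wS M S₀' (σ a).1 _ _ (σ a).1 = _
    unfold wS
    have h2 := (σ a).2
    rw [if_neg (hσS a), if_neg (by omega), if_pos rfl]
  have hw3 : ∀ a S, S.card ≠ M → S ≠ (σ a).1 → w a S = 0 := fun a S hS hS' => by
    show wS M S₀' (σ a).1 _ _ S = _
    unfold wS
    rw [if_neg, if_neg hS, if_neg hS']
    rintro rfl
    exact hS hS₀c
  -- numbers
  have hn0 : ∀ a, w a S₀' * c ^ S₀'.card / Wt M = zn a₀ a.1 * u₀ := fun a => by
    rw [hw0, hS₀c, hu, show zn a₀ a.1 * (Wt M * u₀) = Wt M * (zn a₀ a.1 * u₀) by ring]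
    exact Nat.mul_div_cancel_left _ hW
  have hn1 : ∀ a S, S.card = M → S ≠ S₀' → w a S * c ^ S.card / Wt M = lam M c :=
    fun a S hS hS' => by
      rw [hw1 a S hS hS', hS, hu, hlam, show 2 * (Wt M * u₀) = Wt M * (2 * u₀) by ring]
      exact Nat.mul_div_cancel_left _ hW
  have hn2 : ∀ a, w a (σ a).1 * c ^ (σ a).1.card / Wt M = xn (K1 M) a₀ a.1 * v₀ := fun a => by
    rw [hw2, (σ a).2, hv, show xn (K1 M) a₀ a.1 * (Wt M * v₀) = Wt M * (xn (K1 M) a₀ a.1 * v₀) by
      ring]
    exact Nat.mul_div_cancel_left _ hW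
  -- positions
  let Kx : Type := (Finset ρ × Fin (lam M c)) ⊕ (Σ a : Fin c, TIdx ρ c (Wt M) (w a))
  let ψ : ∀ a : Fin c, TIdx ρ c (Wt M) (w a) → Kx := fun a x =>
    if h : x.1.card = M ∧ x.1 ≠ S₀' then
      Sum.inl (x.1, ⟨x.2.1, lt_of_lt_of_eq x.2.2 (hn1 a x.1 h.1 h.2)⟩)
    else Sum.inr ⟨a, x⟩
  have hψinj : ∀ a, Function.Injective (ψ a) := by
    rintro a ⟨S, t⟩ ⟨S', t'⟩ h
    simp only [ψ] at h
    split_ifs at h with h1 h2 h2
    · rw [Sum.inl.injEq, Prod.mk.injEq, Fin.mk.injEq] at h
      obtain ⟨h3, h4⟩ := h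
      subst h3
      congr 1
      exact Fin.ext h4
    · have := Sum.inr_injective h
      simpa using this
  have hgn : ∀ a ∈ (univ : Finset (Fin c)), Gn Kx (ρ × Fin c) fun p =>
      Module.finrank ℂ ((TSys ρ c).V (fun x : TIdx ρ c (Wt M) (w a) => x.1)
        fun x => p (ψ a x)) = 0 := by
    intro a _
    have h2 := (gn_gd (TSys ρ c) (fun x : TIdx ρ c (Wt M) (w a) => x.1)).comap (ψ a) (hψinj a)
    rw [hT ρ (w a) (sum_wS hM hρ hS₀c (σ a).2 (xn_zn hK a₀ a.1))
      (inter_wS hM hρ hS₀c (σ a).2)] at h2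
    exact h2
  obtain ⟨P, hP⟩ := (Gn.all _ hgn).exists
  have hPker : ∀ a (H : (ρ → Fin c) → ℂ),
      (∀ (x : TIdx ρ c (Wt M) (w a)) v, ctr x.1 (P (ψ a x)) H v = 0) → H = 0 := by
    intro a H hH
    have h2 := hP a (mem_univ a)
    rw [Submodule.finrank_eq_zero] at h2
    have h3 : H ∈ (TSys ρ c).V (fun x : TIdx ρ c (Wt M) (w a) => x.1) fun x => P (ψ a x) := by
      rw [mem_TSys]
      exact hH
    rw [h2, Submodule.mem_bot] at h3
    exact h3
  -- the points with a factor in the slot `I`
  let QT : Finset ρ → Type := fun T => Σ a : {a : Fin c // (σ a).1 = T}, Fin (xn (K1 M) a₀ a.1.1 * v₀)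
  have hcast : ∀ T (a : {a : Fin c // (σ a).1 = T}), xn (K1 M) a₀ a.1.1 * v₀ =
      w a.1 T * c ^ T.card / Wt M := by
    rintro T ⟨a, rfl⟩
    exact (hn2 a).symm
  let f : ∀ T, QT T → Slot k M × Fin c → ℂ := fun T q p =>
    if h : p.1 = I then y q.1.1 p.2 else
      P (Sum.inr ⟨q.1.1, ⟨T, Fin.cast (hcast T q.1) q.2⟩⟩) (⟨p.1, h⟩, p.2)
  have hQT : ∀ T, Fintype.card (QT T) ≤ Fintype.card (Fin (lam M c)) := by
    intro T
    show Fintype.card (Σ a : {a : Fin c // (σ a).1 = T}, Fin (xn (K1 M) a₀ a.1.1 * v₀)) ≤ _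
    rw [Fintype.card_sigma, Fintype.card_fin]
    simp only [Fintype.card_fin]
    rw [← sum_mul]
    have h2 : ∑ a : {a : Fin c // (σ a).1 = T}, xn (K1 M) a₀ a.1.1 =
        ∑ a ∈ (univ.filter fun a : Fin c => (σ a).1 = T).map Fin.valEmbedding,
          xn (K1 M) a₀ a := by
      rw [sum_map]
      exact (sum_subtype (univ.filter fun a : Fin c => (σ a).1 = T) (by simp)
        (fun a => xn (K1 M) a₀ (Fin.valEmbedding a))).symm
    rw [h2, sum_xn hK ha₀0, card_map]
    · by_cases hTc : T.card = M - 1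
      · have h3 : (univ.filter fun a : Fin c => (σ a).1 = T) =
            univ.filter fun a : Fin c => σ a = (⟨T, hTc⟩ : X) := by
          ext a
          rw [mem_filter, mem_filter, Subtype.ext_iff]
        rw [h3, hσc, ← hmlam]
        exact le_of_eq (by ring)
      · have h3 : (univ.filter fun a : Fin c => (σ a).1 = T) = ∅ := by
          rw [filter_eq_empty_iff]
          intro a _ h4
          exact hTc (by rw [← h4]; exact (σ a).2)
        rw [h3, card_empty]
        simp
    · rw [mem_map, mem_map]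
      constructor
      · rintro ⟨a, ha, h3⟩
        refine ⟨⟨a₀, ha₀c⟩, ?_, rfl⟩
        rw [mem_filter] at ha ⊢
        have h4 : a = z := Fin.ext h3
        rw [h4, hσ] at ha
        exact ⟨mem_univ _, ha.2⟩
      · rintro ⟨a, ha, h3⟩
        refine ⟨z, ?_, rfl⟩
        rw [mem_filter] at ha ⊢
        have h4 : a = ⟨a₀, ha₀c⟩ := Fin.ext h3
        rw [h4, ← hσ] at ha
        exact ⟨mem_univ _, ha.2⟩
  have hinj : ∀ T, Nonempty (QT T ↪ Fin (lam M c)) := fun T =>
    Function.Embedding.nonempty_of_card_le (hQT T)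
  obtain ⟨inj⟩ := Classical.nonempty_pi.2 hinj
  let ω : Pts k M c := fun S t =>
    if I ∈ S then Function.extend (inj (sub I S)) (f (sub I S)) 0 t
    else fun p => if h : p.1 = I then 0 else P (Sum.inl (sub I S, t)) (⟨p.1, h⟩, p.2)
  refine ⟨ω, ?_⟩
  -- the slices
  have hslice : ∀ a : Fin c, finrank ℂ ((cut φ (KE ω E) a.1).map (φ a.1)) ≤
      zn a₀ a.1 * u₀ * e' a.1 := by
    intro a
    let l : Fin (zn a₀ a.1 * u₀) → Slot k M × Fin c → ℂ := fun t p =>
      if h : p.1 = I then 0 else
        P (Sum.inr ⟨a, ⟨S₀', Fin.cast (hn0 a).symm t⟩⟩) (⟨p.1, h⟩, p.2)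
    refine finrank_le_aux hc l _ ((cut φ' E a.1).map (φ' a.1)) ?_ ?_
    · rintro H ⟨G, hG, rfl⟩ u
      rw [SetLike.mem_coe, mem_cut] at hG
      refine ⟨fun s => G (Sum.elim s u), ?_, ?_⟩
      · rw [SetLike.mem_coe, mem_cut]
        refine ⟨hG.1.1 u, fun a' ha' => ?_⟩
        have h2 := hG.2 a' ha'
        show Dk i (yn a') (fun s => G (Sum.elim s u)) = 0
        rw [← Dk_elim]
        funext s
        exact congrFun h2 (Sum.elim s u)
      · exact (Dk_elim i (yn a.1) G u).symm
    · rintro H ⟨G, hG, rfl⟩ hl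
      rw [SetLike.mem_coe, mem_cut] at hG
      have hindep : ∀ (e : Slot k M → Fin c) b',
          φ a.1 G (Function.update e I b') = φ a.1 G e := fun e b' =>
        Dk_update I (yn a.1) G e b'
      have hzero : down I z (φ a.1 G) = 0 := by
        refine hPker a _ ?_
        rintro ⟨S, t⟩ v
        have hrs : rs I (ex I z v) = v := rs_ex I z v
        by_cases hS0 : S = S₀'
        · subst hS0
          have hψ : ψ a ⟨S₀', t⟩ = Sum.inr ⟨a, ⟨S₀', t⟩⟩ := by
            simp only [ψ]
            rw [dif_neg (by simp)]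
          have h2 := hl (Fin.cast (hn0 a) t) (ex I z v)
          rw [← hS₀map, ctr_down I z hindep S₀' _ (P (ψ a ⟨S₀', t⟩)) ?_, hrs] at h2
          · exact h2
          · intro j x'
            simp only [l]
            rw [dif_neg j.2, hψ]
            rfl
        · by_cases hSM : S.card = M
          · have hψ : ψ a ⟨S, t⟩ = Sum.inl (S, ⟨t.1, lt_of_lt_of_eq t.2 (hn1 a S hSM hS0)⟩) := by
              simp only [ψ]
              rw [dif_pos ⟨hSM, hS0⟩]
            set t' : Fin (lam M c) := ⟨t.1, lt_of_lt_of_eq t.2 (hn1 a S hSM hS0)⟩ with ht'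
            have h2 : ∀ w, ctr (S.map (em I)) (ω (S.map (em I)) t') G w = 0 := by
              refine hG.1.2 (S.map (em I)) (by rw [card_map, hSM]) ?_ t'
              intro h3
              apply hS0
              rw [← sub_map I S, h3]
            have h3 : ctr (S.map (em I)) (ω (S.map (em I)) t') (φ a.1 G) (ex I z v) = 0 := by
              show ctr (S.map (em I)) (ω (S.map (em I)) t') (Dk I (yn a.1) G) (ex I z v) = 0
              rw [ctr_Dk (mem_map_em I S), Dk_apply]
              refine sum_eq_zero fun b' _ => ?_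
              rw [h2, mul_zero]
            rw [ctr_down I z hindep S _ (P (ψ a ⟨S, t⟩)) ?_, hrs] at h3
            · exact h3
            · intro j x'
              simp only [ω]
              rw [if_neg (mem_map_em I S)]
              simp only
              rw [dif_neg j.2, hψ, sub_map]
          · by_cases hST : S = (σ a).1
            · have hψ : ψ a ⟨S, t⟩ = Sum.inr ⟨a, ⟨S, t⟩⟩ := by
                simp only [ψ]
                rw [dif_neg (by intro h; exact hSM h.1)]
              let q₀ : QT S := ⟨⟨a, hST.symm⟩, Fin.cast (hcast S ⟨a, hST.symm⟩).symm t⟩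
              set St := insert I (S.map (em I)) with hSt
              have hIn : I ∈ St := mem_insert_self _ _
              have h2 : ∀ w, ctr St (ω St (inj S q₀)) G w = 0 := by
                refine hG.1.2 St ?_ ?_ (inj S q₀)
                · rw [hSt, card_insert_of_notMem (mem_map_em I S), card_map, hST, (σ a).2]
                  omega
                · intro h3
                  rw [h3] at hIn
                  exact notMem_S0 i hIn
              have hωt : ω St (inj S q₀) = f S q₀ := by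
                simp only [ω]
                rw [if_pos hIn, hSt, sub_insert]
                exact (inj S).injective.extend_apply _ _ _
              rw [hωt] at h2
              have h3 := h2 (ex I z v)
              have hy : (fun b' => f S q₀ (I, b')) = yn a.1 := by
                funext b'
                simp only [f]
                rw [dif_pos trivial, hyn]
              rw [ctr_erase hIn, hy, hSt, erase_insert (mem_map_em I S)] at h3
              rw [show Dk I (yn a.1) G = φ a.1 G from rfl,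
                ctr_down I z hindep S _ (P (ψ a ⟨S, t⟩)) ?_, hrs] at h3
              · exact h3
              · intro j x'
                simp only [f]
                rw [dif_neg j.2, hψ]
                rfl
            · exfalso
              have h2 := t.2
              simp only [hw3 a S hSM hST, zero_mul, Nat.zero_div] at h2
              exact absurd h2 (Nat.not_lt_zero _)
      funext e
      rw [← down_apply I z hindep e, hzero]
      rfl
  have htot : finrank ℂ (KE ω E) ≤ ∑ a ∈ range c, zn a₀ a * u₀ * e' a := by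
    have h := tele φ (KE ω E) c
    have hbot : cut φ (KE ω E) c = ⊥ := by
      rw [eq_bot_iff]
      intro v hv
      rw [mem_cut] at hv
      rw [Submodule.mem_bot]
      refine yb_inj (z := z) hb I v fun a => ?_
      have := hv.2 a.1 a.2
      show Dk I (y a) v = 0
      rw [← hyn a]
      exact this
    rw [hbot, finrank_bot, add_zero] at h
    rw [h]
    exact sum_le_sum fun a ha => hslice ⟨a, mem_range.1 ha⟩
  have hfin : ∑ a ∈ range c, zn a₀ a * u₀ * e' a + u₀ * e' 0 =
      2 * u₀ * ∑ a ∈ range c, e' a + u₀ * e' a₀ := by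
    have h2 : ∀ a ∈ range c, zn a₀ a * u₀ * e' a + (if a = 0 then u₀ * e' 0 else 0) =
        2 * u₀ * e' a + (if a = a₀ then u₀ * e' a₀ else 0) := by
      intro a _
      unfold zn
      by_cases h3 : a = 0
      · subst h3
        rw [if_pos rfl, if_pos rfl, if_neg (Ne.symm ha₀0)]
        ring
      · by_cases h4 : a = a₀
        · subst h4
          rw [if_neg h3, if_neg h3, if_pos rfl, if_pos rfl]
          ring
        · rw [if_neg h3, if_neg h3, if_neg h4, if_neg h4]
    have h3 := sum_congr (rfl : range c = range c) h2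
    rw [sum_add_distrib, sum_add_distrib, sum_ite_eq' (range c) 0, sum_ite_eq' (range c) a₀,
      if_pos (mem_range.2 hc), if_pos (mem_range.2 ha₀c), ← mul_sum] at h3
    exact h3
  rw [hE, hlam]
  have h5 : u₀ * e' a₀ < u₀ * e' 0 := Nat.mul_lt_mul_of_pos_left ha₀ hu₀
  omega

end Pool.Agent.V7.BE

end

section

/-!
# V7, block BETA, module Gen: the result of the tensor part

`exists_omega`: for every `q₀` there is a configuration `Ω` for `q = M r q₀` blocks such that for all
`E ≠ ⊥, ⊤` the sum over all `α` of `finrank (KE (res Ω α) E)` is at most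
`lam * finrank E * binom(q, M) - q₀ ^ M`.
-/

namespace Pool.Agent.V7.BE

open Finset Module Pool.Agent.V7 Pool.Agent.H51.TB

variable {k M c : ℕ}

theorem tk (hM : 1 ≤ M) (hc : 0 < c) (hdiv : (Wt M).factorial ∣ c) : TK c (Wt M) := by
  intro ι _ _ w hsum hint
  refine tens_kill ?_ hc hdiv w hsum hint
  unfold Wt
  have : 0 < (2 * M - 1).choose M := Nat.choose_pos (by omega)
  omega

/-- Generic exactness. -/
theorem gen_exact (hk : k + 1 = M) (hc : 0 < c) (hdiv : (Wt M).factorial ∣ c) :
    Gn (Finset (Slot k M) × Fin (lam M c)) (Slot k M × Fin c) fun p =>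
      Exact (fun S t => p (S, t)) (fun t => p (S0 k M, t)) := by
  classical
  have hC : 0 < (2 * M - 1).choose M := Nat.choose_pos (by omega)
  have hW : 0 < Wt M := by
    unfold Wt
    omega
  have hcard : Fintype.card (Slot k M) = 2 * M - 1 := by
    rw [Fintype.card_sum, Fintype.card_fin, Fintype.card_fin]
    omega
  let w : Finset (Slot k M) → ℕ := fun S => if S.card = M then 2 else 0
  have hsum : ∑ S, w S = Wt M := by
    show ∑ S : Finset (Slot k M), (if S.card = M then 2 else 0) = Wt M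
    rw [← sum_filter, sum_const, smul_eq_mul]
    have : (univ.filter fun S : Finset (Slot k M) => S.card = M) =
        (univ : Finset (Slot k M)).powersetCard M := by
      ext S
      simp [mem_powersetCard]
    rw [this, card_powersetCard, card_univ, hcard]
    unfold Wt
    ring
  have hint : Inter w := by
    intro S S' hS hS'
    left
    have h1 : S.card = M := by
      by_contra h
      exact hS (if_neg h)
    have h2 : S'.card = M := by
      by_contra h
      exact hS' (if_neg h)
    by_contra hcon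
    rw [not_nonempty_iff_eq_empty, ← disjoint_iff_inter_eq_empty] at hcon
    have h3 := card_union_of_disjoint hcon
    have h4 : (S ∪ S').card ≤ 2 * M - 1 := by
      rw [← hcard, ← card_univ]
      exact card_le_card (subset_univ _)
    omega
  have hWc : Wt M ∣ c ^ M := dvd_pow (dvd_trans (Nat.dvd_factorial hW le_rfl) hdiv) (by omega)
  have hn : ∀ S : Finset (Slot k M), S.card = M → w S * c ^ S.card / Wt M = lam M c := by
    intro S hS
    obtain ⟨u, hu⟩ := hWc
    have h1 : w S = 2 := if_pos hS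
    rw [h1, hS]
    unfold lam
    rw [hu]
    have e1 : 2 * (Wt M * u) = Wt M * (2 * u) := by ring
    have e2 : Wt M * u = (2 * M - 1).choose M * (2 * u) := by
      unfold Wt
      ring
    rw [e1, Nat.mul_div_cancel_left _ hW, e2, Nat.mul_div_cancel_left _ hC]
  have hlt : ∀ x : TIdx (Slot k M) c (Wt M) w, x.1.card = M := by
    rintro ⟨S, t⟩
    by_contra h
    have h1 : w S = 0 := if_neg h
    have h2 := t.2
    simp only [h1, zero_mul, Nat.zero_div] at h2
    exact absurd h2 (Nat.not_lt_zero _)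
  let ψ : TIdx (Slot k M) c (Wt M) w → Finset (Slot k M) × Fin (lam M c) := fun x =>
    (x.1, Fin.cast (hn x.1 (hlt x)) x.2)
  have hψ : Function.Injective ψ := by
    rintro ⟨S, t⟩ ⟨S', t'⟩ h
    rw [Prod.mk.injEq] at h
    obtain ⟨h1, h2⟩ := h
    simp only at h1
    subst h1
    congr 1
    exact Fin.ext (congrArg (fun z : Fin (lam M c) => z.val) h2)
  have h1 := (gn_gd (TSys (Slot k M) c) (fun x : TIdx (Slot k M) c (Wt M) w => x.1)).comap ψ hψ
  rw [tk (by omega) hc hdiv (Slot k M) w hsum hint] at h1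
  refine h1.mono fun p hp => ?_
  intro G hG hl
  have h2 : (TSys (Slot k M) c).V (fun x : TIdx (Slot k M) c (Wt M) w => x.1)
      (fun x => p (ψ x)) = ⊥ := Submodule.finrank_eq_zero.1 hp
  have h3 : G ∈ (TSys (Slot k M) c).V (fun x : TIdx (Slot k M) c (Wt M) w => x.1)
      (fun x => p (ψ x)) := by
    rw [mem_TSys]
    rintro ⟨S, t⟩ v
    have hS := hlt ⟨S, t⟩
    simp only at hS
    by_cases hS0 : S = S0 k M
    · subst hS0
      exact hl (Fin.cast (hn _ hS) t) v
    · exact hG S hS hS0 (Fin.cast (hn S hS) t) v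
  rw [h2, Submodule.mem_bot] at h3
  exact h3

theorem exists_omega (hk : k + 1 = M) (hc : 0 < c) (hdiv : (Wt M).factorial ∣ c) :
    ∃ r : ℕ, 0 < r ∧ ∀ q₀ : ℕ, ∃ Ω : PtsQ k M c (M * r * q₀),
      ∀ E : Submodule ℂ ((Fin k → Fin c) → ℂ), E ≠ ⊥ → E ≠ ⊤ →
        ∑ α : Fin M ↪o Fin (M * r * q₀), finrank ℂ (KE (res Ω α) E) + q₀ ^ M ≤
          lam M c * finrank ℂ E * (M * r * q₀).choose M := by
  refine exists_good (by omega) ?_ ?_
  · refine (gen_exact hk hc hdiv).mono fun p hp E => ?_
    exact KE_le hc hp E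
  · intro E h0 h1
    exact strict (tk (by omega) hc hdiv) hk hc hdiv E h0 h1

end Pool.Agent.V7.BE

end

section

/-!
# V7, NUM: the numbers of one step, for multisets
-/

set_option autoImplicit false

namespace Pool.Agent.V7

open Finset Pool.Agent.H51.TB Pool.Agent.V7.ST

/-- The support of a kind. -/
def Kd.suppN : Kd → Finset ℕ
  | .ord _ I => I
  | .sw _ I => I

/-- The kind without the subspace `L_j`. -/
def Kd.delN (j : ℕ) : Kd → Kd
  | .ord μ I => .ord μ (I.erase j)
  | .sw i I => .sw i (I.erase j)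

theorem Kd.eq_add_iffN {j : ℕ} {σ τ : Kd} (h : j ∉ σ.suppN) :
    τ = Kd.add j σ ↔ j ∈ τ.suppN ∧ τ.delN j = σ := by
  rcases σ with ⟨μ, I⟩ | ⟨i, I⟩ <;> rcases τ with ⟨ν, J⟩ | ⟨k, J⟩
  · simp only [Kd.add, Kd.suppN, Kd.delN, Kd.ord.injEq] at h ⊢
    constructor
    · rintro ⟨rfl, rfl⟩
      exact ⟨mem_insert_self _ _, rfl, erase_insert h⟩
    · rintro ⟨h1, rfl, rfl⟩
      exact ⟨rfl, (insert_erase h1).symm⟩
  · simp only [Kd.add, Kd.delN, reduceCtorEq, and_false]
  · simp only [Kd.add, Kd.delN, reduceCtorEq, and_false]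
  · simp only [Kd.add, Kd.suppN, Kd.delN, Kd.sw.injEq] at h ⊢
    constructor
    · rintro ⟨rfl, rfl⟩
      exact ⟨mem_insert_self _ _, rfl, erase_insert h⟩
    · rintro ⟨h1, rfl, rfl⟩
      exact ⟨rfl, (insert_erase h1).symm⟩

theorem count_map_addN (j : ℕ) (s : Multiset Kd) (τ : Kd) (hs : ∀ σ ∈ s, j ∉ σ.suppN) :
    (s.map (Kd.add j)).count τ = if j ∈ τ.suppN then s.count (τ.delN j) else 0 := by
  induction s using Multiset.induction_on with
  | empty => simp
  | cons a s ih =>
    rw [Multiset.map_cons, Multiset.count_cons, ih fun σ hσ => hs σ (Multiset.mem_cons_of_mem hσ),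
      Multiset.count_cons]
    have h1 := Kd.eq_add_iffN (τ := τ) (hs a (Multiset.mem_cons_self a s))
    by_cases h2 : j ∈ τ.suppN
    · rw [if_pos h2, if_pos h2]
      congr 1
      exact if_congr (by rw [h1]; exact ⟨fun h => h.2, fun h => ⟨h2, h⟩⟩) rfl rfl
    · rw [if_neg h2, if_neg h2, if_neg fun h => h2 (h1.1 h).1]

/-- The multiset with given numbers. -/
theorem exists_msN (K : Finset Kd) (N : Kd → ℕ) (h : ∀ τ, N τ ≠ 0 → τ ∈ K) :
    ∃ s : Multiset Kd, ∀ τ, s.count τ = N τ := by
  refine ⟨∑ σ ∈ K, Multiset.replicate (N σ) σ, fun τ => ?_⟩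
  rw [Multiset.count_sum']
  simp only [Multiset.count_replicate]
  rw [Finset.sum_ite_eq' K τ]
  split_ifs with h1
  · rfl
  · by_contra h2
    exact h1 (h τ fun h3 => h2 h3.symm)

theorem not_mem_suppN {M j : ℕ} {τ : Kd} (h : τ ∈ kds M j) : j ∉ τ.suppN := by
  rw [mem_kds] at h
  rcases τ with ⟨μ, I⟩ | ⟨i, I⟩
  · intro h1
    have := h.2.2 h1
    rw [mem_range] at this
    omega
  · intro h1
    have := mem_Ico.1 (h.2 h1)
    omega

/-- The numbers of the residual system. -/
theorem count_resN (M j : ℕ) (sL sO : Multiset Kd) (b y : ℕ) (hy : y ≤ b)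
    (hL : ∀ τ ∈ sL, τ ∈ kds M j) (hO : ∀ τ ∈ sO, τ ∈ kds M j) (τ : Kd) :
    (sL.map (Kd.add j) + (sO + Multiset.replicate (b - y) (Kd.ord M ∅)) +
      Multiset.replicate y (Kd.sw j ∅)).count τ =
    resN M j (fun τ => (sL + sO + Multiset.replicate b (Kd.ord M ∅)).count τ)
      (fun τ => sL.count τ) y τ := by
  have h0 : ∀ σ : Kd, σ ∉ kds M j → sO.count σ = 0 ∧ sL.count σ = 0 := fun σ hσ =>
    ⟨Multiset.count_eq_zero_of_notMem fun h => hσ (hO σ h),
      Multiset.count_eq_zero_of_notMem fun h => hσ (hL σ h)⟩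
  rw [Multiset.count_add, Multiset.count_add, Multiset.count_add,
    count_map_addN j sL τ fun σ hσ => not_mem_suppN (hL σ hσ), Multiset.count_replicate,
    Multiset.count_replicate]
  rcases τ with ⟨μ, I⟩ | ⟨i, I⟩
  · simp only [Kd.suppN, Kd.delN, resN, Kd.ord.injEq, reduceCtorEq, if_false, add_zero,
      Multiset.count_add, Multiset.count_replicate]
    by_cases hI : j ∈ I
    · have h1 : (Kd.ord μ I) ∉ kds M j := fun h => not_mem_suppN h hI
      have h2 : ¬(M = μ ∧ ∅ = I) := by
        rintro ⟨-, rfl⟩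
        exact absurd hI (notMem_empty j)
      rw [if_pos hI, if_pos hI, (h0 _ h1).1, if_neg h2, add_zero, add_zero]
    · rw [if_neg hI, if_neg hI]
      by_cases h2 : M = μ ∧ ∅ = I
      · rw [if_pos h2, if_pos h2, if_pos ⟨h2.1.symm, h2.2.symm⟩]
        omega
      · rw [if_neg h2, if_neg h2, if_neg fun h => h2 ⟨h.1.symm, h.2.symm⟩]
        omega
  · simp only [Kd.suppN, Kd.delN, resN, Kd.sw.injEq, reduceCtorEq, if_false, add_zero,
      Multiset.count_add, Multiset.count_replicate]
    by_cases hi : i = j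
    · subst hi
      have h1 : ∀ J : Finset ℕ, (Kd.sw i J) ∉ kds M i := by
        intro J hJ
        rw [mem_kds] at hJ
        exact lt_irrefl _ hJ.1
      rw [if_pos rfl, (h0 _ (h1 I)).1, (h0 _ (h1 (I.erase i))).2]
      simp only [ite_self, zero_add, true_and]
      exact if_congr eq_comm rfl rfl
    · have h3 : ¬(j = i ∧ ∅ = I) := fun h => hi h.1.symm
      rw [if_neg hi, if_neg h3]
      by_cases hI : j ∈ I
      · have h1 : (Kd.sw i I) ∉ kds M j := fun h => not_mem_suppN h hI
        rw [if_pos hI, if_pos hI, (h0 _ h1).1, add_zero, add_zero]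
      · rw [if_neg hI, if_neg hI]
        omega

end Pool.Agent.V7

end
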