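import Pool.Agent.H94.LP5.M04
import Pool.Agent.H94.LP5.M05
import Pool.Agent.H94.LP5.M17
import Pool.Agent.H94.LP5.M20
import Pool.Agent.H94.LP5.M21

/-! The parts of this file: H18.Ex.Ratio, H51.TB.ULim, H51.TB.UPt, V7.Num.BB, V7.Num.Asym. -/

section

/-!
# Module Ratio: a facet changes little when few layers are peeled off
-/

namespace Pool.Agent.H18.Ex

open Finset

variable {ι : Type} [Fintype ι] [DecidableEq ι]

/-- Peel `k i` layers in direction `i` (never in direction `o`).

Proof.  Put `k' i = k i` for `i ≠ o, l` and `k' o = k l`.  Subtracting `k'` maps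
`{x ∈ Rg σ (update w l 0) | ∀ i ≠ l, k' i ≤ x i}` injectively into
`Rg (σ - ∑ k) (update (w - k) l 0)`.  Hence
`fc σ w l - fc (σ - ∑ k) (w - k) l ≤ ∑_{i ≠ l} |{x ∈ Rg σ (update w l 0) | x i < k' i}|`.  Each
nonzero term has `k' i ≥ 1` and is at most `2 N² fc σ w l / q` by `frac` with `v = q * k' i`
(`v ≤ w i` resp. `v ≤ w l ≤ w o`, and `v ≤ σ`); there are at most `N` active `i ≠ l`. -/
theorem facet_ratio (N : ℕ) (hN : 1 ≤ N) (o l : ι) (σ : ℕ) (w k : ι → ℕ) (q : ℕ) (hq : 2 ≤ q)
    (hcard : (univ.filter fun i => 0 < w i).card ≤ N + 1) (hol : l ≠ o) (hl : 0 < w l)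
    (hlo : w l ≤ w o) (hko : k o = 0) (hk : ∀ i, q * k i ≤ w i) (hkσ : ∀ i, q * k i ≤ σ) :
    q * fc σ w l ≤ q * fc (σ - ∑ i, k i) (fun i => w i - k i) l + 2 * N ^ 3 * fc σ w l := by
  classical
  set k' : ι → ℕ := Function.update (Function.update k o (k l)) l 0 with hk'
  have k'l : k' l = 0 := by rw [hk', Function.update_self]
  have k'o : k' o = k l := by
    rw [hk', Function.update_of_ne (Ne.symm hol), Function.update_self]
  have k'i : ∀ i, i ≠ l → i ≠ o → k' i = k i := by
    intro i h1 h2
    rw [hk', Function.update_of_ne h1, Function.update_of_ne h2]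
  -- the sums agree
  have hsum : ∑ i, k' i = ∑ i, k i := by
    have e1 : ∑ i, k' i = k' l + (k' o + ∑ i ∈ (univ.erase l).erase o, k' i) := by
      rw [← Finset.add_sum_erase univ k' (mem_univ l),
        ← Finset.add_sum_erase (univ.erase l) k' (mem_erase.2 ⟨Ne.symm hol, mem_univ o⟩)]
    have e2 : ∑ i, k i = k l + (k o + ∑ i ∈ (univ.erase l).erase o, k i) := by
      rw [← Finset.add_sum_erase univ k (mem_univ l),
        ← Finset.add_sum_erase (univ.erase l) k (mem_erase.2 ⟨Ne.symm hol, mem_univ o⟩)]
    have e3 : ∑ i ∈ (univ.erase l).erase o, k' i = ∑ i ∈ (univ.erase l).erase o, k i := by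
      refine Finset.sum_congr rfl fun i hi => ?_
      rw [mem_erase, mem_erase] at hi
      exact k'i i hi.2.1 hi.1
    rw [e1, e2, e3, k'l, k'o, hko]
    omega
  have hk'w : ∀ i, q * k' i ≤ Function.update w l 0 i := by
    intro i
    by_cases h1 : i = l
    · subst h1; rw [k'l, mul_zero]; exact Nat.zero_le _
    · rw [Function.update_of_ne h1]
      by_cases h2 : i = o
      · subst h2; rw [k'o]; exact (hk l).trans hlo
      · rw [k'i i h1 h2]; exact hk i
  have hk'σ : ∀ i, q * k' i ≤ σ := by
    intro i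
    by_cases h1 : i = l
    · subst h1; rw [k'l, mul_zero]; exact Nat.zero_le _
    · by_cases h2 : i = o
      · subst h2; rw [k'o]; exact hkσ l
      · rw [k'i i h1 h2]; exact hkσ i
  set F := Rg σ (Function.update w l 0) with hF
  set S := F.filter fun x => ∀ i, k' i ≤ x i with hS
  -- the injection
  have hinj : S.card ≤ fc (σ - ∑ i, k i) (fun i => w i - k i) l := by
    unfold fc
    refine Finset.card_le_card_of_injOn (fun x i => x i - k' i) ?_ ?_
    · intro x hx
      have hx' := Finset.mem_coe.1 hx
      rw [hS, mem_filter, hF, mem_Rg] at hx'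
      obtain ⟨⟨h1, h2⟩, h3⟩ := hx'
      refine Finset.mem_coe.2 ?_
      rw [mem_Rg]
      constructor
      · intro i
        by_cases hi : i = l
        · subst hi
          have := h1 i
          rw [Function.update_self] at this ⊢
          simp only
          omega
        · rw [Function.update_of_ne hi]
          have := h1 i
          rw [Function.update_of_ne hi] at this
          by_cases hio : i = o
          · subst hio
            simp only [k'o, hko]
            omega
          · simp only [k'i i hi hio]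
            omega
      · rw [← hsum, ← h2]
        simp only
        have := Finset.sum_tsub_distrib (s := (univ : Finset ι)) (f := x) (g := k')
          (fun i _ => h3 i)
        exact this
    · intro x hx y hy hxy
      have hx' := Finset.mem_coe.1 hx
      have hy' := Finset.mem_coe.1 hy
      rw [hS, mem_filter] at hx' hy'
      funext i
      have h1 := congrFun hxy i
      simp only at h1
      have h2 := hx'.2 i
      have h3 := hy'.2 i
      omega
  -- the bad points
  set I := univ.filter fun i => 0 < k' i with hI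
  have hIcard : I.card ≤ N := by
    have h1 : I ⊆ (univ.filter fun i => 0 < w i).erase l := by
      intro i hi
      rw [hI, mem_filter] at hi
      have hil : i ≠ l := by
        rintro rfl
        rw [k'l] at hi
        exact absurd hi.2 (lt_irrefl 0)
      rw [mem_erase, mem_filter]
      refine ⟨hil, mem_univ _, ?_⟩
      have := hk'w i
      rw [Function.update_of_ne hil] at this
      have h2 : 0 < q * k' i := Nat.mul_pos (by omega) hi.2
      omega
    have h2 : l ∈ univ.filter fun i => 0 < w i := mem_filter.2 ⟨mem_univ _, hl⟩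
    have h3 := Finset.card_le_card h1
    rw [Finset.card_erase_of_mem h2] at h3
    omega
  have hact : (univ.filter fun i => 0 < Function.update w l 0 i).card ≤ N + 1 := by
    refine (Finset.card_le_card ?_).trans hcard
    intro i hi
    rw [mem_filter] at hi ⊢
    refine ⟨mem_univ _, ?_⟩
    by_cases h1 : i = l
    · subst h1; exact hl
    · have := hi.2
      rwa [Function.update_of_ne h1] at this
  have hX : ∀ i ∈ I, q * (F.filter fun x => x i < k' i).card ≤ 2 * N ^ 2 * F.card := by
    intro i hi
    rw [hI, mem_filter] at hi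
    have h1 := frac N hN σ (Function.update w l 0) i (k' i) (q * k' i) hact (hk'w i) (hk'σ i)
      (Nat.mul_le_mul_right _ hq)
    rw [← hF] at h1
    refine Nat.le_of_mul_le_mul_right ?_ hi.2
    calc q * (F.filter fun x => x i < k' i).card * k' i
        = (F.filter fun x => x i < k' i).card * (q * k' i) := by ring
      _ ≤ 2 * N ^ 2 * k' i * F.card := h1
      _ = 2 * N ^ 2 * F.card * k' i := by ring
  have hcov : F ⊆ S ∪ I.biUnion fun i => F.filter fun x => x i < k' i := by
    intro x hx
    rw [mem_union, mem_biUnion]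
    by_cases h : ∀ i, k' i ≤ x i
    · left
      rw [hS, mem_filter]
      exact ⟨hx, h⟩
    · right
      push Not at h
      obtain ⟨i, hi⟩ := h
      refine ⟨i, ?_, mem_filter.2 ⟨hx, hi⟩⟩
      rw [hI, mem_filter]
      exact ⟨mem_univ _, by omega⟩
  have hF2 : F.card ≤ S.card + ∑ i ∈ I, (F.filter fun x => x i < k' i).card :=
    (Finset.card_le_card hcov).trans ((Finset.card_union_le _ _).trans
      (Nat.add_le_add_left Finset.card_biUnion_le _))
  have hF3 : fc σ w l = F.card := rfl
  rw [hF3]
  calc q * F.card ≤ q * (S.card + ∑ i ∈ I, (F.filter fun x => x i < k' i).card) :=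
        Nat.mul_le_mul_left _ hF2
    _ = q * S.card + ∑ i ∈ I, q * (F.filter fun x => x i < k' i).card := by
        rw [mul_add, Finset.mul_sum]
    _ ≤ q * fc (σ - ∑ i, k i) (fun i => w i - k i) l + I.card * (2 * N ^ 2 * F.card) := by
        refine Nat.add_le_add (Nat.mul_le_mul_left _ hinj) ?_
        rw [← smul_eq_mul]
        exact Finset.sum_le_card_nsmul _ _ _ hX
    _ ≤ q * fc (σ - ∑ i, k i) (fun i => w i - k i) l + N * (2 * N ^ 2 * F.card) :=
        Nat.add_le_add_left (Nat.mul_le_mul_right _ hIcard) _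
    _ = q * fc (σ - ∑ i, k i) (fun i => w i - k i) l + 2 * N ^ 3 * F.card := by ring

end Pool.Agent.H18.Ex

end

section

/-!
# Module U6 (TB2): the limit lemma for a set of exponents

The same as `limit` in `Pool/Agent/H51/TB/Lim.lean` (proof there; helper59), with `Sx (Z a b) d` replaced
by a subset `A` and the level `Bx a b d j` by `A.filter fun α => yd α = j`.  `weighted` (module Eul) is needed
for arbitrary subsets of the levels: extend `g` by `0`.
-/

namespace Pool.Agent.H51.TB

open Finset Pool.Agent.H18.Ex Pool.Agent.H21.NX Pool.Agent.H18.Ta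

private theorem ULim_map {ι : Type} [Fintype ι] [DecidableEq ι] {R R' : Type*} [CommRing R]
    [CommRing R'] (φ : R →+* R') (q : ι → R) (α β : ι → ℕ) :
    tcr (fun i => φ (q i)) α β = φ (tcr q α β) := by
  unfold tcr
  rw [map_prod]
  refine prod_congr rfl fun i _ => ?_
  rw [map_mul, map_natCast, map_pow]

private theorem ULim_eval {a b : ℕ} (q : Z a b → ℂ) (α β : Z a b → ℕ) :
    MvPolynomial.eval q (tcr (fun i => (MvPolynomial.X i : MvPolynomial (Z a b) ℂ)) α β) =
      tcr q α β := by
  rw [← ULim_map (MvPolynomial.eval q)]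
  simp only [MvPolynomial.eval_X]

private theorem ULim_mem {a b : ℕ} (A : Finset (Z a b → ℕ)) {κ : Type} (m : κ → Finset (ℕ × ℕ))
    (p : κ → Z a b → ℂ) (f : {α // α ∈ A} → ℂ) :
    f ∈ (ASys A).V m p ↔ ∀ i (β : Z a b → ℕ), (xd β, yd β) ∈ m i →
      ∑ α : {α // α ∈ A}, tcr (p i) α.1 β * f α = 0 := by
  rw [Sys.mem_V]
  constructor
  · intro h i β hβ
    have h1 := h i ⟨β, hβ⟩
    refine Eq.trans (sum_congr rfl fun α _ => ?_) h1
    rw [← ULim_eval (p i) α.1 β]
    rfl
  · intro h i r
    have h1 := h i r.1 r.2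
    refine Eq.trans (sum_congr rfl fun α _ => ?_) h1
    rw [← ULim_eval (p i) α.1 r.1]
    rfl

/-- The positions at the time `t`. -/
private noncomputable def ULim_pos {a b : ℕ} (q : Z a b → ℂ) (s : ℂ) : Z a b → ℂ :=
  Sum.elim (fun k => q (Sum.inl k)) fun k => s * q (Sum.inr k)

private theorem ULim_scale {a b : ℕ} (q : Z a b → ℂ) (s : ℂ) (α β : Z a b → ℕ) :
    s ^ yd β * tcr (ULim_pos q s) α β = s ^ yd α * tcr q α β := by
  have h := tcr_scale (fun k => q (Sum.inl k)) (fun k => q (Sum.inr k)) s α β
  have h1 : Sum.elim (fun k => q (Sum.inl k)) (fun k => q (Sum.inr k)) = q := by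
    funext k
    rcases k with k | k <;> rfl
  rw [h1] at h
  exact h

private theorem ULim_sum {a b : ℕ} (β : Z a b → ℕ) : ∑ k, β k = xd β + yd β := by
  unfold xd yd
  exact Fintype.sum_sum_type β

/-- The polynomial solution. -/
private theorem ULim_poly {a b : ℕ} (A : Finset (Z a b → ℕ)) {κ : Type} [Fintype κ]
    (m : κ → ℕ) (e : κ → ℕ) (kp : ℕ → ℕ) (p : κ → Z a b → ℂ)
    (hcon : ¬ GI A fun i => Kind.free (m i)) :
    ∃ F : (Z a b → ℕ) → Polynomial ℂ,
      (∀ i (β : Z a b → ℕ), xd β + yd β < m i →
        ∑ α ∈ A, Polynomial.X ^ (e i * yd α + kp (yd α)) *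
          (F α * Polynomial.C (tcr (p i) α β)) = 0) ∧ ∃ α ∈ A, (F α).eval 0 ≠ 0 := by
  classical
  let ρ : Type := (i : κ) × (Z a b → Fin (m i))
  let Mx : ρ → (Z a b → ℕ) → Polynomial ℂ := fun r α =>
    if xd (fun k => (r.2 k : ℕ)) + yd (fun k => (r.2 k : ℕ)) < m r.1 then
      Polynomial.C (tcr (p r.1) α fun k => (r.2 k : ℕ)) *
        (Polynomial.X ^ (e r.1 * yd α + kp (yd α)) * Polynomial.X)
    else 0
  have hsol : ∀ t : ℂ, ∃ f : (Z a b → ℕ) → ℂ,
      (∀ r, ∑ α ∈ A, f α * (Mx r α).eval t = 0) ∧ ∃ α ∈ A, f α ≠ 0 := by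
    intro t
    have h1 : ¬ InjAt A (fun i => Kind.free (m i)) fun i => ULim_pos (p i) (t ^ e i) := fun h2 =>
      hcon ⟨_, h2⟩
    unfold InjAt at h1
    push Not at h1
    obtain ⟨f, hf, α₁, hα₁, hne⟩ := h1
    by_cases ht : t = 0
    · refine ⟨fun _ => 1, fun r => sum_eq_zero fun α _ => ?_, α₁, hα₁, one_ne_zero⟩
      subst ht
      simp only [Mx]
      split_ifs
      · simp
      · simp
    · refine ⟨fun α => f α * (t ^ kp (yd α))⁻¹, fun r => ?_, α₁, hα₁, ?_⟩
      · set β : Z a b → ℕ := fun k => (r.2 k : ℕ) with hβ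
        by_cases hr : xd β + yd β < m r.1
        · have h1 := hf r.1 β (by
            show ∑ k, β k < m r.1
            rw [ULim_sum]
            exact hr)
          have h2 : ∑ α ∈ A, f α * (t ^ kp (yd α))⁻¹ * (Mx r α).eval t =
              ((t ^ e r.1) ^ yd β * t) * ∑ α ∈ A, f α *
                tcr ((Kind.free (m r.1) : Kind (Z a b)).pt (ULim_pos (p r.1) (t ^ e r.1))) α β := by
            rw [mul_sum]
            refine sum_congr rfl fun α _ => ?_
            simp only [Mx]
            rw [if_pos hr]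
            simp only [Polynomial.eval_mul, Polynomial.eval_C, Polynomial.eval_pow,
              Polynomial.eval_X]
            have h3 := ULim_scale (p r.1) (t ^ e r.1) α β
            have h4 : (Kind.free (m r.1) : Kind (Z a b)).pt (ULim_pos (p r.1) (t ^ e r.1)) =
                ULim_pos (p r.1) (t ^ e r.1) := rfl
            rw [h4]
            have h5 : t ^ kp (yd α) ≠ 0 := pow_ne_zero _ ht
            have h6 : t ^ (e r.1 * yd α + kp (yd α)) = (t ^ e r.1) ^ yd α * t ^ kp (yd α) := by
              rw [← pow_mul, ← pow_add]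
            rw [h6]
            calc f α * (t ^ kp (yd α))⁻¹ * (tcr (p r.1) α β *
                  ((t ^ e r.1) ^ yd α * t ^ kp (yd α) * t)) =
                f α * t * ((t ^ kp (yd α))⁻¹ * t ^ kp (yd α)) *
                  ((t ^ e r.1) ^ yd α * tcr (p r.1) α β) := by ring
              _ = _ := by
                rw [inv_mul_cancel₀ h5, ← h3]
                ring
          rw [h2, h1, mul_zero]
        · refine sum_eq_zero fun α _ => ?_
          simp only [Mx]
          rw [if_neg hr, Polynomial.eval_zero, mul_zero]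
      · exact mul_ne_zero hne (inv_ne_zero (pow_ne_zero _ ht))
  obtain ⟨F, hF, hne⟩ := exists_poly_solution A Mx hsol
  refine ⟨F, fun i β hβ => ?_, hne⟩
  have hβk : ∀ k, β k < m i := by
    intro k
    have h1 : β k ≤ ∑ k, β k := single_le_sum (fun j _ => Nat.zero_le (β j)) (mem_univ k)
    rw [ULim_sum] at h1
    omega
  have h1 := hF ⟨i, fun k => ⟨β k, hβk k⟩⟩
  have h2 : Polynomial.X * ∑ α ∈ A, Polynomial.X ^ (e i * yd α + kp (yd α)) *
      (F α * Polynomial.C (tcr (p i) α β)) = 0 := by
    rw [← h1, mul_sum]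
    refine sum_congr rfl fun α _ => ?_
    simp only [Mx]
    rw [if_pos hβ]
    ring
  exact (mul_eq_zero.1 h2).resolve_left Polynomial.X_ne_zero

theorem limit_A {a b d : ℕ} (A : Finset (Z a b → ℕ)) (hA : A ⊆ Sx (Z a b) d) {κ : Type}
    [Fintype κ] (m : κ → ℕ) (c : κ → ℕ × ℕ) (hc : ∀ i, (c i).1 + (c i).2 ≤ d)
    (h : ∀ j ≤ d, (ASys (A.filter fun α => yd α = j)).gd (fun i => Lam d (m i) (c i) j) = 0) :
    GI A fun i => Kind.free (m i) := by
  classical
  obtain ⟨p, hp⟩ := (Gn.all (range (d + 1)) fun j _ =>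
    gn_gd (ASys (A.filter fun α => yd α = j)) fun i => Lam d (m i) (c i) j).exists
  have hbot : ∀ j ≤ d, (ASys (A.filter fun α => yd α = j)).V
      (fun i => Lam d (m i) (c i) j) p = ⊥ := by
    intro j hj
    have h1 := hp j (mem_range.2 (by omega))
    rw [h j hj] at h1
    exact Submodule.finrank_eq_zero.1 h1
  by_contra hcon
  obtain ⟨F, hF, α₀, hα₀, hne⟩ := ULim_poly A m (fun i => ex (d + 1) (c i).1 (c i).2)
    (kap (d + 1)) p hcon
  set K : κ → ℕ → ℕ := fun i j => ex (d + 1) (c i).1 (c i).2 * j + kap (d + 1) j with hK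
  set g : (Z a b → ℕ) → Polynomial ℂ := fun α => if α ∈ A then F α else 0 with hg
  -- the equations level by level
  have heq : ∀ i (β : Z a b → ℕ), xd β + yd β < m i →
      ∑ j ∈ range (d + 1), Polynomial.X ^ K i j *
        ∑ α ∈ Bx a b d j, g α * tcr (fun k => Polynomial.C (p i k)) α β = 0 := by
    intro i β hβ
    rw [← hF i β hβ]
    have h1 : ∀ j ∈ range (d + 1), Polynomial.X ^ K i j *
        ∑ α ∈ Bx a b d j, g α * tcr (fun k => Polynomial.C (p i k)) α β =
        ∑ α ∈ (Sx (Z a b) d).filter (fun α => yd α = j), Polynomial.X ^ K i (yd α) *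
          (g α * Polynomial.C (tcr (p i) α β)) := by
      intro j _
      rw [mul_sum]
      refine sum_congr rfl fun α hα => ?_
      rw [(mem_filter.1 hα).2, ULim_map (Polynomial.C : ℂ →+* Polynomial ℂ)]
    rw [sum_congr rfl h1]
    have h2 := sum_fiberwise_of_maps_to (s := Sx (Z a b) d) (t := range (d + 1))
      (g := fun α : Z a b → ℕ => yd α) (by
        intro α hα
        rw [mem_Sx, ULim_sum] at hα
        rw [mem_range]
        omega)
      (fun α => Polynomial.X ^ K i (yd α) * (g α * Polynomial.C (tcr (p i) α β)))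
    rw [h2, ← sum_subset hA]
    · refine sum_congr rfl fun α hα => ?_
      rw [hg]
      simp only
      rw [if_pos hα]
    · intro α _ hα
      rw [hg]
      simp only
      rw [if_neg hα, zero_mul, mul_zero]
  set j₀ := yd α₀ with hj₀
  have hj₀d : j₀ ≤ d := by
    have h1 := mem_Sx.1 (hA hα₀)
    rw [ULim_sum] at h1
    omega
  -- the values at zero
  have hmem : (fun α : {α // α ∈ A.filter fun α => yd α = j₀} => (F α.1).eval 0) ∈
      (ASys (A.filter fun α => yd α = j₀)).V (fun i => Lam d (m i) (c i) j₀) p := by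
    rw [ULim_mem]
    intro i β hβ
    obtain ⟨hβ1, hβ2, hβ3, hβ4⟩ := mem_filter.1 hβ
    simp only at hβ2 hβ3 hβ4
    set S : Finset ℕ := (range (d + 1)).filter fun j => yd β ≤ j ∧ j + xd β ≤ d ∧
      rk (d + 1) (c i).1 (c i).2 j < rk (d + 1) (c i).1 (c i).2 j₀ with hS
    have hcard : S.card = wr d (c i) (xd β, yd β) j₀ := rfl
    have h2 := weighted (d := d) (m := m i) (fun k => Polynomial.C (p i k)) g
      (fun j => Polynomial.X ^ K i j) (heq i) S β (by rw [hcard]; exact hβ4)
    have h3 := congrArg (fun q => Polynomial.coeff q (K i j₀)) h2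
    simp only [Polynomial.finsetSum_coeff, Polynomial.coeff_zero] at h3
    rw [sum_eq_single j₀] at h3
    · have h4 : (∏ u ∈ S, (((j₀ : ℕ) : Polynomial ℂ) - ((u : ℕ) : Polynomial ℂ))) =
          Polynomial.C (∏ u ∈ S, ((j₀ : ℂ) - (u : ℂ))) := by
        rw [map_prod]
        refine prod_congr rfl fun u _ => ?_
        rw [map_sub]
        simp
      rw [h4, Polynomial.coeff_C_mul, Polynomial.coeff_X_pow_mul', if_pos le_rfl,
        Nat.sub_self] at h3
      have h5 : (∏ u ∈ S, ((j₀ : ℂ) - (u : ℂ))) ≠ 0 := by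
        rw [prod_ne_zero_iff]
        intro u hu
        rw [sub_ne_zero]
        intro h6
        have h7 : j₀ = u := by exact_mod_cast h6
        have h8 := (mem_filter.1 hu).2.2.2
        rw [h7] at h8
        exact lt_irrefl _ h8
      have h6 := (mul_eq_zero.1 h3).resolve_left h5
      rw [Polynomial.coeff_zero_eq_eval_zero, Polynomial.eval_finsetSum] at h6
      refine Eq.trans (sum_coe_sort (A.filter fun α => yd α = j₀)
        (fun α => tcr (p i) α β * (F α).eval 0)) (Eq.trans ?_ h6)
      have h7 : A.filter (fun α => yd α = j₀) ⊆ Bx a b d j₀ := by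
        intro α hα
        obtain ⟨h8, h9⟩ := mem_filter.1 hα
        exact mem_filter.2 ⟨hA h8, h9⟩
      rw [← sum_subset h7]
      · refine sum_congr rfl fun α hα => ?_
        rw [hg]
        simp only
        rw [if_pos (mem_filter.1 hα).1, ULim_map (Polynomial.C : ℂ →+* Polynomial ℂ),
          Polynomial.eval_mul, Polynomial.eval_C, mul_comm]
      · intro α hα hα'
        have h8 : α ∉ A := by
          intro h9
          exact hα' (mem_filter.2 ⟨h9, (mem_filter.1 hα).2⟩)
        rw [hg]
        simp only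
        rw [if_neg h8, zero_mul, Polynomial.eval_zero]
    · intro j hj hne'
      rw [mem_range] at hj
      by_cases hw : yd β ≤ j ∧ j + xd β ≤ d
      · by_cases hjS : j ∈ S
        · rw [prod_eq_zero hjS (sub_self _), zero_mul, Polynomial.coeff_zero]
        · have h4 : rk (d + 1) (c i).1 (c i).2 j₀ ≤ rk (d + 1) (c i).1 (c i).2 j := by
            by_contra h5
            exact hjS (mem_filter.2 ⟨mem_range.2 hj, hw.1, hw.2, by omega⟩)
          have h5 : rk (d + 1) (c i).1 (c i).2 j₀ < rk (d + 1) (c i).1 (c i).2 j := by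
            refine lt_of_le_of_ne h4 fun h6 => hne' ?_
            exact (rk_inj (show (c i).1 + (c i).2 < d + 1 by have := hc i; omega)
              (show j₀ < d + 1 by omega) hj h6).symm
          have h6 := key_lt (show (c i).1 + (c i).2 < d + 1 by have := hc i; omega)
            (show j₀ < d + 1 by omega) hj h5
          rw [mul_left_comm, Polynomial.coeff_X_pow_mul', if_neg (by
            have h7 : K i j₀ < K i j := h6
            omega)]
      · have h4 : ∑ α ∈ Bx a b d j, g α * tcr (fun k => Polynomial.C (p i k)) α β = 0 := by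
          refine sum_eq_zero fun α hα => ?_
          rw [tcr_zero _ α β hα hw, mul_zero]
        rw [h4, mul_zero, mul_zero, Polynomial.coeff_zero]
    · intro hj
      exact absurd (mem_range.2 (by omega)) hj
  rw [hbot j₀ hj₀d, Submodule.mem_bot] at hmem
  exact hne (congrFun hmem ⟨α₀, mem_filter.2 ⟨hα₀, rfl⟩⟩)

end Pool.Agent.H51.TB

end

section

/-!
# Module U7 (TB2): a point at a coordinate point; the number of exponents

`GM_cons`: the position of the new point is the coordinate point `q` (`q o = 1`, `q = 0` at the other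
variables).  For `α` with `α o + M > d` and `β = α` with `β o = 0` (so `|β| = d - α o < M`), the condition
`β` at `q` is `f α = 0`: `tcr q α' β ≠ 0` only if `α' = β` off `o`, that is `α' = α`.  So `f` is supported on
the exponents with `α o + M ≤ d`, and satisfies the conditions `S` there.

`card_Bu_add`: `wr d (0, 0) g j = j - g.2` for `g.2 ≤ j ≤ d - g.1` (`rk (d + 1) 0 0 i = i`), so
`Lam d M (0, 0) j = {g : g.2 ≤ j, g.1 + j < M}` and `wt a b d M (0, 0) j` is
`multichoose a (M - j - 1) * multichoose b j` for `j < M` and `0` for `j ≥ M`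
(`∑_{k ≤ n} multichoose (a - 1) k = multichoose a n`), which is the number of the exponents of the level `j`
with `α_o ≥ d - M + 1`.  (`card_Bx` in `LBas.lean` has the proof of the product formula.)
-/

namespace Pool.Agent.H51.TB

open Finset Pool.Agent.H18.Ex Pool.Agent.H21.NX Pool.Agent.H18.Ta

private theorem UPt_tcr_eq {ι : Type} [Fintype ι] [DecidableEq ι] (o : ι) (a : ι → ℕ) :
    tcr (fun i => if i = o then (1 : ℂ) else 0) a (Function.update a o 0) = 1 := by
  unfold tcr
  refine prod_eq_one fun i _ => ?_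
  beta_reduce
  by_cases hi : i = o
  · subst hi
    rw [Function.update_self, if_pos rfl, Nat.choose_zero_right, one_pow, Nat.cast_one, one_mul]
  · rw [Function.update_of_ne hi, if_neg hi, Nat.choose_self, Nat.sub_self, pow_zero, Nat.cast_one,
      one_mul]

private theorem UPt_tcr_zero {ι : Type} [Fintype ι] [DecidableEq ι] (o : ι) (a c : ι → ℕ)
    (h : ∑ i, a i = ∑ i, c i) (hne : c ≠ a) :
    tcr (fun i => if i = o then (1 : ℂ) else 0) c (Function.update a o 0) = 0 := by
  by_contra h00
  apply hne
  unfold tcr at h00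
  have h0 := prod_ne_zero_iff.1 h00
  have h1 : ∀ i, i ≠ o → c i = a i := by
    intro i hi
    have h2 := h0 i (mem_univ i)
    beta_reduce at h2
    rw [Function.update_of_ne hi, if_neg hi] at h2
    have h3 : ((c i).choose (a i) : ℂ) ≠ 0 := left_ne_zero_of_mul h2
    have h4 : (0 : ℂ) ^ (c i - a i) ≠ 0 := right_ne_zero_of_mul h2
    have h5 : a i ≤ c i := by
      by_contra h6
      apply h3
      rw [Nat.choose_eq_zero_of_lt (by omega), Nat.cast_zero]
    have h7 : c i - a i = 0 := by
      by_contra h8
      exact h4 (zero_pow h8)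
    omega
  have h9 : c o = a o := by
    have e1 := Finset.add_sum_erase univ a (mem_univ o)
    have e2 := Finset.add_sum_erase univ c (mem_univ o)
    have e3 : ∑ i ∈ univ.erase o, c i = ∑ i ∈ univ.erase o, a i :=
      sum_congr rfl fun i hi => h1 i (ne_of_mem_erase hi)
    omega
  funext i
  by_cases hi : i = o
  · rw [hi]; exact h9
  · exact h1 i hi

theorem GM_cons {ι : Type} [Fintype ι] [DecidableEq ι] (o : ι) (d M : ℕ) (S : Multiset (Kind ι))
    (h : GM ((Sx ι d).filter fun α => α o + M ≤ d) S) : GM (Sx ι d) (Kind.free M ::ₘ S) := by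
  obtain ⟨n, k, rfl, pos, hpos⟩ := h
  refine ⟨n + 1, Fin.cons (Kind.free M) k, ?_,
    Fin.cons (fun i => if i = o then (1 : ℂ) else 0) pos, ?_⟩
  · rw [Fin.univ_val_map, Fin.univ_val_map, List.ofFn_cons]
    rfl
  · intro f hf
    have hz : ∀ a ∈ Sx ι d, d < a o + M → f a = 0 := by
      intro a ha hao
      have h1 := hf 0 (Function.update a o 0)
      rw [Fin.cons_zero, Fin.cons_zero] at h1
      have ha' := mem_Sx.1 ha
      have h2 : ∑ i, Function.update a o 0 i < M := by
        have e1 := Finset.add_sum_erase univ a (mem_univ o)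
        have e2 := Finset.add_sum_erase univ (Function.update a o 0) (mem_univ o)
        have e3 : ∑ i ∈ univ.erase o, Function.update a o 0 i = ∑ i ∈ univ.erase o, a i :=
          sum_congr rfl fun i hi => Function.update_of_ne (ne_of_mem_erase hi) _ _
        rw [Function.update_self] at e2
        omega
      have h3 := h1 h2
      rw [sum_eq_single a] at h3
      · have h4 : (Kind.free M : Kind ι).pt (fun i => if i = o then (1 : ℂ) else 0) =
            fun i => if i = o then (1 : ℂ) else 0 := rfl
        rw [h4, UPt_tcr_eq, mul_one] at h3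
        exact h3
      · intro c hc hca
        have h4 : (Kind.free M : Kind ι).pt (fun i => if i = o then (1 : ℂ) else 0) =
            fun i => if i = o then (1 : ℂ) else 0 := rfl
        rw [h4, UPt_tcr_zero o a c (by rw [ha', mem_Sx.1 hc]) hca, mul_zero]
      · intro hn
        exact absurd ha hn
    have hA : ∀ a ∈ (Sx ι d).filter fun α => α o + M ≤ d, f a = 0 := by
      refine hpos f fun j b hb => ?_
      have h1 := hf j.succ b
      rw [Fin.cons_succ, Fin.cons_succ] at h1
      rw [← h1 hb]
      refine sum_subset (filter_subset _ _) fun a ha hna => ?_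
      rw [mem_filter, not_and] at hna
      rw [hz a ha (by have := hna ha; omega), zero_mul]
    intro a ha
    by_cases hao : a o + M ≤ d
    · exact hA a (mem_filter.2 ⟨ha, hao⟩)
    · exact hz a ha (by omega)

private theorem UPt_mc {n : ℕ} (hn : 1 ≤ n) (k : ℕ) :
    ∑ i ∈ range (k + 1), Nat.multichoose (n - 1) i = Nat.multichoose n k := by
  obtain ⟨m, rfl⟩ : ∃ m, n = m + 1 := ⟨n - 1, by omega⟩
  rw [Nat.sum_range_multichoose, Nat.multichoose_eq]
  have h1 : m + 1 + k - 1 = m + k := by omega
  have h2 : k + (m + 1 - 1) = m + k := by omega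
  have h3 : m + 1 - 1 = m := by omega
  rw [h1, h2, h3]
  exact Nat.choose_symm_add

private theorem UPt_rk (l i : ℕ) : rk l 0 0 i = i := by
  unfold rk
  split_ifs <;> omega

private theorem UPt_wr {d j : ℕ} {g : ℕ × ℕ} (h1 : g.2 ≤ j) (h2 : j + g.1 ≤ d) :
    wr d (0, 0) g j = j - g.2 := by
  unfold wr
  have h3 : ((range (d + 1)).filter fun i => g.2 ≤ i ∧ i + g.1 ≤ d ∧
      rk (d + 1) (0, 0).1 (0, 0).2 i < rk (d + 1) (0, 0).1 (0, 0).2 j) = Finset.Ico g.2 j := by
    ext i
    rw [mem_filter, mem_range, mem_Ico, UPt_rk, UPt_rk]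
    omega
  rw [h3, Nat.card_Ico]

private theorem UPt_Lam {d j M : ℕ} (hM : M ≤ d) :
    Lam d M (0, 0) j = range (M - j) ×ˢ range (j + 1) := by
  ext g
  unfold Lam
  rw [mem_filter, mem_product, mem_product, mem_range, mem_range, mem_range, mem_range]
  constructor
  · rintro ⟨⟨h1, h2⟩, h3, h4, h5⟩
    rw [UPt_wr h3 h4] at h5
    omega
  · rintro ⟨h1, h2⟩
    refine ⟨⟨by omega, by omega⟩, by omega, by omega, ?_⟩
    rw [UPt_wr (by omega) (by omega)]
    omega

private theorem UPt_wt {a b d j M : ℕ} (hM : M ≤ d) (ha : 1 ≤ a) (hb : 1 ≤ b) :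
    wt a b d M (0, 0) j = if j < M then bet a b (M - 1) j else 0 := by
  unfold wt
  rw [UPt_Lam hM, sum_product]
  split_ifs with h
  · have h1 : M - j = (M - 1 - j) + 1 := by omega
    unfold Eg bet
    rw [h1, ← UPt_mc ha (M - 1 - j), ← UPt_mc hb j, sum_mul_sum]
  · have h1 : M - j = 0 := by omega
    rw [h1, range_zero, sum_empty]

private theorem UPt_hi {a b d j M : ℕ} (hj : j ≤ d) (hM : M ≤ d) (o : Fin a) :
    ((Bx a b d j).filter fun α => ¬ α (Sum.inl o) ≤ d - M).card =
      if j < M then bet a b (M - 1) j else 0 := by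
  have hxd : ∀ α : Z a b → ℕ, α (Sum.inl o) ≤ xd α := by
    intro α
    unfold xd
    exact single_le_sum (f := fun i => α (Sum.inl i)) (fun i _ => Nat.zero_le _) (mem_univ o)
  split_ifs with h
  · rw [← card_Bx (a := a) (b := b) (d := M - 1) (j := j) (by omega)]
    symm
    have hup : ∀ (α : Z a b → ℕ) (v : ℕ),
        xd (Function.update α (Sum.inl o) v) + α (Sum.inl o) = xd α + v ∧
          yd (Function.update α (Sum.inl o) v) = yd α := by
      intro α v
      constructor
      · unfold xd
        have e1 := Finset.add_sum_erase univ (fun i => α (Sum.inl i)) (mem_univ o)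
        have e2 := Finset.add_sum_erase univ
          (fun i => Function.update α (Sum.inl o) v (Sum.inl i)) (mem_univ o)
        have e3 : ∑ i ∈ univ.erase o, Function.update α (Sum.inl o) v (Sum.inl i) =
            ∑ i ∈ univ.erase o, α (Sum.inl i) :=
          sum_congr rfl fun i hi => Function.update_of_ne
            (fun hh => ne_of_mem_erase hi (Sum.inl_injective hh)) _ _
        simp only [Function.update_self] at e2
        beta_reduce at e1 e2
        omega
      · unfold yd
        exact sum_congr rfl fun i _ => Function.update_of_ne (by exact Sum.inr_ne_inl) _ _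
    refine card_bij' (fun α _ => Function.update α (Sum.inl o) (α (Sum.inl o) + (d - M + 1)))
      (fun α _ => Function.update α (Sum.inl o) (α (Sum.inl o) - (d - M + 1))) ?_ ?_ ?_ ?_
    · intro α hα
      rw [mem_Bx] at hα
      have h1 := hup α (α (Sum.inl o) + (d - M + 1))
      rw [mem_filter, mem_Bx, Function.update_self]
      omega
    · intro α hα
      rw [mem_filter, mem_Bx] at hα
      have h1 := hup α (α (Sum.inl o) - (d - M + 1))
      rw [mem_Bx]
      omega
    · intro α _
      rw [Function.update_self, Function.update_idem]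
      have h1 : α (Sum.inl o) + (d - M + 1) - (d - M + 1) = α (Sum.inl o) := by omega
      rw [h1, Function.update_eq_self]
    · intro α hα
      rw [mem_filter] at hα
      rw [Function.update_self, Function.update_idem]
      have h1 : α (Sum.inl o) - (d - M + 1) + (d - M + 1) = α (Sum.inl o) := by omega
      rw [h1, Function.update_eq_self]
  · rw [card_eq_zero, filter_eq_empty_iff]
    intro α hα
    rw [mem_Bx] at hα
    have h1 := hxd α
    omega

theorem card_Bu_add {a b d j M : ℕ} (hb : 1 ≤ b) (hj : j ≤ d) (hM : M ≤ d) (o : Fin a) :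
    ((Bx a b d j).filter fun α => α (Sum.inl o) ≤ d - M).card + wt a b d M (0, 0) j =
      bet a b d j := by
  have ha : 1 ≤ a := by
    have := o.isLt
    omega
  rw [UPt_wt hM ha hb, ← UPt_hi hj hM o, ← card_Bx (a := a) (b := b) hj]
  exact card_filter_add_card_filter_not _

end Pool.Agent.H51.TB

end

section

/-!
# V7, NUM: the numbers `bb`

`bb_vand` (one more block of free variables), `bb_zero`, `bb_self`.
-/

set_option autoImplicit false

namespace Pool.Agent.V7

open Finset

/-- Vandermonde for `multichoose`. -/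
theorem mc_vand (n c k : ℕ) :
    (n + c).multichoose k = ∑ l ∈ range (k + 1), c.multichoose l * n.multichoose (k - l) := by
  induction c generalizing k with
  | zero =>
    rw [sum_range_succ']
    have h1 : ∑ l ∈ range k, Nat.multichoose 0 (l + 1) * n.multichoose (k - (l + 1)) = 0 :=
      sum_eq_zero fun l _ => by rw [Nat.multichoose_zero_succ, zero_mul]
    rw [h1, Nat.multichoose_zero_right, zero_add, one_mul, Nat.add_zero, Nat.sub_zero]
  | succ c ihc =>
    induction k with
    | zero => simp
    | succ k ihk =>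
      have h1 : (n + (c + 1)).multichoose (k + 1) =
          (n + c).multichoose (k + 1) + (n + (c + 1)).multichoose k := by
        rw [← add_assoc, Nat.multichoose_succ_succ]
      rw [h1, ihc (k + 1), ihk, sum_range_succ', sum_range_succ' _ (k + 1)]
      simp only [Nat.multichoose_zero_right, one_mul, Nat.sub_zero]
      have h2 : ∀ l ∈ range (k + 1), (c + 1).multichoose (l + 1) * n.multichoose (k + 1 - (l + 1)) =
          c.multichoose (l + 1) * n.multichoose (k + 1 - (l + 1)) +
            (c + 1).multichoose l * n.multichoose (k - l) := by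
        intro l _
        rw [Nat.multichoose_succ_succ, add_mul, Nat.add_sub_add_right]
      rw [sum_congr rfl h2, sum_add_distrib]
      ring

/-- NUM-A1. -/
theorem bb_vand (c k j n : ℕ) (h : j * c ≤ n) :
    bb c k j (n + c) = ∑ l ∈ range (k + 1), c.multichoose l * bb c (k - l) j n := by
  induction j generalizing n k with
  | zero => exact mc_vand n c k
  | succ j ih =>
    have h1 : j * c + c ≤ n := by
      rw [add_mul, one_mul] at h
      exact h
    obtain ⟨n, rfl⟩ : ∃ n', n = n' + c := ⟨n - c, by omega⟩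
    have h2 : j * c ≤ n := by omega
    have h3 : ∀ k, bb c k j n ≤ bb c k j (n + c) := by
      intro k
      rw [ih k n h2, sum_range_succ']
      simp
    show bb c k j (n + c + c) - bb c k j (n + c + c - c) =
      ∑ l ∈ range (k + 1), c.multichoose l * (bb c (k - l) j (n + c) - bb c (k - l) j (n + c - c))
    rw [Nat.add_sub_cancel, Nat.add_sub_cancel, ih k (n + c) (by omega)]
    conv_lhs => rw [ih k n h2]
    have h4 : ∑ l ∈ range (k + 1), c.multichoose l * bb c (k - l) j (n + c) =
        ∑ l ∈ range (k + 1), c.multichoose l * (bb c (k - l) j (n + c) - bb c (k - l) j n) +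
          ∑ l ∈ range (k + 1), c.multichoose l * bb c (k - l) j n := by
      rw [← sum_add_distrib]
      refine sum_congr rfl fun l _ => ?_
      rw [← mul_add, Nat.sub_add_cancel (h3 (k - l))]
    rw [h4, Nat.add_sub_cancel]

/-- The monomials which meet one more block, by their degree in this block. -/
theorem bb_succ_sum (c k j n : ℕ) (h : (j + 1) * c ≤ n) :
    bb c k (j + 1) n = ∑ l ∈ range k, c.multichoose (l + 1) * bb c (k - (l + 1)) j (n - c) := by
  have h1 : j * c + c ≤ n := by
    rw [add_mul, one_mul] at h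
    exact h
  obtain ⟨n, rfl⟩ : ∃ n', n = n' + c := ⟨n - c, by omega⟩
  show bb c k j (n + c) - bb c k j (n + c - c) = _
  rw [Nat.add_sub_cancel, bb_vand c k j n (by omega), sum_range_succ']
  simp

/-- NUM-A3. -/
theorem bb_zero (c k j n : ℕ) (h : j * c ≤ n) (hk : k < j) : bb c k j n = 0 := by
  induction j generalizing n k with
  | zero => exact absurd hk (Nat.not_lt_zero k)
  | succ j ih =>
    rw [bb_succ_sum c k j n h]
    refine sum_eq_zero fun l hl => ?_
    rw [mem_range] at hl
    have h1 : j * c + c ≤ n := by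
      rw [add_mul, one_mul] at h
      exact h
    rw [ih (k - (l + 1)) (n - c) (by omega) (by omega), mul_zero]

/-- NUM-A4. -/
theorem bb_self (c k n : ℕ) (h : k * c ≤ n) : bb c k k n = c ^ k := by
  induction k generalizing n with
  | zero => exact Nat.multichoose_zero_right n
  | succ k ih =>
    have h1 : k * c + c ≤ n := by
      rw [add_mul, one_mul] at h
      exact h
    rw [bb_succ_sum c (k + 1) k n h, sum_range_succ']
    have h2 : ∑ l ∈ range k, c.multichoose (l + 1 + 1) * bb c (k + 1 - (l + 1 + 1)) k (n - c) = 0 := by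
      refine sum_eq_zero fun l hl => ?_
      rw [mem_range] at hl
      rw [bb_zero c (k + 1 - (l + 1 + 1)) k (n - c) (by omega) (by omega), mul_zero]
    rw [h2, zero_add]
    show c.multichoose 1 * bb c (k + 1 - 1) k (n - c) = c ^ (k + 1)
    rw [Nat.add_sub_cancel, ih (n - c) (by omega), Nat.multichoose_one_right, pow_succ, mul_comm]

end Pool.Agent.V7

end

section

/-!
# V7, NUM: the asymptotic size of the numbers `bb`
-/

set_option autoImplicit false

namespace Pool.Agent.V7

open Finset Polynomial

/-- The polynomials with the values `bb`. -/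
private noncomputable def asymP (c k : ℕ) : ℕ → ℝ[X]
  | 0 => C (1 / (k.factorial : ℝ)) * ascPochhammer ℝ k
  | j + 1 => asymP c k j - (asymP c k j).comp (X - C (c : ℝ))

private theorem asym_coeff_comp (c : ℝ) (p : ℝ[X]) (D : ℕ) (hp : p.natDegree ≤ D) (m : ℕ) :
    (p.comp (X - C c)).coeff m =
      ∑ i ∈ range (D + 1), p.coeff i * ((-c) ^ (i - m) * (i.choose m : ℝ)) := by
  rw [comp_eq_sum_left, p.sum_over_range' _ (D + 1) (by omega), finsetSum_coeff]
  · refine sum_congr rfl fun i _ => ?_
    rw [coeff_C_mul, sub_eq_add_neg, ← C_neg, coeff_X_add_C_pow]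
  · intro i
    rw [C_0, zero_mul]

private theorem asym_step (c : ℝ) (p : ℝ[X]) (D : ℕ) (hp : p.natDegree ≤ D + 1) :
    (p - p.comp (X - C c)).natDegree ≤ D ∧
      (p - p.comp (X - C c)).coeff D = c * (D + 1) * p.coeff (D + 1) := by
  constructor
  · rw [natDegree_le_iff_coeff_eq_zero]
    intro N hN
    rw [coeff_sub, asym_coeff_comp c p (D + 1) hp]
    rcases Nat.lt_or_ge (D + 1) N with h | h
    · rw [coeff_eq_zero_of_natDegree_lt (lt_of_le_of_lt hp h), zero_sub, neg_eq_zero]
      refine sum_eq_zero fun i hi => ?_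
      rw [mem_range] at hi
      rw [Nat.choose_eq_zero_of_lt (by omega), Nat.cast_zero, mul_zero, mul_zero]
    · obtain rfl : N = D + 1 := by omega
      rw [sum_range_succ, Nat.sub_self, pow_zero, Nat.choose_self, Nat.cast_one, mul_one, mul_one]
      have h1 : ∑ i ∈ range (D + 1), p.coeff i * ((-c) ^ (i - (D + 1)) *
          (i.choose (D + 1) : ℝ)) = 0 := by
        refine sum_eq_zero fun i hi => ?_
        rw [mem_range] at hi
        rw [Nat.choose_eq_zero_of_lt hi, Nat.cast_zero, mul_zero, mul_zero]
      rw [h1]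
      ring
  · rw [coeff_sub, asym_coeff_comp c p (D + 1) hp, sum_range_succ, sum_range_succ]
    have h1 : ∑ i ∈ range D, p.coeff i * ((-c) ^ (i - D) * (i.choose D : ℝ)) = 0 := by
      refine sum_eq_zero fun i hi => ?_
      rw [mem_range] at hi
      rw [Nat.choose_eq_zero_of_lt hi, Nat.cast_zero, mul_zero, mul_zero]
    rw [h1, Nat.sub_self, pow_zero, Nat.choose_self, Nat.cast_one, Nat.add_sub_cancel_left, pow_one,
      Nat.choose_succ_self_right]
    push_cast
    ring

private theorem asymP_eval (c k j n : ℕ) (h : j * c ≤ n) :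
    (asymP c k j).eval (n : ℝ) = (bb c k j n : ℝ) := by
  induction j generalizing n with
  | zero =>
    show (C (1 / (k.factorial : ℝ)) * ascPochhammer ℝ k).eval (n : ℝ) = (n.multichoose k : ℝ)
    rw [eval_mul, eval_C, ascPochhammer_nat_eq_natCast_ascFactorial]
    have h1 : n.ascFactorial k = k.factorial * n.multichoose k := by
      rw [Nat.multichoose_eq, Nat.ascFactorial_eq_factorial_mul_choose']
    rw [h1, Nat.cast_mul]
    have h2 : (k.factorial : ℝ) ≠ 0 := by exact_mod_cast k.factorial_ne_zero
    field_simp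
  | succ j ih =>
    have h1 : j * c + c ≤ n := by
      rw [add_mul, one_mul] at h
      exact h
    obtain ⟨n, rfl⟩ : ∃ n', n = n' + c := ⟨n - c, by omega⟩
    have h2 : j * c ≤ n := by omega
    have h3 : bb c k j n ≤ bb c k j (n + c) := by
      rw [bb_vand c k j n h2, sum_range_succ']
      simp
    show (asymP c k j - (asymP c k j).comp (X - C (c : ℝ))).eval ((n + c : ℕ) : ℝ) =
      ((bb c k j (n + c) - bb c k j (n + c - c) : ℕ) : ℝ)
    rw [Nat.add_sub_cancel, Nat.cast_sub h3, eval_sub, eval_comp, ih (n + c) (by omega), eval_sub,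
      eval_X, eval_C]
    have h4 : ((n + c : ℕ) : ℝ) - (c : ℝ) = (n : ℝ) := by
      push_cast
      ring
    rw [h4, ih n h2]

private theorem asymP_deg (c k j : ℕ) (hj : j ≤ k) :
    (asymP c k j).natDegree ≤ k - j ∧
      (asymP c k j).coeff (k - j) = (c : ℝ) ^ j / ((k - j).factorial : ℝ) := by
  induction j with
  | zero =>
    show (C (1 / (k.factorial : ℝ)) * ascPochhammer ℝ k).natDegree ≤ k - 0 ∧
      (C (1 / (k.factorial : ℝ)) * ascPochhammer ℝ k).coeff (k - 0) =
        (c : ℝ) ^ 0 / ((k - 0).factorial : ℝ)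
    rw [Nat.sub_zero, pow_zero]
    have h1 : (ascPochhammer ℝ k).natDegree = k := ascPochhammer_natDegree ℝ k
    refine ⟨(natDegree_C_mul_le _ _).trans h1.le, ?_⟩
    rw [coeff_C_mul]
    have h2 : (ascPochhammer ℝ k).coeff k = 1 := by
      have h3 := monic_ascPochhammer ℝ k
      rw [Monic, leadingCoeff, h1] at h3
      exact h3
    rw [h2, mul_one]
  | succ j ih =>
    obtain ⟨D, hD⟩ : ∃ D, k - j = D + 1 := ⟨k - j - 1, by omega⟩
    have hD' : k - (j + 1) = D := by omega
    obtain ⟨h1, h2⟩ := ih (by omega)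
    rw [hD] at h1 h2
    rw [hD']
    obtain ⟨h3, h4⟩ := asym_step (c : ℝ) (asymP c k j) D h1
    refine ⟨h3, ?_⟩
    show (asymP c k j - (asymP c k j).comp (X - C (c : ℝ))).coeff D = _
    rw [h4, h2, Nat.factorial_succ, pow_succ]
    have h5 : (D.factorial : ℝ) ≠ 0 := by exact_mod_cast D.factorial_ne_zero
    have h6 : ((D : ℝ) + 1) ≠ 0 := by positivity
    push_cast
    field_simp

/-- NUM-A5. -/
theorem bb_asym (c k j : ℕ) (hj : j ≤ k) : ∃ K : ℝ, 0 < K ∧ ∀ n : ℕ, 1 ≤ n → j * c ≤ n →
    |(bb c k j n : ℝ) - (c : ℝ) ^ j / ((k - j).factorial : ℝ) * (n : ℝ) ^ (k - j)| ≤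
      K / n * (n : ℝ) ^ (k - j) := by
  obtain ⟨h1, h2⟩ := asymP_deg c k j hj
  set p := asymP c k j with hp
  set D := k - j with hD
  refine ⟨(∑ i ∈ range D, |p.coeff i|) + 1, by positivity, fun n hn hjn => ?_⟩
  have hn1 : (1 : ℝ) ≤ (n : ℝ) := by exact_mod_cast hn
  have hn0 : (0 : ℝ) < (n : ℝ) := by linarith
  rw [← asymP_eval c k j n hjn, ← h2, ← hp, eval_eq_sum_range' (Nat.lt_succ_of_le h1),
    sum_range_succ, add_sub_cancel_right]
  calc |∑ i ∈ range D, p.coeff i * (n : ℝ) ^ i| ≤ ∑ i ∈ range D, |p.coeff i * (n : ℝ) ^ i| :=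
        abs_sum_le_sum_abs _ _
    _ ≤ ∑ i ∈ range D, |p.coeff i| * (1 / (n : ℝ) * (n : ℝ) ^ D) := by
        refine sum_le_sum fun i hi => ?_
        rw [mem_range] at hi
        rw [abs_mul, abs_of_nonneg (pow_nonneg hn0.le i)]
        refine mul_le_mul_of_nonneg_left ?_ (abs_nonneg _)
        obtain ⟨E, hE⟩ : ∃ E, D = E + 1 := ⟨D - 1, by omega⟩
        rw [hE, pow_succ, one_div, mul_comm ((n : ℝ) ^ E), inv_mul_cancel_left₀ hn0.ne']
        exact pow_le_pow_right₀ hn1 (by omega)
    _ = (∑ i ∈ range D, |p.coeff i|) * (1 / (n : ℝ) * (n : ℝ) ^ D) := by rw [sum_mul]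
    _ ≤ ((∑ i ∈ range D, |p.coeff i|) + 1) * (1 / (n : ℝ) * (n : ℝ) ^ D) := by
        refine mul_le_mul_of_nonneg_right (by linarith) (by positivity)
    _ = ((∑ i ∈ range D, |p.coeff i|) + 1) / n * (n : ℝ) ^ D := by ring

end Pool.Agent.V7

end
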