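import Pool.Agent.H94.LP5.M05
import Pool.Agent.H94.LP5.M26

/-! The parts of this file: H18.Ex.Refl, V7.AL.SwapK, V7.ST.TraceAbs. -/

section

/-!
# Module Refl: the toric reflection `x ↦ 1/x`
-/

namespace Pool.Agent.H18.Ex

open Finset

variable {ι : Type} [Fintype ι] [DecidableEq ι]

/-! ### Auxiliary facts -/

theorem refl_choose (β : ℕ) : ∀ a w : ℕ, a ≤ w →
    ∑ b ∈ range (β + 1), (-1 : ℂ) ^ b * (a.choose b : ℂ) * ((w - b).choose (β - b) : ℂ) =
      ((w - a).choose β : ℂ) := by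
  induction β with
  | zero => intro a w _; simp
  | succ β ihβ =>
    intro a
    induction a with
    | zero =>
      intro w _
      rw [Finset.sum_eq_single 0]
      · simp
      · intro b _ hb
        obtain ⟨c, rfl⟩ := Nat.exists_eq_succ_of_ne_zero hb
        simp
      · simp
    | succ a iha =>
      intro w hw
      obtain ⟨w, rfl⟩ : ∃ v, w = v + 1 := ⟨w - 1, by omega⟩
      have h1 := iha (w + 1) (by omega)
      have h2 := ihβ a w (by omega)
      rw [Finset.sum_range_succ'] at h1 ⊢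
      have h3 : ∀ b : ℕ, (-1 : ℂ) ^ (b + 1) * ((a + 1).choose (b + 1) : ℂ) *
          ((w + 1 - (b + 1)).choose (β + 1 - (b + 1)) : ℂ) =
          (-1 : ℂ) ^ (b + 1) * (a.choose (b + 1) : ℂ) *
          ((w + 1 - (b + 1)).choose (β + 1 - (b + 1)) : ℂ) -
          (-1 : ℂ) ^ b * (a.choose b : ℂ) * ((w - b).choose (β - b) : ℂ) := by
        intro b
        rw [Nat.choose_succ_succ, Nat.add_sub_add_right, Nat.add_sub_add_right]
        push_cast
        ring
      rw [Finset.sum_congr rfl fun b _ => h3 b, Finset.sum_sub_distrib, h2]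
      have h4 : (((w + 1 - a).choose (β + 1) : ℕ) : ℂ) =
          ((w - a).choose β : ℂ) + ((w - a).choose (β + 1) : ℂ) := by
        rw [show w + 1 - a = (w - a) + 1 by omega, Nat.choose_succ_succ]
        push_cast
        rfl
      rw [h4] at h1
      rw [show w + 1 - (a + 1) = w - a by omega]
      simp only [pow_zero, Nat.choose_zero_right, Nat.cast_one, one_mul, Nat.sub_zero] at h1 ⊢
      linear_combination h1

theorem refl_one (a w β : ℕ) (haw : a ≤ w) (q : ℂ) (hq : q ≠ 0) :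
    ((w - a).choose β : ℂ) * (q⁻¹) ^ (w - a - β) =
      ∑ b ∈ range (β + 1), ((a.choose b : ℂ) * q ^ (a - b)) *
        ((-1 : ℂ) ^ b * ((w - b).choose (β - b) : ℂ) * q ^ b * (q⁻¹) ^ (w - β)) := by
  have h1 : ∀ b ∈ range (β + 1), ((a.choose b : ℂ) * q ^ (a - b)) *
        ((-1 : ℂ) ^ b * ((w - b).choose (β - b) : ℂ) * q ^ b * (q⁻¹) ^ (w - β)) =
      ((-1 : ℂ) ^ b * (a.choose b : ℂ) * ((w - b).choose (β - b) : ℂ)) *
        (q ^ a * (q⁻¹) ^ (w - β)) := by
    intro b _
    rcases Nat.lt_or_ge a b with hb | hb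
    · rw [Nat.choose_eq_zero_of_lt hb]
      simp
    · have : q ^ a = q ^ (a - b) * q ^ b := by
        rw [← pow_add, Nat.sub_add_cancel hb]
      rw [this]
      ring
  rw [Finset.sum_congr rfl h1, ← Finset.sum_mul, refl_choose β a w haw]
  rcases Nat.lt_or_ge (w - a) β with hb | hb
  · rw [Nat.choose_eq_zero_of_lt hb]
    simp
  · have h2 : (q⁻¹) ^ (w - β) = (q⁻¹) ^ a * (q⁻¹) ^ (w - a - β) := by
      rw [← pow_add]
      congr 1
      omega
    rw [h2, ← mul_assoc (q ^ a), ← mul_pow, mul_inv_cancel₀ hq, one_pow, one_mul]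

theorem refl_mem {σ : ℕ} {w : ι → ℕ} {a : ι → ℕ} (ha : a ∈ Rg σ w) :
    (fun i => w i - a i) ∈ Rg (∑ i, w i - σ) w := by
  rw [mem_Rg] at ha ⊢
  refine ⟨fun i => Nat.sub_le _ _, ?_⟩
  rw [← ha.2]
  exact Finset.sum_tsub_distrib _ fun i _ => ha.1 i

theorem refl_mem' {σ : ℕ} {w : ι → ℕ} (hσ : σ ≤ ∑ i, w i) {a : ι → ℕ}
    (ha : a ∈ Rg (∑ i, w i - σ) w) : (fun i => w i - a i) ∈ Rg σ w := by
  have h := refl_mem ha
  rwa [Nat.sub_sub_self hσ] at h

theorem refl_refl {σ : ℕ} {w : ι → ℕ} {a : ι → ℕ} (ha : a ∈ Rg σ w) :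
    (fun i => w i - (w i - a i)) = a := by
  rw [mem_Rg] at ha
  funext i
  exact Nat.sub_sub_self (ha.1 i)

theorem refl_tcr (w a β : ι → ℕ) (haw : ∀ i, a i ≤ w i) (q : ι → ℂ) (hq : ∀ i, q i ≠ 0) :
    tcr (fun i => (q i)⁻¹) (fun i => w i - a i) β =
      ∑ b ∈ Fintype.piFinset fun i => range (β i + 1), tcr q a b *
        ∏ i, ((-1 : ℂ) ^ b i * ((w i - b i).choose (β i - b i) : ℂ) * q i ^ b i *
          ((q i)⁻¹) ^ (w i - β i)) := by
  unfold tcr
  rw [Finset.prod_congr rfl fun i _ => refl_one (a i) (w i) (β i) (haw i) (q i) (hq i),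
    Finset.prod_univ_sum]
  refine Finset.sum_congr rfl fun b _ => ?_
  rw [Finset.prod_mul_distrib]

/-- Reflection of one condition.  For `q` with nonzero coordinates and `A ⊆ {a ≤ w}`: if
`f` on `A` vanishes to order `m` at `q`, then `g a = f (w - a)` on `w - A` vanishes to order `m`
at `1/q`.

Proof.  Let `T b = ∑_{a ∈ A} f a tcr q a b` (Taylor coefficients, `T b = 0` for `|b| < m`, and
`T b = 0` unless `b ≤ w`).  Taylor's formula at the level of monomials:
`∑_{a ∈ A} f a y^(w - a) = ∑_{b ≤ w} T b y^(w - b) (1 - q y)^b` (expand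
`x^a = ∑_b tcr q a b (x - q)^b` and multiply by `y^w` with `x = 1/y`; one variable at a time:
`y^(w-a) = ∑_{b ≤ a} binom(a,b) q^(a-b) y^(w-b) (1 - q y)^b`, which is
`y^(w-a) * (1)^a = y^(w-a) * (q y + (1 - q y))^a`).  Every term with `T b ≠ 0` is divisible by
`(1 - q y)^b` with `|b| ≥ m`, and `1 - q_i y_i = - q_i (y_i - 1/q_i)`, so it vanishes to order
`m` at `1/q`.

Purely combinatorial version (recommended): for `a ≤ w` (numbers)
`binom(w - a, β) = ∑_{b ≤ β} (-1)^b binom(a, b) binom(w - b, β - b)` (induction on `a`, Pascal),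
hence with `c b β = (-1)^b binom(w - b, β - b) q^b (q⁻¹)^(w - β)` one has
`binom(w - a, β) (q⁻¹)^(w - a - β) = ∑_{b ≤ β} binom(a, b) q^(a - b) c b β`, and taking the product
over the coordinates (`Finset.prod_univ_sum`)
`tcr q⁻¹ (w - a) β = ∑_{b ≤ β} tcr q a b * ∏ i, c_i (b i) (β i)`; therefore
`∑_a f a tcr q⁻¹ (w - a) β = ∑_{b ≤ β} T b * ∏ i, c_i (b i) (β i) = 0` for `|β| < m`. -/
theorem sat_reflect (σ : ℕ) (w : ι → ℕ) (hσ : σ ≤ ∑ i, w i) (f : (ι → ℕ) → ℂ) (m : ℕ)
    (q : ι → ℂ) (hq : ∀ i, q i ≠ 0) (h : Sat (Rg σ w) f (Kind.free m) q) :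
    Sat (Rg (∑ i, w i - σ) w) (fun a => f (fun i => w i - a i)) (Kind.free m)
      (fun i => (q i)⁻¹) := by
  intro β hβ
  have hβ' : ∑ i, β i < m := hβ
  have h' : ∀ b : ι → ℕ, ∑ i, b i < m → ∑ a ∈ Rg σ w, f a * tcr q a b = 0 := h
  change ∑ a ∈ Rg (∑ i, w i - σ) w, f (fun i => w i - a i) * tcr (fun i => (q i)⁻¹) a β = 0
  have h1 : ∑ a ∈ Rg (∑ i, w i - σ) w, f (fun i => w i - a i) * tcr (fun i => (q i)⁻¹) a β =
      ∑ a ∈ Rg σ w, f a * tcr (fun i => (q i)⁻¹) (fun i => w i - a i) β := by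
    refine Finset.sum_nbij' (fun a i => w i - a i) (fun a i => w i - a i)
      (fun a ha => refl_mem' hσ ha) (fun a ha => refl_mem ha) (fun a ha => refl_refl ha)
      (fun a ha => refl_refl ha) fun a ha => ?_
    have h2 := refl_refl ha
    simp only
    rw [h2]
  rw [h1]
  have h3 : ∀ a ∈ Rg σ w, f a * tcr (fun i => (q i)⁻¹) (fun i => w i - a i) β =
      ∑ b ∈ Fintype.piFinset fun i => range (β i + 1), (f a * tcr q a b) *
        ∏ i, ((-1 : ℂ) ^ b i * ((w i - b i).choose (β i - b i) : ℂ) * q i ^ b i *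
          ((q i)⁻¹) ^ (w i - β i)) := by
    intro a ha
    rw [refl_tcr w a β (mem_Rg.1 ha).1 q hq, Finset.mul_sum]
    exact Finset.sum_congr rfl fun b _ => by rw [mul_assoc]
  rw [Finset.sum_congr rfl h3, Finset.sum_comm]
  refine Finset.sum_eq_zero fun b hb => ?_
  rw [← Finset.sum_mul, h' b, zero_mul]
  rw [Fintype.mem_piFinset] at hb
  refine lt_of_le_of_lt (Finset.sum_le_sum fun i _ => ?_) hβ'
  exact Nat.lt_succ_iff.1 (Finset.mem_range.1 (hb i))

/-- Reflection of the region (take general positions with nonzero coordinates by `GI.general`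
or `GI.exists_common` and invert them). -/
theorem GM.reflect (σ : ℕ) (w : ι → ℕ) (hσ : σ ≤ ∑ i, w i) (G : Multiset ℕ)
    (h : GM (Rg (∑ i, w i - σ) w) (G.map Kind.free)) : GM (Rg σ w) (G.map Kind.free) := by
  obtain ⟨n, k, hk, hGI⟩ := h
  obtain ⟨pos, hpos, -, hne⟩ := GI.exists_common hGI hGI
  refine ⟨n, k, hk, fun i j => (pos i j)⁻¹, ?_⟩
  intro f hf a ha
  have hkf : ∀ i, ∃ m, k i = Kind.free m := by
    intro i
    have h1 : k i ∈ (univ : Finset (Fin n)).val.map k :=
      Multiset.mem_map.2 ⟨i, Finset.mem_univ_val i, rfl⟩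
    rw [hk, Multiset.mem_map] at h1
    obtain ⟨m, -, hm⟩ := h1
    exact ⟨m, hm.symm⟩
  have h2 : ∀ i, Sat (Rg (∑ i, w i - σ) w) (fun a => f (fun i => w i - a i)) (k i) (pos i) := by
    intro i
    obtain ⟨m, hm⟩ := hkf i
    have h3 := hf i
    rw [hm] at h3 ⊢
    have h4 := sat_reflect σ w hσ f m (fun j => (pos i j)⁻¹) (fun j => inv_ne_zero (hne i j)) h3
    simpa only [inv_inv] using h4
  have h5 := hpos _ h2 _ (refl_mem ha)
  simp only [refl_refl ha] at h5
  exact h5

/-- The reflected region has the same number of points. -/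
theorem card_reflect (σ : ℕ) (w : ι → ℕ) (hσ : σ ≤ ∑ i, w i) :
    (Rg (∑ i, w i - σ) w).card = (Rg σ w).card :=
  Finset.card_nbij' (fun a i => w i - a i) (fun a i => w i - a i)
    (fun _ ha => refl_mem' hσ ha) (fun _ ha => refl_mem ha) (fun _ ha => refl_refl ha)
    (fun _ ha => refl_refl ha)

end Pool.Agent.H18.Ex

end

section

/-!
# V7, block ALPHA, module SwapK: the swap lemma and the window lemma for several kinds

As `swap`, `window` of `Pool/Agent/H51/TB/Sw.lean`, `Win.lean`, without a dominating type: one round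
consists of one further point of every kind which occurs.
-/

namespace Pool.Agent.V7

open Finset MvPolynomial Pool.Agent.H51.TB

/-- The index of the point used at `a`: `y a` if `a ∈ A`, else `x a`. -/
private def SkX.zt {κ : Type} [DecidableEq κ] (A : Finset κ) (a : κ) : κ ⊕ (κ ⊕ Unit) :=
  if a ∈ A then Sum.inr (Sum.inl a) else Sum.inl a

private theorem SkX.zt_inj {κ : Type} [DecidableEq κ] (A : Finset κ) :
    Function.Injective (SkX.zt A) := by
  intro a b h
  unfold SkX.zt at h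
  split_ifs at h with h1 h2 h2
  · exact Sum.inl_injective (Sum.inr_injective h)
  · exact Sum.inl_injective h

private theorem SkX.zt_ne_ell {κ : Type} [DecidableEq κ] (A : Finset κ) (a : κ) :
    SkX.zt A a ≠ Sum.inr (Sum.inr ()) := by
  unfold SkX.zt
  split_ifs
  · intro h
    cases h
  · intro h
    cases h

private theorem SkX.zt_ne_y {κ : Type} [DecidableEq κ] (A : Finset κ) (a b : κ) (hb : b ∉ A) :
    SkX.zt A a ≠ Sum.inr (Sum.inl b) := by
  unfold SkX.zt
  split_ifs with h1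
  · intro h
    have := Sum.inl_injective (Sum.inr_injective h)
    exact hb (this ▸ h1)
  · intro h
    cases h

private theorem SkX.elim_inj {α β : Type} (f : α → β) (b : β) (hf : Function.Injective f)
    (hb : ∀ a, f a ≠ b) : Function.Injective (Sum.elim f fun _ : Unit => b) := by
  rintro (x | x) (y | y) h
  · exact congrArg Sum.inl (hf h)
  · exact absurd h (hb x)
  · exact absurd h.symm (hb y)
  · rfl

private theorem SkX.comp_elim {α β γ : Type} (p : β → γ) (f : α → β) (b : β) :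
    (fun i => p (Sum.elim f (fun _ : Unit => b) i)) =
      Sum.elim (fun i => p (f i)) fun _ : Unit => p b := by
  funext i
  rcases i with i | i <;> rfl

/-- Pulling back a general statement along points where the other coordinates are fixed. -/
private theorem SkX.gen_fix {ν κ : Type} (G : MvPolynomial ((κ ⊕ (κ ⊕ Unit)) × ν) ℂ)
    (p₀ : κ ⊕ (κ ⊕ Unit) → ν → ℂ) (h0 : eval (fun x => p₀ x.1 x.2) G ≠ 0)
    (P : (κ → ν → ℂ) → Prop)
    (hP : ∀ y : κ → ν → ℂ,
      eval (fun x : (κ ⊕ (κ ⊕ Unit)) × ν =>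
        (Sum.elim (fun a => p₀ (Sum.inl a))
          (Sum.elim y fun _ : Unit => p₀ (Sum.inr (Sum.inr ())))) x.1 x.2) G ≠ 0 → P y) :
    Gn κ ν P := by
  let s : (κ ⊕ (κ ⊕ Unit)) × ν → MvPolynomial (κ × ν) ℂ := fun x =>
    Sum.elim (fun a => C (p₀ (Sum.inl a) x.2))
      (Sum.elim (fun a => X (a, x.2)) fun _ : Unit => C (p₀ (Sum.inr (Sum.inr ())) x.2)) x.1
  have hea : ∀ (y : κ × ν → ℂ) (F : MvPolynomial ((κ ⊕ (κ ⊕ Unit)) × ν) ℂ),
      eval y (aeval s F) = eval (fun x => eval y (s x)) F := by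
    intro y F
    induction F using MvPolynomial.induction_on with
    | C c => simp
    | add p q hp hq => rw [map_add, map_add, map_add, hp, hq]
    | mul_X p i hp => rw [map_mul, map_mul, map_mul, hp, aeval_X, eval_X]
  have hs : ∀ y : κ → ν → ℂ, eval (fun x => y x.1 x.2) (aeval s G) =
      eval (fun x : (κ ⊕ (κ ⊕ Unit)) × ν =>
        (Sum.elim (fun a => p₀ (Sum.inl a))
          (Sum.elim y fun _ : Unit => p₀ (Sum.inr (Sum.inr ())))) x.1 x.2) G := by
    intro y
    rw [hea]
    refine congrArg (fun f : (κ ⊕ (κ ⊕ Unit)) × ν → ℂ => eval f G) (funext fun x => ?_)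
    obtain ⟨x, j⟩ := x
    rcases x with a | a | a <;> simp [s]
  refine ⟨aeval s G, ?_, ?_⟩
  · intro h
    have h1 := hs fun a => p₀ (Sum.inr (Sum.inl a))
    rw [h, map_zero] at h1
    apply h0
    rw [h1]
    refine congrArg (fun f : (κ ⊕ (κ ⊕ Unit)) × ν → ℂ => eval f G) (funext fun x => ?_)
    obtain ⟨x, j⟩ := x
    rcases x with a | a | a <;> rfl
  · intro y hy
    rw [hs] at hy
    exact hP y hy

variable {E ν T : Type} [Fintype E] (S : Sys E ν T) {κ : Type}

/-- The spaces of solutions at general positions are not contained in a fixed proper subspace,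
unless their dimension is at most `D`, for configurations of points of the types in `P`. -/
def SpanP (P : T → Prop) (D : ℕ) : Prop :=
  ∀ (κ : Type) [Fintype κ] (m : κ → T) (φ : (E → ℂ) →ₗ[ℂ] ℂ), (∀ i, P (m i)) → φ ≠ 0 →
    Gn κ ν (fun p => S.V m p ≤ LinearMap.ker φ) → S.gd m ≤ D

/-- If one further point of any kind which occurs does not change the number of conditions imposed
by a point of type `t`, then this number is `size t`, or the dimension is at most `D`. -/
theorem swapP {P : T → Prop} {D : ℕ} (hS : SpanP S P D) [Fintype κ] [DecidableEq κ] (m : κ → T)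
    (hm : ∀ i, P (m i)) (t : T)
    (hc : ∀ a, S.gd m + S.gd (ad (ad m (m a)) t) = S.gd (ad m t) + S.gd (ad m (m a))) :
    S.gd m ≤ D ∨ S.gd m = S.gd (ad m t) + S.size t := by
  -- the point `ℓ`
  let ℓ : κ ⊕ (κ ⊕ Unit) := Sum.inr (Sum.inr ())
  let yy : κ → κ ⊕ (κ ⊕ Unit) := fun a => Sum.inr (Sum.inl a)
  -- the general conditions
  have c1 : ∀ A ∈ (univ : Finset (Finset κ)), Gn (κ ⊕ (κ ⊕ Unit)) ν fun p =>
      Module.finrank ℂ (S.V m (fun a => p (SkX.zt A a))) = S.gd m := fun A _ =>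
    Gn.comap (SkX.zt A) (SkX.zt_inj A) (gn_gd S m)
  have c2 : Gn (κ ⊕ (κ ⊕ Unit)) ν fun p =>
      Module.finrank ℂ (S.V (fun _ : Unit => t) (fun _ : Unit => p ℓ)) =
        S.gd fun _ : Unit => t :=
    Gn.comap (fun _ : Unit => ℓ) (fun _ _ _ => rfl) (gn_gd S fun _ : Unit => t)
  have c3 : ∀ A ∈ (univ : Finset (Finset κ)), Gn (κ ⊕ (κ ⊕ Unit)) ν fun p =>
      Module.finrank ℂ (S.V (Sum.elim m fun _ : Unit => t)
        (Sum.elim (fun a => p (SkX.zt A a)) fun _ : Unit => p ℓ)) = S.gd (ad m t) := by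
    intro A _
    have h := Gn.comap (Sum.elim (SkX.zt A) fun _ : Unit => ℓ)
      (SkX.elim_inj _ _ (SkX.zt_inj A) (SkX.zt_ne_ell A)) (gn_gd S (ad m t))
    refine h.mono fun p hp => ?_
    rwa [SkX.comp_elim] at hp
  have c4 : ∀ A ∈ (univ : Finset (Finset κ)), Gn (κ ⊕ (κ ⊕ Unit)) ν fun p =>
      ∀ a ∈ (univ : Finset κ), a ∉ A → Module.finrank ℂ (S.V (Sum.elim m fun _ : Unit => m a)
        (Sum.elim (fun a => p (SkX.zt A a)) fun _ : Unit => p (yy a))) = S.gd (ad m (m a)) := by
    intro A _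
    refine Gn.all _ fun a _ => ?_
    by_cases ha : a ∈ A
    · refine (c2).mono fun p _ h => absurd ha h
    · have h := Gn.comap (Sum.elim (SkX.zt A) fun _ : Unit => yy a)
        (SkX.elim_inj _ _ (SkX.zt_inj A) fun b => SkX.zt_ne_y A b a ha)
        (gn_gd S (ad m (m a)))
      refine h.mono fun p hp _ => ?_
      rwa [SkX.comp_elim] at hp
  have c5 : ∀ A ∈ (univ : Finset (Finset κ)), Gn (κ ⊕ (κ ⊕ Unit)) ν fun p =>
      ∀ a ∈ (univ : Finset κ), a ∉ A → Module.finrank ℂ (S.V
        (Sum.elim (Sum.elim m fun _ : Unit => m a) fun _ : Unit => t)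
        (Sum.elim (Sum.elim (fun a => p (SkX.zt A a)) fun _ : Unit => p (yy a))
          fun _ : Unit => p ℓ)) = S.gd (ad (ad m (m a)) t) := by
    intro A _
    refine Gn.all _ fun a _ => ?_
    by_cases ha : a ∈ A
    · refine (c2).mono fun p _ h => absurd ha h
    · have h := Gn.comap (Sum.elim (Sum.elim (SkX.zt A) fun _ : Unit => yy a) fun _ : Unit => ℓ)
        (SkX.elim_inj _ _ (SkX.elim_inj _ _ (SkX.zt_inj A) fun b => SkX.zt_ne_y A b a ha) (by
          rintro (b | b)
          · exact SkX.zt_ne_ell A b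
          · intro h
            exact absurd (Sum.inr_injective h) Sum.inl_ne_inr))
        (gn_gd S (ad (ad m (m a)) t))
      refine h.mono fun p hp _ => ?_
      rwa [SkX.comp_elim, SkX.comp_elim] at hp
  have hall := ((Gn.all _ c1).and c2).and (((Gn.all _ c3).and (Gn.all _ c4)).and
    (Gn.all _ c5))
  -- the key inclusion for general points
  have hkey : Gn (κ ⊕ (κ ⊕ Unit)) ν fun p =>
      Module.finrank ℂ (S.V m (fun a => p (Sum.inl a)) ⊔
        S.V (fun _ : Unit => t) (fun _ : Unit => p ℓ) : Submodule ℂ (E → ℂ)) +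
          S.gd (ad m t) = S.gd m + S.gd (fun _ : Unit => t) ∧
      S.V m (fun a => p (yy a)) ≤ S.V m (fun a => p (Sum.inl a)) ⊔
        S.V (fun _ : Unit => t) (fun _ : Unit => p ℓ) := by
    refine hall.mono ?_
    rintro p ⟨⟨h1, h2⟩, ⟨h3, h4⟩, h5⟩
    let XT : Finset κ → Submodule ℂ (E → ℂ) := fun A =>
      S.V m (fun a => p (SkX.zt A a)) ⊔ S.V (fun _ : Unit => t) (fun _ : Unit => p ℓ)
    have hX : ∀ A, Module.finrank ℂ (XT A) + S.gd (ad m t) =
        S.gd m + S.gd (fun _ : Unit => t) := by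
      intro A
      have h := finrank_V_sup S m (fun _ : Unit => t) (fun a => p (SkX.zt A a))
        (fun _ : Unit => p ℓ)
      rw [h1 A (mem_univ _), h2, h3 A (mem_univ _)] at h
      exact h
    have hstep : ∀ (A : Finset κ) (a : κ), a ∉ A → XT A = XT (insert a A) := by
      intro A a ha
      let U : Submodule ℂ (E → ℂ) :=
        S.V (Sum.elim m fun _ : Unit => m a)
          (Sum.elim (fun a => p (SkX.zt A a)) fun _ : Unit => p (yy a)) ⊔
          S.V (fun _ : Unit => t) (fun _ : Unit => p ℓ)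
      have hW : Module.finrank ℂ U + S.gd (ad (ad m (m a)) t) =
          S.gd (ad m (m a)) + S.gd (fun _ : Unit => t) := by
        have h := finrank_V_sup S (Sum.elim m fun _ : Unit => m a) (fun _ : Unit => t)
          (Sum.elim (fun a => p (SkX.zt A a)) fun _ : Unit => p (yy a)) (fun _ : Unit => p ℓ)
        rw [h4 A (mem_univ _) a (mem_univ _) ha, h2, h5 A (mem_univ _) a (mem_univ _) ha] at h
        exact h
      have hW1 : U ≤ XT A := by
        refine sup_le_sup_right ?_ _
        rw [V_elim]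
        exact inf_le_left
      have hW2 : U ≤ XT (insert a A) := by
        refine sup_le_sup_right ?_ _
        intro w hw
        rw [S.mem_V] at hw ⊢
        intro c
        by_cases hc : c = a
        · subst hc
          have h6 := hw (Sum.inr ())
          have h7 : SkX.zt (insert c A) c = yy c := by
            unfold SkX.zt
            rw [if_pos (mem_insert_self c A)]
          rw [h7]
          exact h6
        · have h6 := hw (Sum.inl c)
          have h7 : SkX.zt (insert a A) c = SkX.zt A c := by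
            unfold SkX.zt
            by_cases hbT : c ∈ A
            · rw [if_pos hbT, if_pos (mem_insert_of_mem hbT)]
            · rw [if_neg hbT, if_neg]
              intro h
              rcases mem_insert.1 h with h | h
              · exact hc h
              · exact hbT h
          rw [h7]
          exact h6
      have e1 : U = XT A := by
        refine Submodule.eq_of_le_of_finrank_eq hW1 ?_
        have := hX A
        have := hc a
        omega
      have e2 : U = XT (insert a A) := by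
        refine Submodule.eq_of_le_of_finrank_eq hW2 ?_
        have := hX (insert a A)
        have := hc a
        omega
      rw [← e1, e2]
    have hind : ∀ A : Finset κ, XT A = XT ∅ := by
      intro A
      induction A using Finset.induction_on with
      | empty => rfl
      | insert a A ha ih => rw [← hstep A a ha, ih]
    have z0 : (fun a => p (SkX.zt (∅ : Finset κ) a)) = fun a => p (Sum.inl a) := by
      funext a
      unfold SkX.zt
      rw [if_neg (Finset.notMem_empty a)]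
    have z1 : (fun a => p (SkX.zt (univ : Finset κ) a)) = fun a => p (yy a) := by
      funext a
      unfold SkX.zt
      rw [if_pos (mem_univ a)]
    constructor
    · have e : XT ∅ = S.V m (fun a => p (Sum.inl a)) ⊔
          S.V (fun _ : Unit => t) (fun _ : Unit => p ℓ) := by
        simp only [XT]
        rw [z0]
      have h := hX ∅
      rw [e] at h
      exact h
    · have h := hind univ
      simp only [XT] at h
      rw [z0, z1] at h
      rw [← h]
      exact le_sup_left
  obtain ⟨G, hG0, hG⟩ := hkey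
  obtain ⟨v, hv⟩ : ∃ a, eval a G ≠ 0 := by
    by_contra hcon
    push Not at hcon
    exact hG0 (MvPolynomial.funext fun a => by rw [hcon a, map_zero])
  let p₀ : κ ⊕ (κ ⊕ Unit) → ν → ℂ := fun i j => v (i, j)
  have hp₀ : eval (fun x => p₀ x.1 x.2) G ≠ 0 := hv
  let X : Submodule ℂ (E → ℂ) :=
    S.V m (fun a => p₀ (Sum.inl a)) ⊔ S.V (fun _ : Unit => t) (fun _ : Unit => p₀ ℓ)
  by_cases hX : X = ⊤
  · right
    have h1 := (hG p₀ hp₀).1
    change Module.finrank ℂ X + _ = _ at h1
    rw [hX, finrank_top, Module.finrank_fintype_fun_eq_card] at h1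
    have h2 := gd_unit S t
    omega
  · left
    obtain ⟨φ, hφ0, hφ⟩ := Submodule.exists_le_ker_of_lt_top X (lt_top_iff_ne_top.mpr hX)
    refine hS κ m φ hm hφ0 ?_
    refine SkX.gen_fix G p₀ hp₀ _ fun y hy => ?_
    exact ((hG (Sum.elim (fun a => p₀ (Sum.inl a))
      (Sum.elim y fun _ : Unit => p₀ (Sum.inr (Sum.inr ())))) hy).2).trans hφ

end Pool.Agent.V7

end

section

/-!
# V7: the lemma TRACE, abstract form

`S` is a system on `E`, `S₁` (trace) one on `E₁`, `S₂` (residual) one on `E₂`, where the index set `E`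
is covered by the images of `E₁` and `E₂`.  The points of `m` are put in special position `ρ q₁`
(`q₁` a position for `S₁`).  The restriction to `E₁` of a solution satisfies the conditions of the trace,
and the solutions which vanish on `E₁` satisfy the conditions of the residual.  Then
`gd ≤ gd trace + gd residual`.
-/

namespace Pool.Agent.V7.ST

open Finset MvPolynomial Pool.Agent.H51.TB

/-- Pull back of a general statement (change of the points and of the coordinates). -/
theorem gn_pull {κ κ' ν ν' : Type} (φ : κ' → κ) (hφ : Function.Injective φ) (ψ : ν' → ν)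
    (hψ : Function.Injective ψ) {P : (κ' → ν' → ℂ) → Prop} (h : Gn κ' ν' P) :
    Gn κ ν fun p => P fun i x => p (φ i) (ψ x) := by
  obtain ⟨G, hG, h⟩ := h
  have hinj : Function.Injective (fun x : κ' × ν' => (φ x.1, ψ x.2)) := by
    intro x y hxy
    have h1 := congrArg Prod.fst hxy
    have h2 := congrArg Prod.snd hxy
    exact Prod.ext (hφ h1) (hψ h2)
  refine ⟨rename (fun x : κ' × ν' => (φ x.1, ψ x.2)) G, ?_, fun p hp => ?_⟩
  · intro h0
    apply hG
    apply rename_injective _ hinj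
    rw [h0, map_zero]
  · apply h
    rw [eval_rename] at hp
    exact hp

/-- Rank nullity for the restriction of functions to a part of the index set. -/
theorem finrank_split {E E₁ E₂ : Type} [Fintype E] [Fintype E₁] [Fintype E₂]
    (i₁ : E₁ → E) (i₂ : E₂ → E) (hcov : ∀ e, (∃ a, i₁ a = e) ∨ ∃ b, i₂ b = e)
    (V : Submodule ℂ (E → ℂ)) (V₁ : Submodule ℂ (E₁ → ℂ)) (V₂ : Submodule ℂ (E₂ → ℂ))
    (h1 : ∀ f ∈ V, (fun a => f (i₁ a)) ∈ V₁)
    (h2 : ∀ f ∈ V, (∀ a, f (i₁ a) = 0) → (fun b => f (i₂ b)) ∈ V₂) :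
    Module.finrank ℂ V ≤ Module.finrank ℂ V₁ + Module.finrank ℂ V₂ := by
  let L : V →ₗ[ℂ] V₁ := LinearMap.codRestrict V₁
    ((LinearMap.funLeft ℂ ℂ i₁).comp V.subtype) fun f => h1 f.1 f.2
  have hL : ∀ f : V, ∀ a, (L f).1 a = f.1 (i₁ a) := fun f a => rfl
  have hk : ∀ f : LinearMap.ker L, ∀ a, f.1.1 (i₁ a) = 0 := by
    intro f a
    have h := f.2
    rw [LinearMap.mem_ker] at h
    rw [← hL, h]
    rfl
  let K : LinearMap.ker L →ₗ[ℂ] V₂ := LinearMap.codRestrict V₂
    ((LinearMap.funLeft ℂ ℂ i₂).comp (V.subtype.comp (LinearMap.ker L).subtype))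
      fun f => h2 f.1.1 f.1.2 (hk f)
  have hK : Function.Injective K := by
    intro f g hfg
    apply Subtype.ext
    apply Subtype.ext
    funext e
    rcases hcov e with ⟨a, rfl⟩ | ⟨b, rfl⟩
    · exact (hk f a).trans (hk g a).symm
    · have h : (K f).1 b = (K g).1 b := by rw [hfg]
      exact h
  have e1 := LinearMap.finrank_range_add_finrank_ker L
  have e2 : Module.finrank ℂ (LinearMap.range L) ≤ Module.finrank ℂ V₁ :=
    Submodule.finrank_le _
  have e3 : Module.finrank ℂ (LinearMap.ker L) ≤ Module.finrank ℂ V₂ :=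
    LinearMap.finrank_le_finrank_of_injective hK
  omega

/-- TRACE, abstract form. -/
theorem gd_trace {E E₁ E₂ ν ν₁ T : Type} [Fintype E] [Fintype E₁] [Fintype E₂]
    (S : Sys E ν T) (S₁ : Sys E₁ ν₁ T) (S₂ : Sys E₂ ν T)
    (i₁ : E₁ → E) (i₂ : E₂ → E) (hcov : ∀ e, (∃ a, i₁ a = e) ∨ ∃ b, i₂ b = e)
    (σ : ν₁ → ν) (hσ : Function.Injective σ) (ρ : (ν₁ → ℂ) → ν → ℂ)
    {κ κ' : Type} [Fintype κ] [Fintype κ'] (m m₂ : κ → T) (n : κ' → T)
    (h1 : ∀ i (q : ν₁ → ℂ) (f : E → ℂ), f ∈ S.V (fun _ : Unit => m i) (fun _ => ρ q) →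
      (fun a => f (i₁ a)) ∈ S₁.V (fun _ : Unit => m i) fun _ => q)
    (h2 : ∀ i (q : ν → ℂ) (f : E → ℂ),
      f ∈ S.V (fun _ : Unit => m i) (fun _ => ρ fun x => q (σ x)) → (∀ a, f (i₁ a) = 0) →
      (fun b => f (i₂ b)) ∈ S₂.V (fun _ : Unit => m₂ i) fun _ => q)
    (h3 : ∀ i (q : ν → ℂ) (f : E → ℂ), f ∈ S.V (fun _ : Unit => n i) (fun _ => q) →
      (∀ a, f (i₁ a) = 0) → (fun b => f (i₂ b)) ∈ S₂.V (fun _ : Unit => n i) fun _ => q) :
    S.gd (Sum.elim m n) ≤ S₁.gd m + S₂.gd (Sum.elim m₂ n) := by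
  obtain ⟨p, hp1, hp2⟩ := ((gn_pull (κ := κ ⊕ κ') Sum.inl Sum.inl_injective σ hσ
    (gn_gd S₁ m)).and (gn_gd S₂ (Sum.elim m₂ n))).exists
  rw [← hp1, ← hp2]
  refine (gd_le S (Sum.elim m n)
    (Sum.elim (fun i => ρ fun x => p (Sum.inl i) (σ x)) fun i => p (Sum.inr i))).trans ?_
  refine finrank_split i₁ i₂ hcov _ _ _ ?_ ?_
  · intro f hf i r
    exact h1 i (fun x => p (Sum.inl i) (σ x)) f (fun _ r => hf (Sum.inl i) r) () r
  · intro f hf h0 i r
    rcases i with i | i
    · exact h2 i (p (Sum.inl i)) f (fun _ r => hf (Sum.inl i) r) h0 () r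
    · exact h3 i (p (Sum.inr i)) f (fun _ r => hf (Sum.inr i) r) h0 () r

end Pool.Agent.V7.ST

end
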