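import Pool.Agent.H94.LP5.M04
import Pool.Agent.H94.LP5.M07
import Pool.Agent.H94.LP5.M27

/-! The parts of this file: V7.AL.WinK, V7.BE.Geo, V7.AL.BaseAbs, V7.GA.Basic, V7.ST.F3, V7.GA.Trace. -/

section

/-!
# V7, block ALPHA, module WinK: the window lemma for several kinds

Proof.  Suppose that a point of type `t` imposes fewer than `size t` conditions on the general
configuration `m`.  Add rounds, one point of every kind `b a`.  The number of conditions imposed by
`t` is non-increasing; if it does not change in a round then it does not change for one further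
point of any kind, so by `swapP` it is `size t` (impossible) or the dimension is at most `D`.
-/

namespace Pool.Agent.V7

open Finset MvPolynomial Pool.Agent.H51.TB

variable {E ν T : Type} [Fintype E] (S : Sys E ν T) {κ κ' : Type}

/-- Submodularity for a family of further points. -/
theorem gd_submod_fam [Fintype κ] [Fintype κ'] (m : κ → T) (n : κ' → T) (t : T) :
    S.gd (ad m t) + S.gd (Sum.elim m n) ≤ S.gd m + S.gd (ad (Sum.elim m n) t) := by
  have hinj : Function.Injective (fun i : κ => (Sum.inl (Sum.inl i) : (κ ⊕ κ') ⊕ Unit)) :=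
    fun a b h => Sum.inl_injective (Sum.inl_injective h)
  obtain ⟨P, hP1, hP2⟩ := ((gn_gd S (ad (Sum.elim m n) t)).and
    ((gn_gd S m).comap (fun i : κ => (Sum.inl (Sum.inl i) : (κ ⊕ κ') ⊕ Unit)) hinj)).exists
  let P₁ : κ ⊕ Unit → ν → ℂ :=
    Sum.elim (fun i => P (Sum.inl (Sum.inl i))) fun j => P (Sum.inr j)
  let P₂ : κ ⊕ κ' → ν → ℂ := fun i => P (Sum.inl i)
  let P₀ : κ → ν → ℂ := fun i => P (Sum.inl (Sum.inl i))
  have h1 := Submodule.finrank_sup_add_finrank_inf_eq (S.V (ad m t) P₁) (S.V (Sum.elim m n) P₂)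
  have h2 : S.V (ad m t) P₁ ⊔ S.V (Sum.elim m n) P₂ ≤ S.V m P₀ := by
    refine sup_le (fun w hw => ?_) (fun w hw => ?_)
    · rw [S.mem_V] at hw ⊢
      exact fun i => hw (Sum.inl i)
    · rw [S.mem_V] at hw ⊢
      exact fun i => hw (Sum.inl i)
  have h3 : S.V (ad m t) P₁ ⊓ S.V (Sum.elim m n) P₂ = S.V (ad (Sum.elim m n) t) P := by
    ext w
    rw [Submodule.mem_inf, S.mem_V, S.mem_V, S.mem_V]
    constructor
    · rintro ⟨hF1, hF2⟩ (i | j)
      · exact hF2 i
      · exact hF1 (Sum.inr j)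
    · intro hF
      refine ⟨?_, fun i => hF (Sum.inl i)⟩
      rintro (i | j)
      · exact hF (Sum.inl (Sum.inl i))
      · exact hF (Sum.inr j)
  have h4 := Submodule.finrank_mono h2
  have h5 := gd_le S (ad m t) P₁
  have h6 := gd_le S (Sum.elim m n) P₂
  rw [h3, hP1] at h1
  have hP2' : Module.finrank ℂ (S.V m P₀) = S.gd m := hP2
  omega

/-- A family of further points imposes at most the sum of the sizes. -/
theorem gd_le_fam [Fintype κ] {w : ℕ} (m : κ → T) (b : Fin w → T) :
    S.gd m ≤ S.gd (Sum.elim m b) + ∑ a, S.size (b a) := by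
  induction w with
  | zero =>
    have h := gd_comp_equiv S (Equiv.sumEmpty κ (Fin 0)) m
    have e : (fun i => m ((Equiv.sumEmpty κ (Fin 0)) i)) = Sum.elim m b := by
      funext i
      rcases i with i | i
      · rfl
      · exact i.elim0
    rw [e] at h
    rw [h]
    simp
  | succ w ih =>
    have h1 := ih fun a => b (Fin.castSucc a)
    have h2 := gd_le_ad S (Sum.elim m fun a => b (Fin.castSucc a)) (b (Fin.last w))
    let e : (κ ⊕ Fin w) ⊕ Unit ≃ κ ⊕ Fin (w + 1) :=
      (Equiv.sumAssoc κ (Fin w) Unit).trans (Equiv.sumCongr (Equiv.refl κ)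
        ((Equiv.sumCongr (Equiv.refl (Fin w)) (Equiv.equivPUnit (Fin 1)).symm).trans
          finSumFinEquiv))
    have h3 := gd_comp_equiv S e (Sum.elim m b)
    have e3 : (fun i => Sum.elim m b (e i)) =
        ad (Sum.elim m fun a => b (Fin.castSucc a)) (b (Fin.last w)) := by
      funext i
      rcases i with (i | i) | i
      · rfl
      · simp [e, ad, Fin.castSucc]
      · have : (e (Sum.inr i)) = Sum.inr (Fin.last w) := by
          simp only [e, Equiv.trans_apply, Equiv.sumAssoc_apply_inr, Equiv.sumCongr_apply,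
            Sum.map_inr, Equiv.coe_trans, Function.comp_apply, finSumFinEquiv_apply_right]
          congr 1
        rw [this]
        rfl
    rw [e3] at h3
    rw [Fin.sum_univ_castSucc]
    omega

/-- Equivalences of index types for the rounds. -/
private noncomputable def WkX.eqv (κ : Type) (j w : ℕ) :
    (κ ⊕ (Fin j × Fin w)) ⊕ Fin w ≃ κ ⊕ (Fin (j + 1) × Fin w) :=
  (Equiv.sumAssoc κ (Fin j × Fin w) (Fin w)).trans
    (Equiv.sumCongr (Equiv.refl κ) (((Equiv.sumCongr (Equiv.refl (Fin j × Fin w))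
      (Equiv.uniqueProd (Fin w) (Fin 1)).symm).trans (Equiv.sumProdDistrib _ _ _).symm).trans
        (Equiv.prodCongr finSumFinEquiv (Equiv.refl (Fin w)))))

private theorem WkX.eqv_snd {κ : Type} {j w : ℕ} (m : κ → T) (b : Fin w → T) :
    (fun i => Sum.elim m (fun x : Fin (j + 1) × Fin w => b x.2) (WkX.eqv κ j w i)) =
      Sum.elim (Sum.elim m fun x : Fin j × Fin w => b x.2) b := by
  funext i
  rcases i with (i | i) | i <;> rfl

/-- Splitting off one member of a round. -/
private def WkX.eqa (κ : Type) (w : ℕ) (a : Fin w) : (κ ⊕ Unit) ⊕ {x : Fin w // x ≠ a} ≃ κ ⊕ Fin w where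
  toFun := Sum.elim (Sum.elim Sum.inl fun _ => Sum.inr a) fun x => Sum.inr x.1
  invFun := Sum.elim (fun i => Sum.inl (Sum.inl i)) fun x =>
    if h : x = a then Sum.inl (Sum.inr ()) else Sum.inr ⟨x, h⟩
  left_inv := by
    rintro ((i | i) | ⟨x, hx⟩)
    · rfl
    · simp
    · simp [hx]
  right_inv := by
    rintro (i | x)
    · rfl
    · by_cases h : x = a
      · simp [h]
      · simp [h]

/-- The window lemma for several kinds. -/
theorem windowP {P : T → Prop} {D : ℕ} (hS : SpanP S P D) [Fintype κ] {w : ℕ} (m : κ → T) (t : T)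
    (b : Fin w → T) (hm : ∀ i, P (m i)) (hbP : ∀ a, P (b a)) (hb : ∀ i, ∃ a, m i = b a) (h : D + S.size t * ∑ a, S.size (b a) < S.gd m) :
    S.gd m = S.gd (ad m t) + S.size t := by
  classical
  set g : ℕ → ℕ := fun j => S.gd (Sum.elim m fun x : Fin j × Fin w => b x.2) with hg
  set G : ℕ → ℕ := fun j => S.gd (ad (Sum.elim m fun x : Fin j × Fin w => b x.2) t) with hG
  set B := ∑ a, S.size (b a) with hB
  have h1 : ∀ j, G j ≤ g j := fun j => gd_ad_le S _ t
  have h2 : ∀ j, g j ≤ G j + S.size t := fun j => gd_le_ad S _ t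
  have gs : ∀ j, g (j + 1) = S.gd (Sum.elim (Sum.elim m fun x : Fin j × Fin w => b x.2) b) := by
    intro j
    have e := gd_comp_equiv S (WkX.eqv κ j w) (Sum.elim m fun x : Fin (j + 1) × Fin w => b x.2)
    rw [WkX.eqv_snd] at e
    exact e.symm
  have Gs : ∀ j, G (j + 1) = S.gd (ad (Sum.elim (Sum.elim m fun x : Fin j × Fin w => b x.2) b) t) := by
    intro j
    have e := gd_comp_equiv S (Equiv.sumCongr (WkX.eqv κ j w) (Equiv.refl Unit))
      (ad (Sum.elim m fun x : Fin (j + 1) × Fin w => b x.2) t)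
    rw [← show (fun i => ad (Sum.elim m fun x : Fin (j + 1) × Fin w => b x.2) t
        ((Equiv.sumCongr (WkX.eqv κ j w) (Equiv.refl Unit)) i)) =
        ad (Sum.elim (Sum.elim m fun x : Fin j × Fin w => b x.2) b) t from ?_]
    · exact e.symm
    · funext i
      rcases i with ((i | i) | i) | i <;> rfl
  have h3 : ∀ j, g j ≤ g (j + 1) + B := fun j => by
    rw [gs j]
    exact gd_le_fam S _ b
  have hg0 : g 0 = S.gd m := by
    rw [← gd_comp_equiv S (Equiv.sumEmpty κ (Fin 0 × Fin w)) m]
    simp only [hg]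
    congr 1
    funext i
    rcases i with i | i
    · rfl
    · exact i.1.elim0
  have hG0 : G 0 = S.gd (ad m t) := by
    rw [← gd_comp_equiv S (Equiv.sumCongr (Equiv.sumEmpty κ (Fin 0 × Fin w)) (Equiv.refl Unit))
      (ad m t)]
    simp only [hG]
    congr 1
    funext i
    rcases i with (i | i) | i
    · rfl
    · exact i.1.elim0
    · rfl
  have hlow : ∀ j, g 0 ≤ g j + j * B := by
    intro j
    induction j with
    | zero => simp
    | succ j ih =>
      have := h3 j
      have e : (j + 1) * B = j * B + B := by ring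
      omega
  -- a round without a drop
  have key : ∀ j, D < g j → g j ≠ G j + S.size t → g (j + 1) - G (j + 1) < g j - G j := by
    intro j hj hne
    by_contra hcon
    push Not at hcon
    apply hne
    have hmon : G j + g (j + 1) ≤ g j + G (j + 1) := by
      rw [gs j, Gs j]
      exact gd_submod_fam S _ b t
    have i3 := h1 j
    have i4 := h1 (j + 1)
    have heq : G j + g (j + 1) = g j + G (j + 1) := by omega
    have hst : ∀ a, S.gd (Sum.elim m fun x : Fin j × Fin w => b x.2) +
        S.gd (ad (ad (Sum.elim m fun x : Fin j × Fin w => b x.2) (b a)) t) =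
        S.gd (ad (Sum.elim m fun x : Fin j × Fin w => b x.2) t) +
        S.gd (ad (Sum.elim m fun x : Fin j × Fin w => b x.2) (b a)) := by
      intro a
      have k1 := gd_submod S (Sum.elim m fun x : Fin j × Fin w => b x.2) t (b a)
      have k1' := gd_submod S (Sum.elim m fun x : Fin j × Fin w => b x.2) (b a) t
      have k2 := gd_submod_fam S (ad (Sum.elim m fun x : Fin j × Fin w => b x.2) (b a))
        (fun x : {x : Fin w // x ≠ a} => b x.1) t
      have e1 := gd_comp_equiv S (WkX.eqa (κ ⊕ (Fin j × Fin w)) w a)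
        (Sum.elim (Sum.elim m fun x : Fin j × Fin w => b x.2) b)
      have e1' : (fun i => Sum.elim (Sum.elim m fun x : Fin j × Fin w => b x.2) b
          (WkX.eqa (κ ⊕ (Fin j × Fin w)) w a i)) =
          Sum.elim (ad (Sum.elim m fun x : Fin j × Fin w => b x.2) (b a))
            (fun x : {x : Fin w // x ≠ a} => b x.1) := by
        funext i
        rcases i with (i | i) | i <;> rfl
      rw [e1'] at e1
      have e2 := gd_comp_equiv S (Equiv.sumCongr (WkX.eqa (κ ⊕ (Fin j × Fin w)) w a)
        (Equiv.refl Unit)) (ad (Sum.elim (Sum.elim m fun x : Fin j × Fin w => b x.2) b) t)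
      have e2' : (fun i => ad (Sum.elim (Sum.elim m fun x : Fin j × Fin w => b x.2) b) t
          ((Equiv.sumCongr (WkX.eqa (κ ⊕ (Fin j × Fin w)) w a) (Equiv.refl Unit)) i)) =
          ad (Sum.elim (ad (Sum.elim m fun x : Fin j × Fin w => b x.2) (b a))
            (fun x : {x : Fin w // x ≠ a} => b x.1)) t := by
        funext i
        rcases i with ((i | i) | i) | i <;> rfl
      rw [e2'] at e2
      rw [e1, e2, ← gs j, ← Gs j] at k2
      change G j + g (j + 1) = g j + G (j + 1) at heq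
      simp only [hg, hG] at heq k2
      have k3 := gd_ad_le S (ad (Sum.elim m fun x : Fin j × Fin w => b x.2) (b a)) t
      omega
    rcases swapP S hS (Sum.elim m fun x : Fin j × Fin w => b x.2) (by
      rintro (i | i)
      · exact hm i
      · exact hbP i.2) t (by
      rintro (i | i)
      · obtain ⟨a, ha⟩ := hb i
        have := hst a
        rw [← ha] at this
        exact this
      · exact hst i.2) with h | h
    · exact absurd h (by simp only [hg] at hj; omega)
    · exact h
  by_contra hcon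
  rw [← hg0, ← hG0] at hcon
  have a1 := h1 0
  have a2 := h2 0
  have hDj : ∀ j, j ≤ S.size t → D < g j := by
    intro j hj
    have i1 := hlow j
    have i2 : j * B ≤ S.size t * B := Nat.mul_le_mul_right _ hj
    have i3 : g 0 = S.gd m := hg0
    omega
  have kk : ∀ j, j ≤ S.size t → g j - G j + j < S.size t := by
    intro j
    induction j with
    | zero => intro _; omega
    | succ j ih =>
      intro hj
      have i1 := ih (by omega)
      have i2 := key j (hDj j (by omega)) (by omega)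
      omega
  have := kk (S.size t) le_rfl
  omega

end Pool.Agent.V7

end

section

/-!
# V7, block BETA, module Geo: squarefree exponents and contractions

`vr : (Fin k ⊕ Fin q) × Fin c → ν` numbers the variables of the first `k` blocks and of `q` blocks of
`z`-variables.  `mn vr α w` is the exponent with one variable in each of the first `k` blocks and in the
blocks `α 0, …, α (M - 1)`.
-/

set_option autoImplicit false
set_option linter.unusedSectionVars false

namespace Pool.Agent.V7.BE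

open Finset Pool.Agent.V7 Pool.Agent.H54.V7
open Pool.Agent.H18.Ex (tcr)

section

variable {ν : Type} [Fintype ν] [DecidableEq ν]

/-- The indicator function of a finite set, as an exponent. -/
def ind (A : Finset ν) : ν → ℕ := fun s => if s ∈ A then 1 else 0

theorem sum_ind (A : Finset ν) : ∑ s, ind A s = A.card := by
  unfold ind
  rw [sum_ite_mem, univ_inter, sum_const, smul_eq_mul, mul_one]

theorem ind_inj {A B : Finset ν} (h : ind A = ind B) : A = B := by
  ext s
  have h1 := congrFun h s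
  unfold ind at h1
  by_cases h2 : s ∈ A <;> by_cases h3 : s ∈ B <;> simp_all

/-- Taylor coefficients of squarefree monomials. -/
theorem tcr_ind (P : ν → ℂ) (A B : Finset ν) :
    tcr P (ind A) (ind B) = if B ⊆ A then ∏ s ∈ A \ B, P s else 0 := by
  unfold tcr
  split_ifs with h
  · rw [← prod_sdiff (subset_univ (A \ B))]
    have h1 : ∏ s ∈ univ \ (A \ B),
        (((ind A s).choose (ind B s) : ℕ) : ℂ) * P s ^ (ind A s - ind B s) = 1 := by
      refine prod_eq_one fun s hs => ?_
      rw [mem_sdiff, mem_sdiff] at hs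
      have h2 : s ∈ A → s ∈ B := by
        intro h3
        by_contra h4
        exact hs.2 ⟨h3, h4⟩
      unfold ind
      by_cases h3 : s ∈ A
      · rw [if_pos h3, if_pos (h2 h3)]
        simp
      · have h4 : s ∉ B := fun h4 => h3 (h h4)
        rw [if_neg h3, if_neg h4]
        simp
    rw [h1, one_mul]
    refine prod_congr rfl fun s hs => ?_
    rw [mem_sdiff] at hs
    unfold ind
    rw [if_pos hs.1, if_neg hs.2]
    simp
  · rw [not_subset] at h
    obtain ⟨s, hs, hs'⟩ := h
    refine prod_eq_zero (mem_univ s) ?_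
    unfold ind
    rw [if_neg hs', if_pos hs]
    simp

theorem tcr_ind_ne {P : ν → ℂ} {A B : Finset ν} (h : tcr P (ind A) (ind B) ≠ 0) :
    B ⊆ A ∧ ∀ s ∈ A \ B, P s ≠ 0 := by
  rw [tcr_ind] at h
  split_ifs at h with h1
  · exact ⟨h1, fun s hs => (prod_ne_zero_iff.1 h) s hs⟩
  · exact absurd rfl h

end

variable {ν : Type} [Fintype ν] [DecidableEq ν] {k M c q : ℕ}

/-- The embedding of the slots given by `α`. -/
abbrev emα (k : ℕ) (α : Fin M ↪o Fin q) : Slot k M ↪ Fin k ⊕ Fin q :=
  (Function.Embedding.refl (Fin k)).sumMap α.toEmbedding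

theorem emα_apply (α : Fin M ↪o Fin q) (x : Slot k M) : emα k α x = Sum.map id α x := by
  rcases x with i | h <;> rfl

variable (vr : (Fin k ⊕ Fin q) × Fin c → ν)

/-- The variables `w x`, `x ∈ S`. -/
def pS (α : Fin M ↪o Fin q) (S : Finset (Slot k M)) (w : Slot k M → Fin c) : Finset ν :=
  S.image fun x => vr (emα k α x, w x)

/-- The squarefree exponents. -/
def mn (α : Fin M ↪o Fin q) (w : Slot k M → Fin c) : ν → ℕ := ind (pS vr α univ w)

variable {vr}

theorem mem_pS {α : Fin M ↪o Fin q} {S : Finset (Slot k M)} {w : Slot k M → Fin c} {s : ν} :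
    s ∈ pS vr α S w ↔ ∃ x ∈ S, vr (emα k α x, w x) = s := by
  unfold pS
  rw [mem_image]

theorem pS_injOn (hvr : Function.Injective vr) (α : Fin M ↪o Fin q) (w : Slot k M → Fin c) :
    Function.Injective fun x : Slot k M => vr (emα k α x, w x) := by
  intro x y h
  have h1 := hvr h
  exact (emα k α).injective (congrArg Prod.fst h1)

theorem card_pS (hvr : Function.Injective vr) (α : Fin M ↪o Fin q) (S : Finset (Slot k M))
    (w : Slot k M → Fin c) : (pS vr α S w).card = S.card :=
  card_image_of_injective _ (pS_injOn hvr α w)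

theorem pS_sdiff (hvr : Function.Injective vr) (α : Fin M ↪o Fin q) (S : Finset (Slot k M))
    (w : Slot k M → Fin c) : pS vr α univ w \ pS vr α Sᶜ w = pS vr α S w := by
  unfold pS
  rw [← image_sdiff _ _ (pS_injOn hvr α w)]
  congr 1
  rw [← compl_eq_univ_sdiff, compl_compl]

theorem range_eq {α α' : Fin M ↪o Fin q} (h : ∀ y, ∃ x, α x = α' y) : α' = α := by
  have h1 : ∀ y, α' y ∈ (univ : Finset (Fin M)).map α.toEmbedding := by
    intro y
    obtain ⟨x, hx⟩ := h y
    rw [mem_map]
    exact ⟨x, mem_univ x, hx⟩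
  have h2 : (univ : Finset (Fin M)).map α'.toEmbedding ⊆ (univ : Finset (Fin M)).map α.toEmbedding := by
    intro z hz
    rw [mem_map] at hz
    obtain ⟨y, _, rfl⟩ := hz
    exact h1 y
  have h3 : (univ : Finset (Fin M)).map α'.toEmbedding = (univ : Finset (Fin M)).map α.toEmbedding :=
    eq_of_subset_of_card_le h2 (by rw [card_map, card_map])
  have hc : ((univ : Finset (Fin M)).map α.toEmbedding).card = M := by
    rw [card_map, card_univ, Fintype.card_fin]
  have e1 : ∀ x, α x ∈ (univ : Finset (Fin M)).map α.toEmbedding := fun x =>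
    mem_map_of_mem _ (mem_univ x)
  have e2 := Finset.orderEmbOfFin_unique' hc e1
  have e3 := Finset.orderEmbOfFin_unique' hc h1
  exact e3.trans e2.symm

theorem mn_inj (hvr : Function.Injective vr) {α α' : Fin M ↪o Fin q} {w w' : Slot k M → Fin c}
    (h : mn vr α w = mn vr α' w') : α' = α ∧ w' = w := by
  have h1 : pS vr α univ w = pS vr α' univ w' := ind_inj h
  have h2 : ∀ y, ∃ x, emα k α x = emα k α' y ∧ w x = w' y := by
    intro y
    have h3 : vr (emα k α' y, w' y) ∈ pS vr α univ w := by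
      rw [h1]
      exact mem_pS.2 ⟨y, mem_univ y, rfl⟩
    obtain ⟨x, _, hx⟩ := mem_pS.1 h3
    have h4 := hvr hx
    exact ⟨x, congrArg Prod.fst h4, congrArg Prod.snd h4⟩
  have h3 : α' = α := by
    refine range_eq fun y => ?_
    obtain ⟨x, hx, _⟩ := h2 (Sum.inr y)
    rcases x with i | x
    · exact absurd hx Sum.inl_ne_inr
    · exact ⟨x, Sum.inr_injective hx⟩
  subst h3
  refine ⟨rfl, funext fun y => ?_⟩
  obtain ⟨x, hx, hx'⟩ := h2 y
  have hxy := (emα k α').injective hx
  subst hxy
  exact hx'.symm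

/-- The key computation: on the forms with squarefree exponents of the types `mn`, the Taylor
coefficients at a point supported on the slots of `S` are contractions. -/
theorem sum_tcr (hvr : Function.Injective vr) {A : Finset (ν → ℕ)} {f : {a // a ∈ A} → ℂ}
    (hA : ∀ (α : Fin M ↪o Fin q) (w : Slot k M → Fin c), mn vr α w ∈ A)
    (hf : ∀ e, f e ≠ 0 → ∃ (α : Fin M ↪o Fin q) (w : Slot k M → Fin c), e.1 = mn vr α w)
    (α : Fin M ↪o Fin q) (S : Finset (Slot k M)) (y : Slot k M × Fin c → ℂ) {P : ν → ℂ}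
    (hP : ∀ x ∈ S, ∀ t, P (vr (emα k α x, t)) = y (x, t))
    (hP0 : ∀ s, P s ≠ 0 → ∃ x ∈ S, ∃ t, vr (emα k α x, t) = s) (w : Slot k M → Fin c) :
    ∑ e : {a // a ∈ A}, f e * tcr P e.1 (ind (pS vr α Sᶜ w)) =
      ctr S y (fun w' => f ⟨mn vr α w', hA α w'⟩) w := by
  classical
  rw [ctr_eq]
  set F : Finset (Slot k M → Fin c) := univ.filter fun e => ∀ j, j ∉ S → e j = w j with hF
  have hinj : Function.Injective fun w' : Slot k M → Fin c => (⟨mn vr α w', hA α w'⟩ : {a // a ∈ A}) := by
    intro w₁ w₂ h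
    exact ((mn_inj hvr (congrArg Subtype.val h)).2).symm
  have h1 : ∑ e ∈ F.image (fun w' : Slot k M → Fin c => (⟨mn vr α w', hA α w'⟩ : {a // a ∈ A})),
      f e * tcr P e.1 (ind (pS vr α Sᶜ w)) =
      ∑ e : {a // a ∈ A}, f e * tcr P e.1 (ind (pS vr α Sᶜ w)) := by
    refine sum_subset (subset_univ _) fun e _ he => ?_
    by_contra hne
    have hfe : f e ≠ 0 := left_ne_zero_of_mul hne
    have hte := right_ne_zero_of_mul hne
    obtain ⟨α', w', hew⟩ := hf e hfe
    rw [hew] at hte
    obtain ⟨h2, h3⟩ := tcr_ind_ne hte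
    -- every slot of `α'` is a slot of `α`
    have h4 : ∀ z, ∃ x, emα k α x = emα k α' z ∧ (x ∉ S → w x = w' z) := by
      intro z
      by_cases hz : vr (emα k α' z, w' z) ∈ pS vr α Sᶜ w
      · obtain ⟨x, hx, hx'⟩ := mem_pS.1 hz
        have h5 := hvr hx'
        exact ⟨x, congrArg Prod.fst h5, fun _ => congrArg Prod.snd h5⟩
      · have h5 : vr (emα k α' z, w' z) ∈ pS vr α' univ w' \ pS vr α Sᶜ w := by
          rw [mem_sdiff]
          exact ⟨mem_pS.2 ⟨z, mem_univ z, rfl⟩, hz⟩
        obtain ⟨x, hx, t, hxt⟩ := hP0 _ (h3 _ h5)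
        have h6 := hvr hxt
        exact ⟨x, congrArg Prod.fst h6, fun h7 => absurd hx h7⟩
    have h5 : α' = α := by
      refine range_eq fun z => ?_
      obtain ⟨x, hx, _⟩ := h4 (Sum.inr z)
      rcases x with i | x
      · exact absurd hx Sum.inl_ne_inr
      · exact ⟨x, Sum.inr_injective hx⟩
    subst h5
    apply he
    rw [mem_image]
    refine ⟨w', ?_, Subtype.ext hew.symm⟩
    rw [hF, mem_filter]
    refine ⟨mem_univ _, fun j hj => ?_⟩
    obtain ⟨x, hx, hx'⟩ := h4 j
    have h6 := (emα k α').injective hx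
    subst h6
    exact (hx' hj).symm
  rw [← h1, sum_image fun a _ b _ h => hinj h]
  refine sum_congr rfl fun w' hw' => ?_
  rw [hF, mem_filter] at hw'
  have h2 : pS vr α Sᶜ w = pS vr α Sᶜ w' := by
    unfold pS
    refine image_congr fun x hx => ?_
    have hx' : x ∉ S := by
      intro h3
      have h4 : x ∈ Sᶜ := hx
      rw [mem_compl] at h4
      exact h4 h3
    show vr (emα k α x, w x) = vr (emα k α x, w' x)
    rw [hw'.2 x hx']
  rw [mul_comm]
  congr 1
  show tcr P (ind (pS vr α univ w')) (ind (pS vr α Sᶜ w)) = _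
  rw [h2, tcr_ind, if_pos, pS_sdiff hvr]
  · unfold pS
    rw [prod_image fun a _ b _ h => pS_injOn hvr α w' h]
    exact prod_congr rfl fun x hx => hP x hx _
  · unfold pS
    exact image_subset_image (subset_univ _)

/-- The contraction in one slot of `S` and then in the others. -/
theorem ctr_split {S : Finset (Slot k M)} {i : Slot k M} (hi : i ∈ S) (y : Slot k M × Fin c → ℂ)
    (G : (Slot k M → Fin c) → ℂ) (w : Slot k M → Fin c) :
    ctr S y G w = ∑ t, y (i, t) * ctr (S.erase i) y G (Function.update w i t) := by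
  rw [ctr_erase hi, ctr_Dk (notMem_erase i S), Dk_apply]

/-- The contraction from the conditions of an ordinary point. -/
theorem ctr_of_Fat (hvr : Function.Injective vr) {A : Finset (ν → ℕ)} {f : {a // a ∈ A} → ℂ}
    (hA : ∀ (α : Fin M ↪o Fin q) (w : Slot k M → Fin c), mn vr α w ∈ A)
    (hf : ∀ e, f e ≠ 0 → ∃ (α : Fin M ↪o Fin q) (w : Slot k M → Fin c), e.1 = mn vr α w)
    (hk : k < M) (α : Fin M ↪o Fin q) {S : Finset (Slot k M)} (hS : S.card = M)
    (y : Slot k M × Fin c → ℂ) {P : ν → ℂ}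
    (hP : ∀ x ∈ S, ∀ t, P (vr (emα k α x, t)) = y (x, t))
    (hP0 : ∀ s, P s ≠ 0 → ∃ x ∈ S, ∃ t, vr (emα k α x, t) = s)
    (hfat : Fat (fun e : {a // a ∈ A} => e.1) M P f) (w : Slot k M → Fin c) :
    ctr S y (fun w' => f ⟨mn vr α w', hA α w'⟩) w = 0 := by
  rw [← sum_tcr hvr hA hf α S y hP hP0 w]
  apply hfat
  rw [sum_ind, card_pS hvr, card_compl, hS, Fintype.card_sum, Fintype.card_fin, Fintype.card_fin]
  omega

/-- The contraction from the conditions of a swapped point. -/
theorem ctr_of_Sw (hvr : Function.Injective vr) {A : Finset (ν → ℕ)} {f : {a // a ∈ A} → ℂ}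
    (hA : ∀ (α : Fin M ↪o Fin q) (w : Slot k M → Fin c), mn vr α w ∈ A)
    (hf : ∀ e, f e ≠ 0 → ∃ (α : Fin M ↪o Fin q) (w : Slot k M → Fin c), e.1 = mn vr α w)
    (hk : k + 1 = M) (hM : 2 ≤ M) (α : Fin M ↪o Fin q) {S : Finset (Slot k M)} (hS : S.card = M)
    {i : Slot k M} (hi : i ∈ S) (y : Slot k M × Fin c → ℂ) {P V : ν → ℂ}
    (hP : ∀ x ∈ S.erase i, ∀ t, P (vr (emα k α x, t)) = y (x, t))
    (hP0 : ∀ s, P s ≠ 0 → ∃ x ∈ S.erase i, ∃ t, vr (emα k α x, t) = s)
    (hV : ∀ t, V (vr (emα k α i, t)) = y (i, t))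
    (hV0 : ∀ s, V s ≠ 0 → ∃ t, vr (emα k α i, t) = s)
    {B : Finset ν} (hB : ∀ x, x ≠ i → ∀ t, vr (emα k α x, t) ∉ B)
    (hsw : Sw (fun e : {a // a ∈ A} => e.1) M (2 * M) B P V f) (w : Slot k M → Fin c) :
    ctr S y (fun w' => f ⟨mn vr α w', hA α w'⟩) w = 0 := by
  classical
  have hcard : (pS vr α Sᶜ w).card = k := by
    rw [card_pS hvr, card_compl, hS, Fintype.card_sum, Fintype.card_fin, Fintype.card_fin]
    omega
  have h0 := hsw (ind (pS vr α Sᶜ w)) (by
    intro s hs
    unfold ind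
    rw [if_neg]
    intro h1
    obtain ⟨x, hx, hx'⟩ := mem_pS.1 h1
    rw [mem_compl] at hx
    have h2 : x ≠ i := fun h2 => hx (h2 ▸ hi)
    exact hB x h2 (w x) (hx' ▸ hs)) (by rw [sum_ind, hcard]; omega) (by rw [sum_ind, hcard]; omega)
  rw [ctr_split hi, ← h0]
  -- the exponents `b` which contribute
  have hins : ∀ t, pS vr α (S.erase i)ᶜ (Function.update w i t) =
      insert (vr (emα k α i, t)) (pS vr α Sᶜ w) := by
    intro t
    ext s
    rw [mem_insert, mem_pS, mem_pS]
    constructor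
    · rintro ⟨x, hx, hx'⟩
      by_cases hxi : x = i
      · subst hxi
        rw [Function.update_self] at hx'
        exact Or.inl hx'.symm
      · rw [Function.update_of_ne hxi] at hx'
        refine Or.inr ⟨x, ?_, hx'⟩
        rw [mem_compl, mem_erase] at hx
        rw [mem_compl]
        exact fun h => hx ⟨hxi, h⟩
    · rintro (rfl | ⟨x, hx, hx'⟩)
      · refine ⟨i, ?_, ?_⟩
        · rw [mem_compl]
          exact notMem_erase i S
        · rw [Function.update_self]
      · rw [mem_compl] at hx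
        have hxi : x ≠ i := fun h => hx (h ▸ hi)
        refine ⟨x, ?_, ?_⟩
        · rw [mem_compl, mem_erase]
          exact fun h => hx h.2
        · rw [Function.update_of_ne hxi]
          exact hx'
  have hnot : ∀ t, vr (emα k α i, t) ∉ pS vr α Sᶜ w := by
    intro t h1
    obtain ⟨x, hx, hx'⟩ := mem_pS.1 h1
    rw [mem_compl] at hx
    have h2 := congrArg Prod.fst (hvr hx')
    have h3 := (emα k α).injective h2
    exact hx (h3 ▸ hi)
  set φ : Fin c → ν → ℕ := fun t => ind (insert (vr (emα k α i, t)) (pS vr α Sᶜ w)) with hφ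
  have hφinj : Function.Injective φ := by
    intro t t' h
    have h1 := ind_inj h
    have h2 : vr (emα k α i, t) ∈ insert (vr (emα k α i, t')) (pS vr α Sᶜ w) := by
      rw [← h1]
      exact mem_insert_self _ _
    rcases mem_insert.1 h2 with h3 | h3
    · exact congrArg Prod.snd (hvr h3)
    · exact absurd h3 (hnot t)
  have hφmem : ∀ t, φ t ∈ bxd ν (2 * M) M := by
    intro t
    unfold bxd bx
    rw [mem_filter]
    refine ⟨?_, ?_⟩
    · rw [Fintype.mem_piFinset]
      intro s
      rw [mem_range]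
      show ind _ s < 2 * M
      unfold ind
      split_ifs <;> omega
    · show ∑ s, ind _ s = M
      rw [sum_ind, card_insert_of_notMem (hnot t), hcard]
      exact hk
  have hsub : ∑ b ∈ univ.image φ, tcr V b (ind (pS vr α Sᶜ w)) *
      ∑ e : {a // a ∈ A}, f e * tcr P e.1 b =
      ∑ b ∈ bxd ν (2 * M) M, tcr V b (ind (pS vr α Sᶜ w)) *
        ∑ e : {a // a ∈ A}, f e * tcr P e.1 b := by
    refine sum_subset ?_ fun b hb hb' => ?_
    · intro b hb
      obtain ⟨t, _, rfl⟩ := mem_image.1 hb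
      exact hφmem t
    · by_contra hne
      have hV1 := left_ne_zero_of_mul hne
      have hbsum : ∑ s, b s = M := by
        unfold bxd at hb
        exact (mem_filter.1 hb).2
      have hle : ∀ s, ind (pS vr α Sᶜ w) s ≤ b s := by
        intro s
        by_contra h1
        apply hV1
        unfold tcr
        refine prod_eq_zero (mem_univ s) ?_
        rw [Nat.choose_eq_zero_of_lt (by omega)]
        simp
      have hsup : ∀ s, ind (pS vr α Sᶜ w) s < b s → V s ≠ 0 := by
        intro s h1 h2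
        apply hV1
        unfold tcr
        refine prod_eq_zero (mem_univ s) ?_
        rw [h2, zero_pow (by omega), mul_zero]
      have hone : ∑ s, (b s - ind (pS vr α Sᶜ w) s) = 1 := by
        have h1 : ∑ s, (b s - ind (pS vr α Sᶜ w) s) + ∑ s, ind (pS vr α Sᶜ w) s = ∑ s, b s := by
          rw [← sum_add_distrib]
          exact sum_congr rfl fun s _ => Nat.sub_add_cancel (hle s)
        rw [sum_ind, hcard, hbsum] at h1
        omega
      obtain ⟨s₀, hs₀, hs₀'⟩ : ∃ s₀, b s₀ - ind (pS vr α Sᶜ w) s₀ = 1 ∧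
          ∀ s, s ≠ s₀ → b s - ind (pS vr α Sᶜ w) s = 0 := by
        have h1 : ∃ s₀, b s₀ - ind (pS vr α Sᶜ w) s₀ ≠ 0 := by
          by_contra hcon
          push Not at hcon
          rw [sum_eq_zero fun s _ => hcon s] at hone
          omega
        obtain ⟨s₀, h2⟩ := h1
        have h3 := add_sum_erase univ (fun s => b s - ind (pS vr α Sᶜ w) s) (mem_univ s₀)
        rw [hone] at h3
        have h4 : b s₀ - ind (pS vr α Sᶜ w) s₀ = 1 := by omega
        refine ⟨s₀, h4, fun s hs => ?_⟩
        have h5 : ∑ s ∈ univ.erase s₀, (b s - ind (pS vr α Sᶜ w) s) = 0 := by omega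
        exact (sum_eq_zero_iff.1 h5) s (mem_erase.2 ⟨hs, mem_univ s⟩)
      obtain ⟨t, ht⟩ := hV0 s₀ (hsup s₀ (by omega))
      apply hb'
      rw [mem_image]
      refine ⟨t, mem_univ t, ?_⟩
      funext s
      show ind (insert (vr (emα k α i, t)) (pS vr α Sᶜ w)) s = b s
      have h1 := hle s
      by_cases hs : s = s₀
      · subst hs
        have h2 : ind (pS vr α Sᶜ w) s = 0 := by
          unfold ind
          rw [if_neg]
          rw [← ht]
          exact hnot t
        have h3 : ind (insert (vr (emα k α i, t)) (pS vr α Sᶜ w)) s = 1 := by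
          unfold ind
          rw [if_pos]
          rw [ht]
          exact mem_insert_self _ _
        omega
      · have h2 := hs₀' s hs
        have h3 : ind (insert (vr (emα k α i, t)) (pS vr α Sᶜ w)) s = ind (pS vr α Sᶜ w) s := by
          have h4 : s ∈ insert (vr (emα k α i, t)) (pS vr α Sᶜ w) ↔ s ∈ pS vr α Sᶜ w := by
            rw [mem_insert, ht]
            exact or_iff_right hs
          by_cases h5 : s ∈ pS vr α Sᶜ w
          · rw [show ind (insert (vr (emα k α i, t)) (pS vr α Sᶜ w)) s = 1 from if_pos (h4.2 h5),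
              show ind (pS vr α Sᶜ w) s = 1 from if_pos h5]
          · rw [show ind (insert (vr (emα k α i, t)) (pS vr α Sᶜ w)) s = 0 from
                if_neg fun h6 => h5 (h4.1 h6),
              show ind (pS vr α Sᶜ w) s = 0 from if_neg h5]
        omega
  rw [← hsub, sum_image fun a _ b _ h => hφinj h]
  refine sum_congr rfl fun t _ => ?_
  have h1 : tcr V (φ t) (ind (pS vr α Sᶜ w)) = y (i, t) := by
    show tcr V (ind _) (ind _) = _
    rw [tcr_ind, if_pos (subset_insert _ _), insert_sdiff_of_notMem _ (hnot t),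
      Finset.sdiff_self, prod_insert (notMem_empty _), prod_empty, mul_one]
    exact hV t
  rw [h1]
  congr 1
  rw [← sum_tcr hvr hA hf α (S.erase i) y hP hP0 (Function.update w i t)]
  refine sum_congr rfl fun e _ => ?_
  rw [hins t]

end Pool.Agent.V7.BE

end

section

/-!
# V7, block ALPHA, module BaseAbs: independence from room against window (abstract form)
-/

set_option autoImplicit false

namespace Pool.Agent.V7

open Finset MvPolynomial Pool.Agent.H51.TB Pool.Agent.V7.ST

variable {E ν T : Type} [Fintype E] (S : Sys E ν T)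

/-- If the span property holds up to `D`, the kinds lie in the finite set `K`, every size is at most
`B` and there is room `D + |K| B²`, then the configuration is independent. -/
theorem base_abs {P : T → Prop} {D : ℕ} (hS : SpanP S P D) (K : Finset T) (hK : ∀ k ∈ K, P k)
    (B : ℕ) (hB : ∀ k ∈ K, S.size k ≤ B) (s : Multiset T) (hs : ∀ k ∈ s, k ∈ K)
    (hroom : D + K.card * B * B + (s.map S.size).sum < Fintype.card E) :
    gM S s + (s.map S.size).sum = Fintype.card E := by
  classical
  induction s using Multiset.induction_on with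
  | empty => rw [gM_zero]; simp
  | cons t s ih =>
    rw [Multiset.map_cons, Multiset.sum_cons] at hroom ⊢
    have h1 := ih (fun k hk => hs k (Multiset.mem_cons_of_mem hk)) (by omega)
    have htK : t ∈ K := hs t (Multiset.mem_cons_self t s)
    obtain ⟨m, hm, h⟩ := exists_conf S s
    let b : Fin K.card → T := fun a => (K.equivFin.symm a : T)
    have hbK : ∀ a, b a ∈ K := fun a => (K.equivFin.symm a).2
    have hmK : ∀ i, m i ∈ K := by
      intro i
      refine hs _ (Multiset.mem_cons_of_mem ?_)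
      rw [← hm]
      exact Multiset.mem_map_of_mem m (Finset.mem_univ i)
    have hsum : ∑ a, S.size (b a) ≤ K.card * B := by
      calc ∑ a, S.size (b a) ≤ ∑ _a : Fin K.card, B := sum_le_sum fun a _ => hB _ (hbK a)
        _ = K.card * B := by simp
    have hprod : S.size t * ∑ a, S.size (b a) ≤ K.card * B * B := by
      calc S.size t * ∑ a, S.size (b a) ≤ B * (K.card * B) := Nat.mul_le_mul (hB t htK) hsum
        _ = K.card * B * B := by ring
    have h2 := windowP S hS m t b (fun i => hK _ (hmK i)) (fun a => hK _ (hbK a)) (fun i =>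
      ⟨K.equivFin ⟨m i, hmK i⟩, by simp [b]⟩) (by rw [h]; omega)
    have h3 : S.gd (ad m t) = gM S (t ::ₘ s) := by
      rw [gd_eq_gM, map_ad, hm]
    rw [h, h3] at h2
    omega

end Pool.Agent.V7

end

section

/-!
# V7, block GAMMA: ordinary `M`-fold points on forms of a given set of exponents

`SG M β A` is the system of the forms with the exponents `A` and of the ordinary points of
multiplicity `M` (types: the sets `I` of blocks where the point vanishes).
-/

set_option autoImplicit false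
set_option linter.unusedSectionVars false

namespace Pool.Agent.V7.GA

open Finset MvPolynomial Pool.Agent.H51.TB Pool.Agent.H54.V7 Pool.Agent.V7.ST
open Pool.Agent.H18.Ex (tcr)

/-! ### Multisets of types -/

theorem gM_anti {E ν T : Type} [Fintype E] (S : Sys E ν T) {s t : Multiset T} (h : s ≤ t) :
    gM S t ≤ gM S s := by
  obtain ⟨u, rfl⟩ := Multiset.le_iff_exists_add.mp h
  induction u using Multiset.induction_on with
  | empty => rw [add_zero]
  | cons a u ih =>
    rw [Multiset.add_cons]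
    exact (gM_cons_le S _ a).trans (ih (Multiset.le_add_right _ _))

/-- If every nonzero element violates the conditions of a point of one of the types of `T₀`, then
`H` rounds of points of these types kill a solution space of dimension at most `H`. -/
theorem gM_kill {E ν T : Type} [Fintype E] (S : Sys E ν T) (T₀ : Set T) [DecidableEq T]
    (hT : ∀ F : E → ℂ, F ≠ 0 → ∃ t ∈ T₀, ∃ q : ν → ℂ, F ∉ S.V (fun _ : Unit => t) fun _ => q)
    (H : ℕ) : ∀ s₀ s₁ : Multiset T, gM S s₀ ≤ H → (∀ t ∈ T₀, H ≤ s₁.count t) →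
      gM S (s₀ + s₁) = 0 := by
  induction H with
  | zero =>
    intro s₀ s₁ h0 _
    have h1 := gM_anti S (Multiset.le_add_right s₀ s₁)
    omega
  | succ H ih =>
    intro s₀ s₁ h0 h1
    by_cases hz : gM S s₀ = 0
    · have h2 := gM_anti S (Multiset.le_add_right s₀ s₁)
      omega
    obtain ⟨m, hm, hmg⟩ := exists_conf S s₀
    obtain ⟨p, hp⟩ := gd_attained S m
    have hne : S.V m p ≠ ⊥ := by
      intro hb
      rw [hb, finrank_bot] at hp
      omega
    obtain ⟨F, hF, hF0⟩ := Submodule.exists_mem_ne_zero_of_ne_bot hne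
    obtain ⟨t, ht, q, hq⟩ := hT F hF0
    have hlt : S.V (ad m t) (Sum.elim p fun _ => q) < S.V m p := by
      unfold ad
      rw [V_elim]
      refine lt_of_le_of_ne inf_le_left fun he => hq ?_
      have h3 : F ∈ S.V m p ⊓ S.V (fun _ : Unit => t) fun _ => q := by
        rw [he]
        exact hF
      exact h3.2
    have h4 := Submodule.finrank_lt_finrank_of_lt hlt
    have h5 := gd_le S (ad m t) (Sum.elim p fun _ => q)
    rw [gd_eq_gM S (ad m t), map_ad, hm] at h5
    have h6 : 0 < s₁.count t := lt_of_lt_of_le (Nat.succ_pos H) (h1 t ht)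
    rw [Multiset.count_pos] at h6
    have h7 := ih (t ::ₘ s₀) (s₁.erase t) (by omega) (by
      intro u hu
      by_cases hut : u = t
      · subst hut
        rw [Multiset.count_erase_self]
        have := h1 u hu
        omega
      · rw [Multiset.count_erase_of_ne hut]
        exact (Nat.le_succ H).trans (h1 u hu))
    rw [Multiset.cons_add, ← Multiset.add_cons, Multiset.cons_erase h6] at h7
    exact h7

/-! ### The systems -/

variable {ν : Type} [Fintype ν] [DecidableEq ν]

/-- Forms with the exponents `A`, ordinary points of multiplicity `M`. -/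
noncomputable def SG (M : ℕ) (β : ν → ℕ) (A : Finset (ν → ℕ)) :
    Sys {a // a ∈ A} ν (Finset ℕ) where
  R := fun _ => {b : ν → ℕ // ∑ s, b s < M}
  fin := fun _ => finite_lt M _ fun _ hb => hb.le
  co := fun I r e => tcr (msk β I fun s => X s) e.1 r.1

theorem eval_tcr_X (β : ν → ℕ) (I : Finset ℕ) (q : ν → ℂ) (e b : ν → ℕ) :
    eval q (tcr (msk β I fun s => (X s : MvPolynomial ν ℂ)) e b) = tcr (msk β I q) e b := by
  unfold tcr
  rw [map_prod]
  refine prod_congr rfl fun s _ => ?_
  rw [map_mul, map_pow, map_natCast]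
  congr 2
  unfold msk
  split_ifs
  · rw [map_zero]
  · rw [eval_X]

theorem mem_SG (M : ℕ) (β : ν → ℕ) (A : Finset (ν → ℕ)) {κ : Type} (m : κ → Finset ℕ)
    (p : κ → ν → ℂ) (f : {a // a ∈ A} → ℂ) :
    f ∈ (SG M β A).V m p ↔ ∀ i, Fat (fun e : {a // a ∈ A} => e.1) M (msk β (m i) (p i)) f := by
  rw [Sys.mem_V]
  refine forall_congr' fun x => ?_
  constructor
  · intro h b hb
    rw [← h (⟨b, hb⟩ : {b : ν → ℕ // ∑ s, b s < M})]
    refine sum_congr rfl fun e _ => ?_
    show _ = eval (p x) (tcr (msk β (m x) fun s => (X s : MvPolynomial ν ℂ)) e.1 b) * f e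
    rw [eval_tcr_X, mul_comm]
  · intro h r
    rw [← h r.1 r.2]
    refine sum_congr rfl fun e _ => ?_
    show eval (p x) (tcr (msk β (m x) fun s => (X s : MvPolynomial ν ℂ)) e.1 r.1) * f e = _
    rw [eval_tcr_X, mul_comm]

/-- A sum over a smaller set of exponents. -/
theorem sum_sub {A A₂ : Finset (ν → ℕ)} (h : A₂ ⊆ A) (F : {a // a ∈ A} → ℂ)
    (h0 : ∀ e : {a // a ∈ A}, e.1 ∉ A₂ → F e = 0) :
    ∑ e : {a // a ∈ A₂}, F ⟨e.1, h e.2⟩ = ∑ e : {a // a ∈ A}, F e := by
  refine Fintype.sum_of_injective (fun e : {a // a ∈ A₂} => (⟨e.1, h e.2⟩ : {a // a ∈ A})) ?_ _ _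
    ?_ fun _ => rfl
  · intro x y hxy
    exact Subtype.ext (congrArg (fun z : {a // a ∈ A} => z.1) hxy)
  · intro e he
    refine h0 e fun h1 => he ⟨⟨e.1, h1⟩, rfl⟩

theorem tcr_zero_of {q : ν → ℂ} {e b : ν → ℕ} (s : ν)
    (h : (((e s).choose (b s) : ℕ) : ℂ) * q s ^ (e s - b s) = 0) : tcr q e b = 0 := by
  unfold tcr
  exact prod_eq_zero (mem_univ s) h

/-! ### The exponents -/

/-- The exponents of degree `2 M - 1` which meet the blocks `0, …, j - 1`, have degree at least `M`
in the blocks `0, …, M - 2` and are supported on `W`. -/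
def Ag (M : ℕ) (β : ν → ℕ) (j : ℕ) (W : Finset ν) : Finset (ν → ℕ) :=
  (Ex β (2 * M - 1) j).filter fun a =>
    (∀ s, a s ≠ 0 → s ∈ W) ∧ M ≤ ∑ s ∈ univ.filter (fun s => β s < M - 1), a s

theorem mem_Ag {M : ℕ} {β : ν → ℕ} {j : ℕ} {W : Finset ν} {a : ν → ℕ} :
    a ∈ Ag M β j W ↔ (∑ s, a s = 2 * M - 1 ∧ ∀ i < j, ∃ s, β s = i ∧ a s ≠ 0) ∧
      (∀ s, a s ≠ 0 → s ∈ W) ∧ M ≤ ∑ s ∈ univ.filter (fun s => β s < M - 1), a s := by
  unfold Ag
  rw [mem_filter, mem_Ex]

/-- An exponent which meets the blocks of `T` has degree at least `|T|` there. -/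
theorem card_le_deg (β : ν → ℕ) (a : ν → ℕ) (T : Finset ℕ)
    (h : ∀ i ∈ T, ∃ s, β s = i ∧ a s ≠ 0) :
    T.card ≤ ∑ s ∈ univ.filter (fun s => β s ∈ T), a s := by
  have h1 : ∑ s ∈ univ.filter (fun s => β s ∈ T), a s =
      ∑ i ∈ T, ∑ s ∈ (univ.filter (fun s => β s ∈ T)).filter (fun s => β s = i), a s :=
    (sum_fiberwise_of_maps_to (fun s hs => (mem_filter.mp hs).2) _).symm
  rw [h1, card_eq_sum_ones]
  refine sum_le_sum fun i hi => ?_
  obtain ⟨s, hs, has⟩ := h i hi
  have h2 : s ∈ (univ.filter (fun s => β s ∈ T)).filter (fun s => β s = i) := by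
    rw [mem_filter, mem_filter]
    exact ⟨⟨mem_univ s, by rw [hs]; exact hi⟩, hs⟩
  have h3 := single_le_sum (f := a) (fun _ _ => Nat.zero_le _) h2
  omega

/-- The number of exponents is bounded in terms of `|W|`. -/
theorem card_Ag_le {M : ℕ} (hM : 1 ≤ M) (β : ν → ℕ) (j : ℕ) (W : Finset ν) :
    (Ag M β j W).card ≤ (2 * M) ^ W.card := by
  classical
  have hlt : ∀ a ∈ Ag M β j W, ∀ s, a s < 2 * M := by
    intro a ha s
    have h1 := (mem_Ag.mp ha).1.1
    have h2 := single_le_sum (f := a) (fun _ _ => Nat.zero_le _) (mem_univ s)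
    omega
  have h1 : Fintype.card {a // a ∈ Ag M β j W} ≤ Fintype.card ({s // s ∈ W} → Fin (2 * M)) := by
    refine Fintype.card_le_of_injective
      (fun a s => ⟨a.1 s.1, hlt a.1 a.2 s.1⟩) ?_
    intro a b hab
    apply Subtype.ext
    funext s
    by_cases hs : s ∈ W
    · exact congrArg Fin.val (congrFun hab ⟨s, hs⟩)
    · have ha := (mem_Ag.mp a.2).2.1 s
      have hb := (mem_Ag.mp b.2).2.1 s
      by_contra hne
      by_cases h0 : a.1 s = 0
      · exact hs (hb fun h => hne (by rw [h0, h]))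
      · exact hs (ha h0)
  rw [Fintype.card_coe] at h1
  refine h1.trans ?_
  rw [Fintype.card_fun, Fintype.card_fin, Fintype.card_coe]

end Pool.Agent.V7.GA

end

section

/-!
# V7, fact (F3): a simple point imposes exactly one condition, unless the dimension is `0`
-/

set_option autoImplicit false
set_option linter.unusedSectionVars false

namespace Pool.Agent.V7

open Finset MvPolynomial Pool.Agent.H51.TB Pool.Agent.H54.V7 Pool.Agent.V7.ST
open Pool.Agent.H18.Ex (tcr)

section

variable {ν : Type} [Fintype ν] [DecidableEq ν] (M : ℕ) (β : ν → ℕ) (A : Finset (ν → ℕ))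

theorem msk_none {ν' R : Type} [Zero R] (β' : ν' → ℕ) (q : ν' → R) : msk β' ∅ q = q := by
  funext s
  unfold msk
  rw [if_neg (Finset.notMem_empty _)]

/-- The condition of a simple point. -/
theorem satK_sm (q : ν ⊕ ν → ℂ) (f : {a // a ∈ A} → ℂ) :
    SatK M β Kd.sm q f ↔ ∑ e : {a // a ∈ A}, f e * ∏ s, q (Sum.inl s) ^ e.1 s = 0 := by
  show Fat (fun e : {a // a ∈ A} => e.1) 1 (msk β ∅ fun s => q (Sum.inl s)) f ↔ _
  rw [msk_none]
  have key : ∀ e : {a // a ∈ A}, tcr (fun s => q (Sum.inl s)) e.1 (fun _ => 0) =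
      ∏ s, q (Sum.inl s) ^ e.1 s := by
    intro e
    unfold tcr
    refine prod_congr rfl fun s _ => ?_
    rw [Nat.choose_zero_right, Nat.cast_one, one_mul, Nat.sub_zero]
  constructor
  · intro h
    have h1 := h (fun _ => 0) (by simp)
    simp only [key] at h1
    exact h1
  · intro h b hb
    have hb0 : b = fun _ => 0 := by
      funext s
      have h1 : b s ≤ ∑ s, b s := single_le_sum (f := b) (fun _ _ => Nat.zero_le _) (mem_univ s)
      show b s = 0
      omega
    rw [hb0]
    simp only [key]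
    exact h

/-- A simple point imposes at most one condition. -/
theorem size_sm_le : (LSA M β A).size Kd.sm ≤ 1 := by
  obtain ⟨p, hp⟩ := gd_attained (LSA M β A) fun _ : Unit => Kd.sm
  let L : ({a // a ∈ A} → ℂ) →ₗ[ℂ] ℂ :=
    ∑ e : {a // a ∈ A}, (∏ s, p () (Sum.inl s) ^ e.1 s) • LinearMap.proj e
  have hL : ∀ f, L f = ∑ e : {a // a ∈ A}, f e * ∏ s, p () (Sum.inl s) ^ e.1 s := by
    intro f
    simp only [L, LinearMap.sum_apply, LinearMap.smul_apply, LinearMap.proj_apply, smul_eq_mul]
    exact sum_congr rfl fun e _ => mul_comm _ _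
  have h1 : LinearMap.ker L ≤ (LSA M β A).V (fun _ : Unit => Kd.sm) p := by
    intro f hf
    rw [LinearMap.mem_ker, hL] at hf
    rw [mem_LSA]
    rintro ⟨⟩
    rw [satK_sm]
    exact hf
  have h2 := Submodule.finrank_mono h1
  have h3 := LinearMap.finrank_range_add_finrank_ker L
  have h4 : Module.finrank ℂ (LinearMap.range L) ≤ 1 := by
    refine (Submodule.finrank_le _).trans ?_
    rw [Module.finrank_self]
  rw [Module.finrank_fintype_fun_eq_card] at h3
  unfold Sys.size
  omega

/-- A nonzero form does not vanish at a general point. -/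
theorem exists_ne_zero {f : {a // a ∈ A} → ℂ} (hf : f ≠ 0) :
    ∃ q : ν → ℂ, ∑ e : {a // a ∈ A}, f e * ∏ s, q s ^ e.1 s ≠ 0 := by
  classical
  let P : MvPolynomial ν ℂ :=
    ∑ e : {a // a ∈ A}, monomial (Finsupp.equivFunOnFinite.symm e.1) (f e)
  have hP : P ≠ 0 := by
    intro h0
    apply hf
    funext e₀
    have h1 : coeff (Finsupp.equivFunOnFinite.symm e₀.1) P = f e₀ := by
      simp only [P]
      rw [coeff_sum, sum_eq_single e₀]
      · rw [coeff_monomial, if_pos rfl]
      · intro e _ he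
        rw [coeff_monomial, if_neg]
        intro h
        exact he (Subtype.ext (Finsupp.equivFunOnFinite.symm.injective h))
      · intro h
        exact absurd (mem_univ _) h
    rw [h0, coeff_zero] at h1
    exact h1.symm
  by_contra hcon
  push Not at hcon
  apply hP
  refine MvPolynomial.funext fun q => ?_
  rw [map_zero]
  simp only [P]
  rw [map_sum, ← hcon q]
  refine sum_congr rfl fun e _ => ?_
  rw [eval_monomial, Finsupp.prod_fintype]
  · rfl
  · intro s
    rw [pow_zero]

/-- A simple point imposes a condition, unless the dimension is `0`. -/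
theorem gd_ad_sm_lt {κ : Type} [Fintype κ] (m : κ → Kd) (h : 0 < (LSA M β A).gd m) :
    (LSA M β A).gd (ad m Kd.sm) < (LSA M β A).gd m := by
  obtain ⟨p, hp⟩ := gd_attained (LSA M β A) m
  have hne : (LSA M β A).V m p ≠ ⊥ := by
    intro h0
    rw [h0, finrank_bot] at hp
    omega
  obtain ⟨f, hf, hf0⟩ := Submodule.exists_mem_ne_zero_of_ne_bot hne
  obtain ⟨q, hq⟩ := exists_ne_zero A hf0
  have h1 := gd_le (LSA M β A) (ad m Kd.sm)
    (Sum.elim p fun _ : Unit => (Sum.elim q 0 : ν ⊕ ν → ℂ))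
  refine h1.trans_lt ?_
  rw [← hp]
  refine Submodule.finrank_lt_finrank_of_lt ?_
  unfold ad
  rw [V_elim]
  refine lt_of_le_of_ne inf_le_left fun heq => hq ?_
  have h2 : f ∈ (LSA M β A).V (fun _ : Unit => Kd.sm)
      (fun _ : Unit => (Sum.elim q 0 : ν ⊕ ν → ℂ)) := by
    have h3 : f ∈ (LSA M β A).V m p ⊓ (LSA M β A).V (fun _ : Unit => Kd.sm)
      (fun _ : Unit => (Sum.elim q 0 : ν ⊕ ν → ℂ)) := by
      rw [heq]
      exact hf
    exact h3.2
  rw [mem_LSA] at h2
  have h4 := (satK_sm M β A _ f).1 (h2 ())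
  exact h4

/-- **(F3)**, one simple point. -/
theorem gM_cons_sm (s : Multiset Kd) :
    gM (LSA M β A) (Kd.sm ::ₘ s) = gM (LSA M β A) s - 1 := by
  have h1 := gM_cons_le (LSA M β A) s Kd.sm
  have h2 := gM_le_cons (LSA M β A) s Kd.sm
  have h3 := size_sm_le M β A
  rcases Nat.eq_zero_or_pos (gM (LSA M β A) s) with h0 | h0
  · omega
  · obtain ⟨m, hm, h⟩ := exists_conf (LSA M β A) s
    have h4 := gd_ad_sm_lt M β A m (by rw [h]; exact h0)
    rw [gd_eq_gM (LSA M β A) (ad m Kd.sm), map_ad, hm, h] at h4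
    omega

/-- **(F3)**: `a` simple points impose `a` conditions. -/
theorem gM_add_sm (s : Multiset Kd) (a : ℕ) :
    gM (LSA M β A) (s + Multiset.replicate a Kd.sm) = gM (LSA M β A) s - a := by
  induction a with
  | zero => rw [Multiset.replicate_zero, Multiset.add_zero, Nat.sub_zero]
  | succ a ih =>
    rw [Multiset.replicate_succ, Multiset.add_cons, gM_cons_sm, ih]
    omega

end

end Pool.Agent.V7

end

section

/-!
# V7, block GAMMA: the trace step

A set `Bk` of variables with block numbers `≥ j` becomes the block `j`.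
-/

set_option autoImplicit false
set_option linter.unusedSectionVars false

namespace Pool.Agent.V7.GA

open Finset MvPolynomial Pool.Agent.H51.TB Pool.Agent.H54.V7 Pool.Agent.V7.ST
open Pool.Agent.H18.Ex (tcr)

variable {ν : Type} [Fintype ν] [DecidableEq ν]

/-- The new block numbers: `Bk` becomes the block `j`. -/
def nb (β : ν → ℕ) (j : ℕ) (Bk : Finset ν) : ν → ℕ := fun s =>
  if s ∈ Bk then j else if β s < j then β s else j + 1

theorem nb_lt {β : ν → ℕ} {j : ℕ} {Bk : Finset ν} (hB : ∀ s ∈ Bk, j ≤ β s) {s : ν} {i : ℕ}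
    (hi : i < j) : nb β j Bk s = i ↔ β s = i := by
  unfold nb
  by_cases h1 : s ∈ Bk
  · rw [if_pos h1]
    have := hB s h1
    omega
  · rw [if_neg h1]
    split_ifs <;> omega

theorem nb_eq {β : ν → ℕ} {j : ℕ} {Bk : Finset ν} {s : ν} :
    nb β j Bk s = j ↔ s ∈ Bk := by
  unfold nb
  by_cases h1 : s ∈ Bk
  · rw [if_pos h1]
    exact ⟨fun _ => h1, fun _ => rfl⟩
  · rw [if_neg h1]
    constructor
    · intro h
      exfalso
      split_ifs at h <;> omega
    · intro h
      exact absurd h h1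

theorem nb_mem {β : ν → ℕ} {j : ℕ} {Bk : Finset ν} (hB : ∀ s ∈ Bk, j ≤ β s) {s : ν}
    {I : Finset ℕ} (hI : I ⊆ range j) : nb β j Bk s ∈ I ↔ β s ∈ I := by
  constructor
  · intro h
    have h1 := mem_range.mp (hI h)
    have h2 := (nb_lt hB h1).mp rfl
    rw [h2]
    exact h
  · intro h
    have h1 := mem_range.mp (hI h)
    have h2 := (nb_lt (Bk := Bk) hB h1).mpr rfl
    rw [h2]
    exact h

theorem nb_lt_iff {β : ν → ℕ} {j : ℕ} {Bk : Finset ν} (hB : ∀ s ∈ Bk, j ≤ β s) {s : ν} {i : ℕ}
    (hi : i ≤ j) : nb β j Bk s < i ↔ β s < i := by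
  have h1 := nb_mem (s := s) hB (I := range i) (range_subset_range.mpr hi)
  rw [mem_range, mem_range] at h1
  exact h1

theorem msk_nb {β : ν → ℕ} {j : ℕ} {Bk : Finset ν} (hB : ∀ s ∈ Bk, j ≤ β s)
    {I : Finset ℕ} (hI : I ⊆ range j) (q : ν → ℂ) : msk (nb β j Bk) I q = msk β I q := by
  funext s
  unfold msk
  by_cases h : β s ∈ I
  · rw [if_pos h, if_pos ((nb_mem hB hI).mpr h)]
  · rw [if_neg h, if_neg fun h' => h ((nb_mem hB hI).mp h')]

/-- The position on the subspace where the variables of `Bk` vanish. -/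
def zb (Bk : Finset ν) (q : ν → ℂ) : ν → ℂ := fun s => if s ∈ Bk then 0 else q s

theorem msk_nb_insert {β : ν → ℕ} {j : ℕ} {Bk : Finset ν} (hB : ∀ s ∈ Bk, j ≤ β s)
    {I : Finset ℕ} (hI : I ⊆ range j) (q : ν → ℂ) :
    msk (nb β j Bk) (insert j I) q = msk β I (zb Bk q) := by
  funext s
  unfold msk zb
  by_cases h : s ∈ Bk
  · rw [if_pos (mem_insert.mpr (Or.inl (nb_eq.mpr h))), if_pos h]
    split_ifs <;> rfl
  · rw [if_neg h]
    by_cases h' : β s ∈ I
    · rw [if_pos h', if_pos (mem_insert.mpr (Or.inr ((nb_mem hB hI).mpr h')))]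
    · rw [if_neg h', if_neg]
      intro h2
      rcases mem_insert.mp h2 with h2 | h2
      · exact h (nb_eq.mp h2)
      · exact h' ((nb_mem hB hI).mp h2)

theorem Ag_sdiff_subset (M : ℕ) (β : ν → ℕ) (j : ℕ) (W Bk : Finset ν) :
    Ag M β j (W \ Bk) ⊆ Ag M β j W := by
  intro a ha
  rw [mem_Ag] at ha ⊢
  exact ⟨ha.1, fun s hs => (mem_sdiff.mp (ha.2.1 s hs)).1, ha.2.2⟩

theorem Ag_nb_subset {M : ℕ} {β : ν → ℕ} {j : ℕ} {W Bk : Finset ν} (hj : M - 1 ≤ j)
    (hB : ∀ s ∈ Bk, j ≤ β s) : Ag M (nb β j Bk) (j + 1) W ⊆ Ag M β j W := by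
  intro a ha
  rw [mem_Ag] at ha ⊢
  refine ⟨⟨ha.1.1, fun i hi => ?_⟩, ha.2.1, ?_⟩
  · obtain ⟨s, hs, h0⟩ := ha.1.2 i (by omega)
    exact ⟨s, (nb_lt hB hi).mp hs, h0⟩
  · have h1 : univ.filter (fun s => nb β j Bk s < M - 1) = univ.filter fun s => β s < M - 1 :=
      filter_congr fun s _ => nb_lt_iff hB hj
    rw [← h1]
    exact ha.2.2

theorem Ag_cover {M : ℕ} {β : ν → ℕ} {j : ℕ} {W Bk : Finset ν} (hj : M - 1 ≤ j)
    (hB : ∀ s ∈ Bk, j ≤ β s) {a : ν → ℕ} (ha : a ∈ Ag M β j W) :
    a ∈ Ag M β j (W \ Bk) ∨ a ∈ Ag M (nb β j Bk) (j + 1) W := by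
  rw [mem_Ag] at ha
  by_cases h : ∃ s ∈ Bk, a s ≠ 0
  · right
    rw [mem_Ag]
    refine ⟨⟨ha.1.1, fun i hi => ?_⟩, ha.2.1, ?_⟩
    · rcases Nat.lt_succ_iff_lt_or_eq.mp hi with hi | hi
      · obtain ⟨s, hs, h0⟩ := ha.1.2 i hi
        exact ⟨s, (nb_lt hB hi).mpr hs, h0⟩
      · obtain ⟨s, hs, h0⟩ := h
        exact ⟨s, by rw [hi]; exact nb_eq.mpr hs, h0⟩
    · have h1 : univ.filter (fun s => nb β j Bk s < M - 1) = univ.filter fun s => β s < M - 1 :=
        filter_congr fun s _ => nb_lt_iff hB hj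
      rw [h1]
      exact ha.2.2
  · left
    push Not at h
    rw [mem_Ag]
    exact ⟨ha.1, fun s hs => mem_sdiff.mpr ⟨ha.2.1 s hs, fun hsB => hs (h s hsB)⟩, ha.2.2⟩

theorem Ag_zero_of_mem {M : ℕ} {β : ν → ℕ} {j : ℕ} {W Bk : Finset ν} {a : ν → ℕ}
    (ha : a ∈ Ag M β j (W \ Bk)) : ∀ s ∈ Bk, a s = 0 := by
  intro s hs
  by_contra h0
  exact (mem_sdiff.mp ((mem_Ag.mp ha).2.1 s h0)).2 hs

theorem exists_ne_of_not_mem {M : ℕ} {β : ν → ℕ} {j : ℕ} {W Bk : Finset ν} {a : ν → ℕ}
    (ha : a ∈ Ag M β j W) (h : a ∉ Ag M β j (W \ Bk)) : ∃ s ∈ Bk, a s ≠ 0 := by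
  by_contra hc
  push Not at hc
  apply h
  rw [mem_Ag] at ha ⊢
  exact ⟨ha.1, fun s hs => mem_sdiff.mpr ⟨ha.2.1 s hs, fun hsB => hs (hc s hsB)⟩, ha.2.2⟩

/-- The restriction of a form which is `M`-fold at a point of the subspace. -/
theorem fat_trace {M : ℕ} {β : ν → ℕ} {j : ℕ} {W Bk : Finset ν} (I : Finset ℕ) (q : ν → ℂ)
    (f : {a // a ∈ Ag M β j W} → ℂ)
    (h : Fat (fun e : {a // a ∈ Ag M β j W} => e.1) M (msk β I (zb Bk q)) f) :
    Fat (fun e : {a // a ∈ Ag M β j (W \ Bk)} => e.1) M (msk β I q)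
      fun e => f ⟨e.1, Ag_sdiff_subset M β j W Bk e.2⟩ := by
  intro b hb
  by_cases hbB : ∃ s ∈ Bk, b s ≠ 0
  · obtain ⟨s, hs, hb0⟩ := hbB
    refine sum_eq_zero fun e _ => ?_
    rw [tcr_zero_of s, mul_zero]
    show (((e.1 s).choose (b s) : ℕ) : ℂ) * msk β I q s ^ (e.1 s - b s) = 0
    rw [Ag_zero_of_mem e.2 s hs, Nat.choose_eq_zero_of_lt (Nat.pos_of_ne_zero hb0), Nat.cast_zero,
      zero_mul]
  · push Not at hbB
    have h1 := sum_sub (Ag_sdiff_subset M β j W Bk)
      (fun e : {a // a ∈ Ag M β j W} => f e * tcr (msk β I (zb Bk q)) e.1 b) (by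
        intro e he
        obtain ⟨s, hs, h0⟩ := exists_ne_of_not_mem e.2 he
        show f e * tcr (msk β I (zb Bk q)) e.1 b = 0
        rw [tcr_zero_of s, mul_zero]
        have h2 : msk β I (zb Bk q) s = 0 := by
          unfold msk zb
          rw [if_pos hs]
          split_ifs <;> rfl
        rw [h2, hbB s hs, Nat.sub_zero, zero_pow h0, mul_zero])
    rw [← h b hb, ← h1]
    refine sum_congr rfl fun e _ => ?_
    show _ = f _ * tcr (msk β I (zb Bk q)) e.1 b
    congr 1
    unfold tcr
    refine prod_congr rfl fun s _ => ?_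
    show (((e.1 s).choose (b s) : ℕ) : ℂ) * msk β I q s ^ (e.1 s - b s) =
      (((e.1 s).choose (b s) : ℕ) : ℂ) * msk β I (zb Bk q) s ^ (e.1 s - b s)
    by_cases hs : s ∈ Bk
    · rw [Ag_zero_of_mem e.2 s hs, Nat.zero_sub, pow_zero, pow_zero]
    · congr 2
      unfold msk zb
      rw [if_neg hs]

/-- A form which vanishes on the subspace has its conditions on the remaining exponents. -/
theorem fat_res {M : ℕ} {β : ν → ℕ} {j : ℕ} {W Bk : Finset ν} (hj : M - 1 ≤ j)
    (hB : ∀ s ∈ Bk, j ≤ β s) (p : ν → ℂ) (f : {a // a ∈ Ag M β j W} → ℂ)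
    (h : Fat (fun e : {a // a ∈ Ag M β j W} => e.1) M p f)
    (h0 : ∀ e : {a // a ∈ Ag M β j (W \ Bk)}, f ⟨e.1, Ag_sdiff_subset M β j W Bk e.2⟩ = 0) :
    Fat (fun e : {a // a ∈ Ag M (nb β j Bk) (j + 1) W} => e.1) M p
      fun e => f ⟨e.1, Ag_nb_subset hj hB e.2⟩ := by
  intro b hb
  rw [← h b hb]
  refine sum_sub (Ag_nb_subset hj hB)
      (fun e : {a // a ∈ Ag M β j W} => f e * tcr p e.1 b) ?_
  intro e he
  show f e * tcr p e.1 b = 0
  rcases Ag_cover hj hB e.2 with h1 | h1
  · have h2 : f e = 0 := h0 ⟨e.1, h1⟩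
    rw [h2, zero_mul]
  · exact absurd h1 he

/-- The trace step: the points of `s` are put on the subspace where the variables of `Bk`
vanish. -/
theorem gM_trace {M : ℕ} {β : ν → ℕ} {j : ℕ} {W Bk : Finset ν} (hj : M - 1 ≤ j)
    (hB : ∀ s ∈ Bk, j ≤ β s) (s t : Multiset (Finset ℕ)) (hs : ∀ I ∈ s, I ⊆ range j)
    (ht : ∀ I ∈ t, I ⊆ range j) :
    gM (SG M β (Ag M β j W)) (s + t) ≤ gM (SG M β (Ag M β j (W \ Bk))) s +
      gM (SG M (nb β j Bk) (Ag M (nb β j Bk) (j + 1) W)) (s.map (insert j) + t) := by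
  obtain ⟨m, hm, hmg⟩ := exists_conf (SG M β (Ag M β j (W \ Bk))) s
  obtain ⟨n, hn, _⟩ := exists_conf (SG M β (Ag M β j (W \ Bk))) t
  have hms : ∀ i, m i ⊆ range j := by
    intro i
    apply hs
    rw [← hm]
    exact Multiset.mem_map_of_mem m (mem_univ i)
  have hnt : ∀ i, n i ⊆ range j := by
    intro i
    apply ht
    rw [← hn]
    exact Multiset.mem_map_of_mem n (mem_univ i)
  have h1 := gd_trace (SG M β (Ag M β j W)) (SG M β (Ag M β j (W \ Bk)))
    (SG M (nb β j Bk) (Ag M (nb β j Bk) (j + 1) W))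
    (fun e => ⟨e.1, Ag_sdiff_subset M β j W Bk e.2⟩) (fun e => ⟨e.1, Ag_nb_subset hj hB e.2⟩)
    (by
      intro e
      rcases Ag_cover hj hB e.2 with h | h
      · exact Or.inl ⟨⟨e.1, h⟩, rfl⟩
      · exact Or.inr ⟨⟨e.1, h⟩, rfl⟩)
    id Function.injective_id (zb Bk) m (fun i => insert j (m i)) n
    (by
      intro i q f hf
      rw [mem_SG] at hf ⊢
      exact fun u => fat_trace (m i) q f (hf u))
    (by
      intro i q f hf h0
      rw [mem_SG] at hf ⊢
      intro u
      rw [msk_nb_insert hB (hms i)]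
      exact fat_res hj hB _ f (hf u) h0)
    (by
      intro i q f hf h0
      rw [mem_SG] at hf ⊢
      intro u
      rw [msk_nb hB (hnt i)]
      exact fat_res hj hB _ f (hf u) h0)
  rw [gd_eq_gM, gd_eq_gM, gd_eq_gM, map_elim, map_elim, hm, hn] at h1
  have h2 : (univ : Finset (Fin s.toList.length)).val.map (fun i => insert j (m i)) =
      s.map (insert j) := by
    have h3 := congrArg (Multiset.map (insert j)) hm
    rw [Multiset.map_map] at h3
    exact h3
  rw [h2] at h1
  exact h1

end Pool.Agent.V7.GA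

end
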