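import Pool.Agent.H94.LP5.M08
import Pool.Agent.H94.LP5.M13
import Pool.Agent.H94.LP5.M18
import Pool.Agent.H94.LP5.M33
import Pool.Agent.H94.LP5.M34

/-! The parts of this file: H21.NX.GL, H21.NX.GenB_1, H21.NX.GenB_2, H21.NX.GenB_3, H21.NX.Single, H21.NX.Swap. -/

section

/-!
# Module GL: the span of the spaces `V_d(Γ)`

If `V_d(Γ)` is, for general `Γ`, contained in a fixed subspace `X` not containing all forms of
degree `d`, then `V_d(Γ) = 0` for general `Γ`.

Proof.  Let `φ` be a linear functional killing `X` but not all forms of degree `d`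
(`Submodule.exists_le_ker_of_notMem`), and `G ≠ 0` the polynomial of `h`; take `p₀` with
`G(p₀) ≠ 0` and show `fatForms r d p₀ m = ⊥` (then `gdim_le`).  Let `F ∈ fatForms r d p₀ m`.  For
a square matrix `A` put `p_A i = adjugate(A) *ᵥ p₀ i`.  Then `linSubst A F` (`F(Ax)`) is
homogeneous of degree `d` and vanishes to order `m i` at `p_A i` if `det A ≠ 0`, since
`A p_A i = det A • p₀ i` (`linSubst_shift`, `vanishes_linSubst` etc. in H18/FatToric; vanishing of
a homogeneous form at `c • q`, `c ≠ 0`, is the same as at `q`: `linSubst` with a scalar matrix).  So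
`φ(linSubst A F) = 0` whenever `det A * G(p_A) ≠ 0`; both sides are polynomials in the entries of
`A`, and `det A * G(p_A)` is not the zero polynomial (value `G(p₀)` at `A = 1`), hence
`φ(linSubst A F) = 0` for all `A`.  For the rank one matrix `A i j = c i * v j` one has
`linSubst A F = C (F(c)) * lin v ^ d` (`lin` from H21/HD/Defs), so `F(c) * φ(lin v ^ d) = 0`
for all `c`, `v`.  If `F ≠ 0` there is `c` with `F(c) ≠ 0`, so `φ` kills all `lin v ^ d`, which span
the forms of degree `d` (`Pool.Agent.H21.HD.PowSpanLX.span_all`): contradiction.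
-/

namespace Pool.Agent.H21.NX

open Finset MvPolynomial Pool.Agent.H18.Fat Pool.Agent.H21.HD

namespace GLX

/-- Homogeneous polynomials and scalar multiples of the arguments. -/
theorem aeval_mul_homog {n d : ℕ} {S : Type*} [CommRing S] [Algebra ℂ S]
    {F : MvPolynomial (Fin n) ℂ} (hF : F.IsHomogeneous d) (z : S) (f : Fin n → S) :
    aeval (fun i => z * f i) F = z ^ d * aeval f F := by
  rw [aeval_def, aeval_def, eval₂_eq', eval₂_eq', mul_sum]
  refine sum_congr rfl fun s hs => ?_
  have h1 : s.degree = d := by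
    by_contra hne
    exact (mem_support_iff.1 hs) (hF.coeff_eq_zero hne)
  have h2 : ∏ i, (z * f i) ^ s i = z ^ d * ∏ i, f i ^ s i := by
    simp_rw [mul_pow]
    rw [prod_mul_distrib, prod_pow_eq_pow_sum, ← Finsupp.degree_eq_sum, h1]
  rw [h2]
  ring

theorem linSubst_scalar {n d : ℕ} {F : MvPolynomial (Fin n) ℂ} (hF : F.IsHomogeneous d) (c : ℂ) :
    linSubst (c • (1 : Matrix (Fin n) (Fin n) ℂ)) F = C (c ^ d) * F := by
  have h1 : linSubst (c • (1 : Matrix (Fin n) (Fin n) ℂ)) F =
      aeval (fun i => (C c : MvPolynomial (Fin n) ℂ) * X i) F := by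
    unfold linSubst
    refine congrArg (fun f : Fin n → MvPolynomial (Fin n) ℂ => aeval f F) (funext fun i => ?_)
    rw [sum_eq_single i]
    · simp
    · intro j _ hj
      simp [Ne.symm hj]
    · intro h
      exact absurd (mem_univ i) h
  rw [h1, aeval_mul_homog hF, C_pow, aeval_X_left, AlgHom.id_apply]

theorem vanishes_smul {n d m : ℕ} {F : MvPolynomial (Fin n) ℂ} (hF : F.IsHomogeneous d)
    {q : Fin n → ℂ} (h : VanishesToOrder F q m) {c : ℂ} (hc : c ≠ 0) :
    VanishesToOrder F (c • q) m := by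
  have h1 : ((c⁻¹ • (1 : Matrix (Fin n) (Fin n) ℂ)).mulVec (c • q)) = q := by
    rw [Matrix.smul_mulVec, Matrix.one_mulVec, smul_smul, inv_mul_cancel₀ hc, one_smul]
  have h2 : VanishesToOrder (linSubst (c⁻¹ • (1 : Matrix (Fin n) (Fin n) ℂ)) F) (c • q) m :=
    vanishes_linSubst (by rw [h1]; exact h)
  rw [linSubst_scalar hF] at h2
  intro β hβ
  have h3 := h2 β hβ
  unfold shift at h3 ⊢
  rw [map_mul, aeval_C, algebraMap_eq, coeff_C_mul] at h3
  rcases mul_eq_zero.1 h3 with h4 | h4
  · exact absurd h4 (pow_ne_zero _ (inv_ne_zero hc))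
  · exact h4

/-- The generic substitution. -/
noncomputable def gF {n : ℕ} :
    MvPolynomial (Fin n) ℂ →+* MvPolynomial (Fin n) (MvPolynomial (Fin n × Fin n) ℂ) :=
  eval₂Hom (C.comp C) (fun i => ∑ j, C (X (i, j)) * X j)

theorem map_gF {n : ℕ} (A : Matrix (Fin n) (Fin n) ℂ) (F : MvPolynomial (Fin n) ℂ) :
    MvPolynomial.map (eval fun x : Fin n × Fin n => A x.1 x.2) (gF F) = linSubst A F := by
  have h : (MvPolynomial.map (eval fun x : Fin n × Fin n => A x.1 x.2)).comp gF =
      (linSubst A).toRingHom := by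
    apply ringHom_ext
    · intro c
      simp [gF, linSubst]
    · intro i
      simp [gF, linSubst]
  exact DFunLike.congr_fun h F

theorem aeval_C_eq {n : ℕ} (c : Fin n → ℂ) (F : MvPolynomial (Fin n) ℂ) :
    aeval (fun i => (C (c i) : MvPolynomial (Fin n) ℂ)) F = C (eval c F) := by
  induction F using MvPolynomial.induction_on with
  | C c => simp
  | add p q hp hq => rw [map_add, map_add, map_add, hp, hq]
  | mul_X p i hp => rw [map_mul, map_mul, map_mul, hp, aeval_X, eval_X]

theorem homog_eq' {n d : ℕ} {F : MvPolynomial (Fin n) ℂ} (hF : F.IsHomogeneous d) :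
    F = ∑ s ∈ mons n d, monomial s (coeff s F) := by
  classical
  ext s
  rw [coeff_sum]
  simp only [coeff_monomial]
  rw [Finset.sum_ite_eq']
  split_ifs with h
  · rfl
  · rw [mem_mons] at h
    exact hF.coeff_eq_zero h

theorem eval_aeval' {σ τ : Type*} (a : τ → ℂ) (g : σ → MvPolynomial τ ℂ)
    (G : MvPolynomial σ ℂ) : eval a (aeval g G) = eval (fun x => eval a (g x)) G := by
  induction G using MvPolynomial.induction_on with
  | C c => simp
  | add p q hp hq => rw [map_add, map_add, map_add, hp, hq]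
  | mul_X p i hp => rw [map_mul, map_mul, map_mul, hp, aeval_X, eval_X]

theorem functional_poly {n d : ℕ} (φ : MvPolynomial (Fin n) ℂ →ₗ[ℂ] ℂ)
    {F : MvPolynomial (Fin n) ℂ} (hF : F.IsHomogeneous d) :
    ∃ Q : MvPolynomial (Fin n × Fin n) ℂ, ∀ A : Matrix (Fin n) (Fin n) ℂ,
      eval (fun x => A x.1 x.2) Q = φ (linSubst A F) := by
  refine ⟨∑ t ∈ mons n d, coeff t (gF F) * C (φ (monomial t 1)), fun A => ?_⟩
  conv_rhs => rw [homog_eq' (linSubst_isHomogeneous A hF), map_sum]
  rw [map_sum]
  refine sum_congr rfl fun t _ => ?_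
  rw [map_mul, eval_C]
  have h1 : (monomial t) (coeff t (linSubst A F)) =
      (coeff t (linSubst A F)) • (monomial t (1 : ℂ)) := by
    rw [smul_monomial, smul_eq_mul, mul_one]
  rw [h1, map_smul, smul_eq_mul, ← map_gF, coeff_map]

end GLX

open GLX

/-- Step 1: the polynomial identity in the entries of the matrix. -/
theorem gl_all {r d : ℕ} {κ : Type} [Fintype κ] (m : κ → ℕ)
    (φ : MvPolynomial (Fin (r + 1)) ℂ →ₗ[ℂ] ℂ) (G : MvPolynomial (κ × Fin (r + 1)) ℂ)
    (hG : ∀ p : κ → Fin (r + 1) → ℂ, eval (fun x => p x.1 x.2) G ≠ 0 →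
      ∀ F ∈ fatForms r d p m, φ F = 0)
    (p₀ : κ → Fin (r + 1) → ℂ) (hp₀ : eval (fun x => p₀ x.1 x.2) G ≠ 0)
    (F : MvPolynomial (Fin (r + 1)) ℂ) (hF : F ∈ fatForms r d p₀ m)
    (A : Matrix (Fin (r + 1)) (Fin (r + 1)) ℂ) : φ (linSubst A F) = 0 := by
  classical
  obtain ⟨Q, hQ⟩ := functional_poly φ hF.1
  -- the polynomial `det A * G(p_A)`
  let N := Matrix.mvPolynomialX (Fin (r + 1)) (Fin (r + 1)) ℂ
  have hN : ∀ A : Matrix (Fin (r + 1)) (Fin (r + 1)) ℂ,
      (eval fun x : Fin (r + 1) × Fin (r + 1) => A x.1 x.2).mapMatrix N = A :=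
    fun A => Matrix.mvPolynomialX_mapMatrix_eval A
  let D : MvPolynomial (Fin (r + 1) × Fin (r + 1)) ℂ :=
    N.det * aeval (fun x : κ × Fin (r + 1) => ∑ j, N.adjugate x.2 j * C (p₀ x.1 j)) G
  have hD : ∀ A : Matrix (Fin (r + 1)) (Fin (r + 1)) ℂ,
      eval (fun x => A x.1 x.2) D = A.det *
        eval (fun x : κ × Fin (r + 1) => (A.adjugate.mulVec (p₀ x.1)) x.2) G := by
    intro A
    have h1 : eval (fun x : Fin (r + 1) × Fin (r + 1) => A x.1 x.2) N.det = A.det := by
      rw [RingHom.map_det, hN]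
    have h2 : ∀ i j, eval (fun x : Fin (r + 1) × Fin (r + 1) => A x.1 x.2) (N.adjugate i j) =
        A.adjugate i j := by
      intro i j
      have h3 := RingHom.map_adjugate (eval fun x : Fin (r + 1) × Fin (r + 1) => A x.1 x.2) N
      rw [hN] at h3
      have h4 := congrFun (congrFun h3 i) j
      simpa using h4
    simp only [D, map_mul, h1]
    rw [eval_aeval']
    have h6 : (fun x : κ × Fin (r + 1) => eval (fun x : Fin (r + 1) × Fin (r + 1) => A x.1 x.2)
        (∑ j, N.adjugate x.2 j * C (p₀ x.1 j))) =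
        fun x : κ × Fin (r + 1) => (A.adjugate.mulVec (p₀ x.1)) x.2 := by
      funext x
      rw [map_sum]
      simp only [map_mul, h2, eval_C]
      rfl
    rw [h6]
  have hQD : Q * D = 0 := by
    apply MvPolynomial.funext
    intro a
    let A : Matrix (Fin (r + 1)) (Fin (r + 1)) ℂ := Matrix.of fun i j => a (i, j)
    have ha : a = fun x : Fin (r + 1) × Fin (r + 1) => A x.1 x.2 := by
      funext x
      rfl
    rw [map_mul, map_zero, ha, hQ, hD]
    by_cases hdet : A.det = 0
    · rw [hdet, zero_mul, mul_zero]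
    by_cases hGA : eval (fun x : κ × Fin (r + 1) => (A.adjugate.mulVec (p₀ x.1)) x.2) G = 0
    · rw [hGA, mul_zero, mul_zero]
    have h1 : φ (linSubst A F) = 0 := by
      refine hG (fun i => A.adjugate.mulVec (p₀ i)) hGA _ ?_
      refine ⟨linSubst_isHomogeneous A hF.1, fun i => ?_⟩
      apply vanishes_linSubst
      have h2 : A.mulVec (A.adjugate.mulVec (p₀ i)) = A.det • p₀ i := by
        rw [Matrix.mulVec_mulVec, Matrix.mul_adjugate, Matrix.smul_mulVec, Matrix.one_mulVec]
      rw [h2]
      exact vanishes_smul hF.1 (hF.2 i) hdet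
    rw [h1, zero_mul]
  have hD0 : D ≠ 0 := by
    intro h0
    have h1 := hD 1
    rw [h0, map_zero, Matrix.det_one, one_mul] at h1
    apply hp₀
    rw [h1]
    have h2 : (fun x : κ × Fin (r + 1) => p₀ x.1 x.2) = fun x : κ × Fin (r + 1) =>
        ((1 : Matrix (Fin (r + 1)) (Fin (r + 1)) ℂ).adjugate.mulVec (p₀ x.1)) x.2 := by
      funext x
      rw [Matrix.adjugate_one, Matrix.one_mulVec]
    rw [h2]
  have hQ0 : Q = 0 := (mul_eq_zero.1 hQD).resolve_right hD0
  rw [← hQ, hQ0, map_zero]

/-- Step 2: rank one matrices. -/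
theorem linSubst_rank_one {r d : ℕ} (F : MvPolynomial (Fin (r + 1)) ℂ) (hF : F.IsHomogeneous d)
    (c v : Fin (r + 1) → ℂ) :
    linSubst (Matrix.of fun i j => c i * v j) F = C (eval c F) * lin v ^ d := by
  have h1 : linSubst (Matrix.of fun i j => c i * v j) F =
      aeval (fun i => lin v * (C (c i) : MvPolynomial (Fin (r + 1)) ℂ)) F := by
    unfold linSubst lin
    refine congrArg (fun f : Fin (r + 1) → MvPolynomial (Fin (r + 1)) ℂ => aeval f F)
      (funext fun i => ?_)
    rw [sum_mul]
    refine sum_congr rfl fun j _ => ?_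
    rw [Matrix.of_apply, C_mul]
    ring
  rw [h1, aeval_mul_homog hF, mul_comm, aeval_C_eq]

theorem gl_lemma (r d : ℕ) {κ : Type} [Fintype κ] (m : κ → ℕ)
    (X : Submodule ℂ (MvPolynomial (Fin (r + 1)) ℂ))
    (hX : ¬ homogeneousSubmodule (Fin (r + 1)) ℂ d ≤ X)
    (h : Gen r κ fun p => fatForms r d p m ≤ X) : gdim r d m = 0 := by
  classical
  obtain ⟨F₀, hF₀, hF₀X⟩ := SetLike.not_le_iff_exists.1 hX
  obtain ⟨φ, hφF₀, hφ⟩ := Submodule.exists_le_ker_of_notMem hF₀X
  obtain ⟨G, hG0, hG⟩ := h
  obtain ⟨a, ha⟩ : ∃ a, eval a G ≠ 0 := by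
    by_contra hcon
    push Not at hcon
    exact hG0 (MvPolynomial.funext fun a => by rw [hcon a, map_zero])
  let p₀ : κ → Fin (r + 1) → ℂ := fun i j => a (i, j)
  have hp₀ : eval (fun x : κ × Fin (r + 1) => p₀ x.1 x.2) G ≠ 0 := ha
  have hbot : fatForms r d p₀ m = ⊥ := by
    rw [Submodule.eq_bot_iff]
    intro F hF
    by_contra hF0
    obtain ⟨c, hc⟩ : ∃ c, eval c F ≠ 0 := by
      by_contra hcon
      push Not at hcon
      exact hF0 (MvPolynomial.funext fun a => by rw [hcon a, map_zero])
    have h1 : ∀ v : Fin (r + 1) → ℂ, φ (lin v ^ d) = 0 := by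
      intro v
      have h2 := gl_all m φ G (fun p hp F hF => hφ (hG p hp hF)) p₀ hp₀ F hF
        (Matrix.of fun i j => c i * v j)
      rw [linSubst_rank_one F hF.1, ← smul_eq_C_mul, map_smul, smul_eq_mul] at h2
      exact (mul_eq_zero.1 h2).resolve_left hc
    have h3 : homogeneousSubmodule (Fin (r + 1)) ℂ d ≤ LinearMap.ker φ := by
      rw [PowSpanLX.span_all, Submodule.span_le]
      rintro _ ⟨v, rfl⟩
      exact h1 v
    exact hφF₀ (h3 hF₀)
  have h4 := gdim_le r d m p₀
  rw [hbot, finrank_bot] at h4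
  omega

end Pool.Agent.H21.NX

end

section

/-!
# Module GenB: the general dimension

Useful: `general_finrank_le`, `finrank_add_length_ge` (H18/FatToric), `finite_fat` (H21/HD/BridgeC),
`Nat.sInf_mem`, `Nat.sInf_le`, `Submodule.finrank_mono`, `Submodule.finrank_sup_add_finrank_inf_eq`,
`finrank_homog'` (H21/HD/BridgeD).
-/

namespace Pool.Agent.H21.NX

open Finset MvPolynomial Pool.Agent.H18.Fat Pool.Agent.H18.Ex

namespace GenBX

end GenBX

open GenBX

/-- The minimal dimension is attained at general points: transport `general_finrank_le` along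
`Fintype.equivFin`. -/
theorem gen_gdim (r d : ℕ) {κ : Type} [Fintype κ] (m : κ → ℕ) :
    Gen r κ fun p => Module.finrank ℂ (fatForms r d p m) = gdim r d m := by
  classical
  obtain ⟨p₀, hp₀⟩ := gdim_attained r d m
  let e := Fintype.equivFin κ
  have h1 : Gen r (Fin (Fintype.card κ)) fun p =>
      Module.finrank ℂ (fatForms r d p fun i => m (e.symm i)) ≤
        Module.finrank ℂ (fatForms r d (fun i => p₀ (e.symm i)) fun i => m (e.symm i)) :=
    general_finrank_le d (fun i => p₀ (e.symm i)) (fun i => m (e.symm i))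
  have h2 := h1.comap e.symm e.symm.injective
  refine h2.mono fun p hp => ?_
  rw [fat_comp_equiv e.symm p m, fat_comp_equiv e.symm p₀ m, hp₀] at hp
  exact le_antisymm hp (gdim_le r d m p)

/-- Further points impose at most their length (`finrank_add_length_ge`, with
`Gen.coord_ne_zero`). -/
theorem le_gdim_elim (r d : ℕ) (hr : 1 ≤ r) {κ κ' : Type} [Fintype κ] [Fintype κ'] (m : κ → ℕ)
    (n : κ' → ℕ) : gdim r d m ≤ gdim r d (Sum.elim m n) + ∑ j, ell r (n j) := by
  obtain ⟨P, hP1, hP2⟩ := ((gen_gdim r d (Sum.elim m n)).and (Gen.coord_ne_zero r (κ ⊕ κ'))).exists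
  have h1 := finrank_add_length_ge (d := d) hr (fun i => P (Sum.inl i)) m
    (fun j => P (Sum.inr j)) (fun j => hP2 _ _) n
  have h2 : (Sum.elim (fun i => P (Sum.inl i)) fun j => P (Sum.inr j)) = P := by
    funext x
    rcases x with i | j <;> rfl
  rw [h2, hP1] at h1
  exact (gdim_le r d m _).trans h1

end Pool.Agent.H21.NX

end

section

/-!
# Module GenB: the general dimension

Useful: `general_finrank_le`, `finrank_add_length_ge` (H18/FatToric), `finite_fat` (H21/HD/BridgeC),
`Nat.sInf_mem`, `Nat.sInf_le`, `Submodule.finrank_mono`, `Submodule.finrank_sup_add_finrank_inf_eq`,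
`finrank_homog'` (H21/HD/BridgeD).
-/

namespace Pool.Agent.H21.NX

open Finset MvPolynomial Pool.Agent.H18.Fat

namespace GenBX

theorem finite_fat {r d : ℕ} {ι : Type*} (p : ι → Fin (r + 1) → ℂ) (m : ι → ℕ) :
    Module.Finite ℂ (fatForms r d p m) :=
  Pool.Agent.H21.HD.BridgeCX.finite_fat p m

end GenBX

open GenBX

theorem gdim_elim_le (r d : ℕ) {κ κ' : Type} [Fintype κ] [Fintype κ'] (m : κ → ℕ) (n : κ' → ℕ) :
    gdim r d (Sum.elim m n) ≤ gdim r d m := by
  obtain ⟨p₀, hp₀⟩ := gdim_attained r d m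
  have := finite_fat (d := d) p₀ m
  rw [← hp₀]
  exact (gdim_le r d (Sum.elim m n) (Sum.elim p₀ 0)).trans
    (Submodule.finrank_mono (fat_comp_le Sum.inl (Sum.elim p₀ 0) (Sum.elim m n)))

theorem gdim_empty (r d : ℕ) (m : Fin 0 → ℕ) : gdim r d m = (d + r).choose r := by
  obtain ⟨p₀, hp₀⟩ := gdim_attained r d m
  have h : fatForms r d p₀ m = homogeneousSubmodule (Fin (r + 1)) ℂ d := by
    ext F
    exact ⟨fun hF => hF.1, fun hF => ⟨hF, fun i => i.elim0⟩⟩
  rw [← hp₀, h, Pool.Agent.H21.HD.BridgeDX.finrank_homog']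

end Pool.Agent.H21.NX

end

section

/-!
# Module GenB: the general dimension

Useful: `general_finrank_le`, `finrank_add_length_ge` (H18/FatToric), `finite_fat` (H21/HD/BridgeC),
`Nat.sInf_mem`, `Nat.sInf_le`, `Submodule.finrank_mono`, `Submodule.finrank_sup_add_finrank_inf_eq`,
`finrank_homog'` (H21/HD/BridgeD).
-/

namespace Pool.Agent.H21.NX

open Finset MvPolynomial Pool.Agent.H18.Fat Pool.Agent.H18.Ex

namespace GenBX

end GenBX

open GenBX

/-- Submodularity: at general points `V(m, n)` and `V(m, n')` are subspaces of `V(m)` with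
intersection `V(m, n, n')`. -/
theorem gdim_submod (r d : ℕ) {κ κ₁ κ₂ : Type} [Fintype κ] [Fintype κ₁] [Fintype κ₂] (m : κ → ℕ)
    (n₁ : κ₁ → ℕ) (n₂ : κ₂ → ℕ) :
    gdim r d (Sum.elim m n₁) + gdim r d (Sum.elim m n₂) ≤
      gdim r d m + gdim r d (Sum.elim (Sum.elim m n₁) n₂) := by
  have hinj : Function.Injective (fun i : κ => (Sum.inl (Sum.inl i) : (κ ⊕ κ₁) ⊕ κ₂)) :=
    fun a b h => Sum.inl_injective (Sum.inl_injective h)
  obtain ⟨P, hP1, hP2⟩ := ((gen_gdim r d (Sum.elim (Sum.elim m n₁) n₂)).and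
    ((gen_gdim r d m).comap (fun i : κ => (Sum.inl (Sum.inl i) : (κ ⊕ κ₁) ⊕ κ₂)) hinj)).exists
  let P₁ : κ ⊕ κ₁ → Fin (r + 1) → ℂ := fun i => P (Sum.inl i)
  let P₂ : κ ⊕ κ₂ → Fin (r + 1) → ℂ :=
    Sum.elim (fun i => P (Sum.inl (Sum.inl i))) fun j => P (Sum.inr j)
  let P₀ : κ → Fin (r + 1) → ℂ := fun i => P (Sum.inl (Sum.inl i))
  have hf1 := finite_fat (d := d) P₁ (Sum.elim m n₁)
  have hf2 := finite_fat (d := d) P₂ (Sum.elim m n₂)
  have hf0 := finite_fat (d := d) P₀ m
  have h1 := Submodule.finrank_sup_add_finrank_inf_eq (fatForms r d P₁ (Sum.elim m n₁))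
    (fatForms r d P₂ (Sum.elim m n₂))
  have h2 : fatForms r d P₁ (Sum.elim m n₁) ⊔ fatForms r d P₂ (Sum.elim m n₂) ≤
      fatForms r d P₀ m :=
    sup_le (fun F hF => ⟨hF.1, fun i => hF.2 (Sum.inl i)⟩)
      (fun F hF => ⟨hF.1, fun i => hF.2 (Sum.inl i)⟩)
  have h3 : fatForms r d P₁ (Sum.elim m n₁) ⊓ fatForms r d P₂ (Sum.elim m n₂) =
      fatForms r d P (Sum.elim (Sum.elim m n₁) n₂) := by
    ext F
    constructor
    · rintro ⟨hF1, hF2⟩
      refine ⟨hF1.1, ?_⟩
      rintro (i | j)
      · exact hF1.2 i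
      · exact hF2.2 (Sum.inr j)
    · intro hF
      refine ⟨⟨hF.1, fun i => hF.2 (Sum.inl i)⟩, hF.1, ?_⟩
      rintro (i | j)
      · exact hF.2 (Sum.inl (Sum.inl i))
      · exact hF.2 (Sum.inr j)
  have h4 := Submodule.finrank_mono h2
  have h5 := gdim_le r d (Sum.elim m n₁) P₁
  have h6 := gdim_le r d (Sum.elim m n₂) P₂
  rw [h3, hP1] at h1
  have hP2' : Module.finrank ℂ (fatForms r d P₀ m) = gdim r d m := hP2
  omega

/-- If adding a general simple point does not lower the dimension then the dimension is `0`: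
a nonzero form does not vanish at a general point (`vanishesToOrder_one`, `MvPolynomial.funext`). -/
theorem gdim_simple (r d : ℕ) {κ : Type} [Fintype κ] (m : κ → ℕ) (t : ℕ) (ht : 1 ≤ t)
    (h : gdim r d (Sum.elim m fun _ : Unit => t) = gdim r d m) : gdim r d m = 0 := by
  have hgen := (gen_gdim r d (Sum.elim m fun _ : Unit => t)).and
    ((gen_gdim r d m).comap (fun i : κ => (Sum.inl i : κ ⊕ Unit)) Sum.inl_injective)
  obtain ⟨G, hG0, hG⟩ := hgen
  obtain ⟨a, ha⟩ : ∃ a, eval a G ≠ 0 := by
    by_contra hcon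
    push Not at hcon
    exact hG0 (MvPolynomial.funext fun a => by rw [hcon a, map_zero])
  let p₀ : κ → Fin (r + 1) → ℂ := fun i j => a (Sum.inl i, j)
  let G' : MvPolynomial (Fin (r + 1)) ℂ := aeval (fun x : (κ ⊕ Unit) × Fin (r + 1) =>
    Sum.elim (fun i => (C (p₀ i x.2) : MvPolynomial (Fin (r + 1)) ℂ)) (fun _ => X x.2) x.1) G
  have hG' : ∀ q : Fin (r + 1) → ℂ, eval q G' =
      eval (fun x : (κ ⊕ Unit) × Fin (r + 1) => Sum.elim p₀ (fun _ => q) x.1 x.2) G := by
    intro q
    simp only [G']
    rw [eval_aeval']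
    refine congrArg (fun f : (κ ⊕ Unit) × Fin (r + 1) → ℂ => eval f G) (funext fun x => ?_)
    obtain ⟨i | u, j⟩ := x
    · simp
    · simp
  have hval : ∀ q : Fin (r + 1) → ℂ, eval q G' ≠ 0 →
      fatForms r d p₀ m ≤ fatForms r d (Sum.elim p₀ fun _ : Unit => q)
        (Sum.elim m fun _ : Unit => t) ∧
        Module.finrank ℂ (fatForms r d p₀ m) = gdim r d m := by
    intro q hq
    rw [hG'] at hq
    obtain ⟨h1, h2⟩ := hG (Sum.elim p₀ fun _ => q) hq
    have h2' : Module.finrank ℂ (fatForms r d p₀ m) = gdim r d m := h2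
    refine ⟨?_, h2'⟩
    have hf0 := finite_fat (d := d) p₀ m
    have hle : fatForms r d (Sum.elim p₀ fun _ : Unit => q) (Sum.elim m fun _ : Unit => t) ≤
        fatForms r d p₀ m := fun F hF => ⟨hF.1, fun i => hF.2 (Sum.inl i)⟩
    exact (Submodule.eq_of_le_of_finrank_eq hle (by rw [h1, h2', h])).ge
  have hq₀ : eval (fun j => a (Sum.inr (), j)) G' ≠ 0 := by
    rw [hG']
    have : (fun x : (κ ⊕ Unit) × Fin (r + 1) =>
        Sum.elim p₀ (fun _ => fun j => a (Sum.inr (), j)) x.1 x.2) = a := by
      funext x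
      obtain ⟨i | u, j⟩ := x
      · rfl
      · rfl
    rw [this]
    exact ha
  have hG'0 : G' ≠ 0 := fun h0 => hq₀ (by rw [h0, map_zero])
  rw [← (hval _ hq₀).2]
  have hbot : fatForms r d p₀ m = ⊥ := by
    rw [Submodule.eq_bot_iff]
    intro F hF
    have h1 : F * G' = 0 := by
      apply MvPolynomial.funext
      intro q
      rw [map_mul, map_zero]
      by_cases hq : eval q G' = 0
      · rw [hq, mul_zero]
      · have h2 := (hval q hq).1 hF
        have h3 : VanishesToOrder F q t := h2.2 (Sum.inr ())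
        have h4 := (vanishesToOrder_one F q).1 (vanishes_anti ht h3)
        rw [h4, zero_mul]
    exact (mul_eq_zero.1 h1).resolve_right hG'0
  rw [hbot, finrank_bot]

end Pool.Agent.H21.NX

end

section

/-!
# Module Single: one general point imposes independent conditions

Proof: `≥` is `le_gdim_elim` with the empty family (`gdim_empty`) or `finrank_fatForms_ge`.  `≤`:
`finrank_fat_add_powSpan` (H21/HD/BridgeA) at any point `p ≠ 0`, say all coordinates `1`: the
degree `d` part of the ideal generated by `lin p ^ (d + 1 - t)` contains the image of the injective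
map `g ↦ g * lin p ^ (d + 1 - t)` from forms of degree `t - 1`, of dimension
`binom(t - 1 + r, r) = ell r t` (`1 ≤ t ≤ d + 1`); for `t = 0` use `ell_zero`.  (Or put the
point at `(1, 0, …, 0)` and count monomials.)
-/

namespace Pool.Agent.H21.NX

open Finset MvPolynomial Pool.Agent.H18.Fat Pool.Agent.H18.Ex

theorem gdim_single (r d : ℕ) (hr : 1 ≤ r) (t : ℕ) (ht : t ≤ d + 1) :
    gdim r d (fun _ : Unit => t) + ell r t = (d + r).choose r := by
  apply le_antisymm
  · -- upper bound
    obtain ⟨p, hp⟩ : ∃ p : Unit → Fin (r + 1) → ℂ, ∀ i j, p i j = 1 := ⟨fun _ _ => 1, fun _ _ => rfl⟩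
    have h1 := gdim_le r d (fun _ : Unit => t) p
    rcases Nat.eq_zero_or_pos t with h0 | h0
    · subst h0
      rw [ell_zero hr, add_zero]
      have h2 := Pool.Agent.H21.HD.finrank_fat_add_powSpan d p (fun _ : Unit => 0)
      omega
    · rcases Nat.lt_or_ge d t with hd | hd
      · have htd : t = d + 1 := by omega
        subst htd
        have h2 : Module.finrank ℂ (fatForms r d p (fun _ : Unit => d + 1)) = 0 := by
          apply Pool.Agent.H21.HD.fat_eq_bot_of_span
          intro F hF
          refine Submodule.subset_span ⟨(), F, ?_, ?_, ?_⟩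
          · simp
          · simpa using hF
          · simp
        have h3 : ell r (d + 1) = (d + r).choose r := by
          unfold ell
          congr 1
          omega
        rw [h3]
        omega
      · have hlin : Pool.Agent.H21.HD.lin (p ()) ≠ 0 := by
          intro h
          have h2 := congrArg (MvPolynomial.coeff (Finsupp.single (0 : Fin (r + 1)) 1)) h
          unfold Pool.Agent.H21.HD.lin at h2
          rw [MvPolynomial.coeff_sum, MvPolynomial.coeff_zero,
            Finset.sum_eq_single (0 : Fin (r + 1))] at h2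
          · rw [MvPolynomial.coeff_C_mul, MvPolynomial.coeff_X, hp] at h2
            norm_num at h2
          · intro b _ hb
            rw [MvPolynomial.coeff_C_mul, MvPolynomial.coeff_X, if_neg, mul_zero]
            intro h3
            exact hb (Finsupp.single_left_injective one_ne_zero h3)
          · intro h3
            exact absurd (mem_univ _) h3
        have h2 := Pool.Agent.H21.HD.finrank_fat_of_indep d p (fun _ : Unit => t)
          (fun _ => ⟨h0, hd⟩) (by
            intro g _ hsum i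
            rw [Fintype.sum_unique] at hsum
            rcases mul_eq_zero.1 hsum with h3 | h3
            · exact h3
            · exact absurd (eq_zero_of_pow_eq_zero h3) hlin)
        rw [Fintype.sum_unique] at h2
        unfold ell
        omega
  · -- lower bound
    have h1 := le_gdim_elim r d hr (fun _ : Fin 0 => 0) (fun _ : Unit => t)
    rw [gdim_empty, Fintype.sum_unique] at h1
    have h2 := gdim_comp_equiv r d (Equiv.emptySum (Fin 0) Unit).symm
      (Sum.elim (fun _ : Fin 0 => 0) (fun _ : Unit => t))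
    rw [← h2] at h1
    exact h1

end Pool.Agent.H21.NX

end

section

/-!
# Module Swap: the swap lemma

Write `c(A, t) = dim V(A) - dim V(A, t)` for general points (the number of conditions which a
further general point of multiplicity `t` imposes).  Suppose that adding a general point `b` of
multiplicity `M ≥ m a` (all `a`) does not change it: `c(A, t) = c(A + b, t)`.  Then `V(A) = 0` or
`c(A, t) = N - dim V(t)` (the value for empty `A`).

Proof.  Positions: `κ ⊕ κ ⊕ Unit` (points `x a`, `y a`, and `ℓ`), general.  For `T ⊆ κ` let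
`z_T a = y a` for `a ∈ T` and `x a` otherwise, and `X(T) = V(z_T) ⊔ V(ℓ)` (`ℓ` of multiplicity
`t`).  By generality (finitely many conditions `gen_gdim`, pulled back along injections by
`Gen.comap`) `finrank X(T) + gdim (m, t) = gdim m + gdim t` for all `T`
(`Submodule.finrank_sup_add_finrank_inf_eq`, `V(z_T) ⊓ V(ℓ) = V(z_T, ℓ)`), and for `a ∉ T`, `b = y a`
with multiplicity `M`, the space `V(z_T, b) ⊔ V(ℓ)` has dimension
`gdim (m, M) + gdim t - gdim (m, M, t)`, the same number by `hc`; it is contained in `X(T)` and in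
`X(insert a T)` (the point `z_{insert a T} a = b` has multiplicity `m a ≤ M`), so
`X(T) = X(insert a T)`.  By induction `X(∅) = X(univ)`, so `V(y) ≤ V(x) ⊔ V(ℓ)` for general
`(x, y, ℓ)`.  Fix general `(x, ℓ)` such that this holds for general `y` (a nonzero polynomial in
`(x, ℓ, y)` is nonzero at some `(x₀, ℓ₀)` as a polynomial in `y`).  If `X = V(x₀) ⊔ V(ℓ₀)` does
not contain all forms of degree `d`, then `gl_lemma` gives `gdim m = 0`; otherwise
`finrank X = binom(d + r, r)`.
-/

namespace Pool.Agent.H21.NX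

open Finset MvPolynomial Pool.Agent.H18.Fat Pool.Agent.H18.Ex

namespace SwapX

theorem fat_elim {r d : ℕ} {κ κ' : Type} (p : κ → Fin (r + 1) → ℂ) (q : κ' → Fin (r + 1) → ℂ)
    (m : κ → ℕ) (n : κ' → ℕ) :
    fatForms r d (Sum.elim p q) (Sum.elim m n) = fatForms r d p m ⊓ fatForms r d q n := by
  ext F
  constructor
  · intro h
    exact ⟨⟨h.1, fun i => h.2 (Sum.inl i)⟩, ⟨h.1, fun i => h.2 (Sum.inr i)⟩⟩
  · rintro ⟨h1, h2⟩
    refine ⟨h1.1, ?_⟩
    rintro (i | i)
    · exact h1.2 i
    · exact h2.2 i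

theorem fin_fat {r d : ℕ} {κ : Type} (p : κ → Fin (r + 1) → ℂ) (m : κ → ℕ) :
    FiniteDimensional ℂ (fatForms r d p m) := Pool.Agent.H21.HD.BridgeCX.finite_fat p m

theorem finrank_sup {r d : ℕ} {κ κ' : Type} (p : κ → Fin (r + 1) → ℂ)
    (q : κ' → Fin (r + 1) → ℂ) (m : κ → ℕ) (n : κ' → ℕ) :
    Module.finrank ℂ (fatForms r d p m ⊔ fatForms r d q n : Submodule ℂ _) +
      Module.finrank ℂ (fatForms r d (Sum.elim p q) (Sum.elim m n)) =
      Module.finrank ℂ (fatForms r d p m) + Module.finrank ℂ (fatForms r d q n) := by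
  have h1 := fin_fat (d := d) p m
  have h2 := fin_fat (d := d) q n
  rw [fat_elim]
  exact Submodule.finrank_sup_add_finrank_inf_eq _ _

/-- The index of the point used at `a`: `y a` if `a ∈ T`, else `x a`. -/
def zt {κ : Type} [DecidableEq κ] (T : Finset κ) (a : κ) : κ ⊕ (κ ⊕ Unit) :=
  if a ∈ T then Sum.inr (Sum.inl a) else Sum.inl a

theorem zt_inj {κ : Type} [DecidableEq κ] (T : Finset κ) : Function.Injective (zt T) := by
  intro a b h
  unfold zt at h
  split_ifs at h with h1 h2 h2
  · exact Sum.inl_injective (Sum.inr_injective h)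
  · exact Sum.inl_injective h

theorem zt_ne_ell {κ : Type} [DecidableEq κ] (T : Finset κ) (a : κ) :
    zt T a ≠ Sum.inr (Sum.inr ()) := by
  unfold zt
  split_ifs
  · intro h
    cases h
  · intro h
    cases h

theorem zt_ne_y {κ : Type} [DecidableEq κ] (T : Finset κ) (a b : κ) (hb : b ∉ T) :
    zt T a ≠ Sum.inr (Sum.inl b) := by
  unfold zt
  split_ifs with h1
  · intro h
    have := Sum.inl_injective (Sum.inr_injective h)
    exact hb (this ▸ h1)
  · intro h
    cases h

theorem elim_inj {α β : Type} (f : α → β) (b : β) (hf : Function.Injective f)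
    (hb : ∀ a, f a ≠ b) : Function.Injective (Sum.elim f fun _ : Unit => b) := by
  rintro (x | x) (y | y) h
  · exact congrArg Sum.inl (hf h)
  · exact absurd h (hb x)
  · exact absurd h.symm (hb y)
  · rfl

theorem comp_elim {α β γ : Type} (p : β → γ) (f : α → β) (b : β) :
    (fun i => p (Sum.elim f (fun _ : Unit => b) i)) =
      Sum.elim (fun i => p (f i)) fun _ : Unit => p b := by
  funext i
  rcases i with i | i <;> rfl

/-- Pulling back a general statement along points where the other coordinates are fixed. -/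
theorem gen_fix {r : ℕ} {κ : Type} (G : MvPolynomial ((κ ⊕ (κ ⊕ Unit)) × Fin (r + 1)) ℂ)
    (p₀ : κ ⊕ (κ ⊕ Unit) → Fin (r + 1) → ℂ) (h0 : eval (fun x => p₀ x.1 x.2) G ≠ 0)
    (P : (κ → Fin (r + 1) → ℂ) → Prop)
    (hP : ∀ y : κ → Fin (r + 1) → ℂ,
      eval (fun x : (κ ⊕ (κ ⊕ Unit)) × Fin (r + 1) =>
        (Sum.elim (fun a => p₀ (Sum.inl a))
          (Sum.elim y fun _ : Unit => p₀ (Sum.inr (Sum.inr ())))) x.1 x.2) G ≠ 0 → P y) :
    Gen r κ P := by
  let s : (κ ⊕ (κ ⊕ Unit)) × Fin (r + 1) → MvPolynomial (κ × Fin (r + 1)) ℂ := fun x =>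
    Sum.elim (fun a => C (p₀ (Sum.inl a) x.2))
      (Sum.elim (fun a => X (a, x.2)) fun _ : Unit => C (p₀ (Sum.inr (Sum.inr ())) x.2)) x.1
  have hs : ∀ y : κ → Fin (r + 1) → ℂ, eval (fun x => y x.1 x.2) (aeval s G) =
      eval (fun x : (κ ⊕ (κ ⊕ Unit)) × Fin (r + 1) =>
        (Sum.elim (fun a => p₀ (Sum.inl a))
          (Sum.elim y fun _ : Unit => p₀ (Sum.inr (Sum.inr ())))) x.1 x.2) G := by
    intro y
    have h1 : eval (fun x => y x.1 x.2) (aeval s G) =
        ((aeval (fun x => y x.1 x.2) : MvPolynomial (κ × Fin (r + 1)) ℂ →ₐ[ℂ] ℂ).comp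
          (aeval s)) G := by
      rw [AlgHom.comp_apply, aeval_eq_eval]
    rw [h1, comp_aeval, aeval_eq_eval]
    congr 1
    congr 1
    funext x
    obtain ⟨x, j⟩ := x
    rcases x with a | a | a <;> simp [s]
  refine ⟨aeval s G, ?_, ?_⟩
  · intro h
    have h1 := hs fun a => p₀ (Sum.inr (Sum.inl a))
    rw [h, map_zero] at h1
    apply h0
    rw [h1]
    congr 1
    congr 1
    funext x
    obtain ⟨x, j⟩ := x
    rcases x with a | a | a <;> rfl
  · intro y hy
    rw [hs] at hy
    exact hP y hy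

end SwapX

open SwapX

theorem swap_step (r d : ℕ) {κ : Type} [Fintype κ] [DecidableEq κ] (m : κ → ℕ) (t M : ℕ)
    (hm : ∀ a, m a ≤ M)
    (hc : gdim r d m +
        gdim r d (Sum.elim (Sum.elim m fun _ : Unit => M) fun _ : Unit => t) =
      gdim r d (Sum.elim m fun _ : Unit => t) + gdim r d (Sum.elim m fun _ : Unit => M)) :
    gdim r d m = 0 ∨ gdim r d m + gdim r d (fun _ : Unit => t) =
      gdim r d (Sum.elim m fun _ : Unit => t) + (d + r).choose r := by
  -- the point `ℓ`
  let ℓ : κ ⊕ (κ ⊕ Unit) := Sum.inr (Sum.inr ())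
  let yy : κ → κ ⊕ (κ ⊕ Unit) := fun a => Sum.inr (Sum.inl a)
  -- the general conditions
  have c1 : ∀ T ∈ (univ : Finset (Finset κ)), Gen r (κ ⊕ (κ ⊕ Unit)) fun p =>
      Module.finrank ℂ (fatForms r d (fun a => p (zt T a)) m) = gdim r d m := fun T _ =>
    Gen.comap (zt T) (zt_inj T) (gen_gdim r d m)
  have c2 : Gen r (κ ⊕ (κ ⊕ Unit)) fun p =>
      Module.finrank ℂ (fatForms r d (fun _ : Unit => p ℓ) fun _ : Unit => t) =
        gdim r d fun _ : Unit => t :=
    Gen.comap (fun _ : Unit => ℓ) (fun _ _ _ => rfl) (gen_gdim r d fun _ : Unit => t)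
  have c3 : ∀ T ∈ (univ : Finset (Finset κ)), Gen r (κ ⊕ (κ ⊕ Unit)) fun p =>
      Module.finrank ℂ (fatForms r d (Sum.elim (fun a => p (zt T a)) fun _ : Unit => p ℓ)
        (Sum.elim m fun _ : Unit => t)) = gdim r d (Sum.elim m fun _ : Unit => t) := by
    intro T _
    have h := Gen.comap (Sum.elim (zt T) fun _ : Unit => ℓ)
      (elim_inj _ _ (zt_inj T) (zt_ne_ell T)) (gen_gdim r d (Sum.elim m fun _ : Unit => t))
    refine h.mono fun p hp => ?_
    rwa [comp_elim] at hp
  have c4 : ∀ T ∈ (univ : Finset (Finset κ)), Gen r (κ ⊕ (κ ⊕ Unit)) fun p =>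
      ∀ a ∈ (univ : Finset κ), a ∉ T → Module.finrank ℂ (fatForms r d
        (Sum.elim (fun a => p (zt T a)) fun _ : Unit => p (yy a))
        (Sum.elim m fun _ : Unit => M)) = gdim r d (Sum.elim m fun _ : Unit => M) := by
    intro T _
    refine Gen.all _ fun a _ => ?_
    by_cases ha : a ∈ T
    · refine (c2).mono fun p _ h => absurd ha h
    · have h := Gen.comap (Sum.elim (zt T) fun _ : Unit => yy a)
        (elim_inj _ _ (zt_inj T) fun b => zt_ne_y T b a ha)
        (gen_gdim r d (Sum.elim m fun _ : Unit => M))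
      refine h.mono fun p hp _ => ?_
      rwa [comp_elim] at hp
  have c5 : ∀ T ∈ (univ : Finset (Finset κ)), Gen r (κ ⊕ (κ ⊕ Unit)) fun p =>
      ∀ a ∈ (univ : Finset κ), a ∉ T → Module.finrank ℂ (fatForms r d
        (Sum.elim (Sum.elim (fun a => p (zt T a)) fun _ : Unit => p (yy a)) fun _ : Unit => p ℓ)
        (Sum.elim (Sum.elim m fun _ : Unit => M) fun _ : Unit => t)) =
          gdim r d (Sum.elim (Sum.elim m fun _ : Unit => M) fun _ : Unit => t) := by
    intro T _
    refine Gen.all _ fun a _ => ?_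
    by_cases ha : a ∈ T
    · refine (c2).mono fun p _ h => absurd ha h
    · have h := Gen.comap (Sum.elim (Sum.elim (zt T) fun _ : Unit => yy a) fun _ : Unit => ℓ)
        (elim_inj _ _ (elim_inj _ _ (zt_inj T) fun b => zt_ne_y T b a ha) (by
          rintro (b | b)
          · exact zt_ne_ell T b
          · intro h
            exact absurd (Sum.inr_injective h) Sum.inl_ne_inr))
        (gen_gdim r d (Sum.elim (Sum.elim m fun _ : Unit => M) fun _ : Unit => t))
      refine h.mono fun p hp _ => ?_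
      rwa [comp_elim, comp_elim] at hp
  have hall := ((Gen.all _ c1).and c2).and (((Gen.all _ c3).and (Gen.all _ c4)).and
    (Gen.all _ c5))
  -- the key inclusion for general points
  have hkey : Gen r (κ ⊕ (κ ⊕ Unit)) fun p =>
      Module.finrank ℂ (fatForms r d (fun a => p (Sum.inl a)) m ⊔
        fatForms r d (fun _ : Unit => p ℓ) fun _ : Unit => t : Submodule ℂ _) +
          gdim r d (Sum.elim m fun _ : Unit => t) = gdim r d m + gdim r d (fun _ : Unit => t) ∧
      fatForms r d (fun a => p (yy a)) m ≤ fatForms r d (fun a => p (Sum.inl a)) m ⊔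
        fatForms r d (fun _ : Unit => p ℓ) fun _ : Unit => t := by
    refine hall.mono ?_
    rintro p ⟨⟨h1, h2⟩, ⟨h3, h4⟩, h5⟩
    let XT : Finset κ → Submodule ℂ (MvPolynomial (Fin (r + 1)) ℂ) := fun T =>
      fatForms r d (fun a => p (zt T a)) m ⊔ fatForms r d (fun _ : Unit => p ℓ) fun _ : Unit => t
    have hX : ∀ T, Module.finrank ℂ (XT T) + gdim r d (Sum.elim m fun _ : Unit => t) =
        gdim r d m + gdim r d (fun _ : Unit => t) := by
      intro T
      have h := finrank_sup (d := d) (fun a => p (zt T a)) (fun _ : Unit => p ℓ) m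
        (fun _ : Unit => t)
      rw [h1 T (mem_univ _), h2, h3 T (mem_univ _)] at h
      exact h
    have hfin : ∀ T, FiniteDimensional ℂ (XT T) := by
      intro T
      have h1 := fin_fat (d := d) (fun a => p (zt T a)) m
      have h2 := fin_fat (d := d) (fun _ : Unit => p ℓ) fun _ : Unit => t
      exact inferInstanceAs (FiniteDimensional ℂ
        (fatForms r d (fun a => p (zt T a)) m ⊔ fatForms r d (fun _ : Unit => p ℓ)
          fun _ : Unit => t : Submodule ℂ _))
    have hstep : ∀ (T : Finset κ) (a : κ), a ∉ T → XT T = XT (insert a T) := by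
      intro T a ha
      let W : Submodule ℂ (MvPolynomial (Fin (r + 1)) ℂ) :=
        fatForms r d (Sum.elim (fun a => p (zt T a)) fun _ : Unit => p (yy a))
          (Sum.elim m fun _ : Unit => M) ⊔ fatForms r d (fun _ : Unit => p ℓ) fun _ : Unit => t
      have hW : Module.finrank ℂ W +
          gdim r d (Sum.elim (Sum.elim m fun _ : Unit => M) fun _ : Unit => t) =
          gdim r d (Sum.elim m fun _ : Unit => M) + gdim r d (fun _ : Unit => t) := by
        have h := finrank_sup (d := d) (Sum.elim (fun a => p (zt T a)) fun _ : Unit => p (yy a))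
          (fun _ : Unit => p ℓ) (Sum.elim m fun _ : Unit => M) (fun _ : Unit => t)
        rw [h4 T (mem_univ _) a (mem_univ _) ha, h2, h5 T (mem_univ _) a (mem_univ _) ha] at h
        exact h
      have hW1 : W ≤ XT T := by
        refine sup_le_sup_right ?_ _
        rw [fat_elim]
        exact inf_le_left
      have hW2 : W ≤ XT (insert a T) := by
        refine sup_le_sup_right ?_ _
        intro F hF
        refine ⟨hF.1, fun b => ?_⟩
        by_cases hb : b = a
        · subst hb
          have h6 := hF.2 (Sum.inr ())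
          have h7 : zt (insert b T) b = yy b := by
            unfold zt
            rw [if_pos (mem_insert_self b T)]
          change VanishesToOrder F (p (zt (insert b T) b)) (m b)
          rw [h7]
          intro β hβ
          exact h6 β (lt_of_lt_of_le hβ (hm b))
        · have h6 := hF.2 (Sum.inl b)
          have h7 : zt (insert a T) b = zt T b := by
            unfold zt
            by_cases hbT : b ∈ T
            · rw [if_pos hbT, if_pos (mem_insert_of_mem hbT)]
            · rw [if_neg hbT, if_neg]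
              intro h
              rcases mem_insert.1 h with h | h
              · exact hb h
              · exact hbT h
          change VanishesToOrder F (p (zt (insert a T) b)) (m b)
          rw [h7]
          exact h6
      have e1 : W = XT T := by
        have := hfin T
        refine Submodule.eq_of_le_of_finrank_eq hW1 ?_
        have := hX T
        omega
      have e2 : W = XT (insert a T) := by
        have := hfin (insert a T)
        refine Submodule.eq_of_le_of_finrank_eq hW2 ?_
        have := hX (insert a T)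
        omega
      rw [← e1, e2]
    have hind : ∀ T : Finset κ, XT T = XT ∅ := by
      intro T
      induction T using Finset.induction_on with
      | empty => rfl
      | insert a T ha ih => rw [← hstep T a ha, ih]
    have z0 : (fun a => p (zt (∅ : Finset κ) a)) = fun a => p (Sum.inl a) := by
      funext a
      unfold zt
      rw [if_neg (Finset.notMem_empty a)]
    have z1 : (fun a => p (zt (univ : Finset κ) a)) = fun a => p (yy a) := by
      funext a
      unfold zt
      rw [if_pos (mem_univ a)]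
    constructor
    · have e : XT ∅ = fatForms r d (fun a => p (Sum.inl a)) m ⊔
          fatForms r d (fun _ : Unit => p ℓ) fun _ : Unit => t := by
        simp only [XT]
        rw [z0]
      have h := hX ∅
      rw [e] at h
      exact h
    · have h := hind univ
      simp only [XT] at h
      rw [z0, z1] at h
      rw [← h]
      exact le_sup_left
  obtain ⟨G, hG0, hG⟩ := hkey
  obtain ⟨v, hv⟩ : ∃ v, eval v G ≠ 0 := by
    by_contra hcon
    push Not at hcon
    exact hG0 (MvPolynomial.funext fun v => by rw [hcon v, map_zero])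
  let p₀ : κ ⊕ (κ ⊕ Unit) → Fin (r + 1) → ℂ := fun i j => v (i, j)
  have hp₀ : eval (fun x => p₀ x.1 x.2) G ≠ 0 := hv
  let X : Submodule ℂ (MvPolynomial (Fin (r + 1)) ℂ) :=
    fatForms r d (fun a => p₀ (Sum.inl a)) m ⊔ fatForms r d (fun _ : Unit => p₀ ℓ) fun _ : Unit => t
  by_cases hX : homogeneousSubmodule (Fin (r + 1)) ℂ d ≤ X
  · right
    have h1 := (hG p₀ hp₀).1
    have h2 : X = homogeneousSubmodule (Fin (r + 1)) ℂ d := by
      refine le_antisymm (sup_le ?_ ?_) hX
      · intro F hF
        exact hF.1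
      · intro F hF
        exact hF.1
    have h3 : Module.finrank ℂ X = (d + r).choose r := by
      rw [h2, Pool.Agent.H21.HD.BridgeDX.finrank_homog']
    change Module.finrank ℂ X + _ = _ at h1
    rw [h3] at h1
    omega
  · left
    refine gl_lemma r d m X hX ?_
    refine gen_fix G p₀ hp₀ _ fun y hy => ?_
    exact (hG (Sum.elim (fun a => p₀ (Sum.inl a))
      (Sum.elim y fun _ : Unit => p₀ (Sum.inr (Sum.inr ())))) hy).2

end Pool.Agent.H21.NX

end
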