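import Pool.Agent.H94.LP5.M29
import Pool.Agent.H94.LP5.M31
import Pool.Agent.H94.LP5.M32
import Pool.Agent.H94.LP5.M35
import Pool.Agent.H94.LP5.M36

/-! The parts of this file: H21.NX.Chain, H21.NX.Window, H21.NX.Trace, H21.NX.Stage_1, H21.NX.PeelAll, H21.NX.UOver, H21.NX.UStage, H21.NX.VPeel, H21.NX.VRun. -/

section

/-!
# Module Chain: the decoupling theorem

Proof.  Let `A_j = (m, M, …, M)` (`j` copies), `g_j = gdim A_j`, `c_j = g_j - gdim (A_j, t)`.  All
`g_j`, `j ≤ ell r t - 1`, are nonzero (`gdim_elim_le`, `hne`).  Suppose `c_0 ≠ ell r t`; then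
`c_0 ≤ ell r t - 1` (`le_gdim_elim`), so `1 ≤ t`.  By `gdim_submod` `c_{j+1} ≤ c_j`; if
`c_{j+1} = c_j` then `swap_step` gives `c_j = N - gdim t = ell r t` (`gdim_single`), but
`c_j ≤ c_0 < ell r t`.  So `c_{j+1} ≤ c_j - 1` for `j < ell r t - 1` and `c_{ell r t - 1} = 0`,
that is, `gdim (A_j, t) = gdim A_j` for `j = ell r t - 1`; by `gdim_simple` `g_j = 0`,
a contradiction.  (Use `gdim_comp_equiv` to compare `Sum.elim (Sum.elim m (fun _ : Fin j => M))
(fun _ : Unit => M)` and `Sum.elim m (fun _ : Fin (j + 1) => M)`.)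
-/

namespace Pool.Agent.H21.NX

open Finset MvPolynomial Pool.Agent.H18.Fat Pool.Agent.H18.Ex

namespace ChainX

variable (r d : ℕ) {κ : Type} [Fintype κ] [DecidableEq κ] (m : κ → ℕ) (t M : ℕ)

/-- An equivalence of index types. -/
noncomputable def eqv (κ : Type) (j : ℕ) : (κ ⊕ Fin j) ⊕ Unit ≃ κ ⊕ Fin (j + 1) :=
  (Equiv.sumAssoc κ (Fin j) Unit).trans
    (Equiv.sumCongr (Equiv.refl κ) (Fintype.equivOfCardEq (by simp)))

theorem g_succ (j : ℕ) :
    gdim r d (Sum.elim (Sum.elim m fun _ : Fin j => M) fun _ : Unit => M) =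
      gdim r d (Sum.elim m fun _ : Fin (j + 1) => M) := by
  rw [← gdim_comp_equiv r d (eqv κ j)]
  congr 1
  funext i
  rcases i with (i | i) | i <;> rfl

theorem G_succ (j : ℕ) :
    gdim r d (Sum.elim (Sum.elim (Sum.elim m fun _ : Fin j => M) fun _ : Unit => M)
        fun _ : Unit => t) =
      gdim r d (Sum.elim (Sum.elim m fun _ : Fin (j + 1) => M) fun _ : Unit => t) := by
  rw [← gdim_comp_equiv r d (Equiv.sumCongr (eqv κ j) (Equiv.refl Unit))]
  congr 1
  funext i
  rcases i with ((i | i) | i) | i <;> rfl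

theorem g_zero : gdim r d (Sum.elim m fun _ : Fin 0 => M) = gdim r d m := by
  rw [← gdim_comp_equiv r d (Equiv.sumEmpty κ (Fin 0))]
  congr 1
  funext i
  rcases i with i | i
  · rfl
  · exact i.elim0

theorem G_zero : gdim r d (Sum.elim (Sum.elim m fun _ : Fin 0 => M) fun _ : Unit => t) =
    gdim r d (Sum.elim m fun _ : Unit => t) := by
  rw [← gdim_comp_equiv r d (Equiv.sumCongr (Equiv.sumEmpty κ (Fin 0)) (Equiv.refl Unit))]
  congr 1
  funext i
  rcases i with (i | i) | i
  · rfl
  · exact i.elim0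
  · rfl

end ChainX

open ChainX in
theorem decouple (r d : ℕ) (hr : 1 ≤ r) {κ : Type} [Fintype κ] [DecidableEq κ] (m : κ → ℕ)
    (t M : ℕ) (hm : ∀ a, m a ≤ M) (ht : t ≤ M) (htd : t ≤ d + 1)
    (hne : gdim r d (Sum.elim m fun _ : Fin (ell r t - 1) => M) ≠ 0) :
    gdim r d m = gdim r d (Sum.elim m fun _ : Unit => t) + ell r t := by
  have _ := ht
  set g : ℕ → ℕ := fun j => gdim r d (Sum.elim m fun _ : Fin j => M) with hg
  set G : ℕ → ℕ := fun j =>
    gdim r d (Sum.elim (Sum.elim m fun _ : Fin j => M) fun _ : Unit => t) with hG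
  have h1 : ∀ j, G j ≤ g j := fun j => gdim_elim_le r d _ _
  have h2 : ∀ j, g j ≤ G j + ell r t := fun j => by
    have := le_gdim_elim r d hr (Sum.elim m fun _ : Fin j => M) (fun _ : Unit => t)
    simpa using this
  have h3 : ∀ j, g (j + 1) ≤ g j := fun j => by
    have := gdim_elim_le r d (Sum.elim m fun _ : Fin j => M) (fun _ : Unit => M)
    rw [g_succ] at this
    exact this
  have h3' : ∀ j k, j ≤ k → g k ≤ g j := fun j k hjk => by
    induction k, hjk using Nat.le_induction with
    | base => exact le_rfl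
    | succ k _ ih => exact (h3 k).trans ih
  have h4 : ∀ j, G j + g (j + 1) ≤ g j + G (j + 1) := fun j => by
    have := gdim_submod r d (Sum.elim m fun _ : Fin j => M) (fun _ : Unit => M)
      (fun _ : Unit => t)
    rw [g_succ, G_succ] at this
    change g (j + 1) + G j ≤ g j + G (j + 1) at this
    omega
  have h5 : ∀ j, g j ≠ 0 → G j + g (j + 1) = g j + G (j + 1) → g j = G j + ell r t := by
    intro j hj he
    have hmj : ∀ a, (Sum.elim m fun _ : Fin j => M) a ≤ M := by
      rintro (a | a)
      · exact hm a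
      · exact le_rfl
    have := swap_step r d (Sum.elim m fun _ : Fin j => M) t M hmj (by
      rw [g_succ, G_succ]
      change g j + G (j + 1) = G j + g (j + 1)
      exact he.symm)
    have h6 := gdim_single r d hr t htd
    rcases this with h | h
    · exact absurd h hj
    · change g j + _ = G j + _ at h
      omega
  have hg0 : g 0 = gdim r d m := g_zero r d m M
  have hG0 : G 0 = gdim r d (Sum.elim m fun _ : Unit => t) := G_zero r d m t M
  rw [← hg0, ← hG0]
  by_contra hcon
  have a1 := h1 0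
  have a2 := h2 0
  have hpos : 1 ≤ ell r t := by omega
  have ht1 : 1 ≤ t := by
    by_contra h
    have h0 : t = 0 := by omega
    rw [h0, ell_zero hr] at hpos
    omega
  have key : ∀ j, j ≤ ell r t - 1 → g j - G j + j ≤ ell r t - 1 := by
    intro j
    induction j with
    | zero => intro _; omega
    | succ j ih =>
      intro hj
      have i1 := ih (by omega)
      have i2 := h4 j
      have i3 := h1 j
      have i4 := h1 (j + 1)
      have i5 : g j ≠ 0 := by
        intro h0
        have := h3' j (ell r t - 1) (by omega)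
        change gdim r d _ ≤ _ at this
        omega
      have i6 : G j + g (j + 1) ≠ g j + G (j + 1) := fun he => by
        have := h5 j i5 he
        omega
      omega
  have k1 := key _ le_rfl
  have k2 := h1 (ell r t - 1)
  have k3 : G (ell r t - 1) = g (ell r t - 1) := by omega
  exact hne (gdim_simple r d _ t ht1 k3)

end Pool.Agent.H21.NX

end

section

/-!
# Module Window: the uniform window theorem

Proof.  `gdimL l = gdim (fun i : Fin l.length => l.get i)`.  Induction on a list sorted
increasingly (`t :: l`, all elements of `l` are `≥ t`): the conditions for `l` follow from those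
for `t :: l`.  Let `N = binom(d + r, r)` and `g = gdimL l = N - tot l`.  If `t = 0` nothing changes
(`ell_zero`; `gdim_elim_le` and `le_gdim_elim`).  If `t ≥ 2`: by `hc` for `t`,
`ell r t + tot l + (ell r t - 1) * (ell r M - 1) ≤ N`, so
`N - tot l - (ell r t - 1) * ell r M ≥ 1` and `gdim (l, M, …, M) ≠ 0` with `ell r t - 1` copies of
`M` (`le_gdim_elim`); `decouple` gives `gdimL (t :: l) = g - ell r t`; `t ≤ d + 1` because
`ell r t ≤ N`.  If `t = 1`: `decouple` if `g ≠ 0` (`ell r 1 - 1 = 0` copies), and if `g = 0`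
then `gdim_elim_le`.
-/

namespace Pool.Agent.H21.NX

open Finset MvPolynomial Pool.Agent.H18.Fat Pool.Agent.H18.Ex

namespace WindowX

theorem ell_lt_succ (r c : ℕ) (hr : 1 ≤ r) (hc : 1 ≤ c) : ell r c < ell r (c + 1) := by
  obtain ⟨n, rfl⟩ : ∃ n, r = n + 1 := ⟨r - 1, by omega⟩
  rw [ell_succ]
  have : 1 ≤ ell n (c + 1) := ell_pos n (by omega)
  omega

theorem choose_eq_ell (r d : ℕ) : (d + r).choose r = ell r (d + 1) := by
  unfold ell
  rw [show d + 1 + r - 1 = d + r by omega]

theorem le_of_ell_le (r d t : ℕ) (hr : 1 ≤ r) (h : ell r t ≤ (d + r).choose r) : t ≤ d + 1 := by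
  by_contra hlt
  have h1 : ell r (d + 1) < ell r (d + 1 + 1) := ell_lt_succ r (d + 1) hr (by omega)
  have h2 : ell r (d + 1 + 1) ≤ ell r t := ell_mono r (by omega)
  rw [choose_eq_ell] at h
  omega

theorem sum_unit_ell (r t : ℕ) : ∑ _j : Unit, ell r t = ell r t := by
  simp

/-- The list `t :: l` as the family `(l, t)`. -/
theorem gdim_cons (r d t : ℕ) (l : List ℕ) :
    gdim r d (fun i : Fin (t :: l).length => (t :: l).get i) =
      gdim r d (Sum.elim (fun i : Fin l.length => l.get i) fun _ : Unit => t) := by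
  rw [← gdim_comp_equiv r d ((finSuccEquiv l.length).trans (Equiv.optionEquivSumPUnit.{0, 0} _))
    (Sum.elim (fun i : Fin l.length => l.get i) fun _ : Unit => t)]
  congr 1
  funext i
  refine Fin.cases ?_ (fun j => ?_) i
  · simp
  · simp

end WindowX

open WindowX

theorem window_list (r d : ℕ) (hr : 1 ≤ r) (M : ℕ) (l : List ℕ) (hs : l.Pairwise (· ≤ ·))
    (hM : ∀ x ∈ l, x ≤ M)
    (hc : ∀ x ∈ l, 2 ≤ x → ((l.filter (x ≤ ·)).map (ell r)).sum +
      (ell r x - 1) * (ell r M - 1) ≤ (d + r).choose r) :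
    gdim r d (fun i : Fin l.length => l.get i) = (d + r).choose r - (l.map (ell r)).sum := by
  induction l with
  | nil =>
    rw [List.map_nil, List.sum_nil, Nat.sub_zero]
    exact gdim_empty r d _
  | cons t l ih =>
    rw [List.pairwise_cons] at hs
    have hM' : ∀ x ∈ l, x ≤ M := fun x hx => hM x (List.mem_cons_of_mem _ hx)
    have htM : t ≤ M := hM t List.mem_cons_self
    have ih' := ih hs.2 hM' (by
      intro x hx h2
      have h3 := hc x (List.mem_cons_of_mem _ hx) h2
      refine le_trans (Nat.add_le_add_right ?_ _) h3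
      rw [List.filter_cons]
      split_ifs
      · rw [List.map_cons, List.sum_cons]
        exact Nat.le_add_left _ _
      · exact le_rfl)
    rw [gdim_cons, List.map_cons, List.sum_cons]
    have hle : gdim r d (Sum.elim (fun i : Fin l.length => l.get i) fun _ : Unit => t) ≤
      gdim r d (fun i : Fin l.length => l.get i) := gdim_elim_le r d _ _
    have hge : gdim r d (fun i : Fin l.length => l.get i) ≤
        gdim r d (Sum.elim (fun i : Fin l.length => l.get i) fun _ : Unit => t) +
          ∑ _j : Unit, ell r t := le_gdim_elim r d hr _ _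
    rw [sum_unit_ell] at hge
    -- the main case
    have hmain : 1 ≤ t → t ≤ d + 1 →
        (l.map (ell r)).sum + (ell r t - 1) * ell r M < (d + r).choose r →
        gdim r d (Sum.elim (fun i : Fin l.length => l.get i) fun _ : Unit => t) =
          (d + r).choose r - (ell r t + (l.map (ell r)).sum) := by
      intro _ htd hlt
      have h5 : gdim r d (fun i : Fin l.length => l.get i) ≤
          gdim r d (Sum.elim (fun i : Fin l.length => l.get i)
            fun _ : Fin (ell r t - 1) => M) + ∑ _j : Fin (ell r t - 1), ell r M :=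
        le_gdim_elim r d hr _ _
      rw [Finset.sum_const, Finset.card_univ, Fintype.card_fin, smul_eq_mul] at h5
      have h6 := decouple r d hr (fun i : Fin l.length => l.get i) t M
        (fun a => hM' _ (List.get_mem l a)) htM htd (by omega)
      omega
    rcases Nat.lt_or_ge t 2 with ht | ht
    · rcases Nat.eq_zero_or_pos t with h0 | h0
      · subst h0
        rw [ell_zero hr] at hge ⊢
        omega
      · have h1 : t = 1 := by omega
        subst h1
        rcases Nat.eq_zero_or_pos (gdim r d (fun i : Fin l.length => l.get i)) with hg | hg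
        · omega
        · refine hmain le_rfl (by omega) ?_
          rw [ell_one]
          omega
    · have h3 := hc t List.mem_cons_self ht
      rw [List.filter_eq_self.2 (by
        intro a ha
        rw [List.mem_cons] at ha
        rcases ha with rfl | ha
        · simp
        · simpa using hs.1 a ha), List.map_cons, List.sum_cons] at h3
      have h4 : 1 ≤ ell r t := ell_pos r (by omega)
      have h5 : 1 ≤ ell r M := ell_pos r (by omega)
      refine hmain (by omega) (le_of_ell_le r d t hr (by omega)) ?_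
      obtain ⟨a, ha⟩ : ∃ a, ell r t = a + 1 := ⟨ell r t - 1, by omega⟩
      obtain ⟨b, hb⟩ : ∃ b, ell r M = b + 1 := ⟨ell r M - 1, by omega⟩
      rw [ha, hb, Nat.add_sub_cancel, Nat.add_sub_cancel] at h3
      rw [ha, hb, Nat.add_sub_cancel, Nat.mul_add, Nat.mul_one]
      omega

theorem window_multiset (r d : ℕ) (hr : 1 ≤ r) (M : ℕ) {κ : Type} [Fintype κ] (m : κ → ℕ)
    (T : Multiset ℕ) (hT : (univ : Finset κ).val.map m = T) (hM : ∀ x ∈ T, x ≤ M)
    (hc : ∀ x ∈ T, 2 ≤ x → tot r (T.filter (x ≤ ·)) +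
      (ell r x - 1) * (ell r M - 1) ≤ (d + r).choose r) :
    gdim r d m = (d + r).choose r - tot r T := by
  classical
  set l : List ℕ := T.sort (· ≤ ·) with hl
  have hlT : (l : Multiset ℕ) = T := Multiset.sort_eq _ _
  have hcard : ∀ c, Fintype.card {a : κ // m a = c} =
      Fintype.card {i : Fin l.length // l.get i = c} := by
    intro c
    have e1 : Fintype.card {a : κ // m a = c} = T.count c := by
      rw [← hT, Multiset.count_map, Fintype.card_subtype]
      unfold Finset.card
      rw [Finset.filter_val]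
      congr 1
      refine Multiset.filter_congr fun a _ => ?_
      exact eq_comm
    have e2 : Fintype.card {i : Fin l.length // l.get i = c} = T.count c := by
      have e3 : ((univ : Finset (Fin l.length)).val.map l.get) = T := by
        rw [← hlT, Fin.univ_val_map, List.ofFn_get]
      rw [← e3, Multiset.count_map, Fintype.card_subtype]
      unfold Finset.card
      rw [Finset.filter_val]
      congr 1
      refine Multiset.filter_congr fun a _ => ?_
      exact eq_comm
    rw [e1, e2]
  let e : κ ≃ Fin l.length := Equiv.ofFiberEquiv (f := m) (g := l.get)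
    fun c => Fintype.equivOfCardEq (hcard c)
  have he : (fun a => l.get (e a)) = m := funext fun a => Equiv.ofFiberEquiv_map _ a
  have hmem : ∀ x, x ∈ l ↔ x ∈ T := fun x => by rw [← hlT, Multiset.mem_coe]
  have h1 := window_list r d hr M l (Multiset.pairwise_sort T (· ≤ ·))
    (fun x hx => hM x ((hmem x).1 hx))
    (by
      intro x hx h2
      refine le_trans (le_of_eq ?_) (hc x ((hmem x).1 hx) h2)
      congr 1
      unfold tot
      rw [← hlT, Multiset.filter_coe, Multiset.map_coe, Multiset.sum_coe])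
  have h2 : gdim r d m = gdim r d (fun i : Fin l.length => l.get i) := by
    rw [← gdim_comp_equiv r d e (fun i : Fin l.length => l.get i), he]
  rw [h2, h1]
  unfold tot
  rw [← hlT, Multiset.map_coe, Multiset.sum_coe]

theorem window_fin (r d : ℕ) (hr : 1 ≤ r) (M : ℕ) {k : ℕ} (m : Fin k → ℕ) (hM : ∀ i, m i ≤ M)
    (hc : ∀ i, 2 ≤ m i → ∑ j ∈ univ.filter (fun j => m i ≤ m j), ell r (m j) +
      (ell r (m i) - 1) * (ell r M - 1) ≤ (d + r).choose r) :
    ForGeneralPoints r k fun p => ImposesMaximalConditions r d p m := by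
  have hw := window_multiset r d hr M m _ rfl
    (by
      intro x hx
      rw [Multiset.mem_map] at hx
      obtain ⟨i, _, rfl⟩ := hx
      exact hM i)
    (by
      intro x hx h2
      rw [Multiset.mem_map] at hx
      obtain ⟨i, _, rfl⟩ := hx
      refine le_trans (le_of_eq ?_) (hc i h2)
      congr 1
      unfold tot
      rw [Multiset.filter_map, Multiset.map_map]
      rfl)
  have hg : Gen r (Fin k) fun p => ImposesMaximalConditions r d p m := by
    refine (gen_gdim r d m).mono fun p hp => ?_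
    unfold ImposesMaximalConditions
    rw [hp, hw]
    have e1 : ∑ i, (((m i + r - 1).choose r : ℕ) : ℤ) =
        ((tot r ((univ : Finset (Fin k)).val.map m) : ℕ) : ℤ) := by
      have e2 : tot r ((univ : Finset (Fin k)).val.map m) = ∑ i, (m i + r - 1).choose r := by
        unfold tot
        rw [Multiset.map_map]
        rfl
      rw [e2, Nat.cast_sum]
    rw [e1]
    omega
  exact hg

end Pool.Agent.H21.NX

end

section

/-!
# Module Trace: exactness from the window theorem, in the language `GM`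
-/

namespace Pool.Agent.H21.NX

open Finset MvPolynomial Pool.Agent.H18.Fat Pool.Agent.H18.Ex

private theorem trace_GI (s d : ℕ) (hs : 1 ≤ s) (T : Multiset ℕ) (M : ℕ) (hM : ∀ t ∈ T, t ≤ M)
    (hc : ∀ t ∈ T, 2 ≤ t → tot s (T.filter (t ≤ ·)) + (ell s t - 1) * (ell s M - 1) ≤
      ell s (d + 1)) (ht : ell s (d + 1) ≤ tot s T) {k : ℕ} (m : Fin k → ℕ)
    (hm : (univ : Finset (Fin k)).val.map m = T) :
    GI (Sx (Fin (s + 1)) d) fun i => Kind.free (m i) := by
  have he : ell s (d + 1) = (d + s).choose s := by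
    unfold ell
    rw [show d + 1 + s - 1 = d + s by omega]
  rw [he] at ht
  simp only [he] at hc
  have h1 := window_multiset s d hs M m T hm hM hc
  rw [Nat.sub_eq_zero_of_le ht] at h1
  have h2 : gdim s d m ∈ Set.range fun p : Fin k → Fin (s + 1) → ℂ =>
      Module.finrank ℂ (fatForms s d p m) := Nat.sInf_mem (Set.range_nonempty _)
  obtain ⟨p, hp⟩ := h2
  exact GI_of_fat p m (Eq.trans hp h1)

/-- `multi_exists_fin` (H18/Ex/Multi), `window_multiset`, `Gen.exists` for `gen_gdim`, `GI_of_fat`,
`GM_iff`. -/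
theorem window_GM (s d : ℕ) (hs : 1 ≤ s) (T : Multiset ℕ) (M : ℕ) (hM : ∀ t ∈ T, t ≤ M)
    (hc : ∀ t ∈ T, 2 ≤ t → tot s (T.filter (t ≤ ·)) + (ell s t - 1) * (ell s M - 1) ≤
      ell s (d + 1)) (ht : ell s (d + 1) ≤ tot s T) :
    GM (Sx (Fin (s + 1)) d) (T.map Kind.free) := by
  obtain ⟨k, m, hm⟩ := multi_exists_fin T
  have h := trace_GI s d hs T M hM hc ht m hm
  rw [← hm, Multiset.map_map]
  exact (GM_iff _ _).2 h

/-- The same on the hyperplane `x_l = 0` (`GI_layer`). -/
theorem trace_GM (s d : ℕ) (hs : 1 ≤ s) (l : Fin (s + 2)) (T : Multiset ℕ) (M : ℕ)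
    (hM : ∀ t ∈ T, t ≤ M)
    (hc : ∀ t ∈ T, 2 ≤ t → tot s (T.filter (t ≤ ·)) + (ell s t - 1) * (ell s M - 1) ≤
      ell s (d + 1)) (ht : ell s (d + 1) ≤ tot s T) :
    GM ((Sx (Fin (s + 2)) d).filter fun a => a l = 0) (T.map Kind.free) := by
  obtain ⟨k, m, hm⟩ := multi_exists_fin T
  have h := GI_layer l m (trace_GI s d hs T M hM hc ht m hm)
  rw [← hm, Multiset.map_map]
  exact (GM_iff _ _).2 h

end Pool.Agent.H21.NX

end

section

/-!
# Module Stage: one Horace step along `x_l = 0`

Proof of `stage`: `GM.step` (H18/Ex/Multi) with the multiset of roles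
`Φ.map (here c e) + N0.map ord + replicate α (ord μ) + replicate ρ dif +
replicate f (stay (free μ))`, `A = Sx σ`, `A' = Sx (σ - 1)` (`Sx_resid`).  Its `before` is the
given multiset of conditions; its layers are `trc Φ N0 μ α ρ` and `f` zeros (`trace_GM`, applied
to `trc Φ N0 μ α ρ`, and `GM.mono`); its `after` contains `fk l (nxt Φ N0 μ α ρ)` and
`replicate f (free μ)` (`GM.mono`; the filter in `nxt` only removes conditions).
-/

namespace Pool.Agent.H21.NX

open Finset Pool.Agent.H18.Ex

namespace StageX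

end StageX

theorem stage (s : ℕ) (hs : 1 ≤ s) (l : Fin (s + 2)) (σ : ℕ) (hσ : 1 ≤ σ)
    (Φ : Multiset (ℕ × ℕ)) (N0 : Multiset ℕ) (μ α ρ f M : ℕ) (hμ : 1 ≤ μ)
    (hΦ : ∀ x ∈ Φ, x.2 ≤ x.1) (hM : ∀ t ∈ trc Φ N0 μ α ρ, t ≤ M)
    (hc : ∀ t ∈ trc Φ N0 μ α ρ, 2 ≤ t → tot s ((trc Φ N0 μ α ρ).filter (t ≤ ·)) +
      (ell s t - 1) * (ell s M - 1) ≤ ell s (σ + 1))
    (ht : ell s (σ + 1) ≤ tl s Φ + tot s N0 + α * ell s μ + ρ)
    (h1 : GM (Sx (Fin (s + 2)) (σ - 1)) (fk l (nxt Φ N0 μ α ρ) +
      Multiset.replicate f (Kind.free μ))) :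
    GM (Sx (Fin (s + 2)) σ) (fk l Φ + N0.map Kind.free +
      Multiset.replicate (α + ρ + f) (Kind.free μ)) := by
  rw [← StageX.roles_before l Φ N0 μ α ρ f]
  refine GM.step (Sx (Fin (s + 2)) σ) (Sx (Fin (s + 2)) (σ - 1)) l (Sx_resid σ hσ l) μ hμ _
    ?_ ?_ ?_
  · intro k hk
    have hk' : k = Kind.free μ := by
      unfold StageX.roles at hk
      simp only [Multiset.mem_add, Multiset.mem_map, Multiset.mem_replicate] at hk
      rcases hk with (((⟨x, _, hx⟩ | ⟨x, _, hx⟩) | ⟨_, hx⟩) | ⟨_, hx⟩) | ⟨_, hx⟩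
      · cases hx
      · cases hx
      · cases hx
      · cases hx
      · cases hx
        rfl
    rw [hk']
    trivial
  · refine GM.mono (StageX.roles_layer Φ N0 μ α ρ f hΦ) ?_
    refine trace_GM s σ hs l (trc Φ N0 μ α ρ) M hM hc ?_
    refine le_trans ht (le_of_eq ?_)
    unfold tot trc tl
    simp only [Multiset.map_add, Multiset.sum_add, Multiset.map_map, Multiset.map_replicate,
      Multiset.sum_replicate, smul_eq_mul, ell_one, mul_one]
    rfl
  · exact GM.mono (StageX.roles_after l Φ N0 μ α ρ f) h1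

end Pool.Agent.H21.NX

end

section

/-!
# Module PeelAll: complete peeling with many free simple points

Proof of `peel_all`: induction on `B`.  If `B = 0` then `Φ = 0` and `N0 = 0`, and `GM.of_card`
with `card_Sx`.  In the step let `q = ell s S - tl s Φ - tot s N0`.  If `S = 1` then `B = 1` and
`ell s 1 = 1` forces `Φ = 0`, `N0 = 0` (all their lengths are positive), and `GM.of_card` again.
Otherwise apply `stage` with `μ = 1`, `α = q`, `ρ = 0`, `f = p - q`, `M = B`, `σ = S - 1`
(`window_cond'`), and the induction hypothesis to `nxt Φ N0 1 q 0` (`OKF_nxt`), `N0 = 0`, `S - 1`.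
* `q ≤ p`: `(s + 1) * (fl Φ + tot (s + 1) N0) ≤ (B + s) * τ` with `τ = tl Φ + tot s N0`
  (`fl_le_tl`, `tot_succ_le`) and `(s + 1) * ell (s + 1) S = (S + s) * ell s S` (`ell_succ_mul`),
  so `(s + 1) p ≥ (S + s) ell s S - (B + s) τ ≥ (s + 1) (ell s S - τ)` since `τ ≤ ell s S`,
  `B ≤ S`.
* lengths: `fl_nxt` and `ell (s + 1) S = ell (s + 1) (S - 1) + ell s S`.
* traces: with `x = B - 1`, `tl_nxt` gives `(x + s) * τ' ≤ x * (τ + q * ell s 1) ≤ ...`; careful:
  the simple points disappear, so use `tl_nxt` only for the part without them, that is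
  `nxt Φ N0 1 q 0 = nxt Φ N0 1 0 0`; so `(x + s) τ' ≤ x τ`, `(x + s) * ell s (B - 1) ≤ x * ell s B`
  (`ell_pred_le`) and `x * ell s S * (S - 1 + s) ... `: from `τ + ell s B ^ 2 ≤ ell s S` follows
  `(x + s) * (τ' + ell s (B - 1) ^ 2) ≤ x * ell s S`, and
  `x * ell s S ≤ (x + s) * ell s (S - 1)` because `ell s (S - 1) * (S - 1 + s) = ell s S * (S - 1)`
  and `x ≤ S - 1`.
-/

namespace Pool.Agent.H21.NX

open Finset Pool.Agent.H18.Ex

namespace PeelAllX

theorem of_simple (s : ℕ) (S : ℕ) (hS : 1 ≤ S) (T : Multiset (Kind (Fin (s + 2)))) (p : ℕ)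
    (h : ell (s + 1) S ≤ p) :
    GM (Sx (Fin (s + 2)) (S - 1)) (T + Multiset.replicate p (Kind.free 1)) := by
  have h1 : Multiset.replicate p (Kind.free 1 : Kind (Fin (s + 2))) =
      (Multiset.replicate p 1).map Kind.free := by
    rw [Multiset.map_replicate]
  rw [h1, add_comm T]
  refine GM.of_card _ _ _ (fun m hm => ?_) ?_
  · rw [Multiset.eq_of_mem_replicate hm]
  · rw [Multiset.card_replicate, card_Sx (s + 1) (S - 1), Nat.sub_add_cancel hS]
    exact h

theorem nxt_simple (Φ : Multiset (ℕ × ℕ)) (N0 : Multiset ℕ) (q : ℕ) :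
    nxt Φ N0 1 q 0 = nxt Φ N0 1 0 0 := by
  unfold nxt
  simp only [Multiset.filter_add, Multiset.replicate_zero, add_zero]
  have : Multiset.filter (fun x : ℕ × ℕ => x.2 ≤ x.1) (Multiset.replicate q (1 - 1, 1)) = 0 := by
    rw [Multiset.filter_eq_nil]
    intro a ha
    rw [Multiset.eq_of_mem_replicate ha]
    simp
  rw [this, add_zero]

end PeelAllX

open PeelAllX in
theorem peel_all (s : ℕ) (hs : 1 ≤ s) (l : Fin (s + 2)) (B : ℕ) :
    ∀ (S : ℕ) (Φ : Multiset (ℕ × ℕ)) (N0 : Multiset ℕ) (p : ℕ), OKF B Φ →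
      (∀ m ∈ N0, 1 ≤ m ∧ m ≤ B) → 1 ≤ S → B ≤ S →
      tl s Φ + tot s N0 + ell s B ^ 2 ≤ ell s S →
      ell (s + 1) S ≤ fl s Φ + tot (s + 1) N0 + p →
      GM (Sx (Fin (s + 2)) (S - 1)) (fk l Φ + N0.map Kind.free +
        Multiset.replicate p (Kind.free 1)) := by
  induction B with
  | zero =>
    intro S Φ N0 p hΦ hN0 hS _ _ hl
    have h1 : Φ = 0 := by
      rw [Multiset.eq_zero_iff_forall_notMem]
      intro x hx
      have := hΦ x hx
      omega
    have h2 : N0 = 0 := by
      rw [Multiset.eq_zero_iff_forall_notMem]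
      intro m hm
      have := hN0 m hm
      omega
    subst h1 h2
    refine of_simple s S hS _ p ?_
    simpa [fl, tot] using hl
  | succ B ih =>
    intro S Φ N0 p hΦ hN0 hS hBS htr hl
    have hfl : (s + 1) * fl s Φ ≤ (B + 1 + s) * tl s Φ := fl_le_tl s hs hΦ
    have hto : (s + 1) * tot (s + 1) N0 ≤ (B + 1 + s) * tot s N0 :=
      tot_succ_le s hs fun m hm => (hN0 m hm).2
    rcases Nat.lt_or_ge S 2 with hS2 | hS2
    · -- S = 1
      have hS1 : S = 1 := by omega
      have hB0 : B = 0 := by omega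
      subst hS1 hB0
      rw [ell_one] at htr
      have h1 : tl s Φ = 0 := by omega
      have h2 : tot s N0 = 0 := by omega
      rw [h1, mul_zero] at hfl
      rw [h2, mul_zero] at hto
      have h3 : fl s Φ = 0 := by
        rcases Nat.mul_eq_zero.1 (Nat.le_zero.1 hfl) with h | h
        · omega
        · exact h
      have h4 : tot (s + 1) N0 = 0 := by
        rcases Nat.mul_eq_zero.1 (Nat.le_zero.1 hto) with h | h
        · omega
        · exact h
      refine of_simple s 1 le_rfl _ p ?_
      omega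
    · -- the step
      obtain ⟨S, rfl⟩ : ∃ S', S = S' + 1 := ⟨S - 1, by omega⟩
      have hS1 : 1 ≤ S := by omega
      have hBS' : B ≤ S := by omega
      set τ := tl s Φ + tot s N0 with hτ
      have hτL : τ ≤ ell s (S + 1) := le_trans (Nat.le_add_right _ _) htr
      obtain ⟨q, hq⟩ : ∃ q, ell s (S + 1) = τ + q := ⟨ell s (S + 1) - τ, by omega⟩
      have hmul : (S + 1 + s) * ell s (S + 1) = (s + 1) * ell (s + 1) (S + 1) :=
        ell_succ_mul s (S + 1) hs
      have hqp : q ≤ p := by
        by_contra hcon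
        rw [not_le] at hcon
        have h1 : (s + 1) * ell (s + 1) (S + 1) ≤
            (s + 1) * (fl s Φ + tot (s + 1) N0 + p) := Nat.mul_le_mul_left _ hl
        have h2 : (s + 1) * (fl s Φ + tot (s + 1) N0) ≤ (B + 1 + s) * τ := by
          rw [hτ, mul_add, mul_add]
          exact add_le_add hfl hto
        have h3 : (s + 1) * (p + 1) ≤ (s + 1) * q := Nat.mul_le_mul_left _ hcon
        have h4 : B * τ ≤ S * (τ + q) := Nat.mul_le_mul hBS' (Nat.le_add_right _ _)
        rw [← hmul, hq] at h1
        linarith only [h1, h2, h3, h4]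
      have hp : q + 0 + (p - q) = p := by omega
      rw [← hp, Nat.add_sub_cancel]
      have htrc : trc Φ N0 1 q 0 = Φ.map Prod.fst + N0 + Multiset.replicate q 1 := by
        unfold trc
        rw [Multiset.replicate_zero, add_zero]
      have htot : tot s (Φ.map Prod.fst + N0) = τ := by
        rw [hτ]
        unfold tot tl
        rw [Multiset.map_add, Multiset.sum_add, Multiset.map_map]
        rfl
      have hM : ∀ t ∈ trc Φ N0 1 q 0, t ≤ B + 1 := by
        intro t ht
        rw [htrc, Multiset.mem_add, Multiset.mem_add, Multiset.mem_map] at ht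
        rcases ht with (⟨x, hx, rfl⟩ | ht) | ht
        · exact (hΦ x hx).2.2.2
        · exact (hN0 t ht).2
        · rw [Multiset.eq_of_mem_replicate ht]
          omega
      refine stage s hs l S hS1 Φ N0 1 q 0 (p - q) (B + 1) le_rfl (fun x hx => (hΦ x hx).2.2.1)
        hM ?_ ?_ ?_
      · intro t ht ht2
        have htB := hM t ht
        rw [htrc]
        refine window_cond' s hs _ q (B + 1) _ ?_ t ht2 htB
        rw [htot]
        exact htr
      · rw [ell_one, mul_one, add_zero, hq]
      · have hΦ' : OKF B (nxt Φ N0 1 q 0) :=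
          OKF_nxt hΦ (fun m hm => (hN0 m hm).2) le_rfl (by omega) (Or.inl rfl)
        have key := ih S (nxt Φ N0 1 q 0) 0 (p - q) hΦ' (by simp) hS1 hBS' ?_ ?_
        · rw [Multiset.map_zero, add_zero] at key
          exact key
        · -- traces
          rw [nxt_simple]
          have h0 : tot s (0 : Multiset ℕ) = 0 := rfl
          rw [h0, add_zero]
          have h1 := tl_nxt (α := 0) (ρ := 0) (μ := 1) s B hs hΦ
            (fun m hm => (hN0 m hm).2) (by omega) le_rfl
          rw [zero_mul, mul_zero, add_zero, add_zero, ← hτ] at h1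
          have h2 : (B + s) * ell s B ≤ B * ell s (B + 1) := by
            have := ell_pred_le s (B + 1) B hs le_rfl
            rwa [Nat.add_sub_cancel] at this
          have h3 : ell s B ≤ ell s (B + 1) := ell_mono s (Nat.le_succ B)
          have h4 : ell s S * (S + s) = ell s (S + 1) * S := ell_mul_add s S hs
          set T' := tl s (nxt Φ N0 1 0 0) with hT'
          -- (B + s) * (T' + ell s B ^ 2) ≤ B * ell s (S + 1)
          have h5 : (B + s) * (T' + ell s B ^ 2) ≤ B * ell s (S + 1) := by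
            calc (B + s) * (T' + ell s B ^ 2) = (B + s) * T' + ((B + s) * ell s B) * ell s B := by
                  ring
              _ ≤ B * τ + (B * ell s (B + 1)) * ell s (B + 1) :=
                  add_le_add h1 (Nat.mul_le_mul h2 h3)
              _ = B * (τ + ell s (B + 1) ^ 2) := by ring
              _ ≤ B * ell s (S + 1) := Nat.mul_le_mul_left _ htr
          have h6 : B * ell s (S + 1) ≤ (B + s) * ell s S := by
            refine Nat.le_of_mul_le_mul_right ?_ hS1
            calc B * ell s (S + 1) * S = B * (ell s (S + 1) * S) := by ring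
              _ = B * (S + s) * ell s S := by rw [← h4]; ring
              _ ≤ ((B + s) * S) * ell s S := by
                  refine Nat.mul_le_mul_right _ ?_
                  calc B * (S + s) = B * S + B * s := Nat.mul_add B S s
                    _ ≤ B * S + S * s := Nat.add_le_add_left (Nat.mul_le_mul_right s hBS') _
                    _ = (B + s) * S := by ring
              _ = (B + s) * ell s S * S := by ring
          exact Nat.le_of_mul_le_mul_left (h5.trans h6) (by omega)
        · -- lengths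
          have h1 := fl_nxt (μ := 1) (α := q) (ρ := 0) s hs hΦ (fun m hm => (hN0 m hm).1)
            le_rfl (Or.inl rfl)
          rw [ell_one, ell_one, mul_one, mul_one, add_zero, add_zero, ← hτ] at h1
          have h2 := ell_succ s S
          have h0 : tot (s + 1) (0 : Multiset ℕ) = 0 := rfl
          rw [h0]
          omega

end Pool.Agent.H21.NX

end

section

/-!
# Module UOver: too many points kill everything, from the window theorem
-/

namespace Pool.Agent.H21.NX

open Finset Pool.Agent.H18.Ex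

/-- Simple points may be replaced by points of positive multiplicities. -/
theorem GM_free_up {ι : Type} [Fintype ι] [DecidableEq ι] (A : Finset (ι → ℕ))
    (X : Multiset (Kind ι)) (T : Multiset ℕ) (hT : ∀ m ∈ T, 1 ≤ m)
    (h : GM A (X + Multiset.replicate (Multiset.card T) (Kind.free 1))) :
    GM A (X + T.map Kind.free) := by
  obtain ⟨a, x, rfl⟩ := multi_exists_fin X
  obtain ⟨b, t, rfl⟩ := multi_exists_fin T
  have hb : Multiset.card ((univ : Finset (Fin b)).val.map t) = b := by
    rw [Multiset.card_map, Finset.card_val, Finset.card_univ, Fintype.card_fin]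
  have hr : Multiset.replicate b (Kind.free 1 : Kind ι) =
      (univ : Finset (Fin b)).val.map (fun _ => Kind.free 1) := by
    rw [Multiset.map_const', Finset.card_val, Finset.card_univ, Fintype.card_fin]
  rw [hb, hr, ← multi_map_sum, GM_iff] at h
  rw [Multiset.map_map, ← multi_map_sum, GM_iff]
  obtain ⟨pos, hpos⟩ := h
  refine ⟨pos, fun f hf => hpos f fun i => ?_⟩
  rcases i with i | i
  · exact hf (Sum.inl i)
  · intro β hβ
    refine hf (Sum.inr i) β ?_
    have h1 : 1 ≤ t i := hT _ (Multiset.mem_map.2 ⟨i, by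
      rw [Finset.mem_val]
      exact Finset.mem_univ _, rfl⟩)
    exact lt_of_lt_of_le hβ h1

/-- More conditions than forms, with a margin. -/
theorem over_GM (n σ M : ℕ) (hn : 1 ≤ n) (S : Multiset ℕ) (hS : ∀ m ∈ S, 1 ≤ m ∧ m ≤ M)
    (hroom : ell n M ^ 2 ≤ ell n (σ + 1))
    (h : ell n (σ + 1) + (ell n M ^ 2 + ell n M) * ell n M ≤ tot n S) :
    GM (Sx (Fin (n + 1)) σ) (S.map Kind.free) := by
  rcases Nat.eq_zero_or_pos M with hM | hM
  · exfalso
    have h1 : S = 0 := by
      refine Multiset.eq_zero_of_forall_notMem fun m hm => ?_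
      have := hS m hm
      omega
    have h2 : 1 ≤ ell n (σ + 1) := ell_pos _ (by omega)
    rw [h1, show tot n 0 = 0 from rfl] at h
    omega
  have hE : 1 ≤ ell n M := ell_pos _ hM
  obtain ⟨S', hS', h1, h2⟩ := greedy_below n M 0 (ell n (σ + 1) - ell n M ^ 2) (Nat.zero_le _) S
    (fun m hm => (hS m hm).2) (by omega)
  obtain ⟨T, hT⟩ := Multiset.le_iff_exists_add.1 hS'
  rw [Nat.zero_add] at h1 h2
  have hTm : ∀ m ∈ T, 1 ≤ m ∧ m ≤ M := fun m hm => hS m (by
    rw [hT]
    exact Multiset.mem_add.2 (Or.inr hm))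
  have hcard : tot n T ≤ Multiset.card T * ell n M := by
    clear hT
    induction T using Multiset.induction_on with
    | empty => exact Nat.zero_le _
    | cons a T ih =>
      have h3 := ih fun m hm => hTm m (Multiset.mem_cons_of_mem hm)
      have h4 := ell_mono n (hTm a (Multiset.mem_cons_self _ _)).2
      unfold tot at h3 ⊢
      rw [Multiset.map_cons, Multiset.sum_cons, Multiset.card_cons, Nat.add_mul, Nat.one_mul]
      omega
  have htot : tot n S = tot n S' + tot n T := by rw [hT, tot_add]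
  have hj : ell n M ^ 2 + ell n M ≤ Multiset.card T := by
    refine Nat.le_of_mul_le_mul_right (le_trans ?_ hcard) hE
    omega
  rw [hT, Multiset.map_add]
  refine GM_free_up _ _ T (fun m hm => (hTm m hm).1) ?_
  have hw := window_GM n σ hn (S' + Multiset.replicate (Multiset.card T) 1) M ?_ ?_ ?_
  · rwa [Multiset.map_add, Multiset.map_replicate] at hw
  · intro t ht
    rcases Multiset.mem_add.1 ht with ht | ht
    · exact (hS t (Multiset.mem_of_le hS' ht)).2
    · rw [Multiset.eq_of_mem_replicate ht]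
      exact hM
  · intro t ht ht2
    have htM : t ≤ M := by
      rcases Multiset.mem_add.1 ht with ht | ht
      · exact (hS t (Multiset.mem_of_le hS' ht)).2
      · rw [Multiset.eq_of_mem_replicate ht]
        exact hM
    exact window_cond' n hn S' _ M _ (by omega) t ht2 htM
  · rw [tot_add, tot_replicate, ell_one, mul_one]
    omega

end Pool.Agent.H21.NX

end

section

/-!
# Module UStage: one Horace step, with arbitrary points which stay
-/

namespace Pool.Agent.H21.NX

open Finset Pool.Agent.H18.Ex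

namespace UStageX

/-- The roles. -/
def roles {ι : Type} (Φ : Multiset (ℕ × ℕ)) (N0 Q : Multiset ℕ) (μ α ρ : ℕ) :
    Multiset (Role ι) :=
  Φ.map (fun x => Role.here x.1 x.2) + N0.map Role.ord + Multiset.replicate α (Role.ord μ) +
    Multiset.replicate ρ Role.dif + Q.map (fun m => Role.stay (Kind.free m))

theorem roles_before {ι : Type} (l : ι) (Φ : Multiset (ℕ × ℕ)) (N0 Q : Multiset ℕ)
    (μ α ρ : ℕ) :
    (roles Φ N0 Q μ α ρ).map (Role.before l μ) = fk l Φ + N0.map Kind.free +
      Multiset.replicate (α + ρ) (Kind.free μ) + Q.map Kind.free := by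
  unfold roles fk
  simp only [Multiset.map_add, Multiset.map_map, Multiset.map_replicate, Multiset.replicate_add]
  have e1 : (Role.before l μ ∘ fun x : ℕ × ℕ => Role.here x.1 x.2) =
      fun x : ℕ × ℕ => Kind.forced l x.1 x.2 := rfl
  have e2 : (Role.before l μ ∘ (Role.ord : ℕ → Role ι)) = (Kind.free : ℕ → Kind ι) := rfl
  have e3 : Role.before l μ (Role.ord μ : Role ι) = Kind.free μ := rfl
  have e4 : Role.before l μ (Role.dif : Role ι) = Kind.free μ := rfl
  have e5 : (Role.before l μ ∘ fun m : ℕ => Role.stay (Kind.free m : Kind ι)) = Kind.free := rfl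
  rw [e1, e2, e3, e4, e5]
  simp only [add_assoc]

theorem roles_layer {ι : Type} (Φ : Multiset (ℕ × ℕ)) (N0 Q : Multiset ℕ) (μ α ρ : ℕ)
    (hΦ : ∀ x ∈ Φ, x.2 ≤ x.1) :
    ((trc Φ N0 μ α ρ).map (Kind.free : ℕ → Kind ι)) ≤
      (roles Φ N0 Q μ α ρ).map (fun r : Role ι => (Kind.free r.layer : Kind ι)) := by
  unfold roles trc
  simp only [Multiset.map_add, Multiset.map_map, Multiset.map_replicate]
  refine le_trans (le_of_eq ?_) (Multiset.le_add_right _ _)
  have e1 : Multiset.map ((Kind.free : ℕ → Kind ι) ∘ Prod.fst) Φ =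
      Multiset.map ((fun r : Role ι => (Kind.free r.layer : Kind ι)) ∘
        fun x : ℕ × ℕ => Role.here x.1 x.2) Φ := by
    refine Multiset.map_congr rfl fun x hx => ?_
    have h := hΦ x hx
    simp only [Function.comp, Role.layer, h, if_true]
  rw [e1]
  rfl

theorem roles_after {ι : Type} (l : ι) (Φ : Multiset (ℕ × ℕ)) (N0 Q : Multiset ℕ)
    (μ α ρ : ℕ) :
    fk l (nxt Φ N0 μ α ρ) + Q.map Kind.free ≤
      (roles Φ N0 Q μ α ρ).map (Role.after l μ) := by
  have h1 : fk l (nxt Φ N0 μ α ρ) ≤ fk l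
      (Φ.map (fun x : ℕ × ℕ => (x.1 - 1, x.2)) + N0.map (fun m => (m - 1, 1)) +
        Multiset.replicate α (μ - 1, 1) + Multiset.replicate ρ (μ, 2)) :=
    Multiset.map_le_map (Multiset.filter_le _ _)
  refine le_trans (add_le_add h1 le_rfl) (le_of_eq ?_)
  unfold roles fk
  simp only [Multiset.map_add, Multiset.map_map, Multiset.map_replicate]
  rfl

end UStageX

theorem stageQ (s : ℕ) (hs : 1 ≤ s) (l : Fin (s + 2)) (σ : ℕ) (hσ : 1 ≤ σ)
    (Φ : Multiset (ℕ × ℕ)) (N0 Q : Multiset ℕ) (μ α ρ M : ℕ) (hμ : 1 ≤ μ)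
    (hΦ : ∀ x ∈ Φ, x.2 ≤ x.1) (hM : ∀ t ∈ trc Φ N0 μ α ρ, t ≤ M)
    (hc : ∀ t ∈ trc Φ N0 μ α ρ, 2 ≤ t → tot s ((trc Φ N0 μ α ρ).filter (t ≤ ·)) +
      (ell s t - 1) * (ell s M - 1) ≤ ell s (σ + 1))
    (ht : ell s (σ + 1) ≤ tl s Φ + tot s N0 + α * ell s μ + ρ)
    (h1 : GM (Sx (Fin (s + 2)) (σ - 1)) (fk l (nxt Φ N0 μ α ρ) + Q.map Kind.free)) :
    GM (Sx (Fin (s + 2)) σ) (fk l Φ + N0.map Kind.free +
      Multiset.replicate (α + ρ) (Kind.free μ) + Q.map Kind.free) := by
  rw [← UStageX.roles_before l Φ N0 Q μ α ρ]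
  refine GM.step (Sx (Fin (s + 2)) σ) (Sx (Fin (s + 2)) (σ - 1)) l (Sx_resid σ hσ l) μ hμ _
    ?_ ?_ ?_
  · intro k hk
    have hk' : ∃ m, k = Kind.free m := by
      unfold UStageX.roles at hk
      simp only [Multiset.mem_add, Multiset.mem_map, Multiset.mem_replicate] at hk
      rcases hk with (((⟨x, _, hx⟩ | ⟨x, _, hx⟩) | ⟨_, hx⟩) | ⟨_, hx⟩) | ⟨x, _, hx⟩
      · cases hx
      · cases hx
      · cases hx
      · cases hx
      · cases hx
        exact ⟨x, rfl⟩
    obtain ⟨m, rfl⟩ := hk'
    trivial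
  · refine GM.mono (UStageX.roles_layer Φ N0 Q μ α ρ hΦ) ?_
    refine trace_GM s σ hs l (trc Φ N0 μ α ρ) M hM hc ?_
    rw [tot_trc]
    exact ht
  · exact GM.mono (UStageX.roles_after l Φ N0 Q μ α ρ) h1

end Pool.Agent.H21.NX

end

section

/-!
# Module VPeel: peeling with many free simple points, arbitrarily many steps
-/

namespace Pool.Agent.H21.NX

open Finset Pool.Agent.H18.Ex

theorem peel_longV {s M D0 : ℕ} (h : VNum s M D0) (l : Fin (s + 2)) (X : ℕ) :
    ∀ (S : ℕ) (Φ : Multiset (ℕ × ℕ)) (R : Multiset ℕ) (p : ℕ), OKF M Φ →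
      (∀ m ∈ R, 1 ≤ m ∧ m ≤ M) →
      ell (s + 1) S ≤ fl s Φ + tot (s + 1) R + p →
      fl s Φ + tot (s + 1) R + p ≤ ell (s + 1) S + X →
      2 * M * tl s Φ ≤ (2 * M - 1) * ell s S →
      S * GG s M + X + ell s M ^ 2 + ell (s + 1) D0 ≤ p →
      GM (Sx (Fin (s + 2)) (S - 1)) (fk l Φ + R.map Kind.free +
        Multiset.replicate p (Kind.free 1)) := by
  have hs := h.s1
  have hE1 := h.E1
  have hM := h.hM
  have hDM := h.hD
  intro S
  induction S with
  | zero =>
    intro Φ R p _ _ _ hT2 _ hp
    exfalso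
    have h1 : ell (s + 1) 0 = 0 := ell_zero (by omega)
    have h2 : 1 ≤ ell s M ^ 2 := Nat.one_le_pow _ _ hE1
    omega
  | succ S ih =>
    intro Φ R p hΦ hR hT1 hT2 hload hp
    have hE2 : 1 ≤ ell s M ^ 2 := Nat.one_le_pow _ _ hE1
    -- the degree is large
    have hSD : D0 + 1 ≤ S + 1 := by
      by_contra hcon
      have h1 : ell (s + 1) (S + 1) ≤ ell (s + 1) D0 := ell_mono _ (by omega)
      omega
    by_cases hA : tl s Φ + tot s R + ell s M ^ 2 ≤ ell s (S + 1)
    · exact peel_all s hs l M (S + 1) Φ R p hΦ hR (by omega) (by omega) hA hT1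
    · have hr1 := h.below (S := S + 1) (by omega) hload
      obtain ⟨N0, hN0R, hN1, hN2⟩ := greedy_below s M (tl s Φ) (ell s (S + 1) - ell s M ^ 2)
        (by omega) R (fun m hm => (hR m hm).2) (by omega)
      obtain ⟨Q, hQ⟩ := Multiset.le_iff_exists_add.1 hN0R
      have hN0 : ∀ m ∈ N0, 1 ≤ m ∧ m ≤ M := fun m hm => hR m (Multiset.mem_of_le hN0R hm)
      have hQm : ∀ m ∈ Q, 1 ≤ m ∧ m ≤ M := fun m hm => hR m (by
        rw [hQ]
        exact Multiset.mem_add.2 (Or.inr hm))
      obtain ⟨q, hq⟩ : ∃ q, q = ell s (S + 1) - tl s Φ - tot s N0 := ⟨_, rfl⟩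
      have hqsum : tl s Φ + tot s N0 + q = ell s (S + 1) := by omega
      have hq1 : ell s M ^ 2 ≤ q := by omega
      have hq2 : q ≤ GG s M := by
        unfold GG
        omega
      have hSG : (S + 1) * GG s M = S * GG s M + GG s M := by ring
      have hqp : q ≤ p := by
        omega
      have htrc : trc Φ N0 1 q 0 = (Φ.map Prod.fst + N0) + Multiset.replicate q 1 := by
        unfold trc
        rw [Multiset.replicate_zero, add_zero]
      have hT1M : ∀ t ∈ Φ.map Prod.fst + N0, t ≤ M := by
        intro t ht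
        rcases Multiset.mem_add.1 ht with ht | ht
        · obtain ⟨x, hx, rfl⟩ := Multiset.mem_map.1 ht
          exact (hΦ x hx).2.2.2
        · exact (hN0 t ht).2
      have htM : ∀ t ∈ trc Φ N0 1 q 0, t ≤ M := by
        intro t ht
        rw [htrc] at ht
        rcases Multiset.mem_add.1 ht with ht | ht
        · exact hT1M t ht
        · rw [Multiset.eq_of_mem_replicate ht]
          exact hM
      have htot1 : tot s (Φ.map Prod.fst + N0) = tl s Φ + tot s N0 := by
        rw [tot_add]
        congr 1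
        unfold tot tl
        rw [Multiset.map_map]
        rfl
      have hstep := stageQ s hs l S (by omega) Φ N0 (Q + Multiset.replicate (p - q) 1) 1 q 0 M
        le_rfl (fun x hx => (hΦ x hx).2.2.1) htM ?_ ?_ ?_
      · rw [hQ, Multiset.map_add, Nat.add_sub_cancel]
        rw [Multiset.map_add, Multiset.map_replicate, Nat.add_zero q] at hstep
        have hpq : Multiset.replicate p (Kind.free 1 : Kind (Fin (s + 2))) =
            Multiset.replicate q (Kind.free 1) + Multiset.replicate (p - q) (Kind.free 1) := by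
          rw [← Multiset.replicate_add]
          congr 1
          omega
        rw [hpq]
        have e : fk l Φ + N0.map Kind.free + Multiset.replicate q (Kind.free 1) +
            (Q.map Kind.free + Multiset.replicate (p - q) (Kind.free 1)) =
            fk l Φ + (N0.map Kind.free + Q.map Kind.free) +
              (Multiset.replicate q (Kind.free 1) + Multiset.replicate (p - q) (Kind.free 1)) := by
          abel
        rw [e] at hstep
        exact hstep
      · intro t ht ht2
        rw [htrc]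
        exact window_cond' s hs _ q M _ (by rw [htot1]; omega) t ht2 (htM t ht)
      · rw [ell_one]
        omega
      · -- the next state
        have hfl := fl_nxt (α := q) (ρ := 0) (μ := 1) (N0 := N0) s hs hΦ
          (fun m hm => (hN0 m hm).1) le_rfl (Or.inl rfl)
        have hF : ell (s + 1) (S + 1) = ell (s + 1) S + ell s (S + 1) := ell_succ s S
        have htotR : tot (s + 1) R = tot (s + 1) N0 + tot (s + 1) Q := by rw [hQ, tot_add]
        rw [ell_one, ell_one, mul_one, mul_one, Nat.add_zero, Nat.add_zero] at hfl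
        have hnext := ih (nxt Φ N0 1 q 0) Q (p - q) ?_ hQm ?_ ?_ ?_ ?_
        · rw [Multiset.map_add, Multiset.map_replicate, ← add_assoc]
          exact hnext
        · exact OKF_nxt hΦ (fun m hm => (hN0 m hm).2) (Nat.le_succ _) (by omega) (Or.inl rfl)
        · omega
        · omega
        · have htl := tl_nxt (α := q) (ρ := 0) (μ := 1) (N0 := N0) s (M - 1) hs hΦ
            (fun m hm => (hN0 m hm).2) (by omega) (by omega)
          rw [ell_one, mul_one, Nat.zero_mul, Nat.mul_zero, Nat.add_zero, hqsum] at htl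
          have hl := h.load (S := S + 1) (t := tl s (nxt Φ N0 1 q 0)) (e := 0) hSD
            (by rw [Nat.mul_zero, Nat.add_zero]; exact htl) (by omega)
          rwa [Nat.add_sub_cancel] at hl
        · omega

end Pool.Agent.H21.NX

end

section

/-!
# Module VRun: the Horace steps, every dimension
-/

namespace Pool.Agent.H21.NX

open Finset Pool.Agent.H18.Ex

/-- One step: `a` points of multiplicity `μ` and a part of the points `R` are put on the
hyperplane, the rest of the trace is filled by differential points of multiplicity `μ`. -/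
theorem ustepV {s M D0 : ℕ} (h : VNum s M D0) (l : Fin (s + 2)) (S μ a : ℕ) (hS : D0 + 1 ≤ S)
    (hμ : 2 ≤ μ) (hμM : μ ≤ M) (Φ : Multiset (ℕ × ℕ)) (R : Multiset ℕ) (g : ℕ) (hΦ : OKF M Φ)
    (hR : ∀ m ∈ R, 1 ≤ m ∧ m ≤ M)
    (hx : 2 * M * (tl s Φ + a * ell s μ) ≤ (2 * M - 1) * ell s S)
    (hg1 : GG s M ≤ g) (hg2 : g ≤ M * GG s M)
    (hT1 : ell (s + 1) S ≤ fl s Φ + a * ell (s + 1) μ + tot (s + 1) R + g * ell (s + 1) μ) :
    ∃ (N0 Q : Multiset ℕ) (ρ : ℕ), R = N0 + Q ∧ ρ ≤ GG s M ∧
      tl s Φ + tot s N0 + a * ell s μ + ρ = ell s S ∧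
      2 * M * tl s (nxt Φ N0 μ a ρ) ≤ (2 * M - 1) * ell s (S - 1) ∧
      (GM (Sx (Fin (s + 2)) (S - 2)) (fk l (nxt Φ N0 μ a ρ) + Q.map Kind.free +
        Multiset.replicate (g - ρ) (Kind.free μ)) →
      GM (Sx (Fin (s + 2)) (S - 1)) (fk l Φ + R.map Kind.free +
        Multiset.replicate (a + g) (Kind.free μ))) := by
  have hs := h.s1
  have hE1 := h.E1
  have hM := h.hM
  have hDM := h.hD
  have hr1 := h.below (S := S) (by omega) hx
  have hr2 := h.r2 (S := S - 1) (by omega)
  have hr3 := h.r3 (S := S - 1) (by omega)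
  have hES : 0 < ell s S := ell_pos _ (by omega)
  have hEμ : ell s μ ≤ ell s M := ell_mono _ hμM
  -- there are enough points
  have hfit : ell s S ≤ tl s Φ + a * ell s μ + tot s R + ell s M ^ 2 := by
    by_contra hcon
    push Not at hcon
    have e1 : (s + 1) * fl s Φ ≤ (M + s) * tl s Φ := fl_le_tl s hs hΦ
    have e2 : (s + 1) * (a * ell (s + 1) μ) ≤ (M + s) * (a * ell s μ) := by
      calc (s + 1) * (a * ell (s + 1) μ) = a * ((s + 1) * ell (s + 1) μ) := by ring
        _ = a * ((μ + s) * ell s μ) := by rw [ell_succ_mul s μ hs]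
        _ ≤ a * ((M + s) * ell s μ) :=
            Nat.mul_le_mul_left _ (Nat.mul_le_mul_right _ (by omega))
        _ = _ := by ring
    have e3 : (s + 1) * tot (s + 1) R ≤ (M + s) * tot s R :=
      tot_succ_le s hs fun m hm => (hR m hm).2
    have e4 : (s + 1) * (g * ell (s + 1) μ) ≤ (M + s) * (g * ell s M) := by
      calc (s + 1) * (g * ell (s + 1) μ) = g * ((s + 1) * ell (s + 1) μ) := by ring
        _ = g * ((μ + s) * ell s μ) := by rw [ell_succ_mul s μ hs]
        _ ≤ g * ((M + s) * ell s M) :=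
            Nat.mul_le_mul_left _ (Nat.mul_le_mul (by omega) hEμ)
        _ = _ := by ring
    have e5 : (S + s) * ell s S = (s + 1) * ell (s + 1) S := ell_succ_mul s S hs
    have e6 : (S + s) * ell s S ≤ (M + s) * (ell s S + g * ell s M) := by
      calc (S + s) * ell s S = (s + 1) * ell (s + 1) S := e5
        _ ≤ (s + 1) * (fl s Φ + a * ell (s + 1) μ + tot (s + 1) R + g * ell (s + 1) μ) :=
            Nat.mul_le_mul_left _ hT1
        _ = (s + 1) * fl s Φ + (s + 1) * (a * ell (s + 1) μ) + (s + 1) * tot (s + 1) R +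
            (s + 1) * (g * ell (s + 1) μ) := by ring
        _ ≤ (M + s) * tl s Φ + (M + s) * (a * ell s μ) + (M + s) * tot s R +
            (M + s) * (g * ell s M) := by omega
        _ = (M + s) * (tl s Φ + a * ell s μ + tot s R + g * ell s M) := by ring
        _ ≤ _ := Nat.mul_le_mul_left _ (by omega)
    have e7 : 2 * (g * ell s M) ≤ ell s (S - 1) := by
      refine le_trans ?_ hr3
      exact Nat.mul_le_mul_left _ (Nat.mul_le_mul_right _ hg2)
    have e8 : (M + s) * ell s (S - 1) ≤ (S - 1) * ell s S := by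
      have hrel : ell s (S - 1) * (S - 1 + s) = ell s S * (S - 1) := by
        have := ell_mul_add s (S - 1) hs
        rwa [Nat.sub_add_cancel (by omega)] at this
      calc (M + s) * ell s (S - 1) ≤ (S - 1 + s) * ell s (S - 1) :=
            Nat.mul_le_mul_right _ (by omega)
        _ = ell s (S - 1) * (S - 1 + s) := by ring
        _ = ell s S * (S - 1) := hrel
        _ = _ := by ring
    have e9 : 2 * (S + s) * ell s S ≤ (2 * (M + s) + (S - 1)) * ell s S := by
      calc 2 * (S + s) * ell s S = 2 * ((S + s) * ell s S) := by ring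
        _ ≤ 2 * ((M + s) * (ell s S + g * ell s M)) := Nat.mul_le_mul_left _ e6
        _ = 2 * (M + s) * ell s S + (M + s) * (2 * (g * ell s M)) := by ring
        _ ≤ 2 * (M + s) * ell s S + (M + s) * ell s (S - 1) :=
            Nat.add_le_add_left (Nat.mul_le_mul_left _ e7) _
        _ ≤ 2 * (M + s) * ell s S + (S - 1) * ell s S := Nat.add_le_add_left e8 _
        _ = _ := by ring
    have e10 := Nat.le_of_mul_le_mul_right e9 hES
    omega
  obtain ⟨N0, hN0R, hN1, hN2⟩ := greedy_below s M (tl s Φ + a * ell s μ)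
    (ell s S - ell s M ^ 2) (by omega) R (fun m hm => (hR m hm).2) (by omega)
  obtain ⟨Q, hQ⟩ := Multiset.le_iff_exists_add.1 hN0R
  have hN0 : ∀ m ∈ N0, 1 ≤ m ∧ m ≤ M := fun m hm => hR m (Multiset.mem_of_le hN0R hm)
  obtain ⟨ρ, hρ⟩ : ∃ ρ, ρ = ell s S - tl s Φ - a * ell s μ - tot s N0 := ⟨_, rfl⟩
  have hsum : tl s Φ + tot s N0 + a * ell s μ + ρ = ell s S := by omega
  have hρ1 : ell s M ^ 2 ≤ ρ := by omega
  have hρ2 : ρ ≤ GG s M := by
    unfold GG
    omega
  have htrc : trc Φ N0 μ a ρ = (Φ.map Prod.fst + N0 + Multiset.replicate a μ) +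
      Multiset.replicate ρ 1 := rfl
  have hT1M : ∀ t ∈ Φ.map Prod.fst + N0 + Multiset.replicate a μ, t ≤ M := by
    intro t ht
    rcases Multiset.mem_add.1 ht with ht | ht
    · rcases Multiset.mem_add.1 ht with ht | ht
      · obtain ⟨x, hx, rfl⟩ := Multiset.mem_map.1 ht
        exact (hΦ x hx).2.2.2
      · exact (hN0 t ht).2
    · rw [Multiset.eq_of_mem_replicate ht]
      exact hμM
  have htM : ∀ t ∈ trc Φ N0 μ a ρ, t ≤ M := by
    intro t ht
    rw [htrc] at ht
    rcases Multiset.mem_add.1 ht with ht | ht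
    · exact hT1M t ht
    · rw [Multiset.eq_of_mem_replicate ht]
      exact hM
  have htot1 : tot s (Φ.map Prod.fst + N0 + Multiset.replicate a μ) =
      tl s Φ + tot s N0 + a * ell s μ := by
    rw [tot_add, tot_add, tot_replicate]
    congr 2
    unfold tot tl
    rw [Multiset.map_map]
    rfl
  refine ⟨N0, Q, ρ, hQ, hρ2, hsum, ?_, ?_⟩
  · -- the new load
    have htl := tl_nxt (α := a) (ρ := ρ) (μ := μ) (N0 := N0) s (M - 1) hs hΦ
      (fun m hm => (hN0 m hm).2) (by omega) (by omega)
    refine h.load (S := S) (e := ρ * ell s μ) hS (le_trans htl ?_) ?_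
    · exact Nat.add_le_add_right (Nat.mul_le_mul_left _ (by omega)) _
    · exact le_trans (Nat.mul_le_mul_left _ (Nat.mul_le_mul hρ2 hEμ)) hr2
  · intro hGM
    have hstep := stageQ s hs l (S - 1) (by omega) Φ N0 (Q + Multiset.replicate (g - ρ) μ) μ a ρ M
      (by omega) (fun x hx => (hΦ x hx).2.2.1) htM ?_ ?_ ?_
    · rw [hQ, Multiset.map_add]
      rw [Multiset.map_add, Multiset.map_replicate] at hstep
      have hpq : Multiset.replicate (a + g) (Kind.free μ : Kind (Fin (s + 2))) =
          Multiset.replicate (a + ρ) (Kind.free μ) +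
            Multiset.replicate (g - ρ) (Kind.free μ) := by
        rw [← Multiset.replicate_add]
        congr 1
        omega
      rw [hpq]
      have e : fk l Φ + N0.map Kind.free + Multiset.replicate (a + ρ) (Kind.free μ) +
          (Q.map Kind.free + Multiset.replicate (g - ρ) (Kind.free μ)) =
          fk l Φ + (N0.map Kind.free + Q.map Kind.free) +
            (Multiset.replicate (a + ρ) (Kind.free μ) +
              Multiset.replicate (g - ρ) (Kind.free μ)) := by
        abel
      rw [e] at hstep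
      exact hstep
    · intro t ht ht2
      rw [htrc]
      rw [show S - 1 + 1 = S by omega]
      exact window_cond' s hs _ ρ M _ (by rw [htot1]; omega) t ht2 (htM t ht)
    · rw [show S - 1 + 1 = S by omega]
      omega
    · rw [Multiset.map_add, Multiset.map_replicate, ← add_assoc]
      rwa [show S - 1 - 1 = S - 2 by omega]

theorem fk_nxt_dn {ι : Type} [DecidableEq ι] (l : ι) (Ψ : Multiset (ℕ × ℕ)) :
    fk l (nxt Ψ 0 1 0 0) ≤ (fk l Ψ).map (Kind.dn l) := by
  have h1 : fk l (nxt Ψ 0 1 0 0) ≤ fk l (Ψ.map (fun x : ℕ × ℕ => (x.1 - 1, x.2))) := by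
    refine Multiset.map_le_map ?_
    unfold nxt
    refine le_trans (Multiset.filter_le _ _) (le_of_eq ?_)
    rw [Multiset.map_zero, Multiset.replicate_zero, Multiset.replicate_zero, add_zero, add_zero,
      add_zero]
  refine le_trans h1 (le_of_eq ?_)
  unfold fk
  rw [Multiset.map_map, Multiset.map_map]
  refine Multiset.map_congr rfl fun x _ => ?_
  simp [Kind.dn]

end Pool.Agent.H21.NX

end
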