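import Pool.Agent.H94.LP5.M06
import Pool.Agent.H94.LP5.M31

/-! The parts of this file: H18.Ex.Asm, H21.NX.VEll, H51.TB.Ridx, V7.AL.KDefs. -/

section

/-!
# Module Asm: assembly of the induction step
-/

namespace Pool.Agent.H18.Ex

open Finset

section

variable {ι : Type} [Fintype ι] [DecidableEq ι]

/-- Replace the forced conditions on `x_l = 0`. -/
def Cfg.upd (c : Cfg ι) (l : ι) (X : Multiset (ℕ × ℕ)) (s : ℕ) : Cfg ι where
  N := c.N
  s := s
  Φ := Function.update c.Φ l X

theorem Cfg.kinds_split (c : Cfg ι) (l : ι) :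
    c.kinds = c.N.map Kind.free + Multiset.replicate c.s (Kind.free 1) +
      ∑ i ∈ univ.erase l, ((c.Φ i).map fun x => Kind.forced i x.1 x.2) +
      (c.Φ l).map fun x => Kind.forced l x.1 x.2 := by
  unfold Cfg.kinds
  rw [← add_sum_erase univ _ (mem_univ l), add_comm ((c.Φ l).map _), ← add_assoc]

theorem Cfg.kinds_upd (c : Cfg ι) (l : ι) (X : Multiset (ℕ × ℕ)) (s : ℕ) :
    (c.upd l X s).kinds = c.N.map Kind.free + Multiset.replicate s (Kind.free 1) +
      ∑ i ∈ univ.erase l, ((c.Φ i).map fun x => Kind.forced i x.1 x.2) +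
      X.map fun x => Kind.forced l x.1 x.2 := by
  rw [Cfg.kinds_split _ l]
  unfold Cfg.upd
  simp only [Function.update_self]
  congr 2
  refine sum_congr rfl fun i hi => ?_
  rw [Function.update_of_ne (ne_of_mem_erase hi)]

theorem Cfg.sz_split (n : ℕ) (c : Cfg ι) (l : ι) :
    c.sz n = (c.N.map (ell (n + 1))).sum + c.s + ∑ i ∈ univ.erase l, c.fl n i + c.fl n l := by
  unfold Cfg.sz Cfg.nsz
  rw [← add_sum_erase univ _ (mem_univ l), add_comm (c.fl n l), ← add_assoc]

theorem Cfg.sz_upd (n : ℕ) (c : Cfg ι) (l : ι) (X : Multiset (ℕ × ℕ)) (s : ℕ) :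
    (c.upd l X s).sz n = (c.N.map (ell (n + 1))).sum + s + ∑ i ∈ univ.erase l, c.fl n i +
      (X.map fun x => ell (n + 1) x.1 + 1 - x.2).sum := by
  rw [Cfg.sz_split _ _ l]
  unfold Cfg.upd Cfg.fl
  simp only [Function.update_self]
  congr 2
  refine sum_congr rfl fun i hi => ?_
  rw [Function.update_of_ne (ne_of_mem_erase hi)]

theorem Cfg.tr_upd_self (n : ℕ) (c : Cfg ι) (l : ι) (X : Multiset (ℕ × ℕ)) (s : ℕ) :
    (c.upd l X s).tr n l = (X.map fun x => ell n x.1).sum := by
  unfold Cfg.upd Cfg.tr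
  simp only [Function.update_self]

theorem Cfg.OK_upd {M : ℕ} {c : Cfg ι} (hc : c.OK M) (l : ι) (X : Multiset (ℕ × ℕ)) (s : ℕ)
    (hX : ∀ x ∈ X, 1 ≤ x.2 ∧ x.2 ≤ 2 ∧ x.2 ≤ x.1 ∧ x.1 ≤ M) : (c.upd l X s).OK M := by
  refine ⟨hc.hN, ?_⟩
  intro l' x hx
  by_cases h : l' = l
  · subst h
    rw [show (c.upd l' X s).Φ l' = X from Function.update_self _ _ _] at hx
    exact hX x hx
  · rw [show (c.upd l X s).Φ l' = c.Φ l' from Function.update_of_ne h _ _] at hx
    exact hc.hΦ l' x hx

omit [Fintype ι] [DecidableEq ι] in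
/-- Numbers of the shift of a valid multiset of forced conditions. -/
theorem shf_numbers (n M : ℕ) (hn : 1 ≤ n) (X : Multiset (ℕ × ℕ))
    (hX : ∀ x ∈ X, 1 ≤ x.2 ∧ x.2 ≤ 2 ∧ x.2 ≤ x.1 ∧ x.1 ≤ M) :
    (∀ x ∈ shf X, 1 ≤ x.2 ∧ x.2 ≤ 2 ∧ x.2 ≤ x.1 ∧ x.1 ≤ M) ∧
    ((shf X).map fun x => ell (n + 1) x.1 + 1 - x.2).sum + (X.map fun x => ell n x.1).sum =
      (X.map fun x => ell (n + 1) x.1 + 1 - x.2).sum ∧
    M * ((shf X).map fun x => ell n x.1).sum ≤ (M - 1) * (X.map fun x => ell n x.1).sum := by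
  induction X using Multiset.induction_on with
  | empty => simp [shf]
  | cons y X ih =>
    obtain ⟨h1, h2, h3⟩ := ih fun x hx => hX x (Multiset.mem_cons_of_mem hx)
    obtain ⟨hy1, hy2, hy3, hy4⟩ := hX y (Multiset.mem_cons_self _ _)
    obtain ⟨c, hc⟩ : ∃ c, y.1 = c + 1 := ⟨y.1 - 1, by omega⟩
    have hs := ell_succ n c
    have hr := ell_ratio (n := n) (c := c) (M := M) hn (by omega)
    by_cases hlt : y.2 ≤ c
    · have hshf : shf (y ::ₘ X) = (y.1 - 1, y.2) ::ₘ shf X := by
        unfold shf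
        rw [Multiset.map_cons, Multiset.filter_cons_of_pos]
        simp only
        omega
      rw [hshf]
      refine ⟨?_, ?_, ?_⟩
      · intro x hx
        rcases Multiset.mem_cons.1 hx with rfl | hx
        · simp only
          omega
        · exact h1 x hx
      · simp only [Multiset.map_cons, Multiset.sum_cons]
        rw [hc] at *
        simp only [Nat.add_sub_cancel]
        have hp : 1 ≤ ell (n + 1) c := ell_pos _ (by omega)
        omega
      · simp only [Multiset.map_cons, Multiset.sum_cons, mul_add]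
        rw [hc]
        simp only [Nat.add_sub_cancel]
        omega
    · have hshf : shf (y ::ₘ X) = shf X := by
        unfold shf
        rw [Multiset.map_cons, Multiset.filter_cons_of_neg]
        simp only
        omega
      rw [hshf]
      have hy : y.2 = c + 1 := by omega
      refine ⟨h1, ?_, ?_⟩
      · simp only [Multiset.map_cons, Multiset.sum_cons]
        rw [hc, hy]
        have hc2 : c = 0 ∨ c = 1 := by omega
        rcases hc2 with rfl | rfl
        · rw [ell_one, ell_one]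
          omega
        · have h5 := ell_succ n 1
          rw [ell_one] at h5
          rw [h5]
          omega
      · simp only [Multiset.map_cons, Multiset.sum_cons, mul_add]
        omega

omit [Fintype ι] [DecidableEq ι] in
theorem shf_iterate_replicate (s c j : ℕ) (hj : j ≤ c) :
    shf^[j] (Multiset.replicate s (c + 1, 1)) = Multiset.replicate s (c - j + 1, 1) := by
  induction j with
  | zero => rfl
  | succ j ih =>
    rw [Function.iterate_succ_apply', ih (by omega)]
    unfold shf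
    rw [Multiset.map_replicate, Multiset.filter_eq_self.2]
    · congr 2
      simp only
      omega
    · intro x hx
      rw [Multiset.eq_of_mem_replicate hx]
      simp only
      omega

/-- Bridging for configurations. -/
theorem bridge_cfg (n M : ℕ) (c : Cfg ι) (hc : c.OK M) (l : ι) (s₀ : ℕ)
    (hs : Multiset.replicate s₀ (1, 1) ≤ c.Φ l) (A A' : Finset (ι → ℕ))
    (hA : ∀ a, a ∈ A' ↔ Function.update a l (a l + 1) ∈ A)
    (h1 : GM A (c.upd l (c.Φ l - Multiset.replicate s₀ (1, 1)) (c.s + s₀)).kinds)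
    (h2 : GM A' (c.upd l (shf (c.Φ l - Multiset.replicate s₀ (1, 1))) c.s).kinds) :
    GM A c.kinds := by
  set X := c.Φ l - Multiset.replicate s₀ (1, 1) with hX
  have hXs : c.Φ l = X + Multiset.replicate s₀ (1, 1) := by
    rw [hX, tsub_add_cancel_of_le hs]
  set S : Multiset (Kind ι) := c.N.map Kind.free + Multiset.replicate c.s (Kind.free 1) +
      ∑ i ∈ univ.erase l, ((c.Φ i).map fun x => Kind.forced i x.1 x.2) +
      X.map fun x => Kind.forced l x.1 x.2 with hS
  have e1 : c.kinds = S + Multiset.replicate s₀ (Kind.forced l 1 1) := by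
    rw [Cfg.kinds_split c l, hXs, Multiset.map_add, Multiset.map_replicate, ← add_assoc]
  rw [e1]
  apply GM.bridge A A' l hA S s₀
  · rw [Cfg.kinds_upd] at h1
    convert h1 using 1
    rw [hS, Multiset.replicate_add]
    abel
  · rw [Cfg.kinds_upd] at h2
    refine GM.mono ?_ h2
    rw [hS, Multiset.map_add, Multiset.map_add, Multiset.map_add]
    have e2 : (c.N.map (Kind.free : ℕ → Kind ι)).map (Kind.dn l) = c.N.map Kind.free := by
      rw [Multiset.map_map]
      rfl
    have e3 : (Multiset.replicate c.s (Kind.free 1 : Kind ι)).map (Kind.dn l) =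
        Multiset.replicate c.s (Kind.free 1) := by
      rw [Multiset.map_replicate]
      rfl
    have e4 : (∑ i ∈ univ.erase l, ((c.Φ i).map fun x => Kind.forced i x.1 x.2)).map
        (Kind.dn l) = ∑ i ∈ univ.erase l, ((c.Φ i).map fun x => Kind.forced i x.1 x.2) := by
      have e5 : ∀ (T : Finset ι), (∀ i ∈ T, i ≠ l) →
          (∑ i ∈ T, ((c.Φ i).map fun x => Kind.forced i x.1 x.2)).map (Kind.dn l) =
            ∑ i ∈ T, ((c.Φ i).map fun x => Kind.forced i x.1 x.2) := by
        intro T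
        induction T using Finset.induction_on with
        | empty => simp
        | insert i T hi ih =>
          intro hT
          rw [sum_insert hi, Multiset.map_add, ih fun j hj => hT j (mem_insert_of_mem hj),
            Multiset.map_map]
          congr 1
          refine Multiset.map_congr rfl fun x _ => ?_
          simp only [Function.comp_apply, Kind.dn]
          rw [if_neg (hT i (mem_insert_self _ _))]
      exact e5 _ fun i hi => ne_of_mem_erase hi
    rw [e2, e3, e4]
    refine add_le_add le_rfl ?_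
    unfold shf
    rw [Multiset.map_map]
    refine (Multiset.map_le_map (Multiset.filter_le _ _)).trans (le_of_eq ?_)
    rw [Multiset.map_map]
    refine Multiset.map_congr rfl fun x _ => ?_
    simp [Kind.dn]

end

end Pool.Agent.H18.Ex

end

section

/-!
# Module VEll: inequalities for the lengths
-/

namespace Pool.Agent.H21.NX

open Finset Pool.Agent.H18.Ex

/-- Multiplicativity. -/
theorem ell_mul_le (s a b : ℕ) (ha : 1 ≤ a) (hb : 1 ≤ b) (hs : 1 ≤ s) :
    ell s a * ell s b ≤ ell s (a * b) := by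
  induction s, hs using Nat.le_induction with
  | base =>
    have h1 : ∀ c, ell 1 c = c := fun c => by
      unfold ell
      rw [Nat.add_sub_cancel, Nat.choose_one_right]
    rw [h1, h1, h1]
  | succ s hs ih =>
    have h1 := ell_succ_mul s a hs
    have h2 := ell_succ_mul s b hs
    have h3 := ell_succ_mul s (a * b) hs
    have hpos : 0 < (s + 1) * (s + 1) := by positivity
    refine Nat.le_of_mul_le_mul_left ?_ hpos
    have h4 : (a + s) * (b + s) ≤ (s + 1) * (a * b + s) := by
      obtain ⟨x, rfl⟩ : ∃ x, a = x + 1 := ⟨a - 1, by omega⟩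
      obtain ⟨y, rfl⟩ : ∃ y, b = y + 1 := ⟨b - 1, by omega⟩
      nlinarith [Nat.zero_le (s * (x * y))]
    calc (s + 1) * (s + 1) * (ell (s + 1) a * ell (s + 1) b) =
        ((s + 1) * ell (s + 1) a) * ((s + 1) * ell (s + 1) b) := by ring
      _ = ((a + s) * ell s a) * ((b + s) * ell s b) := by rw [h1, h2]
      _ = ((a + s) * (b + s)) * (ell s a * ell s b) := by ring
      _ ≤ ((s + 1) * (a * b + s)) * ell s (a * b) := Nat.mul_le_mul h4 ih
      _ = (s + 1) * ((a * b + s) * ell s (a * b)) := by ring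
      _ = _ := by rw [h3]; ring

/-- `x ^ 2 ≤ 2 * E(x)` for `s ≥ 2`. -/
theorem sq_le_ell (s x : ℕ) (hs : 2 ≤ s) : x ^ 2 ≤ 2 * ell s x := by
  have h1 : x ^ 2 ≤ 2 * ell 2 x := by
    rcases Nat.eq_zero_or_pos x with h | h
    · subst h
      simp
    unfold ell
    rw [show x + 2 - 1 = x + 1 by omega, Nat.choose_two_right, Nat.add_sub_cancel]
    have : 2 * ((x + 1) * x / 2) = (x + 1) * x := by
      refine Nat.mul_div_cancel' ?_
      rw [mul_comm]
      exact (Nat.even_mul_succ_self x).two_dvd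
    rw [this]
    nlinarith
  refine le_trans h1 (Nat.mul_le_mul_left _ ?_)
  induction s, hs using Nat.le_induction with
  | base => exact le_rfl
  | succ s hs ih => exact le_trans ih (ell_le_succ s x (by omega))

theorem pow_self_le (s : ℕ) : s ^ s ≤ s.factorial * 4 ^ s := by
  have h1 := Nat.pow_sub_le_descFactorial (2 * s) s
  have h2 : (2 * s).choose s ≤ 2 ^ (2 * s) := Nat.choose_le_two_pow _ _
  rw [show 2 * s + 1 - s = s + 1 by omega] at h1
  have h3 : (s + 1) ^ s ≤ s.factorial * (2 * s).choose s := by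
    rwa [Nat.descFactorial_eq_factorial_mul_choose] at h1
  calc s ^ s ≤ (s + 1) ^ s := Nat.pow_le_pow_left (by omega) _
    _ ≤ s.factorial * (2 * s).choose s := h3
    _ ≤ s.factorial * 2 ^ (2 * s) := Nat.mul_le_mul_left _ h2
    _ = _ := by rw [pow_mul]; norm_num

theorem pow_le_ell_mul (s y : ℕ) (hs : 1 ≤ s) : y ^ s ≤ ell s (y * s) := by
  have h1 := Nat.pow_sub_le_descFactorial (y * s + s - 1) s
  rw [show y * s + s - 1 + 1 - s = y * s by omega,
    Nat.descFactorial_eq_factorial_mul_choose] at h1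
  have h2 : (y * s) ^ s ≤ s.factorial * ell s (y * s) := h1
  refine Nat.le_of_mul_le_mul_left ?_ (Nat.factorial_pos s)
  calc s.factorial * y ^ s ≤ s ^ s * y ^ s := Nat.mul_le_mul_right _ (Nat.factorial_le_pow s)
    _ = (y * s) ^ s := by rw [mul_pow, mul_comm]
    _ ≤ _ := h2

theorem ell_mul_le_pow (s t : ℕ) (ht : 1 ≤ t) : ell s (t * s) ≤ (8 * t) ^ s := by
  have h1 : s.factorial * ell s (t * s) ≤ (t * s + s - 1) ^ s := by
    unfold ell
    rw [← Nat.descFactorial_eq_factorial_mul_choose]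
    exact Nat.descFactorial_le_pow _ _
  have h2 : (t * s + s - 1) ^ s ≤ (2 * t * s) ^ s := by
    refine Nat.pow_le_pow_left ?_ _
    have : 1 * s ≤ t * s := Nat.mul_le_mul_right _ ht
    have h3 : 2 * t * s = t * s + t * s := by ring
    omega
  have h3 := pow_self_le s
  refine Nat.le_of_mul_le_mul_left ?_ (Nat.factorial_pos s)
  calc s.factorial * ell s (t * s) ≤ (2 * t * s) ^ s := le_trans h1 h2
    _ = (2 * t) ^ s * s ^ s := mul_pow _ _ _
    _ ≤ (2 * t) ^ s * (s.factorial * 4 ^ s) := Nat.mul_le_mul_left _ h3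
    _ = s.factorial * ((2 * t) ^ s * 4 ^ s) := by ring
    _ = s.factorial * (8 * t) ^ s := by
        rw [← mul_pow]
        ring

/-- Submultiplicativity. -/
theorem ell_mul_ell_le (s a b : ℕ) :
    ell s (a + 1) * ell s (b + 1) ≤ (a + b).choose a * ell s (a + b + 1) := by
  have h1 : ell s (a + b + 1) = (a + b + s).choose (a + b) := by
    unfold ell
    rw [show a + b + 1 + s - 1 = (a + b) + s by omega, Nat.choose_symm_add]
  have h2 := Nat.choose_mul (n := a + b + s) (k := a + b) (s := a) (by omega)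
  rw [show a + b + s - a = b + s by omega, Nat.add_sub_cancel_left] at h2
  have h3 : ell s (b + 1) = (b + s).choose b := by
    unfold ell
    rw [show b + 1 + s - 1 = b + s by omega, Nat.choose_symm_add]
  have h4 : ell s (a + 1) ≤ (a + b + s).choose a := by
    unfold ell
    rw [show a + 1 + s - 1 = a + s by omega, ← Nat.choose_symm_add]
    exact Nat.choose_le_choose a (by omega)
  rw [h1, mul_comm ((a + b).choose a), h2, h3]
  exact Nat.mul_le_mul_right _ h4

theorem ell_mul_ell_le_two (s a b : ℕ) (ha : 1 ≤ a) (hb : 1 ≤ b) :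
    ell s a * ell s b ≤ 2 ^ (a + b) * ell s (a + b) := by
  obtain ⟨x, rfl⟩ : ∃ x, a = x + 1 := ⟨a - 1, by omega⟩
  obtain ⟨y, rfl⟩ : ∃ y, b = y + 1 := ⟨b - 1, by omega⟩
  refine le_trans (ell_mul_ell_le s x y) (Nat.mul_le_mul ?_ (ell_mono _ (by omega)))
  exact le_trans (Nat.choose_le_two_pow _ _) (Nat.pow_le_pow_right (by omega) (by omega))

/-- Growth: `(2c)^i E(c+i) ≥ (2c+s)^i E(c)` for `i ≤ c`. -/
theorem growth (s c : ℕ) (hs : 1 ≤ s) : ∀ i, i ≤ c →
    (2 * c + s) ^ i * ell s c ≤ (2 * c) ^ i * ell s (c + i) := by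
  intro i
  induction i with
  | zero => simp
  | succ i ih =>
    intro hi
    have h1 := ih (by omega)
    have hrel := ell_mul_add s (c + i) hs
    rcases Nat.eq_zero_or_pos (c + i) with h0 | h0
    · omega
    have h2 : (2 * c + s) * ell s (c + i) ≤ 2 * c * ell s (c + (i + 1)) := by
      refine Nat.le_of_mul_le_mul_right ?_ h0
      rw [← add_assoc]
      calc (2 * c + s) * ell s (c + i) * (c + i) =
          ((2 * c + s) * (c + i)) * ell s (c + i) := by ring
        _ ≤ (2 * c * (c + i + s)) * ell s (c + i) := by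
            refine Nat.mul_le_mul_right _ ?_
            have : s * (c + i) ≤ s * (2 * c) := Nat.mul_le_mul_left _ (by omega)
            nlinarith
        _ = 2 * c * (ell s (c + i) * (c + i + s)) := by ring
        _ = 2 * c * (ell s (c + i + 1) * (c + i)) := by rw [hrel]
        _ = _ := by ring
    calc (2 * c + s) ^ (i + 1) * ell s c = (2 * c + s) * ((2 * c + s) ^ i * ell s c) := by ring
      _ ≤ (2 * c + s) * ((2 * c) ^ i * ell s (c + i)) := Nat.mul_le_mul_left _ h1
      _ = (2 * c) ^ i * ((2 * c + s) * ell s (c + i)) := by ring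
      _ ≤ (2 * c) ^ i * (2 * c * ell s (c + (i + 1))) := Nat.mul_le_mul_left _ h2
      _ = _ := by ring

theorem bernoulli_nat (q : ℕ) (h : 0 < q) : 3 * (2 * q) ^ q ≤ 2 * (2 * q + 1) ^ q := by
  have h1 : (1 : ℝ) + (q : ℝ) * (1 / (2 * q)) ≤ (1 + 1 / (2 * q)) ^ q :=
    one_add_mul_le_pow (by
      have : (0 : ℝ) ≤ 1 / (2 * q) := by positivity
      linarith) q
  have hq : (0 : ℝ) < q := by exact_mod_cast h
  have h2 : (q : ℝ) * (1 / (2 * q)) = 1 / 2 := by field_simp
  rw [h2] at h1
  have h3 : (1 + 1 / (2 * (q : ℝ))) ^ q * (2 * q) ^ q = (2 * q + 1) ^ q := by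
    rw [← mul_pow]
    congr 1
    field_simp
  have h4 : (3 : ℝ) * (2 * q) ^ q ≤ 2 * (2 * q + 1) ^ q := by
    rw [← h3]
    have h5 : (0 : ℝ) ≤ (2 * (q : ℝ)) ^ q := by positivity
    nlinarith
  exact_mod_cast h4

/-- Doubling. -/
theorem doubling (s M q : ℕ) (hM : 1 ≤ M) (hs : M ≤ s) :
    3 ^ M * ell s (q * M) ≤ 2 ^ M * ell s (2 * (q * M)) := by
  have h1 := growth s (q * M) (by omega) (q * M) le_rfl
  rcases Nat.eq_zero_or_pos q with hq | hq
  · subst hq
    rw [Nat.zero_mul, ell_zero (by omega), Nat.mul_zero]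
    exact Nat.zero_le _
  have hpos : 0 < (2 * (q * M)) ^ (q * M) := by positivity
  refine Nat.le_of_mul_le_mul_left ?_ hpos
  have h2 : (2 * (q * M)) ^ (q * M) * 3 ^ M ≤ 2 ^ M * (2 * (q * M) + s) ^ (q * M) := by
    calc (2 * (q * M)) ^ (q * M) * 3 ^ M = M ^ (q * M) * (3 * (2 * q) ^ q) ^ M := by
          rw [mul_pow 3, ← pow_mul, show 2 * (q * M) = (2 * q) * M by ring, mul_pow]
          ring
      _ ≤ M ^ (q * M) * (2 * (2 * q + 1) ^ q) ^ M :=
          Nat.mul_le_mul_left _ (Nat.pow_le_pow_left (bernoulli_nat q hq) _)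
      _ = 2 ^ M * ((2 * q + 1) * M) ^ (q * M) := by
          rw [mul_pow 2, ← pow_mul, mul_pow (2 * q + 1)]
          ring
      _ ≤ _ := by
          refine Nat.mul_le_mul_left _ (Nat.pow_le_pow_left ?_ _)
          nlinarith
  calc (2 * (q * M)) ^ (q * M) * (3 ^ M * ell s (q * M)) =
      ((2 * (q * M)) ^ (q * M) * 3 ^ M) * ell s (q * M) := by ring
    _ ≤ (2 ^ M * (2 * (q * M) + s) ^ (q * M)) * ell s (q * M) := Nat.mul_le_mul_right _ h2
    _ = 2 ^ M * ((2 * (q * M) + s) ^ (q * M) * ell s (q * M)) := by ring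
    _ ≤ 2 ^ M * ((2 * (q * M)) ^ (q * M) * ell s (q * M + q * M)) := Nat.mul_le_mul_left _ h1
    _ = _ := by
        rw [← two_mul (q * M)]
        ring

theorem quadrupling (s M q : ℕ) (hM : 1 ≤ M) (hs : M ≤ s) :
    2 ^ M * ell s (q * M) ≤ ell s (4 * q * M) := by
  have h1 := doubling s M q hM hs
  have h2 := doubling s M (2 * q) hM hs
  rw [show 2 * (q * M) = 2 * q * M by ring] at h1
  rw [show 2 * (2 * q * M) = 4 * q * M by ring] at h2
  have hpos : 0 < 4 ^ M := by positivity
  refine Nat.le_of_mul_le_mul_left ?_ hpos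
  calc 4 ^ M * (2 ^ M * ell s (q * M)) = 8 ^ M * ell s (q * M) := by
        rw [← mul_assoc, ← mul_pow]
        norm_num
    _ ≤ 9 ^ M * ell s (q * M) := Nat.mul_le_mul_right _ (Nat.pow_le_pow_left (by omega) _)
    _ = 3 ^ M * (3 ^ M * ell s (q * M)) := by
        rw [← mul_assoc, ← mul_pow]
        norm_num
    _ ≤ 3 ^ M * (2 ^ M * ell s (2 * q * M)) := Nat.mul_le_mul_left _ h1
    _ = 2 ^ M * (3 ^ M * ell s (2 * q * M)) := by ring
    _ ≤ 2 ^ M * (2 ^ M * ell s (4 * q * M)) := Nat.mul_le_mul_left _ h2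
    _ = _ := by
        rw [← mul_assoc, ← mul_pow]
        norm_num

theorem iter_quad (s M q : ℕ) (hM : 1 ≤ M) (hs : M ≤ s) : ∀ n,
    2 ^ (n * M) * ell s (q * M) ≤ ell s (4 ^ n * q * M) := by
  intro n
  induction n with
  | zero => simp
  | succ n ih =>
    calc 2 ^ ((n + 1) * M) * ell s (q * M) = 2 ^ M * (2 ^ (n * M) * ell s (q * M)) := by ring
      _ ≤ 2 ^ M * ell s (4 ^ n * q * M) := Nat.mul_le_mul_left _ ih
      _ ≤ ell s (4 * (4 ^ n * q) * M) := quadrupling s M _ hM hs
      _ = _ := by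
          congr 1
          ring

end Pool.Agent.H21.NX

end

section

/-!
# Module E2 (TB): renaming the variables

An equivalence `e : ι ≃ ι'` of the variables (here `finSumFinEquiv : Fin a ⊕ Fin b ≃ Fin (a + b)`)
transports exponents, positions and conditions.
-/

namespace Pool.Agent.H51.TB

open Finset Pool.Agent.H18.Ex Pool.Agent.H21.NX

private theorem Ridx_mem {ι ι' : Type} [Fintype ι] [DecidableEq ι] [Fintype ι'] [DecidableEq ι']
    (e : ι ≃ ι') (d : ℕ) (a : ι → ℕ) : (fun j => a (e.symm j)) ∈ Sx ι' d ↔ a ∈ Sx ι d := by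
  rw [mem_Sx, mem_Sx, Equiv.sum_comp e.symm a]

private theorem Ridx_mem' {ι ι' : Type} [Fintype ι] [DecidableEq ι] [Fintype ι'] [DecidableEq ι']
    (e : ι ≃ ι') (d : ℕ) (a : ι' → ℕ) : (fun i => a (e i)) ∈ Sx ι d ↔ a ∈ Sx ι' d := by
  rw [mem_Sx, mem_Sx, Equiv.sum_comp e a]

private theorem Ridx_tcr {ι ι' : Type} [Fintype ι] [Fintype ι'] (e : ι ≃ ι') (q : ι → ℂ)
    (a b : ι → ℕ) :
    tcr (fun j => q (e.symm j)) (fun j => a (e.symm j)) (fun j => b (e.symm j)) = tcr q a b := by
  unfold tcr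
  exact Equiv.prod_comp e.symm fun i => (((a i).choose (b i) : ℕ) : ℂ) * q i ^ (a i - b i)

theorem GM_equiv {ι ι' : Type} [Fintype ι] [DecidableEq ι] [Fintype ι'] [DecidableEq ι']
    (e : ι ≃ ι') (d : ℕ) (S : Multiset ℕ) (h : GM (Sx ι d) (S.map Kind.free)) :
    GM (Sx ι' d) (S.map Kind.free) := by
  obtain ⟨m, t, rfl⟩ := multi_exists_fin S
  rw [Multiset.map_map, GM_iff] at h ⊢
  obtain ⟨pos, hpos⟩ := h
  refine ⟨fun i j => pos i (e.symm j), fun f' hf' a' ha' => ?_⟩
  have key : ∀ a ∈ Sx ι d, (fun a : ι → ℕ => f' fun j => a (e.symm j)) a = 0 := by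
    refine hpos (fun a => f' fun j => a (e.symm j)) fun i b hb => ?_
    have hb' : ∑ i, b i < t i := hb
    have h1 : ∑ a ∈ Sx ι' d, f' a * tcr (fun j => pos i (e.symm j)) a (fun j => b (e.symm j)) = 0 := by
      refine hf' i (fun j => b (e.symm j)) ?_
      show ∑ j, b (e.symm j) < t i
      rw [Equiv.sum_comp e.symm b]
      exact hb'
    rw [← h1]
    show ∑ a ∈ Sx ι d, (f' fun j => a (e.symm j)) * tcr (pos i) a b = _
    refine Finset.sum_bij (fun a _ => fun j => a (e.symm j)) (fun a ha => (Ridx_mem e d a).2 ha)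
      (fun a _ b _ hab => ?_) (fun a ha => ⟨fun i => a (e i), (Ridx_mem' e d a).2 ha, ?_⟩)
      (fun a _ => ?_)
    · funext i
      have h2 := congrFun hab (e i)
      simpa using h2
    · funext j
      show a (e (e.symm j)) = a j
      rw [e.apply_symm_apply]
    · rw [Ridx_tcr]
  have h3 := key (fun i => a' (e i)) ((Ridx_mem' e d a').2 ha')
  have h4 : (fun j => a' (e (e.symm j))) = a' := by
    funext j
    rw [e.apply_symm_apply]
  have h5 : f' (fun j => a' (e (e.symm j))) = 0 := h3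
  rw [h4] at h5
  exact h5

end Pool.Agent.H51.TB

end

section

/-!
# V7, block ALPHA: the numbers of points of the chain

On the level `l` (`j ≤ l ≤ 2M-1`) of the chain there are `rho k * (ν - (l-j)).choose (dgr k - l)` points
of the kind `k` (none if `dgr k < l`), `n = c ν + r` variables.  The kinds `ord M I` with
`range j ⊆ I` do not occur.
-/

set_option autoImplicit false

namespace Pool.Agent.V7

open Finset

/-- The number of points of the kind `k` on the level `l` is of degree `dgr k - l` in `n`. -/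
def dgr (M : ℕ) : Kd → ℕ
  | .ord μ I => 2 * M - μ + I.card
  | .sw _ I => M + I.card

/-- The kinds of the chain which starts at the level `j`. -/
def Kd.In (M j : ℕ) : Kd → Prop
  | .ord μ I => μ = M → ¬ range j ⊆ I
  | .sw i _ => i < j

instance (M j : ℕ) : DecidablePred (Kd.In M j) := fun k => by
  cases k <;> unfold Kd.In <;> infer_instance

/-- The densities. -/
def rho (M c : ℕ) : Kd → ℕ
  | .ord μ _ => if μ = M then c ^ M / (2 * M - 1).choose M + c ^ (M - 1) else 1
  | .sw _ _ => 3 * c ^ (M - 1)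

/-- The number of points of the kind `k` on the level `l`. -/
def nmb (M c j l ν : ℕ) (k : Kd) : ℕ :=
  if k ∈ kds M l ∧ k.In M j ∧ l ≤ dgr M k then rho M c k * (ν - (l - j)).choose (dgr M k - l) else 0

/-- The configuration on the level `l`. -/
def cfg (M c j l ν : ℕ) : Multiset Kd := ∑ k ∈ kds M l, Multiset.replicate (nmb M c j l ν k) k

end Pool.Agent.V7

end
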