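import Pool.Agent.H94.LP5.M37
import Pool.Agent.H94.LP5.M38

/-! The parts of this file: H74.SC.WinD, H74.V7.Fin, V7.AL.ChainA. -/

section

/-!
# The window for arbitrary multiplicities at most `M`

Let `ℓ = binom(M + r - 1, r)`, `N = binom(d + r, r)`, `M ≤ d + 1`, all `m a ≤ M`, `L` the sum of the
lengths.  If `V(m, M, …, M) ≠ 0` with `ℓ - 1` copies of `M`, then `dim V(m) + L = N`
(`decouple`, point after point).  Hence `V(m) = 0` if at least `ℓ - 1` of the `m a` are equal to `M`
and `N + (ℓ - 1) ℓ < L`, and always `dim V(m) ≤ max (N - L) 0 + ℓ (ℓ + 1)`.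
-/

namespace Pool.Agent.H74.SC.WinD

open Finset MvPolynomial Pool.Agent.H18.Fat Pool.Agent.H18.Ex Pool.Agent.H21.NX Pool.Agent.H21.NX.GenBX

theorem gdim_le_comp (r d : ℕ) {κ κ' : Type} [Fintype κ] [Fintype κ'] (φ : κ' → κ)
    (hφ : Function.Injective φ) (m : κ → ℕ) : gdim r d m ≤ gdim r d fun i => m (φ i) := by
  obtain ⟨p₀, hp₀⟩ := gdim_attained r d fun i => m (φ i)
  have hfin := finite_fat (d := d) p₀ fun i => m (φ i)
  have h1 := gdim_le r d m (Function.extend φ p₀ fun _ _ => 0)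
  have h2 : fatForms r d (Function.extend φ p₀ fun _ _ => 0) m ≤
      fatForms r d p₀ fun i => m (φ i) := by
    have h3 := fat_comp_le (d := d) φ (Function.extend φ p₀ fun _ _ => 0) m
    have h4 : (fun i => Function.extend φ p₀ (fun _ _ => 0) (φ i)) = p₀ :=
      funext fun i => hφ.extend_apply p₀ _ i
    rwa [h4] at h3
  have h3 := Submodule.finrank_mono h2
  omega

theorem gdim_isEmpty (r d : ℕ) {κ : Type} [IsEmpty κ] (m : κ → ℕ) :
    gdim r d m = (d + r).choose r := by
  rw [← gdim_empty r d (fun i => i.elim0), ← gdim_comp_equiv r d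
    (Equiv.equivOfIsEmpty κ (Fin 0)) (fun i => i.elim0)]
  congr 1
  funext i
  exact isEmptyElim i

theorem alive (r d : ℕ) (hr : 1 ≤ r) (M : ℕ) (hMd : M ≤ d + 1) (κ : Type) [Fintype κ] :
    ∀ m : κ → ℕ, (∀ a, m a ≤ M) →
      gdim r d (Sum.elim m fun _ : Fin (ell r M - 1) => M) ≠ 0 →
      gdim r d m + ∑ a, ell r (m a) = (d + r).choose r := by
  refine Fintype.induction_empty_option (P := fun κ _ => ∀ m : κ → ℕ, (∀ a, m a ≤ M) →
      gdim r d (Sum.elim m fun _ : Fin (ell r M - 1) => M) ≠ 0 →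
      gdim r d m + ∑ a, ell r (m a) = (d + r).choose r) ?_ ?_ ?_ κ
  · intro α β inst1 e ih m hm hne
    let _ : Fintype α := Fintype.ofEquiv β e.symm
    have h1 := ih (fun a => m (e a)) (fun a => hm _) (by
      intro h0
      apply hne
      have h2 := gdim_le_comp r d (Sum.map e id : α ⊕ Fin (ell r M - 1) → β ⊕ Fin (ell r M - 1))
        (Function.Injective.sumMap e.injective Function.injective_id)
        (Sum.elim m fun _ : Fin (ell r M - 1) => M)
      have h3 : (fun i => Sum.elim m (fun _ : Fin (ell r M - 1) => M)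
          ((Sum.map e id : α ⊕ Fin (ell r M - 1) → β ⊕ Fin (ell r M - 1)) i)) =
          Sum.elim (fun a => m (e a)) fun _ : Fin (ell r M - 1) => M := by
        funext i
        rcases i with i | i <;> rfl
      rw [h3, h0] at h2
      omega)
    rw [gdim_comp_equiv r d e m] at h1
    rw [← h1]
    congr 1
    exact (Fintype.sum_equiv e _ _ fun a => rfl).symm
  · intro m _ _
    rw [gdim_isEmpty, Fintype.sum_empty, Nat.add_zero]
  · intro α inst1 ih m hm hne
    classical
    have hcomp : ∀ e : ℕ, e ≤ ell r M - 1 →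
        gdim r d (Sum.elim (fun a => m (some a)) fun _ : Fin e => M) ≠ 0 := by
      intro e he h0
      apply hne
      have h2 := gdim_le_comp r d
        (Sum.map some (Fin.castLE he) : α ⊕ Fin e → Option α ⊕ Fin (ell r M - 1))
        (Function.Injective.sumMap (Option.some_injective α) (Fin.castLE_injective he))
        (Sum.elim m fun _ : Fin (ell r M - 1) => M)
      have h3 : (fun i => Sum.elim m (fun _ : Fin (ell r M - 1) => M)
          ((Sum.map some (Fin.castLE he) : α ⊕ Fin e → Option α ⊕ Fin (ell r M - 1)) i)) =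
          Sum.elim (fun a => m (some a)) fun _ : Fin e => M := by
        funext i
        rcases i with i | i <;> rfl
      rw [h3, h0] at h2
      omega
    have h1 := ih (fun a => m (some a)) (fun a => hm _) (hcomp _ le_rfl)
    have hle : ell r (m none) ≤ ell r M := ell_mono r (hm none)
    have h2 := decouple r d hr (fun a => m (some a)) (m none) M (fun a => hm _) (hm none)
      ((hm none).trans hMd) (hcomp _ (by omega))
    have h3 : gdim r d (Sum.elim (fun a => m (some a)) fun _ : Unit => m none) = gdim r d m := by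
      rw [← gdim_comp_equiv r d (Equiv.optionEquivSumPUnit.{0, 0} α).symm m]
      congr 1
      funext i
      rcases i with i | i <;> rfl
    rw [h3] at h2
    rw [Fintype.sum_option]
    omega

end Pool.Agent.H74.SC.WinD

end

section

/-!
# The critical degree `d = 2 M - 1`: from the critical density to all tuples

`Crit M`: in degree `2 M - 1` and for `r` large the dimension is the expected one if the `M`-fold
points carry between `(1 - ε) N` and `(1 + ε) N` conditions and the others at most `ε N`,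
`N = binom(2 M - 1 + r, r)`.  Then this holds for all tuples with multiplicities at most `M`.
-/

namespace Pool.Agent.H74.V7

open Finset MvPolynomial Pool.Agent.H18.Fat Pool.Agent.H18.Ex Pool.Agent.H21.NX Pool.Agent.H74.SC.WinD Pool.Agent.H21.NX.GenBX

/-- The assertion near the critical density. -/
def Crit (M : ℕ) : Prop :=
  ∃ ε : ℝ, 0 < ε ∧ ∃ r₀ : ℕ, ∀ r, r₀ ≤ r → ∀ (k : ℕ) (m : Fin k → ℕ), (∀ i, 1 ≤ m i ∧ m i ≤ M) →
    |(((univ.filter fun i => m i = M).card * ell r M : ℕ) : ℝ) - ((2 * M - 1 + r).choose r : ℝ)| ≤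
      ε * ((2 * M - 1 + r).choose r : ℝ) →
    ((∑ i ∈ univ.filter fun i => m i < M, ell r (m i) : ℕ) : ℝ) ≤
      ε * ((2 * M - 1 + r).choose r : ℝ) →
    gdim r (2 * M - 1) m = (2 * M - 1 + r).choose r - ∑ i, ell r (m i)

theorem le_gdim (r d : ℕ) (hr : 1 ≤ r) {κ : Type} [Fintype κ] (m : κ → ℕ) :
    (d + r).choose r ≤ gdim r d m + ∑ i, ell r (m i) := by
  have h1 := le_gdim_elim r d hr (fun i : Fin 0 => i.elim0) m
  rw [gdim_empty] at h1
  have h2 := gdim_comp_equiv r d (Equiv.emptySum (Fin 0) κ).symm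
    (Sum.elim (fun i : Fin 0 => i.elim0) m)
  have h3 : (fun i => Sum.elim (fun i : Fin 0 => i.elim0) m
      ((Equiv.emptySum (Fin 0) κ).symm i)) = m := by
    funext i
    rfl
  rw [h3] at h2
  omega

theorem max_of_gdim (r d : ℕ) {k : ℕ} (m : Fin k → ℕ)
    (h : gdim r d m = (d + r).choose r - ∑ i, ell r (m i)) :
    ForGeneralPoints r k fun p => ImposesMaximalConditions r d p m := by
  have hg : Gen r (Fin k) fun p => ImposesMaximalConditions r d p m := by
    refine (gen_gdim r d m).mono fun p hp => ?_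
    unfold ImposesMaximalConditions
    rw [hp, h]
    have e1 : (((∑ i, ell r (m i) : ℕ)) : ℤ) = ∑ i, (((m i + r - 1).choose r : ℕ) : ℤ) := by
      rw [Nat.cast_sum]
      rfl
    rw [← e1]
    omega
  exact hg

/-- The dimension of a subfamily is zero: the dimension is zero. -/
theorem gdim_zero_of_sub (r d : ℕ) {k : ℕ} (m : Fin k → ℕ) (S : Finset (Fin k))
    (h : gdim r d (fun i : Fin S.card => m (S.equivFin.symm i)) = 0) : gdim r d m = 0 := by
  have h1 := gdim_le_comp r d (fun i : Fin S.card => ((S.equivFin.symm i : S) : Fin k))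
    (fun a b hab => S.equivFin.symm.injective (Subtype.ext hab)) m
  omega

theorem sum_sub {k : ℕ} (S : Finset (Fin k)) (f : Fin k → ℕ) :
    ∑ i : Fin S.card, f (S.equivFin.symm i) = ∑ i ∈ S, f i := by
  rw [Equiv.sum_comp S.equivFin.symm fun i : S => f i]
  exact Finset.sum_coe_sort S f

theorem sum_filter_sub {k : ℕ} (S : Finset (Fin k)) (P : Fin k → Prop) [DecidablePred P]
    (f : Fin k → ℕ) :
    ∑ i ∈ univ.filter (fun i : Fin S.card => P (S.equivFin.symm i)), f (S.equivFin.symm i) =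
      ∑ i ∈ S.filter P, f i := by
  rw [Finset.sum_filter, Finset.sum_filter]
  exact sum_sub S fun i => if P i then f i else 0

theorem card_filter_sub {k : ℕ} (S : Finset (Fin k)) (P : Fin k → Prop) [DecidablePred P] :
    (univ.filter (fun i : Fin S.card => P (S.equivFin.symm i))).card = (S.filter P).card := by
  rw [Finset.card_eq_sum_ones (S.filter P), ← sum_filter_sub S P fun _ => 1]
  exact Finset.card_eq_sum_ones _

theorem exists_sub_sum {ι : Type} [DecidableEq ι] (f : ι → ℕ) (ℓ : ℕ) (t : ℝ) (ht : 0 ≤ t)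
    (U : Finset ι) : (∀ i ∈ U, f i ≤ ℓ) → t < ((∑ i ∈ U, f i : ℕ) : ℝ) →
    ∃ T ⊆ U, ((∑ i ∈ T, f i : ℕ) : ℝ) ≤ t ∧ t < ((∑ i ∈ T, f i : ℕ) : ℝ) + ℓ := by
  induction U using Finset.induction_on with
  | empty =>
    intro _ h
    rw [Finset.sum_empty, Nat.cast_zero] at h
    linarith
  | insert a s ha ih =>
    intro hf h
    by_cases h1 : t < ((∑ i ∈ s, f i : ℕ) : ℝ)
    · obtain ⟨T, hT, h2, h3⟩ := ih (fun i hi => hf i (Finset.mem_insert_of_mem hi)) h1
      exact ⟨T, hT.trans (Finset.subset_insert _ _), h2, h3⟩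
    · refine ⟨s, Finset.subset_insert _ _, not_lt.1 h1, lt_of_lt_of_le h ?_⟩
      rw [Finset.sum_insert ha, Nat.cast_add, add_comm]
      have : ((f a : ℕ) : ℝ) ≤ ℓ := by exact_mod_cast hf a (Finset.mem_insert_self _ _)
      linarith

/-- One point carries a small share of the conditions. -/
theorem ell_small (M : ℕ) (hM : 1 ≤ M) (ε : ℝ) (hε : 0 < ε) : ∃ r₀ : ℕ, ∀ r, r₀ ≤ r →
    ((ell r M : ℕ) : ℝ) ≤ ε * ((2 * M - 1 + r).choose r : ℝ) := by
  obtain ⟨R, hR⟩ := exists_nat_ge ((2 ^ (M - 1) * (2 * M) ^ (2 * M) : ℝ) / ε)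
  refine ⟨R + M + 1, fun r hr => ?_⟩
  have h1 := ell_le_pow r M hM (by omega)
  have h2 := pow_le_ell r (2 * M) (by omega)
  have h3 : ell r (2 * M) = (2 * M - 1 + r).choose r := by
    unfold ell
    rw [show 2 * M + r - 1 = 2 * M - 1 + r by omega]
  rw [h3] at h2
  have hr1 : (1 : ℝ) ≤ r := by exact_mod_cast (show 1 ≤ r by omega)
  have h4 : (2 ^ (M - 1) * (2 * M) ^ (2 * M) : ℝ) ≤ ε * r := by
    rw [div_le_iff₀ hε] at hR
    have : (R : ℝ) ≤ r := by exact_mod_cast (show R ≤ r by omega)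
    nlinarith
  have h5 : (ell r M : ℝ) ≤ (2 * r) ^ (M - 1) := by exact_mod_cast h1
  have h6 : (r : ℝ) ^ (2 * M - 1) ≤ (2 * M) ^ (2 * M) * ((2 * M - 1 + r).choose r : ℝ) := by
    exact_mod_cast h2
  have h7 : (r : ℝ) ≤ r ^ M := by
    calc (r : ℝ) = r ^ 1 := (pow_one _).symm
      _ ≤ r ^ M := pow_le_pow_right₀ hr1 hM
  have hN : (0 : ℝ) ≤ ((2 * M - 1 + r).choose r : ℝ) := Nat.cast_nonneg _
  have hrpos : (0 : ℝ) < (r : ℝ) ^ M := by positivity
  refine le_of_mul_le_mul_right ?_ hrpos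
  calc (ell r M : ℝ) * r ^ M ≤ (2 * r) ^ (M - 1) * r ^ M :=
        mul_le_mul_of_nonneg_right h5 hrpos.le
    _ = 2 ^ (M - 1) * r ^ (2 * M - 1) := by
      rw [mul_pow, mul_assoc, ← pow_add]
      congr 2
      omega
    _ ≤ 2 ^ (M - 1) * ((2 * M) ^ (2 * M) * ((2 * M - 1 + r).choose r : ℝ)) :=
        mul_le_mul_of_nonneg_left h6 (by positivity)
    _ = (2 ^ (M - 1) * (2 * M) ^ (2 * M)) * ((2 * M - 1 + r).choose r : ℝ) := by ring
    _ ≤ (ε * r) * ((2 * M - 1 + r).choose r : ℝ) := mul_le_mul_of_nonneg_right h4 hN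
    _ ≤ (ε * r ^ M) * ((2 * M - 1 + r).choose r : ℝ) :=
        mul_le_mul_of_nonneg_right (mul_le_mul_of_nonneg_left h7 hε.le) hN
    _ = ε * ((2 * M - 1 + r).choose r : ℝ) * r ^ M := by ring

end Pool.Agent.H74.V7

end

section

/-!
# V7, block ALPHA, the chain: the numbers

Trace and residual of the configurations of the chain.
-/

set_option autoImplicit false

namespace Pool.Agent.V7

open Finset Pool.Agent.H51.TB Pool.Agent.V7.ST

/-- The index set of a kind. -/
def Kd.ix : Kd → Finset ℕ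
  | .ord _ I => I
  | .sw _ I => I

/-- The kind without the subspace `L_l`. -/
def Kd.del (l : ℕ) : Kd → Kd
  | .ord μ I => .ord μ (I.erase l)
  | .sw i I => .sw i (I.erase l)

theorem nmb_pos {M c j l ν : ℕ} {k : Kd} (h : k ∈ kds M l) (h' : k.In M j) (h'' : l ≤ dgr M k) :
    nmb M c j l ν k = rho M c k * (ν - (l - j)).choose (dgr M k - l) := if_pos ⟨h, h', h''⟩

theorem nmb_neg {M c j l ν : ℕ} {k : Kd} (h : ¬ (k ∈ kds M l ∧ k.In M j ∧ l ≤ dgr M k)) :
    nmb M c j l ν k = 0 := if_neg h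

theorem nmb_of_not {M c j l ν : ℕ} {k : Kd} (h : k ∉ kds M l) : nmb M c j l ν k = 0 :=
  if_neg fun h1 => h h1.1

theorem count_cfg (M c j l ν : ℕ) (k : Kd) : (cfg M c j l ν).count k = nmb M c j l ν k := by
  unfold cfg
  rw [Multiset.count_sum']
  simp only [Multiset.count_replicate]
  rw [Finset.sum_ite_eq']
  split_ifs with h
  · rfl
  · exact (nmb_of_not h).symm

theorem mem_cfg {M c j l ν : ℕ} {k : Kd} (h : k ∈ cfg M c j l ν) :
    k.Ok M l ∧ k.In M j ∧ l ≤ dgr M k := by
  have h1 := Multiset.count_pos.2 h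
  rw [count_cfg] at h1
  unfold nmb at h1
  split_ifs at h1 with h2
  · exact ⟨mem_kds.1 h2.1, h2.2.1, h2.2.2⟩
  · exact absurd h1 (lt_irrefl 0)

theorem notMem_ix {M l : ℕ} {k : Kd} (h : k ∈ kds M l) : l ∉ k.ix := by
  rw [mem_kds] at h
  cases k with
  | ord μ I =>
    intro h1
    exact absurd (mem_range.1 (h.2.2 h1)) (lt_irrefl l)
  | sw i I =>
    intro h1
    exact absurd (mem_Ico.1 (h.2 h1)).2 (lt_irrefl l)

theorem add_eq_iff {M l : ℕ} {k k' : Kd} (h : k' ∈ kds M l) :
    k'.add l = k ↔ l ∈ k.ix ∧ k' = k.del l := by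
  have h1 := notMem_ix h
  constructor
  · rintro rfl
    cases k' with
    | ord μ I => exact ⟨mem_insert_self _ _, by
        show Kd.ord μ I = Kd.ord μ ((insert l I).erase l)
        rw [erase_insert (show l ∉ I from h1)]⟩
    | sw i I => exact ⟨mem_insert_self _ _, by
        show Kd.sw i I = Kd.sw i ((insert l I).erase l)
        rw [erase_insert (show l ∉ I from h1)]⟩
  · rintro ⟨h2, rfl⟩
    cases k with
    | ord μ I =>
      show Kd.ord μ (insert l (I.erase l)) = Kd.ord μ I
      rw [insert_erase (show l ∈ I from h2)]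
    | sw i I =>
      show Kd.sw i (insert l (I.erase l)) = Kd.sw i I
      rw [insert_erase (show l ∈ I from h2)]

theorem mem_kds_del {M l : ℕ} {k : Kd} (h : l ∈ k.ix) : k ∈ kds M (l + 1) ↔ k.del l ∈ kds M l := by
  rw [mem_kds, mem_kds]
  cases k with
  | ord μ I =>
    show (1 ≤ μ ∧ μ ≤ M ∧ I ⊆ range (l + 1)) ↔ (1 ≤ μ ∧ μ ≤ M ∧ I.erase l ⊆ range l)
    refine and_congr_right fun _ => and_congr_right fun _ => ?_
    constructor
    · intro h1 x hx
      rw [mem_erase] at hx
      have h2 := mem_range.1 (h1 hx.2)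
      rw [mem_range]
      omega
    · intro h1 x hx
      by_cases hx' : x = l
      · rw [hx', mem_range]
        omega
      · have h2 := mem_range.1 (h1 (mem_erase.2 ⟨hx', hx⟩))
        rw [mem_range]
        omega
  | sw i I =>
    show (i < l + 1 ∧ I ⊆ Ico (i + 1) (l + 1)) ↔ (i < l ∧ I.erase l ⊆ Ico (i + 1) l)
    constructor
    · rintro ⟨_, h1⟩
      have h3 := (mem_Ico.1 (h1 h)).1
      refine ⟨by omega, fun x hx => ?_⟩
      rw [mem_erase] at hx
      have h2 := mem_Ico.1 (h1 hx.2)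
      rw [mem_Ico]
      omega
    · rintro ⟨h0, h1⟩
      refine ⟨by omega, fun x hx => ?_⟩
      by_cases hx' : x = l
      · rw [hx', mem_Ico]
        omega
      · have h2 := mem_Ico.1 (h1 (mem_erase.2 ⟨hx', hx⟩))
        rw [mem_Ico]
        omega

theorem mem_kds_off {M j l : ℕ} {k : Kd} (hjl : j ≤ l) (hk : k.In M j) (h : l ∉ k.ix) :
    k ∈ kds M (l + 1) ↔ k ∈ kds M l := by
  rw [mem_kds, mem_kds]
  cases k with
  | ord μ I =>
    show (1 ≤ μ ∧ μ ≤ M ∧ I ⊆ range (l + 1)) ↔ (1 ≤ μ ∧ μ ≤ M ∧ I ⊆ range l)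
    refine and_congr_right fun _ => and_congr_right fun _ => ?_
    constructor
    · intro h1 x hx
      have h2 := mem_range.1 (h1 hx)
      have h3 : x ≠ l := fun h4 => h (h4 ▸ hx)
      rw [mem_range]
      omega
    · intro h1 x hx
      have h2 := mem_range.1 (h1 hx)
      rw [mem_range]
      omega
  | sw i I =>
    show (i < l + 1 ∧ I ⊆ Ico (i + 1) (l + 1)) ↔ (i < l ∧ I ⊆ Ico (i + 1) l)
    have h0 : i < j := hk
    constructor
    · rintro ⟨_, h1⟩
      refine ⟨by omega, fun x hx => ?_⟩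
      have h2 := mem_Ico.1 (h1 hx)
      have h3 : x ≠ l := fun h4 => h (h4 ▸ hx)
      rw [mem_Ico]
      omega
    · rintro ⟨_, h1⟩
      refine ⟨by omega, fun x hx => ?_⟩
      have h2 := mem_Ico.1 (h1 hx)
      rw [mem_Ico]
      omega

theorem In_del {M j l : ℕ} (hjl : j ≤ l) {k : Kd} : (k.del l).In M j ↔ k.In M j := by
  cases k with
  | ord μ I =>
    show (μ = M → ¬ range j ⊆ I.erase l) ↔ (μ = M → ¬ range j ⊆ I)
    refine imp_congr_right fun _ => not_congr ?_
    rw [subset_erase]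
    constructor
    · exact fun h => h.1
    · exact fun h => ⟨h, by rw [mem_range]; omega⟩
  | sw i I => exact Iff.rfl

theorem dgr_del {M l : ℕ} {k : Kd} (h : l ∈ k.ix) : dgr M (k.del l) + 1 = dgr M k := by
  cases k with
  | ord μ I =>
    have h1 : (I.erase l).card + 1 = I.card := card_erase_add_one h
    show 2 * M - μ + (I.erase l).card + 1 = 2 * M - μ + I.card
    omega
  | sw i I =>
    have h1 : (I.erase l).card + 1 = I.card := card_erase_add_one h
    show M + (I.erase l).card + 1 = M + I.card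
    omega

theorem rho_del {M c l : ℕ} {k : Kd} : rho M c (k.del l) = rho M c k := by
  cases k <;> rfl

theorem nmb_add {M c j l ν : ℕ} {k : Kd} (hjl : j ≤ l) (h : l ∈ k.ix) :
    nmb M c j (l + 1) (ν + 1) k = nmb M c j l ν (k.del l) := by
  have h1 := dgr_del (M := M) h
  have h4 := mem_kds_del (M := M) h
  have h5 := In_del (M := M) hjl (k := k)
  by_cases h2 : k.del l ∈ kds M l ∧ (k.del l).In M j ∧ l ≤ dgr M (k.del l)
  · rw [nmb_pos (h4.2 h2.1) (h5.1 h2.2.1) (by omega), nmb_pos h2.1 h2.2.1 h2.2.2, rho_del]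
    congr 2
    · omega
    · omega
  · rw [nmb_neg h2, nmb_neg fun h3 => h2 ⟨h4.1 h3.1, h5.2 h3.2.1, by omega⟩]

theorem nmb_off {M c j l ν : ℕ} {k : Kd} (hjl : j ≤ l) (hν : l ≤ ν + j) (h : l ∉ k.ix) :
    nmb M c j (l + 1) (ν + 1) k + nmb M c j l ν k = nmb M c j l (ν + 1) k := by
  by_cases h0 : k.In M j
  · have h6 := mem_kds_off hjl h0 h
    by_cases h1 : k ∈ kds M l
    · have e1 : ν + 1 - (l - j) = (ν - (l - j)) + 1 := by omega
      have e2 : ν + 1 - (l + 1 - j) = ν - (l - j) := by omega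
      rcases Nat.lt_trichotomy (dgr M k) l with h2 | h2 | h2
      · rw [nmb_neg fun h3 => absurd h3.2.2 (by omega), nmb_neg fun h3 => absurd h3.2.2 (by omega),
          nmb_neg fun h3 => absurd h3.2.2 (by omega)]
      · rw [nmb_neg fun h3 => absurd h3.2.2 (by omega), nmb_pos h1 h0 (by omega),
          nmb_pos h1 h0 (by omega), h2, Nat.sub_self, Nat.choose_zero_right,
          Nat.choose_zero_right, zero_add]
      · rw [nmb_pos (h6.2 h1) h0 (by omega), nmb_pos h1 h0 (by omega), nmb_pos h1 h0 (by omega),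
          e1, e2]
        have e3 : dgr M k - l = (dgr M k - (l + 1)) + 1 := by omega
        rw [e3, Nat.choose_succ_succ, mul_add]
    · rw [nmb_neg fun h3 => h1 (h6.1 h3.1), nmb_neg fun h3 => h1 h3.1, nmb_neg fun h3 => h1 h3.1]
  · rw [nmb_neg fun h3 => h0 h3.2.1, nmb_neg fun h3 => h0 h3.2.1, nmb_neg fun h3 => h0 h3.2.1]

theorem nmb_mono {M c j l ν : ℕ} {k : Kd} : nmb M c j l ν k ≤ nmb M c j l (ν + 1) k := by
  unfold nmb
  split_ifs
  · exact Nat.mul_le_mul_left _ (Nat.choose_le_choose _ (by omega))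
  · exact le_rfl

theorem cfg_mono {M c j l ν : ℕ} : cfg M c j l ν ≤ cfg M c j l (ν + 1) := by
  rw [Multiset.le_iff_count]
  intro k
  rw [count_cfg, count_cfg]
  exact nmb_mono

/-- Trace and residual of a configuration of the chain. -/
theorem cfg_step {M c j l ν : ℕ} (hjl : j ≤ l) (hν : l ≤ ν + j) :
    (cfg M c j l ν).map (Kd.add l) + (cfg M c j l (ν + 1) - cfg M c j l ν) =
      cfg M c j (l + 1) (ν + 1) := by
  rw [Multiset.ext]
  intro k
  rw [Multiset.count_add, Multiset.count_sub, count_cfg, count_cfg, count_cfg]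
  have h1 : ((cfg M c j l ν).map (Kd.add l)).count k =
      if l ∈ k.ix then nmb M c j l ν (k.del l) else 0 := by
    unfold cfg
    have e : (∑ k ∈ kds M l, Multiset.replicate (nmb M c j l ν k) k).map (Kd.add l) =
        ∑ k ∈ kds M l, (Multiset.replicate (nmb M c j l ν k) k).map (Kd.add l) :=
      map_sum (Multiset.mapAddMonoidHom (Kd.add l)) _ _
    rw [e, Multiset.count_sum']
    simp only [Multiset.map_replicate, Multiset.count_replicate]
    split_ifs with h2
    · rw [Finset.sum_eq_single (k.del l)]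
      · split_ifs with h3
        · rfl
        · by_cases h4 : k.del l ∈ kds M l
          · exact absurd ((add_eq_iff h4).2 ⟨h2, rfl⟩) h3
          · exact (nmb_of_not h4).symm
      · intro k' hk' hne
        exact if_neg fun h3 => hne ((add_eq_iff hk').1 h3).2
      · intro h4
        rw [nmb_of_not h4]
        exact ite_self 0
    · refine Finset.sum_eq_zero fun k' hk' => if_neg fun h3 => h2 ((add_eq_iff hk').1 h3).1
  rw [h1]
  split_ifs with h2
  · have h3 : ∀ ν', nmb M c j l ν' k = 0 := fun ν' => nmb_of_not fun h4 => notMem_ix h4 h2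
    rw [nmb_add hjl h2, h3, h3]
    omega
  · have h3 := nmb_off (M := M) (c := c) hjl hν h2
    omega

end Pool.Agent.V7

end
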