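import Pool.Agent.H94.LP5.M03
import Pool.Agent.H94.LP5.M05
import Pool.Agent.H94.LP5.M13

/-! The parts of this file: H18.Ex.Conv, H18.Ex.Box, H18.Ex.Iter, H21.NX.UAll, V7.ST.Abs. -/

section

/-!
# Module Conv: preparation of configurations, conversion of multiple points
-/

namespace Pool.Agent.H18.Ex

open Finset

/-- Drop superfluous points. -/
theorem exists_drop (g : ℕ → ℕ) (L a : ℕ) : ∀ (G : Multiset ℕ), (∀ m ∈ G, g m ≤ L) →
    a ≤ (G.map g).sum →
    ∃ G₁ ≤ G, a ≤ (G₁.map g).sum ∧ (G₁.map g).sum ≤ a + L ∧ ∀ m ∈ G₁, 0 < g m := by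
  intro G
  induction G using Multiset.strongInductionOn with
  | ih G ih =>
    intro hG ha
    by_cases h : ∃ m ∈ G, a ≤ ((G.erase m).map g).sum
    · obtain ⟨m, hm, h⟩ := h
      obtain ⟨G₁, h1, h2⟩ := ih (G.erase m) (Multiset.erase_lt.2 hm)
        (fun x hx => hG x (Multiset.mem_of_mem_erase hx)) h
      exact ⟨G₁, h1.trans (Multiset.erase_le _ _), h2⟩
    · push Not at h
      rcases Multiset.empty_or_exists_mem G with h0 | ⟨m, hm⟩
      · subst h0
        exact ⟨0, le_rfl, ha, by simp, by simp⟩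
      · have key : ∀ m ∈ G, g m + ((G.erase m).map g).sum = (G.map g).sum := by
          intro m hm
          rw [← Multiset.sum_cons, ← Multiset.map_cons, Multiset.cons_erase hm]
        refine ⟨G, le_rfl, ha, ?_, ?_⟩
        · have h1 := key m hm
          have h2 := h m hm
          have h3 := hG m hm
          omega
        · intro x hx
          have h1 := key x hx
          have h2 := h x hx
          omega

section

variable {ι : Type} [Fintype ι] [DecidableEq ι]

/-- The configuration of a multiset of free points. -/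
def cfg0 (ι : Type) (G : Multiset ℕ) : Cfg ι where
  N := G.filter fun m => 2 ≤ m
  s := G.count 1
  Φ := fun _ => 0

omit [DecidableEq ι] in
theorem cfg0_kinds (G : Multiset ℕ) (hG : ∀ m ∈ G, 1 ≤ m) :
    (cfg0 ι G).kinds = G.map (Kind.free : ℕ → Kind ι) := by
  classical
  unfold Cfg.kinds cfg0
  simp only [Multiset.map_zero, sum_const_zero, add_zero]
  have h1 : G = G.filter (fun m => 2 ≤ m) + Multiset.replicate (G.count 1) 1 := by
    ext a
    rw [Multiset.count_add, Multiset.count_replicate, Multiset.count_filter]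
    by_cases ha : 2 ≤ a
    · rw [if_pos ha, if_neg (by omega), add_zero]
    · rw [if_neg ha]
      by_cases h1 : a = 1
      · subst h1
        simp
      · rw [if_neg (by omega), Multiset.count_eq_zero_of_notMem]
        intro h
        have := hG a h
        omega
  conv_rhs => rw [h1, Multiset.map_add, Multiset.map_replicate]

omit [DecidableEq ι] in
theorem cfg0_sz (n : ℕ) (G : Multiset ℕ) (hG : ∀ m ∈ G, 1 ≤ m) :
    (cfg0 ι G).sz n = (G.map (ell (n + 1))).sum ∧ (cfg0 ι G).nsz n = (G.map (ell (n + 1))).sum := by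
  classical
  have h0 : (cfg0 ι G).nsz n = (G.map (ell (n + 1))).sum := by
    unfold Cfg.nsz cfg0
    have h1 : G = G.filter (fun m => 2 ≤ m) + Multiset.replicate (G.count 1) 1 := by
      ext a
      rw [Multiset.count_add, Multiset.count_replicate, Multiset.count_filter]
      by_cases ha : 2 ≤ a
      · rw [if_pos ha, if_neg (by omega), add_zero]
      · rw [if_neg ha]
        by_cases h1 : a = 1
        · subst h1
          simp
        · rw [if_neg (by omega), Multiset.count_eq_zero_of_notMem]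
          intro h
          have := hG a h
          omega
    conv_rhs => rw [h1, Multiset.map_add, Multiset.map_replicate, Multiset.sum_add,
      Multiset.sum_replicate, ell_one, smul_eq_mul, mul_one]
  refine ⟨?_, h0⟩
  unfold Cfg.sz
  rw [h0]
  simp [Cfg.fl, cfg0]

theorem cfg0_OK (M : ℕ) (G : Multiset ℕ) (hG : ∀ m ∈ G, m ≤ M) : (cfg0 ι G).OK M := by
  refine ⟨?_, ?_⟩
  · intro m hm
    rw [cfg0, Multiset.mem_filter] at hm
    exact ⟨hm.2, hG m hm.1⟩
  · intro l x hx
    simp [cfg0] at hx

end

end Pool.Agent.H18.Ex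

end

section

/-!
# Module Box: lower and upper bounds by boxes
-/

namespace Pool.Agent.H18.Ex

open Finset

variable {ι : Type} [Fintype ι] [DecidableEq ι]

/-- Upper bound: `x` is determined by its coordinates `≠ o`. -/
theorem card_le_prod (o : ι) (σ : ℕ) (w : ι → ℕ) :
    (Rg σ w).card ≤ ∏ i ∈ univ.erase o, (min (w i) σ + 1) := by
  have h1 : (Rg σ w).card ≤ (Fintype.piFinset fun i =>
      if i = o then ({0} : Finset ℕ) else range (min (w i) σ + 1)).card := by
    refine card_le_card_of_injOn (fun x => Function.update x o 0) ?_ ?_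
    · intro x hx
      rw [mem_coe, mem_Rg] at hx
      obtain ⟨hx1, hx2⟩ := hx
      rw [mem_coe, Fintype.mem_piFinset]
      intro i
      show Function.update x o 0 i ∈ _
      by_cases hi : i = o
      · rw [if_pos hi, hi, Function.update_self]
        simp
      · rw [if_neg hi, Function.update_of_ne hi, mem_range]
        have h2 := hx1 i
        have h3 : x i ≤ ∑ j, x j := single_le_sum (f := x) (fun _ _ => Nat.zero_le _) (mem_univ i)
        rw [hx2] at h3
        have := le_min h2 h3
        omega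
    · intro x hx y hy hxy
      rw [mem_coe, mem_Rg] at hx hy
      have hne : ∀ i, i ≠ o → x i = y i := by
        intro i hi
        have := congrFun hxy i
        simp only [Function.update_of_ne hi] at this
        exact this
      funext i
      by_cases hi : i = o
      · have e1 : ∑ j, x j = x o + ∑ j ∈ univ.erase o, x j := (add_sum_erase _ _ (mem_univ o)).symm
        have e2 : ∑ j, y j = y o + ∑ j ∈ univ.erase o, y j := (add_sum_erase _ _ (mem_univ o)).symm
        have e3 : ∑ j ∈ univ.erase o, x j = ∑ j ∈ univ.erase o, y j :=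
          sum_congr rfl fun j hj => hne j (mem_erase.1 hj).1
        have h2 := hx.2
        have h3 := hy.2
        rw [hi]
        omega
      · exact hne i hi
  rw [Fintype.card_piFinset] at h1
  refine h1.trans (le_of_eq ?_)
  rw [← mul_prod_erase univ _ (mem_univ o), if_pos rfl, card_singleton, one_mul]
  refine prod_congr rfl fun i hi => ?_
  rw [if_neg (mem_erase.1 hi).1, card_range]

/-- Lower bound for a facet of a normalised region of dimension `N ≥ 2`.

Proof.  Let `Q` be the set of the active `i ≠ o, l` (`N - 1` elements), `b i = w i / N` for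
`i ∈ Q`, `S' = ∑_Q w`, `A = σ - w o` (truncated).  Then `∑_Q b ≤ S' / N`, and
`A + ∑_Q b ≤ σ` (if `σ ≤ w o`: `∑_Q b ≤ S'/N ≤ (N-1) σ / N`; otherwise `∑_Q b ≤ (N-1) w o / N`), and
`A ≤ ∑_Q (w - b)` (if `σ > w o`: `S' - (σ - w o) = (∑ w - σ) - w l ≥ (∑ w) / 2 - w l
= (S' + w o - w l) / 2 ≥ S'/2 ≥ ∑_Q b`).  Choose `a i ≤ w i - b i` (`i ∈ Q`) with `∑_Q a = A`.
For `y i ≤ b i` (`i ∈ Q`) the vector with entries `a i + y i` (`i ∈ Q`), `0` at `l` and
`σ - ∑_Q (a + y) ∈ [0, w o]` at `o` lies in the facet.  This gives `∏_Q (b i + 1)` exponents, and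
`N (b i + 1) ≥ w i`. -/
theorem box_lower (N : ℕ) (hN : 2 ≤ N) (D : ℕ) (o l : ι) (σ : ℕ) (w : ι → ℕ)
    (h : Nrm N D o σ w) (hl : l ≠ o) (hwl : 0 < w l) :
    ∏ i ∈ univ.filter (fun i => 0 < w i ∧ i ≠ o ∧ i ≠ l), w i ≤ N ^ (N - 1) * fc σ w l := by
  set Q := univ.filter (fun i => 0 < w i ∧ i ≠ o ∧ i ≠ l) with hQ
  have hwoσ : w o ≤ σ := h.hwσ o
  have hQeq : Q = ((univ.filter fun i => 0 < w i).erase o).erase l := by
    ext i
    simp only [hQ, mem_filter, mem_univ, true_and, mem_erase]
    tauto
  have hlmem : l ∈ (univ.filter fun i => 0 < w i).erase o := by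
    simp only [mem_filter, mem_univ, true_and, mem_erase]
    exact ⟨hl, hwl⟩
  have homem : o ∈ univ.filter fun i => 0 < w i := by
    simp only [mem_filter, mem_univ, true_and]
    exact h.ho
  have hQcard : Q.card = N - 1 := by
    rw [hQeq, card_erase_of_mem hlmem, card_erase_of_mem homem, h.hcard]
    omega
  have hoQ : o ∉ Q := by simp [hQ]
  have hlQ : l ∉ Q := by simp [hQ]
  set b : ι → ℕ := fun i => w i / N with hb
  set S' := ∑ i ∈ Q, w i with hS'
  have hsumw : ∑ i, w i = w o + (w l + S') := by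
    have e1 : ∑ i, w i = ∑ i ∈ univ.filter (fun i => 0 < w i), w i := by
      symm
      refine sum_subset (filter_subset _ _) fun j _ hj => ?_
      simp only [mem_filter, mem_univ, true_and, not_lt, Nat.le_zero] at hj
      exact hj
    rw [e1, hS', hQeq, add_sum_erase _ _ hlmem, add_sum_erase _ _ homem]
  have hb2 : ∀ i, 2 * b i ≤ w i := by
    intro i
    have h1 : N * b i ≤ w i := Nat.mul_div_le (w i) N
    have h2 : 2 * b i ≤ N * b i := Nat.mul_le_mul_right _ hN
    omega
  have hsumb : 2 * ∑ i ∈ Q, b i ≤ S' := by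
    rw [mul_sum]
    exact sum_le_sum fun i _ => hb2 i
  have hsumbo : ∑ i ∈ Q, b i ≤ w o := by
    have h1 : ∑ i ∈ Q, b i ≤ Q.card * (w o / N) := by
      rw [← smul_eq_mul]
      exact sum_le_card_nsmul Q b _ fun i _ => Nat.div_le_div_right (h.hwo i)
    rw [hQcard] at h1
    have h2 : (N - 1) * (w o / N) ≤ N * (w o / N) := Nat.mul_le_mul_right _ (by omega)
    have h3 : N * (w o / N) ≤ w o := Nat.mul_div_le _ _
    omega
  set A := σ - w o with hA
  have hwlo := h.hwo l
  have h2σ := h.hσ
  have hA1 : 2 * A ≤ S' := by omega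
  set w' : ι → ℕ := fun i => if i ∈ Q then w i - b i else 0 with hw'
  have hAw : A ≤ ∑ i, w' i := by
    have e1 : ∑ i, w' i = ∑ i ∈ Q, (w i - b i) := by
      rw [hw', sum_ite_mem, univ_inter]
    have e2 : ∑ i ∈ Q, (w i - b i) + ∑ i ∈ Q, b i = S' := by
      rw [← sum_add_distrib, hS']
      refine sum_congr rfl fun i _ => ?_
      have := hb2 i
      omega
    rw [e1]
    omega
  obtain ⟨a, ha⟩ := Rg_nonempty A w' hAw
  rw [mem_Rg] at ha
  obtain ⟨ha1, ha2⟩ := ha
  have haQ : ∀ i, i ∉ Q → a i = 0 := by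
    intro i hi
    have := ha1 i
    simp only [hw', if_neg hi] at this
    omega
  have haQ' : ∀ i ∈ Q, a i + b i ≤ w i := by
    intro i hi
    have := ha1 i
    simp only [hw', if_pos hi] at this
    have := hb2 i
    omega
  have hbox : (Fintype.piFinset fun i => if i ∈ Q then range (b i + 1) else ({0} : Finset ℕ)).card ≤
      fc σ w l := by
    unfold fc
    refine card_le_card_of_injOn
      (fun y i => if i = o then σ - A - ∑ j, y j else a i + y i) ?_ ?_
    · intro y hy
      rw [mem_coe, Fintype.mem_piFinset] at hy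
      have hyQ : ∀ i, i ∉ Q → y i = 0 := by
        intro i hi
        have := hy i
        rw [if_neg hi, mem_singleton] at this
        exact this
      have hyQ' : ∀ i ∈ Q, y i ≤ b i := by
        intro i hi
        have := hy i
        rw [if_pos hi, mem_range] at this
        omega
      have hysum : ∑ j, y j = ∑ j ∈ Q, y j := by
        symm
        exact sum_subset (subset_univ _) fun j _ hj => hyQ j hj
      have hysle : ∑ j, y j ≤ w o := by
        rw [hysum]
        exact (sum_le_sum hyQ').trans hsumbo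
      rw [mem_coe, mem_Rg]
      constructor
      · intro i
        show (if i = o then σ - A - ∑ j, y j else a i + y i) ≤ Function.update w l 0 i
        by_cases hio : i = o
        · rw [if_pos hio, hio, Function.update_of_ne (Ne.symm hl)]
          omega
        · rw [if_neg hio]
          by_cases hil : i = l
          · rw [hil, haQ l hlQ, hyQ l hlQ]
            omega
          · rw [Function.update_of_ne hil]
            by_cases hiQ : i ∈ Q
            · have := haQ' i hiQ
              have := hyQ' i hiQ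
              omega
            · rw [haQ i hiQ, hyQ i hiQ]
              omega
      · have e1 : ∑ i, (if i = o then σ - A - ∑ j, y j else a i + y i) =
            (σ - A - ∑ j, y j) + ∑ i ∈ univ.erase o, (a i + y i) := by
          rw [← add_sum_erase univ _ (mem_univ o), if_pos rfl]
          congr 1
          exact sum_congr rfl fun i hi => by rw [if_neg (mem_erase.1 hi).1]
        have e2 : ∑ i ∈ univ.erase o, (a i + y i) = A + ∑ j, y j := by
          have e3 : ∑ i, (a i + y i) = (a o + y o) + ∑ i ∈ univ.erase o, (a i + y i) :=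
            (add_sum_erase _ _ (mem_univ o)).symm
          rw [haQ o hoQ, hyQ o hoQ, sum_add_distrib, ha2] at e3
          omega
        rw [e1, e2]
        omega
    · intro y hy z hz hyz
      rw [mem_coe, Fintype.mem_piFinset] at hy hz
      funext i
      by_cases hio : i = o
      · have h1 := hy i
        have h2 := hz i
        rw [hio, if_neg hoQ, mem_singleton] at h1 h2
        rw [hio, h1, h2]
      · have := congrFun hyz i
        simp only [if_neg hio] at this
        omega
  rw [Fintype.card_piFinset] at hbox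
  have hprod : ∏ i, (if i ∈ Q then range (b i + 1) else ({0} : Finset ℕ)).card =
      ∏ i ∈ Q, (b i + 1) := by
    rw [← prod_subset (subset_univ Q)]
    · exact prod_congr rfl fun i hi => by rw [if_pos hi, card_range]
    · intro i _ hi
      rw [if_neg hi, card_singleton]
  rw [hprod] at hbox
  calc ∏ i ∈ Q, w i ≤ ∏ i ∈ Q, N * (b i + 1) := by
        refine prod_le_prod (fun _ _ => Nat.zero_le _) fun i _ => ?_
        have := Nat.lt_mul_div_succ (w i) (show 0 < N by omega)
        exact this.le
    _ = N ^ (N - 1) * ∏ i ∈ Q, (b i + 1) := by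
        rw [prod_mul_distrib, prod_const, hQcard]
    _ ≤ N ^ (N - 1) * fc σ w l := Nat.mul_le_mul_left _ hbox

end Pool.Agent.H18.Ex

end

section

/-!
# Module Iter: the rounds, numerically

In one round `min (w i) σ / q` layers are peeled off in every direction `i ≠ o`.
-/

namespace Pool.Agent.H18.Ex

open Finset

variable {ι : Type} [Fintype ι] [DecidableEq ι]

/-- Number of layers peeled off in direction `i` in one round. -/
def rk (q : ℕ) (o : ι) (σ : ℕ) (w : ι → ℕ) : ι → ℕ :=
  fun i => if i = o then 0 else min (w i) σ / q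

/-- One round. -/
def rnd (q : ℕ) (o : ι) (p : ℕ × (ι → ℕ)) : ℕ × (ι → ℕ) :=
  (p.1 - ∑ i, rk q o p.1 p.2 i, fun i => p.2 i - rk q o p.1 p.2 i)

omit [Fintype ι] in
theorem rk_le_w (q : ℕ) (o : ι) (σ : ℕ) (w : ι → ℕ) (i : ι) : rk q o σ w i ≤ w i / q := by
  unfold rk
  split_ifs
  · exact Nat.zero_le _
  · exact Nat.div_le_div_right (min_le_left _ _)

omit [Fintype ι] in
theorem rk_le_σ (q : ℕ) (o : ι) (σ : ℕ) (w : ι → ℕ) (i : ι) : rk q o σ w i ≤ σ / q := by
  unfold rk
  split_ifs
  · exact Nat.zero_le _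
  · exact Nat.div_le_div_right (min_le_right _ _)

theorem rnd_w_mono (q : ℕ) (o : ι) (p : ℕ × (ι → ℕ)) (i : ι) (t : ℕ) :
    ((rnd q o)^[t] p).2 i ≤ p.2 i := by
  induction t with
  | zero => exact le_rfl
  | succ t ih =>
    rw [Function.iterate_succ_apply']
    exact (Nat.sub_le _ _).trans ih

theorem rnd_w_step (q : ℕ) (o : ι) (p : ℕ × (ι → ℕ)) (i : ι) :
    (1 - 1 / (q : ℝ)) * (p.2 i : ℝ) ≤ ((rnd q o p).2 i : ℝ) := by
  have h1 : p.2 i ≤ (rnd q o p).2 i + p.2 i / q := by
    have h2 := rk_le_w q o p.1 p.2 i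
    change p.2 i ≤ p.2 i - rk q o p.1 p.2 i + p.2 i / q
    omega
  have h3 : (p.2 i : ℝ) ≤ ((rnd q o p).2 i : ℝ) + ((p.2 i / q : ℕ) : ℝ) := by exact_mod_cast h1
  have h4 : ((p.2 i / q : ℕ) : ℝ) ≤ (p.2 i : ℝ) / (q : ℝ) := Nat.cast_div_le
  have h5 : (1 - 1 / (q : ℝ)) * (p.2 i : ℝ) = (p.2 i : ℝ) - (p.2 i : ℝ) / (q : ℝ) := by ring
  rw [h5]
  linarith only [h3, h4]

theorem rnd_w_lower (q : ℕ) (hq : 1 ≤ q) (o : ι) (p : ℕ × (ι → ℕ)) (i : ι) (t : ℕ) :
    (1 - 1 / (q : ℝ)) ^ t * (p.2 i : ℝ) ≤ (((rnd q o)^[t] p).2 i : ℝ) := by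
  have hr : 0 ≤ 1 - 1 / (q : ℝ) := by
    have : (1 : ℝ) ≤ q := by exact_mod_cast hq
    rw [sub_nonneg, div_le_one (by linarith)]
    exact this
  induction t with
  | zero => simp
  | succ t ih =>
    rw [Function.iterate_succ_apply', pow_succ', mul_assoc]
    exact (mul_le_mul_of_nonneg_left ih hr).trans (rnd_w_step q o _ i)

theorem rnd_v_step (q : ℕ) (hq : 1 ≤ q) (o : ι) (p : ℕ × (ι → ℕ)) (i : ι) (hi : i ≠ o) :
    ((min ((rnd q o p).2 i) (rnd q o p).1 : ℕ) : ℝ) ≤
      (1 - 1 / (q : ℝ)) * ((min (p.2 i) p.1 : ℕ) : ℝ) + 1 := by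
  set m := min (p.2 i) p.1 with hm
  have hrk : rk q o p.1 p.2 i = m / q := by
    unfold rk
    rw [if_neg hi]
  have h1 : min ((rnd q o p).2 i) (rnd q o p).1 + m / q ≤ m := by
    have hmq : m / q ≤ m := Nat.div_le_self _ _
    have hA : (rnd q o p).2 i = p.2 i - m / q := by
      change p.2 i - rk q o p.1 p.2 i = _
      rw [hrk]
    have hB : (rnd q o p).1 ≤ p.1 - m / q := by
      change p.1 - ∑ i, rk q o p.1 p.2 i ≤ _
      have : m / q ≤ ∑ i, rk q o p.1 p.2 i := by
        rw [← hrk]
        exact single_le_sum (f := fun i => rk q o p.1 p.2 i) (fun _ _ => Nat.zero_le _)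
          (mem_univ i)
      omega
    rcases le_total (p.2 i) p.1 with h | h
    · have h2 : m = p.2 i := by rw [hm, min_eq_left h]
      have h3 := min_le_left ((rnd q o p).2 i) (rnd q o p).1
      omega
    · have h2 : m = p.1 := by rw [hm, min_eq_right h]
      have h3 := min_le_right ((rnd q o p).2 i) (rnd q o p).1
      omega
  have h2 : ((min ((rnd q o p).2 i) (rnd q o p).1 : ℕ) : ℝ) + ((m / q : ℕ) : ℝ) ≤ (m : ℝ) := by
    exact_mod_cast h1
  have hq0 : (0 : ℝ) < q := by exact_mod_cast hq
  have h3 : (m : ℝ) / (q : ℝ) ≤ ((m / q : ℕ) : ℝ) + 1 := by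
    rw [div_le_iff₀ hq0]
    have h4 : m ≤ (m / q + 1) * q := by
      have := Nat.div_add_mod m q
      have h5 := Nat.mod_lt m hq
      calc m = q * (m / q) + m % q := this.symm
        _ ≤ q * (m / q) + q := by omega
        _ = (m / q + 1) * q := by ring
    exact_mod_cast h4
  have h5 : (1 - 1 / (q : ℝ)) * (m : ℝ) = (m : ℝ) - (m : ℝ) / (q : ℝ) := by ring
  rw [h5]
  linarith only [h2, h3]

theorem rnd_v_upper (q : ℕ) (hq : 1 ≤ q) (o : ι) (p : ℕ × (ι → ℕ)) (i : ι) (hi : i ≠ o) (t : ℕ) :
    ((min (((rnd q o)^[t] p).2 i) ((rnd q o)^[t] p).1 : ℕ) : ℝ) ≤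
      (1 - 1 / (q : ℝ)) ^ t * (p.2 i : ℝ) + q := by
  have hq0 : (0 : ℝ) < q := by exact_mod_cast hq
  have hr : 0 ≤ 1 - 1 / (q : ℝ) := by
    have : (1 : ℝ) ≤ q := by exact_mod_cast hq
    rw [sub_nonneg, div_le_one (by linarith)]
    exact this
  induction t with
  | zero =>
    rw [pow_zero, one_mul]
    have h1 : ((min (p.2 i) p.1 : ℕ) : ℝ) ≤ (p.2 i : ℝ) := by
      exact_mod_cast min_le_left (p.2 i) p.1
    change ((min (p.2 i) p.1 : ℕ) : ℝ) ≤ _
    linarith only [hq0, h1]
  | succ t ih =>
    rw [Function.iterate_succ_apply']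
    refine (rnd_v_step q hq o _ i hi).trans ?_
    have h1 := mul_le_mul_of_nonneg_left ih hr
    have h2 : (1 - 1 / (q : ℝ)) * ((1 - 1 / (q : ℝ)) ^ t * (p.2 i : ℝ) + q) + 1 =
        (1 - 1 / (q : ℝ)) ^ (t + 1) * (p.2 i : ℝ) + q := by
      have hq' : (1 - 1 / (q : ℝ)) * (q : ℝ) = (q : ℝ) - 1 := by
        rw [sub_mul, one_mul, one_div_mul_cancel (ne_of_gt hq0)]
      rw [pow_succ']
      linear_combination hq'
    linarith only [h1, h2]

/-- The required width. -/
def cD0 (n M q C B : ℕ) : ℕ := (n + 1) ^ n * C * (4 * B + q + 2) ^ (n + 1) + 2 * M + B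

/-- There is a number `T` of rounds after which the region is small compared with the facet in
the thinnest direction `ls`, while all widths stay large.

Proof.  `N = n + 1`, `r = 1 - 1/q` (real numbers), `(σ_t, w_t)` = state after `t` rounds.
(1) `w_t i ≥ r^t w' i`; for `i ≠ o`, `v_t i := min (w_t i) σ_t` satisfies
`v_{t+1} i ≤ r v_t i + 1` (if `w_t i ≤ σ_t` look at `w`, otherwise at `σ`, which loses at least
`σ_t / q` rounded down), so `v_t i ≤ r^t w' i + q ≤ r^t w i + q`.  `w_t o = w' o`.
(2) `|Rg_t| ≤ ∏_{i ≠ o} (v_t i + 1) ≤ ∏_{i ≠ o active} (r^t w i + q + 1)` (`card_le_prod`), which tends to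
`(q + 1)^N` or less; and by `box_lower` `N^(N-1) fc σ w ls ≥ ∏_{i active ≠ o, ls} w i ≥ D^(N-1)`.
Let `T` be the least `t` with `C |Rg_t| ≤ fc σ w ls`; it exists if `D` is large.
(3) For `t < T`: `C ∏_{i≠o} (r^t w i + q + 1) N^(N-1) > ∏_{i active ≠ o, ls} w i`.  If
`r^t w ls < B₀ := 4 B` then `r^t ≤ B₀ / D` and for `i ≠ ls` the factor is at most
`w i (B₀ + q + 1) / D`, so `C N^(N-1) (B₀ + q + 1)^N > D^(N-1)`, impossible for `D` large
(`N ≥ 2`).  So `r^t w ls ≥ 4 B` and `w_t i ≥ r^t w' i ≥ r^t w i / 2 ≥ r^t w ls / 2 ≥ 2 B`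
(`w' i ≥ w i - M ≥ w i / 2`).  Also `(σ_t + 1)^N ≥ |Rg_t|` and
`C N^(N-1) |Rg_t| > D^(N-1)`, so `σ_t ≥ 2 B`.
(4) One more round at most halves: `w_{t+1} i ≥ w_t i / 2`, `σ_{t+1} ≥ σ_t - N σ_t / q ≥ σ_t / 2`
(at most `N` active coordinates `≠ o`); this covers `t = T ≥ 1`.  For `T = 0`:
`w' i ≥ D - M ≥ B`, `σ' ≥ σ - M ≥ D - M ≥ B`. -/
theorem rounds_exist (n M q C B : ℕ) (hn : 1 ≤ n) (hq : 2 * (n + 1) ≤ q) (hC : 1 ≤ C) :
    ∀ (ι : Type) [Fintype ι] [DecidableEq ι] (o ls : ι) (σ : ℕ) (w : ι → ℕ),
      Nrm (n + 1) (cD0 n M q C B) o σ w → ls ≠ o → 0 < w ls →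
      (∀ i, i ≠ o → 0 < w i → w ls ≤ w i) →
      ∀ (σ' : ℕ) (w' : ι → ℕ), σ ≤ σ' + M → σ' ≤ σ → (∀ i, w i ≤ w' i + M) → (∀ i, w' i ≤ w i) →
      ∃ T : ℕ,
        C * (Rg ((rnd q o)^[T] (σ', w')).1 ((rnd q o)^[T] (σ', w')).2).card ≤ fc σ w ls ∧
        ∀ t ≤ T, B ≤ ((rnd q o)^[t] (σ', w')).1 ∧
          ∀ i, 0 < w i → B ≤ ((rnd q o)^[t] (σ', w')).2 i := by
  set K : ℕ := 4 * B + q + 2 with hK
  intro ι _ _ o ls σ w hN hls hwls hmin σ' w' hσM hσ' hwM hw'
  have hcD : cD0 n M q C B = (n + 1) ^ n * C * K ^ (n + 1) + 2 * M + B := rfl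
  rw [hcD] at hN
  set D : ℕ := (n + 1) ^ n * C * K ^ (n + 1) + 2 * M + B with hD
  have hq1 : 1 ≤ q := by omega
  have hq0 : (0 : ℝ) < q := by exact_mod_cast hq1
  set r : ℝ := 1 - 1 / (q : ℝ) with hr
  have hr0 : 0 ≤ r := by
    have : (1 : ℝ) ≤ q := by exact_mod_cast hq1
    rw [hr, sub_nonneg, div_le_one (by linarith only [hq0])]
    exact this
  have hr1 : r < 1 := by
    have : 0 < 1 / (q : ℝ) := by positivity
    rw [hr]
    linarith only [this]
  -- the index sets
  set A : Finset ι := univ.filter (fun i => 0 < w i ∧ i ≠ o) with hA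
  set Q : Finset ι := univ.filter (fun i => 0 < w i ∧ i ≠ o ∧ i ≠ ls) with hQ
  have hlsQ : ls ∉ Q := by simp [hQ]
  have hAQ : A = insert ls Q := by
    ext i
    simp only [hA, hQ, mem_filter, mem_univ, true_and, mem_insert]
    constructor
    · rintro ⟨h1, h2⟩
      by_cases h3 : i = ls
      · left; exact h3
      · right; exact ⟨h1, h2, h3⟩
    · rintro (h | ⟨h1, h2, h3⟩)
      · subst h; exact ⟨hwls, hls⟩
      · exact ⟨h1, h2⟩
  have hoA : o ∉ A := by simp [hA]
  have hAcard : A.card = n + 1 := by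
    have h1 : univ.filter (fun i => 0 < w i) = insert o A := by
      ext i
      simp only [hA, mem_filter, mem_univ, true_and, mem_insert]
      constructor
      · intro h
        by_cases h3 : i = o
        · left; exact h3
        · right; exact ⟨h, h3⟩
      · rintro (h | ⟨h1, _⟩)
        · subst h; exact hN.ho
        · exact h1
    have h2 := hN.hcard
    rw [h1, card_insert_of_notMem hoA] at h2
    omega
  have hQcard : Q.card = n := by
    rw [hAQ, card_insert_of_notMem hlsQ] at hAcard
    omega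
  -- the lower bound for the facet
  have hbox : ∏ i ∈ Q, w i ≤ (n + 1) ^ n * fc σ w ls := by
    have := box_lower (n + 1) (by omega) D o ls σ w hN hls hwls
    rwa [Nat.add_sub_cancel] at this
  have hDpos : 1 ≤ D := by
    have : 1 ≤ (n + 1) ^ n * C * K ^ (n + 1) := by
      have h1 : 0 < (n + 1) ^ n := by positivity
      have h2 : 0 < K ^ (n + 1) := by positivity
      exact Nat.succ_le_of_lt (by positivity)
    omega
  have hDn : D ≤ D ^ n := Nat.le_self_pow (by omega) D
  have hQD : D ^ n ≤ ∏ i ∈ Q, w i := by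
    rw [← hQcard, ← prod_const]
    refine prod_le_prod' (fun i hi => ?_)
    exact hN.hD i (mem_filter.mp hi).2.1
  have hDfc : D ≤ (n + 1) ^ n * fc σ w ls := hDn.trans (hQD.trans hbox)
  set S : ℕ → ℕ := fun t => ((rnd q o)^[t] (σ', w')).1 with hS
  set W : ℕ → ι → ℕ := fun t => ((rnd q o)^[t] (σ', w')).2 with hW
  have hWle : ∀ t i, W t i ≤ w i := fun t i => (rnd_w_mono q o (σ', w') i t).trans (hw' i)
  have hW0 : ∀ t i, w i = 0 → W t i = 0 := fun t i h => by
    have := hWle t i
    omega
  -- the upper bound for the region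
  have hcard : ∀ t, (Rg (S t) (W t)).card ≤ ∏ i ∈ A, (min (W t i) (S t) + 1) := by
    intro t
    refine (card_le_prod o (S t) (W t)).trans (le_of_eq ?_)
    symm
    refine prod_subset ?_ ?_
    · intro i hi
      rw [mem_erase]
      exact ⟨(mem_filter.mp hi).2.2, mem_univ i⟩
    · intro i hi hiA
      have h1 : i ≠ o := (mem_erase.mp hi).1
      have h2 : w i = 0 := by
        by_contra h3
        exact hiA (mem_filter.mpr ⟨mem_univ i, Nat.pos_of_ne_zero h3, h1⟩)
      rw [hW0 t i h2, Nat.zero_min, Nat.zero_add]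
  have hv : ∀ t, ∀ i ∈ A, ((min (W t i) (S t) + 1 : ℕ) : ℝ) ≤ r ^ t * (w i : ℝ) + (q + 1) := by
    intro t i hi
    have h1 := rnd_v_upper q hq1 o (σ', w') i (mem_filter.mp hi).2.2 t
    have h2 : r ^ t * (w' i : ℝ) ≤ r ^ t * (w i : ℝ) :=
      mul_le_mul_of_nonneg_left (by exact_mod_cast hw' i) (pow_nonneg hr0 t)
    have h3 : ((min (W t i) (S t) : ℕ) : ℝ) ≤ r ^ t * (w' i : ℝ) + q := h1
    push_cast at h3 ⊢
    linarith only [h2, h3]
  have hcardR : ∀ t, ((Rg (S t) (W t)).card : ℝ) ≤ ∏ i ∈ A, (r ^ t * (w i : ℝ) + (q + 1)) := by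
    intro t
    have h1 : ((Rg (S t) (W t)).card : ℝ) ≤ ∏ i ∈ A, ((min (W t i) (S t) + 1 : ℕ) : ℝ) := by
      exact_mod_cast hcard t
    exact h1.trans (prod_le_prod (fun i _ => by positivity) (hv t))
  have hpowD : (n + 1) ^ n * C * K ^ (n + 1) ≤ D := by omega
  -- existence of T
  have hex : ∃ t, C * (Rg (S t) (W t)).card ≤ fc σ w ls := by
    have hwo : (0 : ℝ) < w o := by exact_mod_cast hN.ho
    obtain ⟨t, ht⟩ := exists_pow_lt_of_lt_one (show (0 : ℝ) < 1 / (w o : ℝ) by positivity) hr1
    refine ⟨t, ?_⟩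
    have h1 : ((Rg (S t) (W t)).card : ℝ) ≤ ((K : ℕ) : ℝ) ^ (n + 1) := by
      refine (hcardR t).trans ?_
      rw [← hAcard, ← prod_const]
      refine prod_le_prod (fun i _ => by positivity) (fun i _ => ?_)
      have h2 : r ^ t * (w i : ℝ) ≤ 1 := by
        have h3 : r ^ t * (w i : ℝ) ≤ 1 / (w o : ℝ) * (w o : ℝ) := by
          refine mul_le_mul ht.le (by exact_mod_cast hN.hwo i) (by positivity) (by positivity)
        rwa [one_div_mul_cancel (ne_of_gt hwo)] at h3
      rw [hK]
      push_cast
      have : (0 : ℝ) ≤ B := by positivity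
      linarith only [h2]
    have h2 : (Rg (S t) (W t)).card ≤ K ^ (n + 1) := by exact_mod_cast h1
    have h3 : (n + 1) ^ n * (C * (Rg (S t) (W t)).card) ≤ (n + 1) ^ n * fc σ w ls := by
      calc (n + 1) ^ n * (C * (Rg (S t) (W t)).card) ≤ (n + 1) ^ n * (C * K ^ (n + 1)) := by gcongr
        _ = (n + 1) ^ n * C * K ^ (n + 1) := by ring
        _ ≤ D := hpowD
        _ ≤ _ := hDfc
    exact Nat.le_of_mul_le_mul_left h3 (by positivity)
  classical
  set T := Nat.find hex with hT
  have hTspec : C * (Rg (S T) (W T)).card ≤ fc σ w ls := Nat.find_spec hex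
  have hbefore : ∀ t < T, 2 * B ≤ S t ∧ ∀ i, 0 < w i → 2 * B ≤ W t i := by
    intro t ht
    have h1 : fc σ w ls < C * (Rg (S t) (W t)).card := not_le.mp (Nat.find_min hex ht)
    have h2 : ∏ i ∈ Q, w i < (n + 1) ^ n * (C * (Rg (S t) (W t)).card) :=
      lt_of_le_of_lt hbox (Nat.mul_lt_mul_of_pos_left h1 (by positivity))
    constructor
    · by_contra hlt
      push Not at hlt
      have h3 : (Rg (S t) (W t)).card ≤ K ^ (n + 1) := by
        refine (hcard t).trans ?_
        rw [← hAcard, ← prod_const]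
        refine prod_le_prod' (fun i _ => ?_)
        have := min_le_right (W t i) (S t)
        omega
      have h4 : (n + 1) ^ n * (C * (Rg (S t) (W t)).card) ≤ D := by
        calc (n + 1) ^ n * (C * (Rg (S t) (W t)).card) ≤ (n + 1) ^ n * (C * K ^ (n + 1)) := by
              gcongr
          _ = (n + 1) ^ n * C * K ^ (n + 1) := by ring
          _ ≤ D := hpowD
      have h5 := hDn.trans hQD
      omega
    · have h3 : (4 * B : ℝ) ≤ r ^ t * (w ls : ℝ) := by
        by_contra hlt
        push Not at hlt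
        have hDls : (D : ℝ) ≤ w ls := by exact_mod_cast hN.hD ls hwls
        have h4 : ∀ i ∈ Q, (D : ℝ) * (r ^ t * (w i : ℝ) + (q + 1)) ≤ (K : ℝ) * (w i : ℝ) := by
          intro i hi
          have hi1 : 0 < w i := (mem_filter.mp hi).2.1
          have hi2 : (D : ℝ) ≤ w i := by exact_mod_cast hN.hD i hi1
          have h5 : (D : ℝ) * (r ^ t * (w i : ℝ)) ≤ 4 * B * (w i : ℝ) := by
            calc (D : ℝ) * (r ^ t * (w i : ℝ)) = (r ^ t * (D : ℝ)) * (w i : ℝ) := by ring
              _ ≤ (r ^ t * (w ls : ℝ)) * (w i : ℝ) := by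
                gcongr
              _ ≤ 4 * B * (w i : ℝ) := by gcongr
          have h6 : (D : ℝ) * (q + 1) ≤ (w i : ℝ) * (q + 1) := by gcongr
          have h7 : (K : ℝ) = 4 * B + q + 2 := by rw [hK]; push_cast; ring
          rw [h7]
          have h8 : (0 : ℝ) ≤ w i := by positivity
          nlinarith only [h5, h6]
        have h5 : (D : ℝ) ^ n * ∏ i ∈ Q, (r ^ t * (w i : ℝ) + (q + 1)) ≤
            (K : ℝ) ^ n * ∏ i ∈ Q, (w i : ℝ) := by
          rw [← hQcard, ← prod_const, ← prod_const, ← prod_mul_distrib, ← prod_mul_distrib]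
          exact prod_le_prod (fun i _ => by positivity) h4
        have h6 : (D : ℝ) ^ n * ((Rg (S t) (W t)).card : ℝ) ≤
            (K : ℝ) ^ (n + 1) * ∏ i ∈ Q, (w i : ℝ) := by
          calc (D : ℝ) ^ n * ((Rg (S t) (W t)).card : ℝ)
              ≤ (D : ℝ) ^ n * ∏ i ∈ A, (r ^ t * (w i : ℝ) + (q + 1)) := by
                exact mul_le_mul_of_nonneg_left (hcardR t) (by positivity)
            _ = (r ^ t * (w ls : ℝ) + (q + 1)) *
                ((D : ℝ) ^ n * ∏ i ∈ Q, (r ^ t * (w i : ℝ) + (q + 1))) := by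
                rw [hAQ, prod_insert hlsQ]; ring
            _ ≤ (K : ℝ) * ((K : ℝ) ^ n * ∏ i ∈ Q, (w i : ℝ)) := by
                refine mul_le_mul ?_ h5 (by positivity) (by positivity)
                have h7 : (K : ℝ) = 4 * B + q + 2 := by rw [hK]; push_cast; ring
                rw [h7]
                linarith only [hlt]
            _ = _ := by ring
        have h7 : D ^ n * (Rg (S t) (W t)).card ≤ K ^ (n + 1) * ∏ i ∈ Q, w i := by
          exact_mod_cast h6
        have h8 : D ^ n * ∏ i ∈ Q, w i < D ^ n * ∏ i ∈ Q, w i := by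
          calc D ^ n * ∏ i ∈ Q, w i
              < D ^ n * ((n + 1) ^ n * (C * (Rg (S t) (W t)).card)) :=
                Nat.mul_lt_mul_of_pos_left h2 (by positivity)
            _ = (n + 1) ^ n * C * (D ^ n * (Rg (S t) (W t)).card) := by ring
            _ ≤ (n + 1) ^ n * C * (K ^ (n + 1) * ∏ i ∈ Q, w i) := by gcongr
            _ = ((n + 1) ^ n * C * K ^ (n + 1)) * ∏ i ∈ Q, w i := by ring
            _ ≤ D ^ n * ∏ i ∈ Q, w i := Nat.mul_le_mul_right _ (hpowD.trans hDn)
        exact lt_irrefl _ h8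
      intro i hi
      have h4 := rnd_w_lower q hq1 o (σ', w') i t
      have h5 : (w i : ℝ) ≤ 2 * (w' i : ℝ) := by
        have h6 := hwM i
        have h7 := hN.hD i hi
        have : w i ≤ 2 * w' i := by omega
        exact_mod_cast this
      have h6 : (w ls : ℝ) ≤ w i := by
        by_cases h7 : i = o
        · subst h7
          exact_mod_cast hN.hwo ls
        · exact_mod_cast hmin i h7 hi
      have h7 : (2 * B : ℝ) ≤ (W t i : ℝ) := by
        have h8 : r ^ t * (w ls : ℝ) ≤ r ^ t * (2 * (w' i : ℝ)) :=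
          mul_le_mul_of_nonneg_left (h6.trans h5) (pow_nonneg hr0 t)
        have h9 : r ^ t * (w' i : ℝ) ≤ (W t i : ℝ) := h4
        nlinarith only [h3, h4, h8]
      exact_mod_cast h7
  refine ⟨T, hTspec, ?_⟩
  intro t ht
  rcases Nat.lt_or_ge t T with hlt | hge
  · obtain ⟨h1, h2⟩ := hbefore t hlt
    refine ⟨?_, fun i hi => ?_⟩
    · change B ≤ S t
      omega
    · have := h2 i hi
      change B ≤ W t i
      omega
  · have htT : t = T := le_antisymm ht hge
    subst htT
    rcases Nat.eq_zero_or_pos T with h0 | hpos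
    · rw [h0]
      refine ⟨?_, fun i hi => ?_⟩
      · change B ≤ σ'
        have h1 := hN.hwσ o
        have h2 := hN.hD o hN.ho
        omega
      · change B ≤ w' i
        have h1 := hwM i
        have h2 := hN.hD i hi
        omega
    · obtain ⟨t, htt⟩ : ∃ t, T = t + 1 := ⟨T - 1, by omega⟩
      obtain ⟨h1, h2⟩ := hbefore t (by omega)
      have hstep : (rnd q o)^[T] (σ', w') = rnd q o ((rnd q o)^[t] (σ', w')) := by
        rw [htt, Function.iterate_succ_apply']
      rw [hstep]
      refine ⟨?_, fun i hi => ?_⟩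
      · change B ≤ S t - ∑ i, rk q o (S t) (W t) i
        have h3 : ∑ i, rk q o (S t) (W t) i ≤ (n + 1) * (S t / q) := by
          have h4 : ∑ i, rk q o (S t) (W t) i = ∑ i ∈ A, rk q o (S t) (W t) i := by
            symm
            refine sum_subset (subset_univ A) (fun i _ hiA => ?_)
            by_cases h5 : i = o
            · unfold rk
              rw [if_pos h5]
            · have h6 : w i = 0 := by
                by_contra h7
                exact hiA (mem_filter.mpr ⟨mem_univ i, Nat.pos_of_ne_zero h7, h5⟩)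
              have h7 := rk_le_w q o (S t) (W t) i
              rw [hW0 t i h6, Nat.zero_div] at h7
              exact Nat.le_zero.mp h7
          rw [h4, ← hAcard]
          exact sum_le_card_nsmul A _ _ (fun i _ => rk_le_σ q o (S t) (W t) i)
        have h4 : 2 * ((n + 1) * (S t / q)) ≤ S t := by
          calc 2 * ((n + 1) * (S t / q)) = (2 * (n + 1)) * (S t / q) := by ring
            _ ≤ q * (S t / q) := Nat.mul_le_mul_right _ hq
            _ ≤ S t := Nat.mul_div_le _ _
        omega
      · change B ≤ W t i - rk q o (S t) (W t) i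
        have h3 := rk_le_w q o (S t) (W t) i
        have h4 : 2 * (W t i / q) ≤ W t i := by
          calc 2 * (W t i / q) ≤ q * (W t i / q) := Nat.mul_le_mul_right _ (by omega)
            _ ≤ W t i := Nat.mul_div_le _ _
        have h5 := h2 i hi
        omega

end Pool.Agent.H18.Ex

end

section

/-!
# Module UAll: all but finitely many pairs (dimension, degree)
-/

namespace Pool.Agent.H21.NX

open Finset Pool.Agent.H18.Ex
open Pool.Agent.H18.Fat

theorem Rg_eq_Sx (s d : ℕ) : Pool.Agent.H18.Ex.Rg d (fun _ : Fin (s + 2) => d) = Sx (Fin (s + 2)) d := by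
  ext a
  rw [Pool.Agent.H18.Ex.mem_Rg, mem_Sx]
  constructor
  · exact fun h => h.2
  · intro h
    refine ⟨fun i => ?_, h⟩
    rw [← h]
    exact single_le_sum (fun j _ => Nat.zero_le (a j)) (mem_univ i)

end Pool.Agent.H21.NX

end

section

/-!
# V7, block STEP: the arithmetic of the closing, abstract form

`g n s`, `v n s` are the dimension and the virtual dimension of the system of level `j` in `n` variables with the
multiset `s` of kinds; `g'`, `v'` belong to the level `j + 1`.  `top` is the kind `(M, [j])`, `sm` a simple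
point, `fe` an `M`-fold point in general position, `sj` a swapped point.
-/

set_option autoImplicit false

namespace Pool.Agent.V7.ST

/-- A convex sequence with slopes `≥ -b` whose first `N` slopes are not all equal to `-b`. -/
theorem slope_lemma (G : ℕ → ℕ) (b : ℕ) (h1 : ∀ i, G i ≤ G (i + 1) + b)
    (h2 : ∀ i, G (i + 1) + G (i + 1) ≤ G i + G (i + 2)) (N : ℕ)
    (hN : G 0 < G N + N * b) (x : ℕ) : G N + x ≤ G (N + x) + x * b := by
  -- if one slope at `i ≥ N` is `-b`, so are all the earlier ones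
  have key : ∀ i, G i = G (i + 1) + b → ∀ k ≤ i, G k = G (k + 1) + b := by
    intro i
    induction i with
    | zero =>
      intro h k hk
      obtain rfl : k = 0 := by omega
      exact h
    | succ i ih =>
      intro h k hk
      have e : G i = G (i + 1) + b := by
        have := h1 i
        have := h2 i
        have h' : G (i + 1) = G (i + 2) + b := h
        omega
      rcases Nat.lt_or_ge k (i + 1) with hk' | hk'
      · exact ih e k (by omega)
      · obtain rfl : k = i + 1 := by omega
        exact h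
  have all : ∀ i, (∀ k < i, G k = G (k + 1) + b) → G 0 = G i + i * b := by
    intro i
    induction i with
    | zero => intro _; simp
    | succ i ih =>
      intro h
      have h3 := ih fun k hk => h k (by omega)
      have h4 := h i (by omega)
      have h5 : (i + 1) * b = i * b + b := by ring
      omega
  have lt : ∀ i, N ≤ i → G i + 1 ≤ G (i + 1) + b := by
    intro i hi
    have h3 := h1 i
    by_contra hcon
    have h4 : G i = G (i + 1) + b := by omega
    have h5 := all N fun k hk => key i h4 k (by omega)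
    omega
  induction x with
  | zero => simp
  | succ x ih =>
    have h3 := lt (N + x) (by omega)
    have h4 : (x + 1) * b = x * b + b := by ring
    have h5 : N + (x + 1) = N + x + 1 := by ring
    rw [h5, h4]
    omega

/-- The numbers of points of the other kinds and of the kind `top`. -/
theorem split_top {K : Type} [DecidableEq K] (top : K) (s : Multiset K) :
    ∃ N s0, s = Multiset.replicate N top + s0 ∧ top ∉ s0 := by
  refine ⟨s.count top, s.filter (fun k => ¬ k = top), ?_, ?_⟩
  · conv_lhs => rw [← Multiset.filter_add_not (fun k => k = top) s]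
    congr 1
    rw [Multiset.filter_eq']
  · rw [Multiset.mem_filter]
    rintro ⟨-, h⟩
    exact h rfl

open Multiset in
theorem step_abs {K : Type} [DecidableEq K] (c : ℕ) (hc : 0 < c)
    (g g' : ℕ → Multiset K → ℕ) (v v' : ℕ → Multiset K → ℤ) (b : ℕ → ℕ)
    (P P' : ℕ → Multiset K → Prop) (sm fe sj top : K) (add : K → K) (n0 : ℕ)
    (bpos : ∀ n, n0 ≤ n → 0 < b n)
    (bmono : ∀ n, n0 ≤ n → b (n - c) ≤ b n)
    (gbd : ∀ n, ∃ C : ℕ, ∀ s, g n s ≤ C)
    (F1 : ∀ n s, n0 ≤ n → P n s → v n s ≤ g n s)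
    (F3 : ∀ n s a, n0 ≤ n → g n (s + replicate a sm) = g n s - a)
    (Ranti : ∀ n s, g n (top ::ₘ s) ≤ g n s)
    (Rle : ∀ n s, n0 ≤ n → g n s ≤ g n (top ::ₘ s) + b n)
    (Rsub : ∀ n s, g n (top ::ₘ s) + g n (top ::ₘ s) ≤ g n s + g n (top ::ₘ top ::ₘ s))
    (Vtop : ∀ n s, n0 ≤ n → v n (top ::ₘ s) = v n s - b n)
    (Ptop : ∀ n s, P n (top ::ₘ s) ↔ P n s)
    (OJ : ∀ n s, n0 ≤ n → P n s → top ∉ s → (g n s : ℤ) ≤ v n s)
    (DH : ∀ n sL sO y a, n0 ≤ n → P n (sL + sO + replicate y fe) →
      g (n - c) (sL + replicate (y + a) sm) = 0 →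
      g n (sL + sO + replicate y fe + replicate a sm) ≤ g' n (sL.map add + sO + replicate y sj))
    (PR : ∀ n s, n0 ≤ n → P' n s → (g' n s : ℤ) ≤ max 0 (v' n s))
    (VR : ∀ n sL sO y, n0 ≤ n → P n (sL + sO + replicate y fe) →
      v' n (sL.map add + sO + replicate y sj) =
        v n (sL + sO + replicate y fe) - v (n - c) sL + y)
    (NUM : ∀ X : ℕ, ∃ n1, ∀ n, n1 ≤ n → ∀ s, P n s → -(b n : ℤ) ≤ v n s →
      v n s < (X + 1) * b n → ∀ x, x ≤ X → ∃ sL sO,
        s = sL + sO + replicate (2 * b (n - c)) fe ∧ P (n - c) sL ∧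
        (x : ℤ) * b (n - c) ≤ v (n - c) sL ∧ v (n - c) sL < (x + 1) * b (n - c) ∧
        ∀ y, y ≤ 2 * b (n - c) →
          P' n (sL.map add + (sO + replicate (2 * b (n - c) - y) fe) + replicate y sj)) :
    ∃ n2, ∀ n, n2 ≤ n → ∀ s, P n s → (g n s : ℤ) ≤ max 0 (v n s) := by
  -- the trace is killed by `y` fillers and `a` simple points
  have main : ∀ X : ℕ, ∃ n1, n0 + c ≤ n1 ∧ ∀ n, n1 ≤ n → ∀ s, P n s → -(b n : ℤ) ≤ v n s →
      v n s < (X + 1) * b n → ∀ x, x ≤ X → ∃ sL, P (n - c) sL ∧
        (x : ℤ) * b (n - c) ≤ v (n - c) sL ∧ v (n - c) sL < (x + 1) * b (n - c) ∧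
        ∀ y a, y ≤ 2 * b (n - c) → g (n - c) sL ≤ y + a →
          ((g n s - a : ℕ) : ℤ) ≤ max 0 (v n s - v (n - c) sL + y) := by
    intro X
    obtain ⟨n1, h⟩ := NUM X
    refine ⟨max n1 (n0 + c), le_max_right _ _, fun n hn s hs h1 h2 x hx => ?_⟩
    have hn1 : n1 ≤ n := (le_max_left _ _).trans hn
    have hn0 : n0 + c ≤ n := (le_max_right _ _).trans hn
    obtain ⟨sL, sO, e, hL, h3, h4, h5⟩ := h n hn1 s hs h1 h2 x hx
    refine ⟨sL, hL, h3, h4, fun y a hy ha => ?_⟩
    have e' : s = sL + (sO + replicate (2 * b (n - c) - y) fe) + replicate y fe := by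
      have e1 : replicate (2 * b (n - c)) fe =
          replicate (2 * b (n - c) - y) fe + replicate y fe := by
        rw [← Multiset.replicate_add]
        congr 1
        omega
      rw [e, e1]
      simp only [add_assoc]
    have hPs : P n (sL + (sO + replicate (2 * b (n - c) - y) fe) + replicate y fe) := e' ▸ hs
    have h6 : g (n - c) (sL + replicate (y + a) sm) = 0 := by
      rw [F3 _ _ _ (by omega)]
      omega
    have h7 := DH n sL (sO + replicate (2 * b (n - c) - y) fe) y a (by omega) hPs h6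
    rw [← e', F3 _ _ _ (by omega)] at h7
    have h8 := PR n _ (by omega) (h5 y hy)
    rw [VR n sL _ y (by omega) hPs, ← e'] at h8
    exact (Int.ofNat_le.2 h7).trans h8
  -- (a) the defect is bounded
  obtain ⟨nA, hnA, hA⟩ := main 0
  choose Cb hCb using gbd
  set D : ℕ := (Finset.range (nA + c)).sup Cb with hD
  have stepA : ∀ n, nA ≤ n → ∀ s, P n s → 0 ≤ v n s → v n s < b n →
      (g n s : ℤ) ≤ v n s + D := by
    intro n
    induction n using Nat.strong_induction_on with
    | _ n ih =>
      intro hn s hs h1 h2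
      rcases Nat.lt_or_ge n (nA + c) with hlt | hge
      · have h3 : g n s ≤ D := (hCb n s).trans
          (Finset.le_sup (f := Cb) (Finset.mem_range.2 hlt))
        have h4 : (g n s : ℤ) ≤ D := by exact_mod_cast h3
        linarith
      · have hneg : -(b n : ℤ) ≤ v n s := by
          have : (0 : ℤ) ≤ b n := Int.natCast_nonneg _
          linarith
        obtain ⟨sL, hL, h3, h4, h5⟩ := hA n (by omega) s hs hneg
          (by push_cast; linarith) 0 le_rfl
        have h6 := ih (n - c) (by omega) (by omega) sL hL (by simpa using h3)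
          (by simpa using h4)
        have h7 := F1 (n - c) sL (by omega) hL
        -- the virtual dimension of the trace
        obtain ⟨w, hw⟩ : ∃ w : ℕ, v (n - c) sL = w :=
          ⟨(v (n - c) sL).toNat, by
            have : (0 : ℤ) ≤ v (n - c) sL := by simpa using h3
            omega⟩
        obtain ⟨u, hu⟩ : ∃ u : ℕ, v n s = u := ⟨(v n s).toNat, by omega⟩
        rw [hw] at h4 h5 h6 h7
        rw [hu] at h5 ⊢
        have h4' : w < b (n - c) := by
          have h8 : (w : ℤ) < b (n - c) := by simpa using h4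
          exact_mod_cast h8
        have h7' : w ≤ g (n - c) sL := by exact_mod_cast h7
        have h6' : g (n - c) sL ≤ w + D := by exact_mod_cast h6
        have h9 := h5 (w - min u w) (min u w + (g (n - c) sL - w))
          (by omega) (by omega)
        have h10 : (0 : ℤ) ≤ (u : ℤ) - w + (w - min u w : ℕ) := by
          have : min u w ≤ u := min_le_left _ _
          have : min u w ≤ w := min_le_right _ _
          omega
        rw [max_eq_right h10] at h9
        have : min u w ≤ u := min_le_left _ _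
        have : min u w ≤ w := min_le_right _ _
        omega
  -- (b) exactness for large virtual dimension
  have stepB : ∀ n, nA ≤ n → ∀ s, P n s → (D : ℤ) * b n ≤ v n s → (g n s : ℤ) ≤ v n s := by
    intro n hn s hs hv
    by_contra hcon
    push Not at hcon
    have hn0 : n0 ≤ n := by omega
    have hbp := bpos n hn0
    obtain ⟨N, s0, hs0, htop⟩ := split_top top s
    have hPi : ∀ i, P n (replicate i top + s0) ↔ P n s0 := by
      intro i
      induction i with
      | zero => simp
      | succ i ih =>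
        rw [Multiset.replicate_succ, Multiset.cons_add, Ptop, ih]
    have hVi : ∀ i : ℕ, v n (replicate i top + s0) = v n s0 - i * b n := by
      intro i
      induction i with
      | zero => simp
      | succ i ih =>
        rw [Multiset.replicate_succ, Multiset.cons_add, Vtop _ _ hn0, ih]
        push_cast
        ring
    have hP0 : P n s0 := (hPi N).1 (hs0 ▸ hs)
    have h0 := OJ n s0 hn0 hP0 htop
    set G : ℕ → ℕ := fun i => g n (replicate i top + s0) with hG
    have hG1 : ∀ i, G i ≤ G (i + 1) + b n := by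
      intro i
      have h3 := Rle n (replicate i top + s0) hn0
      rwa [← Multiset.cons_add, ← Multiset.replicate_succ] at h3
    have hG2 : ∀ i, G (i + 1) + G (i + 1) ≤ G i + G (i + 2) := by
      intro i
      have h3 := Rsub n (replicate i top + s0)
      rwa [← Multiset.cons_add, ← Multiset.replicate_succ, ← Multiset.cons_add,
        ← Multiset.replicate_succ] at h3
    have hvs : v n s = v n s0 - N * b n := by rw [hs0, hVi]
    have hgs : g n s = G N := by rw [hs0]
    have hg0 : g n s0 = G 0 := by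
      show g n s0 = g n (replicate 0 top + s0)
      simp
    -- the number of points to be added
    obtain ⟨x, hx1, hx2⟩ : ∃ x : ℕ, (x : ℤ) * b n ≤ v n s ∧ v n s < (x + 1) * b n := by
      have hbz : (0 : ℤ) < b n := by exact_mod_cast hbp
      have hv0 : 0 ≤ v n s := le_trans (by positivity) hv
      refine ⟨(v n s / b n).toNat, ?_, ?_⟩
      · have h3 : ((v n s / b n).toNat : ℤ) = v n s / b n :=
          Int.toNat_of_nonneg (Int.ediv_nonneg hv0 hbz.le)
        rw [h3]
        exact Int.ediv_mul_le _ hbz.ne'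
      · have h3 : ((v n s / b n).toNat : ℤ) = v n s / b n :=
          Int.toNat_of_nonneg (Int.ediv_nonneg hv0 hbz.le)
        rw [h3]
        exact Int.lt_ediv_add_one_mul_self _ hbz
    have hxD : D ≤ x := by
      by_contra h3
      push Not at h3
      have h4 : ((x : ℤ) + 1) * b n ≤ D * b n := by
        refine mul_le_mul_of_nonneg_right ?_ (Int.natCast_nonneg _)
        exact_mod_cast h3
      linarith
    have h3 := stepA n hn (replicate (N + x) top + s0) ((hPi _).2 hP0)
      (by rw [hVi]; push_cast; linarith) (by rw [hVi]; push_cast; linarith)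
    have h4 : G 0 < G N + N * b n := by
      have h5 : (G 0 : ℤ) < G N + N * b n := by
        rw [← hg0, ← hgs]
        linarith
      exact_mod_cast h5
    have h5 := slope_lemma G (b n) hG1 hG2 N h4 x
    have h6 : (g n (replicate (N + x) top + s0) : ℤ) = G (N + x) := rfl
    rw [h6, hVi] at h3
    have h7 : (G N : ℤ) + x ≤ G (N + x) + x * b n := by exact_mod_cast h5
    have h8 : v n s + 1 ≤ G N := by
      rw [← hgs]
      exact hcon
    have h9 : (D : ℤ) ≤ x := by exact_mod_cast hxD
    push_cast at h3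
    linarith
  -- (c) descending induction
  have stepC : ∀ k x : ℕ, D ≤ x + k → ∃ nx, ∀ n, nx ≤ n → ∀ s, P n s →
      (x : ℤ) * b n ≤ v n s → (g n s : ℤ) ≤ v n s := by
    intro k
    induction k with
    | zero =>
      intro x hx
      refine ⟨nA, fun n hn s hs hv => stepB n hn s hs (le_trans ?_ hv)⟩
      refine mul_le_mul_of_nonneg_right ?_ (Int.natCast_nonneg _)
      exact_mod_cast hx
    | succ k ih =>
      intro x hx
      obtain ⟨nx, hnx⟩ := ih (x + 1) (by omega)
      obtain ⟨nM, hnM0, hnM⟩ := main (x + 1)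
      refine ⟨max (nx + c) nM, fun n hn s hs hv => ?_⟩
      have hn1 : nx + c ≤ n := (le_max_left _ _).trans hn
      have hn2 : nM ≤ n := (le_max_right _ _).trans hn
      rcases le_or_gt (((x + 1 : ℕ) : ℤ) * b n) (v n s) with hge | hlt
      · exact hnx n (by omega) s hs hge
      have hb0 : (0 : ℤ) ≤ b n := Int.natCast_nonneg _
      have hx0 : (0 : ℤ) ≤ (x : ℤ) * b n := mul_nonneg (Int.natCast_nonneg _) hb0
      obtain ⟨sL, hL, h3, h4, h5⟩ := hnM n hn2 s hs (by linarith)
        (by push_cast at hlt ⊢; linarith) (x + 1) le_rfl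
      have h6 := hnx (n - c) (by omega) sL hL h3
      have h7 : x * b (n - c) ≤ x * b n := Nat.mul_le_mul_left _ (bmono n (by omega))
      obtain ⟨w, hw⟩ : ∃ w : ℕ, v (n - c) sL = w :=
        ⟨(v (n - c) sL).toNat, by
          have : (0 : ℤ) ≤ ((x + 1 : ℕ) : ℤ) * b (n - c) := by positivity
          omega⟩
      rw [hw] at h3 h4 h5 h6
      have h3' : (x + 1) * b (n - c) ≤ w := by exact_mod_cast h3
      have h4' : w < (x + 1 + 1) * b (n - c) := by exact_mod_cast h4
      have h6' : g (n - c) sL ≤ w := by exact_mod_cast h6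
      have e1 : (x + 1) * b (n - c) = x * b (n - c) + b (n - c) := by ring
      have e2 : (x + 1 + 1) * b (n - c) = x * b (n - c) + 2 * b (n - c) := by ring
      rw [e1] at h3'
      rw [e2] at h4'
      have h8 := h5 (w - x * b (n - c)) (x * b (n - c)) (by omega) (by omega)
      have h9 : (v n s) - w + ((w - x * b (n - c) : ℕ) : ℤ) = v n s - (x * b (n - c) : ℕ) := by
        have : x * b (n - c) ≤ w := by omega
        push_cast [this]
        ring
      rw [h9] at h8
      have h10 : ((x * b (n - c) : ℕ) : ℤ) ≤ v n s := by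
        have h11 : ((x * b (n - c) : ℕ) : ℤ) ≤ ((x * b n : ℕ) : ℤ) := by exact_mod_cast h7
        refine h11.trans ?_
        push_cast
        exact hv
      rw [max_eq_right (by linarith)] at h8
      have h12 : (g n s : ℤ) - (x * b (n - c) : ℕ) ≤ ((g n s - x * b (n - c) : ℕ) : ℤ) := by
        omega
      linarith
  obtain ⟨nQ, hnQ⟩ := stepC D 0 (by omega)
  -- (d) negative virtual dimension
  refine ⟨max (nQ + c) nA, fun n hn s hs => ?_⟩
  have hn1 : nQ + c ≤ n := (le_max_left _ _).trans hn
  have hn2 : nA ≤ n := (le_max_right _ _).trans hn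
  have hn0 : n0 ≤ n := by omega
  rcases le_or_gt 0 (v n s) with hpos | hneg
  · rw [max_eq_right hpos]
    exact hnQ n (by omega) s hs (by simpa using hpos)
  · rw [max_eq_left hneg.le]
    obtain ⟨N, s0, hs0, htop⟩ := split_top top s
    have hPi : ∀ i, P n (replicate i top + s0) ↔ P n s0 := by
      intro i
      induction i with
      | zero => simp
      | succ i ih =>
        rw [Multiset.replicate_succ, Multiset.cons_add, Ptop, ih]
    have hVi : ∀ i : ℕ, v n (replicate i top + s0) = v n s0 - i * b n := by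
      intro i
      induction i with
      | zero => simp
      | succ i ih =>
        rw [Multiset.replicate_succ, Multiset.cons_add, Vtop _ _ hn0, ih]
        push_cast
        ring
    have hP0 : P n s0 := (hPi N).1 (hs0 ▸ hs)
    have h0 := OJ n s0 hn0 hP0 htop
    have hgi : ∀ i k, g n (replicate (i + k) top + s0) ≤ g n (replicate i top + s0) := by
      intro i k
      induction k with
      | zero => exact le_rfl
      | succ k ih =>
        refine le_trans ?_ ih
        have h3 := Ranti n (replicate (i + k) top + s0)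
        rwa [← Multiset.cons_add, ← Multiset.replicate_succ] at h3
    have hbp : (0 : ℤ) < b n := by exact_mod_cast bpos n hn0
    have hv0 : 0 ≤ v n s0 := le_trans (Int.natCast_nonneg _) h0
    obtain ⟨i, hi1, hi2⟩ : ∃ i : ℕ, (i : ℤ) * b n ≤ v n s0 ∧ v n s0 < (i + 1) * b n := by
      refine ⟨(v n s0 / b n).toNat, ?_, ?_⟩
      · have h3 : ((v n s0 / b n).toNat : ℤ) = v n s0 / b n :=
          Int.toNat_of_nonneg (Int.ediv_nonneg hv0 hbp.le)
        rw [h3]
        exact Int.ediv_mul_le _ hbp.ne'
      · have h3 : ((v n s0 / b n).toNat : ℤ) = v n s0 / b n :=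
          Int.toNat_of_nonneg (Int.ediv_nonneg hv0 hbp.le)
        rw [h3]
        exact Int.lt_ediv_add_one_mul_self _ hbp
    have hvs : v n s = v n s0 - N * b n := by rw [hs0, hVi]
    have hiN : i + 1 ≤ N := by
      by_contra h3
      push Not at h3
      have h4 : (N : ℤ) * b n ≤ i * b n := by
        refine mul_le_mul_of_nonneg_right ?_ hbp.le
        have : N ≤ i := by omega
        exact_mod_cast this
      linarith
    set s1 : Multiset K := replicate (i + 1) top + s0 with hs1
    have h4 : g n s ≤ g n s1 := by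
      rw [hs0]
      have h5 := hgi (i + 1) (N - (i + 1))
      rwa [Nat.add_sub_cancel' hiN] at h5
    have hv1 : v n s1 = v n s0 - (i + 1) * b n := by
      rw [hs1, hVi]
      push_cast
      ring
    obtain ⟨sL, hL, h5, h6, h7⟩ := hA n hn2 s1 ((hPi _).2 hP0) (by rw [hv1]; linarith)
      (by rw [hv1]; push_cast; linarith) 0 le_rfl
    have h8 := hnQ (n - c) (by omega) sL hL (by simpa using h5)
    obtain ⟨w, hw⟩ : ∃ w : ℕ, v (n - c) sL = w :=
      ⟨(v (n - c) sL).toNat, by
        have : (0 : ℤ) ≤ v (n - c) sL := by simpa using h5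
        omega⟩
    rw [hw] at h6 h7 h8
    have h6' : w < b (n - c) := by
      have h9 : (w : ℤ) < b (n - c) := by simpa using h6
      exact_mod_cast h9
    have h8' : g (n - c) sL ≤ w := by exact_mod_cast h8
    have h9 := h7 w 0 (by omega) (by omega)
    have h10 : v n s1 - w + w ≤ 0 := by rw [hv1]; linarith
    rw [max_eq_left h10] at h9
    have h11 : (g n s : ℤ) ≤ g n s1 := by exact_mod_cast h4
    rw [Nat.sub_zero] at h9
    exact h11.trans h9

end Pool.Agent.V7.ST

end
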