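import Pool.Agent.H94.LP5.M12
import Pool.Agent.H94.LP5.M22
import Pool.Agent.H94.LP5.M28
import Pool.Agent.H94.LP5.M39
import Pool.Agent.H94.LP5.M40
import Pool.Agent.H94.LP5.V7.ST.Bb

/-! The parts of this file: V7.AL.N1, V7.AL.NumB, V7.ST.Step. -/

section

/-!
# V7, block ALPHA: the virtual dimension on the top level of the chain
-/

set_option autoImplicit false

namespace Pool.Agent.V7

open Finset Pool.Agent.H51.TB Pool.Agent.V7.ST

open Classical in
/-- The number of `M - 1`-sets which do not contain `range j`. -/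
theorem card_top_ord (M j : ℕ) (hM : 2 ≤ M) (hj : j < M) :
    ((kds M (2 * M - 1)).filter fun k => ∃ I, k = Kd.ord M I ∧ I.card = M - 1 ∧
      ¬ range j ⊆ I).card + 1 ≤ (2 * M - 1).choose M := by

  have h1 : ((kds M (2 * M - 1)).filter fun k => ∃ I, k = Kd.ord M I ∧ I.card = M - 1 ∧
      ¬ range j ⊆ I) ⊆ (((range (2 * M - 1)).powersetCard (M - 1)).erase (range (M - 1))).image
        (Kd.ord M) := by
    intro k hk
    rw [mem_filter] at hk
    obtain ⟨h2, I, rfl, h3, h4⟩ := hk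
    rw [mem_kds] at h2
    rw [mem_image]
    refine ⟨I, ?_, rfl⟩
    rw [mem_erase, mem_powersetCard]
    refine ⟨?_, h2.2.2, h3⟩
    rintro rfl
    exact h4 (range_subset_range.2 (by omega))
  have h2 := (card_le_card h1).trans card_image_le
  have h3 : range (M - 1) ∈ (range (2 * M - 1)).powersetCard (M - 1) := by
    rw [mem_powersetCard, card_range]
    exact ⟨range_subset_range.2 (by omega), rfl⟩
  have h4 := card_erase_add_one h3
  rw [card_powersetCard, card_range] at h4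
  have h5 : (2 * M - 1).choose (M - 1) = (2 * M - 1).choose M :=
    Nat.choose_symm_of_eq_add (by omega)
  omega

open Classical in
/-- The bound for one kind. -/
theorem nmb_wt_top {M c j n ν : ℕ} (hM : 2 ≤ M) (hc : 1 ≤ c) (hn : (2 * M - 1) * c ≤ n) {k : Kd}
    (hk : k ∈ kds M (2 * M - 1)) :
    nmb M c j (2 * M - 1) ν k * wt M c n k ≤
      (if ∃ I, k = Kd.ord M I ∧ I.card = M - 1 ∧ ¬ range j ⊆ I then
        c ^ M / (2 * M - 1).choose M * c ^ (M - 1) else 0) + 3 * c ^ (2 * M - 2) := by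

  by_cases h0 : k ∈ kds M (2 * M - 1) ∧ k.In M j ∧ 2 * M - 1 ≤ dgr M k
  swap
  · rw [nmb_neg h0, zero_mul]
    exact Nat.zero_le _
  rw [nmb_pos h0.1 h0.2.1 h0.2.2]
  have hok := mem_kds.1 hk
  have hpow : c ^ (M - 1) * c ^ (M - 1) = c ^ (2 * M - 2) := by
    rw [← pow_add]
    congr 1
    omega
  have hcard : ∀ I : Finset ℕ, I ⊆ range (2 * M - 1) → I.card * c ≤ n := by
    intro I hI
    have h1 := card_le_card hI
    rw [card_range] at h1
    exact (Nat.mul_le_mul_right c h1).trans hn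
  cases k with
  | ord μ I =>
    obtain ⟨h1, h2, h3⟩ := hok
    have h4 : 2 * M - 1 ≤ 2 * M - μ + I.card := h0.2.2
    show rho M c (Kd.ord μ I) * (ν - (2 * M - 1 - j)).choose (2 * M - μ + I.card - (2 * M - 1)) *
      bb c (μ - 1) I.card n ≤ _
    rcases Nat.lt_or_ge (μ - 1) I.card with h5 | h5
    · rw [bb_zero c _ _ n (hcard I h3) h5, mul_zero]
      exact Nat.zero_le _
    · have h6 : I.card = μ - 1 := by omega
      have h7 : 2 * M - μ + I.card - (2 * M - 1) = 0 := by omega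
      rw [h7, Nat.choose_zero_right, mul_one, h6, bb_self c _ n (h6 ▸ hcard I h3)]
      by_cases h8 : μ = M
      · subst h8
        have h9 : ∃ I', Kd.ord μ I = Kd.ord μ I' ∧ I'.card = μ - 1 ∧ ¬ range j ⊆ I' :=
          ⟨I, rfl, h6, h0.2.1 rfl⟩
        rw [if_pos h9]
        show (if μ = μ then c ^ μ / (2 * μ - 1).choose μ + c ^ (μ - 1) else 1) * c ^ (μ - 1) ≤ _
        rw [if_pos rfl, add_mul, hpow]
        omega
      · show (if μ = M then c ^ M / (2 * M - 1).choose M + c ^ (M - 1) else 1) * c ^ (μ - 1) ≤ _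
        rw [if_neg h8, one_mul]
        have h9 : c ^ (μ - 1) ≤ c ^ (2 * M - 2) := Nat.pow_le_pow_right hc (by omega)
        omega
  | sw i I =>
    obtain ⟨h1, h3'⟩ := hok
    have h3 : I ⊆ range (2 * M - 1) := fun x hx => mem_range.2 (mem_Ico.1 (h3' hx)).2
    have h4 : 2 * M - 1 ≤ M + I.card := h0.2.2
    show 3 * c ^ (M - 1) * (ν - (2 * M - 1 - j)).choose (M + I.card - (2 * M - 1)) *
      (bb c (M - 1) I.card n - if I = ∅ then 1 else 0) ≤ _
    rcases Nat.lt_or_ge (M - 1) I.card with h5 | h5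
    · rw [bb_zero c _ _ n (hcard I h3) h5, Nat.zero_sub, mul_zero]
      exact Nat.zero_le _
    · have h6 : I.card = M - 1 := by omega
      have h7 : M + I.card - (2 * M - 1) = 0 := by omega
      rw [h7, Nat.choose_zero_right, mul_one, h6, bb_self c _ n (h6 ▸ hcard I h3)]
      have h8 : 3 * c ^ (M - 1) * (c ^ (M - 1) - if I = ∅ then 1 else 0) ≤ 3 * c ^ (2 * M - 2) := by
        rw [← hpow, ← mul_assoc]
        exact Nat.mul_le_mul_left _ (Nat.sub_le _ _)
      omega

/-- N1 (helper72), file AL/N1.lean -/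
theorem top_low (M j : ℕ) (hM : 2 ≤ M) (hj : j < M) : ∃ c₀ : ℕ, ∀ c, c₀ ≤ c →
    (2 * M - 1).choose M ∣ c → ∀ n ν, (2 * M - 1) * c ≤ n →
    ((c ^ (2 * M - 1) : ℕ) : ℤ) ≤
      2 * ((2 * M - 1).choose M : ℤ) * vd M c (2 * M - 1) n (cfg M c j (2 * M - 1) ν) := by
  classical

  refine ⟨6 * (2 * M - 1).choose M * (kds M (2 * M - 1)).card + 1, fun c hc hdiv n ν hn => ?_⟩
  have hc1 : 1 ≤ c := by omega
  obtain ⟨m, hm⟩ := hdiv
  set C := (2 * M - 1).choose M with hC
  set K := (kds M (2 * M - 1)).card with hK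
  have hCpos : 0 < C := Nat.choose_pos (by omega)
  -- the sum of the weights
  have hsum : ((cfg M c j (2 * M - 1) ν).map (wt M c n)).sum ≤
      (C - 1) * (c ^ M / C * c ^ (M - 1)) + K * (3 * c ^ (2 * M - 2)) := by
    have e1 : ((cfg M c j (2 * M - 1) ν).map (wt M c n)).sum =
        ∑ k ∈ kds M (2 * M - 1), nmb M c j (2 * M - 1) ν k * wt M c n k := by
      unfold cfg
      have e : (∑ k ∈ kds M (2 * M - 1), Multiset.replicate (nmb M c j (2 * M - 1) ν k) k).map
          (wt M c n) = ∑ k ∈ kds M (2 * M - 1),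
            (Multiset.replicate (nmb M c j (2 * M - 1) ν k) k).map (wt M c n) :=
        map_sum (Multiset.mapAddMonoidHom (wt M c n)) _ _
      rw [e]
      have e2 : (∑ k ∈ kds M (2 * M - 1),
          (Multiset.replicate (nmb M c j (2 * M - 1) ν k) k).map (wt M c n)).sum =
          ∑ k ∈ kds M (2 * M - 1),
            ((Multiset.replicate (nmb M c j (2 * M - 1) ν k) k).map (wt M c n)).sum :=
        map_sum (Multiset.sumAddMonoidHom : Multiset ℕ →+ ℕ) _ _
      rw [e2]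
      refine Finset.sum_congr rfl fun k _ => ?_
      rw [Multiset.map_replicate, Multiset.sum_replicate, smul_eq_mul]
    rw [e1]
    refine (Finset.sum_le_sum fun k hk => nmb_wt_top (j := j) (ν := ν) hM hc1 hn hk).trans ?_
    rw [Finset.sum_add_distrib, Finset.sum_const, smul_eq_mul, ← Finset.sum_filter,
      Finset.sum_const, smul_eq_mul]
    have h1 := card_top_ord M j hM hj
    have h2 : ((kds M (2 * M - 1)).filter fun k => ∃ I, k = Kd.ord M I ∧ I.card = M - 1 ∧
        ¬ range j ⊆ I).card ≤ C - 1 := by omega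
    exact Nat.add_le_add_right (Nat.mul_le_mul_right _ h2) _
  have hCM : C * (c ^ M / C) = c ^ M := by
    refine Nat.mul_div_cancel' ?_
    exact (Dvd.intro m hm.symm).trans (dvd_pow_self c (by omega))
  have hp1 : c ^ M * c ^ (M - 1) = c ^ (2 * M - 1) := by
    rw [← pow_add]
    congr 1
    omega
  have hp2 : c ^ (2 * M - 1) = c * c ^ (2 * M - 2) := by
    rw [← pow_succ']
    congr 1
    omega
  have hvd : vd M c (2 * M - 1) n (cfg M c j (2 * M - 1) ν) =
      ((c ^ (2 * M - 1) : ℕ) : ℤ) - (((cfg M c j (2 * M - 1) ν).map (wt M c n)).sum : ℕ) := by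
    unfold vd
    rw [bb_self c (2 * M - 1) n hn]
  rw [hvd]
  set S := ((cfg M c j (2 * M - 1) ν).map (wt M c n)).sum with hS
  have h3 : C * S ≤ (C - 1) * c ^ (2 * M - 1) + C * (K * (3 * c ^ (2 * M - 2))) := by
    calc C * S ≤ C * ((C - 1) * (c ^ M / C * c ^ (M - 1)) + K * (3 * c ^ (2 * M - 2))) :=
          Nat.mul_le_mul_left _ hsum
      _ = (C - 1) * (C * (c ^ M / C) * c ^ (M - 1)) + C * (K * (3 * c ^ (2 * M - 2))) := by ring
      _ = _ := by rw [hCM, hp1]
  have h4 : 6 * C * K * c ^ (2 * M - 2) ≤ c ^ (2 * M - 1) := by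
    rw [hp2]
    exact Nat.mul_le_mul_right _ (by omega)
  set X := c ^ (2 * M - 1) with hX
  set Y := c ^ (2 * M - 2) with hY
  have h5 : 2 * (C * S) ≤ 2 * ((C - 1) * X) + X := by
    have h6 : 2 * (C * (K * (3 * Y))) = 6 * C * K * Y := by ring
    omega
  have h6 : (C - 1) * X + X = C * X := by
    rw [← Nat.succ_mul]
    congr 1
    omega
  have h7 : 2 * (C * S) + X ≤ 2 * (C * X) := by omega
  have h8 : (2 * ((C : ℤ) * S) + X) ≤ 2 * ((C : ℤ) * X) := by exact_mod_cast h7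
  linarith

end Pool.Agent.V7

end

section

/-!
# V7, block ALPHA, the chain: growth of the virtual dimensions

`growth`: if `f (ν + 1) = f ν + g (ν + 1)`, `g ν ≥ a ν ^ e` and `f K ≥ - b` then `f` grows like `ν ^ (e+1)`.
-/

set_option autoImplicit false

namespace Pool.Agent.V7

open Finset Pool.Agent.H51.TB Pool.Agent.V7.ST

/-- Summation of a lower bound. -/
theorem growth (f g : ℕ → ℝ) (K e : ℕ) (a b : ℝ) (ha : 0 < a)
    (hf : ∀ ν, K ≤ ν → f (ν + 1) = f ν + g (ν + 1)) (hg : ∀ ν, K ≤ ν → a * (ν : ℝ) ^ e ≤ g ν)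
    (hK : -b ≤ f K) : ∀ ν, 2 * K + 2 ≤ ν → -b + a * ((ν : ℝ) / 4) ^ (e + 1) ≤ f ν := by
  have h1 : ∀ i, ∀ K', K ≤ K' → f K' + i * (a * (K' : ℝ) ^ e) ≤ f (K' + i) := by
    intro i
    induction i with
    | zero => intro K' _; simp
    | succ i ih =>
      intro K' hK'
      have h2 := ih K' hK'
      have h3 := hf (K' + i) (by omega)
      have h4 := hg (K' + i + 1) (by omega)
      have h5 : (K' : ℝ) ^ e ≤ ((K' + i + 1 : ℕ) : ℝ) ^ e := by
        refine pow_le_pow_left₀ (Nat.cast_nonneg _) ?_ e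
        exact_mod_cast (by omega : K' ≤ K' + i + 1)
      have h6 : a * (K' : ℝ) ^ e ≤ a * ((K' + i + 1 : ℕ) : ℝ) ^ e :=
        mul_le_mul_of_nonneg_left h5 ha.le
      have h7 : f (K' + (i + 1)) = f (K' + i) + g (K' + i + 1) := h3
      rw [h7]
      push_cast
      push_cast at h4 h6
      linarith
  intro ν hν
  set K' := ν / 2 with hK'
  have h2 : K ≤ K' := by omega
  have h3 := h1 (K' - K) K le_rfl
  have h4 := h1 (ν - K') K' h2
  have e3 : K + (K' - K) = K' := by omega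
  have e4 : K' + (ν - K') = ν := by omega
  rw [e3] at h3
  rw [e4] at h4
  have h5 : 0 ≤ ((K' - K : ℕ) : ℝ) * (a * (K : ℝ) ^ e) := by positivity
  have h6 : (ν : ℝ) / 4 ≤ K' := by
    have h7 : ν ≤ 2 * K' + 1 := by omega
    have h8 : (ν : ℝ) ≤ 2 * K' + 1 := by exact_mod_cast h7
    have h9 : (1 : ℝ) ≤ K' := by exact_mod_cast (by omega : 1 ≤ K')
    linarith
  have h7 : (ν : ℝ) / 4 ≤ ((ν - K' : ℕ) : ℝ) := by
    have h8 : K' ≤ ν - K' := by omega
    have h9 : (K' : ℝ) ≤ ((ν - K' : ℕ) : ℝ) := by exact_mod_cast h8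
    linarith
  have h8 : (0 : ℝ) ≤ (ν : ℝ) / 4 := by positivity
  have h9 : a * ((ν : ℝ) / 4) ^ (e + 1) ≤ ((ν - K' : ℕ) : ℝ) * (a * (K' : ℝ) ^ e) := by
    have h10 : ((ν : ℝ) / 4) ^ (e + 1) ≤ ((ν - K' : ℕ) : ℝ) * (K' : ℝ) ^ e := by
      rw [pow_succ, mul_comm]
      exact mul_le_mul h7 (pow_le_pow_left₀ h8 h6 e) (pow_nonneg h8 e) (Nat.cast_nonneg _)
    calc a * ((ν : ℝ) / 4) ^ (e + 1) ≤ a * (((ν - K' : ℕ) : ℝ) * (K' : ℝ) ^ e) :=
          mul_le_mul_of_nonneg_left h10 ha.le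
      _ = _ := by ring
  linarith

theorem bb_le_mc (c k : ℕ) : ∀ j n, bb c k j n ≤ n.multichoose k
  | 0, _ => le_rfl
  | j + 1, n => (Nat.sub_le _ _).trans (bb_le_mc c k j n)

theorem mc_le (n k : ℕ) : n.multichoose k ≤ (n + k) ^ k := by
  rw [Nat.multichoose_eq]
  refine (Nat.choose_le_pow _ _).trans (Nat.pow_le_pow_left (by omega) k)

/-- The number of conditions of a point is at most `const * c ^ (M - 1)`. -/
theorem wt_le {M c l n ν : ℕ} (hM : 1 ≤ M) (hc : 1 ≤ c) (hn : n ≤ c * (ν + 1)) {k : Kd}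
    (hk : k.Ok M l) : wt M c n k ≤ (ν + 1 + M) ^ (M - 1) * c ^ (M - 1) := by
  have h1 : ∀ μ, μ ≤ M → ∀ a, bb c (μ - 1) a n ≤ (ν + 1 + M) ^ (M - 1) * c ^ (M - 1) := by
    intro μ hμ a
    refine ((bb_le_mc c (μ - 1) a n).trans (mc_le n (μ - 1))).trans ?_
    rw [← mul_pow]
    have h2 : n + (μ - 1) ≤ (ν + 1 + M) * c := by
      have h3 : (ν + 1 + M) * c = c * (ν + 1) + M * c := by ring
      have h4 : M ≤ M * c := Nat.le_mul_of_pos_right M hc
      omega
    refine (Nat.pow_le_pow_left h2 _).trans (Nat.pow_le_pow_right ?_ (by omega))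
    exact Nat.mul_pos (by omega) hc
  cases k with
  | ord μ I => exact h1 μ hk.2.1 _
  | sw i I => exact (Nat.sub_le _ _).trans (h1 M le_rfl _)

theorem rho_le {M c : ℕ} (hM : 1 ≤ M) (hc : 1 ≤ c) (k : Kd) : rho M c k ≤ 3 * c ^ M := by
  have h1 : c ^ (M - 1) ≤ c ^ M := Nat.pow_le_pow_right hc (by omega)
  have h2 : 1 ≤ c ^ M := Nat.one_le_pow _ _ hc
  cases k with
  | ord μ I =>
    show (if μ = M then c ^ M / (2 * M - 1).choose M + c ^ (M - 1) else 1) ≤ 3 * c ^ M
    have h3 := Nat.div_le_self (c ^ M) ((2 * M - 1).choose M)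
    split_ifs <;> omega
  | sw i I =>
    show 3 * c ^ (M - 1) ≤ 3 * c ^ M
    omega

theorem nmb_le {M c j l ν : ℕ} (hM : 1 ≤ M) (hc : 1 ≤ c) (k : Kd) :
    nmb M c j l ν k ≤ 3 * 2 ^ ν * c ^ M := by
  unfold nmb
  split_ifs
  · have h1 := rho_le hM hc k
    have h2 : (ν - (l - j)).choose (dgr M k - l) ≤ 2 ^ ν :=
      (Nat.choose_le_two_pow _ _).trans (Nat.pow_le_pow_right (by norm_num) (by omega))
    calc rho M c k * (ν - (l - j)).choose (dgr M k - l) ≤ (3 * c ^ M) * 2 ^ ν :=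
          Nat.mul_le_mul h1 h2
      _ = _ := by ring
  · exact Nat.zero_le _

theorem sum_wt_cfg (M c j l ν n : ℕ) :
    ((cfg M c j l ν).map (wt M c n)).sum = ∑ k ∈ kds M l, nmb M c j l ν k * wt M c n k := by
  unfold cfg
  have e : (∑ k ∈ kds M l, Multiset.replicate (nmb M c j l ν k) k).map (wt M c n) =
      ∑ k ∈ kds M l, (Multiset.replicate (nmb M c j l ν k) k).map (wt M c n) :=
    map_sum (Multiset.mapAddMonoidHom (wt M c n)) _ _
  rw [e]
  have e2 : (∑ k ∈ kds M l, (Multiset.replicate (nmb M c j l ν k) k).map (wt M c n)).sum =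
      ∑ k ∈ kds M l, ((Multiset.replicate (nmb M c j l ν k) k).map (wt M c n)).sum :=
    map_sum (Multiset.sumAddMonoidHom : Multiset ℕ →+ ℕ) _ _
  rw [e2]
  refine Finset.sum_congr rfl fun k _ => ?_
  rw [Multiset.map_replicate, Multiset.sum_replicate, smul_eq_mul]

/-- The virtual dimension is at least `- const * c ^ (2M-1)`. -/
theorem vd_low {M c j l ν n : ℕ} (hM : 1 ≤ M) (hc : 1 ≤ c) (hn : n ≤ c * (ν + 1)) :
    -(((kds M l).card * (3 * 2 ^ ν) * (ν + 1 + M) ^ (M - 1) * c ^ (2 * M - 1) : ℕ) : ℤ) ≤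
      vd M c l n (cfg M c j l ν) := by
  unfold vd
  have h1 : ((cfg M c j l ν).map (wt M c n)).sum ≤
      (kds M l).card * (3 * 2 ^ ν) * (ν + 1 + M) ^ (M - 1) * c ^ (2 * M - 1) := by
    rw [sum_wt_cfg]
    have h2 : ∀ k ∈ kds M l, nmb M c j l ν k * wt M c n k ≤
        3 * 2 ^ ν * (ν + 1 + M) ^ (M - 1) * c ^ (2 * M - 1) := by
      intro k hk
      have h3 := nmb_le (j := j) (l := l) (ν := ν) hM hc k
      have h4 := wt_le hM hc hn (mem_kds.1 hk)
      have h5 : c ^ (2 * M - 1) = c ^ M * c ^ (M - 1) := by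
        rw [← pow_add]
        congr 1
        omega
      calc nmb M c j l ν k * wt M c n k ≤
          (3 * 2 ^ ν * c ^ M) * ((ν + 1 + M) ^ (M - 1) * c ^ (M - 1)) := Nat.mul_le_mul h3 h4
        _ = _ := by
          rw [h5]
          ring
    refine (Finset.sum_le_card_nsmul _ _ _ h2).trans (le_of_eq ?_)
    rw [smul_eq_mul]
    ring
  have h2 : (0 : ℤ) ≤ (bb c (2 * M - 1) l n : ℤ) := Int.natCast_nonneg _
  have h3 : ((((cfg M c j l ν).map (wt M c n)).sum : ℕ) : ℤ) ≤
      (((kds M l).card * (3 * 2 ^ ν) * (ν + 1 + M) ^ (M - 1) * c ^ (2 * M - 1) : ℕ) : ℤ) := by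
    exact_mod_cast h1
  omega

/-- Additivity of the virtual dimensions of the chain. -/
theorem vd_chain {M c j l n ν : ℕ} (hc : 0 < c) (hjl : j ≤ l) (hν : l ≤ ν + j)
    (hn : (l + 1) * c + 1 ≤ n) :
    vd M c l n (cfg M c j l (ν + 1)) =
      vd M c l (n - c) (cfg M c j l ν) + vd M c (l + 1) n (cfg M c j (l + 1) (ν + 1)) := by
  have h1 := vd_res (M := M) hc hn (cfg M c j l ν) (cfg M c j l (ν + 1) - cfg M c j l ν) 0
    fun k hk => (mem_cfg hk).1
  rw [Multiset.replicate_zero, Multiset.replicate_zero, add_zero, add_zero, cfg_step hjl hν,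
    add_tsub_cancel_of_le cfg_mono, Nat.cast_zero, add_zero] at h1
  omega

end Pool.Agent.V7

end

section

/-!
# V7, block STEP: exactness on the level `j` from exactness on the level `j + 1`
-/

set_option autoImplicit false

namespace Pool.Agent.V7

open Finset Pool.Agent.H51.TB Pool.Agent.V7.ST

theorem Cls0.mono {M c j n : ℕ} {e e' : ℝ} {N : Kd → ℕ} (h : Cls0 M c j n e N) (he : e ≤ e') :
    Cls0 M c j n e' N := by
  have hn : ∀ k : ℕ, (0 : ℝ) ≤ (n : ℝ) ^ k := fun k => by positivity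
  exact ⟨h.ok, fun I h1 h2 => (h.big I h1 h2).trans (mul_le_mul_of_nonneg_right he (hn _)),
    fun i hi I hI => (h.swp i hi I hI).trans (mul_le_mul_of_nonneg_right (by linarith) (hn _)),
    fun μ h1 h2 I hI => (h.sml μ h1 h2 I hI).trans (mul_le_mul_of_nonneg_right he (hn _))⟩

/-- Nothing is required about the points of the kind `ord M (range j)`. -/
theorem Cls0.cons_top {M c j n : ℕ} (hM : 1 ≤ M) {e : ℝ} {s : Multiset Kd} :
    Cls0 M c j n e (fun τ => (Kd.ord M (range j) ::ₘ s).count τ) ↔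
      Cls0 M c j n e (fun τ => s.count τ) := by
  have h1 : ∀ τ, τ ≠ Kd.ord M (range j) →
      (Kd.ord M (range j) ::ₘ s).count τ = s.count τ := fun τ hτ => Multiset.count_cons_of_ne hτ _
  have h2 : ∀ I, I ≠ range j →
      tot M j (fun τ => (Kd.ord M (range j) ::ₘ s).count τ) I = tot M j (fun τ => s.count τ) I := by
    intro I hI
    unfold tot
    dsimp only
    rw [h1 _ fun h => hI (Kd.ord.inj h).2]
    congr 1
    exact sum_congr rfl fun i _ => h1 _ fun h => Kd.noConfusion h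
  constructor
  · intro h
    refine ⟨fun τ hτ => h.ok τ ?_, fun I hI hI' => ?_, fun i hi I hI => ?_,
      fun μ h3 h4 I hI => ?_⟩
    · by_cases h3 : τ = Kd.ord M (range j)
      · rw [h3, Multiset.count_cons_self]
        omega
      · rw [h1 τ h3]
        exact hτ
    · rw [← h2 I hI']
      exact h.big I hI hI'
    · have h3 := h.swp i hi I hI
      rwa [h1 _ fun h => Kd.noConfusion h] at h3
    · have h5 := h.sml μ h3 h4 I hI
      rwa [h1 _ fun h => absurd (Kd.ord.inj h).1 h4.ne] at h5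
  · intro h
    refine ⟨fun τ hτ => ?_, fun I hI hI' => ?_, fun i hi I hI => ?_,
      fun μ h3 h4 I hI => ?_⟩
    · by_cases h3 : τ = Kd.ord M (range j)
      · rw [h3, mem_kds]
        exact ⟨hM, le_rfl, subset_rfl⟩
      · refine h.ok τ ?_
        rwa [h1 τ h3] at hτ
    · rw [h2 I hI']
      exact h.big I hI hI'
    · have h3 := h.swp i hi I hI
      rwa [h1 _ fun h => Kd.noConfusion h]
    · have h5 := h.sml μ h3 h4 I hI
      rwa [h1 _ fun h => absurd (Kd.ord.inj h).1 h4.ne]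

theorem Cls0.ok' {M c j n : ℕ} {e : ℝ} {s : Multiset Kd}
    (h : Cls0 M c j n e (fun τ => s.count τ)) : ∀ k ∈ s, k.Ok M j := by
  intro k hk
  refine mem_kds.1 (h.ok k ?_)
  exact (Multiset.count_pos.2 hk).ne'

theorem gM_add_le {E ν T : Type} [Fintype E] (S : Sys E ν T) (s : Multiset T) :
    gM S s ≤ Fintype.card E := by
  induction s using Multiset.induction_on with
  | empty => exact (gM_zero S).le
  | cons t s ih => exact (gM_cons_le S s t).trans ih

/-- STEP, from DH and NUM. -/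
theorem step_of (M c j : ℕ) (hj : j + 2 ≤ M) (hc : 0 < c)
    (dh : ∀ (n : ℕ) (sL sO : Multiset Kd) (y a : ℕ), (j + 1) * c + 1 ≤ n →
      (∀ k ∈ sL, k.Ok M j) →
      gM (LS M (blk c (n - c)) j) (sL + Multiset.replicate (y + a) Kd.sm) = 0 →
      gM (LS M (blk c n) j) (sL + sO + Multiset.replicate y (Kd.ord M ∅) +
        Multiset.replicate a Kd.sm) ≤
      gM (LS M (blk c n) (j + 1)) (sL.map (Kd.add j) + sO + Multiset.replicate y (Kd.sw j ∅)))
    (num : ∀ e' : ℝ, 0 < e' → ∃ e₀ : ℝ, 0 < e₀ ∧ ∀ e : ℝ, 0 < e → e ≤ e₀ → ∀ X : ℕ, ∃ n₁ : ℕ,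
      ∀ n : ℕ, n₁ ≤ n → ∀ s : Multiset Kd, Cls0 M c j n (e + 1 / (n : ℝ)) (fun τ => s.count τ) →
      -(bb c (M - 1) j n : ℤ) ≤ vd M c j n s → vd M c j n s < (X + 1) * bb c (M - 1) j n →
      ∀ x, x ≤ X → ∃ sL sO : Multiset Kd,
        s = sL + sO + Multiset.replicate (2 * bb c (M - 1) j (n - c)) (Kd.ord M ∅) ∧
        Cls0 M c j (n - c) (e + 1 / ((n - c : ℕ) : ℝ)) (fun τ => sL.count τ) ∧
        (x : ℤ) * bb c (M - 1) j (n - c) ≤ vd M c j (n - c) sL ∧
        vd M c j (n - c) sL < (x + 1) * bb c (M - 1) j (n - c) ∧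
        ∀ y, y ≤ 2 * bb c (M - 1) j (n - c) → Cls M c (j + 1) n e' (fun τ =>
          (sL.map (Kd.add j) +
            (sO + Multiset.replicate (2 * bb c (M - 1) j (n - c) - y) (Kd.ord M ∅)) +
            Multiset.replicate y (Kd.sw j ∅)).count τ))
    (hO : OJ M c j) (hP : PROP M c (j + 1)) : PROP M c j := by
  obtain ⟨e', he', n₂, hP⟩ := hP
  obtain ⟨eO, heO, n₃, hO⟩ := hO
  obtain ⟨e₀, he₀, hnum⟩ := num e' he'
  obtain ⟨n₄, hn₄⟩ := exists_nat_gt (2 / eO)
  set e : ℝ := min e₀ (eO / 2) with he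
  have hepos : 0 < e := lt_min he₀ (by positivity)
  have hrad : ∀ n : ℕ, n₄ + 1 ≤ n → e + 1 / (n : ℝ) ≤ eO := by
    intro n hn
    have h1 : (2 / eO : ℝ) < n := by
      refine hn₄.trans ?_
      exact_mod_cast hn
    have h2 : (0 : ℝ) < n := lt_trans (by positivity) h1
    have h3 : 1 / (n : ℝ) ≤ eO / 2 := by
      rw [div_le_iff₀ h2]
      rw [div_lt_iff₀ heO] at h1
      linarith
    have h4 : e ≤ eO / 2 := min_le_right _ _
    linarith
  set n₀ : ℕ := n₂ + n₃ + n₄ + 1 + ((j + 1) * c + 1) with hn₀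
  have hjc : j * c ≤ (j + 1) * c := Nat.mul_le_mul_right c (Nat.le_succ j)
  have hjc' : (j + 1) * c = j * c + c := by ring
  obtain ⟨n₅, h⟩ := step_abs c hc (fun n s => gM (LS M (blk c n) j) s)
    (fun n s => gM (LS M (blk c n) (j + 1)) s) (fun n s => vd M c j n s)
    (fun n s => vd M c (j + 1) n s) (fun n => bb c (M - 1) j n)
    (fun n s => Cls0 M c j n (e + 1 / (n : ℝ)) fun τ => s.count τ)
    (fun n s => Cls M c (j + 1) n e' fun τ => s.count τ) Kd.sm (Kd.ord M ∅) (Kd.sw j ∅)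
    (Kd.ord M (range j)) (Kd.add j) n₀
    (fun n hn => bb_pos hc (M - 1) (by omega) (by omega))
    (fun n hn => bb_mono hc (M - 1) (by omega) (Nat.sub_le n c))
    (fun n => ⟨_, fun s => gM_add_le (LS M (blk c n) j) s⟩)
    (fun n s hn hs => vd_le_gM_blk (by omega) hc (by omega) s hs.ok')
    (fun n s a _ => gM_add_sm M (blk c n) (Ex (blk c n) (2 * M - 1) j) s a)
    (fun n s => gM_cons_le (LS M (blk c n) j) s _)
    (fun n s hn => by
      have h1 := gM_le_cons (LS M (blk c n) j) s (Kd.ord M (range j))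
      have h2 := size_blk (M := M) (c := c) (j := j) (n := n) (by omega) hc (by omega)
        (k := Kd.ord M (range j)) ⟨by omega, le_rfl, subset_rfl⟩
      have h3 : wt M c n (Kd.ord M (range j)) = bb c (M - 1) j n := by
        show bb c (M - 1) (range j).card n = _
        rw [card_range]
      rw [h3] at h2
      exact h1.trans (Nat.add_le_add_left h2 _))
    (fun n s => gM_submod (LS M (blk c n) j) s _ _)
    (fun n s _ => by
      have h3 : wt M c n (Kd.ord M (range j)) = bb c (M - 1) j n := by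
        show bb c (M - 1) (range j).card n = _
        rw [card_range]
      unfold vd
      rw [Multiset.map_cons, Multiset.sum_cons, h3]
      push_cast
      ring)
    (fun n s => Cls0.cons_top (by omega))
    (fun n s hn hs hns => hO n (by omega) s (hs.mono (hrad n (by omega))) hns)
    (fun n sL sO y a hn hs h0 => dh n sL sO y a (by omega)
      (fun k hk => hs.ok' k (Multiset.mem_add.2 (Or.inl (Multiset.mem_add.2 (Or.inl hk))))) h0)
    (fun n s hn hs => hP n (by omega) s hs)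
    (fun n sL sO y hn hs => vd_res hc (by omega) sL sO y
      (fun k hk => hs.ok' k (Multiset.mem_add.2 (Or.inl (Multiset.mem_add.2 (Or.inl hk))))))
    (hnum e hepos (min_le_left _ _))
  refine ⟨e, hepos, n₅, fun n hn s hs => h n hn s (hs.toCls0.mono ?_)⟩
  have h1 : (0 : ℝ) ≤ 1 / (n : ℝ) := by positivity
  linarith

end Pool.Agent.V7

end
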