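import Pool.Agent.H94.LP5.M12
import Pool.Agent.H94.LP5.M27

/-! The parts of this file: V7.Tr, V7.DH, V7.DHm, V7.TrM. -/

section

/-!
# V7, block DH: the differential Horace step for configurations of kinds
-/

set_option autoImplicit false
set_option linter.unusedSectionVars false

namespace Pool.Agent.V7

open Finset MvPolynomial Pool.Agent.H51.TB Pool.Agent.H54.V7
open Pool.Agent.H18.Ex (tcr)

section

variable {ν : Type} [Fintype ν] [DecidableEq ν]

/-- The block `j`. -/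
abbrev Bj (β : ν → ℕ) (j : ℕ) : Finset ν := univ.filter fun s => β s = j

/-- The exponents of `A` off the block `j`. -/
abbrev A0 (β : ν → ℕ) (j : ℕ) (A : Finset (ν → ℕ)) : Finset (ν → ℕ) :=
  A.filter fun a => ∀ s ∈ Bj β j, a s = 0

/-- The exponents of `A` which meet the block `j`. -/
abbrev A1 (β : ν → ℕ) (j : ℕ) (A : Finset (ν → ℕ)) : Finset (ν → ℕ) :=
  A.filter fun a => ¬ ∀ s ∈ Bj β j, a s = 0

/-- The position with both vectors on the subspace of the block `j`. -/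
def mq (β : ν → ℕ) (j : ℕ) (q : ν ⊕ ν → ℂ) : ν ⊕ ν → ℂ :=
  Sum.elim (msk β {j} fun s => q (Sum.inl s)) (msk β {j} fun s => q (Sum.inr s))

/-- The restriction of a function to a smaller set of exponents. -/
def rs {A A' : Finset (ν → ℕ)} (h : A' ⊆ A) (f : {a // a ∈ A} → ℂ) : {a // a ∈ A'} → ℂ :=
  fun e => f ⟨e.1, h e.2⟩

/-- Taylor coefficients as sums over a finite set. -/
theorem sum_coe {A : Finset (ν → ℕ)} (f : {a // a ∈ A} → ℂ) (g : (ν → ℕ) → ℂ) :
    ∑ e : {a // a ∈ A}, f e * g e.1 =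
      ∑ a ∈ A, (if h : a ∈ A then f ⟨a, h⟩ else 0) * g a := by
  rw [← sum_coe_sort A fun a => (if h : a ∈ A then f ⟨a, h⟩ else 0) * g a]
  refine sum_congr rfl fun e _ => ?_
  rw [dif_pos e.2]

theorem sum_rs {A A' : Finset (ν → ℕ)} (h : A' ⊆ A) (f : {a // a ∈ A} → ℂ) (g : (ν → ℕ) → ℂ)
    (h0 : ∀ e : {a // a ∈ A}, e.1 ∉ A' → f e * g e.1 = 0) :
    ∑ e : {a // a ∈ A'}, rs h f e * g e.1 = ∑ e : {a // a ∈ A}, f e * g e.1 := by
  rw [sum_coe, sum_coe, ← sum_subset h]
  · refine sum_congr rfl fun a ha => ?_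
    rw [dif_pos ha, dif_pos (h ha)]
    rfl
  · intro a ha ha'
    rw [dif_pos ha]
    exact h0 ⟨a, ha⟩ ha'

/-- The Taylor coefficients on the subspace. -/
theorem TC_trace (β : ν → ℕ) (j : ℕ) (A : Finset (ν → ℕ)) (f : {a // a ∈ A} → ℂ)
    (p : ν → ℂ) (hp : ∀ s ∈ Bj β j, p s = 0) (b : ν → ℕ) (hb : ∀ s ∈ Bj β j, b s = 0) :
    TC (fun e : {a // a ∈ A0 β j A} => e.1) (rs (filter_subset _ A) f) p b =
      TC (fun e : {a // a ∈ A} => e.1) f p b := by
  unfold TC
  refine sum_rs (filter_subset _ A) f (fun a => tcr p a b) fun e he => ?_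
  rw [tcr_off (Bj β j) p hp e.1 b hb, mul_zero]
  intro h
  exact he (mem_filter.2 ⟨e.2, h⟩)

/-- The Taylor coefficients on the subspace do not depend on the coordinates of the block `j`. -/
theorem TC_A0 (β : ν → ℕ) (j : ℕ) (A : Finset (ν → ℕ)) (f : {a // a ∈ A0 β j A} → ℂ)
    (p p' : ν → ℂ) (hp : ∀ s, s ∉ Bj β j → p s = p' s) (b : ν → ℕ) :
    TC (fun e : {a // a ∈ A0 β j A} => e.1) f p b =
      TC (fun e : {a // a ∈ A0 β j A} => e.1) f p' b := by
  unfold TC
  refine sum_congr rfl fun e _ => ?_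
  have he := (mem_filter.1 e.2).2
  congr 1
  unfold tcr
  refine prod_congr rfl fun s _ => ?_
  show (((e.1 s).choose (b s) : ℕ) : ℂ) * p s ^ (e.1 s - b s) =
    (((e.1 s).choose (b s) : ℕ) : ℂ) * p' s ^ (e.1 s - b s)
  by_cases hs : s ∈ Bj β j
  · rw [he s hs, Nat.zero_sub, pow_zero, pow_zero]
  · rw [hp s hs]

theorem TC_A0_zero (β : ν → ℕ) (j : ℕ) (A : Finset (ν → ℕ)) (f : {a // a ∈ A0 β j A} → ℂ)
    (p : ν → ℂ) (b : ν → ℕ) (hb : ¬ ∀ s ∈ Bj β j, b s = 0) :
    TC (fun e : {a // a ∈ A0 β j A} => e.1) f p b = 0 := by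
  push Not at hb
  obtain ⟨s, hs, hb⟩ := hb
  unfold TC
  refine sum_eq_zero fun e _ => ?_
  have he := (mem_filter.1 e.2).2
  rw [tcr_eq_zero p e.1 b, mul_zero]
  intro h
  have h1 := h s
  have h2 := he s hs
  exact hb (Nat.eq_zero_of_le_zero (h2 ▸ h1))

theorem Fat_trace (β : ν → ℕ) (j : ℕ) (A : Finset (ν → ℕ)) (M : ℕ) (f : {a // a ∈ A} → ℂ)
    (p p' : ν → ℂ) (hp : ∀ s ∈ Bj β j, p s = 0) (hpp : ∀ s, s ∉ Bj β j → p' s = p s)
    (h : Fat (fun e : {a // a ∈ A} => e.1) M p f) :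
    Fat (fun e : {a // a ∈ A0 β j A} => e.1) M p' (rs (filter_subset _ A) f) := by
  intro b hb
  show TC (fun e : {a // a ∈ A0 β j A} => e.1) (rs (filter_subset _ A) f) p' b = 0
  by_cases h1 : ∀ s ∈ Bj β j, b s = 0
  · rw [TC_A0 β j A _ p' p hpp b, TC_trace β j A f p hp b h1]
    exact h b hb
  · exact TC_A0_zero β j A _ p' b h1

theorem Sw_trace (β : ν → ℕ) (j : ℕ) (A : Finset (ν → ℕ)) (M N : ℕ) (B : Finset ν)
    (f : {a // a ∈ A} → ℂ) (p p' v v' : ν → ℂ) (hp : ∀ s ∈ Bj β j, p s = 0)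
    (hpp : ∀ s, s ∉ Bj β j → p' s = p s) (hv : ∀ s ∈ Bj β j, v s = 0)
    (hvv : ∀ s, s ∉ Bj β j → v' s = v s)
    (h : Sw (fun e : {a // a ∈ A} => e.1) M N B p v f) :
    Sw (fun e : {a // a ∈ A0 β j A} => e.1) M N B p' v' (rs (filter_subset _ A) f) := by
  intro a ha h1 h2
  show ∑ b ∈ bxd ν N M, tcr v' b a *
    TC (fun e : {a // a ∈ A0 β j A} => e.1) (rs (filter_subset _ A) f) p' b = 0
  by_cases h3 : ∀ s ∈ Bj β j, a s = 0
  · have h4 := h a ha h1 h2
    refine Eq.trans ?_ h4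
    refine sum_congr rfl fun b _ => ?_
    show _ = tcr v b a * TC (fun e : {a // a ∈ A} => e.1) f p b
    by_cases h5 : ∀ s ∈ Bj β j, b s = 0
    · rw [TC_A0 β j A _ p' p hpp b, TC_trace β j A f p hp b h5]
      congr 1
      unfold tcr
      refine prod_congr rfl fun s _ => ?_
      by_cases hs : s ∈ Bj β j
      · rw [h5 s hs, Nat.zero_sub, pow_zero, pow_zero]
      · rw [hvv s hs]
    · rw [TC_A0_zero β j A _ p' b h5, mul_zero, tcr_off (Bj β j) v hv b a h3 h5, zero_mul]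
  · refine sum_eq_zero fun b _ => ?_
    by_cases h5 : ∀ s ∈ Bj β j, b s = 0
    · rw [tcr_eq_zero v' b a, zero_mul]
      intro h6
      apply h3
      intro s hs
      exact Nat.eq_zero_of_le_zero (h5 s hs ▸ h6 s)
    · rw [TC_A0_zero β j A _ p' b h5, mul_zero]

theorem TC_resid (β : ν → ℕ) (j : ℕ) (A : Finset (ν → ℕ)) (f : {a // a ∈ A} → ℂ)
    (hf : ∀ e : {a // a ∈ A}, (∀ s ∈ Bj β j, e.1 s = 0) → f e = 0) (p : ν → ℂ) (b : ν → ℕ) :
    TC (fun e : {a // a ∈ A1 β j A} => e.1) (rs (filter_subset _ A) f) p b =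
      TC (fun e : {a // a ∈ A} => e.1) f p b := by
  unfold TC
  refine sum_rs (filter_subset _ A) f (fun a => tcr p a b) fun e he => ?_
  rw [hf e, zero_mul]
  by_contra h
  exact he (mem_filter.2 ⟨e.2, h⟩)

theorem Fat_resid (β : ν → ℕ) (j : ℕ) (A : Finset (ν → ℕ)) (M : ℕ) (f : {a // a ∈ A} → ℂ)
    (hf : ∀ e : {a // a ∈ A}, (∀ s ∈ Bj β j, e.1 s = 0) → f e = 0) (p : ν → ℂ)
    (h : Fat (fun e : {a // a ∈ A} => e.1) M p f) :
    Fat (fun e : {a // a ∈ A1 β j A} => e.1) M p (rs (filter_subset _ A) f) := by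
  intro b hb
  show TC (fun e : {a // a ∈ A1 β j A} => e.1) (rs (filter_subset _ A) f) p b = 0
  rw [TC_resid β j A f hf p b]
  exact h b hb

theorem Sw_resid (β : ν → ℕ) (j : ℕ) (A : Finset (ν → ℕ)) (M N : ℕ) (B : Finset ν)
    (f : {a // a ∈ A} → ℂ)
    (hf : ∀ e : {a // a ∈ A}, (∀ s ∈ Bj β j, e.1 s = 0) → f e = 0) (p v : ν → ℂ)
    (h : Sw (fun e : {a // a ∈ A} => e.1) M N B p v f) :
    Sw (fun e : {a // a ∈ A1 β j A} => e.1) M N B p v (rs (filter_subset _ A) f) := by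
  intro a ha h1 h2
  refine Eq.trans ?_ (h a ha h1 h2)
  refine sum_congr rfl fun b _ => ?_
  show tcr v b a * TC (fun e : {a // a ∈ A1 β j A} => e.1) (rs (filter_subset _ A) f) p b = _
  rw [TC_resid β j A f hf p b]
  rfl

end

end Pool.Agent.V7

end

section

/-!
# V7, block DH: the differential Horace step for configurations of kinds
-/

set_option autoImplicit false
set_option linter.unusedSectionVars false

namespace Pool.Agent.V7

open Finset MvPolynomial Pool.Agent.H51.TB Pool.Agent.H54.V7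
open Pool.Agent.H18.Ex (tcr)

section

variable {ν : Type} [Fintype ν] [DecidableEq ν]

theorem mem_Bj {β : ν → ℕ} {j : ℕ} {s : ν} : s ∈ Bj β j ↔ β s = j := by
  rw [mem_filter]
  exact ⟨fun h => h.2, fun h => ⟨mem_univ s, h⟩⟩

/-- The trace of the conditions of a point of the subspace. -/
theorem SatK_trace (M : ℕ) (β : ν → ℕ) (j : ℕ) (A : Finset (ν → ℕ)) (k : Kd) (q : ν ⊕ ν → ℂ)
    (f : {a // a ∈ A} → ℂ) (h : SatK M β k (mq β j q) f) :
    SatK M β k q (rs (filter_subset (fun a : ν → ℕ => ∀ s ∈ Bj β j, a s = 0) A) f) := by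
  have h1 : ∀ (I : Finset ℕ) (g : ν → ℂ), ∀ s ∈ Bj β j, msk β I (msk β {j} g) s = 0 := by
    intro I g s hs
    unfold msk
    rw [mem_Bj] at hs
    split_ifs with h2 h3
    · rfl
    · rfl
    · exact absurd (mem_singleton.2 hs) h3
  have h2 : ∀ (I : Finset ℕ) (g : ν → ℂ), ∀ s, s ∉ Bj β j →
      msk β I g s = msk β I (msk β {j} g) s := by
    intro I g s hs
    unfold msk
    rw [mem_Bj] at hs
    split_ifs with h2 h3
    · rfl
    · exact absurd (mem_singleton.1 h3) hs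
    · rfl
  rcases k with ⟨μ, I⟩ | ⟨i, I⟩
  · exact Fat_trace β j A μ f _ _ (h1 I _) (h2 I _) h
  · exact ⟨Fat_trace β j A M f _ _ (h1 (insert i I) _) (h2 (insert i I) _) h.1,
      Sw_trace β j A M (2 * M) _ f _ _ _ _ (h1 (insert i I) _) (h2 (insert i I) _) (h1 I _)
        (h2 I _) h.2⟩

/-- The residual of the conditions of a point of the subspace. -/
theorem SatK_resid_add (M : ℕ) (β : ν → ℕ) (j : ℕ) (A : Finset (ν → ℕ)) (k : Kd)
    (q : ν ⊕ ν → ℂ) (f : {a // a ∈ A} → ℂ)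
    (hf : ∀ e : {a // a ∈ A}, (∀ s ∈ Bj β j, e.1 s = 0) → f e = 0)
    (h : SatK M β k (mq β j q) f) :
    SatK M β (k.add j) q (rs (filter_subset (fun a : ν → ℕ => ¬ ∀ s ∈ Bj β j, a s = 0) A) f) := by
  have h1 : ∀ (I : Finset ℕ) (g : ν → ℂ), msk β I (msk β {j} g) = msk β (insert j I) g := by
    intro I g
    funext s
    unfold msk
    by_cases h2 : β s ∈ I
    · rw [if_pos h2, if_pos (mem_insert_of_mem h2)]
    · rw [if_neg h2]
      by_cases h3 : β s = j
      · rw [if_pos (mem_singleton.2 h3), if_pos (mem_insert.2 (Or.inl h3))]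
      · rw [if_neg (fun h => h3 (mem_singleton.1 h)), if_neg]
        intro h
        rcases mem_insert.1 h with h | h
        · exact h3 h
        · exact h2 h
  rcases k with ⟨μ, I⟩ | ⟨i, I⟩
  · have h2 : Fat (fun e : {a // a ∈ A} => e.1) μ (msk β I (msk β {j} fun s => q (Sum.inl s))) f :=
      h
    rw [h1] at h2
    exact Fat_resid β j A μ f hf _ h2
  · have h2 : Fat (fun e : {a // a ∈ A} => e.1) M
        (msk β (insert i I) (msk β {j} fun s => q (Sum.inl s))) f := h.1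
    have h3 : Sw (fun e : {a // a ∈ A} => e.1) M (2 * M) (univ.filter fun s => β s = i)
        (msk β (insert i I) (msk β {j} fun s => q (Sum.inl s)))
        (msk β I (msk β {j} fun s => q (Sum.inr s))) f := h.2
    rw [h1, insert_comm] at h2
    rw [h1, h1, insert_comm] at h3
    exact ⟨Fat_resid β j A M f hf _ h2, Sw_resid β j A M (2 * M) _ f hf _ _ h3⟩

/-- The residual of the conditions of any point. -/
theorem SatK_resid (M : ℕ) (β : ν → ℕ) (j : ℕ) (A : Finset (ν → ℕ)) (k : Kd)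
    (q : ν ⊕ ν → ℂ) (f : {a // a ∈ A} → ℂ)
    (hf : ∀ e : {a // a ∈ A}, (∀ s ∈ Bj β j, e.1 s = 0) → f e = 0)
    (h : SatK M β k q f) :
    SatK M β k q (rs (filter_subset (fun a : ν → ℕ => ¬ ∀ s ∈ Bj β j, a s = 0) A) f) := by
  rcases k with ⟨μ, I⟩ | ⟨i, I⟩
  · exact Fat_resid β j A μ f hf _ h
  · exact ⟨Fat_resid β j A M f hf _ h.1, Sw_resid β j A M (2 * M) _ f hf _ _ h.2⟩

theorem msk_empty (β : ν → ℕ) (g : ν → ℂ) : msk β ∅ g = g := by
  funext s
  unfold msk
  rw [if_neg (notMem_empty _)]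

/-- **The differential Horace step**, for families of points. -/
theorem dh_gd (M : ℕ) (hM : 1 ≤ M) (β : ν → ℕ) (j : ℕ) (A : Finset (ν → ℕ))
    (hA : ∀ a ∈ A, ∀ s, a s < 2 * M) {κL κO : Type} [Fintype κL] [Fintype κO]
    (mL : κL → Kd) (mO : κO → Kd) (y a : ℕ)
    (h0 : (LSA M β (A0 β j A)).gd (Sum.elim mL fun _ : Fin y ⊕ Fin a => Kd.sm) = 0) :
    (LSA M β A).gd (Sum.elim mL (Sum.elim mO (Sum.elim (fun _ : Fin y => Kd.ord M ∅)
      fun _ : Fin a => Kd.sm))) ≤
      (LSA M β (A1 β j A)).gd (Sum.elim (fun x => (mL x).add j)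
        (Sum.elim mO fun _ : Fin y => Kd.sw j ∅)) := by
  classical
  -- the positions
  obtain ⟨P, hP1, hP2⟩ : ∃ P : κL ⊕ (κO ⊕ (Fin y ⊕ Fin a)) → ν ⊕ ν → ℂ,
      Module.finrank ℂ ((LSA M β (A0 β j A)).V (Sum.elim mL fun _ : Fin y ⊕ Fin a => Kd.sm)
        fun x => P (Sum.map id Sum.inr x)) = 0 ∧
      Module.finrank ℂ ((LSA M β (A1 β j A)).V (Sum.elim (fun x => (mL x).add j)
        (Sum.elim mO fun _ : Fin y => Kd.sw j ∅))
        fun x => P (Sum.map id (Sum.map id Sum.inl) x)) =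
      (LSA M β (A1 β j A)).gd (Sum.elim (fun x => (mL x).add j)
        (Sum.elim mO fun _ : Fin y => Kd.sw j ∅)) := by
    have g1 := (gn_gd (LSA M β (A0 β j A)) (Sum.elim mL fun _ : Fin y ⊕ Fin a => Kd.sm)).comap
      (Sum.map id Sum.inr : κL ⊕ (Fin y ⊕ Fin a) → κL ⊕ (κO ⊕ (Fin y ⊕ Fin a)))
      (Sum.map_injective.2 ⟨Function.injective_id, Sum.inr_injective⟩)
    have g2 := (gn_gd (LSA M β (A1 β j A)) (Sum.elim (fun x => (mL x).add j)
      (Sum.elim mO fun _ : Fin y => Kd.sw j ∅))).comap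
      (Sum.map id (Sum.map id Sum.inl) : κL ⊕ (κO ⊕ Fin y) → κL ⊕ (κO ⊕ (Fin y ⊕ Fin a)))
      (Sum.map_injective.2 ⟨Function.injective_id,
        Sum.map_injective.2 ⟨Function.injective_id, Sum.inl_injective⟩⟩)
    obtain ⟨P, h1, h2⟩ := (g1.and g2).exists
    rw [h0] at h1
    exact ⟨P, h1, h2⟩
  set p : Fin y → ν → ℂ := fun s => msk β {j} fun x => P (Sum.inr (Sum.inr (Sum.inl s))) (Sum.inl x)
    with hp
  set v : Fin y → ν → ℂ := fun s x => P (Sum.inr (Sum.inr (Sum.inl s))) (Sum.inr x) with hv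
  set W : Submodule ℂ ({a // a ∈ A} → ℂ) :=
    (LSA M β A).V (Sum.elim mL (Sum.elim mO fun _ : Fin a => Kd.sm))
      (Sum.elim (fun i => mq β j (P (Sum.inl i))) (Sum.elim (fun i => P (Sum.inr (Sum.inl i)))
        fun i => mq β j (P (Sum.inr (Sum.inr (Sum.inr i)))))) with hW
  have hpB : ∀ s, ∀ x ∈ Bj β j, p s x = 0 := by
    intro s x hx
    rw [hp]
    show msk β {j} _ x = 0
    unfold msk
    rw [if_pos (mem_singleton.2 (mem_Bj.1 hx))]
  have hWL : ∀ f ∈ W, ∀ i, SatK M β (mL i) (mq β j (P (Sum.inl i))) f := by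
    intro f hf i
    rw [hW, mem_LSA] at hf
    exact hf (Sum.inl i)
  have hWO : ∀ f ∈ W, ∀ i, SatK M β (mO i) (P (Sum.inr (Sum.inl i))) f := by
    intro f hf i
    rw [hW, mem_LSA] at hf
    exact hf (Sum.inr (Sum.inl i))
  have hWa : ∀ f ∈ W, ∀ i, SatK M β Kd.sm (mq β j (P (Sum.inr (Sum.inr (Sum.inr i))))) f := by
    intro f hf i
    rw [hW, mem_LSA] at hf
    exact hf (Sum.inr (Sum.inr i))
  obtain ⟨t, ht⟩ := dh_step (fun e : {a // a ∈ A} => e.1) M (2 * M) hM (fun e i => hA e.1 e.2 i)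
    (Bj β j) W p v hpB (by
    intro f hf hsim e he
    have h1 : rs (filter_subset (fun a : ν → ℕ => ∀ s ∈ Bj β j, a s = 0) A) f ∈
        (LSA M β (A0 β j A)).V (Sum.elim mL fun _ : Fin y ⊕ Fin a => Kd.sm)
          fun x => P (Sum.map id Sum.inr x) := by
      rw [mem_LSA]
      rintro (i | i | i)
      · exact SatK_trace M β j A (mL i) (P (Sum.inl i)) f (hWL f hf i)
      · show SatK M β Kd.sm (P (Sum.inr (Sum.inr (Sum.inl i)))) _
        intro b hb
        have hb0 : b = 0 := by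
          funext x
          have h2 : b x ≤ ∑ x, b x := single_le_sum (f := b) (fun _ _ => Nat.zero_le _) (mem_univ x)
          have h3 : b x = 0 := by omega
          rw [h3]
          rfl
        have h2 : TC (fun e : {a // a ∈ A0 β j A} => e.1)
            (rs (filter_subset (fun a : ν → ℕ => ∀ s ∈ Bj β j, a s = 0) A) f)
            (msk β ∅ fun x => P (Sum.inr (Sum.inr (Sum.inl i))) (Sum.inl x)) b = 0 := by
          rw [hb0, TC_A0 β j A _ _ (p i), TC_trace β j A f (p i) (hpB i) 0 (fun _ _ => rfl)]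
          · refine Eq.trans ?_ (hsim i)
            unfold TC
            symm
            refine sum_subset (filter_subset _ _) fun e _ he => ?_
            rw [mem_filter] at he
            rw [tcr_off (Bj β j) (p i) (hpB i) e.1 0 (fun _ _ => rfl), mul_zero]
            intro h3
            exact he ⟨mem_univ e, h3⟩
          · intro x hx
            rw [msk_empty, hp]
            show _ = msk β {j} (fun x => P (Sum.inr (Sum.inr (Sum.inl i))) (Sum.inl x)) x
            unfold msk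
            rw [if_neg fun h3 => hx (mem_Bj.2 (mem_singleton.1 h3))]
        exact h2
      · exact SatK_trace M β j A Kd.sm (P (Sum.inr (Sum.inr (Sum.inr i)))) f (hWa f hf i)
    rw [Submodule.finrank_eq_zero.1 hP1, Submodule.mem_bot] at h1
    exact congrFun h1 ⟨e.1, mem_filter.2 ⟨e.2, he⟩⟩)
  set Q : κL ⊕ (κO ⊕ (Fin y ⊕ Fin a)) → ν ⊕ ν → ℂ :=
    Sum.elim (fun i => mq β j (P (Sum.inl i))) (Sum.elim (fun i => P (Sum.inr (Sum.inl i)))
      (Sum.elim (fun s => Sum.elim (fun x => p s x + t * v s x) 0)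
        fun i => mq β j (P (Sum.inr (Sum.inr (Sum.inr i)))))) with hQ
  refine (gd_le _ _ Q).trans ?_
  refine (Submodule.finrank_mono (t := fatSub W (fun e : {a // a ∈ A} => e.1) M
    fun s i => p s i + t * v s i) ?_).trans (ht.trans ?_)
  · intro f hf
    rw [mem_LSA] at hf
    refine ⟨?_, fun s => ?_⟩
    · rw [hW, mem_LSA]
      rintro (i | i | i)
      · exact hf (Sum.inl i)
      · exact hf (Sum.inr (Sum.inl i))
      · exact hf (Sum.inr (Sum.inr (Sum.inr i)))
    · have h1 : Fat (fun e : {a // a ∈ A} => e.1) M (msk β ∅ fun x => p s x + t * v s x) f :=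
        hf (Sum.inr (Sum.inr (Sum.inl s)))
      rw [msk_empty] at h1
      exact h1
  · rw [← hP2]
    let L : resSub W (fun e : {a // a ∈ A} => e.1) M (2 * M) (Bj β j) p v →ₗ[ℂ]
        (LSA M β (A1 β j A)).V (Sum.elim (fun x => (mL x).add j)
        (Sum.elim mO fun _ : Fin y => Kd.sw j ∅))
        fun x => P (Sum.map id (Sum.map id Sum.inl) x) :=
      { toFun := fun f => ⟨rs (filter_subset (fun a : ν → ℕ => ¬ ∀ s ∈ Bj β j, a s = 0) A) f.1, by
          obtain ⟨f, hfW, hf0, hfF, hfS⟩ := f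
          rw [mem_LSA]
          rintro (i | i | i)
          · exact SatK_resid_add M β j A (mL i) (P (Sum.inl i)) f hf0 (hWL f hfW i)
          · exact SatK_resid M β j A (mO i) (P (Sum.inr (Sum.inl i))) f hf0 (hWO f hfW i)
          · have e1 : (insert j ∅ : Finset ℕ) = {j} := insert_empty_eq j
            show SatK M β (Kd.sw j ∅) (P (Sum.inr (Sum.inr (Sum.inl i)))) _
            refine ⟨?_, ?_⟩
            · rw [e1]
              exact Fat_resid β j A M f hf0 (p i) (hfF i)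
            · rw [e1, msk_empty]
              exact Sw_resid β j A M (2 * M) _ f hf0 (p i) (v i) (hfS i)⟩
        map_add' := fun _ _ => rfl
        map_smul' := fun _ _ => rfl }
    refine LinearMap.finrank_le_finrank_of_injective (f := L) ?_
    intro f f' hff
    have h1 : ∀ e : {a // a ∈ A1 β j A}, rs (filter_subset _ A) f.1 e =
        rs (filter_subset _ A) f'.1 e := fun e => congrFun (congrArg Subtype.val hff) e
    apply Subtype.ext
    funext e
    by_cases he : ∀ s ∈ Bj β j, e.1 s = 0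
    · rw [f.2.2.1 e he, f'.2.2.1 e he]
    · exact h1 ⟨e.1, mem_filter.2 ⟨e.2, he⟩⟩

end

end Pool.Agent.V7

end

section

/-!
# V7, block DH: the differential Horace step for multisets of kinds, `n` numbered variables
-/

set_option autoImplicit false
set_option linter.unusedSectionVars false

namespace Pool.Agent.V7

open Finset MvPolynomial Pool.Agent.H51.TB Pool.Agent.H54.V7 Pool.Agent.V7.ST
open Pool.Agent.H18.Ex (tcr)

section

variable {ν ν' : Type} [Fintype ν] [DecidableEq ν] [Fintype ν'] [DecidableEq ν']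

/-- Extension by zero of an exponent. -/
noncomputable def xt (σ : ν' → ν) (a : ν' → ℕ) : ν → ℕ := Function.extend σ a 0

theorem xt_apply {σ : ν' → ν} (hσ : Function.Injective σ) (a : ν' → ℕ) (s : ν') :
    xt σ a (σ s) = a s := hσ.extend_apply a 0 s

theorem xt_zero {σ : ν' → ν} (a : ν' → ℕ) (s : ν) (h : ¬ ∃ x, σ x = s) : xt σ a s = 0 := by
  unfold xt
  rw [Function.extend_apply' _ _ _ h]
  rfl

theorem xt_comp {σ : ν' → ν} (hσ : Function.Injective σ) (a : ν → ℕ)
    (h : ∀ s, (¬ ∃ x, σ x = s) → a s = 0) : xt σ (fun x => a (σ x)) = a := by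
  funext s
  by_cases hs : ∃ x, σ x = s
  · obtain ⟨x, rfl⟩ := hs
    rw [xt_apply hσ]
  · rw [xt_zero _ _ hs, h s hs]

theorem sum_xt {σ : ν' → ν} (hσ : Function.Injective σ) (a : ν' → ℕ) :
    ∑ s, xt σ a s = ∑ x, a x := by
  symm
  refine Fintype.sum_of_injective σ hσ _ _ ?_ fun x => ?_
  · intro s hs
    exact xt_zero a s hs
  · rw [xt_apply hσ]

theorem tcr_xt {σ : ν' → ν} (hσ : Function.Injective σ) (p : ν → ℂ) (a b : ν' → ℕ) :
    tcr p (xt σ a) (xt σ b) = tcr (fun x => p (σ x)) a b := by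
  unfold tcr
  symm
  refine Fintype.prod_of_injective σ hσ _ _ ?_ fun x => ?_
  · intro s hs
    rw [xt_zero a s hs, xt_zero b s hs]
    simp
  · rw [xt_apply hσ, xt_apply hσ]

/-- The exponents of the trace, with the variables of the block left out. -/
theorem mem_xt {β : ν → ℕ} {β' : ν' → ℕ} {j d : ℕ} {σ : ν' → ν} (hσ : Function.Injective σ)
    (him : ∀ s, (∃ x, σ x = s) ↔ β s ≠ j) (hβ : ∀ x, ∀ i < j, β (σ x) = i ↔ β' x = i)
    (a : ν' → ℕ) : xt σ a ∈ A0 β j (Ex β d j) ↔ a ∈ Ex β' d j := by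
  rw [mem_filter, mem_Ex, mem_Ex, sum_xt hσ]
  constructor
  · rintro ⟨⟨h1, h2⟩, -⟩
    refine ⟨h1, fun i hi => ?_⟩
    obtain ⟨s, hs, h3⟩ := h2 i hi
    obtain ⟨x, rfl⟩ := (him s).2 (by omega)
    rw [xt_apply hσ] at h3
    exact ⟨x, (hβ x i hi).1 hs, h3⟩
  · rintro ⟨h1, h2⟩
    refine ⟨⟨h1, fun i hi => ?_⟩, fun s hs => ?_⟩
    · obtain ⟨x, hx, h3⟩ := h2 i hi
      refine ⟨σ x, (hβ x i hi).2 hx, ?_⟩
      rw [xt_apply hσ]
      exact h3
    · rw [mem_Bj] at hs
      refine xt_zero a s fun h => ?_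
      exact (him s).1 h hs

/-- A trace exponent as an exponent in the remaining variables. -/
noncomputable def xtE {β : ν → ℕ} {β' : ν' → ℕ} {j d : ℕ} {σ : ν' → ν}
    (hσ : Function.Injective σ) (him : ∀ s, (∃ x, σ x = s) ↔ β s ≠ j)
    (hβ : ∀ x, ∀ i < j, β (σ x) = i ↔ β' x = i) (a : {a // a ∈ Ex β' d j}) :
    {a // a ∈ A0 β j (Ex β d j)} := ⟨xt σ a.1, (mem_xt hσ him hβ a.1).2 a.2⟩

theorem TC_xt {β : ν → ℕ} {β' : ν' → ℕ} {j d : ℕ} {σ : ν' → ν}
    (hσ : Function.Injective σ) (him : ∀ s, (∃ x, σ x = s) ↔ β s ≠ j)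
    (hβ : ∀ x, ∀ i < j, β (σ x) = i ↔ β' x = i)
    (f : {a // a ∈ A0 β j (Ex β d j)} → ℂ) (p : ν → ℂ) (b : ν' → ℕ) :
    TC (fun e : {a // a ∈ Ex β' d j} => e.1) (fun a => f (xtE hσ him hβ a)) (fun x => p (σ x)) b =
      TC (fun e : {a // a ∈ A0 β j (Ex β d j)} => e.1) f p (xt σ b) := by
  unfold TC
  refine Fintype.sum_of_injective (xtE hσ him hβ) ?_ _ _ ?_ fun e => ?_
  · intro a a' h
    apply Subtype.ext
    funext x
    have h1 : xt σ a.1 = xt σ a'.1 := congrArg Subtype.val h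
    have h2 := congrFun h1 (σ x)
    rwa [xt_apply hσ, xt_apply hσ] at h2
  · intro e he
    exfalso
    apply he
    have h1 : xt σ (fun x => e.1 (σ x)) = e.1 := by
      refine xt_comp hσ e.1 fun s hs => ?_
      refine (mem_filter.1 e.2).2 s (mem_Bj.2 ?_)
      by_contra h2
      exact hs ((him s).2 h2)
    refine ⟨⟨fun x => e.1 (σ x), (mem_xt hσ him hβ _).1 (by rw [h1]; exact e.2)⟩, ?_⟩
    exact Subtype.ext h1
  · show f (xtE hσ him hβ e) * tcr (fun x => p (σ x)) e.1 b =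
      f (xtE hσ him hβ e) * tcr p (xt σ e.1) (xt σ b)
    rw [tcr_xt hσ]

theorem msk_xt {β : ν → ℕ} {β' : ν' → ℕ} {j : ℕ} {σ : ν' → ν}
    (hβ : ∀ x, ∀ i < j, β (σ x) = i ↔ β' x = i) (I : Finset ℕ) (hI : ∀ i ∈ I, i < j)
    (p : ν → ℂ) : (fun x => msk β I p (σ x)) = msk β' I fun x => p (σ x) := by
  funext x
  unfold msk
  have h : β (σ x) ∈ I ↔ β' x ∈ I := by
    constructor
    · intro h
      rwa [← (hβ x _ (hI _ h)).1 rfl] at h
    · intro h
      rwa [← (hβ x _ (hI _ h)).2 rfl] at h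
  by_cases h1 : β (σ x) ∈ I
  · rw [if_pos h1, if_pos (h.1 h1)]
  · rw [if_neg h1, if_neg fun h2 => h1 (h.2 h2)]

theorem Fat_xt {β : ν → ℕ} {β' : ν' → ℕ} {j d : ℕ} {σ : ν' → ν}
    (hσ : Function.Injective σ) (him : ∀ s, (∃ x, σ x = s) ↔ β s ≠ j)
    (hβ : ∀ x, ∀ i < j, β (σ x) = i ↔ β' x = i)
    (f : {a // a ∈ A0 β j (Ex β d j)} → ℂ) (p : ν → ℂ) (μ : ℕ)
    (h : Fat (fun e : {a // a ∈ A0 β j (Ex β d j)} => e.1) μ p f) :
    Fat (fun e : {a // a ∈ Ex β' d j} => e.1) μ (fun x => p (σ x))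
      fun a => f (xtE hσ him hβ a) := by
  intro b hb
  show TC (fun e : {a // a ∈ Ex β' d j} => e.1) (fun a => f (xtE hσ him hβ a))
    (fun x => p (σ x)) b = 0
  rw [TC_xt hσ him hβ]
  exact h (xt σ b) (by rw [sum_xt hσ]; exact hb)

theorem Sw_xt {β : ν → ℕ} {β' : ν' → ℕ} {j d : ℕ} {σ : ν' → ν}
    (hσ : Function.Injective σ) (him : ∀ s, (∃ x, σ x = s) ↔ β s ≠ j)
    (hβ : ∀ x, ∀ i < j, β (σ x) = i ↔ β' x = i)
    (f : {a // a ∈ A0 β j (Ex β d j)} → ℂ) (p v : ν → ℂ) (M N : ℕ) (B : Finset ν) (B' : Finset ν')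
    (hB : ∀ x, σ x ∈ B → x ∈ B') (hBj : ∀ s ∈ B, β s ≠ j)
    (h : Sw (fun e : {a // a ∈ A0 β j (Ex β d j)} => e.1) M N B p v f) :
    Sw (fun e : {a // a ∈ Ex β' d j} => e.1) M N B' (fun x => p (σ x)) (fun x => v (σ x))
      fun a => f (xtE hσ him hβ a) := by
  intro a ha h1 h2
  have h3 := h (xt σ a) (by
    intro s hs
    obtain ⟨x, rfl⟩ := (him s).2 (hBj s hs)
    rw [xt_apply hσ]
    exact ha x (hB x hs)) (by rw [sum_xt hσ]; exact h1) (by rw [sum_xt hσ]; exact h2)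
  refine Eq.trans ?_ h3
  refine sum_of_injOn (xt σ) ?_ ?_ ?_ ?_
  · intro b _ b' _ hbb
    funext x
    have h4 := congrFun hbb (σ x)
    rwa [xt_apply hσ, xt_apply hσ] at h4
  · intro b hb
    rw [mem_coe] at hb ⊢
    unfold bxd at hb ⊢
    rw [mem_filter, mem_bx] at hb ⊢
    refine ⟨fun s => ?_, ?_⟩
    · by_cases hs : ∃ x, σ x = s
      · obtain ⟨x, rfl⟩ := hs
        rw [xt_apply hσ]
        exact hb.1 x
      · rw [xt_zero _ _ hs]
        by_cases hN : N = 0
        · exfalso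
          subst hN
          by_cases hne : Nonempty ν'
          · exact absurd (hb.1 hne.some) (Nat.not_lt_zero _)
          · have h5 : ∑ x, a x = 0 := sum_eq_zero fun x _ => absurd ⟨x⟩ hne
            omega
        · omega
    · rw [sum_xt hσ]
      exact hb.2
  · intro b hb hb'
    show tcr v b (xt σ a) * TC (fun e : {a // a ∈ A0 β j (Ex β d j)} => e.1) f p b = 0
    by_cases h5 : ∀ s ∈ Bj β j, b s = 0
    · exfalso
      apply hb'
      have h6 : xt σ (fun x => b (σ x)) = b := by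
        refine xt_comp hσ b fun s hs => h5 s (mem_Bj.2 ?_)
        by_contra h7
        exact hs ((him s).2 h7)
      refine ⟨fun x => b (σ x), ?_, h6⟩
      rw [mem_coe]
      unfold bxd at hb ⊢
      rw [mem_filter, mem_bx] at hb ⊢
      refine ⟨fun x => hb.1 (σ x), ?_⟩
      rw [← sum_xt hσ, h6]
      exact hb.2
    · rw [TC_A0_zero β j _ _ p b h5, mul_zero]
  · intro b _
    show tcr (fun x => v (σ x)) b a * TC (fun e : {a // a ∈ Ex β' d j} => e.1)
      (fun a => f (xtE hσ him hβ a)) (fun x => p (σ x)) b =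
      tcr v (xt σ b) (xt σ a) * TC (fun e : {a // a ∈ A0 β j (Ex β d j)} => e.1) f p (xt σ b)
    rw [TC_xt hσ him hβ, tcr_xt hσ]

/-- The trace system in the remaining variables. -/
theorem gd_A0_le (M : ℕ) {β : ν → ℕ} {β' : ν' → ℕ} {j : ℕ} {σ : ν' → ν}
    (hσ : Function.Injective σ) (him : ∀ s, (∃ x, σ x = s) ↔ β s ≠ j)
    (hβ : ∀ x, ∀ i < j, β (σ x) = i ↔ β' x = i) {κ : Type} (m : κ → Kd)
    (hm : ∀ i, (m i).Ok M j) :
    (LSA M β (A0 β j (Ex β (2 * M - 1) j))).gd m ≤ (LS M β' j).gd m := by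
  obtain ⟨q, hq⟩ := gd_attained (LS M β' j) m
  set Q : κ → ν ⊕ ν → ℂ := fun i => Sum.elim
    (Function.extend σ (fun x => q i (Sum.inl x)) 0) (Function.extend σ (fun x => q i (Sum.inr x)) 0)
    with hQ
  refine (gd_le _ _ Q).trans ?_
  rw [← hq]
  have e1 : ∀ i, (fun x => Q i (Sum.inl (σ x))) = fun x => q i (Sum.inl x) := by
    intro i
    funext x
    show Function.extend σ (fun x => q i (Sum.inl x)) 0 (σ x) = q i (Sum.inl x)
    exact hσ.extend_apply _ _ x
  have e2 : ∀ i, (fun x => Q i (Sum.inr (σ x))) = fun x => q i (Sum.inr x) := by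
    intro i
    funext x
    show Function.extend σ (fun x => q i (Sum.inr x)) 0 (σ x) = q i (Sum.inr x)
    exact hσ.extend_apply _ _ x
  have key : ∀ (i : κ) (k : Kd) (f : {a // a ∈ A0 β j (Ex β (2 * M - 1) j)} → ℂ), k.Ok M j →
      SatK M β k (Q i) f → SatK M β' k (q i) fun a => f (xtE hσ him hβ a) := by
    intro i k f h2 h1
    rcases k with ⟨μ, I⟩ | ⟨i', I⟩
    · have h3 : ∀ x ∈ I, x < j := fun x hx => mem_range.1 (h2.2.2 hx)
      have h4 := Fat_xt hσ him hβ f _ μ h1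
      rw [msk_xt hβ I h3, e1] at h4
      exact h4
    · have h3 : ∀ x ∈ I, x < j := fun x hx => (mem_Ico.1 (h2.2 hx)).2
      have h3' : ∀ x ∈ insert i' I, x < j := by
        intro x hx
        rcases mem_insert.1 hx with h | h
        · rw [h]
          exact h2.1
        · exact h3 x h
      have h4 := Fat_xt hσ him hβ f _ M h1.1
      have h5 := Sw_xt hσ him hβ f _ _ M (2 * M) _ (univ.filter fun s => β' s = i') (by
        intro x hx
        rw [mem_filter] at hx ⊢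
        exact ⟨mem_univ x, (hβ x i' h2.1).1 hx.2⟩) (by
        intro s hs
        rw [mem_filter] at hs
        have := h2.1
        omega) h1.2
      rw [msk_xt hβ _ h3', e1] at h4
      rw [msk_xt hβ _ h3', msk_xt hβ _ h3, e1, e2] at h5
      exact ⟨h4, h5⟩
  let L : (LSA M β (A0 β j (Ex β (2 * M - 1) j))).V m Q →ₗ[ℂ] (LS M β' j).V m q :=
    { toFun := fun f => ⟨fun a => f.1 (xtE hσ him hβ a), by
        obtain ⟨f, hf⟩ := f
        rw [mem_LSA] at hf
        rw [mem_LSA]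
        intro i
        exact key i (m i) f (hm i) (hf i)⟩
      map_add' := fun _ _ => rfl
      map_smul' := fun _ _ => rfl }
  refine LinearMap.finrank_le_finrank_of_injective (f := L) ?_
  intro f f' hff
  apply Subtype.ext
  funext e
  have h1 : xt σ (fun x => e.1 (σ x)) = e.1 := by
    refine xt_comp hσ e.1 fun s hs => ?_
    refine (mem_filter.1 e.2).2 s (mem_Bj.2 ?_)
    by_contra h2
    exact hs ((him s).2 h2)
  have h2 : (fun x => e.1 (σ x)) ∈ Ex β' (2 * M - 1) j :=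
    (mem_xt hσ him hβ _).1 (by rw [h1]; exact e.2)
  have h3 : f.1 (xtE hσ him hβ ⟨fun x => e.1 (σ x), h2⟩) =
      f'.1 (xtE hσ him hβ ⟨fun x => e.1 (σ x), h2⟩) :=
    congrFun (congrArg Subtype.val hff) ⟨fun x => e.1 (σ x), h2⟩
  have h4 : xtE hσ him hβ ⟨fun x => e.1 (σ x), h2⟩ = e := Subtype.ext h1
  rwa [h4] at h3

theorem A1_Ex (β : ν → ℕ) (d j : ℕ) : A1 β j (Ex β d j) = Ex β d (j + 1) := by
  ext a
  rw [mem_filter, mem_Ex, mem_Ex]
  constructor
  · rintro ⟨⟨h1, h2⟩, h3⟩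
    refine ⟨h1, fun i hi => ?_⟩
    rcases Nat.lt_or_ge i j with h | h
    · exact h2 i h
    · have h4 : i = j := by omega
      subst h4
      push Not at h3
      obtain ⟨s, hs, h3⟩ := h3
      exact ⟨s, mem_Bj.1 hs, h3⟩
  · rintro ⟨h1, h2⟩
    refine ⟨⟨h1, fun i hi => h2 i (by omega)⟩, fun h => ?_⟩
    obtain ⟨s, hs, h3⟩ := h2 j (by omega)
    exact h3 (h s (mem_Bj.2 hs))

end

/-- The variables off the block `j`. -/
def sg (c j n : ℕ) (hn : c ≤ n) (s : Fin (n - c)) : Fin n :=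
  if h : s.1 < j * c then ⟨s.1, by omega⟩ else ⟨s.1 + c, by omega⟩

theorem sg_val (c j n : ℕ) (hn : c ≤ n) (s : Fin (n - c)) :
    (sg c j n hn s).1 = if s.1 < j * c then s.1 else s.1 + c := by
  unfold sg
  split_ifs <;> rfl

/-- **The differential Horace step** for multisets of kinds. -/
theorem gM_dh (M c j n : ℕ) (hM : 1 ≤ M) (hc : 1 ≤ c) (hn : (j + 1) * c ≤ n)
    (sL sO : Multiset Kd) (y a : ℕ) (hL : ∀ τ ∈ sL, τ.Ok M j)
    (h0 : gM (LS M (blk c (n - c)) j) (sL + Multiset.replicate (y + a) Kd.sm) = 0) :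
    gM (LS M (blk c n) j) (sL + sO + Multiset.replicate y (Kd.ord M ∅) +
      Multiset.replicate a Kd.sm) ≤
      gM (LS M (blk c n) (j + 1)) (sL.map (Kd.add j) + sO + Multiset.replicate y (Kd.sw j ∅)) := by
  classical
  have hcn : c ≤ n := by nlinarith
  obtain ⟨mL, hmL, -⟩ := exists_conf (LS M (blk c n) j) sL
  obtain ⟨mO, hmO, -⟩ := exists_conf (LS M (blk c n) j) sO
  have hval := sg_val c j n hcn
  have hjc : (j + 1) * c = j * c + c := by ring
  have hinj : Function.Injective (sg c j n hcn) := by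
    intro s s' h
    have h1 := congrArg Fin.val h
    rw [hval, hval] at h1
    apply Fin.ext
    split_ifs at h1 <;> omega
  have him : ∀ s : Fin n, (∃ x, sg c j n hcn x = s) ↔ blk c n s ≠ j := by
    intro s
    have hdiv : blk c n s = j ↔ j * c ≤ s.1 ∧ s.1 < (j + 1) * c := by
      show s.1 / c = j ↔ _
      rw [Nat.div_eq_iff (by omega)]
      constructor
      · rintro ⟨h1, h2⟩
        constructor
        · exact h1
        · rw [hjc]
          omega
      · rintro ⟨h1, h2⟩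
        rw [hjc] at h2
        exact ⟨h1, by omega⟩
    constructor
    · rintro ⟨x, rfl⟩ h
      have h1 := hdiv.1 h
      rw [hval] at h1
      split_ifs at h1 <;> omega
    · intro h
      rcases Nat.lt_or_ge s.1 (j * c) with h1 | h1
      · refine ⟨⟨s.1, by omega⟩, ?_⟩
        apply Fin.ext
        rw [hval, if_pos h1]
      · have h2 : (j + 1) * c ≤ s.1 := by
          by_contra h3
          exact h (hdiv.2 ⟨h1, by omega⟩)
        have h3 := s.2
        refine ⟨⟨s.1 - c, by omega⟩, ?_⟩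
        apply Fin.ext
        rw [hval, if_neg (by simp only; omega)]
        simp only
        omega
  have hβ : ∀ x, ∀ i < j, blk c n (sg c j n hcn x) = i ↔ blk c (n - c) x = i := by
    intro x i hi
    show (sg c j n hcn x).1 / c = i ↔ x.1 / c = i
    rw [hval]
    split_ifs with h
    · exact Iff.rfl
    · have h1 : j ≤ x.1 / c := (Nat.le_div_iff_mul_le (by omega)).2 (by omega)
      have h2 : (x.1 + c) / c = x.1 / c + 1 := Nat.add_div_right _ (by omega)
      omega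
  have hLm : ∀ i, (mL i).Ok M j := by
    intro i
    refine hL _ ?_
    rw [← hmL]
    exact Multiset.mem_map_of_mem _ (mem_univ i)
  have h1 : (LSA M (blk c n) (A0 (blk c n) j (Ex (blk c n) (2 * M - 1) j))).gd
      (Sum.elim mL fun _ : Fin y ⊕ Fin a => Kd.sm) = 0 := by
    have h2 := gd_A0_le M hinj him hβ (Sum.elim mL fun _ : Fin y ⊕ Fin a => Kd.sm) (by
      rintro (i | i)
      · exact hLm i
      · exact ⟨le_rfl, hM, empty_subset _⟩)
    have h3 : (LS M (blk c (n - c)) j).gd (Sum.elim mL fun _ : Fin y ⊕ Fin a => Kd.sm) = 0 := by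
      rw [gd_eq_gM, map_elim, hmL, ST.map_const, Fintype.card_sum, Fintype.card_fin, Fintype.card_fin]
      exact h0
    omega
  have h2 := dh_gd M hM (blk c n) j (Ex (blk c n) (2 * M - 1) j) (by
    intro e he s
    have h3 := (mem_Ex.1 he).1
    have h4 : e s ≤ ∑ s, e s := single_le_sum (f := e) (fun _ _ => Nat.zero_le _) (mem_univ s)
    omega) mL mO y a h1
  rw [A1_Ex] at h2
  rw [gd_eq_gM, gd_eq_gM, map_elim, map_elim, map_elim, map_elim, map_elim, ST.map_const, ST.map_const,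
    ST.map_const, hmL, hmO, Fintype.card_fin, Fintype.card_fin] at h2
  have h3 : (univ : Finset (Fin sL.toList.length)).val.map (fun x => (mL x).add j) =
      sL.map (Kd.add j) := by
    have h4 := congrArg (Multiset.map (Kd.add j)) hmL
    rw [Multiset.map_map] at h4
    exact h4
  rw [h3] at h2
  have e1 : sL + sO + Multiset.replicate y (Kd.ord M ∅) + Multiset.replicate a Kd.sm =
      sL + (sO + (Multiset.replicate y (Kd.ord M ∅) + Multiset.replicate a Kd.sm)) := by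
    simp only [add_assoc]
  have e2 : sL.map (Kd.add j) + sO + Multiset.replicate y (Kd.sw j ∅) =
      sL.map (Kd.add j) + (sO + Multiset.replicate y (Kd.sw j ∅)) := by
    simp only [add_assoc]
  rw [e1, e2]
  exact h2

end Pool.Agent.V7

end

section

/-!
# V7: the trace inequality for multisets of kinds, `n` numbered variables
-/

set_option autoImplicit false
set_option linter.unusedSectionVars false
set_option linter.unusedVariables false

namespace Pool.Agent.V7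

open Finset MvPolynomial Pool.Agent.H51.TB Pool.Agent.H54.V7 Pool.Agent.V7.ST
open Pool.Agent.H18.Ex (tcr)

section

variable {ν : Type} [Fintype ν] [DecidableEq ν]

/-- The trace inequality for families. -/
theorem gd_tr (M : ℕ) (β : ν → ℕ) (j : ℕ) (A : Finset (ν → ℕ)) {κL κO : Type} [Fintype κL]
    [Fintype κO] (mL : κL → Kd) (mO : κO → Kd) :
    (LSA M β A).gd (Sum.elim mL mO) ≤ (LSA M β (A0 β j A)).gd mL +
      (LSA M β (A1 β j A)).gd (Sum.elim (fun x => (mL x).add j) mO) := by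
  classical
  obtain ⟨P, hP1, hP2⟩ := ((gn_gd (LSA M β (A0 β j A)) mL).comap
    (Sum.inl : κL → κL ⊕ κO) Sum.inl_injective |>.and
    (gn_gd (LSA M β (A1 β j A)) (Sum.elim (fun x => (mL x).add j) mO))).exists
  rw [← hP1, ← hP2]
  set Q : κL ⊕ κO → ν ⊕ ν → ℂ :=
    Sum.elim (fun i => mq β j (P (Sum.inl i))) fun i => P (Sum.inr i) with hQ
  refine (gd_le _ _ Q).trans ?_
  refine finrank_split (fun e : {a // a ∈ A0 β j A} => (⟨e.1, (mem_filter.1 e.2).1⟩ : {a // a ∈ A}))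
    (fun e : {a // a ∈ A1 β j A} => (⟨e.1, (mem_filter.1 e.2).1⟩ : {a // a ∈ A})) ?_ _ _ _ ?_ ?_
  · intro e
    by_cases he : ∀ s ∈ Bj β j, e.1 s = 0
    · exact Or.inl ⟨⟨e.1, mem_filter.2 ⟨e.2, he⟩⟩, rfl⟩
    · exact Or.inr ⟨⟨e.1, mem_filter.2 ⟨e.2, he⟩⟩, rfl⟩
  · intro f hf
    rw [mem_LSA] at hf ⊢
    intro i
    exact SatK_trace M β j A (mL i) (P (Sum.inl i)) f (hf (Sum.inl i))
  · intro f hf hf0
    have hf1 : ∀ e : {a // a ∈ A}, (∀ s ∈ Bj β j, e.1 s = 0) → f e = 0 :=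
      fun e he => hf0 ⟨e.1, mem_filter.2 ⟨e.2, he⟩⟩
    rw [mem_LSA] at hf ⊢
    rintro (i | i)
    · exact SatK_resid_add M β j A (mL i) (P (Sum.inl i)) f hf1 (hf (Sum.inl i))
    · exact SatK_resid M β j A (mO i) (P (Sum.inr i)) f hf1 (hf (Sum.inr i))

end

/-- The inclusion of the variables off the block `j`. -/
theorem sg_facts (c j n : ℕ) (hc : 1 ≤ c) (hn : (j + 1) * c ≤ n) (hcn : c ≤ n) :
    Function.Injective (sg c j n hcn) ∧
      (∀ s : Fin n, (∃ x, sg c j n hcn x = s) ↔ blk c n s ≠ j) ∧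
      ∀ x, ∀ i < j, blk c n (sg c j n hcn x) = i ↔ blk c (n - c) x = i := by
  have hval := sg_val c j n hcn
  have hjc : (j + 1) * c = j * c + c := by ring
  refine ⟨?_, ?_, ?_⟩
  · intro s s' h
    have h1 := congrArg Fin.val h
    rw [hval, hval] at h1
    apply Fin.ext
    split_ifs at h1 <;> omega
  · intro s
    have hdiv : blk c n s = j ↔ j * c ≤ s.1 ∧ s.1 < (j + 1) * c := by
      show s.1 / c = j ↔ _
      rw [Nat.div_eq_iff (by omega)]
      constructor
      · rintro ⟨h1, h2⟩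
        constructor
        · exact h1
        · rw [hjc]
          omega
      · rintro ⟨h1, h2⟩
        rw [hjc] at h2
        exact ⟨h1, by omega⟩
    constructor
    · rintro ⟨x, rfl⟩ h
      have h1 := hdiv.1 h
      rw [hval] at h1
      split_ifs at h1 <;> omega
    · intro h
      rcases Nat.lt_or_ge s.1 (j * c) with h1 | h1
      · refine ⟨⟨s.1, by omega⟩, ?_⟩
        apply Fin.ext
        rw [hval, if_pos h1]
      · have h2 : (j + 1) * c ≤ s.1 := by
          by_contra h3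
          exact h (hdiv.2 ⟨h1, by omega⟩)
        have h3 := s.2
        refine ⟨⟨s.1 - c, by omega⟩, ?_⟩
        apply Fin.ext
        rw [hval, if_neg (by simp only; omega)]
        simp only
        omega
  · intro x i hi
    show (sg c j n hcn x).1 / c = i ↔ x.1 / c = i
    rw [hval]
    split_ifs with h
    · exact Iff.rfl
    · have h1 : j ≤ x.1 / c := (Nat.le_div_iff_mul_le (by omega)).2 (by omega)
      have h2 : (x.1 + c) / c = x.1 / c + 1 := Nat.add_div_right _ (by omega)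
      omega

/-- **The trace inequality** for multisets of kinds. -/
theorem gM_tr (M c l n : ℕ) (hM : 1 ≤ M) (hc : 1 ≤ c) (hn : (l + 1) * c ≤ n)
    (sL sO : Multiset Kd) (hL : ∀ k ∈ sL, k.Ok M l) :
    gM (LS M (blk c n) l) (sL + sO) ≤ gM (LS M (blk c (n - c)) l) sL +
      gM (LS M (blk c n) (l + 1)) (sL.map (Kd.add l) + sO) := by
  classical
  have hcn : c ≤ n := by nlinarith
  obtain ⟨mL, hmL, hL0⟩ := exists_conf (LS M (blk c (n - c)) l) sL
  obtain ⟨mO, hmO, -⟩ := exists_conf (LS M (blk c n) l) sO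
  obtain ⟨hinj, him, hβ⟩ := sg_facts c l n hc hn hcn
  have hLm : ∀ i, (mL i).Ok M l := by
    intro i
    refine hL _ ?_
    rw [← hmL]
    exact Multiset.mem_map_of_mem _ (mem_univ i)
  have h1 := gd_A0_le M hinj him hβ mL hLm
  have h2 := gd_tr M (blk c n) l (Ex (blk c n) (2 * M - 1) l) mL mO
  rw [A1_Ex] at h2
  rw [gd_eq_gM _ (Sum.elim mL mO), gd_eq_gM _ (Sum.elim (fun x => (mL x).add l) mO), map_elim,
    map_elim, hmL, hmO] at h2
  have h3 : (univ : Finset (Fin sL.toList.length)).val.map (fun x => (mL x).add l) =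
      sL.map (Kd.add l) := by
    have h4 := congrArg (Multiset.map (Kd.add l)) hmL
    rw [Multiset.map_map] at h4
    exact h4
  rw [h3] at h2
  rw [hL0] at h1
  exact h2.trans (Nat.add_le_add_right h1 _)

end Pool.Agent.V7

end
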