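import Pool.Agent.H94.LP5.M06
import Pool.Agent.H94.LP5.M28

/-! The parts of this file: V7.GA.Kill, V7.GA.Ind, V7.GA.Main, V7.GA.Inp. -/

section

/-!
# V7, block GAMMA: a nonzero form is not `M`-fold at general points of some type
-/

set_option autoImplicit false
set_option linter.unusedSectionVars false

namespace Pool.Agent.V7.GA

open Finset MvPolynomial Pool.Agent.H51.TB Pool.Agent.H54.V7 Pool.Agent.V7.ST
open Pool.Agent.H18.Ex (tcr)

variable {ν : Type} [Fintype ν] [DecidableEq ν]

/-- The types of the level `j` which are used. -/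
def Good (M j : ℕ) (I : Finset ℕ) : Prop :=
  I ⊆ range j ∧ j + 1 ≤ I.card + M ∧ ¬ range (M - 1) ⊆ I

/-- The part of an exponent on the blocks of `I`. -/
def inI (β : ν → ℕ) (I : Finset ℕ) (a : ν → ℕ) : ν → ℕ := fun s => if β s ∈ I then a s else 0

/-- The part of an exponent off the blocks of `I`. -/
noncomputable def offI (β : ν → ℕ) (I : Finset ℕ) (a : ν → ℕ) : ν →₀ ℕ :=
  Finsupp.equivFunOnFinite.symm fun s => if β s ∈ I then 0 else a s

theorem offI_apply (β : ν → ℕ) (I : Finset ℕ) (a : ν → ℕ) (s : ν) :
    offI β I a s = if β s ∈ I then 0 else a s := rfl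

/-- The Taylor coefficient of order `b` (on the blocks of `I`) at a point which vanishes on the
blocks of `I`. -/
theorem tcr_inI (β : ν → ℕ) (I : Finset ℕ) (a e : ν → ℕ) :
    tcr (msk β I fun s => (X s : MvPolynomial ν ℂ)) e (inI β I a) =
      if (∀ s, β s ∈ I → e s = a s) then monomial (offI β I e) (1 : ℂ) else 0 := by
  split_ifs with h
  · have h1 : (monomial (offI β I e) (1 : ℂ) : MvPolynomial ν ℂ) =
        ∏ s, (X s : MvPolynomial ν ℂ) ^ (offI β I e s) := by
      rw [monomial_eq, C_1, one_mul]
      exact Finsupp.prod_fintype _ _ fun s => pow_zero _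
    rw [h1]
    unfold tcr
    refine prod_congr rfl fun s _ => ?_
    rw [offI_apply]
    unfold inI msk
    by_cases hs : β s ∈ I
    · rw [if_pos hs, if_pos hs, if_pos hs, h s hs, Nat.choose_self, Nat.sub_self, pow_zero,
        pow_zero, Nat.cast_one, one_mul]
    · rw [if_neg hs, if_neg hs, if_neg hs, Nat.choose_zero_right, Nat.sub_zero, Nat.cast_one,
        one_mul]
  · push Not at h
    obtain ⟨s, hs, hne⟩ := h
    unfold tcr
    refine prod_eq_zero (mem_univ s) ?_
    unfold inI msk
    rw [if_pos hs, if_pos hs]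
    rcases Nat.lt_or_gt_of_ne hne with h1 | h1
    · rw [Nat.choose_eq_zero_of_lt h1, Nat.cast_zero, zero_mul]
    · rw [zero_pow (by omega), mul_zero]

/-- A form with a nonzero coefficient at `a` is not `M`-fold at a general point of type `I`, if the
degree of `a` in the blocks of `I` is less than `M`. -/
theorem exists_not_mem {M : ℕ} {β : ν → ℕ} {A : Finset (ν → ℕ)} (I : Finset ℕ)
    (F : {a // a ∈ A} → ℂ) (a : {a // a ∈ A}) (ha : F a ≠ 0)
    (hd : ∑ s ∈ univ.filter (fun s => β s ∈ I), a.1 s < M) :
    ∃ q : ν → ℂ, F ∉ (SG M β A).V (fun _ : Unit => I) fun _ => q := by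
  classical
  let G : MvPolynomial ν ℂ := ∑ e : {a // a ∈ A},
    C (F e) * tcr (msk β I fun s => (X s : MvPolynomial ν ℂ)) e.1 (inI β I a.1)
  have hG : G ≠ 0 := by
    intro h0
    apply ha
    have h1 : coeff (offI β I a.1) G = F a := by
      show coeff (offI β I a.1) (∑ e : {a // a ∈ A},
        C (F e) * tcr (msk β I fun s => (X s : MvPolynomial ν ℂ)) e.1 (inI β I a.1)) = F a
      rw [coeff_sum]
      rw [sum_eq_single a]
      · rw [coeff_C_mul, tcr_inI, if_pos fun s _ => rfl, coeff_monomial, if_pos rfl, mul_one]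
      · intro e _ he
        rw [coeff_C_mul, tcr_inI]
        split_ifs with h
        · rw [coeff_monomial, if_neg, mul_zero]
          intro h2
          apply he
          apply Subtype.ext
          funext s
          by_cases hs : β s ∈ I
          · exact h s hs
          · have h3 := DFunLike.congr_fun h2 s
            rw [offI_apply, offI_apply, if_neg hs, if_neg hs] at h3
            exact h3
        · rw [coeff_zero, mul_zero]
      · intro h
        exact absurd (mem_univ a) h
    rw [← h1, h0, coeff_zero]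
  have hex : ∃ q : ν → ℂ, eval q G ≠ 0 := by
    by_contra hc
    push Not at hc
    exact hG (MvPolynomial.funext fun q => by rw [hc q, map_zero])
  obtain ⟨q, hq⟩ := hex
  refine ⟨q, fun hF => hq ?_⟩
  rw [mem_SG] at hF
  have h1 := hF () (inI β I a.1) (by
    have h2 : ∑ s, inI β I a.1 s = ∑ s ∈ univ.filter (fun s => β s ∈ I), a.1 s := by
      rw [sum_filter]
      rfl
    rw [h2]
    exact hd)
  show eval q (∑ e : {a // a ∈ A},
        C (F e) * tcr (msk β I fun s => (X s : MvPolynomial ν ℂ)) e.1 (inI β I a.1)) = 0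
  rw [map_sum, ← h1]
  refine sum_congr rfl fun e _ => ?_
  rw [map_mul, eval_C, eval_tcr_X]

/-- Every nonzero form violates the conditions of a point of one of the smallest types. -/
theorem exists_type {M j : ℕ} {β : ν → ℕ} {W : Finset ν} (hj : M - 1 ≤ j) (hj2 : j + 1 < 2 * M)
    (F : {a // a ∈ Ag M β j W} → ℂ) (hF : F ≠ 0) :
    ∃ I ∈ {I : Finset ℕ | Good M j I ∧ I.card + M = j + 1}, ∃ q : ν → ℂ,
      F ∉ (SG M β (Ag M β j W)).V (fun _ : Unit => I) fun _ => q := by
  classical
  obtain ⟨a, ha⟩ := Function.ne_iff.mp hF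
  have hA := mem_Ag.mp a.2
  obtain ⟨⟨hdeg, hmeet⟩, hW, hx⟩ := hA
  -- a block of degree at least two
  have h0 : ∃ i₀ < M - 1, 2 ≤ ∑ s ∈ univ.filter (fun s => β s = i₀), a.1 s := by
    by_contra hc
    push Not at hc
    have h1 : ∑ s ∈ univ.filter (fun s => β s < M - 1), a.1 s =
        ∑ i ∈ range (M - 1), ∑ s ∈ (univ.filter (fun s => β s < M - 1)).filter (fun s => β s = i),
          a.1 s :=
      (sum_fiberwise_of_maps_to (fun s hs => mem_range.mpr (mem_filter.mp hs).2) _).symm
    have h2 : ∑ i ∈ range (M - 1), ∑ s ∈ (univ.filter (fun s => β s < M - 1)).filter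
        (fun s => β s = i), a.1 s ≤ ∑ i ∈ range (M - 1), 1 := by
      refine sum_le_sum fun i hi => ?_
      have h3 := hc i (mem_range.mp hi)
      have h4 : (univ.filter (fun s => β s < M - 1)).filter (fun s => β s = i) =
          univ.filter fun s => β s = i := by
        ext s
        simp only [mem_filter, mem_univ, true_and]
        have := mem_range.mp hi
        constructor
        · exact fun h => h.2
        · exact fun h => ⟨by omega, h⟩
      rw [h4]
      omega
    rw [sum_const, card_range, smul_eq_mul, mul_one] at h2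
    omega
  obtain ⟨i₀, hi₀, h2⟩ := h0
  have hi₀j : i₀ ∈ range j := mem_range.mpr (by omega)
  obtain ⟨I, hI, hIc⟩ := exists_subset_card_eq (s := (range j).erase i₀) (n := j + 1 - M) (by
    rw [card_erase_of_mem hi₀j, card_range]
    omega)
  have hI₀ : i₀ ∉ I := fun h => (mem_erase.mp (hI h)).1 rfl
  have hIj : I ⊆ range j := fun i hi => (mem_erase.mp (hI hi)).2
  have hd : ∑ s ∈ univ.filter (fun s => β s ∈ I), a.1 s < M := by
    have h3 := card_le_deg β a.1 (((range j) \ I).erase i₀) fun i hi =>
      hmeet i (mem_range.mp (mem_sdiff.mp (mem_erase.mp hi).2).1)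
    have h4 : (((range j) \ I).erase i₀).card + (j + 1 - M) + 1 = j := by
      rw [card_erase_of_mem (mem_sdiff.mpr ⟨hi₀j, hI₀⟩), card_sdiff_of_subset hIj, card_range, hIc]
      have : 1 ≤ j - (j + 1 - M) := by omega
      omega
    have h5 : ∑ s ∈ univ.filter (fun s => β s ∈ I), a.1 s +
        ∑ s ∈ univ.filter (fun s => β s ∈ ((range j) \ I).erase i₀), a.1 s +
        ∑ s ∈ univ.filter (fun s => β s = i₀), a.1 s ≤ ∑ s, a.1 s := by
      rw [← sum_union, ← sum_union]
      · exact sum_le_sum_of_subset (subset_univ _)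
      · rw [disjoint_left]
        intro s hs hs'
        rw [mem_filter] at hs'
        rw [mem_union, mem_filter, mem_filter] at hs
        rcases hs with hs | hs
        · exact hI₀ (by rw [← hs'.2]; exact hs.2)
        · exact (mem_erase.mp hs.2).1 hs'.2
      · rw [disjoint_left]
        intro s hs hs'
        rw [mem_filter] at hs hs'
        exact (mem_sdiff.mp (mem_erase.mp hs'.2).2).2 hs.2
    omega
  obtain ⟨q, hq⟩ := exists_not_mem I F a ha hd
  refine ⟨I, ⟨⟨hIj, by omega, fun h => hI₀ (h (mem_range.mpr hi₀))⟩, by omega⟩, q, hq⟩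

end Pool.Agent.V7.GA

end

section

/-!
# V7, block GAMMA: the induction
-/

set_option autoImplicit false
set_option linter.unusedSectionVars false

namespace Pool.Agent.V7.GA

open Finset MvPolynomial Pool.Agent.H51.TB Pool.Agent.H54.V7 Pool.Agent.V7.ST

/-- `κ q.choose (|I| - (j + 1 - M))` points of each good type `I` kill all forms, if the blocks
`0, …, j - 1` have at most `c` variables and there are less than `(q + 1) c` other variables. -/
def PP (M c j κ : ℕ) : Prop :=
  ∀ (ν : Type) [Fintype ν] [DecidableEq ν] (β : ν → ℕ) (W : Finset ν) (q : ℕ),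
    (∀ i < j, (W.filter fun s => β s = i).card ≤ c) →
    (W.filter fun s => j ≤ β s).card < (q + 1) * c →
    ∀ s : Multiset (Finset ℕ), (∀ I ∈ s, I ⊆ range j) →
      (∀ I, Good M j I → κ * q.choose (I.card + M - (j + 1)) ≤ s.count I) →
      gM (SG M β (Ag M β j W)) s = 0

theorem pp_top {M : ℕ} (c κ : ℕ) (hM : 1 ≤ M) : PP M c (2 * M - 1) κ := by
  intro ν _ _ β W q _ _ s _ _
  have h1 : Ag M β (2 * M - 1) W = ∅ := by
    rw [eq_empty_iff_forall_notMem]
    intro a ha
    obtain ⟨⟨hdeg, hmeet⟩, _, hx⟩ := mem_Ag.mp ha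
    have h2 := card_le_deg β a (Ico (M - 1) (2 * M - 1)) fun i hi =>
      hmeet i (mem_Ico.mp hi).2
    rw [Nat.card_Ico] at h2
    have h3 : ∑ s ∈ univ.filter (fun s => β s < M - 1), a s +
        ∑ s ∈ univ.filter (fun s => β s ∈ Ico (M - 1) (2 * M - 1)), a s ≤ ∑ s, a s := by
      rw [← sum_union]
      · exact sum_le_sum_of_subset (subset_univ _)
      · rw [disjoint_left]
        intro s hs hs'
        rw [mem_filter] at hs hs'
        have := (mem_Ico.mp hs'.2).1
        omega
    omega
  have h2 := gM_anti (SG M β (Ag M β (2 * M - 1) W)) (Multiset.zero_le s)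
  rw [gM_zero, Fintype.card_coe, h1, card_empty] at h2
  rw [h1]
  omega

open Classical in
/-- The points which are put on the subspace. -/
noncomputable def onp (M j κ q : ℕ) : Multiset (Finset ℕ) :=
  ∑ I ∈ (range j).powerset.filter (Good M j),
    Multiset.replicate (κ * q.choose (I.card + M - (j + 1))) I

theorem count_onp (M j κ q : ℕ) (J : Finset ℕ) (hJ : Good M j J) :
    (onp M j κ q).count J = κ * q.choose (J.card + M - (j + 1)) := by
  classical
  unfold onp
  rw [Multiset.count_sum', sum_eq_single J]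
  · rw [Multiset.count_replicate_self]
  · intro I _ hIJ
    rw [Multiset.count_replicate, if_neg hIJ]
  · intro h
    exfalso
    apply h
    rw [mem_filter, mem_powerset]
    exact ⟨hJ.1, hJ⟩

theorem count_onp_not (M j κ q : ℕ) (J : Finset ℕ) (hJ : ¬ Good M j J) :
    (onp M j κ q).count J = 0 := by
  classical
  unfold onp
  rw [Multiset.count_sum']
  refine sum_eq_zero fun I hI => ?_
  rw [Multiset.count_replicate, if_neg]
  intro h
  exact hJ (by rw [← h]; exact (mem_filter.mp hI).2)

theorem mem_onp {M j κ q : ℕ} {J : Finset ℕ} (h : J ∈ onp M j κ q) : Good M j J := by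
  by_contra hc
  have := count_onp_not M j κ q J hc
  rw [Multiset.count_eq_zero] at this
  exact this h

theorem onp_le {M j κ q : ℕ} {s : Multiset (Finset ℕ)}
    (h : ∀ I, Good M j I → κ * q.choose (I.card + M - (j + 1)) ≤ s.count I) :
    onp M j κ q ≤ s := by
  rw [Multiset.le_iff_count]
  intro J
  by_cases hJ : Good M j J
  · rw [count_onp M j κ q J hJ]
    exact h J hJ
  · rw [count_onp_not M j κ q J hJ]
    exact Nat.zero_le _

theorem card_W {ν : Type} [Fintype ν] [DecidableEq ν] (β : ν → ℕ) (W : Finset ν) (j c : ℕ)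
    (h1 : ∀ i < j, (W.filter fun s => β s = i).card ≤ c)
    (h2 : (W.filter fun s => j ≤ β s).card < c) : W.card ≤ (j + 1) * c := by
  have e1 : (W.filter fun s => β s < j).card = ∑ i ∈ range j,
      ((W.filter fun s => β s < j).filter fun s => β s = i).card :=
    card_eq_sum_card_fiberwise fun s hs => by
      have := (mem_filter.mp hs).2
      exact mem_coe.mpr (mem_range.mpr this)
  have e2 : ∑ i ∈ range j, ((W.filter fun s => β s < j).filter fun s => β s = i).card ≤
      ∑ i ∈ range j, c := by
    refine sum_le_sum fun i hi => ?_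
    refine le_trans (card_le_card ?_) (h1 i (mem_range.mp hi))
    intro s hs
    rw [mem_filter, mem_filter] at hs
    rw [mem_filter]
    exact ⟨hs.1.1, hs.2⟩
  rw [sum_const, card_range, smul_eq_mul] at e2
  have e3 : (W.filter fun s => β s < j).card + (W.filter fun s => ¬ β s < j).card = W.card :=
    card_filter_add_card_filter_not _
  have e4 : W.filter (fun s => ¬ β s < j) = W.filter fun s => j ≤ β s :=
    filter_congr fun s _ => not_lt
  rw [e4] at e3
  have e5 : (j + 1) * c = j * c + c := by ring
  omega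

/-- The dimension is bounded. -/
theorem bound {M c j κ : ℕ} (hM : 1 ≤ M) (hj : M - 1 ≤ j) (hP : PP M c (j + 1) κ)
    {ν : Type} [Fintype ν] [DecidableEq ν] (β : ν → ℕ) (q : ℕ) : ∀ W : Finset ν,
    (∀ i < j, (W.filter fun s => β s = i).card ≤ c) →
    (W.filter fun s => j ≤ β s).card < (q + 1) * c →
    ∀ s : Multiset (Finset ℕ), (∀ I ∈ s, I ⊆ range j) →
      (∀ I, Good M j I → κ * q.choose (I.card + M - (j + 1)) ≤ s.count I) →
      gM (SG M β (Ag M β j W)) s ≤ (2 * M) ^ ((j + 1) * c) := by
  induction q with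
  | zero =>
    intro W hW1 hW2 s _ _
    refine (gM_anti _ (Multiset.zero_le s)).trans ?_
    rw [gM_zero, Fintype.card_coe]
    refine (card_Ag_le hM β j W).trans (Nat.pow_le_pow_right (by omega) ?_)
    rw [zero_add, one_mul] at hW2
    exact card_W β W j c hW1 hW2
  | succ q ih =>
    intro W hW1 hW2 s hs hc
    by_cases hz : (W.filter fun s => j ≤ β s).card < (q + 1) * c
    · refine ih W hW1 hz s hs fun I hI => le_trans ?_ (hc I hI)
      exact Nat.mul_le_mul_left _ (Nat.choose_le_choose _ (Nat.le_succ q))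
    · have hc1 : c ≤ (W.filter fun s => j ≤ β s).card := by
        have : (q + 1) * c = q * c + c := by ring
        have := Nat.zero_le (q * c)
        omega
      obtain ⟨Bk, hBk, hBc⟩ := exists_subset_card_eq hc1
      have hB : ∀ s ∈ Bk, j ≤ β s := fun s hs => (mem_filter.mp (hBk hs)).2
      have hBW : ∀ s ∈ Bk, s ∈ W := fun s hs => (mem_filter.mp (hBk hs)).1
      have hle : onp M j κ q ≤ s := onp_le fun I hI => le_trans
        (Nat.mul_le_mul_left _ (Nat.choose_le_choose _ (Nat.le_succ q))) (hc I hI)
      have hst : onp M j κ q + (s - onp M j κ q) = s := add_tsub_cancel_of_le hle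
      have hon : ∀ I ∈ onp M j κ q, I ⊆ range j := fun I hI => (mem_onp hI).1
      have hoff : ∀ I ∈ s - onp M j κ q, I ⊆ range j := fun I hI =>
        hs I (Multiset.mem_of_le tsub_le_self hI)
      have h1 := gM_trace (M := M) (W := W) hj hB (onp M j κ q) (s - onp M j κ q) hon hoff
      rw [hst] at h1
      refine h1.trans ?_
      have hcard : ((W \ Bk).filter fun s => j ≤ β s).card + c =
          (W.filter fun s => j ≤ β s).card := by
        have e1 : ((W \ Bk).filter fun s => j ≤ β s) = (W.filter fun s => j ≤ β s) \ Bk := by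
          ext s
          simp only [mem_filter, mem_sdiff]
          tauto
        rw [e1, card_sdiff_of_subset hBk, hBc]
        omega
      have h2 := ih (W \ Bk) (fun i hi => le_trans (card_le_card (by
          intro s hs
          rw [mem_filter, mem_sdiff] at hs
          rw [mem_filter]
          exact ⟨hs.1.1, hs.2⟩)) (hW1 i hi)) (by
          have : (q + 1 + 1) * c = (q + 1) * c + c := by ring
          omega) (onp M j κ q) hon fun I hI => le_of_eq (count_onp M j κ q I hI).symm
      have h3 : gM (SG M (nb β j Bk) (Ag M (nb β j Bk) (j + 1) W))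
          ((onp M j κ q).map (insert j) + (s - onp M j κ q)) = 0 := by
        refine hP ν (nb β j Bk) W q ?_ ?_ _ ?_ ?_
        · intro i hi
          rcases Nat.lt_succ_iff_lt_or_eq.mp hi with hi | hi
          · have e1 : (W.filter fun s => nb β j Bk s = i) = W.filter fun s => β s = i :=
              filter_congr fun s _ => nb_lt hB hi
            rw [e1]
            exact hW1 i hi
          · rw [hi, ← hBc]
            refine card_le_card fun s hs => ?_
            exact nb_eq.mp (mem_filter.mp hs).2
        · have e1 : (W.filter fun s => j + 1 ≤ nb β j Bk s) ⊆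
              (W \ Bk).filter fun s => j ≤ β s := by
            intro s hs
            rw [mem_filter] at hs ⊢
            rw [mem_sdiff]
            have h5 : s ∉ Bk := by
              intro h
              have := (nb_eq (β := β) (j := j)).mpr h
              omega
            refine ⟨⟨hs.1, h5⟩, ?_⟩
            by_contra h6
            have h7 := (nb_lt (Bk := Bk) hB (i := β s) (s := s) (by omega)).mpr rfl
            omega
          have e2 := card_le_card e1
          have : (q + 1 + 1) * c = (q + 1) * c + c := by ring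
          omega
        · intro I hI
          rcases Multiset.mem_add.mp hI with hI | hI
          · obtain ⟨J, hJ, rfl⟩ := Multiset.mem_map.mp hI
            intro i hi
            rcases mem_insert.mp hi with hi | hi
            · rw [hi]
              exact mem_range.mpr (Nat.lt_succ_self j)
            · exact mem_range.mpr (Nat.lt_succ_of_lt (mem_range.mp (hon J hJ hi)))
          · exact (hoff I hI).trans (range_subset_range.mpr (Nat.le_succ j))
        · intro J hJ
          rw [Multiset.count_add]
          by_cases hjJ : j ∈ J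
          · have hg : Good M j (J.erase j) := by
              refine ⟨?_, ?_, ?_⟩
              · intro i hi
                have h5 := mem_range.mp (hJ.1 (mem_erase.mp hi).2)
                have h6 := (mem_erase.mp hi).1
                exact mem_range.mpr (by omega)
              · rw [card_erase_of_mem hjJ]
                have h5 := hJ.2.1
                have h6 := card_pos.mpr ⟨j, hjJ⟩
                omega
              · intro h
                exact hJ.2.2 (h.trans (erase_subset _ _))
            have h5 : κ * q.choose (J.card + M - (j + 1 + 1)) ≤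
                ((onp M j κ q).map (insert j)).count J := by
              have h6 := Multiset.count_map (b := J) (insert j) (onp M j κ q)
              rw [h6]
              have h7 : Multiset.replicate ((onp M j κ q).count (J.erase j)) (J.erase j) ≤
                  Multiset.filter (fun a => J = insert j a) (onp M j κ q) := by
                rw [Multiset.le_iff_count]
                intro K
                rw [Multiset.count_replicate]
                split_ifs with hK
                · rw [← hK, Multiset.count_filter_of_pos (p := fun a => J = insert j a) (insert_erase hjJ).symm]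
                · exact Nat.zero_le _
              have h8 := Multiset.card_le_card h7
              rw [Multiset.card_replicate, count_onp M j κ q _ hg, card_erase_of_mem hjJ] at h8
              have h9 := card_pos.mpr ⟨j, hjJ⟩
              have h10 : J.card - 1 + M - (j + 1) = J.card + M - (j + 1 + 1) := by omega
              rw [h10] at h8
              exact h8
            omega
          · have hJj : J ⊆ range j := by
              intro i hi
              have h5 := mem_range.mp (hJ.1 hi)
              have h6 : i ≠ j := fun h => hjJ (by rw [← h]; exact hi)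
              exact mem_range.mpr (by omega)
            have hg : Good M j J := ⟨hJj, by have := hJ.2.1; omega, hJ.2.2⟩
            have h5 := hc J hg
            rw [Multiset.count_sub, count_onp M j κ q J hg]
            have h6 : J.card + M - (j + 1) = J.card + M - (j + 1 + 1) + 1 := by
              have := hJ.2.1
              omega
            rw [h6, Nat.choose_succ_succ', mul_add] at h5
            rw [h6]
            omega
      omega

/-- The induction step. -/
theorem pp_step {M c j κ : ℕ} (hM : 1 ≤ M) (hj : M - 1 ≤ j) (hj2 : j + 1 < 2 * M)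
    (hP : PP M c (j + 1) κ) : PP M c j (κ + (2 * M) ^ ((j + 1) * c)) := by
  classical
  intro ν _ _ β W q hW1 hW2 s hs hc
  have hle : onp M j κ q ≤ s := onp_le fun I hI => le_trans
        (Nat.mul_le_mul_right _ (Nat.le_add_right _ _)) (hc I hI)
  have hst : onp M j κ q + (s - onp M j κ q) = s := add_tsub_cancel_of_le hle
  have h1 := bound hM hj hP β q W hW1 hW2 (onp M j κ q) (fun I hI => (mem_onp hI).1)
    fun I hI => le_of_eq (count_onp M j κ q I hI).symm
  have h2 := gM_kill (SG M β (Ag M β j W)) _ (exists_type hj hj2) _ (onp M j κ q)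
    (s - onp M j κ q) h1 (by
      rintro I ⟨hI, hIc⟩
      have h3 := hc I hI
      rw [Multiset.count_sub, count_onp M j κ q I hI]
      have h4 : I.card + M - (j + 1) = 0 := by omega
      rw [h4, Nat.choose_zero_right, mul_one] at h3
      rw [h4, Nat.choose_zero_right, mul_one]
      omega)
  rw [hst] at h2
  exact h2

/-- The statement at all levels `M - 1 ≤ j ≤ 2 M - 1`. -/
theorem exists_pp {M : ℕ} (c : ℕ) (hM : 1 ≤ M) (d : ℕ) : ∀ j, j + d = 2 * M - 1 → M - 1 ≤ j →
    ∃ κ, PP M c j κ := by
  induction d with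
  | zero =>
    intro j hj _
    have h1 : j = 2 * M - 1 := by omega
    rw [h1]
    exact ⟨0, pp_top c 0 hM⟩
  | succ d ih =>
    intro j hj hj2
    obtain ⟨κ, hκ⟩ := ih (j + 1) (by omega) (by omega)
    exact ⟨_, pp_step hM hj2 (by omega) hκ⟩

end Pool.Agent.V7.GA

end

section

/-!
# V7, block GAMMA: the result

On the level `M - 1` no nonzero form which is `M`-fold at many general points of the types
`I ≠ {0, …, M - 2}` has all its coefficients of degree `M - 1` in the blocks `0, …, M - 2` equal to
zero.
-/

set_option autoImplicit false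
set_option linter.unusedSectionVars false

namespace Pool.Agent.V7.GA

open Finset MvPolynomial Pool.Agent.H51.TB Pool.Agent.H54.V7 Pool.Agent.V7.ST

/-- GAMMA with numbers: `κ q.choose |I|` ordinary points of each type `I` suffice. -/
theorem gamma_gn {M : ℕ} (c : ℕ) (hM : 1 ≤ M) : ∃ κ : ℕ, ∀ (ν : Type) [Fintype ν] [DecidableEq ν]
    (β : ν → ℕ), (∀ i < M - 1, (univ.filter fun s => β s = i).card ≤ c) →
    ∀ q : ℕ, Fintype.card ν < (q + 1) * c → ∀ (ι : Type) [Fintype ι] (m : ι → Kd),
    (∀ I, I ⊂ range (M - 1) → κ * q.choose I.card ≤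
      ((univ : Finset ι).val.map m).count (Kd.ord M I)) →
    Gn ι (ν ⊕ ν) fun p => ∀ f ∈ (LS M β (M - 1)).V m p,
      (∀ e : {a // a ∈ Ex β (2 * M - 1) (M - 1)},
        ∑ s ∈ univ.filter (fun s => β s < M - 1), e.1 s = M - 1 → f e = 0) → f = 0 := by
  classical
  obtain ⟨κ, hκ⟩ := exists_pp (M := M) c hM M (M - 1) (by omega) le_rfl
  refine ⟨κ, fun ν _ _ β hβ q hq ι _ m hm => ?_⟩
  -- the points which are used
  let ι' := {i : ι // ∃ I, I ⊆ range (M - 1) ∧ m i = Kd.ord M I}
  have hch : ∀ i : ι', ∃ I, I ⊆ range (M - 1) ∧ m i.1 = Kd.ord M I := fun i => i.2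
  choose m' hm' hmm' using hch
  have hcount : ∀ I, I ⊆ range (M - 1) → ((univ : Finset ι').val.map m').count I =
      ((univ : Finset ι).val.map m).count (Kd.ord M I) := by
    intro I hI
    rw [Multiset.count_map, Multiset.count_map, ← Finset.filter_val, ← Finset.filter_val,
      Finset.card_val, Finset.card_val]
    refine card_bij (fun i _ => i.1) ?_ ?_ ?_
    · intro i hi
      rw [mem_filter] at hi ⊢
      refine ⟨mem_univ _, ?_⟩
      rw [hmm' i, ← hi.2]
    · intro i _ j _ hij
      exact Subtype.ext hij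
    · intro i hi
      rw [mem_filter] at hi
      refine ⟨⟨i, I, hI, hi.2.symm⟩, ?_, rfl⟩
      rw [mem_filter]
      refine ⟨mem_univ _, ?_⟩
      have h1 := hmm' ⟨i, I, hI, hi.2.symm⟩
      exact (Kd.ord.inj (hi.2.trans h1)).2
  have h1 := hκ ν β univ q (fun i hi => hβ i hi) (lt_of_le_of_lt (card_le_univ _) hq)
    ((univ : Finset ι').val.map m') (by
      intro I hI
      obtain ⟨i, _, rfl⟩ := Multiset.mem_map.mp hI
      exact hm' i) (by
      intro I hI
      rw [hcount I hI.1]
      have h2 : I.card + M - (M - 1 + 1) = I.card := by omega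
      rw [h2]
      exact hm I ⟨hI.1, hI.2.2⟩)
  rw [← gd_eq_gM] at h1
  have h2 := gn_pull (κ := ι) (fun i : ι' => i.1) Subtype.val_injective
    (Sum.inl : ν → ν ⊕ ν) Sum.inl_injective (gn_gd (SG M β (Ag M β (M - 1) univ)) m')
  refine h2.mono fun p hp f hf h0 => ?_
  rw [h1] at hp
  have hbot := Submodule.finrank_eq_zero.mp hp
  rw [mem_LSA] at hf
  have hsub : Ag M β (M - 1) univ ⊆ Ex β (2 * M - 1) (M - 1) := filter_subset _ _
  -- the coefficients which do not belong to `Ag` vanish
  have hz : ∀ e : {a // a ∈ Ex β (2 * M - 1) (M - 1)}, e.1 ∉ Ag M β (M - 1) univ → f e = 0 := by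
    intro e he
    apply h0
    have h3 := mem_Ex.mp e.2
    have h4 : ¬ M ≤ ∑ s ∈ univ.filter (fun s => β s < M - 1), e.1 s := by
      intro h
      apply he
      rw [mem_Ag]
      exact ⟨h3, fun s _ => mem_univ s, h⟩
    have h5 := card_le_deg β e.1 (range (M - 1)) fun i hi => h3.2 i (mem_range.mp hi)
    have h6 : univ.filter (fun s => β s ∈ range (M - 1)) = univ.filter fun s => β s < M - 1 :=
      filter_congr fun s _ => mem_range
    rw [h6, card_range] at h5
    omega
  have hmem : (fun e : {a // a ∈ Ag M β (M - 1) univ} => f ⟨e.1, hsub e.2⟩) ∈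
      (SG M β (Ag M β (M - 1) univ)).V m' fun i x => p i.1 (Sum.inl x) := by
    rw [mem_SG]
    intro i b hb
    have h3 := hf i.1
    rw [hmm' i] at h3
    rw [← h3 b hb]
    exact sum_sub hsub (fun e : {a // a ∈ Ex β (2 * M - 1) (M - 1)} => f e *
      Pool.Agent.H18.Ex.tcr (msk β (m' i) fun s => p i.1 (Sum.inl s)) e.1 b) fun e he => by
        show f e * _ = 0
        rw [hz e he, zero_mul]
  rw [hbot, Submodule.mem_bot] at hmem
  funext e
  by_cases he : e.1 ∈ Ag M β (M - 1) univ
  · exact congrFun hmem ⟨e.1, he⟩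
  · exact hz e he

theorem card_blk_le {c : ℕ} (hc : 1 ≤ c) (n i : ℕ) :
    (univ.filter fun s : Fin n => blk c n s = i).card ≤ c := by
  have h1 : (univ.filter fun s : Fin n => blk c n s = i).card ≤ (range c).card := by
    refine card_le_card_of_injOn (fun s => s.1 % c) ?_ ?_
    · intro s _
      exact mem_coe.mpr (mem_range.mpr (Nat.mod_lt _ hc))
    · intro s hs t ht hst
      have h2 : s.1 / c = i := (mem_filter.mp (mem_coe.mp hs)).2
      have h3 : t.1 / c = i := (mem_filter.mp (mem_coe.mp ht)).2
      have h4 : s.1 % c = t.1 % c := hst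
      apply Fin.ext
      rw [← Nat.div_add_mod s.1 c, ← Nat.div_add_mod t.1 c, h2, h3, h4]
  rwa [card_range] at h1

/-- The number of ordinary points of a class is large. -/
theorem ord_ge {M c n : ℕ} (hM : 2 ≤ M) (hc : 2 * (2 * M - 1).choose M * M < c) {e : ℝ}
    (he : e * (2 * M ^ 2 * ((2 * M - 1).choose M * M.factorial)) ≤ 1) {N : Kd → ℕ}
    (h : Cls0 M c (M - 1) n e N) {I : Finset ℕ} (hI : I ⊂ range (M - 1)) :
    (n : ℝ) ^ (I.card + 1) ≤ 2 * M * ((2 * M - 1).choose M * M.factorial) * N (.ord M I) := by
  have hIc : I.card < M - 1 := by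
    have := card_lt_card hI
    rwa [card_range] at this
  have hdeg : M + I.card - (M - 1) = I.card + 1 := by omega
  have h1 := h.big I hI.1 hI.ne
  rw [hdeg] at h1
  have h2 : ∀ i ∈ range (M - 1), (N (.sw i I) : ℝ) ≤
      (2 * ((2 * M - 1).choose M : ℝ) / c * nom M c (M - 1) I + e) * (n : ℝ) ^ (I.card + 1) := by
    intro i hi
    have := h.swp i (mem_range.mp hi) I hI.1
    rwa [hdeg] at this
  have h3 := sum_le_sum h2
  rw [sum_const, card_range, nsmul_eq_mul] at h3
  have h4 : (tot M (M - 1) N I : ℝ) = N (.ord M I) + ∑ i ∈ range (M - 1), (N (.sw i I) : ℝ) := by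
    unfold tot
    push_cast
    rfl
  have h5 := (abs_le.mp h1).1
  rw [h4] at h5
  -- the nominal density
  have hC : (0 : ℝ) < ((2 * M - 1).choose M : ℝ) := by
    exact_mod_cast Nat.choose_pos (by omega)
  have hc0 : (0 : ℝ) < c := by
    have : 0 < c := by omega
    exact_mod_cast this
  have hF : (0 : ℝ) < (M.factorial : ℝ) := by exact_mod_cast Nat.factorial_pos M
  have hM0 : (0 : ℝ) < M := by
    have : 0 < M := by omega
    exact_mod_cast this
  have hnom : 1 ≤ nom M c (M - 1) I * (((2 * M - 1).choose M : ℝ) * (M.factorial : ℝ)) := by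
    unfold nom
    rw [hdeg]
    have hf1 : ((I.card + 1).factorial : ℝ) ≤ M.factorial := by
      exact_mod_cast Nat.factorial_le (by omega)
    have hf0 : (0 : ℝ) < ((I.card + 1).factorial : ℝ) := by
      exact_mod_cast Nat.factorial_pos _
    have hp1 : (1 : ℝ) ≤ (c : ℝ) ^ (M - 1 - I.card) := by
      apply one_le_pow₀
      have : 1 ≤ c := by omega
      exact_mod_cast this
    rw [div_mul_eq_mul_div, le_div_iff₀ (mul_pos hC hf0), one_mul]
    calc ((2 * M - 1).choose M : ℝ) * ((I.card + 1).factorial : ℝ)
        ≤ ((2 * M - 1).choose M : ℝ) * (M.factorial : ℝ) := by gcongr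
      _ = 1 * (((2 * M - 1).choose M : ℝ) * (M.factorial : ℝ)) := (one_mul _).symm
      _ ≤ _ := by gcongr
  set ν := nom M c (M - 1) I with hν
  set D := ((2 * M - 1).choose M : ℝ) * (M.factorial : ℝ) with hD
  have hD0 : 0 < D := mul_pos hC hF
  have hν0 : 0 < ν := by
    by_contra hcon
    have : ν * D ≤ 0 := mul_nonpos_of_nonpos_of_nonneg (not_lt.mp hcon) hD0.le
    linarith
  have hx : (0 : ℝ) ≤ (n : ℝ) ^ (I.card + 1) := by positivity
  set x := (n : ℝ) ^ (I.card + 1) with hxd
  have hM1 : ((M - 1 : ℕ) : ℝ) = M - 1 := by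
    rw [Nat.cast_sub (by omega), Nat.cast_one]
  rw [hM1] at h3
  -- the share of the swapped points
  have hsh : 2 * ((2 * M - 1).choose M : ℝ) / c * M ≤ 1 := by
    rw [div_mul_eq_mul_div, div_le_one hc0]
    have : 2 * (2 * M - 1).choose M * M ≤ c := hc.le
    exact_mod_cast this
  set r := 2 * ((2 * M - 1).choose M : ℝ) / c with hr
  have hr0 : 0 ≤ r := by positivity
  have hM2 : (2 : ℝ) ≤ M := by exact_mod_cast hM
  -- lower bound
  have h6 : (N (.ord M I) : ℝ) ≥ x * (ν - (M - 1) * r * ν - M * e) := by nlinarith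
  have h7 : (M - 1) * r ≤ 1 - 1 / (M : ℝ) := by
    have h8 : (M - 1) * r * M ≤ (M - 1) := by nlinarith
    have h9 : 1 - 1 / (M : ℝ) = (M - 1) / M := by field_simp
    rw [h9, le_div_iff₀ hM0]
    exact h8
  have h8 : ν - (M - 1) * r * ν ≥ ν / M := by
    have h10 : (M - 1) * r * ν ≤ (1 - 1 / (M : ℝ)) * ν := by gcongr
    have h11 : (1 - 1 / (M : ℝ)) * ν = ν - ν / M := by ring
    linarith
  have h9 : (M : ℝ) * e ≤ ν / M / 2 := by
    rw [div_div, le_div_iff₀ (by positivity)]
    have h10 : e * (2 * M ^ 2) * D ≤ ν * D := by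
      calc e * (2 * M ^ 2) * D = e * (2 * M ^ 2 * D) := by ring
        _ ≤ 1 := he
        _ ≤ ν * D := hnom
    have h11 := le_of_mul_le_mul_right h10 hD0
    calc (M : ℝ) * e * (M * 2) = e * (2 * M ^ 2) := by ring
      _ ≤ ν := h11
  have h10 : (N (.ord M I) : ℝ) ≥ x * (ν / M / 2) := by
    refine le_trans ?_ h6
    apply mul_le_mul_of_nonneg_left _ hx
    linarith
  calc x = x * 1 := (mul_one x).symm
    _ ≤ x * (ν * D) := by gcongr
    _ = 2 * M * D * (x * (ν / M / 2)) := by field_simp
    _ ≤ 2 * M * D * N (.ord M I) := by gcongr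

/-- GAMMA for the classes. -/
theorem gamma (M c : ℕ) (hM : 2 ≤ M) (hc : 2 * (2 * M - 1).choose M * M < c) :
    ∃ e : ℝ, 0 < e ∧ ∃ n₀ : ℕ, ∀ n : ℕ, n₀ ≤ n → ∀ s : Multiset Kd,
      Cls0 M c (M - 1) n e (fun τ => s.count τ) → ∀ (ι : Type) [Fintype ι] (m : ι → Kd),
      (univ : Finset ι).val.map m = s → Gn ι (Fin n ⊕ Fin n) fun p =>
        ∀ f ∈ (LS M (blk c n) (M - 1)).V m p,
          (∀ e : {a // a ∈ Ex (blk c n) (2 * M - 1) (M - 1)},
            ∑ s ∈ univ.filter (fun s => blk c n s < M - 1), e.1 s = M - 1 → f e = 0) → f = 0 := by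
  obtain ⟨κ, hκ⟩ := gamma_gn (M := M) c (by omega)
  have hD : (0 : ℝ) < 2 * M ^ 2 * ((2 * M - 1).choose M * M.factorial) := by
    have h1 : 0 < (2 * M - 1).choose M := Nat.choose_pos (by omega)
    have h2 := Nat.factorial_pos M
    have h3 : 0 < M := by omega
    positivity
  refine ⟨1 / (2 * M ^ 2 * ((2 * M - 1).choose M * M.factorial)), by positivity,
    2 * M * ((2 * M - 1).choose M * M.factorial) * κ + 1, fun n hn s hs ι _ m hm => ?_⟩
  have hc1 : 1 ≤ c := by omega
  refine hκ (Fin n) (blk c n) (fun i _ => card_blk_le hc1 n i) (n / c) ?_ ι m ?_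
  · rw [Fintype.card_fin, add_mul, one_mul]
    have h1 := Nat.div_add_mod n c
    have h2 := Nat.mod_lt n hc1
    have h3 : c * (n / c) = n / c * c := mul_comm _ _
    omega
  · intro I hI
    rw [hm]
    have h1 := ord_ge hM hc (by rw [one_div, inv_mul_cancel₀ hD.ne']) hs hI
    have h2 : n ^ (I.card + 1) ≤ 2 * M * ((2 * M - 1).choose M * M.factorial) *
        s.count (Kd.ord M I) := by exact_mod_cast h1
    have h3 : (n / c).choose I.card ≤ n ^ I.card :=
      (Nat.choose_le_pow _ _).trans (Nat.pow_le_pow_left (Nat.div_le_self _ _) _)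
    have h4 : 0 < 2 * M * ((2 * M - 1).choose M * M.factorial) := by
      have h1 : 0 < (2 * M - 1).choose M := Nat.choose_pos (by omega)
      have h2 := Nat.factorial_pos M
      have h3 : 0 < M := by omega
      positivity
    have h5 : 2 * M * ((2 * M - 1).choose M * M.factorial) * (κ * n ^ I.card) ≤
        2 * M * ((2 * M - 1).choose M * M.factorial) * s.count (Kd.ord M I) := by
      calc 2 * M * ((2 * M - 1).choose M * M.factorial) * (κ * n ^ I.card)
          = 2 * M * ((2 * M - 1).choose M * M.factorial) * κ * n ^ I.card := by ring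
        _ ≤ n * n ^ I.card := Nat.mul_le_mul_right _ (by omega)
        _ = n ^ (I.card + 1) := by ring
        _ ≤ _ := h2
    exact (Nat.mul_le_mul_left κ h3).trans (Nat.le_of_mul_le_mul_left h5 h4)

end Pool.Agent.V7.GA

end

section

/-!
# V7, block GAMMA: the form used in the block TOP
-/

set_option autoImplicit false

namespace Pool.Agent.V7.GA

open Finset Pool.Agent.H51.TB Pool.Agent.H54.V7

theorem gamma_inp (M c k : ℕ) (hk : k + 1 = M) (hM : 2 ≤ M)
    (hc : 2 * (2 * M - 1).choose M * M < c) :
    ∃ e : ℝ, 0 < e ∧ ∃ n₀ : ℕ, ∀ n : ℕ, n₀ ≤ n → ∀ (κ : Type) [Fintype κ] (rest : κ → Kd),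
      Cls0 M c k n e (fun τ => ((univ : Finset κ).val.map rest).count τ) →
      Gn κ (Fin n ⊕ Fin n) fun p => ∀ f ∈ (LS M (blk c n) k).V rest p,
        (∀ a : {a // a ∈ Ex (blk c n) (2 * M - 1) k},
          ∑ s ∈ univ.filter (fun s => blk c n s < k), a.1 s ≤ k → f a = 0) → f = 0 := by
  obtain rfl : k = M - 1 := by omega
  obtain ⟨e, he, n₀, h⟩ := gamma M c hM hc
  refine ⟨e, he, n₀, fun n hn κ _ rest hr => ?_⟩
  refine (h n hn _ hr κ rest rfl).mono fun p hp f hf h0 => hp f hf fun a ha => h0 a (le_of_eq ha)

end Pool.Agent.V7.GA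

end
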