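import Pool.Agent.H94.LP5.M31
import Pool.Agent.H94.LP5.M32

/-! The parts of this file: H18.Ex.Peel_1, H18.Ex.Run. -/

section

/-!
# Module Peel: one Horace step for configurations

The region `A` has dimension `n + 1`, its layer `A₀ = A ∩ {a l = 0}` dimension `n` and `f`
exponents.
-/

namespace Pool.Agent.H18.Ex

open Finset

/-- A maximal submultiset with bounded weight. -/
theorem exists_maximal_fill (N I₀ : Multiset ℕ) (g : ℕ → ℕ) (a : ℕ) (hI₀ : I₀ ≤ N)
    (h : (I₀.map g).sum ≤ a) :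
    ∃ I, I₀ ≤ I ∧ I ≤ N ∧ (I.map g).sum ≤ a ∧ ∀ m ∈ N - I, a < (I.map g).sum + g m := by
  induction hk : (N - I₀).card using Nat.strong_induction_on generalizing I₀ with
  | _ k ih =>
    by_cases hm : ∃ m ∈ N - I₀, (I₀.map g).sum + g m ≤ a
    · obtain ⟨m, hmem, hle⟩ := hm
      have h1 : m ::ₘ I₀ ≤ N := by
        have h2 : ({m} : Multiset ℕ) ≤ N - I₀ := Multiset.singleton_le.2 hmem
        calc m ::ₘ I₀ = {m} + I₀ := (Multiset.singleton_add m I₀).symm
          _ ≤ (N - I₀) + I₀ := add_le_add_left h2 I₀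
          _ = N := tsub_add_cancel_of_le hI₀
      have h3 : ((m ::ₘ I₀).map g).sum ≤ a := by
        rw [Multiset.map_cons, Multiset.sum_cons]
        omega
      have h4 : (N - (m ::ₘ I₀)).card < k := by
        rw [← hk, Multiset.card_sub h1, Multiset.card_sub hI₀, Multiset.card_cons]
        have h5 := Multiset.card_le_card h1
        rw [Multiset.card_cons] at h5
        omega
      obtain ⟨I, hI1, hI2, hI3, hI4⟩ := ih _ h4 (m ::ₘ I₀) h1 h3 rfl
      exact ⟨I, le_trans (Multiset.le_cons_self I₀ m) hI1, hI2, hI3, hI4⟩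
    · push Not at hm
      exact ⟨I₀, le_rfl, hI₀, h, hm⟩

/-- Pigeonhole: a multiset of at least `M * r` numbers in `[1, M]` contains some number at
least `r` times. -/
theorem exists_replicate_le (N : Multiset ℕ) (M r : ℕ) (hN : ∀ m ∈ N, 1 ≤ m ∧ m ≤ M)
    (h : M * r ≤ N.card) (hM : 1 ≤ M) (hr : 1 ≤ r) : ∃ μ ∈ N, Multiset.replicate r μ ≤ N := by
  by_contra hcon
  push Not at hcon
  have h1 : ∀ μ ∈ N.toFinset, N.count μ ≤ r - 1 := by
    intro μ hμ
    have h2 := hcon μ (Multiset.mem_toFinset.1 hμ)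
    rw [← Multiset.le_count_iff_replicate_le] at h2
    omega
  have h3 : N.card ≤ N.toFinset.card * (r - 1) := by
    rw [← Multiset.toFinset_sum_count_eq N]
    refine le_trans (Finset.sum_le_card_nsmul _ _ _ h1) ?_
    rw [smul_eq_mul]
  have h4 : N.toFinset ⊆ Finset.Icc 1 M := by
    intro μ hμ
    exact Finset.mem_Icc.2 (hN μ (Multiset.mem_toFinset.1 hμ))
  have h5 : N.toFinset.card ≤ M := by
    have := Finset.card_le_card h4
    rw [Nat.card_Icc] at this
    omega
  have h6 : N.toFinset.card * (r - 1) ≤ M * (r - 1) := Nat.mul_le_mul_right _ h5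
  have h7 : M * (r - 1) < M * r := Nat.mul_lt_mul_of_pos_left (by omega) (by omega)
  omega

section PeelAux

/-- The traces of a multiset of forced conditions. -/
def trS (n : ℕ) (S : Multiset (ℕ × ℕ)) : ℕ := (S.map fun x => ell n x.1).sum

/-- The lengths of a multiset of forced conditions. -/
def flS (n : ℕ) (S : Multiset (ℕ × ℕ)) : ℕ := (S.map fun x => ell (n + 1) x.1 + 1 - x.2).sum

private theorem trS_add (n : ℕ) (S T : Multiset (ℕ × ℕ)) : trS n (S + T) = trS n S + trS n T := by
  unfold trS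
  rw [Multiset.map_add, Multiset.sum_add]

private theorem flS_add (n : ℕ) (S T : Multiset (ℕ × ℕ)) : flS n (S + T) = flS n S + flS n T := by
  unfold flS
  rw [Multiset.map_add, Multiset.sum_add]

private theorem shf_zero : shf 0 = 0 := rfl

private theorem shf_cons (x : ℕ × ℕ) (S : Multiset (ℕ × ℕ)) :
    shf (x ::ₘ S) = if x.2 ≤ x.1 - 1 then (x.1 - 1, x.2) ::ₘ shf S else shf S := by
  unfold shf
  rw [Multiset.map_cons]
  by_cases h : x.2 ≤ x.1 - 1
  · rw [if_pos h]
    exact Multiset.filter_cons_of_pos (p := fun y : ℕ × ℕ => y.2 ≤ y.1) _ h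
  · rw [if_neg h]
    exact Multiset.filter_cons_of_neg (p := fun y : ℕ × ℕ => y.2 ≤ y.1) _ h

private theorem mem_shf {x : ℕ × ℕ} {S : Multiset (ℕ × ℕ)} (hx : x ∈ shf S) :
    ∃ y ∈ S, x = (y.1 - 1, y.2) ∧ y.2 ≤ y.1 - 1 := by
  unfold shf at hx
  rw [Multiset.mem_filter, Multiset.mem_map] at hx
  obtain ⟨⟨y, hy, rfl⟩, h⟩ := hx
  exact ⟨y, hy, rfl, h⟩

private theorem trS_shf {n M : ℕ} (hn : 1 ≤ n) (S : Multiset (ℕ × ℕ))
    (hS : ∀ x ∈ S, 1 ≤ x.2 ∧ x.2 ≤ 2 ∧ x.2 ≤ x.1 ∧ x.1 ≤ M) :
    M * trS n (shf S) ≤ (M - 1) * trS n S := by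
  induction S using Multiset.induction_on with
  | empty => simp [shf_zero, trS]
  | cons x S ih =>
    have ih' := ih fun y hy => hS y (Multiset.mem_cons_of_mem hy)
    have hx := hS x (Multiset.mem_cons_self x S)
    have h1 : trS n (x ::ₘ S) = ell n x.1 + trS n S := by
      unfold trS
      rw [Multiset.map_cons, Multiset.sum_cons]
    rw [shf_cons, h1]
    by_cases h : x.2 ≤ x.1 - 1
    · rw [if_pos h]
      have h2 : trS n ((x.1 - 1, x.2) ::ₘ shf S) = ell n (x.1 - 1) + trS n (shf S) := by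
        unfold trS
        rw [Multiset.map_cons, Multiset.sum_cons]
      rw [h2]
      have h3 := ell_ratio (n := n) (c := x.1 - 1) (M := M) hn (by omega)
      have h4 : x.1 - 1 + 1 = x.1 := by omega
      rw [h4] at h3
      rw [Nat.mul_add, Nat.mul_add]
      exact Nat.add_le_add h3 ih'
    · rw [if_neg h, Nat.mul_add]
      exact le_trans ih' (Nat.le_add_left _ _)

private theorem flS_shf {n M : ℕ} (S : Multiset (ℕ × ℕ))
    (hS : ∀ x ∈ S, 1 ≤ x.2 ∧ x.2 ≤ 2 ∧ x.2 ≤ x.1 ∧ x.1 ≤ M) :
    flS n S = flS n (shf S) + trS n S := by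
  induction S using Multiset.induction_on with
  | empty => simp [shf_zero, trS, flS]
  | cons x S ih =>
    have ih' := ih fun y hy => hS y (Multiset.mem_cons_of_mem hy)
    obtain ⟨hx1, hx2, hx3, -⟩ := hS x (Multiset.mem_cons_self x S)
    have h1 : trS n (x ::ₘ S) = ell n x.1 + trS n S := by
      unfold trS
      rw [Multiset.map_cons, Multiset.sum_cons]
    have h0 : flS n (x ::ₘ S) = (ell (n + 1) x.1 + 1 - x.2) + flS n S := by
      unfold flS
      rw [Multiset.map_cons, Multiset.sum_cons]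
    have h5 := ell_succ n (x.1 - 1)
    have h4 : x.1 - 1 + 1 = x.1 := by omega
    rw [h4] at h5
    have h6 := ell_pos n (m := x.1) (by omega)
    rw [shf_cons, h1, h0, ih']
    by_cases h : x.2 ≤ x.1 - 1
    · rw [if_pos h]
      have h2 : flS n ((x.1 - 1, x.2) ::ₘ shf S) =
          (ell (n + 1) (x.1 - 1) + 1 - x.2) + flS n (shf S) := by
        unfold flS
        rw [Multiset.map_cons, Multiset.sum_cons]
      rw [h2]
      have h7 := ell_pos (n + 1) (m := x.1 - 1) (by omega)
      omega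
    · rw [if_neg h]
      have h8 : ell (n + 1) (x.1 - 1) = x.2 - 1 := by
        have h9 : x.1 = x.2 := by omega
        rw [h9]
        have h10 : x.2 = 1 ∨ x.2 = 2 := by omega
        rcases h10 with h10 | h10
        · rw [h10]
          exact ell_zero (by omega)
        · rw [h10]
          exact ell_one _
      omega

variable {ι : Type} [DecidableEq ι]

private theorem peelCfg_OK {M : ℕ} {c : Cfg ι} (hc : c.OK M) (l : ι) {I : Multiset ℕ}
    (hI : I ≤ c.N) {μ t u : ℕ} (hμ : t ≠ 0 → 2 ≤ μ ∧ μ ≤ M) : (peelCfg c l I μ t u).OK M := by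
  refine ⟨fun m hm => hc.hN m ?_, fun l' x hx => ?_⟩
  · exact Multiset.mem_of_le (le_trans tsub_le_self tsub_le_self) hm
  · by_cases h : l' = l
    · subst h
      rw [peelCfg_Φ_self, Multiset.mem_add, Multiset.mem_add] at hx
      rcases hx with (hx | hx) | hx
      · obtain ⟨y, hy, rfl, h1⟩ := mem_shf hx
        have h2 := hc.hΦ l' y hy
        refine ⟨h2.1, h2.2.1, h1, ?_⟩
        change y.1 - 1 ≤ M
        omega
      · obtain ⟨m, hm, rfl⟩ := Multiset.mem_map.1 hx
        have h2 := hc.hN m (Multiset.mem_of_le hI hm)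
        refine ⟨le_rfl, by norm_num, ?_, ?_⟩
        · change 1 ≤ m - 1
          omega
        · change m - 1 ≤ M
          omega
      · have h1 := Multiset.mem_replicate.1 hx
        have h2 := hμ h1.1
        rw [h1.2]
        exact ⟨by norm_num, le_rfl, h2.1, h2.2⟩
    · rw [peelCfg_Φ_ne c h] at hx
      exact hc.hΦ l' x hx

variable [Fintype ι]

private theorem roles_notAt (c : Cfg ι) (l : ι) (I : Multiset ℕ) (μ t u : ℕ) (k : Kind ι)
    (hk : Role.stay k ∈ roles c l I μ t u) : k.NotAt l := by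
  unfold roles at hk
  simp only [Multiset.mem_add] at hk
  rcases hk with (((((h | h) | h) | h) | h) | h) | h
  · obtain ⟨m, _, hm⟩ := Multiset.mem_map.1 h
    cases hm
    trivial
  · have h1 := (Multiset.mem_replicate.1 h).2
    cases h1
    trivial
  · obtain ⟨l', hl', h1⟩ := Multiset.mem_sum.1 h
    obtain ⟨x, _, hx⟩ := Multiset.mem_map.1 h1
    cases hx
    exact Finset.ne_of_mem_erase hl'
  · obtain ⟨m, _, hm⟩ := Multiset.mem_map.1 h
    cases hm
  · obtain ⟨m, _, hm⟩ := Multiset.mem_map.1 h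
    cases hm
  · have h1 := (Multiset.mem_replicate.1 h).2
    cases h1
  · have h1 := (Multiset.mem_replicate.1 h).2
    cases h1

private theorem roles_layer_le {M : ℕ} (hM : 1 ≤ M) {c : Cfg ι} (hc : c.OK M) (l : ι)
    {I : Multiset ℕ} (hI : I ≤ c.N) (μ t u : ℕ) :
    ∀ m ∈ (roles c l I μ t u).map Role.layer, m ≤ M := by
  intro m hm
  obtain ⟨r, hr, rfl⟩ := Multiset.mem_map.1 hm
  unfold roles at hr
  simp only [Multiset.mem_add] at hr
  rcases hr with (((((h | h) | h) | h) | h) | h) | h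
  · obtain ⟨m, _, rfl⟩ := Multiset.mem_map.1 h
    exact Nat.zero_le _
  · rw [(Multiset.mem_replicate.1 h).2]
    exact Nat.zero_le _
  · obtain ⟨l', hl', h1⟩ := Multiset.mem_sum.1 h
    obtain ⟨x, _, rfl⟩ := Multiset.mem_map.1 h1
    exact Nat.zero_le _
  · obtain ⟨x, hx, rfl⟩ := Multiset.mem_map.1 h
    have h2 := hc.hΦ l x hx
    change (if x.2 ≤ x.1 then x.1 else 0) ≤ M
    rw [if_pos h2.2.2.1]
    exact h2.2.2.2
  · obtain ⟨m', hm', rfl⟩ := Multiset.mem_map.1 h
    exact (hc.hN m' (Multiset.mem_of_le hI hm')).2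
  · rw [(Multiset.mem_replicate.1 h).2]
    exact hM
  · rw [(Multiset.mem_replicate.1 h).2]
    exact hM

private theorem peelCfg_GM (n M : ℕ) (hn : 1 ≤ n) (hM : 1 ≤ M) (A A' : Finset (ι → ℕ)) (l : ι)
    (hA : ∀ a, a ∈ A' ↔ Function.update a l (a l + 1) ∈ A) (f : ℕ)
    (hf : (A.filter fun a => a l = 0).card = f) (hE : Exa n M (A.filter fun a => a l = 0))
    (c : Cfg ι) (hc : c.OK M) {I : Multiset ℕ} (hI : I ≤ c.N) {μ t u : ℕ} (hμ1 : 1 ≤ μ)
    (ht : Multiset.replicate t μ ≤ c.N - I) (hu : u ≤ c.s)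
    (hsum : c.tr n l + (I.map (ell n)).sum + t + u = f)
    (h : GM A' (peelCfg c l I μ t u).kinds) : GM A c.kinds := by
  rw [← roles_before c l hI ht hu]
  apply GM.step A A' l hA μ hμ1
  · exact roles_notAt c l I μ t u
  · have h1 := hE ((roles c l I μ t u).map Role.layer) (roles_layer_le hM hc l hI μ t u)
      (by rw [roles_layer hn hc l I μ t u, hsum, hf])
    rw [Multiset.map_map] at h1
    exact h1
  · exact GM.mono (roles_after c l I μ t u) h

omit [Fintype ι] in
private theorem peelCfg_tr {n M : ℕ} (hn : 1 ≤ n) {c : Cfg ι} (hc : c.OK M) (l : ι)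
    {I : Multiset ℕ} (hI : I ≤ c.N) (μ t u : ℕ) :
    M * (peelCfg c l I μ t u).tr n l ≤ (M - 1) * (c.tr n l + (I.map (ell n)).sum) +
      M * (t * ell n μ) := by
  have h1 : (peelCfg c l I μ t u).tr n l = trS n (shf (c.Φ l)) +
      trS n (I.map (fun m => (m - 1, 1))) + trS n (Multiset.replicate t (μ, 2)) := by
    unfold Cfg.tr
    rw [peelCfg_Φ_self, ← trS_add, ← trS_add]
    rfl
  have h2 : trS n (Multiset.replicate t (μ, 2)) = t * ell n μ := by
    unfold trS
    rw [Multiset.map_replicate, Multiset.sum_replicate, smul_eq_mul]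
  have h3 := trS_shf hn (c.Φ l) (fun x hx => hc.hΦ l x hx)
  have h4 : trS n (c.Φ l) = c.tr n l := rfl
  have h5 : M * trS n (I.map (fun m => (m - 1, 1))) ≤ (M - 1) * (I.map (ell n)).sum := by
    have h6 : ∀ m ∈ I, 2 ≤ m ∧ m ≤ M := fun m hm => hc.hN m (Multiset.mem_of_le hI hm)
    clear h1 h2 h3 h4 hI
    unfold trS
    rw [Multiset.map_map]
    induction I using Multiset.induction_on with
    | empty => simp
    | cons m I ih =>
      have ih' := ih fun m' hm' => h6 m' (Multiset.mem_cons_of_mem hm')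
      have h7 := h6 m (Multiset.mem_cons_self m I)
      rw [Multiset.map_cons, Multiset.map_cons, Multiset.sum_cons, Multiset.sum_cons,
        Nat.mul_add, Nat.mul_add]
      have h8 := ell_ratio (n := n) (c := m - 1) (M := M) hn (by omega)
      have h9 : m - 1 + 1 = m := by omega
      rw [h9] at h8
      exact Nat.add_le_add h8 ih'
  rw [h1, h2, Nat.mul_add, Nat.mul_add, Nat.mul_add]
  rw [h4] at h3
  omega

omit [DecidableEq ι] [Fintype ι] in
private theorem sum_map_N {n : ℕ} (c : Cfg ι) {I : Multiset ℕ} (hI : I ≤ c.N) {μ t : ℕ}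
    (ht : Multiset.replicate t μ ≤ c.N - I) :
    (c.N.map (ell (n + 1))).sum = ((c.N - I - Multiset.replicate t μ).map (ell (n + 1))).sum +
      (I.map (ell (n + 1))).sum + t * ell (n + 1) μ := by
  have h1 : c.N = (c.N - I - Multiset.replicate t μ) + I + Multiset.replicate t μ := by
    rw [add_right_comm, tsub_add_cancel_of_le ht, tsub_add_cancel_of_le hI]
  conv_lhs => rw [h1]
  rw [Multiset.map_add, Multiset.map_add, Multiset.sum_add, Multiset.sum_add,
    Multiset.map_replicate, Multiset.sum_replicate, smul_eq_mul]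

private theorem peelCfg_sz {n M : ℕ} {c : Cfg ι} (hc : c.OK M) (l : ι)
    {I : Multiset ℕ} (hI : I ≤ c.N) {μ t u : ℕ} (hμ1 : 1 ≤ μ)
    (ht : Multiset.replicate t μ ≤ c.N - I) (hu : u ≤ c.s) :
    (peelCfg c l I μ t u).sz n + (c.tr n l + (I.map (ell n)).sum + t + u) = c.sz n := by
  have h1 : (peelCfg c l I μ t u).fl n l = flS n (shf (c.Φ l)) +
      flS n (I.map (fun m => (m - 1, 1))) + flS n (Multiset.replicate t (μ, 2)) := by
    unfold Cfg.fl
    rw [peelCfg_Φ_self, ← flS_add, ← flS_add]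
    rfl
  have h2 : flS n (Multiset.replicate t (μ, 2)) + t = t * ell (n + 1) μ := by
    unfold flS
    rw [Multiset.map_replicate, Multiset.sum_replicate, smul_eq_mul]
    have h3 := ell_pos (n + 1) hμ1
    change t * (ell (n + 1) μ + 1 - 2) + t = t * ell (n + 1) μ
    have h4 : ell (n + 1) μ = (ell (n + 1) μ + 1 - 2) + 1 := by omega
    conv_rhs => rw [h4]
    ring
  have h3 := flS_shf (n := n) (c.Φ l) (fun x hx => hc.hΦ l x hx)
  have h4 : flS n (c.Φ l) = c.fl n l := rfl
  have h4' : trS n (c.Φ l) = c.tr n l := rfl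
  have h5 : flS n (I.map (fun m => (m - 1, 1))) + (I.map (ell n)).sum =
      (I.map (ell (n + 1))).sum := by
    have h6 : ∀ m ∈ I, 2 ≤ m ∧ m ≤ M := fun m hm => hc.hN m (Multiset.mem_of_le hI hm)
    clear h1 h2 h3 h4 h4' hI ht
    unfold flS
    rw [Multiset.map_map]
    induction I using Multiset.induction_on with
    | empty => simp
    | cons m I ih =>
      have ih' := ih fun m' hm' => h6 m' (Multiset.mem_cons_of_mem hm')
      have h7 := h6 m (Multiset.mem_cons_self m I)
      rw [Multiset.map_cons, Multiset.map_cons, Multiset.map_cons, Multiset.sum_cons,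
        Multiset.sum_cons, Multiset.sum_cons, ← ih']
      have h8 := ell_succ n (m - 1)
      have h9 : m - 1 + 1 = m := by omega
      rw [h9] at h8
      simp only [Function.comp_apply]
      omega
  have h6 : ∑ l', (peelCfg c l I μ t u).fl n l' =
      ∑ l' ∈ univ.erase l, c.fl n l' + (peelCfg c l I μ t u).fl n l := by
    rw [← Finset.sum_erase_add univ _ (Finset.mem_univ l)]
    congr 1
    refine Finset.sum_congr rfl fun l' hl' => ?_
    unfold Cfg.fl
    rw [peelCfg_Φ_ne c (Finset.ne_of_mem_erase hl')]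
  have h7 : ∑ l', c.fl n l' = ∑ l' ∈ univ.erase l, c.fl n l' + c.fl n l :=
    (Finset.sum_erase_add univ _ (Finset.mem_univ l)).symm
  have h8 := sum_map_N (n := n) c hI ht
  have h9 : (peelCfg c l I μ t u).nsz n =
      ((c.N - I - Multiset.replicate t μ).map (ell (n + 1))).sum + (c.s - u) := rfl
  have h10 : c.nsz n = (c.N.map (ell (n + 1))).sum + c.s := rfl
  unfold Cfg.sz
  rw [h6, h7, h9, h10]
  omega

end PeelAux

variable {ι : Type} [Fintype ι] [DecidableEq ι]

private theorem card_le_sum_ell {n M : ℕ} {I : Multiset ℕ} (hI : ∀ m ∈ I, 2 ≤ m ∧ m ≤ M) :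
    I.card ≤ (I.map (ell n)).sum ∧ (I.map (ell n)).sum ≤ ell n M * I.card := by
  induction I using Multiset.induction_on with
  | empty => simp
  | cons m I ih =>
    have ih' := ih fun m' hm' => hI m' (Multiset.mem_cons_of_mem hm')
    have h7 := hI m (Multiset.mem_cons_self m I)
    rw [Multiset.card_cons, Multiset.map_cons, Multiset.sum_cons, Nat.mul_add, Nat.mul_one]
    have h8 := ell_pos n (m := m) (by omega)
    have h9 := ell_mono n h7.2
    constructor
    · omega
    · omega

/-- One step for configurations, with a prescribed set `I₀` of points to be put on the hyperplane.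

Proof.  Put `a = f - c.tr n l` and `g = ell n`; let `I₀ ≤ I ≤ c.N` be maximal with
`∑_I g ≤ a` (`exists_maximal_fill`), `ρ = a - ∑_I g`; `I.card ≤ a ≤ f` since `g ≥ 1`.

Case (i) `g0 n M ≤ (c.N - I).card`.  Then `ρ < g m ≤ ell n M` for any `m ∈ c.N - I`, and by
`exists_replicate_le` there is `μ ∈ c.N - I` occurring at least `ell n M ≥ ρ` times.  Apply
`GM.step` to the multiset of roles
`(c.N - I - replicate ρ μ).map (stay ∘ free) + replicate c.s (stay (free 1))
 + ∑_{l' ≠ l} (c.Φ l').map (stay ∘ forced l') + (c.Φ l).map here + I.map ord + replicate ρ dif`.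
Its `before` is `c.kinds`; its layer is `Multiset.map Kind.free` of multiplicities `≤ M` with
`∑ ell n = c.tr n l + ∑_I g + ρ = f = |A₀|`, so `GM` holds by `Exa n M A₀` (zeros allowed); its
`after` is `c'.kinds` plus some further (trivial) conditions, where `c'.N = c.N - I - replicate ρ μ`,
`c'.s = c.s`, `c'.Φ l = shf (c.Φ l) + I.map (m - 1, 1) + replicate ρ (μ, 2)` (use `GM.mono`).
Case (ii) `(c.N - I).card < g0 n M`.  Then `c.N.card < f + g0 n M`, so
`c.nsz n ≤ ell (n + 1) M * (f + g0 n M) + c.s`, hence `ρ ≤ f ≤ c.s`; use `ρ` simple points as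
`ord 1` (any `μ`, e.g. `1`, no `dif`): `c'.N = c.N - I`, `c'.s = c.s - ρ`,
`c'.Φ l = shf (c.Φ l) + I.map (m - 1, 1)`.

Numbers: `M * c'.tr n l ≤ (M - 1) * (c.tr n l + ∑_I g) + M * ρ * ell n M` by `ell_ratio`;
`c'.sz n + f = c.sz n` by `ell_succ`.  If `c.N.card < g0 n M` and there is room for all of `c.N`
then `I = c.N` (maximality), case (ii), `c'.N = 0`. -/
theorem peel (n M : ℕ) (hn : 1 ≤ n) (hM : 1 ≤ M) (A A' : Finset (ι → ℕ)) (l : ι)
    (hA : ∀ a, a ∈ A' ↔ Function.update a l (a l + 1) ∈ A) (f : ℕ)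
    (hf : (A.filter fun a => a l = 0).card = f) (hE : Exa n M (A.filter fun a => a l = 0))
    (c : Cfg ι) (hc : c.OK M) (I₀ : Multiset ℕ) (hI₀ : I₀ ≤ c.N)
    (hroom : c.tr n l + (I₀.map (ell n)).sum ≤ f)
    (hav : ell (n + 1) M * (f + g0 n M) + f ≤ c.nsz n) :
    ∃ c' : Cfg ι, c'.OK M ∧ (GM A' c'.kinds → GM A c.kinds) ∧
      (∀ l' ≠ l, c'.Φ l' = c.Φ l') ∧
      M * c'.tr n l ≤ (M - 1) * f + M * ell n M ^ 2 ∧
      c'.sz n + f = c.sz n ∧
      (c'.s = c.s ∨ c'.N.card < g0 n M) ∧
      c'.N.card ≤ c.N.card ∧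
      (c.N.card < g0 n M → g0 n M * ell n M + c.tr n l ≤ f → c'.N = 0) ∧
      (c.N = 0 → c'.N = 0 ∧ c'.Φ l = shf (c.Φ l)) ∧
      shf (c.Φ l) + I₀.map (fun m => (m - 1, 1)) ≤ c'.Φ l := by
  obtain ⟨I, hI1, hI2, hI3, hI4⟩ := exists_maximal_fill c.N I₀ (ell n) (f - c.tr n l) hI₀
    (by omega)
  set ρ := f - c.tr n l - (I.map (ell n)).sum with hρ
  have hIN : ∀ m ∈ I, 2 ≤ m ∧ m ≤ M := fun m hm => hc.hN m (Multiset.mem_of_le hI2 hm)
  have hcard := card_le_sum_ell (n := n) hIN
  have hg0 : 1 ≤ g0 n M := by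
    unfold g0
    exact Nat.mul_pos (by omega) (ell_pos n hM)
  have hsub : (c.N - I).card = c.N.card - I.card := Multiset.card_sub hI2
  have hIc : I.card ≤ c.N.card := Multiset.card_le_card hI2
  have hmapI : shf (c.Φ l) + I₀.map (fun m => (m - 1, 1)) ≤
      shf (c.Φ l) + I.map (fun m => (m - 1, 1)) := by
    gcongr
  by_cases hcase : g0 n M ≤ (c.N - I).card
  · -- case (i)
    have hNI : ∀ m ∈ c.N - I, 1 ≤ m ∧ m ≤ M := by
      intro m hm
      have := hc.hN m (Multiset.mem_of_le tsub_le_self hm)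
      omega
    obtain ⟨μ, hμ, hrep⟩ := exists_replicate_le (c.N - I) M (ell n M) hNI hcase hM
      (ell_pos n hM)
    have hμ2 := hc.hN μ (Multiset.mem_of_le tsub_le_self hμ)
    have hρle : ρ ≤ ell n M := by
      have h1 := hI4 μ hμ
      have h2 := ell_mono n hμ2.2
      omega
    have ht : Multiset.replicate ρ μ ≤ c.N - I :=
      le_trans (Multiset.replicate_le_replicate μ |>.2 hρle) hrep
    have hsum : c.tr n l + (I.map (ell n)).sum + ρ + 0 = f := by omega
    refine ⟨peelCfg c l I μ ρ 0, peelCfg_OK hc l hI2 (fun _ => hμ2),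
      peelCfg_GM n M hn hM A A' l hA f hf hE c hc hI2 (by omega) ht (Nat.zero_le _) hsum,
      fun l' hl' => peelCfg_Φ_ne c hl' I μ ρ 0, ?_, ?_, Or.inl rfl, ?_, ?_, ?_, ?_⟩
    · refine le_trans (peelCfg_tr hn hc l hI2 μ ρ 0) (Nat.add_le_add ?_ ?_)
      · exact Nat.mul_le_mul_left _ (by omega)
      · apply Nat.mul_le_mul_left
        rw [pow_two]
        exact Nat.mul_le_mul hρle (ell_mono n hμ2.2)
    · have h1 := peelCfg_sz (n := n) hc l hI2 (by omega : 1 ≤ μ) ht (Nat.zero_le c.s)
      rw [hsum] at h1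
      exact h1
    · exact Multiset.card_le_card (le_trans tsub_le_self tsub_le_self)
    · intro h
      omega
    · intro h
      rw [h] at hcase hsub
      rw [hsub] at hcase
      simp at hcase
      omega
    · rw [peelCfg_Φ_self]
      exact le_trans hmapI (Multiset.le_add_right _ _)
  · -- case (ii)
    push Not at hcase
    have hρs : ρ ≤ c.s := by
      have h1 : c.nsz n ≤ ell (n + 1) M * c.N.card + c.s := by
        unfold Cfg.nsz
        exact Nat.add_le_add_right (card_le_sum_ell (n := n + 1) hc.hN).2 _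
      have h2 : ell (n + 1) M * c.N.card ≤ ell (n + 1) M * (f + g0 n M) :=
        Nat.mul_le_mul_left _ (by omega)
      omega
    have hsum : c.tr n l + (I.map (ell n)).sum + 0 + ρ = f := by omega
    have ht : Multiset.replicate 0 1 ≤ c.N - I := Multiset.zero_le _
    have hNeq : (peelCfg c l I 1 0 ρ).N = c.N - I := by
      change c.N - I - Multiset.replicate 0 1 = c.N - I
      rw [Multiset.replicate_zero, tsub_zero]
    refine ⟨peelCfg c l I 1 0 ρ, peelCfg_OK hc l hI2 (fun h => absurd rfl h),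
      peelCfg_GM n M hn hM A A' l hA f hf hE c hc hI2 le_rfl ht hρs hsum,
      fun l' hl' => peelCfg_Φ_ne c hl' I 1 0 ρ, ?_, ?_, Or.inr ?_, ?_, ?_, ?_, ?_⟩
    · refine le_trans (peelCfg_tr hn hc l hI2 1 0 ρ) (Nat.add_le_add ?_ ?_)
      · exact Nat.mul_le_mul_left _ (by omega)
      · rw [zero_mul, mul_zero]
        exact Nat.zero_le _
    · have h1 := peelCfg_sz (n := n) hc l hI2 (le_refl 1) ht hρs
      rw [hsum] at h1
      exact h1
    · rw [hNeq]
      exact hcase
    · rw [hNeq]
      exact Multiset.card_le_card tsub_le_self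
    · intro hN hroom'
      rw [hNeq]
      by_contra hne
      obtain ⟨m, hm⟩ := Multiset.exists_mem_of_ne_zero hne
      have h1 := hI4 m hm
      have h2 : m ::ₘ I ≤ c.N := by
        have h3 : ({m} : Multiset ℕ) ≤ c.N - I := Multiset.singleton_le.2 hm
        calc m ::ₘ I = {m} + I := (Multiset.singleton_add m I).symm
          _ ≤ (c.N - I) + I := add_le_add_left h3 I
          _ = c.N := tsub_add_cancel_of_le hI2
      have h4 := (card_le_sum_ell (n := n) (I := m ::ₘ I)
        fun m' hm' => hc.hN m' (Multiset.mem_of_le h2 hm')).2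
      rw [Multiset.map_cons, Multiset.sum_cons] at h4
      have h5 := Multiset.card_le_card h2
      have h6 : ell n M * (m ::ₘ I).card ≤ ell n M * g0 n M := Nat.mul_le_mul_left _ (by omega)
      rw [Nat.mul_comm (ell n M) (g0 n M)] at h6
      omega
    · intro h
      have hI0 : I = 0 := by
        rw [h] at hI2
        exact Multiset.le_zero.1 hI2
      refine ⟨?_, ?_⟩
      · rw [hNeq, h, hI0]
        rfl
      · rw [peelCfg_Φ_self, hI0]
        simp
    · rw [peelCfg_Φ_self]
      exact le_trans hmapI (Multiset.le_add_right _ _)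

end Pool.Agent.H18.Ex

end

section

/-!
# Module Run: running along a good list of directions
-/

namespace Pool.Agent.H18.Ex

open Finset

variable {ι : Type} [Fintype ι] [DecidableEq ι]

/-- The layer of a region. -/
theorem Rg_layer (σ : ℕ) (w : ι → ℕ) (l : ι) :
    (Rg σ w).filter (fun a => a l = 0) = Rg σ (Function.update w l 0) := by
  ext a
  rw [mem_filter, mem_Rg, mem_Rg]
  constructor
  · rintro ⟨⟨h1, h2⟩, h3⟩
    refine ⟨fun i => ?_, h2⟩
    by_cases hi : i = l
    · subst hi
      rw [Function.update_self, h3]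
    · rw [Function.update_of_ne hi]
      exact h1 i
  · rintro ⟨h1, h2⟩
    have h3 : a l = 0 := by
      have := h1 l
      rw [Function.update_self] at this
      omega
    refine ⟨⟨fun i => ?_, h2⟩, h3⟩
    by_cases hi : i = l
    · subst hi
      rw [h3]
      exact Nat.zero_le _
    · have := h1 i
      rwa [Function.update_of_ne hi] at this

private theorem run_sum_update (a : ι → ℕ) (l : ι) :
    ∑ i, Function.update a l (a l + 1) i = ∑ i, a i + 1 := by
  rw [Finset.sum_update_of_mem (Finset.mem_univ l), Finset.sdiff_singleton_eq_erase,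
    ← Finset.add_sum_erase univ a (Finset.mem_univ l)]
  ring

/-- The residual of a region. -/
theorem Rg_resid (σ : ℕ) (w : ι → ℕ) (l : ι) (hσ : 1 ≤ σ) (hw : 1 ≤ w l) (a : ι → ℕ) :
    a ∈ Rg (σ - 1) (Function.update w l (w l - 1)) ↔ Function.update a l (a l + 1) ∈ Rg σ w := by
  rw [mem_Rg, mem_Rg, run_sum_update]
  constructor
  · rintro ⟨h1, h2⟩
    refine ⟨fun i => ?_, by omega⟩
    have h3 := h1 i
    by_cases hi : i = l
    · subst hi
      rw [Function.update_self] at h3 ⊢
      omega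
    · rw [Function.update_of_ne hi] at h3 ⊢
      exact h3
  · rintro ⟨h1, h2⟩
    refine ⟨fun i => ?_, by omega⟩
    have h3 := h1 i
    by_cases hi : i = l
    · subst hi
      rw [Function.update_self] at h3 ⊢
      omega
    · rw [Function.update_of_ne hi] at h3 ⊢
      exact h3

/-- Counting layer and residual. -/
theorem card_Rg_peel (σ : ℕ) (w : ι → ℕ) (l : ι) (hσ : 1 ≤ σ) (hw : 1 ≤ w l) :
    (Rg (σ - 1) (Function.update w l (w l - 1))).card + fc σ w l = (Rg σ w).card := by
  have h1 : (Rg (σ - 1) (Function.update w l (w l - 1))).card =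
      ((Rg σ w).filter fun a => ¬ a l = 0).card := by
    apply Finset.card_bij (fun a _ => Function.update a l (a l + 1))
    · intro a ha
      rw [mem_filter]
      refine ⟨(Rg_resid σ w l hσ hw a).1 ha, ?_⟩
      rw [Function.update_self]
      omega
    · intro a _ b _ hab
      funext i
      have h2 := congrFun hab i
      by_cases hi : i = l
      · subst hi
        rw [Function.update_self, Function.update_self] at h2
        omega
      · rw [Function.update_of_ne hi, Function.update_of_ne hi] at h2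
        exact h2
    · intro b hb
      rw [mem_filter] at hb
      have h3 : Function.update (Function.update b l (b l - 1)) l
          (Function.update b l (b l - 1) l + 1) = b := by
        rw [Function.update_self, Function.update_idem, Nat.sub_add_cancel (by omega),
          Function.update_eq_self]
      refine ⟨Function.update b l (b l - 1), ?_, h3⟩
      rw [Rg_resid σ w l hσ hw, h3]
      exact hb.1
  have h2 : fc σ w l = ((Rg σ w).filter fun a => a l = 0).card := by
    unfold fc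
    rw [Rg_layer]
  rw [h1, h2, add_comm]
  exact Finset.card_filter_add_card_filter_not _

/-- `∑ fl ≤ M * ∑ tr` for a valid configuration (`ell_le_mul`). -/
theorem Cfg.fl_le (n M : ℕ) (c : Cfg ι) (hc : c.OK M) (l : ι) : c.fl n l ≤ M * c.tr n l := by
  unfold Cfg.fl Cfg.tr
  rw [← Multiset.sum_map_mul_left]
  apply Multiset.sum_map_le_sum_map
  intro x hx
  obtain ⟨h1, _, _, h4⟩ := hc.hΦ l x hx
  have h5 := ell_le_mul n x.1
  have h6 : x.1 * ell n x.1 ≤ M * ell n x.1 := Nat.mul_le_mul_right _ h4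
  omega

theorem Good.mono {n M : ℕ} {X Y : ℕ → (ι → ℕ) → Prop} (h : ∀ σ w, X σ w → Y σ w) (L : List ι)
    (σ : ℕ) (w φ : ι → ℕ) (hL : Good n M X L σ w φ) : Good n M Y L σ w φ := by
  induction L generalizing σ w φ with
  | nil => trivial
  | cons l L ih =>
    obtain ⟨h1, h2, h3, h4, h5, h6⟩ := hL
    exact ⟨h1, h2, h _ _ h3, h4, h5, ih _ _ _ h6⟩

omit [Fintype ι] in
private theorem ew_nil (w : ι → ℕ) : ew [] w = w := by
  funext i
  simp [ew]

omit [Fintype ι] in
private theorem ew_cons (l : ι) (L : List ι) (w : ι → ℕ) :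
    ew (l :: L) w = ew L (Function.update w l (w l - 1)) := by
  funext i
  unfold ew
  by_cases hi : i = l
  · subst hi
    rw [List.count_cons_self, Function.update_self]
    omega
  · rw [List.count_cons_of_ne (fun h => hi h.symm), Function.update_of_ne hi]

omit [Fintype ι] [DecidableEq ι] in
private theorem sub_length_cons (σ : ℕ) (l : ι) (L : List ι) :
    σ - (l :: L).length = σ - 1 - L.length := by
  rw [List.length_cons]
  omega

/-- `Good` for an appended list. -/
theorem Good.append {n M : ℕ} {X : ℕ → (ι → ℕ) → Prop} (L L' : List ι) (σ : ℕ) (w φ : ι → ℕ) :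
    Good n M X (L ++ L') σ w φ ↔
      Good n M X L σ w φ ∧ Good n M X L' (σ - L.length) (ew L w) (eph n M L σ w φ) := by
  induction L generalizing σ w φ with
  | nil =>
    rw [ew_nil]
    change Good n M X L' σ w φ ↔ True ∧ Good n M X L' (σ - 0) w φ
    rw [Nat.sub_zero]
    exact ⟨fun h => ⟨trivial, h⟩, fun h => h.2⟩
  | cons l L ih =>
    rw [ew_cons, sub_length_cons]
    change (1 ≤ σ ∧ 1 ≤ w l ∧ X σ (Function.update w l 0) ∧ _ ∧ _ ∧
      Good n M X (L ++ L') _ _ _) ↔ (1 ≤ σ ∧ 1 ≤ w l ∧ X σ (Function.update w l 0) ∧ _ ∧ _ ∧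
      Good n M X L _ _ _) ∧ _
    rw [ih]
    constructor
    · rintro ⟨h1, h2, h3, h4, h5, h6, h7⟩
      exact ⟨⟨h1, h2, h3, h4, h5, h6⟩, h7⟩
    · rintro ⟨⟨h1, h2, h3, h4, h5, h6⟩, h7⟩
      exact ⟨h1, h2, h3, h4, h5, h6, h7⟩

theorem ew_append (L L' : List ι) (w : ι → ℕ) : ew (L ++ L') w = ew L' (ew L w) := by
  funext i
  unfold ew
  rw [List.count_append, Nat.sub_sub]

theorem eph_append (n M : ℕ) (L L' : List ι) (σ : ℕ) (w φ : ι → ℕ) :
    eph n M (L ++ L') σ w φ =
      eph n M L' (σ - L.length) (ew L w) (eph n M L σ w φ) := by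
  induction L generalizing σ w φ with
  | nil =>
    rw [ew_nil]
    rfl
  | cons l L ih =>
    rw [ew_cons, sub_length_cons]
    exact ih _ _ _

private theorem shf_mono {S T : Multiset (ℕ × ℕ)} (h : S ≤ T) : shf S ≤ shf T :=
  Multiset.filter_le_filter _ (Multiset.map_le_map h)

private theorem shf_iterate_mono (k : ℕ) {S T : Multiset (ℕ × ℕ)} (h : S ≤ T) :
    shf^[k] S ≤ shf^[k] T := by
  induction k generalizing S T with
  | zero => exact h
  | succ k ih =>
    rw [Function.iterate_succ_apply, Function.iterate_succ_apply]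
    exact ih (shf_mono h)

/-- Running along a good list, by induction on the list; each step is `peel` with `I₀ = 0`,
`A = Rg σ w`, `A' = Rg (σ - 1) (update w l (w l - 1))`.  The hypothesis `hav` of `peel` follows from
`c.nsz n = c.sz n - ∑ fl ≥ |Rg σ w| - M * ∑ φ`; the new bound `c'.tr n l ≤ nphi n M f` from
`M * c'.tr n l ≤ (M - 1) * f + M * ell n M ^ 2`. -/
theorem run (n M : ℕ) (hn : 1 ≤ n) (hM : 1 ≤ M) (L : List ι) (σ : ℕ) (w φ : ι → ℕ)
    (hG : Good n M (fun σ w => Exa n M (Rg σ w)) L σ w φ) (c : Cfg ι) (hc : c.OK M)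
    (htr : ∀ l, c.tr n l ≤ φ l) (hsz : (Rg σ w).card ≤ c.sz n) :
    ∃ c' : Cfg ι, c'.OK M ∧
      (GM (Rg (σ - L.length) (ew L w)) c'.kinds → GM (Rg σ w) c.kinds) ∧
      (∀ l, c'.tr n l ≤ eph n M L σ w φ l) ∧
      c'.sz n + (Rg σ w).card = c.sz n + (Rg (σ - L.length) (ew L w)).card ∧
      (c'.s = c.s ∨ c'.N.card < g0 n M) ∧
      c'.N.card ≤ c.N.card ∧
      (L ≠ [] → c.N.card < g0 n M → c'.N = 0) ∧
      (c.N = 0 → c'.N = 0 ∧ ∀ l, c'.Φ l = shf^[L.count l] (c.Φ l)) ∧
      (∀ l, shf^[L.count l] (c.Φ l) ≤ c'.Φ l) ∧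
      (∀ l, L.count l = 0 → c'.Φ l = c.Φ l) := by
  induction L generalizing σ w φ c with
  | nil =>
    refine ⟨c, hc, ?_, htr, ?_, Or.inl rfl, le_rfl, fun h => absurd rfl h,
      fun h => ⟨h, fun l => rfl⟩, fun l => le_rfl, fun l _ => rfl⟩
    · rw [ew_nil]
      exact id
    · rw [ew_nil]
      rfl
  | cons l L ih =>
    obtain ⟨h1, h2, h3, h4, h5, h6⟩ := hG
    have hfl : ∑ l', c.fl n l' ≤ M * ∑ l', φ l' := by
      rw [Finset.mul_sum]
      refine Finset.sum_le_sum fun l' _ => ?_
      exact le_trans (Cfg.fl_le n M c hc l') (Nat.mul_le_mul_left _ (htr l'))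
    have hszdef : c.sz n = c.nsz n + ∑ l', c.fl n l' := rfl
    have hav : ell (n + 1) M * (fc σ w l + g0 n M) + fc σ w l ≤ c.nsz n := by omega
    have htrl := htr l
    have hlayer : ((Rg σ w).filter fun a => a l = 0).card = fc σ w l := by
      unfold fc
      rw [Rg_layer]
    obtain ⟨c₁, hc₁, hGM, hΦ, htr₁, hsz₁, hs₁, hN₁, hN₁0, hz₁, hle₁⟩ :=
      peel n M hn hM (Rg σ w) (Rg (σ - 1) (Function.update w l (w l - 1))) l
        (Rg_resid σ w l h1 h2) (fc σ w l) hlayer (by rw [Rg_layer]; exact h3) c hc 0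
        (Multiset.zero_le _) (by rw [Multiset.map_zero, Multiset.sum_zero]; omega) hav
    have hpeel := card_Rg_peel σ w l h1 h2
    have htr₁' : ∀ l', c₁.tr n l' ≤ Function.update φ l (nphi n M (fc σ w l)) l' := by
      intro l'
      by_cases hl' : l' = l
      · subst hl'
        rw [Function.update_self]
        unfold nphi
        have h7 : c₁.tr n l' ≤ ((M - 1) * fc σ w l' + M * ell n M ^ 2) / M := by
          rw [Nat.le_div_iff_mul_le (by omega), Nat.mul_comm]
          exact htr₁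
        rw [Nat.add_mul_div_left _ _ (by omega)] at h7
        exact h7
      · rw [Function.update_of_ne hl']
        have h8 : c₁.tr n l' = c.tr n l' := by
          unfold Cfg.tr
          rw [hΦ l' hl']
        rw [h8]
        exact htr l'
    obtain ⟨c₂, hc₂, hGM₂, htr₂, hsz₂, hs₂, hN₂, hN₂0, hz₂, hle₂, hcnt₂⟩ :=
      ih (σ - 1) (Function.update w l (w l - 1)) (Function.update φ l (nphi n M (fc σ w l))) h6
        c₁ hc₁ htr₁' (by omega)
    refine ⟨c₂, hc₂, ?_, htr₂, ?_, ?_, le_trans hN₂ hN₁, ?_, ?_, ?_, ?_⟩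
    · rw [ew_cons, sub_length_cons]
      exact fun h => hGM (hGM₂ h)
    · rw [ew_cons, sub_length_cons]
      omega
    · rcases hs₂ with h | h
      · rcases hs₁ with h' | h'
        · exact Or.inl (h.trans h')
        · exact Or.inr (by omega)
      · exact Or.inr h
    · intro _ hlt
      exact (hz₂ (hN₁0 hlt (by omega))).1
    · intro h0
      obtain ⟨h7, h8⟩ := hz₁ h0
      obtain ⟨h9, h10⟩ := hz₂ h7
      refine ⟨h9, fun l' => ?_⟩
      by_cases hl' : l' = l
      · subst hl'
        rw [List.count_cons_self, Function.iterate_succ_apply, ← h8]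
        exact h10 l'
      · rw [List.count_cons_of_ne (fun h => hl' h.symm), ← hΦ l' hl']
        exact h10 l'
    · intro l'
      by_cases hl' : l' = l
      · subst hl'
        rw [List.count_cons_self, Function.iterate_succ_apply]
        rw [Multiset.map_zero, add_zero] at hle₁
        exact le_trans (shf_iterate_mono _ hle₁) (hle₂ l')
      · rw [List.count_cons_of_ne (fun h => hl' h.symm), ← hΦ l' hl']
        exact hle₂ l'
    · intro l' hcount
      by_cases hl' : l' = l
      · subst hl'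
        rw [List.count_cons_self] at hcount
        omega
      · rw [List.count_cons_of_ne (fun h => hl' h.symm)] at hcount
        rw [hcnt₂ l' hcount, hΦ l' hl']

end Pool.Agent.H18.Ex

end
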