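import Pool.Agent.H94.LP5.M15
import Pool.Agent.H94.LP5.M22
import Pool.Agent.H94.LP5.M27
import Pool.Agent.H94.LP5.M38

/-! The parts of this file: V7.AL.Span, V7.AL.N3, V7.AL.Top, V7.AL.N6. -/

section

/-!
# V7, block ALPHA, module Span: the span property of the level `l`

The spaces of solutions at general positions (kinds of the level `l`) are not contained in a fixed
hyperplane, unless their dimension is at most the number of exponents whose degree in the variables
of the blocks `≥ l` is less than `2 M - 1 - l`.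

Proof.  Let `F` be a solution at `p₀`, `φ` a functional which vanishes on the general solutions.  For
a matrix `A` which preserves the subspaces `L_i`, `i < l`, the form `F_A(x) = F(A x)` is a solution at
the positions `adj(A) p₀`; so `φ(F_A) * det A * G(adj(A) p₀) = 0` for all these `A`, hence
`φ(F_A) = 0`.  Take `A` of rank one on every block: `A s t = c s * v t` on the blocks `< l`,
`A s t = c s * w t` (all `t`) for the other `s`.  The coefficient of `c^a` in `φ(F_A)` is
`f_a * φ(∏_{i < l} λ_i^{a_i} * λ^{a_Z})`, where `λ_i = ∑ v t x_t` over the block `i` and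
`λ = ∑ w t x_t`.  For `a` of degree `2 M - 1 - l` in the variables of the blocks `≥ l` all `a_i` are
`1`; if `v` is the indicator of one variable in every block the product is this monomial times
`λ^{2M-1-l}`, and as `w` is arbitrary `f_a ≠ 0` would imply `φ = 0`.
-/

set_option autoImplicit false
set_option linter.unusedSectionVars false

namespace Pool.Agent.V7

open Finset MvPolynomial Pool.Agent.H51.TB Pool.Agent.H54.V7
open Pool.Agent.H18.Ex (tcr)

section

variable {ν : Type} [Fintype ν] [DecidableEq ν]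

/-- The finitely supported function of a function. -/
private noncomputable def SpX.sf (α : ν → ℕ) : ν →₀ ℕ := Finsupp.equivFunOnFinite.symm α

private lemma SpX.sf_coe (α : ν → ℕ) : ⇑(SpX.sf α) = α := rfl

private lemma SpX.sf_eta (α : ν →₀ ℕ) : SpX.sf ⇑α = α := by
  ext i
  rfl

private lemma SpX.sf_inj {α β : ν → ℕ} : SpX.sf α = SpX.sf β ↔ α = β :=
  Finsupp.equivFunOnFinite.symm.injective.eq_iff

private lemma SpX.sf_degree (α : ν → ℕ) : (SpX.sf α).degree = ∑ s, α s := by
  rw [Finsupp.degree_eq_sum]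
  rfl

/-- The Taylor coefficients of a monomial. -/
private lemma SpX.shift_monomial (q : ν → ℂ) (α β : ν → ℕ) (c : ℂ) :
    coeff (SpX.sf β) (aeval (fun i => X i + C (q i)) (monomial (SpX.sf α) c) :
      MvPolynomial ν ℂ) = c * tcr q α β := by
  classical
  rw [aeval_monomial, algebraMap_eq, coeff_C_mul, Finsupp.prod_fintype _ _ (by intro i; simp)]
  congr 1
  have h1 : ∀ j : ν, (X j + C (q j) : MvPolynomial ν ℂ) ^ (SpX.sf α j) =
      ∑ b ∈ range (α j + 1), monomial (Finsupp.single j b)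
        (((α j).choose b : ℂ) * q j ^ (α j - b)) := by
    intro j
    rw [SpX.sf_coe, add_pow]
    refine sum_congr rfl fun b _ => ?_
    rw [X_pow_eq_monomial, ← C_pow, mul_assoc, mul_comm (C (q j ^ (α j - b)))]
    rw [← C_eq_coe_nat, ← C_mul, mul_comm, C_mul_monomial, mul_one]
  simp_rw [h1]
  rw [prod_univ_sum, coeff_sum]
  have h2 : ∀ x ∈ Fintype.piFinset fun j => range (α j + 1),
      coeff (SpX.sf β) (∏ j, monomial (Finsupp.single j (x j))
        (((α j).choose (x j) : ℂ) * q j ^ (α j - x j)) : MvPolynomial ν ℂ) =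
      if x = β then tcr q α β else 0 := by
    intro x _
    rw [← monomial_sum_prod, coeff_monomial]
    have h4 : (∑ j, Finsupp.single j (x j)) = SpX.sf x := by
      unfold SpX.sf
      rw [Finsupp.equivFunOnFinite_symm_eq_sum]
    rw [h4]
    by_cases hx : x = β
    · subst hx
      simp [tcr]
    · rw [if_neg, if_neg hx]
      intro h5
      exact hx (SpX.sf_inj.1 h5)
  rw [sum_congr rfl h2, sum_ite_eq']
  split_ifs with h
  · rfl
  · rw [Fintype.mem_piFinset] at h
    push Not at h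
    obtain ⟨j, hj⟩ := h
    rw [mem_range] at hj
    symm
    unfold tcr
    apply prod_eq_zero (mem_univ j)
    rw [Nat.choose_eq_zero_of_lt (by omega)]
    simp

/-- The polynomial of a coefficient vector. -/
private noncomputable def SpX.P {A : Finset (ν → ℕ)} (f : {a // a ∈ A} → ℂ) :
    MvPolynomial ν ℂ := ∑ α : {a // a ∈ A}, monomial (SpX.sf α.1) (f α)

private lemma SpX.coeff_P {A : Finset (ν → ℕ)} (f : {a // a ∈ A} → ℂ)
    (α : {a // a ∈ A}) : coeff (SpX.sf α.1) (SpX.P f) = f α := by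
  classical
  unfold SpX.P
  rw [coeff_sum]
  simp only [coeff_monomial, SpX.sf_inj, Subtype.coe_inj]
  simp

private lemma SpX.coeff_P_zero {A : Finset (ν → ℕ)} (f : {a // a ∈ A} → ℂ)
    (α : ν → ℕ) (hα : α ∉ A) : coeff (SpX.sf α) (SpX.P f) = 0 := by
  classical
  unfold SpX.P
  rw [coeff_sum]
  refine sum_eq_zero fun β _ => ?_
  rw [coeff_monomial, if_neg]
  intro h
  rw [SpX.sf_inj] at h
  exact hα (h ▸ β.2)

/-- The shift. -/
private noncomputable def SpX.sh (q : ν → ℂ) (F : MvPolynomial ν ℂ) : MvPolynomial ν ℂ :=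
  aeval (fun i => X i + C (q i)) F

private lemma SpX.shift_P {A : Finset (ν → ℕ)} (q : ν → ℂ) (f : {a // a ∈ A} → ℂ)
    (β : ν → ℕ) :
    coeff (SpX.sf β) (SpX.sh q (SpX.P f)) = ∑ α : {a // a ∈ A}, f α * tcr q α.1 β := by
  unfold SpX.P SpX.sh
  rw [map_sum, coeff_sum]
  refine sum_congr rfl fun α _ => ?_
  rw [SpX.shift_monomial]

/-- The linear substitution. -/
private noncomputable def SpX.g (A : Matrix ν ν ℂ) (s : ν) : MvPolynomial ν ℂ :=
  ∑ t, C (A s t) * X t

/-- The matrices which preserve the subspaces `L_i`, `i < l`. -/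
private def SpX.Ad {R : Type} [Zero R] (β : ν → ℕ) (l : ℕ) (A : Matrix ν ν R) : Prop :=
  ∀ s t, β s < l → β t ≠ β s → A s t = 0

private lemma SpX.key {β : ν → ℕ} {l : ℕ} {A : Matrix ν ν ℂ} (hA : SpX.Ad β l A) (a b : ν → ℕ)
    (c : ℂ) (h : ∑ s, b s ≠ ∑ s, a s ∨
      ∃ i < l, (∃ s, β s = i ∧ a s ≠ 0) ∧ ∀ s, β s = i → b s = 0) :
    coeff (SpX.sf b) (aeval (SpX.g A) (monomial (SpX.sf a) c)) = 0 := by
  classical
  rcases h with h | ⟨i, hi, ⟨s₀, hs0, ha⟩, hb⟩
  · have h1 : (monomial (SpX.sf a) c : MvPolynomial ν ℂ).IsHomogeneous (∑ s, a s) := by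
      apply isHomogeneous_monomial
      rw [SpX.sf_degree]
    have h2 : ∀ s, (SpX.g A s).IsHomogeneous 1 := by
      intro s
      unfold SpX.g
      refine IsHomogeneous.sum _ _ _ fun t _ => ?_
      simpa using (isHomogeneous_C ν (A s t)).mul (isHomogeneous_X ℂ t)
    have h3 := h1.aeval (SpX.g A) h2
    refine h3.coeff_eq_zero ?_
    rw [SpX.sf_degree, one_mul]
    exact h
  · by_contra hne
    have h1 : aeval (SpX.g A) (monomial (SpX.sf a) c) ∈
        Ideal.span ((X : ν → MvPolynomial ν ℂ) '' {t | β t = i}) := by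
      rw [aeval_monomial, Finsupp.prod_fintype _ _ (by intro i; simp),
        ← mul_prod_erase univ _ (mem_univ s₀)]
      refine Ideal.mul_mem_left _ _ (Ideal.mul_mem_right _ _ ?_)
      rw [SpX.sf_coe]
      refine Ideal.pow_mem_of_mem _ ?_ _ (Nat.pos_of_ne_zero ha)
      unfold SpX.g
      refine Ideal.sum_mem _ fun t _ => ?_
      by_cases ht : β t = i
      · exact Ideal.mul_mem_left _ _ (Ideal.subset_span ⟨t, ht, rfl⟩)
      · rw [hA s₀ t (by omega) (by omega), C_0, zero_mul]
        exact Ideal.zero_mem _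
    rw [mem_ideal_span_X_image] at h1
    obtain ⟨t, ht, ht0⟩ := h1 (SpX.sf b) (mem_support_iff.2 hne)
    exact ht0 (hb t ht)

private lemma SpX.pres {β : ν → ℕ} {l : ℕ} {A : Matrix ν ν ℂ} (hA : SpX.Ad β l A) (k : ℕ)
    (I : Finset ℕ) (hI : ∀ i ∈ I, i < l) {H : MvPolynomial ν ℂ}
    (hH : ∀ b : ν → ℕ, ∑ s, b s = k → (∀ s, β s ∈ I → b s = 0) → coeff (SpX.sf b) H = 0)
    (b : ν → ℕ) (hb : ∑ s, b s = k) (hb' : ∀ s, β s ∈ I → b s = 0) :
    coeff (SpX.sf b) (aeval (SpX.g A) H) = 0 := by
  classical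
  rw [H.as_sum, map_sum, coeff_sum]
  refine sum_eq_zero fun α hα => ?_
  rw [← SpX.sf_eta α]
  by_cases h1 : ∑ s, α s = k
  · by_cases h2 : ∀ s, β s ∈ I → α s = 0
    · have h3 := hH ⇑α h1 h2
      rw [SpX.sf_eta] at h3
      exact absurd h3 (mem_support_iff.1 hα)
    · push Not at h2
      obtain ⟨s, hs, hs0⟩ := h2
      refine SpX.key hA _ _ _ (Or.inr ⟨β s, hI _ hs, ⟨s, rfl, hs0⟩, fun t ht => ?_⟩)
      exact hb' t (by rw [ht]; exact hs)
  · refine SpX.key hA _ _ _ (Or.inl ?_)
    rw [hb]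
    exact Ne.symm h1

private lemma SpX.shift_comm (A : Matrix ν ν ℂ) (q : ν → ℂ) (F : MvPolynomial ν ℂ) :
    SpX.sh q (aeval (SpX.g A) F) = aeval (SpX.g A) (SpX.sh (A.mulVec q) F) := by
  unfold SpX.sh
  have h : (aeval (fun j => X j + C (q j)) :
      MvPolynomial ν ℂ →ₐ[ℂ] MvPolynomial ν ℂ).comp (aeval (SpX.g A)) =
      (aeval (SpX.g A)).comp (aeval (fun j => X j + C (A.mulVec q j))) := by
    apply algHom_ext
    intro i
    simp only [SpX.g, AlgHom.comp_apply, aeval_X, map_sum, map_mul, aeval_C,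
      algebraMap_eq, map_add, mul_add, sum_add_distrib, Matrix.mulVec, dotProduct]
  exact DFunLike.congr_fun h F

/-- The coefficients of the transformed polynomial. -/
private noncomputable def SpX.T {E : Finset (ν → ℕ)} (A : Matrix ν ν ℂ) (f : {a // a ∈ E} → ℂ) :
    {a // a ∈ E} → ℂ :=
  fun α => coeff (SpX.sf α.1) (aeval (SpX.g A) (SpX.P f))

private lemma SpX.P_T {β : ν → ℕ} {l d : ℕ} {A : Matrix ν ν ℂ} (hA : SpX.Ad β l A)
    (f : {a // a ∈ Ex β d l} → ℂ) : SpX.P (SpX.T A f) = aeval (SpX.g A) (SpX.P f) := by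
  classical
  ext γ
  rw [← SpX.sf_eta γ]
  by_cases hγ : ⇑γ ∈ Ex β d l
  · exact SpX.coeff_P (SpX.T A f) ⟨⇑γ, hγ⟩
  · rw [SpX.coeff_P_zero _ _ hγ]
    symm
    unfold SpX.P
    rw [map_sum, coeff_sum]
    refine sum_eq_zero fun α _ => SpX.key hA _ _ _ ?_
    have h1 := mem_Ex.1 α.2
    by_cases h2 : ∑ s, γ s = d
    · right
      rw [mem_Ex] at hγ
      push Not at hγ
      obtain ⟨i, hi, h3⟩ := hγ h2
      exact ⟨i, hi, h1.2 i hi, h3⟩
    · left
      rw [h1.1]
      exact h2

private lemma SpX.tcr_sm (l : ℂ) (q : ν → ℂ) (e b : ν → ℕ) :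
    tcr (fun i => l * q i) e b = l ^ (∑ i, e i - ∑ i, b i) * tcr q e b := by
  by_cases h : ∀ i, b i ≤ e i
  · exact tcr_smul l q e b h
  · rw [tcr_eq_zero _ _ _ h, tcr_eq_zero _ _ _ h, mul_zero]

private lemma SpX.fat {β : ν → ℕ} {l d μ : ℕ} {A : Matrix ν ν ℂ} (hA : SpX.Ad β l A)
    (f : {a // a ∈ Ex β d l} → ℂ) (q q' : ν → ℂ) (u : ℂ) (hq : A.mulVec q' = fun s => u * q s)
    (h : Fat (fun e : {a // a ∈ Ex β d l} => e.1) μ q f) :
    Fat (fun e : {a // a ∈ Ex β d l} => e.1) μ q' (SpX.T A f) := by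
  intro b hb
  rw [← SpX.shift_P, SpX.P_T hA, SpX.shift_comm, hq]
  refine SpX.pres hA (∑ s, b s) ∅ (fun i hi => absurd hi (notMem_empty i)) ?_ b rfl
    (fun s hs => absurd hs (notMem_empty _))
  intro b' hb' _
  rw [SpX.shift_P]
  have h1 : ∀ e : {a // a ∈ Ex β d l}, f e * tcr (fun s => u * q s) e.1 b' =
      u ^ (d - ∑ s, b s) * (f e * tcr q e.1 b') := by
    intro e
    rw [SpX.tcr_sm, (mem_Ex.1 e.2).1, hb']
    ring
  rw [sum_congr rfl fun e _ => h1 e, ← mul_sum, h b' (by omega), mul_zero]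

/-- The homogeneous component of degree `M` of the Taylor expansion at `p`. -/
private noncomputable def SpX.H {E : Finset (ν → ℕ)} (N M : ℕ) (p : ν → ℂ)
    (f : {a // a ∈ E} → ℂ) : MvPolynomial ν ℂ :=
  SpX.P (fun b : {b // b ∈ bxd ν N M} => ∑ e, f e * tcr p e.1 b.1)

private lemma SpX.mem_bxd {N M : ℕ} {b : ν → ℕ} (hN : M < N) : b ∈ bxd ν N M ↔ ∑ i, b i = M := by
  unfold bxd
  rw [mem_filter, mem_bx]
  refine ⟨fun h => h.2, fun h => ⟨fun i => ?_, h⟩⟩
  have := single_le_sum (f := b) (fun _ _ => Nat.zero_le _) (mem_univ i)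
  omega

private lemma SpX.coeff_H {E : Finset (ν → ℕ)} {N M : ℕ} (hN : M < N) (p : ν → ℂ)
    (f : {a // a ∈ E} → ℂ) (b : ν → ℕ) : coeff (SpX.sf b) (SpX.H N M p f) =
      if ∑ i, b i = M then ∑ e, f e * tcr p e.1 b else 0 := by
  unfold SpX.H
  split_ifs with h
  · exact SpX.coeff_P (fun b : {b // b ∈ bxd ν N M} => ∑ e, f e * tcr p e.1 b.1)
      ⟨b, (SpX.mem_bxd hN).2 h⟩
  · exact SpX.coeff_P_zero _ b fun h1 => h ((SpX.mem_bxd hN).1 h1)

private lemma SpX.sw_sum {E : Finset (ν → ℕ)} (N M : ℕ) (p v : ν → ℂ)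
    (f : {a // a ∈ E} → ℂ) (a : ν → ℕ) :
    ∑ b ∈ bxd ν N M, tcr v b a * ∑ e, f e * tcr p e.1 b =
      coeff (SpX.sf a) (SpX.sh v (SpX.H N M p f)) := by
  unfold SpX.H
  rw [SpX.shift_P, ← sum_coe_sort (bxd ν N M)]
  exact sum_congr rfl fun b _ => mul_comm _ _

private lemma SpX.H_T {β : ν → ℕ} {l d N M : ℕ} (hN : M < N) {A : Matrix ν ν ℂ}
    (hA : SpX.Ad β l A) (f : {a // a ∈ Ex β d l} → ℂ) (p p' : ν → ℂ) (u : ℂ)
    (hp : A.mulVec p' = fun s => u * p s) :
    SpX.H N M p' (SpX.T A f) = C (u ^ (d - M)) * aeval (SpX.g A) (SpX.H N M p f) := by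
  classical
  ext γ
  rw [← SpX.sf_eta γ, SpX.coeff_H hN]
  split_ifs with h
  · rw [← SpX.shift_P, SpX.P_T hA, SpX.shift_comm, hp]
    have h1 : coeff (SpX.sf ⇑γ) (aeval (SpX.g A) (SpX.sh (fun s => u * p s) (SpX.P f) -
        C (u ^ (d - M)) * SpX.H N M p f)) = 0 := by
      refine SpX.pres hA M ∅ (fun i hi => absurd hi (notMem_empty i)) ?_ _ h
        (fun s hs => absurd hs (notMem_empty _))
      intro b hb _
      rw [coeff_sub, SpX.shift_P, coeff_C_mul, SpX.coeff_H hN, if_pos hb, mul_sum,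
        ← sum_sub_distrib]
      refine sum_eq_zero fun e _ => ?_
      rw [SpX.tcr_sm, (mem_Ex.1 e.2).1, hb]
      ring
    rw [map_sub, map_mul, coeff_sub, sub_eq_zero] at h1
    rw [h1]
    simp
  · rw [coeff_C_mul]
    have h1 : coeff (SpX.sf ⇑γ) (aeval (SpX.g A) (SpX.H N M p f)) = 0 := by
      refine SpX.pres hA (∑ s, γ s) ∅ (fun i hi => absurd hi (notMem_empty i)) ?_ _ rfl
        (fun s hs => absurd hs (notMem_empty _))
      intro b hb _
      rw [SpX.coeff_H hN, if_neg (by rw [hb]; exact h)]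
    rw [h1, mul_zero]

private lemma SpX.sw {β : ν → ℕ} {l d N M i : ℕ} (hi : i < l) (hN : M < N) {A : Matrix ν ν ℂ}
    (hA : SpX.Ad β l A) (f : {a // a ∈ Ex β d l} → ℂ) (p p' v v' : ν → ℂ) (u : ℂ)
    (hp : A.mulVec p' = fun s => u * p s) (hv : A.mulVec v' = fun s => u * v s)
    (h : Sw (fun e : {a // a ∈ Ex β d l} => e.1) M N (univ.filter fun s => β s = i) p v f) :
    Sw (fun e : {a // a ∈ Ex β d l} => e.1) M N (univ.filter fun s => β s = i) p' v'
      (SpX.T A f) := by
  intro a ha ha1 haM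
  rw [SpX.sw_sum, SpX.H_T hN hA f p p' u hp]
  have h0 : SpX.sh v' (C (u ^ (d - M)) * aeval (SpX.g A) (SpX.H N M p f)) =
      C (u ^ (d - M)) * aeval (SpX.g A) (SpX.sh (fun s => u * v s) (SpX.H N M p f)) := by
    rw [← hv, ← SpX.shift_comm]
    unfold SpX.sh
    rw [map_mul]
    congr 1
    simp
  rw [h0, coeff_C_mul]
  have h1 : coeff (SpX.sf a) (aeval (SpX.g A) (SpX.sh (fun s => u * v s) (SpX.H N M p f))) = 0 := by
    refine SpX.pres hA (∑ s, a s) {i} (fun j hj => by rw [mem_singleton.1 hj]; exact hi) ?_ a rfl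
      (fun s hs => ha s (by rw [mem_filter]; exact ⟨mem_univ s, mem_singleton.1 hs⟩))
    intro b hb hb'
    rw [← SpX.sw_sum]
    have h2 := h b (fun s hs => hb' s (by rw [mem_filter] at hs; exact mem_singleton.2 hs.2))
      (by omega) (by omega)
    have h3 : ∀ x ∈ bxd ν N M, tcr (fun s => u * v s) x b * ∑ e, f e * tcr p e.1 x =
        u ^ (M - ∑ s, b s) * (tcr v x b * ∑ e, f e * tcr p e.1 x) := by
      intro x hx
      rw [SpX.tcr_sm, (SpX.mem_bxd hN).1 hx]
      ring
    rw [sum_congr rfl h3, ← mul_sum, h2, mul_zero]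
  rw [h1, mul_zero]

/-! ### The transformed positions -/

/-- The transformed position. -/
private noncomputable def SpX.tr {R : Type} [CommRing R] (β : ν → ℕ) (A : Matrix ν ν R)
    (I : Finset ℕ) (q : ν → R) : ν → R :=
  fun s => if β s ∈ I then q s else A.adjugate.mulVec (msk β I q) s

private lemma SpX.tr_one {β : ν → ℕ} (I : Finset ℕ) (q : ν → ℂ) :
    SpX.tr β (1 : Matrix ν ν ℂ) I q = q := by
  funext s
  unfold SpX.tr
  split_ifs with h
  · rfl
  · rw [Matrix.adjugate_one, Matrix.one_mulVec]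
    unfold msk
    rw [if_neg h]

private lemma SpX.mul_tr {β : ν → ℕ} {l : ℕ} {A : Matrix ν ν ℂ} (hA : SpX.Ad β l A)
    (hdet : A.det ≠ 0) (I : Finset ℕ) (hI : ∀ i ∈ I, i < l) (q : ν → ℂ) :
    A.mulVec (msk β I (SpX.tr β A I q)) = fun s => A.det * msk β I q s := by
  classical
  -- the subspace of the vectors which vanish on the blocks of `I`
  let W : Submodule ℂ (ν → ℂ) :=
    { carrier := {x | ∀ s, β s ∈ I → x s = 0}
      zero_mem' := fun s _ => rfl
      add_mem' := fun {a b} ha hb s hs => by rw [Pi.add_apply, ha s hs, hb s hs, add_zero]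
      smul_mem' := fun c x hx s hs => by rw [Pi.smul_apply, hx s hs, smul_zero] }
  have hW : ∀ x ∈ W, A.mulVec x ∈ W := by
    intro x hx s hs
    unfold Matrix.mulVec dotProduct
    refine sum_eq_zero fun t _ => ?_
    by_cases ht : β t = β s
    · rw [hx t (by rw [ht]; exact hs), mul_zero]
    · show A s t * x t = 0
      rw [hA s t (hI _ hs) ht, zero_mul]
  have hinj : Function.Injective A.mulVec := by
    intro x y hxy
    have h1 := congrArg A.adjugate.mulVec hxy
    rw [Matrix.mulVec_mulVec, Matrix.mulVec_mulVec, Matrix.adjugate_mul, Matrix.smul_mulVec,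
      Matrix.smul_mulVec, Matrix.one_mulVec, Matrix.one_mulVec] at h1
    exact smul_right_injective _ hdet h1
  let L : W →ₗ[ℂ] W := (A.mulVecLin).restrict hW
  have hL : Function.Injective L := by
    intro x y hxy
    apply Subtype.ext
    apply hinj
    exact congrArg Subtype.val hxy
  have hsurj : Function.Surjective L := LinearMap.injective_iff_surjective.1 hL
  have hm : msk β I q ∈ W := fun s hs => by
    unfold msk
    rw [if_pos hs]
  obtain ⟨y, hy⟩ := hsurj (A.det • (⟨msk β I q, hm⟩ : W))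
  have hy1 : A.mulVec y.1 = A.det • msk β I q := congrArg Subtype.val hy
  have hy2 : A.adjugate.mulVec (msk β I q) = y.1 := by
    apply hinj
    rw [hy1, Matrix.mulVec_mulVec, Matrix.mul_adjugate, Matrix.smul_mulVec, Matrix.one_mulVec]
  have h3 : msk β I (SpX.tr β A I q) = y.1 := by
    funext s
    unfold msk
    split_ifs with hs
    · exact (y.2 s hs).symm
    · show SpX.tr β A I q s = _
      unfold SpX.tr
      rw [if_neg hs, hy2]
  rw [h3, hy1]
  rfl

/-- The blocks on which the position of the point vanishes. -/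
private def SpX.I1 : Kd → Finset ℕ
  | .ord _ I => I
  | .sw i I => insert i I

/-- The blocks on which the direction vanishes. -/
private def SpX.I2 : Kd → Finset ℕ
  | .ord _ I => I
  | .sw _ I => I

/-- The transformed positions. -/
private noncomputable def SpX.np {R : Type} [CommRing R] (β : ν → ℕ) (A : Matrix ν ν R) (k : Kd)
    (q : ν ⊕ ν → R) : ν ⊕ ν → R :=
  Sum.elim (SpX.tr β A (SpX.I1 k) fun s => q (Sum.inl s))
    (SpX.tr β A (SpX.I2 k) fun s => q (Sum.inr s))

private lemma SpX.np_one {β : ν → ℕ} (k : Kd) (q : ν ⊕ ν → ℂ) :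
    SpX.np β (1 : Matrix ν ν ℂ) k q = q := by
  funext s
  unfold SpX.np
  rw [SpX.tr_one, SpX.tr_one]
  rcases s with s | s <;> rfl

private lemma SpX.satK {M l : ℕ} {β : ν → ℕ} {A : Matrix ν ν ℂ} (hA : SpX.Ad β l A)
    (hdet : A.det ≠ 0) (k : Kd) (hk : k.Ok M l) (q : ν ⊕ ν → ℂ)
    (f : {a // a ∈ Ex β (2 * M - 1) l} → ℂ) (h : SatK M β k q f) :
    SatK M β k (SpX.np β A k q) (SpX.T A f) := by
  rcases k with ⟨μ, I⟩ | ⟨i, I⟩
  · have hI : ∀ i ∈ I, i < l := fun i hi => mem_range.1 (hk.2.2 hi)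
    exact SpX.fat hA f _ _ A.det (SpX.mul_tr hA hdet I hI _) h
  · obtain ⟨hi, hk2⟩ := hk
    have hI : ∀ j ∈ I, j < l := fun j hj => (mem_Ico.1 (hk2 hj)).2
    have hI' : ∀ j ∈ insert i I, j < l := fun j hj => by
      rcases mem_insert.1 hj with h | h
      · rw [h]
        exact hi
      · exact hI j h
    refine ⟨SpX.fat hA f _ _ A.det (SpX.mul_tr hA hdet (insert i I) hI' _) h.1, ?_⟩
    by_cases hM : M = 0
    · intro a _ h1 h2
      omega
    · exact SpX.sw hi (by omega) hA f _ _ _ _ A.det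
        (SpX.mul_tr hA hdet (insert i I) hI' _) (SpX.mul_tr hA hdet I hI _) h.2

private lemma SpX.mem {M l : ℕ} {β : ν → ℕ} {κ : Type} (m : κ → Kd) (hm : ∀ x, (m x).Ok M l)
    {A : Matrix ν ν ℂ} (hA : SpX.Ad β l A) (hdet : A.det ≠ 0) (p : κ → ν ⊕ ν → ℂ)
    (f : {a // a ∈ Ex β (2 * M - 1) l} → ℂ) (hf : f ∈ (LS M β l).V m p) :
    SpX.T A f ∈ (LS M β l).V m fun x => SpX.np β A (m x) (p x) := by
  rw [mem_LSA] at hf ⊢
  exact fun x => SpX.satK hA hdet (m x) (hm x) (p x) f (hf x)

/-! ### The parameters -/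

/-- The matrix of the parameters. -/
private def SpX.mk {R : Type} [Zero R] (β : ν → ℕ) (l : ℕ) (t : ν × ν → R) : Matrix ν ν R :=
  Matrix.of fun r s => if β r < l ∧ β s ≠ β r then 0 else t (r, s)

private lemma SpX.mk_ad {R : Type} [Zero R] (β : ν → ℕ) (l : ℕ) (t : ν × ν → R) :
    SpX.Ad β l (SpX.mk β l t) := by
  intro r s h1 h2
  unfold SpX.mk
  rw [Matrix.of_apply, if_pos ⟨h1, h2⟩]

private lemma SpX.mk_self {R : Type} [Zero R] {β : ν → ℕ} {l : ℕ} {A : Matrix ν ν R}
    (hA : SpX.Ad β l A) : SpX.mk β l (fun x => A x.1 x.2) = A := by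
  ext r s
  unfold SpX.mk
  rw [Matrix.of_apply]
  split_ifs with h
  · exact (hA r s h.1 h.2).symm
  · rfl

private lemma SpX.one_ad (β : ν → ℕ) (l : ℕ) : SpX.Ad β l (1 : Matrix ν ν ℂ) := by
  intro r s _ h2
  rw [Matrix.one_apply, if_neg]
  rintro rfl
  exact h2 rfl

/-- The generic matrix. -/
private noncomputable def SpX.gm (β : ν → ℕ) (l : ℕ) : Matrix ν ν (MvPolynomial (ν × ν) ℂ) :=
  SpX.mk β l X

private lemma SpX.gm_map (β : ν → ℕ) (l : ℕ) (t : ν × ν → ℂ) :
    (eval t).mapMatrix (SpX.gm β l) = SpX.mk β l t := by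
  ext r s
  unfold SpX.gm SpX.mk
  rw [RingHom.mapMatrix_apply, Matrix.map_apply, Matrix.of_apply, Matrix.of_apply]
  split_ifs
  · rw [map_zero]
  · rw [eval_X]

private lemma SpX.eval_det (β : ν → ℕ) (l : ℕ) (t : ν × ν → ℂ) :
    eval t (SpX.gm β l).det = (SpX.mk β l t).det := by
  rw [RingHom.map_det, SpX.gm_map]

private lemma SpX.eval_tr (β : ν → ℕ) (l : ℕ) (t : ν × ν → ℂ) (I : Finset ℕ) (q : ν → ℂ)
    (s : ν) : eval t (SpX.tr β (SpX.gm β l) I (fun s => C (q s)) s) =
      SpX.tr β (SpX.mk β l t) I q s := by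
  unfold SpX.tr
  split_ifs
  · rw [eval_C]
  · unfold Matrix.mulVec dotProduct
    rw [map_sum]
    refine sum_congr rfl fun k _ => ?_
    rw [map_mul]
    congr 1
    · have h3 := RingHom.map_adjugate (eval t) (SpX.gm β l)
      rw [SpX.gm_map] at h3
      rw [← h3]
      rfl
    · unfold msk
      split_ifs
      · rw [map_zero]
      · rw [eval_C]

private lemma SpX.eval_np (β : ν → ℕ) (l : ℕ) (t : ν × ν → ℂ) (k : Kd) (q : ν ⊕ ν → ℂ)
    (s : ν ⊕ ν) : eval t (SpX.np β (SpX.gm β l) k (fun s => C (q s)) s) =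
      SpX.np β (SpX.mk β l t) k q s := by
  unfold SpX.np
  rcases s with s | s
  · exact SpX.eval_tr β l t _ _ s
  · exact SpX.eval_tr β l t _ _ s

private lemma SpX.exists_D {β : ν → ℕ} {l : ℕ} {κ : Type} (m : κ → Kd)
    (G : MvPolynomial (κ × (ν ⊕ ν)) ℂ) (p : κ → ν ⊕ ν → ℂ) :
    ∃ D : MvPolynomial (ν × ν) ℂ, ∀ t, eval t D =
      eval (fun x : κ × (ν ⊕ ν) => SpX.np β (SpX.mk β l t) (m x.1) (p x.1) x.2) G := by
  refine ⟨aeval (fun x : κ × (ν ⊕ ν) =>
    SpX.np β (SpX.gm β l) (m x.1) (fun s => C (p x.1 s)) x.2) G, fun t => ?_⟩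
  have h : ∀ F : MvPolynomial (κ × (ν ⊕ ν)) ℂ, eval t (aeval (fun x : κ × (ν ⊕ ν) =>
      SpX.np β (SpX.gm β l) (m x.1) (fun s => C (p x.1 s)) x.2) F) =
      eval (fun x : κ × (ν ⊕ ν) => SpX.np β (SpX.mk β l t) (m x.1) (p x.1) x.2) F := by
    intro F
    induction F using MvPolynomial.induction_on with
    | C c => simp
    | add p q hp hq => rw [map_add, map_add, map_add, hp, hq]
    | mul_X p i hp => rw [map_mul, map_mul, map_mul, hp, aeval_X, eval_X, SpX.eval_np]
  exact h G

/-- The generic substitution. -/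
private noncomputable def SpX.gF (β : ν → ℕ) (l : ℕ) : MvPolynomial ν ℂ →+*
    MvPolynomial ν (MvPolynomial (ν × ν) ℂ) :=
  eval₂Hom (C.comp C) fun s => ∑ t, C (SpX.gm β l s t) * X t

private lemma SpX.map_gF (β : ν → ℕ) (l : ℕ) (t : ν × ν → ℂ) (F : MvPolynomial ν ℂ) :
    MvPolynomial.map (eval t) (SpX.gF β l F) = aeval (SpX.g (SpX.mk β l t)) F := by
  have h : (MvPolynomial.map (eval t)).comp (SpX.gF β l) =
      (aeval (SpX.g (SpX.mk β l t)) : MvPolynomial ν ℂ →ₐ[ℂ] MvPolynomial ν ℂ).toRingHom := by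
    apply ringHom_ext
    · intro c
      simp [SpX.gF]
    · intro s
      have h2 : ∀ r, eval t (SpX.gm β l s r) = SpX.mk β l t s r := by
        intro r
        rw [← SpX.gm_map]
        rfl
      simp [SpX.gF, SpX.g, h2]
  exact DFunLike.congr_fun h F

private lemma SpX.functional {E : Finset (ν → ℕ)} (φ : ({a // a ∈ E} → ℂ) →ₗ[ℂ] ℂ)
    (f : {a // a ∈ E} → ℂ) :
    φ f = ∑ α, φ (Pi.single α 1) * f α := by
  classical
  rw [LinearMap.pi_apply_eq_sum_univ φ f]
  refine sum_congr rfl fun α _ => ?_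
  rw [smul_eq_mul, mul_comm]
  congr 2
  funext β
  by_cases h : α = β
  · subst h; simp
  · rw [if_neg h, Pi.single_eq_of_ne (Ne.symm h)]

private lemma SpX.functional_poly (β : ν → ℕ) (l : ℕ) {E : Finset (ν → ℕ)}
    (φ : ({a // a ∈ E} → ℂ) →ₗ[ℂ] ℂ) (f : {a // a ∈ E} → ℂ) :
    ∃ Q : MvPolynomial (ν × ν) ℂ, ∀ t, eval t Q = φ (SpX.T (SpX.mk β l t) f) := by
  classical
  refine ⟨∑ α : {a // a ∈ E},
    C (φ (Pi.single α 1)) * coeff (SpX.sf α.1) (SpX.gF β l (SpX.P f)), fun t => ?_⟩
  rw [SpX.functional, map_sum]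
  refine sum_congr rfl fun α _ => ?_
  rw [map_mul, eval_C]
  congr 1
  unfold SpX.T
  rw [← SpX.map_gF, coeff_map]

/-- Step 1: `φ` vanishes on all transformed solutions. -/
private lemma SpX.all {M l : ℕ} {β : ν → ℕ} {κ : Type} (m : κ → Kd) (hm : ∀ x, (m x).Ok M l)
    (φ : ({a // a ∈ Ex β (2 * M - 1) l} → ℂ) →ₗ[ℂ] ℂ) (G : MvPolynomial (κ × (ν ⊕ ν)) ℂ)
    (hG : ∀ p : κ → ν ⊕ ν → ℂ, eval (fun x => p x.1 x.2) G ≠ 0 →
      (LS M β l).V m p ≤ LinearMap.ker φ)
    (p₀ : κ → ν ⊕ ν → ℂ) (hp₀ : eval (fun x => p₀ x.1 x.2) G ≠ 0)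
    (f : {a // a ∈ Ex β (2 * M - 1) l} → ℂ) (hf : f ∈ (LS M β l).V m p₀)
    (A : Matrix ν ν ℂ) (hA : SpX.Ad β l A) : φ (SpX.T A f) = 0 := by
  classical
  obtain ⟨Q, hQ⟩ := SpX.functional_poly β l φ f
  obtain ⟨D, hD⟩ := SpX.exists_D (β := β) (l := l) m G p₀
  have hQD : Q * ((SpX.gm β l).det * D) = 0 := by
    apply MvPolynomial.funext
    intro t
    rw [map_mul, map_mul, map_zero, SpX.eval_det, hQ, hD]
    by_cases hdet : (SpX.mk β l t).det = 0
    · rw [hdet, zero_mul, mul_zero]
    by_cases hGA : eval (fun x : κ × (ν ⊕ ν) =>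
        SpX.np β (SpX.mk β l t) (m x.1) (p₀ x.1) x.2) G = 0
    · rw [hGA, mul_zero, mul_zero]
    have h1 : φ (SpX.T (SpX.mk β l t) f) = 0 :=
      hG (fun x => SpX.np β (SpX.mk β l t) (m x) (p₀ x)) hGA
        (SpX.mem m hm (SpX.mk_ad β l t) hdet p₀ f hf)
    rw [h1, zero_mul]
  have h1 : SpX.mk β l (fun x : ν × ν => (1 : Matrix ν ν ℂ) x.1 x.2) = 1 :=
    SpX.mk_self (SpX.one_ad β l)
  have hdet0 : (SpX.gm β l).det ≠ 0 := by
    intro h0
    have h2 := SpX.eval_det β l (fun x : ν × ν => (1 : Matrix ν ν ℂ) x.1 x.2)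
    rw [h0, map_zero, h1, Matrix.det_one] at h2
    exact zero_ne_one h2
  have hD0 : D ≠ 0 := by
    intro h0
    have h2 := hD (fun x : ν × ν => (1 : Matrix ν ν ℂ) x.1 x.2)
    rw [h0, map_zero, h1] at h2
    apply hp₀
    rw [h2]
    simp only [SpX.np_one]
  have hQ0 : Q = 0 := (mul_eq_zero.1 hQD).resolve_right (mul_ne_zero hdet0 hD0)
  have h2 := hQ (fun x => A x.1 x.2)
  rw [hQ0, map_zero, SpX.mk_self hA] at h2
  exact h2.symm

/-! ### Rank one -/

/-- The matrix of rank one on every block. -/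
private def SpX.rk (β : ν → ℕ) (l : ℕ) (c v w : ν → ℂ) : Matrix ν ν ℂ :=
  Matrix.of fun s t => if β s < l then (if β t = β s then c s * v t else 0) else c s * w t

private lemma SpX.rk_ad (β : ν → ℕ) (l : ℕ) (c v w : ν → ℂ) : SpX.Ad β l (SpX.rk β l c v w) := by
  intro s t h1 h2
  unfold SpX.rk
  rw [Matrix.of_apply, if_pos h1, if_neg h2]

/-- The linear form of the variable `s`. -/
private noncomputable def SpX.lam (β : ν → ℕ) (l : ℕ) (v w : ν → ℂ) (s : ν) : MvPolynomial ν ℂ :=
  if β s < l then ∑ t, (if β t = β s then C (v t) * X t else 0) else ∑ t, C (w t) * X t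

private lemma SpX.g_rk (β : ν → ℕ) (l : ℕ) (c v w : ν → ℂ) (s : ν) :
    SpX.g (SpX.rk β l c v w) s = C (c s) * SpX.lam β l v w s := by
  unfold SpX.g SpX.lam SpX.rk
  split_ifs with h
  · rw [mul_sum]
    refine sum_congr rfl fun t _ => ?_
    rw [Matrix.of_apply, if_pos h]
    split_ifs
    · rw [C_mul, mul_assoc]
    · rw [C_0, zero_mul, mul_zero]
  · rw [mul_sum]
    refine sum_congr rfl fun t _ => ?_
    rw [Matrix.of_apply, if_neg h, C_mul, mul_assoc]

/-- Step 2: the coefficients in `c`. -/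
private lemma SpX.coef {d l : ℕ} {β : ν → ℕ} (φ : ({a // a ∈ Ex β d l} → ℂ) →ₗ[ℂ] ℂ)
    (f : {a // a ∈ Ex β d l} → ℂ)
    (h : ∀ A : Matrix ν ν ℂ, SpX.Ad β l A → φ (SpX.T A f) = 0)
    (v w : ν → ℂ) (a : {a // a ∈ Ex β d l}) :
    f a * φ (fun e => coeff (SpX.sf e.1) (∏ s, SpX.lam β l v w s ^ a.1 s)) = 0 := by
  classical
  -- the polynomial in `c`
  have h1 : ∀ c : ν → ℂ, φ (SpX.T (SpX.rk β l c v w) f) = ∑ a : {a // a ∈ Ex β d l},
      (f a * φ (fun e => coeff (SpX.sf e.1) (∏ s, SpX.lam β l v w s ^ a.1 s))) *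
        ∏ s, c s ^ a.1 s := by
    intro c
    have h2 : SpX.T (SpX.rk β l c v w) f = ∑ a : {a // a ∈ Ex β d l},
        (f a * ∏ s, c s ^ a.1 s) •
          (fun e : {a // a ∈ Ex β d l} =>
            coeff (SpX.sf e.1) (∏ s, SpX.lam β l v w s ^ a.1 s)) := by
      funext e
      rw [Finset.sum_apply]
      unfold SpX.T SpX.P
      rw [map_sum, coeff_sum]
      refine sum_congr rfl fun a _ => ?_
      rw [Pi.smul_apply, smul_eq_mul, aeval_monomial, Finsupp.prod_fintype _ _ (by intro i; simp),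
        algebraMap_eq, SpX.sf_coe]
      simp_rw [SpX.g_rk, mul_pow]
      rw [prod_mul_distrib, ← mul_assoc]
      have h3 : (∏ s, (C (c s) : MvPolynomial ν ℂ) ^ a.1 s) = C (∏ s, c s ^ a.1 s) := by
        rw [map_prod]
        simp only [C_pow]
      rw [h3, ← C_mul, coeff_C_mul]
    rw [h2, map_sum]
    refine sum_congr rfl fun a _ => ?_
    rw [map_smul, smul_eq_mul]
    ring
  have h2 : SpX.P (fun a : {a // a ∈ Ex β d l} =>
      f a * φ (fun e => coeff (SpX.sf e.1) (∏ s, SpX.lam β l v w s ^ a.1 s))) = 0 := by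
    apply MvPolynomial.funext
    intro c
    rw [map_zero, ← h _ (SpX.rk_ad β l c v w), h1 c]
    unfold SpX.P
    rw [map_sum]
    refine sum_congr rfl fun a _ => ?_
    rw [eval_monomial, Finsupp.prod_fintype _ _ (by intro i; simp), SpX.sf_coe]
  rw [← SpX.coeff_P (fun a : {a // a ∈ Ex β d l} =>
      f a * φ (fun e => coeff (SpX.sf e.1) (∏ s, SpX.lam β l v w s ^ a.1 s))) a, h2, coeff_zero]

/-- The exponent of one variable in every block `< l`. -/
private def SpX.dl (l : ℕ) (σ : ℕ → ν) (t : ν) : ℕ := ∑ i ∈ range l, if σ i = t then 1 else 0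

private lemma SpX.sf_dl (l : ℕ) (σ : ℕ → ν) :
    ∏ i ∈ range l, (X (σ i) : MvPolynomial ν ℂ) = monomial (SpX.sf (SpX.dl l σ)) 1 := by
  classical
  have h1 : SpX.sf (SpX.dl l σ) = ∑ i ∈ range l, Finsupp.single (σ i) 1 := by
    ext t
    rw [SpX.sf_coe, Finsupp.finset_sum_apply]
    unfold SpX.dl
    refine sum_congr rfl fun i _ => ?_
    rw [Finsupp.single_apply]
  rw [h1]
  have h2 := monomial_sum_prod (R := ℂ) (range l) (fun i => Finsupp.single (σ i) 1)
    (fun _ => (1 : ℂ))
  rw [prod_const_one] at h2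
  rw [h2]
  rfl

private lemma SpX.prod_lam {d l : ℕ} {β : ν → ℕ} {a : ν → ℕ} (ha : a ∈ Ex β d l)
    (htop : d ≤ (∑ s ∈ univ.filter (fun s => l ≤ β s), a s) + l) (σ : ℕ → ν)
    (hσ : ∀ i < l, β (σ i) = i) (w : ν → ℂ) :
    ∏ s, SpX.lam β l (fun t => if σ (β t) = t then 1 else 0) w s ^ a s =
      monomial (SpX.sf (SpX.dl l σ)) 1 * (∑ t, C (w t) * X t) ^ (d - l) := by
  classical
  obtain ⟨h1, h2⟩ := mem_Ex.1 ha
  -- the degrees on the blocks
  have h3 : ∀ i < l, 1 ≤ ∑ s ∈ univ.filter (fun s => β s = i), a s := by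
    intro i hi
    obtain ⟨s, hs, hs0⟩ := h2 i hi
    refine (Nat.pos_of_ne_zero hs0).trans_le ?_
    exact single_le_sum (f := a) (fun _ _ => Nat.zero_le _) (by rw [mem_filter]; exact ⟨mem_univ s, hs⟩)
  have h4 : ∑ i ∈ range l, ∑ s ∈ univ.filter (fun s => β s = i), a s =
      ∑ s ∈ univ.filter (fun s => β s < l), a s := by
    rw [← sum_fiberwise_of_maps_to (s := univ.filter (fun s => β s < l)) (t := range l)
      (g := β) (fun s hs => by rw [mem_filter] at hs; exact mem_range.2 hs.2)]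
    refine sum_congr rfl fun i hi => ?_
    refine sum_congr ?_ fun _ _ => rfl
    ext s
    simp only [mem_filter, mem_univ, true_and]
    constructor
    · intro h
      exact ⟨by rw [h]; exact mem_range.1 hi, h⟩
    · exact fun h => h.2
  have h5 : ∑ s ∈ univ.filter (fun s => β s < l), a s +
      ∑ s ∈ univ.filter (fun s => l ≤ β s), a s = d := by
    rw [← h1, ← sum_filter_add_sum_filter_not univ (fun s => β s < l)]
    congr 1
    refine sum_congr ?_ fun _ _ => rfl
    ext s
    simp only [mem_filter, mem_univ, true_and, not_lt]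
  have h6 : l ≤ ∑ s ∈ univ.filter (fun s => β s < l), a s := by
    rw [← h4]
    calc l = ∑ i ∈ range l, 1 := by simp
      _ ≤ _ := sum_le_sum fun i hi => h3 i (mem_range.1 hi)
  have h7 : ∑ s ∈ univ.filter (fun s => β s < l), a s = l := by omega
  have h8 : ∑ s ∈ univ.filter (fun s => l ≤ β s), a s = d - l := by omega
  have h9 : ∀ i ∈ range l, ∑ s ∈ univ.filter (fun s => β s = i), a s = 1 := by
    intro i hi
    have h10 : ∑ i ∈ range l, (1 : ℕ) =
        ∑ i ∈ range l, ∑ s ∈ univ.filter (fun s => β s = i), a s := by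
      rw [h4, h7]
      simp
    exact ((sum_eq_sum_iff_of_le fun i hi => h3 i (mem_range.1 hi)).1 h10 i hi).symm
  rw [← prod_filter_mul_prod_filter_not univ (fun s => β s < l)]
  congr 1
  · rw [← SpX.sf_dl, ← prod_fiberwise_of_maps_to (s := univ.filter (fun s => β s < l))
      (t := range l) (g := β) (fun s hs => by rw [mem_filter] at hs; exact mem_range.2 hs.2)]
    refine prod_congr rfl fun i hi => ?_
    have h11 : ∀ s ∈ (univ.filter (fun s => β s < l)).filter (fun s => β s = i),
        SpX.lam β l (fun t => if σ (β t) = t then 1 else 0) w s ^ a s = X (σ i) ^ a s := by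
      intro s hs
      rw [mem_filter] at hs
      congr 1
      have hsl : β s < l := by
        rw [hs.2]
        exact mem_range.1 hi
      unfold SpX.lam
      rw [if_pos hsl, sum_eq_single (σ i)]
      · have e1 : β (σ i) = β s := by rw [hσ i (mem_range.1 hi), hs.2]
        have e2 : σ (β (σ i)) = σ i := by rw [hσ i (mem_range.1 hi)]
        rw [if_pos e1]
        show C (if σ (β (σ i)) = σ i then (1 : ℂ) else 0) * X (σ i) = X (σ i)
        rw [if_pos e2, C_1, one_mul]
      · intro t _ ht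
        by_cases h12 : β t = β s
        · rw [if_pos h12]
          show C (if σ (β t) = t then (1 : ℂ) else 0) * X t = 0
          rw [if_neg, C_0, zero_mul]
          intro h13
          apply ht
          rw [← h13, h12, hs.2]
        · rw [if_neg h12]
      · intro h
        exact absurd (mem_univ _) h
    rw [prod_congr rfl h11, prod_pow_eq_pow_sum]
    have h12 : (univ.filter (fun s => β s < l)).filter (fun s => β s = i) =
        univ.filter (fun s => β s = i) := by
      ext s
      simp only [mem_filter, mem_univ, true_and]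
      constructor
      · exact fun h => h.2
      · intro h
        exact ⟨by rw [h]; exact mem_range.1 hi, h⟩
    rw [h12, h9 i hi, pow_one]
  · have h11 : ∀ s ∈ univ.filter (fun s => ¬ β s < l),
        SpX.lam β l (fun t => if σ (β t) = t then 1 else 0) w s ^ a s =
          (∑ t, C (w t) * X t) ^ a s := by
      intro s hs
      rw [mem_filter] at hs
      unfold SpX.lam
      rw [if_neg hs.2]
    rw [prod_congr rfl h11, prod_pow_eq_pow_sum]
    congr 1
    rw [← h8]
    refine sum_congr ?_ fun _ _ => rfl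
    ext s
    simp only [mem_filter, mem_univ, true_and, not_lt]

private lemma SpX.dl_sum (l : ℕ) (σ : ℕ → ν) : ∑ t, SpX.dl l σ t = l := by
  unfold SpX.dl
  rw [sum_comm]
  simp

private lemma SpX.dl_mem {d l : ℕ} {β : ν → ℕ} (hl : l ≤ d) (σ : ℕ → ν)
    (hσ : ∀ i < l, β (σ i) = i) {b : ν → ℕ} (hb : ∑ s, b s = d - l) :
    (fun t => SpX.dl l σ t + b t) ∈ Ex β d l := by
  rw [mem_Ex]
  constructor
  · rw [sum_add_distrib, SpX.dl_sum, hb]
    omega
  · intro i hi
    refine ⟨σ i, hσ i hi, ?_⟩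
    have h1 : 1 ≤ SpX.dl l σ (σ i) := by
      unfold SpX.dl
      have h2 := single_le_sum (f := fun j => if σ j = σ i then 1 else 0)
        (fun _ _ => Nat.zero_le _) (mem_range.2 hi)
      simpa using h2
    omega

/-- Step 3: the coefficients in `w`. -/
private lemma SpX.fin {d l : ℕ} {β : ν → ℕ} (hl : l ≤ d)
    (φ : ({a // a ∈ Ex β d l} → ℂ) →ₗ[ℂ] ℂ) (σ : ℕ → ν) (hσ : ∀ i < l, β (σ i) = i)
    (h : ∀ w : ν → ℂ, φ (fun e => coeff (SpX.sf e.1)
      (monomial (SpX.sf (SpX.dl l σ)) 1 * (∑ t, C (w t) * X t) ^ (d - l))) = 0)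
    (b : ν → ℕ) (hb : ∑ s, b s = d - l) :
    φ (Pi.single ⟨fun t => SpX.dl l σ t + b t, SpX.dl_mem hl σ hσ hb⟩ 1) = 0 := by
  classical
  let B : Finset (ν → ℕ) := piAntidiag univ (d - l)
  have hB : ∀ b : {b // b ∈ B}, ∑ s, b.1 s = d - l := fun b => (mem_piAntidiag.1 b.2).1
  let c : {b // b ∈ B} → ℂ := fun b =>
    ((Nat.multinomial univ b.1 : ℕ) : ℂ) *
      φ (Pi.single ⟨fun t => SpX.dl l σ t + b.1 t, SpX.dl_mem hl σ hσ (hB b)⟩ 1)
  have h1 : SpX.P c = 0 := by
    apply MvPolynomial.funext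
    intro w
    rw [map_zero, ← h w]
    have h2 : (fun e : {a // a ∈ Ex β d l} => coeff (SpX.sf e.1)
        (monomial (SpX.sf (SpX.dl l σ)) 1 * (∑ t, C (w t) * X t) ^ (d - l) :
          MvPolynomial ν ℂ)) = ∑ b : {b // b ∈ B},
        (((Nat.multinomial univ b.1 : ℕ) : ℂ) * ∏ s, w s ^ b.1 s) •
          (Pi.single ⟨fun t => SpX.dl l σ t + b.1 t, SpX.dl_mem hl σ hσ (hB b)⟩ 1 :
            {a // a ∈ Ex β d l} → ℂ) := by
      funext e
      rw [Finset.sum_apply, sum_pow_eq_sum_piAntidiag, mul_sum, coeff_sum]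
      rw [← sum_coe_sort (piAntidiag (univ : Finset ν) (d - l))]
      refine sum_congr rfl fun b _ => ?_
      have h3 : (monomial (SpX.sf (SpX.dl l σ)) 1 * ((Nat.multinomial univ b.1 : MvPolynomial ν ℂ) *
          ∏ s, (C (w s) * X s) ^ b.1 s) : MvPolynomial ν ℂ) =
          monomial (SpX.sf fun t => SpX.dl l σ t + b.1 t)
            (((Nat.multinomial univ b.1 : ℕ) : ℂ) * ∏ s, w s ^ b.1 s) := by
        have h4 : SpX.sf (fun t => SpX.dl l σ t + b.1 t) =
            SpX.sf (SpX.dl l σ) + SpX.sf b.1 := by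
          ext t
          rfl
        have h5 : (∏ s, (C (w s) * X s) ^ b.1 s : MvPolynomial ν ℂ) =
            monomial (SpX.sf b.1) (∏ s, w s ^ b.1 s) := by
          rw [monomial_eq, Finsupp.prod_fintype _ _ (by intro i; simp), SpX.sf_coe]
          simp only [mul_pow, prod_mul_distrib, map_prod, C_pow]
        rw [h4, h5, ← C_eq_coe_nat, C_mul_monomial, monomial_mul, one_mul]
      rw [h3, coeff_monomial, Pi.smul_apply, smul_eq_mul]
      by_cases h6 : (fun t => SpX.dl l σ t + b.1 t) = e.1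
      · rw [if_pos (by rw [h6])]
        have h7 : (⟨fun t => SpX.dl l σ t + b.1 t, SpX.dl_mem hl σ hσ (hB b)⟩ :
            {a // a ∈ Ex β d l}) = e := Subtype.ext h6
        rw [h7, Pi.single_eq_same, mul_one]
      · rw [if_neg (fun h8 => h6 (SpX.sf_inj.1 h8)), Pi.single_eq_of_ne, mul_zero]
        intro h8
        exact h6 (congrArg Subtype.val h8).symm
    rw [h2, map_sum]
    unfold SpX.P
    rw [map_sum]
    refine sum_congr rfl fun b _ => ?_
    rw [map_smul, smul_eq_mul, eval_monomial, Finsupp.prod_fintype _ _ (by intro i; simp),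
      SpX.sf_coe]
    show ((Nat.multinomial univ b.1 : ℕ) : ℂ) * _ * _ = _
    ring
  have hbB : b ∈ B := mem_piAntidiag.2 ⟨hb, fun i _ => mem_univ i⟩
  have h2 := SpX.coeff_P c ⟨b, hbB⟩
  rw [h1, coeff_zero] at h2
  have h6 : ((Nat.multinomial univ b : ℕ) : ℂ) ≠ 0 := by
    rw [Nat.cast_ne_zero]
    exact (Nat.multinomial_pos _ _).ne'
  exact (mul_eq_zero.1 h2.symm).resolve_left h6

/-- The number of exponents of the level `l` whose degree in the variables of the blocks `≥ l` is
less than `2 M - 1 - l`. -/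
def dzb (M : ℕ) (β : ν → ℕ) (l : ℕ) : ℕ :=
  ((Ex β (2 * M - 1) l).filter fun a =>
    (∑ s ∈ univ.filter (fun s => l ≤ β s), a s) + l < 2 * M - 1).card

/-- The span property of the level `l`, for the kinds of this level. -/
theorem span_LS (M : ℕ) (β : ν → ℕ) (l : ℕ) {κ : Type} [Fintype κ] (m : κ → Kd)
    (hm : ∀ x, (m x).Ok M l) (φ : ({a // a ∈ Ex β (2 * M - 1) l} → ℂ) →ₗ[ℂ] ℂ) (hφ : φ ≠ 0)
    (hgn : Gn κ (ν ⊕ ν) fun p => (LS M β l).V m p ≤ LinearMap.ker φ) :
    (LS M β l).gd m ≤ dzb M β l := by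
  classical
  obtain ⟨G, hG0, hG⟩ := hgn
  obtain ⟨t, ht⟩ : ∃ t, eval t G ≠ 0 := by
    by_contra hcon
    push Not at hcon
    exact hG0 (MvPolynomial.funext fun t => by rw [hcon t, map_zero])
  let p₀ : κ → ν ⊕ ν → ℂ := fun i k => t (i, k)
  have hp₀ : eval (fun x : κ × (ν ⊕ ν) => p₀ x.1 x.2) G ≠ 0 := ht
  -- the top coefficients of the solutions vanish
  have hf : ∀ f ∈ (LS M β l).V m p₀, ∀ a : {a // a ∈ Ex β (2 * M - 1) l},
      2 * M - 1 ≤ (∑ s ∈ univ.filter (fun s => l ≤ β s), a.1 s) + l → f a = 0 := by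
    intro f hf a ha
    by_contra hfa
    apply hφ
    have h1 := SpX.all m hm φ G hG p₀ hp₀ f hf
    have hl : l ≤ 2 * M - 1 := by
      obtain ⟨h2, h3⟩ := mem_Ex.1 a.2
      have h4 : ∀ i ∈ range l, 1 ≤ ∑ s ∈ univ.filter (fun s => β s = i), a.1 s := by
        intro i hi
        obtain ⟨s, hs, hs0⟩ := h3 i (mem_range.1 hi)
        refine (Nat.pos_of_ne_zero hs0).trans_le ?_
        exact single_le_sum (f := a.1) (fun _ _ => Nat.zero_le _)
          (by rw [mem_filter]; exact ⟨mem_univ s, hs⟩)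
      calc l = ∑ i ∈ range l, 1 := by simp
        _ ≤ ∑ i ∈ range l, ∑ s ∈ univ.filter (fun s => β s = i), a.1 s := sum_le_sum h4
        _ = ∑ s ∈ univ.filter (fun s => β s < l), a.1 s := by
            rw [← sum_fiberwise_of_maps_to (s := univ.filter (fun s => β s < l)) (t := range l)
              (g := β) (fun s hs => by rw [mem_filter] at hs; exact mem_range.2 hs.2)]
            refine sum_congr rfl fun i hi => ?_
            refine sum_congr ?_ fun _ _ => rfl
            ext s
            simp only [mem_filter, mem_univ, true_and]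
            constructor
            · intro h
              exact ⟨by rw [h]; exact mem_range.1 hi, h⟩
            · exact fun h => h.2
        _ ≤ ∑ s, a.1 s := sum_le_sum_of_subset (filter_subset _ _)
        _ = 2 * M - 1 := h2
    ext e
    obtain ⟨h2, h3⟩ := mem_Ex.1 e.2
    rcases isEmpty_or_nonempty ν with hemp | ⟨⟨s₀⟩⟩
    · have h4 : ∀ x y : {a // a ∈ Ex β (2 * M - 1) l}, x = y := fun x y =>
        Subtype.ext (funext fun s => hemp.elim s)
      have h5 : f = f a • (Pi.single a 1 : {a // a ∈ Ex β (2 * M - 1) l} → ℂ) := by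
        funext x
        rw [h4 x a, Pi.smul_apply, Pi.single_eq_same, smul_eq_mul, mul_one]
      have h6 : φ f = 0 := hG p₀ hp₀ hf
      rw [h5, map_smul, smul_eq_mul] at h6
      have h7 := (mul_eq_zero.1 h6).resolve_left hfa
      rw [h4 e a]
      simpa using h7
    let σ : ℕ → ν := fun i => if h : i < l then (h3 i h).choose else s₀
    have hσ : ∀ i < l, β (σ i) = i := by
      intro i hi
      simp only [σ, dif_pos hi]
      exact (h3 i hi).choose_spec.1
    have hσe : ∀ i < l, e.1 (σ i) ≠ 0 := by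
      intro i hi
      simp only [σ, dif_pos hi]
      exact (h3 i hi).choose_spec.2
    have hle : ∀ t, SpX.dl l σ t ≤ e.1 t := by
      intro t
      unfold SpX.dl
      by_cases h5 : ∃ i < l, σ i = t
      · obtain ⟨i, hi, h6⟩ := h5
        rw [sum_eq_single i]
        · rw [if_pos h6]
          have := hσe i hi
          rw [h6] at this
          omega
        · intro j hj hji
          rw [if_neg]
          intro h7
          apply hji
          rw [← hσ j (mem_range.1 hj), h7, ← h6, hσ i hi]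
        · intro h7
          exact absurd (mem_range.2 hi) h7
      · rw [sum_eq_zero]
        · exact Nat.zero_le _
        · intro i hi
          rw [if_neg]
          intro h6
          exact h5 ⟨i, mem_range.1 hi, h6⟩
    have hb : ∑ t, (e.1 t - SpX.dl l σ t) = 2 * M - 1 - l := by
      rw [sum_tsub_distrib _ fun t _ => hle t, h2, SpX.dl_sum]
    have h4 := SpX.fin hl φ σ hσ (by
      intro w
      have h5 := SpX.coef φ f h1 (fun t => if σ (β t) = t then 1 else 0) w a
      rw [SpX.prod_lam a.2 ha σ hσ w] at h5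
      exact (mul_eq_zero.1 h5).resolve_left hfa) (fun t => e.1 t - SpX.dl l σ t) hb
    have h5 : (⟨fun t => SpX.dl l σ t + (e.1 t - SpX.dl l σ t), SpX.dl_mem hl σ hσ hb⟩ :
        {a // a ∈ Ex β (2 * M - 1) l}) = e := by
      apply Subtype.ext
      funext t
      have := hle t
      show SpX.dl l σ t + (e.1 t - SpX.dl l σ t) = e.1 t
      omega
    rw [h5] at h4
    simpa using h4
  -- the dimension
  let D : Finset (ν → ℕ) := (Ex β (2 * M - 1) l).filter fun a =>
    (∑ s ∈ univ.filter (fun s => l ≤ β s), a s) + l < 2 * M - 1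
  let L : (LS M β l).V m p₀ →ₗ[ℂ] ({a // a ∈ D} → ℂ) :=
    { toFun := fun f a => f.1 ⟨a.1, (mem_filter.1 a.2).1⟩
      map_add' := fun _ _ => rfl
      map_smul' := fun _ _ => rfl }
  have hL : Function.Injective L := by
    rw [← LinearMap.ker_eq_bot, Submodule.eq_bot_iff]
    intro f hf0
    apply Subtype.ext
    funext a
    by_cases ha : (∑ s ∈ univ.filter (fun s => l ≤ β s), a.1 s) + l < 2 * M - 1
    · have h1 : L f = 0 := hf0
      exact congrFun h1 ⟨a.1, mem_filter.2 ⟨a.2, ha⟩⟩
    · exact hf f.1 f.2 a (not_lt.1 ha)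
  have h1 := LinearMap.finrank_le_finrank_of_injective hL
  rw [Module.finrank_fintype_fun_eq_card, Fintype.card_coe] at h1
  exact (gd_le (LS M β l) m p₀).trans h1

theorem spanP_LS (M : ℕ) (β : ν → ℕ) (l : ℕ) :
    SpanP (LS M β l) (fun k => k.Ok M l) (dzb M β l) :=
  fun _ _ m φ hm hφ h => span_LS M β l m hm φ hφ h

end

/-- The number of the exponents of the level `l` whose degree in the variables of the blocks `≥ l` is
less than `2 M - 1 - l`, for the canonical variables. -/
def dz (M c l n : ℕ) : ℕ :=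
  ((Ex (blk c n) (2 * M - 1) l).filter fun a =>
    ∑ s ∈ univ.filter (fun s => l ≤ blk c n s), a s < 2 * M - 1 - l).card

theorem dzb_blk (M c l n : ℕ) : dzb M (blk c n) l = dz M c l n := by
  unfold dzb dz
  congr 1
  refine filter_congr fun a _ => ?_
  omega

/-- The span property of the level `l`, for the canonical variables. -/
theorem spanP_blk (M c l n : ℕ) :
    SpanP (LS M (blk c n) l) (fun k => k.Ok M l) (dz M c l n) := by
  rw [← dzb_blk]
  exact spanP_LS M (blk c n) l

end Pool.Agent.V7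

end

section

/-!
# V7, block ALPHA, N3: the number of exponents which are not linear in all blocks

Such an exponent is the sum of one variable in every block `i < l`, one more variable of these blocks
and `2M - 2 - l` arbitrary variables.
-/

set_option autoImplicit false

namespace Pool.Agent.V7

open Finset

namespace N3X

variable {n : ℕ}

/-- The indicator of the variable with the number `m`. -/
def ev (n m : ℕ) : Fin n → ℕ := fun s => if s.1 = m then 1 else 0

theorem sum_ev (s : Fin n) (P : Fin n → Prop) [DecidablePred P] (h : P s) :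
    ∑ t ∈ univ.filter P, ev n s.1 t = 1 := by
  rw [Finset.sum_eq_single_of_mem s (mem_filter.2 ⟨mem_univ s, h⟩)]
  · unfold ev
    rw [if_pos rfl]
  · intro t _ ht
    unfold ev
    rw [if_neg fun h => ht (Fin.ext h)]

theorem exists_seq (d : ℕ) : ∀ a : Fin n → ℕ, ∑ s, a s = d →
    ∃ u : Fin d → Fin n, ∀ s, a s = ∑ t, ev n (u t).1 s := by
  induction d with
  | zero =>
    intro a ha
    refine ⟨fun t => t.elim0, fun s => ?_⟩
    have h1 := (sum_eq_zero_iff.1 ha) s (mem_univ s)
    rw [h1]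
    simp
  | succ d ih =>
    intro a ha
    obtain ⟨s₀, hs₀⟩ : ∃ s, a s ≠ 0 := by
      by_contra h
      push Not at h
      rw [sum_eq_zero fun s _ => h s] at ha
      omega
    have h1 : ∀ s, a s = (a s - ev n s₀.1 s) + ev n s₀.1 s := by
      intro s
      refine (Nat.sub_add_cancel ?_).symm
      unfold ev
      split_ifs with h
      · rw [Fin.ext h]
        omega
      · exact Nat.zero_le _
    have h2 : ∑ s, (a s - ev n s₀.1 s) = d := by
      have h3 : ∑ s, a s = ∑ s, (a s - ev n s₀.1 s) + ∑ s, ev n s₀.1 s := by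
        rw [← sum_add_distrib]
        exact sum_congr rfl fun s _ => h1 s
      have h4 : ∑ s, ev n s₀.1 s = 1 := by
        have h5 := sum_ev s₀ (fun _ => True) trivial
        rwa [filter_true] at h5
      omega
    obtain ⟨u, hu⟩ := ih _ h2
    refine ⟨Fin.cons s₀ u, fun s => ?_⟩
    rw [Fin.sum_univ_succ]
    simp only [Fin.cons_zero, Fin.cons_succ]
    rw [← hu s, add_comm]
    exact h1 s

end N3X

open N3X

theorem dz_le (M c l n : ℕ) (hc : 1 ≤ c) (hl : l + 2 ≤ 2 * M) :
    dz M c l n ≤ c ^ l * (l * c) * n ^ (2 * M - 2 - l) := by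
  classical
  let F : (Fin l → Fin c) × Fin (l * c) × (Fin (2 * M - 2 - l) → Fin n) → Fin n → ℕ := fun x s =>
    ∑ i : Fin l, ev n (i.1 * c + (x.1 i).1) s + ev n x.2.1.1 s + ∑ t, ev n (x.2.2 t).1 s
  have hF : ((Ex (blk c n) (2 * M - 1) l).filter fun a =>
      ∑ s ∈ univ.filter (fun s => l ≤ blk c n s), a s < 2 * M - 1 - l) ⊆ univ.image F := by
    intro a ha
    rw [mem_filter] at ha
    obtain ⟨ha1, ha2⟩ := ha
    obtain ⟨ha3, ha4⟩ := mem_Ex.1 ha1
    have ha5 : ∀ i : Fin l, ∃ s, blk c n s = i.1 ∧ a s ≠ 0 := fun i => ha4 i.1 i.2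
    choose g hg1 hg2 using ha5
    have hgt : ∀ i : Fin l, (g i).1 = i.1 * c + (g i).1 % c := by
      intro i
      have h1 := Nat.div_add_mod' (g i).1 c
      have h2 : (g i).1 / c = i.1 := hg1 i
      rw [h2] at h1
      exact h1.symm
    set b : Fin n → ℕ := fun s => ∑ i : Fin l, ev n (g i).1 s with hb
    have hinj : ∀ i j : Fin l, g i = g j → i = j := by
      intro i j h
      refine Fin.ext ?_
      rw [← hg1 i, ← hg1 j, h]
    have hb1 : ∀ s, b s ≤ a s := by
      intro s
      by_cases h : ∃ i : Fin l, g i = s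
      · obtain ⟨i, rfl⟩ := h
        have h1 : b (g i) = 1 := by
          show ∑ j : Fin l, ev n (g j).1 (g i) = 1
          rw [Finset.sum_eq_single_of_mem i (mem_univ i)]
          · unfold ev
            rw [if_pos rfl]
          · intro j _ hj
            unfold ev
            rw [if_neg fun h => hj (hinj j i (Fin.ext h.symm))]
        rw [h1]
        exact Nat.one_le_iff_ne_zero.2 (hg2 i)
      · have h1 : b s = 0 := by
          refine sum_eq_zero fun i _ => ?_
          unfold ev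
          rw [if_neg fun h2 => h ⟨i, Fin.ext h2.symm⟩]
        rw [h1]
        exact Nat.zero_le _
    have hbs : ∀ P : Fin n → Prop, ∀ [DecidablePred P], (∀ i : Fin l, P (g i)) →
        ∑ s ∈ univ.filter P, b s = l := by
      intro P _ hP
      show ∑ s ∈ univ.filter P, ∑ i : Fin l, ev n (g i).1 s = l
      rw [sum_comm, sum_congr rfl fun i _ => sum_ev (g i) P (hP i)]
      simp
    have hsplit : ∀ P : Fin n → Prop, ∀ [DecidablePred P],
        ∑ s ∈ univ.filter P, a s = ∑ s ∈ univ.filter P, (a s - b s) +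
          ∑ s ∈ univ.filter P, b s := by
      intro P _
      rw [← sum_add_distrib]
      exact sum_congr rfl fun s _ => (Nat.sub_add_cancel (hb1 s)).symm
    have h1 : ∑ s, (a s - b s) = 2 * M - 1 - l := by
      have h2 := hsplit fun _ => True
      have h3 := hbs (fun _ => True) fun _ => trivial
      rw [filter_true] at h2 h3
      omega
    have h2 : 1 ≤ ∑ s ∈ univ.filter (fun s => blk c n s < l), (a s - b s) := by
      have h3 := hsplit fun s => blk c n s < l
      have h4 := hbs (fun s => blk c n s < l) fun i => by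
        rw [hg1 i]
        exact i.2
      have h5 := Finset.sum_filter_add_sum_filter_not univ (fun s => l ≤ blk c n s) a
      have h6 : (univ.filter fun s => ¬ l ≤ blk c n s) = univ.filter fun s => blk c n s < l :=
        filter_congr fun s _ => not_le
      rw [h6, ha3] at h5
      omega
    obtain ⟨s₀, hs₀, hs₁⟩ : ∃ s ∈ univ.filter (fun s => blk c n s < l), a s - b s ≠ 0 := by
      by_contra h
      push Not at h
      rw [sum_eq_zero h] at h2
      omega
    rw [mem_filter] at hs₀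
    have h3 : ∀ s, a s - b s = (a s - b s - ev n s₀.1 s) + ev n s₀.1 s := by
      intro s
      refine (Nat.sub_add_cancel ?_).symm
      unfold ev
      split_ifs with h
      · rw [Fin.ext h]
        omega
      · exact Nat.zero_le _
    have h4 : ∑ s, (a s - b s - ev n s₀.1 s) = 2 * M - 2 - l := by
      have h5 : ∑ s, (a s - b s) = ∑ s, (a s - b s - ev n s₀.1 s) + ∑ s, ev n s₀.1 s := by
        rw [← sum_add_distrib]
        exact sum_congr rfl fun s _ => h3 s
      have h6 : ∑ s, ev n s₀.1 s = 1 := by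
        have h7 := sum_ev s₀ (fun _ => True) trivial
        rwa [filter_true] at h7
      omega
    obtain ⟨u, hu⟩ := exists_seq _ _ h4
    have hr : s₀.1 < l * c := (Nat.div_lt_iff_lt_mul hc).1 hs₀.2
    rw [mem_image]
    refine ⟨(fun i => ⟨(g i).1 % c, Nat.mod_lt _ hc⟩, ⟨s₀.1, hr⟩, u), mem_univ _, ?_⟩
    funext s
    show ∑ i : Fin l, ev n (i.1 * c + (g i).1 % c) s + ev n s₀.1 s + ∑ t, ev n (u t).1 s = a s
    have h5 : ∑ i : Fin l, ev n (i.1 * c + (g i).1 % c) s = b s :=
      sum_congr rfl fun i _ => by rw [← hgt i]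
    rw [h5, ← hu s]
    have h6 := h3 s
    have h7 := hb1 s
    omega
  have hcard : dz M c l n ≤ (univ.image F).card := card_le_card hF
  refine hcard.trans (card_image_le.trans (le_of_eq ?_))
  rw [card_univ, Fintype.card_prod, Fintype.card_prod, Fintype.card_fun, Fintype.card_fun,
    Fintype.card_fin, Fintype.card_fin, Fintype.card_fin, Fintype.card_fin, Fintype.card_fin]
  ring

end Pool.Agent.V7

end

section

/-!
# V7, block ALPHA: the top level `2M - 1`

On the level `2M - 1` the exponents are the choices of one variable from each of the blocks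
`0, …, 2M - 2`, and a point of the kind `k` with `dgr M k = 2M - 1` is a contraction with the
pure tensor of the slots `supp M k` (in the slot `i` of `sw i I` the direction `v` is used).  So the
system is the tensor system.
-/

set_option autoImplicit false
set_option linter.unusedSectionVars false

namespace Pool.Agent.V7

open Finset MvPolynomial Pool.Agent.H51.TB Pool.Agent.H54.V7 Pool.Agent.V7.ST
open Pool.Agent.H18.Ex (tcr)

/-- The slots of a kind on the level `2M - 1`. -/
def supp (M : ℕ) : Kd → Finset ℕ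
  | .ord _ I => range (2 * M - 1) \ I
  | .sw _ I => range (2 * M - 1) \ I

namespace TopX

section

variable {ν : Type} [Fintype ν] [DecidableEq ν] {L c : ℕ}

/-- The exponent of the variables `φ (j, w j)`, `j ∈ I`. -/
def xI (φ : Fin L × Fin c → ν) (I : Finset (Fin L)) (w : Fin L → Fin c) : ν → ℕ :=
  fun s => if ∃ j ∈ I, φ (j, w j) = s then 1 else 0

variable {β : ν → ℕ} {φ : Fin L × Fin c → ν}

theorem xI_app (hφ : Function.Injective φ) (I : Finset (Fin L)) (w : Fin L → Fin c) (j : Fin L)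
    (t : Fin c) : xI φ I w (φ (j, t)) = if j ∈ I ∧ t = w j then 1 else 0 := by
  unfold xI
  refine if_congr ?_ rfl rfl
  constructor
  · rintro ⟨j', hj', h⟩
    have h1 := hφ h
    have h2 : j' = j := congrArg Prod.fst h1
    have h3 : w j' = t := congrArg Prod.snd h1
    subst h2
    exact ⟨hj', h3.symm⟩
  · rintro ⟨h1, h2⟩
    exact ⟨j, h1, by rw [h2]⟩

theorem sum_xI (hφ : Function.Injective φ) (I : Finset (Fin L)) (w : Fin L → Fin c) :
    ∑ s, xI φ I w s = I.card := by
  unfold xI
  rw [Finset.sum_boole, Nat.cast_id]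
  have h1 : (univ.filter fun s => ∃ j ∈ I, φ (j, w j) = s) = I.image fun j => φ (j, w j) := by
    ext s
    simp
  rw [h1, card_image_of_injective]
  intro a b h
  exact congrArg Prod.fst (hφ h)

theorem xI_mem (hφ : Function.Injective φ) (hβ : ∀ x, β (φ x) = x.1.1) (e : Fin L → Fin c) :
    xI φ univ e ∈ Ex β L L := by
  rw [mem_Ex, sum_xI hφ, card_univ, Fintype.card_fin]
  refine ⟨rfl, fun i hi => ⟨φ (⟨i, hi⟩, e ⟨i, hi⟩), hβ _, ?_⟩⟩
  rw [xI_app hφ, if_pos ⟨mem_univ _, rfl⟩]
  exact one_ne_zero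

theorem xI_surj (hφ : Function.Injective φ) (hβ : ∀ x, β (φ x) = x.1.1)
    (hs : ∀ s, β s < L → ∃ x, φ x = s) {a : ν → ℕ} (ha : a ∈ Ex β L L) :
    ∃ e, xI φ univ e = a := by
  obtain ⟨h1, h2⟩ := mem_Ex.1 ha
  have h3 : ∀ j : Fin L, ∃ t : Fin c, a (φ (j, t)) ≠ 0 := by
    intro j
    obtain ⟨s, hs1, hs2⟩ := h2 j.1 j.2
    obtain ⟨⟨j', t⟩, rfl⟩ := hs s (by rw [hs1]; exact j.2)
    have h4 : j' = j := Fin.ext (by rw [← hs1, hβ])
    subst h4
    exact ⟨t, hs2⟩
  choose e he using h3
  refine ⟨e, ?_⟩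
  have h4 : ∀ s, xI φ univ e s ≤ a s := by
    intro s
    unfold xI
    split_ifs with h
    · obtain ⟨j, _, rfl⟩ := h
      exact Nat.one_le_iff_ne_zero.2 (he j)
    · exact Nat.zero_le _
  have h5 : ∑ s, xI φ univ e s = ∑ s, a s := by
    rw [sum_xI hφ, h1, card_univ, Fintype.card_fin]
  have h6 := (sum_eq_sum_iff_of_le fun s _ => h4 s).1 h5
  exact funext fun s => h6 s (mem_univ s)

theorem xI_inj (hφ : Function.Injective φ) {e e' : Fin L → Fin c}
    (h : xI φ univ e = xI φ univ e') : e = e' := by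
  funext j
  have h1 := congrFun h (φ (j, e j))
  rw [xI_app hφ, xI_app hφ, if_pos ⟨mem_univ _, rfl⟩] at h1
  by_contra h2
  rw [if_neg fun h3 => h2 h3.2] at h1
  exact one_ne_zero h1

theorem tcr_xI (hφ : Function.Injective φ) (q : ν → ℂ) {I J : Finset (Fin L)} (hIJ : I ⊆ J)
    (e w : Fin L → Fin c) : tcr q (xI φ J e) (xI φ I w) =
      if ∀ j ∈ I, e j = w j then ∏ j ∈ J \ I, q (φ (j, e j)) else 0 := by
  split_ifs with h
  · have h1 : ∏ j ∈ J \ I, q (φ (j, e j)) =
        ∏ j : Fin L, if j ∈ J \ I then q (φ (j, e j)) else 1 := by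
      rw [Finset.prod_ite_mem, univ_inter]
    rw [h1]
    unfold tcr
    symm
    refine Fintype.prod_of_injective (fun j => φ (j, e j)) ?_ _ _ ?_ ?_
    · intro a b hab
      exact congrArg Prod.fst (hφ hab)
    · intro s hs
      have h2 : xI φ J e s = 0 := by
        unfold xI
        rw [if_neg]
        rintro ⟨j, _, hj⟩
        exact hs ⟨j, hj⟩
      have h3 : xI φ I w s = 0 := by
        unfold xI
        rw [if_neg]
        rintro ⟨j, hj, hj'⟩
        exact hs ⟨j, by rw [← hj', ← h j hj]⟩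
      rw [h2, h3]
      simp
    · intro j
      show _ = (((xI φ J e (φ (j, e j))).choose (xI φ I w (φ (j, e j))) : ℕ) : ℂ) *
        q (φ (j, e j)) ^ (xI φ J e (φ (j, e j)) - xI φ I w (φ (j, e j)))
      rw [xI_app hφ, xI_app hφ]
      by_cases hjI : j ∈ I
      · rw [if_neg fun h2 => (mem_sdiff.1 h2).2 hjI, if_pos ⟨hIJ hjI, rfl⟩,
          if_pos ⟨hjI, h j hjI⟩]
        simp
      · by_cases hjJ : j ∈ J
        · rw [if_pos (mem_sdiff.2 ⟨hjJ, hjI⟩), if_pos ⟨hjJ, rfl⟩, if_neg fun h2 => hjI h2.1]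
          simp
        · rw [if_neg fun h2 => hjJ (mem_sdiff.1 h2).1, if_neg fun h2 => hjJ h2.1,
            if_neg fun h2 => hjI h2.1]
          simp
  · push Not at h
    obtain ⟨j, hj, hj'⟩ := h
    refine tcr_eq_zero _ _ _ fun h1 => ?_
    have h2 := h1 (φ (j, w j))
    rw [xI_app hφ, xI_app hφ, if_pos ⟨hj, rfl⟩, if_neg fun h3 => hj' h3.2.symm] at h2
    exact absurd h2 (by norm_num)

/-- Sums over the exponents. -/
theorem sum_Ex (hφ : Function.Injective φ) (hβ : ∀ x, β (φ x) = x.1.1)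
    (hs : ∀ s, β s < L → ∃ x, φ x = s) (f : {a // a ∈ Ex β L L} → ℂ) (g : (ν → ℕ) → ℂ) :
    ∑ a : {a // a ∈ Ex β L L}, f a * g a.1 =
      ∑ e : Fin L → Fin c, f ⟨xI φ univ e, xI_mem hφ hβ e⟩ * g (xI φ univ e) := by
  symm
  refine Fintype.sum_bijective (fun e => (⟨xI φ univ e, xI_mem hφ hβ e⟩ :
    {a // a ∈ Ex β L L})) ⟨?_, ?_⟩ _ _ fun e => rfl
  · intro e e' h
    have h1 := congrArg Subtype.val h
    exact xI_inj hφ h1
  · rintro ⟨a, ha⟩
    obtain ⟨e, he⟩ := xI_surj hφ hβ hs ha
    exact ⟨e, Subtype.ext he⟩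

/-- The blocks of `I` among the slots. -/
def tF (L : ℕ) (I : Finset ℕ) : Finset (Fin L) := univ.filter fun j => j.1 ∈ I

theorem mem_tF {I : Finset ℕ} {j : Fin L} : j ∈ tF L I ↔ j.1 ∈ I := by
  unfold tF
  rw [mem_filter]
  exact ⟨fun h => h.2, fun h => ⟨mem_univ _, h⟩⟩

theorem map_tF {I : Finset ℕ} (hI : I ⊆ range L) : (tF L I).map Fin.valEmbedding = I := by
  ext x
  rw [mem_map]
  constructor
  · rintro ⟨j, hj, rfl⟩
    exact mem_tF.1 hj
  · intro hx
    exact ⟨⟨x, mem_range.1 (hI hx)⟩, mem_tF.2 hx, rfl⟩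

theorem card_tF {I : Finset ℕ} (hI : I ⊆ range L) : (tF L I).card = I.card := by
  conv_rhs => rw [← map_tF hI]
  rw [card_map]

/-- An ordinary point is a contraction. -/
theorem ctr_ord (hφ : Function.Injective φ) (hβ : ∀ x, β (φ x) = x.1.1)
    (hs : ∀ s, β s < L → ∃ x, φ x = s) (f : {a // a ∈ Ex β L L} → ℂ) (p : ν → ℂ)
    (y : Fin L × Fin c → ℂ) (hy : ∀ x, p (φ x) = y x) {μ : ℕ} {I : Finset ℕ} (hI : I ⊆ range L)
    (hμ : I.card < μ) (h : Fat (fun e : {a // a ∈ Ex β L L} => e.1) μ (msk β I p) f)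
    (w : Fin L → Fin c) :
    ctr (tF L I)ᶜ y (fun e => f ⟨xI φ univ e, xI_mem hφ hβ e⟩) w = 0 := by
  have h1 := h (xI φ (tF L I) w) (by rw [sum_xI hφ, card_tF hI]; exact hμ)
  have h2 := sum_Ex hφ hβ hs f fun a => tcr (msk β I p) a (xI φ (tF L I) w)
  rw [h1] at h2
  rw [h2]
  unfold ctr
  refine sum_congr rfl fun e _ => ?_
  rw [tcr_xI hφ _ (subset_univ _)]
  have h3 : (∀ j ∈ tF L I, e j = w j) ↔ ∀ j, j ∉ (tF L I)ᶜ → e j = w j := by
    refine forall_congr' fun j => ?_
    rw [mem_compl, not_not]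
  by_cases h4 : ∀ j ∈ tF L I, e j = w j
  · rw [if_pos h4, if_pos (h3.1 h4), mul_comm]
    congr 1
    rw [← compl_eq_univ_sdiff]
    refine prod_congr rfl fun j hj => ?_
    rw [mem_compl, mem_tF] at hj
    unfold msk
    rw [hβ, if_neg hj, hy]
  · rw [if_neg h4, if_neg fun h5 => h4 (h3.2 h5), mul_zero]

/-- A swapped point is a contraction. -/
theorem ctr_sw (hφ : Function.Injective φ) (hβ : ∀ x, β (φ x) = x.1.1)
    (hs : ∀ s, β s < L → ∃ x, φ x = s) (f : {a // a ∈ Ex β L L} → ℂ) (p v : ν → ℂ)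
    (y : Fin L × Fin c → ℂ) (hy : ∀ x, p (φ x) = y x) (hy' : ∀ x, v (φ x) = y x)
    {M i : ℕ} {I : Finset ℕ} (hi : i < L) (hiI : i ∉ I) (hI : I ⊆ range L)
    (hM : I.card + 1 = M) (hM2 : 2 ≤ M)
    (h : Sw (fun e : {a // a ∈ Ex β L L} => e.1) M (2 * M) (univ.filter fun s => β s = i)
      (msk β (insert i I) p) (msk β I v) f) (w : Fin L → Fin c) :
    ctr (tF L I)ᶜ y (fun e => f ⟨xI φ univ e, xI_mem hφ hβ e⟩) w = 0 := by
  have hJ : insert i I ⊆ range L := by
    intro x hx
    rcases mem_insert.1 hx with rfl | hx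
    · exact mem_range.2 hi
    · exact hI hx
  have hIJ : tF L I ⊆ tF L (insert i I) := by
    intro j hj
    rw [mem_tF] at hj ⊢
    exact mem_insert_of_mem hj
  have hsum : ∑ s, xI φ (tF L I) w s = I.card := by rw [sum_xI hφ, card_tF hI]
  have h1 := h (xI φ (tF L I) w) (by
    intro s hs'
    rw [mem_filter] at hs'
    unfold xI
    rw [if_neg]
    rintro ⟨j, hj, rfl⟩
    rw [hβ] at hs'
    rw [mem_tF, hs'.2] at hj
    exact hiI hj) (by rw [hsum]; omega) (by rw [hsum]; omega)
  -- exchange the sums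
  have h2 : ∀ b, ∑ a : {a // a ∈ Ex β L L}, f a * tcr (msk β (insert i I) p) a.1 b =
      ∑ e : Fin L → Fin c, f ⟨xI φ univ e, xI_mem hφ hβ e⟩ *
        tcr (msk β (insert i I) p) (xI φ univ e) b := fun b =>
    sum_Ex hφ hβ hs f fun a => tcr (msk β (insert i I) p) a b
  have h3 : ∑ e : Fin L → Fin c, f ⟨xI φ univ e, xI_mem hφ hβ e⟩ *
      ∑ b ∈ bxd ν (2 * M) M, tcr (msk β I v) b (xI φ (tF L I) w) *
        tcr (msk β (insert i I) p) (xI φ univ e) b = 0 := by
    rw [← h1]
    simp only [h2, mul_sum]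
    rw [sum_comm]
    refine sum_congr rfl fun b _ => sum_congr rfl fun e _ => ?_
    ring
  rw [← h3]
  unfold ctr
  refine sum_congr rfl fun e _ => ?_
  have hmem : xI φ (tF L (insert i I)) e ∈ bxd ν (2 * M) M := by
    unfold bxd
    rw [mem_filter, mem_bx]
    refine ⟨fun s => ?_, ?_⟩
    · have h4 : xI φ (tF L (insert i I)) e s ≤ 1 := by
        unfold xI
        split_ifs
        · exact le_rfl
        · exact Nat.zero_le _
      omega
    · rw [sum_xI hφ, card_tF hJ, card_insert_of_notMem hiI, hM]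
  have h4 : ∑ b ∈ bxd ν (2 * M) M, tcr (msk β I v) b (xI φ (tF L I) w) *
      tcr (msk β (insert i I) p) (xI φ univ e) b =
      tcr (msk β I v) (xI φ (tF L (insert i I)) e) (xI φ (tF L I) w) *
        tcr (msk β (insert i I) p) (xI φ univ e) (xI φ (tF L (insert i I)) e) := by
    refine Finset.sum_eq_single_of_mem _ hmem fun b hb hne => ?_
    have h5 : tcr (msk β (insert i I) p) (xI φ univ e) b = 0 := by
      by_contra h6
      apply hne
      have h7 : ∀ s, xI φ (tF L (insert i I)) e s ≤ b s := by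
        intro s
        unfold xI
        split_ifs with h8
        · obtain ⟨j, hj, rfl⟩ := h8
          by_contra h9
          apply h6
          unfold tcr
          refine prod_eq_zero (mem_univ (φ (j, e j))) ?_
          have h10 : b (φ (j, e j)) = 0 := by omega
          have h11 : msk β (insert i I) p (φ (j, e j)) = 0 := by
            unfold msk
            rw [hβ, if_pos (mem_tF.1 hj)]
          rw [h10, h11, xI_app hφ, if_pos ⟨mem_univ _, rfl⟩]
          simp
        · exact Nat.zero_le _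
      unfold bxd at hb
      rw [mem_filter] at hb
      have h8 : ∑ s, xI φ (tF L (insert i I)) e s = ∑ s, b s := by
        rw [hb.2, sum_xI hφ, card_tF hJ, card_insert_of_notMem hiI, hM]
      have h9 := (sum_eq_sum_iff_of_le fun s _ => h7 s).1 h8
      exact funext fun s => (h9 s (mem_univ s)).symm
    rw [h5, mul_zero]
  rw [h4, tcr_xI hφ _ hIJ, tcr_xI hφ _ (subset_univ _), if_pos fun j _ => rfl]
  have h5 : (∀ j ∈ tF L I, e j = w j) ↔ ∀ j, j ∉ (tF L I)ᶜ → e j = w j := by
    refine forall_congr' fun j => ?_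
    rw [mem_compl, not_not]
  by_cases h6 : ∀ j ∈ tF L I, e j = w j
  · rw [if_pos h6, if_pos (h5.1 h6), mul_comm]
    congr 1
    have h7 : (tF L I)ᶜ = (tF L (insert i I) \ tF L I) ∪ (univ \ tF L (insert i I)) := by
      ext j
      rw [mem_compl, mem_union, mem_sdiff, mem_sdiff, mem_tF, mem_tF]
      constructor
      · intro h8
        by_cases h9 : j.1 ∈ insert i I
        · exact Or.inl ⟨h9, h8⟩
        · exact Or.inr ⟨mem_univ _, h9⟩
      · rintro (h8 | h8)
        · exact h8.2
        · exact fun h9 => h8.2 (mem_insert_of_mem h9)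
    have h8 : Disjoint (tF L (insert i I) \ tF L I) (univ \ tF L (insert i I)) := by
      rw [disjoint_left]
      intro j hj hj'
      exact (mem_sdiff.1 hj').2 (mem_sdiff.1 hj).1
    rw [h7, prod_union h8]
    congr 1
    · refine prod_congr rfl fun j hj => ?_
      rw [mem_sdiff, mem_tF, mem_tF] at hj
      unfold msk
      rw [hβ, if_neg hj.2, hy']
    · refine prod_congr rfl fun j hj => ?_
      rw [mem_sdiff, mem_tF] at hj
      unfold msk
      rw [hβ, if_neg hj.2, hy]
  · rw [if_neg h6, if_neg fun h7 => h6 (h5.2 h7), zero_mul, mul_zero]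

end

/-! ### The canonical variables -/

section

variable {L c n : ℕ}

/-- The variables of the first `L` blocks. -/
def ph (hn : L * c ≤ n) (x : Fin L × Fin c) : Fin n :=
  ⟨x.1.1 * c + x.2.1, by
    have h1 : (x.1.1 + 1) * c ≤ L * c := Nat.mul_le_mul_right c x.1.2
    have h2 : (x.1.1 + 1) * c = x.1.1 * c + c := by ring
    have h3 := x.2.2
    omega⟩

theorem ph_blk (hn : L * c ≤ n) (x : Fin L × Fin c) : blk c n (ph hn x) = x.1.1 := by
  have hc : 0 < c := lt_of_le_of_lt (Nat.zero_le _) x.2.2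
  show (x.1.1 * c + x.2.1) / c = x.1.1
  rw [add_comm, Nat.add_mul_div_right _ _ hc, Nat.div_eq_of_lt x.2.2, zero_add]

theorem ph_inj (hn : L * c ≤ n) : Function.Injective (ph hn) := by
  intro x y h
  have h1 : x.1 = y.1 := Fin.ext (by rw [← ph_blk hn x, ← ph_blk hn y, h])
  have h2 : x.1.1 * c + x.2.1 = y.1.1 * c + y.2.1 := congrArg Fin.val h
  rw [h1] at h2
  exact Prod.ext h1 (Fin.ext (Nat.add_left_cancel h2))

theorem ph_surj (hc : 0 < c) (hn : L * c ≤ n) (s : Fin n) (hs : blk c n s < L) :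
    ∃ x, ph hn x = s :=
  ⟨(⟨s.1 / c, hs⟩, ⟨s.1 % c, Nat.mod_lt _ hc⟩), Fin.ext (Nat.div_add_mod' s.1 c)⟩

end

theorem gM_mono {E ν T : Type} [Fintype E] (S : Sys E ν T) {s s' : Multiset T} (h : s' ≤ s) :
    gM S s ≤ gM S s' := by
  obtain ⟨t, rfl⟩ := Multiset.le_iff_exists_add.1 h
  clear h
  induction t using Multiset.induction_on with
  | empty => rw [add_zero]
  | cons a t ih =>
    rw [Multiset.add_cons]
    exact (gM_cons_le S _ a).trans ih

/-- The set of the blocks of a kind. -/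
def bI : Kd → Finset ℕ
  | .ord _ I => I
  | .sw _ I => I

theorem bI_sub {M j : ℕ} {k : Kd} (h : k.Ok M j) : bI k ⊆ range j := by
  rcases k with ⟨μ, I⟩ | ⟨i, I⟩
  · exact h.2.2
  · intro x hx
    exact mem_range.2 (mem_Ico.1 (h.2 hx)).2

theorem supp_eq (M : ℕ) (k : Kd) : supp M k = range (2 * M - 1) \ bI k := by
  rcases k with ⟨μ, I⟩ | ⟨i, I⟩ <;> rfl

/-- The number of conditions of a point on the top level. -/
theorem wt_top {M c n : ℕ} (hM : 2 ≤ M) (hn : (2 * M - 1) * c ≤ n) {k : Kd}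
    (hk : k.Ok M (2 * M - 1)) (hd : 2 * M - 1 ≤ dgr M k) :
    wt M c n k = if dgr M k = 2 * M - 1 then c ^ (bI k).card else 0 := by
  have h1 : (bI k).card ≤ 2 * M - 1 := by
    have h2 := card_le_card (bI_sub hk)
    rwa [card_range] at h2
  have h2 : (bI k).card * c ≤ n := (Nat.mul_le_mul_right c h1).trans hn
  rcases k with ⟨μ, I⟩ | ⟨i, I⟩
  · show bb c (μ - 1) I.card n = if 2 * M - μ + I.card = 2 * M - 1 then c ^ I.card else 0
    have hd' : 2 * M - 1 ≤ 2 * M - μ + I.card := hd
    have hμ := hk.1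
    have hμ' := hk.2.1
    split_ifs with h3
    · have h4 : μ - 1 = I.card := by omega
      rw [h4]
      exact bb_self c _ n h2
    · exact bb_zero c _ _ n h2 (by omega)
  · show (bb c (M - 1) I.card n - if I = ∅ then 1 else 0) =
      if M + I.card = 2 * M - 1 then c ^ I.card else 0
    have hd' : 2 * M - 1 ≤ M + I.card := hd
    have h5 : I ≠ ∅ := by
      rintro rfl
      rw [card_empty] at hd'
      omega
    rw [if_neg h5, Nat.sub_zero]
    split_ifs with h3
    · have h4 : M - 1 = I.card := by omega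
      rw [h4]
      exact bb_self c _ n h2
    · exact bb_zero c _ _ n h2 (by omega)

end TopX

open TopX

/-- The top level: an intersecting family of tensor kinds is independent. -/
theorem top_level {M c n : ℕ} (hM : 2 ≤ M) (hc : 1 ≤ c) (hn : (2 * M - 1) * c ≤ n)
    (s : Multiset Kd) (hs : ∀ k ∈ s, k.Ok M (2 * M - 1) ∧ 2 * M - 1 ≤ dgr M k) (W : ℕ)
    (hW : 1 ≤ W) (hdiv : W.factorial ∣ c) (w : Finset ℕ → ℕ)
    (hsum : ∑ S ∈ (range (2 * M - 1)).powerset, w S = W)
    (hint : ∀ S S', w S ≠ 0 → w S' ≠ 0 → (S ∩ S').Nonempty)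
    (hcnt : ∀ S ∈ (range (2 * M - 1)).powerset,
      (s.filter fun k => dgr M k = 2 * M - 1 ∧ supp M k = S).card * W ≤ w S * c ^ S.card) :
    (gM (LS M (blk c n) (2 * M - 1)) s : ℤ) ≤ vd M c (2 * M - 1) n s := by
  classical
  set s' := s.filter fun k => dgr M k = 2 * M - 1 with hs'
  have hle : s' ≤ s := Multiset.filter_le _ s
  obtain ⟨N, m, hm, hg⟩ : ∃ (N : ℕ) (m : Fin N → Kd), (univ : Finset (Fin N)).val.map m = s' ∧
      (LS M (blk c n) (2 * M - 1)).gd m = gM (LS M (blk c n) (2 * M - 1)) s' :=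
    ⟨_, exists_conf (LS M (blk c n) (2 * M - 1)) s'⟩
  have hmem : ∀ i, m i ∈ s' := by
    intro i
    rw [← hm]
    exact Multiset.mem_map_of_mem m (mem_univ i)
  have hmk : ∀ i, (m i).Ok M (2 * M - 1) ∧ dgr M (m i) = 2 * M - 1 := by
    intro i
    have h1 := Multiset.mem_filter.1 (hmem i)
    exact ⟨(hs _ h1.1).1, h1.2⟩
  let φ := ph (c := c) hn
  have hφ : Function.Injective φ := ph_inj hn
  have hβ : ∀ x, blk c n (φ x) = x.1.1 := ph_blk hn
  have hsur : ∀ t, blk c n t < 2 * M - 1 → ∃ x, φ x = t := ph_surj hc hn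
  let m' : Fin N → Finset (Fin (2 * M - 1)) := fun i => (tF (2 * M - 1) (bI (m i)))ᶜ
  obtain ⟨y, hy⟩ := gd_attained (TSys (Fin (2 * M - 1)) c) m'
  let q : Fin N → Fin n ⊕ Fin n → ℂ := fun i =>
    Sum.elim (Function.extend φ (y i) 0) (Function.extend φ (y i) 0)
  have hq : ∀ i x, Function.extend φ (y i) 0 (φ x) = y i x := fun i x => hφ.extend_apply _ _ _
  -- the comparison
  have h1 : gM (LS M (blk c n) (2 * M - 1)) s ≤ (TSys (Fin (2 * M - 1)) c).gd m' := by
    refine (gM_mono _ hle).trans ?_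
    rw [← hg, ← hy]
    refine (gd_le _ m q).trans ?_
    let K : (LS M (blk c n) (2 * M - 1)).V m q →ₗ[ℂ] (TSys (Fin (2 * M - 1)) c).V m' y :=
      LinearMap.codRestrict _ ((LinearMap.funLeft ℂ ℂ fun e : Fin (2 * M - 1) → Fin c =>
        (⟨xI φ univ e, xI_mem hφ hβ e⟩ : {a // a ∈ Ex (blk c n) (2 * M - 1) (2 * M - 1)})).comp
          (Submodule.subtype _)) (by
        rintro ⟨f, hf⟩
        rw [mem_LSA] at hf
        rw [mem_TSys]
        intro i z
        have hfi := hf i
        have hki := hmk i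
        show ctr (tF (2 * M - 1) (bI (m i)))ᶜ (y i)
          (fun e => f ⟨xI φ univ e, xI_mem hφ hβ e⟩) z = 0
        rcases hk : m i with ⟨μ, I⟩ | ⟨i', I⟩
        · rw [hk] at hfi hki
          have h2 : 2 * M - μ + I.card = 2 * M - 1 := hki.2
          have h3 : 1 ≤ μ ∧ μ ≤ M ∧ I ⊆ range (2 * M - 1) := hki.1
          exact ctr_ord hφ hβ hsur f _ (y i) (hq i) h3.2.2 (by omega) hfi z
        · rw [hk] at hfi hki
          have h2 : M + I.card = 2 * M - 1 := hki.2
          have h3 : i' < 2 * M - 1 ∧ I ⊆ Ico (i' + 1) (2 * M - 1) := hki.1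
          have h4 : i' ∉ I := fun h => by
            have := mem_Ico.1 (h3.2 h)
            omega
          have h5 : I ⊆ range (2 * M - 1) := bI_sub hki.1
          exact ctr_sw hφ hβ hsur f _ _ (y i) (hq i) (hq i) h3.1 h4 h5 (by omega) hM hfi.2 z)
    have hK : Function.Injective K := by
      intro f g hfg
      apply Subtype.ext
      funext a
      obtain ⟨e, he⟩ := xI_surj hφ hβ hsur a.2
      have h2 : (K f).1 e = (K g).1 e := by rw [hfg]
      have h3 : (⟨xI φ univ e, xI_mem hφ hβ e⟩ :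
        {a // a ∈ Ex (blk c n) (2 * M - 1) (2 * M - 1)}) = a := Subtype.ext he
      rw [← h3]
      exact h2
    exact LinearMap.finrank_le_finrank_of_injective hK
  -- the tensor system
  have hmap : ∀ i, (m' i).map Fin.valEmbedding = supp M (m i) := by
    intro i
    rw [supp_eq]
    ext x
    rw [mem_map, mem_sdiff, mem_range]
    constructor
    · rintro ⟨j, hj, rfl⟩
      have h2 := mem_compl.1 hj
      rw [mem_tF] at h2
      exact ⟨j.2, h2⟩
    · rintro ⟨h2, h3⟩
      refine ⟨⟨x, h2⟩, ?_, rfl⟩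
      show _ ∈ (tF (2 * M - 1) (bI (m i)))ᶜ
      rw [mem_compl, mem_tF]
      exact h3
  have h2 := tens_indep (ι := Fin (2 * M - 1)) hW hc hdiv
    (fun S => w (S.map Fin.valEmbedding)) (by
      rw [← hsum]
      refine Finset.sum_bij (fun S _ => S.map Fin.valEmbedding) ?_ ?_ ?_ ?_
      · intro S _
        rw [mem_powerset]
        intro x hx
        obtain ⟨j, _, rfl⟩ := mem_map.1 hx
        exact mem_range.2 j.2
      · intro S _ S' _ h
        exact map_injective _ h
      · intro T hT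
        rw [mem_powerset] at hT
        exact ⟨tF (2 * M - 1) T, mem_univ _, map_tF hT⟩
      · intro S _
        rfl) (by
      intro S S' h3 h4
      left
      obtain ⟨x, hx⟩ := hint _ _ h3 h4
      rw [mem_inter, mem_map, mem_map] at hx
      obtain ⟨⟨j, hj, hj'⟩, ⟨i, hi, hi'⟩⟩ := hx
      have h5 : j = i := Fin.ext (by
        have h6 : j.1 = x := hj'
        have h7 : i.1 = x := hi'
        rw [h6, h7])
      exact ⟨j, mem_inter.2 ⟨hj, h5 ▸ hi⟩⟩) m' (by
      intro S
      have h3 := hcnt (S.map Fin.valEmbedding) (by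
        rw [mem_powerset]
        intro x hx
        obtain ⟨j, _, rfl⟩ := mem_map.1 hx
        exact mem_range.2 j.2)
      rw [card_map] at h3
      refine le_trans (le_of_eq ?_) h3
      congr 1
      have h4 : (s.filter fun k => dgr M k = 2 * M - 1 ∧ supp M k = S.map Fin.valEmbedding) =
          s'.filter fun k => supp M k = S.map Fin.valEmbedding := by
        rw [hs', Multiset.filter_filter]
        exact Multiset.filter_congr fun k _ => and_comm
      rw [h4, ← hm, Multiset.filter_map, Multiset.card_map, ← Finset.filter_val, Finset.card_val]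
      congr 1
      refine filter_congr fun i _ => ?_
      show m' i = S ↔ supp M (m i) = S.map Fin.valEmbedding
      rw [← hmap i]
      exact (map_injective Fin.valEmbedding).eq_iff.symm)
  rw [Fintype.card_fin] at h2
  -- the numbers
  have h3 : ∀ i, c ^ (2 * M - 1 - (m' i).card) = wt M c n (m i) := by
    intro i
    rw [wt_top hM hn (hmk i).1 (hmk i).2.ge, if_pos (hmk i).2]
    congr 1
    have h4 : (m' i).card = 2 * M - 1 - (bI (m i)).card := by
      show ((tF (2 * M - 1) (bI (m i)))ᶜ).card = _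
      rw [card_compl, Fintype.card_fin, card_tF (bI_sub (hmk i).1)]
    have h5 := card_le_card (bI_sub (hmk i).1)
    rw [card_range] at h5
    omega
  have h4 : ∑ i, c ^ (2 * M - 1 - (m' i).card) = (s'.map (wt M c n)).sum := by
    rw [← hm, Multiset.map_map]
    exact sum_congr rfl fun i _ => h3 i
  have h5 : (s.map (wt M c n)).sum = (s'.map (wt M c n)).sum := by
    have h6 : s = s' + s.filter fun k => ¬ dgr M k = 2 * M - 1 :=
      (Multiset.filter_add_not _ s).symm
    have h7 : ((s.filter fun k => ¬ dgr M k = 2 * M - 1).map (wt M c n)).sum = 0 := by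
      refine Multiset.sum_eq_zero fun x hx => ?_
      obtain ⟨k, hk, rfl⟩ := Multiset.mem_map.1 hx
      have h8 := Multiset.mem_filter.1 hk
      have h9 := hs k h8.1
      rw [wt_top hM hn h9.1 h9.2, if_neg h8.2]
    conv_lhs => rw [h6]
    rw [Multiset.map_add, Multiset.sum_add, h7, add_zero]
  unfold vd
  rw [bb_self c (2 * M - 1) n hn, h5]
  rw [h4] at h2
  have h6 : ((gM (LS M (blk c n) (2 * M - 1)) s : ℕ) : ℤ) ≤
      (((TSys (Fin (2 * M - 1)) c).gd m' : ℕ) : ℤ) := by exact_mod_cast h1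
  have h7 : (((TSys (Fin (2 * M - 1)) c).gd m' : ℕ) : ℤ) + ((s'.map (wt M c n)).sum : ℕ) =
      ((c ^ (2 * M - 1) : ℕ) : ℤ) := by exact_mod_cast h2
  linarith

end Pool.Agent.V7

end

section

/-!
# V7, block ALPHA, the chain: the weights on the top level

`R = range (2 M - 1)`, `C = (2 M - 1).choose M`, `B = C + 2 ^ (2 M - 1)`, `W = C B`.  The weights are
`B + 1` for the `M`-subsets of `R` which meet `range j` (there are at most `C - 1` of them), `1` for
the larger subsets `≠ R` of `R`, the rest for `R`.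
-/

set_option autoImplicit false

namespace Pool.Agent.V7

open Finset

private theorem N6.card_filter (M c j l ν : ℕ) (p : Kd → Prop) [DecidablePred p] :
    ((cfg M c j l ν).filter p).card = ∑ k ∈ (kds M l).filter p, nmb M c j l ν k := by
  unfold cfg
  rw [← Multiset.countP_eq_card_filter]
  have h1 : ∀ s : Finset Kd, Multiset.countP p (∑ k ∈ s, Multiset.replicate (nmb M c j l ν k) k) =
      ∑ k ∈ s, if p k then nmb M c j l ν k else 0 := by
    intro s
    induction s using Finset.induction_on with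
    | empty => simp
    | insert a s ha ih =>
      rw [sum_insert ha, sum_insert ha, Multiset.countP_add, ih]
      congr 1
      rw [Multiset.countP_eq_card_filter]
      split_ifs with h
      · rw [Multiset.filter_eq_self.2, Multiset.card_replicate]
        intro b hb
        rw [Multiset.eq_of_mem_replicate hb]
        exact h
      · rw [Multiset.filter_eq_nil.2, Multiset.card_zero]
        intro b hb
        rw [Multiset.eq_of_mem_replicate hb]
        exact h
  rw [h1, sum_filter]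

/-- The kinds of degree `2 M - 1` with a given support. -/
private theorem N6.kinds {M j : ℕ} (hM : 2 ≤ M) (hj : j < M) {S : Finset ℕ}
    (hS : S ⊆ range (2 * M - 1)) {k : Kd} (hk : k ∈ kds M (2 * M - 1)) (hin : k.In M j)
    (hd : dgr M k = 2 * M - 1) (hs : supp M k = S) :
    (k = .ord (2 * M - S.card) (range (2 * M - 1) \ S) ∧ M ≤ S.card ∧ 
      (S.card = M → (S ∩ range j).Nonempty)) ∨
    (S.card = M ∧ ∃ i < j, i ∈ S ∧ k = .sw i (range (2 * M - 1) \ S)) := by
  have hcS : S.card ≤ 2 * M - 1 := by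
    have := card_le_card hS
    rwa [card_range] at this
  rw [mem_kds] at hk
  cases k with
  | ord μ I =>
    obtain ⟨h1, h2, h3⟩ := hk
    have e1 : range (2 * M - 1) \ I = S := hs
    have e2 : range (2 * M - 1) \ S = I := by
      rw [← e1, Finset.sdiff_sdiff_eq_self h3]
    have e3 : 2 * M - μ + I.card = 2 * M - 1 := hd
    have e4 : S.card = 2 * M - 1 - I.card := by
      rw [← e1, card_sdiff_of_subset h3, card_range]
    have e5 : I.card ≤ 2 * M - 1 := by
      have := card_le_card h3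
      rwa [card_range] at this
    left
    rw [e2]
    refine ⟨by
      congr 1
      omega, by omega, fun h4 => ?_⟩
    have e6 : μ = M := by omega
    have e7 : ¬ range j ⊆ I := hin e6
    rw [not_subset] at e7
    obtain ⟨x, hx, hxI⟩ := e7
    refine ⟨x, mem_inter.2 ⟨?_, hx⟩⟩
    rw [← e1, mem_sdiff, mem_range]
    rw [mem_range] at hx
    exact ⟨by omega, hxI⟩
  | sw i I =>
    obtain ⟨h1, h2⟩ := hk
    have h3 : I ⊆ range (2 * M - 1) := fun x hx => by
      have := mem_Ico.1 (h2 hx)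
      rw [mem_range]
      omega
    have e1 : range (2 * M - 1) \ I = S := hs
    have e2 : range (2 * M - 1) \ S = I := by
      rw [← e1, Finset.sdiff_sdiff_eq_self h3]
    have e3 : M + I.card = 2 * M - 1 := hd
    have e4 : S.card = 2 * M - 1 - I.card := by
      rw [← e1, card_sdiff_of_subset h3, card_range]
    have hij : i < j := hin
    right
    refine ⟨by omega, i, hij, ?_, by rw [e2]⟩
    rw [← e1, mem_sdiff, mem_range]
    refine ⟨by omega, fun h4 => ?_⟩
    have := (mem_Ico.1 (h2 h4)).1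
    omega

private theorem N6.nmb_le {M c j ν : ℕ} {k : Kd} (hd : dgr M k = 2 * M - 1) :
    nmb M c j (2 * M - 1) ν k ≤ rho M c k := by
  unfold nmb
  split_ifs
  · rw [hd, Nat.sub_self, Nat.choose_zero_right, mul_one]
  · exact Nat.zero_le _

private theorem N6.sum_le {M j ν : ℕ} (c : ℕ) (S : Finset ℕ) (T : Finset Kd)
    (hT : ∀ k ∈ kds M (2 * M - 1), k.In M j → dgr M k = 2 * M - 1 → supp M k = S → k ∈ T) :
    ∑ k ∈ (kds M (2 * M - 1)).filter (fun k => dgr M k = 2 * M - 1 ∧ supp M k = S),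
      nmb M c j (2 * M - 1) ν k ≤ ∑ k ∈ T, rho M c k := by
  classical
  rw [← sum_filter_ne_zero]
  refine (sum_le_sum fun k hk => ?_).trans
    (sum_le_sum_of_subset (f := fun k => rho M c k) fun k hk => ?_)
  · rw [mem_filter, mem_filter] at hk
    exact N6.nmb_le hk.1.2.1
  · rw [mem_filter, mem_filter] at hk
    have hin : k ∈ kds M (2 * M - 1) ∧ k.In M j ∧ 2 * M - 1 ≤ dgr M k := by
      by_contra h2
      exact hk.2 (if_neg h2)
    exact hT k hk.1.1 hin.2.1 hk.1.2.1 hk.1.2.2

theorem top_weights (M j : ℕ) (hM : 2 ≤ M) (hj : j < M) : ∃ (W c₀ : ℕ) (w : Finset ℕ → ℕ),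
    1 ≤ W ∧ ∑ S ∈ (range (2 * M - 1)).powerset, w S = W ∧
    (∀ S S', w S ≠ 0 → w S' ≠ 0 → (S ∩ S').Nonempty) ∧
    ∀ c, c₀ ≤ c → (2 * M - 1).choose M ∣ c → ∀ ν, ∀ S ∈ (range (2 * M - 1)).powerset,
      ((cfg M c j (2 * M - 1) ν).filter fun k => dgr M k = 2 * M - 1 ∧ supp M k = S).card * W ≤
        w S * c ^ S.card := by
  classical
  set R := range (2 * M - 1) with hR
  set C := (2 * M - 1).choose M with hC
  set B := C + 2 ^ (2 * M - 1) with hB
  have hCpos : 1 ≤ C := Nat.choose_pos (by omega)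
  have hBpos : 1 ≤ B := hCpos.trans (Nat.le_add_right _ _)
  have hRc : R.card = 2 * M - 1 := card_range _
  -- the weights off `R`
  set w' : Finset ℕ → ℕ := fun S => if S.card = M ∧ (S ∩ range j).Nonempty then B + 1 else
    if M < S.card then 1 else 0 with hw'
  set rest := ∑ S ∈ R.powerset.erase R, w' S with hrest
  have hbound : rest + 1 ≤ C * B := by
    have h1 : rest ≤ ∑ S ∈ R.powerset.erase R,
        ((if S.card = M ∧ (S ∩ range j).Nonempty then B + 1 else 0) + 1) := by
      rw [hrest]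
      refine sum_le_sum fun S _ => ?_
      simp only [hw']
      split_ifs <;> omega
    rw [sum_add_distrib, sum_const, smul_eq_mul, mul_one, card_erase_of_mem (mem_powerset_self R),
      card_powerset, hRc] at h1
    have h2 : ∑ S ∈ R.powerset.erase R,
        (if S.card = M ∧ (S ∩ range j).Nonempty then B + 1 else 0) ≤ (C - 1) * (B + 1) := by
      rw [← sum_filter, sum_const, smul_eq_mul]
      refine Nat.mul_le_mul_right _ ?_
      have h3 : (R.powerset.erase R).filter (fun S => S.card = M ∧ (S ∩ range j).Nonempty) ⊆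
          (powersetCard M R).erase (Ico (M - 1) (2 * M - 1)) := by
        intro S hS
        rw [mem_filter, mem_erase, mem_powerset] at hS
        rw [mem_erase, mem_powersetCard]
        refine ⟨?_, hS.1.2, hS.2.1⟩
        rintro rfl
        obtain ⟨x, hx⟩ := hS.2.2
        rw [mem_inter, mem_Ico, mem_range] at hx
        omega
      have h4 := card_le_card h3
      rw [card_erase_of_mem, card_powersetCard, hRc] at h4
      · exact h4
      · rw [mem_powersetCard, Nat.card_Ico]
        refine ⟨fun x hx => ?_, by omega⟩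
        rw [mem_Ico] at hx
        rw [hR, mem_range]
        exact hx.2
    have h5 : 1 ≤ 2 ^ (2 * M - 1) := Nat.one_le_two_pow
    obtain ⟨C', hC'⟩ : ∃ C', C = C' + 1 := ⟨C - 1, by omega⟩
    have h6 : (C - 1) * (B + 1) + B = C * B + (C - 1) := by
      rw [hC']
      simp only [Nat.add_sub_cancel]
      ring
    omega
  -- the weights
  set w : Finset ℕ → ℕ := fun S => if S ⊆ R then (if S = R then C * B - rest else w' S) else 0
    with hw
  refine ⟨C * B, C * B + C * (3 * M) * B, w, Nat.mul_pos hCpos hBpos, ?_, ?_, ?_⟩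
  · rw [← add_sum_erase _ _ (mem_powerset_self R)]
    have h1 : ∑ S ∈ R.powerset.erase R, w S = rest := by
      rw [hrest]
      refine sum_congr rfl fun S hS => ?_
      rw [mem_erase, mem_powerset] at hS
      simp only [hw]
      rw [if_pos hS.2, if_neg hS.1]
    rw [h1]
    have h2 : w R = C * B - rest := by
      simp only [hw]
      rw [if_pos (Subset.refl R), if_pos trivial]
    rw [h2]
    omega
  · have hne : ∀ S, w S ≠ 0 → S ⊆ R ∧ M ≤ S.card := by
      intro S hS
      simp only [hw] at hS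
      by_cases h1 : S ⊆ R
      · refine ⟨h1, ?_⟩
        rw [if_pos h1] at hS
        by_cases h2 : S = R
        · rw [h2, hRc]
          omega
        · rw [if_neg h2] at hS
          simp only [hw'] at hS
          split_ifs at hS with h3 h4
          · exact h3.1.ge
          · exact h4.le
          · exact absurd rfl hS
      · rw [if_neg h1] at hS
        exact absurd rfl hS
    intro S S' hS hS'
    obtain ⟨h1, h2⟩ := hne S hS
    obtain ⟨h3, h4⟩ := hne S' hS'
    have h5 := card_union_add_card_inter S S'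
    have h6 := card_le_card (union_subset h1 h3)
    rw [hRc] at h6
    rw [← card_pos]
    omega
  · intro c hc _ ν S hS
    rw [mem_powerset] at hS
    have hcpos : 1 ≤ c := by
      have : 1 ≤ C * B := Nat.mul_pos hCpos hBpos
      omega
    rw [N6.card_filter]
    -- the weight of `S`
    have hwS : M < S.card → 1 ≤ w S := by
      intro h1
      simp only [hw]
      rw [if_pos hS]
      split_ifs with h2
      · omega
      · simp only [hw']
        split_ifs
        · omega
        · exact le_rfl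
    rcases Nat.lt_trichotomy S.card M with h1 | h1 | h1
    · have h2 := N6.sum_le (M := M) (j := j) (ν := ν) c S ∅ (by
        intro k hk hin hd hs
        rcases N6.kinds hM hj hS hk hin hd hs with h2 | h2
        · omega
        · omega)
      rw [sum_empty, Nat.le_zero] at h2
      rw [h2, zero_mul]
      exact Nat.zero_le _
    · by_cases hmeet : (S ∩ range j).Nonempty
      · have hSR : S ≠ R := by
          intro h2
          rw [h2, hRc] at h1
          omega
        have e1 : w S = B + 1 := by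
          simp only [hw, hw']
          rw [if_pos hS, if_neg hSR, if_pos ⟨h1, hmeet⟩]
        have e2 := N6.sum_le (M := M) (j := j) (ν := ν) c S
          (insert (Kd.ord M (R \ S)) ((range j).image fun i => Kd.sw i (R \ S))) (by
            intro k hk hin hd hs
            rcases N6.kinds hM hj hS hk hin hd hs with ⟨h2, -, -⟩ | ⟨-, i, hi, -, h2⟩
            · rw [h2, mem_insert]
              left
              congr 1
              omega
            · rw [h2, mem_insert, mem_image]
              exact Or.inr ⟨i, mem_range.2 hi, rfl⟩)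
        have e3 : ∑ k ∈ insert (Kd.ord M (R \ S)) ((range j).image fun i => Kd.sw i (R \ S)),
            rho M c k ≤ c ^ M / C + c ^ (M - 1) + j * (3 * c ^ (M - 1)) := by
          rw [sum_insert]
          · refine add_le_add ?_ ?_
            · show (if M = M then c ^ M / C + c ^ (M - 1) else 1) ≤ _
              rw [if_pos rfl]
            · refine (sum_le_card_nsmul _ _ (3 * c ^ (M - 1)) ?_).trans ?_
              · intro k hk
                rw [mem_image] at hk
                obtain ⟨i, -, rfl⟩ := hk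
                exact le_rfl
              · rw [smul_eq_mul]
                refine Nat.mul_le_mul_right _ (card_image_le.trans ?_)
                rw [card_range]
          · intro h2
            rw [mem_image] at h2
            obtain ⟨i, -, h3⟩ := h2
            cases h3
        rw [e1, h1]
        have e4 : c ^ M = c * c ^ (M - 1) := by
          rw [← pow_succ']
          congr 1
          omega
        have e5 : c ^ M / C * C ≤ c ^ M := Nat.div_mul_le_self _ _
        have e6 : C * (3 * M) * B ≤ c := by omega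
        have e7 : (c ^ M / C + c ^ (M - 1) + j * (3 * c ^ (M - 1))) * (C * B) ≤
            (B + 1) * c ^ M := by
          have e8 : (c ^ M / C + c ^ (M - 1) + j * (3 * c ^ (M - 1))) * (C * B) =
              (c ^ M / C * C) * B + ((1 + 3 * j) * C * B) * c ^ (M - 1) := by ring
          have e9 : ((1 + 3 * j) * C * B) ≤ c := by
            refine le_trans ?_ e6
            have : (1 + 3 * j) ≤ 3 * M := by omega
            calc (1 + 3 * j) * C * B ≤ (3 * M) * C * B :=
                  Nat.mul_le_mul_right _ (Nat.mul_le_mul_right _ this)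
              _ = C * (3 * M) * B := by ring
          rw [e8]
          calc (c ^ M / C * C) * B + ((1 + 3 * j) * C * B) * c ^ (M - 1) ≤
              c ^ M * B + c * c ^ (M - 1) :=
                add_le_add (Nat.mul_le_mul_right _ e5) (Nat.mul_le_mul_right _ e9)
            _ = (B + 1) * c ^ M := by
                rw [← e4]
                ring
        exact (Nat.mul_le_mul_right _ (e2.trans e3)).trans e7
      · have h2 := N6.sum_le (M := M) (j := j) (ν := ν) c S ∅ (by
          intro k hk hin hd hs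
          rcases N6.kinds hM hj hS hk hin hd hs with ⟨-, -, h2⟩ | ⟨-, i, hi, hiS, -⟩
          · exact absurd (h2 h1) hmeet
          · exact absurd ⟨i, mem_inter.2 ⟨hiS, mem_range.2 hi⟩⟩ hmeet)
        rw [sum_empty, Nat.le_zero] at h2
        rw [h2, zero_mul]
        exact Nat.zero_le _
    · have h2 := N6.sum_le (M := M) (j := j) (ν := ν) c S {Kd.ord (2 * M - S.card) (R \ S)} (by
        intro k hk hin hd hs
        rcases N6.kinds hM hj hS hk hin hd hs with ⟨h2, -, -⟩ | ⟨h2, -⟩
        · rw [mem_singleton]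
          exact h2
        · omega)
      rw [sum_singleton] at h2
      have h3 : rho M c (Kd.ord (2 * M - S.card) (R \ S)) = 1 := by
        show (if 2 * M - S.card = M then c ^ M / C + c ^ (M - 1) else 1) = 1
        rw [if_neg (by omega)]
      rw [h3] at h2
      have h4 : C * B ≤ c := by omega
      have h5 : c ≤ c ^ S.card := by
        calc c = c ^ 1 := (pow_one c).symm
          _ ≤ c ^ S.card := Nat.pow_le_pow_right hcpos (by omega)
      calc (∑ k ∈ (kds M (2 * M - 1)).filter (fun k => dgr M k = 2 * M - 1 ∧ supp M k = S),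
            nmb M c j (2 * M - 1) ν k) * (C * B) ≤ 1 * (C * B) := Nat.mul_le_mul_right _ h2
        _ ≤ 1 * c ^ S.card := Nat.mul_le_mul_left _ (h4.trans h5)
        _ ≤ w S * c ^ S.card := Nat.mul_le_mul_right _ (hwS h1)

end Pool.Agent.V7

end
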