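import Pool.Agent.H94.LP5.M41
import Pool.Agent.H94.LP5.M42
import Pool.Agent.H94.LP5.M50
import Pool.Agent.H94.LP5.M52
import Pool.Agent.H94.LP5.M55

/-! The parts of this file: V7.AL.Base, V7.AL.Chain. -/

section

/-!
# V7, block ALPHA, module Base: exactness on the levels up to `2 M - 2` with room

If the virtual dimension exceeds `dz + |kds| B²` (`B` a bound of the weights of the kinds which occur)
then the configuration is independent: every further point imposes `size = wt` conditions, by the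
window lemma and the span property.
-/

set_option autoImplicit false

namespace Pool.Agent.V7

open Finset MvPolynomial Pool.Agent.H51.TB Pool.Agent.V7.ST

/-- **Exactness with room** on the canonical variables. -/
theorem base_exact {M c l n : ℕ} (hM : 2 ≤ M) (hc : 1 ≤ c) (hn : (l + 1) * c ≤ n) (s : Multiset Kd)
    (hs : ∀ k ∈ s, k.Ok M l ∧ l ≤ dgr M k) (B : ℕ) (hB : ∀ k ∈ s, wt M c n k ≤ B)
    (hroom : ((dz M c l n + (kds M l).card * B * B : ℕ) : ℤ) < vd M c l n s) :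
    (gM (LS M (blk c n) l) s : ℤ) ≤ vd M c l n s := by
  have hln : l * c < n := by nlinarith
  have hsz : ∀ k ∈ s, (LS M (blk c n) l).size k = wt M c n k := fun k hk =>
    le_antisymm (size_blk (by omega) (by omega) hln (hs k hk).1)
      (wt_le_size_blk hM hc hln (hs k hk).1 (hs k hk).2)
  have hmap : s.map (LS M (blk c n) l).size = s.map (wt M c n) := Multiset.map_congr rfl hsz
  have hE : Fintype.card (Ex (blk c n) (2 * M - 1) l) = bb c (2 * M - 1) l n :=
    (Fintype.card_coe _).trans (card_Ex_blk (by omega) hln.le _)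
  have hKc : s.toFinset.card ≤ (kds M l).card :=
    card_le_card fun k hk => mem_kds.2 (hs k (Multiset.mem_toFinset.1 hk)).1
  have hKB : s.toFinset.card * B * B ≤ (kds M l).card * B * B :=
    Nat.mul_le_mul_right _ (Nat.mul_le_mul_right _ hKc)
  unfold vd at hroom ⊢
  have h := base_abs (LS M (blk c n) l) (spanP_blk M c l n) s.toFinset
    (fun k hk => (hs k (Multiset.mem_toFinset.1 hk)).1) B
    (fun k hk => by
      rw [hsz k (Multiset.mem_toFinset.1 hk)]
      exact hB k (Multiset.mem_toFinset.1 hk)) s (fun k hk => Multiset.mem_toFinset.2 hk)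
    (by
      rw [hmap, hE]
      have h1 : ((dz M c l n + (kds M l).card * B * B + (s.map (wt M c n)).sum : ℕ) : ℤ) <
          (bb c (2 * M - 1) l n : ℕ) := by
        push_cast at hroom ⊢
        linarith
      have h2 : dz M c l n + (kds M l).card * B * B + (s.map (wt M c n)).sum <
          bb c (2 * M - 1) l n := by exact_mod_cast h1
      omega)
  rw [hmap, hE] at h
  have h3 : ((gM (LS M (blk c n) l) s + (s.map (wt M c n)).sum : ℕ) : ℤ) =
      (bb c (2 * M - 1) l n : ℕ) := by exact_mod_cast h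
  push_cast at h3 ⊢
  linarith

end Pool.Agent.V7

end

section

/-!
# V7, block ALPHA: the chain

For `c` large and divisible by a constant, the configurations of the chain impose independent
conditions on all levels `j, …, 2M-1` for all `ν ≥ K`: at `ν = K` by the window lemma
(`base_exact`), on the level `2M-1` by the tensor lemma (`top_level`), in general by the trace
inequality `gM_tr` and induction over `ν` and the level.  The configurations in the class `Cls0` are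
contained in those of the chain.
-/

set_option autoImplicit false

namespace Pool.Agent.V7

open Finset Pool.Agent.H51.TB Pool.Agent.V7.ST

/-- The virtual dimensions of the chain grow. -/
theorem chain_low (M j : ℕ) (hM : 2 ≤ M) (hj : j < M) : ∀ i, i + j + 1 ≤ 2 * M →
    ∃ δ : ℝ, 0 < δ ∧ ∃ K c₀ : ℕ, ∀ c, c₀ ≤ c → 1 ≤ c → (2 * M - 1).choose M ∣ c → ∀ r < c,
      ∀ ν, K ≤ ν → δ * (c : ℝ) ^ (2 * M - 1) * (ν : ℝ) ^ i ≤
        ((vd M c (2 * M - 1 - i) (c * ν + r) (cfg M c j (2 * M - 1 - i) ν) : ℤ) : ℝ) := by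
  intro i
  induction i with
  | zero =>
    intro _
    obtain ⟨c₀, h⟩ := top_low M j hM hj
    have hC : 0 < (2 * M - 1).choose M := Nat.choose_pos (by omega)
    have hC' : (0 : ℝ) < ((2 * M - 1).choose M : ℝ) := by exact_mod_cast hC
    refine ⟨1 / (2 * ((2 * M - 1).choose M : ℝ)), by positivity, 2 * M, c₀, ?_⟩
    intro c hc hc1 hdiv r hr ν hν
    have h1 := h c hc hdiv (c * ν + r) ν (by
      have h2 : (2 * M - 1) * c ≤ ν * c := Nat.mul_le_mul_right c (by omega)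
      have h3 : ν * c = c * ν := mul_comm _ _
      omega)
    have h2 : ((c : ℝ) ^ (2 * M - 1)) ≤ 2 * ((2 * M - 1).choose M : ℝ) *
        ((vd M c (2 * M - 1) (c * ν + r) (cfg M c j (2 * M - 1) ν) : ℤ) : ℝ) := by
      exact_mod_cast h1
    rw [Nat.sub_zero, pow_zero, mul_one, one_div, inv_mul_le_iff₀ (by positivity)]
    exact h2
  | succ i ih =>
    intro hi
    obtain ⟨δ, hδ, K, c₀, h⟩ := ih (by omega)
    set l := 2 * M - 1 - (i + 1) with hl
    have hl1 : 2 * M - 1 - i = l + 1 := by omega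
    rw [hl1] at h
    set K' := max K (2 * M) with hK'
    have hKK' : K ≤ K' := le_max_left _ _
    have hMK' : 2 * M ≤ K' := le_max_right _ _
    obtain ⟨B, hB⟩ : ∃ B : ℕ, B = (kds M l).card * (3 * 2 ^ K') * (K' + 1 + M) ^ (M - 1) :=
      ⟨_, rfl⟩
    obtain ⟨Q, hQ⟩ := exists_nat_ge (2 * (B : ℝ) / δ)
    refine ⟨δ / (2 * 4 ^ (i + 1)), by positivity, 2 * K' + 2 + 4 * (Q + 1), c₀, ?_⟩
    intro c hc hc1 hdiv r hr ν hν
    have hcp : (0 : ℝ) < (c : ℝ) := by exact_mod_cast hc1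
    have h1 := growth
      (fun ν => ((vd M c l (c * ν + r) (cfg M c j l ν) : ℤ) : ℝ))
      (fun ν => ((vd M c (l + 1) (c * ν + r) (cfg M c j (l + 1) ν) : ℤ) : ℝ)) K' i
      (δ * (c : ℝ) ^ (2 * M - 1)) (B * (c : ℝ) ^ (2 * M - 1)) (by positivity) ?_ ?_ ?_ ν (by omega)
    · refine le_trans ?_ h1
      have h2 : (1 : ℝ) ≤ (ν : ℝ) / 4 := by
        rw [le_div_iff₀ (by norm_num)]
        exact_mod_cast (by omega : 1 * 4 ≤ ν)
      have h3 : 2 * (B : ℝ) / δ ≤ (ν : ℝ) / 4 := by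
        refine hQ.trans ?_
        rw [le_div_iff₀ (by norm_num)]
        exact_mod_cast (by omega : Q * 4 ≤ ν)
      have h4 : (ν : ℝ) / 4 ≤ ((ν : ℝ) / 4) ^ (i + 1) := le_self_pow₀ h2 (by omega)
      have h5 : (B : ℝ) ≤ δ / 2 * ((ν : ℝ) / 4) ^ (i + 1) := by
        have h6 := h3.trans h4
        rw [div_le_iff₀ hδ] at h6
        linarith only [h6]
      have h6 : (0 : ℝ) < (c : ℝ) ^ (2 * M - 1) := by positivity
      have h7 := mul_le_mul_of_nonneg_left h5 h6.le
      have h8 : δ / (2 * 4 ^ (i + 1)) * (c : ℝ) ^ (2 * M - 1) * (ν : ℝ) ^ (i + 1) =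
          (c : ℝ) ^ (2 * M - 1) * (δ / 2 * ((ν : ℝ) / 4) ^ (i + 1)) := by
        rw [div_pow]
        field_simp
      rw [h8]
      have h9 : δ * (c : ℝ) ^ (2 * M - 1) * ((ν : ℝ) / 4) ^ (i + 1) =
          2 * ((c : ℝ) ^ (2 * M - 1) * (δ / 2 * ((ν : ℝ) / 4) ^ (i + 1))) := by ring
      rw [h9]
      linarith only [h7]
    · intro ν' hν'
      have h2 : (l + 1) * c + 1 ≤ c * (ν' + 1) + r := by
        have h3 : (l + 2) * c ≤ (ν' + 1) * c := Nat.mul_le_mul_right c (by omega)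
        have h4 : (l + 2) * c = (l + 1) * c + c := by ring
        have h5 : (ν' + 1) * c = c * (ν' + 1) := mul_comm _ _
        omega
      have h3 := vd_chain (M := M) (j := j) (l := l) (ν := ν') (by omega) (by omega) (by omega) h2
      have h4 : c * (ν' + 1) + r - c = c * ν' + r := by
        rw [mul_add, mul_one]
        omega
      rw [h4] at h3
      show ((vd M c l (c * (ν' + 1) + r) (cfg M c j l (ν' + 1)) : ℤ) : ℝ) =
        ((vd M c l (c * ν' + r) (cfg M c j l ν') : ℤ) : ℝ) +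
          ((vd M c (l + 1) (c * (ν' + 1) + r) (cfg M c j (l + 1) (ν' + 1)) : ℤ) : ℝ)
      rw [h3]
      push_cast
      ring
    · intro ν' hν'
      exact h c hc hc1 hdiv r hr ν' (hKK'.trans hν')
    · have h2 := vd_low (M := M) (c := c) (j := j) (l := l) (ν := K') (n := c * K' + r) (by omega)
        hc1 (by
          rw [mul_add, mul_one]
          omega)
      rw [← hB] at h2
      have h3 : ((-((B * c ^ (2 * M - 1) : ℕ) : ℤ) : ℤ) : ℝ) ≤
          ((vd M c l (c * K' + r) (cfg M c j l K') : ℤ) : ℝ) := by exact_mod_cast h2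
      push_cast at h3
      exact h3

/-- Uniform choice of the constants. -/
theorem unif (P : ℕ → ℕ → ℕ → Prop) (N : ℕ)
    (h : ∀ i < N, ∃ K₀, ∀ K, K₀ ≤ K → ∃ c₀, ∀ c, c₀ ≤ c → P i K c) :
    ∃ K₀, ∀ K, K₀ ≤ K → ∃ c₀, ∀ c, c₀ ≤ c → ∀ i < N, P i K c := by
  induction N with
  | zero => exact ⟨0, fun K _ => ⟨0, fun c _ i hi => absurd hi (Nat.not_lt_zero i)⟩⟩
  | succ N ih =>
    obtain ⟨K₁, h1⟩ := ih fun i hi => h i (by omega)
    obtain ⟨K₂, h2⟩ := h N (by omega)
    refine ⟨max K₁ K₂, fun K hK => ?_⟩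
    obtain ⟨c₁, h3⟩ := h1 K ((le_max_left _ _).trans hK)
    obtain ⟨c₂, h4⟩ := h2 K ((le_max_right _ _).trans hK)
    refine ⟨max c₁ c₂, fun c hc i hi => ?_⟩
    rcases Nat.lt_succ_iff_lt_or_eq.1 hi with h5 | h5
    · exact h3 c ((le_max_left _ _).trans hc) i h5
    · rw [h5]
      exact h4 c ((le_max_right _ _).trans hc)

/-- There is room for the window lemma. -/
theorem chain_room (M j : ℕ) (hM : 2 ≤ M) (hj : j < M) (i : ℕ) (hi : i + 1 + j + 1 ≤ 2 * M) :
    ∃ K₀, ∀ K, K₀ ≤ K → ∃ c₀, ∀ c, c₀ ≤ c → 1 ≤ c → (2 * M - 1).choose M ∣ c → ∀ r < c,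
      ((dz M c (2 * M - 1 - (i + 1)) (c * K + r) + (kds M (2 * M - 1 - (i + 1))).card *
        ((K + 1 + M) ^ (M - 1) * c ^ (M - 1)) * ((K + 1 + M) ^ (M - 1) * c ^ (M - 1)) : ℕ) : ℤ) <
        vd M c (2 * M - 1 - (i + 1)) (c * K + r) (cfg M c j (2 * M - 1 - (i + 1)) K) := by
  obtain ⟨δ, hδ, K₁, c₁, h⟩ := chain_low M j hM hj (i + 1) (by omega)
  set l := 2 * M - 1 - (i + 1) with hl
  obtain ⟨Q, hQ⟩ := exists_nat_gt (4 * (M : ℝ) * 2 ^ i / δ)
  refine ⟨K₁ + Q + 1, fun K hK => ?_⟩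
  obtain ⟨D, hD⟩ : ∃ D : ℕ, D = (kds M l).card * (K + 1 + M) ^ (M - 1) * (K + 1 + M) ^ (M - 1) :=
    ⟨_, rfl⟩
  obtain ⟨Q', hQ'⟩ := exists_nat_gt (2 * (D : ℝ) / δ)
  refine ⟨c₁ + Q' + 1, fun c hc hc1 hdiv r hr => ?_⟩
  have h1 := h c (by omega) hc1 hdiv r hr K (by omega)
  have hcp : (0 : ℝ) < (c : ℝ) := by exact_mod_cast hc1
  have hKp : (1 : ℝ) ≤ (K : ℝ) := by exact_mod_cast (by omega : 1 ≤ K)
  have hcpow : (0 : ℝ) < (c : ℝ) ^ (2 * M - 1) := by positivity
  -- the number `dz`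
  have h2 := dz_le M c l (c * K + r) hc1 (by omega)
  have e1 : 2 * M - 2 - l = i := by omega
  rw [e1] at h2
  have h3 : dz M c l (c * K + r) ≤ 2 * M * 2 ^ i * (c ^ (2 * M - 1) * K ^ i) := by
    refine h2.trans ?_
    have h4 : c * K + r ≤ 2 * (c * K) := by
      have h5 : c * 1 ≤ c * K := Nat.mul_le_mul_left c (by omega)
      omega
    calc c ^ l * (l * c) * (c * K + r) ^ i ≤ c ^ l * (2 * M * c) * (2 * (c * K)) ^ i :=
          Nat.mul_le_mul (Nat.mul_le_mul_left _ (Nat.mul_le_mul_right c (by omega)))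
            (Nat.pow_le_pow_left h4 i)
      _ = 2 * M * 2 ^ i * ((c ^ l * c * c ^ i) * K ^ i) := by
          rw [mul_pow, mul_pow]
          ring
      _ = 2 * M * 2 ^ i * (c ^ (2 * M - 1) * K ^ i) := by
          rw [← pow_succ, ← pow_add]
          congr 4
          omega
  have h4 : (dz M c l (c * K + r) : ℝ) ≤ 2 * M * 2 ^ i * ((c : ℝ) ^ (2 * M - 1) * (K : ℝ) ^ i) := by
    exact_mod_cast h3
  have h5 : 2 * (M : ℝ) * 2 ^ i < δ / 2 * K := by
    have h6 : 4 * (M : ℝ) * 2 ^ i / δ < K := hQ.trans_le (by exact_mod_cast (by omega : Q ≤ K))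
    rw [div_lt_iff₀ hδ] at h6
    linarith only [h6]
  have hKi : (0 : ℝ) < (K : ℝ) ^ i := by positivity
  have h6 : (dz M c l (c * K + r) : ℝ) < δ / 2 * (c : ℝ) ^ (2 * M - 1) * (K : ℝ) ^ (i + 1) := by
    refine h4.trans_lt ?_
    have h7 := mul_lt_mul_of_pos_right h5 (mul_pos hcpow hKi)
    calc _ < δ / 2 * K * ((c : ℝ) ^ (2 * M - 1) * (K : ℝ) ^ i) := h7
      _ = _ := by ring
  -- the window
  have h7 : (kds M l).card * ((K + 1 + M) ^ (M - 1) * c ^ (M - 1)) *
      ((K + 1 + M) ^ (M - 1) * c ^ (M - 1)) = D * c ^ (2 * M - 2) := by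
    have h8 : c ^ (2 * M - 2) = c ^ (M - 1) * c ^ (M - 1) := by
      rw [← pow_add]
      congr 1
      omega
    rw [h8, hD]
    ring
  have h8 : (D : ℝ) * (c : ℝ) ^ (2 * M - 2) ≤ δ / 2 * (c : ℝ) ^ (2 * M - 1) * (K : ℝ) ^ (i + 1) := by
    have h9 : 2 * (D : ℝ) / δ < c := hQ'.trans_le (by exact_mod_cast (by omega : Q' ≤ c))
    rw [div_lt_iff₀ hδ] at h9
    have h10 : (c : ℝ) ^ (2 * M - 1) = c * (c : ℝ) ^ (2 * M - 2) := by
      rw [← pow_succ']
      congr 1
      omega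
    have h11 : (1 : ℝ) ≤ (K : ℝ) ^ (i + 1) := one_le_pow₀ hKp
    have h12 : (0 : ℝ) < (c : ℝ) ^ (2 * M - 2) := by positivity
    calc (D : ℝ) * (c : ℝ) ^ (2 * M - 2) ≤ (δ / 2 * c) * (c : ℝ) ^ (2 * M - 2) :=
          mul_le_mul_of_nonneg_right (by linarith only [h9]) h12.le
      _ = δ / 2 * (c : ℝ) ^ (2 * M - 1) * 1 := by
          rw [h10]
          ring
      _ ≤ _ := mul_le_mul_of_nonneg_left h11 (by positivity)
  rw [h7]
  have h9 : (((dz M c l (c * K + r) + D * c ^ (2 * M - 2) : ℕ) : ℤ) : ℝ) <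
      ((vd M c l (c * K + r) (cfg M c j l K) : ℤ) : ℝ) := by
    push_cast
    calc (dz M c l (c * K + r) : ℝ) + D * (c : ℝ) ^ (2 * M - 2) <
        δ / 2 * (c : ℝ) ^ (2 * M - 1) * (K : ℝ) ^ (i + 1) +
          δ / 2 * (c : ℝ) ^ (2 * M - 1) * (K : ℝ) ^ (i + 1) := by linarith only [h6, h8]
      _ = δ * (c : ℝ) ^ (2 * M - 1) * (K : ℝ) ^ (i + 1) := by ring
      _ ≤ _ := h1
  exact_mod_cast h9

/-- Fewer points. -/
theorem gM_le_wt {M c l n : ℕ} (hM : 1 ≤ M) (hc : 1 ≤ c) (hn : (l + 1) * c ≤ n) (s : Multiset Kd) :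
    ∀ u : Multiset Kd, (∀ k ∈ u, k.Ok M l) →
      gM (LS M (blk c n) l) s ≤ gM (LS M (blk c n) l) (u + s) + (u.map (wt M c n)).sum := by
  intro u
  induction u using Multiset.induction_on with
  | empty =>
    intro _
    rw [zero_add, Multiset.map_zero, Multiset.sum_zero, add_zero]
  | cons k u ih =>
    intro hu
    have h1 := ih fun k' hk' => hu k' (Multiset.mem_cons_of_mem hk')
    have h2 := gM_le_cons (LS M (blk c n) l) (u + s) k
    have h3 : (LS M (blk c n) l).size k ≤ wt M c n k := by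
      refine size_blk hM (by omega) ?_ (hu k (Multiset.mem_cons_self k u))
      have h4 : (l + 1) * c = l * c + c := by ring
      omega
    rw [Multiset.cons_add, Multiset.map_cons, Multiset.sum_cons]
    omega

/-- The chain. -/
theorem chain (M j : ℕ) (hM : 2 ≤ M) (hj : j < M) : ∃ c₀ L : ℕ, 1 ≤ L ∧ ∀ c, c₀ ≤ c → L ∣ c →
    ∃ K, ∀ r < c, ∀ ν, K ≤ ν → ∀ i, i + j + 1 ≤ 2 * M →
      (gM (LS M (blk c (c * ν + r)) (2 * M - 1 - i)) (cfg M c j (2 * M - 1 - i) ν) : ℤ) ≤
        vd M c (2 * M - 1 - i) (c * ν + r) (cfg M c j (2 * M - 1 - i) ν) := by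
  obtain ⟨K₀, hK₀⟩ := unif (fun i K c => 1 ≤ c → (2 * M - 1).choose M ∣ c → ∀ r < c,
      ((dz M c (2 * M - 1 - (i + 1)) (c * K + r) + (kds M (2 * M - 1 - (i + 1))).card *
        ((K + 1 + M) ^ (M - 1) * c ^ (M - 1)) * ((K + 1 + M) ^ (M - 1) * c ^ (M - 1)) : ℕ) : ℤ) <
        vd M c (2 * M - 1 - (i + 1)) (c * K + r) (cfg M c j (2 * M - 1 - (i + 1)) K))
    (2 * M - 1 - j) fun i hi => chain_room M j hM hj i (by omega)
  set K := max K₀ (2 * M) with hK
  obtain ⟨c₁, hc₁⟩ := hK₀ K (le_max_left _ _)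
  have hMK : 2 * M ≤ K := le_max_right _ _
  obtain ⟨W, c₂, w, hW, hsum, hint, hcnt⟩ := top_weights M j hM hj
  have hC : 1 ≤ (2 * M - 1).choose M := Nat.choose_pos (by omega)
  refine ⟨c₁ + c₂ + 1, W.factorial * (2 * M - 1).choose M,
    Nat.mul_pos (Nat.factorial_pos W) hC, fun c hc hdiv => ⟨K, ?_⟩⟩
  intro r hr
  have hc1 : 1 ≤ c := by omega
  have hdW : W.factorial ∣ c := (Dvd.intro _ rfl).trans hdiv
  have hdC : (2 * M - 1).choose M ∣ c := (Dvd.intro_left _ rfl).trans hdiv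
  -- the top level
  have htop : ∀ ν, K ≤ ν → (gM (LS M (blk c (c * ν + r)) (2 * M - 1))
      (cfg M c j (2 * M - 1) ν) : ℤ) ≤ vd M c (2 * M - 1) (c * ν + r) (cfg M c j (2 * M - 1) ν) := by
    intro ν hν
    refine top_level hM hc1 ?_ _ (fun k hk => ⟨(mem_cfg hk).1, (mem_cfg hk).2.2⟩) W hW hdW w hsum
      hint fun S hS => hcnt c (by omega) hdC ν S hS
    have h2 : (2 * M - 1) * c ≤ ν * c := Nat.mul_le_mul_right c (by omega)
    have h3 : ν * c = c * ν := mul_comm _ _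
    omega
  intro ν hν
  induction ν, hν using Nat.le_induction with
  | base =>
    intro i hi
    rcases i with _ | i
    · exact htop K le_rfl
    · have hlr : (2 * M - 1 - (i + 1) + 1) * c ≤ c * K + r := by
        have h2 : (2 * M - 1 - (i + 1) + 1) * c ≤ K * c := Nat.mul_le_mul_right c (by omega)
        have h3 : K * c = c * K := mul_comm _ _
        omega
      refine base_exact hM hc1 hlr _ (fun k hk => ⟨(mem_cfg hk).1, (mem_cfg hk).2.2⟩)
        ((K + 1 + M) ^ (M - 1) * c ^ (M - 1)) (fun k hk => ?_)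
        (hc₁ c (by omega) i (by omega) hc1 hdC r hr)
      refine wt_le (by omega) hc1 ?_ (mem_cfg hk).1
      rw [mul_add, mul_one]
      omega
  | succ ν hν ih =>
    intro i
    induction i with
    | zero => exact fun _ => htop (ν + 1) (by omega)
    | succ i ihi =>
      intro hi
      have h1 := ih (i + 1) hi
      have h2 := ihi (by omega)
      set l := 2 * M - 1 - (i + 1) with hl
      have hl1 : 2 * M - 1 - i = l + 1 := by omega
      rw [hl1] at h2
      have h3 : (l + 1) * c + 1 ≤ c * (ν + 1) + r := by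
        have h3 : (l + 2) * c ≤ (ν + 1) * c := Nat.mul_le_mul_right c (by omega)
        have h4 : (l + 2) * c = (l + 1) * c + c := by ring
        have h5 : (ν + 1) * c = c * (ν + 1) := mul_comm _ _
        omega
      have h4 : c * (ν + 1) + r - c = c * ν + r := by
        rw [mul_add, mul_one]
        omega
      have h5 := gM_tr M c l (c * (ν + 1) + r) (by omega) hc1 (by omega) (cfg M c j l ν)
        (cfg M c j l (ν + 1) - cfg M c j l ν) fun k hk => (mem_cfg hk).1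
      rw [cfg_step (by omega) (by omega), add_tsub_cancel_of_le cfg_mono, h4] at h5
      have h6 := vd_chain (M := M) (c := c) (j := j) (l := l) (ν := ν) (by omega) (by omega)
        (by omega) h3
      rw [h4] at h6
      rw [h6]
      have h7 : (gM (LS M (blk c (c * (ν + 1) + r)) l) (cfg M c j l (ν + 1)) : ℤ) ≤
          (gM (LS M (blk c (c * ν + r)) l) (cfg M c j l ν) : ℤ) +
            (gM (LS M (blk c (c * (ν + 1) + r)) (l + 1)) (cfg M c j (l + 1) (ν + 1)) : ℤ) := by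
        exact_mod_cast h5
      linarith only [h2, h1, h5]

/-- ALPHA for one level. -/
theorem alpha_one (M j : ℕ) (hM : 2 ≤ M) (hj : j < M) : ∃ c₀ L : ℕ, 1 ≤ L ∧
    ∀ c, c₀ ≤ c → L ∣ c → OJ M c j := by
  obtain ⟨c₀, L, hL, h⟩ := chain M j hM hj
  have hC : 1 ≤ (2 * M - 1).choose M := Nat.choose_pos (by omega)
  refine ⟨c₀ + 1, L * (2 * M - 1).choose M, Nat.mul_pos hL hC, fun c hc hdiv => ?_⟩
  have hc1 : 1 ≤ c := by omega
  obtain ⟨K, hK⟩ := h c (by omega) ((Dvd.intro _ rfl).trans hdiv)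
  obtain ⟨e, he, n₀, hcl⟩ := cls_le_cfg M c j hM hj hc1 ((Dvd.intro_left _ rfl).trans hdiv)
  refine ⟨e, he, n₀ + c * (K + 2 * M), fun n hn s hs htop => ?_⟩
  have h1 := hcl n (by omega) s hs htop
  set ν := n / c with hν
  have hn' : c * ν + n % c = n := Nat.div_add_mod n c
  have hνK : K + 2 * M ≤ ν := by
    rw [hν, Nat.le_div_iff_mul_le (by omega), mul_comm]
    omega
  have h2 := hK (n % c) (Nat.mod_lt _ (by omega)) ν (by omega) (2 * M - 1 - j) (by omega)
  have e1 : 2 * M - 1 - (2 * M - 1 - j) = j := by omega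
  rw [e1, hn'] at h2
  set t := cfg M c j j ν with ht
  have hlr : (j + 1) * c ≤ n := by
    have h3 : (j + 1) * c ≤ ν * c := Nat.mul_le_mul_right c (by omega)
    have h4 : ν * c = c * ν := mul_comm _ _
    omega
  have h3 := gM_le_wt (M := M) (by omega) hc1 hlr s (t - s) fun k hk =>
    (mem_cfg (Multiset.mem_of_le (Multiset.sub_le_self t s) hk)).1
  have e2 : t - s + s = t := tsub_add_cancel_of_le h1
  rw [e2] at h3
  have h4 : (t.map (wt M c n)).sum = ((t - s).map (wt M c n)).sum + (s.map (wt M c n)).sum := by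
    rw [← Multiset.sum_add, ← Multiset.map_add, e2]
  unfold vd at h2 ⊢
  have h5 : (gM (LS M (blk c n) j) s : ℤ) ≤ gM (LS M (blk c n) j) t +
      (((t - s).map (wt M c n)).sum : ℕ) := by exact_mod_cast h3
  rw [h4, Nat.cast_add] at h2
  linarith only [h2, h5]

/-- **ALPHA.** -/
theorem alpha (M : ℕ) (hM : 2 ≤ M) : ∃ c₀ L : ℕ, 1 ≤ L ∧ ∀ c, c₀ ≤ c → L ∣ c →
    ∀ j < M, OJ M c j := by
  have key : ∀ N, N ≤ M → ∃ c₀ L : ℕ, 1 ≤ L ∧ ∀ c, c₀ ≤ c → L ∣ c → ∀ j < N, OJ M c j := by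
    intro N
    induction N with
    | zero => exact fun _ => ⟨0, 1, le_rfl, fun c _ _ j hj => absurd hj (Nat.not_lt_zero j)⟩
    | succ N ih =>
      intro hN
      obtain ⟨c₁, L₁, h1, h2⟩ := ih (by omega)
      obtain ⟨c₂, L₂, h3, h4⟩ := alpha_one M N hM (by omega)
      refine ⟨max c₁ c₂, L₁ * L₂, Nat.mul_pos h1 h3, fun c hc hdiv j hj => ?_⟩
      rcases Nat.lt_succ_iff_lt_or_eq.1 hj with h5 | h5
      · exact h2 c ((le_max_left _ _).trans hc) ((Dvd.intro _ rfl).trans hdiv) j h5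
      · rw [h5]
        exact h4 c ((le_max_right _ _).trans hc) ((Dvd.intro_left _ rfl).trans hdiv)
  exact key M le_rfl

end Pool.Agent.V7

end
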