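import Pool.Agent.H94.LP5.M43
import Pool.Agent.H94.LP5.M51
import Pool.Agent.H94.LP5.M56
import Pool.Agent.H94.LP5.M57
import Pool.Agent.H94.LP5.V7.Num.Step_1
import Pool.Agent.H94.LP5.V7.Top.Prop

/-! The parts of this file: V7.CritA_1, V7.Bridge_1, V7.Num.Ms_1, V7.Top.Fin, V7.Step, V7.Final. -/

section

/-!
# V7: forms in `r + 1` variables as the system of the level `0`
-/

namespace Pool.Agent.V7

open Finset MvPolynomial Pool.Agent.H51.TB Pool.Agent.H54.V7
open Pool.Agent.H18.Fat (fatForms VanishesToOrder mons mem_mons)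
open Pool.Agent.H18.Ex (tcr Kind ell)
open Pool.Agent.H21.NX (gdim Sx mem_Sx)

theorem critA_bb (c k r : ℕ) (hk : 1 ≤ k) : bb c (k - 1) 0 (r + 1) = ell r k := by
  show Nat.multichoose (r + 1) (k - 1) = (k + r - 1).choose r
  rw [Nat.multichoose_eq, show r + 1 + (k - 1) - 1 = k + r - 1 by omega]
  rw [← Nat.choose_symm (show k - 1 ≤ k + r - 1 by omega)]
  congr 1
  omega

end Pool.Agent.V7

end

section

/-!
# V7: `PROP M c 0` implies `Crit M`
-/

namespace Pool.Agent.V7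

open Finset MvPolynomial Pool.Agent.H51.TB Pool.Agent.V7.ST
open Pool.Agent.H18.Ex (ell ell_mono ell_pos)
open Pool.Agent.H21.NX (gdim)

/-- BRIDGE. -/
theorem crit_of_prop (M c : ℕ) (hM : 2 ≤ M) (h : PROP M c 0) : Pool.Agent.H74.V7.Crit M := by
  classical
  obtain ⟨e, he, n₀, hP⟩ := h
  obtain ⟨ε₁, hε₁, r₁, h₁⟩ := critB_top M (by omega) e he
  obtain ⟨ε₂, hε₂, h₂⟩ := critB_sml M (by omega) e he
  refine ⟨min ε₁ ε₂, lt_min hε₁ hε₂, r₁ + n₀ + 2 * M + 1, fun r hr k m hm htop hsml => ?_⟩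
  obtain ⟨N, hN⟩ : ∃ N, N = (2 * M - 1 + r).choose r := ⟨_, rfl⟩
  have hNnn : (0 : ℝ) ≤ ((2 * M - 1 + r).choose r : ℝ) := Nat.cast_nonneg _
  have hm1 : min ε₁ ε₂ ≤ ε₁ := min_le_left _ _
  have hm2 : min ε₁ ε₂ ≤ ε₂ := min_le_right _ _
  obtain ⟨s, hs⟩ : ∃ s : Multiset Kd,
      s = (univ : Finset (Fin k)).val.map fun i => Kd.ord (m i) ∅ := ⟨_, rfl⟩
  have hcls : Cls M c 0 (r + 1) e (fun τ => s.count τ) := by
    refine ⟨⟨?_, ?_, ?_, ?_⟩, ?_⟩
    · intro τ hτ
      have h3 : τ ∈ s := by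
        by_contra h3
        exact hτ (Multiset.count_eq_zero_of_notMem h3)
      rw [hs] at h3
      obtain ⟨i, _, hi⟩ := Multiset.mem_map.1 h3
      rw [mem_kds, ← hi]
      exact ⟨(hm i).1, (hm i).2, Finset.empty_subset _⟩
    · intro I hI hI'
      rw [Finset.range_zero, Finset.subset_empty] at hI
      exact absurd (hI.trans Finset.range_zero.symm) hI'
    · intro i hi
      exact absurd hi (Nat.not_lt_zero i)
    · intro μ hμ1 hμM I hI
      rw [Finset.range_zero, Finset.subset_empty] at hI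
      subst hI
      have h3 := h₂ r (by omega) μ hμ1 hμM (univ.filter fun i => m i = μ).card (by
        refine le_trans ?_ (hsml.trans (mul_le_mul_of_nonneg_right hm2 hNnn))
        have h4 : (univ.filter fun i => m i = μ).card * ell r μ =
            ∑ i ∈ univ.filter (fun i => m i = μ), ell r (m i) := by
          rw [Finset.sum_congr rfl fun i hi => by rw [(mem_filter.1 hi).2], Finset.sum_const,
            smul_eq_mul]
        rw [h4]
        exact_mod_cast Finset.sum_le_sum_of_subset (fun i hi => by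
          rw [mem_filter] at hi ⊢
          exact ⟨hi.1, by omega⟩))
      rw [hs, Bridge_count]
      simpa using h3
    · have h3 := h₁ r (by omega) (univ.filter fun i => m i = M).card
        (htop.trans (mul_le_mul_of_nonneg_right hm1 hNnn))
      rw [Finset.range_zero, hs, Bridge_count]
      have h4 : nom M c 0 ∅ = 1 / (((2 * M - 1).choose M : ℝ) * (M.factorial : ℝ)) := by
        unfold nom
        simp
      rw [h4]
      exact h3
  have h3 := hP (r + 1) (by omega) s hcls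
  have h4 := critA_gdim_le M r (blk c (r + 1)) m
  rw [gd_eq_gM, ← hs] at h4
  have h5 : vd M c 0 (r + 1) s = (N : ℤ) - ((∑ i, ell r (m i) : ℕ) : ℤ) := by
    unfold vd
    have h6 : bb c (2 * M - 1) 0 (r + 1) = N := by
      have := critA_bb c (2 * M) r (by omega)
      rw [this, hN]
      unfold ell
      rw [show 2 * M + r - 1 = 2 * M - 1 + r by omega]
    have h7 : (s.map (wt M c (r + 1))).sum = ∑ i, ell r (m i) := by
      rw [hs, Multiset.map_map]
      show ∑ i, wt M c (r + 1) (Kd.ord (m i) ∅) = _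
      refine Finset.sum_congr rfl fun i _ => ?_
      show bb c (m i - 1) (∅ : Finset ℕ).card (r + 1) = _
      rw [Finset.card_empty, critA_bb c (m i) r (hm i).1]
    rw [h6, h7]
  have h6 := Pool.Agent.H74.V7.le_gdim r (2 * M - 1) (by omega) m
  rw [h5] at h3
  rw [← hN] at h6 ⊢
  have h7 : (gdim r (2 * M - 1) m : ℤ) ≤ max 0 ((N : ℤ) - ((∑ i, ell r (m i) : ℕ) : ℤ)) :=
    le_trans (by exact_mod_cast h4) h3
  omega

end Pool.Agent.V7

end

section

/-!
# V7, NUM: the numbers of one step, for multisets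
-/

set_option autoImplicit false

namespace Pool.Agent.V7

open Finset Pool.Agent.H51.TB Pool.Agent.V7.ST

/-- NUM-B3: the numbers of one step, for multisets (hypothesis NUM of step_abs). -/
theorem num_ms (M c j : ℕ) (hj : j + 2 ≤ M) (hc : 2 * (2 * M - 1).choose M * M < c) (e' : ℝ)
    (he' : 0 < e') : ∃ e₀ : ℝ, 0 < e₀ ∧ ∀ e : ℝ, 0 < e → e ≤ e₀ → ∀ X : ℕ, ∃ n₁ : ℕ, ∀ n : ℕ,
    n₁ ≤ n → ∀ s : Multiset Kd, Cls0 M c j n (e + 1 / (n : ℝ)) (fun τ => s.count τ) →
    -(bb c (M - 1) j n : ℤ) ≤ vd M c j n s → vd M c j n s < (X + 1) * bb c (M - 1) j n →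
    ∀ x, x ≤ X → ∃ sL sO : Multiset Kd,
      s = sL + sO + Multiset.replicate (2 * bb c (M - 1) j (n - c)) (Kd.ord M ∅) ∧
      Cls0 M c j (n - c) (e + 1 / ((n - c : ℕ) : ℝ)) (fun τ => sL.count τ) ∧
      (x : ℤ) * bb c (M - 1) j (n - c) ≤ vd M c j (n - c) sL ∧
      vd M c j (n - c) sL < (x + 1) * bb c (M - 1) j (n - c) ∧
      ∀ y, y ≤ 2 * bb c (M - 1) j (n - c) → Cls M c (j + 1) n e' (fun τ =>
        (sL.map (Kd.add j) + (sO + Multiset.replicate (2 * bb c (M - 1) j (n - c) - y) (Kd.ord M ∅)) +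
          Multiset.replicate y (Kd.sw j ∅)).count τ) := by
  obtain ⟨e₀, he₀, h⟩ := num_step M c j hj hc e' he'
  refine ⟨e₀, he₀, fun e he hee X => ?_⟩
  obtain ⟨n₀, h⟩ := h e he hee (X + 1)
  refine ⟨n₀ + c, fun n hn s hs hv1 hv2 x hx => ?_⟩
  obtain ⟨n, rfl⟩ : ∃ n', n = n' + c := ⟨n - c, by omega⟩
  rw [Nat.add_sub_cancel]
  have hsk : ∀ τ ∈ s, τ ∈ kds M j := fun τ hτ => hs.ok τ (Multiset.count_pos.2 hτ).ne'
  rw [vd_eq_vN M c j (n + c) s hsk] at hv1 hv2
  have hb0 : (0 : ℤ) ≤ bb c (M - 1) j (n + c) := Int.natCast_nonneg _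
  have habs : |vN M c j (n + c) fun τ => s.count τ| ≤
      ((X + 1 : ℕ) : ℤ) * (bb c (M - 1) j (n + c) : ℤ) := by
    rw [abs_le]
    have h1 : (0 : ℤ) ≤ (X : ℤ) * bb c (M - 1) j (n + c) := mul_nonneg (Int.natCast_nonneg _) hb0
    push_cast
    constructor
    · linarith
    · exact hv2.le
  obtain ⟨N', hN', hcls, hx1, hx2, hy⟩ := h n (by omega) (fun τ => s.count τ) hs habs x (by omega)
  obtain ⟨sL, hsL⟩ := exists_msN (kds M j) N' hcls.ok
  have hLk : ∀ τ ∈ sL, τ ∈ kds M j := fun τ hτ =>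
    hcls.ok τ (by rw [← hsL]; exact (Multiset.count_pos.2 hτ).ne')
  have hfun : (fun τ => sL.count τ) = N' := funext hsL
  set b := 2 * bb c (M - 1) j n with hb
  have hle : sL + Multiset.replicate b (Kd.ord M ∅) ≤ s := by
    rw [Multiset.le_iff_count]
    intro τ
    rw [Multiset.count_add, Multiset.count_replicate, hsL]
    split_ifs with h1
    · rw [← h1]
      have := (hy b le_rfl).1
      omega
    · exact hN' τ
  obtain ⟨sO, hsO⟩ := Multiset.le_iff_exists_add.1 hle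
  have hsO' : s = sL + sO + Multiset.replicate b (Kd.ord M ∅) := by
    rw [hsO]
    exact add_right_comm _ _ _
  have hOk : ∀ τ ∈ sO, τ ∈ kds M j := fun τ hτ =>
    hsk τ (by rw [hsO]; exact Multiset.mem_add.2 (Or.inr hτ))
  refine ⟨sL, sO, hsO', ?_, ?_, ?_, fun y hyb => ?_⟩
  · rw [hfun]
    exact hcls
  · rw [vd_eq_vN M c j n sL hLk, hfun]
    exact hx1
  · rw [vd_eq_vN M c j n sL hLk, hfun]
    exact hx2
  · have h1 := (hy y hyb).2
    have h2 : (fun τ => (sL.map (Kd.add j) +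
        (sO + Multiset.replicate (b - y) (Kd.ord M ∅)) +
          Multiset.replicate y (Kd.sw j ∅)).count τ) = resN M j (fun τ => s.count τ) N' y := by
      funext τ
      rw [count_resN M j sL sO b y hyb hLk hOk τ, hfun, ← hsO']
    rw [h2]
    exact h1

end Pool.Agent.V7

end

section

/-!
# The top level: exactness from ALPHA and BETA
-/

set_option autoImplicit false

namespace Pool.Agent.V7

/-- Exactness on the top level, from independence (ALPHA) and the slopes (BETA). -/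
theorem prop_top_of (M : ℕ) (hM : 2 ≤ M)
    (hA : ∃ c₀ L : ℕ, 1 ≤ L ∧ ∀ c, c₀ ≤ c → L ∣ c → ∀ j < M, OJ M c j)
    (hB : ∃ c₀ L : ℕ, 1 ≤ L ∧ ∀ c, c₀ ≤ c → L ∣ c → BETA M c (M - 1)) :
    ∃ c₀ L : ℕ, 1 ≤ L ∧ ∀ c, c₀ ≤ c → L ∣ c → PROP M c (M - 1) := by
  obtain ⟨c₁, L₁, hL₁, h₁⟩ := hA
  obtain ⟨c₂, L₂, hL₂, h₂⟩ := hB
  refine ⟨c₁ + c₂ + 2 * (2 * M - 1).choose M * M + 1, L₁ * L₂, Nat.mul_pos hL₁ hL₂,
    fun c hc hL => ?_⟩
  have hk : M - 1 + 1 = M := by omega
  have hc1 : 1 ≤ c := by omega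
  exact prop_of M c (M - 1) hM hk hc1 (fun n hn => bb_self c (M - 1) n hn)
    (h₁ c (by omega) (dvd_trans (Dvd.intro _ rfl) hL) (M - 1) (by omega))
    (GA.gamma_inp M c (M - 1) hk hM (by omega))
    (h₂ c (by omega) (dvd_trans (Dvd.intro_left _ rfl) hL))
    (vas M c (M - 1) hM hk hc1)

end Pool.Agent.V7

end

section

/-!
# V7: exactness on the level `j` from exactness on the level `j + 1`
-/

set_option autoImplicit false

namespace Pool.Agent.V7

open Finset Pool.Agent.H51.TB Pool.Agent.V7.ST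

/-- STEP -/
theorem step (M c j : ℕ) (hj : j + 2 ≤ M) (hc : 2 * (2 * M - 1).choose M * M < c)
    (hO : OJ M c j) (hP : PROP M c (j + 1)) : PROP M c j :=
  step_of M c j hj (by omega)
    (fun n sL sO y a hn hL h0 => gM_dh M c j n (by omega) (by omega) (by omega) sL sO y a hL h0)
    (num_ms M c j hj hc) hO hP

end Pool.Agent.V7

end

section

/-!
# V7: the critical half, assembly

`PROP M c j` (exactness on the level `j`) holds for `j = M - 1` (`prop_top_of`, from ALPHA, BETA,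
GAMMA), passes from `j + 1` to `j` (`step`), and `PROP M c 0` is the exactness of all systems of
general fat points of degree `2M - 1` in the class of the critical half (`crit_of_prop`).
-/

set_option autoImplicit false

namespace Pool.Agent.V7

open Finset Pool.Agent.H51.TB Pool.Agent.V7.ST

/-- Exactness on the top level. -/
theorem prop_top (M : ℕ) (hM : 2 ≤ M) : ∃ c₀ L : ℕ, 1 ≤ L ∧ ∀ c, c₀ ≤ c → L ∣ c →
    PROP M c (M - 1) :=
  prop_top_of M hM (alpha M hM) (beta M hM)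

/-- Exactness on the level `0`. -/
theorem prop_zero (M : ℕ) (hM : 2 ≤ M) : ∃ c, 1 ≤ c ∧ PROP M c 0 := by
  obtain ⟨c₁, L₁, hL₁, h₁⟩ := alpha M hM
  obtain ⟨c₂, L₂, hL₂, h₂⟩ := prop_top M hM
  obtain ⟨c, hc⟩ : ∃ c, c = L₁ * L₂ * (c₁ + c₂ + 2 * (2 * M - 1).choose M * M + 1) := ⟨_, rfl⟩
  have hpos : 1 ≤ L₁ * L₂ := Nat.mul_pos hL₁ hL₂
  have hge : c₁ + c₂ + 2 * (2 * M - 1).choose M * M + 1 ≤ c := by
    rw [hc]
    exact Nat.le_mul_of_pos_left _ hpos
  have h1 := h₁ c (by omega) (by rw [hc, mul_assoc, mul_assoc]; exact Dvd.intro _ rfl)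
  have h2 := h₂ c (by omega) (by rw [hc, mul_comm L₁ L₂, mul_assoc, mul_assoc]; exact Dvd.intro _ rfl)
  refine ⟨c, by omega, ?_⟩
  have key : ∀ i, i < M → PROP M c (M - 1 - i) := by
    intro i
    induction i with
    | zero => exact fun _ => h2
    | succ i ih =>
      intro hi
      refine step M c (M - 1 - (i + 1)) (by omega) (by omega) (h1 _ (by omega)) ?_
      have h3 := ih (by omega)
      rwa [show M - 1 - (i + 1) + 1 = M - 1 - i by omega]
  have h3 := key (M - 1) (by omega)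
  rwa [Nat.sub_self] at h3

/-- V7: the critical half. -/
theorem crit (M : ℕ) (hM : 2 ≤ M) : Pool.Agent.H74.V7.Crit M := by
  obtain ⟨c, _, h⟩ := prop_zero M hM
  exact crit_of_prop M c hM h

end Pool.Agent.V7

end
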