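import Pool.Agent.H94.LP5.H51.TB.UCore
import Pool.Agent.H94.LP5.M50
import Pool.Agent.H94.LP5.M53
import Pool.Agent.H94.LP5.M62

/-! The parts of this file: H51.TB.Core, H51.TB.Pair, H51.TB.UPair, H51.TB.Fin. -/

section

/-!
# Module E4 (TB): the core theorem

Let `n = r + 1`, `N = ell r (d + 1)`.  By `choose_part` (`w = ell r`, `B = ell r d`, `e₀ = ell r m₀`, which is
`≤ N / 2` by `grow_one`) there is `T ≤ S` with `N ≤ ell r m₀ + tot r T ≤ N + ell r d` and
`T.count μ * ell r μ ≥ min η (1/2) * N`; `A m = T.count m`.  `num` (with `min η (1/2)`) and `GM_of_counts`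
give `GM (Sx (Z a b) d)` for `m₀ ::ₘ T = m₀ ::ₘ ∑ m ∈ range (d + 1), replicate (A m) m`;
`GM_equiv finSumFinEquiv` (`a + b = r + 1`) and `GM.mono` finish the proof.
-/

namespace Pool.Agent.H51.TB

open Finset Pool.Agent.H18.Ex Pool.Agent.H21.NX

private theorem Core_ell_up (r c : ℕ) (hr : 1 ≤ r) : ell (r - 1) (c + 1) ≤ ell r (c + 1) := by
  obtain ⟨k, rfl⟩ : ∃ k, r = k + 1 := ⟨r - 1, by omega⟩
  rw [Nat.add_sub_cancel, ell_succ k c]
  exact Nat.le_add_left _ _

private theorem Core_sum_replicate (d : ℕ) (T : Multiset ℕ) (hT : ∀ m ∈ T, m ≤ d) :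
    ∑ m ∈ range (d + 1), Multiset.replicate (T.count m) m = T := by
  ext x
  rw [Multiset.count_sum']
  simp only [Multiset.count_replicate]
  by_cases hx : x ∈ T
  · have h1 : x ∈ range (d + 1) := mem_range.2 (Nat.lt_succ_of_le (hT x hx))
    rw [Finset.sum_ite_eq' (range (d + 1)) x (fun m => T.count m), if_pos h1]
  · rw [Multiset.count_eq_zero_of_notMem hx]
    apply Finset.sum_eq_zero
    intro m _
    split_ifs with h
    · rw [h]
      exact Multiset.count_eq_zero_of_notMem hx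
    · rfl

private theorem Core_sum_tot (r d : ℕ) (T : Multiset ℕ) (hT : ∀ m ∈ T, m ≤ d) :
    ∑ m ∈ range (d + 1), T.count m * ell r m = (T.map (ell r)).sum := by
  rw [Finset.sum_multiset_map_count]
  symm
  have h1 : T.toFinset ⊆ range (d + 1) := by
    intro x hx
    exact mem_range.2 (Nat.lt_succ_of_le (hT x (Multiset.mem_toFinset.1 hx)))
  refine (Finset.sum_subset h1 ?_).trans ?_
  · intro x _ hx
    rw [Multiset.mem_toFinset] at hx
    rw [Multiset.count_eq_zero_of_notMem hx, zero_smul]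
  · exact Finset.sum_congr rfl fun m _ => smul_eq_mul _ _

theorem core (d : ℕ) (η : ℝ) (hη : 0 < η) : ∃ r₀ : ℕ, ∀ r : ℕ, r₀ ≤ r → ∀ (M μ m₀ : ℕ)
    (S : Multiset ℕ), 1 ≤ μ → μ ≤ M → μ + M ≤ d → m₀ ≤ M →
    (∀ m ∈ S, 1 ≤ m ∧ m ≤ M ∧ m + M ≤ d + 1) → ell r (d + 1) ≤ ell r m₀ + tot r S →
    η * (ell r (d + 1) : ℝ) ≤ ((S.count μ * ell r μ : ℕ) : ℝ) →
    GM (Sx (Fin (r + 1)) d) ((m₀ ::ₘ S).map Kind.free) := by
  obtain ⟨n₁, h₁⟩ := num d (min η (1 / 2)) (lt_min hη (by norm_num))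
  obtain ⟨n₂, h₂⟩ := grow_one d 2
  refine ⟨max n₁ (max n₂ 1), fun r hr M μ m₀ S hμ hμM hM hm₀ hS hN hη' => ?_⟩
  have hr1 : n₁ ≤ r + 1 := ((le_max_left _ _).trans hr).trans (Nat.le_succ r)
  have hr2 : n₂ ≤ r := ((le_max_left _ _).trans (le_max_right _ _)).trans hr
  have hr3 : 1 ≤ r := ((le_max_right _ _).trans (le_max_right _ _)).trans hr
  have he : 2 * ell r m₀ ≤ ell r (d + 1) := by
    have h3 := h₂ r hr2 m₀ (by omega)
    have h4 : 2 * ell r m₀ ≤ ell (r - 1) (d + 1) := by exact_mod_cast h3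
    exact h4.trans (Core_ell_up r d hr3)
  obtain ⟨T, hTS, hT1, hT2, hT3⟩ := choose_part (ell r) (ell r d) (ell r (d + 1)) (ell r m₀) μ S
    (fun m hm => ell_mono r (by have := hS m hm; omega)) he hN
  have hTm : ∀ m ∈ T, 1 ≤ m ∧ m ≤ M ∧ m + M ≤ d + 1 := fun m hm => hS m (Multiset.mem_of_le hTS hm)
  have hTd : ∀ m ∈ T, m ≤ d := fun m hm => by have := hTm m hm; omega
  have hsum := Core_sum_tot r d T hTd
  obtain ⟨a, b, ha, hb, hab, hnum⟩ := h₁ (r + 1) hr1
  have habr : a + b - 1 = r := by omega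
  rw [habr] at hnum
  have hA : ∀ m, T.count m ≠ 0 → 1 ≤ m ∧ m ≤ M ∧ m + M ≤ d + 1 := fun m hm =>
    hTm m (Multiset.count_ne_zero.1 hm)
  have hdom : min η (1 / 2) * (ell r (d + 1) : ℝ) ≤ ((T.count μ * ell r μ : ℕ) : ℝ) := by
    have h0 : (0 : ℝ) ≤ (ell r (d + 1) : ℝ) := Nat.cast_nonneg _
    rcases hT3 with h | h
    · rw [h]
      exact (mul_le_mul_of_nonneg_right (min_le_left _ _) h0).trans hη'
    · have h5 : (ell r (d + 1) : ℝ) ≤ 2 * ((T.count μ * ell r μ : ℕ) : ℝ) := by exact_mod_cast h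
      have h6 := mul_le_mul_of_nonneg_right (min_le_right η (1 / 2)) h0
      linarith
  obtain ⟨c, hc, k1, k2, k3⟩ := hnum M μ m₀ (fun m => T.count m) hμ hμM hM (by omega) hA
    (by rw [hsum]; exact hT1) (by rw [hsum]; exact hT2) hdom
  have hGM := GM_of_counts ha hb hμ hμM hM hm₀ (fun m => T.count m) hA c hc k1 k2 k3
  rw [Core_sum_replicate d T hTd] at hGM
  have hGM2 := GM_equiv (finSumFinEquiv.trans (finCongr hab)) d (m₀ ::ₘ T) hGM
  exact GM.mono (Multiset.map_le_map ((Multiset.cons_le_cons_iff m₀).2 hTS)) hGM2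

end Pool.Agent.H51.TB

end

section

/-!
# Module E6 (TB): the theorem on pair sums

`pairs`: `k = 0`: `window_fin`.  Let `m i₀ = M` be the largest multiplicity.  If `M ≥ d` use `cone`.
Otherwise let `S` be the multiset of the `m i`, `i ≠ i₀`, together with
`binom (d + r, r) - ∑ ell r (m i)` simple points.  Then `1 ≤ x ≤ M`, `x + M ≤ d + 1` for `x ∈ S`,
`ell r M + tot r S ≥ binom (d + r, r) = ell r (d + 1)`, and the part of `tot r S` with `x + M = d + 1` is at
most the sum in `hH` (simple points do not contribute as `M ≤ d - 1`).  So the part with `x + M ≤ d` is at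
least `η N - ell r M ≥ (η / 2) N` (`grow_one`), and for one of the at most `d` values `μ`, `1 ≤ μ`,
`μ + M ≤ d`, `S.count μ * ell r μ ≥ η / (2 (d + 1)) * N`.  Apply `core` (with `η / (2 (d + 1))`) and
`max_of_GM`.

`pairs_le`: the sum in `hH` is over `i` with `m i + M = d + 1`, which can only be `i₀` (if `2 M = d + 1`),
so it is at most `ell r M ≤ N / 2`.
-/

namespace Pool.Agent.H51.TB

open Finset Pool.Agent.H18.Fat Pool.Agent.H18.Ex Pool.Agent.H21.NX

private theorem Pair_ell (r d : ℕ) : ell (r - 1) (d + 1) ≤ ell r (d + 1) := by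
  rcases Nat.eq_zero_or_pos r with rfl | hr
  · exact le_rfl
  · obtain ⟨s, rfl⟩ : ∃ s, r = s + 1 := ⟨r - 1, by omega⟩
    rw [Nat.add_sub_cancel, ell_succ]
    exact Nat.le_add_left _ _

private theorem Pair_tot (n D : ℕ) (S : Multiset ℕ) (hS : ∀ m ∈ S, m ≤ D) :
    tot n S = ∑ μ ∈ Finset.range (D + 1), S.count μ * ell n μ := by
  unfold tot
  have h2 := Finset.sum_multiset_map_count S (ell n)
  rw [h2]
  rw [Finset.sum_subset (s₂ := Finset.range (D + 1))]
  · exact Finset.sum_congr rfl fun x _ => by rw [smul_eq_mul]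
  · intro x hx
    rw [Finset.mem_range, Nat.lt_succ_iff]
    exact hS x (Multiset.mem_toFinset.1 hx)
  · intro x _ hx
    rw [Multiset.count_eq_zero_of_notMem (fun h => hx (Multiset.mem_toFinset.2 h)), zero_smul]

/-- the points other than `i₀` and simple points -/
private def Pair_S (r d : ℕ) {k : ℕ} (m : Fin k → ℕ) (i₀ : Fin k) : Multiset ℕ :=
  ((univ : Finset (Fin k)).erase i₀).val.map m +
    Multiset.replicate ((d + r).choose r - ∑ i, ell r (m i)) 1

private theorem Pair_aug (r d : ℕ) {k : ℕ} (m : Fin k → ℕ) (i₀ : Fin k) :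
    m i₀ ::ₘ Pair_S r d m i₀ = aug r d m := by
  unfold Pair_S aug
  rw [← Multiset.cons_add, ← Multiset.map_cons]
  congr 2
  rw [Finset.erase_val]
  exact Multiset.cons_erase (Finset.mem_univ i₀)

private theorem Pair_mem {r d k : ℕ} {m : Fin k → ℕ} {i₀ : Fin k} {x : ℕ} (hx : x ∈ Pair_S r d m i₀) :
    (∃ j, j ≠ i₀ ∧ m j = x) ∨ x = 1 := by
  rcases Multiset.mem_add.1 hx with hx | hx
  · obtain ⟨j, hj, rfl⟩ := Multiset.mem_map.1 hx
    exact Or.inl ⟨j, Finset.ne_of_mem_erase (Finset.mem_def.2 hj), rfl⟩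
  · exact Or.inr (Multiset.eq_of_mem_replicate hx)

private theorem Pair_hi (r d : ℕ) {k : ℕ} (m : Fin k → ℕ) (i₀ : Fin k) (M : ℕ) (hMd : M < d)
    (hm : ∀ j, j ≠ i₀ → m j + M ≤ d + 1) :
    tot r ((Pair_S r d m i₀).filter fun x => ¬ (x + M ≤ d)) ≤
      ∑ i ∈ univ.filter (fun i => m i + M = d + 1), ell r (m i) := by
  unfold Pair_S
  rw [Multiset.filter_add, tot_add]
  have h1 : (Multiset.replicate ((d + r).choose r - ∑ i, ell r (m i)) 1).filter (fun x => ¬ (x + M ≤ d)) = 0 := by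
    rw [Multiset.filter_eq_nil]
    intro x hx
    rw [Multiset.eq_of_mem_replicate hx]
    omega
  rw [h1, tot_zero, add_zero, Multiset.filter_map]
  unfold tot
  rw [Multiset.map_map, ← Finset.filter_val]
  change ∑ i ∈ (univ.erase i₀).filter (fun x => ¬ (m x + M ≤ d)), ell r (m i) ≤ _
  apply Finset.sum_le_sum_of_subset
  intro j hj
  rw [Finset.mem_filter, Finset.mem_erase] at hj
  rw [Finset.mem_filter]
  refine ⟨Finset.mem_univ _, ?_⟩
  have := hm j hj.1.1
  have h2 := hj.2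
  omega

theorem pairs (d : ℕ) (η : ℝ) (hη : 0 < η) : ∃ r₀ : ℕ, ∀ r : ℕ, r₀ ≤ r → ∀ (k : ℕ)
    (m : Fin k → ℕ), (∀ i, 1 ≤ m i) → (∀ i j, i ≠ j → m i + m j ≤ d + 1) →
    ∀ M : ℕ, (∀ i, m i ≤ M) → (∃ i, m i = M) →
    (M < d → ((∑ i ∈ univ.filter (fun i => m i + M = d + 1), ell r (m i) : ℕ) : ℝ) ≤
      (1 - η) * ((d + r).choose r : ℝ)) →
    ForGeneralPoints r k fun p => ImposesMaximalConditions r d p m := by
  have hd1 : (0 : ℝ) < (d : ℝ) + 1 := by positivity
  obtain ⟨r₁, hcore⟩ := core d (η / (2 * (d + 1))) (by positivity)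
  obtain ⟨n₀, hgrow⟩ := grow_one d (2 / η)
  refine ⟨max (max r₁ n₀) 1, ?_⟩
  intro r hr k m hm hp M hM hex hH
  have hr1 : r₁ ≤ r := le_trans (le_max_left _ _) (le_trans (le_max_left _ _) hr)
  have hr2 : n₀ ≤ r := le_trans (le_max_right _ _) (le_trans (le_max_left _ _) hr)
  have hr3 : 1 ≤ r := le_trans (le_max_right _ _) hr
  obtain ⟨i₀, hi₀⟩ := hex
  rcases le_or_gt d M with hdM | hMd
  · exact cone r d k hr3 m hm hp i₀ (by rw [hi₀]; exact hdM)
  have hH' := hH hMd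
  set N : ℕ := ell r (d + 1) with hN
  have hNc : (d + r).choose r = N := (ell_eq_choose r d).symm
  rw [hNc] at hH'
  have hN1 : 1 ≤ N := ell_pos r (by omega)
  have hN0 : (0 : ℝ) < N := by exact_mod_cast hN1
  have hM1 : 1 ≤ M := by rw [← hi₀]; exact hm i₀
  have hpM : ∀ j, j ≠ i₀ → m j + M ≤ d + 1 := by
    intro j hj
    rw [← hi₀]
    exact hp j i₀ hj
  set S := Pair_S r d m i₀ with hS
  have hSmem : ∀ x ∈ S, 1 ≤ x ∧ x ≤ M ∧ x + M ≤ d + 1 := by
    intro x hx
    rcases Pair_mem hx with ⟨j, hj, rfl⟩ | rfl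
    · exact ⟨hm j, hM j, hpM j hj⟩
    · exact ⟨le_rfl, hM1, by omega⟩
  have haug : M ::ₘ S = aug r d m := by
    rw [hS, ← hi₀]
    exact Pair_aug r d m i₀
  have htot : N ≤ ell r M + tot r S := by
    rw [← tot_cons, haug]
    exact le_tot_aug r d m
  have hellM : (ell r M : ℝ) ≤ η / 2 * N := by
    have h1 := hgrow r hr2 M hMd.le
    have h2 : ((ell (r - 1) (d + 1) : ℕ) : ℝ) ≤ N := by exact_mod_cast Pair_ell r d
    have h3 : 2 / η * (ell r M : ℝ) ≤ N := h1.trans h2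
    have h4 : η / 2 * (2 / η * (ell r M : ℝ)) ≤ η / 2 * N := mul_le_mul_of_nonneg_left h3 (by positivity)
    have h5 : η / 2 * (2 / η * (ell r M : ℝ)) = ell r M := by
      field_simp
    rwa [h5] at h4
  set S' := S.filter fun x => x + M ≤ d with hS'
  have hsplit : tot r S = tot r S' + tot r (S.filter fun x => ¬ (x + M ≤ d)) := by
    rw [← tot_add, Multiset.filter_add_not]
  have hhi := Pair_hi r d m i₀ M hMd hpM
  rw [← hS] at hhi
  have hlow : η / 2 * N ≤ (tot r S' : ℝ) := by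
    have h1 : (N : ℝ) ≤ ell r M + tot r S := by exact_mod_cast htot
    have h2 : (tot r S : ℝ) = tot r S' + tot r (S.filter fun x => ¬ (x + M ≤ d)) := by exact_mod_cast hsplit
    have h3 : (tot r (S.filter fun x => ¬ (x + M ≤ d)) : ℝ) ≤
        ((∑ i ∈ univ.filter (fun i => m i + M = d + 1), ell r (m i) : ℕ) : ℝ) := by exact_mod_cast hhi
    nlinarith
  obtain ⟨μ, hμ1, hμ2, hμ3⟩ : ∃ μ : ℕ, 1 ≤ μ ∧ μ + M ≤ d ∧
      η / (2 * (d + 1)) * (N : ℝ) ≤ ((S.count μ * ell r μ : ℕ) : ℝ) := by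
    by_contra hcon
    push Not at hcon
    have hS'm : ∀ x ∈ S', x ≤ d - M := by
      intro x hx
      have := (Multiset.mem_filter.1 hx).2
      omega
    have h1 := Pair_tot r (d - M) S' hS'm
    have h2 : (tot r S' : ℝ) = ∑ μ ∈ Finset.range (d - M + 1), ((S'.count μ * ell r μ : ℕ) : ℝ) := by
      rw [h1]
      push_cast
      rfl
    have h3 : ∑ μ ∈ Finset.range (d - M + 1), ((S'.count μ * ell r μ : ℕ) : ℝ) ≤
        ∑ μ ∈ Finset.range (d - M + 1), η / (2 * (d + 1)) * (N : ℝ) := by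
      apply Finset.sum_le_sum
      intro μ hμ
      rw [Finset.mem_range] at hμ
      rcases Nat.eq_zero_or_pos μ with h0 | h0
      · rw [h0, ell_zero hr3, mul_zero, Nat.cast_zero]
        positivity
      · have h4 : S'.count μ = S.count μ := Multiset.count_filter_of_pos (p := fun x => x + M ≤ d) (by omega)
        rw [h4]
        exact (hcon μ h0 (by omega)).le
    rw [Finset.sum_const, Finset.card_range, nsmul_eq_mul] at h3
    have h5 : ((d - M + 1 : ℕ) : ℝ) ≤ (d : ℝ) := by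
      have : d - M + 1 ≤ d := by omega
      exact_mod_cast this
    have h6 : ((d - M + 1 : ℕ) : ℝ) * (η / (2 * (d + 1)) * (N : ℝ)) ≤ d * (η / (2 * (d + 1)) * (N : ℝ)) :=
      mul_le_mul_of_nonneg_right h5 (by positivity)
    have h7 : (d : ℝ) * (η / (2 * (d + 1)) * (N : ℝ)) < η / 2 * N := by
      have h8 : (d : ℝ) * (η / (2 * (d + 1)) * (N : ℝ)) = η / 2 * N * (d / (d + 1)) := by
        field_simp
      rw [h8]
      have h9 : (d : ℝ) / (d + 1) < 1 := by
        rw [div_lt_one hd1]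
        linarith
      have h10 : 0 < η / 2 * (N : ℝ) := by positivity
      nlinarith
    linarith
  have hμM : μ ≤ M := by
    have h1 : 0 < S.count μ := by
      rcases Nat.eq_zero_or_pos (S.count μ) with h0 | h0
      · rw [h0, zero_mul, Nat.cast_zero] at hμ3
        have : 0 < η / (2 * ((d : ℝ) + 1)) * (N : ℝ) := by positivity
        linarith
      · exact h0
    exact (hSmem μ (Multiset.count_pos.1 h1)).2.1
  refine max_of_GM r k d hr3 m ?_
  rw [← aug_map, ← haug]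
  exact hcore r hr1 M μ M S hμ1 hμM hμ2 le_rfl hSmem htot hμ3

end Pool.Agent.H51.TB

end

section

/-!
# Module U10 (TB2): pair sums at most `d + 1`

`k = 0`: `window_fin`.  Let `m i₀ = M₀` be the largest multiplicity.
* `d ≤ M₀`: `cone`.
* `2 * M₀ ≤ d + 1`: `pairs` with `M = M₀`; the sum in `hH` there is over the `i` with
  `m i + M₀ = d + 1`, which (as `m i ≤ M₀`) are those with `2 * m i = d + 1`.
* `d + 2 ≤ 2 * M₀`, `M₀ < d`: the other multiplicities are at most `M = d + 1 - M₀`, `2 ≤ M`, `2 * M ≤ d`.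
  Let `S` be the multiset of the `m i`, `i ≠ i₀`, together with `binom (d + r, r) - ∑ ell r (m i)`
  simple points; `core_U` (with `m₀ = M₀`) and `max_of_GM`.
-/

namespace Pool.Agent.H51.TB

open Finset Pool.Agent.H18.Fat Pool.Agent.H18.Ex Pool.Agent.H21.NX

private theorem UPair_val {k : ℕ} (m : Fin k → ℕ) (i₀ : Fin k) :
    (univ : Finset (Fin k)).val.map m = m i₀ ::ₘ (univ.erase i₀).val.map m := by
  have h1 : (univ : Finset (Fin k)).val = i₀ ::ₘ (univ.erase i₀).val := by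
    rw [← Finset.insert_val_of_notMem (Finset.notMem_erase i₀ _), Finset.insert_erase (mem_univ _)]
  rw [h1, Multiset.map_cons]

theorem pairs_all (d : ℕ) (η : ℝ) (hη : 0 < η) : ∃ r₀ : ℕ, ∀ r : ℕ, r₀ ≤ r → ∀ (k : ℕ)
    (m : Fin k → ℕ), (∀ i, 1 ≤ m i) → (∀ i j, i ≠ j → m i + m j ≤ d + 1) →
    ((∑ i ∈ univ.filter (fun i => 2 * m i = d + 1), ell r (m i) : ℕ) : ℝ) ≤
      (1 - η) * ((d + r).choose r : ℝ) →
    ForGeneralPoints r k fun p => ImposesMaximalConditions r d p m := by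
  obtain ⟨r1, h1⟩ := pairs d η hη
  obtain ⟨r2, h2⟩ := core_U d
  refine ⟨max r1 r2 + 1, fun r hr k m hm hp hH => ?_⟩
  have hr1 : r1 ≤ r := (le_max_left r1 r2).trans (by omega)
  have hr2 : r2 ≤ r := (le_max_right r1 r2).trans (by omega)
  have hr0 : 1 ≤ r := by omega
  rcases Nat.eq_zero_or_pos k with rfl | hk
  · exact window_fin r d hr0 0 m (fun i => i.elim0) (fun i _ => i.elim0)
  obtain ⟨i₀, -, hi₀⟩ := Finset.exists_max_image (univ : Finset (Fin k)) m ⟨⟨0, hk⟩, mem_univ _⟩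
  have hmax : ∀ i, m i ≤ m i₀ := fun i => hi₀ i (mem_univ _)
  rcases Nat.lt_or_ge (m i₀) d with hd | hd
  swap
  · exact cone r d k hr0 m hm hp i₀ hd
  rcases Nat.lt_or_ge (d + 1) (2 * m i₀) with h3 | h3
  swap
  · refine h1 r hr1 k m hm hp (m i₀) hmax ⟨i₀, rfl⟩ fun _ => ?_
    refine le_trans ?_ hH
    have h4 : ∑ i ∈ univ.filter (fun i => m i + m i₀ = d + 1), ell r (m i) ≤
        ∑ i ∈ univ.filter (fun i => 2 * m i = d + 1), ell r (m i) := by
      refine Finset.sum_le_sum_of_subset fun i hi => ?_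
      rw [Finset.mem_filter] at hi ⊢
      have := hmax i
      exact ⟨hi.1, by omega⟩
    exact_mod_cast h4
  -- one large point
  set M := d + 1 - m i₀ with hM
  have haug : aug r d m = m i₀ ::ₘ ((univ.erase i₀).val.map m +
      Multiset.replicate ((d + r).choose r - ∑ i, ell r (m i)) 1) := by
    unfold aug
    rw [UPair_val m i₀, Multiset.cons_add]
  refine max_of_GM r k d hr0 m ?_
  rw [← aug_map, haug]
  refine h2 r hr2 M (m i₀) _ (by omega) (by omega) (by omega) ?_ ?_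
  · intro x hx
    rcases Multiset.mem_add.1 hx with hx | hx
    · obtain ⟨i, hi, rfl⟩ := Multiset.mem_map.1 hx
      have hi' : i ≠ i₀ := Finset.ne_of_mem_erase (show i ∈ univ.erase i₀ from hi)
      have := hp i i₀ hi'
      exact ⟨hm i, by omega⟩
    · rw [Multiset.eq_of_mem_replicate hx]
      exact ⟨le_rfl, by omega⟩
  · have h5 := le_tot_aug r d m
    rw [haug] at h5
    refine h5.trans (le_of_eq ?_)
    unfold tot
    rw [Multiset.map_cons, Multiset.sum_cons]

end Pool.Agent.H51.TB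

end

section

/-!
# Project TB: final theorems
-/

namespace Pool.Agent.H51.TB

open Finset MvPolynomial Pool.Agent.H18.Fat Pool.Agent.H18.Ex Pool.Agent.H21.NX

/-- Pair sums at most `d + 1`. -/
theorem fixed_one (d : ℕ) (η : ℝ) (hη : 0 < η) : ∃ r₀ K : ℕ, ∀ r : ℕ, r₀ ≤ r → ∀ (k : ℕ)
    (m : Fin k → ℕ), (∀ i, 1 ≤ m i) → (∀ i j, i ≠ j → m i + m j ≤ d + 1) →
    (((∑ i ∈ univ.filter (fun i => 2 * m i = d + 1), ell r (m i) : ℕ) : ℝ) ≤
      (1 - η) * ((d + r).choose r : ℝ) ∨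
      ∃ μ, 1 ≤ μ ∧ 4 * μ ≤ d + 1 ∧ K * r ^ (d - μ) ≤ (univ.filter fun i => m i = μ).card) →
    ForGeneralPoints r k fun p => ImposesMaximalConditions r d p m := by
  obtain ⟨r₁, h₁⟩ := pairs_all d (min η 1) (lt_min hη one_pos)
  obtain ⟨K, r₂, h₂⟩ := exact_many d
  refine ⟨r₁ + r₂, K, fun r hr k m hm hp hcase => ?_⟩
  have hN : (0 : ℝ) ≤ ((d + r).choose r : ℝ) := Nat.cast_nonneg _
  rcases hcase with h | ⟨μ, hμ1, hμ4, hμ⟩
  · refine h₁ r (by omega) k m hm hp (h.trans ?_)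
    have : min η 1 ≤ η := min_le_left _ _
    nlinarith
  · by_cases hbig : ∃ i, d + 2 ≤ 2 * m i
    · obtain ⟨i₀, hi₀⟩ := hbig
      refine h₁ r (by omega) k m hm hp ?_
      have hempty : (univ.filter fun i => 2 * m i = d + 1) = ∅ := by
        rw [filter_eq_empty_iff]
        intro i _ hi
        by_cases hii : i = i₀
        · subst hii
          omega
        · have := hp i i₀ hii
          omega
      rw [hempty, sum_empty, Nat.cast_zero]
      have : min η 1 ≤ 1 := min_le_right _ _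
      nlinarith
    · push Not at hbig
      refine h₂ r (by omega) μ ((d + 1) / 2) hμ1 (by omega) (by omega) (by omega) k m
        (fun i => by have := hbig i; omega) hμ

/-- Pair sums at least `d + 2`. -/
theorem fixed_two (r d k : ℕ) (hr : 1 ≤ r) (m : Fin k → ℕ) (hm : ∀ i, 1 ≤ m i)
    (hp : ∃ i j, i ≠ j ∧ d + 2 ≤ m i + m j) :
    ForGeneralPoints r k fun p => (¬ ImposesMaximalConditions r d p m ↔
      0 < Module.finrank ℂ (fatForms r d p m)) := by
  refine (ForGeneralPoints.coord_ne_zero r k).mono fun p hp0 => ?_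
  have hge := finrank_fatForms_ge (d := d) hr (fun i => hp0 i 0) m
  constructor
  · intro h
    by_contra h0
    have h1 : Module.finrank ℂ (fatForms r d p m) = 0 := by omega
    apply h
    unfold ImposesMaximalConditions
    rw [h1] at hge ⊢
    omega
  · intro h
    by_cases hbig : ∃ i, d < m i
    · obtain ⟨i, hi⟩ := hbig
      have := Pool.Agent.H21.HD.MainX.big_mult p m i hi
      omega
    · push Not at hbig
      obtain ⟨i, j, hij, hd⟩ := hp
      exact Pool.Agent.H21.HD.not_maximal_of_pair hr d p (fun i => hp0 i 0) m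
        (fun i => ⟨hm i, hbig i⟩) i j hij hd h

end Pool.Agent.H51.TB

end
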