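import Pool.Agent.H94.LP5.H21.NX.VNumI
import Pool.Agent.H94.LP5.H21.NX.VNumII
import Pool.Agent.H94.LP5.M51
import Pool.Agent.H94.LP5.M55
import Pool.Agent.H94.LP5.M68

/-! The parts of this file: H21.NX.VReg_1, H51.TB.Fin_1, H74.V7.Fin_1, H74.V7.FinB. -/

section

/-!
# Module VReg: the region of exactness, every dimension
-/

namespace Pool.Agent.H21.NX

open Finset Pool.Agent.H18.Ex
open Pool.Agent.H18.Fat hiding Rg mem_Rg

/-- The case `r - 1 < M`, `r ≥ 3`, with real numbers. -/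
theorem region_mid (s M : ℕ) (hs : 2 ≤ s) (hM : 1 ≤ M) (hsM : s ≤ M) (d : ℕ)
    (hd : (2 : ℝ) ^ 37 * (M : ℝ) ^ (12 / (s : ℝ)) * M ^ 4 / s ^ 3 ≤ d) :
    ∀ (k : ℕ) (m : Fin k → ℕ), (∀ i, m i ≤ M) →
    ForGeneralPoints (s + 1) k fun p => ImposesMaximalConditions (s + 1) d p m := by
  have hs0 : (0 : ℝ) < s := by
    have : 0 < s := by omega
    exact_mod_cast this
  have hM0 : (1 : ℝ) ≤ M := by exact_mod_cast hM
  have hMpos : (0 : ℝ) < M := by linarith only [hM0]
  -- `t`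
  obtain ⟨t, ht⟩ : ∃ t, t = (M + s - 1) / s := ⟨_, rfl⟩
  have ht1 : t * s ≤ M + s - 1 := by rw [ht]; exact Nat.div_mul_le_self _ _
  have ht2 : M ≤ t * s := by
    have h1 := Nat.div_add_mod (M + s - 1) s
    have h2 := Nat.mod_lt (M + s - 1) (show 0 < s by omega)
    rw [← ht, mul_comm] at h1
    omega
  have ht3 : 1 ≤ t := by
    rcases Nat.eq_zero_or_pos t with h | h
    · rw [h, Nat.zero_mul] at ht2
      omega
    · exact h
  have ht4 : t ≤ M := by
    by_contra hcon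
    have h1 : (M + 1) * s ≤ t * s := Nat.mul_le_mul_right _ (by omega)
    have h2 : (M + 1) * s = M * s + s := by ring
    have h3 : M * 1 ≤ M * s := Nat.mul_le_mul_left _ (by omega)
    omega
  -- `c`
  obtain ⟨x, hx⟩ : ∃ x : ℝ, x = (M : ℝ) ^ (4 / (s : ℝ)) := ⟨_, rfl⟩
  have hx1 : 1 ≤ x := by
    rw [hx]
    exact Real.one_le_rpow hM0 (by positivity)
  have hxs : x ^ s = (M : ℝ) ^ 4 := by
    rw [hx, ← Real.rpow_natCast, ← Real.rpow_mul hMpos.le, div_mul_cancel₀ _ hs0.ne']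
    norm_cast
  have hx3 : x ^ 3 = (M : ℝ) ^ (12 / (s : ℝ)) := by
    rw [hx, ← Real.rpow_natCast, ← Real.rpow_mul hMpos.le]
    congr 1
    push_cast
    ring
  have hx2 : x ≤ (M : ℝ) ^ 2 := by
    rw [hx, ← Real.rpow_natCast]
    refine Real.rpow_le_rpow_of_exponent_le hM0 ?_
    rw [div_le_iff₀ hs0]
    have : (2 : ℝ) ≤ s := by exact_mod_cast hs
    push_cast
    linarith only [this]
  obtain ⟨c, hc⟩ : ∃ c, c = ⌈x⌉₊ := ⟨_, rfl⟩
  have hcx : x ≤ c := by rw [hc]; exact Nat.le_ceil x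
  have hc2 : (c : ℝ) ≤ 2 * x := by
    have := Nat.ceil_lt_add_one (show 0 ≤ x by linarith only [hx1])
    rw [← hc] at this
    linarith only [hx1, this]
  have hc1 : 1 ≤ c := by
    have : (1 : ℝ) ≤ c := le_trans hx1 hcx
    exact_mod_cast this
  have hcM : c ≤ M ^ 2 := by
    rw [hc]
    refine Nat.ceil_le.2 ?_
    push_cast
    exact hx2
  have hcs : M ^ 4 ≤ c ^ s := by
    have h1 : (M : ℝ) ^ 4 ≤ (c : ℝ) ^ s := by
      rw [← hxs]
      exact pow_le_pow_left₀ (by linarith only [hx1]) hcx s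
    exact_mod_cast h1
  refine region_one s M t c hs hM ht2 ht3 ht4 (by omega) hcs hcM hc1 d ?_
  have hts : (t : ℝ) * s ≤ 2 * M := by
    have : t * s ≤ 2 * M := by omega
    exact_mod_cast this
  have hfin : (2 : ℝ) ^ 30 * (c : ℝ) ^ 3 * (t : ℝ) ^ 4 * s ≤ d := by
    refine le_trans ?_ hd
    rw [le_div_iff₀ (by positivity)]
    have h1 : (c : ℝ) ^ 3 ≤ 8 * x ^ 3 := by
      calc (c : ℝ) ^ 3 ≤ (2 * x) ^ 3 := pow_le_pow_left₀ (by positivity) hc2 3
        _ = 8 * x ^ 3 := by ring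
    have h2 : ((t : ℝ) * s) ^ 4 ≤ 16 * (M : ℝ) ^ 4 := by
      calc ((t : ℝ) * s) ^ 4 ≤ (2 * (M : ℝ)) ^ 4 := pow_le_pow_left₀ (by positivity) hts 4
        _ = _ := by ring
    calc (2 : ℝ) ^ 30 * (c : ℝ) ^ 3 * (t : ℝ) ^ 4 * s * s ^ 3 =
        (2 : ℝ) ^ 30 * (c : ℝ) ^ 3 * ((t : ℝ) * s) ^ 4 := by ring
      _ ≤ (2 : ℝ) ^ 30 * (8 * x ^ 3) * (16 * (M : ℝ) ^ 4) :=
          mul_le_mul (mul_le_mul_of_nonneg_left h1 (by positivity)) h2 (by positivity)
            (by positivity)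
      _ = _ := by rw [← hx3]; ring
  exact_mod_cast hfin

/-- The region of exactness, every dimension. -/
theorem region_real : ∃ C : ℝ, 0 < C ∧ ∀ r M : ℕ, 1 ≤ r → 1 ≤ M → ∀ d : ℕ,
    C * M * (1 + (M : ℝ) / r) ^ 3 * (M : ℝ) ^ (22 / (r : ℝ)) ≤ d →
    ∀ (k : ℕ) (m : Fin k → ℕ), (∀ i, m i ≤ M) →
    ForGeneralPoints r k fun p => ImposesMaximalConditions r d p m := by
  obtain ⟨K, hK⟩ := PE.cF
  refine ⟨2 ^ 162 + 8 * K, by positivity, fun r M hr hM d hd k m hm => ?_⟩
  have hM0 : (1 : ℝ) ≤ M := by exact_mod_cast hM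
  have hMpos : (0 : ℝ) < M := by linarith only [hM0]
  have hK0 : (0 : ℝ) ≤ K := Nat.cast_nonneg K
  have hr0 : (0 : ℝ) < r := by exact_mod_cast hr
  have hpow : 1 ≤ (M : ℝ) ^ (22 / (r : ℝ)) := Real.one_le_rpow hM0 (by positivity)
  have hq : 1 ≤ 1 + (M : ℝ) / r := by
    have : 0 ≤ (M : ℝ) / r := by positivity
    linarith only [this]
  have hq3 : 1 ≤ (1 + (M : ℝ) / r) ^ 3 := one_le_pow₀ hq
  have hlin : (2 : ℝ) ^ 162 * M ≤ d := by
    refine le_trans ?_ hd
    calc (2 : ℝ) ^ 162 * M = 2 ^ 162 * M * 1 * 1 := by ring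
      _ ≤ (2 ^ 162 + 8 * K) * M * (1 + (M : ℝ) / r) ^ 3 * (M : ℝ) ^ (22 / (r : ℝ)) := by
          refine mul_le_mul (mul_le_mul (mul_le_mul_of_nonneg_right (by linarith only) hMpos.le) hq3
            (by norm_num) (by positivity)) hpow (by norm_num) (by positivity)
  rcases Nat.lt_or_ge r 3 with h3 | h3
  · rcases Nat.lt_or_ge r 2 with h2 | h2
    · obtain rfl : r = 1 := by omega
      refine exact_fat 0 M hM d ?_ k m hm
      change 1 ≤ d
      have : (1 : ℝ) ≤ d := le_trans (by nlinarith only [hM0]) hlin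
      exact_mod_cast this
    · obtain rfl : r = 2 := by omega
      refine exact_fat 1 M hM d (le_trans (hK M hM) ?_) k m hm
      have h4 : (K : ℝ) * (M : ℝ) ^ 15 ≤ d := by
        refine le_trans ?_ hd
        have e1 : (M : ℝ) ^ (22 / ((2 : ℕ) : ℝ)) = (M : ℝ) ^ 11 := by
          rw [← Real.rpow_natCast]
          congr 1
          norm_num
        rw [e1]
        have e2 : (M : ℝ) ^ 3 / 8 ≤ (1 + (M : ℝ) / ((2 : ℕ) : ℝ)) ^ 3 := by
          calc (M : ℝ) ^ 3 / 8 = ((M : ℝ) / ((2 : ℕ) : ℝ)) ^ 3 := by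
                push_cast
                ring
            _ ≤ _ := pow_le_pow_left₀ (by positivity) (by linarith only) 3
        calc (K : ℝ) * (M : ℝ) ^ 15 = (8 * K) * M * ((M : ℝ) ^ 3 / 8) * (M : ℝ) ^ 11 := by ring
          _ ≤ (2 ^ 162 + 8 * K) * M * (1 + (M : ℝ) / ((2 : ℕ) : ℝ)) ^ 3 * (M : ℝ) ^ 11 := by
              refine mul_le_mul_of_nonneg_right (mul_le_mul (mul_le_mul_of_nonneg_right
                ?_ hMpos.le) e2 (by positivity) (by positivity)) (by positivity)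
              have : (0 : ℝ) ≤ 2 ^ 162 := by positivity
              linarith only
      exact_mod_cast h4
  · obtain ⟨s, rfl⟩ : ∃ s, r = s + 1 := ⟨r - 1, by omega⟩
    rcases Nat.lt_or_ge s M with hsM | hsM
    · refine region_mid s M (by omega) hM hsM.le d ?_ k m hm
      refine le_trans ?_ hd
      have hs2 : (2 : ℝ) ≤ s := by
        have : 2 ≤ s := by omega
        exact_mod_cast this
      have hs0 : (0 : ℝ) < s := by linarith only [hs2]
      have e1 : (M : ℝ) ^ (12 / (s : ℝ)) ≤ (M : ℝ) ^ (22 / ((s + 1 : ℕ) : ℝ)) := by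
        refine Real.rpow_le_rpow_of_exponent_le hM0 ?_
        rw [div_le_div_iff₀ hs0 (by positivity)]
        push_cast
        linarith only [hs2]
      have e2 : (M : ℝ) ^ 3 / s ^ 3 ≤ 4 * (1 + (M : ℝ) / ((s + 1 : ℕ) : ℝ)) ^ 3 := by
        have h5 : (M : ℝ) / s ≤ 3 / 2 * ((M : ℝ) / ((s + 1 : ℕ) : ℝ)) := by
          rw [← mul_div_assoc, div_le_div_iff₀ hs0 (by positivity)]
          push_cast
          nlinarith only [hs2]
        have h6 : 0 ≤ (M : ℝ) / ((s + 1 : ℕ) : ℝ) := by positivity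
        calc (M : ℝ) ^ 3 / s ^ 3 = ((M : ℝ) / s) ^ 3 := by rw [div_pow]
          _ ≤ (3 / 2 * ((M : ℝ) / ((s + 1 : ℕ) : ℝ))) ^ 3 :=
              pow_le_pow_left₀ (by positivity) h5 3
          _ = 27 / 8 * ((M : ℝ) / ((s + 1 : ℕ) : ℝ)) ^ 3 := by ring
          _ ≤ 4 * ((M : ℝ) / ((s + 1 : ℕ) : ℝ)) ^ 3 :=
              mul_le_mul_of_nonneg_right (by norm_num) (by positivity)
          _ ≤ _ := mul_le_mul_of_nonneg_left (pow_le_pow_left₀ h6 (by linarith only) 3) (by norm_num)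
      calc (2 : ℝ) ^ 37 * (M : ℝ) ^ (12 / (s : ℝ)) * M ^ 4 / s ^ 3 =
          (2 : ℝ) ^ 37 * M * ((M : ℝ) ^ 3 / s ^ 3) * (M : ℝ) ^ (12 / (s : ℝ)) := by ring
        _ ≤ (2 : ℝ) ^ 37 * M * (4 * (1 + (M : ℝ) / ((s + 1 : ℕ) : ℝ)) ^ 3) *
            (M : ℝ) ^ (22 / ((s + 1 : ℕ) : ℝ)) :=
            mul_le_mul (mul_le_mul_of_nonneg_left e2 (by positivity)) e1 (by positivity)
              (by positivity)
        _ = (2 ^ 37 * 4) * M * (1 + (M : ℝ) / ((s + 1 : ℕ) : ℝ)) ^ 3 *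
            (M : ℝ) ^ (22 / ((s + 1 : ℕ) : ℝ)) := by ring
        _ ≤ _ := by
            refine mul_le_mul_of_nonneg_right (mul_le_mul_of_nonneg_right
              (mul_le_mul_of_nonneg_right ?_ hMpos.le) (by positivity)) (by positivity)
            have : (2 : ℝ) ^ 37 * 4 ≤ 2 ^ 162 := by norm_num
            linarith only
    · refine region_two s M (by omega) hM hsM d ?_ k m hm
      exact_mod_cast hlin

end Pool.Agent.H21.NX

end

section

/-!
# Project TB: final theorems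
-/

namespace Pool.Agent.H51.TB

open Finset MvPolynomial Pool.Agent.H18.Fat Pool.Agent.H18.Ex Pool.Agent.H21.NX

/-- Bounded multiplicities. -/
theorem bounded (η : ℝ) (hη : 0 < η) : ∃ C : ℝ, 0 < C ∧ ∃ r₀ K : ℕ → ℕ, ∀ r M d k : ℕ, 1 ≤ r →
    1 ≤ M → ∀ m : Fin k → ℕ, (∀ i, 1 ≤ m i ∧ m i ≤ M) →
    (C * M * (1 + (M : ℝ) / r) ^ 3 * (M : ℝ) ^ (22 / (r : ℝ)) ≤ d ∨
      (r₀ M ≤ r ∧ 2 * M ≤ d) ∨
      (r₀ M ≤ r ∧ 2 * M ≤ d + 1 ∧
        (((univ.filter fun i => m i = M).card * (M + r - 1).choose r : ℕ) : ℝ) ≤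
          (1 - η) * ((d + r).choose r : ℝ)) ∨
      (r₀ M ≤ r ∧ 2 * M ≤ d + 1 ∧ ∃ μ, 1 ≤ μ ∧ 2 * μ + M ≤ d + 1 ∧
        K M * r ^ (d - μ) ≤ (univ.filter fun i => m i = μ).card)) →
    ForGeneralPoints r k fun p => ImposesMaximalConditions r d p m := by
  obtain ⟨C, hC, h1⟩ := Pool.Agent.H21.NX.region_real
  choose r₁ K h2 using Pool.Agent.H21.NX.exact_high
  choose R hR using fun d => pairs_all d (min η 1) (lt_min hη one_pos)
  have key : ∀ M r d k : ℕ, r₁ M + (range (3 * M)).sup R ≤ r → 2 * M ≤ d + 1 →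
      ∀ m : Fin k → ℕ, (∀ i, 1 ≤ m i ∧ m i ≤ M) →
      (2 * M ≤ d ∨ (((univ.filter fun i => m i = M).card * (M + r - 1).choose r : ℕ) : ℝ) ≤
          (1 - η) * ((d + r).choose r : ℝ)) →
      ForGeneralPoints r k fun p => ImposesMaximalConditions r d p m := by
    intro M r d k hr hd m hm hcase
    by_cases h3 : 3 * M ≤ d + 1
    · exact h2 M r d (by omega) hd k m (fun i => (hm i).2) (Or.inl h3)
    · have hRd : R d ≤ (range (3 * M)).sup R := le_sup (f := R) (mem_range.2 (by omega))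
      refine hR d r (by omega) k m (fun i => (hm i).1) (fun i j _ => ?_) ?_
      · have := (hm i).2
        have := (hm j).2
        omega
      · have hN : (0 : ℝ) ≤ ((d + r).choose r : ℝ) := Nat.cast_nonneg _
        have e1 : min η 1 ≤ η := min_le_left _ _
        have e2 : min η 1 ≤ 1 := min_le_right _ _
        by_cases h4 : 2 * M ≤ d
        · have hempty : (univ.filter fun i => 2 * m i = d + 1) = ∅ := by
            rw [filter_eq_empty_iff]
            intro i _ hi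
            have := (hm i).2
            omega
          rw [hempty, sum_empty, Nat.cast_zero]
          nlinarith
        · rcases hcase with h5 | h5
          · exact absurd h5 h4
          · have hf : (univ.filter fun i => 2 * m i = d + 1) = univ.filter fun i => m i = M := by
              refine filter_congr fun i _ => ?_
              constructor <;> intro h <;> omega
            have hs : ∑ i ∈ univ.filter (fun i => 2 * m i = d + 1), ell r (m i) =
                (univ.filter fun i => m i = M).card * (M + r - 1).choose r := by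
              rw [hf]
              rw [sum_congr rfl (g := fun _ => (M + r - 1).choose r)]
              · rw [sum_const, smul_eq_mul]
              · intro i hi
                rw [(mem_filter.1 hi).2]
                rfl
            rw [hs]
            refine h5.trans ?_
            nlinarith
  refine ⟨C, hC, fun M => r₁ M + (range (3 * M)).sup R, K, fun r M d k hr hM m hm hcase => ?_⟩
  rcases hcase with h | ⟨h3, h4⟩ | ⟨h3, h4, h5⟩ | ⟨h3, h4, h5⟩
  · exact h1 r M hr hM d h k m (fun i => (hm i).2)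
  · exact key M r d k h3 (by omega) m hm (Or.inl h4)
  · exact key M r d k h3 h4 m hm (Or.inr h5)
  · have h6 : r₁ M + (range (3 * M)).sup R ≤ r := h3
    exact h2 M r d (by omega) h4 k m (fun i => (hm i).2) (Or.inr h5)

end Pool.Agent.H51.TB

end

section

/-!
# The critical degree `d = 2 M - 1`: from the critical density to all tuples

`Crit M`: in degree `2 M - 1` and for `r` large the dimension is the expected one if the `M`-fold
points carry between `(1 - ε) N` and `(1 + ε) N` conditions and the others at most `ε N`,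
`N = binom(2 M - 1 + r, r)`.  Then this holds for all tuples with multiplicities at most `M`.
-/

namespace Pool.Agent.H74.V7

open Finset MvPolynomial Pool.Agent.H18.Fat Pool.Agent.H18.Ex Pool.Agent.H21.NX Pool.Agent.H74.SC.WinD Pool.Agent.H21.NX.GenBX

/-- All tuples with multiplicities at most `M` in degree `2 M - 1`. -/
theorem crit_all (M : ℕ) (hM : 1 ≤ M) (hc : Crit M) : ∃ r₀ : ℕ, ∀ r, r₀ ≤ r → ∀ (k : ℕ)
    (m : Fin k → ℕ), (∀ i, 1 ≤ m i ∧ m i ≤ M) →
    ForGeneralPoints r k fun p => ImposesMaximalConditions r (2 * M - 1) p m := by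
  classical
  obtain ⟨ε, hε, r₁, h1⟩ := hc
  obtain ⟨C, hC, r₂, K, h2⟩ := Pool.Agent.H51.TB.bounded (ε / 2) (by linarith)
  obtain ⟨r₃, h3⟩ := ell_small M hM (ε / 2) (by linarith)
  refine ⟨r₁ + r₂ M + r₃ + 1, fun r hr k m hm => ?_⟩
  have hr1 : 1 ≤ r := by omega
  have hsub := fun S : Finset (Fin k) => h1 r (by omega) S.card
    (fun i => m (S.equivFin.symm i)) (fun i => hm _)
  obtain ⟨N, hN⟩ : ∃ N, N = (2 * M - 1 + r).choose r := ⟨_, rfl⟩
  obtain ⟨ℓ, hℓ⟩ : ∃ ℓ, ℓ = ell r M := ⟨_, rfl⟩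
  have hsmall : (ℓ : ℝ) ≤ ε / 2 * N := by
    rw [hℓ, hN]
    exact h3 r (by omega)
  have hNnn : (0 : ℝ) ≤ N := Nat.cast_nonneg _
  have hℓpos : 1 ≤ ℓ := by
    rw [hℓ]
    exact ell_pos r hM
  rw [← hN, ← hℓ] at hsub
  obtain ⟨A, hA⟩ : ∃ A : Finset (Fin k), A = univ.filter fun i => m i = M := ⟨_, rfl⟩
  by_cases hlow : ((A.card * ℓ : ℕ) : ℝ) ≤ (1 - ε / 2) * N
  · refine h2 r M (2 * M - 1) k hr1 hM m hm (Or.inr (Or.inr (Or.inl ⟨by omega, by omega, ?_⟩)))
    rw [hA, hℓ, hN] at hlow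
    exact hlow
  push Not at hlow
  have hsumS : ∀ S : Finset (Fin k), (∀ i ∈ S, m i = M) →
      ∑ i ∈ S, ell r (m i) = S.card * ℓ := by
    intro S hS
    rw [Finset.sum_congr rfl fun i hi => by rw [hS i hi], Finset.sum_const, smul_eq_mul, hℓ]
  -- a subfamily which kills everything
  have hkill : ∀ S : Finset (Fin k),
      |((((S.filter fun i => m i = M).card * ℓ : ℕ) : ℝ)) - N| ≤ ε * N →
      ((∑ i ∈ S.filter fun i => m i < M, ell r (m i) : ℕ) : ℝ) ≤ ε * N →
      (N : ℝ) ≤ ((∑ i ∈ S, ell r (m i) : ℕ) : ℝ) →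
      ForGeneralPoints r k fun p => ImposesMaximalConditions r (2 * M - 1) p m := by
    intro S hS1 hS2 hS3
    have h5 := hsub S (by rw [card_filter_sub S fun i => m i = M]; exact hS1) (by
      rw [sum_filter_sub S (fun i => m i < M) fun i => ell r (m i)]
      exact hS2)
    rw [sum_sub S fun i => ell r (m i)] at h5
    have h6 : N ≤ ∑ i ∈ S, ell r (m i) := by exact_mod_cast hS3
    have h7 := gdim_zero_of_sub r (2 * M - 1) m S (by omega)
    have h8 : ∑ i ∈ S, ell r (m i) ≤ ∑ i, ell r (m i) :=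
      Finset.sum_le_sum_of_subset (Finset.subset_univ S)
    refine max_of_gdim r (2 * M - 1) m ?_
    rw [← hN]
    omega
  by_cases hover : N < A.card * ℓ
  · -- case A
    obtain ⟨S, hS, hcard⟩ := Finset.exists_subset_card_eq
      (show N / ℓ + 1 ≤ A.card from (Nat.div_lt_iff_lt_mul hℓpos).2 hover)
    have hSM : ∀ i ∈ S, m i = M := fun i hi => by
      have := hS hi
      rw [hA, mem_filter] at this
      exact this.2
    have hf1 : S.filter (fun i => m i = M) = S := Finset.filter_true_of_mem hSM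
    have hf2 : S.filter (fun i => m i < M) = ∅ := by
      rw [Finset.filter_eq_empty_iff]
      intro i hi
      have := hSM i hi
      omega
    have hd1 : N < (N / ℓ + 1) * ℓ := by
      have := Nat.lt_div_mul_add (a := N) hℓpos
      rw [Nat.add_mul, Nat.one_mul]
      exact this
    have hd2 : (N / ℓ + 1) * ℓ ≤ N + ℓ := by
      rw [Nat.add_mul, Nat.one_mul]
      have := Nat.div_mul_le_self N ℓ
      omega
    have hd1' : (N : ℝ) < (((N / ℓ + 1) * ℓ : ℕ) : ℝ) := by exact_mod_cast hd1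
    have hd2' : (((N / ℓ + 1) * ℓ : ℕ) : ℝ) ≤ N + ℓ := by exact_mod_cast hd2
    refine hkill S ?_ ?_ ?_
    · rw [hf1, hcard, abs_le]
      constructor <;> nlinarith
    · rw [hf2, Finset.sum_empty, Nat.cast_zero]
      positivity
    · rw [hsumS S hSM, hcard]
      exact hd1'.le
  · push Not at hover
    have hover' : ((A.card * ℓ : ℕ) : ℝ) ≤ N := by exact_mod_cast hover
    have habs : |((A.card * ℓ : ℕ) : ℝ) - N| ≤ ε * N := by
      rw [abs_le]
      constructor <;> nlinarith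
    by_cases hQ : ((∑ i ∈ univ.filter fun i => m i < M, ell r (m i) : ℕ) : ℝ) ≤ ε * N
    · -- directly
      have h5 := h1 r (by omega) k m hm (by rw [← hN, ← hℓ, ← hA]; exact habs)
        (by rw [← hN]; exact hQ)
      exact max_of_gdim r (2 * M - 1) m h5
    · push Not at hQ
      obtain ⟨T, hT, hT1, hT2⟩ := exists_sub_sum (fun i => ell r (m i)) ℓ (ε * N) (by positivity)
        (univ.filter fun i => m i < M) (fun i _ => by rw [hℓ]; exact ell_mono r (hm i).2) hQ
      have hTM : ∀ i ∈ T, m i < M := fun i hi => (mem_filter.1 (hT hi)).2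
      have hAM : ∀ i ∈ A, m i = M := fun i hi => by
        rw [hA, mem_filter] at hi
        exact hi.2
      have hdisj : Disjoint A T := by
        rw [Finset.disjoint_left]
        intro i hi hi'
        have := hAM i hi
        have := hTM i hi'
        omega
      have hf1 : (A ∪ T).filter (fun i => m i = M) = A := by
        rw [Finset.filter_union, Finset.filter_true_of_mem hAM, Finset.filter_false_of_mem
          (fun i hi => (hTM i hi).ne), Finset.union_empty]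
      have hf2 : (A ∪ T).filter (fun i => m i < M) = T := by
        rw [Finset.filter_union, Finset.filter_true_of_mem hTM, Finset.filter_false_of_mem
          (fun i hi => by rw [hAM i hi]; exact lt_irrefl _), Finset.empty_union]
      refine hkill (A ∪ T) ?_ ?_ ?_
      · rw [hf1]
        exact habs
      · rw [hf2]
        exact hT1
      · rw [Finset.sum_union hdisj, hsumS A hAM, Nat.cast_add]
        nlinarith

end Pool.Agent.H74.V7

end

section

/-!
# The final theorems from `Crit M`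

* `exact_crit`: for `r ≥ r₀(M)` no tuple with multiplicities at most `M` fails in degree `2 M - 1`;
* `bounded_final`: bounded multiplicities, all degrees `d ≥ 2 M - 1`;
* `fixed_final`: fixed degree, all tuples with `m_i + m_j ≤ d + 1`.
-/

namespace Pool.Agent.H74.V7

open Finset MvPolynomial Pool.Agent.H18.Fat Pool.Agent.H18.Ex Pool.Agent.H21.NX Pool.Agent.H74.SC.WinD Pool.Agent.H21.NX.GenBX

/-- Simple points. -/
theorem simple_exact (r d : ℕ) (hr : 1 ≤ r) {k : ℕ} (m : Fin k → ℕ) (hm : ∀ i, m i ≤ 1) :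
    gdim r d m = (d + r).choose r - ∑ i, ell r (m i) := by
  have h1 := le_gdim r d hr m
  have hℓ : ell r 1 - 1 = 0 := by
    unfold ell
    rw [show 1 + r - 1 = r by omega, Nat.choose_self]
  by_cases h0 : gdim r d m = 0
  · omega
  · have h2 := alive r d hr 1 (by omega) (Fin k) m hm (by
      intro h3
      apply h0
      have : IsEmpty (Fin (ell r 1 - 1)) := by
        rw [hℓ]
        infer_instance
      have h4 := gdim_comp_equiv r d (Equiv.sumEmpty (Fin k) (Fin (ell r 1 - 1))).symm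
        (Sum.elim m fun _ : Fin (ell r 1 - 1) => 1)
      have h5 : (fun i => Sum.elim m (fun _ : Fin (ell r 1 - 1) => 1)
          ((Equiv.sumEmpty (Fin k) (Fin (ell r 1 - 1))).symm i)) = m := by
        funext i
        rfl
      rw [h5, h3] at h4
      exact h4)
    omega

/-- No tuple with multiplicities at most `M` fails in degree `2 M - 1`, `r ≥ r₀(M)`. -/
theorem exact_crit (hc : ∀ M, 2 ≤ M → Crit M) (M : ℕ) (hM : 1 ≤ M) : ∃ r₀ : ℕ, ∀ r, r₀ ≤ r →
    ∀ (k : ℕ) (m : Fin k → ℕ), (∀ i, 1 ≤ m i ∧ m i ≤ M) →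
    ForGeneralPoints r k fun p => ImposesMaximalConditions r (2 * M - 1) p m := by
  rcases Nat.lt_or_ge 1 M with h | h
  · exact crit_all M hM (hc M h)
  · refine ⟨1, fun r hr k m hm => max_of_gdim r _ m (simple_exact r _ hr m fun i => ?_)⟩
    have := (hm i).2
    omega

/-- Bounded multiplicities. -/
theorem bounded_final (hc : ∀ M, 2 ≤ M → Crit M) : ∃ C : ℝ, 0 < C ∧ ∃ r₀ : ℕ → ℕ,
    ∀ r M d k : ℕ, 1 ≤ r → 1 ≤ M → ∀ m : Fin k → ℕ, (∀ i, 1 ≤ m i ∧ m i ≤ M) →
    (C * M * (1 + (M : ℝ) / r) ^ 3 * (M : ℝ) ^ (22 / (r : ℝ)) ≤ d ∨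
      (r₀ M ≤ r ∧ 2 * M ≤ d + 1)) →
    ForGeneralPoints r k fun p => ImposesMaximalConditions r d p m := by
  obtain ⟨C, hC, r₁, K, h1⟩ := Pool.Agent.H51.TB.bounded 1 one_pos
  have h2 : ∀ M : ℕ, ∃ r₂ : ℕ, 1 ≤ M → ∀ r, r₂ ≤ r → ∀ (k : ℕ) (m : Fin k → ℕ),
      (∀ i, 1 ≤ m i ∧ m i ≤ M) →
      ForGeneralPoints r k fun p => ImposesMaximalConditions r (2 * M - 1) p m := by
    intro M
    by_cases hM : 1 ≤ M
    · obtain ⟨r₂, h⟩ := exact_crit hc M hM
      exact ⟨r₂, fun _ => h⟩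
    · exact ⟨0, fun h => absurd h hM⟩
  choose r₂ h2 using h2
  refine ⟨C, hC, fun M => r₁ M + r₂ M, fun r M d k hr hM m hm hcase => ?_⟩
  rcases hcase with h | ⟨h3, h4⟩
  · exact h1 r M d k hr hM m hm (Or.inl h)
  · have h3' : r₁ M + r₂ M ≤ r := h3
    by_cases h5 : 2 * M ≤ d
    · exact h1 r M d k hr hM m hm (Or.inr (Or.inl ⟨by omega, h5⟩))
    · have h6 := h2 M hM r (by omega) k m hm
      rwa [show 2 * M - 1 = d by omega] at h6

/-- Fixed degree, pair sums at most `d + 1`. -/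
theorem fixed_final (hc : ∀ M, 2 ≤ M → Crit M) (d : ℕ) : ∃ r₀ : ℕ, ∀ r : ℕ, r₀ ≤ r → ∀ (k : ℕ)
    (m : Fin k → ℕ), (∀ i, 1 ≤ m i) → (∀ i j, i ≠ j → m i + m j ≤ d + 1) →
    ForGeneralPoints r k fun p => ImposesMaximalConditions r d p m := by
  obtain ⟨r₁, K, h₁⟩ := Pool.Agent.H51.TB.fixed_one d 1 one_pos
  obtain ⟨r₂, h₂⟩ : ∃ r₂ : ℕ, ∀ M, 2 * M = d + 1 → ∀ r, r₂ ≤ r → ∀ (k : ℕ) (m : Fin k → ℕ),
      (∀ i, 1 ≤ m i ∧ m i ≤ M) →
      ForGeneralPoints r k fun p => ImposesMaximalConditions r d p m := by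
    by_cases hd : ∃ M, 2 * M = d + 1
    · obtain ⟨M, hM⟩ := hd
      obtain ⟨r₂, h⟩ := exact_crit hc M (by omega)
      refine ⟨r₂, fun M' hM' r hr k m hm => ?_⟩
      have h6 := h r hr k m fun i => ⟨(hm i).1, (hm i).2.trans (by omega)⟩
      rwa [show 2 * M - 1 = d by omega] at h6
    · exact ⟨0, fun M hM => absurd ⟨M, hM⟩ hd⟩
  refine ⟨r₁ + r₂, fun r hr k m hm hp => ?_⟩
  by_cases hne : (univ.filter fun i => 2 * m i = d + 1).Nonempty
  · obtain ⟨i₀, hi₀⟩ := hne
    rw [mem_filter] at hi₀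
    refine h₂ (m i₀) hi₀.2 r (by omega) k m fun i => ⟨hm i, ?_⟩
    by_cases hi : i = i₀
    · rw [hi]
    · have := hp i i₀ hi
      omega
  · rw [Finset.not_nonempty_iff_eq_empty] at hne
    refine h₁ r (by omega) k m hm hp (Or.inl ?_)
    rw [hne, sum_empty, Nat.cast_zero]
    simp

end Pool.Agent.H74.V7

end
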